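import Pool.Agent.Lib.MP_33b3f9_ag.M4.NTGen

/-!
The number of places of a given type.
-/

open Finset NumberField Module

namespace M4.NT

variable {F : Type} [Field F] [NumberField F]

lemma norm_mem (hF : finrank ℚ F = 3) {t : F}
    (h : ∀ σ : F →+* ℂ, ∃ x : ℝ, σ t = x ∧ 0 < x ∧ x < 4) :
    0 < Algebra.norm ℚ t ∧ Algebra.norm ℚ t ≤ 64 := by
  choose x hx h0 h4 using h
  have e : ((Algebra.norm ℚ t : ℚ) : ℝ) = ∏ σ, x σ := by
    have := norm_eq_prod t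
    rw [prod_congr rfl fun σ _ => hx σ] at this
    exact_mod_cast this
  have h1 : (0 : ℝ) < ∏ σ, x σ := prod_pos fun σ _ => h0 σ
  have h2 : ∏ σ, x σ ≤ ∏ _σ : F →+* ℂ, (4 : ℝ) :=
    prod_le_prod (fun σ _ => (h0 σ).le) fun σ _ => (h4 σ).le
  rw [prod_const, card_univ, Embeddings.card, hF, ← e] at h2
  rw [← e] at h1
  exact ⟨by exact_mod_cast h1, by norm_num at h2; exact_mod_cast h2⟩

lemma Plc.norms (hF : finrank ℚ F = 3) {p : ℕ} {t : F} {Δ : ℤ} (h : Plc p t Δ) :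
    (0 < Algebra.norm ℚ t ∧ Algebra.norm ℚ t ≤ 64) ∧
    (0 < Algebra.norm ℚ (4 - t) ∧ Algebra.norm ℚ (4 - t) ≤ 64) ∧
    (Δ : ℚ) = -((p : ℚ) ^ 2 * (Algebra.norm ℚ t * Algebra.norm ℚ (4 - t))) := by
  refine ⟨norm_mem hF h.re, norm_mem hF fun σ => ?_, ?_⟩
  · obtain ⟨x, hx, h0, h4⟩ := h.re σ
    exact ⟨4 - x, by simp [hx, map_ofNat], by linarith, by linarith⟩
  · have : t * (t - 4) = algebraMap ℚ F (-1) * (t * (4 - t)) := by simp; ring
    rw [h.disc, this, map_mul, map_mul, Algebra.norm_algebraMap, hF]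
    ring

theorem Plc.bound {F : Type} [Field F] [NumberField F] (hF : finrank ℚ F = 3) {p : ℕ} {t : F}
    {Δ : ℤ} (h : Plc p t Δ) : Δ < 0 ∧ Δ.natAbs ≤ 4096 * p ^ 2 := by
  obtain ⟨⟨h1, h2⟩, ⟨h3, h4⟩, h5⟩ := h.norms hF
  have hp : (0 : ℚ) < (p : ℚ) ^ 2 := pow_pos (by exact_mod_cast h.prime.pos) 2
  have h6 := mul_pos hp (mul_pos h1 h3)
  have h7 : (Δ : ℚ) < 0 := by linarith
  have h8 : Δ < 0 := by exact_mod_cast h7
  have h9 := mul_le_mul_of_nonneg_left (mul_le_mul h2 h4 h3.le (by norm_num)) hp.le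
  have h10 : ((-Δ : ℤ) : ℚ) ≤ ((4096 * p ^ 2 : ℕ) : ℤ) := by push_cast; linarith
  have h11 : -Δ ≤ ((4096 * p ^ 2 : ℕ) : ℤ) := by exact_mod_cast h10
  exact ⟨h8, by omega⟩

lemma sqf_aux {δ a c k : ℕ} (hδ : Squarefree δ) (ha : a ≠ 0) (h : a ^ 2 * c = δ * k ^ 2) :
    ∃ m, c = δ * m ^ 2 := by
  have h1 : a ^ 2 ∣ k ^ 2 := by
    obtain ⟨g, a', k', hg, hc, rfl, rfl⟩ := Nat.exists_coprime' (Nat.gcd_pos_of_pos_left k
      (Nat.pos_of_ne_zero ha))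
    have h2 : a' ^ 2 * c = δ * k' ^ 2 := by
      refine Nat.eq_of_mul_eq_mul_left (pow_pos hg 2) ?_
      calc g ^ 2 * (a' ^ 2 * c) = (a' * g) ^ 2 * c := by ring
        _ = _ := by rw [h]; ring
    have h3 : a' ^ 2 ∣ δ := (hc.pow 2 2).dvd_of_dvd_mul_right ⟨c, h2.symm⟩
    have h4 : a' = 1 := Nat.isUnit_iff.mp (hδ a' (by rwa [← sq]))
    subst h4
    exact pow_dvd_pow_of_dvd (mul_dvd_mul_right (one_dvd _) g) 2
  obtain ⟨m, rfl⟩ := (Nat.pow_dvd_pow_iff two_ne_zero).mp h1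
  refine ⟨m, Nat.eq_of_mul_eq_mul_left (pow_pos (Nat.pos_of_ne_zero ha) 2) ?_⟩
  rw [h]; ring

lemma natAbs_norm_cast (x : 𝓞 F) :
    (((Algebra.norm ℤ x).natAbs : ℕ) : ℚ) = |Algebra.norm ℚ (x : F)| := by
  rw [← Algebra.coe_norm_int, Nat.cast_natAbs, Int.cast_abs]

lemma Plc.data (hF : finrank ℚ F = 3) {C : ℕ} (hC : ∀ I : Ideal (𝓞 F), I ≠ ⊥ →
    ∃ β ∈ I, β ≠ 0 ∧ (Algebra.norm ℤ β).natAbs ≤ C * Ideal.absNorm I ∧
      ∀ σ : F →+* ℂ, ‖σ (β : F)‖ ≤ C * Ideal.absNorm I) {p δ : ℕ} {t : F} {Δ k : ℤ}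
    (h : Plc p t Δ) (hδ : Squarefree δ) (hk : Δ = -(δ : ℤ) * k ^ 2) :
    ∃ (n a m : ℕ) (g g' : 𝓞 F), 1 ≤ n ∧ n ≤ C ∧ 1 ≤ a ∧ a ^ 2 ≤ 64 * p ∧ 1 ≤ m ∧
      δ * m ^ 2 ≤ 64 * p * C ^ 2 ∧ (Algebra.norm ℤ g).natAbs = n * a ^ 2 ∧
      n * (Algebra.norm ℤ g').natAbs = δ * m ^ 2 ∧ (Algebra.norm ℤ (g + g')).natAbs = 64 * (p * n) ∧
      (∀ σ : F →+* ℂ, ‖σ (g : F)‖ ≤ 4 * (C * p)) ∧ ∀ σ : F →+* ℂ, ‖σ (g' : F)‖ ≤ 4 * (C * p) := by
  obtain ⟨⟨h1, h2⟩, ⟨h3, h4⟩, h5⟩ := h.norms hF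
  obtain ⟨w, hw, hwt⟩ := h.den
  obtain ⟨a, ha⟩ := h.sq
  have hp := h.prime.pos
  have hp' : (0 : ℚ) < p := by exact_mod_cast hp
  obtain ⟨β, hβ, hβ0, hβ1, hβ2⟩ := hC w (by
    rintro rfl; rw [Ideal.absNorm_bot] at hw; omega)
  rw [hw] at hβ1 hβ2
  obtain ⟨n, hn⟩ : p ∣ (Algebra.norm ℤ β).natAbs := by
    have := Ideal.absNorm_dvd_norm_of_mem hβ
    rw [hw] at this
    exact Int.natCast_dvd.mp this
  have hn0 : n ≠ 0 := by
    rintro rfl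
    exact hβ0 (Algebra.norm_eq_zero_iff.mp (Int.natAbs_eq_zero.mp hn))
  have hnC : n ≤ C := by
    rw [hn, mul_comm C] at hβ1
    exact Nat.le_of_mul_le_mul_left hβ1 hp
  have hβn : |Algebra.norm ℚ (β : F)| = p * n := by rw [← natAbs_norm_cast, hn]; push_cast; ring
  let g : 𝓞 F := ⟨β * t, hwt β hβ⟩
  have hg : (g : F) = β * t := rfl
  have hg' : ((4 * β - g : 𝓞 F) : F) = β * (4 - t) := by
    rw [RingOfIntegers.coe_eq_algebraMap, map_sub, map_mul, map_ofNat,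
      ← RingOfIntegers.coe_eq_algebraMap, ← RingOfIntegers.coe_eq_algebraMap, hg]
    ring
  have ha' : ((a.natAbs : ℕ) : ℚ) ^ 2 = p * Algebra.norm ℚ t := by
    rw [Nat.cast_natAbs, Int.cast_abs, sq_abs, ha]
  have ha0 : a.natAbs ≠ 0 := by
    intro h0
    rw [h0] at ha'
    have := mul_pos hp' h1
    simp only [Nat.cast_zero] at ha'
    linarith
  have e1 : (((Algebra.norm ℤ (4 * β - g)).natAbs : ℕ) : ℚ) = p * n * Algebra.norm ℚ (4 - t) := by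
    rw [natAbs_norm_cast, hg', map_mul, abs_mul, hβn, abs_of_pos h3]
  obtain ⟨m, hm⟩ := sqf_aux (c := n * (Algebra.norm ℤ (4 * β - g)).natAbs) (k := k.natAbs * n)
    hδ ha0 (by
      have hk' : (Δ : ℚ) = -(δ : ℚ) * ((k.natAbs : ℕ) : ℚ) ^ 2 := by
        rw [Nat.cast_natAbs, Int.cast_abs, sq_abs, hk]; push_cast; ring
      refine Nat.cast_injective (R := ℚ) ?_
      push_cast
      rw [ha', e1]
      linear_combination (n : ℚ) ^ 2 * h5 - (n : ℚ) ^ 2 * hk')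
  have hn' : (0 : ℚ) < n := by exact_mod_cast Nat.pos_of_ne_zero hn0
  have hm' : (δ : ℚ) * (m : ℚ) ^ 2 = n * (p * n * Algebra.norm ℚ (4 - t)) := by
    rw [← e1]; exact_mod_cast hm.symm
  have hs : ∀ u : F, (∀ σ : F →+* ℂ, ∃ x : ℝ, σ u = x ∧ 0 < x ∧ x < 4) →
      ∀ σ : F →+* ℂ, ‖σ ((β : F) * u)‖ ≤ 4 * (C * p) := by
    intro u hu σ
    obtain ⟨x, hx, h0, h4⟩ := hu σ
    rw [map_mul, norm_mul, hx, Complex.norm_real, Real.norm_of_nonneg h0.le, mul_comm]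
    exact mul_le_mul h4.le (hβ2 σ) (norm_nonneg _) (by norm_num)
  refine ⟨n, a.natAbs, m, g, 4 * β - g, Nat.pos_of_ne_zero hn0, hnC, Nat.pos_of_ne_zero ha0,
    ?_, ?_, ?_, ?_, hm, ?_, hs t h.re, ?_⟩
  · have : ((a.natAbs : ℕ) : ℚ) ^ 2 ≤ 64 * p := by rw [ha']; nlinarith
    exact_mod_cast this
  · refine Nat.pos_of_ne_zero ?_
    rintro rfl
    have := mul_pos hn' (mul_pos (mul_pos hp' hn') h3)
    simp only [Nat.cast_zero] at hm'
    linarith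
  · have h6 : (n : ℚ) ^ 2 ≤ (C : ℚ) ^ 2 := by exact_mod_cast Nat.pow_le_pow_left hnC 2
    have : (δ : ℚ) * (m : ℚ) ^ 2 ≤ 64 * p * (C : ℚ) ^ 2 := by
      calc _ = Algebra.norm ℚ (4 - t) * p * (n : ℚ) ^ 2 := by rw [hm']; ring
        _ ≤ _ := mul_le_mul (mul_le_mul_of_nonneg_right h4 hp'.le) h6 (by positivity)
          (by positivity)
    exact_mod_cast this
  · refine Nat.cast_injective (R := ℚ) ?_
    push_cast
    rw [natAbs_norm_cast, hg, map_mul, abs_mul, hβn, abs_of_pos h1, ha']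
    ring
  · have : g + (4 * β - g) = algebraMap ℤ (𝓞 F) 4 * β := by simp
    rw [this, map_mul, Algebra.norm_algebraMap, RingOfIntegers.rank, hF, Int.natAbs_mul, hn]
    rfl
  · rw [hg']
    refine hs _ fun σ => ?_
    obtain ⟨x, hx, h0, h4⟩ := h.re σ
    exact ⟨4 - x, by simp [hx, map_ofNat], by linarith, by linarith⟩

theorem types (F : Type) [Field F] [NumberField F] (hF : finrank ℚ F = 3) {ε : ℝ} (hε : 0 < ε) :
    ∃ C : ℝ, 0 < C ∧ ∀ (P δ : ℕ) (S : Finset ℕ) (t : ℕ → F) (Δ : ℕ → ℤ), 1 ≤ P → Squarefree δ →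
      (∀ p ∈ S, p ≤ 2 * P ∧ Plc p (t p) (Δ p) ∧ ∃ k : ℤ, Δ p = -(δ : ℤ) * k ^ 2) →
      (S.card : ℝ) * Real.sqrt δ ≤ C * (P : ℝ) ^ (1 + ε) := by
  classical
  obtain ⟨C, hC1, hC⟩ := small F
  obtain ⟨C', hC'0, hC'⟩ := gen F (128 * C ^ 2) (half_pos hε)
  have hC0 : (0 : ℝ) < C := by exact_mod_cast hC1
  refine ⟨C' ^ 2 * (C * (128 * C)), by positivity, fun P δ S t Δ hP hδ hS => ?_⟩
  have hd := fun p : S => (hS p p.2).2.1.data hF hC hδ (hS p p.2).2.2.choose_spec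
  choose n a m g g' hn1 hn2 ha1 ha2 hm1 hm2 hg hg' hgg hσ hσ' using hd
  have hP0 : (0 : ℝ) < P := by exact_mod_cast hP
  set W := C' * (P : ℝ) ^ (ε / 2) with hW
  have hCC : C ≤ C ^ 2 := Nat.le_self_pow two_ne_zero C
  have hh : ∀ p : S, (4 : ℝ) * (C * (p : ℕ)) ≤ (128 * C ^ 2 : ℕ) * P := by
    intro p
    have : 4 * (C * (p : ℕ)) ≤ 128 * C ^ 2 * P := by
      have := Nat.mul_le_mul hCC (hS p p.2).1
      nlinarith
    exact_mod_cast this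
  set T := Icc 1 C ×ˢ Icc 1 (Nat.sqrt (128 * P)) ×ˢ Icc 1 (Nat.sqrt (128 * P * C ^ 2 / δ))
  have hδ0 : 0 < δ := Nat.pos_of_ne_zero hδ.ne_zero
  have h1 : ((univ : Finset S).card : ℝ) ≤ T.card * W ^ 2 := by
    rw [card_eq_sum_card_fiberwise (f := fun p => (n p, a p, m p)) (t := T), Nat.cast_sum,
      ← nsmul_eq_mul]
    · refine sum_le_card_nsmul _ _ _ fun y _ => ?_
      set U := univ.filter fun p : S => (n p, a p, m p) = y
      rcases U.eq_empty_or_nonempty with h | ⟨p0, hp0⟩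
      · rw [h]; simp [sq_nonneg]
      have hU : ∀ p ∈ U, n p = n p0 ∧ a p = a p0 ∧ m p = m p0 := fun p hp => by
        simpa using (mem_filter.mp hp).2.trans (mem_filter.mp hp0).2.symm
      have hp2 := (hS p0 p0.2).1
      have h2 : ((U.image g).card : ℝ) ≤ W := by
        refine hC' P (n p0 * a p0 ^ 2) _ hP (Nat.mul_pos (hn1 p0) (pow_pos (ha1 p0) 2)).ne' ?_
          fun x hx => ?_
        · have := Nat.mul_le_mul ((hn2 p0).trans hCC) (ha2 p0)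
          nlinarith
        · obtain ⟨p, hp, rfl⟩ := mem_image.mp hx
          exact ⟨by rw [hg, (hU p hp).1, (hU p hp).2.1], fun σ => (hσ p σ).trans (hh p)⟩
      have h3 : ((U.image g').card : ℝ) ≤ W := by
        refine hC' P (Algebra.norm ℤ (g' p0)).natAbs _ hP (fun h0 => ?_) ?_ fun x hx => ?_
        · have := hg' p0
          rw [h0, mul_zero] at this
          exact (Nat.mul_pos hδ0 (pow_pos (hm1 p0) 2)).ne' this.symm
        · have h4 := Nat.le_mul_of_pos_left (Algebra.norm ℤ (g' p0)).natAbs (hn1 p0)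
          have h5 := hm2 p0
          rw [hg'] at h4
          nlinarith [Nat.mul_le_mul_right (C ^ 2) hp2]
        · obtain ⟨p, hp, rfl⟩ := mem_image.mp hx
          refine ⟨Nat.eq_of_mul_eq_mul_left (hn1 p0) ?_, fun σ => (hσ' p σ).trans (hh p)⟩
          rw [hg' p0, ← (hU p hp).1, hg' p, (hU p hp).2.2]
      have h4 : U.card ≤ (U.image g ×ˢ U.image g').card := by
        refine card_le_card_of_injOn (fun p => (g p, g' p)) (fun p hp => ?_) fun p hp q hq h => ?_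
        · exact mem_coe.mpr (mem_product.mpr ⟨mem_image_of_mem _ hp, mem_image_of_mem _ hp⟩)
        · obtain ⟨e1, e2⟩ := Prod.mk.inj h
          have e3 := hgg p
          rw [e1, e2, hgg q, (hU p hp).1, (hU q hq).1] at e3
          exact Subtype.ext (Nat.eq_of_mul_eq_mul_right (hn1 p0) (by omega))
      rw [card_product] at h4
      calc (U.card : ℝ) ≤ (U.image g).card * (U.image g').card := by exact_mod_cast h4
        _ ≤ W * W := mul_le_mul h2 h3 (Nat.cast_nonneg _) (by positivity)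
        _ = _ := (sq W).symm
    · intro p _
      have hp2 := (hS p p.2).1
      refine mem_coe.mpr (mem_product.mpr ⟨mem_Icc.mpr ⟨hn1 p, hn2 p⟩, mem_product.mpr
        ⟨mem_Icc.mpr ⟨ha1 p, Nat.le_sqrt'.mpr ?_⟩, mem_Icc.mpr ⟨hm1 p, Nat.le_sqrt'.mpr ?_⟩⟩⟩)
      · have := ha2 p
        show a p ^ 2 ≤ _
        omega
      · rw [Nat.le_div_iff_mul_le hδ0]
        have := hm2 p
        show m p ^ 2 * δ ≤ _
        nlinarith [Nat.mul_le_mul_right (C ^ 2) hp2]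
  have h2 : (T.card : ℝ) * Real.sqrt δ ≤ C * (128 * C) * P := by
    refine le_of_pow_le_pow_left₀ two_ne_zero (by positivity) ?_
    rw [mul_pow, Real.sq_sqrt (Nat.cast_nonneg _)]
    have e : T.card = C * (Nat.sqrt (128 * P) * Nat.sqrt (128 * P * C ^ 2 / δ)) := by simp [T]
    have h3 := Nat.sqrt_le' (128 * P)
    have h4 : Nat.sqrt (128 * P * C ^ 2 / δ) ^ 2 * δ ≤ 128 * P * C ^ 2 :=
      (Nat.le_div_iff_mul_le hδ0).mp (Nat.sqrt_le' _)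
    have : T.card ^ 2 * δ ≤ (C * (128 * C) * P) ^ 2 := by
      calc _ = C ^ 2 * (Nat.sqrt (128 * P) ^ 2 * (Nat.sqrt (128 * P * C ^ 2 / δ) ^ 2 * δ)) := by
            rw [e]; ring
        _ ≤ C ^ 2 * (128 * P * (128 * P * C ^ 2)) := Nat.mul_le_mul_left _ (Nat.mul_le_mul h3 h4)
        _ = _ := by ring
    exact_mod_cast this
  rw [card_univ, Fintype.card_coe] at h1
  calc (S.card : ℝ) * Real.sqrt δ ≤ T.card * W ^ 2 * Real.sqrt δ :=
        mul_le_mul_of_nonneg_right h1 (Real.sqrt_nonneg _)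
    _ = W ^ 2 * (T.card * Real.sqrt δ) := by ring
    _ ≤ W ^ 2 * (C * (128 * C) * P) := mul_le_mul_of_nonneg_left h2 (sq_nonneg _)
    _ = _ := by
      rw [hW, mul_pow, ← Real.rpow_natCast ((P : ℝ) ^ (ε / 2)), ← Real.rpow_mul hP0.le,
        Real.rpow_add hP0, Real.rpow_one, show ε / 2 * ((2 : ℕ) : ℝ) = ε by push_cast; ring]
      ring

end M4.NT
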