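import Pool.Agent.Lib.MP_33b3f9_ag.M4.ClPlace
import Pool.Agent.Lib.MP_33b3f9_ag.M4.NTTypes

/-!
A small discriminant for the quadratic order of a place.
-/

open NumberField Ideal Module UniqueFactorizationMonoid

namespace M4.Cl

lemma sq_mul_sqf {α : Type} [CommMonoidWithZero α] [UniqueFactorizationMonoid α] (a : α) :
    ∃ b d, a = b ^ 2 * d ∧ Squarefree d := by
  refine induction_on_prime (P := fun a => ∃ b d, a = b ^ 2 * d ∧ Squarefree d) a
    ⟨0, 1, by simp, squarefree_one⟩ (fun x hx => ⟨1, x, by simp, hx.squarefree⟩) ?_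
  rintro _ p - hp ⟨b, d, rfl, hd⟩
  by_cases h : p ∣ d
  · obtain ⟨e, rfl⟩ := h
    exact ⟨p * b, e, by simp only [sq]; ac_rfl, hd.of_mul_right⟩
  · exact ⟨b, p * d, mul_left_comm _ _ _, squarefree_mul_iff.mpr
      ⟨hp.irreducible.isRelPrime_iff_not_dvd.mpr h, hp.squarefree, hd⟩⟩

lemma parity {α : Type} [CommMonoidWithZero α] [UniqueFactorizationMonoid α] {P a d u b u' : α}
    (hP : Prime P) (hd : Squarefree d) (h1 : P ∣ d) (h2 : ¬ P ∣ u) (h3 : ¬ P ∣ u') (hb : b ≠ 0)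
    (e : a ^ 2 * d * u = b ^ 2 * u') : False := by
  have h := congrArg (emultiplicity P) e
  have h4 : emultiplicity P d = 1 := le_antisymm
    (((squarefree_iff_emultiplicity_le_one d).mp hd P).resolve_right hP.not_isUnit)
    (pow_dvd_iff_le_emultiplicity (k := 1).mp ((pow_one P).symm ▸ h1))
  rw [emultiplicity_mul hP, emultiplicity_mul hP, emultiplicity_mul hP, emultiplicity_pow hP,
    emultiplicity_pow hP, emultiplicity_eq_zero.mpr h2, emultiplicity_eq_zero.mpr h3, h4,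
    (FiniteMultiplicity.of_prime_left hP hb).emultiplicity_eq_multiplicity] at h
  generalize emultiplicity P a = x at h
  induction x with
  | top => simp at h; exact absurd h.symm (by norm_cast)
  | coe x => norm_cast at h; omega

variable {F : Type} [Field F] [NumberField F]

lemma padic_norm {l : ℕ} [Fact l.Prime] (x : F) :
    ((Algebra.norm ℚ x : ℚ) : PadicAlgCl l) = ∏ s : F →+* PadicAlgCl l, s x := by
  have := Algebra.norm_eq_prod_embeddings ℚ (PadicAlgCl l) x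
  rw [eq_ratCast] at this
  rw [this]
  exact (Fintype.prod_equiv (RingHom.equivRatAlgHom F _) _ _ fun _ => rfl).symm

lemma exists_place {l : ℕ} [Fact l.Prime] (P : Ideal (𝓞 F)) [hP : P.IsMaximal] (h : l ∣ absNorm P) :
    ∃ s : F →+* PadicAlgCl l, ∀ x : 𝓞 F, x ∈ P ↔ ‖s x‖ < 1 := by
  have hi : ∀ (s : F →+* PadicAlgCl l) (c : 𝓞 F), ‖s c‖ ≤ 1 := fun s c =>
    nle (map_isIntegral_int s c.isIntegral_coe)
  let Q : (F →+* PadicAlgCl l) → Ideal (𝓞 F) := fun s =>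
    { carrier := {x | ‖s x‖ < 1}
      add_mem' := fun hx hy => by simpa using add_lt hx hy
      zero_mem' := by simp
      smul_mem' := fun c x hx => by
        simpa using (mul_le_of_le_one_left (norm_nonneg _) (hi s c)).trans_lt hx }
  have hQ : ∀ s, (Q s).IsPrime := fun s => ⟨(ne_top_iff_one _).mpr (by simp [Q]), fun {x y} h => by
    by_contra hc
    have h1 : ‖s x‖ = 1 := le_antisymm (hi s x) (not_lt.mp fun h => hc (.inl h))
    have h2 : ‖s y‖ = 1 := le_antisymm (hi s y) (not_lt.mp fun h => hc (.inr h))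
    have h3 : ‖s x‖ * ‖s y‖ < 1 := by simpa [Q] using h
    simp [h1, h2] at h3⟩
  obtain ⟨s₀⟩ : Nonempty (F →+* PadicAlgCl l) := inferInstance
  obtain ⟨s, -, hs⟩ := (subset_union_prime (s := Finset.univ) s₀ s₀ (fun s _ _ _ => hQ s)
    (I := P)).mp fun x hx => by
      by_contra hc
      have h1 : ∀ s : F →+* PadicAlgCl l, ‖s x‖ = 1 := fun s => le_antisymm (hi s x)
        (not_lt.mp fun h => hc (Set.mem_biUnion (Finset.mem_coe.mpr (Finset.mem_univ s)) h))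
      obtain ⟨c, hc⟩ := (Int.natCast_dvd_natCast.mpr h).trans (absNorm_dvd_norm_of_mem hx)
      have h2 := congrArg norm (padic_norm (l := l) (x : F))
      rw [norm_prod, Finset.prod_eq_one fun s _ => h1 s, ← Algebra.coe_norm_int, hc] at h2
      push_cast at h2
      exact (norm_lt (IsUltrametricDist.norm_intCast_le_one _ c)).ne h2
  exact ⟨s, fun x => by rw [hP.eq_of_le (hQ s).ne_top hs]; rfl⟩

lemma exists_T (hF : finrank ℚ F = 3) {p : ℕ} {t : F} {Δ : ℤ} (h : NT.Plc p t Δ) :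
    ∃ (x : 𝓞 F) (w T : Ideal (𝓞 F)) (a : ℕ), algebraMap _ F x = p * t ∧ (p : 𝓞 F) ∈ w ∧
      span {x} * w = span {(p : 𝓞 F)} * T ∧ absNorm T = a ^ 2 ∧
      (p : ℚ) * Algebra.norm ℚ t = (a : ℚ) ^ 2 := by
  obtain ⟨⟨h1, -⟩, -, -⟩ := h.norms hF
  obtain ⟨w, hw, hwt⟩ := h.den
  obtain ⟨a, ha⟩ := h.sq
  have hp0 : (0 : ℚ) < p := by exact_mod_cast h.prime.pos
  have hr : finrank ℤ (𝓞 F) = 3 := (RingOfIntegers.rank F).trans hF
  have hpw : (p : 𝓞 F) ∈ w := hw ▸ absNorm_mem w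
  have hi : ∀ b ∈ w, ∃ x : 𝓞 F, algebraMap _ F x = algebraMap _ F b * t := fun b hb =>
    ⟨⟨_, hwt b hb⟩, rfl⟩
  obtain ⟨x, hx⟩ := hi _ hpw
  rw [map_natCast] at hx
  obtain ⟨T, hT⟩ : span {(p : 𝓞 F)} ∣ span {x} * w := dvd_iff_le.mpr fun z hz => by
    obtain ⟨b, hb, rfl⟩ := mem_span_singleton_mul.mp hz
    obtain ⟨c, hc⟩ := hi b hb
    refine mem_span_singleton.mpr ⟨c, RingOfIntegers.coe_injective ?_⟩
    rw [map_mul, map_mul, map_natCast, hx, hc]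
    ring
  have ha' : (p : ℚ) * Algebra.norm ℚ t = (a.natAbs : ℚ) ^ 2 := by
    rw [Nat.cast_natAbs, Int.cast_abs, sq_abs, ha]
  refine ⟨x, w, T, a.natAbs, hx, hpw, hT, ?_, ha'⟩
  have := congrArg (fun I => (absNorm I : ℚ)) hT
  simp only [map_mul, absNorm_span_natCast, absNorm_span_singleton x, hw, hr, Nat.cast_mul,
    NT.natAbs_norm_cast, hx] at this
  rw [← map_natCast (algebraMap ℚ F), Algebra.norm_algebraMap, hF, abs_of_pos (by positivity),
    Nat.cast_pow, mul_assoc, mul_comm _ (p : ℚ), ha'] at this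
  exact_mod_cast (mul_left_cancel₀ (by positivity) this).symm

lemma not_dvd {p l : ℕ} [Fact l.Prime] (hp : p.Prime) (hlp : l ≠ p) {t : F} (ht0 : t ≠ 0)
    {x : 𝓞 F} {w A d P : Ideal (𝓞 F)} (hx : algebraMap _ F x = p * t) (hpw : (p : 𝓞 F) ∈ w)
    (hT : span {x} * w = span {(p : 𝓞 F)} * (A ^ 2 * d)) (hd : Squarefree d) (hP : Prime P)
    (hlN : l ∣ absNorm P) (H : ∀ s : F →+* PadicAlgCl l, ∃ q : F, ‖s t‖ = ‖s q‖ ^ 2) : ¬ P ∣ d := by
  intro hPd
  have hP1 := isPrime_of_prime hP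
  have := hP1.isMaximal hP.ne_zero
  have hpO : (p : 𝓞 F) ≠ 0 := Nat.cast_ne_zero.mpr hp.ne_zero
  obtain ⟨s, hs⟩ := exists_place P hlN
  obtain ⟨q, hq⟩ := H s
  simp only [RingOfIntegers.coe_eq_algebraMap] at hs
  have hq0 : q ≠ 0 := fun h0 => ht0 (by simpa [h0] using hq)
  have hv : ‖s (t / q ^ 2)‖ = 1 := by
    rw [map_div₀, map_pow, norm_div, norm_pow, hq, div_self (by simpa using hq0)]
  obtain ⟨u, u', hu, hu', e⟩ : ∃ u u' : 𝓞 F, u ∉ P ∧ u' ∉ P ∧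
      t / q ^ 2 * algebraMap _ F u = algebraMap _ F u' := by
    obtain ⟨u, ⟨u', hu'⟩, e | e⟩ :=
      IsDedekindDomain.HeightOneSpectrum.exists_primeCompl_mul_eq_or_mul_eq (K := F)
        ⟨P, hP1, hP.ne_zero⟩ (t / q ^ 2)
    · refine ⟨u', u, hu', fun h => hu' ((hs _).mpr ?_), e⟩
      rwa [hs, ← e, map_mul, norm_mul, hv, one_mul] at h
    · refine ⟨u, u', fun h => hu' ((hs _).mpr ?_), hu', e⟩
      rwa [← e, map_mul, norm_mul, hv, one_mul, ← hs]
  obtain ⟨q₁, q₂, hq₂, rfl⟩ := IsFractionRing.div_surjective (𝓞 F) q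
  have hq₂' : algebraMap (𝓞 F) F q₂ ≠ 0 := by simpa using nonZeroDivisors.ne_zero hq₂
  have hq₁ : algebraMap (𝓞 F) F q₁ ≠ 0 := fun h0 => hq0 (by rw [h0, zero_div])
  have e1 : x * (u * q₂ ^ 2) = p * (u' * q₁ ^ 2) := RingOfIntegers.coe_injective (by
    simp only [map_mul, map_pow, map_natCast]
    rw [← e, hx]
    field_simp)
  refine parity (a := A * span {q₂}) (u := span {u}) (b := span {q₁}) (u' := span {u'} * w) hP hd
    hPd (fun h => hu (dvd_span_singleton.mp h)) (fun h => ?_) (by simpa using hq₁) ?_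
  · rcases hP.dvd_or_dvd h with h | h
    · exact hu' (dvd_span_singleton.mp h)
    · have h6 := (hs _).mp (dvd_iff_le.mp h hpw)
      rw [map_natCast, map_natCast,
        norm_nat fun h => hlp ((Nat.prime_dvd_prime_iff_eq Fact.out hp).mp h)] at h6
      exact lt_irrefl _ h6
  · have e2 := congrArg (fun z => span {z} * w) e1
    simp only [← span_singleton_mul_span_singleton, ← span_singleton_pow] at e2
    refine (span_singleton_mul_right_inj hpO).mp ?_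
    calc _ = span {x} * w * (span {u} * span {q₂} ^ 2) := by rw [hT]; ring
      _ = span {x} * (span {u} * span {q₂} ^ 2) * w := by ring
      _ = _ := by rw [e2]; ring

theorem even (F : Type) [Field F] [NumberField F] [IsTotallyReal F] (hF : finrank ℚ F = 3)
    (l₁ : ℕ) : ∃ C : ℕ, ∀ (p : ℕ) (t : F) (Δ : ℤ), NT.Plc p t Δ → 64 < p →
      (∀ (l : ℕ) [Fact l.Prime], l₁ < l → l ≠ p →
        ∀ s : F →+* PadicAlgCl l, ∃ q : F, ‖s t‖ = ‖s q‖ ^ 2) →
      ∃ (y : F) (b D : 𝓞 F), y ≠ 0 ∧ (b : F) = y ^ 2 * t ∧ (D : F) = y ^ 2 * (t * (t - 4)) ∧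
        TP (-D) ∧ (Algebra.norm ℤ D).natAbs ≤ C * p ∧
        ∀ l : ℕ, l.Prime → C < l → ¬ (l : ℤ) ∣ Δ → ¬ (l : ℤ) ∣ Algebra.norm ℤ D := by
  classical
  obtain ⟨C, hC1, hC⟩ := NT.small F
  refine ⟨C ^ 2 * l₁.factorial ^ 3 * 64, fun p t Δ h hp H => ?_⟩
  obtain ⟨⟨h1, h2⟩, ⟨h3, h4⟩, h5⟩ := h.norms hF
  obtain ⟨x, w, T, a, hx, hpw, hT, hTn, ha⟩ := exists_T hF h
  have hp0 : (0 : ℚ) < p := by exact_mod_cast h.prime.pos
  have ht0 : t ≠ 0 := fun h0 => by simp [h0] at h1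
  have hr : finrank ℤ (𝓞 F) = 3 := (RingOfIntegers.rank F).trans hF
  have ha0 : a ≠ 0 := fun h0 => by
    rw [h0] at ha
    exact (mul_pos hp0 h1).ne' (by simpa using ha)
  have hT0 : T ≠ 0 := fun h0 => pow_ne_zero 2 ha0 (by rw [← hTn, h0, map_zero])
  obtain ⟨A, d, rfl, hd⟩ := sq_mul_sqf T
  have hd0 : d ≠ 0 := hd.ne_zero
  have hA0 : A ≠ 0 := fun h0 => hT0 (by simp [h0])
  have hdl : d ∣ span {(l₁.factorial : 𝓞 F)} := by
    have h0 : span {(l₁.factorial : 𝓞 F)} ≠ 0 := by simpa using l₁.factorial_ne_zero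
    rw [dvd_iff_normalizedFactors_le_normalizedFactors hd0 h0,
      Multiset.le_iff_subset ((squarefree_iff_nodup_normalizedFactors hd0).mp hd)]
    intro P hP
    obtain ⟨hP, hPd⟩ := (UniqueFactorizationMonoid.mem_normalizedFactors_iff hd0).mp hP
    refine (UniqueFactorizationMonoid.mem_normalizedFactors_iff h0).mpr ⟨hP, ?_⟩
    have := (isPrime_of_prime hP).isMaximal hP.ne_zero
    obtain ⟨l, n, hn, hlP, hl, hN⟩ := exists_prime_and_absNorm_eq_pow P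
    have hlN : l ∣ absNorm P := hN ▸ dvd_pow_self l hn.ne'
    by_cases hl1 : l ≤ l₁
    · obtain ⟨c, hc⟩ := Nat.dvd_factorial hl.pos hl1
      rw [dvd_span_singleton, hc, Nat.cast_mul]
      exact mul_mem_right _ _ hlP
    have := Fact.mk hl
    have hlp : l ≠ p := by
      rintro rfl
      have h6 := hlN.trans (map_dvd absNorm (hPd.mul_left (A ^ 2)))
      rw [hTn] at h6
      have h7 := Nat.le_of_dvd (Nat.pos_of_ne_zero ha0) (hl.dvd_of_dvd_pow h6)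
      have h8 : (l : ℚ) ^ 2 ≤ (a : ℚ) ^ 2 := by exact_mod_cast Nat.pow_le_pow_left h7 2
      have h9 : (64 : ℚ) < l := by exact_mod_cast hp
      nlinarith
    exact absurd hPd (not_dvd h.prime hlp ht0 hx hpw hT hd hP hlN (H l (not_le.mp hl1) hlp))
  obtain ⟨κ, hκ, hκ0, hκ1, -⟩ := hC (A * d) (mul_ne_zero hA0 hd0)
  obtain ⟨c, hc⟩ := Int.natCast_dvd.mp (absNorm_dvd_norm_of_mem hκ)
  have hN0 : absNorm (A * d) ≠ 0 := fun h => mul_ne_zero hA0 hd0 (absNorm_eq_zero_iff.mp h)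
  have hcC : c ≤ C := by
    rw [hc, mul_comm C] at hκ1
    exact Nat.le_of_mul_le_mul_left hκ1 (Nat.pos_of_ne_zero hN0)
  have hc0 : c ≠ 0 := by
    rintro rfl
    exact hκ0 (Algebra.norm_eq_zero_iff.mp (Int.natAbs_eq_zero.mp hc))
  have hdN : absNorm d ≤ l₁.factorial ^ 3 := Nat.le_of_dvd (pow_pos l₁.factorial_pos _) (by
    rw [← hr, ← absNorm_span_natCast]; exact map_dvd absNorm hdl)
  have hκ2 : p * κ ^ 2 ∈ span {x} * w := by
    rw [hT]
    refine mul_mem_mul (mem_span_singleton_self _) (mul_le_left (I := A ^ 2 * d) (J := d) ?_)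
    rw [show A ^ 2 * d * d = (A * d) ^ 2 by ring]
    exact pow_mem_pow hκ 2
  obtain ⟨β, -, e⟩ := mem_span_singleton_mul.mp hκ2
  have e1 : algebraMap _ F β = (algebraMap _ F κ / t) ^ 2 * t := by
    have := congrArg (algebraMap _ F) e
    rw [map_mul, map_mul, map_pow, map_natCast, hx, mul_assoc] at this
    have := mul_left_cancel₀ (Nat.cast_ne_zero.mpr h.prime.ne_zero) this
    field_simp
    rw [← this, mul_comm]
  have hκF : algebraMap _ F κ ≠ 0 := by simpa using hκ0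
  obtain ⟨D, e2⟩ : ∃ D : 𝓞 F, algebraMap _ F D = (algebraMap _ F κ / t) ^ 2 * (t * (t - 4)) :=
    ⟨κ ^ 2 - 4 * β, by rw [map_sub, map_mul, map_pow, map_ofNat, e1]; field_simp⟩
  have e3 : ((Algebra.norm ℤ D).natAbs : ℚ) =
      c ^ 2 * absNorm d * (p * Algebra.norm ℚ (4 - t)) := by
    have h6 : (D : F) * t = algebraMap ℚ F (-1) * (κ : F) ^ 2 * (4 - t) := by
      rw [RingOfIntegers.coe_eq_algebraMap, RingOfIntegers.coe_eq_algebraMap, e2, map_neg, map_one]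
      field_simp
      ring
    have h7 := congrArg (fun z => |Algebra.norm ℚ z|) h6
    have h8 := congrArg (Nat.cast (R := ℚ)) hTn
    simp only [map_mul, map_pow, abs_mul, abs_pow, Algebra.norm_algebraMap, abs_of_pos h1,
      abs_of_pos h3, ← NT.natAbs_norm_cast, hc, Nat.cast_mul, Nat.cast_pow] at h7 h8
    refine mul_right_cancel₀ h1.ne' (h7.trans ?_)
    simp only [abs_neg, abs_one, one_pow]
    linear_combination c ^ 2 * absNorm d * Algebra.norm ℚ (4 - t) * (h8.trans ha.symm)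
  refine ⟨_, β, D, div_ne_zero hκF ht0, e1, e2, fun σ => ?_, ?_, fun l hl h6 h7 h8 => ?_⟩
  · obtain ⟨r, hr, h6, h7⟩ := h.re σ
    have h8 := emb_re σ (algebraMap _ F κ / t)
    refine ⟨(σ (algebraMap _ F κ / t)).re ^ 2 * (r * (4 - r)), ?_,
      mul_pos (sq_pos_of_ne_zero fun h0 => ?_) (mul_pos h6 (by linarith))⟩
    · rw [RingOfIntegers.coe_eq_algebraMap, map_neg, e2]
      push_cast
      rw [← h8, ← hr]
      simp only [map_neg, map_mul, map_pow, map_sub, map_ofNat]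
      ring
    · rw [h0, Complex.ofReal_zero, map_eq_zero] at h8
      exact div_ne_zero hκF ht0 h8
  · rw [← Nat.cast_le (α := ℚ), e3]
    push_cast
    rw [mul_assoc _ (64 : ℚ), mul_comm (64 : ℚ)]
    gcongr
    exact_mod_cast hdN
  · have h9 : (Algebra.norm ℤ D).natAbs * a ^ 2 = c ^ 2 * absNorm d * Δ.natAbs := by
      rw [← Nat.cast_inj (R := ℚ)]
      simp only [Nat.cast_mul, Nat.cast_pow, e3]
      rw [← ha, Nat.cast_natAbs, Int.cast_abs, h5, abs_neg, abs_of_pos (by positivity)]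
      ring
    have h10 := (Int.natCast_dvd.mp h8).mul_right (a ^ 2)
    have hd1 : absNorm d ≠ 0 := fun h => hd0 (absNorm_eq_zero_iff.mp h)
    rw [h9] at h10
    rcases (Nat.Prime.dvd_mul hl).mp h10 with h10 | h10
    · have := Nat.le_of_dvd (by positivity) h10
      have := Nat.mul_le_mul (Nat.pow_le_pow_left hcC 2) hdN
      omega
    · exact h7 (Int.natCast_dvd.mpr h10)

/-- Few classes for the places of type `t`, with the square root `η` of `y ^ 2 * (t * (t - 4))`. -/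
theorem few (F : Type) [Field F] [NumberField F] [IsTotallyReal F] (hF : finrank ℚ F = 3)
    (l₁ : ℕ) {n : ℕ} (hn : n ≠ 0) : ∃ (C : ℝ) (l₂ : ℕ), ∀ (p : ℕ) (t : F) (Δ : ℤ), NT.Plc p t Δ →
    64 < p → (∀ (l : ℕ) [Fact l.Prime], l₁ < l → l ≠ p →
      ∀ s : F →+* PadicAlgCl l, ∃ q : F, ‖s t‖ = ‖s q‖ ^ 2) →
    ∃ y : F, y ≠ 0 ∧ IsIntegral ℤ (y ^ 2 * t) ∧
      (∀ (l : ℕ) [Fact l.Prime], l₂ < l → ¬ (l : ℤ) ∣ Δ → ∀ s : F →+* PadicAlgCl l,
        ‖s (y ^ 2 * (t * (t - 4)))‖ = 1) ∧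
      ∀ (X : Type) (M : X → ℕ) (s : X → ∀ (l : ℕ) [Fact l.Prime], F →+* PadicAlgCl l)
        (η : X → ∀ (l : ℕ) [Fact l.Prime], PadicAlgCl l), (∀ x, Squarefree (M x)) →
        (∀ x (l : ℕ) [Fact l.Prime], l ∣ M x → l₂ < l ∧ ¬ (l : ℤ) ∣ Δ ∧ (∀ a, s x l a ∈ NT.Qp l) ∧
          η x l ∈ NT.Qp l ∧ η x l ^ 2 = s x l (y ^ 2 * (t * (t - 4)))) →
        ∃ (h : ℕ) (cl : X → Fin h), (h : ℝ) ≤ C * (p : ℝ) ^ (7 / 10 : ℝ) ∧
          ∀ x x', cl x = cl x' → ∃ a b : F, ∀ (l : ℕ) [Fact l.Prime] (s' : F →+* PadicAlgCl l),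
            (∀ η' : PadicAlgCl l, η' ^ 2 = s' (y ^ 2 * (t * (t - 4))) →
              ‖s' a + s' b * η'‖ * Wt (M x') (s x' l) (η x' l) s' η' =
                Wt (M x) (s x l) (η x l) s' η') ∧
            ‖s' a * M x'‖ ≤ 1 ∧ ‖s' b * M x'‖ ≤ 1 ∧ (¬ l ∣ M x' → ‖s' a‖ ≤ 1 ∧ ‖s' b‖ ≤ 1) ∧
            (l ∣ n → ‖s' a - 1‖ ≤ ‖(n : PadicAlgCl l)‖ ∧ ‖s' b‖ ≤ ‖(n : PadicAlgCl l)‖) := by
  obtain ⟨C₁, h1⟩ := even F hF l₁
  obtain ⟨C₂, l₃, hC, h2⟩ := classBound F (ε := 1 / 5) (by norm_num) hn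
  refine ⟨C₂ * (C₁ : ℝ) ^ (7 / 10 : ℝ), max C₁ l₃, fun p t Δ h hp H => ?_⟩
  obtain ⟨y, b, D, hy, hb, hD, h3, h4, h5⟩ := h1 p t Δ h hp H
  refine ⟨y, hy, hb ▸ b.isIntegral_coe, fun l _ hl hl' s => ?_, fun X M s η hM H' => ?_⟩
  · obtain ⟨η, hη⟩ := IsAlgClosed.exists_pow_nat_eq (s D) two_pos
    rw [← hD, ← hη, norm_pow, eta_unit (h5 l Fact.out (max_lt_iff.mp hl).1 hl') hη, one_pow]
  · rw [← hD] at H' ⊢
    obtain ⟨h, cl, h6, h7⟩ := h2 D h3 X M s η hM fun x l _ hl =>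
      ⟨(max_lt_iff.mp (H' x l hl).1).2, h5 l Fact.out (max_lt_iff.mp (H' x l hl).1).1 (H' x l hl).2.1,
        (H' x l hl).2.2⟩
    refine ⟨h, cl, h6.trans ?_, h7⟩
    rw [mul_assoc, ← Real.mul_rpow (Nat.cast_nonneg _) (Nat.cast_nonneg _),
      show (1 / 2 + 1 / 5 : ℝ) = 7 / 10 by norm_num]
    gcongr
    exact_mod_cast h4

end M4.Cl
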