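import Pool.Agent.Lib.MP_33b3f9_ag.M4.CmEmb
import Pool.Agent.Lib.MP_33b3f9_ag.M4.ClEven

/-!
Block B3a: ray classes of families of places.
-/

set_option autoImplicit false

noncomputable section

namespace M4.CM

open Matrix Polynomial NumberField Pool.Agent.M4.Mx

section aux

open Ideal

variable {F : Type} [Field F] [NumberField F] {m : 𝓞 F} {N₀ : ℕ}

omit [NumberField F] in
theorem class_neg {K : Type} [Field K] {s : F →+* K} {η : K} (h : η ^ 2 = -s m) :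
    η ^ 2 = s (-m : 𝓞 F) := by
  rw [h, RingOfIntegers.coe_eq_algebraMap, RingOfIntegers.coe_eq_algebraMap, map_neg, map_neg]

/-- The embedding of the order at the prime `l`. -/
def classPhi {x : Pl F} (hx : x.Ok m N₀) (l : ℕ) [Fact l.Prime] (h : l ∣ x.M) :
    Cl.Rm (-m) →+* Om l :=
  Cl.ev (x.ι l) (class_neg (hx.2.2 l h).sq)

/-- The ideal of a family of places. -/
def classId {x : Pl F} (hx : x.Ok m N₀) : Ideal (Cl.Rm (-m)) where
  carrier := {z | ∀ (l : ℕ) [Fact l.Prime] (h : l ∣ x.M), ‖classPhi hx l h z‖ < 1}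
  add_mem' := fun hz hw l _ h => by rw [map_add]; exact Cl.add_lt (hz l h) (hw l h)
  zero_mem' := fun l _ h => by simp
  smul_mem' := fun c z hz l _ h => by
    rw [smul_eq_mul, map_mul, norm_mul]
    exact (mul_le_of_le_one_left (norm_nonneg _) (Cl.ev_le _ c)).trans_lt (hz l h)

omit [NumberField F] in
theorem class_qp {x : Pl F} (hx : x.Ok m N₀) (l : ℕ) [Fact l.Prime] (h : l ∣ x.M)
    (z : Cl.Rm (-m)) : classPhi hx l h z ∈ NT.Qp l :=
  (algebraMap ℚ_[l] (PadicAlgCl l)).range.add_mem ((hx.2.2 l h).rat _)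
    ((algebraMap ℚ_[l] (PadicAlgCl l)).range.mul_mem ((hx.2.2 l h).rat _) (hx.2.2 l h).rat')

omit [NumberField F] in
theorem class_M {x : Pl F} (hx : x.Ok m N₀) : (x.M : Cl.Rm (-m)) ∈ classId hx := fun l _ h => by
  obtain ⟨c, hc⟩ := h
  rw [map_natCast, hc, Nat.cast_mul]
  exact Cl.norm_lt (IsUltrametricDist.norm_natCast_le_one _ c)

omit [NumberField F] in
theorem class_om {K : Type} [Field K] (s : F →+* K) {η : K} (h : η ^ 2 = s (-m : 𝓞 F)) :
    Cl.ev s h QuadraticAlgebra.omega = η := by simp [Cl.ev]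

theorem class_two {l : ℕ} [Fact l.Prime] (h : l ≠ 2) : ¬ l ∣ 2 := fun h1 =>
  h ((Nat.prime_dvd_prime_iff_eq Fact.out Nat.prime_two).mp h1)

theorem class_adm {x : Pl F} (hx : x.Ok m N₀) : Cl.Adm N₀ (classId hx) := by
  classical
  have hM0 := hx.1.ne_zero
  refine ⟨fun h => hM0 ?_, ?_, ?_⟩
  · have : (x.M : 𝓞 F) ∈ Cl.cb (classId hx) := by rw [mem_comap, map_natCast]; exact class_M hx
    simpa [h] using this
  · have he : ∀ l : ℕ, ∃ e : ℕ, ∀ (_ : Fact l.Prime) (h : l ∣ x.M),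
        ‖classPhi hx l h QuadraticAlgebra.omega - e‖ < 1 := fun l => by
      by_cases h : l.Prime ∧ l ∣ x.M
      · have := Fact.mk h.1
        obtain ⟨e, he⟩ := Cl.qp_res (class_qp hx l h.2 QuadraticAlgebra.omega) (Cl.ev_le _ _)
        exact ⟨e, fun _ _ => he⟩
      · exact ⟨0, fun h1 h2 => absurd ⟨h1.out, h2⟩ h⟩
    choose e he using he
    obtain ⟨k, hk⟩ := Nat.chineseRemainderOfFinset e id x.M.primeFactors
      (fun l hl => (Nat.prime_of_mem_primeFactors hl).ne_zero) fun l hl l' hl' h =>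
        (Nat.coprime_primes (Nat.prime_of_mem_primeFactors hl)
          (Nat.prime_of_mem_primeFactors hl')).mpr h
    have h3 : (k : Cl.Rm (-m)) - QuadraticAlgebra.omega ∈ classId hx := fun l _ h => by
      obtain ⟨c, hc⟩ := (hk l (Nat.mem_primeFactors.mpr ⟨Fact.out, h, hM0⟩)).symm.dvd
      have h4 : (k : PadicAlgCl l) - e l = l * (c : ℤ) := by exact_mod_cast hc
      have := Cl.add_lt (Cl.norm_lt (IsUltrametricDist.norm_intCast_le_one _ c))
        ((norm_neg _).trans_lt (he l _ h))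
      rwa [← h4, neg_sub, sub_add_sub_cancel, ← map_natCast (classPhi hx l h), ← map_sub] at this
    have h4 : Nat.Coprime (2 * k) x.M := Nat.Coprime.symm (Nat.coprime_of_dvd fun l hp h h' => by
      have := Fact.mk hp
      rcases (Nat.Prime.dvd_mul hp).mp h' with h' | ⟨c, hc⟩
      · exact class_two (hx.2.2 l h).odd h'
      · have h5 := Cl.add_lt (Cl.norm_lt (IsUltrametricDist.norm_natCast_le_one _ c))
          ((norm_neg _).trans_lt (h3 l h))
        rw [map_sub, map_natCast, classPhi, class_om, hc, Nat.cast_mul, neg_sub, add_sub_cancel,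
          (hx.2.2 l h).unit] at h5
        exact lt_irrefl _ h5)
    obtain ⟨a, b, hab⟩ := Nat.isCoprime_iff_coprime.mpr h4
    have h5 := congrArg (Int.cast (R := Cl.Rm (-m))) hab
    refine ⟨_, mul_mem_left _ (a : Cl.Rm (-m)) h3, ?_⟩
    have h6 : 1 - star ((a : Cl.Rm (-m)) * ((k : Cl.Rm (-m)) - QuadraticAlgebra.omega)) =
        (a : Cl.Rm (-m)) * ((k : Cl.Rm (-m)) - QuadraticAlgebra.omega) +
          (b : Cl.Rm (-m)) * (x.M : Cl.Rm (-m)) := by
      rw [star_mul', star_sub, star_intCast, star_natCast,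
        show star QuadraticAlgebra.omega = -(QuadraticAlgebra.omega : Cl.Rm (-m)) from
          QuadraticAlgebra.ext (by simp) (by simp)]
      push_cast at h5
      linear_combination -h5
    rw [h6]
    exact add_mem (mul_mem_left _ _ h3) (mul_mem_left _ _ (class_M hx))
  · obtain ⟨a, b, hab⟩ := hx.2.1.cast (R := Cl.Rm (-m))
    exact ⟨_, mul_mem_left _ a (class_M hx), mem_span_singleton'.mpr ⟨b, by rw [← hab]; ring⟩⟩

theorem class_sqf {M l : ℕ} [Fact l.Prime] (hM : Squarefree M) (h : l ∣ M) :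
    ∃ c, M = l * c ∧ ¬ l ∣ c ∧ ‖(M : Om l)‖ = (l : ℝ)⁻¹ := by
  obtain ⟨c, hc⟩ := h
  have hc1 : ¬ l ∣ c := fun h1 => (Fact.out : l.Prime).not_isUnit
    (hM l (hc ▸ Nat.mul_dvd_mul_left l h1))
  exact ⟨c, hc, hc1, by rw [hc, Nat.cast_mul, norm_mul, Cl.norm_l, Cl.norm_nat hc1, mul_one, one_div]⟩

omit [NumberField F] in
theorem class_nu {x : Pl F} (hx : x.Ok m N₀) {l : ℕ} [Fact l.Prime] (s : F →+* Om l) {η : Om l}
    (h' : η ^ 2 = s (-m : 𝓞 F)) : (∀ z ∈ classId hx, ‖Cl.ev s h' z‖ ≤ x.wt s η) ∧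
      ∃ z ∈ classId hx, ‖Cl.ev s h' z‖ = x.wt s η := by
  by_cases h : l ∣ x.M
  swap
  · rw [Pl.wt, if_neg fun h1 => h h1.1]
    exact ⟨fun z _ => Cl.ev_le _ z, _, class_M hx, by rw [map_natCast, Cl.norm_nat h]⟩
  obtain ⟨c, hc, hc1, hc2⟩ := class_sqf hx.1 h
  by_cases he : s = x.ι l ∧ η = x.ϖ l
  · obtain ⟨rfl, rfl⟩ := he
    rw [Pl.wt, if_pos ⟨h, rfl, rfl⟩]
    exact ⟨fun z hz => (Cl.qp_le (class_qp hx l h z) (hz l h)).trans_eq (one_div _), _, class_M hx,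
      by rw [map_natCast, hc2]⟩
  rw [Pl.wt, if_neg fun h1 => he h1.2]
  refine ⟨fun z _ => Cl.ev_le _ z, ?_⟩
  by_contra hne
  have h3 : ∀ z, ‖classPhi hx l h z - Cl.ev s h' z‖ < 1 := by
    intro z
    obtain ⟨e, he⟩ := Cl.qp_res (class_qp hx l h z) (Cl.ev_le _ _)
    have h4 : (c : Cl.Rm (-m)) * (z - e) ∈ classId hx := fun l' _ hl' => by
      rw [map_mul, map_natCast]
      rcases (Nat.Prime.dvd_mul Fact.out).mp (hc ▸ hl') with h5 | ⟨c', rfl⟩
      · obtain rfl := (Nat.prime_dvd_prime_iff_eq Fact.out Fact.out).mp h5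
        rwa [norm_mul, Cl.norm_nat hc1, one_mul, map_sub, map_natCast]
      · rw [Nat.cast_mul, mul_assoc, ← map_natCast (classPhi hx l' hl') c', ← map_mul]
        exact Cl.norm_lt (Cl.ev_le _ _)
    have h5 := lt_of_le_of_ne (Cl.ev_le (Cl.ev s h') _) fun h5 => hne ⟨_, h4, h5⟩
    rw [map_mul, map_natCast, norm_mul, Cl.norm_nat hc1, one_mul, map_sub, map_natCast] at h5
    simpa using Cl.add_lt he ((norm_neg _).trans_lt h5)
  have h4 : x.ι l = s := by
    obtain ⟨θ, hθ⟩ := (hx.2.2 l h).sep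
    by_contra h5
    exact (hθ _ _ h5).not_lt (by simpa [classPhi, Cl.ev] using h3 (algebraMap _ _ θ))
  have h5 := h3 QuadraticAlgebra.omega
  have h6 := class_neg (hx.2.2 l h).sq
  rw [classPhi, class_om, class_om] at h5
  rcases sq_eq_sq_iff_eq_or_eq_neg.mp (h'.trans (h4 ▸ h6.symm)) with h7 | h7
  · exact he ⟨h4.symm, h7⟩
  · rw [h7, sub_neg_eq_add, ← two_mul, norm_mul, (hx.2.2 l h).unit, ← Nat.cast_ofNat,
      Cl.norm_nat (class_two (hx.2.2 l h).odd), one_mul] at h5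
    exact lt_irrefl _ h5

theorem class_prod {x : Pl F} (hx : x.Ok m N₀) {l : ℕ} [Fact l.Prime] (w : (F →+* Om l) → Om l)
    (hw : ∀ s, w s ^ 2 = -s m) : ∏ s, x.wt s (w s) * x.wt s (-w s) = ‖(x.M : Om l)‖ := by
  by_cases h : l ∣ x.M
  swap
  · rw [Cl.norm_nat h]
    exact Finset.prod_eq_one fun s _ => by
      rw [Pl.wt, Pl.wt, if_neg fun h1 => h h1.1, if_neg fun h1 => h h1.1, one_mul]
  obtain ⟨-, -, -, hc⟩ := class_sqf hx.1 h
  have h0 : -x.ϖ l ≠ x.ϖ l := fun h1 => by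
    have := (hx.2.2 l h).unit
    rw [CharZero.neg_eq_self_iff.mp h1, norm_zero] at this
    exact zero_ne_one this
  rw [hc, Finset.prod_eq_single (x.ι l) (fun s _ hs => by
    rw [Pl.wt, Pl.wt, if_neg fun h1 => hs h1.2.1, if_neg fun h1 => hs h1.2.1, one_mul]) (by simp)]
  rcases sq_eq_sq_iff_eq_or_eq_neg.mp ((hw _).trans (hx.2.2 l h).sq.symm) with h1 | h1
  · rw [h1, Pl.wt, Pl.wt, if_pos ⟨h, rfl, rfl⟩, if_neg fun h2 => h0 h2.2.2, mul_one]
  · rw [h1, neg_neg, Pl.wt, Pl.wt, if_neg fun h2 => h0 h2.2.2, if_pos ⟨h, rfl, rfl⟩, one_mul]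

theorem class_nat {a b : ℕ} (ha : a ≠ 0) (hb : b ≠ 0)
    (h : ∀ (l : ℕ) [Fact l.Prime], ‖(a : Om l)‖ = ‖(b : Om l)‖) : a = b := by
  refine (Nat.eq_iff_prime_padicValNat_eq a b ha hb).mpr fun l hl => ?_
  have := Fact.mk hl
  have h1 := h l
  rw [← map_natCast (algebraMap ℚ_[l] (Om l)), ← map_natCast (algebraMap ℚ_[l] (Om l)),
    norm_algebraMap', norm_algebraMap', Padic.norm_eq_zpow_neg_valuation (by exact_mod_cast ha),
    Padic.norm_eq_zpow_neg_valuation (by exact_mod_cast hb), Padic.valuation_natCast,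
    Padic.valuation_natCast] at h1
  have h2 : (1 : ℝ) < l := by exact_mod_cast hl.one_lt
  simpa using zpow_right_injective₀ (by positivity) h2.ne' h1

theorem class_rat {q : ℚ} (hq : 0 ≤ q) {b : ℕ} (hb : b ≠ 0)
    (h : ∀ (l : ℕ) [Fact l.Prime], ‖(q : Om l)‖ = ‖(b : Om l)‖) : q = b := by
  have h0 : q ≠ 0 := by
    rintro rfl
    exact hb (by simpa [eq_comm] using h 2)
  have h1 : (q.num.natAbs : ℚ) = q * q.den := by
    rw [Rat.mul_den_eq_num, Nat.cast_natAbs, abs_of_nonneg (Rat.num_nonneg.mpr hq)]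
  have h2 := class_nat (Int.natAbs_ne_zero.mpr (Rat.num_ne_zero.mpr h0))
    (mul_ne_zero hb q.den_ne_zero) fun l _ => by
      rw [Nat.cast_mul, norm_mul, ← h l, ← Rat.cast_natCast, h1, Rat.cast_mul, Rat.cast_natCast,
        norm_mul]
  rw [h2, Nat.cast_mul] at h1
  exact (mul_right_cancel₀ (Nat.cast_ne_zero.mpr q.den_ne_zero) h1).symm

theorem class_pos [IsTotallyReal F] (hm : Cl.TP m) (a b : F) :
    0 ≤ Algebra.norm ℚ (a ^ 2 + m * b ^ 2) := by
  choose y hy hy0 using hm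
  have h1 := NT.norm_eq_prod (a ^ 2 + m * b ^ 2)
  rw [Finset.prod_congr rfl fun σ _ => show σ (a ^ 2 + m * b ^ 2) =
    (((σ a).re ^ 2 + y σ * (σ b).re ^ 2 : ℝ) : ℂ) by
      push_cast
      rw [← Cl.emb_re, ← Cl.emb_re, ← hy, map_add, map_mul, map_pow, map_pow]] at h1
  have h2 : ((Algebra.norm ℚ (a ^ 2 + m * b ^ 2) : ℚ) : ℝ) =
      ∏ σ : F →+* ℂ, ((σ a).re ^ 2 + y σ * (σ b).re ^ 2) := by exact_mod_cast h1
  rw [← Rat.cast_nonneg (K := ℝ), h2]
  exact Finset.prod_nonneg fun σ _ => by have := hy0 σ; positivity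

theorem class_rel [IsTotallyReal F] (hm : Cl.TP m) {x x' : Pl F} (hx : x.Ok m N₀)
    (hx' : x'.Ok m N₀) {z : Cl.Rm (-m)}
    (h5 : span {(x'.M : Cl.Rm (-m))} * classId hx = span {z} * classId hx')
    (h6 : z - x'.M ∈ span {(N₀ : Cl.Rm (-m))}) :
    Rel m x x' N₀ (z.re / x'.M) (z.im / x'.M) := by
  have hF0 : (x'.M : F) ≠ 0 := Nat.cast_ne_zero.mpr hx'.1.ne_zero
  have hM0 : ∀ (l : ℕ) [Fact l.Prime], (x'.M : Om l) ≠ 0 := fun l _ =>
    Nat.cast_ne_zero.mpr hx'.1.ne_zero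
  have hev : ∀ {l : ℕ} [Fact l.Prime] (s : F →+* Om l) {η : Om l} (h : η ^ 2 = -s m),
      s (z.re / x'.M) + s (z.im / x'.M) * η = Cl.ev s (class_neg h) z / x'.M := by
    intro l _ s η h
    rw [map_div₀, map_div₀, map_natCast, div_mul_eq_mul_div, ← add_div]
    rfl
  have hsz : ∀ (l : ℕ) [Fact l.Prime] (s : F →+* Om l) (η : Om l), η ^ 2 = -s m →
      ‖s (z.re / x'.M) + s (z.im / x'.M) * η‖ * x'.wt s η = x.wt s η := by
    intro l _ s η h
    obtain ⟨h7, u, hu, h8⟩ := class_nu hx s (class_neg h)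
    obtain ⟨h9, v, hv, h10⟩ := class_nu hx' s (class_neg h)
    obtain ⟨u', hu', e1⟩ := mem_span_singleton_mul.mp
      (h5 ▸ mul_mem_mul (mem_span_singleton_self (x'.M : Cl.Rm (-m))) hu)
    obtain ⟨v', hv', e2⟩ := mem_span_singleton_mul.mp
      (h5.symm ▸ mul_mem_mul (mem_span_singleton_self z) hv)
    have e3 := congrArg (fun t => ‖Cl.ev s (class_neg h) t‖) e1
    have e4 := congrArg (fun t => ‖Cl.ev s (class_neg h) t‖) e2
    simp only [map_mul, norm_mul, map_natCast, h8, h10] at e3 e4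
    rw [hev s h, norm_div, div_mul_eq_mul_div, div_eq_iff (norm_ne_zero_iff.mpr (hM0 l)),
      mul_comm (x.wt ..)]
    exact le_antisymm (e4 ▸ mul_le_mul_of_nonneg_left (h7 _ hv') (norm_nonneg _))
      (e3 ▸ mul_le_mul_of_nonneg_left (h9 _ hu') (norm_nonneg _))
  refine ⟨by rw [mul_div_cancel₀ _ hF0]; exact z.re.isIntegral_coe,
    by rw [mul_div_cancel₀ _ hF0]; exact z.im.isIntegral_coe, ?_, hsz, fun l _ h s η h' => ?_⟩
  · refine class_rat (mul_nonneg (Nat.cast_nonneg _) (class_pos hm _ _)) hx.1.ne_zero fun l _ => ?_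
    choose w hw using fun s : F →+* Om l => IsAlgClosed.exists_pow_nat_eq (-s m) two_pos
    rw [Rat.cast_mul, Rat.cast_natCast, norm_mul, Cl.padic_norm, norm_prod, ← class_prod hx w hw,
      ← class_prod hx' w hw, ← Finset.prod_mul_distrib]
    refine Finset.prod_congr rfl fun s _ => ?_
    rw [← hsz l s _ (hw s), ← hsz l s _ ((neg_sq _).trans (hw s)), mul_mul_mul_comm, ← norm_mul,
      mul_comm, map_add, map_mul, map_pow, map_pow]
    congr 2
    linear_combination s (z.im / x'.M) ^ 2 * hw s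
  · have h7 : ¬ l ∣ x'.M := fun h1 => (Fact.out : l.Prime).one_lt.ne'
      (Nat.eq_one_of_dvd_coprimes hx'.2.1 h1 h)
    obtain ⟨c, hc⟩ := mem_span_singleton.mp h6
    rw [hev s h', div_sub_one (hM0 l), norm_div, Cl.norm_nat h7, div_one,
      ← map_natCast (Cl.ev s (class_neg h')), ← map_sub, hc, map_mul, map_natCast, norm_mul]
    exact mul_le_of_le_one_right (norm_nonneg _) (Cl.ev_le _ c)

end aux

/-- `M4.Cl.cls` with `ε = 1 / 6` (`|N m| ≤ μ ^ 3`) for the admissible `x`, `A x` the ideal of all `y` with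
`‖x.ι l y.re + x.ι l y.im * x.ϖ l‖ < 1` for all `l ∣ x.M`. The largest norm of an element of `A x` at
`(ι, ϖ)` is `x.wt ι ϖ`: witnesses `M`, `(M / l) * (θ - n)`, `(M / l) * (ω - n)`. With `μ = x'.M` and `z`
from `cls` put `a = z.re / x'.M`, `b = z.im / x'.M`. The norm of `a ^ 2 + m b ^ 2` is positive and has
the `l`-adic norm of `x.M / x'.M` for all `l` (`prod_emb`, `sz` at `(ι, ϖ)` and `(ι, -ϖ)`). -/
theorem classes {F : Type} [Field F] [NumberField F] [IsTotallyReal F]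
    (hF : Module.finrank ℚ F = 3) {N₀ : ℕ} (hN : N₀ ≠ 0) :
    ∃ C : ℝ, 0 ≤ C ∧ ∀ (m : 𝓞 F) (μ : ℝ), Pos m μ → 1 ≤ μ →
      ∃ (h : ℕ) (cl : Pl F → Fin h), (h : ℝ) ≤ C * μ ^ 2 ∧ ∀ x x' : Pl F, x.Ok m N₀ →
        x'.Ok m N₀ → cl x = cl x' → ∃ a b : F, Rel m x x' N₀ a b := by
  classical
  obtain ⟨C, hC, h1⟩ := Cl.cls F (ε := 1 / 6) (by norm_num) hN
  refine ⟨C + 1, by positivity, fun m μ hm hμ => ?_⟩
  have hm' : Cl.TP m := fun σ => (hm σ).imp fun _ h => ⟨h.1, h.2.1⟩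
  obtain ⟨h, cl, h2, h3⟩ := h1 m hm' {x : Pl F // x.Ok m N₀} (fun x => classId x.2)
    fun x => class_adm x.2
  refine ⟨h + 1, fun x => if hx : x.Ok m N₀ then (cl ⟨x, hx⟩).succ else 0, ?_, fun x x' hx hx' e => ?_⟩
  · have h4 : ((Algebra.norm ℤ m).natAbs : ℝ) ≤ μ ^ 3 := hF ▸ NT.abs_norm_le fun σ => by
      obtain ⟨y, h4, h5, h6⟩ := hm σ
      rwa [h4, Complex.norm_real, Real.norm_of_nonneg h5.le]
    have h5 : ((Algebra.norm ℤ m).natAbs : ℝ) ^ (1 / 2 + 1 / 6 : ℝ) ≤ μ ^ 2 :=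
      (Real.rpow_le_rpow (Nat.cast_nonneg _) h4 (by norm_num)).trans_eq (by
        rw [← Real.rpow_natCast, ← Real.rpow_mul (by linarith), ← Real.rpow_natCast]
        norm_num)
    have h6 := one_le_pow₀ (n := 2) hμ
    push_cast
    nlinarith [mul_le_mul_of_nonneg_left h5 hC.le]
  · simp only [dif_pos hx, dif_pos hx', Fin.succ_inj] at e
    obtain ⟨z, -, h5, h6⟩ := h3 _ _ e _ (class_M hx')
    exact ⟨_, _, class_rel hm' hx hx' h5 h6⟩

end M4.CM
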