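import Pool.Agent.Lib.MP_33b3f9_ag.M4.CmEmb

/-!
Block B3a: archimedean and integrality properties of the invariant.
-/

set_option autoImplicit false

noncomputable section

namespace M4.CM

open Matrix Polynomial NumberField Pool.Agent.M4.Mx

namespace Glob

variable {F : Type} [Field F] [NumberField F] {p : ℕ} {P : ℤ[X]} {t : F} {s : ℤ}
  (G : Glob p P t s)

include G

theorem CmArch_cub (Ω : Type) [Field Ω] [IsAlgClosed Ω] [CharZero Ω] : Cub t s P Ω :=
  (cub_iff G.ne_zero s P).mpr G.cub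

omit G in
/-- Change the sign at one embedding. -/
theorem CmArch_flip {Ω : Type} [Field Ω] [CharZero Ω] {w : (F →+* Ω) → Ω} (hw : Sq t w)
    (σ : F →+* Ω) :
    ∃ w' : (F →+* Ω) → Ω, Sq t w' ∧ rt s w * (1 - w σ) = rt s w' * (1 + w σ) := by
  classical
  refine ⟨Function.update w σ (-w σ), fun ι => ?_, ?_⟩
  · by_cases h : ι = σ
    · subst h
      rw [Function.update_self, neg_sq]
      exact hw ι
    · rw [Function.update_of_ne h]
      exact hw ι
  · have h : ∏ ι ∈ Finset.univ.erase σ, (1 + Function.update w σ (-w σ) ι) =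
        ∏ ι ∈ Finset.univ.erase σ, (1 + w ι) :=
      Finset.prod_congr rfl fun ι hι => by rw [Function.update_of_ne (Finset.ne_of_mem_erase hι)]
    unfold rt
    rw [← Finset.mul_prod_erase _ _ (Finset.mem_univ σ),
      ← Finset.mul_prod_erase _ (fun ι => 1 + Function.update w σ (-w σ) ι) (Finset.mem_univ σ), h,
      Function.update_self]
    ring

theorem CmArch_aeval {Ω : Type} [Field Ω] [IsAlgClosed Ω] [CharZero Ω] {w : (F →+* Ω) → Ω}
    (hw : Sq t w) : aeval (rt s w) P = 0 := by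
  rw [aeval_def, eval₂_eq_eval_map]
  exact (G.CmArch_cub Ω).root w hw

/-- Let `w'` be `w` with the sign at `σ` changed, `ρ = rt s w / rt s w' = (1 + w σ) / (1 - w σ)`. Then
`‖ρ‖ = 1` and `σ t = ρ + 2 + ρ⁻¹ = 2 + 2 re ρ`. -/
theorem re (σ : F →+* ℂ) : ∃ x : ℝ, σ t = x ∧ 0 < x ∧ x < 4 := by
  obtain ⟨w, hw⟩ := exists_sq (Ω := ℂ) G.ne_zero
  obtain ⟨w', hw', h⟩ := CmArch_flip (s := s) hw σ
  have h1 := G.weil _ (G.CmArch_aeval hw)
  have h2 := G.weil _ (G.CmArch_aeval hw')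
  have hp : (0 : ℝ) < p := by exact_mod_cast G.prime.pos
  have h3 : ‖1 - w σ‖ ^ 2 = ‖1 + w σ‖ ^ 2 := by
    have h4 := congrArg (fun z : ℂ => ‖z‖ ^ 2) h
    simp only [norm_mul, mul_pow, h1, h2] at h4
    exact mul_left_cancel₀ hp.ne' h4
  have h5 : (w σ).re = 0 := by
    rw [Complex.sq_norm, Complex.sq_norm, Complex.normSq_apply, Complex.normSq_apply] at h3
    simp only [Complex.sub_re, Complex.one_re, Complex.sub_im, Complex.one_im, Complex.add_re,
      Complex.add_im] at h3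
    linarith
  have h6 : w σ = ((w σ).im : ℂ) * Complex.I := by
    apply Complex.ext <;> simp [h5]
  have h7 : (w σ).im ≠ 0 := fun h0 => (G.sq_ne hw σ).1 (by rw [h6, h0]; simp)
  have h8 := hw σ
  generalize (w σ).im = y at h6 h7
  have h9 : 0 < y ^ 2 := by positivity
  have h10 : ((1 + y ^ 2 : ℝ) : ℂ) ≠ 0 := Complex.ofReal_ne_zero.mpr (by positivity)
  refine ⟨4 / (1 + y ^ 2), ?_, by positivity, ?_⟩
  · rw [Complex.ofReal_div, eq_div_iff h10]
    rw [h6, mul_pow, Complex.I_sq] at h8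
    push_cast
    linear_combination -h8
  · rw [div_lt_iff₀ (by positivity)]
    linarith

theorem s_lt : s ^ 2 < 64 * p := by
  choose x hx using G.re
  have h1 : ((Algebra.norm ℚ t : ℚ) : ℝ) = ∏ σ : F →+* ℂ, x σ := by
    apply Complex.ofReal_injective
    rw [Complex.ofReal_ratCast, ← prod_emb, Complex.ofReal_prod]
    exact Finset.prod_congr rfl fun σ _ => (hx σ).1
  have h2 : ∏ σ : F →+* ℂ, x σ < ∏ _σ : F →+* ℂ, (4 : ℝ) :=
    Finset.prod_lt_prod_of_nonempty (fun σ _ => (hx σ).2.1) (fun σ _ => (hx σ).2.2)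
      Finset.univ_nonempty
  rw [Finset.prod_const, Finset.card_univ, NumberField.Embeddings.card, G.rank, ← h1] at h2
  have h3 : (p : ℝ) * ((Algebra.norm ℚ t : ℚ) : ℝ) = (s : ℝ) ^ 2 := by exact_mod_cast G.nrm
  have hp : (0 : ℝ) < p := by exact_mod_cast G.prime.pos
  have h4 : (s : ℝ) ^ 2 < 64 * p := by
    rw [← h3]
    nlinarith
  exact_mod_cast h4

theorem not_dvd (hp : 64 ≤ p) : ¬ (p : ℤ) ∣ s := by
  intro h
  have h1 : (p : ℤ) ≤ |s| := Int.le_of_dvd (abs_pos.mpr G.s_ne) ((dvd_abs _ _).mpr h)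
  have h2 := G.s_lt
  have h3 : (64 : ℤ) ≤ p := by exact_mod_cast hp
  rw [← sq_abs] at h2
  nlinarith

theorem rt_le {l : ℕ} [Fact l.Prime] {w : (F →+* Om l) → Om l} (hw : Sq t w) : ‖rt s w‖ ≤ 1 :=
  le_of_integral ⟨P, G.monic, G.CmArch_aeval hw⟩

/-- All vertices are units (`rt_mul`), so `ρ` is a unit. -/
theorem int_le {l : ℕ} [Fact l.Prime] (hl : l ≠ p) (ι : F →+* Om l) : ‖ι t‖ ≤ 1 := by
  have hp : ‖(p : Om l)‖ = 1 := norm_nat_eq_one fun h =>
    hl ((Nat.prime_dvd_prime_iff_eq Fact.out G.prime).mp h)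
  have hu : ∀ w : (F →+* Om l) → Om l, Sq t w → ‖rt s w‖ = 1 := by
    intro w hw
    have hw' : Sq t (-w) := fun ι => by
      rw [Pi.neg_apply, neg_sq]
      exact hw ι
    have h1 := congrArg norm (G.rt_mul hw)
    rw [norm_mul, hp] at h1
    refine le_antisymm (G.rt_le hw) ?_
    calc (1 : ℝ) = ‖rt s w‖ * ‖rt s (-w)‖ := h1.symm
      _ ≤ ‖rt s w‖ := mul_le_of_le_one_right (norm_nonneg _) (G.rt_le hw')
  obtain ⟨w, hw⟩ := exists_sq (Ω := Om l) G.ne_zero
  obtain ⟨w', hw', h⟩ := CmArch_flip (s := s) hw ι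
  have h1 := congrArg norm h
  rw [norm_mul, norm_mul, hu w hw, hu w' hw', one_mul, one_mul] at h1
  obtain ⟨-, h2, h3⟩ := G.sq_ne hw ι
  have h4 : ι t = (1 + w ι) / (1 - w ι) + ((2 : ℤ) : Om l) + (1 - w ι) / (1 + w ι) := by
    have h5 := hw ι
    push_cast
    field_simp
    linear_combination -h5
  have h6 : ‖(1 + w ι) / (1 - w ι)‖ ≤ 1 := by
    rw [norm_div, h1, div_self (norm_ne_zero_iff.mpr h2)]
  have h7 : ‖(1 - w ι) / (1 + w ι)‖ ≤ 1 := by
    rw [norm_div, h1, div_self (norm_ne_zero_iff.mpr h2)]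
  rw [h4]
  exact (IsUltrametricDist.norm_add_le_max _ _).trans (max_le
    ((IsUltrametricDist.norm_add_le_max _ _).trans (max_le h6 (norm_int_le 2))) h7)

/-- `Δ = s ^ 2 * (p * N (t - 4))`, the norm of `Δ` is one, all factors have norm at most one. -/
theorem unit_of_jac {Δ : ℤ} (hΔ : (Δ : ℚ) = (p : ℚ) ^ 2 * Algebra.norm ℚ (t * (t - 4))) {l : ℕ}
    [Fact l.Prime] (hl : l ≠ p) (hj : jacobiSym Δ l = 1) :
    ¬ (l : ℤ) ∣ s ∧ ∀ ι : F →+* Om l, ‖ι t‖ = 1 ∧ ‖ι t - 4‖ = 1 := by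
  have hP : l.Prime := Fact.out
  have hp : ‖(p : Om l)‖ = 1 := norm_nat_eq_one fun h =>
    hl ((Nat.prime_dvd_prime_iff_eq hP G.prime).mp h)
  have hd : ¬ (l : ℤ) ∣ Δ := by
    intro h
    have h0 : jacobiSym Δ l = 0 := by
      refine jacobiSym.eq_zero_iff.mpr ⟨hP.ne_zero, fun h1 => hP.one_lt.ne' ?_⟩
      have h2 : (l : ℤ) ∣ (Δ.gcd l : ℤ) := Int.dvd_coe_gcd h dvd_rfl
      rw [h1] at h2
      exact Nat.dvd_one.mp (by exact_mod_cast h2)
    rw [h0] at hj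
    exact zero_ne_one hj
  have h4 : ∀ ι : F →+* Om l, ‖ι t - 4‖ ≤ 1 := by
    intro ι
    have h1 : ι t - 4 = ι t + ((-4 : ℤ) : Om l) := by
      push_cast
      ring
    rw [h1]
    exact (IsUltrametricDist.norm_add_le_max _ _).trans (max_le (G.int_le hl ι) (norm_int_le _))
  have h5 : (Δ : Om l) = (p : Om l) ^ 2 * ∏ ι : F →+* Om l, ι (t * (t - 4)) := by
    rw [prod_emb]
    exact_mod_cast congrArg (Rat.cast : ℚ → Om l) hΔ
  have h6 : ‖∏ ι : F →+* Om l, ι (t * (t - 4))‖ = 1 := by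
    have h7 := norm_int_eq_one (l := l) hd
    rwa [h5, norm_mul, norm_pow, hp, one_pow, one_mul] at h7
  have h8 : ∀ ι : F →+* Om l, ‖ι (t * (t - 4))‖ = ‖ι t‖ * ‖ι t - 4‖ := fun ι => by
    rw [map_mul, map_sub, map_ofNat, norm_mul]
  have h9 : ∀ ι : F →+* Om l, ‖ι t‖ = 1 ∧ ‖ι t - 4‖ = 1 := by
    intro ι
    have h10 := norm_eq_one_of_prod (x := fun ι : F →+* Om l => ι (t * (t - 4)))
      (fun ι => (h8 ι).trans_le (mul_le_one₀ (G.int_le hl ι) (norm_nonneg _) (h4 ι))) h6 ι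
    rw [h8] at h10
    exact ⟨le_antisymm (G.int_le hl ι)
        (h10.symm.trans_le (mul_le_of_le_one_right (norm_nonneg _) (h4 ι))),
      le_antisymm (h4 ι)
        (h10.symm.trans_le (mul_le_of_le_one_left (norm_nonneg _) (G.int_le hl ι)))⟩
  refine ⟨fun h => ?_, h9⟩
  have h11 : (p : Om l) * ∏ ι : F →+* Om l, ι t = (s : Om l) ^ 2 := by
    rw [prod_emb]
    exact_mod_cast congrArg (Rat.cast : ℚ → Om l) G.nrm
  have h12 := congrArg norm h11
  rw [norm_mul, hp, norm_prod, Finset.prod_eq_one fun ι _ => (h9 ι).1, norm_pow] at h12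
  have h13 := norm_int_lt_one (l := l) h
  have h14 := norm_nonneg (s : Om l)
  nlinarith

end Glob

end M4.CM
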