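import Pool.Agent.Lib.MP_33b3f9_ag.M4.CmDefs

/-!
Block B3a: traces of powers.
-/

set_option autoImplicit false

noncomputable section

namespace M4.CM

open Matrix Polynomial NumberField Pool.Agent.M4.Mx

variable {Ω : Type} [Field Ω]

theorem cmspec_roots {α : Type} [Fintype α] (a : α → Ω) :
    (∏ i, (X - C (a i))).roots = Finset.univ.val.map a := by
  rw [← roots_multiset_prod_X_sub_C (Finset.univ.val.map a), Multiset.map_map]
  rfl

theorem cmspec_det [IsAlgClosed Ω] {n α : Type} [Fintype n] [DecidableEq n] [Fintype α]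
    (A : Matrix n n Ω) (a : α → Ω) (h : A.charpoly = ∏ i, (X - C (a i))) (p : Polynomial Ω) :
    (aeval A p).det = ∏ i, p.eval (a i) := by
  have hc : Fintype.card n = Fintype.card α := by
    rw [← A.charpoly_natDegree_eq_dim, h, natDegree_finsetProd_X_sub_C_eq_card]
    rfl
  have hs : p ∈ Submonoid.closure ({C a | a : Ω} ∪ {X + C a | a : Ω}) := IsAlgClosed.splits p
  induction hs using Submonoid.closure_induction with
  | mem q hq =>
    rcases hq with ⟨r, rfl⟩ | ⟨r, rfl⟩
    · simp [Algebra.algebraMap_eq_smul_one, hc]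
    · have h1 := A.eval_charpoly (-r)
      have h2 : aeval A (X + C r) = -(Matrix.scalar n (-r) - A) := by
        rw [map_add, aeval_X, aeval_C, map_neg]
        simp only [neg_sub, sub_neg_eq_add]
        rfl
      rw [h2, det_neg, ← h1, h, eval_prod, hc, ← Finset.card_univ, ← Finset.prod_const,
        ← Finset.prod_mul_distrib]
      exact Finset.prod_congr rfl fun i _ => by simp [add_comm]
  | one => simp
  | mul q q' _ _ h1 h2 => simp [det_mul, h1, h2, Finset.prod_mul_distrib]

/-- Decompose into maximal generalised eigenspaces (`Module.End.iSup_maxGenEigenspace_eq_top`,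
`LinearMap.trace_eq_sum_trace_restrict'`, `LinearMap.finrank_maxGenEigenspace_eq`); on the space
of `μ` the map `A ^ k - μ ^ k = (A - μ) * B` is nilpotent, so it has trace zero. Alternative: induction
on the dimension. -/
theorem trace_pow [IsAlgClosed Ω] {n α : Type} [Fintype n] [DecidableEq n] [Fintype α]
    (A : Matrix n n Ω) (a : α → Ω) (h : A.charpoly = ∏ i, (X - C (a i))) (k : ℕ) :
    (A ^ k).trace = ∑ i, a i ^ k := by
  have h1 : (A ^ k).charpoly = ∏ i, (X - C (a i ^ k)) := by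
    refine Polynomial.funext fun c => ?_
    have h2 : Matrix.scalar n c - A ^ k = aeval A (C c - X ^ k) := by
      rw [map_sub, map_pow, aeval_X, aeval_C]
      rfl
    rw [eval_charpoly, h2, cmspec_det A a h, eval_prod]
    simp
  rw [trace_eq_sum_roots_charpoly, h1, cmspec_roots]
  rfl

theorem exists_roots [IsAlgClosed Ω] (P : Polynomial Ω) (hm : P.Monic) :
    ∃ a : Fin P.natDegree → Ω, P = ∏ i, (X - C (a i)) := by
  have key : ∀ (s : Multiset Ω) (n : ℕ), s.card = n →
      ∃ a : Fin n → Ω, Finset.univ.val.map a = s := by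
    intro s n hn
    induction s using Quotient.inductionOn with
    | h l =>
      subst hn
      exact ⟨l.get, (Fin.univ_val_map l.get).trans (congrArg _ (List.ofFn_get l))⟩
  obtain ⟨a, ha⟩ := key P.roots _ (IsAlgClosed.splits P).natDegree_eq_card_roots.symm
  refine ⟨a, ((IsAlgClosed.splits P).eq_prod_roots_of_monic hm).trans ?_⟩
  rw [← ha, Multiset.map_map]
  rfl

theorem exists_roots8 [IsAlgClosed Ω] (A : Matrix ν ν Ω) :
    ∃ a : Fin 8 → Ω, A.charpoly = ∏ i, (X - C (a i)) := by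
  have h := exists_roots A.charpoly A.charpoly_monic
  have h8 : A.charpoly.natDegree = 8 := by
    rw [A.charpoly_natDegree_eq_dim]
    simp
  rwa [h8] at h

/-- `a k` is the trace of the `k`-th power of the companion matrix
(`Algebra.leftMulMatrix (AdjoinRoot.powerBasis' hm).basis`, `charpoly_leftMulMatrix`,
`AdjoinRoot.minpoly_powerBasis_gen_of_monic`); apply `trace_pow` twice. -/
theorem pow_sums (P : ℤ[X]) (hm : P.Monic) : ∃ a : ℕ → ℤ, ∀ (Ω : Type) [Field Ω] [IsAlgClosed Ω]
    (A : Matrix ν ν Ω), A.charpoly = P.map (Int.castRingHom Ω) → ∀ k, (A ^ k).trace = a k := by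
  set b := AdjoinRoot.powerBasis' hm with hb
  set B := Algebra.leftMulMatrix b.basis b.gen with hB
  have h1 : B.charpoly = P := by
    rw [hB, charpoly_leftMulMatrix]
    refine (minpoly.unique' ℤ b.gen hm ?_ fun q hq => ?_).symm
    · rw [hb, AdjoinRoot.powerBasis'_gen, AdjoinRoot.aeval_eq, AdjoinRoot.mk_self]
    · rw [hb, AdjoinRoot.powerBasis'_gen, AdjoinRoot.aeval_eq, Ne, AdjoinRoot.mk_eq_zero,
        or_iff_not_imp_right, not_not]
      exact fun h => eq_zero_of_dvd_of_degree_lt h hq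
  refine ⟨fun k => (B ^ k).trace, fun Ω _ _ A hA k => ?_⟩
  obtain ⟨a, ha⟩ := exists_roots (P.map (Int.castRingHom Ω)) (hm.map _)
  have h2 : (B.map (Int.castRingHom Ω)).charpoly = ∏ i, (X - C (a i)) := by
    rw [charpoly_map, h1, ← ha]
  rw [trace_pow A a (hA.trans ha), ← trace_pow _ a h2, ← Matrix.map_pow]
  exact (AddMonoidHom.map_trace (Int.castRingHom Ω) (B ^ k)).symm

theorem sp2_iff {α : Type} [Fintype α] (a : α → Ω) :
    Sp2 (∏ i, (X - C (a i))) ↔ Function.Injective fun i => a i ^ 2 := by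
  rw [Sp2, cmspec_roots, Multiset.map_map]
  exact Fintype.nodup_map_univ_iff_injective

/-- Through `Qb`: the roots in `Ω` are the images of the roots in `Qb`. -/
theorem Sp2.transfer (P : ℤ[X]) (Ω Ω' : Type) [Field Ω] [IsAlgClosed Ω] [CharZero Ω] [Field Ω']
    [IsAlgClosed Ω'] [CharZero Ω'] (h : Sp2 (P.map (Int.castRingHom Ω))) :
    Sp2 (P.map (Int.castRingHom Ω')) := by
  have key : ∀ (Λ : Type) [Field Λ] [IsAlgClosed Λ] [CharZero Λ],
      Sp2 (P.map (Int.castRingHom Λ)) ↔ Sp2 (P.map (Int.castRingHom Qb)) := by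
    intro Λ _ _ _
    have : Algebra.IsAlgebraic ℚ Qb := AlgebraicClosure.isAlgebraic ℚ
    let φ : Qb →+* Λ := (IsAlgClosed.lift : Qb →ₐ[ℚ] Λ).toRingHom
    have h1 : P.map (Int.castRingHom Λ) = (P.map (Int.castRingHom Qb)).map φ := by
      rw [Polynomial.map_map, RingHom.ext_int (φ.comp _) (Int.castRingHom Λ)]
    have h2 : ((fun z : Λ => z ^ 2) ∘ φ) = φ ∘ fun z : Qb => z ^ 2 :=
      funext fun z => (map_pow φ z 2).symm
    rw [Sp2, Sp2, h1, (IsAlgClosed.splits _).roots_map, Multiset.map_map, h2, ← Multiset.map_map,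
      Multiset.nodup_map_iff_of_injective φ.injective]
  exact (key Ω').2 ((key Ω).1 h)

/-- `Polynomial.nodup_roots_iff_of_splits`, `Polynomial.separable_map`. -/
theorem Sp2.separable [IsAlgClosed Ω] {k : Type} [Field k] (φ : k →+* Ω) {P : Polynomial k}
    (h0 : P ≠ 0) (h : Sp2 (P.map φ)) : P.Separable :=
  (separable_map φ).1 ((nodup_roots_iff_of_splits (map_ne_zero h0) (IsAlgClosed.splits _)).1
    (Multiset.Nodup.of_map _ h))

/-- A monic cubic with prescribed values at `0, 2, 3`: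
`X (X - 2) (X - 3)` plus an interpolation polynomial; two monic cubics that agree at three points are
equal. -/
theorem exists_cubic (v₀ v₂ v₃ : ℚ) : ∃ c : ℚ[X], c.Monic ∧ c.natDegree = 3 ∧
    ∀ (Ω : Type) [Field Ω] [CharZero Ω] (T : Fin 3 → Ω), ∏ i, T i = v₀ → ∏ i, (T i - 2) = v₂ →
      ∏ i, (T i - 3) = v₃ → ∀ i, (c.map (Rat.castHom Ω)).eval (T i) = 0 := by
  refine ⟨X ^ 3 + C (-5 - v₀ / 6 + v₂ / 2 - v₃ / 3) * X ^ 2 +
    C (6 + 5 * v₀ / 6 - 3 * v₂ / 2 + 2 * v₃ / 3) * X + C (-v₀), by monicity!, by compute_degree!,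
    fun Ω _ _ T h0 h2 h3 i => ?_⟩
  have h4 : ∏ j, (T i - T j) = 0 := Finset.prod_eq_zero (Finset.mem_univ i) (sub_self _)
  rw [Fin.prod_univ_three] at h0 h2 h3 h4
  simp only [Polynomial.map_add, Polynomial.map_mul, Polynomial.map_pow, map_X, map_C, eval_add,
    eval_mul, eval_pow, eval_X, eval_C, eq_ratCast]
  push_cast
  rw [← h0, ← h2, ← h3, ← h4]
  ring

end M4.CM
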