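import Pool.Agent.Lib.MP_33b3f9_ag.M4.CmNorm
import Pool.Agent.Lib.MP_33b3f9_ag.M4.CmSpec

/-!
Block B3a: the discriminant of the squares.
-/

set_option autoImplicit false

noncomputable section

namespace M4.CM

open Matrix Polynomial NumberField Pool.Agent.M4.Mx

theorem Dq_map {R S : Type} [CommRing R] [CommRing S] (φ : R →+* S) (A : Matrix ν ν R) :
    Dq (A.map φ) = φ (Dq A) := by
  rw [Dq, Dq, RingHom.map_det]
  refine congrArg Matrix.det ?_
  ext i j
  rw [RingHom.mapMatrix_apply, map_apply, of_apply, of_apply, ← Matrix.map_pow, trace, trace,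
    map_sum]
  rfl

/-- `Dq_map` for the quotient map of `I`. -/
theorem Dq_cong {R : Type} [CommRing R] (I : Ideal R) {A B : Matrix ν ν R}
    (h : ∀ i j, A i j - B i j ∈ I) : Dq A - Dq B ∈ I := by
  have h1 : A.map (Ideal.Quotient.mk I) = B.map (Ideal.Quotient.mk I) :=
    Matrix.ext fun i j => Ideal.Quotient.eq.2 (h i j)
  rw [← Ideal.Quotient.eq, ← Dq_map, ← Dq_map, h1]

theorem cmDq_van {Ω : Type} [Field Ω] [IsAlgClosed Ω] (A : Matrix ν ν Ω) (a : Fin 8 → Ω)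
    (h : A.charpoly = ∏ i, (X - C (a i))) (k : ℕ) :
    Dq (A ^ k) = (vandermonde fun i => (a i ^ 2) ^ k).det ^ 2 := by
  have h1 : (Matrix.of fun i j : Fin 8 => ((A ^ k) ^ (2 * ((i : ℕ) + (j : ℕ)))).trace) =
      (vandermonde fun i => (a i ^ 2) ^ k)ᵀ * vandermonde fun i => (a i ^ 2) ^ k := by
    ext i j
    rw [vandermonde_transpose_mul_vandermonde, of_apply, ← pow_mul, trace_pow A a h]
    refine Finset.sum_congr rfl fun m _ => ?_
    rw [← pow_mul, ← pow_mul]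
    exact congrArg (fun n => a m ^ n) (by ring)
  rw [Dq, h1, det_mul, det_transpose, ← sq]

/-- The matrix of `Dq` is `Vᵀ * V`, `V = vandermonde (a ^ 2)` (`trace_pow`,
`Matrix.det_vandermonde`). -/
theorem Dq_eq {Ω : Type} [Field Ω] [IsAlgClosed Ω] (A : Matrix ν ν Ω) (a : Fin 8 → Ω)
    (h : A.charpoly = ∏ i, (X - C (a i))) (k : ℕ) :
    Dq (A ^ k) = (∏ i, ∏ j ∈ Finset.Ioi i, ((a j ^ 2) ^ k - (a i ^ 2) ^ k)) ^ 2 := by
  rw [cmDq_van A a h, det_vandermonde]

theorem Dq_ne_iff {Ω : Type} [Field Ω] [IsAlgClosed Ω] (A : Matrix ν ν Ω) :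
    Dq A ≠ 0 ↔ Sp2 A.charpoly := by
  obtain ⟨a, ha⟩ := exists_roots8 A
  have h1 := cmDq_van A a ha 1
  simp only [pow_one] at h1
  rw [h1, ha, sp2_iff, ← det_vandermonde_ne_zero_iff]
  exact pow_ne_zero_iff two_ne_zero

variable {l : ℕ} [Fact l.Prime]

theorem cmDq_pow {x y : Om l} (hx : ‖x‖ ≤ 1) (hy : ‖y‖ ≤ 1) (k : ℕ) :
    ‖x ^ k - y ^ k‖ ≤ ‖x - y‖ := by
  rw [← geom_sum₂_mul, norm_mul]
  refine mul_le_of_le_one_left (norm_nonneg _) ?_
  refine IsUltrametricDist.norm_sum_le_of_forall_le_of_nonneg zero_le_one fun i _ => ?_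
  rw [norm_mul, norm_pow, norm_pow]
  exact mul_le_one₀ (pow_le_one₀ (norm_nonneg _) hx) (by positivity)
    (pow_le_one₀ (norm_nonneg _) hy)

theorem cmDq_sub {x y : Om l} {c : ℝ} (hx : ‖x‖ ≤ c) (hy : ‖y‖ ≤ c) : ‖x - y‖ ≤ c := by
  rw [sub_eq_add_neg]
  exact (IsUltrametricDist.norm_add_le_max _ _).trans (max_le hx (by rwa [norm_neg]))

theorem cmDq_root {A : Matrix ν ν (Om l)} {a : Fin 8 → Om l}
    (ha : A.charpoly = ∏ i, (X - C (a i))) (i : Fin 8) : A.charpoly.eval (a i) = 0 := by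
  rw [ha, eval_prod]
  exact Finset.prod_eq_zero (Finset.mem_univ i) (by simp)

theorem cmDq_sq {x : Om l} (hx : ‖x‖ ≤ 1) : ‖x ^ 2‖ ≤ 1 := by
  rw [norm_pow]
  exact pow_le_one₀ (norm_nonneg _) hx

/-- `x ^ k - y ^ k = (x - y) * (integral)`. -/
theorem Dq_pow_le {A : Matrix ν ν (Om l)} (h : Le A 1) (k : ℕ) : ‖Dq (A ^ k)‖ ≤ ‖Dq A‖ := by
  obtain ⟨a, ha⟩ := exists_roots8 A
  have h1 := Dq_eq A a ha 1
  simp only [pow_one] at h1
  have h2 : ∀ i, ‖a i ^ 2‖ ≤ 1 := fun i => cmDq_sq (h.root (cmDq_root ha i))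
  rw [h1, Dq_eq A a ha k, norm_pow, norm_pow, norm_prod, norm_prod]
  refine pow_le_pow_left₀ (Finset.prod_nonneg fun _ _ => norm_nonneg _)
    (Finset.prod_le_prod (fun _ _ => norm_nonneg _) fun i _ => ?_) 2
  rw [norm_prod, norm_prod]
  exact Finset.prod_le_prod (fun _ _ => norm_nonneg _) fun j _ => cmDq_pow (h2 j) (h2 i) k

/-- The elements of norm at most one. -/
def cmDq_O (l : ℕ) [Fact l.Prime] : Subring (Om l) where
  carrier := {x | ‖x‖ ≤ 1}
  mul_mem' := fun {x y} hx hy => by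
    change ‖x * y‖ ≤ 1
    rw [norm_mul]
    exact mul_le_one₀ hx (norm_nonneg _) hy
  one_mem' := norm_one.le
  add_mem' := fun hx hy => (IsUltrametricDist.norm_add_le_max _ _).trans (max_le hx hy)
  zero_mem' := norm_zero.le.trans zero_le_one
  neg_mem' := fun {x} hx => (norm_neg x).le.trans hx

/-- The elements of norm less than one. -/
def cmDq_I (l : ℕ) [Fact l.Prime] : Ideal (cmDq_O l) where
  carrier := {x | ‖(x : Om l)‖ < 1}
  add_mem' := fun hx hy => (IsUltrametricDist.norm_add_le_max _ _).trans_lt (max_lt hx hy)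
  zero_mem' := norm_zero.le.trans_lt zero_lt_one
  smul_mem' := fun c x hx => by
    change ‖(c : Om l) * x‖ < 1
    rw [norm_mul]
    exact mul_lt_one_of_nonneg_of_lt_one_right c.2 (norm_nonneg _) hx

/-- Work in the subring of the elements of norm at most one and use `Dq_cong`, `Dq_map`. -/
theorem Dq_near {A B : Matrix ν ν (Om l)} (hA : Le A 1) (hB : Le B 1)
    (h : ∀ i j, ‖(A - B) i j‖ < 1) : ‖Dq A - Dq B‖ < 1 := by
  let A' : Matrix ν ν (cmDq_O l) := fun i j => ⟨A i j, hA i j⟩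
  let B' : Matrix ν ν (cmDq_O l) := fun i j => ⟨B i j, hB i j⟩
  have h1 : Dq A = (cmDq_O l).subtype (Dq A') := Dq_map (cmDq_O l).subtype A'
  have h2 : Dq B = (cmDq_O l).subtype (Dq B') := Dq_map (cmDq_O l).subtype B'
  have h3 := Dq_cong (cmDq_I l) (A := A') (B := B') h
  rw [h1, h2, ← map_sub]
  generalize Dq A' - Dq B' = z at h3
  exact h3

theorem Dq_eqm {K : IntermediateField ℚ ℂ} {r : Rep K} {N : ℕ} {σ σ' : ℂ ≃ₐ[K] ℂ}
    (h : Eqm r N σ σ') : ‖Dq (ro r l σ) - Dq (ro r l σ')‖ ≤ ‖(N : Om l)‖ := by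
  obtain ⟨c, hc⟩ := Ideal.mem_span_singleton.1 (Dq_cong (Ideal.span {(N : ℤ_[l])})
    fun i j => Ideal.mem_span_singleton.2 (h l i j))
  rw [ro_eq, ro_eq, Dq_map, Dq_map, ← map_sub, hc, map_mul, map_natCast, norm_mul, norm_toOm]
  exact mul_le_of_le_one_right (norm_nonneg _) c.norm_le_one

theorem cmDq_prod {A : Matrix ν ν (Om l)} (h : Le A 1) {a : Fin 8 → Om l} (ha : ∀ i, ‖a i‖ ≤ 1)
    (s : Finset (Fin 8)) : Le (aeval A (∏ j ∈ s, (X - C (a j)))) 1 := by
  induction s using Finset.induction_on with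
  | empty =>
    rw [Finset.prod_empty, map_one]
    exact Le.one
  | insert j s hj ih =>
    rw [Finset.prod_insert hj, map_mul, map_sub, aeval_X, aeval_C, Algebra.algebraMap_eq_smul_one]
    exact (h.sub ((Le.one.smul _).mono (by rw [mul_one]; exact ha j))).mul_one ih

theorem cmDq_interp {F n α : Type} [Field F] [Fintype n] [DecidableEq n] [Fintype α]
    [DecidableEq α] (A : Matrix n n F) {a : α → F} (hc : A.charpoly = ∏ i, (X - C (a i)))
    (hi : Function.Injective a) (q : F[X]) :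
    aeval A q = ∑ i, (q.eval (a i) * (∏ j ∈ Finset.univ.erase i, (a i - a j))⁻¹) •
      aeval A (∏ j ∈ Finset.univ.erase i, (X - C (a j))) := by
  have hd : A.charpoly ∣ q - Lagrange.interpolate Finset.univ a fun i => q.eval (a i) := by
    rw [hc]
    refine Finset.prod_dvd_of_coprime ((pairwise_coprime_X_sub_C hi).set_pairwise _) fun i _ => ?_
    rw [dvd_iff_isRoot, IsRoot, eval_sub,
      Lagrange.eval_interpolate_at_node _ hi.injOn (Finset.mem_univ i), sub_self]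
  obtain ⟨c, hcd⟩ := hd
  have h1 := congrArg (aeval A) hcd
  rw [map_mul, aeval_self_charpoly, zero_mul, map_sub, sub_eq_zero] at h1
  rw [h1, Lagrange.interpolate_apply, map_sum]
  refine Finset.sum_congr rfl fun i _ => ?_
  simp only [Lagrange.basis, Lagrange.basisDivisor, Finset.prod_mul_distrib]
  rw [← map_prod C, ← mul_assoc, ← map_mul C, ← smul_eq_C_mul, map_smul, Finset.prod_inv_distrib]

theorem cmDq_le {A : Matrix ν ν (Om l)} {a : Fin 8 → Om l}
    (hc : A.charpoly = ∏ i, (X - C (a i))) (ha : ∀ i, ‖a i‖ ≤ 1) (i : Fin 8) :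
    ‖Dq A‖ ≤ ∏ j ∈ Finset.univ.erase i, ‖a i - a j‖ := by
  have h1 := Dq_eq A a hc 1
  simp only [pow_one] at h1
  have h2 := Finset.prod_prod_Ioi_mul_eq_prod_prod_off_diag fun j i => ‖a j ^ 2 - a i ^ 2‖
  have h3 : ‖Dq A‖ = ∏ i, ∏ j ∈ {i}ᶜ, ‖a j ^ 2 - a i ^ 2‖ := by
    rw [← h2, h1, norm_pow, norm_prod, ← Finset.prod_pow]
    refine Finset.prod_congr rfl fun i _ => ?_
    rw [norm_prod, ← Finset.prod_pow]
    refine Finset.prod_congr rfl fun j _ => ?_
    rw [norm_sub_rev (a i ^ 2), sq]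
  rw [h3]
  refine (Finset.prod_le_prod_of_subset_of_le_one (Finset.subset_univ {i})
    (fun _ _ => Finset.prod_nonneg fun _ _ => norm_nonneg _) fun i _ _ =>
      Finset.prod_le_one (fun _ _ => norm_nonneg _) fun j _ =>
        cmDq_sub (cmDq_sq (ha j)) (cmDq_sq (ha i))).trans ?_
  rw [Finset.prod_singleton, Finset.compl_singleton]
  refine Finset.prod_le_prod (fun _ _ => norm_nonneg _) fun j _ => ?_
  rw [norm_sub_rev]
  exact cmDq_pow (ha i) (ha j) 2

/-- The eigenvalues `a i` are distinct. `q` and the interpolation polynomial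
`∑ i, C (q.eval (a i)) * Lagrange.basis univ a i` differ by a multiple of the characteristic
polynomial (Cayley-Hamilton), the basis polynomial at `A` is `(∏ j ≠ i, (a i - a j))⁻¹` times a product
of integral matrices, and `‖Dq A‖ ≤ ‖∏ j ≠ i, (a i - a j)‖`. -/
theorem bad_local {A : Matrix ν ν (Om l)} (h : Le A 1) (h0 : Dq A ≠ 0) (q : Polynomial (Om l))
    {η : ℝ} (hη : 0 ≤ η) (hq : ∀ z, A.charpoly.eval z = 0 → ‖q.eval z‖ ≤ η) :
    Le (aeval A q) (η / ‖Dq A‖) := by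
  obtain ⟨a, hc⟩ := exists_roots8 A
  have ha : ∀ i, ‖a i‖ ≤ 1 := fun i => h.root (cmDq_root hc i)
  have hi : Function.Injective a := by
    have h1 := (Dq_ne_iff A).1 h0
    rw [hc, sp2_iff] at h1
    exact fun i j hij => h1 (congrArg (fun z => z ^ 2) hij)
  have hD : 0 < ‖Dq A‖ := norm_pos_iff.2 h0
  rw [cmDq_interp A hc hi q]
  refine Le.sum _ (div_nonneg hη hD.le) fun i _ => ((cmDq_prod h ha _).smul _).mono ?_
  rw [mul_one, norm_mul, norm_inv, norm_prod, div_eq_mul_inv]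
  exact mul_le_mul (hq _ (cmDq_root hc i)) (inv_anti₀ hD (cmDq_le hc ha i))
    (inv_nonneg.2 (Finset.prod_nonneg fun _ _ => norm_nonneg _)) hη

end M4.CM
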