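import Pool.Agent.Lib.MP_33b3f9_ag.M4.CmOp
import Pool.Agent.Lib.MP_33b3f9_ag.M4.CmArch
import Pool.Agent.Lib.MP_33b3f9_ag.M4.CmDq

/-!
Block B3a: the local conditions.
-/

set_option autoImplicit false

noncomputable section

namespace M4.CM

open Matrix Polynomial NumberField Pool.Agent.M4.Mx

variable {F : Type} [Field F] [NumberField F] {p : ℕ} {P : ℤ[X]} {t : F} {s : ℤ} {l : ℕ}
  [Fact l.Prime] {f : Fr ν (Om l)} {h : Fin 3 → M2 (Om l)} {ι : Fin 3 ≃ (F →+* Om l)}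

theorem CmLocal_tr_ne (G : Glob p P t s) (L : Loc t s f h ι) (i : Fin 3) : (h i).trace ≠ 0 := by
  have h1 : ∏ i, (h i).trace ≠ 0 := by
    rw [L.tr]
    exact_mod_cast G.s_ne
  exact Finset.prod_ne_zero_iff.1 h1 i (Finset.mem_univ i)

omit [NumberField F] in
theorem CmLocal_hz (L : Loc t s f h ι) {i : Fin 3} {z : Om l} (hw : z ^ 2 * ι i t = ι i t - 4) :
    z ^ 2 * (h i).trace ^ 2 = (h i).trace ^ 2 - 4 * (h i).det := by
  rw [L.inv i]
  linear_combination (h i).det * hw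

theorem CmLocal_sg_sq (Ω : Type) [Field Ω] (j : Fin 2) : sg Ω j ^ 2 = 1 := by
  unfold sg
  split_ifs <;> simp

omit [NumberField F] in
theorem CmLocal_norm_tr (L : Loc t s f h ι) (i : Fin 3) : ‖(h i).trace‖ ^ 2 = ‖ι i t‖ := by
  rw [← norm_pow, L.inv i, norm_mul, L.det i, mul_one]

omit [NumberField F] in
theorem CmLocal_pi_sq {Ω : Type} [Field Ω] {C : ℕ} {k m : 𝓞 F} (hk : Kap C p t s k m)
    (ht : t ≠ 0) (j : F →+* Ω) {z : Ω} (hw : z ^ 2 * j t = j t - 4) :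
    (j k * z) ^ 2 = -j m := by
  have h1 := congrArg j hk.eq
  rw [map_mul, map_mul, map_pow, map_sub, map_ofNat] at h1
  refine mul_right_cancel₀ ((map_ne_zero j).2 ht) ?_
  linear_combination (j k) ^ 2 * hw + h1

/-- `aeval_T` with `z i = w (ι i)`, `w` from `exists_sq`. -/
theorem Loc.aeval_eq (G : Glob p P t s) (L : Loc t s f h ι) {a b : F} {γ : ℚ[X]}
    (hγ : Gm t s a b γ) : aeval (f.T h) (γ.map (Rat.castHom (Om l))) =
      f.T fun i => ι i a • (1 : M2 (Om l)) + ι i b • Zm (h i) := by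
  obtain ⟨w, hw⟩ := exists_sq (Ω := Om l) G.ne_zero
  refine aeval_T f h (fun i => w (ι i)) _ _ _ (CmLocal_tr_ne G L) (fun i => (G.sq_ne hw _).1)
    (fun i => CmLocal_hz L (hw _)) fun ε => ?_
  have h1 := hγ (Om l) (fun j => sg (Om l) (ε (ι.symm j)) * w j) fun j => by
    rw [mul_pow, CmLocal_sg_sq, one_mul, hw]
  rw [rt, ← ι.prod_comp, ← ι.prod_comp] at h1
  simpa only [Equiv.symm_apply_apply, L.tr] using h1

/-- `‖ι k‖ ≤ ‖tr‖`. -/
theorem Loc.le_Zm (G : Glob p P t s) (L : Loc t s f h ι) {C : ℕ} {k m : 𝓞 F}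
    (hk : Kap C p t s k m) (i : Fin 3) : Le (ι i k • Zm (h i)) 1 := by
  have h0 := CmLocal_tr_ne G L i
  have h1 : ‖ι i k‖ ≤ ‖(h i).trace‖ := by
    refine (pow_le_pow_iff_left₀ (norm_nonneg _) (norm_nonneg _) two_ne_zero).1 ?_
    rw [CmLocal_norm_tr L]
    exact hk.le l (ι i)
  rw [Zm, smul_sub, smul_smul]
  refine Le.sub (((L.h_le i).smul _).mono ?_) ((Le.one.smul _).mono ?_)
  · rw [mul_one, mul_div_assoc', norm_div, norm_mul]
    refine div_le_one_of_le₀ ((mul_le_of_le_one_right (norm_nonneg _) ?_).trans h1) (norm_nonneg _)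
    exact_mod_cast norm_int_le (l := l) 2
  · rw [mul_one]
    exact int_le _ _

open Classical in
/-- The multipliers of a family of places. -/
def CmLocal_rho (x : Pl F) {l : ℕ} [Fact l.Prime] (j : F →+* Om l) (ϖ : Om l) : Om l :=
  if l ∣ x.M ∧ j = x.ι l ∧ ϖ = x.ϖ l then (l : Om l)⁻¹ else 1

omit [NumberField F] in
theorem CmLocal_rho_wt (x : Pl F) (j : F →+* Om l) (ϖ : Om l) :
    ‖CmLocal_rho x j ϖ‖ * x.wt j ϖ = 1 := by
  have hl : (l : ℝ) ≠ 0 := by exact_mod_cast (Fact.out : l.Prime).ne_zero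
  unfold CmLocal_rho Pl.wt
  split_ifs
  · rw [norm_inv, norm_l, inv_inv, mul_inv_cancel₀ hl]
  · simp

omit [NumberField F] in
theorem CmLocal_E_le (L : Loc t s f h ι) {k : 𝓞 F} (hu : Unt t k l) (i : Fin 3) {z : Om l}
    (hw : z ^ 2 * ι i t = ι i t - 4) : Le (Ej (h i) z) 1 := by
  obtain ⟨h2, hu⟩ := hu
  obtain ⟨h3, h4, -⟩ := hu (ι i)
  have hz : ‖z‖ = 1 := by
    have := congrArg norm hw
    rw [norm_mul, norm_pow, h3, h4, mul_one] at this
    exact (pow_eq_one_iff_of_nonneg (norm_nonneg _) two_ne_zero).1 this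
  have ht : ‖(h i).trace‖ = 1 := by
    have := CmLocal_norm_tr L i
    rw [h3] at this
    exact (pow_eq_one_iff_of_nonneg (norm_nonneg _) two_ne_zero).1 this
  have hZ : Le (Zm (h i)) 1 := by
    refine Le.sub (((L.h_le i).smul _).mono ?_) Le.one
    rw [norm_div, norm_two h2, ht]
    norm_num
  refine ((Le.add Le.one ((hZ.smul _).mono ?_)).smul _).mono ?_
  · rw [norm_inv, hz]
    norm_num
  · rw [norm_div, norm_two h2, norm_one]
    norm_num

theorem CmLocal_face (G : Glob p P t s) (L : Loc t s f h ι) {k : 𝓞 F} (hu : Unt t k l) {x : Pl F}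
    {g : MZ} (hg : Iso g x.M) (hf : Fc t k f h ι g x) {w : (F →+* Om l) → Om l} (hw : Sq t w) :
    Le (g.map (Int.cast : ℤ → Om l) * f.T fun i => ∑ j,
      CmLocal_rho x (ι i) (ι i k * (sg (Om l) j * w (ι i))) •
        Ej (h i) (sg (Om l) j * w (ι i))) 1 ∧
    ‖(g.map (Int.cast : ℤ → Om l)).det‖ *
      (∏ i, ‖CmLocal_rho x (ι i) (ι i k * (sg (Om l) 0 * w (ι i))) *
        CmLocal_rho x (ι i) (ι i k * (sg (Om l) 1 * w (ι i)))‖) ^ 4 = 1 := by
  by_cases hl : l ∣ x.M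
  swap
  · have h1 : ∀ (j : F →+* Om l) ϖ, CmLocal_rho x j ϖ = 1 := fun j ϖ => if_neg fun h => hl h.1
    simp only [h1, one_smul, Ej_sum, mul_one, norm_one, Finset.prod_const_one, one_pow]
    refine ⟨?_, by rw [Iso.norm_det hg, norm_nat_eq_one hl, one_pow]⟩
    have h2 : f.T (fun _ => 1) = 1 := f.T_one
    rw [h2, mul_one]
    exact le_int g
  obtain ⟨-, i₀, w₀, hw₀, hK, hι, hϖ⟩ := hf hl
  have hl0 : (l : ℝ) ≠ 0 := by exact_mod_cast (Fact.out : l.Prime).ne_zero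
  have ht0 : ι i₀ t ≠ 0 := (_root_.map_ne_zero _).2 G.ne_zero
  have hk0 : ι i₀ k ≠ 0 := fun h => by simpa [h] using (hu.2 (ι i₀)).2.2
  have hz0 : w (ι i₀) ≠ 0 := (G.sq_ne hw _).1
  obtain ⟨j₀, rfl⟩ : ∃ j₀, w₀ = sg (Om l) j₀ * w (ι i₀) := by
    have h1 : w₀ ^ 2 = w (ι i₀) ^ 2 := mul_right_cancel₀ ht0 (hw₀.trans (hw _).symm)
    rcases sq_eq_sq_iff_eq_or_eq_neg.1 h1 with h2 | h2
    · exact ⟨1, by simp [sg, h2]⟩
    · exact ⟨0, by simp [sg, h2]⟩
  have hρ : ∀ i j, CmLocal_rho x (ι i) (ι i k * (sg (Om l) j * w (ι i))) =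
      if i = i₀ ∧ j = j₀ then (l : Om l)⁻¹ else 1 := by
    intro i j
    classical
    unfold CmLocal_rho
    refine if_congr ⟨?_, ?_⟩ rfl rfl
    · rintro ⟨-, h1, h2⟩
      obtain rfl : i = i₀ := ι.injective (h1.trans hι)
      refine ⟨rfl, ?_⟩
      have h3 := mul_right_cancel₀ hz0 (mul_left_cancel₀ hk0 (h2.trans hϖ))
      by_contra hne
      have h4 : sg (Om l) j + sg (Om l) j₀ = 0 := by
        revert hne
        generalize j₀ = j'
        fin_cases j <;> fin_cases j' <;> simp [sg]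
      have h5 := CmLocal_sg_sq (Om l) j₀
      have h6 : (2 : Om l) = 0 := by linear_combination sg (Om l) j₀ * (h4 - h3) - 2 * h5
      exact two_ne_zero h6
    · rintro ⟨rfl, rfl⟩
      exact ⟨hl, hι.symm, hϖ.symm⟩
  simp only [hρ]
  constructor
  · have h1 : (fun i => ∑ j, (if i = i₀ ∧ j = j₀ then (l : Om l)⁻¹ else 1) •
        Ej (h i) (sg (Om l) j * w (ι i))) = Function.update (1 : Fin 3 → M2 (Om l)) i₀
          (∑ j, (if j = j₀ then (l : Om l)⁻¹ else 1) • Ej (h i₀) (sg (Om l) j * w (ι i₀))) := by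
      funext i
      by_cases hi : i = i₀
      · subst hi
        simp
      · rw [Function.update_of_ne hi]
        simp only [hi, false_and, if_false, one_smul, Ej_sum, Pi.one_apply]
    rw [h1, ← f.u_apply, map_sum, Finset.mul_sum]
    refine Le.sum _ zero_le_one fun j _ => ?_
    rw [map_smul, mul_smul_comm]
    split_ifs with hj
    · subst hj
      refine (Le.smul hK _).mono ?_
      rw [norm_inv, norm_l, inv_inv, mul_inv_cancel₀ hl0]
    · rw [one_smul, f.u_apply]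
      refine (le_int g).mul_one (Le.T L.P_le L.Q_le fun i => ?_)
      by_cases hi : i = i₀
      · subst hi
        rw [Function.update_self]
        exact CmLocal_E_le L hu i (by rw [mul_pow, CmLocal_sg_sq, one_mul, hw])
      · rw [Function.update_of_ne hi]
        exact Le.one
  · rw [Iso.norm_det hg, norm_sqfree hg.1.1 hl, Finset.prod_eq_single i₀, ← mul_pow]
    · have h2 : ‖(if i₀ = i₀ ∧ 0 = j₀ then (l : Om l)⁻¹ else 1) *
          if i₀ = i₀ ∧ 1 = j₀ then (l : Om l)⁻¹ else 1‖ = l := by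
        fin_cases j₀ <;> simp [norm_l]
      rw [h2, inv_mul_cancel₀ hl0, one_pow]
    · intro i _ hi
      simp [hi]
    · simp

/-- Case `l ∤ M M'`: `a`, `b` are integral at `l` and `g` has unit determinant. Otherwise `Unt t k l`
holds, so the traces and the `z i` are units and the projectors are integral. Put `ρ i j = l⁻¹` if
`l ∣ M` and `(i, sg j * z i)` is the face of `g`, `ρ i j = 1` otherwise; same for `ρ'`. Then
`x.wt (ι i) (ι i k * (sg j * z i)) = ‖ρ i j‖⁻¹`, so `Rel.sz` gives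
`‖d i j * ρ i j‖ = ‖ρ' i j‖`; `lattice`, `lin_eq`, `Iso.norm_det`, `norm_sqfree`. -/
theorem local_good (G : Glob p P t s) (L : Loc t s f h ι) {C N₀ : ℕ} {k m : 𝓞 F}
    (hk : Kap C p t s k m) {x x' : Pl F} {a b : F} (hr : Rel m x x' N₀ a b) {γ : ℚ[X]}
    (hγ : Gm t s a (b * k) γ) {g g' : MZ} (hg : Iso g x.M) (hg' : Iso g' x'.M)
    (hf : Fc t k f h ι g x) (hf' : Fc t k f h ι g' x') :
    ∃ W, Le W 1 ∧ g'.map (Int.cast : ℤ → Om l) * aeval (f.T h) (γ.map (Rat.castHom (Om l))) =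
      W * g.map (Int.cast : ℤ → Om l) := by
  rw [L.aeval_eq G hγ]
  by_cases hl : ¬ l ∣ x.M ∧ ¬ l ∣ x'.M
  · have hu : ‖(g.map (Int.cast : ℤ → Om l)).det‖ = 1 := by
      rw [Iso.norm_det hg, norm_nat_eq_one hl.1, one_pow]
    have hu0 : (g.map (Int.cast : ℤ → Om l)).det ≠ 0 := fun h => by simp [h] at hu
    have hi : ∀ c : F, IsIntegral ℤ ((x'.M : F) * c) → ∀ j : F →+* Om l, ‖j c‖ ≤ 1 := by
      intro c hc j
      have h1 := le_of_integral (l := l) (hc.map j.toIntAlgHom)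
      simpa [norm_nat_eq_one hl.2] using h1
    have hT : Le (f.T fun i => ι i a • (1 : M2 (Om l)) + ι i (b * k) • Zm (h i)) 1 := by
      refine Le.T L.P_le L.Q_le fun i => ?_
      rw [map_mul, mul_smul]
      refine Le.add ((Le.one.smul _).mono ?_) (((L.le_Zm G hk i).smul _).mono ?_)
      · rw [mul_one]
        exact hi a hr.int_a _
      · rw [mul_one]
        exact hi b hr.int_b _
    refine ⟨_, ((le_int g').mul_one hT).mul_one ((le_int g).inv hu), ?_⟩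
    rw [mul_assoc _ _ (g.map _), Matrix.nonsing_inv_mul _ hu0.isUnit, mul_one]
  have hu : Unt t k l := by
    rcases not_and_or.1 hl with h1 | h1
    · exact (hf (not_not.1 h1)).1
    · exact (hf' (not_not.1 h1)).1
  obtain ⟨w, hw⟩ := exists_sq (Ω := Om l) G.ne_zero
  have hw' : ∀ i j, (sg (Om l) j * w (ι i)) ^ 2 * ι i t = ι i t - 4 := fun i j => by
    rw [mul_pow, CmLocal_sg_sq, one_mul, hw]
  have h0 : ∀ i, w (ι i) ≠ 0 := fun i => (G.sq_ne hw _).1
  obtain ⟨h1, h2⟩ := CmLocal_face G L hu hg hf hw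
  obtain ⟨h3, -⟩ := CmLocal_face G L hu hg' hf' hw
  simp only [fun i => lin_eq (x := h i) (h0 i) (ι i a) (ι i (b * k))]
  refine lattice f h (fun i => w (ι i)) L.P_le L.Q_le (CmLocal_tr_ne G L) h0
    (fun i => CmLocal_hz L (hw _)) (fun i j => CmLocal_E_le L hu i (hw' i j)) _ _ _ _ _ h1 h2 h3
    (fun i j h4 => ?_) fun i j => ?_
  · have := CmLocal_rho_wt x' (ι i) (ι i k * (sg (Om l) j * w (ι i)))
    simp [h4] at this
  · have h4 := CmLocal_rho_wt x (ι i) (ι i k * (sg (Om l) j * w (ι i)))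
    have h5 := CmLocal_rho_wt x' (ι i) (ι i k * (sg (Om l) j * w (ι i)))
    have h6 := hr.sz l (ι i) _ (CmLocal_pi_sq hk G.ne_zero (ι i) (hw' i j))
    rw [norm_mul, map_mul, mul_assoc (ι i b)]
    refine le_of_eq ?_
    generalize ‖CmLocal_rho x (ι i) (ι i k * (sg (Om l) j * w (ι i)))‖ = r at *
    generalize ‖CmLocal_rho x' (ι i) (ι i k * (sg (Om l) j * w (ι i)))‖ = r' at *
    generalize ‖ι i a + ι i b * (ι i k * (sg (Om l) j * w (ι i)))‖ = d at *
    linear_combination r' * h4 - d * r * h5 + r * r' * h6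

/-- `bad_local` for `γ - 1`; `Glob.root_eq`, `Rel.one`, `norm_prod_sub_one`. -/
theorem local_bad (G : Glob p P t s) {A : Matrix ν ν (Om l)} (hA : Le A 1)
    (hc : A.charpoly = P.map (Int.castRingHom (Om l))) {C N₀ : ℕ} {k m : 𝓞 F}
    (hk : Kap C p t s k m) {x x' : Pl F} {a b : F} (hr : Rel m x x' N₀ a b) {γ : ℚ[X]}
    (hγ : Gm t s a (b * k) γ) (hl : l ∣ N₀) (h0 : Dq A ≠ 0)
    (hN : ‖(N₀ : Om l)‖ ≤ ‖(32 : Om l)‖ * ‖Dq A‖) :
    Le (aeval A (γ.map (Rat.castHom (Om l))) - 1) ‖(32 : Om l)‖ := by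
  have h1 := bad_local hA h0 (γ.map (Rat.castHom (Om l)) - 1) (norm_nonneg (N₀ : Om l))
    fun z hz => by
      rw [hc] at hz
      obtain ⟨w, hw, rfl⟩ := G.root_eq hz
      rw [eval_sub, eval_one, hγ _ w hw]
      refine norm_prod_sub_one _ (norm_nonneg _) (by exact_mod_cast norm_int_le (l := l) N₀)
        fun j _ => ?_
      rw [map_mul, mul_assoc]
      exact hr.one l hl j _ (CmLocal_pi_sq hk G.ne_zero j (hw j))
  rw [map_sub, map_one] at h1
  exact h1.mono ((div_le_iff₀ (norm_pos_iff.2 h0)).2 hN)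

omit [NumberField F] in
theorem aeval_ro {K : IntermediateField ℚ ℂ} (r : Rep K) (σ : ℂ ≃ₐ[K] ℂ) (γ : ℚ[X]) :
    (aeval (rq r l σ) (γ.map (algebraMap ℚ ℚ_[l]))).map (algebraMap ℚ_[l] (Om l)) =
      aeval (ro r l σ) (γ.map (Rat.castHom (Om l))) := by
  have h1 := Polynomial.map_aeval_eq_aeval_map (φ := algebraMap ℚ_[l] (Om l))
    (ψ := (algebraMap ℚ_[l] (Om l)).mapMatrix (m := ν)) (by
      ext c i j
      by_cases hij : i = j <;> simp [Matrix.algebraMap_matrix_apply, hij]) (γ.map (algebraMap ℚ ℚ_[l])) (rq r l σ)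
  rw [Polynomial.map_map, RingHom.ext_rat ((algebraMap ℚ_[l] (Om l)).comp _) (Rat.castHom _)] at h1
  exact h1

theorem CmLocal_det_ne {g : MZ} {M : ℕ} (hg : Iso g M) (R : Type) [Field R] [CharZero R] :
    (g.map (Int.cast : ℤ → R)).det ≠ 0 := by
  have h1 : g.det ≠ 0 := fun h => by
    have h2 := Iso.det_sq hg
    rw [h, zero_pow two_ne_zero] at h2
    exact hg.1.1.ne_zero (by exact_mod_cast pow_eq_zero_iff (by norm_num) |>.1 h2.symm)
  have h3 := (Int.castRingHom R).map_det g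
  rw [RingHom.mapMatrix_apply, Int.coe_castRingHom] at h3
  rw [← h3]
  exact Int.cast_ne_zero.2 h1

theorem CmLocal_desc {g g' : MZ} {M : ℕ} (hg : Iso g M) (B : Matrix ν ν ℚ_[l])
    {W : Matrix ν ν (Om l)} (hW : Le W 1)
    (h : g'.map (Int.cast : ℤ → Om l) * B.map (algebraMap ℚ_[l] (Om l)) =
      W * g.map (Int.cast : ℤ → Om l)) :
    ∃ W₀ : Matrix ν ν ℤ_[l], g'.map (Int.cast : ℤ → ℚ_[l]) * B =
      W₀.map ((↑) : ℤ_[l] → ℚ_[l]) * g.map (Int.cast : ℤ → ℚ_[l]) ∧ W₀.map (toOm l) = W := by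
  have hm : ∀ g : MZ, (g.map (Int.cast : ℤ → ℚ_[l])).map (algebraMap ℚ_[l] (Om l)) =
      g.map (Int.cast : ℤ → Om l) := fun g => by
    ext i j
    simp
  have h0 := (CmLocal_det_ne hg ℚ_[l]).isUnit
  have h1 := (CmLocal_det_ne hg (Om l)).isUnit
  obtain ⟨V, hV⟩ : ∃ V, g'.map (Int.cast : ℤ → ℚ_[l]) * B = V * g.map (Int.cast : ℤ → ℚ_[l]) :=
    ⟨g'.map (Int.cast : ℤ → ℚ_[l]) * B * (g.map (Int.cast : ℤ → ℚ_[l]))⁻¹, by
      rw [mul_assoc _ _ (g.map _), Matrix.nonsing_inv_mul _ h0, mul_one]⟩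
  have h2 : V.map (algebraMap ℚ_[l] (Om l)) = W := by
    have h3 := congrArg (fun A => A.map (algebraMap ℚ_[l] (Om l))) hV
    simp only [Matrix.map_mul, hm] at h3
    have h4 := congrArg (· * (g.map (Int.cast : ℤ → Om l))⁻¹) (h3.symm.trans h)
    simpa only [mul_assoc, Matrix.mul_nonsing_inv _ h1, mul_one] using h4
  have h5 : ∀ i j, ‖V i j‖ ≤ 1 := fun i j => by
    have := hW i j
    rwa [← h2, Matrix.map_apply, PadicAlgCl.norm_extends] at this
  exact ⟨Matrix.of fun i j => ⟨V i j, h5 i j⟩, hV, h2⟩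

omit [NumberField F] in
/-- `W = g' B g⁻¹` has entries in `ℚ_[l]`; `32` is a unit. -/
theorem desc_good (hl : l ≠ 2) {g g' : MZ} {M : ℕ} (hg : Iso g M) (B : Matrix ν ν ℚ_[l])
    {W : Matrix ν ν (Om l)} (hW : Le W 1)
    (h : g'.map (Int.cast : ℤ → Om l) * B.map (algebraMap ℚ_[l] (Om l)) =
      W * g.map (Int.cast : ℤ → Om l)) :
    ∃ W₀ : Matrix ν ν ℤ_[l], g'.map (Int.cast : ℤ → ℚ_[l]) * B =
      W₀.map ((↑) : ℤ_[l] → ℚ_[l]) * g.map (Int.cast : ℤ → ℚ_[l]) ∧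
      ∀ a b, (32 : ℤ_[l]) ∣ (W₀ - 1) a b := by
  obtain ⟨W₀, h1, -⟩ := CmLocal_desc hg B hW h
  refine ⟨W₀, h1, fun a b => IsUnit.dvd (PadicInt.isUnit_iff.2 ?_)⟩
  rw [← norm_toOm, map_ofNat, show (32 : Om l) = 2 ^ 5 by norm_num, norm_pow, norm_two hl, one_pow]

omit [NumberField F] in
/-- `W - 1 = (g' (B - 1) + (g' - 1) - (g - 1)) g⁻¹`, and `g⁻¹` is integral. -/
theorem desc_bad {g g' : MZ} {M M' : ℕ} (hg : Iso g M) (hg' : Iso g' M') (hl : ¬ l ∣ M)
    (B : Matrix ν ν ℚ_[l]) (h : Le (B.map (algebraMap ℚ_[l] (Om l)) - 1) ‖(32 : Om l)‖) :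
    ∃ W₀ : Matrix ν ν ℤ_[l], g'.map (Int.cast : ℤ → ℚ_[l]) * B =
      W₀.map ((↑) : ℤ_[l] → ℚ_[l]) * g.map (Int.cast : ℤ → ℚ_[l]) ∧
      ∀ a b, (32 : ℤ_[l]) ∣ (W₀ - 1) a b := by
  have hu : ‖(g.map (Int.cast : ℤ → Om l)).det‖ = 1 := by
    rw [Iso.norm_det hg, norm_nat_eq_one hl, one_pow]
  have h1 := (CmLocal_det_ne hg (Om l)).isUnit
  have h32 : ‖(32 : Om l)‖ ≤ 1 := by exact_mod_cast norm_int_le (l := l) 32
  have hv : ∀ g : MZ, Lev g → Le (g.map (Int.cast : ℤ → Om l) - 1) ‖(32 : Om l)‖ := by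
    intro g hg i j
    obtain ⟨c, hc⟩ := hg i j
    have h2 : (g.map (Int.cast : ℤ → Om l) - 1) i j = (((g - 1) i j : ℤ) : Om l) := by
      by_cases hij : i = j <;> simp [hij]
    rw [h2, hc, Int.cast_mul, norm_mul, Int.cast_ofNat]
    exact mul_le_of_le_one_right (norm_nonneg _) (norm_int_le c)
  obtain ⟨W, hW, hW1⟩ : ∃ W, g'.map (Int.cast : ℤ → Om l) * B.map (algebraMap ℚ_[l] (Om l)) =
      W * g.map (Int.cast : ℤ → Om l) ∧ Le (W - 1) ‖(32 : Om l)‖ := by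
    refine ⟨g'.map (Int.cast : ℤ → Om l) * B.map (algebraMap ℚ_[l] (Om l)) *
      (g.map (Int.cast : ℤ → Om l))⁻¹, ?_, ?_⟩
    · rw [mul_assoc _ _ (g.map _), Matrix.nonsing_inv_mul _ h1, mul_one]
    · have h3 := (((Le.mul (le_int g') h zero_le_one (norm_nonneg _)).mono (one_mul _).le).add
        (hv g' hg'.2.1)).sub (hv g hg.2.1)
      have h4 := (h3.mul ((le_int g).inv hu) (norm_nonneg _) zero_le_one).mono (mul_one _).le
      have h5 : g'.map (Int.cast : ℤ → Om l) * (B.map (algebraMap ℚ_[l] (Om l)) - 1) +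
          (g'.map (Int.cast : ℤ → Om l) - 1) - (g.map (Int.cast : ℤ → Om l) - 1) =
          g'.map (Int.cast : ℤ → Om l) * B.map (algebraMap ℚ_[l] (Om l)) -
            g.map (Int.cast : ℤ → Om l) := by
        rw [mul_sub, mul_one]
        abel
      rwa [h5, sub_mul, Matrix.mul_nonsing_inv _ h1] at h4
  have hW2 : Le W 1 := by
    have := (hW1.mono h32).add Le.one
    rwa [sub_add_cancel] at this
  obtain ⟨W₀, h6, h7⟩ := CmLocal_desc hg B hW2 hW
  refine ⟨W₀, h6, fun a b => ?_⟩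
  have h8 : toOm l ((W₀ - 1) a b) = (W - 1) a b := by
    rw [← h7]
    by_cases hij : a = b <;> simp [hij]
  have h9 : (32 : Om l) ≠ 0 := by norm_num
  obtain ⟨c, hc⟩ := exists_toOm (l := l) (y := toOm l ((W₀ - 1) a b) / toOm l 32)
    ⟨(((W₀ - 1) a b : ℤ_[l]) : ℚ_[l]) / ((32 : ℤ_[l]) : ℚ_[l]), map_div₀ _ _ _⟩ (by
      rw [norm_div, h8, map_ofNat]
      exact div_le_one_of_le₀ (hW1 a b) (norm_nonneg _))
  refine ⟨c, toOm_inj ?_⟩
  rw [map_mul, hc, map_ofNat, mul_div_cancel₀ _ h9]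

end M4.CM
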