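import Pool.Agent.Lib.MP_33b3f9_ag.M4.CmTrans

/-!
Block B3a: the interpolation polynomial.
-/

set_option autoImplicit false

noncomputable section

namespace M4.CM

open Matrix Polynomial NumberField Pool.Agent.M4.Mx

/-- A polynomial over `Qb` that is fixed by all automorphisms is rational
(`InfiniteGalois.mem_range_algebraMap_iff_fixed`, `Polynomial.lifts`). -/
theorem exists_rat (q : Polynomial Qb) (h : ∀ g : Qb ≃+* Qb, q.map (g : Qb →+* Qb) = q) :
    ∃ γ : ℚ[X], γ.map (Rat.castHom Qb) = q := by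
  have hA : IsAlgClosure ℚ Qb := AlgebraicClosure.instIsAlgClosure ℚ
  have hG : IsGalois ℚ Qb := inferInstance
  have key : q ∈ Polynomial.lifts (Rat.castHom Qb) := by
    rw [Polynomial.lifts_iff_coeff_lifts]
    intro n
    have h1 : q.coeff n ∈ Set.range (algebraMap ℚ Qb) := by
      rw [InfiniteGalois.mem_range_algebraMap_iff_fixed]
      intro f
      have h2 := congrArg (fun r : Polynomial Qb => r.coeff n) (h f.toRingEquiv)
      simp only [Polynomial.coeff_map] at h2
      exact h2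
    obtain ⟨c, hc⟩ := h1
    exact ⟨c, by rw [← hc]; simp⟩
  exact (Polynomial.mem_lifts _).1 key

/-- Transport of the value of a polynomial along an embedding of `Qb`. -/
theorem CmNM_eval {F : Type} [Field F] [NumberField F] {Ω : Type} [Field Ω] [IsAlgClosed Ω]
    [CharZero Ω] (j : Qb →+* Ω) {t : F} (ht : t ≠ 0) (s : ℤ) (a b : F) (q : Polynomial Qb)
    (hq : ∀ w : (F →+* Qb) → Qb, Sq t w →
      q.eval (rt s w) = ∏ ι : F →+* Qb, (ι a + ι b * w ι))
    {w : (F →+* Ω) → Ω} (hw : Sq t w) :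
    (q.map j).eval (rt s w) = ∏ ι : F →+* Ω, (ι a + ι b * w ι) := by
  obtain ⟨w₀, h0, h1⟩ := Sq.lift j ht hw
  rw [← rt_map j s h1, Polynomial.eval_map_apply, hq w₀ h0, map_prod]
  refine Function.Bijective.prod_comp (comp_bij j) (fun ι : F →+* Ω => ι a + ι b * w ι) ▸ ?_
  refine Finset.prod_congr rfl fun ι _ => ?_
  rw [map_add, map_mul, h1]
  rfl

/-- Over `Qb`: the set `S` of the families `w` with `Sq t w` is finite, `rt s` is injective on it; take
the Lagrange polynomial `q` of degree less than `card S`. For an automorphism `g` and `w ∈ S` there is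
`w₀ ∈ S` with `g (w₀ ι) = w (g ∘ ι)` (`Sq.lift`, `rt_map`, `comp_bij`), so `q.map g` takes the same
values as `q` (`Lagrange.eq_interpolate_of_eval_eq`). Then transport along `j : Qb →+* Ω`. -/
theorem Glob.exists_gamma {F : Type} [Field F] [NumberField F] {p : ℕ} {P : ℤ[X]} {t : F} {s : ℤ}
    (G : Glob p P t s) (a b : F) : ∃ γ : ℚ[X], Gm t s a b γ := by
  classical
  have hP : P.map (Int.castRingHom Qb) ≠ 0 := (G.monic.map _).ne_zero
  have hinj : Set.InjOn (rt s) {w : (F →+* Qb) → Qb | Sq t w} :=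
    fun w hw w' hw' h => G.cub.inj w w' hw hw' h
  have hfin : {w : (F →+* Qb) → Qb | Sq t w}.Finite := by
    refine Set.Finite.of_injOn (t := ((P.map (Int.castRingHom Qb)).roots.toFinset : Set Qb))
      (fun w hw => ?_) hinj (Finset.finite_toSet _)
    rw [Finset.mem_coe, Multiset.mem_toFinset, Polynomial.mem_roots hP]
    exact G.cub.root w hw
  have hinj' : Set.InjOn (rt s) (hfin.toFinset : Set ((F →+* Qb) → Qb)) := by
    rw [Set.Finite.coe_toFinset]
    exact hinj
  obtain ⟨q, hdeg, hq⟩ : ∃ q : Polynomial Qb, q.degree < hfin.toFinset.card ∧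
      ∀ w : (F →+* Qb) → Qb, Sq t w → q.eval (rt s w) = ∏ ι : F →+* Qb, (ι a + ι b * w ι) :=
    ⟨Lagrange.interpolate hfin.toFinset (rt s) fun w => ∏ ι : F →+* Qb, (ι a + ι b * w ι),
      Lagrange.degree_interpolate_lt _ hinj', fun w hw =>
        Lagrange.eval_interpolate_at_node _ hinj' (hfin.mem_toFinset.2 hw)⟩
  obtain ⟨γ, hγ⟩ := exists_rat q fun g => by
    refine Polynomial.eq_of_degrees_lt_of_eval_index_eq _ hinj'
      (Polynomial.degree_map_le.trans_lt hdeg) hdeg fun w hw => ?_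
    have hw' : Sq t w := hfin.mem_toFinset.1 hw
    rw [CmNM_eval (g : Qb →+* Qb) G.ne_zero s a b q hq hw', hq w hw']
  refine ⟨γ, fun Ω _ _ _ w hw => ?_⟩
  have hA : Algebra.IsAlgebraic ℚ Qb := AlgebraicClosure.isAlgebraic ℚ
  let j : Qb →+* Ω := (IsAlgClosed.lift : Qb →ₐ[ℚ] Ω).toRingHom
  have h1 : γ.map (Rat.castHom Ω) = q.map j := by
    rw [← hγ, Polynomial.map_map, Subsingleton.elim (j.comp (Rat.castHom Qb)) (Rat.castHom Ω)]
  rw [h1]
  exact CmNM_eval j G.ne_zero s a b q hq hw

end M4.CM
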