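import Pool.Agent.Lib.MP_33b3f9_ag.M4.CmVal
import Pool.Agent.Lib.MP_33b3f9_ag.M4.NTTypes

/-!
Block B3a: the order.
-/

set_option autoImplicit false

noncomputable section

namespace M4.CM

open Matrix Polynomial NumberField Pool.Agent.M4.Mx

variable {F : Type} [Field F] [NumberField F]

omit [NumberField F] in
theorem cmOmega_prime {P : Ideal (𝓞 F)} (hP : P.IsPrime) (m : ℕ) (h0 : m ≠ 0)
    (hm : (m : 𝓞 F) ∈ P) : ∃ l : ℕ, l.Prime ∧ l ∣ m ∧ (l : 𝓞 F) ∈ P := by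
  induction m using induction_on_primes with
  | zero => exact absurd rfl h0
  | one => exact absurd ((Ideal.eq_top_iff_one P).2 (by simpa using hm)) hP.ne_top
  | prime_mul q m hq ih =>
    rw [Nat.cast_mul] at hm
    rcases hP.mem_or_mem hm with h | h
    · exact ⟨q, hq, dvd_mul_right _ _, h⟩
    · obtain ⟨l, h1, h2, h3⟩ := ih (right_ne_zero_of_mul h0) h
      exact ⟨l, h1, h2.mul_left _, h3⟩

theorem cmOmega_ideal {w : Ideal (𝓞 F)} {t : F} (hi : ∀ x ∈ w, IsIntegral ℤ ((x : F) * t)) :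
    ∃ n : Ideal (𝓞 F), (∀ y : 𝓞 F, y ∈ n ↔ ∃ x ∈ w, (y : F) = x * t) ∧
      (Ideal.absNorm n : ℚ) = Ideal.absNorm w * |Algebra.norm ℚ t| := by
  let n : Ideal (𝓞 F) :=
    { carrier := {y | ∃ x ∈ w, (y : F) = x * t}
      zero_mem' := ⟨0, zero_mem _, by simp⟩
      add_mem' := by
        rintro a b ⟨x, hx, h1⟩ ⟨y, hy, h2⟩
        exact ⟨x + y, add_mem hx hy, by simp [h1, h2, add_mul]⟩
      smul_mem' := by
        rintro c a ⟨x, hx, h1⟩
        exact ⟨c * x, w.mul_mem_left c hx, by simp [h1, mul_assoc]⟩ }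
  refine ⟨n, fun _ => Iff.rfl, ?_⟩
  obtain ⟨a, b, hb, rfl⟩ := IsFractionRing.div_surjective (𝓞 F) t
  have hb0 : b ≠ 0 := nonZeroDivisors.ne_zero hb
  have hb1 : algebraMap (𝓞 F) F b ≠ 0 := fun e => hb0 (RingOfIntegers.ext e)
  have h1 : Ideal.span {b} * n = Ideal.span {a} * w := by
    ext z
    rw [Ideal.mem_span_singleton_mul, Ideal.mem_span_singleton_mul]
    constructor
    · rintro ⟨y, ⟨x, hx, h⟩, rfl⟩
      refine ⟨x, hx, RingOfIntegers.ext ?_⟩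
      change algebraMap (𝓞 F) F y = algebraMap (𝓞 F) F x * _ at h
      change algebraMap (𝓞 F) F _ = algebraMap (𝓞 F) F _
      rw [map_mul, map_mul, h]
      field_simp
    · rintro ⟨x, hx, rfl⟩
      refine ⟨⟨_, hi x hx⟩, ⟨x, hx, rfl⟩, RingOfIntegers.ext ?_⟩
      change algebraMap (𝓞 F) F b * (algebraMap (𝓞 F) F x * _) = algebraMap (𝓞 F) F _
      rw [map_mul]
      field_simp
  have h2 := congrArg (fun J => ((Ideal.absNorm J : ℕ) : ℚ)) h1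
  simp only [map_mul, Ideal.absNorm_span_singleton, Nat.cast_mul, Nat.cast_natAbs, Int.cast_abs,
    Algebra.coe_norm_int] at h2
  have h3 : Algebra.norm ℚ (algebraMap (𝓞 F) F b) ≠ 0 := Algebra.norm_ne_zero_iff.2 hb1
  have h4 : Algebra.norm ℚ (algebraMap (𝓞 F) F a / algebraMap (𝓞 F) F b) *
      Algebra.norm ℚ (algebraMap (𝓞 F) F b) = Algebra.norm ℚ (algebraMap (𝓞 F) F a) := by
    rw [← map_mul, div_mul_cancel₀ _ hb1]
  refine mul_left_cancel₀ (abs_ne_zero.2 h3) (h2.trans ?_)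
  change |Algebra.norm ℚ (algebraMap (𝓞 F) F a)| * _ = _
  rw [← h4, abs_mul]
  ring

/-- `n = w t = a ^ 2 * b`, `I = a * b`. The norm of `n` is `s ^ 2`. A prime that divides `b` contains
a rational prime `l`, and is `pr ι` (`exists_emb`); `l ≠ p` because `l` divides the norm `s ^ 2`, it does
not divide `w`, so `l ≤ l₁` (`not_dvd_of_even`). Hence the squarefree ideal `b` divides `(l₁ !)`. -/
theorem omega_ideal (hF : Module.finrank ℚ F = 3) (l₁ : ℕ) {p : ℕ} {t : F} {s Δ : ℤ}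
    (h : NT.Plc p t Δ) (hs : (p : ℚ) * Algebra.norm ℚ t = (s : ℚ) ^ 2) (hp : ¬ (p : ℤ) ∣ s)
    (he : ∀ (l : ℕ) [Fact l.Prime], l₁ < l → l ≠ p → ∀ ι : F →+* Om l,
      ∃ x : F, ‖ι t‖ = ‖ι x‖ ^ 2) :
    ∃ I : Ideal (𝓞 F), I ≠ ⊥ ∧ Ideal.absNorm I ∣ s.natAbs ^ 2 ∧
      Ideal.absNorm I ^ 2 ≤ s.natAbs ^ 2 * l₁.factorial ^ 3 ∧
      ∀ k ∈ I, ∃ b : 𝓞 F, IsIntegral ℤ ((b : F) * t) ∧ (k : F) ^ 2 = b * t := by
  obtain ⟨w, hw, hi⟩ := h.den
  obtain ⟨n, hn, hN⟩ := cmOmega_ideal hi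
  have hs0 : s.natAbs ≠ 0 := Int.natAbs_ne_zero.2 fun e => hp (e ▸ dvd_zero _)
  have hpos := (h.norms hF).1.1
  have ht : t ≠ 0 := fun e => by simp [e] at hpos
  have hN' : Ideal.absNorm n = s.natAbs ^ 2 := by
    rw [hw, abs_of_pos hpos, hs, ← sq_abs, ← Int.cast_abs, ← Nat.cast_natAbs] at hN
    exact_mod_cast hN
  have hn0 : n ≠ ⊥ := fun e => pow_ne_zero 2 hs0 (by rw [← hN', e, Ideal.absNorm_bot])
  obtain ⟨a, b, rfl, hb⟩ := exists_sq_mul n hn0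
  have hd : b ∣ Ideal.span {(l₁.factorial : 𝓞 F)} := by
    have h1 : (l₁.factorial : 𝓞 F) ∈ b.radical := by
      rw [Ideal.radical_eq_sInf, Ideal.mem_sInf]
      rintro P ⟨hbP, hP⟩
      have h2 := hbP (Ideal.dvd_iff_le.1 (dvd_mul_left b (a ^ 2)) (Ideal.absNorm_mem (a ^ 2 * b)))
      rw [hN', Nat.cast_pow] at h2
      obtain ⟨l, hl, hls, hlP⟩ := cmOmega_prime hP _ hs0 (hP.mem_of_pow_mem 2 h2)
      have := Fact.mk hl
      have hlp : l ≠ p := fun e => hp (Int.natCast_dvd.2 (e ▸ hls))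
      obtain ⟨c, hc⟩ : l ∣ l₁.factorial := by
        refine hl.dvd_factorial.2 (not_lt.1 fun hlt => ?_)
        obtain ⟨f, hf, h3⟩ := NT.over_norm hl hP hlP
        obtain ⟨ι, rfl⟩ := exists_emb P hP hlP
        obtain ⟨x, hx⟩ := he l hlt hlp ι
        refine not_dvd_of_even ht hb hi hn ι (fun e => hlp ?_) hx (Ideal.dvd_iff_le.2 hbP)
        have h4 := Ideal.absNorm_dvd_absNorm_of_le (Ideal.dvd_iff_le.1 e)
        rw [h3, hw] at h4
        exact (Nat.prime_dvd_prime_iff_eq hl h.prime).1 ((dvd_pow_self l (by omega)).trans h4)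
      rw [hc, Nat.cast_mul]
      exact P.mul_mem_right _ hlP
    obtain ⟨j, hj⟩ := h1
    exact hb.isRadical j _ (by
      rw [Ideal.span_singleton_pow]
      exact Ideal.dvd_span_singleton.2 hj)
  have h5 := Ideal.absNorm_dvd_absNorm_of_le (Ideal.dvd_iff_le.1 hd)
  rw [Ideal.absNorm_span_natCast, RingOfIntegers.rank, hF] at h5
  refine ⟨a * b, fun e => hn0 (by rw [pow_two, mul_assoc, e, Ideal.mul_bot]), ?_, ?_,
    fun k hk => ?_⟩
  · rw [← hN']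
    exact map_dvd _ ⟨a, by ring⟩
  · rw [← hN']
    refine le_of_eq_of_le ?_ (Nat.mul_le_mul_left _
      (Nat.le_of_dvd (pow_pos l₁.factorial_pos 3) h5))
    simp only [map_mul, map_pow]
    ring
  · have h6 : k ^ 2 ∈ a ^ 2 * b := by
      have h7 := Ideal.pow_mem_pow hk 2
      rw [show (a * b) ^ 2 = a ^ 2 * b * b by ring] at h7
      exact Ideal.dvd_iff_le.1 (dvd_mul_right _ b) h7
    obtain ⟨x, hx, h8⟩ := (hn _).1 h6
    exact ⟨x, hi x hx, h8⟩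

/-- Minkowski in a box (`NumberField.mixedEmbedding.exists_ne_zero_mem_ideal_lt`,
`convexBodyLT_volume`, `volume_fundamentalDomain_fractionalIdealLatticeBasis`). -/
theorem mink [IsTotallyReal F] : ∃ C₀ : ℕ, 1 ≤ C₀ ∧ ∀ (I : Ideal (𝓞 F)), I ≠ ⊥ →
    ∀ f : (F →+* ℂ) → ℝ, (∀ σ, 0 < f σ) → (C₀ : ℝ) * Ideal.absNorm I ≤ ∏ σ, f σ →
      ∃ k ∈ I, k ≠ 0 ∧ ∀ σ : F →+* ℂ, ‖σ k‖ < f σ := by
  classical
  obtain ⟨C₀, hC⟩ := ENNReal.exists_nat_gt (mixedEmbedding.minkowskiBound_lt_top F 1).ne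
  refine ⟨C₀, Nat.pos_of_ne_zero fun e => by simp [e] at hC, fun I hI f hf hle => ?_⟩
  have hmk : ∀ σ : F →+* ℂ, (InfinitePlace.mk σ).embedding = σ := fun σ =>
    InfinitePlace.embedding_mk_eq_of_isReal (IsTotallyReal.complexEmbedding_isReal σ)
  let g : InfinitePlace F → NNReal := fun w => ⟨f w.embedding, (hf _).le⟩
  let J : (FractionalIdeal (nonZeroDivisors (𝓞 F)) F)ˣ :=
    Units.mk0 (I : FractionalIdeal (nonZeroDivisors (𝓞 F)) F) (FractionalIdeal.coeIdeal_ne_zero.2 hI)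
  have h1 : mixedEmbedding.minkowskiBound F J
      = (Ideal.absNorm I : ENNReal) * mixedEmbedding.minkowskiBound F 1 := by
    unfold mixedEmbedding.minkowskiBound
    rw [mixedEmbedding.volume_fundamentalDomain_fractionalIdealLatticeBasis,
      mixedEmbedding.volume_fundamentalDomain_fractionalIdealLatticeBasis]
    simp [J, mul_assoc, FractionalIdeal.coeIdeal_absNorm]
  have h2 : ((∏ w, g w ^ w.mult : NNReal) : ℝ) = ∏ σ, f σ := by
    rw [NNReal.coe_prod]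
    refine (Fintype.prod_bijective InfinitePlace.mk ⟨fun σ σ' e => by
      rw [← hmk σ, e, hmk], fun w => ⟨_, w.mk_embedding⟩⟩ _ _ fun σ => ?_).symm
    rw [IsTotallyReal.mult_eq, pow_one]
    exact congrArg f (hmk σ).symm
  have h3 : (Ideal.absNorm I * C₀ : NNReal) ≤ ∏ w, g w ^ w.mult := by
    rw [← NNReal.coe_le_coe, h2]
    simpa [mul_comm] using hle
  obtain ⟨a, ha, ha0, hlt⟩ := mixedEmbedding.exists_ne_zero_mem_ideal_lt F J (f := g) (by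
    rw [h1, mixedEmbedding.convexBodyLT_volume]
    refine (ENNReal.mul_lt_mul_right (Nat.cast_ne_zero.2 (Ideal.absNorm_eq_zero_iff.not.2 hI))
      (ENNReal.natCast_ne_top _) hC).trans_le ?_
    exact_mod_cast h3.trans (le_mul_of_one_le_left zero_le
      (mixedEmbedding.one_le_convexBodyLTFactor F)))
  obtain ⟨k, hk, rfl⟩ := (FractionalIdeal.mem_coeIdeal _).1 ha
  refine ⟨k, hk, fun e => ha0 (by simp [e]), fun σ => ?_⟩
  have h4 := hlt (InfinitePlace.mk σ)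
  rw [InfinitePlace.apply] at h4
  exact h4.trans_eq (congrArg f (hmk σ))

/-- Take `f σ = lam * sqrt (t σ / (4 - t σ))` with `∏ f σ = C₀ * N I` exactly. Then
`m = 4 b - b t`, `σ m < lam ^ 2`, `lam ^ 6 = C₀ ^ 2 (N I) ^ 2 N (4 - t) / N t ≤ C₀ ^ 2 p (l₁ !) ^ 3 64`,
and `|N k| = N I * j` with `0 < j ≤ C₀` (`Ideal.absNorm_dvd_absNorm_of_le`), so a prime `l > C₀` that
does not divide `s` does not divide `N k`. -/
theorem omega [IsTotallyReal F] (hF : Module.finrank ℚ F = 3) (l₁ : ℕ) :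
    ∃ C : ℕ, 1 ≤ C ∧ ∀ (p : ℕ) (t : F) (s Δ : ℤ), NT.Plc p t Δ →
      (p : ℚ) * Algebra.norm ℚ t = (s : ℚ) ^ 2 → ¬ (p : ℤ) ∣ s →
      (∀ (l : ℕ) [Fact l.Prime], l₁ < l → l ≠ p → ∀ ι : F →+* Om l,
        ∃ x : F, ‖ι t‖ = ‖ι x‖ ^ 2) → ∃ k m, Kap C p t s k m := by
  obtain ⟨C₀, hC1, hC⟩ := mink (F := F)
  have hC2 : C₀ ≤ C₀ ^ 2 * l₁.factorial ^ 3 * 64 :=
    ((Nat.le_self_pow two_ne_zero C₀).trans (Nat.le_mul_of_pos_right _
      (pow_pos l₁.factorial_pos 3))).trans (Nat.le_mul_of_pos_right _ (by norm_num))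
  refine ⟨C₀ ^ 2 * l₁.factorial ^ 3 * 64, hC1.trans hC2, fun p t s Δ h hs hp he => ?_⟩
  obtain ⟨I, hI, hI1, hI2, hI3⟩ := omega_ideal hF l₁ h hs hp he
  choose x hx hx0 hx4 using h.re
  have hcard : Fintype.card (F →+* ℂ) = 3 := (Embeddings.card F ℂ).trans hF
  have hr : ∀ σ, 0 < x σ / (4 - x σ) := fun σ => div_pos (hx0 σ) (sub_pos.2 (hx4 σ))
  set R : ℝ := ∏ σ, √(x σ / (4 - x σ)) with hR
  have hR0 : 0 < R := Finset.prod_pos fun σ _ => Real.sqrt_pos.2 (hr σ)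
  have hN0 : (0 : ℝ) < C₀ * Ideal.absNorm I := mul_pos (Nat.cast_pos.2 hC1)
    (Nat.cast_pos.2 (Nat.pos_of_ne_zero (Ideal.absNorm_eq_zero_iff.not.2 hI)))
  obtain ⟨lam, hl0, hl3⟩ : ∃ lam : ℝ, 0 < lam ∧ lam ^ 3 = C₀ * Ideal.absNorm I / R :=
    ⟨_, Real.rpow_pos_of_pos (div_pos hN0 hR0) _,
      Real.rpow_inv_natCast_pow (div_pos hN0 hR0).le three_ne_zero⟩
  have hprod : ∏ σ, lam * √(x σ / (4 - x σ)) = C₀ * Ideal.absNorm I := by
    rw [Finset.prod_mul_distrib, Finset.prod_const, Finset.card_univ, hcard, hl3, ← hR,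
      div_mul_cancel₀ _ hR0.ne']
  obtain ⟨k, hk, hk0, hkf⟩ := hC I hI (fun σ => lam * √(x σ / (4 - x σ)))
    (fun σ => mul_pos hl0 (Real.sqrt_pos.2 (hr σ))) hprod.ge
  obtain ⟨b, -, hb⟩ := hI3 k hk
  have heq : ((4 * b - k ^ 2 : 𝓞 F) : F) * t = (k : F) ^ 2 * (4 - t) := by
    change ((4 : F) * b - (k : F) ^ 2) * t = _
    linear_combination (-4) * hb
  have hlam : lam ^ 2 ≤ (((C₀ ^ 2 * l₁.factorial ^ 3 * 64 * p : ℕ) : ℝ)) ^ (1 / 3 : ℝ) := by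
    have h1 : (p : ℝ) * ∏ σ, x σ = (s.natAbs : ℝ) ^ 2 := by
      have h2 := congrArg (Rat.cast : ℚ → ℂ) hs
      rw [Rat.cast_mul, ← prod_emb, Finset.prod_congr rfl fun σ _ => hx σ] at h2
      rw [Nat.cast_natAbs, Int.cast_abs, sq_abs]
      exact_mod_cast h2
    have h3 : ∏ σ, (4 - x σ) ≤ 64 := by
      refine (Finset.prod_le_prod (g := fun _ => (4 : ℝ)) (fun σ _ => (sub_pos.2 (hx4 σ)).le)
        fun σ _ => sub_le_self _ (hx0 σ).le).trans ?_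
      rw [Finset.prod_const, Finset.card_univ, hcard]
      norm_num
    have h4 : 0 < ∏ σ, (4 - x σ) := Finset.prod_pos fun σ _ => sub_pos.2 (hx4 σ)
    have h5 : R ^ 2 = (∏ σ, x σ) / ∏ σ, (4 - x σ) := by
      rw [hR, ← Finset.prod_pow, ← Finset.prod_div_distrib]
      exact Finset.prod_congr rfl fun σ _ => Real.sq_sqrt (hr σ).le
    have h6 : 0 < ∏ σ, x σ := Finset.prod_pos fun σ _ => hx0 σ
    have h7 : (Ideal.absNorm I : ℝ) ^ 2 ≤ (p * ∏ σ, x σ) * l₁.factorial ^ 3 := by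
      rw [h1]
      exact_mod_cast hI2
    have h8 : (lam ^ 2) ^ 3 ≤ ((C₀ ^ 2 * l₁.factorial ^ 3 * 64 * p : ℕ) : ℝ) := by
      rw [← pow_mul, mul_comm 2 3, pow_mul, hl3, div_pow, h5, div_div_eq_mul_div, div_le_iff₀ h6,
        mul_pow]
      push_cast
      calc (C₀ : ℝ) ^ 2 * (Ideal.absNorm I : ℝ) ^ 2 * ∏ σ, (4 - x σ)
          ≤ (C₀ : ℝ) ^ 2 * ((p * ∏ σ, x σ) * l₁.factorial ^ 3) * 64 := by gcongr
        _ = _ := by ring
    rw [← Real.pow_rpow_inv_natCast (sq_nonneg lam) three_ne_zero, one_div]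
    exact Real.rpow_le_rpow (by positivity) h8 (by positivity)
  refine ⟨k, 4 * b - k ^ 2, heq, fun σ => ?_, fun l _ ι => ?_, fun l _ hl hls ι => ?_⟩
  · obtain ⟨y, hy⟩ : ∃ y : ℝ, σ k = y :=
      ⟨_, ((IsTotallyReal.complexEmbedding_isReal σ).coe_embedding_apply k).symm⟩
    have hy0 : y ≠ 0 := fun e => (map_ne_zero σ).2 (show (k : F) ≠ 0 by exact_mod_cast hk0)
      (by rw [hy, e, Complex.ofReal_zero])
    have h1 := congrArg σ heq
    rw [map_mul, map_mul, map_pow, map_sub, hx, hy, map_ofNat] at h1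
    have h2 := hkf σ
    rw [hy, Complex.norm_real, Real.norm_eq_abs] at h2
    have h3 := pow_le_pow_left₀ (abs_nonneg y) h2.le 2
    rw [sq_abs, mul_pow, Real.sq_sqrt (hr σ).le, ← mul_div_assoc,
      le_div_iff₀ (sub_pos.2 (hx4 σ))] at h3
    refine ⟨y ^ 2 * (4 - x σ) / x σ, ?_, div_pos (mul_pos (sq_pos_of_ne_zero hy0)
      (sub_pos.2 (hx4 σ))) (hx0 σ), ((div_le_iff₀ (hx0 σ)).2 h3).trans hlam⟩
    push_cast
    exact eq_div_of_mul_eq (Complex.ofReal_ne_zero.2 (hx0 σ).ne') h1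
  · rw [← norm_pow, ← map_pow, hb, map_mul, norm_mul]
    exact mul_le_of_le_one_left (norm_nonneg _) (int_le ι b)
  · have hp' : l.Prime := Fact.out
    obtain ⟨j, hj⟩ := Ideal.absNorm_dvd_absNorm_of_le ((Ideal.span_singleton_le_iff_mem I).2 hk)
    rw [Ideal.absNorm_span_singleton] at hj
    have h1 : ((Algebra.norm ℤ k).natAbs : ℝ) ≤ C₀ * Ideal.absNorm I := by
      rw [NT.abs_norm_eq, ← hprod]
      exact Finset.prod_le_prod (fun _ _ => norm_nonneg _) fun σ _ => (hkf σ).le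
    have h2 : Ideal.absNorm I * j ≤ Ideal.absNorm I * C₀ := by
      rw [← hj, mul_comm]
      exact_mod_cast h1
    have h3 : j ≤ C₀ := Nat.le_of_mul_le_mul_left h2
      (Nat.pos_of_ne_zero (Ideal.absNorm_eq_zero_iff.not.2 hI))
    have h4 : j ≠ 0 := fun e => Int.natAbs_ne_zero.2 (Algebra.norm_ne_zero_iff.2 hk0)
      (by rw [hj, e, mul_zero])
    have h5 : ¬ (l : ℤ) ∣ Algebra.norm ℤ k := fun e => by
      rw [Int.natCast_dvd, hj] at e
      rcases hp'.dvd_mul.1 e with e | e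
      · exact hls (Int.natCast_dvd.2 (hp'.dvd_of_dvd_pow (e.trans hI1)))
      · exact absurd ((Nat.le_of_dvd (Nat.pos_of_ne_zero h4) e).trans (h3.trans hC2)) (not_le.2 hl)
    refine norm_eq_one_of_prod (x := fun ι : F →+* Om l => ι k) (fun ι => int_le ι k) ?_ ι
    rw [prod_emb, ← Algebra.coe_norm_int, Rat.cast_intCast]
    exact norm_int_eq_one h5

end M4.CM
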