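import Pool.Agent.Lib.MP_33b3f9_ag.M4.KzDefs

/-!
Block B1b: integral lifts of a family of `l`-adic matrices.
-/

set_option autoImplicit false

namespace M4.Kz

open Matrix

variable {κ : Type} [Fintype κ] [DecidableEq κ]

/-- `R` is congruent to the family `r` modulo `N`. -/
def Lifts (r : ∀ (l : ℕ) [Fact l.Prime], Matrix κ κ ℤ_[l]) (N : ℕ) (R : Matrix κ κ ℤ) : Prop :=
  ∀ (l : ℕ) [Fact l.Prime] (i j : κ), ‖r l i j - (R i j : ℤ_[l])‖ ≤ ‖(N : ℤ_[l])‖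

/-- Comparison of norms is divisibility. -/
theorem norm_le_iff_dvd {l : ℕ} [Fact l.Prime] (x y : ℤ_[l]) : ‖x‖ ≤ ‖y‖ ↔ y ∣ x := by
  constructor
  · intro h
    by_cases hy : y = 0
    · subst hy
      rw [norm_zero, norm_le_zero_iff] at h
      rw [h]
    · have hy' : (y : ℚ_[l]) ≠ 0 := fun h0 => hy (PadicInt.coe_eq_zero.1 h0)
      have h1 : ‖(x : ℚ_[l]) / (y : ℚ_[l])‖ ≤ 1 := by
        rw [norm_div]
        exact div_le_one_of_le₀ h (norm_nonneg _)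
      refine ⟨⟨_, h1⟩, Subtype.ext ?_⟩
      change (x : ℚ_[l]) = (y : ℚ_[l]) * ((x : ℚ_[l]) / (y : ℚ_[l]))
      rw [mul_div_cancel₀ _ hy']
  · rintro ⟨z, rfl⟩
    rw [norm_mul]
    exact mul_le_of_le_one_right (norm_nonneg _) (PadicInt.norm_le_one z)

theorem exists_crt_dvd (x : ∀ (l : ℕ) [Fact l.Prime], ℤ_[l]) (N : ℕ) :
    N ≠ 0 → ∃ a : ℤ, ∀ (l : ℕ) [Fact l.Prime], (N : ℤ_[l]) ∣ x l - (a : ℤ_[l]) := by
  induction N using Nat.recOnPosPrimePosCoprime with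
  | prime_pow p n hp _ =>
    intro _
    have : Fact p.Prime := ⟨hp⟩
    refine ⟨((x p).appr n : ℕ), fun l hl => ?_⟩
    by_cases h : l = p
    · subst h
      have := Ideal.mem_span_singleton.1 (PadicInt.appr_spec n (x l))
      simpa using this
    · refine IsUnit.dvd ?_
      rw [PadicInt.isUnit_iff, PadicInt.norm_natCast_eq_one_iff]
      exact Nat.Coprime.pow_right n ((Nat.coprime_primes hl.out hp).2 h)
  | zero => exact fun h => absurd rfl h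
  | one => exact fun _ => ⟨0, fun l _ => by simp⟩
  | coprime a b ha hb hab iha ihb =>
    intro _
    obtain ⟨s, hs⟩ := iha (by omega)
    obtain ⟨t, ht⟩ := ihb (by omega)
    obtain ⟨u, v, huv⟩ := Nat.isCoprime_iff_coprime.2 hab
    refine ⟨s * v * b + t * u * a, fun l _ => ?_⟩
    obtain ⟨y, hy⟩ := hs l
    obtain ⟨z, hz⟩ := ht l
    have h1 : (u : ℤ_[l]) * a + v * b = 1 := by exact_mod_cast congrArg (Int.cast : ℤ → ℤ_[l]) huv
    refine ⟨y * v + z * u, ?_⟩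
    push_cast
    linear_combination (v : ℤ_[l]) * b * hy + (u : ℤ_[l]) * a * hz - x l * h1

/-- Chinese remainder theorem (`PadicInt.appr`, `Nat.chineseRemainderOfFinset` or induction on the
prime factors of `N`; for `l ∤ N` the norm of `N` is one). -/
theorem exists_crt (x : ∀ (l : ℕ) [Fact l.Prime], ℤ_[l]) {N : ℕ} (hN : N ≠ 0) :
    ∃ a : ℤ, ∀ (l : ℕ) [Fact l.Prime], ‖x l - (a : ℤ_[l])‖ ≤ ‖(N : ℤ_[l])‖ := by
  obtain ⟨a, ha⟩ := exists_crt_dvd x N hN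
  exact ⟨a, fun l _ => (norm_le_iff_dvd _ _).2 (ha l)⟩

omit [Fintype κ] [DecidableEq κ] in
theorem exists_lifts (r : ∀ (l : ℕ) [Fact l.Prime], Matrix κ κ ℤ_[l]) {N : ℕ} (hN : N ≠ 0) :
    ∃ R : Matrix κ κ ℤ, Lifts r N R := by
  choose a ha using fun i j => exists_crt (fun l _ => r l i j) hN
  exact ⟨Matrix.of a, fun l _ i j => ha i j l⟩

omit [Fintype κ] [DecidableEq κ] in
theorem Lifts.dvd {r : ∀ (l : ℕ) [Fact l.Prime], Matrix κ κ ℤ_[l]} {N : ℕ}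
    {R : Matrix κ κ ℤ} (h : Lifts r N R) (l : ℕ) [Fact l.Prime] (i j : κ) :
    (N : ℤ_[l]) ∣ r l i j - (R i j : ℤ_[l]) := (norm_le_iff_dvd _ _).1 (h l i j)

omit [Fintype κ] [DecidableEq κ] in
theorem Lifts.of_dvd {r : ∀ (l : ℕ) [Fact l.Prime], Matrix κ κ ℤ_[l]} {N M : ℕ}
    {R : Matrix κ κ ℤ} (h : Lifts r N R) (hM : M ∣ N) : Lifts r M R := fun l _ i j =>
  (norm_le_iff_dvd _ _).2 ((Nat.cast_dvd_cast hM).trans (h.dvd l i j))

omit [DecidableEq κ] in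
/-- The hypothesis of the Tate condition for `x = a / N`, `y = R a / N`. -/
theorem Lifts.tate {r : ∀ (l : ℕ) [Fact l.Prime], Matrix κ κ ℤ_[l]} {N : ℕ} (hN : N ≠ 0)
    {R : Matrix κ κ ℤ} (h : Lifts r N R) (a : κ → ℤ) (l : ℕ) [Fact l.Prime] (i : κ) :
    ‖((r l).map ((↑) : ℤ_[l] → ℚ_[l]) *ᵥ fun j => ((((a j : ℚ) / N : ℚ)) : ℚ_[l])) i -
      ((((R *ᵥ a) i : ℚ) / N : ℚ) : ℚ_[l])‖ ≤ 1 := by
  choose s hs using fun j => h.dvd l i j
  have hN' : (N : ℚ_[l]) ≠ 0 := by exact_mod_cast hN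
  have h1 : ∀ j, ((r l i j : ℤ_[l]) : ℚ_[l]) = R i j + N * (s j : ℚ_[l]) := fun j => by
    rw [sub_eq_iff_eq_add'.1 (hs j)]
    push_cast
    rfl
  have key : ((r l).map ((↑) : ℤ_[l] → ℚ_[l]) *ᵥ fun j => ((((a j : ℚ) / N : ℚ)) : ℚ_[l])) i -
      ((((R *ᵥ a) i : ℚ) / N : ℚ) : ℚ_[l]) = ((∑ j, s j * (a j : ℤ_[l]) : ℤ_[l]) : ℚ_[l]) := by
    simp only [mulVec, dotProduct]
    rw [PadicInt.coe_sum]
    push_cast
    rw [Finset.sum_div, ← Finset.sum_sub_distrib]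
    refine Finset.sum_congr rfl fun j _ => ?_
    change ((r l i j : ℤ_[l]) : ℚ_[l]) * _ - _ = _
    rw [h1]
    field_simp
    ring
  rw [key]
  exact PadicInt.norm_le_one _

omit [Fintype κ] [DecidableEq κ] in
/-- Reduction along a ring map that kills `N`. -/
theorem Lifts.map_eq {r : ∀ (l : ℕ) [Fact l.Prime], Matrix κ κ ℤ_[l]} {N : ℕ}
    {R : Matrix κ κ ℤ} (h : Lifts r N R) (l : ℕ) [Fact l.Prime] {m : ℕ} (hm : m ∣ N)
    (φ : ℤ_[l] →+* ZMod m) : mZ m R = (r l).map φ := by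
  ext i j
  obtain ⟨s, hs⟩ := h.dvd l i j
  have h0 : (N : ZMod m) = 0 := (ZMod.natCast_eq_zero_iff N m).2 hm
  rw [map_apply, sub_eq_iff_eq_add'.1 hs, map_add, map_mul, map_natCast, h0, zero_mul, add_zero,
    map_intCast]
  rfl

omit [Fintype κ] [DecidableEq κ] in
/-- Reduction modulo a prime divisor of `N`. -/
theorem Lifts.mZ_eq {r : ∀ (l : ℕ) [Fact l.Prime], Matrix κ κ ℤ_[l]} {N : ℕ}
    {R : Matrix κ κ ℤ} (h : Lifts r N R) (l : ℕ) [Fact l.Prime] (hl : l ∣ N) :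
    mZ l R = (r l).map (PadicInt.toZMod : ℤ_[l] →+* ZMod l) := h.map_eq l hl _

/-- A similitude modulo `l ^ n` of the lift is one of the `l`-adic matrix. -/
theorem Lifts.sim {ι : Type} [Fintype ι] [DecidableEq ι]
    {r : ∀ (l : ℕ) [Fact l.Prime], Matrix (ι ⊕ ι) (ι ⊕ ι) ℤ_[l]} {N : ℕ}
    {R : Matrix (ι ⊕ ι) (ι ⊕ ι) ℤ} (h : Lifts r N R) (l : ℕ) [Fact l.Prime] (n : ℕ)
    (hl : l ^ n ∣ N) (c : ℤ)
    (hc : ∀ a b, ((l ^ n : ℕ) : ℤ) ∣ Ef (R *ᵥ a) (R *ᵥ b) - c * Ef a b) (i j : ι ⊕ ι) :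
    ‖((r l)ᵀ * J ι ℤ_[l] * r l - (c : ℤ_[l]) • J ι ℤ_[l]) i j‖ ≤ (l : ℝ) ^ (-n : ℤ) := by
  have : NeZero (l ^ n) := ⟨pow_ne_zero _ (Fact.out : l.Prime).ne_zero⟩
  have hs : SimR (mZ (l ^ n) R) (c : ZMod (l ^ n)) := fun x y => by
    rw [← vZ_lift x, ← vZ_lift y, mZ_mulVec, mZ_mulVec, Ef_vZ, Ef_vZ, ← Int.cast_mul, eq_comm,
      ZMod.intCast_eq_intCast_iff_dvd_sub]
    exact hc _ _
  rw [h.map_eq l hl (PadicInt.toZModPow n), simR_iff] at hs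
  rw [PadicInt.norm_le_pow_iff_mem_span_pow, ← PadicInt.ker_toZModPow, RingHom.mem_ker]
  have h1 := congrFun (congrFun hs i) j
  rw [← map_J ι (PadicInt.toZModPow n : ℤ_[l] →+* ZMod (l ^ n)), ← transpose_map,
    ← Matrix.map_mul, ← Matrix.map_mul, map_apply, Matrix.smul_apply, map_apply] at h1
  rw [Matrix.sub_apply, map_sub, h1, Matrix.smul_apply, smul_eq_mul, smul_eq_mul, map_mul,
    map_intCast, sub_self]

end M4.Kz
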