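import Pool.Agent.Lib.MP_33b3f9_ag.M4.KzI

/-!
Block B1b: algebra of the level four coordinates.
-/

set_option autoImplicit false

namespace M4.Kz

open Complex Matrix

variable {ι : Type} [Fintype ι] {τ : Matrix ι ι ℂ}

theorem chi_sq (n : ι ⊕ ι → ℤ) : chi n ^ 2 = 1 := by
  unfold chi
  rw [← zpow_natCast, ← _root_.zpow_mul, mul_comm, _root_.zpow_mul]; simp

theorem chi_add_two (a b : ι ⊕ ι → ℤ) : chi (a + (2 : ℤ) • b) = chi a := by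
  unfold chi
  have : ∑ i, (a + (2 : ℤ) • b) (Sum.inl i) * (a + (2 : ℤ) • b) (Sum.inr i) =
      ∑ i, a (Sum.inl i) * a (Sum.inr i) + 2 * ∑ i, (a (Sum.inl i) * b (Sum.inr i) +
        b (Sum.inl i) * a (Sum.inr i) + 2 * (b (Sum.inl i) * b (Sum.inr i))) := by
    rw [Finset.mul_sum, ← Finset.sum_add_distrib]
    exact Finset.sum_congr rfl fun i _ => by simp; ring
  rw [this, zpow_add₀ (by norm_num), _root_.zpow_mul]
  norm_num

@[simp] theorem chi_zero : chi (0 : ι ⊕ ι → ℤ) = 1 := by simp [chi]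

theorem chi_two (b : ι ⊕ ι → ℤ) : chi ((2 : ℤ) • b) = 1 := by
  rw [← zero_add ((2 : ℤ) • b), chi_add_two, chi_zero]

theorem chi_zsmul (c : ℤ) (b : ι ⊕ ι → ℤ) : chi (c • b) = chi b ^ (c * c) := by
  unfold chi
  rw [← _root_.zpow_mul, Finset.sum_mul]
  congr 1
  exact Finset.sum_congr rfl fun i _ => by simp; ring

theorem map_chi (σ : ℂ →+* ℂ) (n : ι ⊕ ι → ℤ) : σ (chi n) = chi n := by simp [chi]

theorem chi_ne (n : ι ⊕ ι → ℤ) : chi n ≠ 0 := zpow_ne_zero _ (by norm_num)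

theorem Th_add_int (hτ : InH τ) (x : ι ⊕ ι → ℝ) (n : ι ⊕ ι → ℤ) :
    Th τ (x + rz n) = chi n * ee (-(Ef (rz n) x : ℝ) / 2) * Th τ x := by
  have h := congrFun ((Th_mem hτ).2 n) x
  simp only [U, Pi.smul_apply, smul_eq_mul, E_eq, Ef_zero_left, Nat.cast_one, pow_one,
    ofReal_zero, ee_zero, mul_one, ofReal_one, one_mul] at h
  rw [mul_right_comm, ← h, mul_right_comm, ← ee_add]
  rw [show ((Ef (rz n) x : ℝ) : ℂ) / 2 + -((Ef (rz n) x : ℝ) : ℂ) / 2 = 0 by ring, ee_zero, one_mul]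

theorem XX_def (k : ι ⊕ ι → ℤ) (x : ι ⊕ ι → ℝ) :
    XX τ k x = ee ((Ef (rz k) x : ℝ) / 2) * Th τ ((2 : ℝ) • x + hf k) := by
  simp only [XX, U, E_eq, hf, Ef_smul_left, Ef_smul_right]
  congr 2
  push_cast; ring

theorem XX_zero (k : ι ⊕ ι → ℤ) : XX τ k 0 = Th τ (hf k) := by simp [XX_def]

omit [Fintype ι] in
theorem hf_add (a b : ι ⊕ ι → ℤ) : hf (a + b) = hf a + hf b := by rw [hf, rz_add, smul_add]; rfl

omit [Fintype ι] in
theorem hf_sub (a b : ι ⊕ ι → ℤ) : hf (a - b) = hf a - hf b := by rw [hf, rz_sub, smul_sub]; rfl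

omit [Fintype ι] in
theorem hf_two (a : ι ⊕ ι → ℤ) : hf ((2 : ℤ) • a) = rz a := by
  rw [hf, rz_zsmul, smul_smul]; norm_num

theorem XX_add_two (hτ : InH τ) (k n : ι ⊕ ι → ℤ) (x : ι ⊕ ι → ℝ) :
    XX τ (k + (2 : ℤ) • n) x = chi n * I ^ Ef k n * XX τ k x := by
  rw [XX_def, XX_def, hf_add, hf_two, ← add_assoc, Th_add_int hτ, ← ee_int_div_four]
  have : ee (((Ef (rz (k + (2 : ℤ) • n)) x : ℝ) : ℂ) / 2) *
      ee (-((Ef (rz n) ((2 : ℝ) • x + hf k) : ℝ) : ℂ) / 2) =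
      ee (((Ef k n : ℤ) : ℂ) / 4) * ee (((Ef (rz k) x : ℝ) : ℂ) / 2) := by
    rw [← ee_add, ← ee_add]
    congr 1
    simp only [rz_add, rz_zsmul, hf, Ef_add_left, Ef_add_right, Ef_smul_left, Ef_smul_right, Ef_rz,
      Ef_swap n k]
    push_cast; ring
  linear_combination chi n * Th τ ((2 : ℝ) • x + hf k) * this

theorem XX_shift (hτ : InH τ) (k n : ι ⊕ ι → ℤ) (x : ι ⊕ ι → ℝ) :
    XX τ k (x + rz n) = ee (-2 * (Ef (rz n) x : ℝ)) * XX τ k x := by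
  have h : (2 : ℝ) • (x + rz n) + hf k = (2 : ℝ) • x + hf k + rz ((2 : ℤ) • n) := by
    rw [rz_zsmul, smul_add, Int.cast_ofNat]; abel
  rw [XX_def, XX_def, h, Th_add_int hτ, chi_two, one_mul, ← mul_assoc, ← mul_assoc, ← ee_add,
    ← ee_add]
  congr 1
  refine ee_congr (Ef k n) ?_
  simp only [rz_zsmul, hf, Ef_add_right, Ef_smul_left, Ef_smul_right, Ef_rz, Ef_swap n k]
  push_cast; ring

omit [Fintype ι] in
theorem exists_bits (k : ι ⊕ ι → ℤ) : ∃ (e : ι ⊕ ι → Fin 2) (n : ι ⊕ ι → ℤ),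
    k = bz e + (2 : ℤ) • n := by
  refine ⟨fun i => ⟨(k i % 2).toNat, by omega⟩, fun i => k i / 2, funext fun i => ?_⟩
  simp only [bz, Pi.add_apply, Pi.smul_apply, smul_eq_mul]
  omega

theorem bpfXX (hτ : InH τ) (x : ι ⊕ ι → ℝ) : ∃ k : ι ⊕ ι → Fin 2, XX τ (bz k) x ≠ 0 := by
  obtain ⟨k, hk⟩ := bpf hτ ((2 : ℝ) • x)
  exact ⟨k, by rw [XX_def]; exact mul_ne_zero (ee_ne _) hk⟩

theorem U_hf (k e : ι ⊕ ι → ℤ) (x : ι ⊕ ι → ℝ) : U 1 (hf k) (Th τ) ((2 : ℝ) • x + hf e) =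
    ee ((Ef k e : ℤ) / 8 - (Ef (rz e) x : ℝ) / 2) * XX τ (e + k) x := by
  rw [XX_def, ← mul_assoc, ← ee_add, hf_add, ← add_assoc]
  simp only [U]
  congr 2
  simp only [E_eq, hf, rz_add, Ef_add_left, Ef_add_right, Ef_smul_left, Ef_smul_right, Ef_rz]
  push_cast; ring

/-- The Riemann relation for `(x, x, y, y)`. -/
theorem riemXX [DecidableEq ι] (hτ : InH τ) (e e' : ι ⊕ ι → ℤ) (s t : ι ⊕ ι → ℝ) :
    2 ^ Fintype.card ι * (XX τ e s ^ 2 * XX τ e' t ^ 2) =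
      ∑ k : ι ⊕ ι → Fin 2, chi (bz k) * I ^ Ef (bz k) e *
        (XX τ (e + e' + bz k) (s + t) * XX τ (e - e' + bz k) (s - t) * XX τ (bz k) 0 ^ 2) := by
  have h := riemann hτ ((2 : ℝ) • s + hf e) ((2 : ℝ) • s + hf e) ((2 : ℝ) • t + hf e')
    ((2 : ℝ) • t + hf e')
  have h1 : (1 / 2 : ℝ) • ((2 : ℝ) • s + hf e + ((2 : ℝ) • s + hf e) + ((2 : ℝ) • t + hf e') +
      ((2 : ℝ) • t + hf e')) = (2 : ℝ) • (s + t) + hf (e + e') := by rw [hf_add]; module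
  have h2 : (1 / 2 : ℝ) • ((2 : ℝ) • s + hf e + ((2 : ℝ) • s + hf e) - ((2 : ℝ) • t + hf e') -
      ((2 : ℝ) • t + hf e')) = (2 : ℝ) • (s - t) + hf (e - e') := by rw [hf_sub]; module
  have h3 : (1 / 2 : ℝ) • ((2 : ℝ) • s + hf e - ((2 : ℝ) • s + hf e) + ((2 : ℝ) • t + hf e') -
      ((2 : ℝ) • t + hf e')) = (2 : ℝ) • (0 : ι ⊕ ι → ℝ) := by module
  have h4 : (1 / 2 : ℝ) • ((2 : ℝ) • s + hf e - ((2 : ℝ) • s + hf e) - ((2 : ℝ) • t + hf e') +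
      ((2 : ℝ) • t + hf e')) = (2 : ℝ) • (0 : ι ⊕ ι → ℝ) := by module
  rw [h1, h2, h3, h4] at h
  have h5 := congrArg (fun z => ee ((Ef (rz e) s : ℝ) + (Ef (rz e') t : ℝ)) * z) h
  simp only [Finset.mul_sum] at h5
  refine Eq.trans ?_ (h5.trans (Finset.sum_congr rfl fun k _ => ?_))
  · rw [XX_def, XX_def, mul_pow, mul_pow, ee_pow, ee_pow, ee_add]
    rw [show ((2 : ℕ) : ℂ) * (((Ef (rz e) s : ℝ) : ℂ) / 2) = (Ef (rz e) s : ℝ) by push_cast; ring,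
      show ((2 : ℕ) : ℂ) * (((Ef (rz e') t : ℝ) : ℂ) / 2) = (Ef (rz e') t : ℝ) by push_cast; ring]
    ring
  · rw [U_hf, U_hf, ← ee_int_div_four]
    have : ee ((Ef (rz e) s : ℝ) + (Ef (rz e') t : ℝ)) *
        (ee ((Ef (bz k) (e + e') : ℤ) / 8 - (Ef (rz (e + e')) (s + t) : ℝ) / 2) *
        ee ((Ef (bz k) (e - e') : ℤ) / 8 - (Ef (rz (e - e')) (s - t) : ℝ) / 2)) =
        ee ((Ef (bz k) e : ℤ) / 4) := by
      rw [← ee_add, ← ee_add]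
      congr 1
      simp only [rz_add, rz_sub, Ef_add_left, Ef_add_right, Ef_sub_left, Ef_sub_right]
      push_cast; ring
    change _ * (_ * (_ * _ * XX τ (bz k) 0 * XX τ (bz k) 0)) = _
    linear_combination chi (bz k) * (XX τ (e + e' + bz k) (s + t) * XX τ (e - e' + bz k) (s - t) *
      XX τ (bz k) 0 ^ 2) * this

end M4.Kz
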