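import Mathlib

/-!
Theta functions on `ℝ^(ι ⊕ ι)`: definitions.
-/

set_option autoImplicit false

namespace M4

open Complex Matrix

variable {ι : Type} [Fintype ι]

/-- `ee t = exp (2 π i t)`. -/
noncomputable def ee (t : ℂ) : ℂ := exp (2 * Real.pi * I * t)

/-- The Siegel upper half space. -/
def InH (τ : Matrix ι ι ℂ) : Prop := τ.IsSymm ∧ (τ.map im).PosDef

/-- First half `a` of a vector `x = (a, b)`, as a complex vector. -/
def fa (x : ι ⊕ ι → ℝ) : ι → ℂ := fun i => (x (Sum.inl i) : ℂ)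

/-- Second half `b` of a vector `x = (a, b)`, as a complex vector. -/
def fb (x : ι ⊕ ι → ℝ) : ι → ℂ := fun i => (x (Sum.inr i) : ℂ)

/-- An integral vector as a complex vector. -/
def cz (n : ι → ℤ) : ι → ℂ := fun i => (n i : ℂ)

/-- An integral vector as a real vector. -/
def rz {κ : Type} (n : κ → ℤ) : κ → ℝ := fun i => (n i : ℝ)

/-- The classical theta function with characteristic `η = (a, b)`: the sum over `n` of
`exp (π i (n + a) τ (n + a) + 2 π i (n + a) (z + b))`. -/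
noncomputable def thc (τ : Matrix ι ι ℂ) (η : ι ⊕ ι → ℝ) (z : ι → ℂ) : ℂ :=
  ∑' n : ι → ℤ, ee ((cz n + fa η) ⬝ᵥ τ *ᵥ (cz n + fa η) / 2 + (cz n + fa η) ⬝ᵥ (z + fb η))

/-- The period map `(a, b) ↦ τ a + b`. -/
noncomputable def per (τ : Matrix ι ι ℂ) (x : ι ⊕ ι → ℝ) : ι → ℂ := τ *ᵥ fa x + fb x

/-- The symplectic form `a b' - b a'`. -/
def E (x y : ι ⊕ ι → ℝ) : ℝ :=
  ∑ i, (x (Sum.inl i) * y (Sum.inr i) - x (Sum.inr i) * y (Sum.inl i))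

/-- The normalised theta function on `ℝ^(ι ⊕ ι)`. -/
noncomputable def Th (τ : Matrix ι ι ℂ) (x : ι ⊕ ι → ℝ) : ℂ :=
  ee (-(fa x ⬝ᵥ fb x) / 2) * thc τ x 0

/-- The sign `(-1)^(n₁ n₂)`. -/
noncomputable def chi (n : ι ⊕ ι → ℤ) : ℂ := (-1) ^ ∑ i, n (Sum.inl i) * n (Sum.inr i)

/-- The Heisenberg operator of level `m`. -/
noncomputable def U (m : ℝ) (y : ι ⊕ ι → ℝ) (f : (ι ⊕ ι → ℝ) → ℂ) : (ι ⊕ ι → ℝ) → ℂ :=
  fun x => ee (m * E y x / 2) * f (x + y)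

/-- Holomorphic functions of level `m`. -/
def Hol (τ : Matrix ι ι ℂ) (m : ℝ) : Submodule ℂ ((ι ⊕ ι → ℝ) → ℂ) where
  carrier := {f | ∃ F : (ι → ℂ) → ℂ, Differentiable ℂ F ∧
    ∀ x, f x = ee (m * (fa x ⬝ᵥ per τ x) / 2) * F (per τ x)}
  zero_mem' := ⟨0, differentiable_const 0, fun x => by simp⟩
  add_mem' := by
    rintro f g ⟨F, hF, hf⟩ ⟨G, hG, hg⟩
    exact ⟨F + G, hF.add hG, fun x => by simp [hf, hg, mul_add]⟩
  smul_mem' := by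
    rintro c f ⟨F, hF, hf⟩
    exact ⟨c • F, hF.const_smul c, fun x => by simp [hf, mul_left_comm]⟩

/-- Theta functions of level `m` and twist `c`. -/
def Gam (τ : Matrix ι ι ℂ) (m : ℕ) (c : ι ⊕ ι → ℝ) : Submodule ℂ ((ι ⊕ ι → ℝ) → ℂ) where
  carrier := {f | f ∈ Hol τ m ∧ ∀ n : ι ⊕ ι → ℤ,
    U m (rz n) f = (chi n ^ m * ee (E c (rz n))) • f}
  zero_mem' := ⟨(Hol τ m).zero_mem, fun n => by funext x; simp [U]⟩
  add_mem' := by
    rintro f g ⟨hf, hf'⟩ ⟨hg, hg'⟩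
    refine ⟨(Hol τ m).add_mem hf hg, fun n => ?_⟩
    rw [smul_add, ← hf', ← hg']
    funext x
    simp [U, mul_add]
  smul_mem' := by
    rintro c f ⟨hf, hf'⟩
    refine ⟨(Hol τ m).smul_mem c hf, fun n => ?_⟩
    rw [smul_comm, ← hf']
    funext x
    simp [U, mul_left_comm]

/-- Half of an integral vector. -/
noncomputable def hf (k : ι ⊕ ι → ℤ) : ι ⊕ ι → ℝ := (1 / 2 : ℝ) • rz k

/-- A vector of bits as an integral vector. -/
def bz {κ : Type} (e : κ → Fin 2) : κ → ℤ := fun i => ((e i : ℕ) : ℤ)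

/-- The level four coordinates `x ↦ (U_(k/2) Th)(2 x)`. -/
noncomputable def XX (τ : Matrix ι ι ℂ) (k : ι ⊕ ι → ℤ) (x : ι ⊕ ι → ℝ) : ℂ :=
  U 1 (hf k) (Th τ) ((2 : ℝ) • x)

/-- The level `m` basis, `r` modulo `m`. -/
noncomputable def Thm (τ : Matrix ι ι ℂ) (m : ℕ) (r : ι → ℤ) (x : ι ⊕ ι → ℝ) : ℂ :=
  ee (m * (fa x ⬝ᵥ per τ x) / 2) *
    thc ((m : ℂ) • τ) (Sum.elim (fun i => (r i : ℝ) / m) 0) ((m : ℂ) • per τ x)

/-- `g` is a symplectic similitude with multiplier `m`. -/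
def Sim (g : Matrix (ι ⊕ ι) (ι ⊕ ι) ℝ) (m : ℝ) : Prop := ∀ x y, E (g *ᵥ x) (g *ᵥ y) = m * E x y

/-- The factor of automorphy `τ' B + D`. -/
noncomputable def jf (g : Matrix (ι ⊕ ι) (ι ⊕ ι) ℝ) (τ' : Matrix ι ι ℂ) : Matrix ι ι ℂ :=
  τ' * g.toBlocks₁₂.map ofReal + g.toBlocks₂₂.map ofReal

/-- `g` is complex linear from the structure of `τ` to the structure of `τ'`. -/
def Rel (g : Matrix (ι ⊕ ι) (ι ⊕ ι) ℝ) (τ τ' : Matrix ι ι ℂ) : Prop :=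
  τ' * g.toBlocks₁₁.map ofReal + g.toBlocks₂₁.map ofReal = jf g τ' * τ

variable [DecidableEq ι]

/-- The action of similitudes on the Siegel space: `(D τ - C) (A - B τ)⁻¹`. -/
noncomputable def act (g : Matrix (ι ⊕ ι) (ι ⊕ ι) ℝ) (τ : Matrix ι ι ℂ) : Matrix ι ι ℂ :=
  (g.toBlocks₂₂.map ofReal * τ - g.toBlocks₂₁.map ofReal) *
    (g.toBlocks₁₁.map ofReal - g.toBlocks₁₂.map ofReal * τ)⁻¹

/-- The complex structure of `τ = X + i Y` on `ℝ^(ι ⊕ ι)`, `per τ (cst τ x) = i per τ x`. -/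
noncomputable def cst (τ : Matrix ι ι ℂ) : Matrix (ι ⊕ ι) (ι ⊕ ι) ℝ :=
  fromBlocks ((τ.map im)⁻¹ * τ.map re) (τ.map im)⁻¹
    (-(τ.map im + τ.map re * (τ.map im)⁻¹ * τ.map re)) (-(τ.map re * (τ.map im)⁻¹))

end M4
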