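import Mathlib
import Pool.Agent.Lib.MP_33b3f9_ag.M4.ThDefs

/-!
Algebra of the Heisenberg operators and of the period map.
-/

set_option autoImplicit false

namespace M4

open Complex Matrix

variable {ι : Type} [Fintype ι]

theorem ee_add (s t : ℂ) : ee (s + t) = ee s * ee t := by
  rw [ee, ee, ee, ← exp_add, mul_add]

@[simp] theorem ee_zero : ee 0 = 1 := by simp [ee]

theorem ee_ne_zero (t : ℂ) : ee t ≠ 0 := exp_ne_zero _

theorem ee_neg (t : ℂ) : ee (-t) = (ee t)⁻¹ := by rw [ee, ee, mul_neg, exp_neg]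

theorem ee_int (k : ℤ) : ee k = 1 := by
  rw [ee, mul_comm, exp_int_mul_two_pi_mul_I]

theorem ee_half_int (k : ℤ) : ee (k / 2) = (-1) ^ k := by
  rw [ee, ← exp_pi_mul_I, ← exp_int_mul]
  congr 1
  ring

theorem ee_nat_mul (m : ℕ) (t : ℂ) : ee (m * t) = ee t ^ m := by
  rw [ee, ee, ← exp_nat_mul]
  congr 1
  ring

theorem ee_sum {α : Type} (s : Finset α) (f : α → ℂ) : ee (∑ i ∈ s, f i) = ∏ i ∈ s, ee (f i) := by
  simp only [ee, Finset.mul_sum, exp_sum]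

theorem norm_ee_real (t : ℝ) : ‖ee t‖ = 1 := by
  have : (2 * Real.pi * I * t : ℂ) = ((2 * Real.pi * t : ℝ) : ℂ) * I := by push_cast; ring
  rw [ee, this, norm_exp_ofReal_mul_I]

theorem ee_eq_one_iff {t : ℂ} : ee t = 1 ↔ ∃ k : ℤ, t = k := by
  rw [ee, exp_eq_one_iff]
  have h : (2 * Real.pi * I : ℂ) ≠ 0 := two_pi_I_ne_zero
  refine exists_congr fun k => ⟨fun hk => mul_left_cancel₀ h (by rw [hk]; ring), ?_⟩
  rintro rfl
  ring

theorem differentiable_ee : Differentiable ℂ ee := by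
  unfold ee
  fun_prop

omit [Fintype ι] in
theorem fa_add (x y : ι ⊕ ι → ℝ) : fa (x + y) = fa x + fa y := by funext i; simp [fa]

omit [Fintype ι] in
theorem fb_add (x y : ι ⊕ ι → ℝ) : fb (x + y) = fb x + fb y := by funext i; simp [fb]

omit [Fintype ι] in
theorem fa_smul (c : ℝ) (x : ι ⊕ ι → ℝ) : fa (c • x) = (c : ℂ) • fa x := by funext i; simp [fa]

omit [Fintype ι] in
theorem fb_smul (c : ℝ) (x : ι ⊕ ι → ℝ) : fb (c • x) = (c : ℂ) • fb x := by funext i; simp [fb]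

omit [Fintype ι] in
theorem fa_neg (x : ι ⊕ ι → ℝ) : fa (-x) = -fa x := by funext i; simp [fa]

omit [Fintype ι] in
theorem fb_neg (x : ι ⊕ ι → ℝ) : fb (-x) = -fb x := by funext i; simp [fb]

omit [Fintype ι] in
@[simp] theorem fa_zero : fa (0 : ι ⊕ ι → ℝ) = 0 := by funext i; simp [fa]

omit [Fintype ι] in
@[simp] theorem fb_zero : fb (0 : ι ⊕ ι → ℝ) = 0 := by funext i; simp [fb]

omit [Fintype ι] in
theorem fa_rz (n : ι ⊕ ι → ℤ) : fa (rz n) = cz (n ∘ Sum.inl) := by funext i; simp [fa, rz, cz]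

omit [Fintype ι] in
theorem fb_rz (n : ι ⊕ ι → ℤ) : fb (rz n) = cz (n ∘ Sum.inr) := by funext i; simp [fb, rz, cz]

omit [Fintype ι] in
theorem cz_add (n n' : ι → ℤ) : cz (n + n') = cz n + cz n' := by funext i; simp [cz]

omit [Fintype ι] in
theorem cz_neg (n : ι → ℤ) : cz (-n) = -cz n := by funext i; simp [cz]

omit [Fintype ι] in
@[simp] theorem cz_zero : cz (0 : ι → ℤ) = 0 := by funext i; simp [cz]

theorem cz_dot (n n' : ι → ℤ) : cz n ⬝ᵥ cz n' = ((∑ i, n i * n' i : ℤ) : ℂ) := by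
  simp [cz, dotProduct]

theorem rz_add {κ : Type} (n n' : κ → ℤ) : rz (n + n') = rz n + rz n' := by funext i; simp [rz]

theorem rz_neg {κ : Type} (n : κ → ℤ) : rz (-n) = -rz n := by funext i; simp [rz]

theorem rz_sub {κ : Type} (n n' : κ → ℤ) : rz (n - n') = rz n - rz n' := by funext i; simp [rz]

theorem rz_smul {κ : Type} (k : ℤ) (n : κ → ℤ) : rz (k • n) = (k : ℝ) • rz n := by
  funext i; simp [rz]

@[simp] theorem rz_zero {κ : Type} : rz (0 : κ → ℤ) = 0 := by funext i; simp [rz]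

omit [Fintype ι] in
theorem hf_add (k l : ι ⊕ ι → ℤ) : hf (k + l) = hf k + hf l := by rw [hf, rz_add, smul_add]; rfl

omit [Fintype ι] in
theorem hf_sub (k l : ι ⊕ ι → ℤ) : hf (k - l) = hf k - hf l := by rw [hf, rz_sub, smul_sub]; rfl

omit [Fintype ι] in
theorem hf_neg (k : ι ⊕ ι → ℤ) : hf (-k) = -hf k := by rw [hf, rz_neg, smul_neg]; rfl

omit [Fintype ι] in
theorem hf_two (n : ι ⊕ ι → ℤ) : hf ((2 : ℤ) • n) = rz n := by funext i; simp [hf, rz]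

omit [Fintype ι] in
theorem two_smul_hf (k : ι ⊕ ι → ℤ) : (2 : ℝ) • hf k = rz k := by funext i; simp [hf, rz]

/-- Every integral vector is a vector of bits modulo two. -/
theorem exists_bz {κ : Type} (k : κ → ℤ) : ∃ (e : κ → Fin 2) (n : κ → ℤ), k = bz e + (2 : ℤ) • n :=
  ⟨fun i => ⟨(k i % 2).toNat, by omega⟩, fun i => k i / 2, by
    funext i
    simp only [bz, Pi.add_apply, Pi.smul_apply, smul_eq_mul]
    omega⟩

theorem per_add (τ : Matrix ι ι ℂ) (x y : ι ⊕ ι → ℝ) : per τ (x + y) = per τ x + per τ y := by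
  simp only [per, fa_add, fb_add, mulVec_add]
  abel

theorem per_smul (τ : Matrix ι ι ℂ) (c : ℝ) (x : ι ⊕ ι → ℝ) :
    per τ (c • x) = (c : ℂ) • per τ x := by
  simp only [per, fa_smul, fb_smul, mulVec_smul, smul_add]

theorem per_neg (τ : Matrix ι ι ℂ) (x : ι ⊕ ι → ℝ) : per τ (-x) = -per τ x := by
  simp only [per, fa_neg, fb_neg, mulVec_neg, neg_add]

theorem per_sub (τ : Matrix ι ι ℂ) (x y : ι ⊕ ι → ℝ) : per τ (x - y) = per τ x - per τ y := by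
  rw [sub_eq_add_neg, per_add, per_neg, sub_eq_add_neg]

@[simp] theorem per_zero (τ : Matrix ι ι ℂ) : per τ 0 = 0 := by simp [per]

theorem E_cast (x y : ι ⊕ ι → ℝ) : (E x y : ℂ) = fa x ⬝ᵥ fb y - fb x ⬝ᵥ fa y := by
  simp [E, fa, fb, dotProduct]

theorem E_add_left (x x' y : ι ⊕ ι → ℝ) : E (x + x') y = E x y + E x' y := by
  simp only [E, ← Finset.sum_add_distrib]
  exact Finset.sum_congr rfl fun i _ => by simp; ring

theorem E_add_right (x y y' : ι ⊕ ι → ℝ) : E x (y + y') = E x y + E x y' := by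
  simp only [E, ← Finset.sum_add_distrib]
  exact Finset.sum_congr rfl fun i _ => by simp; ring

theorem E_smul_left (c : ℝ) (x y : ι ⊕ ι → ℝ) : E (c • x) y = c * E x y := by
  simp only [E, Finset.mul_sum]
  exact Finset.sum_congr rfl fun i _ => by simp; ring

theorem E_smul_right (c : ℝ) (x y : ι ⊕ ι → ℝ) : E x (c • y) = c * E x y := by
  simp only [E, Finset.mul_sum]
  exact Finset.sum_congr rfl fun i _ => by simp; ring

theorem E_swap (x y : ι ⊕ ι → ℝ) : E y x = -E x y := by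
  simp only [E, ← Finset.sum_neg_distrib]
  exact Finset.sum_congr rfl fun i _ => by ring

@[simp] theorem E_self (x : ι ⊕ ι → ℝ) : E x x = 0 := by
  have := E_swap x x
  linarith

theorem E_neg_left (x y : ι ⊕ ι → ℝ) : E (-x) y = -E x y := by
  rw [← neg_one_smul ℝ x, E_smul_left, neg_one_mul]

theorem E_neg_right (x y : ι ⊕ ι → ℝ) : E x (-y) = -E x y := by
  rw [← neg_one_smul ℝ y, E_smul_right, neg_one_mul]

theorem E_sub_left (x x' y : ι ⊕ ι → ℝ) : E (x - x') y = E x y - E x' y := by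
  rw [sub_eq_add_neg, E_add_left, E_neg_left, sub_eq_add_neg]

theorem E_sub_right (x y y' : ι ⊕ ι → ℝ) : E x (y - y') = E x y - E x y' := by
  rw [sub_eq_add_neg, E_add_right, E_neg_right, sub_eq_add_neg]

@[simp] theorem E_zero_left (y : ι ⊕ ι → ℝ) : E 0 y = 0 := by simp [E]

@[simp] theorem E_zero_right (x : ι ⊕ ι → ℝ) : E x 0 = 0 := by simp [E]

theorem E_rz (n n' : ι ⊕ ι → ℤ) : ∃ k : ℤ, E (rz n) (rz n') = k :=
  ⟨∑ i, (n (Sum.inl i) * n' (Sum.inr i) - n (Sum.inr i) * n' (Sum.inl i)), by simp [E, rz]⟩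

theorem ee_E_rz (n n' : ι ⊕ ι → ℤ) : ee (E (rz n) (rz n')) = 1 := by
  obtain ⟨k, hk⟩ := E_rz n n'
  rw [hk]
  exact_mod_cast ee_int k

/-- The lattice is self dual. -/
theorem exists_rz_of_E {d : ι ⊕ ι → ℝ} (h : ∀ n : ι ⊕ ι → ℤ, ee (E d (rz n)) = 1) :
    ∃ n : ι ⊕ ι → ℤ, d = rz n := by
  classical
  have key : ∀ s, ∃ k : ℤ, d s = k := by
    rintro (i | i)
    · obtain ⟨k, hk⟩ := ee_eq_one_iff.mp (h (Pi.single (Sum.inr i) 1))
      refine ⟨k, ?_⟩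
      have : E d (rz (Pi.single (Sum.inr i) 1)) = d (Sum.inl i) := by
        simp [E, rz, Pi.single_apply]
      rw [this] at hk
      exact_mod_cast hk
    · obtain ⟨k, hk⟩ := ee_eq_one_iff.mp (h (Pi.single (Sum.inl i) (-1)))
      refine ⟨k, ?_⟩
      have : E d (rz (Pi.single (Sum.inl i) (-1))) = d (Sum.inr i) := by
        simp [E, rz, Pi.single_apply, apply_ite]
      rw [this] at hk
      exact_mod_cast hk
  choose n hn using key
  exact ⟨n, funext hn⟩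

theorem chi_eq (n : ι ⊕ ι → ℤ) : chi n = ee (fa (rz n) ⬝ᵥ fb (rz n) / 2) := by
  rw [fa_rz, fb_rz, cz_dot, ee_half_int]
  rfl

theorem chi_sq (n : ι ⊕ ι → ℤ) : chi n ^ 2 = 1 := by
  rw [chi, ← zpow_natCast, ← _root_.zpow_mul, mul_comm, _root_.zpow_mul]
  simp

theorem chi_ne_zero (n : ι ⊕ ι → ℤ) : chi n ≠ 0 := zpow_ne_zero _ (by norm_num)

theorem norm_chi (n : ι ⊕ ι → ℤ) : ‖chi n‖ = 1 := by simp [chi]

theorem chi_smul (k : ℤ) (n : ι ⊕ ι → ℤ) : chi (k • n) = chi n ^ (k ^ 2) := by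
  rw [chi, chi, ← _root_.zpow_mul, Finset.sum_mul]
  congr 1
  exact Finset.sum_congr rfl fun i _ => by simp; ring

theorem symm_dot {τ : Matrix ι ι ℂ} (hτ : τ.IsSymm) (u v : ι → ℂ) :
    u ⬝ᵥ τ *ᵥ v = v ⬝ᵥ τ *ᵥ u := by
  rw [dotProduct_mulVec, ← mulVec_transpose, hτ.eq, dotProduct_comm]

theorem fa_per_sub {τ : Matrix ι ι ℂ} (hτ : τ.IsSymm) (x y : ι ⊕ ι → ℝ) :
    fa x ⬝ᵥ per τ y - fa y ⬝ᵥ per τ x = E x y := by
  rw [E_cast, per, per, dotProduct_add, dotProduct_add, symm_dot hτ (fa x),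
    dotProduct_comm (fb x)]
  ring

theorem U_apply (m : ℝ) (y : ι ⊕ ι → ℝ) (f : (ι ⊕ ι → ℝ) → ℂ) (x : ι ⊕ ι → ℝ) :
    U m y f x = ee (m * E y x / 2) * f (x + y) := rfl

@[simp] theorem U_zero (m : ℝ) (f : (ι ⊕ ι → ℝ) → ℂ) : U m 0 f = f := by funext x; simp [U]

theorem U_at_zero (m : ℝ) (y : ι ⊕ ι → ℝ) (f : (ι ⊕ ι → ℝ) → ℂ) : U m y f 0 = f y := by simp [U]

theorem U_U (m : ℝ) (y y' : ι ⊕ ι → ℝ) (f : (ι ⊕ ι → ℝ) → ℂ) :
    U m y (U m y' f) = ee (m * E y' y / 2) • U m (y + y') f := by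
  funext x
  simp only [U, Pi.smul_apply, smul_eq_mul, ← mul_assoc, ← ee_add, add_assoc, E_add_left,
    E_add_right]
  congr 2
  push_cast
  ring

theorem U_comm (m : ℝ) (y y' : ι ⊕ ι → ℝ) (f : (ι ⊕ ι → ℝ) → ℂ) :
    U m y (U m y' f) = ee (m * E y' y) • U m y' (U m y f) := by
  rw [U_U, U_U, smul_smul, ← ee_add, add_comm y' y, E_swap y' y]
  congr 2
  push_cast
  ring

theorem U_add (m : ℝ) (y : ι ⊕ ι → ℝ) (f g : (ι ⊕ ι → ℝ) → ℂ) :
    U m y (f + g) = U m y f + U m y g := by funext x; simp [U, mul_add]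

theorem U_smul (m : ℝ) (y : ι ⊕ ι → ℝ) (c : ℂ) (f : (ι ⊕ ι → ℝ) → ℂ) :
    U m y (c • f) = c • U m y f := by funext x; simp [U, mul_left_comm]

/-- The Heisenberg operator as a linear map. -/
noncomputable def Ul (m : ℝ) (y : ι ⊕ ι → ℝ) :
    ((ι ⊕ ι → ℝ) → ℂ) →ₗ[ℂ] ((ι ⊕ ι → ℝ) → ℂ) where
  toFun := U m y
  map_add' := U_add m y
  map_smul' := U_smul m y

theorem U_sum {α : Type} (m : ℝ) (y : ι ⊕ ι → ℝ) (s : Finset α) (f : α → (ι ⊕ ι → ℝ) → ℂ) :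
    U m y (∑ a ∈ s, f a) = ∑ a ∈ s, U m y (f a) := map_sum (Ul m y) f s

theorem U_mul (m n : ℝ) (y : ι ⊕ ι → ℝ) (f g : (ι ⊕ ι → ℝ) → ℂ) :
    U (m + n) y (f * g) = U m y f * U n y g := by
  funext x
  simp only [U, Pi.mul_apply]
  rw [mul_mul_mul_comm, ← ee_add]
  congr 2
  push_cast
  ring

theorem U_neg_U (m : ℝ) (y : ι ⊕ ι → ℝ) (f : (ι ⊕ ι → ℝ) → ℂ) : U m (-y) (U m y f) = f := by
  simp [U_U, E_neg_right]

theorem U_eq_zero {m : ℝ} {y : ι ⊕ ι → ℝ} {f : (ι ⊕ ι → ℝ) → ℂ} : U m y f = 0 ↔ f = 0 := by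
  refine ⟨fun h => ?_, fun h => by funext x; simp [U, h]⟩
  rw [← U_neg_U m y f, h]
  funext x
  simp [U]

/-- Heisenberg operators commute with similitudes. -/
theorem U_comp {κ : Type} [Fintype κ] (φ : (κ ⊕ κ → ℝ) →ₗ[ℝ] (ι ⊕ ι → ℝ)) {ν : ℝ}
    (hE : ∀ x y, E (φ x) (φ y) = ν * E x y) (m : ℝ) (y : κ ⊕ κ → ℝ) (f : (ι ⊕ ι → ℝ) → ℂ) :
    U (m * ν) y (f ∘ φ) = U m (φ y) f ∘ φ := by
  funext x
  simp only [U, Function.comp, map_add, hE]
  congr 2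
  push_cast
  ring

theorem U_scale (c m : ℝ) (y : ι ⊕ ι → ℝ) (f : (ι ⊕ ι → ℝ) → ℂ) :
    U (m * c ^ 2) y (fun x => f (c • x)) = fun x => U m (c • y) f (c • x) := by
  funext x
  simp only [U, smul_add, E_smul_left, E_smul_right]
  congr 2
  push_cast
  ring

end M4
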