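import Mathlib
import Pool.Agent.Lib.MP_33b3f9_ag.M4.ThDefs
import Pool.Agent.Lib.MP_07b2d0_nt.FA
import Pool.Agent.Lib.MP_a47f92_an.G.Osg

/-!
Convergence and holomorphy of theta series.
-/

set_option autoImplicit false

namespace M4

open Complex Matrix

open Filter Topology

variable {ι : Type} [Fintype ι]

/-- The general term of the theta series. -/
noncomputable def term (τ : Matrix ι ι ℂ) (η : ι ⊕ ι → ℝ) (z : ι → ℂ) (n : ι → ℤ) : ℂ :=
  ee ((cz n + fa η) ⬝ᵥ τ *ᵥ (cz n + fa η) / 2 + (cz n + fa η) ⬝ᵥ (z + fb η))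

theorem thc_eq (τ : Matrix ι ι ℂ) (η : ι ⊕ ι → ℝ) (z : ι → ℂ) :
    thc τ η z = ∑' n, term τ η z n := rfl

/-- Arrays whose imaginary part defines a positive definite quadratic form. -/
def PosIm (ι : Type) [Fintype ι] : Set (ι → ι → ℂ) :=
  {τ | ∀ x : ι → ℝ, x ≠ 0 → 0 < ∑ i, ∑ j, (τ i j).im * x i * x j}

theorem ths_loc {τ₀ : ι → ι → ℂ} (h : τ₀ ∈ PosIm ι) : ∃ c : ℝ, 0 < c ∧ ∀ᶠ τ in 𝓝 τ₀,
    ∀ x : ι → ℝ, c * ∑ i, x i ^ 2 ≤ ∑ i, ∑ j, (τ i j).im * x i * x j := by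
  let q : (ι → ι → ℂ) → (ι → ℝ) → ℝ := fun τ x => ∑ i, ∑ j, (τ i j).im * x i * x j
  have hq : Continuous fun p : (ι → ι → ℂ) × (ι → ℝ) => q p.1 p.2 := by fun_prop
  obtain ⟨c, hc, h0⟩ := (isCompact_sphere (0 : ι → ℝ) 1).exists_forall_le' (f := q τ₀)
    (by fun_prop) (a := 0) fun x hx => h x (by rintro rfl; simp at hx)
  refine ⟨c / 2 / (Fintype.card ι + 1), by positivity, ?_⟩
  filter_upwards [(isCompact_sphere (0 : ι → ℝ) 1).eventually_forall_of_forall_eventually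
    (x₀ := τ₀) (P := fun τ x => c / 2 < q τ x) fun x hx => hq.continuousAt.eventually_const_lt
      ((half_lt_self hc).trans_le (h0 x hx))] with τ hτ x
  by_cases hx : x = 0
  · simp [hx]
  have hn : 0 < ‖x‖ := norm_pos_iff.mpr hx
  have h1 := (hτ (‖x‖⁻¹ • x) (by simp [norm_smul, hn.ne'])).le
  have h2 : q τ (‖x‖⁻¹ • x) * ‖x‖ ^ 2 = q τ x := by
    simp only [q, Pi.smul_apply, smul_eq_mul, Finset.sum_mul]
    exact Finset.sum_congr rfl fun i _ => Finset.sum_congr rfl fun j _ => by field_simp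
  have h3 : ∑ i, x i ^ 2 ≤ (Fintype.card ι + 1) * ‖x‖ ^ 2 := by
    have : ∑ i, x i ^ 2 ≤ ∑ _i : ι, ‖x‖ ^ 2 := Finset.sum_le_sum fun i _ => by
      rw [← sq_abs]
      exact pow_le_pow_left₀ (abs_nonneg _) (norm_le_pi_norm x i) 2
    rw [Finset.sum_const, Finset.card_univ, nsmul_eq_mul] at this
    nlinarith [sq_nonneg ‖x‖]
  change _ ≤ q τ x
  rw [← h2, div_mul_eq_mul_div, div_le_iff₀ (by positivity)]
  calc c / 2 * ∑ i, x i ^ 2 ≤ c / 2 * ((Fintype.card ι + 1) * ‖x‖ ^ 2) := by gcongr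
    _ = c / 2 * ‖x‖ ^ 2 * (Fintype.card ι + 1) := by ring
    _ ≤ _ := by gcongr

theorem ths_form (Y : Matrix ι ι ℝ) (x : ι → ℝ) :
    x ⬝ᵥ Y *ᵥ x = ∑ i, ∑ j, Y i j * x i * x j := by
  simp only [dotProduct, mulVec, Finset.mul_sum]
  exact Finset.sum_congr rfl fun i _ => Finset.sum_congr rfl fun j _ => by ring

theorem ths_norm (τ : Matrix ι ι ℂ) (η : ι ⊕ ι → ℝ) (z : ι → ℂ) (n : ι → ℤ) :
    ‖term τ η z n‖ = Real.exp (-Real.pi * ((rz n + η ∘ Sum.inl) ⬝ᵥ τ.map im *ᵥ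
      (rz n + η ∘ Sum.inl) + 2 * ∑ i, ((n i : ℝ) + η (Sum.inl i)) * (z i).im)) := by
  have e : ∀ t : ℂ, (2 * Real.pi * I * t).re = -Real.pi * (2 * t.im) := fun t => by
    simp
    ring
  rw [term, ee, norm_exp, e]
  congr 2
  simp [dotProduct, mulVec, im_sum, re_sum, cz, fa, fb, rz]
  ring

/-- Compactness of the unit sphere (see `coercive` in FA for the pattern). -/
theorem isOpen_posIm : IsOpen (PosIm ι) := by
  refine isOpen_iff_mem_nhds.2 fun τ₀ h => ?_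
  obtain ⟨c, hc, h1⟩ := ths_loc h
  filter_upwards [h1] with τ hτ x hx
  obtain ⟨i, hi⟩ := Function.ne_iff.1 hx
  exact (mul_pos hc (Finset.sum_pos' (fun j _ => sq_nonneg _)
    ⟨i, Finset.mem_univ i, sq_pos_iff.2 hi⟩)).trans_le (hτ x)

theorem InH.posIm {τ : Matrix ι ι ℂ} (h : InH τ) : (fun i j => τ i j) ∈ PosIm ι := by
  intro x hx
  have h1 := h.2.dotProduct_mulVec_pos hx
  rwa [star_trivial, ths_form] at h1

theorem InH.smul {τ : Matrix ι ι ℂ} (h : InH τ) {m : ℕ} (hm : m ≠ 0) : InH ((m : ℂ) • τ) := by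
  refine ⟨h.1.smul _, ?_⟩
  have e : ((m : ℂ) • τ).map im = (m : ℝ) • τ.map im := by
    ext i j
    simp
  rw [e]
  exact h.2.smul (Nat.cast_pos.2 (Nat.pos_of_ne_zero hm))

/-- Near a point the form is at least `c |x|^2`, and the norm of the term is at most
`exp (C - π c' ∑ n_i^2 + C ∑ |n_i|)`; use `summable_pi` and
`summable_pow_mul_jacobiTheta₂_term_bound`. -/
theorem term_loc_bound {p₀ : (ι → ι → ℂ) × (ι ⊕ ι → ℝ) × (ι → ℂ)} (h : p₀.1 ∈ PosIm ι) :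
    ∃ u : (ι → ℤ) → ℝ, Summable u ∧
      ∀ᶠ p in 𝓝 p₀, ∀ n, ‖term (Matrix.of p.1) p.2.1 p.2.2 n‖ ≤ u n := by
  classical
  obtain ⟨c, hc, h1⟩ := ths_loc h
  obtain ⟨R, hR⟩ := exists_gt ‖p₀.2‖
  have h2 := (summable_pow_mul_jacobiTheta₂_term_bound (c * R + R) hc 0).mul_left
    (Real.exp (Real.pi * (2 * R ^ 2)))
  refine ⟨_, Pool.Agent.Lib.MP_07b2d0_nt.Sch.summable_pi h2 fun n => by positivity, ?_⟩
  filter_upwards [continuous_fst.continuousAt.eventually h1,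
    continuous_snd.norm.continuousAt.eventually_lt_const hR] with p h3 h4 n
  simp only [pow_zero, one_mul, ← Real.exp_add]
  rw [ths_norm, ← Real.exp_sum, Real.exp_le_exp, ths_form]
  refine (mul_le_mul_of_nonpos_left (add_le_add_left (h3 _) _)
    (neg_nonpos.2 Real.pi_pos.le)).trans ?_
  rw [Finset.mul_sum, Finset.mul_sum, ← Finset.sum_add_distrib, Finset.mul_sum]
  refine Finset.sum_le_sum fun i _ => ?_
  have h5 : |p.2.1 (Sum.inl i)| ≤ R :=
    (norm_le_pi_norm p.2.1 _).trans ((norm_fst_le p.2).trans h4.le)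
  have h6 : |(p.2.2 i).im| ≤ R := (abs_im_le_norm _).trans
    ((norm_le_pi_norm p.2.2 _).trans ((norm_snd_le p.2).trans h4.le))
  simp only [Pi.add_apply, rz, Function.comp, Int.cast_abs]
  generalize p.2.1 (Sum.inl i) = a at h5
  generalize (p.2.2 i).im = w at h6
  generalize (n i : ℝ) = t
  have h7 : ∀ s v : ℝ, |v| ≤ R → -(|s| * R) ≤ s * v := fun s v hv => by
    refine neg_le_of_abs_le ?_
    rw [abs_mul]
    exact mul_le_mul_of_nonneg_left hv (abs_nonneg _)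
  have h8 := mul_le_mul_of_nonneg_left (h7 t a h5) hc.le
  have h9 := mul_le_mul_of_nonneg_right h5 ((abs_nonneg _).trans h5)
  have h10 : c * t ^ 2 - 2 * (c * R + R) * |t| - 2 * R ^ 2 ≤
      c * (t + a) ^ 2 + 2 * ((t + a) * w) := by
    nlinarith [h7 t w h6, h7 a w h6, mul_nonneg hc.le (sq_nonneg a)]
  linarith [mul_le_mul_of_nonneg_left h10 Real.pi_pos.le]

theorem summable_norm_term {τ : Matrix ι ι ℂ} (hτ : InH τ) (η : ι ⊕ ι → ℝ) (z : ι → ℂ) :
    Summable fun n => ‖term τ η z n‖ := by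
  obtain ⟨u, hu, h⟩ := term_loc_bound (p₀ := (fun i j => τ i j, η, z)) hτ.posIm
  exact Summable.of_nonneg_of_le (fun _ => norm_nonneg _) h.self_of_nhds hu

/-- Locally normally convergent series of holomorphic functions of several variables:
Cauchy estimate `Osg.norm_fderiv_le_of_ball` and `hasFDerivAt_tsum_of_isPreconnected`. -/
theorem differentiableOn_tsum_fd {α W : Type} [NormedAddCommGroup W] [NormedSpace ℂ W]
    {f : α → W → ℂ} {s : Set W} (hs : IsOpen s) (hd : ∀ n, DifferentiableOn ℂ (f n) s)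
    (hb : ∀ x ∈ s, ∃ u : α → ℝ, Summable u ∧ ∀ᶠ y in 𝓝 x, ∀ n, ‖f n y‖ ≤ u n) :
    DifferentiableOn ℂ (fun y => ∑' n, f n y) s := by
  intro x hx
  obtain ⟨u, hu, h⟩ := hb x hx
  obtain ⟨r, hr, h1⟩ := Metric.eventually_nhds_iff_ball.1 (h.and (hs.mem_nhds hx))
  have h2 := half_pos hr
  have h3 : ∀ y ∈ Metric.ball x (r / 2), Metric.ball y (r / 2) ⊆ Metric.ball x r := fun y hy =>
    Metric.ball_subset_ball' (by linarith [Metric.mem_ball.1 hy])
  refine (hasFDerivAt_tsum_of_isPreconnected (f' := fun n y => fderiv ℂ (f n) y)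
    ((hu.mul_left 2).div_const (r / 2)) Metric.isOpen_ball (convex_ball x (r / 2)).isPreconnected
    (fun n y hy => ?_) (fun n y hy => ?_) (Metric.mem_ball_self h2)
    (Summable.of_norm_bounded hu h.self_of_nhds)
    (Metric.mem_ball_self h2)).differentiableAt.differentiableWithinAt
  · exact ((hd n).differentiableAt
      (hs.mem_nhds (h1 y (h3 y hy (Metric.mem_ball_self h2))).2)).hasFDerivAt
  · exact Pool.Agent.Lib.MP_a47f92_an.Osg.norm_fderiv_le_of_ball h2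
      ((hd n).mono fun w hw => (h1 w (h3 y hy hw)).2) fun w hw => (h1 w (h3 y hy hw)).1 n

theorem continuousOn_thc : ContinuousOn
    (fun p : (ι → ι → ℂ) × (ι ⊕ ι → ℝ) × (ι → ℂ) => thc (Matrix.of p.1) p.2.1 p.2.2)
    (PosIm ι ×ˢ Set.univ) := by
  intro p hp
  obtain ⟨u, hu, h⟩ := term_loc_bound hp.1
  obtain ⟨s, hs, h1⟩ := h.exists_mem
  have h2 : ∀ n, Continuous fun q : (ι → ι → ℂ) × (ι ⊕ ι → ℝ) × (ι → ℂ) =>
      term (Matrix.of q.1) q.2.1 q.2.2 n := fun n => by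
    simp only [term, ee, dotProduct, mulVec, cz, fa, fb, Pi.add_apply, of_apply]
    fun_prop
  simp only [thc_eq]
  exact ((continuousOn_tsum (fun n => (h2 n).continuousOn) hu
    fun n q hq => h1 q hq n).continuousAt hs).continuousWithinAt

theorem differentiableOn_thc (η : ι ⊕ ι → ℝ) : DifferentiableOn ℂ
    (fun p : (ι → ι → ℂ) × (ι → ℂ) => thc (Matrix.of p.1) η p.2) (PosIm ι ×ˢ Set.univ) := by
  refine differentiableOn_tsum_fd (f := fun n (p : (ι → ι → ℂ) × (ι → ℂ)) =>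
    term (Matrix.of p.1) η p.2 n) (isOpen_posIm.prod isOpen_univ)
    (fun n => Differentiable.differentiableOn ?_) fun p hp => ?_
  · simp only [term, ee, dotProduct, mulVec, cz, fa, fb, Pi.add_apply, of_apply]
    fun_prop
  · obtain ⟨u, hu, h⟩ := term_loc_bound (p₀ := (p.1, η, p.2)) hp.1
    have h1 : Continuous fun q : (ι → ι → ℂ) × (ι → ℂ) => (q.1, η, q.2) := by fun_prop
    exact ⟨u, hu, h1.continuousAt.eventually h⟩

theorem differentiable_thc {τ : Matrix ι ι ℂ} (hτ : InH τ) (η : ι ⊕ ι → ℝ) :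
    Differentiable ℂ (thc τ η) := by
  refine differentiableOn_univ.1 ((differentiableOn_thc η).comp
    (f := fun z : ι → ℂ => ((fun i j => τ i j), z)) (by fun_prop) fun z _ => ⟨hτ.posIm, trivial⟩)

theorem differentiableOn_Th (x : ι ⊕ ι → ℝ) :
    DifferentiableOn ℂ (fun τ : ι → ι → ℂ => Th (Matrix.of τ) x) (PosIm ι) := by
  exact ((differentiableOn_thc x).comp (f := fun τ : ι → ι → ℂ => (τ, (0 : ι → ℂ))) (by fun_prop)
    fun τ hτ => ⟨hτ, trivial⟩).const_mul _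

theorem norm_term_zero (τ : Matrix ι ι ℂ) (x : ι ⊕ ι → ℝ) (n : ι → ℤ) : ‖term τ x 0 n‖ =
    Real.exp (-Real.pi * ((rz n + x ∘ Sum.inl) ⬝ᵥ τ.map im *ᵥ (rz n + x ∘ Sum.inl))) := by
  simp [ths_norm]

theorem norm_Th_le {τ : Matrix ι ι ℂ} (hτ : InH τ) (x : ι ⊕ ι → ℝ) : ‖Th τ x‖ ≤ ∑' n : ι → ℤ,
    Real.exp (-Real.pi * ((rz n + x ∘ Sum.inl) ⬝ᵥ τ.map im *ᵥ (rz n + x ∘ Sum.inl))) := by
  have e : ‖ee (-(fa x ⬝ᵥ fb x) / 2)‖ = 1 := by
    rw [ee, norm_exp, Real.exp_eq_one_iff]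
    simp [dotProduct, im_sum, fa, fb]
  rw [Th, norm_mul, e, one_mul, thc_eq]
  exact (norm_tsum_le_tsum_norm (summable_norm_term hτ x 0)).trans_eq
    (tsum_congr (norm_term_zero τ x))

theorem continuousOn_Th : ContinuousOn
    (fun p : (ι → ι → ℂ) × (ι ⊕ ι → ℝ) => Th (Matrix.of p.1) p.2) (PosIm ι ×ˢ Set.univ) := by
  refine ContinuousOn.mul (Continuous.continuousOn ?_) (continuousOn_thc.comp
    (f := fun p : (ι → ι → ℂ) × (ι ⊕ ι → ℝ) => (p.1, p.2, (0 : ι → ℂ))) (by fun_prop)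
    fun p hp => ⟨hp.1, trivial⟩)
  simp only [ee, dotProduct, fa, fb]
  fun_prop

end M4
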