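import Mathlib
import Pool.Agent.Lib.MP_33b3f9_ag.M4.ThAlg
import Pool.Agent.Lib.MP_33b3f9_ag.M4.ThSum

/-!
Basic properties of theta functions and of the spaces of sections.
-/

set_option autoImplicit false

namespace M4

open Complex Matrix

variable {ι : Type} [Fintype ι] {τ : Matrix ι ι ℂ}

theorem thc_add (hτ : τ.IsSymm) (η x : ι ⊕ ι → ℝ) (z : ι → ℂ) :
    thc τ (η + x) z = ee (fa x ⬝ᵥ τ *ᵥ fa x / 2 + fa x ⬝ᵥ (z + fb η + fb x)) *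
      thc τ η (z + per τ x) := by
  rw [thc, thc, ← tsum_mul_left]
  refine tsum_congr fun n => ?_
  rw [← ee_add, fa_add, fb_add, ← add_assoc (cz n)]
  generalize cz n + fa η = p
  simp only [per, mulVec_add, add_dotProduct, dotProduct_add, symm_dot hτ (fa x) p]
  congr 1
  ring

theorem thc_add_int (τ : Matrix ι ι ℂ) (η : ι ⊕ ι → ℝ) (n : ι ⊕ ι → ℤ) (z : ι → ℂ) :
    thc τ (η + rz n) z = ee (fa η ⬝ᵥ fb (rz n)) * thc τ η z := by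
  rw [thc, thc, ← tsum_mul_left, ← (Equiv.subRight (n ∘ Sum.inl)).tsum_eq]
  refine tsum_congr fun k => ?_
  have e : cz (Equiv.subRight (n ∘ Sum.inl) k) + fa (η + rz n) = cz k + fa η := by
    funext i
    simp [cz, fa, rz]
  rw [e, ← ee_add, fb_add, ← add_assoc z, dotProduct_add _ (z + fb η), add_dotProduct _ _ (fb (rz n)),
    fb_rz, cz_dot, ← add_assoc, ← add_assoc, ee_add, ee_add _ ((_ : ℤ) : ℂ), ee_int, mul_one,
    ← ee_add]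
  congr 1
  ring

theorem thc_neg (τ : Matrix ι ι ℂ) (η : ι ⊕ ι → ℝ) (z : ι → ℂ) :
    thc τ (-η) (-z) = thc τ η z := by
  rw [thc, thc, ← (Equiv.neg _).tsum_eq]
  refine tsum_congr fun k => ?_
  rw [Equiv.neg_apply, cz_neg, fa_neg, fb_neg, ← neg_add, ← neg_add]
  simp only [mulVec_neg, dotProduct_neg, neg_dotProduct, neg_neg]

theorem U_Th (hτ : τ.IsSymm) (η x : ι ⊕ ι → ℝ) :
    U 1 η (Th τ) x = ee (fa x ⬝ᵥ per τ x / 2 - fa η ⬝ᵥ fb η / 2) * thc τ η (per τ x) := by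
  rw [U, Th, add_comm x, thc_add hτ, zero_add, zero_add, ← mul_assoc, ← mul_assoc, ← ee_add,
    ← ee_add, E_cast]
  simp only [per, fa_add, fb_add, add_dotProduct, dotProduct_add, dotProduct_comm (fb η)]
  congr 2
  push_cast
  ring

theorem Th_eq (hτ : τ.IsSymm) (x : ι ⊕ ι → ℝ) :
    Th τ x = ee (fa x ⬝ᵥ per τ x / 2) * thc τ 0 (per τ x) := by
  simpa using U_Th hτ 0 x

theorem Th_neg (τ : Matrix ι ι ℂ) (x : ι ⊕ ι → ℝ) : Th τ (-x) = Th τ x := by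
  rw [Th, Th, ← thc_neg τ x, neg_zero, fa_neg, fb_neg, neg_dotProduct, dotProduct_neg, neg_neg]

theorem U_rz_Th (τ : Matrix ι ι ℂ) (n : ι ⊕ ι → ℤ) : U 1 (rz n) (Th τ) = chi n • Th τ := by
  funext x
  have h : chi n = ee (-(fa (rz n) ⬝ᵥ fb (rz n)) / 2) := by
    rw [neg_div, ee_neg, ← chi_eq]
    exact eq_inv_of_mul_eq_one_left (by rw [← sq, chi_sq])
  rw [U, Pi.smul_apply, smul_eq_mul, Th, Th, thc_add_int, h, E_cast]
  simp only [← mul_assoc, ← ee_add, fa_add, fb_add, add_dotProduct, dotProduct_add,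
    dotProduct_comm (fb (rz n)), dotProduct_comm (fa (rz n)) (fb x)]
  congr 2
  push_cast
  ring

theorem XX_eq (hτ : τ.IsSymm) (k : ι ⊕ ι → ℤ) (x : ι ⊕ ι → ℝ) :
    XX τ k x = ee (2 * (fa x ⬝ᵥ per τ x) - fa (hf k) ⬝ᵥ fb (hf k) / 2) *
      thc τ (hf k) ((2 : ℂ) • per τ x) := by
  rw [XX, U_Th hτ, per_smul, fa_smul, smul_dotProduct, dotProduct_smul]
  congr 2
  simp only [smul_eq_mul]
  push_cast
  ring

theorem XX_zero (τ : Matrix ι ι ℂ) (k : ι ⊕ ι → ℤ) : XX τ k 0 = Th τ (hf k) := by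
  rw [XX, smul_zero, U_at_zero]

theorem U_add_rz_Th (τ : Matrix ι ι ℂ) (η : ι ⊕ ι → ℝ) (n : ι ⊕ ι → ℤ) :
    U 1 (η + rz n) (Th τ) = (chi n * ee (E η (rz n) / 2)) • U 1 η (Th τ) := by
  have h := U_U 1 η (rz n) (Th τ)
  rw [U_rz_Th, U_smul] at h
  rw [mul_comm, ← smul_smul, h, smul_smul, ← ee_add, E_swap η]
  simp [neg_div]

theorem XX_add_two (τ : Matrix ι ι ℂ) (k n : ι ⊕ ι → ℤ) :
    XX τ (k + (2 : ℤ) • n) = (chi n * ee (E (hf k) (rz n) / 2)) • XX τ k := by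
  funext x
  rw [XX, hf_add, hf_two, U_add_rz_Th]
  rfl

theorem mem_Hol {m : ℝ} {f : (ι ⊕ ι → ℝ) → ℂ} : f ∈ Hol τ m ↔ ∃ F : (ι → ℂ) → ℂ,
    Differentiable ℂ F ∧ ∀ x, f x = ee (m * (fa x ⬝ᵥ per τ x) / 2) * F (per τ x) := Iff.rfl

theorem mem_Gam {m : ℕ} {c : ι ⊕ ι → ℝ} {f : (ι ⊕ ι → ℝ) → ℂ} : f ∈ Gam τ m c ↔ f ∈ Hol τ m ∧
    ∀ n : ι ⊕ ι → ℤ, U m (rz n) f = (chi n ^ m * ee (E c (rz n))) • f := Iff.rfl

theorem Hol.mul {m n : ℝ} {f g : (ι ⊕ ι → ℝ) → ℂ} (hf : f ∈ Hol τ m) (hg : g ∈ Hol τ n) :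
    f * g ∈ Hol τ (m + n) := by
  obtain ⟨F, hF, hf⟩ := hf
  obtain ⟨G, hG, hg⟩ := hg
  refine ⟨F * G, hF.mul hG, fun x => ?_⟩
  rw [Pi.mul_apply, Pi.mul_apply, hf, hg, mul_mul_mul_comm, ← ee_add]
  congr 2
  push_cast
  ring

theorem Hol.one : (1 : (ι ⊕ ι → ℝ) → ℂ) ∈ Hol τ 0 :=
  ⟨1, differentiable_const 1, fun x => by simp⟩

theorem differentiable_dot (u : ι → ℂ) : Differentiable ℂ fun z : ι → ℂ => u ⬝ᵥ z := by
  unfold dotProduct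
  fun_prop

theorem Hol.U (hτ : τ.IsSymm) {m : ℝ} {f : (ι ⊕ ι → ℝ) → ℂ} (hf : f ∈ Hol τ m)
    (y : ι ⊕ ι → ℝ) : U m y f ∈ Hol τ m := by
  obtain ⟨F, hF, hf⟩ := hf
  refine ⟨fun z => ee (m * (fa y ⬝ᵥ z) + m * (fa y ⬝ᵥ per τ y) / 2) * F (z + per τ y), ?_,
    fun x => ?_⟩
  · exact (differentiable_ee.comp (((differentiable_dot _).const_mul _).add_const _)).mul
      (hF.comp (differentiable_id.add_const _))
  · rw [U_apply, hf, ← fa_per_sub hτ, per_add, fa_add]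
    simp only [← mul_assoc, ← ee_add, add_dotProduct, dotProduct_add]
    congr 2
    ring

/-- Transport of holomorphy along a complex linear similitude. -/
theorem Hol.comp {κ : Type} [Fintype κ] {τ' : Matrix κ κ ℂ} (hτ : τ.IsSymm) (hτ' : τ'.IsSymm)
    (φ : (κ ⊕ κ → ℝ) →ₗ[ℝ] (ι ⊕ ι → ℝ)) (M : Matrix ι κ ℂ) {ν : ℝ}
    (hper : ∀ x, per τ (φ x) = M *ᵥ per τ' x) (hE : ∀ x y, E (φ x) (φ y) = ν * E x y)
    {m : ℝ} {f : (ι ⊕ ι → ℝ) → ℂ} (hf : f ∈ Hol τ m) : f ∘ φ ∈ Hol τ' (m * ν) := by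
  classical
  obtain ⟨F, hF, hf⟩ := hf
  let D : (κ ⊕ κ → ℝ) → (κ ⊕ κ → ℝ) → ℂ := fun x y =>
    fa (φ x) ⬝ᵥ per τ (φ y) - ν * (fa x ⬝ᵥ per τ' y)
  let e : κ → κ ⊕ κ → ℝ := fun j => Pi.single (Sum.inr j) 1
  have he : ∀ j, per τ' (e j) = Pi.single j 1 := fun j => by
    have h1 : fa (e j) = 0 := by funext i; simp [fa, e]
    have h2 : fb (e j) = Pi.single j 1 := by
      funext i; simp [fb, e, Pi.single_apply, apply_ite]
    rw [per, h1, h2, mulVec_zero, zero_add]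
  have hs : ∀ x y, D x y = D y x := fun x y => by
    have h1 := fa_per_sub hτ (φ x) (φ y)
    have h2 := fa_per_sub hτ' x y
    rw [hE] at h1
    push_cast at h1
    simp only [D]
    linear_combination h1 - ν * h2
  have hl : ∀ x y, D x y = ∑ j, per τ' y j * D x (e j) := fun x y => by
    have : ∀ y, D x y = (fa (φ x) ᵥ* M - (ν : ℂ) • fa x) ⬝ᵥ per τ' y := fun y => by
      simp only [D, hper, dotProduct_mulVec, sub_dotProduct, smul_dotProduct, smul_eq_mul]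
    simp only [this, he, dotProduct_single, mul_one]
    exact Finset.sum_congr rfl fun j _ => mul_comm _ _
  have hq : ∀ x, D x x = ∑ j, per τ' x j * ∑ i, per τ' x i * D (e j) (e i) := fun x => by
    rw [hl]
    exact Finset.sum_congr rfl fun j _ => by rw [hs, hl]
  refine ⟨fun z => ee (m * (∑ j, z j * ∑ i, z i * D (e j) (e i)) / 2) * F (M *ᵥ z), ?_,
    fun x => ?_⟩
  · refine (differentiable_ee.comp (by fun_prop)).mul (hF.comp ?_)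
    exact differentiable_pi.2 fun i => differentiable_dot (M i)
  · beta_reduce
    rw [Function.comp, hf, ← hq, ← mul_assoc, ← ee_add, ← hper]
    congr 2
    simp only [D]
    push_cast
    ring

theorem Hol.scale {m : ℝ} {f : (ι ⊕ ι → ℝ) → ℂ} (hf : f ∈ Hol τ m) (c : ℝ) :
    (fun x => f (c • x)) ∈ Hol τ (m * c ^ 2) := by
  obtain ⟨F, hF, hf⟩ := hf
  refine ⟨fun z => F ((c : ℂ) • z), hF.comp (by fun_prop), fun x => ?_⟩
  beta_reduce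
  rw [hf, per_smul, fa_smul, smul_dotProduct, dotProduct_smul]
  congr 2
  simp only [smul_eq_mul]
  push_cast
  ring

omit [Fintype ι] in
theorem continuous_fa : Continuous (fa : (ι ⊕ ι → ℝ) → ι → ℂ) := by
  unfold fa
  fun_prop

omit [Fintype ι] in
theorem continuous_fb : Continuous (fb : (ι ⊕ ι → ℝ) → ι → ℂ) := by
  unfold fb
  fun_prop

theorem continuous_per (τ : Matrix ι ι ℂ) : Continuous (per τ) :=
  (continuous_const.matrix_mulVec continuous_fa).add continuous_fb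

theorem Hol.continuous {m : ℝ} {f : (ι ⊕ ι → ℝ) → ℂ} (hf : f ∈ Hol τ m) : Continuous f := by
  obtain ⟨F, hF, hf⟩ := hf
  rw [funext hf]
  exact (differentiable_ee.continuous.comp ((continuous_const.mul
    (continuous_fa.dotProduct (continuous_per τ))).div_const _)).mul
    (hF.continuous.comp (continuous_per τ))

theorem Th_mem_Hol (hτ : InH τ) : Th τ ∈ Hol τ 1 :=
  ⟨thc τ 0, differentiable_thc hτ 0, fun x => by rw [Th_eq hτ.1]; simp⟩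

theorem Th_mem (hτ : InH τ) : Th τ ∈ Gam τ 1 0 :=
  ⟨by simpa using Th_mem_Hol hτ, fun n => by simp [U_rz_Th]⟩

theorem Gam.mul {m n : ℕ} {c c' : ι ⊕ ι → ℝ} {f g : (ι ⊕ ι → ℝ) → ℂ} (hf : f ∈ Gam τ m c)
    (hg : g ∈ Gam τ n c') : f * g ∈ Gam τ (m + n) (c + c') := by
  refine ⟨by exact_mod_cast Hol.mul hf.1 hg.1, fun l => ?_⟩
  rw [Nat.cast_add, U_mul, hf.2, hg.2, smul_mul_smul_comm, E_add_left, pow_add]
  push_cast
  rw [ee_add, mul_mul_mul_comm]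

theorem Gam.one : (1 : (ι ⊕ ι → ℝ) → ℂ) ∈ Gam τ 0 0 :=
  ⟨by simpa using Hol.one, fun n => by funext x; simp [U_apply]⟩

theorem Gam.U (hτ : τ.IsSymm) {m : ℕ} {c : ι ⊕ ι → ℝ} {f : (ι ⊕ ι → ℝ) → ℂ}
    (hf : f ∈ Gam τ m c) (t : ι ⊕ ι → ℝ) : U m t f ∈ Gam τ m (c + (m : ℝ) • t) := by
  refine ⟨Hol.U hτ hf.1 t, fun n => ?_⟩
  rw [U_comm, hf.2, U_smul, smul_smul, E_add_left, E_smul_left]
  push_cast
  rw [ee_add, mul_comm, mul_assoc]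

theorem Gam_add_rz (τ : Matrix ι ι ℂ) (m : ℕ) (c : ι ⊕ ι → ℝ) (n : ι ⊕ ι → ℤ) :
    Gam τ m (c + rz n) = Gam τ m c := by
  ext f
  simp only [mem_Gam, E_add_left, ofReal_add, ee_add, ee_E_rz, mul_one]

theorem Gam_rz (τ : Matrix ι ι ℂ) (m : ℕ) (n : ι ⊕ ι → ℤ) : Gam τ m (rz n) = Gam τ m 0 := by
  rw [← Gam_add_rz τ m 0 n, zero_add]

theorem Gam.U_div (hτ : τ.IsSymm) {m : ℕ} {c : ι ⊕ ι → ℝ} {f : (ι ⊕ ι → ℝ) → ℂ}
    (hf : f ∈ Gam τ m c) (n : ι ⊕ ι → ℤ) : M4.U m ((m : ℝ)⁻¹ • rz n) f ∈ Gam τ m c := by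
  have h := Gam.U hτ hf ((m : ℝ)⁻¹ • rz n)
  rcases eq_or_ne (m : ℝ) 0 with h0 | h0
  · simpa [h0] using hf
  · rwa [smul_smul, mul_inv_cancel₀ h0, one_smul, Gam_add_rz] at h

theorem U_Th_mem (hτ : InH τ) (η : ι ⊕ ι → ℝ) : U 1 η (Th τ) ∈ Gam τ 1 η := by
  simpa using Gam.U hτ.1 (Th_mem hτ) η

/-- Pull back under multiplication by `k`. -/
theorem Gam.scale {m : ℕ} {c : ι ⊕ ι → ℝ} {f : (ι ⊕ ι → ℝ) → ℂ} (hf : f ∈ Gam τ m c) (k : ℤ) :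
    (fun x => f ((k : ℝ) • x)) ∈ Gam τ (m * k.natAbs ^ 2) ((k : ℝ) • c) := by
  have hk : ((m * k.natAbs ^ 2 : ℕ) : ℝ) = m * (k : ℝ) ^ 2 := by
    push_cast
    rw [Nat.cast_natAbs, Int.cast_abs, sq_abs]
  refine ⟨hk ▸ Hol.scale hf.1 k, fun n => ?_⟩
  rw [hk, U_scale, ← rz_smul, hf.2, chi_smul, rz_smul, E_smul_left, E_smul_right,
    ← Int.natAbs_sq k, ← Nat.cast_pow, zpow_natCast, ← pow_mul, mul_comm m]
  rfl

theorem XX_mem (hτ : InH τ) (k : ι ⊕ ι → ℤ) : XX τ k ∈ Gam τ 4 0 := by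
  have h := Gam.scale (U_Th_mem hτ (hf k)) 2
  rw [Int.cast_ofNat, two_smul_hf, Gam_rz] at h
  exact h

theorem Gam.norm_add_rz {m : ℕ} {c : ι ⊕ ι → ℝ} {f : (ι ⊕ ι → ℝ) → ℂ} (hf : f ∈ Gam τ m c)
    (x : ι ⊕ ι → ℝ) (n : ι ⊕ ι → ℤ) : ‖f (x + rz n)‖ = ‖f x‖ := by
  have h := congrArg norm (congrFun (hf.2 n) x)
  have e : (((m : ℝ) : ℂ) * E (rz n) x / 2) = ((m * E (rz n) x / 2 : ℝ) : ℂ) := by push_cast; ring
  rw [U_apply, e] at h
  simpa only [norm_mul, norm_ee_real, one_mul, Pi.smul_apply, smul_eq_mul, norm_pow, norm_chi,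
    one_pow] using h

end M4
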