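import Mathlib
import Pool.Agent.Lib.MP_33b3f9_ag.M4.ThBas

/-!
The period map is bijective; identity theorems; boundedness.
-/

set_option autoImplicit false

namespace M4

open Complex Matrix

variable {ι : Type} [Fintype ι] {τ : Matrix ι ι ℂ}

theorem thid_re (τ : Matrix ι ι ℂ) (x : ι ⊕ ι → ℝ) :
    re ∘ per τ x = τ.map re *ᵥ (x ∘ Sum.inl) + x ∘ Sum.inr := by
  funext i
  simp [per, mulVec, dotProduct, fa, fb]

theorem thid_im (τ : Matrix ι ι ℂ) (x : ι ⊕ ι → ℝ) : im ∘ per τ x = τ.map im *ᵥ (x ∘ Sum.inl) := by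
  funext i
  simp [per, mulVec, dotProduct, fa, fb]

omit [Fintype ι] in
theorem thid_ext {z w : ι → ℂ} (h1 : re ∘ z = re ∘ w) (h2 : im ∘ z = im ∘ w) : z = w :=
  funext fun i => Complex.ext (congrFun h1 i) (congrFun h2 i)

/-- Take imaginary parts: `Y a = 0` gives `a = 0`; for surjectivity solve `Y a = im z`. -/
theorem per_bijective (hτ : InH τ) : Function.Bijective (per τ) := by
  classical
  have hY : IsUnit (τ.map im).det := (isUnit_iff_isUnit_det _).1 hτ.2.isUnit
  refine ⟨fun x y h => ?_, fun z => ?_⟩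
  · have h1 := thid_im τ x
    have h2 := thid_re τ x
    rw [h, thid_im] at h1
    have h3 := mulVec_injective_of_isUnit hτ.2.isUnit h1
    rw [h, thid_re, h3, add_right_inj] at h2
    funext i
    rcases i with i | i
    exacts [(congrFun h3 i).symm, (congrFun h2 i).symm]
  · refine ⟨Sum.elim ((τ.map im)⁻¹ *ᵥ (im ∘ z))
      (re ∘ z - τ.map re *ᵥ (τ.map im)⁻¹ *ᵥ (im ∘ z)), thid_ext ?_ ?_⟩
    · rw [thid_re, Sum.elim_comp_inl, Sum.elim_comp_inr, add_sub_cancel]
    · rw [thid_im, Sum.elim_comp_inl, mulVec_mulVec, mul_nonsing_inv _ hY, one_mulVec]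

theorem per_cst [DecidableEq ι] (hτ : InH τ) (x : ι ⊕ ι → ℝ) :
    per τ (cst τ *ᵥ x) = I • per τ x := by
  have hY : IsUnit (τ.map im).det := (isUnit_iff_isUnit_det _).1 hτ.2.isUnit
  have e1 : re ∘ (I • per τ x) = -(im ∘ per τ x) := by funext i; simp
  have e2 : im ∘ (I • per τ x) = re ∘ per τ x := by funext i; simp
  refine thid_ext ?_ ?_
  · rw [e1, thid_re, thid_im, cst, fromBlocks_mulVec, Sum.elim_comp_inl, Sum.elim_comp_inr]
    simp only [mulVec_add, neg_mulVec, add_mulVec, mulVec_mulVec, Matrix.mul_assoc]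
    abel
  · rw [e2, thid_re, thid_im, cst, fromBlocks_mulVec, Sum.elim_comp_inl, mulVec_add, mulVec_mulVec,
      mulVec_mulVec, mul_nonsing_inv_cancel_left _ _ hY, mul_nonsing_inv _ hY, one_mulVec]

theorem thid_line {F : (ι → ℂ) → ℂ} (hF : Differentiable ℂ F) (p v : ι → ℂ) :
    AnalyticOnNhd ℂ (fun s : ℂ => F (p + s • v)) Set.univ :=
  (hF.comp (by fun_prop : Differentiable ℂ fun s : ℂ => p + s • v)).differentiableOn.analyticOnNhd
    isOpen_univ

/-- `AnalyticOnNhd.eq_zero_or_eq_zero_of_mul_eq_zero` with `Osg.analyticOnNhd_of_differentiableOn`,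
or restrict to the complex line through two points. -/
theorem entire_mul_eq_zero {F G : (ι → ℂ) → ℂ} (hF : Differentiable ℂ F)
    (hG : Differentiable ℂ G) (h : F * G = 0) : F = 0 ∨ G = 0 := by
  by_contra hc
  rw [not_or] at hc
  obtain ⟨p, hp⟩ := Function.ne_iff.1 hc.1
  obtain ⟨q, hq⟩ := Function.ne_iff.1 hc.2
  rcases (thid_line hF p (q - p)).eq_zero_or_eq_zero_of_mul_eq_zero (thid_line hG p (q - p))
    (fun s _ => congrFun h _) isPreconnected_univ with h1 | h1
  · exact hp (by simpa using h1 0 trivial)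
  · exact hq (by simpa using h1 1 trivial)

/-- For real `u, v` the entire function `s ↦ F (z₀ + u + s v)` vanishes for real `s`. -/
theorem entire_eq_zero_of_real {F : (ι → ℂ) → ℂ} (hF : Differentiable ℂ F) (z₀ : ι → ℂ)
    (h : ∀ b : ι → ℝ, F (z₀ + fun i => (b i : ℂ)) = 0) : F = 0 := by
  funext z
  have h1 := (thid_line hF (z₀ + fun i => ((z i - z₀ i).re : ℂ))
    fun i => ((z i - z₀ i).im : ℂ)).eqOn_zero_of_preconnected_of_mem_closure isPreconnected_univ
    (Set.mem_univ ((0 : ℝ) : ℂ)) (mem_closure_of_tendsto (b := nhdsWithin (0 : ℝ) {0}ᶜ)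
      (continuous_ofReal.continuousAt.tendsto.mono_left nhdsWithin_le_nhds)
      (Filter.mem_of_superset self_mem_nhdsWithin fun s hs => ⟨?_, ofReal_injective.ne hs⟩))
    (Set.mem_univ I)
  · refine Eq.trans (congrArg F (funext fun i => ?_)) h1
    simp only [Pi.add_apply, Pi.smul_apply, smul_eq_mul]
    rw [add_assoc, mul_comm I, re_add_im, add_sub_cancel]
  · refine Eq.trans (congrArg F (funext fun i => ?_))
      (h fun i => (z i - z₀ i).re + s * (z i - z₀ i).im)
    simp only [Pi.add_apply, Pi.smul_apply, smul_eq_mul]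
    rw [add_assoc, ofReal_add, ofReal_mul]

theorem Hol.mul_ne_zero (hτ : InH τ) {m n : ℝ} {f g : (ι ⊕ ι → ℝ) → ℂ} (hf : f ∈ Hol τ m)
    (hg : g ∈ Hol τ n) (hf0 : f ≠ 0) (hg0 : g ≠ 0) : f * g ≠ 0 := by
  obtain ⟨F, hF, hf⟩ := hf
  obtain ⟨G, hG, hg⟩ := hg
  intro h
  rcases entire_mul_eq_zero hF hG (funext fun z => by
    obtain ⟨x, rfl⟩ := (per_bijective hτ).2 z
    have h1 := congrFun h x
    rw [Pi.mul_apply, hf, hg, mul_mul_mul_comm] at h1
    exact (mul_eq_zero.1 h1).resolve_left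
      (_root_.mul_ne_zero (ee_ne_zero _) (ee_ne_zero _))) with rfl | rfl
  · exact hf0 (funext fun x => by simp [hf])
  · exact hg0 (funext fun x => by simp [hg])

/-- Generic points: `t ↦ (U (c i) (f i)) (l i • t)` is a non-zero holomorphic function
(`Hol.U`, `Hol.scale`), so is the finite product (`Hol.mul`, induction on a finset). -/
theorem exists_forall_ne_zero (hτ : InH τ) {α : Type} [Finite α] {m : α → ℝ}
    {f : α → (ι ⊕ ι → ℝ) → ℂ} (hf : ∀ i, f i ∈ Hol τ (m i)) (hf0 : ∀ i, f i ≠ 0)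
    (c : α → ι ⊕ ι → ℝ) (l : α → ℝ) (hl : ∀ i, l i ≠ 0) : ∃ t, ∀ i, f i (c i + l i • t) ≠ 0 := by
  classical
  have := Fintype.ofFinite α
  have key : ∀ s : Finset α, ∃ (n : ℝ) (g : (ι ⊕ ι → ℝ) → ℂ), g ∈ Hol τ n ∧ g ≠ 0 ∧
      ∀ t, g t ≠ 0 → ∀ i ∈ s, f i (c i + l i • t) ≠ 0 := fun s => by
    induction s using Finset.induction_on with
    | empty => exact ⟨0, 1, Hol.one, one_ne_zero, by simp⟩
    | insert i s _ ih =>
      obtain ⟨n, g, h1, h2, h3⟩ := ih
      have h4 := Hol.scale (Hol.U hτ.1 (hf i) (c i)) (l i)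
      refine ⟨_, _, Hol.mul h1 h4, Hol.mul_ne_zero hτ h1 h4 h2 fun h => hf0 i ?_,
        fun t ht j hj => ?_⟩
      · refine (U_eq_zero (m := m i) (y := c i)).1 (funext fun x => ?_)
        simpa only [smul_inv_smul₀ (hl i), Pi.zero_apply] using congrFun h ((l i)⁻¹ • x)
      · rcases Finset.mem_insert.1 hj with rfl | hj
        · rw [add_comm]
          exact right_ne_zero_of_mul (right_ne_zero_of_mul ht)
        · exact h3 t (left_ne_zero_of_mul ht) j hj
  obtain ⟨n, g, -, h2, h3⟩ := key Finset.univ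
  obtain ⟨t, ht⟩ := Function.ne_iff.1 h2
  exact ⟨t, fun i => h3 t ht i (Finset.mem_univ i)⟩

end M4
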