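import Mathlib
import Pool.Agent.Lib.MP_33b3f9_ag.M4.ThBas

/-!
Fourier coefficients of entire periodic functions.
-/

set_option autoImplicit false

namespace M4

open Complex Matrix

open MeasureTheory

variable {ι : Type} [Fintype ι] {τ : Matrix ι ι ℂ}

/-- A real vector as a complex vector. -/
def rc (t : ι → ℝ) : ι → ℂ := fun i => (t i : ℂ)

/-- The Fourier coefficient along the real torus. -/
noncomputable def coef (n : ι → ℤ) (F : (ι → ℂ) → ℂ) : ℂ :=
  ∫ t in Set.pi Set.univ fun _ : ι => Set.Ioc (0 : ℝ) 1, ee (-(cz n ⬝ᵥ rc t)) * F (rc t)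

theorem coef_char (n k : ι → ℤ) (c : ℂ) (F : (ι → ℂ) → ℂ) :
    coef n (fun z => c * ee (cz k ⬝ᵥ z) * F z) = c * coef (n - k) F := by
  rw [coef, coef, ← integral_const_mul]
  refine integral_congr_ae (Filter.Eventually.of_forall fun t => ?_)
  have e : -(cz (n - k) ⬝ᵥ rc t) = -(cz n ⬝ᵥ rc t) + cz k ⬝ᵥ rc t := by
    rw [sub_eq_add_neg, cz_add, cz_neg, add_dotProduct, neg_dotProduct]
    ring
  beta_reduce
  rw [e, ee_add]
  ring

theorem thfou_mFourier (n : ι → ℤ) (t : ι → ℝ) :
    UnitAddTorus.mFourier n (fun i => (t i : UnitAddCircle)) = ee (cz n ⬝ᵥ rc t) := by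
  rw [dotProduct, ee_sum]
  refine Finset.prod_congr rfl fun i _ => ?_
  rw [fourier_coe_apply, ee, ofReal_one, div_one, mul_assoc]
  rfl

theorem thfou_coef {F : (ι → ℂ) → ℂ} {G : UnitAddTorus ι → ℂ}
    (h : ∀ t : ι → ℝ, G (fun i => (t i : UnitAddCircle)) = F (rc t)) (n : ι → ℤ) :
    coef n F = UnitAddTorus.mFourierCoeff G n := by
  rw [UnitAddTorus.mFourierCoeff_eq_integral G n 0, coef]
  congr 1
  · congr 1
    ext t
    simp
  · funext t
    rw [thfou_mFourier, h, cz_neg, neg_dotProduct, smul_eq_mul]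

theorem thfou_orth [DecidableEq ι] (k n : ι → ℤ) :
    coef n (fun z => ee (cz k ⬝ᵥ z)) = if n = k then 1 else 0 := by
  rw [thfou_coef (G := UnitAddTorus.mFourier k) (thfou_mFourier k),
    ← UnitAddTorus.mFourierCoeff_toLp, ← UnitAddTorus.mFourierBasis_repr]
  have h := congrArg (fun f => f n) (UnitAddTorus.mFourierBasis.repr_self k)
  rw [UnitAddTorus.coe_mFourierBasis] at h
  exact h.trans (by rw [lp.single_apply, Pi.single_apply])

/-- Descend to a continuous function on `UnitAddTorus ι`, then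
`UnitAddTorus.hasSum_mFourier_series_of_summable`; this gives vanishing at real points. -/
theorem eq_zero_of_coef {F : (ι → ℂ) → ℂ} (hF : Continuous F)
    (hp : ∀ (k : ι → ℤ) z, F (z + cz k) = F z) (h : ∀ n, coef n F = 0) (t : ι → ℝ) :
    F (rc t) = 0 := by
  have hq : IsOpenQuotientMap (Pi.map fun (_ : ι) (x : ℝ) => (x : UnitAddCircle)) :=
    IsOpenQuotientMap.piMap fun _ => QuotientAddGroup.isOpenQuotientMap_mk
  let G : UnitAddTorus ι → ℂ := fun x => F (rc fun i => (x i).out)
  have hG : ∀ t : ι → ℝ, G (fun i => (t i : UnitAddCircle)) = F (rc t) := fun t => by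
    choose g hg using fun i => QuotientAddGroup.mk_out_eq_add (AddSubgroup.zmultiples (1 : ℝ)) (t i)
    choose k hk using fun i => AddSubgroup.mem_zmultiples_iff.1 (g i).2
    rw [← hp k (rc t)]
    refine congrArg F (funext fun i => ?_)
    simp only [rc, cz, hg, ← hk, Pi.add_apply]
    simp
  have hc : Continuous G := hq.isQuotientMap.continuous_iff.2 <| by
    refine Continuous.congr (hF.comp ?_) fun t => (hG t).symm
    unfold rc
    fun_prop
  have h0 : UnitAddTorus.mFourierCoeff (⟨G, hc⟩ : C(UnitAddTorus ι, ℂ)) = 0 :=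
    funext fun n => (thfou_coef hG n).symm.trans (h n)
  have h1 := UnitAddTorus.hasSum_mFourier_series_apply_of_summable (f := ⟨G, hc⟩)
    (h0 ▸ summable_zero) fun i => (t i : UnitAddCircle)
  simp only [h0, Pi.zero_apply, zero_smul] at h1
  exact (hG t).symm.trans (h1.unique hasSum_zero)

/-- Termwise integration (`hasSum_integral_of_summable_norm` or `integral_tsum`); the integral of
`ee (k t)` over the cube vanishes for `k ≠ 0` (shift trick or `integral_fintype_prod_eq_prod`). -/
theorem coef_thc (hτ : InH τ) : coef 0 (thc τ 0) = 1 := by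
  classical
  have e : ∀ n (t : ι → ℝ), term τ 0 (rc t) n = term τ 0 0 n * ee (cz n ⬝ᵥ rc t) := fun n t => by
    simp [term, ee_add]
  have hn : ∀ n (t : ι → ℝ), ‖term τ 0 (rc t) n‖ = ‖term τ 0 0 n‖ := fun n t => by
    rw [e, norm_mul, show cz n ⬝ᵥ rc t = ((rz n ⬝ᵥ t : ℝ) : ℂ) by simp [cz, rc, rz, dotProduct],
      norm_ee_real, mul_one]
  have hc : ∀ n, Continuous fun t : ι → ℝ => term τ 0 (rc t) n := fun n => by
    simp only [e]
    refine continuous_const.mul (differentiable_ee.continuous.comp ?_)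
    unfold rc dotProduct
    fun_prop
  have : IsFiniteMeasure (volume.restrict (Set.pi Set.univ fun _ : ι => Set.Ioc (0 : ℝ) 1)) :=
    isFiniteMeasure_restrict.2 (by simp [volume_pi_pi])
  have h := hasSum_integral_of_summable_integral_norm
    (μ := volume.restrict (Set.pi Set.univ fun _ : ι => Set.Ioc (0 : ℝ) 1))
    (fun n => Integrable.of_bound (hc n).aestronglyMeasurable _ (.of_forall fun t => (hn n t).le))
    (by
      simp only [hn, integral_const, smul_eq_mul]
      exact (summable_norm_term hτ 0 0).mul_left _)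
  have h1 : ∀ n, ∫ t in Set.pi Set.univ fun _ : ι => Set.Ioc (0 : ℝ) 1, term τ 0 (rc t) n =
      if n = 0 then 1 else 0 := fun n => by
    have := thfou_orth n 0
    simp only [coef, cz_zero, zero_dotProduct, neg_zero, ee_zero, one_mul] at this
    simp only [e]
    rw [integral_const_mul, this]
    by_cases h0 : n = 0
    · simp [h0, term]
    · simp [h0, Ne.symm h0]
  simp only [h1] at h
  simp only [coef, cz_zero, zero_dotProduct, neg_zero, ee_zero, one_mul]
  exact h.unique (hasSum_ite_eq 0 1)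

theorem Th_ne_zero (hτ : InH τ) : Th τ ≠ 0 := by
  intro h
  have h1 := coef_thc hτ
  have h2 : ∀ t, thc τ 0 (rc t) = 0 := fun t => by
    have := Th_eq hτ.1 (Sum.elim 0 t)
    rw [h, Pi.zero_apply, eq_comm, mul_eq_zero, or_iff_right (ee_ne_zero _), per,
      show fa (Sum.elim 0 t) = 0 from funext fun i => ofReal_zero, mulVec_zero, zero_add] at this
    exact this
  simp [coef, h2] at h1

end M4
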