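import Mathlib
import Pool.Agent.Lib.MP_33b3f9_ag.M4.ThFou

/-!
Shifting the torus of integration.
-/

set_option autoImplicit false

namespace M4

open Complex Matrix

open MeasureTheory

variable {ι : Type} [Fintype ι]

/-- The integral of a periodic function over the cube is invariant under real translations. -/
theorem shift_real {h : (ι → ℝ) → ℂ} (hp : ∀ (k : ι → ℤ) t, h (t + rz k) = h t) (u : ι → ℝ) :
    ∫ t in Set.pi Set.univ fun _ : ι => Set.Ioc (0 : ℝ) 1, h (t + u) =
      ∫ t in Set.pi Set.univ fun _ : ι => Set.Ioc (0 : ℝ) 1, h t := by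
  let f : UnitAddTorus ι → ℂ := fun x => h fun i => Quotient.out (x i)
  have hf : ∀ t : ι → ℝ, f (fun i => (t i : UnitAddCircle)) = h t := by
    intro t
    have : ∀ i, ∃ k : ℤ, Quotient.out (t i : UnitAddCircle) = t i + k := by
      intro i
      obtain ⟨⟨c, hc⟩, e⟩ := QuotientAddGroup.mk_out_eq_add (AddSubgroup.zmultiples (1 : ℝ)) (t i)
      obtain ⟨k, rfl⟩ := AddSubgroup.mem_zmultiples_iff.1 hc
      exact ⟨k, by simpa using e⟩
    choose k hk using this
    rw [← hp k t]
    exact congrArg h (funext hk)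
  have h1 := (UnitAddTorus.integral_preimage f u).symm.trans (UnitAddTorus.integral_preimage f 0)
  simp only [hf] at h1
  have h2 := (measurePreserving_add_right volume u).setIntegral_preimage_emb
    (MeasurableEquiv.addRight u).measurableEmbedding h
    {x : ι → ℝ | ∀ i, x i ∈ Set.Ioc (u i) (u i + 1)}
  have h3 : (fun x : ι → ℝ => x + u) ⁻¹' {x : ι → ℝ | ∀ i, x i ∈ Set.Ioc (u i) (u i + 1)} =
      Set.pi Set.univ fun _ : ι => Set.Ioc (0 : ℝ) 1 := by
    ext x
    simp [add_comm (u _) 1]
  have h4 : {x : ι → ℝ | ∀ i, x i ∈ Set.Ioc ((0 : ι → ℝ) i) ((0 : ι → ℝ) i + 1)} =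
      Set.pi Set.univ fun _ : ι => Set.Ioc (0 : ℝ) 1 := by
    ext x
    simp
  rw [h3] at h2
  rw [h2, h1, h4]

omit [Fintype ι] in
theorem shift_cont_rc : Continuous (rc : (ι → ℝ) → ι → ℂ) :=
  continuous_pi fun i => continuous_ofReal.comp (continuous_apply i)

/-- The integral over the cube depends holomorphically on a complex translation parameter. -/
theorem shift_diff {H : (ι → ℂ) → ℂ} (hH : Differentiable ℂ H) (a v : ι → ℂ) :
    Differentiable ℂ fun s : ℂ =>
      ∫ t in Set.pi Set.univ fun _ : ι => Set.Ioc (0 : ℝ) 1, H (rc t + (a + s • v)) := by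
  intro s₀
  have hc : Continuous fun p : (ι → ℝ) × ℂ => H (rc p.1 + (a + p.2 • v)) :=
    hH.continuous.comp ((shift_cont_rc.comp continuous_fst).add (by fun_prop))
  have hd : ∀ t : ι → ℝ, Differentiable ℂ fun s : ℂ => H (rc t + (a + s • v)) := fun t =>
    hH.comp (by fun_prop)
  have hsub : (Set.pi Set.univ fun _ : ι => Set.Ioc (0 : ℝ) 1) ⊆ Set.Icc 0 1 := fun t ht =>
    ⟨fun i => (ht i trivial).1.le, fun i => (ht i trivial).2⟩
  have hK : IsCompact (Set.Icc (0 : ι → ℝ) 1 ×ˢ Metric.closedBall s₀ 2) :=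
    isCompact_Icc.prod (isCompact_closedBall _ _)
  obtain ⟨M, hM⟩ := hK.exists_bound_of_continuousOn hc.continuousOn
  have hct : ∀ s : ℂ, Continuous fun t : ι → ℝ => H (rc t + (a + s • v)) := fun s =>
    hH.continuous.comp (shift_cont_rc.add continuous_const)
  have hms : MeasurableSet (Set.pi Set.univ fun _ : ι => Set.Ioc (0 : ℝ) 1) :=
    MeasurableSet.univ_pi fun _ => measurableSet_Ioc
  refine (hasDerivAt_integral_of_dominated_loc_of_deriv_le
    (μ := volume.restrict (Set.pi Set.univ fun _ : ι => Set.Ioc (0 : ℝ) 1))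
    (F := fun s t => H (rc t + (a + s • v)))
    (F' := fun s t => deriv (fun s : ℂ => H (rc t + (a + s • v))) s) (bound := fun _ => M / 1)
    (Metric.ball_mem_nhds s₀ one_pos) ?_ ?_ ?_ ?_ ?_ ?_).2.differentiableAt
  · exact Filter.Eventually.of_forall fun s => (hct s).aestronglyMeasurable
  · exact ((hct s₀).continuousOn.integrableOn_compact isCompact_Icc).mono_set hsub
  · have := measurable_deriv_with_param (𝕜 := ℂ)
      (f := fun (t : ι → ℝ) (s : ℂ) => H (rc t + (a + s • v))) hc
    exact (this.comp (measurable_id.prodMk measurable_const)).aestronglyMeasurable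
  · refine (ae_restrict_iff' hms).2 (Filter.Eventually.of_forall fun t ht s hs => ?_)
    refine norm_deriv_le_of_forall_mem_sphere_norm_le one_pos (hd t).diffContOnCl fun z hz => ?_
    refine hM (t, z) ⟨hsub ht, ?_⟩
    have h1 := dist_triangle z s s₀
    rw [Metric.mem_sphere] at hz
    rw [Metric.mem_ball] at hs
    rw [Metric.mem_closedBall]
    linarith
  · exact (continuous_const.continuousOn.integrableOn_compact isCompact_Icc).mono_set hsub
  · exact Filter.Eventually.of_forall fun t s _ => (hd t s).hasDerivAt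

theorem shift_cplx {H : (ι → ℂ) → ℂ} (hH : Differentiable ℂ H)
    (hp : ∀ (k : ι → ℤ) z, H (z + cz k) = H z) (w : ι → ℂ) :
    ∫ t in Set.pi Set.univ fun _ : ι => Set.Ioc (0 : ℝ) 1, H (rc t + w) =
      ∫ t in Set.pi Set.univ fun _ : ι => Set.Ioc (0 : ℝ) 1, H (rc t) := by
  set u : ι → ℝ := fun i => (w i).re with hu
  set v : ι → ℝ := fun i => (w i).im with hv
  have hw : w = rc u + I • rc v := by
    funext i
    simp [rc, hu, hv, mul_comm I]
  have hd := shift_diff hH (rc u) (rc v)
  have hr : ∀ s : ℝ, ∫ t in Set.pi Set.univ fun _ : ι => Set.Ioc (0 : ℝ) 1,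
      H (rc t + (rc u + (s : ℂ) • rc v)) =
      ∫ t in Set.pi Set.univ fun _ : ι => Set.Ioc (0 : ℝ) 1, H (rc t) := by
    intro s
    rw [← shift_real (h := fun t => H (rc t)) (fun k t => ?_) (u + s • v)]
    · congr 1
      funext t
      congr 1
      funext i
      simp [rc]
    · rw [← hp k (rc t)]
      congr 1
      funext i
      simp [rc, rz, cz]
  have key := AnalyticOnNhd.eq_of_frequently_eq (hd.differentiableOn.analyticOnNhd isOpen_univ)
    (analyticOnNhd_const (v := ∫ t in Set.pi Set.univ fun _ : ι => Set.Ioc (0 : ℝ) 1, H (rc t)))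
    (z₀ := 0) ?_
  · rw [hw]
    exact congrFun key I
  · have ht : Filter.Tendsto (fun s : ℝ => (s : ℂ)) (nhdsWithin 0 {0}ᶜ) (nhdsWithin 0 {0}ᶜ) := by
      refine tendsto_nhdsWithin_iff.2 ⟨?_, ?_⟩
      · simpa using (continuous_ofReal.tendsto 0).mono_left nhdsWithin_le_nhds
      · filter_upwards [self_mem_nhdsWithin] with s hs
        simpa using hs
    exact ht.frequently (Filter.Eventually.of_forall hr).frequently

/-- `G w = ∫ H (t + w) dt` for the entire periodic `H z = ee (-n z) F z`. For fixed complex `v`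
the function `s ↦ G (s v)` is entire (`hasDerivAt_integral_of_dominated_loc_of_deriv_le`, or
iterate `Osg.differentiableOn_intervalIntegral`); `G` is invariant under real translations
(`UnitAddTorus.integral_preimage` or a fundamental domain), so `G (u + s v) = G u` for real `v`. -/
theorem coef_shift {F : (ι → ℂ) → ℂ} (hF : Differentiable ℂ F)
    (hp : ∀ (k : ι → ℤ) z, F (z + cz k) = F z) (n : ι → ℤ) (w : ι → ℂ) :
    coef n (fun z => F (z + w)) = ee (cz n ⬝ᵥ w) * coef n F := by
  have hH : Differentiable ℂ fun z : ι → ℂ => ee (-(cz n ⬝ᵥ z)) * F z := by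
    refine (differentiable_ee.comp ?_).mul hF
    unfold dotProduct
    fun_prop
  have h := shift_cplx hH (fun k z => by
    rw [hp, dotProduct_add, neg_add, ee_add, cz_dot, ← Int.cast_neg, ee_int, mul_one]) w
  unfold coef
  rw [← h, ← integral_const_mul]
  congr 1
  funext t
  rw [← mul_assoc, ← ee_add, dotProduct_add]
  congr 2
  ring

end M4
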