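import Mathlib
import Pool.Agent.Lib.MP_33b3f9_ag.M4.ThShift
import Pool.Agent.Lib.MP_33b3f9_ag.M4.ThId

/-!
Upper bound for the dimension of the space of theta functions.
-/

set_option autoImplicit false

namespace M4

open Complex Matrix

variable {ι : Type} [Fintype ι] [DecidableEq ι] {τ : Matrix ι ι ℂ}

omit [DecidableEq ι] in
/-- The automorphy law of the entire function attached to a section. -/
theorem Gam.law (hτ : InH τ) {m : ℕ} {f : (ι ⊕ ι → ℝ) → ℂ} (hf : f ∈ Gam τ m 0)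
    {F : (ι → ℂ) → ℂ} (hF : ∀ x, f x = ee (m * (fa x ⬝ᵥ per τ x) / 2) * F (per τ x))
    (n : ι ⊕ ι → ℤ) (z : ι → ℂ) : F (z + per τ (rz n)) =
      ee (-(m * (fa (rz n) ⬝ᵥ τ *ᵥ fa (rz n)) / 2) - m * (fa (rz n) ⬝ᵥ z)) * F z := by
  obtain ⟨x, rfl⟩ := (per_bijective hτ).2 z
  have h := congrFun (hf.2 n) x
  rw [U_apply, Pi.smul_apply, smul_eq_mul, hF, hF, E_zero_left, ofReal_zero, ee_zero, mul_one,
    chi_eq, ← ee_nat_mul, per_add, ← mul_assoc, ← mul_assoc, ← ee_add, ← ee_add,
    ← fa_per_sub hτ.1] at h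
  refine mul_left_cancel₀ (ee_ne_zero _) (h.trans ?_)
  rw [← mul_assoc, ← ee_add]
  congr 2
  simp only [fa_add, add_dotProduct, dotProduct_add, ofReal_natCast]
  rw [show per τ (rz n) = τ *ᵥ fa (rz n) + fb (rz n) from rfl, dotProduct_add (fa (rz n))]
  ring

omit [DecidableEq ι] in
theorem thdim_int (n : ι → ℤ) {F : (ι → ℂ) → ℂ} (hF : Continuous F) :
    MeasureTheory.IntegrableOn (fun t => ee (-(cz n ⬝ᵥ rc t)) * F (rc t))
      (Set.pi Set.univ fun _ : ι => Set.Ioc (0 : ℝ) 1) := by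
  have h1 : Continuous (rc : (ι → ℝ) → ι → ℂ) := by
    unfold rc
    fun_prop
  have h2 : Continuous fun t => ee (-(cz n ⬝ᵥ rc t)) * F (rc t) :=
    (differentiable_ee.continuous.comp (continuous_const.dotProduct h1).neg).mul (hF.comp h1)
  exact (h2.continuousOn.integrableOn_compact
    (isCompact_univ_pi fun _ : ι => isCompact_Icc (a := (0 : ℝ)) (b := 1))).mono_set
    (Set.pi_mono fun _ _ => Set.Ioc_subset_Icc_self)

omit [DecidableEq ι] in
theorem thdim_cont {m : ℝ} {f : (ι ⊕ ι → ℝ) → ℂ} (hf : f ∈ Hol τ m) :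
    Continuous fun z : ι → ℂ => f (Sum.elim 0 fun i => (z i).re) := by
  refine (Hol.continuous hf).comp (continuous_pi ?_)
  rintro (i | i)
  · exact continuous_const
  · exact continuous_re.comp (continuous_apply i)

omit [DecidableEq ι] in
theorem thdim_zero (hτ : InH τ) {m : ℕ} (hm : m ≠ 0) {f : (ι ⊕ ι → ℝ) → ℂ} (hf : f ∈ Gam τ m 0)
    (h : ∀ r : ι → Fin m,
      coef (fun i => ((r i : ℕ) : ℤ)) (fun z => f (Sum.elim 0 fun i => (z i).re)) = 0) :
    f = 0 := by
  obtain ⟨F, hF, hfF⟩ := hf.1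
  simp only [ofReal_natCast] at hfF
  have h1 : ∀ n, coef n (fun z => f (Sum.elim 0 fun i => (z i).re)) = coef n F := by
    intro n
    unfold coef
    congr 1
    funext t
    have e1 : fa (Sum.elim 0 fun i => (rc t i).re : ι ⊕ ι → ℝ) = 0 := by
      funext i
      simp [fa]
    have e2 : fb (Sum.elim 0 fun i => (rc t i).re : ι ⊕ ι → ℝ) = rc t := by
      funext i
      simp [fb, rc]
    beta_reduce
    rw [hfF, per, e1, e2]
    simp
  have hp : ∀ (k : ι → ℤ) z, F (z + cz k) = F z := by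
    intro k z
    have e := Gam.law hτ hf hfF (Sum.elim 0 k) z
    rw [per, fa_rz, fb_rz] at e
    simpa using e
  have h2 : ∀ k a : ι → ℤ, coef k F = 0 → coef (k + (m : ℤ) • a) F = 0 := by
    intro k a hk
    have e : (fun z => F (z + τ *ᵥ cz a)) = fun z =>
        ee (-(m * (cz a ⬝ᵥ τ *ᵥ cz a) / 2)) * ee (cz (-((m : ℤ) • a)) ⬝ᵥ z) * F z := by
      funext z
      have e1 := Gam.law hτ hf hfF (Sum.elim a 0) z
      rw [per, fa_rz, fb_rz, Sum.elim_comp_inl, Sum.elim_comp_inr, cz_zero, add_zero] at e1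
      have e2 : cz (-((m : ℤ) • a)) = -((m : ℂ) • cz a) := by
        funext i
        simp [cz]
      rw [e1, ← ee_add, e2, neg_dotProduct, smul_dotProduct, smul_eq_mul, sub_eq_add_neg]
    have e3 := coef_shift hF hp k (τ *ᵥ cz a)
    rw [e, coef_char, hk, mul_zero, sub_neg_eq_add] at e3
    exact (mul_eq_zero.1 e3).resolve_left (ee_ne_zero _)
  have h0 : (0 : ℤ) < m := by exact_mod_cast Nat.pos_of_ne_zero hm
  have h3 : ∀ n, coef n F = 0 := by
    intro n
    have e1 : ∀ i, (n i % m).toNat < m := fun i => by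
      have := Int.emod_lt_of_pos (n i) h0
      omega
    have e2 := h2 _ (fun i => n i / m) ((h1 _).symm.trans (h fun i => ⟨_, e1 i⟩))
    have e3 : ((fun i => (((n i % m).toNat : ℕ) : ℤ)) + (m : ℤ) • fun i => n i / m) = n := by
      funext i
      simp only [Pi.add_apply, Pi.smul_apply, smul_eq_mul]
      rw [Int.toNat_of_nonneg (Int.emod_nonneg _ h0.ne')]
      exact Int.emod_add_mul_ediv _ _
    rwa [e3] at e2
  have h4 : F = 0 := entire_eq_zero_of_real hF 0 fun b => by
    rw [zero_add]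
    exact eq_zero_of_coef hF.continuous hp h3 b
  funext x
  rw [hfF, h4]
  simp

/-- `L f r = coef r (fun z => f (0, re z))`; by `Gam.law`, `coef_shift`, `coef_char` the
coefficient at `r + m a` is a multiple of the coefficient at `r`; then `eq_zero_of_coef`,
`entire_eq_zero_of_real`. -/
theorem Gam_inj (hτ : InH τ) {m : ℕ} (hm : m ≠ 0) :
    ∃ L : Gam τ m 0 →ₗ[ℂ] ((ι → Fin m) → ℂ), Function.Injective L := by
  refine ⟨⟨⟨fun f r => coef (fun i => ((r i : ℕ) : ℤ))
    fun z => f.1 (Sum.elim 0 fun i => (z i).re), fun f g => ?_⟩, fun c f => ?_⟩, ?_⟩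
  · funext r
    simp only [coef, Submodule.coe_add, Pi.add_apply, mul_add]
    exact MeasureTheory.integral_add (thdim_int _ (thdim_cont f.2.1))
      (thdim_int _ (thdim_cont g.2.1))
  · funext r
    simp only [coef, Submodule.coe_smul, Pi.smul_apply, smul_eq_mul, RingHom.id_apply,
      mul_left_comm _ c]
    exact MeasureTheory.integral_const_mul _ _
  · rw [injective_iff_map_eq_zero]
    exact fun f hf => Subtype.ext (thdim_zero hτ hm f.2 fun r => congrFun hf r)

end M4
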