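import Mathlib
import Pool.Agent.Lib.MP_33b3f9_ag.M4.ThFou

/-!
The standard theta functions of level m and the Heisenberg action.
-/

set_option autoImplicit false

namespace M4

open Complex Matrix

variable {ι : Type} [Fintype ι] {τ : Matrix ι ι ℂ}

/-- The vector `(a, 0)`. -/
def ia (a : ι → ℝ) : ι ⊕ ι → ℝ := Sum.elim a 0

/-- The vector `(0, b)`. -/
def ib (b : ι → ℝ) : ι ⊕ ι → ℝ := Sum.elim 0 b

omit [Fintype ι] in
theorem thm_fa_ia (r : ι → ℤ) : fa (ia (rz r)) = cz r := by funext i; simp [fa, ia, rz, cz]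

omit [Fintype ι] in
theorem thm_fb_ia (a : ι → ℝ) : fb (ia a) = 0 := by funext i; simp [fb, ia]

omit [Fintype ι] in
theorem thm_fa_ib (a : ι → ℝ) : fa (ib a) = 0 := by funext i; simp [fa, ib]

omit [Fintype ι] in
theorem thm_fb_ib (r : ι → ℤ) : fb (ib (rz r)) = cz r := by funext i; simp [fb, ib, rz, cz]

theorem thm_eq (τ : Matrix ι ι ℂ) (m : ℕ) (r : ι → ℤ) (x : ι ⊕ ι → ℝ) :
    Thm τ m r x = ee (m * (fa x ⬝ᵥ per τ x) / 2) *
      thc ((m : ℂ) • τ) ((m : ℝ)⁻¹ • ia (rz r)) ((m : ℂ) • per τ x) := by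
  rw [Thm]
  congr 2
  funext i
  rcases i with i | i <;> simp [ia, rz, div_eq_inv_mul]

theorem Thm_mem_Hol (hτ : InH τ) {m : ℕ} (hm : m ≠ 0) (r : ι → ℤ) : Thm τ m r ∈ Hol τ m := by
  refine ⟨fun z => thc ((m : ℂ) • τ) _ ((m : ℂ) • z),
    (differentiable_thc (hτ.smul hm) _).comp (differentiable_id.const_smul (m : ℂ)), fun x => rfl⟩

/-- `thc_add_int`. -/
theorem Thm_add_mul (τ : Matrix ι ι ℂ) {m : ℕ} (hm : m ≠ 0) (r s : ι → ℤ) :
    Thm τ m (r + (m : ℤ) • s) = Thm τ m r := by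
  funext x
  have h0 : (m : ℝ) ≠ 0 := Nat.cast_ne_zero.2 hm
  have e : (m : ℝ)⁻¹ • ia (rz (r + (m : ℤ) • s)) =
      (m : ℝ)⁻¹ • ia (rz r) + rz (Sum.elim s 0) := by
    funext i
    rcases i with i | i
    · simp [ia, rz, mul_add, inv_mul_cancel_left₀ h0]
    · simp [ia, rz]
  have e' : fb (rz (Sum.elim s 0 : ι ⊕ ι → ℤ)) = 0 := by
    funext i
    simp [fb, rz]
  rw [thm_eq, thm_eq, e, thc_add_int, e', dotProduct_zero, ee_zero, one_mul]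

/-- `thc_add` for `m τ`. -/
theorem U_Thm_a (hτ : τ.IsSymm) {m : ℕ} (hm : m ≠ 0) (r s : ι → ℤ) :
    U m ((m : ℝ)⁻¹ • ia (rz s)) (Thm τ m r) = Thm τ m (r + s) := by
  have _h := hm
  funext x
  have e : (m : ℝ)⁻¹ • ia (rz (r + s)) = (m : ℝ)⁻¹ • ia (rz r) + (m : ℝ)⁻¹ • ia (rz s) := by
    funext i
    rcases i with i | i <;> simp [ia, rz, mul_add]
  have h1 : ∀ t : ι → ℤ, fb ((m : ℝ)⁻¹ • ia (rz t)) = 0 := fun t => by
    rw [fb_smul, thm_fb_ia, smul_zero]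
  rw [U_apply, thm_eq, thm_eq, e, thc_add (hτ.smul _), ← fa_per_sub hτ, per_add, fa_add, smul_add,
    h1]
  have h2 := h1 s
  generalize (m : ℝ)⁻¹ • ia (rz s) = y at h2
  simp only [← mul_assoc, ← ee_add, per.eq_1 _ y, h2, add_zero, smul_mulVec, add_dotProduct,
    dotProduct_add, dotProduct_smul, smul_eq_mul]
  congr 2
  push_cast
  ring

theorem U_Thm_b (hτ : τ.IsSymm) {m : ℕ} (hm : m ≠ 0) (r s : ι → ℤ) :
    U m ((m : ℝ)⁻¹ • ib (rz s)) (Thm τ m r) = ee (cz r ⬝ᵥ cz s / m) • Thm τ m r := by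
  funext x
  have h0 : (m : ℂ) ≠ 0 := Nat.cast_ne_zero.2 hm
  have e : ib (rz s) = rz (Sum.elim 0 s) := by
    funext i
    rcases i with i | i <;> simp [ib, rz]
  have h1 : ∀ σ : Matrix ι ι ℂ, per σ (ib (rz s)) = cz s := fun σ => by
    rw [per, thm_fa_ib, thm_fb_ib, mulVec_zero, zero_add]
  have h2 := thc_add (hτ.smul (m : ℂ)) ((m : ℝ)⁻¹ • ia (rz r)) (ib (rz s)) ((m : ℂ) • per τ x)
  rw [h1, thm_fa_ib, zero_dotProduct, zero_dotProduct, zero_div, add_zero, ee_zero, one_mul, e,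
    thc_add_int, ← e, thm_fb_ib, fa_smul, thm_fa_ia] at h2
  rw [U_apply, Pi.smul_apply, thm_eq, thm_eq, ← fa_per_sub hτ, per_add, per_smul, h1, fa_add,
    fa_smul, thm_fa_ib, smul_add, smul_smul, ofReal_inv, ofReal_natCast, mul_inv_cancel₀ h0,
    one_smul, ← h2]
  simp only [← mul_assoc, ← ee_add, smul_zero, add_zero, zero_dotProduct, dotProduct_add,
    dotProduct_smul, smul_dotProduct, smul_eq_mul]
  congr 2
  push_cast
  ring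

/-- Split `n = (n₁, 0) + (0, n₂)` and use `U_U`. -/
theorem U_Thm (hτ : τ.IsSymm) {m : ℕ} (hm : m ≠ 0) (r : ι → ℤ) (n : ι ⊕ ι → ℤ) :
    U m ((m : ℝ)⁻¹ • rz n) (Thm τ m r) =
      ee ((cz r ⬝ᵥ cz (n ∘ Sum.inr) + cz (n ∘ Sum.inl) ⬝ᵥ cz (n ∘ Sum.inr) / 2) / m) •
        Thm τ m (r + n ∘ Sum.inl) := by
  have h0 : (m : ℂ) ≠ 0 := Nat.cast_ne_zero.2 hm
  have e : (m : ℝ)⁻¹ • rz n = (m : ℝ)⁻¹ • ib (rz (n ∘ Sum.inr)) +
      (m : ℝ)⁻¹ • ia (rz (n ∘ Sum.inl)) := by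
    funext i
    rcases i with i | i <;> simp [ia, ib, rz]
  have h := U_comm m ((m : ℝ)⁻¹ • ia (rz (n ∘ Sum.inl))) ((m : ℝ)⁻¹ • ib (rz (n ∘ Sum.inr)))
    (Thm τ m r)
  rw [U_Thm_b hτ hm, U_smul, U_Thm_a hτ hm, ← U_Thm_a hτ hm r, eq_comm, U_U, U_Thm_a hτ hm,
    smul_smul, ← e, ← eq_inv_smul_iff₀ (mul_ne_zero (ee_ne_zero _) (ee_ne_zero _))] at h
  rw [h, smul_smul, ← ee_add, ← ee_neg, ← ee_add]
  simp only [E_cast, fa_smul, fb_smul, thm_fa_ia, thm_fa_ib, thm_fb_ia, thm_fb_ib, smul_zero,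
    zero_dotProduct, smul_dotProduct, dotProduct_smul, smul_eq_mul,
    dotProduct_comm (cz (n ∘ Sum.inr))]
  congr 2
  push_cast
  field_simp
  ring

theorem Thm_mem (hτ : InH τ) {m : ℕ} (hm : m ≠ 0) (r : ι → ℤ) : Thm τ m r ∈ Gam τ m 0 := by
  refine ⟨Thm_mem_Hol hτ hm r, fun n => ?_⟩
  have h0 : (m : ℂ) ≠ 0 := Nat.cast_ne_zero.2 hm
  have h := U_Thm hτ.1 hm r ((m : ℤ) • n)
  have e : ∀ t : ι → ℤ, cz ((m : ℤ) • t) = (m : ℂ) • cz t := fun t => by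
    funext i
    simp [cz]
  rw [rz_smul, smul_smul, Int.cast_natCast, inv_mul_cancel₀ (Nat.cast_ne_zero.2 hm), one_smul,
    Pi.smul_comp, Pi.smul_comp, Thm_add_mul τ hm, e, e] at h
  rw [h, E_zero_left, ofReal_zero, ee_zero, mul_one, chi_eq, fa_rz, fb_rz, ← ee_nat_mul,
    ← one_mul (ee (m * _)), ← ee_int (∑ i, r i * (n ∘ Sum.inr) i), ← cz_dot, ← ee_add]
  simp only [smul_dotProduct, dotProduct_smul, smul_eq_mul]
  congr 2
  field_simp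

/-- `Thm τ m 0 x = Th (m τ) (a, m b)`. -/
theorem Thm_ne_zero (hτ : InH τ) {m : ℕ} (hm : m ≠ 0) (r : ι → ℤ) : Thm τ m r ≠ 0 := by
  intro h
  have h0 : (m : ℂ) ≠ 0 := Nat.cast_ne_zero.2 hm
  have h1 := U_Thm_a hτ.1 hm r (-r)
  rw [h, U_eq_zero.2 rfl, add_neg_cancel] at h1
  refine Th_ne_zero (hτ.smul hm) (funext fun x => ?_)
  have h2 := congrFun h1 (Sum.elim (x ∘ Sum.inl) fun i => x (Sum.inr i) / m)
  have e : (m : ℂ) • per τ (Sum.elim (x ∘ Sum.inl) fun i => x (Sum.inr i) / m) =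
      per ((m : ℂ) • τ) x := by
    rw [per, per, smul_add, smul_mulVec]
    congr 1
    funext i
    simp [fb, mul_div_cancel₀ _ h0]
  have e' : (m : ℝ)⁻¹ • ia (rz (0 : ι → ℤ)) = 0 := by
    funext i
    rcases i with i | i <;> simp [ia]
  rw [thm_eq, e, e'] at h2
  rw [Th_eq (hτ.smul hm).1, (mul_eq_zero.1 h2.symm).resolve_left (ee_ne_zero _), mul_zero]
  rfl

theorem thm_geom {m : ℕ} (hm : m ≠ 0) (a b : Fin m) :
    ∑ j : Fin m, ee ((((a : ℕ) : ℂ) - ((b : ℕ) : ℂ)) * ((j : ℕ) : ℂ) / m) =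
      if a = b then (m : ℂ) else 0 := by
  have h0 : (m : ℂ) ≠ 0 := Nat.cast_ne_zero.2 hm
  split_ifs with e
  · simp [e]
  have h1 : ∀ j : ℕ, ee ((((a : ℕ) : ℂ) - ((b : ℕ) : ℂ)) * (j : ℂ) / m) =
      ee ((((a : ℕ) : ℂ) - ((b : ℕ) : ℂ)) / m) ^ j := fun j => by
    rw [← ee_nat_mul]
    congr 1
    ring
  have h2 : ee ((((a : ℕ) : ℂ) - ((b : ℕ) : ℂ)) / m) ≠ 1 := by
    rw [Ne, ee_eq_one_iff]
    rintro ⟨k, hk⟩
    rw [div_eq_iff h0] at hk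
    have h3 : ((a : ℕ) : ℤ) - ((b : ℕ) : ℤ) = k * m := by exact_mod_cast hk
    have h4 := Int.eq_zero_of_abs_lt_dvd (Dvd.intro_left k h3.symm)
      (by have := a.2; have := b.2; rw [abs_lt]; omega)
    exact e (Fin.ext (by omega))
  rw [Fin.sum_univ_eq_sum_range fun j : ℕ => ee ((((a : ℕ) : ℂ) - ((b : ℕ) : ℂ)) * (j : ℂ) / m),
    Finset.sum_congr rfl fun j _ => h1 j, geom_sum_eq h2, ← h1, mul_div_cancel_right₀ _ h0,
    ← Int.cast_natCast, ← Int.cast_natCast (b : ℕ), ← Int.cast_sub, ee_int, sub_self, zero_div]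

/-- Orthogonality of the characters of `(ℤ / m)^ι`. -/
theorem sum_ee_div [DecidableEq ι] {m : ℕ} (hm : m ≠ 0) (r r' : ι → Fin m) :
    ∑ s : ι → Fin m, ee ((cz (fun i => ((r i : ℕ) : ℤ)) - cz (fun i => ((r' i : ℕ) : ℤ))) ⬝ᵥ
      cz (fun i => ((s i : ℕ) : ℤ)) / m) = if r = r' then (m : ℂ) ^ Fintype.card ι else 0 := by
  have h := Finset.prod_univ_sum (fun _ : ι => (Finset.univ : Finset (Fin m)))
    fun i j => ee ((((r i : ℕ) : ℂ) - ((r' i : ℕ) : ℂ)) * ((j : ℕ) : ℂ) / m)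
  simp only [thm_geom hm, Fintype.piFinset_univ, ← ee_sum] at h
  simp only [dotProduct, cz, Pi.sub_apply, Int.cast_natCast, Finset.sum_div, ← h]
  split_ifs with e
  · simp [e]
  · obtain ⟨i, hi⟩ := Function.ne_iff.1 e
    exact Finset.prod_eq_zero (Finset.mem_univ i) (if_neg hi)

end M4
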