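import Mathlib
import Pool.Agent.Lib.MP_33b3f9_ag.M4.ThThm
import Pool.Agent.Lib.MP_33b3f9_ag.M4.ThDim

/-!
Bases of the spaces of theta functions, uniqueness, irreducibility.
-/

set_option autoImplicit false

namespace M4

open Complex Matrix

variable {ι : Type} [Fintype ι] [DecidableEq ι] {τ : Matrix ι ι ℂ}

/-- Residues as an integral vector. -/
def fz {κ : Type} {m : ℕ} (r : κ → Fin m) : κ → ℤ := fun i => ((r i : ℕ) : ℤ)

/-- The projector `∑ s, ee (-r s / m) U (0, s / m)` kills `Thm r'` for `r' ≠ r`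
(`U_Thm_b`, `sum_ee_div`). -/
theorem linearIndependent_Thm (hτ : InH τ) {m : ℕ} (hm : m ≠ 0) :
    LinearIndependent ℂ fun r : ι → Fin m => Thm τ m (fz r) := by
  refine Fintype.linearIndependent_iff.2 fun g hg r => ?_
  have h1 : ∀ s : ι → Fin m, ∑ r' : ι → Fin m,
      (g r' * ee ((cz (fz r') - cz (fz r)) ⬝ᵥ cz (fz s) / m)) • Thm τ m (fz r') = 0 := fun s => by
    have h2 := congrArg
      (fun f => ee (-(cz (fz r) ⬝ᵥ cz (fz s) / m)) • U m ((m : ℝ)⁻¹ • ib (rz (fz s))) f) hg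
    simp only [U_sum, U_smul, U_Thm_b hτ.1 hm, U_eq_zero.2 rfl, smul_zero, Finset.smul_sum,
      smul_smul] at h2
    rw [← h2]
    refine Finset.sum_congr rfl fun r' _ => ?_
    rw [sub_dotProduct, sub_div, sub_eq_add_neg, ee_add]
    congr 1
    ring
  have h3 := Finset.sum_eq_zero (s := Finset.univ) fun s _ => h1 s
  rw [Finset.sum_comm] at h3
  have h4 : ∀ r' : ι → Fin m, ∑ s : ι → Fin m, ee ((cz (fz r') - cz (fz r)) ⬝ᵥ cz (fz s) / m) =
      if r' = r then (m : ℂ) ^ Fintype.card ι else 0 := fun r' => sum_ee_div hm r' r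
  simp only [← Finset.sum_smul, ← Finset.mul_sum, h4, mul_ite, mul_zero, ite_smul, zero_smul,
    Finset.sum_ite_eq', Finset.mem_univ, if_true] at h3
  have h5 := (smul_eq_zero.1 h3).resolve_right (Thm_ne_zero hτ hm _)
  exact (mul_eq_zero.1 h5).resolve_right (pow_ne_zero _ (Nat.cast_ne_zero.2 hm))

omit [DecidableEq ι] in
theorem Gam_eq_map (hτ : InH τ) {m : ℕ} (hm : m ≠ 0) (c : ι ⊕ ι → ℝ) :
    Gam τ m c = (Gam τ m 0).map (Ul m ((m : ℝ)⁻¹ • c)) := by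
  have hm' : (m : ℝ) ≠ 0 := Nat.cast_ne_zero.2 hm
  have hc : (m : ℝ) • ((m : ℝ)⁻¹ • c) = c := smul_inv_smul₀ hm' c
  ext f
  constructor
  · intro hf
    have h1 := Gam.U hτ.1 hf (-((m : ℝ)⁻¹ • c))
    rw [smul_neg, hc, add_neg_cancel] at h1
    refine ⟨_, h1, ?_⟩
    have h2 := U_neg_U m (-((m : ℝ)⁻¹ • c)) f
    rwa [neg_neg] at h2
  · rintro ⟨g, hg, rfl⟩
    have h1 := Gam.U hτ.1 hg ((m : ℝ)⁻¹ • c)
    rwa [hc, zero_add] at h1

omit [DecidableEq ι] in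
theorem finite_Gam (hτ : InH τ) {m : ℕ} (hm : m ≠ 0) (c : ι ⊕ ι → ℝ) :
    Module.Finite ℂ (Gam τ m c) := by
  classical
  obtain ⟨L, hL⟩ := Gam_inj hτ hm
  have := Module.Finite.of_injective L hL
  rw [Gam_eq_map hτ hm c]
  exact Module.Finite.map _ _

omit [DecidableEq ι] in
theorem finrank_Gam (hτ : InH τ) {m : ℕ} (hm : m ≠ 0) (c : ι ⊕ ι → ℝ) :
    Module.finrank ℂ (Gam τ m c) = m ^ Fintype.card ι := by
  classical
  have := finite_Gam hτ hm 0
  have hinj : Function.Injective (Ul m ((m : ℝ)⁻¹ • c)) :=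
    (injective_iff_map_eq_zero _).2 fun f hf => U_eq_zero.1 hf
  rw [Gam_eq_map hτ hm c, ← (Submodule.equivMapOfInjective _ hinj (Gam τ m 0)).finrank_eq]
  obtain ⟨L, hL⟩ := Gam_inj hτ hm
  have h1 := LinearMap.finrank_le_finrank_of_injective hL
  have h2 : LinearIndependent ℂ fun r : ι → Fin m =>
      (⟨Thm τ m (fz r), Thm_mem hτ hm _⟩ : Gam τ m 0) :=
    LinearIndependent.of_comp (Gam τ m 0).subtype (linearIndependent_Thm hτ hm)
  have h3 := h2.fintype_card_le_finrank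
  rw [Module.finrank_fintype_fun_eq_card] at h1
  rw [le_antisymm h1 h3, Fintype.card_fun, Fintype.card_fin]

theorem span_Thm (hτ : InH τ) {m : ℕ} (hm : m ≠ 0) :
    Submodule.span ℂ (Set.range fun r : ι → Fin m => Thm τ m (fz r)) = Gam τ m 0 := by
  have := finite_Gam hτ hm 0
  refine Submodule.eq_of_le_of_finrank_eq (Submodule.span_le.2 ?_) ?_
  · rintro _ ⟨r, rfl⟩
    exact Thm_mem hτ hm _
  · rw [finrank_span_eq_card (linearIndependent_Thm hτ hm), finrank_Gam hτ hm, Fintype.card_fun,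
      Fintype.card_fin]

omit [DecidableEq ι] in
/-- Uniqueness of the theta function. -/
theorem Gam_one (hτ : InH τ) {c : ι ⊕ ι → ℝ} {f : (ι ⊕ ι → ℝ) → ℂ} (hf : f ∈ Gam τ 1 c) :
    ∃ a : ℂ, f = a • U 1 c (Th τ) := by
  have h1 := finrank_Gam hτ one_ne_zero c
  rw [one_pow] at h1
  have h2 : (⟨U 1 c (Th τ), U_Th_mem hτ c⟩ : Gam τ 1 c) ≠ 0 := fun h =>
    Th_ne_zero hτ (U_eq_zero.1 (congrArg Subtype.val h))
  obtain ⟨a, ha⟩ := (finrank_eq_one_iff_of_nonzero' _ h2).1 h1 ⟨f, hf⟩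
  exact ⟨a, (congrArg Subtype.val ha).symm⟩

end M4
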