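import Mathlib
import Pool.Agent.Lib.MP_33b3f9_ag.M4.ThBasis

/-!
Irreducibility, and bases of eigenvectors.
-/

set_option autoImplicit false

namespace M4

open Complex Matrix

variable {ι : Type} [Fintype ι] {τ : Matrix ι ι ℂ}

theorem thirr_zero (hτ : InH τ) {m : ℕ} (hm : m ≠ 0) {W : Submodule ℂ ((ι ⊕ ι → ℝ) → ℂ)}
    (hW : W ≤ Gam τ m 0) (h0 : W ≠ ⊥)
    (hU : ∀ (n : ι ⊕ ι → ℤ), ∀ f ∈ W, U m ((m : ℝ)⁻¹ • rz n) f ∈ W) : W = Gam τ m 0 := by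
  classical
  have ha : ∀ s : ι → ℤ, rz (Sum.elim s 0) = ia (rz s) := fun s => by
    funext i
    cases i <;> simp [rz, ia]
  have hb : ∀ s : ι → ℤ, rz (Sum.elim 0 s) = ib (rz s) := fun s => by
    funext i
    cases i <;> simp [rz, ib]
  obtain ⟨f, hf, hf0⟩ := (Submodule.ne_bot_iff W).1 h0
  have h1 := hW hf
  rw [← span_Thm hτ hm, Submodule.mem_span_range_iff_exists_fun] at h1
  obtain ⟨a, rfl⟩ := h1
  obtain ⟨r, -, hr⟩ := Finset.exists_ne_zero_of_sum_ne_zero hf0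
  have h2 := W.sum_mem (t := Finset.univ) fun (s : ι → Fin m) _ =>
    W.smul_mem (ee (-(cz (fz r) ⬝ᵥ cz (fz s) / m))) (hU (Sum.elim 0 (fz s)) _ hf)
  have h3 : ∀ r' : ι → Fin m, ∑ s : ι → Fin m, ee (-(cz (fz r) ⬝ᵥ cz (fz s) / m)) *
      (a r' * ee (cz (fz r') ⬝ᵥ cz (fz s) / m)) =
        if r' = r then a r' * (m : ℂ) ^ Fintype.card ι else 0 := fun r' => by
    rw [← mul_ite_zero, ← sum_ee_div hm, Finset.mul_sum]
    refine Finset.sum_congr rfl fun s _ => ?_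
    rw [mul_left_comm, ← ee_add, sub_dotProduct, sub_div, neg_add_eq_sub]
    rfl
  simp only [hb, U_sum, U_smul, U_Thm_b hτ.1 hm, Finset.smul_sum, smul_smul] at h2
  rw [Finset.sum_comm] at h2
  simp only [← Finset.sum_smul, h3, ite_smul, zero_smul, Finset.sum_ite_eq', Finset.mem_univ,
    if_true] at h2
  rw [W.smul_mem_iff (mul_ne_zero (left_ne_zero_of_smul hr)
    (pow_ne_zero _ (Nat.cast_ne_zero.2 hm)))] at h2
  refine le_antisymm hW ?_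
  rw [← span_Thm hτ hm, Submodule.span_le]
  rintro _ ⟨r', rfl⟩
  have h4 := hU (Sum.elim (fz r' - fz r) 0) _ h2
  rwa [ha, U_Thm_a hτ.1 hm, add_sub_cancel] at h4

/-- Irreducibility. For `c = 0` project a non-zero vector to one `Thm r`, then shift; in general
conjugate by `U m (c / m)` (`U_comm`). -/
theorem Gam_irred (hτ : InH τ) {m : ℕ} (hm : m ≠ 0) {c : ι ⊕ ι → ℝ}
    {W : Submodule ℂ ((ι ⊕ ι → ℝ) → ℂ)} (hW : W ≤ Gam τ m c) (h0 : W ≠ ⊥)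
    (hU : ∀ (n : ι ⊕ ι → ℤ), ∀ f ∈ W, U m ((m : ℝ)⁻¹ • rz n) f ∈ W) : W = Gam τ m c := by
  rw [Gam_eq_map hτ hm c] at hW ⊢
  have h1 := thirr_zero hτ hm (W := W.comap (Ul m ((m : ℝ)⁻¹ • c))) (fun f hf => by
      obtain ⟨g, hg, e⟩ := hW hf
      rw [← U_neg_U m ((m : ℝ)⁻¹ • c) f, ← show U m _ g = U m _ f from e, U_neg_U]
      exact hg) (by
      obtain ⟨f, hf, hf0⟩ := (Submodule.ne_bot_iff W).1 h0
      obtain ⟨g, -, rfl⟩ := hW hf
      exact (Submodule.ne_bot_iff _).2 ⟨g, hf, fun e => hf0 (by rw [e, map_zero])⟩)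
    fun n f hf => by
      change U m _ _ ∈ W
      rw [U_comm]
      exact W.smul_mem _ (hU n _ hf)
  exact le_antisymm hW (h1 ▸ Submodule.map_comap_le _ _)

/-- `U m d` commutes with all `U m (n / m)`; `U_comm`, `exists_rz_of_E`. -/
theorem Gam_schur (hτ : InH τ) {m : ℕ} (hm : m ≠ 0) {d : ι ⊕ ι → ℝ} {μ : ℂ}
    (h : ∀ f ∈ Gam τ m 0, U m d f = μ • f) : ∃ n, d = rz n := by
  refine exists_rz_of_E fun n => ?_
  have hf := Thm_mem hτ hm 0
  have hf0 := Thm_ne_zero hτ hm 0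
  have hμ : μ ≠ 0 := fun e => hf0 (U_eq_zero.1 (by rw [h _ hf, e, zero_smul]))
  have e := U_comm m ((m : ℝ)⁻¹ • rz n) d (Thm τ m 0)
  rw [h _ hf, h _ (Gam.U_div hτ.1 hf n), U_smul, smul_smul, E_smul_right, ← ofReal_mul,
    mul_inv_cancel_left₀ (Nat.cast_ne_zero.2 hm)] at e
  exact (mul_eq_right₀ hμ).1 (smul_left_injective ℂ (mt U_eq_zero.1 hf0) e).symm

/-- Different twists are independent: `linearIndependent_monoidHom` for the characters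
`n ↦ ee (E (c i) (rz n))`, at every point `x`. -/
theorem linearIndependent_Gam {α : Type} {m : ℕ} {c : α → ι ⊕ ι → ℝ}
    {f : α → (ι ⊕ ι → ℝ) → ℂ} (hf : ∀ i, f i ∈ Gam τ m (c i)) (h0 : ∀ i, f i ≠ 0)
    (hc : ∀ i j, (∃ n, c i - c j = rz n) → i = j) : LinearIndependent ℂ f := by
  obtain ⟨φ, hφ'⟩ : ∃ φ : α → Multiplicative (ι ⊕ ι → ℤ) →* ℂ,
      ∀ i n, φ i n = ee (E (c i) (rz n.toAdd)) := ⟨fun i =>
    { toFun := fun n => ee (E (c i) (rz n.toAdd))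
      map_one' := by simp
      map_mul' := fun n n' => by rw [toAdd_mul, rz_add, E_add_right, ofReal_add, ee_add] },
    fun _ _ => rfl⟩
  have hφ : Function.Injective φ := fun i j e => hc i j (exists_rz_of_E fun n => by
    have e' := DFunLike.congr_fun e (.ofAdd n)
    rw [hφ', hφ', toAdd_ofAdd] at e'
    rw [E_sub_left, ofReal_sub, sub_eq_add_neg, ee_add, ee_neg, e', mul_inv_cancel₀ (ee_ne_zero _)])
  have hl := linearIndependent_iff'.1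
    ((linearIndependent_monoidHom (Multiplicative (ι ⊕ ι → ℤ)) ℂ).comp φ hφ)
  refine linearIndependent_iff'.2 fun s g e i hi => ?_
  obtain ⟨x, hx⟩ : ∃ x, f i x ≠ 0 := Function.ne_iff.1 (h0 i)
  suffices h : g i * f i x = 0 from (mul_eq_zero.1 h).resolve_right hx
  refine hl s (fun j => g j * f j x) ?_ i hi
  funext n
  have e1 := congrFun (congrArg (U m (rz n.toAdd)) e) x
  simp only [U_sum, U_smul, (hf _).2, U_eq_zero.2 rfl, Finset.sum_apply, Pi.smul_apply,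
    smul_eq_mul, Pi.zero_apply] at e1
  refine (mul_eq_zero.1 (Eq.trans ?_ e1)).resolve_left (pow_ne_zero m (chi_ne_zero n.toAdd))
  rw [Finset.sum_apply, Finset.mul_sum]
  refine Finset.sum_congr rfl fun j _ => ?_
  rw [Pi.smul_apply, Function.comp_apply, hφ', smul_eq_mul]
  ring

theorem thirr_li (hτ : InH τ) {k : ℕ} (hk : k ≠ 0) :
    LinearIndependent ℂ fun (e : ι ⊕ ι → Fin k) (x : ι ⊕ ι → ℝ) =>
      U 1 ((k : ℝ)⁻¹ • rz (fz e)) (Th τ) ((k : ℝ) • x) := by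
  have hk' : (k : ℝ) ≠ 0 := Nat.cast_ne_zero.2 hk
  refine (linearIndependent_Gam (fun e : ι ⊕ ι → Fin k => U_Th_mem hτ ((k : ℝ)⁻¹ • rz (fz e)))
    (fun e => mt U_eq_zero.1 (Th_ne_zero hτ)) ?_).map' (LinearMap.funLeft ℂ ℂ ((k : ℝ) • ·))
    (LinearMap.ker_eq_bot.2 (LinearMap.funLeft_injective_of_surjective _ _ _ fun y =>
      ⟨(k : ℝ)⁻¹ • y, smul_inv_smul₀ hk' y⟩))
  rintro e e' ⟨n, hn⟩
  funext i
  have h1 := congrFun hn i
  simp only [Pi.sub_apply, Pi.smul_apply, smul_eq_mul, rz, fz, ← mul_sub,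
    inv_mul_eq_iff_eq_mul₀ hk'] at h1
  have h2 : ((e i : ℕ) : ℤ) - ((e' i : ℕ) : ℤ) = k * n i := by exact_mod_cast h1
  have h3 := Int.eq_zero_of_abs_lt_dvd ⟨_, h2⟩ (abs_lt.2 ⟨by omega, by omega⟩)
  exact Fin.ext (by omega)

theorem thirr_span (hτ : InH τ) {k : ℕ} (hk : k ≠ 0) :
    Submodule.span ℂ (Set.range fun (e : ι ⊕ ι → Fin k) (x : ι ⊕ ι → ℝ) =>
      U 1 ((k : ℝ)⁻¹ • rz (fz e)) (Th τ) ((k : ℝ) • x)) = Gam τ (k ^ 2) 0 := by
  classical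
  have := finite_Gam hτ (pow_ne_zero 2 hk) 0
  refine Submodule.eq_of_le_of_finrank_eq (Submodule.span_le.2 ?_) ?_
  · rintro _ ⟨e, rfl⟩
    have h := Gam.scale (U_Th_mem hτ ((k : ℝ)⁻¹ • rz (fz e))) k
    rwa [Int.cast_natCast, smul_inv_smul₀ (Nat.cast_ne_zero.2 hk), Gam_rz, Int.natAbs_natCast,
      one_mul] at h
  · rw [finrank_span_eq_card (thirr_li hτ hk), finrank_Gam hτ (pow_ne_zero 2 hk), Fintype.card_fun,
      Fintype.card_fin, Fintype.card_sum, ← pow_mul, two_mul]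

theorem thirr_XX (τ : Matrix ι ι ℂ) : (fun e : ι ⊕ ι → Fin 2 => XX τ (bz e)) =
    fun (e : ι ⊕ ι → Fin 2) (x : ι ⊕ ι → ℝ) =>
      U 1 (((2 : ℕ) : ℝ)⁻¹ • rz (fz e)) (Th τ) (((2 : ℕ) : ℝ) • x) := by
  funext e x
  rw [XX, hf, one_div, Nat.cast_ofNat]
  rfl

theorem linearIndependent_XX (hτ : InH τ) :
    LinearIndependent ℂ fun e : ι ⊕ ι → Fin 2 => XX τ (bz e) := by
  rw [thirr_XX]
  exact thirr_li hτ two_ne_zero

theorem span_XX (hτ : InH τ) :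
    Submodule.span ℂ (Set.range fun e : ι ⊕ ι → Fin 2 => XX τ (bz e)) = Gam τ 4 0 := by
  rw [thirr_XX]
  exact thirr_span hτ two_ne_zero

/-- The same for level `k ^ 2`. -/
theorem span_U_Th (hτ : InH τ) {k : ℕ} (hk : k ≠ 0) :
    Submodule.span ℂ (Set.range fun (e : ι ⊕ ι → Fin k) (x : ι ⊕ ι → ℝ) =>
      U 1 ((k : ℝ)⁻¹ • rz (fz e)) (Th τ) ((k : ℝ) • x)) = Gam τ (k ^ 2) 0 := by
  exact thirr_span hτ hk

end M4
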