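import Mathlib
import Pool.Agent.Lib.MP_33b3f9_ag.M4.ThThm

/-!
The addition formula and the Riemann relation.
-/

set_option autoImplicit false

namespace M4

open Complex Matrix

variable {ι : Type} [Fintype ι] [DecidableEq ι] {τ : Matrix ι ι ℂ}

omit [DecidableEq ι] in
theorem thadd_term (τ : Matrix ι ι ℂ) (p q w₁ w₂ : ι → ℂ) :
    ee ((p + q) ⬝ᵥ τ *ᵥ (p + q) / 2 + (p + q) ⬝ᵥ w₁) *
      ee ((p - q) ⬝ᵥ τ *ᵥ (p - q) / 2 + (p - q) ⬝ᵥ w₂) =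
    ee (p ⬝ᵥ ((2 : ℂ) • τ) *ᵥ p / 2 + p ⬝ᵥ (w₁ + w₂)) *
      ee (q ⬝ᵥ ((2 : ℂ) • τ) *ᵥ q / 2 + q ⬝ᵥ (w₁ - w₂)) := by
  rw [← ee_add, ← ee_add]
  congr 1
  simp only [mulVec_add, mulVec_sub, add_dotProduct, sub_dotProduct, dotProduct_add,
    dotProduct_sub, smul_mulVec, dotProduct_smul, smul_eq_mul]
  ring

/-- Pattern: `tz_mul` and `pairEquiv` in FA; `n₁ + a₁ = p + q`, `n₂ + a₂ = p - q`. -/
theorem thc_mul (hτ : InH τ) (η₁ η₂ : ι ⊕ ι → ℝ) (z₁ z₂ : ι → ℂ) :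
    thc τ η₁ z₁ * thc τ η₂ z₂ = ∑ s : ι → Fin 2,
      thc ((2 : ℂ) • τ) (Sum.elim (fun i => (η₁ (Sum.inl i) + η₂ (Sum.inl i) + (s i : ℕ)) / 2)
        fun i => η₁ (Sum.inr i) + η₂ (Sum.inr i)) (z₁ + z₂) *
      thc ((2 : ℂ) • τ) (Sum.elim (fun i => (η₁ (Sum.inl i) - η₂ (Sum.inl i) + (s i : ℕ)) / 2)
        fun i => η₁ (Sum.inr i) - η₂ (Sum.inr i)) (z₁ - z₂) := by
  have h2 : InH ((2 : ℂ) • τ) := by
    have h := InH.smul hτ (m := 2) two_ne_zero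
    rwa [Nat.cast_ofNat] at h
  have h1 := summable_mul_of_summable_norm (summable_norm_term hτ η₁ z₁)
    (summable_norm_term hτ η₂ z₂)
  rw [thc_eq, thc_eq, tsum_mul_tsum_of_summable_norm (summable_norm_term hτ η₁ z₁)
    (summable_norm_term hτ η₂ z₂), ← Pool.Agent.Lib.MP_07b2d0_nt.Sch.pairEquiv.tsum_eq]
  refine (Pool.Agent.Lib.MP_07b2d0_nt.Sch.pairEquiv.summable_iff.mpr h1).tsum_prod.trans ?_
  rw [tsum_fintype]
  refine Finset.sum_congr rfl fun s _ => ?_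
  rw [thc_eq, thc_eq, tsum_mul_tsum_of_summable_norm (summable_norm_term h2 _ _)
    (summable_norm_term h2 _ _)]
  refine tsum_congr fun x => ?_
  simp only [Function.comp, Pool.Agent.Lib.MP_07b2d0_nt.Sch.pairEquiv, Equiv.coe_fn_mk, term]
  have e := thadd_term τ
    (cz x.1 + fa (Sum.elim (fun i => (η₁ (Sum.inl i) + η₂ (Sum.inl i) + (s i : ℕ)) / 2)
      fun i => η₁ (Sum.inr i) + η₂ (Sum.inr i)))
    (cz x.2 + fa (Sum.elim (fun i => (η₁ (Sum.inl i) - η₂ (Sum.inl i) + (s i : ℕ)) / 2)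
      fun i => η₁ (Sum.inr i) - η₂ (Sum.inr i))) (z₁ + fb η₁) (z₂ + fb η₂)
  have e1 : cz x.1 + fa (Sum.elim (fun i => (η₁ (Sum.inl i) + η₂ (Sum.inl i) + (s i : ℕ)) / 2)
      fun i => η₁ (Sum.inr i) + η₂ (Sum.inr i)) +
      (cz x.2 + fa (Sum.elim (fun i => (η₁ (Sum.inl i) - η₂ (Sum.inl i) + (s i : ℕ)) / 2)
      fun i => η₁ (Sum.inr i) - η₂ (Sum.inr i))) =
      cz (x.1 + x.2 + fun i => ((s i : ℕ) : ℤ)) + fa η₁ := by
    funext i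
    simp only [cz, fa, Pi.add_apply, Sum.elim_inl]
    push_cast
    ring
  have e2 : cz x.1 + fa (Sum.elim (fun i => (η₁ (Sum.inl i) + η₂ (Sum.inl i) + (s i : ℕ)) / 2)
      fun i => η₁ (Sum.inr i) + η₂ (Sum.inr i)) -
      (cz x.2 + fa (Sum.elim (fun i => (η₁ (Sum.inl i) - η₂ (Sum.inl i) + (s i : ℕ)) / 2)
      fun i => η₁ (Sum.inr i) - η₂ (Sum.inr i))) = cz (x.1 - x.2) + fa η₂ := by
    funext i
    simp only [cz, fa, Pi.add_apply, Pi.sub_apply, Sum.elim_inl]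
    push_cast
    ring
  have e3 : z₁ + fb η₁ + (z₂ + fb η₂) = z₁ + z₂ + fb (Sum.elim
      (fun i => (η₁ (Sum.inl i) + η₂ (Sum.inl i) + (s i : ℕ)) / 2)
      fun i => η₁ (Sum.inr i) + η₂ (Sum.inr i)) := by
    funext i
    simp only [fb, Pi.add_apply, Sum.elim_inr]
    push_cast
    ring
  have e4 : z₁ + fb η₁ - (z₂ + fb η₂) = z₁ - z₂ + fb (Sum.elim
      (fun i => (η₁ (Sum.inl i) - η₂ (Sum.inl i) + (s i : ℕ)) / 2)
      fun i => η₁ (Sum.inr i) - η₂ (Sum.inr i)) := by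
    funext i
    simp only [fb, Pi.add_apply, Pi.sub_apply, Sum.elim_inr]
    push_cast
    ring
  rw [e1, e2, e3, e4] at e
  exact e

/-- `Th_eq`, `thc_mul` with zero characteristics, `fa_per_sub` is not needed. -/
theorem Th_mul_Th (hτ : InH τ) (u v : ι ⊕ ι → ℝ) :
    Th τ (u + v) * Th τ (u - v) = ∑ r : ι → Fin 2, Thm τ 2 (bz r) u * Thm τ 2 (bz r) v := by
  have e1 : per τ (u + v) + per τ (u - v) = (2 : ℂ) • per τ u := by
    rw [per_add, per_sub, two_smul]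
    abel
  have e2 : per τ (u + v) - per τ (u - v) = (2 : ℂ) • per τ v := by
    rw [per_add, per_sub, two_smul]
    abel
  have e3 : ee (fa (u + v) ⬝ᵥ per τ (u + v) / 2) * ee (fa (u - v) ⬝ᵥ per τ (u - v) / 2) =
      ee (2 * (fa u ⬝ᵥ per τ u) / 2) * ee (2 * (fa v ⬝ᵥ per τ v) / 2) := by
    rw [← ee_add, ← ee_add, per_add, per_sub, sub_eq_add_neg u, fa_add, fa_add, fa_neg]
    congr 1
    simp only [add_dotProduct, neg_dotProduct, dotProduct_add, dotProduct_sub]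
    ring
  rw [Th_eq hτ.1, Th_eq hτ.1, mul_mul_mul_comm, thc_mul hτ, e1, e2, e3, Finset.mul_sum]
  refine Finset.sum_congr rfl fun r _ => ?_
  have e4 : (Sum.elim (fun i => ((0 : ι ⊕ ι → ℝ) (Sum.inl i) + (0 : ι ⊕ ι → ℝ) (Sum.inl i) +
      (r i : ℕ)) / 2) fun i => (0 : ι ⊕ ι → ℝ) (Sum.inr i) + (0 : ι ⊕ ι → ℝ) (Sum.inr i)) =
      (Sum.elim (fun i => (bz r i : ℝ) / 2) 0 : ι ⊕ ι → ℝ) := by
    funext j
    rcases j with i | i <;> simp [bz]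
  have e5 : (Sum.elim (fun i => ((0 : ι ⊕ ι → ℝ) (Sum.inl i) - (0 : ι ⊕ ι → ℝ) (Sum.inl i) +
      (r i : ℕ)) / 2) fun i => (0 : ι ⊕ ι → ℝ) (Sum.inr i) - (0 : ι ⊕ ι → ℝ) (Sum.inr i)) =
      (Sum.elim (fun i => (bz r i : ℝ) / 2) 0 : ι ⊕ ι → ℝ) := by
    funext j
    rcases j with i | i <;> simp [bz]
  rw [e4, e5, Thm, Thm, mul_mul_mul_comm]
  simp only [Nat.cast_ofNat]

theorem U_Th_mul (hτ : InH τ) (η u v : ι ⊕ ι → ℝ) :
    U 1 η (Th τ) (u + v) * U 1 η (Th τ) (u - v) =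
      ∑ r : ι → Fin 2, U 2 η (Thm τ 2 (bz r)) u * Thm τ 2 (bz r) v := by
  have e1 : u + v + η = u + η + v := by abel
  have e2 : u - v + η = u + η - v := by abel
  rw [U_apply, U_apply, mul_mul_mul_comm, e1, e2, Th_mul_Th hτ, ← ee_add, Finset.mul_sum]
  refine Finset.sum_congr rfl fun r _ => ?_
  rw [U_apply, mul_assoc, E_add_right, E_sub_right]
  congr 2
  push_cast
  ring

end M4
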