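import Mathlib
import Pool.Agent.Lib.MP_33b3f9_ag.M4.ThAdd

/-!
The Riemann relation.
-/

set_option autoImplicit false

namespace M4

open Complex Matrix

variable {ι : Type} [Fintype ι] [DecidableEq ι] {τ : Matrix ι ι ℂ}

omit [DecidableEq ι] in
theorem rie_thm (τ : Matrix ι ι ℂ) (p a : ι → Fin 2) :
    Thm τ 2 (bz p + bz a) = Thm τ 2 (bz (p + a)) := by
  have h : ∀ x y : Fin 2, ((x : ℕ) : ℤ) + ((y : ℕ) : ℤ) =
      (((x + y : Fin 2) : ℕ) : ℤ) + 2 * (((x : ℕ) : ℤ) * ((y : ℕ) : ℤ)) := by decide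
  have e : bz p + bz a = bz (p + a) + ((2 : ℕ) : ℤ) • (bz p * bz a) := funext fun i => h _ _
  rw [e, Thm_add_mul τ two_ne_zero]

omit [DecidableEq ι] in
theorem rie_U (hτ : InH τ) (p a b : ι → Fin 2) (x : ι ⊕ ι → ℝ) :
    U 2 (hf (bz (Sum.elim a b))) (Thm τ 2 (bz p)) x =
      ee ((cz (bz p) ⬝ᵥ cz (bz b) + cz (bz a) ⬝ᵥ cz (bz b) / 2) / 2) * Thm τ 2 (bz (p + a)) x := by
  have h := congrFun (U_Thm hτ.1 two_ne_zero (bz p) (bz (Sum.elim a b))) x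
  rw [← rie_thm, hf, one_div]
  simp only [Nat.cast_ofNat] at h
  exact h

omit [DecidableEq ι] in
theorem rie_phase (p q a b : ι → Fin 2) :
    chi (bz (Sum.elim a b)) * (ee ((cz (bz p) ⬝ᵥ cz (bz b) + cz (bz a) ⬝ᵥ cz (bz b) / 2) / 2) *
      ee ((cz (bz q) ⬝ᵥ cz (bz b) + cz (bz a) ⬝ᵥ cz (bz b) / 2) / 2)) =
      ee ((cz (bz p) - cz (bz q)) ⬝ᵥ cz (bz b) / 2) := by
  have h1 : chi (bz (Sum.elim a b)) = ee (cz (bz a) ⬝ᵥ cz (bz b) / 2) := by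
    rw [chi_eq, fa_rz, fb_rz]
    rfl
  have h2 : ee (cz (bz a) ⬝ᵥ cz (bz b)) = 1 := by rw [cz_dot, ee_int]
  have h3 : ee (cz (bz q) ⬝ᵥ cz (bz b)) = 1 := by rw [cz_dot, ee_int]
  rw [h1, ← ee_add, ← ee_add, ← mul_one (ee ((cz (bz p) - cz (bz q)) ⬝ᵥ cz (bz b) / 2)), ← h2,
    ← mul_one (ee (cz (bz a) ⬝ᵥ cz (bz b))), ← h3, ← ee_add, ← ee_add, sub_dotProduct]
  congr 1
  ring

/-- Riemann relation. Both sides by `Th_mul_Th`, `U_Th_mul`; `U_Thm` at level two; the sum over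
the second half of `e` gives `2^g` if `r = r'` (`sum_ee_div`), then reindex (`Thm_add_mul`). -/
theorem riemann_aux (hτ : InH τ) (u v w s : ι ⊕ ι → ℝ) :
    2 ^ Fintype.card ι * (Th τ (u + v) * Th τ (u - v) * Th τ (w + s) * Th τ (w - s)) =
      ∑ e : ι ⊕ ι → Fin 2, chi (bz e) *
        (U 1 (hf (bz e)) (Th τ) (u + w) * U 1 (hf (bz e)) (Th τ) (u - w) *
          U 1 (hf (bz e)) (Th τ) (v + s) * U 1 (hf (bz e)) (Th τ) (v - s)) := by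
  have hs : ∀ p q : ι → Fin 2, ∑ b : ι → Fin 2, ee ((cz (bz p) - cz (bz q)) ⬝ᵥ cz (bz b) / 2) =
      if p = q then (2 : ℂ) ^ Fintype.card ι else 0 := fun p q => by
    have h := sum_ee_div two_ne_zero p q
    simp only [Nat.cast_ofNat] at h
    exact h
  have h1 : ∀ a b : ι → Fin 2, chi (bz (Sum.elim a b)) *
      (U 1 (hf (bz (Sum.elim a b))) (Th τ) (u + w) * U 1 (hf (bz (Sum.elim a b))) (Th τ) (u - w) *
        U 1 (hf (bz (Sum.elim a b))) (Th τ) (v + s) * U 1 (hf (bz (Sum.elim a b))) (Th τ) (v - s)) =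
      ∑ p : ι → Fin 2, ∑ q : ι → Fin 2, ee ((cz (bz p) - cz (bz q)) ⬝ᵥ cz (bz b) / 2) *
        (Thm τ 2 (bz (p + a)) u * Thm τ 2 (bz p) w *
          (Thm τ 2 (bz (q + a)) v * Thm τ 2 (bz q) s)) := fun a b => by
    rw [mul_assoc _ (U 1 _ (Th τ) (v + s)), U_Th_mul hτ, U_Th_mul hτ, Finset.sum_mul_sum,
      Finset.mul_sum]
    refine Finset.sum_congr rfl fun p _ => ?_
    rw [Finset.mul_sum]
    refine Finset.sum_congr rfl fun q _ => ?_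
    rw [rie_U hτ, rie_U hτ, ← rie_phase p q a b]
    ring
  rw [← (Equiv.sumArrowEquivProdArrow ι ι (Fin 2)).symm.sum_comp, Fintype.sum_prod_type]
  have h2 : ∀ a : ι → Fin 2, ∑ b : ι → Fin 2, ∑ p : ι → Fin 2, ∑ q : ι → Fin 2,
      ee ((cz (bz p) - cz (bz q)) ⬝ᵥ cz (bz b) / 2) *
        (Thm τ 2 (bz (p + a)) u * Thm τ 2 (bz p) w *
          (Thm τ 2 (bz (q + a)) v * Thm τ 2 (bz q) s)) =
      ∑ p : ι → Fin 2, 2 ^ Fintype.card ι * (Thm τ 2 (bz (p + a)) u * Thm τ 2 (bz p) w *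
          (Thm τ 2 (bz (p + a)) v * Thm τ 2 (bz p) s)) := fun a => by
    rw [Finset.sum_comm]
    refine Finset.sum_congr rfl fun p _ => ?_
    rw [Finset.sum_comm]
    simp only [← Finset.sum_mul, hs, ite_mul, zero_mul, Finset.sum_ite_eq, Finset.mem_univ,
      if_true]
  refine Eq.trans ?_ (Finset.sum_congr rfl fun a _ =>
    ((Finset.sum_congr rfl fun b _ => h1 a b).trans (h2 a)).symm)
  rw [mul_assoc _ (Th τ (w + s)), Th_mul_Th hτ, Th_mul_Th hτ, Finset.sum_mul_sum, Finset.sum_comm,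
    Finset.mul_sum, Finset.sum_comm]
  refine Finset.sum_congr rfl fun p _ => ?_
  rw [Finset.mul_sum, ← Equiv.sum_comp (Equiv.addLeft p)]
  refine Finset.sum_congr rfl fun a _ => ?_
  rw [Equiv.coe_addLeft]
  ring

/-- Half of a signed sum. -/
noncomputable def hs (a b c d : ι ⊕ ι → ℝ) : ι ⊕ ι → ℝ := (1 / 2 : ℝ) • (a + b + c + d)

/-- Riemann relation with arbitrary real characteristics: apply `riemann_aux` at the points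
`x j + η j`; the phases agree because the Hadamard matrix over two is orthogonal. -/
theorem riemann (hτ : InH τ) (η₁ η₂ η₃ η₄ x₁ x₂ x₃ x₄ : ι ⊕ ι → ℝ) :
    2 ^ Fintype.card ι * (U 1 η₁ (Th τ) x₁ * U 1 η₂ (Th τ) x₂ * U 1 η₃ (Th τ) x₃ *
      U 1 η₄ (Th τ) x₄) =
      ∑ e : ι ⊕ ι → Fin 2, chi (bz e) * ee (E (hf (bz e)) η₁) *
        (U 1 (hs η₁ η₂ η₃ η₄ + hf (bz e)) (Th τ) (hs x₁ x₂ x₃ x₄) *
          U 1 (hs η₁ η₂ (-η₃) (-η₄) + hf (bz e)) (Th τ) (hs x₁ x₂ (-x₃) (-x₄)) *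
          U 1 (hs η₁ (-η₂) η₃ (-η₄) + hf (bz e)) (Th τ) (hs x₁ (-x₂) x₃ (-x₄)) *
          U 1 (hs η₁ (-η₂) (-η₃) η₄ + hf (bz e)) (Th τ) (hs x₁ (-x₂) (-x₃) x₄)) := by
  have h := riemann_aux hτ ((1 / 2 : ℝ) • (x₁ + η₁ + (x₂ + η₂))) ((1 / 2 : ℝ) • (x₁ + η₁ - (x₂ + η₂)))
    ((1 / 2 : ℝ) • (x₃ + η₃ + (x₄ + η₄))) ((1 / 2 : ℝ) • (x₃ + η₃ - (x₄ + η₄)))
  have a1 : ∀ y z : ι ⊕ ι → ℝ, (1 / 2 : ℝ) • (y + z) + (1 / 2 : ℝ) • (y - z) = y := fun y z => by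
    module
  have a2 : ∀ y z : ι ⊕ ι → ℝ, (1 / 2 : ℝ) • (y + z) - (1 / 2 : ℝ) • (y - z) = z := fun y z => by
    module
  have b1 : (1 / 2 : ℝ) • (x₁ + η₁ + (x₂ + η₂)) + (1 / 2 : ℝ) • (x₃ + η₃ + (x₄ + η₄)) =
      hs x₁ x₂ x₃ x₄ + hs η₁ η₂ η₃ η₄ := by
    simp only [hs]
    module
  have b2 : (1 / 2 : ℝ) • (x₁ + η₁ + (x₂ + η₂)) - (1 / 2 : ℝ) • (x₃ + η₃ + (x₄ + η₄)) =
      hs x₁ x₂ (-x₃) (-x₄) + hs η₁ η₂ (-η₃) (-η₄) := by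
    simp only [hs]
    module
  have b3 : (1 / 2 : ℝ) • (x₁ + η₁ - (x₂ + η₂)) + (1 / 2 : ℝ) • (x₃ + η₃ - (x₄ + η₄)) =
      hs x₁ (-x₂) x₃ (-x₄) + hs η₁ (-η₂) η₃ (-η₄) := by
    simp only [hs]
    module
  have b4 : (1 / 2 : ℝ) • (x₁ + η₁ - (x₂ + η₂)) - (1 / 2 : ℝ) • (x₃ + η₃ - (x₄ + η₄)) =
      hs x₁ (-x₂) (-x₃) x₄ + hs η₁ (-η₂) (-η₃) η₄ := by
    simp only [hs]
    module
  rw [a1, a2, a1, a2, b1, b2, b3, b4] at h
  have key : ∀ (c c₁ c₂ c₃ c₄ t₁ t₂ t₃ t₄ : ℂ), ee c₁ * t₁ * (ee c₂ * t₂) * (ee c₃ * t₃) *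
      (ee c₄ * t₄) * ee c = ee (c + c₁ + c₂ + c₃ + c₄) * (t₁ * t₂ * t₃ * t₄) := by
    intro c c₁ c₂ c₃ c₄ t₁ t₂ t₃ t₄
    simp only [ee_add]
    ring
  have h0 := key 0 (((1 : ℝ) : ℂ) * E η₁ x₁ / 2) (((1 : ℝ) : ℂ) * E η₂ x₂ / 2)
    (((1 : ℝ) : ℂ) * E η₃ x₃ / 2) (((1 : ℝ) : ℂ) * E η₄ x₄ / 2) (Th τ (x₁ + η₁)) (Th τ (x₂ + η₂))
    (Th τ (x₃ + η₃)) (Th τ (x₄ + η₄))
  rw [ee_zero, mul_one] at h0
  rw [U_apply, U_apply, U_apply, U_apply, h0, mul_left_comm, h, Finset.mul_sum]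
  refine Finset.sum_congr rfl fun e _ => ?_
  generalize hf (bz e) = ε
  rw [mul_left_comm, mul_assoc (chi _)]
  congr 1
  simp only [U_apply, add_assoc]
  rw [mul_comm, key, mul_comm (ee (E ε η₁ : ℝ)), key]
  congr 2
  norm_cast
  simp only [hs, E_add_left, E_add_right, E_smul_left, E_smul_right, E_neg_left, E_neg_right]
  ring

/-- Riemann relation in the level four coordinates. -/
theorem riemann_XX (hτ : InH τ) {i j k l s : ι ⊕ ι → ℤ} (h : i + j + k + l = (2 : ℤ) • s)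
    (x₁ x₂ x₃ x₄ : ι ⊕ ι → ℝ) :
    2 ^ Fintype.card ι * (XX τ i x₁ * XX τ j x₂ * XX τ k x₃ * XX τ l x₄) =
      ∑ e : ι ⊕ ι → Fin 2, chi (bz e) * ee (E (hf (bz e)) (hf i)) *
        (XX τ (s + bz e) (hs x₁ x₂ x₃ x₄) * XX τ (s - k - l + bz e) (hs x₁ x₂ (-x₃) (-x₄)) *
          XX τ (s - j - l + bz e) (hs x₁ (-x₂) x₃ (-x₄)) *
          XX τ (s - j - k + bz e) (hs x₁ (-x₂) (-x₃) x₄)) := by
  have h0 := riemann hτ (hf i) (hf j) (hf k) (hf l) ((2 : ℝ) • x₁) ((2 : ℝ) • x₂) ((2 : ℝ) • x₃)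
    ((2 : ℝ) • x₄)
  have hi : hf i = (2 : ℝ) • hf s - hf j - hf k - hf l := by
    rw [two_smul_hf, ← hf_two, ← h, hf_add, hf_add, hf_add]
    abel
  have b1 : hs (hf i) (hf j) (hf k) (hf l) = hf s := by
    rw [hs, hi]
    module
  have b2 : hs (hf i) (hf j) (-hf k) (-hf l) = hf (s - k - l) := by
    rw [hs, hi, hf_sub, hf_sub]
    module
  have b3 : hs (hf i) (-hf j) (hf k) (-hf l) = hf (s - j - l) := by
    rw [hs, hi, hf_sub, hf_sub]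
    module
  have b4 : hs (hf i) (-hf j) (-hf k) (hf l) = hf (s - j - k) := by
    rw [hs, hi, hf_sub, hf_sub]
    module
  have c : ∀ a b c d : ι ⊕ ι → ℝ, hs ((2 : ℝ) • a) ((2 : ℝ) • b) ((2 : ℝ) • c) ((2 : ℝ) • d) =
      (2 : ℝ) • hs a b c d := fun a b c d => by
    simp only [hs]
    module
  simp only [← smul_neg, c, b1, b2, b3, b4, ← hf_add] at h0
  exact h0

end M4
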