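import Mathlib
import Pool.Agent.Lib.MP_33b3f9_ag.M4.ThIrr
import Pool.Agent.Lib.MP_33b3f9_ag.M4.ThRie

/-!
Base point freeness and the addition law.
-/

set_option autoImplicit false

namespace M4

open Complex Matrix

variable {ι : Type} [Fintype ι] [DecidableEq ι] {τ : Matrix ι ι ℂ}

omit [DecidableEq ι] in
/-- `f = U 1 t Th * U 1 (c - t) Th` with `t` generic (`exists_forall_ne_zero`). -/
theorem Gam_two_bpf (hτ : InH τ) (c x : ι ⊕ ι → ℝ) : ∃ f ∈ Gam τ 2 c, f x ≠ 0 := by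
  classical
  obtain ⟨t, ht⟩ := exists_forall_ne_zero hτ (α := Bool) (m := fun _ => 1) (f := fun _ => Th τ)
    (fun _ => Th_mem_Hol hτ) (fun _ => Th_ne_zero hτ) (fun b => if b then x else x + c)
    (fun b => if b then 1 else -1) (fun b => by cases b <;> simp)
  have h1 : Th τ (x + t) ≠ 0 := by simpa using ht true
  have h2 : Th τ (x + (c - t)) ≠ 0 := by
    have := ht false
    simp only [Bool.false_eq_true, if_false, neg_smul, one_smul] at this
    rwa [add_assoc, ← sub_eq_add_neg] at this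
  have h3 := Gam.mul (U_Th_mem hτ t) (U_Th_mem hτ (c - t))
  rw [add_sub_cancel] at h3
  refine ⟨_, h3, ?_⟩
  rw [Pi.mul_apply, U_apply, U_apply]
  exact mul_ne_zero (mul_ne_zero (ee_ne_zero _) h1) (mul_ne_zero (ee_ne_zero _) h2)

omit [DecidableEq ι] in
/-- The same with `m` factors, or multiply by a generic translate and induct on `m`. -/
theorem Gam_bpf (hτ : InH τ) {m : ℕ} (hm : 2 ≤ m) (c x : ι ⊕ ι → ℝ) :
    ∃ f ∈ Gam τ m c, f x ≠ 0 := by
  classical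
  induction m, hm using Nat.le_induction generalizing c with
  | base => exact Gam_two_bpf hτ c x
  | succ n _ ih =>
    obtain ⟨y, hy⟩ := Function.ne_iff.1 (Th_ne_zero hτ)
    obtain ⟨g, hg, hgx⟩ := ih (c - (y - x))
    have h3 := Gam.mul hg (U_Th_mem hτ (y - x))
    rw [sub_add_cancel] at h3
    refine ⟨_, h3, ?_⟩
    rw [Pi.mul_apply, U_apply, add_sub_cancel]
    exact mul_ne_zero hgx (mul_ne_zero (ee_ne_zero _) hy)

theorem bpf_span {α X : Type} {g : α → X → ℂ} {f : X → ℂ}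
    (hf : f ∈ Submodule.span ℂ (Set.range g)) {x : X} (hx : f x ≠ 0) : ∃ i, g i x ≠ 0 := by
  by_contra h
  push Not at h
  apply hx
  induction hf using Submodule.span_induction with
  | mem f hf =>
    obtain ⟨i, rfl⟩ := hf
    exact h i
  | zero => rfl
  | add f f' _ _ h1 h2 =>
    by_contra h3
    by_cases h4 : f x = 0
    · exact h3 (by rw [Pi.add_apply, h4, zero_add]; by_contra h5; exact h5 (h2 h5))
    · exact h4 (h1 h4)
  | smul c f _ h1 =>
    by_cases h4 : f x = 0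
    · rw [Pi.smul_apply, h4, smul_zero]
    · exact absurd (h1 h4) h4

omit [DecidableEq ι] in
theorem Thm_bpf (hτ : InH τ) {m : ℕ} (hm : 2 ≤ m) (x : ι ⊕ ι → ℝ) :
    ∃ r : ι → Fin m, Thm τ m (fz r) x ≠ 0 := by
  classical
  obtain ⟨f, hf, hx⟩ := Gam_bpf hτ hm 0 x
  rw [← span_Thm hτ (by omega)] at hf
  exact bpf_span hf hx

omit [DecidableEq ι] in
theorem XX_bpf (hτ : InH τ) (x : ι ⊕ ι → ℝ) : ∃ e : ι ⊕ ι → Fin 2, XX τ (bz e) x ≠ 0 := by
  classical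
  obtain ⟨f, hf, hx⟩ := Gam_bpf hτ (m := 4) (by norm_num) 0 x
  rw [← span_XX hτ] at hf
  exact bpf_span hf hx

/-- Fourier inversion on `(ℤ / 2)^ι`. -/
theorem bpf_inv {F : (ι → Fin 2) → ℂ}
    (h : ∀ s : ι → Fin 2, ∑ r, ee (cz (bz r) ⬝ᵥ cz (bz s) / 2) * F r = 0) (r₀ : ι → Fin 2) :
    F r₀ = 0 := by
  have h1 : ∑ s : ι → Fin 2, ee (-(cz (bz r₀) ⬝ᵥ cz (bz s) / 2)) *
      ∑ r, ee (cz (bz r) ⬝ᵥ cz (bz s) / 2) * F r = 0 := by simp [h]
  simp only [Finset.mul_sum] at h1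
  rw [Finset.sum_comm] at h1
  have h2 : ∀ r : ι → Fin 2, ∑ s : ι → Fin 2, ee (-(cz (bz r₀) ⬝ᵥ cz (bz s) / 2)) *
      (ee (cz (bz r) ⬝ᵥ cz (bz s) / 2) * F r) =
        if r = r₀ then (2 : ℂ) ^ Fintype.card ι * F r else 0 := by
    intro r
    have h3 := sum_ee_div (m := 2) two_ne_zero r r₀
    rw [Nat.cast_ofNat] at h3
    rw [← zero_mul (F r), ← ite_mul, ← h3, Finset.sum_mul]
    refine Finset.sum_congr rfl fun s _ => ?_
    rw [← mul_assoc, ← ee_add, sub_dotProduct]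
    congr 2
    change _ = (cz (bz r) ⬝ᵥ cz (bz s) - cz (bz r₀) ⬝ᵥ cz (bz s)) / 2
    ring
  simp only [h2, Finset.sum_ite_eq', Finset.mem_univ, if_true] at h1
  exact (mul_eq_zero.1 h1).resolve_left (pow_ne_zero _ two_ne_zero)

omit [DecidableEq ι] in
/-- With `u = p + q`, `w = p - q`: `U_Th_mul`, `U_Thm` and `sum_ee_div` show that vanishing for
all `e` gives `Thm (r + a) p * Thm r q = 0` for all `r, a`, against `Thm_bpf`. -/
theorem Th_nv (hτ : InH τ) (u w : ι ⊕ ι → ℝ) :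
    ∃ e : ι ⊕ ι → Fin 2, Th τ (u + hf (bz e)) ≠ 0 ∧ Th τ (w + hf (bz e)) ≠ 0 := by
  classical
  by_contra hne
  push Not at hne
  obtain ⟨p, q, rfl, rfl⟩ : ∃ p q : ι ⊕ ι → ℝ, u = p + q ∧ w = p - q :=
    ⟨(1 / 2 : ℝ) • (u + w), (1 / 2 : ℝ) • (u - w), by funext i; simp; ring, by funext i; simp; ring⟩
  have key : ∀ a r : ι → Fin 2, Thm τ 2 (bz r + bz a) p * Thm τ 2 (bz r) q = 0 := by
    intro a
    refine bpf_inv fun s => ?_
    have h0 : U 1 (hf (bz (Sum.elim a s))) (Th τ) (p + q) *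
        U 1 (hf (bz (Sum.elim a s))) (Th τ) (p - q) = 0 := by
      rw [U_apply, U_apply]
      by_cases h : Th τ (p + q + hf (bz (Sum.elim a s))) = 0
      · rw [h, mul_zero, zero_mul]
      · rw [hne _ h, mul_zero, mul_zero]
    rw [U_Th_mul hτ] at h0
    have h1 : ∀ r : ι → Fin 2, U 2 (hf (bz (Sum.elim a s))) (Thm τ 2 (bz r)) =
        ee ((cz (bz r) ⬝ᵥ cz (bz s) + cz (bz a) ⬝ᵥ cz (bz s) / 2) / 2) •
          Thm τ 2 (bz r + bz a) := by
      intro r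
      have := U_Thm hτ.1 (m := 2) two_ne_zero (bz r) (bz (Sum.elim a s))
      rw [Nat.cast_ofNat, Nat.cast_ofNat] at this
      rw [hf, one_div]
      exact this
    apply mul_left_cancel₀ (ee_ne_zero (cz (bz a) ⬝ᵥ cz (bz s) / 2 / 2))
    rw [mul_zero, ← h0, Finset.mul_sum]
    refine Finset.sum_congr rfl fun r _ => ?_
    rw [h1, Pi.smul_apply, smul_eq_mul, add_div, ee_add]
    ring
  obtain ⟨r₀, h₀⟩ := Thm_bpf hτ le_rfl q
  obtain ⟨r₁, h₁⟩ := Thm_bpf hτ le_rfl p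
  obtain ⟨a, n, ha⟩ := exists_bz (bz r₁ - bz r₀)
  have h2 := Thm_add_mul τ (m := 2) two_ne_zero (bz r₀ + bz a) n
  rw [Nat.cast_ofNat, add_assoc, ← ha, add_sub_cancel] at h2
  have h3 := key a r₀
  rw [← h2] at h3
  exact mul_ne_zero h₁ h₀ h3

omit [DecidableEq ι] in
/-- `Th_nv` at `u = 2 x`, `w = 2 x + c / 2`; `k = e`, `l = c + e`, `s = c + e`. -/
theorem XX_nv (hτ : InH τ) (x : ι ⊕ ι → ℝ) (c : ι ⊕ ι → ℤ) : ∃ k l s : ι ⊕ ι → ℤ,
    c + k + l = (2 : ℤ) • s ∧ XX τ k x ≠ 0 ∧ XX τ l x ≠ 0 := by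
  obtain ⟨e, h1, h2⟩ := Th_nv hτ ((2 : ℝ) • x) ((2 : ℝ) • x + hf c)
  refine ⟨bz e, c + bz e, c + bz e, by rw [two_smul], ?_, ?_⟩
  · rw [XX, U_apply]
    exact mul_ne_zero (ee_ne_zero _) h1
  · rw [XX, U_apply, hf_add, ← add_assoc]
    exact mul_ne_zero (ee_ne_zero _) h2

/-- The addition law, explicit form (`riemann_XX` at `x + y, x - y, 0, 0`). -/
theorem XX_law (hτ : InH τ) {i j k l s : ι ⊕ ι → ℤ} (h : i + j + k + l = (2 : ℤ) • s)
    (x y : ι ⊕ ι → ℝ) :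
    2 ^ Fintype.card ι * (XX τ i (x + y) * XX τ j (x - y) * Th τ (hf k) * Th τ (hf l)) =
      ∑ e : ι ⊕ ι → Fin 2, chi (bz e) * ee (E (hf (bz e)) (hf i)) *
        (XX τ (s + bz e) x * XX τ (s - k - l + bz e) x *
          XX τ (s - j - l + bz e) y * XX τ (s - j - k + bz e) y) := by
  have h0 := riemann_XX hτ h (x + y) (x - y) 0 0
  have h1 : hs (x + y) (x - y) 0 0 = x := by funext t; simp [hs]; ring
  have h2 : hs (x + y) (-(x - y)) 0 0 = y := by funext t; simp [hs]; ring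
  rw [neg_zero, h1, h2, XX_zero, XX_zero] at h0
  exact h0

/-- The halving formula (`riemann_XX` at `x, x, x, x`). -/
theorem XX_dup (hτ : InH τ) {i j k l s : ι ⊕ ι → ℤ} (h : i + j + k + l = (2 : ℤ) • s)
    (x : ι ⊕ ι → ℝ) :
    2 ^ Fintype.card ι * (XX τ i x * XX τ j x * XX τ k x * XX τ l x) =
      ∑ e : ι ⊕ ι → Fin 2, chi (bz e) * ee (E (hf (bz e)) (hf i)) *
        (XX τ (s + bz e) ((2 : ℝ) • x) * Th τ (hf (s - k - l + bz e)) *
          Th τ (hf (s - j - l + bz e)) * Th τ (hf (s - j - k + bz e))) := by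
  have h0 := riemann_XX hτ h x x x x
  have h1 : hs x x x x = (2 : ℝ) • x := by funext t; simp [hs]; ring
  have h2 : hs x x (-x) (-x) = 0 := by funext t; simp [hs]
  have h3 : hs x (-x) x (-x) = 0 := by funext t; simp [hs]
  have h4 : hs x (-x) (-x) x = 0 := by funext t; simp [hs]
  rw [h1, h2, h3, h4] at h0
  simpa only [XX_zero] using h0

/-- The addition law, abstract form: a finite sum of products of four sections. -/
theorem XX_law' (hτ : InH τ) (i j : ι ⊕ ι → ℤ) :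
    ∃ (c : (ι ⊕ ι → Fin 2) → ℂ) (p q r s : (ι ⊕ ι → Fin 2) → ι ⊕ ι → ℤ), ∀ x y,
      XX τ i (x + y) * XX τ j (x - y) =
        ∑ e, c e * (XX τ (p e) x * XX τ (q e) x) * (XX τ (r e) y * XX τ (s e) y) := by
  obtain ⟨k, l, s, h, hk, hl⟩ := XX_nv hτ 0 (i + j)
  rw [XX_zero] at hk hl
  have hD : (2 : ℂ) ^ Fintype.card ι * (Th τ (hf k) * Th τ (hf l)) ≠ 0 :=
    mul_ne_zero (pow_ne_zero _ two_ne_zero) (mul_ne_zero hk hl)
  refine ⟨fun e => (2 ^ Fintype.card ι * (Th τ (hf k) * Th τ (hf l)))⁻¹ *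
      (chi (bz e) * ee (E (hf (bz e)) (hf i))), fun e => s + bz e, fun e => s - k - l + bz e,
    fun e => s - j - l + bz e, fun e => s - j - k + bz e, fun x y => ?_⟩
  apply mul_left_cancel₀ hD
  refine Eq.trans (by ring) ((XX_law hτ h x y).trans ?_)
  rw [Finset.mul_sum]
  refine Finset.sum_congr rfl fun e _ => ?_
  rw [← mul_assoc, ← mul_assoc (2 ^ Fintype.card ι * (Th τ (hf k) * Th τ (hf l))),
    ← mul_assoc (2 ^ Fintype.card ι * (Th τ (hf k) * Th τ (hf l))),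
    ← mul_assoc (2 ^ Fintype.card ι * (Th τ (hf k) * Th τ (hf l))), mul_inv_cancel₀ hD]
  ring

end M4
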