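import Mathlib
import Pool.Agent.Lib.MP_33b3f9_ag.M4.ThId

/-!
Density, boundedness and Liouville type statements.
-/

set_option autoImplicit false

namespace M4

open Complex Matrix

variable {ι : Type} [Fintype ι] {τ : Matrix ι ι ℂ}

theorem thlio_dense {κ : Type} [Fintype κ] {s : Set ℕ} (hs : s.Infinite) :
    Dense {x : κ → ℝ | ∃ k ∈ s, ∃ n : κ → ℤ, x = (k : ℝ)⁻¹ • rz n} := by
  refine Metric.dense_iff.2 fun x r hr => ?_
  obtain ⟨N, hN⟩ := exists_nat_gt r⁻¹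
  obtain ⟨k, hk, hNk⟩ := hs.exists_gt N
  have h1 : r⁻¹ < k := hN.trans (Nat.cast_lt.2 hNk)
  have h2 : (0 : ℝ) < k := (inv_pos.2 hr).trans h1
  refine ⟨_, ?_, k, hk, fun i => ⌊k * x i⌋, rfl⟩
  rw [Metric.mem_ball, dist_pi_lt_iff hr]
  intro i
  have e : x i - (k : ℝ)⁻¹ * (⌊k * x i⌋ : ℤ) = (k : ℝ)⁻¹ * Int.fract (k * x i) := by
    rw [Int.fract, mul_sub, inv_mul_cancel_left₀ h2.ne']
  rw [dist_comm, Real.dist_eq]
  show |x i - (k : ℝ)⁻¹ * (⌊k * x i⌋ : ℤ)| < r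
  rw [e, abs_of_nonneg (mul_nonneg (inv_pos.2 h2).le (Int.fract_nonneg _))]
  exact (mul_lt_of_lt_one_right (inv_pos.2 h2) (Int.fract_lt_one _)).trans
    ((inv_lt_comm₀ h2 hr).2 h1)

theorem dense_dyadic {κ : Type} [Fintype κ] :
    Dense {x : κ → ℝ | ∃ (k : ℕ) (n : κ → ℤ), x = ((2 : ℝ) ^ k)⁻¹ • rz n} := by
  refine (thlio_dense (Set.infinite_range_of_injective
    (Nat.pow_right_injective (le_refl 2)))).mono ?_
  rintro _ ⟨_, ⟨k, rfl⟩, n, rfl⟩
  exact ⟨k, n, by simp⟩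

theorem dense_div {κ : Type} [Fintype κ] {s : Set ℕ} (hs : s.Infinite) :
    Dense {x : κ → ℝ | ∃ k ∈ s, ∃ n : κ → ℤ, x = (k : ℝ)⁻¹ • rz n} :=
  thlio_dense hs

/-- A continuous function with periodic norm is bounded (compact unit cube). -/
theorem bounded_of_periodic {κ : Type} [Fintype κ] {f : (κ → ℝ) → ℂ} (hf : Continuous f)
    (hp : ∀ x n, ‖f (x + rz n)‖ = ‖f x‖) : ∃ C, ∀ x, ‖f x‖ ≤ C := by
  obtain ⟨C, hC⟩ := (isCompact_Icc (a := (0 : κ → ℝ)) (b := 1)).exists_bound_of_continuousOn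
    hf.continuousOn
  refine ⟨C, fun x => ?_⟩
  have e : x = (fun i => Int.fract (x i)) + rz fun i => ⌊x i⌋ := funext fun i => by simp [rz]
  rw [e, hp]
  exact hC _ ⟨fun i => Int.fract_nonneg _, fun i => (Int.fract_lt_one _).le⟩

theorem Gam.bounded {m : ℕ} {c : ι ⊕ ι → ℝ} {f : (ι ⊕ ι → ℝ) → ℂ} (hf : f ∈ Gam τ m c) :
    ∃ C, ∀ x, ‖f x‖ ≤ C :=
  bounded_of_periodic (Hol.continuous hf.1) (Gam.norm_add_rz hf)

/-- Liouville: `Differentiable.apply_eq_apply_of_bounded`. -/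
theorem Hol.const_of_periodic (hτ : InH τ) {f : (ι ⊕ ι → ℝ) → ℂ} (hf : f ∈ Hol τ 0)
    (hp : ∀ x n, ‖f (x + rz n)‖ = ‖f x‖) (x : ι ⊕ ι → ℝ) : f x = f 0 := by
  obtain ⟨C, hC⟩ := bounded_of_periodic (Hol.continuous hf) hp
  obtain ⟨F, hF, he⟩ := hf
  simp only [ofReal_zero, zero_mul, zero_div, ee_zero, one_mul] at he
  rw [he, he]
  refine hF.apply_eq_apply_of_bounded (isBounded_iff_forall_norm_le.2 ⟨C, ?_⟩) _ _
  rintro _ ⟨z, rfl⟩
  obtain ⟨y, rfl⟩ := (per_bijective hτ).2 z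
  rw [← he]
  exact hC y

/-- A common ratio is entire: near a point where `G i ≠ 0` it is `F i / G i`. -/
theorem entire_of_ratio {α : Type} {F G : α → (ι → ℂ) → ℂ} (hF : ∀ i, Differentiable ℂ (F i))
    (hG : ∀ i, Differentiable ℂ (G i)) (h0 : ∀ z, ∃ i, G i z ≠ 0) {μ : (ι → ℂ) → ℂ}
    (h : ∀ i z, F i z = μ z * G i z) : Differentiable ℂ μ := by
  intro z
  obtain ⟨i, hi⟩ := h0 z
  refine ((hF i z).mul ((hG i z).inv hi)).congr_of_eventuallyEq ?_
  filter_upwards [(hG i).continuous.continuousAt.eventually_ne hi] with w hw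
  rw [Pi.mul_apply, Pi.inv_apply, h, mul_inv_cancel_right₀ hw]

/-- A common ratio is holomorphic: near a point where `g i ≠ 0` it is `f i / g i`. -/
theorem Hol.of_ratio (hτ : InH τ) {α : Type} {m n : ℝ} {f g : α → (ι ⊕ ι → ℝ) → ℂ}
    (hf : ∀ i, f i ∈ Hol τ (n + m)) (hg : ∀ i, g i ∈ Hol τ m) (h0 : ∀ x, ∃ i, g i x ≠ 0)
    {μ : (ι ⊕ ι → ℝ) → ℂ} (h : ∀ i x, f i x = μ x * g i x) : μ ∈ Hol τ n := by
  choose F hF eF using hf
  choose G hG eG using hg
  obtain ⟨σ, hσ, hσ'⟩ := Function.bijective_iff_has_inverse.1 (per_bijective hτ)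
  refine ⟨fun z => ee (-(n * (fa (σ z) ⬝ᵥ z) / 2)) * μ (σ z),
    entire_of_ratio hF hG (fun z => ?_) fun i z => ?_, fun x => ?_⟩
  · obtain ⟨i, hi⟩ := h0 (σ z)
    rw [eG, hσ' z] at hi
    exact ⟨i, right_ne_zero_of_mul hi⟩
  · have h1 := h i (σ z)
    rw [eF, eG, hσ' z] at h1
    refine mul_left_cancel₀ (ee_ne_zero (((n + m : ℝ) : ℂ) * (fa (σ z) ⬝ᵥ z) / 2)) ?_
    have h2 : ee (((n + m : ℝ) : ℂ) * (fa (σ z) ⬝ᵥ z) / 2) * ee (-(n * (fa (σ z) ⬝ᵥ z) / 2)) =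
        ee (m * (fa (σ z) ⬝ᵥ z) / 2) := by
      rw [← ee_add]
      congr 1
      push_cast
      ring
    rw [h1, ← h2]
    ring
  · beta_reduce
    rw [hσ x, ← mul_assoc, ← ee_add, add_neg_cancel, ee_zero, one_mul]

/-- An entire function that changes by constants under the lattice: the directional derivatives are
entire and periodic, so constant (`Osg.differentiableOn_fderiv_of_isOpen`, Liouville); the linear
part vanishes on the real unit vectors, so `μ` is constant. -/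
theorem entire_const_of_shift (hτ : InH τ) {μ : (ι → ℂ) → ℂ} (hμ : Differentiable ℂ μ)
    (v : ι → ℂ) (h : ∀ (n : ι ⊕ ι → ℤ) z, μ (z + per τ (rz n)) = μ z + fa (rz n) ⬝ᵥ v) :
    v = 0 := by
  classical
  have h1 : ∀ z w, μ (z + w) - μ z = μ w - μ 0 := by
    intro z w
    obtain ⟨x, rfl⟩ := (per_bijective hτ).2 z
    have h2 := Hol.const_of_periodic hτ (f := fun x => μ (per τ x + w) - μ (per τ x))
      ⟨fun z => μ (z + w) - μ z, by fun_prop, fun x => by simp⟩ (fun x n => by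
        rw [per_add, add_right_comm, h, h, add_sub_add_right_eq_sub]) x
    simpa using h2
  let A : (ι → ℝ) →+ ℂ := AddMonoidHom.mk' (fun b => μ (fun i => (b i : ℂ)) - μ 0) fun b c => by
    have e : (fun i => ((b + c) i : ℂ)) = (fun i => (b i : ℂ)) + fun i => (c i : ℂ) :=
      funext fun i => by simp
    rw [e, ← h1 (fun i => (b i : ℂ)) fun i => (c i : ℂ)]
    ring
  have hA : Continuous A := by
    have := hμ.continuous
    show Continuous fun b : ι → ℝ => μ (fun i => (b i : ℂ)) - μ 0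
    fun_prop
  have h3 : ∀ i, A (Pi.single i 1) = 0 := by
    intro i
    have e1 : fa (rz (Pi.single (Sum.inr i) 1 : ι ⊕ ι → ℤ)) = 0 := funext fun j => by simp [fa, rz]
    have e2 : per τ (rz (Pi.single (Sum.inr i) 1 : ι ⊕ ι → ℤ)) =
        fun j => ((Pi.single i 1 : ι → ℝ) j : ℂ) := by
      rw [per, e1, mulVec_zero, zero_add]
      funext j
      by_cases hj : j = i <;> simp [fb, rz, hj]
    have h4 := h (Pi.single (Sum.inr i) 1) 0
    rw [e1, e2, zero_add, zero_dotProduct, add_zero] at h4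
    exact sub_eq_zero.2 h4
  have h5 : (fun z => μ z - μ 0) = 0 := entire_eq_zero_of_real (by fun_prop) 0 fun b => by
    rw [zero_add]
    show A b = 0
    rw [pi_eq_sum_univ' b, map_sum]
    exact Finset.sum_eq_zero fun i _ => by rw [map_real_smul A hA, h3, smul_zero]
  funext i
  have h6 := h (Pi.single (Sum.inl i) 1) 0
  have e3 : fa (rz (Pi.single (Sum.inl i) 1 : ι ⊕ ι → ℤ)) = Pi.single i 1 := funext fun j => by
    by_cases hj : j = i <;> simp [fa, rz, hj]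
  rw [sub_eq_zero.1 (congrFun h5 _), e3, single_one_dotProduct] at h6
  exact left_eq_add.1 h6

end M4
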