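import Mathlib
import Pool.Agent.Lib.MP_33b3f9_ag.M4.ThBpf
import Pool.Agent.Lib.MP_33b3f9_ag.M4.ThLio

/-!
The level four coordinates separate points and tangent vectors.
-/

set_option autoImplicit false

namespace M4

open Complex Matrix

variable {ι : Type} [Fintype ι] {τ : Matrix ι ι ℂ}

/-- By `XX_law'`, `XX i (x + w) XX j (x - w) = μ ^ 2 XX i (y + w) XX j (y - w)` for all `w`. With
`XX_bpf`: `U 4 d (XX i) = ν * XX i` for a function `ν`, `d = x - y`; `ν ∈ Hol τ 0`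
(`Hol.of_ratio`), its norm is periodic, so it is constant (`Hol.const_of_periodic`); `span_XX`,
`Gam_schur`. -/
theorem XX_inj (hτ : InH τ) {x y : ι ⊕ ι → ℝ} {μ : ℂ}
    (h : ∀ e : ι ⊕ ι → Fin 2, XX τ (bz e) x = μ * XX τ (bz e) y) : ∃ n, x - y = rz n := by
  classical
  have h1 : ∀ k : ι ⊕ ι → ℤ, XX τ k x = μ * XX τ k y := fun k => by
    obtain ⟨e, n, rfl⟩ := exists_bz k
    rw [XX_add_two, Pi.smul_apply, Pi.smul_apply, smul_eq_mul, smul_eq_mul, h, mul_left_comm]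
  have h2 : ∀ (i j : ι ⊕ ι → ℤ) w, XX τ i (x + w) * XX τ j (x - w) =
      μ ^ 2 * (XX τ i (y + w) * XX τ j (y - w)) := fun i j w => by
    obtain ⟨c, p, q, r, s, hl⟩ := XX_law' hτ i j
    rw [hl, hl, Finset.mul_sum]
    refine Finset.sum_congr rfl fun e _ => ?_
    rw [h1, h1 (q e)]
    ring
  have h3 : ∀ u, ∃ ν : ℂ, ∀ e : ι ⊕ ι → Fin 2,
      U 4 (x - y) (XX τ (bz e)) u = ν * XX τ (bz e) u := fun u => by
    obtain ⟨j, hj⟩ := XX_bpf hτ (x - (u - y))
    refine ⟨ee (((4 : ℝ) : ℂ) * E (x - y) u / 2) * μ ^ 2 * XX τ (bz j) (y - (u - y)) /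
      XX τ (bz j) (x - (u - y)), fun e => ?_⟩
    have h4 := h2 (bz e) (bz j) (u - y)
    rw [show x + (u - y) = u + (x - y) by abel, show y + (u - y) = u by abel] at h4
    rw [U_apply, div_mul_eq_mul_div, eq_div_iff hj, mul_assoc, h4]
    ring
  choose ν hν using h3
  have hm : ∀ e : ι ⊕ ι → Fin 2, XX τ (bz e) ∈ Gam τ 4 0 := fun e => XX_mem hτ _
  have hm' : ∀ e : ι ⊕ ι → Fin 2, U 4 (x - y) (XX τ (bz e)) ∈ Gam τ 4 (0 + (4 : ℝ) • (x - y)) :=
    fun e => by exact_mod_cast Gam.U hτ.1 (hm e) (x - y)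
  have h5 : ν ∈ Hol τ 0 :=
    Hol.of_ratio hτ (m := 4) (f := fun e : ι ⊕ ι → Fin 2 => U 4 (x - y) (XX τ (bz e)))
      (g := fun e => XX τ (bz e)) (fun e => by simpa using (hm' e).1)
      (fun e => by simpa using (hm e).1) (XX_bpf hτ) fun e u => hν u e
  have h6 : ∀ u n, ‖ν (u + rz n)‖ = ‖ν u‖ := fun u n => by
    obtain ⟨e, he⟩ := XX_bpf hτ u
    have a1 := Gam.norm_add_rz (hm' e) u n
    rw [hν, hν, norm_mul, norm_mul, Gam.norm_add_rz (hm e) u n] at a1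
    exact mul_right_cancel₀ (norm_ne_zero_iff.2 he) a1
  refine Gam_schur hτ (m := 4) (by norm_num) (μ := ν 0) fun f hf => ?_
  rw [← span_XX hτ] at hf
  rw [Nat.cast_ofNat]
  induction hf using Submodule.span_induction with
  | mem g hg =>
    obtain ⟨e, rfl⟩ := hg
    funext u
    rw [hν, Hol.const_of_periodic hτ h5 h6 u]
    rfl
  | zero => rw [smul_zero, U_eq_zero]
  | add f g _ _ hf hg => rw [U_add, hf, hg, smul_add]
  | smul c f _ hf => rw [U_smul, hf, smul_comm]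

end M4
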