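import Pool.Agent.Lib.MP_33b3f9_ag.M4.CmDefs
import Pool.Agent.Lib.MP_33b3f9_ag.M4.CBOpen

/-!
Block B3a: the kernels are open.
-/

set_option autoImplicit false

noncomputable section

namespace M4.CM

theorem alg_of_finite (K : IntermediateField ℚ ℂ) [FiniteDimensional ℚ K] {z : ℂ}
    (h : (Set.range fun σ : ℂ ≃ₐ[K] ℂ => σ z).Finite) : IsAlgebraic ℚ z := CB.alg_of_finite K h

theorem opn {τ : Mat} {K : IntermediateField ℚ ℂ} {r : Rep K} (h : AV τ K r) : Opn r := by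
  intro N hN
  obtain ⟨K₁, h1, h2⟩ := CB.open_mod h hN
  refine ⟨K₁, h1, fun σ hσ l _ i j => ?_⟩
  simpa [Matrix.one_apply] using h2 σ hσ l i j

end M4.CM
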