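import Pool.Agent.Lib.MP_33b3f9_ag.M4.CmOp
import Pool.Agent.Lib.MP_33b3f9_ag.M4.KzTate

/-!
Block B3a: stable faces.
-/

set_option autoImplicit false

noncomputable section

namespace M4.CM

open Matrix Polynomial NumberField Pool.Agent.M4.Mx

variable {K : IntermediateField ℚ ℂ} {r : Rep K} {l : ℕ} [Fact l.Prime]

/-- `M4.Kz.exists_lifts`. -/
theorem exists_cong (r : Rep K) (σ : ℂ ≃ₐ[K] ℂ) {N : ℕ} (hN : N ≠ 0) : ∃ R : MZ, Cong r σ N R := by
  obtain ⟨R, hR⟩ := M4.Kz.exists_lifts (fun l _ => (r l σ : Matrix ν ν ℤ_[l])) hN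
  exact ⟨R, fun l _ i j => hR.dvd l i j⟩

theorem Cong.rb_eq {σ : ℂ ≃ₐ[K] ℂ} {R : MZ} (h : Cong r σ l R) :
    rb r l σ = R.map (Int.cast : ℤ → ZMod l) := by
  ext i j
  obtain ⟨c, hc⟩ := h l i j
  have h1 := congrArg (PadicInt.toZMod (p := l)) hc
  rw [map_sub, map_mul, map_natCast, ZMod.natCast_self, zero_mul, map_intCast, sub_eq_zero] at h1
  exact h1

theorem cmface_cast (R : MZ) (x : ν → ℤ) : (fun j => ((R *ᵥ x) j : ZMod l)) =
    R.map (Int.cast : ℤ → ZMod l) *ᵥ fun j => (x j : ZMod l) := by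
  funext j
  simp only [mulVec, dotProduct, map_apply, Int.cast_sum, Int.cast_mul]

theorem cmface_lift (c : ν → ZMod l) : ∃ x : ν → ℤ, (fun j => (x j : ZMod l)) = c := by
  choose x hx using fun j => ZMod.intCast_surjective (c j)
  exact ⟨x, funext hx⟩

theorem stab_iff (σ : ℂ ≃ₐ[K] ℂ) (A : Matrix κ ν (ZMod l)) (i : Fin 3) (w : Fin 2 → ZMod l) :
    Stab r σ l (slot A i w) ↔ ∀ x, InS A i w x → InS A i w (rb r l σ *ᵥ x) := by
  constructor
  · intro h c hc
    obtain ⟨x, rfl⟩ := cmface_lift c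
    obtain ⟨R, hR⟩ := exists_cong r σ (Fact.out : l.Prime).ne_zero
    rw [Cong.rb_eq hR, ← cmface_cast]
    exact h R hR x hc
  · intro h R hR x hx
    have h1 := h _ hx
    rw [Cong.rb_eq hR, ← cmface_cast] at h1
    exact h1

theorem rb_pow (σ : ℂ ≃ₐ[K] ℂ) (j : ℕ) : rb r l (σ ^ j) = rb r l σ ^ j := by
  rw [rb, rb, map_pow, Units.val_pow_eq_pow_val]
  exact map_pow (PadicInt.toZMod (p := l)).mapMatrix _ j

theorem rb_of_dec {τ : Mat} {p : ℕ} [Fact p.Prime] {e : ℂ ≃+* PadicAlgCl p} {σ σ' : ℂ ≃ₐ[K] ℂ}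
    (h : Frob τ r e σ) (hl : l ≠ p) (h' : NT.Dec e σ') : ∃ j : ℕ, rb r l σ' = rb r l σ ^ j := by
  obtain ⟨j, hj⟩ := h.unram σ' h' l fun hd =>
    hl ((Nat.prime_dvd_prime_iff_eq Fact.out Fact.out).1 hd).symm
  obtain ⟨R, hR⟩ := exists_cong r (σ ^ j) (Fact.out : l.Prime).ne_zero
  exact ⟨j, by rw [← rb_pow, Cong.rb_eq hR, Cong.rb_eq (hj R hR)]⟩

section ring

variable {R : Type} [CommRing R]

theorem cmface_mulVec (i : Fin 3) (W : M2 R) (y : κ → R) (k : κ) :
    (Pool.Agent.M4.tp (Function.update 1 i W) *ᵥ y) k =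
      ∑ a, W (k i) a * y (Function.update k i a) := by
  change ∑ j, Pool.Agent.M4.tp (Function.update 1 i W) k j * y j = _
  symm
  refine Finset.sum_of_injOn (fun a => Function.update k i a)
    (Function.update_injective k i).injOn (fun _ _ => Finset.mem_coe.2 (Finset.mem_univ _))
    (fun j _ hj => ?_) (fun a _ => ?_)
  · have h1 : ∃ t, t ≠ i ∧ k t ≠ j t := by
      by_contra hc
      push Not at hc
      refine hj ⟨j i, Finset.mem_coe.2 (Finset.mem_univ _), funext fun t => ?_⟩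
      by_cases ht : t = i
      · subst ht
        exact Function.update_self ..
      · exact (Function.update_of_ne ht _ _).trans (hc t ht)
    obtain ⟨t, ht, hk⟩ := h1
    rw [tp_update, Finset.prod_eq_zero (Finset.mem_erase.2 ⟨ht, Finset.mem_univ t⟩), mul_zero,
      zero_mul]
    exact one_apply_ne hk
  · rw [tp_update, Function.update_self, Finset.prod_eq_one, mul_one]
    intro t ht
    rw [Function.update_of_ne (Finset.ne_of_mem_erase ht)]
    exact one_apply_eq _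

theorem cmface_tp_zero (h : Fin 3 → M2 R) (i : Fin 3) :
    Pool.Agent.M4.tp (Function.update h i 0) = 0 := by
  ext a b
  rw [tp_update, Matrix.zero_apply, Matrix.zero_apply, zero_mul]

theorem cmface_left (h : Fin 3 → M2 R) (i : Fin 3) (W : M2 R) :
    Pool.Agent.M4.tp (Function.update 1 i W) * Pool.Agent.M4.tp h =
      Pool.Agent.M4.tp (Function.update h i (W * h i)) := by
  rw [tp_mul]
  congr 1
  funext t
  by_cases ht : t = i
  · subst ht
    simp
  · simp [Function.update_of_ne ht]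

theorem cmface_right (h : Fin 3 → M2 R) (i : Fin 3) (W : M2 R) :
    Pool.Agent.M4.tp h * Pool.Agent.M4.tp (Function.update 1 i W) =
      Pool.Agent.M4.tp (Function.update h i (h i * W)) := by
  rw [tp_mul]
  congr 1
  funext t
  by_cases ht : t = i
  · subst ht
    simp
  · simp [Function.update_of_ne ht]

theorem cmface_QT (f : Fr ν R) (h : Fin 3 → M2 R) : f.Q * f.T h = Pool.Agent.M4.tp h * f.Q := by
  rw [Fr.T, ← Matrix.mul_assoc, ← Matrix.mul_assoc, f.qp, Matrix.one_mul]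

theorem cmface_row (w : Fin 2 → R) (x : M2 R) :
    (of fun (_ : Fin 2) a => w a) * x = of fun (_ : Fin 2) a => (w ᵥ* x) a := rfl

theorem cmface_char [IsDomain R] {x : M2 R} {a : R} :
    (∃ w : Fin 2 → R, w ≠ 0 ∧ w ᵥ* x = a • w) ↔ a ^ 2 - x.trace * a + x.det = 0 := by
  have h1 : (x - a • (1 : M2 R)).det = a ^ 2 - x.trace * a + x.det := by
    rw [det_fin_two, det_fin_two, trace_fin_two]
    simp
    ring
  rw [← h1, ← exists_vecMul_eq_zero_iff]
  refine exists_congr fun w => and_congr_right fun _ => ?_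
  rw [vecMul_sub, vecMul_smul, vecMul_one, sub_eq_zero]

end ring

theorem cmface_inS {l : ℕ} (A : Matrix κ ν (ZMod l)) (i : Fin 3) (w : Fin 2 → ZMod l)
    (x : ν → ZMod l) : InS A i w x ↔
      Pool.Agent.M4.tp (Function.update 1 i (of fun (_ : Fin 2) a => w a)) *ᵥ (A *ᵥ x) = 0 := by
  rw [funext_iff]
  refine forall_congr' fun k => ?_
  rw [cmface_mulVec]
  rfl

theorem cmface_two (hl : l ≠ 2) : (2 : ZMod l) ≠ 0 := by
  intro h
  have h1 : ((2 : ℕ) : ZMod l) = 0 := by exact_mod_cast h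
  rw [ZMod.natCast_eq_zero_iff] at h1
  exact hl ((Nat.prime_dvd_prime_iff_eq Fact.out Nat.prime_two).1 h1)

/-- A left eigenvector `w` of `h i`: the eigenvalue `a = (tr + d) / 2`, `d ^ 2 = tr ^ 2 - 4 det`, is a
root of the characteristic polynomial (`Matrix.exists_vecMul_eq_zero_iff`). With `y = Q x`,
`Q (T h x) = tp h y`, and `∑ c, w c * (tp h *ᵥ y) (update k i c)` is a combination of the sums
`∑ c, w c * y (update k' i c)`. -/
theorem exists_stable (hl : l ≠ 2) (f : Fr ν (ZMod l)) (h : Fin 3 → M2 (ZMod l)) (i : Fin 3)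
    (hs : IsSquare ((h i).trace ^ 2 - 4 * (h i).det)) :
    ∃ w : Fin 2 → ZMod l, w ≠ 0 ∧ ∀ x, InS f.Q i w x → InS f.Q i w (f.T h *ᵥ x) := by
  obtain ⟨d, hd⟩ := hs
  have h2 := cmface_two hl
  obtain ⟨w, hw, ha⟩ := (cmface_char (x := h i) (a := ((h i).trace + d) / 2)).2 (by
    field_simp
    linear_combination (-1 : ZMod l) * hd)
  refine ⟨w, hw, fun x hx => ?_⟩
  rw [cmface_inS] at hx ⊢
  have h3 : (of fun (_ : Fin 2) a => w a) * h i =
      (((h i).trace + d) / 2) • (1 * of fun (_ : Fin 2) a => w a) := by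
    rw [cmface_row, ha, Matrix.one_mul]
    rfl
  have h5 := cmface_right (Function.update h i 1) i (of fun (_ : Fin 2) a => w a)
  rw [Function.update_idem, Function.update_self] at h5
  rw [mulVec_mulVec, mulVec_mulVec, Matrix.mul_assoc, cmface_QT, ← Matrix.mul_assoc, cmface_left,
    h3, tp_update_smul, ← h5, ← mulVec_mulVec, smul_mulVec, ← mulVec_mulVec, hx, mulVec_zero,
    smul_zero]

/-- Let `v = ![w 1, -w 0]`. Apply the hypothesis to `x = P (v ⊗ e ⊗ e)`; the other factors are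
invertible, so `w ⬝ᵥ h i *ᵥ v = 0`, and `w ᵥ* h i` is proportional to `w`. -/
theorem eigen_of_stable (f : Fr ν (ZMod l)) (h : Fin 3 → M2 (ZMod l)) (hd : ∀ j, (h j).det ≠ 0)
    (i : Fin 3) {w : Fin 2 → ZMod l} (hw : w ≠ 0)
    (hs : ∀ x, InS f.Q i w x → InS f.Q i w (f.T h *ᵥ x)) :
    ∃ a : ZMod l, w ᵥ* h i = a • w := by
  let V : M2 (ZMod l) := of fun a _ => ![w 1, -w 0] a
  have hWV : (of fun (_ : Fin 2) a => w a) * V = 0 := by
    ext a b
    rw [Matrix.mul_apply, Fin.sum_univ_two]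
    change w 0 * w 1 + w 1 * -w 0 = 0
    ring
  have h1 : Pool.Agent.M4.tp
      (Function.update h i ((of fun (_ : Fin 2) a => w a) * (h i * V))) = 0 := by
    refine ext_iff_mulVec.2 fun u => ?_
    have h2 := hs ((f.P * Pool.Agent.M4.tp (Function.update 1 i V)) *ᵥ u) (by
      rw [cmface_inS, mulVec_mulVec, mulVec_mulVec, Matrix.mul_assoc, ← Matrix.mul_assoc f.Q,
        f.qp, Matrix.one_mul, cmface_left, Function.update_idem, Function.update_self, hWV,
        cmface_tp_zero, zero_mulVec])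
    rw [cmface_inS, mulVec_mulVec, mulVec_mulVec, mulVec_mulVec, Matrix.mul_assoc,
      Matrix.mul_assoc, ← Matrix.mul_assoc f.Q, cmface_QT, Matrix.mul_assoc,
      ← Matrix.mul_assoc f.Q, f.qp, Matrix.one_mul, cmface_right, cmface_left,
      Function.update_idem, Function.update_self] at h2
    rw [h2, zero_mulVec]
  have h3 : ∀ t, ∃ a b, h t a b ≠ 0 := by
    intro t
    by_contra hc
    push Not at hc
    exact hd t (by rw [det_fin_two, hc, hc, hc, hc]; ring)
  choose a b hab using h3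
  have h4 := congrFun (congrFun h1 a) b
  rw [tp_update, Matrix.zero_apply, ← Matrix.mul_assoc, cmface_row, Matrix.mul_apply,
    Fin.sum_univ_two] at h4
  have h5 : (w ᵥ* h i) 0 * w 1 + (w ᵥ* h i) 1 * -w 0 = 0 :=
    (mul_eq_zero.1 h4).resolve_right (Finset.prod_ne_zero_iff.2 fun t _ => hab t)
  generalize w ᵥ* h i = u at h5 ⊢
  by_cases h0 : w 0 = 0
  · have h6 : w 1 ≠ 0 := fun h6 => hw (by funext c; fin_cases c <;> assumption)
    have h7 : u 0 = 0 := by
      rw [h0, neg_zero, mul_zero, add_zero] at h5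
      exact (mul_eq_zero.1 h5).resolve_right h6
    refine ⟨u 1 / w 1, funext (Fin.forall_fin_two.2 ⟨?_, ?_⟩)⟩
    · rw [Pi.smul_apply, h0, h7, smul_zero]
    · rw [Pi.smul_apply, smul_eq_mul, div_mul_cancel₀ _ h6]
  · refine ⟨u 0 / w 0, funext (Fin.forall_fin_two.2 ⟨?_, ?_⟩)⟩
    · rw [Pi.smul_apply, smul_eq_mul, div_mul_cancel₀ _ h0]
    · rw [Pi.smul_apply, smul_eq_mul]
      field_simp
      linear_combination -h5

theorem cmface_toZMod_zero (x : ℤ_[l]) : PadicInt.toZMod x = 0 ↔ ‖x‖ < 1 := by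
  rw [toZMod_eq_zero_iff, norm_toOm]

theorem cmface_sqrt (hl : l ≠ 2) {D : ℤ_[l]} (hD : ‖D‖ = 1) {c : ZMod l}
    (hc : c ^ 2 = PadicInt.toZMod D) : ∃ s : ℤ_[l], s ^ 2 = D ∧ PadicInt.toZMod s = c := by
  obtain ⟨n, rfl⟩ := ZMod.intCast_surjective c
  have hone : ∀ u : ℤ_[l], PadicInt.toZMod u ≠ 0 → ‖u‖ = 1 := fun u hu =>
    le_antisymm u.norm_le_one (not_lt.1 fun h => hu ((cmface_toZMod_zero u).2 h))
  have hn : ((n : ℤ) : ZMod l) ≠ 0 := by
    intro h
    rw [h, zero_pow two_ne_zero, eq_comm, cmface_toZMod_zero] at hc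
    exact hc.ne hD
  have h1 : ‖(derivative (X ^ 2 - C D : ℤ_[l][X])).aeval (n : ℤ_[l])‖ = 1 := by
    apply hone
    simp only [derivative_sub, derivative_X_pow, derivative_C, sub_zero, map_mul,
      map_pow, aeval_X, map_natCast, map_intCast]
    exact mul_ne_zero (by exact_mod_cast cmface_two hl) (pow_ne_zero _ hn)
  obtain ⟨s, hs, hs', -⟩ := hensels_lemma (F := (X ^ 2 - C D : ℤ_[l][X])) (a := (n : ℤ_[l])) (by
    rw [h1, one_pow, ← cmface_toZMod_zero]
    simp [hc])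
  refine ⟨s, by simpa [sub_eq_zero] using hs, ?_⟩
  rw [h1, ← cmface_toZMod_zero, map_sub, map_intCast, sub_eq_zero] at hs'
  exact hs'

/-- `a` is a root of `X ^ 2 - tr X + det` modulo `l`, so `c = 1 - 2 a / tr` is a square root of the unit
`(tr ^ 2 - 4 det) / tr ^ 2`; lift it (`hensels_lemma`) to `z`. `y = (1 + z⁻¹ • ((2 / tr) • x - 1)) / 2` is
defined over `ℤ_[l]`, and `w ᵥ* y = 0` modulo `l`. -/
theorem exists_proj (hl : l ≠ 2) (x : M2 ℤ_[l]) (h1 : ‖x.trace‖ = 1)
    (h2 : ‖x.trace ^ 2 - 4 * x.det‖ = 1) {w : Fin 2 → ZMod l} (hw : w ≠ 0) {a : ZMod l}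
    (ha : w ᵥ* x.map PadicInt.toZMod = a • w) :
    ∃ (z : ℤ_[l]) (y : M2 ℤ_[l]), z ^ 2 * x.trace ^ 2 = x.trace ^ 2 - 4 * x.det ∧
      y.map (toOm l) = Ej (x.map (toOm l)) (toOm l z) ∧ w ᵥ* y.map PadicInt.toZMod = 0 := by
  have h3 := cmface_char.1 ⟨w, hw, ha⟩
  have htr : (x.map PadicInt.toZMod).trace = PadicInt.toZMod x.trace :=
    (AddMonoidHom.map_trace (PadicInt.toZMod (p := l)) x).symm
  have hdet : (x.map PadicInt.toZMod).det = PadicInt.toZMod x.det :=
    ((PadicInt.toZMod (p := l)).map_det x).symm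
  rw [htr, hdet] at h3
  obtain ⟨s, hs, hs'⟩ := cmface_sqrt hl h2 (c := PadicInt.toZMod x.trace - 2 * a) (by
    rw [map_sub, map_mul, map_pow, map_ofNat]
    linear_combination 4 * h3)
  have hs1 : ‖s‖ = 1 := by
    rw [← hs, norm_pow] at h2
    exact (pow_eq_one_iff_of_nonneg (norm_nonneg s) two_ne_zero).1 h2
  have h21 : ‖(2 : ℤ_[l])‖ = 1 := by
    rw [← norm_toOm, map_ofNat, norm_two hl]
  obtain ⟨u, hu⟩ := (PadicInt.isUnit_iff.2 (by rw [norm_mul, h21, hs1, mul_one] :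
    ‖2 * s‖ = 1)).exists_left_inv
  obtain ⟨t, ht⟩ := (PadicInt.isUnit_iff.2 h1).exists_left_inv
  refine ⟨s * t, u • ((s - x.trace) • (1 : M2 ℤ_[l]) + (2 : ℤ_[l]) • x), ?_, ?_, ?_⟩
  · rw [← hs]
    linear_combination (s ^ 2 * (t * x.trace + 1)) * ht
  · have htr' : (x.map (toOm l)).trace = toOm l x.trace :=
      (AddMonoidHom.map_trace (toOm l) x).symm
    have hu' := congrArg (toOm l) hu
    have ht' := congrArg (toOm l) ht
    rw [map_mul, map_mul, map_ofNat, map_one] at hu'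
    rw [map_mul, map_one] at ht'
    have e1 := eq_inv_of_mul_eq_one_left hu'
    have e2 := eq_inv_of_mul_eq_one_left ht'
    have n1 : toOm l s ≠ 0 := right_ne_zero_of_mul (right_ne_zero_of_mul_eq_one hu')
    have n2 : toOm l x.trace ≠ 0 := right_ne_zero_of_mul_eq_one ht'
    rw [Ej, Zm, htr', map_mul, e2]
    ext b c
    simp only [map_apply, Matrix.smul_apply, Matrix.add_apply, Matrix.sub_apply, smul_eq_mul,
      map_mul, map_add, map_sub, map_ofNat, e1, one_apply, apply_ite (toOm l), map_one, map_zero]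
    field_simp
    ring
  · have h4 : (u • ((s - x.trace) • (1 : M2 ℤ_[l]) + (2 : ℤ_[l]) • x)).map PadicInt.toZMod =
        PadicInt.toZMod u • (PadicInt.toZMod (s - x.trace) • (1 : M2 (ZMod l)) +
          (2 : ZMod l) • x.map PadicInt.toZMod) := by
      ext b c
      simp only [map_apply, Matrix.smul_apply, Matrix.add_apply, smul_eq_mul,
        map_mul, map_add, map_ofNat, one_apply, apply_ite (PadicInt.toZMod (p := l)), map_one,
        map_zero]
    rw [h4, vecMul_smul, vecMul_add, vecMul_smul, vecMul_smul, vecMul_one, ha, map_sub, hs',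
      smul_smul, ← add_smul]
    rw [show PadicInt.toZMod x.trace - 2 * a - PadicInt.toZMod x.trace + 2 * a = 0 by ring,
      zero_smul, smul_zero]

/-- The columns of `fz.u i y` lie in the face modulo `l`; lift a column to an integral vector. -/
theorem kil_of_ker (fz : Fr ν ℤ_[l]) (i : Fin 3) {w : Fin 2 → ZMod l} {g : MZ}
    (hk : Ker g l = slot (fz.Q.map PadicInt.toZMod) i w) {y : M2 ℤ_[l]}
    (hy : w ᵥ* y.map PadicInt.toZMod = 0) :
    Le (g.map (Int.cast : ℤ → Om l) * (fz.map (toOm l)).u i (y.map (toOm l))) (l : ℝ)⁻¹ := by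
  have hmap : ∀ {S : Type} [CommRing S] (φ : ℤ_[l] →+* S),
      (g.map (Int.cast : ℤ → ℤ_[l]) * fz.u i y).map φ =
        g.map (Int.cast : ℤ → S) * (fz.map φ).u i (y.map φ) := by
    intro S _ φ
    rw [Matrix.map_mul, Fr.u_apply, Fr.u_apply, Fr.map_T, Matrix.map_map]
    congr 2
    · funext n
      exact map_intCast φ n
    · funext t
      by_cases ht : t = i
      · subst ht
        simp
      · simp [Function.update_of_ne ht]
  rw [← hmap]
  intro a b
  refine le_inv_of_lt (toOm_mem _) ((toZMod_eq_zero_iff _).1 ?_)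
  obtain ⟨x, hx⟩ := cmface_lift
    ((fz.map PadicInt.toZMod).u i (y.map PadicInt.toZMod) *ᵥ Pi.single b 1)
  have h1 : x ∈ Ker g l := by
    rw [hk]
    change InS (fz.map PadicInt.toZMod).Q i w fun j => (x j : ZMod l)
    have h0 : (of fun (_ : Fin 2) a => w a) * y.map PadicInt.toZMod = 0 := by
      rw [cmface_row, hy]
      rfl
    rw [hx, cmface_inS, mulVec_mulVec, mulVec_mulVec, Matrix.mul_assoc, Fr.u_apply, cmface_QT,
      ← Matrix.mul_assoc, cmface_left, Function.update_idem, Function.update_self, h0,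
      cmface_tp_zero, Matrix.zero_mul, zero_mulVec]
  have h2 := congrFun (cmface_cast (l := l) g x) a
  rw [hx, mulVec_mulVec, ← hmap, mulVec_single_one,
    (ZMod.intCast_zmod_eq_zero_iff_dvd _ l).2 (h1 a)] at h2
  exact h2.symm

end M4.CM
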