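import Pool.Agent.Lib.MP_33b3f9_ag.M4.NTFrob

/-!
Places of the complex numbers, and the theorem of Bauer.
-/

set_option autoImplicit false

namespace M4.NT

open NumberField Module Filter Topology

open Cardinal in
theorem frobc_card_padic (p : ℕ) [Fact p.Prime] : Cardinal.mk ℚ_[p] = continuum := by
  refine le_antisymm ?_ (continuum_le_cardinal_of_nontriviallyNormedField ℚ_[p])
  have h1 : Cardinal.mk ℚ_[p] ≤ Cardinal.mk (CauSeq ℚ (padicNorm p)) := Cardinal.mk_quotient_le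
  have h2 : Cardinal.mk (CauSeq ℚ (padicNorm p)) ≤ Cardinal.mk (ℕ → ℚ) := Cardinal.mk_subtype_le _
  refine h1.trans (h2.trans (le_of_eq ?_))
  simp

open Cardinal in
theorem frobc_card_cl (p : ℕ) [Fact p.Prime] : Cardinal.mk (PadicAlgCl p) = continuum := by
  refine le_antisymm ?_ ?_
  · refine (Algebra.IsAlgebraic.cardinalMk_le_max ℚ_[p] (PadicAlgCl p)).trans ?_
    rw [frobc_card_padic]
    exact max_le le_rfl aleph0_le_continuum
  · rw [← frobc_card_padic p]
    exact Cardinal.mk_le_of_injective (algebraMap ℚ_[p] (PadicAlgCl p)).injective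

open Cardinal in
theorem frobc_equiv {F K L : Type} [Field F] [Field K] [Field L] [Algebra F K] [Algebra F L]
    [IsAlgClosed K] [IsAlgClosed L] (hF : Cardinal.mk F ≤ aleph0) (hK : aleph0 < Cardinal.mk K)
    (hKL : Cardinal.mk K = Cardinal.mk L) :
    ∃ ψ : K ≃+* L, ∀ x : F, ψ (algebraMap F K x) = algebraMap F L x := by
  obtain ⟨s, hs⟩ := exists_isTranscendenceBasis F K
  obtain ⟨t, ht⟩ := exists_isTranscendenceBasis F L
  have h1 := IsAlgClosed.cardinal_eq_cardinal_transcendence_basis_of_aleph0_lt' _ hs hF hK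
  have h2 := IsAlgClosed.cardinal_eq_cardinal_transcendence_basis_of_aleph0_lt' _ ht hF (hKL ▸ hK)
  obtain ⟨e⟩ := Cardinal.eq.1 (h1.symm.trans (hKL.trans h2))
  let := IsAlgClosed.isAlgClosure_of_transcendence_basis _ hs
  let := IsAlgClosed.isAlgClosure_of_transcendence_basis _ ht
  let e' : Algebra.adjoin F (Set.range (Subtype.val : s → K)) ≃ₐ[F]
      Algebra.adjoin F (Set.range (Subtype.val : t → L)) :=
    hs.1.aevalEquiv.symm.trans ((MvPolynomial.renameEquiv F e).trans ht.1.aevalEquiv)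
  refine ⟨IsAlgClosure.equivOfEquiv K L e'.toRingEquiv, fun x => ?_⟩
  rw [IsScalarTower.algebraMap_apply F (Algebra.adjoin F (Set.range (Subtype.val : s → K))) K,
    IsAlgClosure.equivOfEquiv_algebraMap,
    IsScalarTower.algebraMap_apply F (Algebra.adjoin F (Set.range (Subtype.val : t → L))) L]
  congr 1
  exact e'.commutes x

theorem frobc_mono {G G' : Set ℕ} (h : Dvg G) (hG : G ⊆ G') : Dvg G' := fun hs =>
  h (Summable.of_nonneg_of_le
    (fun n => Set.indicator_nonneg (fun _ _ => by positivity) n)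
    (fun n => Set.indicator_le_indicator_of_subset hG (fun _ => by positivity) n) hs)

theorem frobc_normal (K K1 : IntermediateField ℚ ℂ) [FiniteDimensional ℚ K]
    [FiniteDimensional ℚ K1] : ∃ L : IntermediateField ℚ ℂ, FiniteDimensional ℚ L ∧ Normal ℚ L ∧
      K ≤ L ∧ K1 ≤ L := by
  have h := Algebra.IsAlgebraic.isNormalClosure_normalClosure (F := ℚ)
    (K := (K ⊔ K1 : IntermediateField ℚ ℂ)) (L := ℂ) fun x => IsAlgClosed.splits _
  exact ⟨IntermediateField.normalClosure ℚ (K ⊔ K1 : IntermediateField ℚ ℂ) ℂ, inferInstance,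
    h.normal, le_sup_left.trans (IntermediateField.le_normalClosure _),
    le_sup_right.trans (IntermediateField.le_normalClosure _)⟩

theorem frobc_res (L : IntermediateField ℚ ℂ) [Normal ℚ L] (σ : ℂ ≃+* ℂ) :
    ∃ h : L ≃ₐ[ℚ] L, ∀ x : L, σ x = h x := by
  let σ' : ℂ ≃ₐ[ℚ] ℂ := AlgEquiv.ofRingEquiv (f := σ) fun x => by simp
  exact ⟨σ'.restrictNormal L, fun x => (σ'.restrictNormal_commutes L x).symm⟩

/-- The image of the decomposition group. -/
def frobc_H (L : IntermediateField ℚ ℂ) {p : ℕ} [Fact p.Prime] (e : ℂ ≃+* PadicAlgCl p) :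
    Subgroup (L ≃ₐ[ℚ] L) where
  carrier := {h | ∃ σ : ℂ ≃+* ℂ, Dec e σ ∧ ∀ x : L, σ x = h x}
  one_mem' := ⟨RingEquiv.refl ℂ, fun _ _ => rfl, fun _ => rfl⟩
  mul_mem' := by
    rintro a b ⟨σ, h1, h2⟩ ⟨τ, h3, h4⟩
    refine ⟨τ.trans σ, fun x hx => ?_, fun x => ?_⟩
    · rw [RingEquiv.trans_apply, h3 x hx, h1 x hx]
    · rw [RingEquiv.trans_apply, h4, h2, AlgEquiv.mul_apply]
  inv_mem' := by
    rintro a ⟨σ, h1, h2⟩
    refine ⟨σ.symm, fun x hx => ?_, fun x => ?_⟩
    · rw [RingEquiv.symm_apply_eq, h1 x hx]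
    · rw [RingEquiv.symm_apply_eq, h2, ← AlgEquiv.mul_apply, mul_inv_cancel, AlgEquiv.one_apply]

/-- Copy `hpsi_equiv`, `hpsi_card_KP` from `Lib/MP_88d29b_nt/HPsi.lean` (do not import that file);
base field `L`, algebra structure on the target by `ε.toAlgebra`. -/
theorem exists_place (L : IntermediateField ℚ ℂ) [FiniteDimensional ℚ L] (p : ℕ) [Fact p.Prime]
    (ε : L →+* PadicAlgCl p) : ∃ e : ℂ ≃+* PadicAlgCl p, ∀ x : L, e x = ε x := by
  let : Algebra L (PadicAlgCl p) := ε.toAlgebra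
  have hF : Cardinal.mk L ≤ Cardinal.aleph0 := by
    refine (Algebra.IsAlgebraic.cardinalMk_le_max ℚ L).trans ?_
    simp
  obtain ⟨ψ, hψ⟩ := frobc_equiv (F := L) (K := ℂ) (L := PadicAlgCl p) hF
    (by rw [Cardinal.mk_complex]; exact Cardinal.aleph0_lt_continuum)
    (by rw [Cardinal.mk_complex, frobc_card_cl])
  exact ⟨ψ, hψ⟩

/-- An element outside `Qp p` is moved by an automorphism `τ` of `PadicAlgCl p` over `ℚ_[p]` (Galois,
characteristic zero; `InfiniteGalois.mem_bot_iff_fixed` or a second root of the minimal polynomial);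
take `σ = e⁻¹ τ e`. -/
theorem exists_dec {p : ℕ} [Fact p.Prime] (e : ℂ ≃+* PadicAlgCl p) {x : ℂ} (hx : e x ∉ Qp p) :
    ∃ σ : ℂ ≃+* ℂ, Dec e σ ∧ σ x ≠ x := by
  have hG : IsGalois ℚ_[p] (PadicAlgCl p) := IsAlgClosure.isGalois _ _
  have h := mt (InfiniteGalois.mem_range_algebraMap_iff_fixed (k := ℚ_[p]) (e x)).2 hx
  push Not at h
  obtain ⟨τ, hτ⟩ := h
  refine ⟨e.trans (τ.toRingEquiv.trans e.symm), ?_, ?_⟩
  · rintro z ⟨a, ha⟩
    change e.symm (τ (e z)) = z
    rw [← ha, τ.commutes, ha, e.symm_apply_apply]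
  · change e.symm (τ (e x)) ≠ x
    intro h
    exact hτ (e.symm_apply_eq.1 h)

/-- Let `L` be a finite normal extension of `ℚ` inside `ℂ` containing `K` and `K1`, `g` the restriction
of `σ0` to `L`; take `ε` from `frob L g` and `e` from `exists_place`. The restrictions to `L` of the
`σ` with `Dec e σ` form a subgroup `H` of `L ≃ₐ[ℚ] L`; its fixed field is the preimage of `Qp p`
(`exists_dec`), which is the fixed field of `zpowers g`, so `H = zpowers g`
(`IntermediateField.fixingSubgroup_fixedField`). Two automorphisms that agree on `L` have the same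
image under `r`. -/
theorem frobC (K K1 : IntermediateField ℚ ℂ) [FiniteDimensional ℚ K] [FiniteDimensional ℚ K1]
    {Γ : Type} [Group Γ] (r : (ℂ ≃ₐ[K] ℂ) →* Γ) (hr : ∀ σ, (∀ x ∈ K1, σ x = x) → r σ = 1)
    (σ0 : ℂ ≃ₐ[K] ℂ) :
    Dvg {p | ∃ _ : Fact p.Prime, ∃ e : ℂ ≃+* PadicAlgCl p, (∀ x ∈ K, e x ∈ Qp p) ∧
      (∀ σ : ℂ ≃ₐ[K] ℂ, Dec e σ → r σ ∈ Subgroup.zpowers (r σ0)) ∧
      ∃ σ : ℂ ≃ₐ[K] ℂ, Dec e σ ∧ r σ = r σ0} := by
  obtain ⟨L, hL1, hL2, hK, hK1⟩ := frobc_normal K K1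
  have hL3 : NumberField L := ⟨⟩
  let res : (ℂ ≃ₐ[K] ℂ) →* (L ≃ₐ[ℚ] L) := (AlgEquiv.restrictNormalHom L).comp
    { toFun := fun σ => σ.restrictScalars ℚ, map_one' := rfl, map_mul' := fun _ _ => rfl }
  have hres : ∀ (σ : ℂ ≃ₐ[K] ℂ) (x : L), σ x = res σ x := fun σ x =>
    ((σ.restrictScalars ℚ).restrictNormal_commutes L x).symm
  have hrr : ∀ σ τ : ℂ ≃ₐ[K] ℂ, res σ = res τ → r σ = r τ := by
    intro σ τ h
    have h1 : res (τ⁻¹ * σ) = 1 := by rw [map_mul, map_inv, h, inv_mul_cancel]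
    have h2 := hr (τ⁻¹ * σ) fun x hx => by rw [hres _ ⟨x, hK1 hx⟩, h1, AlgEquiv.one_apply]
    rw [map_mul, map_inv, inv_mul_eq_one] at h2
    exact h2.symm
  refine frobc_mono (frob L (res σ0).toRingEquiv) ?_
  rintro p ⟨hp, ε, hε⟩
  obtain ⟨e, he⟩ := exists_place L p ε
  replace hε : ∀ x : L, e x ∈ Qp p ↔ res σ0 x = x := fun x => by rw [he]; exact hε x
  have hH : frobc_H L e = Subgroup.zpowers (res σ0) := by
    rw [← IntermediateField.fixingSubgroup_fixedField (frobc_H L e),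
      ← IntermediateField.fixingSubgroup_fixedField (Subgroup.zpowers (res σ0))]
    congr 1
    ext x
    rw [IntermediateField.mem_fixedField_iff, IntermediateField.mem_fixedField_iff]
    constructor
    · intro h
      have h1 : res σ0 x = x := by
        rw [← hε]
        by_contra hx
        obtain ⟨σ, h1, h2⟩ := exists_dec e hx
        obtain ⟨g, hg⟩ := frobc_res L σ
        exact h2 (by rw [hg, h g ⟨σ, h1, hg⟩])
      have h2 : Subgroup.zpowers (res σ0) ≤ MulAction.stabilizer (L ≃ₐ[ℚ] L) x :=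
        Subgroup.zpowers_le.2 h1
      exact fun f hf => h2 hf
    · rintro h f ⟨σ, h1, h2⟩
      exact Subtype.ext (by rw [← h2, h1 x ((hε x).2 (h _ (Subgroup.mem_zpowers _)))])
  have hKQ : ∀ x ∈ K, e x ∈ Qp p := fun x hx =>
    (hε ⟨x, hK hx⟩).2 (Subtype.ext (by rw [← hres]; exact σ0.commutes ⟨x, hx⟩))
  refine ⟨hp, e, hKQ, fun σ hσ => ?_, ?_⟩
  · have h1 : res σ ∈ frobc_H L e := ⟨σ.toRingEquiv, hσ, hres σ⟩
    rw [hH] at h1
    obtain ⟨n, hn⟩ := h1
    exact ⟨n, by
      change r σ0 ^ n = r σ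
      rw [← map_zpow]
      exact hrr _ _ (by rw [map_zpow]; exact hn)⟩
  · have h1 : res σ0 ∈ frobc_H L e := hH ▸ Subgroup.mem_zpowers _
    obtain ⟨σ, h2, h3⟩ := h1
    let σ' : ℂ ≃ₐ[K] ℂ := AlgEquiv.ofRingEquiv (f := σ) fun x => h2 _ (hKQ _ x.2)
    refine ⟨σ', h2, hrr _ _ (AlgEquiv.ext fun x => Subtype.ext ?_)⟩
    rw [← hres, ← h3]
    rfl

/-- A divergent set is infinite. -/
theorem Dvg.exists_ge {G : Set ℕ} (h : Dvg G) (n : ℕ) : ∃ p ∈ G, n ≤ p := by
  by_contra hc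
  push Not at hc
  refine h (summable_of_ne_finset_zero (s := Finset.range n) fun b hb => ?_)
  exact Set.indicator_of_notMem (fun hG => hb (Finset.mem_range.2 (hc b hG))) _

/-- Let `L` be the splitting field of `c` over `K`. If `c` does not split in `K` some root `x` is moved
by some `g` in the Galois group of `L / K`. Take `p ≥ l0` and `e` from `frob L g`: `e` maps `K` into
`Qp p`, so `c` splits in `ℚ_[p]`, and the root `e x` lies in `Qp p`, so `g x = x`. -/
theorem bauer (K : Type) [Field K] [NumberField K] (c : Polynomial ℚ) (l0 : ℕ)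
    (h : ∀ (l : ℕ) [Fact l.Prime], l0 ≤ l → Nonempty (K →+* ℚ_[l]) →
      (c.map (algebraMap ℚ ℚ_[l])).Splits) : (c.map (algebraMap ℚ K)).Splits := by
  by_cases hc : c = 0
  · simp [hc]
  let L := (c.map (algebraMap ℚ K)).SplittingField
  have hL : NumberField L := NumberField.of_module_finite K L
  have hG : IsGalois K L := ⟨⟩
  refine Polynomial.Splits.of_splits_map (algebraMap K L)
    (Polynomial.SplittingField.splits _) fun x hx => ?_
  refine (IsGalois.mem_range_algebraMap_iff_fixed x).2 fun g => ?_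
  obtain ⟨p, ⟨hp, e, he⟩, hl⟩ := (frob L g.toRingEquiv).exists_ge l0
  refine (he x).1 ?_
  have hφ : ∀ y : K, ∃ a : ℚ_[p], algebraMap ℚ_[p] (PadicAlgCl p) a = e (algebraMap K L y) :=
    fun y => (he _).2 (g.commutes y)
  choose φ hφ using hφ
  have hi := (algebraMap ℚ_[p] (PadicAlgCl p)).injective
  have hs := h p hl ⟨{
    toFun := φ
    map_one' := hi (by rw [hφ, map_one, map_one, map_one])
    map_mul' := fun a b => hi (by rw [hφ, map_mul, map_mul, map_mul, hφ, hφ])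
    map_zero' := hi (by rw [hφ, map_zero, map_zero, map_zero])
    map_add' := fun a b => hi (by rw [hφ, map_add, map_add, map_add, hφ, hφ]) }⟩
  refine hs.mem_range_of_isRoot (Polynomial.map_ne_zero hc) ?_
  have h1 := (Polynomial.isRoot_of_mem_roots hx).map (f := e)
  rw [Polynomial.map_map, Polynomial.map_map] at h1
  rw [Polynomial.map_map]
  convert h1 using 2
  exact Subsingleton.elim _ _

end M4.NT
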