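import Pool.Agent.Lib.MP_33b3f9_ag.M4.NTFrobC

/-!
Construction of the data of a place from a cubic polynomial.
-/

set_option autoImplicit false

namespace M4.NT

open NumberField Module Polynomial

theorem plc_norm {F : Type} [Field F] [NumberField F] (x : F) :
    ((Algebra.norm ℚ x : ℚ) : ℂ) = ∏ σ : F →+* ℂ, σ x := by
  rw [← eq_ratCast (algebraMap ℚ ℂ), Algebra.norm_eq_prod_embeddings ℚ ℂ x]
  exact (Fintype.prod_equiv (RingHom.equivRatAlgHom F ℂ) _ _ fun _ => rfl).symm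

/-- The ideal of denominators of `t` has norm dividing `p`. -/
theorem plc_den {F : Type} [Field F] [NumberField F] (p : ℕ) (t : F)
    (h : ∀ I : Finset (F →+* ℂ), IsIntegral ℤ ((p : ℂ) * ∏ σ ∈ I, σ t)) :
    ∃ w : Ideal (𝓞 F), Ideal.absNorm w ∣ p ∧ ∀ b ∈ w, IsIntegral ℤ ((b : F) * t) := by
  classical
  obtain ⟨x, m, hm, rfl⟩ := IsFractionRing.div_surjective (𝓞 F) t
  have hm0 : m ≠ 0 := nonZeroDivisors.ne_zero hm
  have hm1 : (m : F) ≠ 0 := fun e => hm0 (by exact_mod_cast e)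
  obtain ⟨w, hw⟩ : Ideal.span {m, x} ∣ Ideal.span {m} :=
    Ideal.dvd_iff_le.2 (Ideal.span_mono (by simp))
  have h1 : ∀ z ∈ Ideal.span {m, x}, Algebra.norm ℤ m ∣ p * Algebra.norm ℤ z := by
    intro z hz
    obtain ⟨y, y', rfl⟩ := Ideal.mem_span_pair.1 hz
    have h2 : IsIntegral ℤ ((p : ℚ) * Algebra.norm ℚ ((y : F) + y' * ((x : F) / m))) := by
      rw [← isIntegral_algebraMap_iff (algebraMap ℚ ℂ).injective, eq_ratCast]
      push_cast
      rw [plc_norm]
      simp only [map_add, map_mul]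
      rw [Finset.prod_congr rfl fun σ _ => add_comm _ _, Finset.prod_add, Finset.mul_sum]
      refine IsIntegral.sum _ fun I _ => ?_
      rw [Finset.prod_mul_distrib, mul_assoc, mul_left_comm, ← mul_assoc (p : ℂ)]
      exact (IsIntegral.prod _ fun σ _ => map_isIntegral_int σ y'.isIntegral_coe).mul
        ((h I).mul (IsIntegral.prod _ fun σ _ => map_isIntegral_int σ y.isIntegral_coe))
    obtain ⟨k, hk⟩ := IsIntegrallyClosed.isIntegral_iff.1 h2
    refine ⟨k, Int.cast_injective (α := ℚ) ?_⟩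
    push_cast
    rw [Algebra.coe_norm_int, Algebra.coe_norm_int, ← eq_intCast (algebraMap ℤ ℚ) k, hk,
      mul_left_comm, ← map_mul]
    congr 2
    push_cast
    field_simp
  have h3 : Algebra.norm ℤ m ∣ p * (Ideal.absNorm (Ideal.span {m, x}) : ℤ) := by
    have h4 : (Ideal.absNorm (Ideal.span {m, x}) : ℤ) ∈ Ideal.relNorm ℤ (Ideal.span {m, x}) := by
      rw [Ideal.relNorm_int]
      exact Ideal.mem_span_singleton_self _
    rw [Ideal.relNorm_apply] at h4
    refine Submodule.span_induction (p := fun n _ => Algebra.norm ℤ m ∣ p * n) ?_ (by simp)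
      (fun a b _ _ ha hb => by rw [mul_add]; exact dvd_add ha hb)
      (fun a b _ hb => by rw [smul_eq_mul, mul_left_comm]; exact hb.mul_left a) h4
    rintro _ ⟨z, hz, rfl⟩
    rw [Algebra.intNorm_eq_norm]
    exact h1 z hz
  refine ⟨w, ?_, fun b hb => ?_⟩
  · have h5 := Int.natAbs_dvd_natAbs.2 h3
    rw [← Ideal.absNorm_span_singleton, Int.natAbs_mul, Int.natAbs_natCast, Int.natAbs_natCast,
      hw, map_mul, mul_comm p] at h5
    refine Nat.dvd_of_mul_dvd_mul_left (Nat.pos_of_ne_zero fun e => hm0 ?_) h5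
    have := Ideal.absNorm_eq_zero_iff.1 e
    exact (Ideal.mem_bot).1 (this ▸ Ideal.subset_span (by simp))
  · obtain ⟨y, hy⟩ := Ideal.mem_span_singleton'.1
      (hw ▸ Ideal.mul_mem_mul (Ideal.subset_span (by simp) : x ∈ Ideal.span {m, x}) hb)
    have : (b : F) * ((x : F) / m) = y := by
      have := congrArg (fun z : 𝓞 F => (z : F)) hy
      push_cast at this
      field_simp
      linear_combination -this
    exact this ▸ y.isIntegral_coe

theorem plc_equiv {F : Type} [Field F] [NumberField F] (hF : finrank ℚ F = 3) {c : ℚ[X]}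
    (hc : Irreducible c) {τ : Fin 3 → ℂ} (hτ : c.map (algebraMap ℚ ℂ) = ∏ i, (X - C (τ i)))
    {t : F} (ht : aeval t c = 0) : ∃ e : (F →+* ℂ) ≃ Fin 3, ∀ σ, σ t = τ (e σ) := by
  have h1 : c.Monic := monic_of_injective (algebraMap ℚ ℂ).injective
    (hτ ▸ monic_prod_of_monic _ _ fun i _ => monic_X_sub_C _)
  have h2 : c.natDegree = 3 := by
    rw [← natDegree_map (algebraMap ℚ ℂ), hτ, natDegree_prod_of_monic _ _ fun i _ => monic_X_sub_C _]
    simp
  have h3 : IntermediateField.adjoin ℚ {t} = ⊤ := by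
    rw [Field.primitive_element_iff_minpoly_natDegree_eq,
      ← minpoly.eq_of_irreducible_of_monic hc ht h1, h2, hF]
  have h4 := (Field.primitive_element_iff_algHom_eq_of_eval' ℚ ℂ
    (fun x => IsAlgClosed.splits _) t).1 h3
  have h5 : ∀ σ : F →+* ℂ, ∃ i, σ t = τ i := fun σ => by
    have : aeval (σ t) c = 0 := by
      rw [show σ t = σ.toRatAlgHom t from rfl, aeval_algHom_apply, ht, map_zero]
    rw [← eval_map_algebraMap, hτ, eval_prod, Finset.prod_eq_zero_iff] at this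
    obtain ⟨i, -, hi⟩ := this
    exact ⟨i, by simpa [sub_eq_zero] using hi⟩
  choose e he using h5
  refine ⟨Equiv.ofBijective e ((Fintype.bijective_iff_injective_and_card e).2
    ⟨fun σ σ' h => (RingHom.equivRatAlgHom F ℂ).injective (h4 ?_), ?_⟩), he⟩
  · exact (he σ).trans (h ▸ (he σ').symm)
  · rw [Embeddings.card, hF, Fintype.card_fin]

/-- The data of a place from the cubic polynomial with roots `τ i`. -/
theorem plc_of_poly {F : Type} [Field F] [NumberField F] (hF : finrank ℚ F = 3) {p : ℕ}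
    (hp : p.Prime) (h64 : 64 ≤ p) {c : ℚ[X]} (hc : Irreducible c) {τ : Fin 3 → ℝ}
    (hτ : c.map (algebraMap ℚ ℂ) = ∏ i, (X - C (τ i : ℂ))) (h0 : ∀ i, 0 < τ i ∧ τ i < 4)
    (hint : ∀ I : Finset (Fin 3), IsIntegral ℤ ((p : ℂ) * ∏ i ∈ I, (τ i : ℂ))) {a : ℤ}
    (ha : (p : ℝ) * ∏ i, τ i = (a : ℝ) ^ 2) {t : F} (ht : aeval t c = 0) :
    ∃ Δ : ℤ, Plc p t Δ ∧ (Δ : ℚ) = (p : ℚ) ^ 2 * (c.eval 0 * c.eval 4) := by
  classical
  obtain ⟨e, he⟩ := plc_equiv hF hc hτ ht
  have h1 : ∀ I : Finset (F →+* ℂ), IsIntegral ℤ ((p : ℂ) * ∏ σ ∈ I, σ t) := fun I => by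
    have := hint (I.map e.toEmbedding)
    rw [Finset.prod_map] at this
    simpa only [he, Equiv.coe_toEmbedding] using this
  have h2 : ((Algebra.norm ℚ t : ℚ) : ℂ) = ∏ i, (τ i : ℂ) :=
    (plc_norm t).trans (Fintype.prod_equiv e _ _ he)
  have h3 : ((Algebra.norm ℚ (t - 4) : ℚ) : ℂ) = ∏ i, ((τ i : ℂ) - 4) :=
    (plc_norm _).trans (Fintype.prod_equiv e _ _ fun σ => by rw [map_sub, he, map_ofNat])
  have h4 : (p : ℚ) * Algebra.norm ℚ t = (a : ℚ) ^ 2 := by
    have : (p : ℂ) * ∏ i, (τ i : ℂ) = (a : ℂ) ^ 2 := by exact_mod_cast ha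
    rw [← h2] at this
    exact_mod_cast this
  have h5 : IsIntegral ℤ ((p : ℚ) * Algebra.norm ℚ (t - 4)) := by
    rw [← isIntegral_algebraMap_iff (algebraMap ℚ ℂ).injective, eq_ratCast]
    push_cast
    rw [h3]
    simp only [sub_eq_add_neg]
    rw [Finset.prod_add, Finset.mul_sum]
    refine IsIntegral.sum _ fun I _ => ?_
    rw [← mul_assoc]
    exact (hint I).mul (IsIntegral.prod _ fun _ _ => (isIntegral_natCast 4).neg)
  obtain ⟨k, hk⟩ := IsIntegrallyClosed.isIntegral_iff.1 h5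
  rw [eq_intCast] at hk
  have h6 : ((a ^ 2 * k : ℤ) : ℚ) = (p : ℚ) ^ 2 * Algebra.norm ℚ (t * (t - 4)) := by
    push_cast
    rw [hk, ← h4, map_mul]
    ring
  have h7 : ∀ x : ℚ, ((c.eval x : ℚ) : ℂ) = ∏ i, ((x : ℂ) - τ i) := fun x => by
    rw [← eq_ratCast (algebraMap ℚ ℂ), ← eval₂_at_apply, ← eval_map, hτ, eval_prod]
    simp
  obtain ⟨w, hw, hw'⟩ := plc_den p t h1
  refine ⟨a ^ 2 * k, ⟨hp, fun σ => ⟨_, he σ, h0 _⟩,
    ⟨w, ((Nat.dvd_prime hp).1 hw).resolve_left fun hw1 => ?_, hw'⟩, ⟨a, h4⟩, h6⟩, ?_⟩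
  · have h8 : IsIntegral ℤ t := by
      simpa using hw' 1 (Ideal.absNorm_eq_one_iff.1 hw1 ▸ Submodule.mem_top)
    obtain ⟨n, hn⟩ := IsIntegrallyClosed.isIntegral_iff.1 (Algebra.isIntegral_norm ℚ h8)
    rw [eq_intCast] at hn
    have h9 : (p : ℤ) * n = a ^ 2 := by
      rw [← hn] at h4
      exact_mod_cast h4
    obtain ⟨b, rfl⟩ := (Nat.prime_iff_prime_int.1 hp).dvd_of_dvd_pow ⟨n, h9.symm⟩
    have hp0 : (64 : ℝ) ≤ p := by exact_mod_cast h64
    have h10 : ∏ i, τ i = p * (b : ℝ) ^ 2 := by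
      refine mul_left_cancel₀ (show (p : ℝ) ≠ 0 by linarith) ?_
      rw [ha]
      push_cast
      ring
    have h11 : 0 < ∏ i, τ i := Finset.prod_pos fun i _ => (h0 i).1
    have h12 : ∏ i, τ i < ∏ _i : Fin 3, (4 : ℝ) :=
      Finset.prod_lt_prod_of_nonempty (fun i _ => (h0 i).1) (fun i _ => (h0 i).2)
        Finset.univ_nonempty
    have h13 : b ≠ 0 := by
      rintro rfl
      simp [h10] at h11
    have h14 : (1 : ℝ) ≤ (b : ℝ) ^ 2 := by
      exact_mod_cast (one_le_sq_iff_one_le_abs b).2 (Int.one_le_abs h13)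
    norm_num at h12
    nlinarith
  · rw [h6, map_mul]
    congr 1
    refine Rat.cast_injective (α := ℂ) ?_
    rw [Rat.cast_mul, Rat.cast_mul, h2, h3, h7, h7]
    simp only [Fin.prod_univ_three]
    push_cast
    ring

theorem Dvg.mono {G G' : Set ℕ} (h : Dvg G) (hG : G ⊆ G') : Dvg G' := frobc_mono h hG

/-- Pigeonhole for divergent sets. -/
theorem Dvg.fiber {G : Set ℕ} (h : Dvg G) {ι : Type} [Finite ι] (r : ℕ → ι → Prop)
    (hr : ∀ p ∈ G, ∃ i, r p i) : ∃ i, Dvg {p | p ∈ G ∧ r p i} := by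
  have := Fintype.ofFinite ι
  by_contra hc
  simp only [Dvg, not_exists, not_not] at hc
  refine h (Summable.of_nonneg_of_le (fun n => Set.indicator_nonneg (fun _ _ => by positivity) n)
    (fun n => ?_) (summable_sum (s := Finset.univ) fun i _ => hc i))
  have h0 : ∀ i ∈ Finset.univ, 0 ≤ {p | p ∈ G ∧ r p i}.indicator (fun p => (1 : ℝ) / p) n :=
    fun i _ => Set.indicator_nonneg (fun _ _ => by positivity) n
  by_cases hn : n ∈ G
  · obtain ⟨i, hi⟩ := hr n hn
    refine le_trans (le_of_eq ?_) (Finset.single_le_sum h0 (Finset.mem_univ i))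
    rw [Set.indicator_of_mem hn, Set.indicator_of_mem (show n ∈ {p | p ∈ G ∧ r p i} from ⟨hn, hi⟩)]
  · rw [Set.indicator_of_notMem hn]
    exact Finset.sum_nonneg h0

theorem Dvg.ge {G : Set ℕ} (h : Dvg G) (n : ℕ) : Dvg {p | p ∈ G ∧ n ≤ p} := by
  obtain ⟨i, hi⟩ := h.fiber (fun p (b : Bool) => b = decide (n ≤ p)) fun p _ => ⟨_, rfl⟩
  cases i
  · obtain ⟨p, hp, hn⟩ := hi.exists_ge n
    exact absurd hp.2 (by simpa using hn)
  · exact hi.mono fun p hp => ⟨hp.1, by simpa using hp.2⟩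

/-- One cubic subfield of `L` serves a divergent set of primes. -/
theorem exists_cubic {G : Set ℕ} (h : Dvg G) (L : Type) [Field L] [NumberField L] (c : ℕ → ℚ[X])
    (hc : ∀ p ∈ G, Irreducible (c p) ∧ (c p).natDegree = 3 ∧ ((c p).map (algebraMap ℚ L)).Splits) :
    ∃ (F : IntermediateField ℚ L) (G' : Set ℕ) (t : ℕ → F), finrank ℚ F = 3 ∧ Dvg G' ∧ G' ⊆ G ∧
      ∀ p ∈ G', aeval (t p) (c p) = 0 := by
  have : Finite (IntermediateField ℚ L) :=
    Field.finite_intermediateField_of_exists_primitive_element ℚ L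
      (Field.exists_primitive_element ℚ L)
  obtain ⟨F, hF⟩ := h.fiber (fun p (F : IntermediateField ℚ L) =>
      finrank ℚ F = 3 ∧ ∃ t : F, aeval t (c p) = 0) fun p hp => by
    obtain ⟨h1, h2, h3⟩ := hc p hp
    obtain ⟨x, hx⟩ := h3.exists_eval_eq_zero (by
      rw [degree_map]
      exact (degree_pos_of_irreducible h1).ne')
    rw [eval_map_algebraMap] at hx
    refine ⟨IntermediateField.adjoin ℚ {x}, ?_, IntermediateField.AdjoinSimple.gen ℚ x, ?_⟩
    · rw [IntermediateField.adjoin.finrank (Algebra.IsIntegral.isIntegral x),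
        ← minpoly.eq_of_irreducible h1 hx, natDegree_mul_C (by simpa using h1.ne_zero), h2]
    · refine (algebraMap (IntermediateField.adjoin ℚ {x}) L).injective ?_
      rw [← aeval_algebraMap_apply, IntermediateField.AdjoinSimple.algebraMap_gen, hx, map_zero]
  obtain ⟨p0, hp0, -⟩ := hF.exists_ge 0
  choose! t ht using fun p (hp : p ∈ {p | p ∈ G ∧ finrank ℚ F = 3 ∧ ∃ t : F, aeval t (c p) = 0}) =>
    hp.2.2
  exact ⟨F, _, t, hp0.2.1, hF, fun p hp => hp.1, ht⟩

end M4.NT
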