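import Pool.Agent.Lib.MP_33b3f9_ag.M4.CmDq
import Pool.Agent.Lib.MP_33b3f9_ag.M4.CmFace
import Pool.Agent.Lib.MP_33b3f9_ag.M4.NTPlc
import Pool.Agent.Lib.MP_33b3f9_ag.M4.NTFrobC

/-!
Block B3a: the choice of the places.
-/

set_option autoImplicit false

noncomputable section

namespace M4.CM

open Matrix Polynomial NumberField Pool.Agent.M4.Mx

open Pool.Agent.M4.Det

variable {τ : Mat} {K : IntermediateField ℚ ℂ} {r : Rep K}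

/-- Equality modulo `N` as a congruence. -/
def cmPlacesCon (r : Rep K) (N : ℕ) : Con (ℂ ≃ₐ[K] ℂ) where
  r := Eqm r N
  iseqv := ⟨fun _ _ _ _ _ => by simp, fun h l _ i j => dvd_sub_comm.1 (h l i j),
    fun h h' l _ i j => by simpa using dvd_add (h l i j) (h' l i j)⟩
  mul' := fun {a b c d} h h' l _ i j => by
    simp only [map_mul, Units.val_mul, Matrix.mul_apply, ← Finset.sum_sub_distrib]
    refine Finset.dvd_sum fun k _ => ?_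
    have := dvd_add ((h l i k).mul_right ((r l c : Matrix ν ν ℤ_[l]) k j))
      ((h' l k j).mul_left ((r l b : Matrix ν ν ℤ_[l]) i k))
    rwa [sub_mul, mul_sub, sub_add_sub_cancel] at this

theorem cmPlaces_le {l : ℕ} [Fact l.Prime] {N : ℕ} {σ₀ σ : ℂ ≃ₐ[K] ℂ} {j : ℕ}
    (h : Eqm r N σ₀ (σ ^ j)) (hN : ‖(N : Om l)‖ < ‖Dq (ro r l σ₀)‖) :
    ‖Dq (ro r l σ₀)‖ ≤ ‖Dq (ro r l σ)‖ := by
  have h1 := IsUltrametricDist.norm_add_le_max (Dq (ro r l σ₀) - Dq (ro r l (σ ^ j)))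
    (Dq (ro r l (σ ^ j)))
  rw [sub_add_cancel] at h1
  refine ((le_max_iff.1 h1).resolve_left (((Dq_eqm h).trans_lt hN).not_ge)).trans ?_
  rw [ro_pow]
  exact Dq_pow_le (by rw [ro_eq]; exact le_toOm _) j

/-- `NT.frobC` for the homomorphism `σ ↦ (r l σ mod N)_l` with values in the product over the primes `l`
of the groups of units of the matrices over `ℤ_[l] ⧸ (N)`; `Frob.unram`, `exists_cong`,
`NT.Dvg.ge`, `NT.Dvg.mono`. -/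
theorem frob_gen [FiniteDimensional ℚ K] (hred : REDst τ r) (ho : Opn r) (σ₀ : ℂ ≃ₐ[K] ℂ) {N : ℕ}
    (hN : N ≠ 0) (p₁ : ℕ) :
    NT.Dvg {p | p₁ < p ∧ ∃ (_ : Fact p.Prime) (e : ℂ ≃+* PadicAlgCl p) (σ : ℂ ≃ₐ[K] ℂ) (j : ℕ),
      IsPlace K e ∧ Frob τ r e σ ∧ Eqm r N σ₀ (σ ^ j)} := by
  obtain ⟨p₀, hp₀⟩ := hred
  obtain ⟨K₁, hK₁, h1⟩ := ho N hN
  refine ((NT.frobC K K₁ (cmPlacesCon r N).mk' (fun σ hσ => (Con.eq _).2 (h1 σ hσ)) σ₀).ge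
    (p₀ + p₁ + N + 1)).mono ?_
  rintro p ⟨⟨_, e, he, -, σ', h2, h3⟩, hp⟩
  have h4 : IsPlace K e := fun x hx => (he x hx).imp fun _ => Eq.symm
  obtain ⟨σ, hσ⟩ := hp₀ p (by omega) e h4
  obtain ⟨j, hj⟩ := hσ.unram σ' h2 N (Nat.not_dvd_of_pos_of_lt (Nat.pos_of_ne_zero hN) (by omega))
  obtain ⟨R, hR⟩ := exists_cong r (σ ^ j) hN
  refine ⟨by omega, ‹_›, e, σ, j, h4, hσ, (cmPlacesCon r N).trans ((Con.eq _).1 h3.symm)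
    fun l _ a b => ?_⟩
  simpa using dvd_sub (hj R hR l a b) (hR l a b)

/-- `Dq_ne_iff`, `Sp2.separable`, `Frob.weil`, `Sp2.transfer`. -/
theorem weil_of_Dq {p : ℕ} [Fact p.Prime] {e : ℂ ≃+* PadicAlgCl p} {σ : ℂ ≃ₐ[K] ℂ}
    (h : Frob τ r e σ) {l : ℕ} [Fact l.Prime] (hl : l ≠ p) (h0 : Dq (ro r l σ) ≠ 0) :
    ∃ P, Weil r p σ P ∧ Sp2 (P.map (Int.castRingHom Qb)) := by
  have h1 := (Dq_ne_iff _).1 h0
  obtain ⟨P, hP⟩ := h.weil l hl (Sp2.separable (algebraMap ℚ_[l] (Om l))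
    (charpoly_monic _).ne_zero (by rwa [← charpoly_map]))
  exact ⟨P, hP, Sp2.transfer P (Om l) Qb (ro_charpoly r hP hl ▸ h1)⟩

/-- First `frob_gen` for `σ₂`, `N = l₂`, gives one place `p₀ > l₁, l₂` with Frobenius `σ₀` and
`1 = ‖Dq (σ₀ ^ j)‖ ≤ ‖Dq σ₀‖` at `l₂`; so `Dq (ro r l σ₀) ≠ 0` for all `l ≠ p₀`. Choose `n` with
`l ^ (-n) ≤ ‖Dq (ro r l σ₀)‖` for the primes `l ≤ l₁` and apply `frob_gen` to `σ₀`,
`N = (l₁ !) ^ (n + 1)`; `Dq_eqm`, `Dq_pow_le`, `weil_of_Dq` at `l = 2`. -/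
theorem places [FiniteDimensional ℚ K] (hred : REDst τ r) (ho : Opn r) {l₁ : ℕ} (h2 : 2 ≤ l₁)
    {l₂ : ℕ} [Fact l₂.Prime] {σ₂ : ℂ ≃ₐ[K] ℂ} (hσ : ‖Dq (ro r l₂ σ₂)‖ = 1) (p₁ : ℕ) :
    ∃ (n : ℕ) (G : Set ℕ), NT.Dvg G ∧ ∀ p ∈ G, p₁ < p ∧ ∃ (_ : Fact p.Prime)
      (e : ℂ ≃+* PadicAlgCl p) (σ : ℂ ≃ₐ[K] ℂ) (P : ℤ[X]), IsPlace K e ∧ Frob τ r e σ ∧
        Weil r p σ P ∧ Sp2 (P.map (Int.castRingHom Qb)) ∧
        ∀ (l : ℕ) [Fact l.Prime], l ≤ l₁ → (l : ℝ) ^ (-n : ℤ) ≤ ‖Dq (ro r l σ)‖ := by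
  have h0 : ∀ (l : ℕ) [Fact l.Prime], 0 < (l : ℝ)⁻¹ ∧ (l : ℝ)⁻¹ < 1 := fun l hl =>
    ⟨inv_pos.2 (Nat.cast_pos.2 hl.out.pos), inv_lt_one_of_one_lt₀ (Nat.one_lt_cast.2 hl.out.one_lt)⟩
  obtain ⟨p₀, ⟨hp₀, _, e₀, σ₀, j₀, -, h1, h3⟩, -⟩ := (frob_gen hred ho σ₂
    (Fact.out : l₂.Prime).ne_zero (l₁ + l₂)).exists_ge 0
  have h4 := cmPlaces_le (l := l₂) h3 (by rw [norm_l, hσ]; exact (h0 l₂).2)
  obtain ⟨P₀, h5, h6⟩ := weil_of_Dq h1 (l := l₂) (by omega)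
    (norm_pos_iff.1 (by rw [hσ] at h4; linarith))
  obtain ⟨n, hn⟩ : ∃ n : ℕ, ∀ l ∈ Finset.range (l₁ + 1), ∀ [Fact l.Prime],
      (l : ℝ)⁻¹ ^ n ≤ ‖Dq (ro r l σ₀)‖ := by
    refine ((Filter.eventually_all_finset (l := Filter.atTop) _).2 fun l hl => ?_).exists
    by_cases hp : l.Prime
    · have := Fact.mk hp
      have h7 : Dq (ro r l σ₀) ≠ 0 := (Dq_ne_iff _).2 (by
        rw [ro_charpoly r h5 (by have := Finset.mem_range.1 hl; omega)]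
        exact h6.transfer P₀ Qb (Om l))
      exact ((tendsto_pow_atTop_nhds_zero_of_lt_one (h0 l).1.le (h0 l).2).eventually
        (ge_mem_nhds (norm_pos_iff.2 h7))).mono fun n hn _ => hn
    · exact .of_forall fun n h => absurd h.out hp
  refine ⟨n, _, frob_gen hred ho σ₀ (pow_ne_zero (n + 1) l₁.factorial_ne_zero) (p₁ + l₁), ?_⟩
  rintro p ⟨hp, _, e, σ, j, h7, h8, h9⟩
  have h10 : ∀ (l : ℕ) [Fact l.Prime], l ≤ l₁ → (l : ℝ)⁻¹ ^ n ≤ ‖Dq (ro r l σ)‖ := fun l hl h => by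
    have h11 := hn l (Finset.mem_range.2 (by omega))
    refine h11.trans (cmPlaces_le h9 (lt_of_lt_of_le ?_ h11))
    obtain ⟨m, hm⟩ := Nat.dvd_factorial hl.out.pos h
    have h12 : ‖(l₁.factorial : Om l)‖ ≤ (l : ℝ)⁻¹ := by
      rw [hm, Nat.cast_mul, norm_mul, norm_l]
      exact mul_le_of_le_one_right (h0 l).1.le (by simpa using norm_int_le (l := l) m)
    rw [Nat.cast_pow, norm_pow]
    exact (pow_le_pow_left₀ (norm_nonneg _) h12 _).trans_lt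
      (pow_lt_pow_right_of_lt_one₀ (h0 l).1 (h0 l).2 n.lt_succ_self)
  have := Fact.mk Nat.prime_two
  obtain ⟨P, h11, h12⟩ := weil_of_Dq h8 (l := 2) (by omega)
    (norm_pos_iff.1 ((pow_pos (h0 2).1 n).trans_le (h10 2 h2)))
  exact ⟨by omega, ‹_›, e, σ, P, h7, h8, h11, h12, fun l _ h => by
    rw [_root_.zpow_neg, zpow_natCast, ← inv_pow]; exact h10 l h⟩

end M4.CM
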