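import Pool.Agent.Lib.MP_33b3f9_ag.M4.CmArch

/-!
Block B3a: the pole at p.
-/

set_option autoImplicit false

noncomputable section

namespace M4.CM

open Matrix Polynomial NumberField Pool.Agent.M4.Mx

theorem cmpole_le {α : Type} [Fintype α] {f : α → ℝ} (h : ∀ i, 1 ≤ f i) (i : α) :
    f i ≤ ∏ j, f j := by
  classical
  rw [← Finset.mul_prod_erase _ _ (Finset.mem_univ i)]
  refine le_mul_of_one_le_right (zero_le_one.trans (h i)) ?_
  exact Finset.prod_induction _ (fun x => 1 ≤ x) (fun a b => one_le_mul_of_one_le_of_one_le) le_rfl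
    fun j _ => h j

theorem cmpole_neg {F Ω : Type} [Field F] [Field Ω] {t : F} {w : (F →+* Ω) → Ω} (hw : Sq t w) :
    Sq t (-w) := fun ι => by rw [Pi.neg_apply, neg_sq, hw ι]

theorem cmpole_pow {l : ℕ} [Fact l.Prime] (h : l ≠ 2) : ‖(4 : Om l)‖ = 1 ∧ ‖(8 : Om l)‖ = 1 := by
  constructor
  · rw [show (4 : Om l) = 2 ^ 2 by norm_num, norm_pow, norm_two h, one_pow]
  · rw [show (8 : Om l) = 2 ^ 3 by norm_num, norm_pow, norm_two h, one_pow]

theorem cmpole_sub {l : ℕ} [Fact l.Prime] {x y : Om l} {c : ℝ} (hx : ‖x‖ ≤ c) (hy : ‖y‖ ≤ c) :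
    ‖x - y‖ ≤ c := by
  rw [sub_eq_add_neg]
  exact (IsUltrametricDist.norm_add_le_max _ _).trans (max_le hx (by rwa [norm_neg]))

theorem cmpole_mul {F : Type} [Field F] {l : ℕ} [Fact l.Prime] (h : l ≠ 2) {t : F}
    {w : (F →+* Om l) → Om l} (hw : Sq t w) (ι : F →+* Om l) :
    ‖1 + w ι‖ * ‖1 - w ι‖ * ‖ι t‖ = 1 := by
  rw [← norm_mul, ← norm_mul, ← (cmpole_pow h).1]
  congr 1
  linear_combination -hw ι

namespace Glob

variable {F : Type} [Field F] [NumberField F] {p : ℕ} [Fact p.Prime] {P : ℤ[X]} {t : F} {s : ℤ}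
  (G : Glob p P t s)

include G

/-- `s / 8` is a unit. For each `ι` one of `‖1 ± w ι‖` is at least one; choose these signs, the product
has norm at most one (`rt_le`), so all these maxima are one and `‖w ι‖ ≤ 1`. Hence `1 ≤ ‖ι t‖`, the
product of the `‖ι t‖` is `p`, and they are integral powers of `p`. The pole is unique, so it is fixed
by all automorphisms (`norm_aut`, `mem_Qp_iff`). -/
theorem pole (hp : 64 ≤ p)
    (hv : ∀ (ι : F →+* Om p) (x : F), x ≠ 0 → ∃ n : ℤ, ‖ι x‖ = (p : ℝ) ^ n) :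
    ∃ ι₀, Pole p t ι₀ := by
  classical
  have h2 : p ≠ 2 := by omega
  have hp1 : (1 : ℝ) < p := by exact_mod_cast G.prime.one_lt
  have hs := norm_int_eq_one (G.not_dvd hp)
  have hle : ∀ w : (F →+* Om p) → Om p, Sq t w → ∀ ι, ‖w ι‖ ≤ 1 := fun w hw ι => by
    have key : ∀ j, ∃ x : Om p, x ^ 2 = w j ^ 2 ∧ 1 ≤ ‖1 + x‖ ∧ ‖w j‖ ≤ ‖1 + x‖ := fun j => by
      have h3 : ∀ c : ℝ, ‖1 + w j‖ ≤ c → ‖1 + -w j‖ ≤ c → 1 ≤ c ∧ ‖w j‖ ≤ c := fun c ha hb => by
        constructor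
        · have := (IsUltrametricDist.norm_add_le_max _ _).trans (max_le ha hb)
          rwa [show 1 + w j + (1 + -w j) = 2 by ring, norm_two h2] at this
        · have := cmpole_sub ha hb
          rwa [show 1 + w j - (1 + -w j) = 2 * w j by ring, norm_mul, norm_two h2, one_mul] at this
      rcases le_total ‖1 + w j‖ ‖1 + -w j‖ with h | h
      · exact ⟨-w j, neg_sq _, h3 _ h le_rfl⟩
      · exact ⟨w j, rfl, h3 _ le_rfl h⟩
    choose x hx h3 h4 using key
    have h5 := G.rt_le (w := x) fun j => by rw [hx, hw j]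
    rw [rt, norm_mul, norm_div, hs, (cmpole_pow h2).2, div_one, one_mul, norm_prod] at h5
    exact (h4 ι).trans ((cmpole_le h3 ι).trans h5)
  obtain ⟨w, hw⟩ := exists_sq (Ω := Om p) G.ne_zero
  have h1 : ∀ ι : F →+* Om p, 1 ≤ ‖ι t‖ := fun ι => by
    refine (cmpole_mul h2 hw ι).symm.trans_le (mul_le_of_le_one_left (norm_nonneg _) ?_)
    exact mul_le_one₀ ((IsUltrametricDist.norm_add_le_max _ _).trans
      (max_le norm_one.le (hle w hw ι))) (norm_nonneg _) (cmpole_sub norm_one.le (hle w hw ι))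
  choose n hn using fun ι => hv ι t G.ne_zero
  have h0 : ∀ ι, 0 ≤ n ι := fun ι => (one_le_zpow_iff_right₀ hp1).1 (hn ι ▸ h1 ι)
  have hsum : ∑ ι, n ι = 1 := by
    have h6 : (p : Om p) * ∏ ι : F →+* Om p, ι t = (s : Om p) ^ 2 := by
      rw [prod_emb]
      exact_mod_cast congrArg (Rat.cast : ℚ → Om p) G.nrm
    have h7 := congrArg norm h6
    rw [norm_mul, norm_pow, hs, one_pow, norm_l, norm_prod,
      inv_mul_eq_one₀ (zero_lt_one.trans hp1).ne'] at h7
    simp only [hn] at h7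
    refine zpow_right_injective₀ (zero_lt_one.trans hp1) hp1.ne' ?_
    change (p : ℝ) ^ (∑ ι, n ι) = (p : ℝ) ^ (1 : ℤ)
    rw [zpow_one]
    refine Eq.trans ?_ h7.symm
    exact Finset.induction_on Finset.univ (by simp) fun a S ha ih => by
      rw [Finset.sum_insert ha, Finset.prod_insert ha, zpow_add₀ (zero_lt_one.trans hp1).ne', ih]
  obtain ⟨ι₀, -, hι⟩ := Finset.exists_ne_zero_of_sum_ne_zero (hsum.trans_ne one_ne_zero)
  rw [← Finset.add_sum_erase _ _ (Finset.mem_univ ι₀)] at hsum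
  have h8 := Finset.sum_nonneg (s := Finset.univ.erase ι₀) fun ι _ => h0 ι
  have h9 := h0 ι₀
  have hpole : ‖ι₀ t‖ = p := by rw [hn, show n ι₀ = 1 by omega, zpow_one]
  have hunit : ∀ ι : F →+* Om p, ι ≠ ι₀ → ‖ι t‖ = 1 := fun ι h => by
    rw [hn, (Finset.sum_eq_zero_iff_of_nonneg fun ι _ => h0 ι).1
      (show ∑ ι ∈ Finset.univ.erase ι₀, n ι = 0 by omega) ι (by simp [h]), zpow_zero]
  refine ⟨ι₀, hpole, hunit, fun x => (mem_Qp_iff _).2 fun θ => ?_, hle⟩
  by_contra hne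
  have h10 := hunit ((θ : Om p →+* Om p).comp ι₀) fun h => hne (RingHom.congr_fun h x)
  exact hp1.ne (h10.symm.trans ((norm_aut θ _).trans hpole))

/-- `w = pr ι₀`; `isIntegral_of_le`, `le_inv_of_lt`, `int_of_norm_le`. -/
theorem plc {ι₀ : F →+* Om p} (h : Pole p t ι₀) : ∃ Δ : ℤ, NT.Plc p t Δ := by
  classical
  have hp1 : (1 : ℝ) < p := by exact_mod_cast G.prime.one_lt
  have hp0 : (0 : ℝ) < p := zero_lt_one.trans hp1
  obtain ⟨Δ, hΔ⟩ := int_of_norm_le ((p : ℚ) ^ 2 * Algebra.norm ℚ (t * (t - 4))) fun l _ => by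
    have h4 : ‖(4 : Om l)‖ ≤ 1 := by exact_mod_cast norm_int_le (l := l) 4
    push_cast
    rw [← prod_emb, norm_mul, norm_pow, norm_prod]
    simp only [map_mul, map_sub, map_ofNat, norm_mul]
    by_cases hl : l = p
    · subst hl
      have h1 : ∏ ι : F →+* Om l, ‖ι t‖ * ‖ι t - 4‖ ≤
          ∏ ι : F →+* Om l, if ι = ι₀ then (l : ℝ) ^ 2 else 1 :=
        Finset.prod_le_prod (fun _ _ => by positivity) fun ι _ => by
          split_ifs with hι
          · rw [hι, sq, h.pole]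
            exact mul_le_mul_of_nonneg_left (cmpole_sub h.pole.le (h4.trans hp1.le)) hp0.le
          · rw [h.unit ι hι, one_mul]
            exact cmpole_sub (h.unit ι hι).le h4
      rw [Finset.prod_ite_eq' _ ι₀, if_pos (Finset.mem_univ _)] at h1
      rw [norm_l, inv_pow, inv_mul_le_iff₀ (by positivity), mul_one]
      exact h1
    · have h1 : ‖(p : Om l)‖ ≤ 1 := by exact_mod_cast norm_int_le (l := l) p
      exact mul_le_one₀ (pow_le_one₀ (norm_nonneg _) h1)
        (Finset.prod_nonneg fun _ _ => by positivity)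
        (Finset.prod_le_one (fun _ _ => by positivity) fun ι _ =>
          mul_le_one₀ (G.int_le hl ι) (norm_nonneg _) (cmpole_sub (G.int_le hl ι) h4))
  refine ⟨Δ, G.prime, G.re, ⟨pr ι₀ (CM.int_le ι₀), absNorm_pr ι₀ h.rat, fun b hb => ?_⟩,
    ⟨s, G.nrm⟩, hΔ.symm⟩
  refine isIntegral_of_le fun l _ ι => ?_
  rw [map_mul, norm_mul]
  by_cases hl : l = p
  · subst hl
    by_cases hι : ι = ι₀
    · rw [hι, h.pole, ← le_div_iff₀ hp0, one_div]
      exact le_inv_of_lt (h.rat _) hb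
    · rw [h.unit ι hι, mul_one]
      exact CM.int_le ι b
  · exact mul_le_one₀ (CM.int_le ι b) (norm_nonneg _) (G.int_le hl ι)

/-- Take `ι` with `ι 0 = ι₀` and `z` with `‖1 + z ι₀‖ < 1` (change the sign), `u i = (1 + z) / (1 - z)`,
`β = s / 8 * ∏ (1 - z)`, `d i j = ι a + ι (b k) * (sg j * z)`. With `ϖ = ι k * (sg j * z)` one has
`ϖ ^ 2 = - ι m`; `Rel.sz` with both weights one. `‖ι b‖ ≤ 1` because `M' b` is integral. `Glob.prod`,
`Glob.rt_mul`, `prod_emb`. -/
theorem cube {ι₀ : F →+* Om p} (h : Pole p t ι₀) (hp : 64 ≤ p) {C N₀ : ℕ} {k m : 𝓞 F}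
    (hk : Kap C p t s k m) {x x' : Pl F} {a b : F} (hr : Rel m x x' N₀ a b) (hM : ¬ p ∣ x.M)
    (hM' : ¬ p ∣ x'.M) {γ : ℚ[X]} (hγ : Gm t s a (b * k) γ) : Cube p P γ x.M x'.M := by
  have h2 : p ≠ 2 := by omega
  have hp1 : (1 : ℝ) < p := by exact_mod_cast G.prime.one_lt
  obtain ⟨ι, hι⟩ := exists_equiv G.rank ι₀
  obtain ⟨z, hz, hlt⟩ : ∃ z : (F →+* Om p) → Om p, Sq t z ∧ ‖1 + z ι₀‖ < 1 := by
    obtain ⟨w, hw⟩ := exists_sq (Ω := Om p) G.ne_zero
    by_contra hc
    push Not at hc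
    have h3 := hc _ (cmpole_neg hw)
    rw [Pi.neg_apply, ← sub_eq_add_neg] at h3
    have h4 := cmpole_mul h2 hw ι₀
    rw [h.pole] at h4
    have := one_le_mul_of_one_le_of_one_le (hc w hw) h3
    nlinarith
  have hu : ∀ j, j ≠ ι₀ → ‖1 + z j‖ = 1 ∧ ‖1 - z j‖ = 1 := fun j hj => by
    have h3 := cmpole_mul h2 hz j
    rw [h.unit j hj, mul_one] at h3
    have h4 : ‖1 + z j‖ ≤ 1 :=
      (IsUltrametricDist.norm_add_le_max _ _).trans (max_le norm_one.le (h.le z hz j))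
    have h5 : ‖1 - z j‖ ≤ 1 := cmpole_sub norm_one.le (h.le z hz j)
    have h6 := norm_nonneg (1 + z j)
    have h7 := norm_nonneg (1 - z j)
    constructor <;> nlinarith
  have hm : ∀ j, ‖1 - z j‖ = 1 := fun j => by
    by_cases hj : j = ι₀
    · refine le_antisymm (cmpole_sub norm_one.le (h.le z hz j)) (not_lt.1 fun h3 => ?_)
      have := (IsUltrametricDist.norm_add_le_max _ _).trans_lt (max_lt (hj ▸ hlt) h3)
      rw [show 1 + z j + (1 - z j) = 2 by ring, norm_two h2] at this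
      exact this.false
    · exact (hu j hj).2
  have hne : ∀ i : Fin 3, i ≠ 0 → ι i ≠ ι₀ := fun i hi e => hi (ι.injective (e.trans hι.symm))
  have hn : ∀ j, 1 - z j ≠ 0 := fun j => (G.sq_ne hz j).2.2
  have hv : ∀ ε : Fin 3 → Fin 2, (s : Om p) / 8 * (∏ i, (1 - z (ι i))) *
      ∏ i, ((1 + z (ι i)) / (1 - z (ι i))) ^ (ε i : ℕ) =
        (s : Om p) / 8 * ∏ i, (1 + sg (Om p) (ε i) * z (ι i)) := fun ε => by
    rw [mul_assoc, ← Finset.prod_mul_distrib]
    congr 1
    refine Finset.prod_congr rfl fun i _ => ?_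
    have := hn (ι i)
    generalize ε i = j
    fin_cases j
    · simp [sg, sub_eq_add_neg]
    · simp only [sg, Fin.mk_one, Fin.isValue, one_ne_zero, if_false, pow_one, one_mul]
      field_simp
  have hsg : ∀ j, sg (Om p) j ^ 2 = 1 := fun j => by
    unfold sg
    split_ifs <;> norm_num
  have hw : ∀ i j, (ι i k * (sg (Om p) j * z (ι i))) ^ 2 = -ι i m := fun i j => by
    have h3 := congrArg (ι i) hk.eq
    simp only [map_mul, map_pow, map_sub, map_ofNat] at h3
    refine mul_right_cancel₀ ((map_ne_zero (ι i)).2 G.ne_zero) ?_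
    rw [mul_pow, mul_pow, hsg, one_mul, mul_assoc, hz]
    linear_combination h3
  have hsq : ∀ j, ((1 + z j) / (1 - z j)) ^ 2 ≠ 1 := fun j e => by
    rw [div_pow, div_eq_one_iff_eq (pow_ne_zero 2 (hn j))] at e
    exact (G.sq_ne hz j).1 (by linear_combination (1 / 4 : Om p) * e)
  have hd : ∀ j : F →+* Om p, ‖j a + j (b * k) * (sg (Om p) 0 * z j) -
      (j a + j (b * k) * (sg (Om p) 1 * z j))‖ ≤ ‖(1 + z j) / (1 - z j) - 1‖ := fun j => by
    have h3 : ‖j b‖ ≤ 1 := by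
      have := le_of_integral (hr.int_b.map_of_comp_eq (RingHom.id ℤ) j (RingHom.ext_int _ _))
      rwa [map_mul, map_natCast, norm_mul, norm_nat_eq_one hM', one_mul] at this
    have h4 : (1 + z j) / (1 - z j) - 1 = 2 * z j / (1 - z j) := by
      have := hn j
      field_simp
      ring
    have h5 : j a + j (b * k) * (sg (Om p) 0 * z j) - (j a + j (b * k) * (sg (Om p) 1 * z j)) =
        -(j b * j k * (2 * z j)) := by
      simp only [sg, map_mul, if_true, one_ne_zero, if_false]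
      ring
    rw [h4, h5, norm_neg, norm_div, hm, div_one, norm_mul, norm_mul]
    exact mul_le_of_le_one_left (norm_nonneg _) (mul_le_one₀ h3 (norm_nonneg _) (CM.int_le j k))
  refine ⟨(s : Om p) / 8 * ∏ i, (1 - z (ι i)), fun i => (1 + z (ι i)) / (1 - z (ι i)),
    fun i j => ι i a + ι i (b * k) * (sg (Om p) j * z (ι i)), ?_, ?_, ?_, ?_, ?_, ?_, hsq _, hsq _,
    fun ε => ?_, fun i j => ?_, hd _, hd _, ?_⟩
  · simp only [hv]
    exact G.prod ι hz
  · have h3 := hv fun _ => 1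
    simp only [sg, Fin.val_one, pow_one, one_ne_zero, if_false, one_mul] at h3
    rw [sq, mul_assoc, h3, ← G.rt_mul hz, mul_comm, rt, rt, ← ι.prod_comp, ← ι.prod_comp]
    simp only [Pi.neg_apply, sub_eq_add_neg]
  · rw [norm_mul, norm_div, norm_int_eq_one (G.not_dvd hp), (cmpole_pow h2).2, norm_prod]
    simp [hm]
  · simpa only [norm_div, hm, div_one, hι] using hlt
  · simp only [norm_div, hm, (hu _ (hne 1 (by decide))).1, div_one]
  · simp only [norm_div, hm, (hu _ (hne 2 (by decide))).1, div_one]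
  · have h3 := hγ (Om p) (fun j => sg (Om p) (ε (ι.symm j)) * z j) fun j => by
      rw [mul_pow, hsg, one_mul, hz]
    rw [rt, ← ι.prod_comp, ← ι.prod_comp] at h3
    simp only [Equiv.symm_apply_apply] at h3
    rw [hv, ← h3, aeval_def, eval_map, RingHom.ext_rat (algebraMap ℚ (Om p)) (Rat.castHom _)]
  · have h3 := hr.sz p (ι i) _ (hw i j)
    rw [Pl.wt, Pl.wt, if_neg fun e => hM' e.1, if_neg fun e => hM e.1, mul_one,
      ← mul_assoc (ι i b), ← map_mul] at h3
    exact h3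
  · have h3 : (x'.M : Om p) * ∏ j : F →+* Om p, j (a ^ 2 + m * b ^ 2) = x.M := by
      rw [prod_emb]
      exact_mod_cast congrArg (Rat.cast : ℚ → Om p) hr.nrm
    rw [← h3, ← ι.prod_comp]
    congr 1
    refine Finset.prod_congr rfl fun i _ => ?_
    have h4 := hw i 1
    simp only [sg, map_mul, map_add, map_pow, if_true, one_ne_zero, if_false] at h4 ⊢
    linear_combination (-(ι i b) ^ 2) * h4

end Glob

end M4.CM
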