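import Pool.Agent.Lib.MP_33b3f9_ag.M4.NTDefs

/-!
Small counting lemmas.
-/

set_option autoImplicit false

namespace M4.NT

open NumberField Module Filter Topology

open Classical in
/-- Double counting: `d * |X| * |A| ≤ ∑ x ∈ X, #{p | r p x} ≤ |good| * |A| + d / 2 * |A| * |X|`. The
case `d ≤ 0` is trivial. -/
theorem tup {α β : Type} (A : Finset α) (X : Finset β) (r : α → β → Prop) {d : ℝ}
    (h : ∀ p ∈ A, d * X.card ≤ (X.filter (r p)).card) (hA : A.Nonempty) :
    d / 2 * X.card ≤ (X.filter fun x => d / 2 * A.card ≤ (A.filter fun p => r p x).card).card := by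
  rcases le_or_gt d 0 with hd | hd
  · exact (mul_nonpos_of_nonpos_of_nonneg (by linarith) (Nat.cast_nonneg _)).trans
      (Nat.cast_nonneg _)
  have hA' : (0 : ℝ) < A.card := Nat.cast_pos.2 hA.card_pos
  have h1 : ∑ p ∈ A, ((X.filter (r p)).card : ℝ) =
      ∑ x ∈ X, ((A.filter fun p => r p x).card : ℝ) := by
    simp only [Finset.card_filter, Nat.cast_sum]
    exact Finset.sum_comm
  have h2 := Finset.sum_le_sum h
  have h3 : ∀ x ∈ X, ((A.filter fun p => r p x).card : ℝ) ≤
      (if d / 2 * A.card ≤ (A.filter fun p => r p x).card then (A.card : ℝ) else 0) +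
        d / 2 * A.card := fun x _ => by
    split_ifs with h4
    · exact (Nat.cast_le.2 (Finset.card_filter_le _ _)).trans (le_add_of_nonneg_right (by positivity))
    · linarith
  have h4 := Finset.sum_le_sum h3
  rw [Finset.sum_add_distrib, ← Finset.sum_filter, Finset.sum_const, Finset.sum_const, nsmul_eq_mul,
    nsmul_eq_mul, ← h1] at h4
  rw [Finset.sum_const, nsmul_eq_mul] at h2
  refine le_of_mul_le_mul_right ?_ hA'
  linarith

/-- `quadraticChar`: three signs `-1` multiply to `-1` (in characteristic two all elements are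
squares, `FiniteField.isSquare_of_char_two`). -/
theorem par {k : Type} [Field k] [Finite k] (x : Fin 3 → k) (h0 : ∏ i, x i ≠ 0)
    (h : IsSquare (∏ i, x i)) : ∃ i, x i ≠ 0 ∧ IsSquare (x i) := by
  classical
  let _ := Fintype.ofFinite k
  by_contra hc
  have h1 : ∀ i, quadraticChar k (x i) = -1 := fun i =>
    quadraticChar_neg_one_iff_not_isSquare.2 fun e =>
      hc ⟨i, Finset.prod_ne_zero_iff.1 h0 i (Finset.mem_univ i), e⟩
  refine quadraticChar_neg_one_iff_not_isSquare.1 ?_ h
  rw [map_prod, Fin.prod_univ_three, h1, h1, h1]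
  norm_num

open Classical in
/-- Otherwise the block `[2 ^ j, 2 ^ (j + 1)]` contributes at most `2 ^ (-κ * j)` to the sum of
`1 / p` for all large `j` (`summable_of_sum_range_le`, or `Finset.sum_fiberwise` on `Nat.log 2`). -/
theorem Dvg.dyadic {G : Set ℕ} (h : Dvg G) {κ : ℝ} (hκ : 0 < κ) (P0 : ℕ) :
    ∃ P : ℕ, P0 ≤ P ∧ (P : ℝ) ^ (1 - κ) ≤ ((Finset.Icc P (2 * P)).filter (· ∈ G)).card := by
  by_contra hc
  push Not at hc
  have h0 : ∀ n, 0 ≤ G.indicator (fun p => (1 : ℝ) / p) n := fun n =>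
    Set.indicator_nonneg (fun _ _ => by positivity) n
  have hr0 : (0 : ℝ) ≤ 2 ^ (-κ) := by positivity
  have hr1 : (2 : ℝ) ^ (-κ) < 1 := Real.rpow_lt_one_of_one_lt_of_neg one_lt_two (by linarith)
  have key : ∀ m : ℕ, ∑ i ∈ Finset.range (2 ^ (P0 + m)), G.indicator (fun p => (1 : ℝ) / p) i ≤
      ∑ i ∈ Finset.range (2 ^ P0), G.indicator (fun p => (1 : ℝ) / p) i +
        ∑ i ∈ Finset.range m, ((2 : ℝ) ^ (-κ)) ^ i := by
    intro m
    induction m with
    | zero => simp
    | succ m ih =>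
      obtain ⟨P, hP⟩ : ∃ P, P = 2 ^ (P0 + m) := ⟨_, rfl⟩
      have hP0 : (0 : ℝ) < P := by
        rw [hP]
        positivity
      have h1 : ∑ i ∈ Finset.Ico P (2 * P), G.indicator (fun p => (1 : ℝ) / p) i ≤
          ((Finset.Icc P (2 * P)).filter (· ∈ G)).card * (1 / P : ℝ) := by
        refine (Finset.sum_le_sum_of_subset_of_nonneg Finset.Ico_subset_Icc_self
          fun i _ _ => h0 i).trans ?_
        simp only [Set.indicator_apply]
        rw [← Finset.sum_filter, ← nsmul_eq_mul]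
        refine Finset.sum_le_card_nsmul _ _ _ fun i hi => ?_
        exact one_div_le_one_div_of_le hP0
          (Nat.cast_le.2 (Finset.mem_Icc.1 (Finset.mem_filter.1 hi).1).1)
      have h2 := hc P (hP ▸ (Nat.le_add_right P0 m).trans Nat.lt_two_pow_self.le)
      have h3 : (P : ℝ) ^ (1 - κ) * (1 / P) ≤ ((2 : ℝ) ^ (-κ)) ^ m := by
        rw [sub_eq_neg_add, Real.rpow_add_one hP0.ne', mul_assoc, mul_one_div_cancel hP0.ne',
          mul_one, ← Real.rpow_natCast, ← Real.rpow_mul zero_le_two, mul_comm,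
          Real.rpow_mul zero_le_two, Real.rpow_natCast]
        refine Real.rpow_le_rpow_of_nonpos (by positivity) ?_ (by linarith)
        rw [hP]
        exact_mod_cast Nat.pow_le_pow_right two_pos (Nat.le_add_left m P0)
      have h4 := mul_le_mul_of_nonneg_right h2.le (one_div_pos.2 hP0).le
      rw [← add_assoc, pow_succ', ← hP, Finset.sum_range_succ,
        ← Finset.sum_range_add_sum_Ico _ (show P ≤ 2 * P by omega)]
      rw [← hP] at ih
      linarith
  refine h (summable_of_sum_range_le h0 (c := ∑ i ∈ Finset.range (2 ^ P0),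
    G.indicator (fun p => (1 : ℝ) / p) i + ∑' i : ℕ, ((2 : ℝ) ^ (-κ)) ^ i) fun n => ?_)
  refine (Finset.sum_le_sum_of_subset_of_nonneg (Finset.range_mono
    ((Nat.le_add_left n P0).trans Nat.lt_two_pow_self.le)) fun i _ _ => h0 i).trans
    ((key n).trans (add_le_add_right ?_ _))
  exact (summable_geometric_of_lt_one hr0 hr1).sum_le_tsum _ fun i _ => pow_nonneg hr0 i

/-- The product of the primes divides `m` (`Finset.prod_primes_dvd`). -/
theorem pow_card_dvd_le {Y m : ℕ} (hm : m ≠ 0) (T : Finset ℕ)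
    (hT : ∀ l ∈ T, l.Prime ∧ Y ≤ l ∧ l ∣ m) : Y ^ T.card ≤ m := by
  exact (Finset.pow_card_le_prod T (fun l => l) Y fun l hl => (hT l hl).2.1).trans
    (Nat.le_of_dvd (Nat.pos_of_ne_zero hm) (Finset.prod_primes_dvd m
      (fun l hl => (hT l hl).1.prime) fun l hl => (hT l hl).2.2))

/-- `Finset.exists_subset_card_eq` and induction on `s`, or `T.equivFin` and `finProdFinEquiv`. -/
theorem exists_blocks (T : Finset ℕ) (s n : ℕ) (h : s * n ≤ T.card) :
    ∃ LL : Fin s → Finset ℕ, (∀ i, LL i ⊆ T ∧ (LL i).card = n) ∧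
      ∀ i j, i ≠ j → Disjoint (LL i) (LL j) := by
  obtain ⟨e⟩ : Nonempty (Fin s × Fin n ↪ T) :=
    Function.Embedding.nonempty_of_card_le (by simpa using h)
  have he : Function.Injective fun x => (e x).1 := Subtype.val_injective.comp e.injective
  refine ⟨fun i => Finset.univ.image fun j => (e (i, j)).1, fun i => ⟨fun l hl => ?_, ?_⟩,
    fun i j hij => Finset.disjoint_left.2 fun l h1 h2 => ?_⟩
  · obtain ⟨j, -, rfl⟩ := Finset.mem_image.1 hl
    exact (e _).2
  · rw [Finset.card_image_of_injective _ fun a b hab => (Prod.ext_iff.1 (he hab)).2,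
      Finset.card_univ, Fintype.card_fin]
  · obtain ⟨a, -, rfl⟩ := Finset.mem_image.1 h1
    obtain ⟨b, -, hb⟩ := Finset.mem_image.1 h2
    exact hij (Prod.ext_iff.1 (he hb)).1.symm

end M4.NT
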