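import Pool.Agent.Lib.MP_33b3f9_ag.M4.CmFace
import Pool.Agent.Lib.MP_33b3f9_ag.M4.CmArch
import Pool.Agent.Lib.MP_33b3f9_ag.M4.NTMisc

/-!
Block B3a: faces at split primes.
-/

set_option autoImplicit false

noncomputable section

namespace M4.CM

open Matrix Polynomial NumberField Pool.Agent.M4.Mx

variable {τ : Mat} {K : IntermediateField ℚ ℂ} {r : Rep K} {F : Type} [Field F] [NumberField F]
  {p : ℕ} [Fact p.Prime] {e : ℂ ≃+* PadicAlgCl p} {σ : ℂ ≃ₐ[K] ℂ} {P : ℤ[X]} {t : F} {s Δ : ℤ}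
  {l : ℕ} [Fact l.Prime] {fz : Fr ν ℤ_[l]} {hz : Fin 3 → M2 ℤ_[l]} {ι : Fin 3 ≃ (F →+* Om l)}

theorem cmsplit_tr {R S : Type} [CommRing R] [CommRing S] (φ : R →+* S) (x : M2 R) :
    (x.map φ).trace = φ x.trace := (AddMonoidHom.map_trace φ x).symm

theorem cmsplit_det {R S : Type} [CommRing R] [CommRing S] (φ : R →+* S) (x : M2 R) :
    (x.map φ).det = φ x.det := (φ.map_det x).symm

omit [NumberField F] in
theorem cmsplit_loc (L : Loc t s (fz.map (toOm l)) (fun i => (hz i).map (toOm l)) ι) (i : Fin 3) :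
    toOm l (hz i).trace ^ 2 = ι i t * toOm l (hz i).det ∧ ‖toOm l (hz i).det‖ = 1 ∧
      ((hz i).map PadicInt.toZMod).det ≠ 0 := by
  have h1 := L.inv i
  have h2 := L.det i
  simp only [cmsplit_tr, cmsplit_det] at h1 h2
  refine ⟨h1, h2, fun h => ?_⟩
  rw [cmsplit_det, toZMod_eq_zero_iff] at h
  exact h.ne h2

theorem cmsplit_rb (hA : ro r l σ = (fz.map (toOm l)).T fun i => (hz i).map (toOm l)) :
    rb r l σ = (fz.map PadicInt.toZMod).T fun i => (hz i).map PadicInt.toZMod := by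
  rw [ro_eq, ← Fr.map_T] at hA
  rw [← Fr.map_T, rb, Matrix.map_injective toOm_inj hA]

omit [Fact p.Prime] in
/-- `p ^ 2 * ∏ i, tr i ^ 2 * (tr i ^ 2 - 4 det i) = Δ * ∏ i, det i ^ 2` in `ℤ_[l]` (`prod_emb`); reduce
modulo `l`, `NT.par`, `ZMod.isSquare_of_jacobiSym_eq_one`. -/
theorem sq_of_jac (G : Glob p P t s)
    (L : Loc t s (fz.map (toOm l)) (fun i => (hz i).map (toOm l)) ι)
    (hΔ : (Δ : ℚ) = (p : ℚ) ^ 2 * Algebra.norm ℚ (t * (t - 4))) (hl : l ≠ p)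
    (hj : jacobiSym Δ l = 1) :
    ∃ i, IsSquare (PadicInt.toZMod ((hz i).trace ^ 2 - 4 * (hz i).det)) := by
  have h1 : (p : ℤ_[l]) ^ 2 * ((∏ i, (hz i).trace) ^ 2 * ∏ i, ((hz i).trace ^ 2 - 4 * (hz i).det)) =
      Δ * (∏ i, (hz i).det) ^ 2 := toOm_inj (by
    have h2 : ∏ i, ι i (t * (t - 4)) = ((Algebra.norm ℚ (t * (t - 4)) : ℚ) : Om l) := by
      rw [← prod_emb]
      exact ι.prod_comp fun j => j (t * (t - 4))
    have h3 : (Δ : Om l) = (p : Om l) ^ 2 * ∏ i, ι i (t * (t - 4)) := by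
      rw [h2]
      exact_mod_cast congrArg (Rat.cast : ℚ → Om l) hΔ
    simp only [map_mul, map_pow, map_prod, map_natCast, map_intCast, map_sub, map_ofNat] at h3 ⊢
    rw [h3, mul_assoc, ← Finset.prod_pow, ← Finset.prod_pow, ← Finset.prod_mul_distrib,
      ← Finset.prod_mul_distrib]
    congr 1
    refine Finset.prod_congr rfl fun i _ => ?_
    rw [(cmsplit_loc L i).1]
    ring)
  have h4 := congrArg PadicInt.toZMod h1
  rw [map_mul, map_mul, map_mul, map_pow, map_pow, map_pow, map_intCast, map_prod _ fun i =>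
    (hz i).trace ^ 2 - 4 * (hz i).det] at h4
  obtain ⟨δ, hδ⟩ := ZMod.isSquare_of_jacobiSym_eq_one hj
  have h5 : (Δ : ZMod l) ≠ 0 := fun h => by
    rw [← jacobiSym.legendreSym.to_jacobiSym, (legendreSym.eq_zero_iff l Δ).2 h] at hj
    exact zero_ne_one hj
  have h6 : PadicInt.toZMod (∏ i, (hz i).det) ≠ 0 := by
    rw [map_prod]
    exact Finset.prod_ne_zero_iff.2 fun i _ e =>
      (cmsplit_loc L i).2.2 ((cmsplit_det _ (hz i)).trans e)
  have h7 := h4.trans_ne (mul_ne_zero h5 (pow_ne_zero 2 h6))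
  have h8 := left_ne_zero_of_mul h7
  have h9 := left_ne_zero_of_mul (right_ne_zero_of_mul h7)
  obtain ⟨i, -, hi⟩ := NT.par (fun i => PadicInt.toZMod ((hz i).trace ^ 2 - 4 * (hz i).det))
    (right_ne_zero_of_mul (right_ne_zero_of_mul h7))
    ⟨δ * PadicInt.toZMod (∏ i, (hz i).det) /
      (PadicInt.toZMod (p : ℤ_[l]) * PadicInt.toZMod (∏ i, (hz i).trace)), by
      have h10 := (pow_ne_zero_iff two_ne_zero).1 h8
      have h11 := (pow_ne_zero_iff two_ne_zero).1 h9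
      rw [hδ] at h4
      field_simp
      linear_combination h4⟩
  exact ⟨i, hi⟩

/-- `sq_of_jac`, `exists_stable`, `stab_iff`, `rb_of_dec`. -/
theorem exists_slot (hσ : Frob τ r e σ) (G : Glob p P t s)
    (L : Loc t s (fz.map (toOm l)) (fun i => (hz i).map (toOm l)) ι)
    (hA : ro r l σ = (fz.map (toOm l)).T fun i => (hz i).map (toOm l))
    (hΔ : (Δ : ℚ) = (p : ℚ) ^ 2 * Algebra.norm ℚ (t * (t - 4))) (hl : l ≠ p) (h2 : l ≠ 2)
    (hj : jacobiSym Δ l = 1) : ∃ f w, w ≠ 0 ∧ ∀ σ' : ℂ ≃ₐ[K] ℂ, NT.Dec e σ' →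
      Stab r σ' l (slot (fz.Q.map PadicInt.toZMod) f w) := by
  obtain ⟨i, hi⟩ := sq_of_jac G L hΔ hl hj
  obtain ⟨w, hw, h⟩ := exists_stable h2 (fz.map PadicInt.toZMod)
    (fun i => (hz i).map PadicInt.toZMod) i (by
      simpa only [cmsplit_tr, cmsplit_det, map_sub, map_pow, map_mul, map_ofNat] using hi)
  refine ⟨i, w, hw, fun σ' h' => (stab_iff σ' _ i w).2 ?_⟩
  obtain ⟨j, hj'⟩ := rb_of_dec hσ hl h'
  rw [hj', cmsplit_rb hA]
  clear hj'
  induction j with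
  | zero => intro x hx; simpa using hx
  | succ j ih =>
    intro x hx
    rw [pow_succ', ← mulVec_mulVec]
    exact h _ (ih x hx)

omit [Fact p.Prime] in
/-- `stab_iff`, `eigen_of_stable`, `exists_proj`, `kil_of_ker`. -/
theorem exists_face (L : Loc t s (fz.map (toOm l)) (fun i => (hz i).map (toOm l)) ι)
    (hA : ro r l σ = (fz.map (toOm l)).T fun i => (hz i).map (toOm l)) {k : 𝓞 F}
    (hu : Unt t k l) {g : MZ} {i : Fin 3} {w : Fin 2 → ZMod l} (hw : w ≠ 0)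
    (hk : Ker g l = slot (fz.Q.map PadicInt.toZMod) i w) (hs : Stab r σ l (Ker g l)) :
    ∃ z : Om l, z ∈ NT.Qp l ∧ ‖z‖ = 1 ∧ z ^ 2 * ι i t = ι i t - 4 ∧
      Kil (fz.map (toOm l)) (fun i => (hz i).map (toOm l)) g i z := by
  rw [hk, stab_iff, cmsplit_rb hA] at hs
  obtain ⟨a, ha⟩ := eigen_of_stable (fz.map PadicInt.toZMod) (fun i => (hz i).map PadicInt.toZMod)
    (fun j => (cmsplit_loc L j).2.2) i hw hs
  obtain ⟨h1, h2, -⟩ := cmsplit_loc L i
  obtain ⟨h3, h4, -⟩ := hu.2 (ι i)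
  have h5 : ‖(hz i).trace‖ = 1 := by
    have := congrArg norm h1
    rw [norm_pow, norm_mul, h2, h3, mul_one, norm_toOm] at this
    exact (pow_eq_one_iff_of_nonneg (norm_nonneg _) two_ne_zero).1 this
  have h6 : toOm l ((hz i).trace ^ 2 - 4 * (hz i).det) = (ι i t - 4) * toOm l (hz i).det := by
    rw [map_sub, map_pow, map_mul, map_ofNat, h1]
    ring
  have h7 : ‖(hz i).trace ^ 2 - 4 * (hz i).det‖ = 1 := by
    rw [← norm_toOm, h6, norm_mul, h4, h2, mul_one]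
  obtain ⟨z, y, e1, e2, e3⟩ := exists_proj hu.1 (hz i) h5 h7 hw ha
  have h8 : toOm l z ^ 2 * ι i t = ι i t - 4 := by
    have := congrArg (toOm l) e1
    rw [h6, map_mul, map_pow, map_pow, h1, ← mul_assoc] at this
    exact mul_right_cancel₀ (norm_ne_zero_iff.1 (h2.trans_ne one_ne_zero)) this
  refine ⟨toOm l z, toOm_mem z, ?_, h8, ?_⟩
  · have := congrArg norm h8
    rw [norm_mul, norm_pow, h3, h4, mul_one] at this
    exact (pow_eq_one_iff_of_nonneg (norm_nonneg _) two_ne_zero).1 this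
  · have := kil_of_ker fz i hk e3
    rwa [e2] at this

end M4.CM
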