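import Pool.Agent.Lib.MP_33b3f9_ag.M4.CmNorm

/-!
Block B3a: transport of the cube.
-/

set_option autoImplicit false

noncomputable section

namespace M4.CM

open Matrix Polynomial NumberField Pool.Agent.M4.Mx

variable {F : Type} [Field F] [NumberField F] {Ω : Type} [Field Ω] [IsAlgClosed Ω] [CharZero Ω]

theorem exists_equiv (hF : Module.finrank ℚ F = 3) (ι₀ : F →+* Ω) :
    ∃ ι : Fin 3 ≃ (F →+* Ω), ι 0 = ι₀ := by
  classical
  have hc : Fintype.card (F →+* Ω) = 3 := (Embeddings.card F Ω).trans hF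
  let e : Fin 3 ≃ (F →+* Ω) := (Fintype.equivFinOfCardEq hc).symm
  exact ⟨(Equiv.swap 0 (e.symm ι₀)).trans e, by simp⟩

/-- `NumberField.Embeddings.card`. -/
theorem equiv_of_inj (hF : Module.finrank ℚ F = 3) {ι : Fin 3 → F →+* Ω}
    (h : Function.Injective ι) : ∃ e : Fin 3 ≃ (F →+* Ω), ∀ i, e i = ι i := by
  have hc : Fintype.card (F →+* Ω) = 3 := (Embeddings.card F Ω).trans hF
  exact ⟨Equiv.ofBijective ι ((Fintype.bijective_iff_injective_and_card ι).2
    ⟨h, by rw [hc, Fintype.card_fin]⟩), fun _ => rfl⟩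

/-- `Algebra.norm_eq_prod_embeddings`, `RingHom.equivRatAlgHom`. -/
theorem prod_emb (x : F) : ∏ ι : F →+* Ω, ι x = ((Algebra.norm ℚ x : ℚ) : Ω) := by
  rw [← eq_ratCast (algebraMap ℚ Ω), Algebra.norm_eq_prod_embeddings ℚ Ω x]
  exact Fintype.prod_equiv (RingHom.equivRatAlgHom F Ω) _ _ fun _ => rfl

/-- `NumberField.Embeddings.range_eval_eq_rootSet_minpoly`. -/
theorem exists_emb_of_root (x : F) {z : Ω} (h : ((minpoly ℚ x).map (Rat.castHom Ω)).eval z = 0) :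
    ∃ ι : F →+* Ω, ι x = z := by
  have h1 : z ∈ (minpoly ℚ x).rootSet Ω := by
    rw [mem_rootSet]
    refine ⟨minpoly.ne_zero (IsIntegral.of_finite ℚ x), ?_⟩
    rw [aeval_def, eval₂_eq_eval_map, Subsingleton.elim (algebraMap ℚ Ω) (Rat.castHom Ω)]
    exact h
  rw [← Embeddings.range_eval_eq_rootSet_minpoly F Ω x] at h1
  exact h1

theorem comp_bij (j : Qb →+* Ω) : Function.Bijective fun s : F →+* Qb => j.comp s := by
  refine (Fintype.bijective_iff_injective_and_card _).2 ⟨fun a b hab => ?_, ?_⟩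
  · ext x
    exact j.injective (RingHom.congr_fun hab x)
  · rw [Embeddings.card, Embeddings.card]

omit [NumberField F] [CharZero Ω] in
theorem exists_sq {t : F} (ht : t ≠ 0) : ∃ w : (F →+* Ω) → Ω, Sq t w := by
  have h : ∀ ι : F →+* Ω, ∃ y : Ω, y ^ 2 * ι t = ι t - 4 := fun ι => by
    obtain ⟨y, hy⟩ := IsAlgClosed.exists_pow_nat_eq ((ι t - 4) / ι t) (n := 2) two_pos
    exact ⟨y, by rw [hy, div_mul_cancel₀ _ ((map_ne_zero ι).2 ht)]⟩
  choose w hw using h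
  exact ⟨w, hw⟩

/-- Every family `w` over `Ω` is the image of a family over `Qb`. -/
theorem Sq.lift (j : Qb →+* Ω) {t : F} (ht : t ≠ 0) {w : (F →+* Ω) → Ω} (hw : Sq t w) :
    ∃ w₀ : (F →+* Qb) → Qb, Sq t w₀ ∧ ∀ s, j (w₀ s) = w (j.comp s) := by
  obtain ⟨w₁, h₁⟩ := exists_sq (Ω := Qb) ht
  have h : ∀ s : F →+* Qb, ∃ y : Qb, y ^ 2 * s t = s t - 4 ∧ j y = w (j.comp s) := fun s => by
    have e1 : j (w₁ s) ^ 2 * j (s t) = j (s t) - 4 := by
      have := congrArg j (h₁ s)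
      rwa [map_mul, map_pow, map_sub, map_ofNat] at this
    have e2 : w (j.comp s) ^ 2 * j (s t) = j (s t) - 4 := hw (j.comp s)
    have e3 : j (s t) ≠ 0 := (map_ne_zero j).2 ((map_ne_zero s).2 ht)
    have e4 : j (w₁ s) ^ 2 = w (j.comp s) ^ 2 := mul_right_cancel₀ e3 (e1.trans e2.symm)
    rcases sq_eq_sq_iff_eq_or_eq_neg.1 e4 with e | e
    · exact ⟨w₁ s, h₁ s, e⟩
    · refine ⟨-w₁ s, ?_, ?_⟩
      · rw [neg_sq]
        exact h₁ s
      · rw [map_neg, e, neg_neg]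
  choose w₀ h₀ using h
  exact ⟨w₀, fun s => (h₀ s).1, fun s => (h₀ s).2⟩

theorem rt_map (j : Qb →+* Ω) (s : ℤ) {w₀ : (F →+* Qb) → Qb} {w : (F →+* Ω) → Ω}
    (h : ∀ ι, j (w₀ ι) = w (j.comp ι)) : j (rt s w₀) = rt s w := by
  unfold rt
  rw [map_mul, map_prod, map_div₀, map_intCast, map_ofNat]
  congr 1
  exact Fintype.prod_bijective _ (comp_bij j) _ _ fun ι => by rw [map_add, map_one, h]

omit [NumberField F] [IsAlgClosed Ω] [CharZero Ω] in
theorem cmtrans_eval (j : Qb →+* Ω) (P : ℤ[X]) (x : Qb) :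
    j ((P.map (Int.castRingHom Qb)).eval x) = (P.map (Int.castRingHom Ω)).eval (j x) := by
  rw [eval_map, eval_map, hom_eval₂, RingHom.ext_int (j.comp _) (Int.castRingHom Ω)]

theorem cmtrans_push (j : Qb →+* Ω) {t : F} {w₀ : (F →+* Qb) → Qb} (hw : Sq t w₀) :
    ∃ w : (F →+* Ω) → Ω, Sq t w ∧ ∀ s, j (w₀ s) = w (j.comp s) := by
  let e : (F →+* Qb) ≃ (F →+* Ω) := Equiv.ofBijective _ (comp_bij j)
  refine ⟨fun ι => j (w₀ (e.symm ι)), fun ι => ?_, fun s => ?_⟩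
  · obtain ⟨s, rfl⟩ := e.surjective ι
    have := congrArg j (hw s)
    rw [map_mul, map_pow, map_sub, map_ofNat] at this
    simp only [Equiv.symm_apply_apply]
    exact this
  · change j (w₀ s) = j (w₀ (e.symm (e s)))
    rw [Equiv.symm_apply_apply]

theorem cub_iff {t : F} (ht : t ≠ 0) (s : ℤ) (P : ℤ[X]) : Cub t s P Ω ↔ Cub t s P Qb := by
  obtain ⟨j, -⟩ := exists_j (Rat.castHom Qb) (Rat.castHom Ω)
  constructor
  · intro h
    refine ⟨fun w₀ hw => ?_, fun w₀ w₀' hw hw' e => ?_⟩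
    · obtain ⟨w, h1, h2⟩ := cmtrans_push j hw
      apply j.injective
      rw [cmtrans_eval, rt_map j s h2, h.root w h1, map_zero]
    · obtain ⟨w, h1, h2⟩ := cmtrans_push j hw
      obtain ⟨w', h1', h2'⟩ := cmtrans_push j hw'
      have e1 : w = w' := h.inj w w' h1 h1' (by rw [← rt_map j s h2, ← rt_map j s h2', e])
      funext a
      apply j.injective
      rw [h2, h2', e1]
  · intro h
    refine ⟨fun w hw => ?_, fun w w' hw hw' e => ?_⟩
    · obtain ⟨w₀, h1, h2⟩ := hw.lift j ht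
      rw [← rt_map j s h2, ← cmtrans_eval, h.root w₀ h1, map_zero]
    · obtain ⟨w₀, h1, h2⟩ := hw.lift j ht
      obtain ⟨w₀', h1', h2'⟩ := hw'.lift j ht
      have e1 : w₀ = w₀' := h.inj w₀ w₀' h1 h1' (j.injective (by
        rw [rt_map j s h2, rt_map j s h2', e]))
      funext a
      obtain ⟨b, rfl⟩ := (comp_bij j).2 a
      exact ((h2 b).symm.trans (by rw [e1])).trans (h2' b)

omit [NumberField F] [IsAlgClosed Ω] [CharZero Ω] in
theorem cmtrans_sg_sq (a : Fin 2) : sg Ω a ^ 2 = 1 := by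
  unfold sg
  split_ifs <;> simp

omit [NumberField F] [IsAlgClosed Ω] in
theorem cmtrans_sg_inj : Function.Injective (sg Ω) := by
  have h : (-1 : Ω) ≠ 1 := by norm_num
  intro a b hab
  fin_cases a <;> fin_cases b <;> simp_all [sg, h.symm]

omit [NumberField F] [IsAlgClosed Ω] [CharZero Ω] in
theorem cmtrans_sq {t : F} (ι : Fin 3 ≃ (F →+* Ω)) {z : (F →+* Ω) → Ω} (hz : Sq t z) (ε : κ) :
    Sq t fun a => sg Ω (ε (ι.symm a)) * z a := fun a => by
  rw [mul_pow, cmtrans_sg_sq, one_mul]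
  exact hz a

theorem cmtrans_rt (s : ℤ) (ι : Fin 3 ≃ (F →+* Ω)) (z : (F →+* Ω) → Ω) (ε : κ) :
    rt s (fun a => sg Ω (ε (ι.symm a)) * z a) =
      (s : Ω) / 8 * ∏ i, (1 + sg Ω (ε i) * z (ι i)) := by
  unfold rt
  congr 1
  exact (Fintype.prod_equiv ι _ _ fun i => by simp only [Equiv.symm_apply_apply]).symm

theorem cmtrans_deg (q : ℚ) : (minpoly ℚ (algebraMap ℚ F q)).natDegree = 1 := by
  rw [minpoly.eq_X_sub_C, natDegree_X_sub_C]

namespace Glob

variable {p : ℕ} {P : ℤ[X]} {t : F} {s : ℤ} (G : Glob p P t s)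

include G

theorem ne_zero : t ≠ 0 := by
  intro h
  have h1 := G.gen
  rw [h, ← map_zero (algebraMap ℚ F), cmtrans_deg] at h1
  omega

theorem ne_four : t ≠ 4 := by
  intro h
  have h1 := G.gen
  rw [h, ← map_ofNat (algebraMap ℚ F) 4, cmtrans_deg] at h1
  omega

/-- `t` generates `F`. -/
theorem inj : Function.Injective fun ι : F →+* Ω => ι t := by
  have h1 := (Field.primitive_element_iff_minpoly_natDegree_eq ℚ t).2 (G.gen.trans G.rank.symm)
  have h2 := (Field.primitive_element_iff_algHom_eq_of_eval' ℚ Ω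
    (fun _ => IsAlgClosed.splits _) t).1 h1
  intro a b hab
  exact (RingHom.equivRatAlgHom F Ω).injective (h2 hab)

theorem sq_ne {w : (F →+* Ω) → Ω} (hw : Sq t w) (ι : F →+* Ω) :
    w ι ≠ 0 ∧ 1 + w ι ≠ 0 ∧ 1 - w ι ≠ 0 := by
  have h := hw ι
  have h4 : (4 : Ω) ≠ 0 := by norm_num
  refine ⟨fun e => G.ne_four (ι.injective ?_), fun e => h4 ?_, fun e => h4 ?_⟩
  · rw [map_ofNat]
    rw [e] at h
    linear_combination -h
  · linear_combination h + (1 - w ι) * ι t * e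
  · linear_combination h + (1 + w ι) * ι t * e

/-- `(1 + w) (1 - w) t = 4`. -/
theorem rt_mul {w : (F →+* Ω) → Ω} (hw : Sq t w) : rt s w * rt s (-w) = p := by
  have hc : Fintype.card (F →+* Ω) = 3 := (Embeddings.card F Ω).trans G.rank
  have h0 : ∏ ι : F →+* Ω, ι t ≠ 0 :=
    Finset.prod_ne_zero_iff.2 fun ι _ => (map_ne_zero ι).2 G.ne_zero
  have h1 : (∏ ι, (1 + w ι)) * (∏ ι, (1 + (-w) ι)) * ∏ ι : F →+* Ω, ι t = 64 := by
    rw [← Finset.prod_mul_distrib, ← Finset.prod_mul_distrib,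
      Finset.prod_congr rfl (g := fun _ => (4 : Ω)) fun ι _ => by
        rw [Pi.neg_apply]
        linear_combination -hw ι,
      Finset.prod_const, Finset.card_univ, hc]
    norm_num
  have h2 : (p : Ω) * ∏ ι : F →+* Ω, ι t = (s : Ω) ^ 2 := by
    rw [prod_emb]
    exact_mod_cast G.nrm
  apply mul_right_cancel₀ h0
  unfold rt
  linear_combination (s : Ω) ^ 2 / 64 * h1 - h2

/-- Eight distinct roots of a monic polynomial of degree eight. -/
theorem prod (ι : Fin 3 ≃ (F →+* Ω)) {z : (F →+* Ω) → Ω} (hz : Sq t z) :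
    P.map (Int.castRingHom Ω) =
      ∏ ε : κ, (X - C ((s : Ω) / 8 * ∏ i, (1 + sg Ω (ε i) * z (ι i)))) := by
  have hC : Cub t s P Ω := (cub_iff G.ne_zero s P).2 G.cub
  have hi : Function.Injective fun ε : κ => (s : Ω) / 8 * ∏ i, (1 + sg Ω (ε i) * z (ι i)) := by
    intro ε ε' e
    have e1 := hC.inj _ _ (cmtrans_sq ι hz ε) (cmtrans_sq ι hz ε') (by
      rw [cmtrans_rt, cmtrans_rt]
      exact e)
    funext i
    have e2 := congrFun e1 (ι i)
    simp only [Equiv.symm_apply_apply] at e2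
    exact cmtrans_sg_inj (mul_right_cancel₀ (G.sq_ne hz (ι i)).1 e2)
  refine eq_of_monic_of_dvd_of_natDegree_le (monic_prod_of_monic _ _ fun ε _ => monic_X_sub_C _)
    (G.monic.map _) (Fintype.prod_dvd_of_coprime (pairwise_coprime_X_sub_C hi) fun ε => ?_) ?_
  · rw [dvd_iff_isRoot, ← cmtrans_rt]
    exact hC.root _ (cmtrans_sq ι hz ε)
  · rw [G.monic.natDegree_map, G.deg, natDegree_finsetProd_X_sub_C_eq_card]
    simp

theorem root_eq {x : Ω} (h : (P.map (Int.castRingHom Ω)).eval x = 0) :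
    ∃ w : (F →+* Ω) → Ω, Sq t w ∧ x = rt s w := by
  obtain ⟨ι, -⟩ := exists_equiv (Ω := Ω) G.rank (Classical.arbitrary _)
  obtain ⟨z, hz⟩ := exists_sq (Ω := Ω) G.ne_zero
  rw [G.prod ι hz, eval_prod, Finset.prod_eq_zero_iff] at h
  obtain ⟨ε, -, hε⟩ := h
  rw [eval_sub, eval_X, eval_C, sub_eq_zero] at hε
  exact ⟨_, cmtrans_sq ι hz ε, by rw [cmtrans_rt]; exact hε⟩

end Glob

end M4.CM
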