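import Pool.Agent.Lib.MP_33b3f9_ag.M4.KzX

/-!
Block B1b: the coordinates of torsion points are bounded by the theta constants, at every place.
-/

set_option autoImplicit false

namespace M4.Kz

open Complex Matrix

variable {ι : Type} [Fintype ι] {τ : Matrix ι ι ℂ}

section gen
variable {Γ : Type*} [LinearOrderedCommGroupWithZero Γ] (w : ℂ →*₀ Γ)

theorem w_root {z : ℂ} {n : ℕ} (hn : n ≠ 0) (h : z ^ n = 1) : w z = 1 := by
  have : w z ^ n = 1 := by rw [← map_pow, h, map_one]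
  exact (pow_eq_one_iff_of_nonneg zero_le hn).1 this

theorem w_chi (n : ι ⊕ ι → ℤ) : w (chi n) = 1 := w_root w two_ne_zero (chi_sq n)

theorem w_I (n : ℤ) : w (I ^ n) = 1 := by
  rw [map_zpow₀, w_root w four_ne_zero I_pow_four, _root_.one_zpow]

theorem w_ee (n : ℤ) {M : ℕ} (hM : M ≠ 0) : w (ee (n / M)) = 1 := by
  refine w_root w hM ?_
  have : (M : ℂ) ≠ 0 := by exact_mod_cast hM
  rw [ee_pow, mul_div_cancel₀ _ this, ee_int]

theorem Ef_rz_rq (M : ℕ) (n a : ι ⊕ ι → ℤ) :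
    ((Ef (rz n) (rq M a) : ℝ) : ℂ) = (Ef n a : ℤ) / M := by
  rw [rq, Ef_smul_right, Ef_rz]; push_cast; ring

theorem w_XX_shift (hτ : InH τ) {M : ℕ} (hM : M ≠ 0) (k a n n' : ι ⊕ ι → ℤ) :
    w (XX τ (k + (2 : ℤ) • n) (rq M (a + (M : ℤ) • n'))) = w (XX τ k (rq M a)) := by
  rw [XX_add_two hτ, rq_add, rq_smul hM, XX_shift hτ, map_mul, map_mul, map_mul, w_chi, w_I,
    Ef_rz_rq, show -2 * (((Ef n' a : ℤ) : ℂ) / M) = ((-2 * Ef n' a : ℤ) : ℂ) / M by
      push_cast; ring, w_ee w _ hM]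
  simp

/-- BOUND. -/
theorem bound [DecidableEq ι] (C : Γ) (hC : ∀ (f : (ι ⊕ ι → Fin 2) → ℂ) (b : Γ),
    (∀ e, w (f e) ≤ b) → w (∑ e, f e) ≤ C * b) (hτ : InH τ) {N₀ : Γ}
    (h0 : ∀ k, w (XX τ k 0) ≤ N₀) {M : ℕ} (hM : M ≠ 0) (k a : ι ⊕ ι → ℤ) :
    w 2 ^ Fintype.card ι * w (XX τ k (rq M a)) ^ 3 ≤ C * N₀ ^ 3 := by
  have : NeZero M := ⟨hM⟩
  obtain ⟨⟨e, b⟩, hb⟩ := Finite.exists_max fun p : (ι ⊕ ι → Fin 2) × (ι ⊕ ι → ZMod M) =>
    w (XX τ (bz p.1) (rq M (lift p.2)))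
  obtain ⟨m, hm⟩ : ∃ m, m = w (XX τ (bz e) (rq M (lift b))) := ⟨_, rfl⟩
  have hle : ∀ k a, w (XX τ k (rq M a)) ≤ m := fun k a => by
    obtain ⟨e', n, rfl⟩ := exists_bits k
    obtain ⟨n', hn'⟩ := (vZ_eq_iff M a (lift (vZ M a))).1 (vZ_lift _).symm
    rw [hn', w_XX_shift w hτ hM, hm]
    exact hb (e', vZ M a)
  have h := congrArg w (riemXX hτ (bz e) (bz e) (rq M (lift b)) (rq M (lift b)))
  rw [map_mul, map_pow, map_mul, map_pow, ← hm, ← rq_add, sub_self (rq M _)] at h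
  have h2 : w 2 ^ Fintype.card ι * (m ^ 2 * m ^ 2) ≤ C * (m * N₀ * N₀ ^ 2) := by
    rw [h]
    refine hC _ _ fun κ => ?_
    rw [map_mul, map_mul, map_mul, map_mul, map_pow, w_chi, w_I, one_mul, one_mul]
    exact mul_le_mul' (mul_le_mul' (hle _ _) (h0 _)) (pow_le_pow_left' (h0 _) _)
  refine le_trans (mul_le_mul' le_rfl (pow_le_pow_left' (hle k a) 3)) ?_
  rcases eq_or_ne m 0 with h0 | h0
  · simp [h0]
  · refine le_of_mul_le_mul_right ?_ (zero_lt_iff.2 h0)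
    calc _ = w 2 ^ Fintype.card ι * (m ^ 2 * m ^ 2) := by rw [mul_assoc, ← pow_succ, ← pow_add]
      _ ≤ _ := h2
      _ = _ := by rw [mul_assoc C, mul_assoc m, ← pow_succ', mul_comm m]

end gen

/-- BOUND for valuations. -/
theorem bound_val [DecidableEq ι] {Γ : Type*} [LinearOrderedCommGroupWithZero Γ]
    (v : Valuation ℂ Γ) (hτ : InH τ) {N₀ : Γ} (h0 : ∀ k, v (XX τ k 0) ≤ N₀) {M : ℕ} (hM : M ≠ 0)
    (k a : ι ⊕ ι → ℤ) : v (2 ^ Fintype.card ι * XX τ k (rq M a)) ≤ N₀ := by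
  have h := bound v.toMonoidWithZeroHom 1 (fun f b hb => by
    rw [one_mul]; exact v.map_sum_le fun e _ => hb e) hτ h0 hM k a
  change v 2 ^ _ * v _ ^ 3 ≤ _ at h
  have h2 : v 2 ^ Fintype.card ι ≤ 1 := pow_le_one' (by
    rw [← one_add_one_eq_two]; exact v.map_add_le v.map_one.le v.map_one.le) _
  refine le_of_pow_le_pow_left₀ three_ne_zero zero_le ?_
  rw [map_mul, map_pow, mul_pow]
  refine le_trans ?_ (h.trans_eq (one_mul _))
  exact mul_le_mul' (pow_le_of_le_one zero_le h2 three_ne_zero) le_rfl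

/-- The normalised coordinates of torsion points are algebraic integers. -/
theorem XX_int [DecidableEq ι] (hτ : InH τ) {c : ℂ} (h0 : ∀ k, IsIntegral ℤ (c * XX τ k 0))
    {M : ℕ} (hM : M ≠ 0) (k a : ι ⊕ ι → ℤ) :
    IsIntegral ℤ (2 ^ Fintype.card ι * c * XX τ k (rq M a)) := by
  rcases eq_or_ne c 0 with rfl | hc
  · simpa using isIntegral_zero
  have key : 2 ^ Fintype.card ι * c * XX τ k (rq M a) ∈
      (integralClosure (Subring.closure (∅ : Set ℂ)) ℂ).toSubring := by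
    rw [← iInf_valuationSubring_superset, Subring.mem_iInf]
    rintro ⟨V, -⟩
    change _ ∈ V
    rw [← V.valuation_le_one_iff, mul_right_comm, map_mul]
    have hv : V.valuation c ≠ 0 := by simpa using hc
    have := bound_val V.valuation hτ (N₀ := (V.valuation c)⁻¹) (fun k => by
      rw [← one_mul (V.valuation c)⁻¹, le_mul_inv_iff₀ (zero_lt_iff.2 hv), mul_comm, ← map_mul,
        V.valuation_le_one_iff]
      have : IsIntegral V (c * XX τ k 0) := (h0 k).tower_top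
      obtain ⟨y, hy⟩ := IsIntegrallyClosed.isIntegral_iff.1 this
      exact hy ▸ y.2) hM k a
    rwa [← one_mul (V.valuation c)⁻¹, le_mul_inv_iff₀ (zero_lt_iff.2 hv)] at this
  rw [Subring.closure_empty] at key
  have : Algebra.IsIntegral ℤ (⊥ : Subring ℂ) := ⟨fun x => by
    obtain ⟨n, hn⟩ := Subring.mem_bot.1 x.2
    rw [show x = algebraMap ℤ _ n from Subtype.ext hn.symm]
    exact isIntegral_algebraMap⟩
  exact isIntegral_trans (A := (⊥ : Subring ℂ)) _ key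

/-- BOUND for complex embeddings. -/
theorem bound_emb [DecidableEq ι] (φ : ℂ →+* ℂ) (hτ : InH τ) {N₀ : ℝ}
    (h0 : ∀ k, ‖φ (XX τ k 0)‖ ≤ N₀) {M : ℕ} (hM : M ≠ 0) (k a : ι ⊕ ι → ℤ) :
    ‖φ (XX τ k (rq M a))‖ ≤ 2 ^ Fintype.card ι * N₀ := by
  have hN : 0 ≤ N₀ := (norm_nonneg _).trans (h0 0)
  lift N₀ to NNReal using hN
  have h := bound (nnnormHom.comp φ.toMonoidWithZeroHom) (4 ^ Fintype.card ι) (fun f b hb => by
    change ‖φ (∑ e, f e)‖₊ ≤ _
    rw [map_sum]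
    refine (nnnorm_sum_le _ _).trans ((Finset.sum_le_card_nsmul _ _ b fun e _ => hb e).trans_eq ?_)
    rw [show (4 : NNReal) = 2 * 2 by norm_num, mul_pow, ← pow_add]
    simp) hτ (N₀ := N₀) h0 hM k a
  change ‖φ 2‖₊ ^ _ * ‖φ _‖₊ ^ 3 ≤ _ at h
  rw [map_ofNat, nnnorm_ofNat, show (4 : NNReal) = 2 * 2 by norm_num, mul_pow, mul_assoc] at h
  have h2 := le_of_mul_le_mul_left h (by positivity)
  have h3 : ‖φ (XX τ k (rq M a))‖₊ ≤ 2 ^ Fintype.card ι * N₀ := by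
    refine le_of_pow_le_pow_left₀ three_ne_zero zero_le (h2.trans ?_)
    rw [mul_pow]
    exact mul_le_mul' (le_self_pow₀ (one_le_pow₀ one_le_two) three_ne_zero) le_rfl
  exact_mod_cast h3

/-- BOUND for non archimedean absolute values of odd residue characteristic. -/
theorem bound_abv [DecidableEq ι] (w : AbsoluteValue ℂ ℝ) (hw : IsNonarchimedean w) (h2 : w 2 = 1)
    (hτ : InH τ) {N₀ : ℝ} (h0 : ∀ k, w (XX τ k 0) ≤ N₀) {M : ℕ} (hM : M ≠ 0)
    (k a : ι ⊕ ι → ℤ) : w (XX τ k (rq M a)) ≤ N₀ := by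
  have hN : 0 ≤ N₀ := (w.nonneg _).trans (h0 0)
  lift N₀ to NNReal using hN
  let v : Valuation ℂ NNReal :=
    { toFun := fun z => ⟨w z, w.nonneg z⟩
      map_zero' := Subtype.ext w.map_zero
      map_one' := Subtype.ext w.map_one
      map_mul' := fun x y => Subtype.ext (w.map_mul x y)
      map_add_le_max' := fun x y => by
        rw [← NNReal.coe_le_coe, NNReal.coe_max]; exact hw x y }
  have h : w _ ≤ N₀ := bound_val v hτ (N₀ := N₀) h0 hM k a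
  rwa [map_mul, map_pow, h2, one_pow, one_mul] at h

end M4.Kz
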