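import Mathlib
import Pool.Agent.Lib.MP_33b3f9_ag.M4.ThId

/-!
The action of symplectic similitudes on the Siegel space.
-/

set_option autoImplicit false

namespace M4

open Complex Matrix

variable {ι : Type} [Fintype ι] [DecidableEq ι] {τ τ' : Matrix ι ι ℂ}
  {g h : Matrix (ι ⊕ ι) (ι ⊕ ι) ℝ} {m : ℝ}

/-- The denominator `A - B τ`. -/
noncomputable def den (g : Matrix (ι ⊕ ι) (ι ⊕ ι) ℝ) (τ : Matrix ι ι ℂ) : Matrix ι ι ℂ :=
  g.toBlocks₁₁.map ofReal - g.toBlocks₁₂.map ofReal * τ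

/-- The numerator `D τ - C`. -/
noncomputable def actNum (g : Matrix (ι ⊕ ι) (ι ⊕ ι) ℝ) (τ : Matrix ι ι ℂ) : Matrix ι ι ℂ :=
  g.toBlocks₂₂.map ofReal * τ - g.toBlocks₂₁.map ofReal

theorem act_eq_num (g : Matrix (ι ⊕ ι) (ι ⊕ ι) ℝ) (τ : Matrix ι ι ℂ) :
    act g τ = actNum g τ * (den g τ)⁻¹ := rfl

theorem act_mul_den (hd : (den g τ).det ≠ 0) : act g τ * den g τ = actNum g τ := by
  rw [act_eq_num, Matrix.mul_assoc, nonsing_inv_mul _ hd.isUnit, Matrix.mul_one]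

theorem act_E_J (x y : ι ⊕ ι → ℝ) : E x y = -(x ⬝ᵥ J ι ℝ *ᵥ y) := by
  simp [E, J, dotProduct, Fintype.sum_sum_type, fromBlocks_mulVec, neg_mulVec, neg_add_eq_sub]

theorem sim_iff : Sim g m ↔ gᵀ * J ι ℝ * g = m • J ι ℝ := by
  have key : ∀ x y : ι ⊕ ι → ℝ,
      (g *ᵥ x) ⬝ᵥ J ι ℝ *ᵥ (g *ᵥ y) = x ⬝ᵥ (gᵀ * J ι ℝ * g) *ᵥ y := fun x y => by
    rw [← mulVec_mulVec, ← mulVec_mulVec, dotProduct_mulVec x, vecMul_transpose]
  constructor
  · intro hg
    ext i j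
    have := hg (Pi.single i 1) (Pi.single j 1)
    rw [act_E_J, act_E_J, key] at this
    simpa using this
  · intro hg x y
    rw [act_E_J, act_E_J, key, hg, smul_mulVec, dotProduct_smul, smul_eq_mul, mul_neg]

omit [DecidableEq ι] in
theorem Sim.mul {n : ℝ} (hg : Sim g m) (hh : Sim h n) : Sim (g * h) (m * n) := by
  intro x y
  rw [← mulVec_mulVec, ← mulVec_mulVec, hg, hh, mul_assoc]

theorem Sim.one : Sim (1 : Matrix (ι ⊕ ι) (ι ⊕ ι) ℝ) 1 := by
  intro x y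
  simp

theorem Sim.act_linv (hg : Sim g m) (hm : m ≠ 0) :
    (-m⁻¹) • (J ι ℝ * gᵀ * J ι ℝ) * g = 1 := by
  rw [smul_mul_assoc, Matrix.mul_assoc (J ι ℝ), Matrix.mul_assoc (J ι ℝ), sim_iff.1 hg,
    Matrix.mul_smul, J_squared, smul_smul]
  simp [hm]

theorem Sim.transpose (hg : Sim g m) (hm : m ≠ 0) : Sim gᵀ m := by
  have h1 := mul_eq_one_comm.1 (hg.act_linv hm)
  have h2 := congrArg (fun M => m • (M * J ι ℝ)) h1
  simp only [Matrix.mul_smul, smul_mul_assoc, Matrix.mul_assoc, J_squared, smul_smul] at h2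
  rw [sim_iff, transpose_transpose, Matrix.mul_assoc]
  simpa [hm] using h2

theorem Sim.det_ne_zero (hg : Sim g m) (hm : m ≠ 0) : g.det ≠ 0 :=
  det_ne_zero_of_left_inverse (hg.act_linv hm)

theorem Sim.inv (hg : Sim g m) (hm : m ≠ 0) : Sim g⁻¹ m⁻¹ := by
  intro x y
  have := hg (g⁻¹ *ᵥ x) (g⁻¹ *ᵥ y)
  rw [mulVec_mulVec, mulVec_mulVec, mul_nonsing_inv _ (hg.det_ne_zero hm).isUnit, one_mulVec,
    one_mulVec] at this
  rw [this, inv_mul_cancel_left₀ hm]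

omit [DecidableEq ι] in
theorem act_fa_mulVec (g : Matrix (ι ⊕ ι) (ι ⊕ ι) ℝ) (x : ι ⊕ ι → ℝ) : fa (g *ᵥ x) =
    g.toBlocks₁₁.map ofReal *ᵥ fa x + g.toBlocks₁₂.map ofReal *ᵥ fb x := by
  funext i
  simp [fa, fb, mulVec, dotProduct, toBlocks₁₁, toBlocks₁₂]

omit [DecidableEq ι] in
theorem act_fb_mulVec (g : Matrix (ι ⊕ ι) (ι ⊕ ι) ℝ) (x : ι ⊕ ι → ℝ) : fb (g *ᵥ x) =
    g.toBlocks₂₁.map ofReal *ᵥ fa x + g.toBlocks₂₂.map ofReal *ᵥ fb x := by
  funext i
  simp [fa, fb, mulVec, dotProduct, toBlocks₂₁, toBlocks₂₂]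

omit [DecidableEq ι] in
theorem rel_iff : Rel g τ τ' ↔ ∀ x, per τ' (g *ᵥ x) = jf g τ' *ᵥ per τ x := by
  classical
  have key : ∀ x, per τ' (g *ᵥ x) =
      (τ' * g.toBlocks₁₁.map ofReal + g.toBlocks₂₁.map ofReal) *ᵥ fa x + jf g τ' *ᵥ fb x := by
    intro x
    simp only [per, jf, act_fa_mulVec, act_fb_mulVec, mulVec_add, add_mulVec, mulVec_mulVec]
    abel
  constructor
  · intro hr x
    rw [key, hr, per, mulVec_add, mulVec_mulVec]
  · intro hr
    ext i j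
    have h1 := hr (Pi.single (Sum.inl j) 1)
    rw [key, per, mulVec_add, mulVec_mulVec, add_left_inj] at h1
    have h2 : fa (Pi.single (Sum.inl j) 1 : ι ⊕ ι → ℝ) = Pi.single j 1 := by
      funext k
      by_cases hk : k = j <;> simp [fa, hk]
    rw [h2] at h1
    simpa using congrFun h1 i

/-- The basic identity behind the action. -/
theorem Sim.act_key (hg : Sim g m) (σ τ : Matrix ι ι ℂ) :
    (den g σ)ᵀ * actNum g τ - (actNum g σ)ᵀ * den g τ = (m : ℂ) • (τ - σᵀ) := by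
  have h0 := congrArg (fun M : Matrix (ι ⊕ ι) (ι ⊕ ι) ℝ => M.map ofRealHom) (sim_iff.1 hg)
  have h1 : (m • J ι ℝ).map ofRealHom = (m : ℂ) • J ι ℂ := by
    rw [← map_J ι ofRealHom]
    ext i j
    exact ofReal_mul _ _
  simp only [Matrix.map_mul, map_J, transpose_map] at h0
  rw [h1] at h0
  have h2 : g.map ofRealHom = fromBlocks (g.toBlocks₁₁.map ofReal) (g.toBlocks₁₂.map ofReal)
      (g.toBlocks₂₁.map ofReal) (g.toBlocks₂₂.map ofReal) := (fromBlocks_toBlocks _).symm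
  rw [h2] at h0
  unfold den actNum
  generalize g.toBlocks₁₁.map ofReal = A at h0 ⊢
  generalize g.toBlocks₁₂.map ofReal = B at h0 ⊢
  generalize g.toBlocks₂₁.map ofReal = C at h0 ⊢
  generalize g.toBlocks₂₂.map ofReal = D at h0 ⊢
  simp only [J, fromBlocks_transpose, fromBlocks_multiply, fromBlocks_smul, fromBlocks_inj,
    Matrix.mul_zero, Matrix.mul_one, Matrix.mul_neg, zero_add, add_zero, smul_zero,
    Matrix.neg_mul] at h0
  obtain ⟨a1, a2, a3, a4⟩ := h0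
  have : (A - B * σ)ᵀ * (D * τ - C) - (D * σ - C)ᵀ * (A - B * τ) =
      (Cᵀ * A + -(Aᵀ * C)) - (Cᵀ * B + -(Aᵀ * D)) * τ - σᵀ * (Dᵀ * A + -(Bᵀ * C)) +
        σᵀ * (Dᵀ * B + -(Bᵀ * D)) * τ := by
    simp only [transpose_sub, transpose_mul]
    noncomm_ring
  rw [this, a1, a2, a3, a4]
  simp [smul_sub]

omit [DecidableEq ι] in
theorem act_im_dot (hτ : τ.IsSymm) (v : ι → ℂ) : (star v ⬝ᵥ τ *ᵥ v).im =
    (fun i => (v i).re) ⬝ᵥ τ.map im *ᵥ (fun i => (v i).re) +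
      (fun i => (v i).im) ⬝ᵥ τ.map im *ᵥ (fun i => (v i).im) := by
  have h0 : ∑ i, ∑ j, (v i).re * ((τ i j).re * (v j).im) =
      ∑ i, ∑ j, (v i).im * ((τ i j).re * (v j).re) := by
    rw [Finset.sum_comm]
    refine Finset.sum_congr rfl fun i _ => Finset.sum_congr rfl fun j _ => ?_
    rw [hτ.apply i j]
    ring
  simp only [dotProduct, mulVec, Finset.mul_sum, im_sum, Pi.star_apply, map_apply, mul_im, mul_re,
    star_def, conj_re, conj_im, mul_add, mul_sub, neg_mul, Finset.sum_add_distrib,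
    Finset.sum_sub_distrib, Finset.sum_neg_distrib, h0]
  ring

omit [DecidableEq ι] in
theorem act_inH_iff : InH τ ↔ τ.IsSymm ∧ ∀ v : ι → ℂ, v ≠ 0 → 0 < (star v ⬝ᵥ τ *ᵥ v).im := by
  refine and_congr_right fun hτ => ⟨fun hp v hv => ?_, fun hp => ?_⟩
  · rw [act_im_dot hτ]
    have h1 := fun u : ι → ℝ => hp.posSemidef.dotProduct_mulVec_nonneg u
    have h2 := fun (u : ι → ℝ) (hu : u ≠ 0) => hp.dotProduct_mulVec_pos hu
    simp only [star_trivial] at h1 h2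
    by_cases hr : (fun i => (v i).re) = 0
    · refine add_pos_of_nonneg_of_pos (h1 _) (h2 _ fun hi => hv ?_)
      funext i
      exact Complex.ext (congrFun hr i) (congrFun hi i)
    · exact add_pos_of_pos_of_nonneg (h2 _ hr) (h1 _)
  · refine PosDef.of_dotProduct_mulVec_pos ?_ fun u hu => ?_
    · ext i j
      simp [hτ.apply i j]
    · have := hp (fun i => (u i : ℂ)) fun h0 => hu (funext fun i => by simpa using congrFun h0 i)
      rw [act_im_dot hτ] at this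
      simpa [dotProduct] using this

theorem Sim.act_im_eq (hg : Sim g m) (τ : Matrix ι ι ℂ) (v : ι → ℂ) :
    (star (den g τ *ᵥ v) ⬝ᵥ actNum g τ *ᵥ v).im = m * (star v ⬝ᵥ τ *ᵥ v).im := by
  have h0 := hg.act_key (τ.map star) τ
  have h1 : (den g (τ.map star))ᵀ = (den g τ)ᴴ := by
    ext i j
    simp [den, mul_apply]
  have h2 : (actNum g (τ.map star))ᵀ = (actNum g τ)ᴴ := by
    ext i j
    simp [actNum, mul_apply]
  have h3 : (τ.map star)ᵀ = τᴴ := rfl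
  rw [h1, h2, h3] at h0
  have h4 := congrArg (fun M => star v ⬝ᵥ M *ᵥ v) h0
  have h5 : ∀ P Q : Matrix ι ι ℂ, star v ⬝ᵥ (Pᴴ * Q) *ᵥ v = star (P *ᵥ v) ⬝ᵥ Q *ᵥ v := by
    intro P Q
    rw [← mulVec_mulVec, dotProduct_mulVec, star_mulVec]
  have h6 : star v ⬝ᵥ τᴴ *ᵥ v = star (star v ⬝ᵥ τ *ᵥ v) := by
    rw [← Matrix.mul_one τᴴ, h5, one_mulVec, star_dotProduct]
  simp only [sub_mulVec, dotProduct_sub, smul_mulVec, dotProduct_smul, h5, h6] at h4
  rw [star_dotProduct (actNum g τ *ᵥ v)] at h4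
  have h7 := congrArg im h4
  simp only [sub_im, star_def, conj_im, smul_eq_mul, mul_im, ofReal_re, ofReal_im, zero_mul,
    add_zero] at h7
  linarith

/-- On `v = (a, -τ a)` the complexified form has `E(v, conj v) = 2 i a Y conj a`; `g` maps `v` to
`(den a, (C - D τ) a)`; if `den a = 0` the form vanishes. -/
theorem den_det_ne_zero (hg : Sim g m) (hm : 0 < m) (hτ : InH τ) : (den g τ).det ≠ 0 := by
  intro h0
  obtain ⟨v, hv, h1⟩ := exists_mulVec_eq_zero_iff.2 h0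
  have h2 := hg.act_im_eq τ v
  rw [h1] at h2
  have h3 := mul_pos hm ((act_inH_iff.1 hτ).2 v hv)
  rw [← h2] at h3
  simp at h3

theorem inH_act (hg : Sim g m) (hm : 0 < m) (hτ : InH τ) : InH (act g τ) := by
  have hd := den_det_ne_zero hg hm hτ
  refine act_inH_iff.2 ⟨?_, fun w hw => ?_⟩
  · have h0 := hg.act_key τ τ
    rw [hτ.1.eq, sub_self, smul_zero, sub_eq_zero, ← act_mul_den hd, transpose_mul,
      Matrix.mul_assoc] at h0
    have hu : IsUnit (den g τ) := (isUnit_iff_isUnit_det _).2 hd.isUnit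
    have hu' : IsUnit (den g τ)ᵀ := (isUnit_transpose _).2 hu
    exact (hu.mul_right_cancel (hu'.mul_left_cancel h0)).symm
  · have h1 : den g τ *ᵥ ((den g τ)⁻¹ *ᵥ w) = w := by
      rw [mulVec_mulVec, mul_nonsing_inv _ hd.isUnit, one_mulVec]
    have h2 := hg.act_im_eq τ ((den g τ)⁻¹ *ᵥ w)
    rw [h1, mulVec_mulVec, ← act_eq_num] at h2
    rw [h2]
    refine mul_pos hm ((act_inH_iff.1 hτ).2 _ fun h0 => hw ?_)
    rw [← h1, h0, mulVec_zero]

theorem rel_iff_eq_act (hd : (den g τ).det ≠ 0) : Rel g τ τ' ↔ τ' = act g τ := by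
  have hu : IsUnit (den g τ) := (isUnit_iff_isUnit_det _).2 hd.isUnit
  rw [← hu.mul_left_inj, act_mul_den hd, Rel, jf, den, actNum, Matrix.mul_sub, Matrix.add_mul,
    ← Matrix.mul_assoc, sub_eq_sub_iff_add_eq_add, add_comm (_ * τ)]

theorem rel_act (hg : Sim g m) (hm : 0 < m) (hτ : InH τ) : Rel g τ (act g τ) :=
  (rel_iff_eq_act (den_det_ne_zero hg hm hτ)).2 rfl

omit [DecidableEq ι] in
theorem act_den_mul (g h : Matrix (ι ⊕ ι) (ι ⊕ ι) ℝ) (τ : Matrix ι ι ℂ) : den (g * h) τ =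
    g.toBlocks₁₁.map ofReal * den h τ - g.toBlocks₁₂.map ofReal * actNum h τ := by
  have h1 : (g * h).toBlocks₁₁.map ofReal = g.toBlocks₁₁.map ofReal * h.toBlocks₁₁.map ofReal +
      g.toBlocks₁₂.map ofReal * h.toBlocks₂₁.map ofReal := by
    ext i j
    simp [mul_apply, toBlocks₁₁, toBlocks₁₂, toBlocks₂₁]
  have h2 : (g * h).toBlocks₁₂.map ofReal = g.toBlocks₁₁.map ofReal * h.toBlocks₁₂.map ofReal +
      g.toBlocks₁₂.map ofReal * h.toBlocks₂₂.map ofReal := by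
    ext i j
    simp [mul_apply, toBlocks₁₁, toBlocks₁₂, toBlocks₂₂]
  simp only [den, actNum, h1, h2]
  noncomm_ring

omit [DecidableEq ι] in
theorem actNum_mul (g h : Matrix (ι ⊕ ι) (ι ⊕ ι) ℝ) (τ : Matrix ι ι ℂ) : actNum (g * h) τ =
    g.toBlocks₂₂.map ofReal * actNum h τ - g.toBlocks₂₁.map ofReal * den h τ := by
  have h1 : (g * h).toBlocks₂₁.map ofReal = g.toBlocks₂₁.map ofReal * h.toBlocks₁₁.map ofReal +
      g.toBlocks₂₂.map ofReal * h.toBlocks₂₁.map ofReal := by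
    ext i j
    simp [mul_apply, toBlocks₁₁, toBlocks₂₂, toBlocks₂₁]
  have h2 : (g * h).toBlocks₂₂.map ofReal = g.toBlocks₂₁.map ofReal * h.toBlocks₁₂.map ofReal +
      g.toBlocks₂₂.map ofReal * h.toBlocks₂₂.map ofReal := by
    ext i j
    simp [mul_apply, toBlocks₂₁, toBlocks₁₂, toBlocks₂₂]
  simp only [den, actNum, h1, h2]
  noncomm_ring

theorem den_mul (hd : (den h τ).det ≠ 0) : den (g * h) τ = den g (act h τ) * den h τ := by
  rw [act_den_mul, ← act_mul_den hd, den.eq_1 g, Matrix.sub_mul, Matrix.mul_assoc]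

theorem act_mul (hd : (den h τ).det ≠ 0) (hd' : (den g (act h τ)).det ≠ 0) :
    act (g * h) τ = act g (act h τ) := by
  have h1 : actNum (g * h) τ = act g (act h τ) * (den g (act h τ) * den h τ) := by
    rw [← Matrix.mul_assoc, act_mul_den hd', actNum_mul, ← act_mul_den hd, actNum, Matrix.sub_mul,
      Matrix.mul_assoc]
  rw [act_eq_num, h1, den_mul hd, Matrix.mul_assoc, mul_nonsing_inv, Matrix.mul_one]
  rw [det_mul]
  exact (mul_ne_zero hd' hd).isUnit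

theorem act_one (τ : Matrix ι ι ℂ) : act 1 τ = τ := by
  rw [act, ← fromBlocks_one, toBlocks_fromBlocks₁₁, toBlocks_fromBlocks₁₂, toBlocks_fromBlocks₂₁,
    toBlocks_fromBlocks₂₂]
  simp

theorem act_smul {c : ℝ} (hc : c ≠ 0) (g : Matrix (ι ⊕ ι) (ι ⊕ ι) ℝ) (τ : Matrix ι ι ℂ) :
    act (c • g) τ = act g τ := by
  have hc' : (c : ℂ) ≠ 0 := ofReal_ne_zero.2 hc
  have h1 : den (c • g) τ = den g τ * ((c : ℂ) • 1) := by
    rw [Matrix.mul_smul, Matrix.mul_one]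
    ext i j
    simp [den, mul_apply, toBlocks₁₁, toBlocks₁₂, Finset.mul_sum, mul_sub, mul_assoc]
  have h2 : actNum (c • g) τ = actNum g τ * ((c : ℂ) • 1) := by
    rw [Matrix.mul_smul, Matrix.mul_one]
    ext i j
    simp [actNum, mul_apply, toBlocks₂₁, toBlocks₂₂, Finset.mul_sum, mul_sub, mul_assoc]
  rw [act_eq_num, act_eq_num, h1, h2, Matrix.mul_inv_rev, Matrix.mul_assoc, ← Matrix.mul_assoc (_ • _),
    mul_nonsing_inv, Matrix.one_mul]
  simp [hc']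

end M4
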