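import Mathlib
import Pool.Agent.Lib.MP_33b3f9_ag.M4.ThAct

/-!
The action of symplectic similitudes, further properties.
-/

set_option autoImplicit false

namespace M4

open Complex Matrix

variable {ι : Type} [Fintype ι] [DecidableEq ι] {τ τ' : Matrix ι ι ℂ}
  {g h : Matrix (ι ⊕ ι) (ι ⊕ ι) ℝ} {m : ℝ}

private theorem act2_real (hg : Sim g m) :
    g.toBlocks₁₁ᵀ * g.toBlocks₂₁ = g.toBlocks₂₁ᵀ * g.toBlocks₁₁ ∧
    g.toBlocks₁₂ᵀ * g.toBlocks₂₂ = g.toBlocks₂₂ᵀ * g.toBlocks₁₂ ∧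
    g.toBlocks₁₁ᵀ * g.toBlocks₂₂ = g.toBlocks₂₁ᵀ * g.toBlocks₁₂ + m • 1 ∧
    g.toBlocks₂₂ᵀ * g.toBlocks₁₁ = g.toBlocks₁₂ᵀ * g.toBlocks₂₁ + m • 1 := by
  have h := sim_iff.1 hg
  rw [← fromBlocks_toBlocks g] at h
  simp only [J, fromBlocks_transpose, fromBlocks_multiply, fromBlocks_smul, fromBlocks_inj,
    Matrix.mul_zero, Matrix.mul_one, Matrix.mul_neg, Matrix.neg_mul, zero_add, add_zero,
    smul_zero, smul_neg] at h
  obtain ⟨h1, h2, h3, h4⟩ := h
  refine ⟨?_, ?_, ?_, ?_⟩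
  · linear_combination (norm := module) -h1
  · linear_combination (norm := module) -h4
  · linear_combination (norm := module) -h2
  · linear_combination (norm := module) h3

omit [DecidableEq ι] in
private theorem act2_map (P Q : Matrix ι ι ℝ) :
    (Pᵀ * Q).map ofReal = (P.map ofReal)ᵀ * Q.map ofReal := by
  ext i j
  simp [Matrix.mul_apply]

omit [Fintype ι] in
private theorem act2_map' (P : Matrix ι ι ℝ) (m : ℝ) :
    (P + m • 1).map ofReal = P.map ofReal + (m : ℂ) • 1 := by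
  ext i j
  by_cases h : i = j <;> simp [h]

private theorem act2_cx (hg : Sim g m) :
    (g.toBlocks₁₁.map ofReal)ᵀ * g.toBlocks₂₁.map ofReal =
      (g.toBlocks₂₁.map ofReal)ᵀ * g.toBlocks₁₁.map ofReal ∧
    (g.toBlocks₁₂.map ofReal)ᵀ * g.toBlocks₂₂.map ofReal =
      (g.toBlocks₂₂.map ofReal)ᵀ * g.toBlocks₁₂.map ofReal ∧
    (g.toBlocks₁₁.map ofReal)ᵀ * g.toBlocks₂₂.map ofReal =
      (g.toBlocks₂₁.map ofReal)ᵀ * g.toBlocks₁₂.map ofReal + (m : ℂ) • 1 ∧
    (g.toBlocks₂₂.map ofReal)ᵀ * g.toBlocks₁₁.map ofReal =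
      (g.toBlocks₁₂.map ofReal)ᵀ * g.toBlocks₂₁.map ofReal + (m : ℂ) • 1 := by
  obtain ⟨h1, h2, h3, h4⟩ := act2_real hg
  simp only [← act2_map, ← act2_map']
  exact ⟨by rw [h1], by rw [h2], by rw [h3], by rw [h4]⟩

private theorem act2_mul_den (hd : (den g τ).det ≠ 0) :
    act g τ * den g τ = g.toBlocks₂₂.map ofReal * τ - g.toBlocks₂₁.map ofReal :=
  nonsing_inv_mul_cancel_right _ _ (Ne.isUnit hd)

theorem den_mul_jf (hg : Sim g m) (hm : 0 < m) (hτ : InH τ) :
    (den g τ)ᵀ * jf g (act g τ) = (m : ℂ) • 1 := by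
  obtain ⟨-, h2, h3, -⟩ := act2_cx hg
  have h := congrArg transpose (act2_mul_den (den_det_ne_zero hg hm hτ))
  rw [transpose_mul, (inH_act hg hm hτ).1.eq, transpose_sub, transpose_mul, hτ.1.eq] at h
  rw [jf, Matrix.mul_add, ← Matrix.mul_assoc, h, den, transpose_sub, transpose_mul, hτ.1.eq,
    Matrix.sub_mul, Matrix.sub_mul, Matrix.mul_assoc, Matrix.mul_assoc, h2, h3]
  abel

omit [Fintype ι] [DecidableEq ι] in
private theorem act2_im {σ : Matrix ι ι ℂ} (hσ : σ.IsSymm) :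
    (2 * I) • (σ.map im).map ofReal = σ - σᴴ := by
  ext i j
  have h : σ j i = σ i j := hσ.apply i j
  simp only [Matrix.smul_apply, map_apply, smul_eq_mul, Matrix.sub_apply, conjTranspose_apply, h,
    star_def, sub_conj]
  push_cast
  ring

omit [Fintype ι] [DecidableEq ι] in
private theorem act2_star (P : Matrix ι ι ℝ) : (P.map ofReal)ᴴ = (P.map ofReal)ᵀ := by
  ext i j
  simp

theorem im_act (hg : Sim g m) (hm : 0 < m) (hτ : InH τ) :
    (den g τ)ᴴ * ((act g τ).map im).map ofReal * den g τ = (m : ℂ) • (τ.map im).map ofReal := by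
  obtain ⟨h1, h2, h3, h4⟩ := act2_cx hg
  have h := act2_mul_den (den_det_ne_zero hg hm hτ)
  have h' := congrArg conjTranspose h
  rw [conjTranspose_mul, conjTranspose_sub, conjTranspose_mul, act2_star, act2_star] at h'
  refine smul_right_injective _ (mul_ne_zero (two_ne_zero' ℂ) I_ne_zero) ?_
  beta_reduce
  rw [smul_comm, act2_im hτ.1, ← Matrix.smul_mul, ← Matrix.mul_smul, act2_im (inH_act hg hm hτ).1,
    Matrix.mul_sub, Matrix.sub_mul, h', Matrix.mul_assoc, h, den, conjTranspose_sub,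
    conjTranspose_mul, act2_star, act2_star]
  generalize g.toBlocks₁₁.map ofReal = A at *
  generalize g.toBlocks₁₂.map ofReal = B at *
  generalize g.toBlocks₂₁.map ofReal = C at *
  generalize g.toBlocks₂₂.map ofReal = D at *
  have e : (Aᵀ - τᴴ * Bᵀ) * (D * τ - C) - (τᴴ * Dᵀ - Cᵀ) * (A - B * τ) =
      (Aᵀ * D - Cᵀ * B) * τ - τᴴ * (Dᵀ * A - Bᵀ * C) - (Aᵀ * C - Cᵀ * A) -
        τᴴ * (Bᵀ * D - Dᵀ * B) * τ := by noncomm_ring
  rw [e, h1, h2, h3, h4]
  simp [smul_sub]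

theorem cst_act (hg : Sim g m) (hm : 0 < m) (hτ : InH τ) : cst (act g τ) * g = g * cst τ := by
  have hr := rel_iff.1 (rel_act hg hm hτ)
  have hτ' := inH_act hg hm hτ
  refine Matrix.ext_iff_mulVec.2 fun x => (per_bijective hτ').1 ?_
  rw [← mulVec_mulVec, ← mulVec_mulVec, per_cst hτ', hr, hr, per_cst hτ, mulVec_smul]

private theorem act2_det {M : (ι → ι → ℂ) → Matrix ι ι ℂ}
    (hM : ∀ i j, Differentiable ℂ fun σ => M σ i j) : Differentiable ℂ fun σ => (M σ).det := by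
  simp only [det_apply']
  refine Differentiable.fun_sum fun p _ => Differentiable.const_mul ?_ _
  exact fun σ => (HasFDerivAt.finsetProd fun i _ => (hM _ _ σ).hasFDerivAt).differentiableAt

theorem differentiableOn_act (g : Matrix (ι ⊕ ι) (ι ⊕ ι) ℝ) :
    DifferentiableOn ℂ (fun (σ : ι → ι → ℂ) i j => act g (Matrix.of σ) i j)
      {σ | (den g (Matrix.of σ)).det ≠ 0} := by
  have h0 : ∀ (P Q : Matrix ι ι ℂ) i j,
      Differentiable ℂ fun σ : ι → ι → ℂ => (P * Matrix.of σ - Q) i j := fun P Q i j => by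
    simp only [Matrix.sub_apply, Matrix.mul_apply, of_apply]
    fun_prop
  have h1 : ∀ i j, Differentiable ℂ fun σ : ι → ι → ℂ => den g (Matrix.of σ) i j := fun i j => by
    simp only [den, Matrix.sub_apply, Matrix.mul_apply, of_apply]
    fun_prop
  have h2 : ∀ i j, Differentiable ℂ fun σ : ι → ι → ℂ => (den g (Matrix.of σ)).adjugate i j :=
    fun i j => by
      simp only [adjugate_apply]
      refine act2_det fun k l => ?_
      simp only [updateRow_apply]
      split_ifs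
      · exact differentiable_const _
      · exact h1 k l
  refine differentiableOn_pi.2 fun i => differentiableOn_pi.2 fun j => ?_
  have e : ∀ σ : ι → ι → ℂ, act g (Matrix.of σ) i j = ∑ k, (g.toBlocks₂₂.map ofReal * Matrix.of σ -
      g.toBlocks₂₁.map ofReal) i k * (((den g (Matrix.of σ)).det)⁻¹ *
        (den g (Matrix.of σ)).adjugate k j) := fun σ => by
    rw [act, Matrix.mul_apply, Matrix.inv_def, Ring.inverse_eq_inv']
    rfl
  simp only [e]
  exact DifferentiableOn.fun_sum fun k _ => (h0 _ _ i k).differentiableOn.mul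
    (((act2_det h1).differentiableOn.inv fun σ hσ => hσ).mul (h2 k j).differentiableOn)

omit [DecidableEq ι] in
/-- `Hol.comp`. -/
theorem Hol.comp_rel (hτ : τ.IsSymm) (hτ' : τ'.IsSymm) (hg : Sim g m) (hr : Rel g τ τ') {n : ℝ}
    {f : (ι ⊕ ι → ℝ) → ℂ} (hf : f ∈ Hol τ' n) : (fun x => f (g *ᵥ x)) ∈ Hol τ (n * m) :=
  Hol.comp hτ' hτ g.mulVecLin (jf g τ') (rel_iff.1 hr) hg hf

end M4
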