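import Mathlib

/-!
Generators of the integral symplectic group.
-/

set_option autoImplicit false

namespace M4

open Complex Matrix

variable {ι : Type} [Fintype ι] [DecidableEq ι]

/-- The inversion in one slot at `j`. -/
def pinv (j : ι) : Matrix (ι ⊕ ι) (ι ⊕ ι) ℤ :=
  fromBlocks (1 - single j j 1) (single j j 1) (-single j j 1) (1 - single j j 1)

/-- The full inversion is a product of the inversions in one slot. -/
theorem sp_full {P : Matrix (ι ⊕ ι) (ι ⊕ ι) ℤ → Prop}
    (hmul : ∀ g h, P g → P h → P (g * h))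
    (hT : ∀ C : Matrix ι ι ℤ, C.IsSymm → P (fromBlocks 1 0 C 1))
    (hJ : ∀ j, P (pinv j)) : P (fromBlocks 0 1 (-1) 0) := by
  have key : ∀ s : Finset ι, P (fromBlocks (1 - ∑ k ∈ s, single k k 1) (∑ k ∈ s, single k k 1)
      (-∑ k ∈ s, single k k 1) (1 - ∑ k ∈ s, single k k 1)) := by
    intro s
    induction s using Finset.induction_on with
    | empty => simpa using hT 0 isSymm_zero
    | insert j s hj ih =>
      have h0 : (single j j (1 : ℤ) : Matrix ι ι ℤ) * ∑ k ∈ s, single k k (1 : ℤ) = 0 := by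
        rw [Finset.mul_sum]
        refine Finset.sum_eq_zero fun k hk => ?_
        exact single_mul_single_of_ne _ _ _ _ (fun h => hj (by rw [h]; exact hk)) _
      have h := hmul _ _ (hJ j) ih
      rw [pinv, fromBlocks_multiply] at h
      rw [Finset.sum_insert hj]
      generalize (∑ k ∈ s, single k k (1 : ℤ) : Matrix ι ι ℤ) = e at h h0
      generalize (single j j (1 : ℤ) : Matrix ι ι ℤ) = a at h h0
      convert h using 2
      all_goals
        simp only [sub_mul, mul_sub, mul_neg, neg_mul, one_mul, mul_one, h0]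
        abel
  have h := key Finset.univ
  rw [sum_single_one] at h
  simpa using h

/-- Upper unipotent matrices. -/
theorem sp_upper {P : Matrix (ι ⊕ ι) (ι ⊕ ι) ℤ → Prop}
    (hmul : ∀ g h, P g → P h → P (g * h))
    (hT : ∀ C : Matrix ι ι ℤ, C.IsSymm → P (fromBlocks 1 0 C 1))
    (hJ : ∀ j, P (pinv j)) (S : Matrix ι ι ℤ) (hS : S.IsSymm) : P (fromBlocks 1 S 0 1) := by
  have hW := sp_full hmul hT hJ
  have h := hmul _ _ (hmul _ _ (hmul _ _ (hmul _ _ hW (hT (-S) hS.neg)) hW) hW) hW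
  simpa [fromBlocks_multiply] using h

omit [Fintype ι] [DecidableEq ι] in
theorem map_cast_mul {κ μ : Type} [Fintype κ] (X : Matrix μ κ ℤ) (Y : Matrix κ ι ℤ) :
    (X * Y).map (Int.cast : ℤ → ℚ) = X.map (Int.cast : ℤ → ℚ) * Y.map (Int.cast : ℤ → ℚ) :=
  Matrix.map_mul (f := Int.castRingHom ℚ)

theorem det_cast (A : Matrix ι ι ℤ) : ((A.det : ℤ) : ℚ) = (A.map (Int.cast : ℤ → ℚ)).det :=
  (Int.castRingHom ℚ).map_det A

theorem det_add_mul_mul {κ : Type} [Fintype κ] [DecidableEq κ] (A B : Matrix ι ι ℤ)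
    (S : Matrix ι ι ℚ) (h : A.map (Int.cast : ℤ → ℚ) * S = B.map (Int.cast : ℤ → ℚ)) (Z : Matrix ι κ ℤ)
    (Y : Matrix κ ι ℤ) :
    (((A + B * (Z * Y)).det : ℤ) : ℚ) =
      A.det * (1 + Y.map (Int.cast : ℤ → ℚ) * (S * Z.map (Int.cast : ℤ → ℚ))).det := by
  have h1 : (A + B * (Z * Y)).map (Int.cast : ℤ → ℚ) =
      A.map (Int.cast : ℤ → ℚ) * (1 + (S * Z.map (Int.cast : ℤ → ℚ)) * Y.map (Int.cast : ℤ → ℚ)) := by
    rw [Matrix.map_add _ (by simp), map_cast_mul, map_cast_mul, ← h]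
    simp only [Matrix.mul_add, Matrix.mul_one, Matrix.mul_assoc]
  rw [det_cast, h1, det_mul, det_one_add_mul_comm, det_cast]

theorem det_add_mul_sub {κ : Type} [Fintype κ] [DecidableEq κ] (A B : Matrix ι ι ℤ)
    (S : Matrix ι ι ℚ) (h : A.map (Int.cast : ℤ → ℚ) * S = B.map (Int.cast : ℤ → ℚ))
    (p q : κ → ι) :
    (((A + B * ((1 : Matrix ι ι ℤ).submatrix id p * (1 : Matrix ι ι ℤ).submatrix q id)).det : ℤ) :
      ℚ) = A.det * (1 + S.submatrix q p).det := by
  rw [det_add_mul_mul A B S h]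
  congr 3
  ext k l
  simp [Matrix.mul_apply, one_apply]

theorem exists_descent (A B : Matrix ι ι ℤ) (S : Matrix ι ι ℚ)
    (h : A.map (Int.cast : ℤ → ℚ) * S = B.map (Int.cast : ℤ → ℚ)) (hS : S.IsSymm)
    (hb : ∀ i j, -1 < S i j ∧ S i j ≤ 0) (h0 : S ≠ 0) (hA : A.det ≠ 0) :
    ∃ K : Matrix ι ι ℤ, K.IsSymm ∧ (A + B * K).det ≠ 0 ∧
      (A + B * K).det.natAbs < A.det.natAbs := by
  have fin : ∀ (K : Matrix ι ι ℤ) (f : ℚ), 0 < f → f < 1 →
      (((A + B * K).det : ℤ) : ℚ) = A.det * f →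
      (A + B * K).det ≠ 0 ∧ (A + B * K).det.natAbs < A.det.natAbs := by
    intro K f f0 f1 hf
    have hA' : (0 : ℚ) < |((A.det : ℤ) : ℚ)| := abs_pos.2 (by exact_mod_cast hA)
    constructor
    · intro hz
      rw [hz] at hf
      have : ((A.det : ℤ) : ℚ) * f ≠ 0 := mul_ne_zero (by exact_mod_cast hA) f0.ne'
      exact this (by simpa using hf.symm)
    · have h2 : |(((A + B * K).det : ℤ) : ℚ)| < |((A.det : ℤ) : ℚ)| := by
        rw [hf, abs_mul, abs_of_pos f0]
        nlinarith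
      have h3 : |(A + B * K).det| < |A.det| := by exact_mod_cast h2
      zify
      exact h3
  have hs : ∀ x y : ι, (1 : Matrix ι ι ℤ) x y = (1 : Matrix ι ι ℤ) y x :=
    fun x y => isSymm_one.apply y x
  by_cases hd : ∃ i, S i i ≠ 0
  · obtain ⟨i, hi⟩ := hd
    refine ⟨(1 : Matrix ι ι ℤ).submatrix id (fun _ : Unit => i) *
      (1 : Matrix ι ι ℤ).submatrix (fun _ : Unit => i) id, ?_, fin _ (1 + S i i) ?_ ?_ ?_⟩
    · ext a b
      rw [transpose_apply, Matrix.mul_apply, Matrix.mul_apply, Fintype.sum_unique,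
        Fintype.sum_unique]
      change (1 : Matrix ι ι ℤ) b i * (1 : Matrix ι ι ℤ) i a =
        (1 : Matrix ι ι ℤ) a i * (1 : Matrix ι ι ℤ) i b
      rw [hs a, hs b, mul_comm]
    · linarith [(hb i i).1]
    · have := lt_of_le_of_ne (hb i i).2 hi
      linarith
    · rw [det_add_mul_sub A B S h, det_unique (1 + _)]
      simp
  · push Not at hd
    obtain ⟨i, j, hij⟩ : ∃ i j, S i j ≠ 0 := by
      by_contra hc
      push Not at hc
      exact h0 (by ext i j; simp [hc])
    have hlt := lt_of_le_of_ne (hb i j).2 hij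
    have hgt := (hb i j).1
    refine ⟨(1 : Matrix ι ι ℤ).submatrix id ![i, j] * (1 : Matrix ι ι ℤ).submatrix ![j, i] id,
      ?_, fin _ ((1 + S i j) ^ 2) ?_ ?_ ?_⟩
    · ext a b
      rw [transpose_apply, Matrix.mul_apply, Matrix.mul_apply, Fin.sum_univ_two,
        Fin.sum_univ_two]
      change (1 : Matrix ι ι ℤ) b i * (1 : Matrix ι ι ℤ) j a +
          (1 : Matrix ι ι ℤ) b j * (1 : Matrix ι ι ℤ) i a =
        (1 : Matrix ι ι ℤ) a i * (1 : Matrix ι ι ℤ) j b +
          (1 : Matrix ι ι ℤ) a j * (1 : Matrix ι ι ℤ) i b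
      rw [hs a, hs b, hs a, hs b]
      ring
    · have : 0 < 1 + S i j := by linarith
      positivity
    · nlinarith
    · rw [det_add_mul_sub A B S h, det_fin_two]
      have hji : S j i = S i j := hS.apply i j
      change _ * ((1 + S j i) * (1 + S i j) - (0 + S j j) * (0 + S i i)) = _
      rw [hji, hd, hd]
      ring

theorem exists_det_ne_zero (A B C D : Matrix ι ι ℤ) (h1 : A * Bᵀ = B * Aᵀ)
    (h2 : A * Dᵀ - B * Cᵀ = 1) : ∃ t : ℤ, (A + B * (t • (1 : Matrix ι ι ℤ))).det ≠ 0 := by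
  by_contra hc
  push Not at hc
  choose v hv0 hv using fun t => exists_vecMul_eq_zero_iff.2 (hc t)
  have hA : ∀ t, v t ᵥ* A = -t • (v t ᵥ* B) := by
    intro t
    have := hv t
    rw [Matrix.mul_smul, Matrix.mul_one, vecMul_add, vecMul_smul] at this
    rw [neg_smul]
    exact eq_neg_of_add_eq_zero_left this
  have hne : ∀ t, v t ᵥ* B ≠ 0 := by
    intro t ht
    apply hv0 t
    have h3 : v t ᵥ* (A * Dᵀ - B * Cᵀ) = v t := by rw [h2, vecMul_one]
    rw [← h3, vecMul_sub, ← vecMul_vecMul, ← vecMul_vecMul, hA, ht]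
    simp
  have horth : ∀ s t, s ≠ t → (v s ᵥ* B) ⬝ᵥ (v t ᵥ* B) = 0 := by
    intro s t hst
    have h3 : (v s ᵥ* A) ⬝ᵥ (v t ᵥ* B) = (v s ᵥ* B) ⬝ᵥ (v t ᵥ* A) := by
      rw [← mulVec_transpose B (v t), ← mulVec_transpose A (v t), dotProduct_mulVec,
        dotProduct_mulVec, vecMul_vecMul, vecMul_vecMul, h1]
    rw [hA s, hA t, smul_dotProduct, dotProduct_smul, smul_eq_mul, smul_eq_mul] at h3
    have h4 : (s - t) * ((v s ᵥ* B) ⬝ᵥ (v t ᵥ* B)) = 0 := by linarith
    exact (mul_eq_zero.1 h4).resolve_left (sub_ne_zero.2 hst)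
  refine Module.Finite.not_linearIndependent_of_infinite (R := ℤ) (fun t : ℤ => v t ᵥ* B) ?_
  rw [linearIndependent_iff']
  intro s c hs t ht
  have h5 := congrArg (fun w => w ⬝ᵥ (v t ᵥ* B)) hs
  simp only [sum_dotProduct, smul_dotProduct, smul_eq_mul, zero_dotProduct] at h5
  rw [Finset.sum_eq_single t (fun b _ hb => by rw [horth b t hb, mul_zero])
    (fun h => absurd ht h)] at h5
  exact (mul_eq_zero.1 h5).resolve_right fun h => hne t (dotProduct_self_eq_zero.1 h)

theorem rows_of_mem {A B C D : Matrix ι ι ℤ} (h : fromBlocks A B C D ∈ symplecticGroup ι ℤ) :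
    A * Bᵀ = B * Aᵀ ∧ A * Dᵀ - B * Cᵀ = 1 := by
  have h1 := SymplecticGroup.transpose_mem h
  rw [fromBlocks_transpose, SymplecticGroup.fromBlocks_mem_iff] at h1
  simp only [transpose_transpose] at h1
  exact ⟨h1.1, h1.2.2⟩

theorem lower_mem {K : Matrix ι ι ℤ} (hK : K.IsSymm) :
    fromBlocks 1 0 K 1 ∈ symplecticGroup ι ℤ := by
  rw [SymplecticGroup.fromBlocks_mem_iff]
  simp [hK.eq]

theorem upper_mem {K : Matrix ι ι ℤ} (hK : K.IsSymm) :
    fromBlocks 1 K 0 1 ∈ symplecticGroup ι ℤ := by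
  rw [SymplecticGroup.fromBlocks_mem_iff]
  simp [hK.eq]

/-- Generation of the integral symplectic group. A lower unipotent factor makes the block `A`
nonsingular; then descent on `|det A|`: an upper unipotent factor reduces the entries of the
symmetric matrix `A⁻¹ B` into `(-1, 0]`; if it vanishes the matrix is block triangular, otherwise
a lower unipotent factor of rank at most two multiplies `det A` by a number in `(0, 1)`. -/
theorem sp_induction {P : Matrix (ι ⊕ ι) (ι ⊕ ι) ℤ → Prop}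
    (hmul : ∀ g h, P g → P h → P (g * h))
    (hT : ∀ C : Matrix ι ι ℤ, C.IsSymm → P (fromBlocks 1 0 C 1))
    (hD : ∀ A D : Matrix ι ι ℤ, Aᵀ * D = 1 → P (fromBlocks A 0 0 D))
    (hJ : ∀ j, P (pinv j)) {g : Matrix (ι ⊕ ι) (ι ⊕ ι) ℤ} (hg : g ∈ symplecticGroup ι ℤ) :
    P g := by
  have hU := sp_upper hmul hT hJ
  have low : ∀ A B C D K : Matrix ι ι ℤ, K.IsSymm → fromBlocks A B C D ∈ symplecticGroup ι ℤ →
      fromBlocks (A + B * K) B (C + D * K) D ∈ symplecticGroup ι ℤ ∧
        (P (fromBlocks (A + B * K) B (C + D * K) D) → P (fromBlocks A B C D)) := by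
    intro A B C D K hK h
    constructor
    · simpa [fromBlocks_multiply] using mul_mem h (lower_mem hK)
    · intro hP
      simpa [fromBlocks_multiply] using hmul _ _ hP (hT (-K) hK.neg)
  have upp : ∀ A B C D K : Matrix ι ι ℤ, K.IsSymm → fromBlocks A B C D ∈ symplecticGroup ι ℤ →
      fromBlocks A (A * K + B) C (C * K + D) ∈ symplecticGroup ι ℤ ∧
        (P (fromBlocks A (A * K + B) C (C * K + D)) → P (fromBlocks A B C D)) := by
    intro A B C D K hK h
    constructor
    · simpa [fromBlocks_multiply] using mul_mem h (upper_mem hK)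
    · intro hP
      simpa [fromBlocks_multiply] using hmul _ _ hP (hU (-K) hK.neg)
  have base : ∀ A C D : Matrix ι ι ℤ, fromBlocks A 0 C D ∈ symplecticGroup ι ℤ →
      P (fromBlocks A 0 C D) := by
    intro A C D h
    obtain ⟨h1, -, h3⟩ := SymplecticGroup.fromBlocks_mem_iff.1 h
    rw [Matrix.mul_zero, sub_zero] at h3
    have h4 : D * Aᵀ = 1 := mul_eq_one_comm.1 h3
    have h5 : (Aᵀ * C).IsSymm := by
      rw [Matrix.IsSymm, transpose_mul, transpose_transpose, h1]
    have h6 := hmul _ _ (hD A D h3) (hT _ h5)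
    simpa [fromBlocks_multiply, ← Matrix.mul_assoc, h4] using h6
  have main : ∀ n : ℕ, ∀ A B C D : Matrix ι ι ℤ, fromBlocks A B C D ∈ symplecticGroup ι ℤ →
      A.det ≠ 0 → A.det.natAbs = n → P (fromBlocks A B C D) := by
    intro n
    induction n using Nat.strong_induction_on with
    | _ n ih =>
      intro A B C D h hA hn
      have hu : IsUnit (A.map (Int.cast : ℤ → ℚ)).det := by
        rw [← det_cast]
        exact IsUnit.mk0 _ (by exact_mod_cast hA)
      obtain ⟨S, hS⟩ : ∃ S : Matrix ι ι ℚ, A.map (Int.cast : ℤ → ℚ) * S = B.map (Int.cast : ℤ → ℚ) :=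
        ⟨(A.map (Int.cast : ℤ → ℚ))⁻¹ * B.map (Int.cast : ℤ → ℚ), mul_nonsing_inv_cancel_left _ _ hu⟩
      have hsym : S.IsSymm := by
        have h1 := congrArg (fun X : Matrix ι ι ℤ => X.map (Int.cast : ℤ → ℚ)) (rows_of_mem h).1
        simp only [map_cast_mul, transpose_map] at h1
        rw [← hS, transpose_mul, Matrix.mul_assoc] at h1
        have hu1 : IsUnit (A.map (Int.cast : ℤ → ℚ)) := (isUnit_iff_isUnit_det _).2 hu
        have h2 := hu1.mul_left_cancel h1
        exact ((isUnit_transpose _).2 hu1).mul_right_cancel h2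
      let K : Matrix ι ι ℤ := of fun i j => -⌈S i j⌉
      have hK : K.IsSymm := by
        ext i j
        simp only [K, transpose_apply, of_apply, hsym.apply i j]
      obtain ⟨hm, hP⟩ := upp A B C D K hK h
      apply hP
      have hS' : A.map (Int.cast : ℤ → ℚ) * (K.map (Int.cast : ℤ → ℚ) + S) =
          (A * K + B).map (Int.cast : ℤ → ℚ) := by
        rw [Matrix.map_add _ (by simp), map_cast_mul, ← hS, Matrix.mul_add]
      by_cases h0 : K.map (Int.cast : ℤ → ℚ) + S = 0
      · have hB : A * K + B = 0 := by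
          rw [h0, Matrix.mul_zero] at hS'
          ext i j
          have := congrFun (congrFun hS' i) j
          simp only [Matrix.zero_apply, map_apply] at this
          exact_mod_cast this.symm
        rw [hB] at hm ⊢
        exact base _ _ _ hm
      · obtain ⟨L, hL, hne, hlt⟩ := exists_descent A (A * K + B) _ hS' ((hK.map _).add hsym)
          (fun i j => by
            simp only [K, Matrix.add_apply, map_apply, of_apply, Int.cast_neg]
            constructor
            · linarith [Int.ceil_lt_add_one (S i j)]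
            · linarith [Int.le_ceil (S i j)]) h0 hA
        obtain ⟨hm', hP'⟩ := low _ _ _ _ L hL hm
        exact hP' (ih _ (hn ▸ hlt) _ _ _ _ hm' hne rfl)
  rw [← fromBlocks_toBlocks g] at hg ⊢
  obtain ⟨t, ht⟩ := exists_det_ne_zero _ _ _ _ (rows_of_mem hg).1 (rows_of_mem hg).2
  obtain ⟨hm, hP⟩ := low _ _ _ _ (t • 1) (isSymm_one.smul t) hg
  exact hP (main _ _ _ _ _ hm ht rfl)

end M4
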