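import Mathlib
import Pool.Agent.Lib.MP_33b3f9_ag.M4.ThAct
import Pool.Agent.Lib.MP_33b3f9_ag.M4.ThSp
import Pool.Agent.Lib.MP_33b3f9_ag.M4.ThFou

/-!
The transformation law with its exact weight.
-/

set_option autoImplicit false

namespace M4

open Complex Matrix

variable {ι : Type} [Fintype ι] [DecidableEq ι] {τ : Matrix ι ι ℂ}

/-- An integral matrix as a real matrix. -/
def mz (g : Matrix (ι ⊕ ι) (ι ⊕ ι) ℤ) : Matrix (ι ⊕ ι) (ι ⊕ ι) ℝ := g.map (Int.cast : ℤ → ℝ)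

theorem sim_mz_iff {g : Matrix (ι ⊕ ι) (ι ⊕ ι) ℤ} : Sim (mz g) 1 ↔ g ∈ symplecticGroup ι ℤ := by
  have hJ : (J ι ℤ).map (Int.cast : ℤ → ℝ) = J ι ℝ := Matrix.map_J ι (Int.castRingHom ℝ)
  have hm : (gᵀ * J ι ℤ * g).map (Int.cast : ℤ → ℝ) = (mz g)ᵀ * J ι ℝ * mz g := by
    rw [← hJ]
    ext i j
    simp [mz, mul_apply]
  rw [sim_iff, one_smul, SymplecticGroup.mem_iff', ← hm, ← hJ]
  exact (Matrix.map_injective Int.cast_injective).eq_iff

/-- An integral matrix as a complex matrix. -/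
noncomputable def ThModG_mc (A : Matrix ι ι ℤ) : Matrix ι ι ℂ := A.map (Int.cast : ℤ → ℂ)

omit [DecidableEq ι] in
theorem ThModG_cz_mulVec (A : Matrix ι ι ℤ) (n : ι → ℤ) :
    cz (A *ᵥ n) = ThModG_mc A *ᵥ cz n := by
  funext i
  simp [cz, ThModG_mc, mulVec, dotProduct]

omit [DecidableEq ι] in
theorem ThModG_fa (A B C D : Matrix ι ι ℤ) (x : ι ⊕ ι → ℝ) :
    fa (mz (fromBlocks A B C D) *ᵥ x) = ThModG_mc A *ᵥ fa x + ThModG_mc B *ᵥ fb x := by
  funext i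
  simp [fa, fb, mz, ThModG_mc, mulVec, dotProduct, Fintype.sum_sum_type]

omit [DecidableEq ι] in
theorem ThModG_fb (A B C D : Matrix ι ι ℤ) (x : ι ⊕ ι → ℝ) :
    fb (mz (fromBlocks A B C D) *ᵥ x) = ThModG_mc C *ᵥ fa x + ThModG_mc D *ᵥ fb x := by
  funext i
  simp [fa, fb, mz, ThModG_mc, mulVec, dotProduct, Fintype.sum_sum_type]

omit [Fintype ι] [DecidableEq ι] in
theorem ThModG_mc_zero : ThModG_mc (0 : Matrix ι ι ℤ) = 0 := by
  ext i j
  simp [ThModG_mc]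

omit [Fintype ι] in
theorem ThModG_mc_one : ThModG_mc (1 : Matrix ι ι ℤ) = 1 := by
  ext i j
  simp [ThModG_mc, one_apply]

omit [DecidableEq ι] in
theorem ThModG_mc_mul (A B : Matrix ι ι ℤ) : ThModG_mc (A * B) = ThModG_mc A * ThModG_mc B := by
  ext i j
  simp [ThModG_mc, mul_apply]

omit [DecidableEq ι] in
theorem ThModG_den (A B C D : Matrix ι ι ℤ) (τ : Matrix ι ι ℂ) :
    den (mz (fromBlocks A B C D)) τ = ThModG_mc A - ThModG_mc B * τ := by
  unfold den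
  congr 1

theorem ThModG_act (A B C D : Matrix ι ι ℤ) (τ : Matrix ι ι ℂ) :
    act (mz (fromBlocks A B C D)) τ =
      (ThModG_mc D * τ - ThModG_mc C) * (ThModG_mc A - ThModG_mc B * τ)⁻¹ := by
  rw [← ThModG_den A B C D]
  unfold act den
  congr 2

theorem ThModG_even {C : Matrix ι ι ℤ} (hC : C.IsSymm) (n : ι → ℤ) :
    Even (n ⬝ᵥ C *ᵥ n + n ⬝ᵥ C.diag) := by
  induction n using Pi.single_induction with
  | zero => simp
  | add f g hf hg =>
    have e : g ⬝ᵥ C *ᵥ f = f ⬝ᵥ C *ᵥ g := by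
      rw [dotProduct_mulVec, ← mulVec_transpose, hC.eq, dotProduct_comm]
    have : (f + g) ⬝ᵥ C *ᵥ (f + g) + (f + g) ⬝ᵥ C.diag =
        (f ⬝ᵥ C *ᵥ f + f ⬝ᵥ C.diag) + (g ⬝ᵥ C *ᵥ g + g ⬝ᵥ C.diag) + 2 * (f ⬝ᵥ C *ᵥ g) := by
      simp only [mulVec_add, add_dotProduct, dotProduct_add, e]
      ring
    rw [this]
    exact (hf.add hg).add (even_two_mul _)
  | single i m =>
    have : Pi.single i m ⬝ᵥ C *ᵥ Pi.single i m + Pi.single i m ⬝ᵥ C.diag =
        m * (m + 1) * C i i := by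
      simp
      ring
    rw [this]
    exact (Int.even_mul_succ_self m).mul_right _

/-- The transformation law for `g`. -/
def Law (g : Matrix (ι ⊕ ι) (ι ⊕ ι) ℤ) : Prop :=
  ∀ τ : Matrix ι ι ℂ, InH τ → ∃ (k : ι ⊕ ι → ℤ) (c : ℂ), c ^ 8 = (den (mz g) τ).det ^ 4 ∧
    ∀ x, Th (act (mz g) τ) (mz g *ᵥ x) = c * U 1 (hf k) (Th τ) x

/-- `τ ↦ τ - C`, `k = (0, diag C)`, `c = 1`: `n C n` is congruent to `diag C . n` modulo two. -/
theorem law_T {C : Matrix ι ι ℤ} (hC : C.IsSymm) : Law (fromBlocks 1 0 C 1) := by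
  intro τ _
  refine ⟨Sum.elim 0 C.diag, 1, ?_, fun x => ?_⟩
  · simp [ThModG_den, ThModG_mc_zero, ThModG_mc_one]
  have hs : (ThModG_mc C).IsSymm := hC.map _
  have ha : fa (hf (Sum.elim (0 : ι → ℤ) C.diag)) = 0 := by
    funext i
    simp [fa, hf, rz]
  have hb : fb (hf (Sum.elim (0 : ι → ℤ) C.diag)) = (1 / 2 : ℂ) • cz C.diag := by
    funext i
    simp [fb, hf, rz, cz]
  rw [one_mul, U, Th, Th, thc, thc, ← mul_assoc, ← tsum_mul_left, ← tsum_mul_left]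
  refine tsum_congr fun n => ?_
  obtain ⟨r, hr⟩ := ThModG_even hC n
  have hr' : cz n ⬝ᵥ ThModG_mc C *ᵥ cz n + cz n ⬝ᵥ cz C.diag = r + r := by
    rw [← ThModG_cz_mulVec, cz_dot, cz_dot]
    exact_mod_cast hr
  rw [← ee_add, ← ee_add, ← ee_add, ← mul_one (ee _), ← ee_int r, ← ee_add, E_cast, ThModG_act,
    ThModG_fa, ThModG_fb, fa_add, fb_add, ha, hb]
  simp only [ThModG_mc_zero, ThModG_mc_one, one_mulVec, zero_mulVec, add_zero, zero_add,
    Matrix.zero_mul, Matrix.one_mul, sub_zero, inv_one, Matrix.mul_one, sub_mulVec, mulVec_add,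
    add_dotProduct, dotProduct_add, dotProduct_sub, dotProduct_smul, smul_dotProduct,
    zero_dotProduct, smul_eq_mul, symm_dot hs (fa x) (cz n), dotProduct_comm (cz C.diag)]
  congr 1
  push_cast
  linear_combination (-1 / 2 : ℂ) * hr'

/-- Reindex the series by `n ↦ A n`; `k = 0`, `c = 1`, `det A = ± 1`. -/
theorem law_D {A D : Matrix ι ι ℤ} (h : Aᵀ * D = 1) : Law (fromBlocks A 0 0 D) := by
  intro τ _
  have h' : Dᵀ * A = 1 := by simpa using congrArg transpose h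
  have h'' : A * Dᵀ = 1 := mul_eq_one_comm.1 h'
  have hc : (ThModG_mc A)ᵀ * ThModG_mc D = 1 := by
    rw [← ThModG_mc_one, ← h, ThModG_mc_mul]
    rfl
  have hc' : (ThModG_mc D)ᵀ * ThModG_mc A = 1 := by simpa using congrArg transpose hc
  refine ⟨0, 1, ?_, fun x => ?_⟩
  · have hd : A.det * Dᵀ.det = 1 := by rw [← det_mul, h'', det_one]
    have hd' : (ThModG_mc A).det = (A.det : ℂ) := ((Int.castRingHom ℂ).map_det A).symm
    rw [ThModG_den, ThModG_mc_zero, Matrix.zero_mul, sub_zero, hd']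
    rcases Int.eq_one_or_neg_one_of_mul_eq_one hd with h1 | h1 <;> rw [h1] <;> norm_num
  let e : (ι → ℤ) ≃ (ι → ℤ) :=
    { toFun := fun n => A *ᵥ n
      invFun := fun n => Dᵀ *ᵥ n
      left_inv := fun n => by simp only [mulVec_mulVec, h', one_mulVec]
      right_inv := fun n => by simp only [mulVec_mulVec, h'', one_mulVec] }
  have key : ∀ u v : ι → ℂ, ThModG_mc A *ᵥ u ⬝ᵥ ThModG_mc D *ᵥ v = u ⬝ᵥ v := fun u v => by
    rw [dotProduct_mulVec, vecMul_mulVec, hc, vecMul_one]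
  have h0 : hf (0 : ι ⊕ ι → ℤ) = 0 := by simp [hf]
  rw [one_mul, h0, U_zero, Th, Th, thc, thc, ← e.tsum_eq, ThModG_act, ThModG_fa, ThModG_fb]
  simp only [ThModG_mc_zero, zero_mulVec, add_zero, zero_add, Matrix.zero_mul, sub_zero,
    inv_eq_left_inv hc', key]
  congr 1
  refine tsum_congr fun n => ?_
  have he : cz (e n) = ThModG_mc A *ᵥ cz n := ThModG_cz_mulVec A n
  rw [he, ← mulVec_add, key, mulVec_mulVec, Matrix.mul_assoc, hc', Matrix.mul_one,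
    ← mulVec_mulVec, key]

end M4
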