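import Mathlib
import Pool.Agent.Lib.MP_33b3f9_ag.M4.ThModG

/-!
The transformation law for the inversion in one slot.
-/

set_option autoImplicit false

namespace M4

open Complex Matrix

variable {ι : Type} [Fintype ι] [DecidableEq ι]

omit [Fintype ι] in
theorem mj_mz_pinv (j : ι) : mz (pinv j) =
    fromBlocks (1 - single j j 1) (single j j 1) (-single j j 1) (1 - single j j 1) := by
  ext (i | i) (k | k) <;> simp [mz, pinv, one_apply, single_apply]

theorem mj_pinv_inl (j : ι) (x : ι ⊕ ι → ℝ) (i : ι) :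
    (mz (pinv j) *ᵥ x) (Sum.inl i) = if i = j then x (Sum.inr j) else x (Sum.inl i) := by
  rw [mj_mz_pinv, fromBlocks_mulVec]
  simp only [Sum.elim_inl, sub_mulVec, one_mulVec, single_mulVec, Pi.add_apply, Pi.sub_apply,
    Function.update_apply]
  split_ifs with h <;> simp [h]

theorem mj_pinv_inr (j : ι) (x : ι ⊕ ι → ℝ) (i : ι) :
    (mz (pinv j) *ᵥ x) (Sum.inr i) = if i = j then -x (Sum.inl j) else x (Sum.inr i) := by
  rw [mj_mz_pinv, fromBlocks_mulVec]
  simp only [Sum.elim_inr, sub_mulVec, neg_mulVec, one_mulVec, single_mulVec, Pi.add_apply,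
    Pi.sub_apply, Pi.neg_apply, Function.update_apply]
  split_ifs with h <;> simp [h]

theorem mj_sim_pinv (j : ι) : Sim (mz (pinv j)) 1 := fun x y => by
  rw [one_mul, E, E]
  refine Finset.sum_congr rfl fun i _ => ?_
  simp only [mj_pinv_inl, mj_pinv_inr]
  split_ifs with h
  · subst h
    ring
  · rfl

theorem mj_den_pinv (j : ι) (τ : Matrix ι ι ℂ) :
    den (mz (pinv j)) τ = (1 : Matrix ι ι ℂ).updateRow j (-τ j) := by
  have e : (single j j (1 : ℝ)).map ofReal = single j j 1 := by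
    ext i k
    simp [single_apply, apply_ite ofReal]
  rw [den, mj_mz_pinv, toBlocks_fromBlocks₁₁, toBlocks_fromBlocks₁₂, e]
  ext i k
  by_cases h : i = j
  · subst h
    simp [one_apply, single_apply]
  · simp [one_apply, h, Ne.symm h, apply_ite ofReal]

theorem mj_det_den_pinv (j : ι) (τ : Matrix ι ι ℂ) : (den (mz (pinv j)) τ).det = -τ j j := by
  rw [mj_den_pinv, ← cramer_transpose_apply, transpose_one, cramer_one]
  rfl

theorem mj_act_pinv (j : ι) {τ : Matrix ι ι ℂ} (ht : τ j j ≠ 0) (v : ι → ℂ) :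
    act (mz (pinv j)) τ *ᵥ Function.update v j (-(τ *ᵥ v) j) =
      Function.update (τ *ᵥ v) j (v j) := by
  have e : (single j j (1 : ℝ)).map ofReal = single j j 1 := by
    ext i k
    simp [single_apply, apply_ite ofReal]
  have e1 : (1 - single j j (1 : ℝ)).map ofReal = 1 - single j j 1 := by
    ext i k
    simp [one_apply, single_apply, apply_ite ofReal]
  have e2 : (-single j j (1 : ℝ)).map ofReal = -single j j 1 := by
    ext i k
    simp [single_apply, apply_ite ofReal]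
  have h1 : Function.update v j (-(τ *ᵥ v) j) = den (mz (pinv j)) τ *ᵥ v := by
    rw [mj_den_pinv, updateRow_mulVec, one_mulVec, neg_dotProduct]
    rfl
  have h2 : IsUnit (den (mz (pinv j)) τ).det := by
    rw [mj_det_den_pinv]
    exact (neg_ne_zero.2 ht).isUnit
  rw [h1, mulVec_mulVec, act, ← den, nonsing_inv_mul_cancel_right _ _ h2, mj_mz_pinv,
    toBlocks_fromBlocks₂₂, toBlocks_fromBlocks₂₁, e1, e2, sub_neg_eq_add, add_mulVec,
    ← mulVec_mulVec, sub_mulVec, one_mulVec, single_mulVec, single_mulVec]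
  funext i
  by_cases h : i = j
  · subst h
    simp
  · simp [h]

theorem mj_quad_single {τ : Matrix ι ι ℂ} (hτ : τ.IsSymm) (j : ι) (q : ι → ℂ) (y : ℂ) :
    (q + Pi.single j y) ⬝ᵥ τ *ᵥ (q + Pi.single j y) =
      q ⬝ᵥ τ *ᵥ q + 2 * y * (τ *ᵥ q) j + y ^ 2 * τ j j := by
  rw [mulVec_add, add_dotProduct, dotProduct_add, dotProduct_add, symm_dot hτ q (Pi.single j y),
    single_dotProduct, single_dotProduct]
  simp only [mulVec, dotProduct_single]
  ring

theorem mj_quad_pinv {τ : Matrix ι ι ℂ} (hτ : InH τ) {j : ι} (ht : τ j j ≠ 0) {q : ι → ℂ}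
    (hq : q j = 0) (y : ℂ) :
    (q + Pi.single j y) ⬝ᵥ act (mz (pinv j)) τ *ᵥ (q + Pi.single j y) =
      q ⬝ᵥ τ *ᵥ q - (y + (τ *ᵥ q) j) ^ 2 / τ j j := by
  obtain ⟨z, hz⟩ : ∃ z, z = -(y + (τ *ᵥ q) j) / τ j j := ⟨_, rfl⟩
  have h1 : (τ *ᵥ (q + Pi.single j z)) j = -y := by
    rw [mulVec_add, Pi.add_apply, hz]
    simp only [mulVec, dotProduct_single]
    field_simp
    ring
  have h2 : q + Pi.single j y =
      Function.update (q + Pi.single j z) j (-(τ *ᵥ (q + Pi.single j z)) j) := by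
    rw [h1]
    funext i
    by_cases h : i = j
    · subst h
      simp [hq]
    · simp [h]
  have h3 : ∀ (u : ι → ℂ) (c : ℂ), q ⬝ᵥ Function.update u j c = q ⬝ᵥ u := fun u c =>
    Finset.sum_congr rfl fun i _ => by
      by_cases h : i = j
      · subst h
        simp [hq]
      · simp [h]
  conv_lhs => arg 2; rw [h2, mj_act_pinv j ht]
  rw [add_dotProduct, h3, single_dotProduct, mulVec_add, dotProduct_add,
    symm_dot hτ.1 q (Pi.single j z), single_dotProduct, Function.update_self, Pi.add_apply, hq,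
    Pi.single_eq_same, hz]
  field_simp
  ring

theorem mj_one_var {t : ℂ} (ht : 0 < t.im) (Q z a b : ℂ) :
    ∑' m : ℤ, ee (Q - (m + z) ^ 2 / t / 2 - (m + b) * a) =
      (-I * t) ^ (1 / 2 : ℂ) * ee (-(a * b)) *
        ∑' m : ℤ, ee (Q + (m + a) ^ 2 * t / 2 + (m + a) * z) := by
  have h0 : t ≠ 0 := fun h => by simp [h] at ht
  have h1 : (-I * t) ^ (1 / 2 : ℂ) ≠ 0 := by simp [h0]
  have e1 : ∑' m : ℤ, ee (Q - (m + z) ^ 2 / t / 2 - (m + b) * a) =
      ee (Q - z ^ 2 / t / 2 - b * a) * jacobiTheta₂ (-((z + a * t) / t)) (-1 / t) := by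
    rw [jacobiTheta₂, ← tsum_mul_left]
    refine tsum_congr fun m => ?_
    rw [jacobiTheta₂_term, ee, ee, ← exp_add]
    congr 1
    field_simp
    ring
  have e2 : ∑' m : ℤ, ee (Q + (m + a) ^ 2 * t / 2 + (m + a) * z) =
      ee (Q + a ^ 2 * t / 2 + a * z) * jacobiTheta₂ (z + a * t) t := by
    rw [jacobiTheta₂, ← tsum_mul_left]
    refine tsum_congr fun m => ?_
    rw [jacobiTheta₂_term, ee, ee, ← exp_add]
    congr 1
    ring
  have e3 : ee (Q - z ^ 2 / t / 2 - b * a) = ee (-(a * b)) * ee (Q + a ^ 2 * t / 2 + a * z) *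
      exp (-Real.pi * I * (z + a * t) ^ 2 / t) := by
    rw [ee, ee, ee, ← exp_add, ← exp_add]
    congr 1
    field_simp
    ring
  rw [e1, e2, jacobiTheta₂_neg_left, jacobiTheta₂_functional_equation (z + a * t) t, e3]
  field_simp

omit [Fintype ι] in
theorem mj_tsum_split (j : ι) {f : (ι → ℤ) → ℂ} (hf : Summable f) :
    ∑' n, f n = ∑' n : {i // i ≠ j} → ℤ, ∑' m : ℤ,
      f (Function.update ((Equiv.funSplitAt j ℤ).symm (0, n)) j m) := by
  let e := (Equiv.prodComm _ _).trans (Equiv.funSplitAt j ℤ).symm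
  refine (e.tsum_eq f).symm.trans ((e.summable_iff.2 hf).tsum_prod.trans ?_)
  refine tsum_congr fun n => tsum_congr fun m => congrArg f ?_
  funext i
  by_cases h : i = j
  · subst h
    simp [e]
  · simp [e, h]

theorem mj_inner_pinv {τ : Matrix ι ι ℂ} (hτ : InH τ) {j : ι} (ht : 0 < (τ j j).im)
    (x : ι ⊕ ι → ℝ) (N : ι → ℤ) :
    ∑' m : ℤ, term (act (mz (pinv j)) τ) (mz (pinv j) *ᵥ x) 0 (Function.update N j m) =
      (-I * τ j j) ^ (1 / 2 : ℂ) * ee (-(fa x j * fb x j)) *
        ∑' m : ℤ, term τ x 0 (Function.update N j m) := by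
  have h0 : τ j j ≠ 0 := fun h => by simp [h] at ht
  obtain ⟨q, hq⟩ : ∃ q, q = Function.update (cz N + fa x) j 0 := ⟨_, rfl⟩
  have hj : q j = 0 := by simp [hq]
  have e1 : ∀ m : ℤ, cz (Function.update N j m) + fa x = q + Pi.single j (m + fa x j) := fun m => by
    funext i
    by_cases h : i = j
    · subst h
      simp [hq, cz]
    · simp [hq, cz, h]
  have e2 : ∀ m : ℤ, cz (Function.update N j m) + fa (mz (pinv j) *ᵥ x) =
      q + Pi.single j (m + fb x j) := fun m => by
    funext i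
    by_cases h : i = j
    · subst h
      simp [hq, cz, fa, fb, mj_pinv_inl]
    · simp [hq, cz, fa, h, mj_pinv_inl]
  have e3 : q ⬝ᵥ fb (mz (pinv j) *ᵥ x) = q ⬝ᵥ fb x := Finset.sum_congr rfl fun i _ => by
    by_cases h : i = j
    · subst h
      simp [hj]
    · simp [fb, mj_pinv_inr, h]
  have e4 : fb (mz (pinv j) *ᵥ x) j = -fa x j := by simp [fa, fb, mj_pinv_inr]
  have key := mj_one_var ht (q ⬝ᵥ τ *ᵥ q / 2 + q ⬝ᵥ fb x) ((τ *ᵥ q) j + fb x j) (fa x j) (fb x j)
  convert key using 3 with m m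
  · rw [term, e2, mj_quad_pinv hτ h0 hj, zero_add, add_dotProduct, e3, single_dotProduct, e4]
    congr 1
    ring
  · funext m
    rw [term, e1, mj_quad_single hτ.1, zero_add, add_dotProduct, single_dotProduct]
    congr 1
    ring

/-- Write `Th` by `Th_eq`, split both series at `j` (`Equiv.piSplitAt` or `Equiv.funSplitAt`,
`Summable.tsum_prod`), the inner sums are `jacobiTheta₂`; `jacobiTheta₂_functional_equation`.
Here `k = 0`, `c ^ 2 = -I τ j j`, the determinant is `-τ j j`. -/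
theorem law_J (j : ι) : Law (pinv j) := by
  intro τ hτ
  have ht : 0 < (τ j j).im := hτ.2.diag_pos (i := j)
  have h0 : τ j j ≠ 0 := fun h => by simp [h] at ht
  refine ⟨0, (-I * τ j j) ^ (1 / 2 : ℂ), ?_, fun x => ?_⟩
  · have h2 : ((-I * τ j j) ^ (1 / 2 : ℂ)) ^ 2 = -I * τ j j := by
      rw [one_div]
      exact cpow_ofNat_inv_pow _ 2
    rw [mj_det_den_pinv, show 8 = 2 * 4 from rfl, pow_mul, h2]
    linear_combination (τ j j) ^ 4 * I_pow_four
  · have e : fa (mz (pinv j) *ᵥ x) ⬝ᵥ fb (mz (pinv j) *ᵥ x) =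
        fa x ⬝ᵥ fb x - 2 * (fa x j * fb x j) := by
      have : ∀ i, fa (mz (pinv j) *ᵥ x) i * fb (mz (pinv j) *ᵥ x) i =
          fa x i * fb x i - if i = j then 2 * (fa x j * fb x j) else 0 := fun i => by
        simp only [fa, fb, mj_pinv_inl, mj_pinv_inr]
        split_ifs with h
        · subst h
          push_cast
          ring
        · ring
      simp only [dotProduct, this, Finset.sum_sub_distrib, Finset.sum_ite_eq', Finset.mem_univ,
        if_true]
    have hz : hf (0 : ι ⊕ ι → ℤ) = 0 := by simp [hf]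
    rw [hz, U_zero, Th, Th, thc_eq, thc_eq,
      mj_tsum_split j (summable_norm_term (inH_act (mj_sim_pinv j) one_pos hτ) _ _).of_norm,
      mj_tsum_split j (summable_norm_term hτ _ _).of_norm]
    simp only [mj_inner_pinv hτ ht, tsum_mul_left]
    rw [e, ← mul_assoc, mul_left_comm (ee _), ← ee_add, mul_assoc]
    congr 3
    ring

end M4
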