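import Mathlib
import Pool.Agent.Lib.MP_33b3f9_ag.M4.ThModJ

/-!
The transformation law with its exact weight.
-/

set_option autoImplicit false

namespace M4

open Complex Matrix

variable {ι : Type} [Fintype ι] [DecidableEq ι] {τ : Matrix ι ι ℂ}

omit [DecidableEq ι] in
theorem thmod_mul (g h : Matrix (ι ⊕ ι) (ι ⊕ ι) ℤ) : mz (g * h) = mz g * mz h :=
  Matrix.map_mul (f := Int.castRingHom ℝ)

omit [DecidableEq ι] in
theorem thmod_rz (g : Matrix (ι ⊕ ι) (ι ⊕ ι) ℤ) (n : ι ⊕ ι → ℤ) : mz g *ᵥ rz n = rz (g *ᵥ n) := by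
  funext i
  simp [mz, rz, mulVec, dotProduct]

theorem thmod_U {g : Matrix (ι ⊕ ι) (ι ⊕ ι) ℤ} (hg : g ∈ symplecticGroup ι ℤ) (y : ι ⊕ ι → ℝ)
    (f : (ι ⊕ ι → ℝ) → ℂ) :
    U 1 y (fun x => f (mz g *ᵥ x)) = fun x => U 1 (mz g *ᵥ y) f (mz g *ᵥ x) := by
  have h := U_comp (mz g).mulVecLin (sim_mz_iff.2 hg) 1 y f
  rwa [mul_one] at h

/-- `U_comp`, `U_U`, `den_mul`, `act_mul`; the inverse of `h` is integral. -/
theorem Law.mul {g h : Matrix (ι ⊕ ι) (ι ⊕ ι) ℤ} (hg : g ∈ symplecticGroup ι ℤ)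
    (hh : h ∈ symplecticGroup ι ℤ) (h1 : Law g) (h2 : Law h) : Law (g * h) := by
  intro τ hτ
  have s1 := sim_mz_iff.2 hg
  have s2 := sim_mz_iff.2 hh
  have hτ' := inH_act s2 one_pos hτ
  have d2 := den_det_ne_zero s2 one_pos hτ
  obtain ⟨k2, c2, e2, l2⟩ := h2 τ hτ
  obtain ⟨k1, c1, e1, l1⟩ := h1 _ hτ'
  obtain ⟨k, rfl⟩ : ∃ k, k1 = h *ᵥ k := ⟨h⁻¹ *ᵥ k1, by
    rw [mulVec_mulVec, mul_nonsing_inv _ (SymplecticGroup.symplectic_det hh), one_mulVec]⟩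
  refine ⟨k + k2, c1 * c2 * ee ((1 : ℝ) * E (hf k2) (hf k) / 2), ?_, fun x => ?_⟩
  · obtain ⟨j, hj⟩ := E_rz k2 k
    have h3 : ee ((1 : ℝ) * E (hf k2) (hf k) / 2) ^ 8 = 1 := by
      rw [← ee_nat_mul, ← ee_int j, hf, hf, E_smul_left, E_smul_right, hj]
      congr 1
      push_cast
      ring
    rw [mul_pow, mul_pow, h3, e1, e2, thmod_mul, den_mul d2, det_mul, mul_pow, mul_one]
  · have h3 := congrFun (thmod_U hh (hf k) (Th (act (mz h) τ))) x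
    have h4 : (fun x => Th (act (mz h) τ) (mz h *ᵥ x)) = c2 • U 1 (hf k2) (Th τ) := funext l2
    have h5 : mz h *ᵥ hf k = hf (h *ᵥ k) := by rw [hf, mulVec_smul, thmod_rz, hf]
    rw [h4, U_smul, U_U, h5, ← hf_add] at h3
    rw [thmod_mul, act_mul d2 (den_det_ne_zero s1 one_pos hτ'), ← mulVec_mulVec, l1, ← h3]
    simp only [Pi.smul_apply, smul_eq_mul, mul_assoc]

theorem law_of_mem {g : Matrix (ι ⊕ ι) (ι ⊕ ι) ℤ} (hg : g ∈ symplecticGroup ι ℤ) : Law g := by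
  refine (sp_induction (P := fun g => g ∈ symplecticGroup ι ℤ ∧ Law g)
    (fun g h a b => ⟨mul_mem a.1 b.1, Law.mul a.1 b.1 a.2 b.2⟩)
    (fun C hC => ⟨SymplecticGroup.fromBlocks_mem_iff.2 ?_, law_T hC⟩)
    (fun A D h => ⟨SymplecticGroup.fromBlocks_mem_iff.2 ?_, law_D h⟩)
    (fun j => ⟨SymplecticGroup.fromBlocks_mem_iff.2 ?_, law_J j⟩) hg).2
  · simp [hC.eq]
  · simp [h]
  · simp [Matrix.mul_sub, Matrix.sub_mul, single_mul_single_same]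

/-- If `g` preserves the sign character then no shift occurs (`linearIndependent_Gam` is not
needed: compare `U 1 (rz n)` on both sides, `exists_rz_of_E`, `U_rz_Th`). -/
theorem law_of_chi {g : Matrix (ι ⊕ ι) (ι ⊕ ι) ℤ} (hg : g ∈ symplecticGroup ι ℤ)
    (hc : ∀ n, chi (g *ᵥ n) = chi n) (hτ : InH τ) : ∃ c : ℂ, c ^ 8 = (den (mz g) τ).det ^ 4 ∧
      ∀ x, Th (act (mz g) τ) (mz g *ᵥ x) = c * Th τ x := by
  obtain ⟨k, c, e, l⟩ := law_of_mem hg τ hτ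
  have h4 : (fun x => Th (act (mz g) τ) (mz g *ᵥ x)) = c • U 1 (hf k) (Th τ) := funext l
  have hc0 : c ≠ 0 := by
    rintro rfl
    exact pow_ne_zero 4 (den_det_ne_zero (sim_mz_iff.2 hg) one_pos hτ) (by simpa using e.symm)
  obtain ⟨n, hn⟩ := exists_rz_of_E (d := hf k) fun n => by
    have h3 := thmod_U hg (rz n) (Th (act (mz g) τ))
    rw [thmod_rz, U_rz_Th, hc, h4, U_smul, U_comm, U_rz_Th, U_smul] at h3
    obtain ⟨x, hx⟩ := Function.ne_iff.1 (U_eq_zero (m := 1) (y := hf k).not.2 (Th_ne_zero hτ))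
    have h5 := congrFun h3 x
    simp only [Pi.smul_apply, smul_eq_mul, l, ofReal_one, one_mul] at h5
    refine mul_left_cancel₀ (mul_ne_zero (mul_ne_zero hc0 (chi_ne_zero n)) hx) ?_
    linear_combination h5
  refine ⟨c * chi n, ?_, fun x => ?_⟩
  · rw [mul_pow, e, show 8 = 2 * 4 from rfl, pow_mul, chi_sq, one_pow, mul_one]
  · rw [l, hn, U_rz_Th, Pi.smul_apply, smul_eq_mul, mul_assoc]

end M4
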