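import Mathlib
import Pool.Agent.Lib.MP_33b3f9_ag.M4.ThBpf
import Pool.Agent.Lib.MP_33b3f9_ag.M4.ThLio
import Pool.Agent.Lib.MP_33b3f9_ag.M4.ThAct2
import Pool.Agent.Lib.MP_33b3f9_ag.M4.ThMod

/-!
Corollaries: bounds for theta functions, uniqueness after transport.
-/

set_option autoImplicit false

namespace M4

open Complex Matrix

open MeasureTheory

variable {ι : Type} [Fintype ι] {τ τ' : Matrix ι ι ℂ}

theorem chi_add_two (n k : ι ⊕ ι → ℤ) : chi (n + (2 : ℤ) • k) = chi n := by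
  have : ∑ i, (n + (2 : ℤ) • k) (Sum.inl i) * (n + (2 : ℤ) • k) (Sum.inr i) =
      ∑ i, n (Sum.inl i) * n (Sum.inr i) + 2 * ∑ i, (n (Sum.inl i) * k (Sum.inr i) +
        k (Sum.inl i) * n (Sum.inr i) + 2 * (k (Sum.inl i) * k (Sum.inr i))) := by
    rw [Finset.mul_sum, ← Finset.sum_add_distrib]
    exact Finset.sum_congr rfl fun i _ => by simp; ring
  rw [chi, chi, this, zpow_add₀ (by norm_num), _root_.zpow_mul]
  norm_num

/-- The transformation law on the congruence subgroup of level two. -/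
theorem law_of_even [DecidableEq ι] {g : Matrix (ι ⊕ ι) (ι ⊕ ι) ℤ} (hg : g ∈ symplecticGroup ι ℤ)
    (h2 : ∀ i j, (2 : ℤ) ∣ (g - 1) i j) (hτ : InH τ) :
    ∃ c : ℂ, c ^ 8 = (den (mz g) τ).det ^ 4 ∧ ∀ x, Th (act (mz g) τ) (mz g *ᵥ x) = c * Th τ x := by
  choose b hb using h2
  refine law_of_chi hg (fun n => ?_) hτ
  have : g = 1 + (2 : ℤ) • Matrix.of b := by
    ext i j
    have := hb i j
    simp only [Matrix.sub_apply] at this
    simp only [Matrix.add_apply, Matrix.smul_apply, of_apply, smul_eq_mul]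
    linarith
  rw [this, add_mulVec, one_mulVec, smul_mulVec, chi_add_two]

theorem exists_null_ne_zero (hτ : InH τ) : ∃ e : ι ⊕ ι → Fin 2, Th τ (hf (bz e)) ≠ 0 := by
  simpa only [XX_zero] using XX_bpf hτ 0

/-- Uniqueness after transport. -/
theorem eq_Th_comp [DecidableEq ι] (hτ : InH τ) (hτ' : InH τ') {g : Matrix (ι ⊕ ι) (ι ⊕ ι) ℝ}
    {m : ℝ} (hm : 0 < m) (hg : Sim g m) (hr : Rel g τ τ') {f : (ι ⊕ ι → ℝ) → ℂ}
    (hf : f ∈ Hol τ m) (hU : ∀ (n : ι ⊕ ι → ℤ) l, g *ᵥ l = rz n → U m l f = chi n • f) :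
    ∃ c : ℂ, ∀ x, f x = c * Th τ' (g *ᵥ x) := by
  have hd : IsUnit g.det := (hg.det_ne_zero hm.ne').isUnit
  have hi := hg.inv hm.ne'
  have hm' := inv_pos.2 hm
  have e1 : τ' = act g τ := (rel_iff_eq_act (den_det_ne_zero hg hm hτ)).1 hr
  have e2 : act g⁻¹ τ' = τ := by
    rw [e1, ← act_mul (den_det_ne_zero hg hm hτ) (den_det_ne_zero hi hm' (inH_act hg hm hτ)),
      nonsing_inv_mul _ hd, act_one]
  have hr' : Rel g⁻¹ τ' τ := by simpa only [e2] using rel_act hi hm' hτ'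
  have h1 := Hol.comp_rel hτ'.1 hτ.1 hi hr' hf
  rw [mul_inv_cancel₀ hm.ne'] at h1
  have h2 : (fun x => f (g⁻¹ *ᵥ x)) ∈ Gam τ' 1 0 := by
    refine ⟨by simpa using h1, fun n => ?_⟩
    have h3 := U_comp (Matrix.mulVecLin g⁻¹) hi m (rz n) f
    rw [mul_inv_cancel₀ hm.ne', mulVecLin_apply,
      hU n _ (by rw [mulVec_mulVec, mul_nonsing_inv _ hd, one_mulVec])] at h3
    simp only [Nat.cast_one, pow_one, E_zero_left, ofReal_zero, ee_zero, mul_one]
    exact h3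
  obtain ⟨c, hc⟩ := Gam_one hτ' h2
  refine ⟨c, fun x => ?_⟩
  have := congrFun hc (g *ᵥ x)
  rwa [mulVec_mulVec, nonsing_inv_mul _ hd, one_mulVec, U_zero] at this

theorem norm_XX (τ : Matrix ι ι ℂ) (k : ι ⊕ ι → ℤ) (x : ι ⊕ ι → ℝ) :
    ‖XX τ k x‖ = ‖Th τ ((2 : ℝ) • x + hf k)‖ := by
  have e : (((1 : ℝ) : ℂ) * E (hf k) ((2 : ℝ) • x) / 2) = ((E (hf k) ((2 : ℝ) • x) / 2 : ℝ) : ℂ) := by
    push_cast; ring
  rw [XX, U_apply, e, norm_mul, norm_ee_real, one_mul]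

theorem norm_null_le {N : ℝ} (hN : ∀ e : ι ⊕ ι → Fin 2, ‖Th τ (hf (bz e))‖ ≤ N) (k : ι ⊕ ι → ℤ) :
    ‖Th τ (hf k)‖ ≤ N := by
  obtain ⟨e, n, rfl⟩ := exists_bz k
  have h := congrArg norm (congrFun (U_rz_Th τ n) (hf (bz e)))
  have e' : (((1 : ℝ) : ℂ) * E (rz n) (hf (bz e)) / 2) = ((E (rz n) (hf (bz e)) / 2 : ℝ) : ℂ) := by
    push_cast; ring
  rw [U_apply, e', norm_mul, norm_ee_real, one_mul, Pi.smul_apply, norm_smul, norm_chi,
    one_mul] at h
  rw [hf_add, hf_two, h]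
  exact hN e

/-- The theta function is bounded by the theta constants. -/
theorem norm_Th_le_null (hτ : InH τ) {N : ℝ}
    (hN : ∀ e : ι ⊕ ι → Fin 2, ‖Th τ (hf (bz e))‖ ≤ N) (x : ι ⊕ ι → ℝ) :
    ‖Th τ x‖ ^ 3 ≤ 2 ^ Fintype.card ι * N ^ 3 := by
  classical
  obtain ⟨C, hC⟩ := Gam.bounded (Th_mem hτ)
  have hb : BddAbove (Set.range fun x => ‖Th τ x‖) := ⟨C, by rintro _ ⟨x, rfl⟩; exact hC x⟩
  set M := ⨆ x, ‖Th τ x‖ with hM
  have h1 : ∀ x, ‖Th τ x‖ ≤ M := le_ciSup hb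
  have hM0 : 0 ≤ M := (norm_nonneg _).trans (h1 0)
  have hN0 : 0 ≤ N := (norm_nonneg _).trans (hN 0)
  have h2 : ∀ x, ‖Th τ x‖ ^ 4 ≤ 2 ^ Fintype.card ι * (M * N ^ 3) := fun x => by
    have h := congrArg norm (XX_dup hτ (i := 0) (j := 0) (k := 0) (l := 0) (s := 0) (by simp)
      ((1 / 2 : ℝ) • x))
    have e : ‖XX τ 0 ((1 / 2 : ℝ) • x)‖ = ‖Th τ x‖ := by
      rw [norm_XX, smul_smul]
      simp [hf]
    simp only [norm_mul, norm_pow, Complex.norm_ofNat, e] at h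
    have h3 := h.trans_le ((norm_sum_le _ _).trans (Finset.sum_le_card_nsmul _ _ (M * N ^ 3)
      fun e _ => by
        simp only [norm_mul, norm_chi, norm_ee_real, one_mul, norm_XX]
        calc _ ≤ M * N * N * N := by gcongr <;> first | exact h1 _ | exact norm_null_le hN _
          _ = _ := by ring))
    simp only [Finset.card_univ, Fintype.card_fun, Fintype.card_fin, Fintype.card_sum,
      nsmul_eq_mul] at h3
    push_cast at h3
    rw [pow_add, mul_assoc (2 ^ _ : ℝ) (2 ^ _)] at h3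
    have := le_of_mul_le_mul_left h3 (by positivity)
    linarith
  have h4 : M ^ 4 ≤ 2 ^ Fintype.card ι * (M * N ^ 3) := by
    have : M ≤ (2 ^ Fintype.card ι * (M * N ^ 3)) ^ ((4 : ℕ) : ℝ)⁻¹ := ciSup_le fun x =>
      (Real.le_rpow_inv_iff_of_pos (norm_nonneg _) (by positivity) (by norm_num)).2
        (by simpa using h2 x)
    have := (Real.le_rpow_inv_iff_of_pos hM0 (by positivity) (by norm_num)).1 this
    simpa using this
  rcases hM0.eq_or_lt with h0 | h0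
  · have : ‖Th τ x‖ = 0 := le_antisymm (h0 ▸ h1 x) (norm_nonneg _)
    rw [this, zero_pow three_ne_zero]
    positivity
  · refine (pow_le_pow_left₀ (norm_nonneg _) (h1 x) 3).trans (le_of_mul_le_mul_left ?_ h0)
    linarith

/-- A universal lower bound for the theta constants. -/
theorem null_low (hτ : InH τ) :
    ∃ e : ι ⊕ ι → Fin 2, 1 ≤ 2 ^ Fintype.card ι * ‖Th τ (hf (bz e))‖ ^ 3 := by
  classical
  obtain ⟨e, he⟩ := Finite.exists_max fun e : ι ⊕ ι → Fin 2 => ‖Th τ (hf (bz e))‖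
  refine ⟨e, ?_⟩
  by_contra hlt
  obtain ⟨r, hr0, hr, hr1⟩ : ∃ r : ℝ, 0 ≤ r ∧ (∀ x, ‖Th τ x‖ ≤ r) ∧ r < 1 := by
    refine ⟨(2 ^ Fintype.card ι * ‖Th τ (hf (bz e))‖ ^ 3) ^ ((3 : ℕ) : ℝ)⁻¹, by positivity,
      fun x => (Real.le_rpow_inv_iff_of_pos (norm_nonneg _) (by positivity) (by norm_num)).2
        (by simpa using norm_Th_le_null hτ he x), ?_⟩
    exact Real.rpow_lt_one (by positivity) (not_le.1 hlt) (by norm_num)
  have hv : volume (Set.pi Set.univ fun _ : ι => Set.Ioc (0 : ℝ) 1) = 1 := by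
    simp [volume_pi_pi]
  have h := norm_setIntegral_le_of_norm_le_const (μ := volume)
    (s := Set.pi Set.univ fun _ : ι => Set.Ioc (0 : ℝ) 1)
    (f := fun t => ee (-(cz (0 : ι → ℤ) ⬝ᵥ rc t)) * thc τ 0 (rc t)) (C := r)
    (by rw [hv]; simp) fun t _ => by
      have h1 : fa (ib t) = 0 := by funext i; simp [fa, ib]
      have h2 : per τ (ib t) = rc t := by rw [per, h1, mulVec_zero, zero_add]; rfl
      have := hr (ib t)
      rw [Th_eq hτ.1, h1, h2] at this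
      simpa using this
  have h1 := coef_thc hτ
  rw [coef] at h1
  rw [h1, norm_one, Measure.real, hv] at h
  simp at h
  linarith

/-- Uniform bound where the imaginary part is bounded below. -/
theorem norm_Th_bound {c : ℝ} (hc : 0 < c) : ∃ C : ℝ, ∀ τ : Matrix ι ι ℂ, InH τ →
    (∀ v : ι → ℝ, c * (v ⬝ᵥ v) ≤ v ⬝ᵥ τ.map im *ᵥ v) → ∀ x, ‖Th τ x‖ ≤ C := by
  classical
  have h1 := (summable_pow_mul_jacobiTheta₂_term_bound 0 (T := c / 2) (by positivity) 0).mul_left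
    (Real.exp (Real.pi * c))
  have h2 := Pool.Agent.Lib.MP_07b2d0_nt.Sch.summable_pi (ι := ι) h1 fun n => by positivity
  obtain ⟨C, hC⟩ : ∃ C, HasSum _ C := h2
  refine ⟨C, fun τ hτ hv x => ?_⟩
  · have e : x = (fun i => Int.fract (x i)) + rz fun i => ⌊x i⌋ := by funext i; simp [rz]
    rw [e, Gam.norm_add_rz (Th_mem hτ)]
    refine (norm_Th_le hτ _).trans (hasSum_le (fun n => ?_) (Summable.hasSum ?_) hC)
    · simp only [pow_zero, one_mul, mul_zero, zero_mul, sub_zero, ← Real.exp_add, ← Real.exp_sum]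
      rw [Real.exp_le_exp]
      have h3 := hv (rz n + (fun i => Int.fract (x i)) ∘ Sum.inl)
      have h4 : ∑ i, ((n i : ℝ) ^ 2 / 2 - 1) ≤ (rz n + (fun i => Int.fract (x i)) ∘ Sum.inl) ⬝ᵥ
          (rz n + (fun i => Int.fract (x i)) ∘ Sum.inl) := Finset.sum_le_sum fun i _ => by
        have a0 := Int.fract_nonneg (x (Sum.inl i))
        have a1 := Int.fract_lt_one (x (Sum.inl i))
        simp only [rz, Pi.add_apply, Function.comp]
        nlinarith [sq_nonneg ((n i : ℝ) + 2 * Int.fract (x (Sum.inl i)))]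
      have h5 : ∑ i, (Real.pi * c + -Real.pi * (c / 2 * (n i : ℝ) ^ 2)) =
          -Real.pi * (c * ∑ i, ((n i : ℝ) ^ 2 / 2 - 1)) := by
        rw [Finset.mul_sum, Finset.mul_sum]
        exact Finset.sum_congr rfl fun i _ => by ring
      rw [h5]
      have := (mul_le_mul_of_nonneg_left h4 hc.le).trans h3
      nlinarith [Real.pi_pos]
    · simpa only [norm_term_zero] using summable_norm_term hτ (fun i => Int.fract (x i)) 0

end M4
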