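import Pool.Agent.Lib.MP_33b3f9_ag.M4.ModIf

/-!
Congruence subgroups and their action on the theta null point.
-/

set_option autoImplicit false

namespace M4.Mo

open Complex Matrix

variable {ι : Type} [Fintype ι] {N : ℕ} {τ τ' : Matrix ι ι ℂ}

theorem modGam_ee_pow (t : ℂ) (k : ℕ) : ee t ^ k = ee (k * t) := by
  rw [ee, ee, ← Complex.exp_nat_mul, mul_left_comm]

theorem modGam_chi_sq (n : ι ⊕ ι → ℤ) : chi n ^ 2 = 1 := by
  rw [chi, pow_two, ← mul_zpow]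
  simp

theorem modGam_qv_add {κ : Type} [NeZero N] (a n : κ → ℤ) :
    qv N (a + (N : ℤ) • n) = qv N a + rz n := by
  have h : (N : ℝ) ≠ 0 := Nat.cast_ne_zero.2 (NeZero.ne N)
  rw [qv, qv, rz_add, rz_smul, smul_add, smul_smul, Int.cast_natCast, one_div_mul_cancel h,
    one_smul]

omit [Fintype ι] in
theorem modGam_qv_hf [NeZero N] (hN : 2 ∣ N) (a k : ι ⊕ ι → ℤ) :
    qv N (a + ((N / 2 : ℕ) : ℤ) • k) = qv N a + hf k := by
  have h : (N : ℝ) ≠ 0 := Nat.cast_ne_zero.2 (NeZero.ne N)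
  rw [qv, qv, hf, rz_add, rz_smul, smul_add, smul_smul, Int.cast_natCast,
    Nat.cast_div hN (by norm_num)]
  congr 2
  push_cast
  field_simp

theorem modGam_rm_qv {κ : Type} [Fintype κ] (g : Matrix κ κ ℤ) (y : κ → ℤ) :
    rm g *ᵥ qv N y = qv N (g *ᵥ y) := by
  rw [qv, qv, mulVec_smul, rm_mulVec]

/-- Every theta constant of level `N` is a coordinate of `thN` times a root of unity. Proof. Write
`y = fz e + N • n` (division with remainder), `Th_add_rz`. -/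
theorem Th_qv [NeZero N] (y : ι ⊕ ι → ℤ) : ∃ (e : ι ⊕ ι → Fin N) (n : ι ⊕ ι → ℤ) (u : ℂ),
    y = fz e + (N : ℤ) • n ∧ u ^ (2 * N) = 1 ∧
      ∀ τ : Matrix ι ι ℂ, InH τ → Th τ (qv N y) = u * thN N τ e := by
  have h0 : (0 : ℤ) < N := Int.natCast_pos.2 (NeZero.pos N)
  have hN : (N : ℂ) ≠ 0 := Nat.cast_ne_zero.2 (NeZero.ne N)
  let e : ι ⊕ ι → Fin N := fun i => ⟨(y i % N).toNat, by
    have h1 := Int.emod_lt_of_pos (y i) h0
    have h2 := Int.emod_nonneg (y i) h0.ne'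
    omega⟩
  have hy : y = fz e + (N : ℤ) • fun i => y i / N := by
    funext i
    change y i = ((y i % N).toNat : ℤ) + N * (y i / N)
    rw [Int.toNat_of_nonneg (Int.emod_nonneg (y i) h0.ne'), Int.emod_add_mul_ediv]
  generalize (fun i => y i / N) = n at hy
  refine ⟨e, n, chi n * ee (E (qv N (fz e)) (rz n) / 2), hy, ?_, fun τ hτ => ?_⟩
  · rw [mul_pow, pow_mul, modGam_chi_sq, one_pow, one_mul, modGam_ee_pow, qv, E_smul_left, E_rz,
      ← ee_int (EZ (fz e) n)]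
    congr 1
    push_cast
    field_simp
  · rw [hy, modGam_qv_add, Th_add_rz hτ]
    rfl

theorem thN_smul_iff [NeZero N] (hτ : InH τ) (hτ' : InH τ') {c : ℂ} :
    thN N τ' = c • thN N τ ↔ ∀ y, Th τ' (qv N y) = c * Th τ (qv N y) := by
  refine ⟨fun h y => ?_, fun h => funext fun e => h (fz e)⟩
  obtain ⟨e, n, u, -, -, h1⟩ := Th_qv (N := N) y
  rw [h1 τ' hτ', h1 τ hτ, h, Pi.smul_apply, smul_eq_mul, mul_left_comm]

/-- `bpf` at `0`, `hf k = qv N ((N / 2) • k)`. -/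
theorem thN_ne_zero [NeZero N] (hN : 2 ∣ N) (hτ : InH τ) : thN N τ ≠ 0 := by
  intro h
  obtain ⟨k, hk⟩ := bpf hτ (qv N 0)
  obtain ⟨e, n, u, -, -, h1⟩ := Th_qv (N := N) (0 + ((N / 2 : ℕ) : ℤ) • k)
  apply hk
  rw [← modGam_qv_hf hN, h1 τ hτ, h, Pi.zero_apply, mul_zero]

theorem continuousOn_thN (N : ℕ) :
    ContinuousOn (fun σ : ι → ι → ℂ => thN N σ) {σ | InH σ} := by
  refine continuousOn_pi.2 fun e => ?_
  exact continuousOn_Th.comp (f := fun σ : ι → ι → ℂ => (σ, qv N (fz e)))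
    (continuous_id.prodMk continuous_const).continuousOn fun σ hσ => hσ

theorem differentiableAt_thN (N : ℕ) {τ : ι → ι → ℂ} (hτ : InH τ) :
    DifferentiableAt ℂ (fun σ : ι → ι → ℂ => thN N σ) τ := by
  exact differentiableAt_pi.2 fun e => differentiableAt_Th hτ (qv N (fz e))

variable [DecidableEq ι]

theorem GamP_anti {M M' : ℕ} (h : M ∣ M') : GamP ι M' ≤ GamP ι M := by
  rintro γ ⟨β, hβ⟩
  obtain ⟨c, rfl⟩ := h
  exact ⟨(c : ℤ) • β, by rw [hβ, smul_smul, Nat.cast_mul]⟩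

theorem GamN_le : GamN ι N ≤ GamP ι (2 * N) := by
  rintro γ ⟨β, hβ, -⟩
  exact ⟨β, by rw [hβ, Nat.cast_mul, Nat.cast_ofNat]⟩

theorem le_GamN : GamP ι (2 * N ^ 2) ≤ GamN ι N := by
  rintro γ ⟨β, hβ⟩
  refine ⟨(N : ℤ) • β, ?_, fun y => ?_⟩
  · rw [hβ, smul_smul]
    congr 2
    push_cast
    ring
  · rw [smul_mulVec, EZ_smul_left]
    exact Dvd.intro _ rfl

theorem modGam_conj {γ : SpZ ι} {c : ℤ} {β : Matrix (ι ⊕ ι) (ι ⊕ ι) ℤ} (h : γ.1 = 1 + c • β)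
    (δ : SpZ ι) : (δ * γ * δ⁻¹).1 = 1 + c • (δ.1 * β * (δ⁻¹).1) := by
  have h1 : δ.1 * (δ⁻¹).1 = 1 := congrArg Subtype.val (mul_inv_cancel δ)
  change δ.1 * γ.1 * (δ⁻¹).1 = _
  rw [h, mul_add, add_mul, mul_one, h1, Matrix.mul_smul, Matrix.smul_mul]

theorem modGam_inv (δ : SpZ ι) (y : ι ⊕ ι → ℤ) : δ.1 *ᵥ (δ⁻¹).1 *ᵥ y = y := by
  have h1 : δ.1 * (δ⁻¹).1 = 1 := congrArg Subtype.val (mul_inv_cancel δ)
  rw [mulVec_mulVec, h1, one_mulVec]

instance GamP_normal (M : ℕ) : (GamP ι M).Normal := by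
  refine ⟨?_⟩
  rintro γ ⟨β, hβ⟩ δ
  exact ⟨_, modGam_conj hβ δ⟩

/-- `EZ (δ β δ⁻¹ y) y = EZ (β w) w` for `w = δ⁻¹ y` (`EZ_sp`). -/
instance GamN_normal (N : ℕ) : (GamN ι N).Normal := by
  refine ⟨?_⟩
  rintro γ ⟨β, hβ, h⟩ δ
  refine ⟨_, modGam_conj hβ δ, fun y => ?_⟩
  have h1 := h ((δ⁻¹).1 *ᵥ y)
  rwa [← EZ_sp δ, modGam_inv, mulVec_mulVec, mulVec_mulVec] at h1

/-- Proof. `GamP ι M` is the kernel of the reduction to the symplectic group over `ZMod M`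
(`SymplecticGroup.map_mem`), which injects into the matrices over `ZMod M`. -/
theorem index_GamP (M : ℕ) [NeZero M] :
    (GamP ι M).index ≠ 0 ∧ (GamP ι M).index ≤ M ^ (Fintype.card (ι ⊕ ι) ^ 2) := by
  let f : SpZ ι →* Matrix (ι ⊕ ι) (ι ⊕ ι) (ZMod M) :=
    (Int.castRingHom (ZMod M)).mapMatrix.toMonoidHom.comp (Matrix.symplecticGroup ι ℤ).subtype
  have h1 : GamP ι M = f.toHomUnits.ker := by
    ext γ
    have h2 : γ ∈ f.toHomUnits.ker ↔ ∀ i j, (M : ℤ) ∣ γ.1 i j - (1 : Matrix _ _ ℤ) i j := by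
      rw [MonoidHom.mem_ker, Units.ext_iff, ← Matrix.ext_iff]
      refine forall_congr' fun i => forall_congr' fun j => ?_
      rw [← ZMod.intCast_eq_intCast_iff_dvd_sub, eq_comm]
      have h3 : (((1 : Matrix _ _ ℤ) i j : ℤ) : ZMod M) = (1 : Matrix _ _ (ZMod M)) i j := by
        simp [Matrix.one_apply]
      rw [h3]
      rfl
    rw [h2]
    constructor
    · rintro ⟨β, hβ⟩ i j
      exact ⟨β i j, by rw [hβ, Matrix.add_apply, add_sub_cancel_left, Matrix.smul_apply, smul_eq_mul]⟩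
    · intro h
      choose β hβ using h
      refine ⟨Matrix.of β, Matrix.ext fun i j => ?_⟩
      rw [Matrix.add_apply, Matrix.smul_apply, smul_eq_mul, Matrix.of_apply, ← hβ, add_sub_cancel]
  have h4 : Function.Injective fun g : f.toHomUnits.range =>
      (g.1.1 : Matrix (ι ⊕ ι) (ι ⊕ ι) (ZMod M)) := Units.val_injective.comp Subtype.val_injective
  have h5 : Finite f.toHomUnits.range := Finite.of_injective _ h4
  rw [h1, Subgroup.index_ker]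
  refine ⟨Nat.card_pos.ne', (Nat.card_le_card_of_injective _ h4).trans_eq ?_⟩
  change Nat.card (ι ⊕ ι → ι ⊕ ι → ZMod M) = _
  rw [Nat.card_fun, Nat.card_fun, Nat.card_zmod, Nat.card_eq_fintype_card, ← pow_mul, pow_two]

instance GamP_finiteIndex (M : ℕ) [NeZero M] : (GamP ι M).FiniteIndex := ⟨(index_GamP M).1⟩

instance GamN_finiteIndex (N : ℕ) [NeZero N] : (GamN ι N).FiniteIndex := by
  have : NeZero (2 * N ^ 2) := ⟨mul_ne_zero two_ne_zero (pow_ne_zero 2 (NeZero.ne N))⟩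
  exact Subgroup.finiteIndex_of_le le_GamN

/-- Proof. `transport_two`; for `γ = 1 + 2 N β` one has `γ (y / N) = y / N + 2 β y`, and
`Th_add_rz` gives the factor `chi (2 β y) * ee (EZ y (β y) / N) = 1`. -/
theorem thN_act [NeZero N] {γ : SpZ ι} (hγ : γ ∈ GamN ι N) (hτ : InH τ) :
    ∃ c : ℂ, c ≠ 0 ∧ (∀ x, Th (actZ γ τ) (rm γ.1 *ᵥ x) = c * Th τ x) ∧
      thN N (actZ γ τ) = c • thN N τ := by
  obtain ⟨c, hc, h⟩ := transport_two (GamP_anti (Dvd.intro N rfl) (GamN_le hγ)) hτ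
  refine ⟨c, hc, h, funext fun e => ?_⟩
  obtain ⟨β, hβ, h1⟩ := hγ
  obtain ⟨m, hm⟩ := h1 (fz e)
  have hN : (N : ℂ) ≠ 0 := Nat.cast_ne_zero.2 (NeZero.ne N)
  have h2 := h (qv N (fz e))
  have h3 : γ.1 *ᵥ fz e = fz e + (N : ℤ) • (2 : ℤ) • β *ᵥ fz e := by
    rw [hβ, add_mulVec, one_mulVec, smul_mulVec, smul_smul, mul_comm]
  have h4 : ee (E (qv N (fz e)) (rz ((2 : ℤ) • β *ᵥ fz e)) / 2) = 1 := by
    rw [qv, E_smul_left, E_rz, EZ_smul_right, EZ_comm, hm, ← ee_int (-m)]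
    congr 1
    push_cast
    field_simp
  rw [modGam_rm_qv, h3, modGam_qv_add, Th_add_rz (inH_actZ γ hτ), chi_even, h4, one_mul,
    one_mul] at h2
  exact h2

/-- The symplectic group acts by monomial matrices. Proof. `transport` at `x = γ⁻¹ (e / N)`, which
is `y / N` with `y = γ⁻¹ e`; `x + hf k = (y + (N / 2) k) / N`; `Th_qv`. For injectivity of `π`:
`π e` determines `γ⁻¹ e` modulo `N`, hence `e` modulo `N`. -/
theorem thN_monomial [NeZero N] (hN : 2 ∣ N) (γ : SpZ ι) :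
    ∃ (π : Equiv.Perm (ι ⊕ ι → Fin N)) (u : (ι ⊕ ι → Fin N) → ℂ) (k : ι ⊕ ι → ℤ),
      (∀ e, u e ^ (4 * N) = 1) ∧
      (∀ e, ∃ n, (γ⁻¹).1 *ᵥ fz e + ((N / 2 : ℕ) : ℤ) • k = fz (π e) + (N : ℤ) • n) ∧
      ∀ τ : Matrix ι ι ℂ, InH τ → ∃ c : ℂ, c ≠ 0 ∧
        ∀ e, thN N (actZ γ τ) e = c * (u e * thN N τ (π e)) := by
  obtain ⟨k, hk⟩ := transport γ
  have hN' : (N : ℂ) ≠ 0 := Nat.cast_ne_zero.2 (NeZero.ne N)
  choose p n u h1 h2 h3 using fun e : ι ⊕ ι → Fin N =>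
    Th_qv (N := N) ((γ⁻¹).1 *ᵥ fz e + ((N / 2 : ℕ) : ℤ) • k)
  have hp : Function.Injective p := fun e e' h => by
    have h4 : (γ⁻¹).1 *ᵥ fz e' = (γ⁻¹).1 *ᵥ fz e + (N : ℤ) • (n e' - n e) := by
      have h5 := h1 e
      rw [h] at h5
      rw [eq_sub_of_add_eq h5, eq_sub_of_add_eq (h1 e'), smul_sub]
      abel
    have h6 := congrArg (γ.1 *ᵥ ·) h4
    simp only [mulVec_add, mulVec_smul, modGam_inv] at h6
    funext i
    have h7 : ((e' i : ℕ) : ℤ) = ((e i : ℕ) : ℤ) + N * (γ.1 *ᵥ (n e' - n e)) i := congrFun h6 i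
    have h8 : (e i : ℕ) ≡ e' i [MOD N] := (Nat.modEq_iff_dvd).2 ⟨_, by rw [h7, add_sub_cancel_left]⟩
    exact Fin.ext (h8.eq_of_lt_of_lt (e i).2 (e' i).2)
  refine ⟨Equiv.ofBijective p (Finite.injective_iff_bijective.1 hp),
    fun e => ee ((1 : ℝ) * E (hf k) (qv N ((γ⁻¹).1 *ᵥ fz e)) / 2) * u e, k, fun e => ?_,
    fun e => ⟨n e, h1 e⟩, fun τ hτ => ?_⟩
  · beta_reduce
    rw [mul_pow, show 4 * N = 2 * N * 2 by ring, pow_mul (u e), h2, one_pow, mul_one, modGam_ee_pow,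
      qv, hf, E_smul_left, E_smul_right, E_rz, ← ee_int (EZ k ((γ⁻¹).1 *ᵥ fz e))]
    congr 1
    push_cast
    field_simp
  · obtain ⟨c, hc, h4⟩ := hk τ hτ
    refine ⟨c, hc, fun e => ?_⟩
    have h5 := h4 (qv N ((γ⁻¹).1 *ᵥ fz e))
    rw [modGam_rm_qv, modGam_inv, U, ← modGam_qv_hf hN, h3 e τ hτ, ← mul_assoc (ee _)] at h5
    exact h5

end M4.Mo
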