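import Pool.Agent.Lib.MP_33b3f9_ag.M4.ModHalf

/-!
The linear map between the two tori is symplectic.
-/

set_option autoImplicit false

namespace M4.Mo

open Complex Matrix

variable {ι : Type} [Fintype ι] {τ τ' : Matrix ι ι ℂ}

theorem modSym_pow {V : Type} [AddCommGroup V] [Module ℝ V] (ν : V → ℂ) (h0 : ν 0 = 1)
    (hne : ∀ x, ν x ≠ 0) (hq : ∀ x y, ν (x + y) * ν (x - y) = ν x ^ 2 * ν y ^ 2) (x y : V) (k : ℕ) :
    ν ((k : ℝ) • x + y) / (ν ((k : ℝ) • x) * ν y) = (ν (x + y) / (ν x * ν y)) ^ k ∧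
      ν ((k : ℝ) • x + x + y) / (ν ((k : ℝ) • x + x) * ν y) =
        (ν (x + y) / (ν x * ν y)) ^ (k + 1) := by
  induction k with
  | zero => simp [h0, hne]
  | succ k ih =>
    rw [Nat.cast_succ, add_smul, one_smul]
    refine ⟨ih.2, ?_⟩
    have h1 := hq ((k : ℝ) • x + x + y) x
    have h2 := hq ((k : ℝ) • x + x) x
    rw [add_right_comm _ y, show (k : ℝ) • x + x + y - x = (k : ℝ) • x + y by abel] at h1
    rw [add_sub_cancel_right] at h2
    have h3 : ν (x + y) / (ν x * ν y) ≠ 0 := div_ne_zero (hne _) (mul_ne_zero (hne _) (hne _))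
    refine mul_right_cancel₀ (pow_ne_zero k h3) ?_
    rw [← pow_add, show k + 1 + 1 + k = (k + 1) * 2 by ring, pow_mul, ← ih.1, ← ih.2,
      div_mul_div_comm, h1, mul_mul_mul_comm, h2]
    have := hne x
    have := hne y
    have := hne ((k : ℝ) • x + x)
    field_simp

/-- Proof. `β x y = ν (x + y) / (ν x * ν y)` is symmetric. For fixed `y` the function
`φ = β · y` satisfies `φ (x + x') φ (x - x') = φ x ^ 2` (use `hq` at `(x + y, x')` and `(x, x')`)
and `φ 0 = 1`, so `φ (k • x) = φ x ^ k` (two step induction). `ν n = ν m = 1` (put `x = 0`). With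
`u = k⁻¹ • n`, `v = k⁻¹ • m`: `β u v ^ k = β n v = ee (B n m / k)` and
`β u v ^ k = β m u = ee (B m n / k)`. So `(B n m - B m n) / k` is an integer for all `k ≥ 1`. -/
theorem quad_sym {V : Type} [AddCommGroup V] [Module ℝ V] (ν : V → ℂ) (h0 : ν 0 = 1)
    (hne : ∀ x, ν x ≠ 0) (hq : ∀ x y, ν (x + y) * ν (x - y) = ν x ^ 2 * ν y ^ 2)
    (B : V → V → ℝ) (hB : ∀ (n : V) (t : ℝ) (x : V), B n (t • x) = t * B n x) {n m : V}
    (hn : ∀ x, ν (x + n) = ee (B n x) * ν x) (hm : ∀ x, ν (x + m) = ee (B m x) * ν x) :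
    B n m = B m n := by
  have key : ∀ {n : V}, (∀ x, ν (x + n) = ee (B n x) * ν x) → ∀ k : ℕ, k ≠ 0 → ∀ y,
      (ν ((k : ℝ)⁻¹ • n + y) / (ν ((k : ℝ)⁻¹ • n) * ν y)) ^ k = ee (B n y) := by
    intro n hn k hk y
    have h1 := hn 0
    have h2 := hB n 0 0
    rw [zero_smul, zero_mul] at h2
    rw [zero_add, h2, h0, ofReal_zero, ee_zero, one_mul] at h1
    rw [← (modSym_pow ν h0 hne hq _ y k).1, smul_inv_smul₀ (Nat.cast_ne_zero.2 hk), add_comm, hn,
      h1, one_mul, mul_div_cancel_right₀ _ (hne y)]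
  obtain ⟨k, hk⟩ := exists_nat_gt |B n m - B m n|
  have hk0 : (0 : ℝ) < k := (abs_nonneg _).trans_lt hk
  have h1 := key hn k (Nat.cast_pos.1 hk0).ne' ((k : ℝ)⁻¹ • m)
  rw [add_comm, mul_comm, key hm k (Nat.cast_pos.1 hk0).ne', hB, hB] at h1
  obtain ⟨j, hj⟩ := ee_eq_one (t := ((B n m - B m n) / k : ℝ)) (mul_right_cancel₀
    (ee_ne ((k : ℝ)⁻¹ * B m n : ℝ)) (by rw [← ee_add, one_mul, h1]; congr 1; push_cast; ring))
  have h2 : (B n m - B m n) / k = j := by exact_mod_cast hj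
  have h3 : |(j : ℝ)| < 1 := by rwa [← h2, abs_div, abs_of_pos hk0, div_lt_one hk0]
  rw [Int.abs_lt_one_iff.1 (by exact_mod_cast h3 : |j| < 1), Int.cast_zero, div_eq_zero_iff] at h2
  exact sub_eq_zero.1 (h2.resolve_right hk0.ne')

/-- Proof. Choose `μ x`; `ν x = μ x / μ 0` satisfies the hypotheses of `quad_sym` (`Pr_add_sub`,
`Pr_unique`); for `n = rz (4 • a)` one has `γ n = rz (4 • γ a)` and `Pr_add_four` gives
`B n x = (E (γ x) (γ n) - E x n) / 2`, which is alternating on such `n`. So `E (γ n) (γ m) = E n m`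
for `n`, `m` multiples of basis vectors; bilinearity. -/
theorem sim_of_Pr (hτ : InH τ) (hτ' : InH τ') {γ : Matrix (ι ⊕ ι) (ι ⊕ ι) ℤ}
    (h : ∀ x, ∃ μ, Pr τ τ' x (rm γ *ᵥ x) μ) : Sim (rm γ) 1 := by
  classical
  choose μ hμ using h
  have h0 : Pr τ τ' 0 0 (μ 0) := by simpa using hμ 0
  have h4 : ∀ (a : ι ⊕ ι → ℤ) x, μ (x + rz ((4 : ℤ) • a)) / μ 0 =
      ee ((E (rm γ *ᵥ x) (rm γ *ᵥ rz ((4 : ℤ) • a)) - E x (rz ((4 : ℤ) • a))) / 2 : ℝ) *
        (μ x / μ 0) := fun a x => by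
    have h1 := hμ (x + rz ((4 : ℤ) • a))
    rw [mulVec_add, rm_mulVec, mulVec_smul] at h1
    rw [Pr_unique hτ h1 (Pr_add_four hτ hτ' (hμ x) a (γ *ᵥ a)), rm_mulVec, mulVec_smul]
    push_cast
    ring
  have key : ∀ a b : ι ⊕ ι → ℤ, E (rm γ *ᵥ rz a) (rm γ *ᵥ rz b) = E (rz a) (rz b) := fun a b => by
    have h1 := quad_sym (fun x => μ x / μ 0) (div_self h0.1) (fun x => div_ne_zero (hμ x).1 h0.1)
      (fun x y => by
        obtain ⟨α, β, ha, hb, e⟩ := Pr_add_sub hτ hτ' h0 (hμ x) (hμ y)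
        rw [← mulVec_add] at ha
        rw [← mulVec_sub] at hb
        have := h0.1
        rw [Pr_unique hτ (hμ _) ha, Pr_unique hτ (hμ _) hb]
        field_simp
        linear_combination e)
      (fun n x => (E (rm γ *ᵥ x) (rm γ *ᵥ n) - E x n) / 2)
      (fun n t x => by rw [mulVec_smul, E_smul_left, E_smul_left]; ring) (h4 a) (h4 b)
    simp only [rz_smul, mulVec_smul, E_smul_left, E_smul_right] at h1
    rw [E_comm (rz b), E_comm (rm γ *ᵥ rz b)] at h1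
    push_cast at h1
    linarith
  have e : ∀ i : ι ⊕ ι, Pi.basisFun ℝ (ι ⊕ ι) i = rz (Pi.single i 1) := fun i => by
    funext j
    simp [rz, Pi.single_apply]
  intro x y
  have h := LinearMap.ext_basis (Pi.basisFun ℝ (ι ⊕ ι)) (Pi.basisFun ℝ (ι ⊕ ι))
    (B := LinearMap.mk₂ ℝ (fun x y => E (rm γ *ᵥ x) (rm γ *ᵥ y))
      (fun _ _ _ => by rw [mulVec_add, E_add_left])
      (fun _ _ _ => by rw [mulVec_smul, E_smul_left]; rfl)
      (fun _ _ _ => by rw [mulVec_add, E_add_right])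
      fun _ _ _ => by rw [mulVec_smul, E_smul_right]; rfl)
    (B' := LinearMap.mk₂ ℝ E E_add_left E_smul_left E_add_right fun c x y => E_smul_right c x y)
    fun i j => by rw [e, e]; exact key _ _
  rw [one_mul]
  exact congrArg (fun B => B x y) h

end M4.Mo
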