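import Pool.Agent.Lib.MP_33b3f9_ag.M4.ModLin
import Pool.Agent.Lib.MP_33b3f9_ag.M4.ModSym
import Pool.Agent.Lib.MP_33b3f9_ag.M4.ModGam

/-!
The fibres of the theta null map are the orbits of the Igusa group.
-/

set_option autoImplicit false

namespace M4.Mo

open Complex Matrix

variable {ι : Type} [Fintype ι] [DecidableEq ι] {N : ℕ} {τ τ' : Matrix ι ι ℂ}

omit [Fintype ι] [DecidableEq ι] in
theorem modTor_qv_add [NeZero N] {M : ℕ} (hM : N = 2 * M) (y k : ι ⊕ ι → ℤ) :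
    qv N (y + (M : ℤ) • k) = qv N y + hf k := by
  have h0 : (M : ℝ) ≠ 0 := by
    have := NeZero.ne N
    exact Nat.cast_ne_zero.2 (by omega)
  funext i
  simp only [qv, hf, rz, Pi.add_apply, Pi.smul_apply, smul_eq_mul, hM]
  push_cast
  field_simp

omit [Fintype ι] [DecidableEq ι] in
theorem modTor_qv_two (k : ι ⊕ ι → ℤ) : qv 4 ((2 : ℤ) • k) = hf k := by
  funext i
  simp only [qv, hf, rz, Pi.smul_apply, smul_eq_mul]
  push_cast
  ring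

omit [Fintype ι] [DecidableEq ι] in
theorem modTor_qv_four [NeZero N] {M : ℕ} (hM : N = 4 * M) (z : ι ⊕ ι → ℤ) :
    qv 4 z = qv N ((M : ℤ) • z) := by
  have h0 : (M : ℝ) ≠ 0 := by
    have := NeZero.ne N
    exact Nat.cast_ne_zero.2 (by omega)
  funext i
  simp only [qv, rz, Pi.smul_apply, smul_eq_mul, hM]
  push_cast
  field_simp

theorem modTor_mulVec [NeZero N] (β : Matrix (ι ⊕ ι) (ι ⊕ ι) ℤ) (y : ι ⊕ ι → ℤ) :
    rm (1 + (2 * N : ℤ) • β) *ᵥ qv N y = qv N y + rz ((2 : ℤ) • β *ᵥ y) := by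
  have h0 : (N : ℝ) ≠ 0 := Nat.cast_ne_zero.2 (NeZero.ne N)
  rw [qv, mulVec_smul, rm_mulVec, add_mulVec, one_mulVec, smul_mulVec, rz_add, rz_smul, rz_smul,
    smul_add, smul_smul]
  congr 2
  push_cast
  field_simp

/-- Proof. For `x = qv N y` and all `k`: `YY τ' (2 k) x = c * YY τ (2 k) x` (`YY_eq`; the point
`x + hf k` is `qv N (y + (N / 2) • k)`) and `YY τ' (2 k) (γ x) = μ * YY τ (2 k) x`; `partner` gives
`γ x = x + 2 l`. Take `y = Pi.single j 1`: column `j` of `β` is `l`. -/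
theorem cong_of_Pr [NeZero N] (hN : 2 ∣ N) (hτ' : InH τ') {c : ℂ} (hc : c ≠ 0)
    (h : ∀ y, Th τ' (qv N y) = c * Th τ (qv N y)) {γ : Matrix (ι ⊕ ι) (ι ⊕ ι) ℝ}
    (hγ : ∀ x, ∃ μ, Pr τ τ' x (γ *ᵥ x) μ) :
    ∃ β : Matrix (ι ⊕ ι) (ι ⊕ ι) ℤ, γ = rm (1 + (2 * N : ℤ) • β) := by
  obtain ⟨M, hM⟩ := hN
  have h0 : (N : ℝ) ≠ 0 := Nat.cast_ne_zero.2 (NeZero.ne N)
  have key : ∀ y : ι ⊕ ι → ℤ, ∃ l : ι ⊕ ι → ℤ, γ *ᵥ qv N y = qv N y + rz ((2 : ℤ) • l) := by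
    intro y
    obtain ⟨μ, -, hμ⟩ := hγ (qv N y)
    refine partner hτ' (μ := μ / c) fun k => ?_
    rw [hμ, YY_eq, YY_eq, modTor_qv_two, ← modTor_qv_add hM, h]
    field_simp
  choose l hl using key
  refine ⟨Matrix.of fun i j => l (Pi.single j 1) i, ?_⟩
  ext i j
  have h1 := congrFun (hl (Pi.single j 1)) i
  have h2 : rz (Pi.single j 1 : ι ⊕ ι → ℤ) = Pi.single j 1 := by
    funext a
    by_cases ha : a = j <;> simp [rz, ha]
  rw [qv, h2, mulVec_smul, mulVec_single_one] at h1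
  simp only [Pi.smul_apply, Pi.add_apply, smul_eq_mul, col_apply, rz] at h1
  simp only [rm, map_apply, Matrix.add_apply, Matrix.smul_apply, of_apply, smul_eq_mul, one_apply]
  rw [Pi.single_apply] at h1
  push_cast at h1 ⊢
  field_simp at h1
  rw [h1]
  ring

/-- Proof. `transport_two`: `Th τ' (γ x) = c' * Th τ x`. For `x = qv N y`:
`ε y * Th τ' x = (c' / c) * Th τ' x` with `ε y = ee (EZ y (β y) / N)`. `EZ_sp` gives
`EZ (β y) w + EZ y (β w) + 2 N EZ (β y) (β w) = 0`, so for `N = 4 N'`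
`ε (y + 2 N' • w) = ε y`. `bpf` for `τ'` at `qv N y` gives `ε y = c' / c` for all `y`; `ε 0 = 1`;
`ee_eq_one`. -/
theorem level [NeZero N] (hN : 4 ∣ N) (hτ : InH τ) {γ : SpZ ι} {β : Matrix (ι ⊕ ι) (ι ⊕ ι) ℤ}
    (hβ : γ.1 = 1 + (2 * N : ℤ) • β) {c : ℂ} (hc : c ≠ 0)
    (h : ∀ y, Th (actZ γ τ) (qv N y) = c * Th τ (qv N y)) : γ ∈ GamN ι N := by
  obtain ⟨M, hM⟩ := hN
  have h0 : (N : ℂ) ≠ 0 := Nat.cast_ne_zero.2 (NeZero.ne N)
  have h0' : (N : ℤ) ≠ 0 := Nat.cast_ne_zero.2 (NeZero.ne N)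
  have hτ' := inH_actZ γ hτ
  have hP : γ ∈ GamP ι 2 := ⟨(N : ℤ) • β, by rw [hβ, smul_smul]; rfl⟩
  obtain ⟨c', -, hc'⟩ := transport_two hP hτ
  have h1 : ∀ y, ee (EZ y (β *ᵥ y) / N) * Th (actZ γ τ) (qv N y) =
      c' / c * Th (actZ γ τ) (qv N y) := by
    intro y
    have e := hc' (qv N y)
    rw [hβ, modTor_mulVec, Th_add_rz hτ', chi_even, one_mul] at e
    have e' : ((E (qv N y) (rz ((2 : ℤ) • β *ᵥ y)) : ℝ) : ℂ) / 2 = EZ y (β *ᵥ y) / N := by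
      rw [qv, E_smul_left, E_rz, EZ_smul_right]
      push_cast
      field_simp
    rw [e'] at e
    rw [e, h]
    field_simp
  have h2 : ∀ y w, EZ w (β *ᵥ y) = EZ y (β *ᵥ w) + 2 * N * EZ (β *ᵥ y) (β *ᵥ w) := by
    intro y w
    have e := EZ_sp γ y w
    rw [hβ] at e
    simp only [add_mulVec, one_mulVec, smul_mulVec, EZ_add_left, EZ_add_right, EZ_smul_left,
      EZ_smul_right] at e
    rw [EZ_comm w]
    apply mul_left_cancel₀ (mul_ne_zero two_ne_zero h0')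
    linear_combination -e
  have h3 : ∀ y, ee (EZ y (β *ᵥ y) / N) = c' / c := by
    intro y
    obtain ⟨k, hk⟩ := bpf hτ' (qv N y)
    have hM2 : N = 2 * (2 * M) := by omega
    rw [← modTor_qv_add hM2] at hk
    rw [← mul_right_cancel₀ hk (h1 _)]
    have e : EZ (y + ((2 * M : ℕ) : ℤ) • k) (β *ᵥ (y + ((2 * M : ℕ) : ℤ) • k)) =
        EZ y (β *ᵥ y) + N * (EZ y (β *ᵥ k) + N * EZ (β *ᵥ y) (β *ᵥ k) + M * EZ k (β *ᵥ k)) := by
      simp only [mulVec_add, mulVec_smul, EZ_add_left, EZ_add_right, EZ_smul_left, EZ_smul_right]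
      rw [h2 y k, hM]
      push_cast
      ring
    rw [e, Int.cast_add, add_div, ee_add, Int.cast_mul, Int.cast_natCast,
      mul_div_cancel_left₀ _ h0, ee_int, mul_one]
  refine ⟨β, hβ, fun y => ?_⟩
  have h4 := h3 0
  rw [mulVec_zero, EZ_self, Int.cast_zero, zero_div, ee_zero] at h4
  obtain ⟨n, hn⟩ := ee_eq_one ((h3 y).trans h4.symm)
  rw [EZ_comm, dvd_neg]
  refine ⟨n, ?_⟩
  rw [div_eq_iff h0, mul_comm] at hn
  exact_mod_cast hn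

/-- Proof. `c ≠ 0` (`thN_ne_zero`); `Pr τ τ' 0 0 c` since `qv 4 z = qv N ((N / 4) • z)`;
`exists_lin`, `cong_of_Pr`, `sim_of_Pr`, `sim_iff`, `rel_of_Pr`, `eq_act`, `level`. -/
theorem torelli [NeZero N] (hN : 4 ∣ N) (hτ : InH τ) (hτ' : InH τ') {c : ℂ}
    (h : thN N τ' = c • thN N τ) : ∃ γ ∈ GamN ι N, τ' = actZ γ τ := by
  have hN2 : 2 ∣ N := dvd_trans ⟨2, rfl⟩ hN
  have hc : c ≠ 0 := by
    rintro rfl
    exact thN_ne_zero hN2 hτ' (by rw [h, zero_smul])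
  have h' := (thN_smul_iff hτ hτ').1 h
  have h0 : Pr τ τ' 0 0 c := by
    obtain ⟨M, hM⟩ := hN
    refine ⟨hc, fun z => ?_⟩
    rw [YY_eq, YY_eq, zero_add, modTor_qv_four hM, h']
    ring
  obtain ⟨γ, hγ⟩ := exists_lin hτ hτ' h0
  obtain ⟨β, rfl⟩ := cong_of_Pr hN2 hτ' hc h' hγ
  have hs := sim_of_Pr hτ hτ' hγ
  have e : τ' = actZ ⟨_, sim_iff.1 hs⟩ τ := eq_act hs one_pos hτ hτ' (rel_of_Pr hτ hτ' hγ)
  exact ⟨_, level hN hτ rfl hc (e ▸ h'), e⟩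

end M4.Mo
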