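import Pool.Agent.Lib.MP_33b3f9_ag.M4.ZDefs

/-! Hilbert functions, forms, homogeneous primes. -/

namespace M4.Z
open MvPolynomial

/-- Hint: `p.map g` is a quotient of `p.map f`; rank-nullity for `f.domRestrict p`, `g.domRestrict p`. -/
theorem finrank_map_le {K E V V' : Type} [Field K] [AddCommGroup E] [Module K E]
    [AddCommGroup V] [Module K V] [AddCommGroup V'] [Module K V'] (p : Submodule K E)
    [Module.Finite K p] (f : E →ₗ[K] V) (g : E →ₗ[K] V') (h : ∀ x ∈ p, f x = 0 → g x = 0) :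
    Module.finrank K (p.map g) ≤ Module.finrank K (p.map f) := by
  have h1 := LinearMap.finrank_range_add_finrank_ker (f.domRestrict p)
  have h2 := LinearMap.finrank_range_add_finrank_ker (g.domRestrict p)
  have h3 : LinearMap.ker (f.domRestrict p) ≤ LinearMap.ker (g.domRestrict p) :=
    fun x hx => h x.1 x.2 hx
  have h4 := Submodule.finrank_mono h3
  rw [LinearMap.range_domRestrict] at h1 h2
  omega

variable {σ : Type}

theorem fin_hom [Finite σ] (μ : ℕ) : Module.Finite ℂ (homogeneousSubmodule σ ℂ μ) := by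
  exact Module.Finite.iff_fg.2 (homogeneousSubmodule_fg σ ℂ μ)

/-- Hint: `homogeneousSubmodule_eq_finsupp_supported`, `Finsupp.supportedEquivFinsupp`,
`Finset.card_finsuppAntidiag_nat_eq_choose`. -/
theorem finrank_hom [Fintype σ] {d : ℕ} (hσ : Fintype.card σ = d + 1) (μ : ℕ) :
    Module.finrank ℂ (homogeneousSubmodule σ ℂ μ) = (μ + d).choose d := by
  classical
  have e : {s : σ →₀ ℕ | s.degree = μ} =
      ((Finset.univ : Finset σ).finsuppAntidiag μ : Set (σ →₀ ℕ)) := by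
    ext s
    simp [Finsupp.degree_eq_sum]
  rw [homogeneousSubmodule_eq_finsupp_supported, e]
  refine (AddMonoidAlgebra.supportedEquivFinsupp _).finrank_eq.trans ?_
  rw [Module.finrank_finsupp_self]
  refine (Fintype.card_of_subtype _ fun _ => Iff.rfl).trans ?_
  rw [Finset.card_finsuppAntidiag_nat_eq_choose, Finset.card_univ, hσ,
    show d + 1 + μ - 1 = μ + d by omega]
  exact Nat.choose_symm_add

theorem hf_le [Finite σ] {V : Type} [AddCommGroup V] [Module ℂ V] (I : Ideal (MvPolynomial σ ℂ))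
    (μ : ℕ) (Φ : MvPolynomial σ ℂ →ₗ[ℂ] V) (h : ∀ g, g.IsHomogeneous μ → Φ g = 0 → g ∈ I) :
    HF I μ ≤ Module.finrank ℂ ((homogeneousSubmodule σ ℂ μ).map Φ) := by
  have := fin_hom (σ := σ) μ
  exact finrank_map_le _ Φ _ fun g hg h0 => Ideal.Quotient.eq_zero_iff_mem.2 (h g hg h0)

theorem le_hf [Finite σ] {V : Type} [AddCommGroup V] [Module ℂ V] (I : Ideal (MvPolynomial σ ℂ))
    (μ : ℕ) (Φ : MvPolynomial σ ℂ →ₗ[ℂ] V) (h : ∀ g, g.IsHomogeneous μ → g ∈ I → Φ g = 0) :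
    Module.finrank ℂ ((homogeneousSubmodule σ ℂ μ).map Φ) ≤ HF I μ := by
  have := fin_hom (σ := σ) μ
  exact finrank_map_le _ _ Φ fun g hg h0 => h g hg (Ideal.Quotient.eq_zero_iff_mem.1 h0)

theorem mem_van {Ξ : Type} (x : Ξ → σ → ℂ) (A : Set Ξ) (g : MvPolynomial σ ℂ) :
    g ∈ van x A ↔ ∀ ξ ∈ A, eval (x ξ) g = 0 := by
  simp [van, mx]

theorem hf_van [Finite σ] {Ξ : Type} (x : Ξ → σ → ℂ) {A B : Set Ξ} (hAB : A ⊆ B) (μ : ℕ) :
    HF (van x A) μ ≤ HP x B μ := by
  refine hf_le _ μ (evs x B) fun g _ h0 => (mem_van x A g).2 fun ξ hξ => ?_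
  exact congrFun h0 ⟨ξ, hAB hξ⟩

/-- A non zero form vanishing on `A`. -/
theorem exists_form [Fintype σ] {n : ℕ} (hσ : Fintype.card σ = n + 1) {Ξ : Type}
    (x : Ξ → σ → ℂ) (A : Set Ξ) (μ : ℕ) (h : HP x A μ < (μ + n).choose n) :
    ∃ g ∈ fm (van x A) μ, g ≠ 0 := by
  by_contra hc
  have := fin_hom (σ := σ) μ
  have h1 := finrank_map_le (homogeneousSubmodule σ ℂ μ) (evs x A) LinearMap.id fun g hg h0 => by
    by_contra hne
    exact hc ⟨g, ⟨(mem_van x A g).2 fun ξ hξ => congrFun h0 ⟨ξ, hξ⟩, μ, le_rfl, hg⟩, hne⟩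
  rw [Submodule.map_id, finrank_hom hσ] at h1
  exact absurd h (not_lt.2 h1)

/-- Hint: `letI := MvPolynomial.gradedAlgebra`, `Ideal.IsPrime.homogeneousCore`,
`Ideal.toIdeal_homogeneousCore_le`, `Ideal.mem_homogeneousCore_of_homogeneous_of_mem`. -/
theorem hom_of_min (J : Set (MvPolynomial σ ℂ)) (hJ : ∀ g ∈ J, ∃ μ, g.IsHomogeneous μ)
    {P : Ideal (MvPolynomial σ ℂ)} (hP : P ∈ (Ideal.span J).minimalPrimes) : Hom P := by
  let _ := MvPolynomial.gradedAlgebra (σ := σ) (R := ℂ)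
  have hp : P.IsPrime := hP.1.1
  have h1 := hp.homogeneousCore (𝒜 := homogeneousSubmodule σ ℂ)
  have h2 : Ideal.span J ≤ (P.homogeneousCore (homogeneousSubmodule σ ℂ)).toIdeal :=
    Ideal.span_le.2 fun g hg => Ideal.mem_homogeneousCore_of_homogeneous_of_mem (hJ g hg)
      (hP.1.2 (Ideal.subset_span hg))
  have h3 := Ideal.toIdeal_homogeneousCore_le (homogeneousSubmodule σ ℂ) P
  intro g hg μ
  exact h3 (homogeneousComponent_mem_of_mem
    (P.homogeneousCore (homogeneousSubmodule σ ℂ)).isHomogeneous (hP.2 ⟨h1, h2⟩ h3 hg) μ)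

/-- Hint: `IsHomogeneous.pderiv`, `Matrix.det_apply`, `IsHomogeneous.sum`, `IsHomogeneous.prod`;
the degree is `∑ a, (μ a - 1)`. -/
theorem jac_form (e ν : ℕ) (I : Ideal (MvPolynomial σ ℂ)) {g : MvPolynomial σ ℂ}
    (hg : g ∈ jac e (fm I ν)) : ∃ μ ≤ e * ν, g.IsHomogeneous μ := by
  obtain ⟨ψ, j, hψ, rfl⟩ := hg
  choose μ hμ hh using fun a => (hψ a).2
  refine ⟨∑ a, (μ a - 1), ?_, ?_⟩
  · refine (Finset.sum_le_card_nsmul _ _ ν fun a _ => (Nat.sub_le _ _).trans (hμ a)).trans ?_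
    simp
  · rw [← Matrix.det_transpose, Matrix.det_apply']
    refine IsHomogeneous.sum _ _ _ fun π _ => ?_
    have h1 : (∏ a, pderiv (j (π a)) (ψ a)).IsHomogeneous (∑ a, (μ a - 1)) :=
      IsHomogeneous.prod _ _ _ fun a _ => (hh a).pderiv
    have h2 := h1.C_mul ((Equiv.Perm.sign π : ℤ) : ℂ)
    rw [map_intCast] at h2
    exact h2

theorem hfb_scale {g : MvPolynomial σ ℂ} {μ : ℕ} (hg : g.IsHomogeneous μ) (x : σ → ℂ) (t : ℂ) :
    eval (fun i => x i * t) g = eval x g * t ^ μ := by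
  rw [eval_eq, eval_eq, Finset.sum_mul]
  refine Finset.sum_congr rfl fun d hd => ?_
  rw [hg.degree_eq_sum_deg_support hd, mul_assoc, ← Finset.prod_pow_eq_pow_sum,
    ← Finset.prod_mul_distrib]
  simp only [mul_pow]

/-- The ideal of the line through `x`: kernel of `X i ↦ x i * t` into `Polynomial ℂ`; it is strictly
inside `mx 0`; stated without dimension. -/
theorem line_prime (x : σ → ℂ) (hx : x ≠ 0) : ∃ P : Ideal (MvPolynomial σ ℂ), P.IsPrime ∧
    P ≤ mx x ∧ P < mx (0 : σ → ℂ) ∧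
    (∀ μ (g : MvPolynomial σ ℂ), g.IsHomogeneous μ → eval x g = 0 → g ∈ P) ∧
    ∀ x' : σ → ℂ, P ≤ mx x' → ∃ c : ℂ, x' = c • x := by
  let φ : MvPolynomial σ ℂ →ₐ[ℂ] Polynomial ℂ := aeval fun i => Polynomial.C (x i) * Polynomial.X
  have hφ : ∀ (t : ℂ) g, (φ g).eval t = eval (fun i => x i * t) g := by
    intro t g
    induction g using MvPolynomial.induction_on with
    | C a => simp [φ]
    | add p q hp hq => simp [hp, hq]
    | mul_X p i hp =>
      rw [map_mul, Polynomial.eval_mul, hp]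
      simp [φ]
  have hm : ∀ g, g ∈ RingHom.ker φ ↔ φ g = 0 := fun g => RingHom.mem_ker
  have hx' : ∀ (y : σ → ℂ) g, g ∈ mx y ↔ eval y g = 0 := fun y g => RingHom.mem_ker
  obtain ⟨i, hi⟩ := Function.ne_iff.1 hx
  replace hi : x i ≠ 0 := hi
  refine ⟨RingHom.ker φ, RingHom.ker_isPrime φ, fun g hg => ?_,
    lt_of_le_of_ne (fun g hg => ?_) fun h => ?_, fun μ g hg h0 => ?_, fun y hy => ?_⟩
  · have := hφ 1 g
    rw [(hm g).1 hg, Polynomial.eval_zero] at this
    rw [hx', this]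
    simp
  · have := hφ 0 g
    rw [(hm g).1 hg, Polynomial.eval_zero] at this
    rw [hx', this]
    simp only [mul_zero]
    rfl
  · have h1 : (X i : MvPolynomial σ ℂ) ∈ RingHom.ker φ := by
      rw [h, hx']
      simp
    have := hφ 1 (X i)
    rw [(hm _).1 h1] at this
    simp at this
    exact hi this.symm
  · rw [hm]
    refine Polynomial.funext fun t => ?_
    rw [hφ, hfb_scale hg, h0, zero_mul, Polynomial.eval_zero]
  · refine ⟨y i / x i, funext fun j => ?_⟩
    have h1 : C (x i) * X j - C (x j) * X i ∈ RingHom.ker φ := by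
      rw [hm]
      simp only [φ, map_sub, map_mul, aeval_X, aeval_C, Polynomial.algebraMap_eq]
      ring
    have h2 := (hx' y _).1 (hy h1)
    simp only [map_sub, map_mul, eval_C, eval_X] at h2
    rw [Pi.smul_apply, smul_eq_mul]
    field_simp
    linear_combination h2

theorem mx_prime {K : Type} [Field K] (x : σ → K) : (mx x).IsPrime := RingHom.ker_isPrime _

theorem hfb_bern (a d e : ℕ) (h : d + e = a + 1) : (a + 1) ^ d * e ≤ a ^ d * (a + 1) := by
  induction d generalizing e with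
  | zero => simp [← h]
  | succ d ih =>
    have h1 := ih (e + 1) (by omega)
    have h2 : (a + 1) * e ≤ a * (e + 1) := by
      have : e ≤ a := by omega
      nlinarith
    calc (a + 1) ^ (d + 1) * e = (a + 1) ^ d * ((a + 1) * e) := by ring
      _ ≤ (a + 1) ^ d * (a * (e + 1)) := Nat.mul_le_mul_left _ h2
      _ = a * ((a + 1) ^ d * (e + 1)) := by ring
      _ ≤ a * (a ^ d * (a + 1)) := Nat.mul_le_mul_left _ h1
      _ = _ := by ring

theorem hfb_choose (a t m : ℕ) (h : a * t ≤ m) (d : ℕ) :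
    a ^ d * (m + t + d).choose d ≤ (a + 1) ^ d * (m + d).choose d := by
  induction d with
  | zero => simp
  | succ d ih =>
    refine Nat.le_of_mul_le_mul_right (c := d + 1) ?_ (by omega)
    have h1 := Nat.add_one_mul_choose_eq (m + t + d) d
    have h2 := Nat.add_one_mul_choose_eq (m + d) d
    have h3 : a * (m + t + d + 1) ≤ (a + 1) * (m + d + 1) := by nlinarith
    calc a ^ (d + 1) * (m + t + (d + 1)).choose (d + 1) * (d + 1)
        = a ^ (d + 1) * ((m + t + d + 1).choose (d + 1) * (d + 1)) := by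
          rw [mul_assoc, ← add_assoc]
      _ = a * (m + t + d + 1) * (a ^ d * (m + t + d).choose d) := by rw [← h1]; ring
      _ ≤ (a + 1) * (m + d + 1) * ((a + 1) ^ d * (m + d).choose d) := Nat.mul_le_mul h3 ih
      _ = (a + 1) ^ (d + 1) * ((m + d + 1) * (m + d).choose d) := by ring
      _ = _ := by rw [h2, ← add_assoc, mul_assoc]

/-- `2 * h_d (ν + c) ≤ 3 * h_d (ν - 2 c - 1)`. The ratio is a product of `d ≤ n` factors
`(m + 3c + 1 + i) / (m + i) ≤ 1 + 1 / (3 n)`; `(1 - 1 / (3 n + 1)) ^ n ≥ 2 / 3` by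
`one_add_mul_le_pow`. Induction on `d` with `Nat.succ_mul_choose_eq`:
`(3n) ^ d * choose (m + t + d) d ≤ (3n + 1) ^ d * choose (m + d) d` if `3 n t ≤ m`. -/
theorem ratio (n d t : ℕ) (hd : d ≤ n) :
    2 * (3 * n * t + t + d).choose d ≤ 3 * (3 * n * t + d).choose d := by
  rcases Nat.eq_zero_or_pos n with rfl | hn
  · obtain rfl : d = 0 := by omega
    simp
  have h1 := hfb_choose (3 * n) t (3 * n * t) le_rfl d
  have h2 := hfb_bern (3 * n) d (3 * n + 1 - d) (by omega)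
  have h3 : 2 * (3 * n + 1) ^ d ≤ 3 * (3 * n) ^ d := by
    refine Nat.le_of_mul_le_mul_right (c := 3 * n + 1) ?_ (by omega)
    calc 2 * (3 * n + 1) ^ d * (3 * n + 1) = (3 * n + 1) ^ d * (2 * (3 * n + 1)) := by ring
      _ ≤ (3 * n + 1) ^ d * (3 * (3 * n + 1 - d)) := Nat.mul_le_mul_left _ (by omega)
      _ = 3 * ((3 * n + 1) ^ d * (3 * n + 1 - d)) := by ring
      _ ≤ 3 * ((3 * n) ^ d * (3 * n + 1)) := Nat.mul_le_mul_left _ h2
      _ = _ := by ring
  refine Nat.le_of_mul_le_mul_left (c := (3 * n) ^ d) ?_ (by positivity)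
  calc (3 * n) ^ d * (2 * (3 * n * t + t + d).choose d)
      = 2 * ((3 * n) ^ d * (3 * n * t + t + d).choose d) := by ring
    _ ≤ 2 * ((3 * n + 1) ^ d * (3 * n * t + d).choose d) := Nat.mul_le_mul_left _ h1
    _ = 2 * (3 * n + 1) ^ d * (3 * n * t + d).choose d := by ring
    _ ≤ 3 * (3 * n) ^ d * (3 * n * t + d).choose d := Nat.mul_le_mul_right _ h3
    _ = _ := by ring

end M4.Z
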