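import Pool.Agent.Lib.MP_33b3f9_ag.M4.IDefs
import Pool.Agent.Lib.MP_33b3f9_ag.M4.ModTor
import Pool.Agent.Lib.MP_33b3f9_ag.M4.ZHf

/-!
The fibres of a finite projection are finite unions of orbits.
-/

set_option autoImplicit false

namespace M4

open Complex Matrix

namespace Mo

/-- Representatives for the fibres of a map with values in a finite set. -/
theorem fin_cover {α β : Type} (S : Set α) (R : α → β → Prop) (B : Finset β)
    (h : ∀ a ∈ S, ∃ b ∈ B, R a b) :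
    ∃ T : Finset α, T.card ≤ B.card ∧ (∀ t ∈ T, t ∈ S) ∧
      ∀ a ∈ S, ∃ t ∈ T, ∃ b, R a b ∧ R t b := by
  classical
  let B' := B.filter fun b => ∃ a ∈ S, R a b
  have h1 : ∀ b : B', ∃ a ∈ S, R a b := fun b => (Finset.mem_filter.1 b.2).2
  choose f hf hf' using h1
  refine ⟨Finset.univ.image f, ?_, ?_, fun a ha => ?_⟩
  · refine Finset.card_image_le.trans ?_
    rw [Finset.card_univ, Fintype.card_coe]
    exact Finset.card_filter_le _ _
  · intro t ht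
    obtain ⟨b, -, rfl⟩ := Finset.mem_image.1 ht
    exact hf b
  · obtain ⟨b, hb, hab⟩ := h a ha
    exact ⟨f ⟨b, Finset.mem_filter.2 ⟨hb, a, ha, hab⟩⟩, Finset.mem_image_of_mem _ (Finset.mem_univ _),
      b, hab, hf' _⟩

/-- The solutions of a monic equation. -/
theorem exists_roots (d : ℕ) (a : ℕ → ℂ) : ∃ B : Finset ℂ, B.card ≤ d ∧
    ∀ z : ℂ, z ^ d + ∑ e ∈ Finset.range d, a e * z ^ e = 0 → z ∈ B := by
  classical
  let q : Polynomial ℂ := ∑ e ∈ Finset.range d, Polynomial.C (a e) * Polynomial.X ^ e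
  have hq : q.degree < d := by
    refine (Polynomial.degree_sum_le _ _).trans_lt ?_
    refine (Finset.sup_lt_iff (WithBot.bot_lt_coe d)).2 fun e he => ?_
    exact (Polynomial.degree_C_mul_X_pow_le e (a e)).trans_lt
      (WithBot.coe_lt_coe.2 (Finset.mem_range.1 he))
  have hm : (Polynomial.X ^ d + q).Monic := Polynomial.monic_X_pow_add hq
  have hd : (Polynomial.X ^ d + q).natDegree = d := by
    rw [Polynomial.natDegree_add_eq_left_of_degree_lt (by rwa [Polynomial.degree_X_pow]),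
      Polynomial.natDegree_X_pow]
  refine ⟨(Polynomial.X ^ d + q).roots.toFinset, ?_, fun z hz => ?_⟩
  · exact (Multiset.toFinset_card_le _).trans ((Polynomial.card_roots' _).trans hd.le)
  · rw [Multiset.mem_toFinset, Polynomial.mem_roots hm.ne_zero, Polynomial.IsRoot]
    simpa [q, Polynomial.eval_finsetSum] using hz

variable {ι : Type} [Fintype ι] [DecidableEq ι] {τ τ' : Matrix ι ι ℂ}

omit [Fintype ι] [DecidableEq ι] in
theorem qv_two (k : ι ⊕ ι → ℤ) : qv 2 k = hf k := by simp [qv, hf]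

omit [DecidableEq ι] in
theorem thN_two (τ : Matrix ι ι ℂ) (e : ι ⊕ ι → Fin 2) : thN 2 τ e = Th τ (hf (bz e)) := by
  rw [thN, qv_two]
  rfl

omit [DecidableEq ι] in
theorem hf_of_bits (hτ : InH τ) (hτ' : InH τ') {c : ℂ}
    (h : ∀ e : ι ⊕ ι → Fin 2, Th τ' (hf (bz e)) = c * Th τ (hf (bz e))) (k : ι ⊕ ι → ℤ) :
    Th τ' (hf k) = c * Th τ (hf k) := by
  have h1 : thN 2 τ' = c • thN 2 τ := funext fun e => by
    simpa [thN_two] using h e
  simpa [qv_two] using (thN_smul_iff hτ hτ').1 h1 k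

/-- The fourth powers of the constants of level four are quartic forms in those of level two. -/
theorem pow_four (hτ : InH τ) (hτ' : InH τ') {c : ℂ}
    (h : ∀ k, Th τ' (hf k) = c * Th τ (hf k)) (z : ι ⊕ ι → ℤ) :
    Th τ' (qv 4 z) ^ 4 = c ^ 4 * Th τ (qv 4 z) ^ 4 := by
  have e1 : (1 / 2 : ℝ) • (qv 4 z + qv 4 z + qv 4 z + qv 4 z) = hf z := by
    funext i
    simp only [qv, hf, Pi.smul_apply, Pi.add_apply, smul_eq_mul]
    push_cast
    ring
  have e2 : (1 / 2 : ℝ) • (qv 4 z + qv 4 z - qv 4 z - qv 4 z) = 0 := by simp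
  have e3 : (1 / 2 : ℝ) • (qv 4 z - qv 4 z + qv 4 z - qv 4 z) = 0 := by simp
  have e4 : (1 / 2 : ℝ) • (qv 4 z - qv 4 z - qv 4 z + qv 4 z) = 0 := by simp
  have e5 : ∀ k, hf z + hf k = hf (z + k) := fun k => by rw [hf, hf, hf, rz_add, smul_add]
  have r := riemann hτ (qv 4 z) (qv 4 z) (qv 4 z) (qv 4 z)
  have r' := riemann hτ' (qv 4 z) (qv 4 z) (qv 4 z) (qv 4 z)
  rw [e1, e2, e3, e4] at r r'
  simp only [U, zero_add, e5, h] at r r'
  rw [show ∀ w : ℂ, w ^ 4 = w * w * w * w from fun w => by ring, r',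
    show Th τ (qv 4 z) ^ 4 = _ * _ * _ * _ by ring, r, Finset.mul_sum, Finset.mul_sum,
    Finset.mul_sum]
  exact Finset.sum_congr rfl fun e _ => by ring

/-- At most `4 ^ (4 ^ (2 g))` orbits have a given theta null point of level two. -/
theorem fib_two (w : (ι ⊕ ι → Fin 2) → ℂ) : ∃ T : Finset (Matrix ι ι ℂ),
    T.card ≤ 4 ^ Fintype.card (ι ⊕ ι → Fin 4) ∧ (∀ t ∈ T, InH t) ∧
      ∀ τ, InH τ → (∃ c : ℂ, ∀ e, Th τ (hf (bz e)) = c * w e) →
        ∃ t ∈ T, ∃ γ : SpZ ι, τ = actZ γ t := by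
  classical
  by_cases h0 : ∃ τ₀, InH τ₀ ∧ ∃ c : ℂ, ∀ e, Th τ₀ (hf (bz e)) = c * w e
  swap
  · exact ⟨∅, by simp, by simp, fun τ hτ h => (h0 ⟨τ, hτ, h⟩).elim⟩
  obtain ⟨τ₀, hτ₀, c₀, hc₀⟩ := h0
  have hne : ∀ τ : Matrix ι ι ℂ, InH τ → ∀ c : ℂ, (∀ e, Th τ (hf (bz e)) = c * w e) → c ≠ 0 := by
    rintro τ hτ c h rfl
    refine thN_ne_zero (N := 2) dvd_rfl hτ (funext fun e => ?_)
    simpa [thN_two] using h e
  obtain ⟨T, hT, hT', hT''⟩ := fin_cover
    {τ | InH τ ∧ ∃ c : ℂ, ∀ e, Th τ (hf (bz e)) = c * w e}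
    (fun τ b => ∃ c : ℂ, c ≠ 0 ∧ thN 4 τ = c • b)
    (Fintype.piFinset fun e => Polynomial.nthRootsFinset 4 (thN 4 τ₀ e ^ 4)) (by
      rintro τ ⟨hτ, c, hc⟩
      have h1 := hne τ hτ c hc
      have h2 := hne τ₀ hτ₀ c₀ hc₀
      have h3 : ∀ e, Th τ (hf (bz e)) = (c / c₀) * Th τ₀ (hf (bz e)) := fun e => by
        rw [hc, hc₀]
        field_simp
      refine ⟨(c / c₀)⁻¹ • thN 4 τ, Fintype.mem_piFinset.2 fun e => ?_, c / c₀, div_ne_zero h1 h2,
        (smul_inv_smul₀ (div_ne_zero h1 h2) _).symm⟩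
      rw [Polynomial.mem_nthRootsFinset (by norm_num), Pi.smul_apply, smul_eq_mul, mul_pow]
      change _ * Th τ (qv 4 (fz e)) ^ 4 = Th τ₀ (qv 4 (fz e)) ^ 4
      rw [pow_four hτ₀ hτ (hf_of_bits hτ₀ hτ h3)]
      field_simp)
  refine ⟨T, hT.trans ?_, fun t ht => (hT' t ht).1, fun τ hτ h => ?_⟩
  · rw [Fintype.card_piFinset, ← Finset.card_univ]
    refine Finset.prod_le_pow_card _ _ _ fun e _ => ?_
    rw [Polynomial.nthRootsFinset_def]
    exact (Multiset.toFinset_card_le _).trans (Polynomial.card_nthRoots _ _)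
  · obtain ⟨t, ht, b, ⟨c, -, hc⟩, c', hc', hb⟩ := hT'' τ ⟨hτ, h⟩
    obtain ⟨γ, -, hγ⟩ := torelli (N := 4) (c := c / c') dvd_rfl (hT' t ht).1 hτ (by
      rw [hc, hb, smul_smul, div_mul_cancel₀ _ hc'])
    exact ⟨t, ht, γ, hγ⟩

end Mo

/-- B5: the fibres of a finite projection. -/
theorem fib (y : Matrix (Fin 11) Bits ℂ) (hy : FinProj y) : FIBst y := by
  classical
  choose d c hc hc' using hy.1
  obtain ⟨C, hC⟩ : ∃ C : ℕ, ∀ w : Bits → ℂ, ∃ T : Finset Mat, T.card ≤ C ∧ (∀ t ∈ T, InH t) ∧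
      ∀ τ, InH τ → (∃ c : ℂ, ∀ e, Th τ (hf (bz e)) = c * w e) →
        ∃ t ∈ T, ∃ γ : SpZ (Fin 4), τ = actZ γ t := ⟨_, Mo.fib_two⟩
  refine ⟨(∏ ε, d ε) * C, fun v => ?_⟩
  choose B hB hB' using fun ε => Mo.exists_roots (d ε) fun e => MvPolynomial.eval v (c ε e)
  choose T hT hT' hT'' using hC
  refine ⟨(Fintype.piFinset B).biUnion T, ?_, ?_, ?_⟩
  · refine (Finset.card_biUnion_le_card_mul _ _ _ fun w _ => hT w).trans ?_
    rw [Fintype.card_piFinset]
    exact Nat.mul_le_mul_right _ (Finset.prod_le_prod' fun ε _ => hB ε)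
  · intro t ht
    obtain ⟨w, -, hw⟩ := Finset.mem_biUnion.1 ht
    exact hT' w t hw
  · rintro τ hτ ⟨s, hs⟩
    have h1 : ∀ ε, th2 τ ε ^ d ε + ∑ e ∈ Finset.range (d ε),
        MvPolynomial.eval v (c ε e) * s ^ (d ε - e) * th2 τ ε ^ e = 0 := fun ε => by
      rw [← hc' ε τ hτ]
      congr 1
      refine Finset.sum_congr rfl fun e he => ?_
      rw [← Z.hfb_scale (hc ε e (Finset.mem_range.1 he)), hs]
      congr 3
      funext i
      rw [Pi.smul_apply, smul_eq_mul, mul_comm]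
    have hs0 : s ≠ 0 := by
      rintro rfl
      refine Mo.thN_ne_zero (N := 2) dvd_rfl hτ (funext fun ε => ?_)
      have h2 := h1 ε
      rw [Finset.sum_eq_zero fun e he => by
        rw [zero_pow (Nat.sub_ne_zero_of_lt (Finset.mem_range.1 he)), mul_zero, zero_mul],
        add_zero] at h2
      rw [Mo.thN_two]
      exact eq_zero_of_pow_eq_zero h2
    have h2 : s⁻¹ • th2 τ ∈ Fintype.piFinset B := Fintype.mem_piFinset.2 fun ε => hB' ε _ (by
      refine mul_left_cancel₀ (pow_ne_zero (d ε) hs0) ?_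
      rw [mul_zero, ← h1 ε, mul_add, Finset.mul_sum, Pi.smul_apply, smul_eq_mul, ← mul_pow,
        mul_inv_cancel_left₀ hs0]
      congr 1
      refine Finset.sum_congr rfl fun e he => ?_
      obtain ⟨k, hk⟩ := Nat.exists_eq_add_of_le (Finset.mem_range.1 he).le
      rw [hk, Nat.add_sub_cancel_left, pow_add, mul_pow, inv_pow]
      field_simp)
    obtain ⟨t, ht, γ, hγ⟩ := hT'' (s⁻¹ • th2 τ) τ hτ ⟨s, fun e => by
      rw [Pi.smul_apply, smul_eq_mul, mul_inv_cancel_left₀ hs0]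
      rfl⟩
    exact ⟨t, Finset.mem_biUnion.2 ⟨_, h2, ht⟩, γ.1, Mo.sim_sp γ, hγ⟩

end M4
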