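import Mathlib
import Pool.Agent.Lib.MP_33b3f9_ag.M4.ThBpf
import Pool.Agent.Lib.MP_33b3f9_ag.M4.ThLio

/-!
The level four coordinates separate tangent vectors.
-/

set_option autoImplicit false

namespace M4

open Complex Matrix

variable {ι : Type} [Fintype ι] {τ : Matrix ι ι ℂ}

/-- The level four coordinates as entire functions. -/
noncomputable def GG (τ : Matrix ι ι ℂ) (k : ι ⊕ ι → ℤ) (z : ι → ℂ) : ℂ :=
  thc τ (hf k) ((2 : ℂ) • z)

theorem differentiable_GG (hτ : InH τ) (k : ι ⊕ ι → ℤ) : Differentiable ℂ (GG τ k) := by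
  exact (differentiable_thc hτ _).comp (by fun_prop)

theorem GG_bpf (hτ : InH τ) (z : ι → ℂ) : ∃ e : ι ⊕ ι → Fin 2, GG τ (bz e) z ≠ 0 := by
  obtain ⟨x, rfl⟩ := (per_bijective hτ).2 z
  obtain ⟨e, he⟩ := XX_bpf hτ x
  rw [XX_eq hτ.1] at he
  exact ⟨e, right_ne_zero_of_mul he⟩

/-- `thc_add_int`. -/
theorem GG_add_two (τ : Matrix ι ι ℂ) (k n : ι ⊕ ι → ℤ) :
    ∃ c : ℂ, ∀ z, GG τ (k + (2 : ℤ) • n) z = c * GG τ k z := by
  exact ⟨_, fun z => by rw [GG, hf_add, hf_two, thc_add_int]; rfl⟩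

/-- `XX_law'` and `XX_eq`; the exponential factors agree by the parallelogram identity. -/
theorem GG_law [DecidableEq ι] (hτ : InH τ) (i j : ι ⊕ ι → ℤ) :
    ∃ (c : (ι ⊕ ι → Fin 2) → ℂ) (p q r s : (ι ⊕ ι → Fin 2) → ι ⊕ ι → ℤ), ∀ z w,
      GG τ i (z + w) * GG τ j (z - w) =
        ∑ e, c e * (GG τ (p e) z * GG τ (q e) z) * (GG τ (r e) w * GG τ (s e) w) := by
  obtain ⟨c, p, q, r, s, h⟩ := XX_law' hτ i j
  let κ : (ι ⊕ ι → ℤ) → ℂ := fun k => ee (-(fa (hf k) ⬝ᵥ fb (hf k) / 2))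
  have hκ : ∀ k, κ k ≠ 0 := fun k => ee_ne_zero _
  have hX : ∀ k x, XX τ k x = ee (2 * (fa x ⬝ᵥ per τ x)) * (κ k * GG τ k (per τ x)) :=
    fun k x => by rw [XX_eq hτ.1, sub_eq_add_neg, ee_add, mul_assoc]; rfl
  refine ⟨fun e => c e * (κ (p e) * κ (q e) * κ (r e) * κ (s e)) / (κ i * κ j), p, q, r, s,
    fun z w => ?_⟩
  obtain ⟨x, rfl⟩ := (per_bijective hτ).2 z
  obtain ⟨y, rfl⟩ := (per_bijective hτ).2 w
  have h1 := h x y
  have h2 : ee (2 * (fa (x + y) ⬝ᵥ per τ (x + y))) * ee (2 * (fa (x - y) ⬝ᵥ per τ (x - y))) =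
      ee (2 * (fa x ⬝ᵥ per τ x)) ^ 2 * ee (2 * (fa y ⬝ᵥ per τ y)) ^ 2 := by
    rw [sq, sq, ← ee_add, ← ee_add, ← ee_add, ← ee_add, sub_eq_add_neg, fa_add, fa_add, fa_neg,
      per_add, per_add, per_neg]
    simp only [add_dotProduct, dotProduct_add, neg_dotProduct, dotProduct_neg]
    congr 1
    ring
  simp only [hX] at h1
  rw [← per_add, ← per_sub]
  have h3 : ee (2 * (fa x ⬝ᵥ per τ x)) ^ 2 * ee (2 * (fa y ⬝ᵥ per τ y)) ^ 2 * (κ i * κ j) ≠ 0 :=
    mul_ne_zero (mul_ne_zero (pow_ne_zero _ (ee_ne_zero _)) (pow_ne_zero _ (ee_ne_zero _)))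
      (mul_ne_zero (hκ i) (hκ j))
  refine mul_left_cancel₀ h3 ?_
  rw [Finset.mul_sum]
  refine Eq.trans ?_ (h1.trans (Finset.sum_congr rfl fun e _ => ?_))
  · rw [← h2]
    ring
  · have := hκ i
    have := hκ j
    field_simp

/-- `Gam.law` for `XX_mem`. -/
theorem GG_shift (hτ : InH τ) (k n : ι ⊕ ι → ℤ) (z : ι → ℂ) : GG τ k (z + per τ (rz n)) =
    ee (-(4 * (fa (rz n) ⬝ᵥ τ *ᵥ fa (rz n)) / 2) - 4 * (fa (rz n) ⬝ᵥ z)) * GG τ k z := by
  have h := Gam.law hτ (XX_mem hτ k)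
    (F := fun z => ee (-(fa (hf k) ⬝ᵥ fb (hf k) / 2)) * GG τ k z) (fun x => by
      rw [XX_eq hτ.1, sub_eq_add_neg, ee_add, mul_assoc]
      congr 2
      push_cast
      ring) n z
  refine mul_left_cancel₀ (ee_ne_zero (-(fa (hf k) ⬝ᵥ fb (hf k) / 2))) ?_
  rw [h, mul_left_comm]
  rfl

/-- Differentiate `GG_law` in `z` along `v`: for all `u` there is `ν u` with
`fderiv (GG i) u v = ν u * GG i u` for all `i`; `ν` is entire (`entire_of_ratio`), by `GG_shift`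
it changes by `-8 π i (n₁ v)` under the lattice; `entire_const_of_shift`. -/
theorem GG_imm (hτ : InH τ) {z v : ι → ℂ} {μ : ℂ}
    (h : ∀ e : ι ⊕ ι → Fin 2, fderiv ℂ (GG τ (bz e)) z v = μ * GG τ (bz e) z) : v = 0 := by
  classical
  have hd : ∀ k u, HasDerivAt (fun t : ℂ => GG τ k (u + t • v)) (fderiv ℂ (GG τ k) u v) 0 :=
    fun k u => by
    have h1 : HasDerivAt (fun t : ℂ => u + t • v) v 0 := by
      simpa using ((hasDerivAt_id (0 : ℂ)).smul_const v).const_add u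
    have h2 : HasFDerivAt (GG τ k) (fderiv ℂ (GG τ k) u) (u + (0 : ℂ) • v) := by
      simpa using (differentiable_GG hτ k u).hasFDerivAt
    exact HasFDerivAt.comp_hasDerivAt (l := GG τ k) (f := fun t : ℂ => u + t • v) (0 : ℂ) h2 h1
  have hk : ∀ k, fderiv ℂ (GG τ k) z v = μ * GG τ k z := fun k => by
    obtain ⟨e, n, rfl⟩ := exists_bz k
    obtain ⟨c, hc⟩ := GG_add_two τ (bz e) n
    have h1 := hd (bz e + (2 : ℤ) • n) z
    simp only [hc] at h1
    rw [h1.unique ((hd (bz e) z).const_mul c), hc, h, mul_left_comm]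
  have key : ∀ i j w, fderiv ℂ (GG τ i) (z + w) v * GG τ j (z - w) +
      GG τ i (z + w) * fderiv ℂ (GG τ j) (z - w) v =
        2 * μ * (GG τ i (z + w) * GG τ j (z - w)) := fun i j w => by
    obtain ⟨c, p, q, r, s, hl⟩ := GG_law hτ i j
    have h1 := (hd i (z + w)).fun_mul (hd j (z - w))
    have h2 := HasDerivAt.fun_sum (u := Finset.univ) fun e _ =>
      ((((hd (p e) z).fun_mul (hd (q e) z)).const_mul (c e)).mul_const
        (GG τ (r e) w * GG τ (s e) w))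
    have h3 : (fun t : ℂ => GG τ i (z + w + t • v) * GG τ j (z - w + t • v)) = fun t : ℂ =>
        ∑ e, c e * (GG τ (p e) (z + t • v) * GG τ (q e) (z + t • v)) *
          (GG τ (r e) w * GG τ (s e) w) := by
      funext t
      rw [← hl, add_right_comm, sub_add_eq_add_sub]
    rw [h3] at h1
    have h4 := h1.unique h2
    simp only [zero_smul, add_zero, hk] at h4
    rw [h4, hl, Finset.mul_sum]
    exact Finset.sum_congr rfl fun e _ => by ring
  have hν : ∀ u, ∃ ν : ℂ, ∀ i, fderiv ℂ (GG τ i) u v = ν * GG τ i u := fun u => by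
    obtain ⟨e, he⟩ := GG_bpf hτ (z - (u - z))
    refine ⟨2 * μ - fderiv ℂ (GG τ (bz e)) (z - (u - z)) v / GG τ (bz e) (z - (u - z)),
      fun i => ?_⟩
    have h1 := key i (bz e) (u - z)
    rw [add_sub_cancel] at h1
    field_simp
    linear_combination h1
  choose ν hν using hν
  have hdν : Differentiable ℂ ν :=
    entire_of_ratio (F := fun (e : ι ⊕ ι → Fin 2) u => fderiv ℂ (GG τ (bz e)) u v)
      (G := fun e => GG τ (bz e))
      (fun e => (differentiableOn_univ.1 (Pool.Agent.Lib.MP_a47f92_an.Osg.differentiableOn_fderiv_of_isOpen isOpen_univ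
        (differentiable_GG hτ _).differentiableOn)).clm_apply (differentiable_const v))
      (fun e => differentiable_GG hτ _) (GG_bpf hτ) fun e u => hν u _
  have hs := entire_const_of_shift hτ hdν ((-(8 * Real.pi * I) : ℂ) • v) fun n u => by
    obtain ⟨e, he⟩ := GG_bpf hτ u
    have h1 := hd (bz e) (u + per τ (rz n))
    simp only [add_right_comm u (per τ (rz n)), GG_shift hτ] at h1
    set A := -(4 * (fa (rz n) ⬝ᵥ τ *ᵥ fa (rz n)) / 2)
    have h2 : HasDerivAt (fun t : ℂ => ee (A - 4 * (fa (rz n) ⬝ᵥ (u + t • v))))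
        (ee (A - 4 * (fa (rz n) ⬝ᵥ u)) * (-(8 * Real.pi * I) * (fa (rz n) ⬝ᵥ v))) 0 := by
      have h3 : HasDerivAt
          (fun t : ℂ => 2 * Real.pi * I * (A - 4 * (fa (rz n) ⬝ᵥ u + t * (fa (rz n) ⬝ᵥ v))))
          (-(8 * Real.pi * I) * (fa (rz n) ⬝ᵥ v)) 0 := by
        refine ((((((hasDerivAt_id' (0 : ℂ)).mul_const (fa (rz n) ⬝ᵥ v)).const_add
          (fa (rz n) ⬝ᵥ u)).const_mul 4).const_sub A).const_mul (2 * Real.pi * I)).congr_deriv ?_
        ring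
      simpa [ee, dotProduct_add, dotProduct_smul] using h3.cexp
    have h4 := h1.unique (h2.fun_mul (hd (bz e) u))
    simp only [zero_smul, add_zero, hν, GG_shift hτ] at h4
    refine mul_right_cancel₀ (mul_ne_zero (ee_ne_zero (A - 4 * (fa (rz n) ⬝ᵥ u))) he) ?_
    rw [h4, dotProduct_smul, smul_eq_mul]
    ring
  refine (smul_eq_zero.1 hs).resolve_left (neg_ne_zero.2 ?_)
  exact mul_ne_zero (mul_ne_zero (by norm_num) (ofReal_ne_zero.2 Real.pi_ne_zero)) I_ne_zero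

end M4
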