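import Mathlib
import Pool.Agent.Lib.MP_33b3f9_ag.M4.ThImm

/-!
The theta null map is an immersion.
-/

set_option autoImplicit false

namespace M4

open Complex Matrix

variable {ι : Type} [Fintype ι] {τ : Matrix ι ι ℂ}

/-- The derivative in `τ` of the coordinates at a fixed real point. -/
noncomputable def dX (τ : Matrix ι ι ℂ) (ξ : ι → ι → ℂ) (k : ι ⊕ ι → ℤ) (x : ι ⊕ ι → ℝ) : ℂ :=
  fderiv ℂ (fun σ : ι → ι → ℂ => XX (Matrix.of σ) k x) (fun i j => τ i j) ξ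

theorem thnull_line (τ : Matrix ι ι ℂ) (ξ : ι → ι → ℂ) :
    HasDerivAt (fun s : ℂ => (fun i j => τ i j) + s • ξ) ξ 0 := by
  simpa using ((hasDerivAt_id (0 : ℂ)).smul_const ξ).const_add fun i j => τ i j

/-- Along the line `τ + s ξ`, which stays in the Siegel space for small `s`. -/
theorem hasDerivAt_XX (hτ : InH τ) (ξ : ι → ι → ℂ) (k : ι ⊕ ι → ℤ) (x : ι ⊕ ι → ℝ) :
    HasDerivAt (fun s : ℂ => XX (τ + s • Matrix.of ξ) k x) (dX τ ξ k x) 0 := by
  have h : DifferentiableAt ℂ (fun σ : ι → ι → ℂ => XX (Matrix.of σ) k x) fun i j => τ i j :=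
    ((differentiableOn_Th _).differentiableAt (isOpen_posIm.mem_nhds hτ.posIm)).const_mul _
  exact h.hasFDerivAt.comp_hasDerivAt_of_eq 0 (thnull_line τ ξ) (by funext i j; simp)

theorem eventually_inH (hτ : InH τ) {ξ : ι → ι → ℂ} (hξ : (Matrix.of ξ).IsSymm) :
    ∀ᶠ s : ℂ in nhds 0, InH (τ + s • Matrix.of ξ) := by
  have h : ∀ᶠ s : ℂ in nhds 0, (fun i j => τ i j) + s • ξ ∈ PosIm ι :=
    (thnull_line τ ξ).continuousAt.eventually_mem
      (isOpen_posIm.mem_nhds (by simpa using hτ.posIm))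
  filter_upwards [h] with s hs
  have h1 : (τ + s • Matrix.of ξ).IsSymm := hτ.1.add (hξ.smul s)
  refine ⟨h1, PosDef.of_dotProduct_mulVec_pos (isHermitian_iff_isSymm.2 (h1.map im))
    fun x hx => (hs x hx).trans_eq ?_⟩
  simp only [dotProduct, mulVec, Finset.mul_sum, star_trivial]
  refine Finset.sum_congr rfl fun i _ => Finset.sum_congr rfl fun j _ => ?_
  change ((τ + s • Matrix.of ξ) i j).im * x i * x j =
    x i * (((τ + s • Matrix.of ξ) i j).im * x j)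
  ring

theorem thnull_four (hτ : InH τ) (ξ : ι → ι → ℂ) (i j k l : ι ⊕ ι → ℤ) (x y z w : ι ⊕ ι → ℝ) :
    HasDerivAt (fun s : ℂ => XX (τ + s • Matrix.of ξ) i x * XX (τ + s • Matrix.of ξ) j y *
      XX (τ + s • Matrix.of ξ) k z * XX (τ + s • Matrix.of ξ) l w)
      (dX τ ξ i x * XX τ j y * XX τ k z * XX τ l w + XX τ i x * dX τ ξ j y * XX τ k z * XX τ l w +
        XX τ i x * XX τ j y * dX τ ξ k z * XX τ l w +
        XX τ i x * XX τ j y * XX τ k z * dX τ ξ l w) 0 := by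
  refine ((((hasDerivAt_XX hτ ξ i x).fun_mul (hasDerivAt_XX hτ ξ j y)).fun_mul
    (hasDerivAt_XX hτ ξ k z)).fun_mul (hasDerivAt_XX hτ ξ l w)).congr_deriv ?_
  simp only [zero_smul, add_zero]
  ring

theorem thnull_quartic (hτ : InH τ) {ξ : ι → ι → ℂ} (hξ : (Matrix.of ξ).IsSymm) {μ₀ μ₂ : ℂ}
    {x : ι ⊕ ι → ℝ} (h0 : ∀ k, dX τ ξ k 0 = μ₀ * XX τ k 0)
    (h2 : ∀ k, dX τ ξ k ((2 : ℝ) • x) = μ₂ * XX τ k ((2 : ℝ) • x)) {i j k l s : ι ⊕ ι → ℤ}
    (h : i + j + k + l = (2 : ℤ) • s) :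
    dX τ ξ i x * XX τ j x * XX τ k x * XX τ l x + XX τ i x * dX τ ξ j x * XX τ k x * XX τ l x +
        XX τ i x * XX τ j x * dX τ ξ k x * XX τ l x + XX τ i x * XX τ j x * XX τ k x * dX τ ξ l x =
      (μ₂ + 3 * μ₀) * (XX τ i x * XX τ j x * XX τ k x * XX τ l x) := by
  classical
  have h1 := (thnull_four hτ ξ i j k l x x x x).const_mul ((2 : ℂ) ^ Fintype.card ι)
  have h3 := HasDerivAt.fun_sum (u := Finset.univ) fun (e : ι ⊕ ι → Fin 2) _ =>
    (thnull_four hτ ξ (s + bz e) (s - k - l + bz e) (s - j - l + bz e) (s - j - k + bz e)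
      ((2 : ℝ) • x) 0 0 0).const_mul (chi (bz e) * ee (E (hf (bz e)) (hf i)))
  have h4 := h1.unique (h3.congr_of_eventuallyEq (by
    filter_upwards [eventually_inH hτ hξ] with t ht
    simpa only [XX_zero] using XX_dup ht h x))
  refine mul_left_cancel₀ (pow_ne_zero (Fintype.card ι) (two_ne_zero (α := ℂ))) ?_
  rw [h4, mul_left_comm, XX_dup hτ h x, Finset.mul_sum]
  refine Finset.sum_congr rfl fun e _ => ?_
  simp only [h0, h2, XX_zero]
  ring

/-- Differentiate `XX_dup` along the line: every quartic monomial `M` with even index sum has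
`dM = κ M`, `κ = μ₂ + 3 μ₀`. Take `j` with `XX j x ≠ 0`: `(j, j, j, j)` gives
`dX j = κ / 4 * XX j`, the same for all `j` with `XX j x ≠ 0`; if `XX i x = 0` use `(i, j, k, l)`
from `XX_nv`. Indices are reduced to bits by `exists_bz`, `XX_add_two` (constants do not depend
on `τ`). -/
theorem dX_half (hτ : InH τ) {ξ : ι → ι → ℂ} (hξ : (Matrix.of ξ).IsSymm) {μ₀ μ₂ : ℂ}
    {x : ι ⊕ ι → ℝ} (h0 : ∀ k, dX τ ξ k 0 = μ₀ * XX τ k 0)
    (h2 : ∀ k, dX τ ξ k ((2 : ℝ) • x) = μ₂ * XX τ k ((2 : ℝ) • x)) :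
    ∃ μ, ∀ k, dX τ ξ k x = μ * XX τ k x := by
  classical
  have h1 : ∀ j, XX τ j x ≠ 0 → dX τ ξ j x = (μ₂ + 3 * μ₀) / 4 * XX τ j x := fun j hj => by
    have h := thnull_quartic hτ hξ h0 h2 (i := j) (j := j) (k := j) (l := j) (s := j + j)
      (by rw [two_smul]; abel)
    refine mul_right_cancel₀ (pow_ne_zero 3 hj) ?_
    linear_combination h / 4
  obtain ⟨e, he⟩ := XX_bpf hτ x
  refine ⟨(μ₂ + 3 * μ₀) / 4, fun i => ?_⟩
  obtain ⟨k, l, s, h, hk, hl⟩ := XX_nv hτ x (i + bz e)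
  have h3 := thnull_quartic hτ hξ h0 h2 h
  rw [h1 _ he, h1 _ hk, h1 _ hl] at h3
  refine mul_right_cancel₀ (mul_ne_zero he (mul_ne_zero hk hl)) ?_
  linear_combination h3

end M4
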