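import Mathlib
import Pool.Agent.Lib.MP_33b3f9_ag.M4.ThNull

/-!
The theta null map is an immersion, second half.
-/

set_option autoImplicit false

namespace M4

open Complex Matrix

variable {ι : Type} [Fintype ι] {τ : Matrix ι ι ℂ}

/-- The derivative in `τ` of the entire coordinates. -/
noncomputable def dG (τ : Matrix ι ι ℂ) (ξ : ι → ι → ℂ) (k : ι ⊕ ι → ℤ) (z : ι → ℂ) : ℂ :=
  fderiv ℂ (fun p : (ι → ι → ℂ) × (ι → ℂ) => GG (Matrix.of p.1) k p.2) (fun i j => τ i j, z) (ξ, 0)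

theorem null2_on (k : ι ⊕ ι → ℤ) : DifferentiableOn ℂ
    (fun p : (ι → ι → ℂ) × (ι → ℂ) => GG (Matrix.of p.1) k p.2) (PosIm ι ×ˢ Set.univ) := by
  have h : Differentiable ℂ fun p : (ι → ι → ℂ) × (ι → ℂ) => (p.1, (2 : ℂ) • p.2) := by fun_prop
  exact (differentiableOn_thc (hf k)).comp h.differentiableOn fun p hp => ⟨hp.1, trivial⟩

theorem null2_open : IsOpen (PosIm ι ×ˢ (Set.univ : Set (ι → ℂ))) := isOpen_posIm.prod isOpen_univ

theorem null2_at (hτ : InH τ) (k : ι ⊕ ι → ℤ) (z : ι → ℂ) : DifferentiableAt ℂ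
    (fun p : (ι → ι → ℂ) × (ι → ℂ) => GG (Matrix.of p.1) k p.2) (fun i j => τ i j, z) :=
  (null2_on k).differentiableAt (null2_open.mem_nhds ⟨hτ.posIm, trivial⟩)

/-- `Osg.differentiableOn_fderiv_of_isOpen`, `differentiableOn_thc`. -/
theorem differentiable_dG (hτ : InH τ) (ξ : ι → ι → ℂ) (k : ι ⊕ ι → ℤ) :
    Differentiable ℂ (dG τ ξ k) := by
  intro z
  have h1 := (Pool.Agent.Lib.MP_a47f92_an.Osg.differentiableOn_fderiv_of_isOpen null2_open
    (null2_on k)).differentiableAt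
    (null2_open.mem_nhds (show (fun i j => τ i j, z) ∈ _ from ⟨hτ.posIm, trivial⟩))
  have h2 : DifferentiableAt ℂ (fun w : ι → ℂ => ((fun i j => τ i j : ι → ι → ℂ), w)) z := by
    fun_prop
  exact (h1.comp z h2).clm_apply (differentiableAt_const _)

theorem null2_snd (hτ : InH τ) (k : ι ⊕ ι → ℤ) (z v : ι → ℂ) :
    fderiv ℂ (fun p : (ι → ι → ℂ) × (ι → ℂ) => GG (Matrix.of p.1) k p.2) (fun i j => τ i j, z)
      (0, v) = fderiv ℂ (GG τ k) z v := by
  have h := (null2_at hτ k z).hasFDerivAt.comp z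
    (hasFDerivAt_prodMk_right (𝕜 := ℂ) (fun i j => τ i j : ι → ι → ℂ) z)
  have h' : HasFDerivAt (GG τ k) _ z := h
  rw [h'.fderiv]
  rfl

theorem null2_ee (A B : ℂ) :
    HasDerivAt (fun s : ℂ => ee (A + s * B)) (ee A * (2 * Real.pi * I * B)) 0 := by
  have h := ((((hasDerivAt_id (0 : ℂ)).mul_const B).const_add A).const_mul
    (2 * Real.pi * I : ℂ)).cexp
  simpa [ee] using h

/-- Chain rule in `XX_eq` along the line. -/
theorem dX_eq (hτ : InH τ) {ξ : ι → ι → ℂ} (hξ : (Matrix.of ξ).IsSymm) (k : ι ⊕ ι → ℤ)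
    (x : ι ⊕ ι → ℝ) : dX τ ξ k x = ee (2 * (fa x ⬝ᵥ per τ x) - fa (hf k) ⬝ᵥ fb (hf k) / 2) *
      (4 * Real.pi * I * (fa x ⬝ᵥ Matrix.of ξ *ᵥ fa x) * GG τ k (per τ x) + dG τ ξ k (per τ x) +
        fderiv ℂ (GG τ k) (per τ x) (Matrix.of ξ *ᵥ fa x)) := by
  have hp : ∀ s : ℂ, per (τ + s • Matrix.of ξ) x = per τ x + s • (Matrix.of ξ *ᵥ fa x) := by
    intro s
    simp only [per, add_mulVec, smul_mulVec]
    abel
  have hl : HasDerivAt (fun s : ℂ => ((fun i j => τ i j : ι → ι → ℂ) + s • ξ,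
      per τ x + s • (Matrix.of ξ *ᵥ fa x))) (ξ, Matrix.of ξ *ᵥ fa x) 0 := by
    have h1 := ((hasDerivAt_id (0 : ℂ)).smul_const ξ).const_add (fun i j => τ i j : ι → ι → ℂ)
    have h2 := ((hasDerivAt_id (0 : ℂ)).smul_const (Matrix.of ξ *ᵥ fa x)).const_add (per τ x)
    simpa using h1.prodMk h2
  have h2 := (null2_at hτ k (per τ x)).hasFDerivAt.comp_hasDerivAt_of_eq (0 : ℂ) hl (by simp)
  have h3 := (null2_ee (2 * (fa x ⬝ᵥ per τ x) - fa (hf k) ⬝ᵥ fb (hf k) / 2)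
    (2 * (fa x ⬝ᵥ Matrix.of ξ *ᵥ fa x))).mul h2
  have h4 : HasDerivAt (fun s : ℂ => XX (τ + s • Matrix.of ξ) k x) _ 0 :=
    h3.congr_of_eventuallyEq (Filter.Eventually.of_forall fun s => by
      beta_reduce
      rw [XX_eq (hτ.1.add (hξ.smul s)), hp, dotProduct_add, dotProduct_smul, smul_eq_mul]
      exact congrArg₂ (· * ·) (congrArg ee (by ring)) rfl)
  rw [(hasDerivAt_XX hτ ξ k x).unique h4]
  have h5 : ((ξ, Matrix.of ξ *ᵥ fa x) : (ι → ι → ℂ) × (ι → ℂ)) =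
      (ξ, 0) + (0, Matrix.of ξ *ᵥ fa x) := by simp
  rw [h5, map_add, null2_snd hτ]
  simp only [Function.comp, zero_smul, add_zero, zero_mul]
  change _ * _ * GG τ k (per τ x) + _ * (dG τ ξ k (per τ x) + _) = _
  ring

theorem null2_const (hτ : InH τ) (ξ : ι → ι → ℂ) {k l : ι ⊕ ι → ℤ} {x y : ι ⊕ ι → ℝ} {c : ℂ}
    (h : ∀ σ : Matrix ι ι ℂ, XX σ k x = c * XX σ l y) : dX τ ξ k x = c * dX τ ξ l y := by
  refine (hasDerivAt_XX hτ ξ k x).unique ?_
  simp only [h]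
  exact (hasDerivAt_XX hτ ξ l y).const_mul c

theorem null2_rz (k n : ι ⊕ ι → ℤ) :
    ∃ c : ℂ, ∀ σ : Matrix ι ι ℂ, XX σ k (rz n) = c * XX σ k 0 := by
  refine ⟨ee ((1 : ℝ) * E (hf k) ((2 : ℝ) • rz n) / 2) *
    ((ee ((1 : ℝ) * E (rz ((2 : ℤ) • n)) (hf k) / 2))⁻¹ * chi ((2 : ℤ) • n)), fun σ => ?_⟩
  have h := congrFun (U_rz_Th σ ((2 : ℤ) • n)) (hf k)
  rw [U_apply, Pi.smul_apply, smul_eq_mul] at h
  rw [XX_zero, XX, U_apply, mul_assoc, mul_assoc, ← h, inv_mul_cancel_left₀ (ee_ne_zero _),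
    rz_smul, add_comm, Int.cast_ofNat]

theorem null2_cont (hτ : InH τ) {ξ : ι → ι → ℂ} (hξ : (Matrix.of ξ).IsSymm) (k : ι ⊕ ι → ℤ) :
    Continuous (dX τ ξ k) := by
  rw [funext (dX_eq hτ hξ k)]
  have hp := continuous_per τ
  have hv : Continuous fun x : ι ⊕ ι → ℝ => Matrix.of ξ *ᵥ fa x :=
    continuous_const.matrix_mulVec continuous_fa
  have hd : Continuous (fderiv ℂ (GG τ k)) :=
    (differentiableOn_univ.1 (Pool.Agent.Lib.MP_a47f92_an.Osg.differentiableOn_fderiv_of_isOpen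
      isOpen_univ (differentiable_GG hτ k).differentiableOn)).continuous
  exact (differentiable_ee.continuous.comp ((continuous_const.mul
    (continuous_fa.dotProduct hp)).sub continuous_const)).mul
    ((((continuous_const.mul (continuous_fa.dotProduct hv)).mul
      ((differentiable_GG hτ k).continuous.comp hp)).add
      ((differentiable_dG hτ ξ k).continuous.comp hp)).add ((hd.comp hp).clm_apply hv))

omit [Fintype ι] in
theorem null2_lim (x : ι ⊕ ι → ℝ) : Filter.Tendsto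
    (fun m : ℕ => (1 / 2 : ℝ) ^ m • rz fun i => ⌊2 ^ m * x i⌋) Filter.atTop (nhds x) := by
  refine tendsto_pi_nhds.2 fun i => ?_
  have h0 : Filter.Tendsto (fun m : ℕ => x i - (1 / 2 : ℝ) ^ m) Filter.atTop (nhds (x i)) := by
    simpa using (tendsto_pow_atTop_nhds_zero_of_lt_one (r := (1 / 2 : ℝ)) (by norm_num)
      (by norm_num)).const_sub (x i)
  have h1 : ∀ m : ℕ, (1 / 2 : ℝ) ^ m * 2 ^ m = 1 := fun m => by
    rw [← mul_pow]
    norm_num
  refine tendsto_of_tendsto_of_tendsto_of_le_of_le h0 tendsto_const_nhds (fun m => ?_) fun m => ?_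
  · have h2 := mul_le_mul_of_nonneg_left (Int.sub_one_lt_floor (2 ^ m * x i)).le
      (show (0 : ℝ) ≤ (1 / 2) ^ m by positivity)
    rw [mul_sub, ← mul_assoc, h1, one_mul, mul_one] at h2
    exact h2
  · have h2 := mul_le_mul_of_nonneg_left (Int.floor_le (2 ^ m * x i))
      (show (0 : ℝ) ≤ (1 / 2) ^ m by positivity)
    rw [← mul_assoc, h1, one_mul] at h2
    exact h2

/-- At lattice points by periodicity, at dyadic points by `dX_half`, everywhere by density: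
the minors `dX k * XX l - dX l * XX k` are continuous in `x` (see `dX_eq`). -/
theorem dX_all (hτ : InH τ) {ξ : ι → ι → ℂ} (hξ : (Matrix.of ξ).IsSymm) {μ₀ : ℂ}
    (h0 : ∀ k, dX τ ξ k 0 = μ₀ * XX τ k 0) (k l : ι ⊕ ι → ℤ) (x : ι ⊕ ι → ℝ) :
    dX τ ξ k x * XX τ l x = dX τ ξ l x * XX τ k x := by
  have h1 : ∀ (m : ℕ) (n : ι ⊕ ι → ℤ), ∃ μ, ∀ j,
      dX τ ξ j ((1 / 2 : ℝ) ^ m • rz n) = μ * XX τ j ((1 / 2 : ℝ) ^ m • rz n) := by
    intro m n
    induction m with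
    | zero =>
      refine ⟨μ₀, fun j => ?_⟩
      obtain ⟨c, hc⟩ := null2_rz j n
      rw [pow_zero, one_smul, null2_const hτ ξ hc, hc, h0]
      ring
    | succ m ih =>
      obtain ⟨μ, hμ⟩ := ih
      have e : (2 : ℝ) • ((1 / 2 : ℝ) ^ (m + 1) • rz n) = (1 / 2 : ℝ) ^ m • rz n := by
        rw [smul_smul]
        congr 1
        ring
      exact dX_half hτ hξ h0 (μ₂ := μ) (by rw [e]; exact hμ)
  have hX : ∀ j, Continuous (XX τ j) := fun j => Hol.continuous (XX_mem hτ j).1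
  have hc : IsClosed {y | dX τ ξ k y * XX τ l y = dX τ ξ l y * XX τ k y} :=
    isClosed_eq ((null2_cont hτ hξ k).mul (hX l)) ((null2_cont hτ hξ l).mul (hX k))
  refine hc.mem_of_tendsto (null2_lim x) (Filter.Eventually.of_forall fun m => ?_)
  obtain ⟨μ, hμ⟩ := h1 m fun i => ⌊2 ^ m * x i⌋
  change _ * _ = _ * _
  rw [hμ, hμ]
  ring

/-- Immersion of the theta null map. Write `XX` by `XX_eq`; with `H k (σ, z) = GG σ k z` jointly
holomorphic the minors say `W z = - ω z (ξ a)` at `z = τ a + b`, `W` and `ω` entire. At `a = 0`: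
`W = 0` (`entire_eq_zero_of_real`); at fixed `a`: `ω z (ξ a) = 0` for all `z`; `GG_imm`. -/
theorem null_imm (hτ : InH τ) {ξ : ι → ι → ℂ} (hξ : (Matrix.of ξ).IsSymm) {μ : ℂ}
    (h : ∀ e : ι ⊕ ι → Fin 2, fderiv ℂ (fun σ : ι → ι → ℂ => Th (Matrix.of σ) (hf (bz e)))
      (fun i j => τ i j) ξ = μ * Th τ (hf (bz e))) : ξ = 0 := by
  classical
  have h0 : ∀ k, dX τ ξ k 0 = μ * XX τ k 0 := by
    intro k
    obtain ⟨e, n, rfl⟩ := exists_bz k
    have h1 : ∀ σ : Matrix ι ι ℂ, XX σ (bz e + (2 : ℤ) • n) 0 =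
        chi n * ee (E (hf (bz e)) (rz n) / 2) * XX σ (bz e) 0 := fun σ => by
      rw [XX_add_two]
      rfl
    have h2 : dX τ ξ (bz e) 0 = μ * XX τ (bz e) 0 := by
      simp only [dX, XX_zero]
      exact h e
    rw [null2_const hτ ξ h1, h1, h2]
    ring
  have h1 : ∀ k l x, (dG τ ξ k (per τ x) + fderiv ℂ (GG τ k) (per τ x) (Matrix.of ξ *ᵥ fa x)) *
      GG τ l (per τ x) = (dG τ ξ l (per τ x) +
        fderiv ℂ (GG τ l) (per τ x) (Matrix.of ξ *ᵥ fa x)) * GG τ k (per τ x) := by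
    intro k l x
    have h2 := dX_all hτ hξ h0 k l x
    rw [dX_eq hτ hξ, dX_eq hτ hξ, XX_eq hτ.1, XX_eq hτ.1] at h2
    refine mul_left_cancel₀ (mul_ne_zero
      (ee_ne_zero (2 * (fa x ⬝ᵥ per τ x) - fa (hf k) ⬝ᵥ fb (hf k) / 2))
      (ee_ne_zero (2 * (fa x ⬝ᵥ per τ x) - fa (hf l) ⬝ᵥ fb (hf l) / 2))) ?_
    simp only [GG] at h2 ⊢
    linear_combination h2
  have h2 : ∀ k l, (dG τ ξ k * GG τ l - dG τ ξ l * GG τ k) = 0 := by
    intro k l
    refine entire_eq_zero_of_real (((differentiable_dG hτ ξ k).mul (differentiable_GG hτ l)).sub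
      ((differentiable_dG hτ ξ l).mul (differentiable_GG hτ k))) 0 fun b => ?_
    have ha : fa (Sum.elim 0 b : ι ⊕ ι → ℝ) = 0 := by
      funext i
      simp [fa]
    have hb : per τ (Sum.elim 0 b) = 0 + fun i => (b i : ℂ) := by
      rw [per, ha, mulVec_zero]
      rfl
    have h3 := h1 k l (Sum.elim 0 b)
    rw [ha, hb, mulVec_zero, map_zero, map_zero, add_zero, add_zero] at h3
    exact sub_eq_zero.2 h3
  have h3 : ∀ x : ι ⊕ ι → ℝ, Matrix.of ξ *ᵥ fa x = 0 := by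
    intro x
    obtain ⟨e, he⟩ := GG_bpf hτ (per τ x)
    refine GG_imm hτ (z := per τ x) (μ := fderiv ℂ (GG τ (bz e)) (per τ x) (Matrix.of ξ *ᵥ fa x) /
      GG τ (bz e) (per τ x)) fun e' => ?_
    have h4 := congrFun (h2 (bz e') (bz e)) (per τ x)
    simp only [Pi.sub_apply, Pi.mul_apply, Pi.zero_apply] at h4
    rw [div_mul_eq_mul_div, eq_div_iff he]
    linear_combination h1 (bz e') (bz e) x - h4
  funext i j
  have h4 := congrFun (h3 (Pi.single (Sum.inl j) 1)) i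
  have h5 : fa (Pi.single (Sum.inl j) 1 : ι ⊕ ι → ℝ) = Pi.single j 1 := by
    funext a
    by_cases ha : a = j <;> simp [fa, ha]
  rw [h5, mulVec_single_one] at h4
  exact h4

end M4
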