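import Pool.Agent.Lib.MP_33b3f9_ag.M4.ModDefs
import Pool.Agent.Lib.MP_33b3f9_ag.M4.ThInj
import Pool.Agent.Lib.MP_33b3f9_ag.M4.ThNull2
import Pool.Agent.Lib.MP_33b3f9_ag.M4.ThExt

/-!
The facts on theta functions used for the theta null map, in the form in which they are used.
-/

set_option autoImplicit false

namespace M4.Mo

open Complex Matrix

variable {ι : Type} [Fintype ι]

theorem ee_add (s t : ℂ) : ee (s + t) = ee s * ee t := by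
  rw [ee, ee, ee, mul_add, Complex.exp_add]

theorem ee_zero : ee 0 = 1 := by simp [ee]

theorem ee_ne (t : ℂ) : ee t ≠ 0 := Complex.exp_ne_zero _

theorem ee_int (n : ℤ) : ee n = 1 := by
  rw [ee, mul_comm]
  exact Complex.exp_int_mul_two_pi_mul_I n

theorem ee_eq_one {t : ℂ} (h : ee t = 1) : ∃ n : ℤ, t = n := by
  obtain ⟨n, hn⟩ := Complex.exp_eq_one_iff.1 h
  refine ⟨n, mul_left_cancel₀ Complex.two_pi_I_ne_zero ?_⟩
  rw [hn, mul_comm]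

theorem norm_ee_real (t : ℝ) : ‖ee t‖ = 1 := by
  rw [ee, Complex.norm_exp]
  simp

theorem E_add_left (x x' y : ι ⊕ ι → ℝ) : E (x + x') y = E x y + E x' y := by
  simp only [E, Pi.add_apply, ← Finset.sum_add_distrib]
  exact Finset.sum_congr rfl fun i _ => by ring

theorem E_add_right (x y y' : ι ⊕ ι → ℝ) : E x (y + y') = E x y + E x y' := by
  simp only [E, Pi.add_apply, ← Finset.sum_add_distrib]
  exact Finset.sum_congr rfl fun i _ => by ring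

theorem E_smul_left (c : ℝ) (x y : ι ⊕ ι → ℝ) : E (c • x) y = c * E x y := by
  simp only [E, Pi.smul_apply, smul_eq_mul, Finset.mul_sum]
  exact Finset.sum_congr rfl fun i _ => by ring

theorem E_smul_right (c : ℝ) (x y : ι ⊕ ι → ℝ) : E x (c • y) = c * E x y := by
  simp only [E, Pi.smul_apply, smul_eq_mul, Finset.mul_sum]
  exact Finset.sum_congr rfl fun i _ => by ring

theorem E_comm (x y : ι ⊕ ι → ℝ) : E x y = -E y x := by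
  simp only [E, ← Finset.sum_neg_distrib]
  exact Finset.sum_congr rfl fun i _ => by ring

theorem E_self (x : ι ⊕ ι → ℝ) : E x x = 0 := by
  have := E_comm x x
  linarith

theorem E_zero_left (x : ι ⊕ ι → ℝ) : E 0 x = 0 := by simp [E]

theorem E_zero_right (x : ι ⊕ ι → ℝ) : E x 0 = 0 := by simp [E]

theorem rz_add {κ : Type} (x y : κ → ℤ) : rz (x + y) = rz x + rz y := by
  funext i
  simp [rz]

theorem rz_smul {κ : Type} (c : ℤ) (x : κ → ℤ) : rz (c • x) = (c : ℝ) • rz x := by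
  funext i
  simp [rz]

theorem rm_mulVec {κ : Type} [Fintype κ] (g : Matrix κ κ ℤ) (x : κ → ℤ) :
    rm g *ᵥ rz x = rz (g *ᵥ x) := by
  funext i
  simp [rm, rz, mulVec, dotProduct]

theorem rm_mul {κ : Type} [Fintype κ] (g h : Matrix κ κ ℤ) : rm (g * h) = rm g * rm h := by
  ext i j
  simp [rm, mul_apply]

theorem rm_one {κ : Type} [DecidableEq κ] : rm (1 : Matrix κ κ ℤ) = 1 := by
  ext i j
  by_cases h : i = j <;> simp [rm, one_apply, h]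

theorem chi_even (n : ι ⊕ ι → ℤ) : chi ((2 : ℤ) • n) = 1 := by
  have : ∑ i, ((2 : ℤ) • n) (Sum.inl i) * ((2 : ℤ) • n) (Sum.inr i) =
      2 * (2 * ∑ i, n (Sum.inl i) * n (Sum.inr i)) := by
    simp only [Pi.smul_apply, smul_eq_mul, Finset.mul_sum]
    exact Finset.sum_congr rfl fun i _ => by ring
  rw [chi, this, _root_.zpow_mul]
  norm_num

theorem norm_chi (n : ι ⊕ ι → ℤ) : ‖chi n‖ = 1 := by simp [chi]

/-- Quasi periodicity. -/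
theorem Th_add_rz {τ : Matrix ι ι ℂ} (hτ : InH τ) (x : ι ⊕ ι → ℝ) (n : ι ⊕ ι → ℤ) :
    Th τ (x + rz n) = chi n * ee (E x (rz n) / 2) * Th τ x := by
  have h := congrFun (U_rz_Th τ n) x
  have _ := hτ
  rw [U_apply, Pi.smul_apply, smul_eq_mul] at h
  have h2 : ee (E x (rz n) / 2) * ee (((1 : ℝ) : ℂ) * E (rz n) x / 2) = 1 := by
    rw [← ee_add, E_comm x (rz n)]
    push_cast
    rw [show -(E (rz n) x : ℂ) / 2 + 1 * E (rz n) x / 2 = 0 by ring, ee_zero]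
  linear_combination ee (E x (rz n) / 2) * h - Th τ (x + rz n) * h2

/-- The Riemann relation. -/
theorem riemann {τ : Matrix ι ι ℂ} [DecidableEq ι] (hτ : InH τ) (x₁ x₂ x₃ x₄ : ι ⊕ ι → ℝ) :
    Th τ x₁ * Th τ x₂ * Th τ x₃ * Th τ x₄ = ((2 : ℂ) ^ Fintype.card ι)⁻¹ *
      ∑ e : ι ⊕ ι → Fin 2, chi (bz e) *
        (U 1 (hf (bz e)) (Th τ) ((1 / 2 : ℝ) • (x₁ + x₂ + x₃ + x₄)) *
          U 1 (hf (bz e)) (Th τ) ((1 / 2 : ℝ) • (x₁ + x₂ - x₃ - x₄)) *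
          U 1 (hf (bz e)) (Th τ) ((1 / 2 : ℝ) • (x₁ - x₂ + x₃ - x₄)) *
          U 1 (hf (bz e)) (Th τ) ((1 / 2 : ℝ) • (x₁ - x₂ - x₃ + x₄))) := by
  have h := M4.riemann hτ 0 0 0 0 x₁ x₂ x₃ x₄
  have h0 : ∀ x, U 1 0 (Th τ) x = Th τ x := fun x => by simp [U]
  simp only [h0, hs, neg_zero, add_zero, smul_zero, zero_add, E_zero_right, ofReal_zero, ee_zero,
    mul_one, ← sub_eq_add_neg] at h
  rw [← h, ← mul_assoc, inv_mul_cancel₀ (pow_ne_zero _ two_ne_zero), one_mul]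

/-- No base points. -/
theorem bpf {τ : Matrix ι ι ℂ} (hτ : InH τ) (x : ι ⊕ ι → ℝ) :
    ∃ k : ι ⊕ ι → ℤ, Th τ (x + hf k) ≠ 0 := by
  obtain ⟨e, he, -⟩ := Th_nv hτ x x
  exact ⟨bz e, he⟩

/-- The level four coordinates separate points. -/
theorem inj {τ : Matrix ι ι ℂ} (hτ : InH τ) {x y : ι ⊕ ι → ℝ} {μ : ℂ}
    (h : ∀ k, XX τ k x = μ * XX τ k y) : ∃ n : ι ⊕ ι → ℤ, x = y + rz n := by
  obtain ⟨n, hn⟩ := XX_inj hτ fun e => h (bz e)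
  exact ⟨n, by rw [← hn]; abel⟩

/-- Relation with the classical theta functions. -/
theorem U_Th {τ : Matrix ι ι ℂ} (hτ : InH τ) (η x : ι ⊕ ι → ℝ) :
    U 1 η (Th τ) x =
      ee (fa x ⬝ᵥ per τ x / 2 - fa η ⬝ᵥ fb η / 2) * thc τ η (per τ x) :=
  M4.U_Th hτ.1 η x

theorem differentiable_thc {τ : Matrix ι ι ℂ} (hτ : InH τ) (η : ι ⊕ ι → ℝ) :
    Differentiable ℂ (thc τ η) :=
  M4.differentiable_thc hτ η

/-- The level four coordinates separate tangent vectors at the origin. -/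
theorem imm {τ : Matrix ι ι ℂ} (hτ : InH τ) {v : ι → ℂ}
    (h : ∀ k k' : ι ⊕ ι → ℤ, thc τ (hf k') 0 * fderiv ℂ (thc τ (hf k)) 0 v =
      thc τ (hf k) 0 * fderiv ℂ (thc τ (hf k')) 0 v) : v = 0 := by
  obtain ⟨e₀, he₀⟩ := GG_bpf hτ 0
  have hG : ∀ k, GG τ k 0 = thc τ (hf k) 0 := fun k => by simp [GG]
  have hd : ∀ k, fderiv ℂ (GG τ k) 0 v = 2 * fderiv ℂ (thc τ (hf k)) 0 v := fun k => by
    have h1 : HasFDerivAt (fun z : ι → ℂ => (2 : ℂ) • z)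
        ((2 : ℂ) • ContinuousLinearMap.id ℂ (ι → ℂ)) 0 :=
      ((2 : ℂ) • ContinuousLinearMap.id ℂ (ι → ℂ)).hasFDerivAt
    have h2 : HasFDerivAt (thc τ (hf k)) (fderiv ℂ (thc τ (hf k)) 0) ((2 : ℂ) • (0 : ι → ℂ)) := by
      rw [smul_zero]
      exact (differentiable_thc hτ _ 0).hasFDerivAt
    have h3 : HasFDerivAt (GG τ k) _ 0 := h2.comp 0 h1
    rw [h3.fderiv]
    simp
  refine GG_imm hτ (z := 0) (μ := fderiv ℂ (GG τ (bz e₀)) 0 v / GG τ (bz e₀) 0) fun e => ?_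
  rw [div_mul_eq_mul_div, eq_div_iff he₀, hd, hd, hG, hG]
  linear_combination 2 * h (bz e) (bz e₀)

theorem continuousOn_Th :
    ContinuousOn (fun p : (ι → ι → ℂ) × (ι ⊕ ι → ℝ) => Th p.1 p.2) {p | InH p.1} :=
  M4.continuousOn_Th.mono fun _ hp => ⟨InH.posIm hp, trivial⟩

theorem differentiableAt_Th {τ : ι → ι → ℂ} (hτ : InH τ) (x : ι ⊕ ι → ℝ) :
    DifferentiableAt ℂ (fun σ : ι → ι → ℂ => Th σ x) τ :=
  (differentiableOn_Th x).differentiableAt (isOpen_posIm.mem_nhds (InH.posIm hτ))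

/-- The theta null map is an immersion. -/
theorem null_imm {τ : ι → ι → ℂ} (hτ : InH τ) {ξ : ι → ι → ℂ} (hξ : ∀ i j, ξ i j = ξ j i) {c : ℂ}
    (h : ∀ k : ι ⊕ ι → ℤ, fderiv ℂ (fun σ : ι → ι → ℂ => Th σ (hf k)) τ ξ = c * Th τ (hf k)) :
    ξ = 0 :=
  M4.null_imm hτ (ξ := ξ) (by ext i j; exact hξ j i) fun e => h (bz e)

theorem summable_gauss {τ : Matrix ι ι ℂ} (hτ : InH τ) (a : ι → ℝ) :
    Summable fun n : ι → ℤ =>
      Real.exp (-(Real.pi * ((rz n + a) ⬝ᵥ τ.map im *ᵥ (rz n + a)))) := by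
  have h := summable_norm_term hτ (Sum.elim a 0) 0
  simp only [norm_term_zero, neg_mul] at h
  exact h

theorem norm_Th_le {τ : Matrix ι ι ℂ} (hτ : InH τ) (x : ι ⊕ ι → ℝ) :
    ‖Th τ x‖ ≤ ∑' n : ι → ℤ, Real.exp (-(Real.pi * ((rz n + fun i => x (Sum.inl i)) ⬝ᵥ
      τ.map im *ᵥ (rz n + fun i => x (Sum.inl i))))) := by
  have h := M4.norm_Th_le hτ x
  simp only [neg_mul] at h
  exact h

variable [DecidableEq ι]

theorem sim_iff {g : Matrix (ι ⊕ ι) (ι ⊕ ι) ℤ} :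
    Sim (rm g) 1 ↔ g ∈ Matrix.symplecticGroup ι ℤ :=
  sim_mz_iff

theorem sim_sp (γ : SpZ ι) : Sim (rm γ.1) 1 := sim_iff.2 γ.2

theorem EZ_sp (γ : SpZ ι) (x y : ι ⊕ ι → ℤ) : EZ (γ.1 *ᵥ x) (γ.1 *ᵥ y) = EZ x y := by
  have h := sim_sp γ (rz x) (rz y)
  rw [rm_mulVec, rm_mulVec, E_rz, E_rz, one_mul] at h
  exact_mod_cast h

theorem inH_act {g : Matrix (ι ⊕ ι) (ι ⊕ ι) ℝ} {m : ℝ} (hg : Sim g m) (hm : 0 < m)
    {τ : Matrix ι ι ℂ} (hτ : InH τ) : InH (act g τ) :=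
  M4.inH_act hg hm hτ

theorem rel_act {g : Matrix (ι ⊕ ι) (ι ⊕ ι) ℝ} {m : ℝ} (hg : Sim g m) (hm : 0 < m)
    {τ : Matrix ι ι ℂ} (hτ : InH τ) : Rel g τ (act g τ) :=
  M4.rel_act hg hm hτ

theorem eq_act {g : Matrix (ι ⊕ ι) (ι ⊕ ι) ℝ} {m : ℝ} (hg : Sim g m) (hm : 0 < m)
    {τ τ' : Matrix ι ι ℂ} (hτ : InH τ) (hτ' : InH τ') (h : Rel g τ τ') : τ' = act g τ :=
  have _ := hτ'
  (rel_iff_eq_act (den_det_ne_zero hg hm hτ)).1 h

theorem act_mul {g h : Matrix (ι ⊕ ι) (ι ⊕ ι) ℝ} {m n : ℝ} (hg : Sim g m) (hm : 0 < m)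
    (hh : Sim h n) (hn : 0 < n) {τ : Matrix ι ι ℂ} (hτ : InH τ) :
    act (g * h) τ = act g (act h τ) :=
  M4.act_mul (den_det_ne_zero hh hn hτ) (den_det_ne_zero hg hm (inH_act hh hn hτ))

theorem act_one (τ : Matrix ι ι ℂ) : act 1 τ = τ :=
  M4.act_one τ

theorem cst_act {g : Matrix (ι ⊕ ι) (ι ⊕ ι) ℝ} {m : ℝ} (hg : Sim g m) (hm : 0 < m)
    {τ : Matrix ι ι ℂ} (hτ : InH τ) : cst (act g τ) * g = g * cst τ :=
  M4.cst_act hg hm hτ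

theorem differentiableAt_act {g : Matrix (ι ⊕ ι) (ι ⊕ ι) ℝ} {m : ℝ} (hg : Sim g m) (hm : 0 < m)
    {τ : ι → ι → ℂ} (hτ : InH τ) :
    DifferentiableAt ℂ (fun σ : ι → ι → ℂ => (act g σ : ι → ι → ℂ)) τ := by
  refine (differentiableOn_act g).differentiableAt (IsOpen.mem_nhds ?_ (den_det_ne_zero hg hm hτ))
  refine isOpen_ne_fun (Continuous.matrix_det ?_) continuous_const
  exact continuous_const.sub (continuous_const.matrix_mul continuous_id)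

theorem chi_of_law (γ : SpZ ι) {τ : Matrix ι ι ℂ} (hτ : InH τ) {k : ι ⊕ ι → ℤ} {c : ℂ}
    (h : ∀ x, Th (actZ γ τ) (rm γ.1 *ᵥ x) = c * U 1 (hf k) (Th τ) x) (hc : c ≠ 0)
    (n : ι ⊕ ι → ℤ) : chi (γ.1 *ᵥ n) = chi n * ee (E (hf k) (rz n)) := by
  obtain ⟨l, hl⟩ := bpf hτ (hf k)
  have h1 : U 1 (hf k) (Th τ) (hf l) ≠ 0 := by
    rw [U_apply, add_comm]
    exact mul_ne_zero (ee_ne _) hl
  have h2 := congrFun ((U_Th_mem hτ (hf k)).2 n) (hf l)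
  have h3 := congrFun (U_rz_Th (actZ γ τ) (γ.1 *ᵥ n)) (rm γ.1 *ᵥ hf l)
  rw [U_apply, ← rm_mulVec, ← mulVec_add, sim_sp γ, Pi.smul_apply, h, h, one_mul (E _ _)] at h3
  rw [U_apply, Pi.smul_apply, pow_one, Nat.cast_one] at h2
  simp only [smul_eq_mul] at h2 h3
  refine mul_right_cancel₀ (mul_ne_zero hc h1) ?_
  linear_combination c * h2 - h3

theorem law_ne (γ : SpZ ι) {τ : Matrix ι ι ℂ} (hτ : InH τ) {c : ℂ}
    (h : c ^ 8 = (den (rm γ.1) τ).det ^ 4) : c ≠ 0 := by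
  rintro rfl
  exact pow_ne_zero 4 (den_det_ne_zero (sim_sp γ) one_pos hτ) (by rw [← h]; norm_num)

/-- The transformation law with its weight. -/
theorem transport_wt (γ : SpZ ι) : ∃ k : ι ⊕ ι → ℤ, ∀ τ : Matrix ι ι ℂ, InH τ → ∃ c : ℂ,
    c ^ 8 = (den (rm γ.1) τ).det ^ 4 ∧
      ∀ x, Th (actZ γ τ) (rm γ.1 *ᵥ x) = c * U 1 (hf k) (Th τ) x := by
  by_cases h0 : ∃ τ : Matrix ι ι ℂ, InH τ
  · obtain ⟨τ₀, hτ₀⟩ := h0
    obtain ⟨k, c₀, hc₀, h₀⟩ := law_of_mem γ.2 τ₀ hτ₀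
    refine ⟨k, fun τ hτ => ?_⟩
    obtain ⟨k', c, hc, h⟩ := law_of_mem γ.2 τ hτ
    obtain ⟨n, hn⟩ : ∃ n : ι ⊕ ι → ℤ, hf k' - hf k = rz n := by
      refine exists_rz_of_E fun n => ?_
      have h1 := (chi_of_law γ hτ₀ h₀ (law_ne γ hτ₀ hc₀) n).symm.trans
        (chi_of_law γ hτ h (law_ne γ hτ hc) n)
      have h2 := mul_left_cancel₀ (chi_ne_zero n) h1
      rw [E_sub_left, ofReal_sub, sub_eq_add_neg, ee_add, ee_neg, ← h2, mul_inv_cancel₀ (ee_ne _)]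
    have hk : hf k' = hf k + rz n := by rw [← hn]; abel
    refine ⟨c * (chi n * ee (E (hf k) (rz n) / 2)), ?_, fun x => ?_⟩
    · have h1 : chi n ^ 8 = 1 := by rw [show 8 = 2 * 4 from rfl, pow_mul, chi_sq, one_pow]
      have h2 : ee (E (hf k) (rz n) / 2) ^ 8 = 1 := by
        rw [← ee_nat_mul, hf, E_smul_left, E_rz, ← ee_int (2 * EZ k n)]
        congr 1
        push_cast
        ring
      rw [mul_pow, mul_pow, h1, h2, mul_one, mul_one]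
      exact hc
    · have h1 := h x
      rw [hk, U_add_rz_Th, Pi.smul_apply, smul_eq_mul, ← mul_assoc] at h1
      exact h1
  · exact ⟨0, fun τ hτ => (h0 ⟨τ, hτ⟩).elim⟩

/-- The transformation law, projectively. -/
theorem transport (γ : SpZ ι) : ∃ k : ι ⊕ ι → ℤ, ∀ τ : Matrix ι ι ℂ, InH τ → ∃ c : ℂ, c ≠ 0 ∧
    ∀ x, Th (actZ γ τ) (rm γ.1 *ᵥ x) = c * U 1 (hf k) (Th τ) x := by
  obtain ⟨k, hk⟩ := transport_wt γ
  refine ⟨k, fun τ hτ => ?_⟩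
  obtain ⟨c, hc, h⟩ := hk τ hτ
  exact ⟨c, law_ne γ hτ hc, h⟩

theorem transport_two_wt {γ : SpZ ι} (hγ : γ ∈ GamP ι 2) {τ : Matrix ι ι ℂ} (hτ : InH τ) :
    ∃ c : ℂ, c ^ 8 = (den (rm γ.1) τ).det ^ 4 ∧
      ∀ x, Th (actZ γ τ) (rm γ.1 *ᵥ x) = c * Th τ x := by
  obtain ⟨β, hβ⟩ := hγ
  refine law_of_even γ.2 (fun i j => ⟨β i j, ?_⟩) hτ
  rw [hβ, add_sub_cancel_left, Matrix.smul_apply, smul_eq_mul, Nat.cast_ofNat]

/-- The transformation law for matrices congruent to one modulo two. -/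
theorem transport_two {γ : SpZ ι} (hγ : γ ∈ GamP ι 2) {τ : Matrix ι ι ℂ} (hτ : InH τ) :
    ∃ c : ℂ, c ≠ 0 ∧ ∀ x, Th (actZ γ τ) (rm γ.1 *ᵥ x) = c * Th τ x := by
  obtain ⟨c, hc, h⟩ := transport_two_wt hγ hτ
  exact ⟨c, law_ne γ hτ hc, h⟩

theorem inH_actZ (γ : SpZ ι) {τ : Matrix ι ι ℂ} (hτ : InH τ) : InH (actZ γ τ) :=
  inH_act (sim_sp γ) one_pos hτ

theorem actZ_mul (γ δ : SpZ ι) {τ : Matrix ι ι ℂ} (hτ : InH τ) :
    actZ (γ * δ) τ = actZ γ (actZ δ τ) := by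
  have h : rm (γ * δ).1 = rm γ.1 * rm δ.1 := rm_mul _ _
  rw [actZ, h, act_mul (sim_sp γ) one_pos (sim_sp δ) one_pos hτ]
  rfl

theorem actZ_one (τ : Matrix ι ι ℂ) : actZ 1 τ = τ := by
  have h : rm (1 : SpZ ι).1 = 1 := rm_one
  rw [actZ, h, act_one]

theorem continuousAt_actZ (γ : SpZ ι) {τ : ι → ι → ℂ} (hτ : InH τ) :
    ContinuousAt (fun σ : ι → ι → ℂ => (actZ γ σ : ι → ι → ℂ)) τ :=
  (differentiableAt_act (sim_sp γ) one_pos hτ).continuousAt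

omit [DecidableEq ι] in
theorem hasLow (ι : Type) [Fintype ι] : HasLow ι := fun _ _ => by
  refine ⟨((2 : ℝ) ^ Fintype.card ι)⁻¹, by positivity, fun τ hτ _ => ?_⟩
  obtain ⟨e, he⟩ := null_low hτ
  refine ⟨bz e, ?_⟩
  by_contra hlt
  rw [not_le] at hlt
  have h1 : (1 : ℝ) ≤ 2 ^ Fintype.card ι := one_le_pow₀ one_le_two
  have h2 : ‖Th τ (hf (bz e))‖ ≤ 1 := hlt.le.trans (inv_le_one_of_one_le₀ h1)
  have h3 : ‖Th τ (hf (bz e))‖ ^ 3 ≤ ‖Th τ (hf (bz e))‖ :=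
    pow_le_of_le_one (norm_nonneg _) h2 (by norm_num)
  have h4 : (2 : ℝ) ^ Fintype.card ι * ‖Th τ (hf (bz e))‖ < 1 := by
    rw [← lt_div_iff₀' (by positivity), one_div]
    exact hlt
  nlinarith

end M4.Mo
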