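import Pool.Agent.Lib.MP_33b3f9_ag.M4.Fin
import Pool.Agent.Lib.MP_33b3f9_ag.M4.ModIf

/-!
Hecke norms: one equation for all isogenies of bounded degree.
-/

set_option autoImplicit false

namespace M4

open Complex Matrix

namespace Mo

section
open Polynomial

variable {σ : Type}

/-- `Q` is monic of degree `D` and homogeneous if the variable has weight `w`. -/
def WH (w D : ℕ) (Q : (MvPolynomial σ ℂ)[X]) : Prop :=
  Q.Monic ∧ Q.natDegree = D ∧ ∀ e d, e + d = D → (Q.coeff e).IsHomogeneous (w * d)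

theorem WH.one (w : ℕ) : WH (σ := σ) w 0 1 := by
  refine ⟨monic_one, natDegree_one, fun e d h => ?_⟩
  obtain ⟨rfl, rfl⟩ := Nat.add_eq_zero_iff.1 h
  simpa using MvPolynomial.isHomogeneous_one σ ℂ

theorem WH.mul {w D D' : ℕ} {Q Q' : (MvPolynomial σ ℂ)[X]} (h : WH w D Q) (h' : WH w D' Q') :
    WH w (D + D') (Q * Q') := by
  refine ⟨h.1.mul h'.1, by rw [h.1.natDegree_mul h'.1, h.2.1, h'.2.1], fun e d he => ?_⟩
  rw [coeff_mul]
  refine MvPolynomial.IsHomogeneous.sum _ _ _ fun x hx => ?_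
  have hx' : x.1 + x.2 = e := by simpa using hx
  rcases lt_or_ge D x.1 with h1 | h1
  · rw [coeff_eq_zero_of_natDegree_lt (h.2.1.symm ▸ h1), zero_mul]
    exact MvPolynomial.isHomogeneous_zero _ _ _
  rcases lt_or_ge D' x.2 with h2 | h2
  · rw [coeff_eq_zero_of_natDegree_lt (p := Q') (h'.2.1.symm ▸ h2), mul_zero]
    exact MvPolynomial.isHomogeneous_zero _ _ _
  have h3 := (h.2.2 x.1 (D - x.1) (by omega)).mul (h'.2.2 x.2 (D' - x.2) (by omega))
  rwa [← mul_add, show D - x.1 + (D' - x.2) = d by omega] at h3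

theorem WH.prod {α : Type} {w : ℕ} (s : Finset α) {D : α → ℕ} {Q : α → (MvPolynomial σ ℂ)[X]}
    (h : ∀ a ∈ s, WH w (D a) (Q a)) : WH w (∑ a ∈ s, D a) (∏ a ∈ s, Q a) := by
  classical
  induction s using Finset.induction_on with
  | empty => simpa using WH.one w
  | insert a s ha ih =>
    rw [Finset.sum_insert ha, Finset.prod_insert ha]
    exact (h a (Finset.mem_insert_self _ _)).mul (ih fun b hb => h b (Finset.mem_insert_of_mem hb))

theorem exists_WH {w D : ℕ} {c : ℕ → MvPolynomial σ ℂ}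
    (hc : ∀ e < D, (c e).IsHomogeneous (w * (D - e))) : ∃ Q, WH w D Q ∧ ∀ (v : σ → ℂ) (z : ℂ),
      Q.eval₂ (MvPolynomial.eval v) z =
        z ^ D + ∑ e ∈ Finset.range D, MvPolynomial.eval v (c e) * z ^ e := by
  let q : (MvPolynomial σ ℂ)[X] := ∑ e ∈ Finset.range D, C (c e) * X ^ e
  have hq : q.degree < D := by
    refine (degree_sum_le _ _).trans_lt ?_
    refine (Finset.sup_lt_iff (WithBot.bot_lt_coe D)).2 fun e he => ?_
    exact (degree_C_mul_X_pow_le e (c e)).trans_lt (WithBot.coe_lt_coe.2 (Finset.mem_range.1 he))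
  refine ⟨X ^ D + q, ⟨monic_X_pow_add hq, ?_, fun e d he => ?_⟩, fun v z => ?_⟩
  · rw [natDegree_add_eq_left_of_degree_lt (by rwa [degree_X_pow]), natDegree_X_pow]
  · rcases Nat.eq_zero_or_pos d with rfl | hd
    · rw [show e = D by omega, coeff_add, coeff_X_pow_self, coeff_eq_zero_of_degree_lt hq, add_zero]
      simpa using MvPolynomial.isHomogeneous_one σ ℂ
    · have h1 : (X ^ D + q).coeff e = c e := by
        rw [coeff_add, coeff_X_pow, if_neg (by omega), zero_add]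
        simp only [q, finsetSum_coeff, coeff_C_mul_X_pow]
        rw [Finset.sum_ite_eq, if_pos (Finset.mem_range.2 (by omega))]
      rw [h1, show d = D - e by omega]
      exact hc e (by omega)
  · simp [q, eval₂_finsetSum]

/-- Pad a weighted homogeneous polynomial to a given degree. -/
theorem WH.pad {n D D' : ℕ} {Q : (MvPolynomial σ ℂ)[X]} (h : WH (8 * n) D' Q) (hD : 8 * D' ≤ D) :
    ∃ c : ℕ → MvPolynomial σ ℂ, (∀ e, ∃ d ≤ D * n, (c e).IsHomogeneous d) ∧ c D = 1 ∧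
      ∀ (v : σ → ℂ) (z : ℂ), Q.eval₂ (MvPolynomial.eval v) z = 0 →
        ∑ e ∈ Finset.range (D + 1), MvPolynomial.eval v (c e) * z ^ e = 0 := by
  obtain ⟨k, rfl⟩ : ∃ k, D = D' + k := ⟨D - D', by omega⟩
  have hm : (Q * X ^ k).Monic := h.1.mul (monic_X_pow k)
  have hd : (Q * X ^ k).natDegree = D' + k := by
    rw [h.1.natDegree_mul (monic_X_pow k), h.2.1, natDegree_X_pow]
  refine ⟨(Q * X ^ k).coeff, fun e => ?_, hd ▸ hm.coeff_natDegree, fun v z hz => ?_⟩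
  · rw [coeff_mul_X_pow']
    split_ifs with h1
    · rcases lt_or_ge D' (e - k) with h2 | h2
      · rw [coeff_eq_zero_of_natDegree_lt (h.2.1.symm ▸ h2)]
        exact ⟨0, Nat.zero_le _, MvPolynomial.isHomogeneous_zero _ _ _⟩
      · refine ⟨_, ?_, h.2.2 (e - k) (D' - (e - k)) (by omega)⟩
        calc 8 * n * (D' - (e - k)) ≤ 8 * n * D' := Nat.mul_le_mul_left _ (Nat.sub_le _ _)
          _ = 8 * D' * n := by ring
          _ ≤ (D' + k) * n := Nat.mul_le_mul_right _ hD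
    · exact ⟨0, Nat.zero_le _, MvPolynomial.isHomogeneous_zero _ _ _⟩
  · rw [← hd, ← eval₂_eq_sum_range, eval₂_mul, hz, zero_mul]

end

/-- Representatives of the similitudes of multiplier `m` modulo `q`. -/
theorem exists_sim_reps (m : ℕ) (q : ℕ) (hq : q ≠ 0) : ∃ s : Finset MZ, s.card ≤ q ^ 64 ∧
    (∀ h ∈ s, Sim (zr h) m) ∧ ∀ h', Sim (zr h') m → ∃ h ∈ s, ∀ i j, (q : ℤ) ∣ (h' - h) i j := by
  classical
  have : NeZero q := ⟨hq⟩
  let B : Finset (ν → ν → ZMod q) :=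
    Finset.univ.filter fun b => ∃ h : MZ, Sim (zr h) m ∧ ∀ i j, (h i j : ZMod q) = b i j
  have h1 : ∀ b : B, ∃ h : MZ, Sim (zr h) m ∧ ∀ i j, (h i j : ZMod q) = b.1 i j :=
    fun b => (Finset.mem_filter.1 b.2).2
  choose f hf hf' using h1
  refine ⟨Finset.univ.image f, ?_, ?_, fun h' hh' => ?_⟩
  · refine Finset.card_image_le.trans ?_
    rw [Finset.card_univ, Fintype.card_coe]
    refine (Finset.card_le_univ _).trans_eq ?_
    simp [← pow_mul]
  · intro t ht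
    obtain ⟨b, -, rfl⟩ := Finset.mem_image.1 ht
    exact hf b
  · refine ⟨f ⟨fun i j => (h' i j : ZMod q), Finset.mem_filter.2
      ⟨Finset.mem_univ _, h', hh', fun _ _ => rfl⟩⟩, Finset.mem_image_of_mem _ (Finset.mem_univ _),
      fun i j => ?_⟩
    rw [← ZMod.intCast_zmod_eq_zero_iff_dvd, Matrix.sub_apply, Int.cast_sub, hf', sub_self]

/-- The Hecke translate of the eighth power of a form. -/
noncomputable def hk (y : Matrix (Fin 11) Bits ℂ) (n : ℕ) (φ : MvPolynomial (Fin 11) ℂ) (h : MZ)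
    (τ : Mat) : ℂ :=
  MvPolynomial.eval (lin y (act (zr h) τ)) φ ^ 8 / wt (zr h) τ ^ n

theorem continuousAt_hk (y : Matrix (Fin 11) Bits ℂ) (n : ℕ) (φ : MvPolynomial (Fin 11) ℂ) {h : MZ}
    {m : ℝ} (hh : Sim (zr h) m) (hm : 0 < m) {τ : Fin 4 → Fin 4 → ℂ} (hτ : InH τ) :
    ContinuousAt (fun σ : Fin 4 → Fin 4 → ℂ => hk y n φ h σ) τ := by
  have h1 : ContinuousAt (fun σ : Fin 4 → Fin 4 → ℂ => th2 (act (zr h) σ)) τ :=
    continuousAt_pi.2 fun ε =>
      (differentiableAt_Th (inH_act hh hm hτ) (hf (bz ε))).continuousAt.comp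
        (f := fun σ : Fin 4 → Fin 4 → ℂ => (act (zr h) σ : Fin 4 → Fin 4 → ℂ))
        (differentiableAt_act hh hm hτ).continuousAt
  have h2 : ContinuousAt (fun σ : Fin 4 → Fin 4 → ℂ => lin y (act (zr h) σ)) τ :=
    (Continuous.matrix_mulVec continuous_const continuous_id).continuousAt.comp h1
  have h3 : Continuous fun σ : Fin 4 → Fin 4 → ℂ => wt (zr h) σ :=
    ((Continuous.matrix_det
      (continuous_const.sub (continuous_const.matrix_mul continuous_id))).pow 4).div_const _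
  exact (((MvPolynomial.continuous_eval φ).continuousAt.comp h2).pow 8).div
    (h3.continuousAt.pow n) (pow_ne_zero _ (wt_ne_zero hh hm hτ))

theorem hn_num {C Y : ℕ} (hY : 2 ≤ Y) :
    8 * (Y ^ 2 * (8 * Y ^ 2) ^ 64 * (C * (Y ^ 2) ^ 74)) ≤ Y ^ (C + 473) := by
  have h8 : 8 ≤ Y ^ 3 := Nat.pow_le_pow_left hY 3
  have hC : C ≤ Y ^ C := Nat.lt_two_pow_self.le.trans (Nat.pow_le_pow_left hY C)
  calc 8 * (Y ^ 2 * (8 * Y ^ 2) ^ 64 * (C * (Y ^ 2) ^ 74))
      ≤ Y ^ 3 * (Y ^ 2 * (Y ^ 3 * Y ^ 2) ^ 64 * (Y ^ C * (Y ^ 2) ^ 74)) := by gcongr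
    _ = Y ^ (C + 473) := by ring

end Mo

/-- B5: Hecke norms. -/
theorem hn (y : Matrix (Fin 11) Bits ℂ) (hy : FinProj y) : HNst y := by
  classical
  obtain ⟨C, hC⟩ := hn_one
  refine ⟨C + 473, fun Y hY => ⟨_, le_rfl, fun n φ hφ => ?_⟩⟩
  choose s hs hs' hs'' using fun m : ℕ => Mo.exists_sim_reps (m + 1) (8 * (m + 1)) (by omega)
  have h1 : ∀ t : (_ : ℕ) × MZ, ∃ D Q, t.2 ∈ s t.1 → D ≤ C * (t.1 + 1) ^ 74 ∧ Mo.WH (8 * n) D Q ∧
      ∀ τ, InH τ → Q.eval₂ (MvPolynomial.eval (lin y τ)) (Mo.hk y n φ t.2 τ) = 0 := fun t => by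
    by_cases ht : t.2 ∈ s t.1
    · obtain ⟨D, hD, c, hc, hc'⟩ := hC y hy t.2 (t.1 + 1) (by omega) (hs' _ _ ht) n φ hφ
      obtain ⟨Q, hQ, hQ'⟩ := Mo.exists_WH (w := 8 * n) (D := D) (c := c) fun e he => by
        rw [mul_assoc]
        exact hc e he
      exact ⟨D, Q, fun _ => ⟨hD, hQ, fun τ hτ => (hQ' _ _).trans (hc' τ hτ)⟩⟩
    · exact ⟨0, 0, fun h => (ht h).elim⟩
  choose D Q hDQ using h1
  let T := (Finset.range (Y ^ 2)).sigma s
  have hT : ∀ t ∈ T, t.1 + 1 ≤ Y ^ 2 ∧ t.2 ∈ s t.1 := fun t ht => by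
    have := Finset.mem_sigma.1 ht
    exact ⟨Finset.mem_range.1 this.1, this.2⟩
  have h2 := Mo.WH.prod T fun t ht => (hDQ t (hT t ht).2).2.1
  have h3 : ∑ t ∈ T, D t ≤ Y ^ 2 * (8 * Y ^ 2) ^ 64 * (C * (Y ^ 2) ^ 74) := by
    refine (Finset.sum_le_card_nsmul T D (C * (Y ^ 2) ^ 74) fun t ht =>
      (hDQ t (hT t ht).2).1.trans ?_).trans ?_
    · exact Nat.mul_le_mul_left _ (Nat.pow_le_pow_left (hT t ht).1 _)
    · rw [smul_eq_mul]
      refine Nat.mul_le_mul_right _ ?_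
      rw [Finset.card_sigma]
      refine (Finset.sum_le_card_nsmul _ _ ((8 * Y ^ 2) ^ 64) fun m hm =>
        (hs m).trans ?_).trans ?_
      · exact Nat.pow_le_pow_left (Nat.mul_le_mul_left _ (Finset.mem_range.1 hm)) _
      · rw [Finset.card_range, smul_eq_mul]
  obtain ⟨c, hc, hc', hc''⟩ := h2.pad ((Nat.mul_le_mul_left 8 h3).trans (Mo.hn_num hY))
  refine ⟨c, hc, hc', fun m h hm hm' _ hh => ?_⟩
  obtain ⟨m, rfl⟩ : ∃ k, m = k + 1 := ⟨m - 1, by unfold Nat.ModEq at hm'; omega⟩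
  have hp : (0 : ℝ) < ((m + 1 : ℕ) : ℝ) := Nat.cast_pos.2 (Nat.succ_pos m)
  refine ⟨Mo.hk y n φ h, fun b g k hb hk hg => ?_, fun τ hτ => ⟨?_, hc'' _ _ ?_⟩⟩
  · have hk' : (0 : ℝ) < k := Nat.cast_pos.2 hk
    have h4 : Continuous fun z : Sy => (mat z : Fin 4 → Fin 4 → ℂ) :=
      continuous_pi fun i => continuous_pi fun j => continuous_apply _
    exact (Mo.continuousAt_hk y n φ hh hp (Mo.inH_act hg hk' hb)).comp
      (f := fun z : Sy => (act (zr g) (mat z) : Fin 4 → Fin 4 → ℂ))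
      ((Mo.differentiableAt_act hg hk' hb).continuousAt.comp
        (f := fun z : Sy => (mat z : Fin 4 → Fin 4 → ℂ)) h4.continuousAt)
  · rw [Mo.hk, div_eq_zero_iff, or_iff_left (pow_ne_zero _ (wt_ne_zero hh hp hτ)),
      pow_eq_zero_iff (by norm_num)]
  · obtain ⟨h₀, hh₀, hq⟩ := hs'' m h hh
    have h5 : Mo.hk y n φ h τ = Mo.hk y n φ h₀ τ :=
      hn_congr (by omega) (hs' m h₀ hh₀) hh hq hφ hτ
    rw [Polynomial.eval₂_finsetProd, h5]
    exact Finset.prod_eq_zero (i := ⟨m, h₀⟩) (Finset.mem_sigma.2 ⟨Finset.mem_range.2 hm, hh₀⟩)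
      ((hDQ ⟨m, h₀⟩ hh₀).2.2 τ hτ)

end M4
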