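import Mathlib

/-!
Graded rings of functions inside a polynomial ring; integrality.
-/

set_option autoImplicit false

namespace M4.Gr

open Polynomial

variable {R σ : Type} [CommRing R] [Algebra ℂ R]

/-- A multiplicative family of subspaces. -/
structure MulFam (W : ℕ → Submodule ℂ R) : Prop where
  one : (1 : R) ∈ W 0
  mul : ∀ {m n : ℕ} {f g : R}, f ∈ W m → g ∈ W n → f * g ∈ W (m + n)

/-- The graded ring of a multiplicative family. -/
def rees {W : ℕ → Submodule ℂ R} (h : MulFam W) : Subalgebra ℂ R[X] where
  carrier := {p | ∀ n, p.coeff n ∈ W n}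
  mul_mem' := fun {p q} hp hq n => by
    rw [coeff_mul]
    refine Submodule.sum_mem _ fun x hx => ?_
    rw [← show x.1 + x.2 = n by simpa using hx]
    exact h.mul (hp _) (hq _)
  add_mem' := fun {p q} hp hq n => by
    rw [coeff_add]
    exact Submodule.add_mem _ (hp n) (hq n)
  algebraMap_mem' := fun c n => by
    rw [Polynomial.algebraMap_apply, coeff_C]
    split_ifs with hn
    · rw [hn, Algebra.algebraMap_eq_smul_one]
      exact Submodule.smul_mem _ c h.one
    · exact Submodule.zero_mem _

theorem mem_rees {W : ℕ → Submodule ℂ R} (h : MulFam W) {p : R[X]} :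
    p ∈ rees h ↔ ∀ n, p.coeff n ∈ W n := Iff.rfl

/-- The variables go to the `y i`, placed in degree one. -/
noncomputable def Ya (y : σ → R) : MvPolynomial σ ℂ →ₐ[ℂ] R[X] :=
  MvPolynomial.aeval fun i => monomial 1 (y i)

/-- Integrality over the ring generated by the `y i` in degree one. -/
def IntY (y : σ → R) (p : R[X]) : Prop := (Ya y).toRingHom.IsIntegralElem p

/-- The graded equation of degree `d` for an element of degree `n`. -/
def GEq (y : σ → R) (n d : ℕ) (f : R) : Prop :=
  ∃ c : ℕ → MvPolynomial σ ℂ, (∀ e < d, (c e).IsHomogeneous (n * (d - e))) ∧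
    f ^ d + ∑ e ∈ Finset.range d, MvPolynomial.aeval y (c e) * f ^ e = 0

theorem monomial_mem_rees {W : ℕ → Submodule ℂ R} (h : MulFam W) {n : ℕ} {f : R} (hf : f ∈ W n) :
    monomial n f ∈ rees h := by
  intro k
  rw [coeff_monomial]
  split_ifs with hk
  · exact hk ▸ hf
  · exact Submodule.zero_mem _

/-- Check on monomials (`MvPolynomial.as_sum`, `aeval_monomial`, `monomial_pow`). -/
theorem Ya_hom (y : σ → R) {n : ℕ} {c : MvPolynomial σ ℂ} (hc : c.IsHomogeneous n) :
    Ya y c = monomial n (MvPolynomial.aeval y c) := by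
  classical
  have key : ∀ (s : Finset σ) (d : σ → ℕ), ∏ i ∈ s, (monomial 1 (y i) : R[X]) ^ d i =
      monomial (∑ i ∈ s, d i) (∏ i ∈ s, y i ^ d i) := by
    intro s d
    induction s using Finset.induction_on with
    | empty => simp
    | insert a s ha ih =>
      rw [Finset.prod_insert ha, Finset.prod_insert ha, Finset.sum_insert ha, ih, monomial_pow,
        monomial_mul_monomial, one_mul]
  conv_lhs => rw [c.as_sum]
  conv_rhs => rw [c.as_sum]
  rw [map_sum, map_sum, map_sum]
  refine Finset.sum_congr rfl fun d hd => ?_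
  have hd' : ∑ i ∈ d.support, d i = n := by
    have := hc (MvPolynomial.mem_support_iff.1 hd)
    simpa [Finsupp.weight_apply, Finsupp.sum] using this
  rw [Ya, MvPolynomial.aeval_monomial, MvPolynomial.aeval_monomial, Finsupp.prod, Finsupp.prod, key,
    hd', Polynomial.algebraMap_apply, C_mul_monomial]

/-- `MvPolynomial.sum_homogeneousComponent`, `Ya_hom`. -/
theorem coeff_Ya (y : σ → R) (c : MvPolynomial σ ℂ) (n : ℕ) :
    (Ya y c).coeff n = MvPolynomial.aeval y (MvPolynomial.homogeneousComponent n c) := by
  conv_lhs => rw [← MvPolynomial.sum_homogeneousComponent c]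
  rw [map_sum, finsetSum_coeff]
  have e : ∀ k, (Ya y (MvPolynomial.homogeneousComponent k c)).coeff n =
      if k = n then MvPolynomial.aeval y (MvPolynomial.homogeneousComponent n c) else 0 := by
    intro k
    rw [Ya_hom y (MvPolynomial.homogeneousComponent_isHomogeneous k c), coeff_monomial]
    split_ifs with hk
    · rw [hk]
    · rfl
  simp only [e, Finset.sum_ite_eq', Finset.mem_range]
  split_ifs with hn
  · rfl
  · rw [MvPolynomial.homogeneousComponent_eq_zero n c (by omega), map_zero]

theorem Ya_mem_rees {W : ℕ → Submodule ℂ R} (h : MulFam W) {y : σ → R} (hy : ∀ i, y i ∈ W 1)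
    (c : MvPolynomial σ ℂ) : Ya y c ∈ rees h := by
  induction c using MvPolynomial.induction_on with
  | C a => rw [← MvPolynomial.algebraMap_eq, AlgHom.commutes]; exact (rees h).algebraMap_mem a
  | add p q hp hq => rw [map_add]; exact (rees h).add_mem hp hq
  | mul_X p i hp =>
    rw [map_mul, Ya, MvPolynomial.aeval_X]
    exact (rees h).mul_mem hp (monomial_mem_rees h (hy i))

theorem Ya_injective {y : σ → R} (h : ∀ (n : ℕ) (φ : MvPolynomial σ ℂ), φ.IsHomogeneous n →
    MvPolynomial.aeval y φ = 0 → φ = 0) : Function.Injective (Ya y) := by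
  rw [injective_iff_map_eq_zero]
  intro c hc
  rw [← MvPolynomial.sum_homogeneousComponent c]
  refine Finset.sum_eq_zero fun n _ => h n _ (MvPolynomial.homogeneousComponent_isHomogeneous n c) ?_
  rw [← coeff_Ya, hc, coeff_zero]

end M4.Gr
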