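import Mathlib
import Pool.Agent.Lib.MP_33b3f9_ag.M4.GrA0

/-!
Graded rings of functions inside a polynomial ring; integrality.
-/

set_option autoImplicit false

namespace M4.Gr

open Polynomial

variable {R σ : Type} [CommRing R] [Algebra ℂ R]

/-- Take the coefficient of `X ^ (n d)`. -/
theorem gEq_of_monic {y : σ → R} {n : ℕ} {f : R} {Q : (MvPolynomial σ ℂ)[X]} (hQ : Q.Monic)
    (h : Q.eval₂ (Ya y).toRingHom (monomial n f) = 0) : GEq y n Q.natDegree f := by
  refine ⟨fun e => MvPolynomial.homogeneousComponent (n * (Q.natDegree - e)) (Q.coeff e),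
    fun e _ => MvPolynomial.homogeneousComponent_isHomogeneous _ _, ?_⟩
  have h1 := congrArg (fun p => p.coeff (n * Q.natDegree)) h
  simp only [eval₂_eq_sum_range, Finset.sum_range_succ, hQ.coeff_natDegree, map_one, one_mul,
    monomial_pow, coeff_add, coeff_monomial_same, finsetSum_coeff, coeff_zero] at h1
  rw [add_comm, ← h1]
  refine congrArg (· + _) (Finset.sum_congr rfl fun e he => ?_)
  have e1 : n * Q.natDegree = n * (Q.natDegree - e) + n * e := by
    rw [← mul_add, Nat.sub_add_cancel (Finset.mem_range.1 he).le]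
  rw [e1, coeff_mul_monomial, ← coeff_Ya]
  rfl

theorem intY_iff {y : σ → R} {n : ℕ} {f : R} : IntY y (monomial n f) ↔ ∃ d, GEq y n d f := by
  refine ⟨fun ⟨Q, hQ, h⟩ => ⟨_, gEq_of_monic hQ h⟩, fun ⟨d, c, hc, h⟩ => ?_⟩
  refine ⟨X ^ d + ∑ e : Fin d, C (c e) * X ^ (e : ℕ),
    monic_X_pow_add (degree_sum_fin_lt _), ?_⟩
  rw [eval₂_add, eval₂_finsetSum, eval₂_X_pow, monomial_pow, ← monomial_zero_right (n * d), ← h,
    map_add, map_sum, Finset.sum_range]
  refine congrArg (_ + ·) (Finset.sum_congr rfl fun e _ => ?_)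
  rw [eval₂_mul, eval₂_C, eval₂_X_pow, monomial_pow]
  change Ya y _ * _ = _
  rw [Ya_hom y (hc e e.2), monomial_mul_monomial, ← mul_add, Nat.sub_add_cancel e.2.le]

theorem gra_trans {A B S : Type} [CommRing A] [CommRing B] [CommRing S] {φ : A →+* S}
    {ψ : B →+* S} (h : ∀ b, φ.IsIntegralElem (ψ b)) {p : S} (hp : ψ.IsIntegralElem p) :
    φ.IsIntegralElem p := by
  let _ := φ.toAlgebra
  obtain ⟨Q, hQ, hp⟩ := hp
  let ψ' : B →+* integralClosure A S := ψ.codRestrict (integralClosure A S) h
  have hi : IsIntegral (integralClosure A S) p :=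
    ⟨Q.map ψ', hQ.map _, by rw [eval₂_map]; exact hp⟩
  exact isIntegral_trans (R := A) p hi

theorem gra_all {A σ' : Type} [CommRing A] {φ : A →+* R[X]} {z : σ' → R}
    (hC : ∀ c : ℂ, ∃ a, φ a = algebraMap ℂ R[X] c)
    (h : ∀ j, φ.IsIntegralElem (monomial 1 (z j))) (b : MvPolynomial σ' ℂ) :
    φ.IsIntegralElem ((Ya z).toRingHom b) := by
  change φ.IsIntegralElem (Ya z b)
  induction b using MvPolynomial.induction_on with
  | C c =>
    obtain ⟨a, ha⟩ := hC c
    rw [MvPolynomial.algHom_C, ← ha]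
    exact φ.isIntegralElem_map
  | add p q hp hq => rw [map_add]; exact hp.add _ hq
  | mul_X p j hp =>
    rw [map_mul, Ya, MvPolynomial.aeval_X]
    exact hp.mul _ (h j)

theorem gra_const (y : σ → R) (c : ℂ) : IntY y (algebraMap ℂ R[X] c) := by
  rw [← (Ya y).commutes c]
  exact (Ya y).toRingHom.isIntegralElem_map

/-- With the algebra structure `(Ya y).toRingHom.toAlgebra` the range of `Ya z` lies in the
integral closure; `isIntegral_trans`. -/
theorem IntY.trans {σ' : Type} {y : σ → R} {z : σ' → R} (h : ∀ j, IntY y (monomial 1 (z j)))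
    {p : R[X]} (hp : IntY z p) : IntY y p := by
  exact gra_trans (gra_all (fun c => ⟨_, (Ya y).commutes c⟩) h) hp

/-- `expand R k` is an injective ring map with `expand (Ya (y ^ k) c) = Ya y (MvPolynomial.expand k c)`;
each `monomial 1 (y i)` is a root of `T ^ k - X i` for the map `expand ∘ Ya (y ^ k)`. -/
theorem IntY.of_expand {y : σ → R} {k : ℕ} (hk : k ≠ 0) {p : R[X]} (hp : IntY y (expand R k p)) :
    IntY (fun i => y i ^ k) p := by
  let φ : MvPolynomial σ ℂ →+* R[X] :=
    (expand R k).toRingHom.comp (Ya fun i => y i ^ k).toRingHom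
  have hφ : ∀ b, φ b = expand R k (Ya (fun i => y i ^ k) b) := fun _ => rfl
  have h1 : φ.IsIntegralElem (expand R k p) := by
    refine gra_trans (gra_all (fun c => ⟨MvPolynomial.C c, ?_⟩) fun i => ?_) hp
    · rw [hφ, MvPolynomial.algHom_C, Polynomial.algebraMap_apply, expand_C]
    · refine ⟨X ^ k - C (MvPolynomial.X i), monic_X_pow_sub_C _ hk, ?_⟩
      rw [eval₂_sub, eval₂_X_pow, eval₂_C, hφ, Ya, MvPolynomial.aeval_X, expand_monomial,
        monomial_pow, sub_self]
  obtain ⟨Q, hQ, h⟩ := h1
  refine ⟨Q, hQ, expand_injective (Nat.pos_of_ne_zero hk) ?_⟩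
  rw [map_zero, ← h]
  exact hom_eval₂ Q _ (expand R k).toRingHom p

/-- The elements `f` with `IntY y (monomial n f)` form a multiplicative family. -/
theorem intY_pow {α : Type} {y : σ → R} {t : α → R} (ht : ∀ a, IntY y (monomial 1 (t a))) {n : ℕ}
    {f : R} (hf : f ∈ Submodule.span ℂ (Set.range t) ^ n) : IntY y (monomial n f) := by
  have h1 : ∀ m ∈ Submodule.span ℂ (Set.range t), IntY y (monomial 1 m) := fun m hm => by
    induction hm using Submodule.span_induction with
    | mem x hx => obtain ⟨a, rfl⟩ := hx; exact ht a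
    | zero => rw [map_zero]; exact RingHom.isIntegralElem_zero _
    | add x z _ _ hx hz => rw [map_add]; exact RingHom.IsIntegralElem.add _ hx hz
    | smul c x _ hx =>
      rw [← smul_monomial, Algebra.smul_def]
      exact RingHom.IsIntegralElem.mul _ (gra_const y c) hx
  induction hf using Submodule.pow_induction_on_left' with
  | algebraMap c => exact gra_const y c
  | add x z i _ _ hx hz => rw [map_add]; exact RingHom.IsIntegralElem.add _ hx hz
  | mem_mul m hm i x _ hx =>
    rw [Nat.succ_eq_add_one, add_comm, ← monomial_mul_monomial]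
    exact RingHom.IsIntegralElem.mul _ (h1 m hm) hx

/-- `p` is the sum of its monomials. -/
theorem intY_of_coeff {y : σ → R} {p : R[X]} (h : ∀ n, IntY y (monomial n (p.coeff n))) :
    IntY y p := by
  rw [p.as_sum_support]
  exact Finset.sum_induction _ (IntY y) (fun _ _ ha hb => RingHom.IsIntegralElem.add _ ha hb)
    (RingHom.isIntegralElem_zero _) fun n _ => h n

end M4.Gr
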