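import Mathlib
import Pool.Agent.Lib.MP_33b3f9_ag.M4.GrA

/-!
Integrality from relations that lower the degree; fibres of finite maps.
-/

set_option autoImplicit false

namespace M4.Gr

open Polynomial

/-- The span of the monomials with exponents `< 4` contains every monomial (induction on the
total degree: a factor `t a ^ 4` is replaced by single factors `t b`), so it is a finite module
that is stable under multiplication by `t a` and contains `1`
(`IsIntegral.of_mem_of_fg` for `Algebra.adjoin A (range t)`). -/
theorem isIntegral_of_pow_four {A B α : Type} [CommRing A] [CommRing B] [Algebra A B] [Finite α]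
    (t : α → B) (h : ∀ a, t a ^ 4 ∈ Submodule.span A (Set.range t)) (a : α) :
    IsIntegral A (t a) := by
  classical
  have := Fintype.ofFinite α
  have hs : ∀ (e : α → ℕ) (b : α) (k : ℕ),
      ∏ c, t c ^ (e + Pi.single b k : α → ℕ) c = t b ^ k * ∏ c, t c ^ e c := fun e b k => by
    simp only [Pi.add_apply, pow_add, Finset.prod_mul_distrib]
    rw [mul_comm, Finset.prod_eq_single b (fun c _ hc => by rw [Pi.single_eq_of_ne hc, pow_zero])
      (fun hb => absurd (Finset.mem_univ b) hb), Pi.single_eq_same]
  have hd : ∀ (e : α → ℕ) (b : α) (k : ℕ),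
      ∑ c, (e + Pi.single b k : α → ℕ) c = ∑ c, e c + k := fun e b k => by
    simp [Finset.sum_add_distrib]
  set M := Submodule.span A (Set.range fun e : α → Fin 4 => ∏ c, t c ^ (e c : ℕ)) with hM
  have h1 : ∀ (n : ℕ) (e : α → ℕ), ∑ c, e c = n → ∏ c, t c ^ e c ∈ M := fun n => by
    induction n using Nat.strong_induction_on with
    | _ n ih =>
      intro e he
      by_cases h4 : ∀ c, e c < 4
      · exact Submodule.subset_span ⟨fun c => ⟨e c, h4 c⟩, rfl⟩
      · push Not at h4
        obtain ⟨b, hb⟩ := h4
        obtain ⟨e', rfl⟩ : ∃ e' : α → ℕ, e = e' + Pi.single b 4 :=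
          ⟨e - Pi.single b 4, funext fun c => by
            rw [Pi.add_apply, Pi.sub_apply, Pi.single_apply]
            split_ifs with hc
            · subst hc
              omega
            · omega⟩
        rw [hd] at he
        rw [hs]
        refine (Submodule.span_le (p := M.comap (LinearMap.mulRight A (∏ c, t c ^ e' c)))).2 ?_
          (h b)
        rintro _ ⟨c, rfl⟩
        have h2 := ih _ (by rw [hd]; omega) (e' + Pi.single c 1) rfl
        rwa [hs, pow_one] at h2
  refine IsIntegral.of_mem_of_fg (Algebra.adjoin A (Set.range t)) ?_ _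
    (Algebra.subset_adjoin ⟨a, rfl⟩)
  have h3 : (Algebra.adjoin A (Set.range t)).toSubmodule = M := by
    refine le_antisymm ?_ (Submodule.span_le.2 ?_)
    · rw [Algebra.adjoin_eq_span]
      refine Submodule.span_le.2 fun x hx => ?_
      have h4 : ∃ e : α → ℕ, x = ∏ c, t c ^ e c := by
        induction hx using Submonoid.closure_induction with
        | mem x hx =>
          obtain ⟨b, rfl⟩ := hx
          exact ⟨0 + Pi.single b 1, by rw [hs]; simp⟩
        | one => exact ⟨0, by simp⟩
        | mul x y _ _ hx hy =>
          obtain ⟨e, rfl⟩ := hx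
          obtain ⟨e', rfl⟩ := hy
          exact ⟨e + e', by simp only [Pi.add_apply, pow_add, Finset.prod_mul_distrib]⟩
      obtain ⟨e, rfl⟩ := h4
      exact h1 _ e rfl
    · rintro _ ⟨e, rfl⟩
      exact Subalgebra.prod_mem _ fun c _ =>
        Subalgebra.pow_mem _ (Algebra.subset_adjoin (Set.mem_range_self c)) _
  rw [h3]
  exact Submodule.fg_span (Set.finite_range _)

variable {R σ : Type} [CommRing R] [Algebra ℂ R]

/-- `isIntegral_of_pow_four` for the algebra structure `(Ya z).toRingHom.toAlgebra`. -/
theorem intY_of_pow_four {α : Type} [Finite α] {z : σ → R} {t : α → R}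
    (h : ∀ a, t a ^ 4 ∈ Submodule.span ℂ {r | ∃ b i j k, r = t b * (z i * z j * z k)}) (a : α) :
    IntY z (monomial 1 (t a)) := by
  let := (Ya z).toRingHom.toAlgebra
  have hs : ∀ (c : MvPolynomial σ ℂ) (q : R[X]), c • q = Ya z c * q := fun _ _ => rfl
  refine isIntegral_of_pow_four (A := MvPolynomial σ ℂ) (fun a => monomial 1 (t a))
    (fun b => ?_) a
  rw [monomial_pow, one_mul]
  generalize t b ^ 4 = r, h b = hr
  induction hr using Submodule.span_induction with
  | mem r hr =>
    obtain ⟨b, i, j, k, rfl⟩ := hr
    have e : monomial 4 (t b * (z i * z j * z k)) =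
        (MvPolynomial.X i * MvPolynomial.X j * MvPolynomial.X k : MvPolynomial σ ℂ) •
          monomial 1 (t b) := by
      simp only [hs, Ya, map_mul, MvPolynomial.aeval_X, monomial_mul_monomial, mul_comm (t b)]
    rw [e]
    exact Submodule.smul_mem _ _ (Submodule.subset_span ⟨b, rfl⟩)
  | zero =>
    rw [map_zero]
    exact Submodule.zero_mem _
  | add u v _ _ hu hv =>
    rw [map_add]
    exact Submodule.add_mem _ hu hv
  | smul c u _ hu =>
    have e : monomial 4 (c • u) = (MvPolynomial.C c : MvPolynomial σ ℂ) • monomial 4 u := by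
      rw [hs, ← MvPolynomial.algebraMap_eq, AlgHom.commutes, ← Algebra.smul_def, smul_monomial]
    rw [e]
    exact Submodule.smul_mem _ _ hu

/-- Let `B` be the algebra over `A = MvPolynomial σ ℂ` generated by the `monomial 1 (t a)`; it is
spanned by `N` elements. The ring maps `ev i = eval₂ (χ i) (s i) : B → ℂ` agree on `A` and are
distinct, so linearly independent (`linearIndependent_monoidHom`); a combination that kills the
`N` generators is zero; so `r ≤ N`. -/
theorem fibre_le {α : Type} [Finite α] {y : σ → R} {t : α → R}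
    (ht : ∀ a, IntY y (monomial 1 (t a))) : ∃ N : ℕ, ∀ (r : ℕ) (χ : Fin r → R →ₐ[ℂ] ℂ)
      (s : Fin r → ℂ), (∀ i j l, s i * χ i (y l) = s j * χ j (y l)) →
      (∀ i j, (∀ a, s i * χ i (t a) = s j * χ j (t a)) → i = j) → r ≤ N := by
  let := (Ya y).toRingHom.toAlgebra
  have hs : ∀ (c : MvPolynomial σ ℂ) (q : R[X]), c • q = Ya y c * q := fun _ _ => rfl
  obtain ⟨S, hS⟩ := fg_adjoin_of_finite (R := MvPolynomial σ ℂ)
    (Set.finite_range fun a => monomial 1 (t a)) (by
      rintro _ ⟨a, rfl⟩
      exact ht a)
  refine ⟨S.card, fun r χ s h1 h2 => ?_⟩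
  set B := Algebra.adjoin (MvPolynomial σ ℂ) (Set.range fun a => monomial 1 (t a)) with hB
  let ev : Fin r → R[X] →+* ℂ := fun i => eval₂RingHom (χ i).toRingHom (s i)
  have hev : ∀ i x, ev i (monomial 1 x) = s i * χ i x := fun i x => by
    simp [ev, mul_comm]
  have hA : ∀ i j c, ev i (Ya y c) = ev j (Ya y c) := fun i j c => by
    have h3 : (ev i).comp (Ya y).toRingHom = (ev j).comp (Ya y).toRingHom := by
      refine MvPolynomial.ringHom_ext (fun c => ?_) fun l => ?_
      · simp [ev, Ya]
      · simpa [Ya, hev] using h1 i j l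
    exact DFunLike.congr_fun h3 c
  let f : Fin r → B →* ℂ := fun i => (ev i).toMonoidHom.comp B.val.toRingHom.toMonoidHom
  have hf : Function.Injective f := fun i j e => h2 i j fun a => by
    rw [← hev, ← hev]
    exact DFunLike.congr_fun e ⟨_, Algebra.subset_adjoin ⟨a, rfl⟩⟩
  have h4 := Fintype.linearIndependent_iff.1 ((linearIndependent_monoidHom B ℂ).comp f hf)
  have h5 : LinearIndependent ℂ fun (i : Fin r) (x : S) => ev i x := by
    refine Fintype.linearIndependent_iff.2 fun g hg => h4 g ?_
    have h6 : ∀ q ∈ Submodule.span (MvPolynomial σ ℂ) (S : Set R[X]),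
        ∑ i, g i * ev i q = 0 := fun q hq => by
      induction hq using Submodule.span_induction with
      | mem q hq => simpa using congrFun hg ⟨q, hq⟩
      | zero => simp
      | add u v _ _ hu hv => simp only [map_add, mul_add, Finset.sum_add_distrib, hu, hv, add_zero]
      | smul c u _ hu =>
        rcases isEmpty_or_nonempty (Fin r) with h0 | ⟨⟨i0⟩⟩
        · exact Finset.sum_of_isEmpty _
        · rw [← mul_zero (ev i0 (Ya y c)), ← hu, Finset.mul_sum]
          exact Finset.sum_congr rfl fun i _ => by rw [hs, map_mul, hA i i0, mul_left_comm]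
    funext b
    have h7 := h6 b (by
      rw [hS]
      exact b.2)
    simpa [f] using h7
  simpa using h5.fintype_card_le_finrank

end M4.Gr
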