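import Mathlib
import Pool.Agent.Lib.MP_33b3f9_ag.M4.GrB0

/-!
Integrality from relations that lower the degree; fibres of finite maps.
-/

set_option autoImplicit false

namespace M4.Gr

open Polynomial

variable {R σ : Type} [CommRing R] [Algebra ℂ R]

/-- `L = FractionRing B` is finite and separable over `K = FractionRing A` (clear denominators in
an independent family; `rank_le` or `Module.finite_of_rank_le`), `B` embeds in the integral
closure of `A` in `L`, which is Noetherian (`IsIntegralClosure.isNoetherian`). -/
theorem finite_of_rank {A B : Type} [CommRing A] [IsDomain A] [IsNoetherianRing A]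
    [IsIntegrallyClosed A] [CharZero A] [CommRing B] [IsDomain B] [Algebra A B]
    [Algebra.IsIntegral A B] (hi : Function.Injective (algebraMap A B)) {r : ℕ}
    (hr : ∀ (n : ℕ) (p : Fin n → B), LinearIndependent A p → n ≤ r) : Module.Finite A B := by
  have : FaithfulSMul A B := (faithfulSMul_iff_algebraMap_injective A B).2 hi
  let _ : Algebra (FractionRing A) (FractionRing B) := FractionRing.liftAlgebra A _
  have h1 : Module.rank A B ≤ r := rank_le fun s hs => by
    simpa using hr _ _ (hs.comp s.equivFin.symm s.equivFin.symm.injective)
  have : FiniteDimensional (FractionRing A) (FractionRing B) := by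
    rw [FiniteDimensional, ← Module.rank_lt_aleph0_iff, Algebra.IsAlgebraic.rank_fractionRing]
    exact h1.trans_lt Cardinal.natCast_lt_aleph0
  have := IsIntegralClosure.isNoetherian A (FractionRing A) (FractionRing B)
    (integralClosure A (FractionRing B))
  let f : B →ₐ[A] integralClosure A (FractionRing B) :=
    (IsScalarTower.toAlgHom A B (FractionRing B)).codRestrict _ fun b =>
      (Algebra.IsIntegral.isIntegral (R := A) b).map _
  exact Module.Finite.of_injective f.toLinearMap fun x y h =>
    IsFractionRing.injective B (FractionRing B) (congrArg Subtype.val h)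

/-- The powers `b ^ i`, `i < natDegree (minpoly A b)`, are independent:
`minpoly.IsIntegrallyClosed.degree_le_of_ne_zero`, `Polynomial.degreeLTEquiv` or
`linearIndependent_iff`. -/
theorem natDegree_minpoly_le {A B : Type} [CommRing A] [IsDomain A] [IsIntegrallyClosed A]
    [CommRing B] [IsDomain B] [Algebra A B] (hi : Function.Injective (algebraMap A B)) {r : ℕ}
    (hr : ∀ (n : ℕ) (p : Fin n → B), LinearIndependent A p → n ≤ r) {b : B}
    (hb : IsIntegral A b) : (minpoly A b).natDegree ≤ r := by
  have : FaithfulSMul A B := (faithfulSMul_iff_algebraMap_injective A B).2 hi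
  refine hr _ (fun i => b ^ (i : ℕ)) (Fintype.linearIndependent_iff.2 fun g hg i => ?_)
  simp_rw [Algebra.smul_def, ← aeval_monomial, ← map_sum] at hg
  by_contra hn
  refine (minpoly.IsIntegrallyClosed.degree_le_of_ne_zero (fun h0 => hn ?_) hg).not_gt ?_
  · apply_fun lcoeff A i at h0
    simp_rw [map_sum, lcoeff_apply, coeff_monomial, Fin.val_eq_val, Finset.sum_ite_eq'] at h0
    exact (if_pos <| Finset.mem_univ _).symm.trans h0
  · simp_rw [← C_mul_X_pow_eq_monomial]
    exact (degree_eq_natDegree <| minpoly.ne_zero hb).symm ▸ degree_sum_fin_lt _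

end M4.Gr
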