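import Mathlib
import Pool.Agent.Lib.MP_33b3f9_ag.M4.GrB
import Pool.Agent.Lib.MP_33b3f9_ag.M4.ZHf

/-!
Rank and finiteness of graded rings with a bounded Hilbert function.
-/

set_option autoImplicit false

namespace M4.Gr

open Polynomial

variable {R σ : Type} [CommRing R] [Algebra ℂ R] [Fintype σ] {W : ℕ → Submodule ℂ R}

/-- If `r * choose (K + d) d ≤ B * (K + c) ^ d` for all `K` then `r ≤ d ! * B`
(`K ^ d ≤ d ! * choose (K + d) d`, see `Nat.pow_succ_le_ascFactorial`,
`Nat.ascFactorial_eq_factorial_mul_choose`; let `K` tend to infinity). -/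
theorem le_of_choose {r B c d : ℕ} (h : ∀ K, r * (K + d).choose d ≤ B * (K + c) ^ d) :
    r ≤ d.factorial * B := by
  have h1 : ∀ K : ℕ, r * K ^ d ≤ d.factorial * B * (K + c) ^ d := fun K => by
    have h2 : K ^ d ≤ d.factorial * (K + d).choose d := by
      rw [← Nat.ascFactorial_eq_factorial_mul_choose]
      exact (Nat.pow_le_pow_left (Nat.le_succ K) d).trans (Nat.pow_succ_le_ascFactorial (K + 1) d)
    calc r * K ^ d ≤ r * (d.factorial * (K + d).choose d) := Nat.mul_le_mul_left _ h2
      _ = d.factorial * (r * (K + d).choose d) := by ring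
      _ ≤ d.factorial * (B * (K + c) ^ d) := Nat.mul_le_mul_left _ (h K)
      _ = _ := by ring
  have h3 : Filter.Tendsto (fun K : ℕ => ((d.factorial * B : ℕ) : ℝ) * (1 + (c : ℝ) / K) ^ d)
      Filter.atTop (nhds (((d.factorial * B : ℕ) : ℝ) * (1 + 0) ^ d)) :=
    (((tendsto_const_div_atTop_nhds_zero_nat (c : ℝ)).const_add 1).pow d).const_mul _
  rw [add_zero, one_pow, mul_one] at h3
  have h4 : (r : ℝ) ≤ ((d.factorial * B : ℕ) : ℝ) := by
    refine ge_of_tendsto h3 ?_
    filter_upwards [Filter.eventually_gt_atTop 0] with K hK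
    have hK' : (0 : ℝ) < K := Nat.cast_pos.2 hK
    have h5 : (r : ℝ) * K ^ d ≤ ((d.factorial * B : ℕ) : ℝ) * ((K : ℝ) + c) ^ d := by
      exact_mod_cast h1 K
    rw [one_add_div hK'.ne', div_pow, ← mul_div_assoc, le_div_iff₀ (pow_pos hK' d)]
    exact h5
  exact_mod_cast h4

/-- Let `c` bound the degrees of the `p j`. The map `(c j) ↦ ∑ j, Ya y (c j) * p j` on `r` copies
of the polynomials of degree `≤ K` is injective. A cheap way to count: homogenise with one more
variable, or use `∑ μ ≤ K, choose (μ + d) d = choose (K + d + 1) (d + 1)` (`Z.finrank_hom`,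
`Nat.sum_range_add_choose`). The values are determined by their coefficients in `W 0, .., W (K + c)`,
of total dimension at most `(K + c + 1) * B * (K + c + 1) ^ d`. -/
theorem rank_le (h : MulFam W) {y : σ → R} (hy : ∀ i, y i ∈ W 1) {d B : ℕ}
    (hσ : Fintype.card σ = d + 1) (hf : ∀ k, Module.Finite ℂ (W k))
    (hB : ∀ k, Module.finrank ℂ (W k) ≤ B * (k + 1) ^ d) {r : ℕ} (p : Fin r → R[X])
    (hp : ∀ j, p j ∈ rees h)
    (hi : ∀ c : Fin r → MvPolynomial σ ℂ, ∑ j, Ya y (c j) * p j = 0 → c = 0) :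
    r ≤ (d + 1).factorial * B := by
  classical
  obtain ⟨c, hc⟩ : ∃ c, ∀ j, (p j).natDegree ≤ c :=
    ⟨Finset.univ.sup fun j => (p j).natDegree, fun j =>
      Finset.le_sup (f := fun j => (p j).natDegree) (Finset.mem_univ j)⟩
  refine le_of_choose (c := c + 1) fun K => ?_
  let V := ∀ μ : Fin (K + 1), MvPolynomial.homogeneousSubmodule σ ℂ μ
  let S : V →ₗ[ℂ] MvPolynomial σ ℂ :=
    ∑ μ, (Submodule.subtype _).comp (LinearMap.proj μ)
  have hS : ∀ a : V, S a = ∑ μ, (a μ : MvPolynomial σ ℂ) := fun a => by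
    simp only [S, LinearMap.sum_apply]
    rfl
  have hS0 : ∀ a : V, S a = 0 → a = 0 := fun a ha => funext fun μ => Subtype.ext (by
    have h1 := congrArg (MvPolynomial.homogeneousComponent μ) ((hS a).symm.trans ha)
    rw [map_sum, map_zero, Finset.sum_eq_single μ] at h1
    · rwa [MvPolynomial.homogeneousComponent_of_mem (a μ).2, if_pos rfl] at h1
    · intro ν _ hν
      rw [MvPolynomial.homogeneousComponent_of_mem (a ν).2, if_neg fun e => hν (Fin.ext e.symm)]
    · simp)
  have hdeg : ∀ a : V, (Ya y (S a)).natDegree ≤ K := fun a => by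
    rw [hS, map_sum]
    refine natDegree_sum_le_of_forall_le _ _ fun μ _ => ?_
    rw [Ya_hom y (a μ).2]
    exact (natDegree_monomial_le _).trans (Nat.lt_succ_iff.1 μ.2)
  let T : (Fin r → V) →ₗ[ℂ] R[X] :=
    ∑ j, ((LinearMap.mulRight ℂ (p j)).comp ((Ya y).toLinearMap.comp S)).comp (LinearMap.proj j)
  have hT : ∀ a, T a = ∑ j, Ya y (S (a j)) * p j := fun a => by
    simp only [T, LinearMap.sum_apply]
    rfl
  have hmem : ∀ a, T a ∈ rees h := fun a => by
    rw [hT]
    exact Subalgebra.sum_mem _ fun j _ => Subalgebra.mul_mem _ (Ya_mem_rees h hy _) (hp j)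
  let U : (Fin r → V) →ₗ[ℂ] ∀ n : Fin (K + c + 1), W n :=
    LinearMap.pi fun n => LinearMap.codRestrict (W n)
      (((lcoeff R n).restrictScalars ℂ).comp T) fun a => hmem a n
  have hU : Function.Injective U := (injective_iff_map_eq_zero _).2 fun a ha => by
    have h1 : (T a).natDegree ≤ K + c := by
      rw [hT]
      exact natDegree_sum_le_of_forall_le _ _ fun j _ =>
        natDegree_mul_le.trans (add_le_add (hdeg _) (hc j))
    have h2 : T a = 0 := Polynomial.ext fun n => by
      by_cases hn : n < K + c + 1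
      · exact congrArg Subtype.val (congrFun ha ⟨n, hn⟩)
      · exact coeff_eq_zero_of_natDegree_lt (by omega)
    have h3 := hi (fun j => S (a j)) ((hT a).symm.trans h2)
    exact funext fun j => hS0 _ (congrFun h3 j)
  have hfin : ∀ μ : Fin (K + 1), Module.Finite ℂ (MvPolynomial.homogeneousSubmodule σ ℂ μ) :=
    fun μ => Module.finite_of_finrank_pos (by
      rw [Z.finrank_hom hσ]
      exact Nat.choose_pos (Nat.le_add_left _ _))
  have hV : Module.finrank ℂ V = (K + (d + 1)).choose (d + 1) := by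
    rw [Module.finrank_pi_fintype, Finset.sum_congr rfl fun μ _ => Z.finrank_hom hσ _,
      Fin.sum_univ_eq_sum_range (fun μ => (μ + d).choose d), Nat.sum_range_add_choose, add_assoc]
  have h1 := LinearMap.finrank_le_finrank_of_injective hU
  rw [Module.finrank_pi_fintype, Finset.sum_const, hV, Module.finrank_pi_fintype, Finset.card_univ,
    Fintype.card_fin, smul_eq_mul] at h1
  refine h1.trans ((Finset.sum_le_card_nsmul _ _ (B * (K + c + 1) ^ d)
    fun (n : Fin (K + c + 1)) _ =>
    (hB n).trans (Nat.mul_le_mul_left _ (Nat.pow_le_pow_left n.2 d))).trans (le_of_eq ?_))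
  rw [Finset.card_univ, Fintype.card_fin, smul_eq_mul]
  ring

/-- The hypotheses of the finiteness theorems. -/
structure Nice (W : ℕ → Submodule ℂ R) (y : σ → R) (d B : ℕ) : Prop where
  fam : MulFam W
  mem : ∀ i, y i ∈ W 1
  card : Fintype.card σ = d + 1
  fin : ∀ k, Module.Finite ℂ (W k)
  le : ∀ k, Module.finrank ℂ (W k) ≤ B * (k + 1) ^ d
  dom : ∀ {m n : ℕ} {f g : R}, f ∈ W m → g ∈ W n → f * g = 0 → f = 0 ∨ g = 0
  ind : ∀ (n : ℕ) (φ : MvPolynomial σ ℂ), φ.IsHomogeneous n → MvPolynomial.aeval y φ = 0 → φ = 0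
  int : ∀ {n : ℕ} {f : R}, f ∈ W n → IntY y (monomial n f)

/-- Leading coefficients; non trivial since `Ya y` is injective. -/
theorem Nice.isDomain {y : σ → R} {d B : ℕ} (h : Nice W y d B) : IsDomain (rees h.fam) := by
  have hnt : Nontrivial R[X] := (Ya_injective h.ind).nontrivial
  have hnz : NoZeroDivisors (rees h.fam) := ⟨fun {a b} hab => by
    have h1 : (a : R[X]) * b = 0 := congrArg Subtype.val hab
    have h2 : (a : R[X]).leadingCoeff * (b : R[X]).leadingCoeff = 0 := by
      rw [← coeff_mul_degree_add_degree, h1, coeff_zero]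
    exact (h.dom (a.2 _) (b.2 _) h2).imp (fun e => Subtype.ext (leadingCoeff_eq_zero.1 e))
      fun e => Subtype.ext (leadingCoeff_eq_zero.1 e)⟩
  exact NoZeroDivisors.to_isDomain _

end M4.Gr
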