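import Mathlib
import Pool.Agent.Lib.MP_33b3f9_ag.M4.GrC0

/-!
Rank and finiteness of graded rings with a bounded Hilbert function.
-/

set_option autoImplicit false

namespace M4.Gr

open Polynomial

variable {R σ : Type} [CommRing R] [Algebra ℂ R] [Fintype σ] {W : ℕ → Submodule ℂ R}

/-- The corestriction of `Ya y`. -/
noncomputable def grc_map {y : σ → R} {d B : ℕ} (h : Nice W y d B) :
    MvPolynomial σ ℂ →+* rees h.fam :=
  (Ya y).toRingHom.codRestrict (rees h.fam) (Ya_mem_rees h.fam h.mem)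

theorem grc_inj {y : σ → R} {d B : ℕ} (h : Nice W y d B) : Function.Injective (grc_map h) :=
  fun _ _ e => Ya_injective h.ind (congrArg Subtype.val e)

theorem grc_eval {y : σ → R} {d B : ℕ} (h : Nice W y d B) (b : rees h.fam)
    (Q : (MvPolynomial σ ℂ)[X]) :
    ((Q.eval₂ (grc_map h) b : rees h.fam) : R[X]) = Q.eval₂ (Ya y).toRingHom b :=
  Polynomial.hom_eval₂ Q (grc_map h) (rees h.fam).val.toRingHom b

theorem grc_int {y : σ → R} {d B : ℕ} (h : Nice W y d B) (b : rees h.fam) :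
    (grc_map h).IsIntegralElem b := by
  obtain ⟨Q, hQ, h0⟩ : IntY y (b : R[X]) := intY_of_coeff fun n => h.int (b.2 n)
  exact ⟨Q, hQ, Subtype.ext ((grc_eval h b Q).trans h0)⟩

theorem grc_sum {y : σ → R} {d B : ℕ} (h : Nice W y d B) {n : ℕ} (c : Fin n → MvPolynomial σ ℂ)
    (p : Fin n → rees h.fam) :
    ((∑ j, grc_map h (c j) * p j : rees h.fam) : R[X]) = ∑ j, Ya y (c j) * (p j : R[X]) :=
  map_sum (rees h.fam).val _ _

theorem grc_rank {y : σ → R} {d B : ℕ} (h : Nice W y d B) :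
    letI := (grc_map h).toAlgebra
    ∀ (n : ℕ) (p : Fin n → rees h.fam), LinearIndependent (MvPolynomial σ ℂ) p →
      n ≤ (d + 1).factorial * B := by
  let _ := (grc_map h).toAlgebra
  intro n p hp
  refine rank_le h.fam h.mem h.card h.fin h.le (fun j => (p j : R[X])) (fun j => (p j).2)
    fun c hc => funext (Fintype.linearIndependent_iff.mp hp c ?_)
  exact Subtype.ext ((grc_sum h c p).trans hc)

omit [Fintype σ] in
theorem grc_coeff (y : σ → R) (c : MvPolynomial σ ℂ) {q : R[X]} {M : ℕ} (hM : q.natDegree < M)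
    (k : ℕ) : (Ya y c * q).coeff k = ∑ e : Fin M, MvPolynomial.aeval y
      (if (e : ℕ) ≤ k then MvPolynomial.homogeneousComponent (k - e) c else 0) * q.coeff e := by
  conv_lhs => rw [q.as_sum_range' M hM]
  rw [Finset.mul_sum, finsetSum_coeff, Finset.sum_range]
  refine Finset.sum_congr rfl fun e _ => ?_
  rw [← C_mul_X_pow_eq_monomial, ← mul_assoc, coeff_mul_X_pow']
  split_ifs
  · rw [coeff_mul_C, coeff_Ya]
  · rw [map_zero, zero_mul]

/-- `rees h.fam` is an algebra over `MvPolynomial σ ℂ` through the corestriction of `Ya y`;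
`natDegree_minpoly_le`, `rank_le`, `gEq_of_monic`. -/
theorem Nice.gEq {y : σ → R} {d B : ℕ} (h : Nice W y d B) {n : ℕ} {f : R} (hf : f ∈ W n) :
    ∃ D ≤ (d + 1).factorial * B, GEq y n D f := by
  let _ := (grc_map h).toAlgebra
  have := h.isDomain
  let b : rees h.fam := ⟨monomial n f, monomial_mem_rees h.fam hf⟩
  have hb : IsIntegral (MvPolynomial σ ℂ) b := grc_int h b
  refine ⟨_, natDegree_minpoly_le (grc_inj h) (grc_rank h) hb,
    gEq_of_monic (minpoly.monic hb) ?_⟩
  have h0 : (minpoly (MvPolynomial σ ℂ) b).eval₂ (grc_map h) b = 0 :=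
    minpoly.aeval (MvPolynomial σ ℂ) b
  exact (grc_eval h b _).symm.trans (congrArg Subtype.val h0)

/-- `finite_of_rank`; replace the generators by their monomials; take the coefficient of `X ^ k`
in `monomial k f = ∑ Ya y (c i) * monomial (deg i) (g i)` (`coeff_Ya`). -/
theorem Nice.finite {y : σ → R} {d B : ℕ} (h : Nice W y d B) :
    ∃ (N : ℕ) (deg : Fin N → ℕ) (g : Fin N → R), (∀ i, g i ∈ W (deg i)) ∧
      ∀ (k : ℕ), ∀ f ∈ W k, ∃ c : Fin N → MvPolynomial σ ℂ,
        (∀ i, c i = 0 ∨ (deg i ≤ k ∧ (c i).IsHomogeneous (k - deg i))) ∧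
        f = ∑ i, MvPolynomial.aeval y (c i) * g i := by
  let _ := (grc_map h).toAlgebra
  have := h.isDomain
  have : Algebra.IsIntegral (MvPolynomial σ ℂ) (rees h.fam) := ⟨grc_int h⟩
  have := finite_of_rank (A := MvPolynomial σ ℂ) (B := rees h.fam) (grc_inj h) (grc_rank h)
  obtain ⟨n, s, hs⟩ := Module.Finite.exists_fin (R := MvPolynomial σ ℂ) (M := rees h.fam)
  obtain ⟨M, hM⟩ : ∃ M : ℕ, ∀ j, (s j : R[X]).natDegree < M :=
    ⟨(Finset.univ.sup fun j => (s j : R[X]).natDegree) + 1, fun j => Nat.lt_succ_of_le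
      (Finset.le_sup (f := fun j => (s j : R[X]).natDegree) (Finset.mem_univ j))⟩
  let e : Fin (n * M) ≃ Fin n × Fin M := finProdFinEquiv.symm
  refine ⟨n * M, fun i => (e i).2, fun i => (s (e i).1 : R[X]).coeff (e i).2,
    fun i => (s (e i).1).2 _, fun k f hf => ?_⟩
  have h1 : (⟨monomial k f, monomial_mem_rees h.fam hf⟩ : rees h.fam) ∈
      Submodule.span (MvPolynomial σ ℂ) (Set.range s) := hs ▸ Submodule.mem_top
  obtain ⟨c, hc⟩ := (Submodule.mem_span_range_iff_exists_fun _).mp h1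
  refine ⟨fun i => if ((e i).2 : ℕ) ≤ k then
    MvPolynomial.homogeneousComponent (k - (e i).2) (c (e i).1) else 0, fun i => ?_, ?_⟩
  · by_cases hi : ((e i).2 : ℕ) ≤ k
    · refine Or.inr ⟨hi, ?_⟩
      simp only [if_pos hi]
      exact MvPolynomial.homogeneousComponent_isHomogeneous _ _
    · exact Or.inl (if_neg hi)
  · have h2 : ∑ j, Ya y (c j) * (s j : R[X]) = monomial k f :=
      (grc_sum h c s).symm.trans (congrArg Subtype.val hc)
    have h3 := congrArg (fun q : R[X] => q.coeff k) h2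
    simp only [finsetSum_coeff, coeff_monomial_same] at h3
    rw [← h3, Equiv.sum_comp e fun x : Fin n × Fin M => MvPolynomial.aeval y
      (if (x.2 : ℕ) ≤ k then MvPolynomial.homogeneousComponent (k - x.2) (c x.1) else 0) *
        (s x.1 : R[X]).coeff x.2, Fintype.sum_prod_type]
    exact Finset.sum_congr rfl fun j _ => grc_coeff y (c j) (hM j) k

end M4.Gr
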