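import Pool.Agent.Lib.MP_33b3f9_ag.M4.DetC

/-! Places of degree one as isomorphisms with an algebraic closure of the `p`-adic numbers. -/

noncomputable section

namespace Pool.Agent.M4.Det

open Finset Cardinal

variable {p : ℕ} [Fact p.Prime] {K : IntermediateField ℚ ℂ}

/-- `e` maps `K` into the `p`-adic numbers. -/
def IsPlace (K : IntermediateField ℚ ℂ) (e : ℂ ≃+* PadicAlgCl p) : Prop :=
  ∀ x ∈ K, ∃ q : ℚ_[p], e x = algebraMap ℚ_[p] (PadicAlgCl p) q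

/-- The decomposition group of the place `e`. -/
def dec {e : ℂ ≃+* PadicAlgCl p} (h : IsPlace K e) (τ : PadicAlgCl p ≃ₐ[ℚ_[p]] PadicAlgCl p) :
    ℂ ≃ₐ[K] ℂ :=
  AlgEquiv.ofRingEquiv (f := e.trans (τ.toRingEquiv.trans e.symm)) fun x => by
    obtain ⟨q, hq⟩ := h x x.2
    change e.symm (τ (e x)) = x
    rw [hq, τ.commutes, ← hq, e.symm_apply_apply]

theorem e_dec {e : ℂ ≃+* PadicAlgCl p} (h : IsPlace K e)
    (τ : PadicAlgCl p ≃ₐ[ℚ_[p]] PadicAlgCl p) (z : ℂ) : e (dec h τ z) = τ (e z) :=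
  e.apply_symm_apply _

/-- The vectors `u` and `u'` have the same reduction in projective space. -/
def SameRed {ι : Type} (e : ℂ ≃+* PadicAlgCl p) (u u' : ι → ℂ) : Prop :=
  ∃ c c' : ℂ, (∀ i, ‖e (c' * u' i)‖ ≤ 1) ∧ (∃ i, ‖e (c' * u' i)‖ = 1) ∧
    ∀ i, ‖e (c * u i - c' * u' i)‖ < 1

theorem nonempty_equiv (p : ℕ) [Fact p.Prime] : Nonempty (ℂ ≃+* PadicAlgCl p) := by
  have h1 : #ℚ_[p] ≤ 𝔠 := by
    refine mk_quotient_le.trans ((mk_subtype_le _).trans ?_)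
    simp
  have h2 : 𝔠 ≤ #ℚ_[p] := continuum_le_cardinal_of_nontriviallyNormedField _
  have h3 : #(PadicAlgCl p) = 𝔠 := le_antisymm
    ((Algebra.IsAlgebraic.cardinalMk_le_max ℚ_[p] _).trans (max_le h1 aleph0_le_continuum))
    (h2.trans (mk_le_of_injective (algebraMap ℚ_[p] (PadicAlgCl p)).injective))
  exact IsAlgClosed.ringEquiv_of_equiv_of_charZero
    (by rw [mk_complex]; exact aleph0_lt_continuum) (Cardinal.eq.1 (mk_complex.trans h3.symm))

theorem exists_place [Algebra.IsAlgebraic ℚ K] (j : K →+* ℚ_[p]) :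
    ∃ e : ℂ ≃+* PadicAlgCl p, ∀ x : K, e x = algebraMap ℚ_[p] (PadicAlgCl p) (j x) := by
  obtain ⟨e⟩ := nonempty_equiv p
  obtain ⟨τ, hτ⟩ := exists_ext K (e.symm.toRingHom.comp ((algebraMap ℚ_[p] _).comp j))
  exact ⟨τ.trans e, fun x => by rw [RingEquiv.trans_apply, hτ]; exact e.apply_symm_apply _⟩

/-- The absolute value of the place `e`. -/
def abv (e : ℂ ≃+* PadicAlgCl p) : AbsoluteValue ℂ ℝ :=
  (IsAbsoluteValue.toAbsoluteValue (norm : PadicAlgCl p → ℝ)).comp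
    (f := e.toRingHom) e.injective

theorem abv_apply (e : ℂ ≃+* PadicAlgCl p) (z : ℂ) : abv e z = ‖e z‖ := rfl

theorem abv_na (e : ℂ ≃+* PadicAlgCl p) : IsNonarchimedean (abv e) := fun a b => by
  simp only [abv_apply, map_add]
  exact PadicAlgCl.isNonarchimedean p _ _

theorem abv_p (e : ℂ ≃+* PadicAlgCl p) : abv e p = (p : ℝ)⁻¹ := by
  rw [abv_apply, map_natCast, ← map_natCast (algebraMap ℚ_[p] (PadicAlgCl p))]
  exact (PadicAlgCl.norm_extends p _).trans Padic.norm_p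

theorem rat_of_fixed {e : ℂ ≃+* PadicAlgCl p} (h : IsPlace K e) {z : ℂ}
    (hz : ∀ τ, dec h τ z = z) : ∃ q : ℚ_[p], algebraMap ℚ_[p] (PadicAlgCl p) q = e z :=
  (InfiniteGalois.mem_range_algebraMap_iff_fixed (e z)).2 fun τ => by rw [← e_dec h, hz]

theorem le_of_fixed {e : ℂ ≃+* PadicAlgCl p} (h : IsPlace K e) {z : ℂ}
    (hz : ∀ τ, dec h τ z = z) (h1 : abv e z < 1) : abv e z ≤ (p : ℝ)⁻¹ := by
  obtain ⟨q, hq⟩ := rat_of_fixed h hz
  rw [abv_apply, ← hq, PadicAlgCl.norm_extends p q] at h1 ⊢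
  have := (Padic.norm_le_pow_iff_norm_lt_pow_add_one q (-1)).2 (by simpa using h1)
  simpa using this

/-- Points fixed by the decomposition group with at most `h` reductions. -/
theorem fewRed_of_place {S ι : Type} [Fintype ι] {e : ℂ ≃+* PadicAlgCl p} (he : IsPlace K e)
    {y : S → ι → ℂ} (hi : ∀ s i, IsIntegral ℤ (y s i)) {T : Set S}
    (hT : ∀ s ∈ T, ∀ τ i, dec he τ (y s i) = y s i) {h : ℕ} (cl : S → Fin h)
    (hcl : ∀ s ∈ T, ∀ s' ∈ T, cl s = cl s' → SameRed e (y s) (y s')) : FewRed y p h T := by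
  have hw := abv_na e
  have key : ∀ c : Fin h, ∃ ref : ι → ℂ, (∀ i, abv e (ref i) ≤ 1) ∧ ∀ s ∈ T, cl s = c →
      ∃ c : ℂ, abv e c ≤ 1 ∧ ∀ i, abv e (y s i - c * ref i) ≤ (p : ℝ)⁻¹ := fun c => by
    by_cases hc : ∃ s ∈ T, cl s = c
    swap
    · exact ⟨0, by simp, fun s hs h => absurd ⟨s, hs, h⟩ hc⟩
    obtain ⟨s0, hs0, rfl⟩ := hc
    obtain ⟨-, c0, -, ⟨i1, hi1⟩, -⟩ := hcl s0 hs0 s0 hs0 rfl
    obtain ⟨i0, -, hi0⟩ := exists_max_image univ (fun i => abv e (y s0 i)) ⟨i1, mem_univ _⟩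
    have h0 : y s0 i0 ≠ 0 := fun h => by
      have h1 := hi0 i1 (mem_univ _)
      rw [h, map_zero] at h1
      rw [(abv e).eq_zero.1 (le_antisymm h1 ((abv e).nonneg _))] at hi1
      simp at hi1
    have hr : ∀ i, abv e (y s0 i / y s0 i0) ≤ 1 := fun i => by
      rw [map_div₀]
      exact div_le_one_of_le₀ (hi0 i (mem_univ _)) ((abv e).nonneg _)
    refine ⟨fun i => y s0 i / y s0 i0, hr, fun s hs hc =>
      ⟨y s i0, integral_le hw (hi _ _), fun i => ?_⟩⟩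
    obtain ⟨c, c', h1, ⟨j, hj⟩, h2⟩ := hcl s hs s0 hs0 hc
    simp only [← abv_apply] at h1 hj h2
    have h3 : abv e (c' * y s0 i0) = 1 := le_antisymm (h1 _) (by
      rw [← hj, map_mul, map_mul]
      exact mul_le_mul_of_nonneg_left (hi0 j (mem_univ _)) ((abv e).nonneg _))
    have h4 : 1 ≤ abv e (c * y s i0) := not_lt.1 fun hlt => by
      have := hw (c * y s i0) (-(c * y s i0 - c' * y s0 i0))
      rw [AbsoluteValue.map_neg, neg_sub, add_sub_cancel, h3] at this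
      exact absurd this (not_le.2 (max_lt hlt (h2 _)))
    have h5 : 1 ≤ abv e c := h4.trans (by
      rw [map_mul]; exact mul_le_of_le_one_right ((abv e).nonneg _) (integral_le hw (hi _ _)))
    refine le_of_fixed he (fun τ => by
      rw [map_sub, map_mul, map_div₀, hT s hs, hT s hs, hT s0 hs0, hT s0 hs0]) ?_
    have e1 : c * (y s i - y s i0 * (y s0 i / y s0 i0)) = (c * y s i - c' * y s0 i) +
        -((c * y s i0 - c' * y s0 i0) * (y s0 i / y s0 i0)) := by field_simp; ring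
    have h6 := hw (c * y s i - c' * y s0 i) (-((c * y s i0 - c' * y s0 i0) * (y s0 i / y s0 i0)))
    rw [← e1, map_mul, AbsoluteValue.map_neg, map_mul] at h6
    refine (le_mul_of_one_le_left ((abv e).nonneg _) h5).trans_lt (h6.trans_lt (max_lt (h2 _) ?_))
    exact (mul_le_of_le_one_right ((abv e).nonneg _) (hr i)).trans_lt (h2 _)
  choose ref h1 h2 using key
  exact ⟨abv e, hw, abv_p e, cl, ref, h1, fun s hs => h2 _ s hs rfl⟩

end Pool.Agent.M4.Det
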