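import Mathlib

/-!
Definitions for the analytic number theory: split primes, places, densities.
-/

set_option autoImplicit false

namespace M4.NT

open NumberField Module Filter Topology

/-- The prime `l` has a prime of degree one in `L`. -/
def Spl (L : Type) [Field L] (l : ℕ) : Prop := Nonempty (𝓞 L →+* ZMod l)

/-- The data of a place of norm `p`: `t` in the cubic field and `Δ = p ^ 2 * N (t * (t - 4))`. -/
structure Plc {F : Type} [Field F] [NumberField F] (p : ℕ) (t : F) (Δ : ℤ) : Prop where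
  prime : p.Prime
  re : ∀ σ : F →+* ℂ, ∃ x : ℝ, σ t = x ∧ 0 < x ∧ x < 4
  den : ∃ w : Ideal (𝓞 F), Ideal.absNorm w = p ∧ ∀ b ∈ w, IsIntegral ℤ ((b : F) * t)
  sq : ∃ a : ℤ, (p : ℚ) * Algebra.norm ℚ t = (a : ℚ) ^ 2
  disc : (Δ : ℚ) = (p : ℚ) ^ 2 * Algebra.norm ℚ (t * (t - 4))

/-- The sum of `1 / p` over `G` diverges. -/
def Dvg (G : Set ℕ) : Prop := ¬ Summable (G.indicator fun p => (1 : ℝ) / p)

/-- The bounded function `f` has Dirichlet density `c`. -/
def Dens (f : ℕ → ℝ) (c : ℝ) : Prop :=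
  (∃ B : ℝ, ∀ n, |f n| ≤ B) ∧
    Tendsto (fun s : ℝ => (∑' n : ℕ, f n * (n : ℝ) ^ (-s)) / Real.log (1 / (s - 1))) (𝓝[>] 1) (𝓝 c)

/-- The number of ideals of norm `p`, for `p` prime. -/
noncomputable def rk (K : Type) [Field K] [NumberField K] (p : ℕ) : ℝ :=
  if p.Prime then (Nat.card {I : Ideal (𝓞 K) // Ideal.absNorm I = p} : ℝ) else 0

/-- The Dedekind zeta function at a real point, as a sum over ideals. -/
noncomputable def zt (K : Type) [Field K] [NumberField K] (s : ℝ) : ℝ :=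
  ∑' I : Ideal (𝓞 K), (Ideal.absNorm I : ℝ) ^ (-s)

/-- The prime zeta function. -/
noncomputable def pz (K : Type) [Field K] [NumberField K] (s : ℝ) : ℝ :=
  ∑' P : IsDedekindDomain.HeightOneSpectrum (𝓞 K), (Ideal.absNorm P.asIdeal : ℝ) ^ (-s)

/-- The copy of `ℚ_[p]` in its algebraic closure. -/
def Qp (p : ℕ) [Fact p.Prime] : Set (PadicAlgCl p) := Set.range (algebraMap ℚ_[p] (PadicAlgCl p))

/-- The automorphism `σ` of `ℂ` lies in the decomposition group of the place `e`. -/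
def Dec {p : ℕ} [Fact p.Prime] (e : ℂ ≃+* PadicAlgCl p) (σ : ℂ → ℂ) : Prop :=
  ∀ x : ℂ, e x ∈ Qp p → σ x = x

end M4.NT
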