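import Mathlib

/-! Zero estimate (block B8 of the project m4): definitions. -/

namespace M4.Z
open MvPolynomial

noncomputable section

/-- Transcendence degree of `R ⧸ P` over `k`. -/
def dm (k : Type) {R : Type} [Field k] [CommRing R] [Algebra k R] (P : Ideal R) : ℕ :=
  (Algebra.trdeg k (R ⧸ P)).toNat

variable {σ : Type}

/-- Homogeneous ideals. -/
def Hom (P : Ideal (MvPolynomial σ ℂ)) : Prop := ∀ g ∈ P, ∀ μ, homogeneousComponent μ g ∈ P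

/-- Hilbert function. -/
def HF (I : Ideal (MvPolynomial σ ℂ)) (μ : ℕ) : ℕ :=
  Module.finrank ℂ ((homogeneousSubmodule σ ℂ μ).map (Ideal.Quotient.mkₐ ℂ I).toLinearMap)

/-- The maximal ideal of a point. -/
def mx {K : Type} [Field K] (x : σ → K) : Ideal (MvPolynomial σ K) := RingHom.ker (eval x)

/-- Forms of degree at most `k` in `I`. -/
def fm (I : Ideal (MvPolynomial σ ℂ)) (k : ℕ) : Set (MvPolynomial σ ℂ) :=
  {g | g ∈ I ∧ ∃ μ ≤ k, g.IsHomogeneous μ}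

/-- The `e × e` Jacobian minors of elements of `E`. -/
def jac (e : ℕ) (E : Set (MvPolynomial σ ℂ)) : Set (MvPolynomial σ ℂ) :=
  {g | ∃ (ψ : Fin e → MvPolynomial σ ℂ) (j : Fin e → σ), (∀ a, ψ a ∈ E) ∧
    g = (Matrix.of fun a b => pderiv (j b) (ψ a)).det}

/-- The polynomial ring in `d + 1` variables. -/
abbrev AA (d : ℕ) : Type := MvPolynomial (Fin (d + 1)) ℂ

/-- An algebraic closure of its field of fractions. -/
abbrev Fb (d : ℕ) : Type := AlgebraicClosure (FractionRing (AA d))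

/-- The variables, in the algebraic closure. -/
def YY (d : ℕ) (j : Fin (d + 1)) : Fb d := algebraMap (AA d) (Fb d) (X j)

/-- `y` is a Noether normalisation of `P`. -/
def NNd {d : ℕ} (y : Fin (d + 1) → MvPolynomial σ ℂ) (P : Ideal (MvPolynomial σ ℂ)) : Prop :=
  (∀ i, ∃ q : Polynomial (AA d), q.Monic ∧
    q.eval₂ (aeval y : AA d →ₐ[ℂ] MvPolynomial σ ℂ).toRingHom (X i) ∈ P) ∧
  ∀ r : AA d, aeval y r ∈ P → r = 0

/-- The generic points of the primes of `W` in the generic fibre of `y`. -/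
def Pts {d : ℕ} (y : Fin (d + 1) → MvPolynomial σ ℂ) (W : Set (Ideal (MvPolynomial σ ℂ))) :
    Set (σ → Fb d) :=
  {p | RingHom.ker (aeval p : MvPolynomial σ ℂ →ₐ[ℂ] Fb d) ∈ W ∧ ∀ j, aeval p (y j) = YY d j}

/-- The points of `T` are separated by polynomials of degree at most `c`. -/
def Sep {K : Type} [Field K] (T : Set (σ → K)) (c : ℕ) : Prop :=
  ∀ p ∈ T, ∃ g : MvPolynomial σ K, g.totalDegree ≤ c ∧ eval p g ≠ 0 ∧
    ∀ q ∈ T, q ≠ p → eval q g = 0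

/-- The degree at which the Hilbert functions are compared. -/
def nu (n k : ℕ) : ℕ := 2 * ((n + 1) * k) + 1 + 3 * n * (3 * ((n + 1) * k) + 1)

/-- The sequence of sets of primes. -/
def sq (e ν : ℕ) (W : Set (Ideal (MvPolynomial σ ℂ))) : ℕ → Set (Ideal (MvPolynomial σ ℂ))
  | 0 => W
  | i + 1 => {P | P ∈ W ∧ fm (sInf (sq e ν W i)) ν ⊆ P ∧
      jac e (fm (sInf (sq e ν W i)) ν) ⊆ P}

/-- The ideal of a set of points. -/
def van {Ξ : Type} (x : Ξ → σ → ℂ) (A : Set Ξ) : Ideal (MvPolynomial σ ℂ) :=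
  ⨅ ξ ∈ A, mx (x ξ)

/-- Evaluation at the points of `A`. -/
def evs {Ξ : Type} (x : Ξ → σ → ℂ) (A : Set Ξ) : MvPolynomial σ ℂ →ₗ[ℂ] (A → ℂ) :=
  LinearMap.pi fun ξ => (aeval (x ξ) : MvPolynomial σ ℂ →ₐ[ℂ] ℂ).toLinearMap

/-- The Hilbert function of a set of points. -/
def HP {Ξ : Type} (x : Ξ → σ → ℂ) (A : Set Ξ) (μ : ℕ) : ℕ :=
  Module.finrank ℂ ((homogeneousSubmodule σ ℂ μ).map (evs x A))

/-- The state of the induction: labels, and at each point the forms of degree at most `k` that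
vanish on the class cut out dimension at most `d + 1`. -/
def St {Ξ : Type} (x : Ξ → σ → ℂ) (d k m : ℕ) (A : Set Ξ) : Prop :=
  ∃ (Λ : Type) (_ : Finite Λ) (lab : Ξ → Λ), Nat.card Λ ≤ m ∧ ∀ ξ ∈ A,
    ∀ q : Ideal (MvPolynomial σ ℂ), q.IsPrime →
      fm (van x {η | η ∈ A ∧ lab η = lab ξ}) k ⊆ q → q ≤ mx (x ξ) → dm ℂ q ≤ d + 1

variable {T : Type} [NormedAddCommGroup T] [NormedSpace ℂ T]

/-- `F` is the germ at `a` of a submanifold of dimension `d`. -/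
def Sm (a : T) (d : ℕ) (F : Filter T) : Prop :=
  ∃ v : (Fin d → ℂ) → T, AnalyticAt ℂ v 0 ∧ v 0 = a ∧ Function.Injective (fderiv ℂ v 0) ∧
    Filter.map v (nhds 0) = F

/-- `P` is the ideal of the germ `F` in the chart `Θ`, and cuts it out. -/
def Cuts (a : T) (Θ : T → σ → ℂ) (F : Filter T) (P : Ideal (MvPolynomial σ ℂ)) : Prop :=
  (∀ (μ : ℕ) (g : MvPolynomial σ ℂ), g.IsHomogeneous μ →
    (g ∈ P ↔ ∀ᶠ z in F, eval (Θ z) g = 0)) ∧
  nhdsWithin a {z | ∀ g ∈ P, eval (Θ z) g = 0} = F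

/-- The chart is analytic and etale at `a` (as a map to projective space). -/
def Et [Fintype σ] (a : T) (Θ : T → σ → ℂ) : Prop :=
  AnalyticAt ℂ Θ a ∧ ∀ (l : ℂ) (w : T), l • Θ a + fderiv ℂ Θ a w = 0 → l = 0 ∧ w = 0

/-- Hecke norms. -/
def HN {Ξ : Type} (a : T) (Θ : Ξ → T → σ → ℂ) (X0 : Set Ξ) (Nb : Ξ → Ξ → Prop) (D : ℕ) : Prop :=
  ∀ (ν : ℕ) (φ : MvPolynomial σ ℂ), φ.IsHomogeneous ν →
    ∃ c : Fin (D + 1) → MvPolynomial σ ℂ, (∀ e, ∃ μ ≤ D * ν, (c e).IsHomogeneous μ) ∧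
      (∀ ξ ∈ X0, ∃ e, eval (Θ ξ a) (c e) ≠ 0) ∧
      ∀ ξ ∈ X0, ∀ ξ' ∈ X0, ξ ≠ ξ' → Nb ξ ξ' → ∃ ρ : T → ℂ, ContinuousAt ρ a ∧
        ∀ᶠ z in nhds a, (ρ z = 0 ↔ eval (Θ ξ' z) φ = 0) ∧
          ∑ e, eval (Θ ξ z) (c e) * ρ z ^ (e : ℕ) = 0

/-- Small colour classes. -/
def CL {Ξ : Type} (n : ℕ) (a : T) (Θ : Ξ → T → σ → ℂ) (X0 : Set Ξ) (C0 : ℕ) : Prop :=
  ∀ (d : ℕ) (F : Filter T) (P : Ideal (MvPolynomial σ ℂ)) (δ c : ℕ), 1 ≤ d → d < n →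
    Sm a d F → P.IsPrime → Hom P → dm ℂ P = d + 1 →
    (∀ μ, HF P μ ≤ δ * (μ + c + d).choose d) →
    {ξ | ξ ∈ X0 ∧ Cuts a (Θ ξ) F P}.ncard ≤ C0 * δ

/-- Neighbours in a product. -/
def Nbr {ι : Type} {Ω : ι → Type} (ξ ξ' : ∀ i, Ω i) : Prop := ∃ i, ∀ j, j ≠ i → ξ j = ξ' j

end

end M4.Z
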