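import Pool.Agent.Lib.MP_33b3f9_ag.M4.Stmt
import Pool.Agent.Lib.MP_33b3f9_ag.M4.ThDefs
import Pool.Agent.Lib.MP_33b3f9_ag.M4.DetD
import Pool.Agent.Lib.MP_33b3f9_ag.M4.NTDefs
import Pool.Agent.Lib.MP_33b3f9_ag.M4.ZDefs

/-!
Definitions shared by the blocks, and the statements of the theorems that cross block borders.
-/

set_option autoImplicit false

noncomputable section

namespace M4

open Matrix Filter Topology Pool.Agent.M4.Det Pool.Agent.Lib.MP_33b3f9_ag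

/-- Index set of the lattice basis. -/
abbrev ν : Type := Fin 4 ⊕ Fin 4

/-- Index set of the level two characteristics. -/
abbrev Bits : Type := ν → Fin 2

/-- Period matrices. -/
abbrev Mat : Type := Matrix (Fin 4) (Fin 4) ℂ

/-- Integral `8 × 8` matrices. -/
abbrev MZ : Type := Matrix ν ν ℤ

/-- The family of `ℓ`-adic representations. -/
abbrev Rep (K : IntermediateField ℚ ℂ) : Type :=
  ∀ (l : ℕ) [Fact l.Prime], (ℂ ≃ₐ[K] ℂ) →* GL ν ℤ_[l]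

/-- The level two theta null vector. -/
def th2 (τ : Mat) : Bits → ℂ := fun ε => Th τ (hf (bz ε))

/-- An integral matrix as a real matrix. -/
def zr (g : MZ) : Matrix ν ν ℝ := g.map (Int.cast : ℤ → ℝ)

/-- `g = 1` modulo `32`. -/
def Lev (g : MZ) : Prop := ∀ i j, (32 : ℤ) ∣ (g - 1) i j

/-- `M` is a product of distinct primes that are `1` modulo `32`. -/
def Adm (M : ℕ) : Prop := Squarefree M ∧ ∀ l, l.Prime → l ∣ M → l ≡ 1 [MOD 32]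

/-- `g` is an integral similitude of level `32` with admissible multiplier `M`. -/
def Iso (g : MZ) (M : ℕ) : Prop := Adm M ∧ Lev g ∧ Sim (zr g) M

/-- The kernel of `g` modulo `M`. -/
def Ker (g : MZ) (M : ℕ) : AddSubgroup (ν → ℤ) where
  carrier := {x | ∀ i, (M : ℤ) ∣ (g *ᵥ x) i}
  zero_mem' := fun i => by simp
  add_mem' := fun {a b} ha hb i => by
    rw [Matrix.mulVec_add]; exact dvd_add (ha i) (hb i)
  neg_mem' := fun {a} ha i => by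
    rw [Matrix.mulVec_neg]; exact (dvd_neg).2 (ha i)

/-- `G` is its own orthogonal modulo `l`. -/
def Lag (l : ℕ) (G : AddSubgroup (ν → ℤ)) : Prop :=
  ∀ y, y ∈ G ↔ ∀ x ∈ G, (l : ℤ) ∣ x ⬝ᵥ Matrix.J (Fin 4) ℤ *ᵥ y

/-- The Mumford-Tate group of `I` contains all rational symplectic matrices. -/
def GEN (I : Matrix ν ν ℝ) : Prop :=
  ∀ g : Matrix ν ν ℚ, gᵀ * Matrix.J (Fin 4) ℚ * g = Matrix.J (Fin 4) ℚ →
    ∀ P ∈ mtEqns I, evalM g P = 0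

/-- `K` contains the eighth roots of unity and the ratios of the theta constants. -/
def DefX (τ : Mat) (K : IntermediateField ℚ ℂ) : Prop :=
  ee (1 / 8) ∈ K ∧ ∀ ε ε', th2 τ ε / th2 τ ε' ∈ K

/-- `r` is the action on the torsion points, in the coordinates `XX`. -/
def TateX (τ : Mat) (K : IntermediateField ℚ ℂ) (r : Rep K) : Prop :=
  ∀ (σ : ℂ ≃ₐ[K] ℂ) (x y : ν → ℚ),
    (∀ (l : ℕ) [Fact l.Prime] (i : ν),
      ‖((Pool.Agent.M4.toQ (r l σ) : Matrix ν ν ℚ_[l]) *ᵥ fun j => (x j : ℚ_[l])) i -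
        (y i : ℚ_[l])‖ ≤ 1) →
    ∃ c : ℂ, ∀ ε : Bits, σ (XX τ (bz ε) fun i => (x i : ℝ)) = c * XX τ (bz ε) fun i => (y i : ℝ)

/-- The abelian variety and its Galois representations. -/
structure AV (τ : Mat) (K : IntermediateField ℚ ℂ) (r : Rep K) : Prop where
  inH : InH τ
  fin : FiniteDimensional ℚ K
  defX : DefX τ K
  tate : TateX τ K r

/-- The integral matrix `R` is congruent to `r σ` modulo `M`. -/
def Cong {K : IntermediateField ℚ ℂ} (r : Rep K) (σ : ℂ ≃ₐ[K] ℂ) (M : ℕ) (R : MZ) : Prop :=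
  ∀ (l : ℕ) [Fact l.Prime] (i j : ν),
    (M : ℤ_[l]) ∣ (r l σ : Matrix ν ν ℤ_[l]) i j - (R i j : ℤ_[l])

/-- The representation modulo `l`. -/
def rb {K : IntermediateField ℚ ℂ} (r : Rep K) (l : ℕ) [Fact l.Prime] (σ : ℂ ≃ₐ[K] ℂ) :
    Matrix ν ν (ZMod l) :=
  (r l σ : Matrix ν ν ℤ_[l]).map PadicInt.toZMod

/-! ### B1b (helper33) -/

/-- `r l σ` is a similitude with the cyclotomic multiplier. -/
def MUst {K : IntermediateField ℚ ℂ} (r : Rep K) : Prop :=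
  ∀ (l : ℕ) [Fact l.Prime] (σ : ℂ ≃ₐ[K] ℂ), ∃ c : ℤ_[l],
    (r l σ : Matrix ν ν ℤ_[l])ᵀ * Matrix.J (Fin 4) ℤ_[l] * (r l σ : Matrix ν ν ℤ_[l]) =
      c • Matrix.J (Fin 4) ℤ_[l] ∧
    ∀ (n : ℕ) (ζ : ℂ), ζ ^ l ^ n = 1 → σ ζ = ζ ^ (PadicInt.toZModPow n c).val

/-- Similitudes with prescribed kernels. -/
def LAGRst : Prop :=
  ∀ (S : Finset ℕ) (G : ℕ → AddSubgroup (ν → ℤ)),
    (∀ l ∈ S, l.Prime ∧ l ≡ 1 [MOD 32] ∧ Lag l (G l)) →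
    ∃ g : MZ, Iso g (∏ l ∈ S, l) ∧ ∀ l ∈ S, Ker g l = G l

/-- Integral equivariant coordinates of the isogenous points. -/
def POINTSst (τ : Mat) {K : IntermediateField ℚ ℂ} (r : Rep K) : Prop :=
  ∃ (C : ℝ) (y : ℕ → AddSubgroup (ν → ℤ) → Bits → ℂ), ∀ (g : MZ) (M : ℕ), Iso g M →
    (∃ c : ℂ, c ≠ 0 ∧ y M (Ker g M) = c • th2 (act (zr g) τ)) ∧
    (∀ i, IsIntegral ℤ (y M (Ker g M) i)) ∧
    (∀ (φ : ℂ →+* ℂ) i, ‖φ (y M (Ker g M) i)‖ ≤ C * (M : ℝ) ^ 16) ∧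
    ∀ (σ : ℂ ≃ₐ[K] ℂ) (R g' : MZ), Cong r σ M R → Iso g' M →
      (∀ x ∈ Ker g M, R *ᵥ x ∈ Ker g' M) → ∀ i, σ (y M (Ker g M) i) = y M (Ker g' M) i

/-! ### B2 (helper56, helper84) -/

/-- The representation with coefficients in `ℚ_ℓ`. -/
def rq {K : IntermediateField ℚ ℂ} (r : Rep K) (l : ℕ) [Fact l.Prime] (σ : ℂ ≃ₐ[K] ℂ) :
    Matrix ν ν ℚ_[l] :=
  (Pool.Agent.M4.toQ (r l σ) : Matrix ν ν ℚ_[l])

/-- The exact integral tensor structure over the algebraic closure of `ℚ_ℓ`. -/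
def TENS {K : IntermediateField ℚ ℂ} (r : Rep K) (l : ℕ) [Fact l.Prime] : Prop :=
  ∃ (S : Matrix ν (Fin 3 → Fin 2) (PadicAlgCl l)) (S' : Matrix (Fin 3 → Fin 2) ν (PadicAlgCl l)),
    (∀ i j, ‖S i j‖ ≤ 1) ∧ (∀ i j, ‖S' i j‖ ≤ 1) ∧ S * S' = 1 ∧ S' * S = 1 ∧
    ∀ σ, ∃ h : Fin 3 → Matrix (Fin 2) (Fin 2) (PadicAlgCl l), (∀ f i j, ‖h f i j‖ ≤ 1) ∧
      (rq r l σ).map (algebraMap ℚ_[l] (PadicAlgCl l)) = S * Pool.Agent.M4.tp h * S'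

/-- The roots of `P` form a cube and `γ` is a product of three units along the cube. -/
def Cube (p : ℕ) [Fact p.Prime] (P : Polynomial ℤ) (γ : Polynomial ℚ) (M M' : ℕ) : Prop :=
  ∃ (β : PadicAlgCl p) (u : Fin 3 → PadicAlgCl p) (d : Fin 3 → Fin 2 → PadicAlgCl p),
    P.map (Int.castRingHom (PadicAlgCl p)) =
      ∏ ε : Fin 3 → Fin 2, (Polynomial.X - Polynomial.C (β * ∏ i, u i ^ (ε i : ℕ))) ∧
    β ^ 2 * ∏ i, u i = p ∧ ‖β‖ = 1 ∧ ‖u 0‖ < 1 ∧ ‖u 1‖ = 1 ∧ ‖u 2‖ = 1 ∧ u 1 ^ 2 ≠ 1 ∧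
    u 2 ^ 2 ≠ 1 ∧
    (∀ ε : Fin 3 → Fin 2, Polynomial.aeval (β * ∏ i, u i ^ (ε i : ℕ)) γ = ∏ i, d i (ε i)) ∧
    (∀ i j, ‖d i j‖ = 1) ∧ ‖d 1 0 - d 1 1‖ ≤ ‖u 1 - 1‖ ∧ ‖d 2 0 - d 2 1‖ ≤ ‖u 2 - 1‖ ∧
    (M' : PadicAlgCl p) * ∏ i, (d i 0 * d i 1) = M

/-- `P` is the characteristic polynomial of the Frobenius `σ`. -/
structure Weil {K : IntermediateField ℚ ℂ} (r : Rep K) (p : ℕ) (σ : ℂ ≃ₐ[K] ℂ)
    (P : Polynomial ℤ) : Prop where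
  monic : P.Monic
  deg : P.natDegree = 8
  sep : (P.map (Int.castRingHom ℚ)).Separable
  weil : ∀ z : ℂ, Polynomial.aeval z P = 0 → ‖z‖ ^ 2 = p
  char : ∀ (l : ℕ) [Fact l.Prime], l ≠ p → (rq r l σ).charpoly = P.map (Int.castRingHom ℚ_[l])

/-- `σ` is a Frobenius at the place `e`. -/
structure Frob (τ : Mat) {K : IntermediateField ℚ ℂ} (r : Rep K) {p : ℕ} [Fact p.Prime]
    (e : ℂ ≃+* PadicAlgCl p) (σ : ℂ ≃ₐ[K] ℂ) : Prop where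
  dec : NT.Dec e σ
  /-- the decomposition group acts on the prime to `p` torsion through powers of `σ` -/
  unram : ∀ σ' : ℂ ≃ₐ[K] ℂ, NT.Dec e σ' → ∀ n : ℕ, ¬ p ∣ n → ∃ j : ℕ, ∀ R : MZ,
    Cong r (σ ^ j) n R → Cong r σ' n R
  mult : ∀ (l : ℕ) [Fact l.Prime], l ≠ p →
    (rq r l σ)ᵀ * Matrix.J (Fin 4) ℚ_[l] * rq r l σ = (p : ℚ_[l]) • Matrix.J (Fin 4) ℚ_[l]
  weil : ∀ (l : ℕ) [Fact l.Prime], l ≠ p → (rq r l σ).charpoly.Separable → ∃ P, Weil r p σ P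
  few : ∀ P, Weil r p σ P → TENS r p → ∀ (γ : Polynomial ℚ) (M M' : ℕ) (g g' : MZ),
    Cube p P γ M M' → Iso g M → Iso g' M' → ¬ p ∣ M → ¬ p ∣ M' →
    (∀ (l : ℕ) [Fact l.Prime], l ≠ p → ∃ W : Matrix ν ν ℤ_[l],
      g'.map (Int.cast : ℤ → ℚ_[l]) * Polynomial.aeval (rq r l σ) (γ.map (algebraMap ℚ ℚ_[l])) =
        W.map ((↑) : ℤ_[l] → ℚ_[l]) * g.map (Int.cast : ℤ → ℚ_[l]) ∧
      ∀ a b, (32 : ℤ_[l]) ∣ (W - 1) a b) →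
    SameRed e (th2 (act (zr g) τ)) (th2 (act (zr g') τ))

/-- Frobenius elements at almost all places of degree one. -/
def REDst (τ : Mat) {K : IntermediateField ℚ ℂ} (r : Rep K) : Prop :=
  ∃ p₀ : ℕ, ∀ (p : ℕ) [Fact p.Prime], p₀ ≤ p → ∀ e : ℂ ≃+* PadicAlgCl p, IsPlace K e →
    ∃ σ, Frob τ r e σ

/-! ### B3a (helper45) -/

/-- The vectors whose slot `f` is killed by the covector `w`. -/
def slot {l : ℕ} (A : Matrix (Fin 3 → Fin 2) ν (ZMod l)) (f : Fin 3) (w : Fin 2 → ZMod l) :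
    AddSubgroup (ν → ℤ) where
  carrier := {x | ∀ i : Fin 3 → Fin 2,
    ∑ a, w a * (A *ᵥ fun j => (x j : ZMod l)) (Function.update i f a) = 0}
  zero_mem' := fun i => by
    have : (fun j => ((0 : ν → ℤ) j : ZMod l)) = 0 := by funext j; simp
    rw [this, Matrix.mulVec_zero]
    simp
  add_mem' := fun {a b} ha hb i => by
    have : (fun j => ((a + b) j : ZMod l)) = (fun j => (a j : ZMod l)) + fun j => (b j : ZMod l) := by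
      funext j; simp
    rw [this, Matrix.mulVec_add]
    simp only [Pi.add_apply, mul_add, Finset.sum_add_distrib]
    rw [ha i, hb i, add_zero]
  neg_mem' := fun {a} ha i => by
    have : (fun j => ((-a) j : ZMod l)) = -fun j => (a j : ZMod l) := by funext j; simp
    rw [this, Matrix.mulVec_neg]
    simp only [Pi.neg_apply, mul_neg, Finset.sum_neg_distrib]
    rw [ha i, neg_zero]

/-- A tensor structure on the `l`-torsion. -/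
structure TS {K : IntermediateField ℚ ℂ} (r : Rep K) (l : ℕ) [Fact l.Prime]
    (A : Matrix (Fin 3 → Fin 2) ν (ZMod l)) (A' : Matrix ν (Fin 3 → Fin 2) (ZMod l)) : Prop where
  inv : A * A' = 1
  inv' : A' * A = 1
  im : ∀ σ, ∃ h, A * rb r l σ * A' = Pool.Agent.M4.tp h
  big : ∀ (f : Fin 3) (u : Matrix (Fin 2) (Fin 2) (ZMod l)), u.det = 1 →
    ∃ σ, A * rb r l σ * A' = Pool.Agent.M4.tp (Function.update 1 f u)

/-- The subgroup `G` is stable under `σ` modulo `M`. -/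
def Stab {K : IntermediateField ℚ ℂ} (r : Rep K) (σ : ℂ ≃ₐ[K] ℂ) (M : ℕ)
    (G : AddSubgroup (ν → ℤ)) : Prop :=
  ∀ R : MZ, Cong r σ M R → ∀ x ∈ G, R *ᵥ x ∈ G

/-- A similitude of slot type whose kernel is stable under the decomposition group of `e`. -/
def Good {K : IntermediateField ℚ ℂ} (r : Rep K) (L : Type) [Field L] (l₁ : ℕ)
    (A : ∀ l : ℕ, Matrix (Fin 3 → Fin 2) ν (ZMod l)) {p : ℕ} [Fact p.Prime]
    (e : ℂ ≃+* PadicAlgCl p) (Δ : ℤ) (g : MZ) (M : ℕ) : Prop :=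
  Iso g M ∧ ∀ l, l.Prime → l ∣ M → l₁ < l ∧ l ≠ p ∧ NT.Spl L l ∧ jacobiSym Δ l = 1 ∧
    (∃ f w, w ≠ 0 ∧ Ker g l = slot (A l) f w) ∧
    ∀ σ : ℂ ≃ₐ[K] ℂ, NT.Dec e σ → Stab r σ l (Ker g l)

/-- The class bound. -/
def CBst (τ : Mat) {K : IntermediateField ℚ ℂ} (r : Rep K) (F : Type) [Field F] [NumberField F] :
    Prop :=
  ∃ (L : Type) (_ : Field L) (_ : NumberField L) (l₁ : ℕ)
    (A : ∀ l : ℕ, Matrix (Fin 3 → Fin 2) ν (ZMod l))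
    (A' : ∀ l : ℕ, Matrix ν (Fin 3 → Fin 2) (ZMod l)) (G : Set ℕ) (t : ℕ → F) (Δ : ℕ → ℤ) (C : ℝ),
    (∀ (l : ℕ) [Fact l.Prime], l₁ < l → NT.Spl L l → l ≡ 1 [MOD 32] ∧ TS r l (A l) (A' l)) ∧
    NT.Dvg G ∧ (∀ p ∈ G, NT.Plc p (t p) (Δ p)) ∧
    ∀ (p : ℕ) [Fact p.Prime], p ∈ G → ∃ e : ℂ ≃+* PadicAlgCl p, IsPlace K e ∧
      (∀ l : ℕ, l.Prime → l₁ < l → l ≠ p → NT.Spl L l → jacobiSym (Δ p) l = 1 →
        ∃ f w, w ≠ 0 ∧ ∀ σ : ℂ ≃ₐ[K] ℂ, NT.Dec e σ → Stab r σ l (slot (A l) f w)) ∧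
      ∃ (h : ℕ) (cl : MZ → ℕ → Fin h), (h : ℝ) ≤ C * (p : ℝ) ^ (7 / 10 : ℝ) ∧
        ∀ g M g' M', Good r L l₁ A e (Δ p) g M → Good r L l₁ A e (Δ p) g' M' →
          cl g M = cl g' M' → SameRed e (th2 (act (zr g) τ)) (th2 (act (zr g') τ))

/-! ### The geometric half (B5 - B8) -/

/-- Coordinates on the space of symmetric matrices. -/
abbrev Sy : Type := Sym2 (Fin 4) → ℂ

/-- The symmetric matrix with coordinates `t`. -/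
def mat (t : Sy) : Mat := Matrix.of fun i j => t s(i, j)

/-- The projection of the theta null point to `ℂ^11`. -/
def lin (y : Matrix (Fin 11) Bits ℂ) (τ : Mat) : Fin 11 → ℂ := y *ᵥ th2 τ

/-- The projected theta null point of `g z`. -/
def Thy (y : Matrix (Fin 11) Bits ℂ) (g : MZ) (z : Sy) : Fin 11 → ℂ :=
  lin y (act (zr g) (mat z))

/-- A finite projection: every theta constant is integral over the `11` forms, and these are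
algebraically independent. -/
def FinProj (y : Matrix (Fin 11) Bits ℂ) : Prop :=
  (∀ ε : Bits, ∃ (d : ℕ) (c : ℕ → MvPolynomial (Fin 11) ℂ),
    (∀ e < d, (c e).IsHomogeneous (d - e)) ∧ ∀ τ, InH τ →
      th2 τ ε ^ d + ∑ e ∈ Finset.range d, MvPolynomial.eval (lin y τ) (c e) * th2 τ ε ^ e = 0) ∧
  ∀ (n : ℕ) (φ : MvPolynomial (Fin 11) ℂ), φ.IsHomogeneous n →
    (∀ τ, InH τ → MvPolynomial.eval (lin y τ) φ = 0) → φ = 0

/-- The projection is etale at all points `g a`. -/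
def EtProj (y : Matrix (Fin 11) Bits ℂ) (a : Sy) : Prop :=
  ∀ (g : MZ) (m : ℕ), 0 < m → Sim (zr g) m → AnalyticAt ℂ (Thy y g) a ∧
    Function.Injective fun q : ℂ × Sy => q.1 • Thy y g a + fderiv ℂ (Thy y g) a q.2

/-- B5: a good projection exists. -/
def PROJst : Prop := ∀ a : Sy, InH (mat a) → ∃ y, FinProj y ∧ EtProj y a

/-- B5: Hecke norms. -/
def HNst (y : Matrix (Fin 11) Bits ℂ) : Prop :=
  ∃ e₁ : ℕ, ∀ Y : ℕ, 2 ≤ Y → ∃ D : ℕ, D ≤ Y ^ e₁ ∧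
    ∀ (n : ℕ) (φ : MvPolynomial (Fin 11) ℂ), φ.IsHomogeneous n →
      ∃ c : ℕ → MvPolynomial (Fin 11) ℂ, (∀ e, ∃ d ≤ D * n, (c e).IsHomogeneous d) ∧ c D = 1 ∧
        ∀ (m : ℕ) (h : MZ), m ≤ Y ^ 2 → m ≡ 1 [MOD 32] → Lev h → Sim (zr h) m →
          ∃ ρ : Mat → ℂ, (∀ (b : Sy) (g : MZ) (k : ℕ), InH (mat b) → 0 < k → Sim (zr g) k →
              ContinuousAt (fun z => ρ (act (zr g) (mat z))) b) ∧
            ∀ τ, InH τ → (ρ τ = 0 ↔ MvPolynomial.eval (lin y (act (zr h) τ)) φ = 0) ∧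
              ∑ e ∈ Finset.range (D + 1), MvPolynomial.eval (lin y τ) (c e) * ρ τ ^ e = 0

/-- B5: the fibres of the projection are finite unions of orbits. -/
def FIBst (y : Matrix (Fin 11) Bits ℂ) : Prop :=
  ∃ C₀ : ℕ, ∀ v : Fin 11 → ℂ, ∃ T : Finset Mat, T.card ≤ C₀ ∧ (∀ t ∈ T, InH t) ∧
    ∀ τ, InH τ → (∃ c : ℂ, lin y τ = c • v) → ∃ t ∈ T, ∃ γ : MZ, Sim (zr γ) 1 ∧ τ = act (zr γ) t

/-- B6: the stabiliser of a generic point is scalar. -/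
def STABst : Prop :=
  ∀ τ : Mat, InH τ → GEN (cst τ) → ∀ (g : MZ) (m : ℕ), 0 < m → Sim (zr g) m →
    act (zr g) τ = τ → ∃ c : ℤ, g = c • (1 : MZ)

/-- The lattices of the family are pairwise not homothetic. -/
def Sep {α : Type} (X : Finset α) (g : α → MZ) : Prop :=
  ∀ ξ ∈ X, ∀ ξ' ∈ X, ∀ γ : MZ, Sim (zr γ) 1 → ∀ c c' : ℤ, c ≠ 0 → c • g ξ' = c' • (γ * g ξ) →
    ξ = ξ'

/-- B6 + B7: the counting lemma. -/
def CLst (y : Matrix (Fin 11) Bits ℂ) (a : Sy) : Prop :=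
  ∃ C₀ : ℕ, ∀ (α : Type) (X : Finset α) (g : α → MZ) (M : α → ℕ), (∀ ξ ∈ X, Iso (g ξ) (M ξ)) →
    (∀ ξ ∈ X, ∀ ξ' ∈ X, ∀ t : ℂ, Thy y (g ξ') a = t • Thy y (g ξ) a → ξ = ξ') →
    ∀ (d : ℕ) (v : (Fin d → ℂ) → Sy) (P : Ideal (MvPolynomial (Fin 11) ℂ)) (del c : ℕ),
      1 ≤ d → d < 10 → AnalyticAt ℂ v 0 → v 0 = a → Function.Injective (fderiv ℂ v 0) →
      P.IsPrime → Z.Hom P → Z.dm ℂ P = d + 1 → (∀ μ, Z.HF P μ ≤ del * (μ + c + d).choose d) →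
      (∀ ξ ∈ X, Z.Cuts a (Thy y (g ξ)) (Filter.map v (𝓝 0)) P) → X.card ≤ C₀ * del

/-- A family of lattices indexed by tuples. -/
structure Fam (Y : ℕ) {s : ℕ} {Om : Fin s → Type} (X : Finset (∀ i, Om i))
    (g : (∀ i, Om i) → MZ) (M : (∀ i, Om i) → ℕ) : Prop where
  iso : ∀ ξ ∈ X, Iso (g ξ) (M ξ)
  sep : Sep X g
  nb : ∀ ξ ∈ X, ∀ ξ' ∈ X, (∃ i, ∀ j, j ≠ i → ξ j = ξ' j) → ∃ (l m : ℕ) (h : MZ), 0 < l ∧
    m ≤ Y ^ 2 ∧ m ≡ 1 [MOD 32] ∧ Lev h ∧ Sim (zr h) m ∧ (l : ℤ) • g ξ' = h * g ξ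

/-- B8: the zero estimate for families of lattices. -/
def GEOst (τ : Mat) : Prop :=
  ∃ e₀ : ℕ, ∀ (Y s : ℕ) (Om : Fin s → Type) [∀ i, Fintype (Om i)] (X : Finset (∀ i, Om i))
    (g : (∀ i, Om i) → MZ) (M : (∀ i, Om i) → ℕ) (N k₀ k₁ H₀ L th : ℕ), 2 ≤ Y → Fam Y X g M →
    0 < N → (∀ i, N ≤ Fintype.card (Om i)) →
    (∀ μ ≤ k₁, hil (fun ξ : X => th2 (act (zr (g ξ)) τ)) μ ≤ H₀) →
    1 ≤ k₀ → H₀ < (k₀ + 10).choose 10 → H₀ < 2 ^ L → k₀ * Y ^ e₀ ≤ k₁ →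
    ((L + 1) * Y) ^ e₀ * H₀ < th ^ s →
    X.card * N ≤ 10 * s * th * ∏ i, Fintype.card (Om i) + N * (((L + 1) * Y) ^ e₀ * H₀)

/-- B9: the output of the arithmetic half. -/
def ARITHst (τ : Mat) : Prop :=
  ∀ s₀ : ℕ, ∃ s : ℕ, s₀ ≤ s ∧ ∃ δ : ℝ, 0 < δ ∧ ∀ Y₀ : ℕ, ∃ Y : ℕ, Y₀ ≤ Y ∧
    ∃ (Om : Fin s → Type) (_ : ∀ i, Fintype (Om i)) (X : Finset (∀ i, Om i))
      (g : (∀ i, Om i) → MZ) (M : (∀ i, Om i) → ℕ) (N : ℕ), Fam (2 * Y) X g M ∧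
      (Y : ℝ) ^ (198 / 100 : ℝ) ≤ N ∧ (∀ i, N ≤ Fintype.card (Om i)) ∧
      δ * ∏ i, (Fintype.card (Om i) : ℝ) ≤ X.card ∧
      ∀ μ : ℕ, (μ : ℝ) ≤ (Y : ℝ) ^ (s / 5 : ℝ) →
        (hil (fun ξ : X => th2 (act (zr (g ξ)) τ)) μ : ℝ) ≤ (Y : ℝ) ^ (19 / 10 * s : ℝ)

end M4
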