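import Mathlib
import Pool.Agent.Lib.MP_33b3f9_ag.M4.ThExt

/-!
The ring generated by theta constants with rational characteristics: definitions.
-/

set_option autoImplicit false

namespace M4

open Complex Matrix

variable {ι : Type} [Fintype ι]

/-- The Siegel upper half space as a type. -/
abbrev HH (ι : Type) [Fintype ι] : Type := {τ : Matrix ι ι ℂ // InH τ}

/-- A rational vector as a real vector. -/
def rQ {κ : Type} (x : κ → ℚ) : κ → ℝ := fun i => (x i : ℝ)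

/-- The theta constant with rational characteristic `x`. -/
noncomputable def tq (x : ι ⊕ ι → ℚ) : HH ι → ℂ := fun τ => Th τ.1 (rQ x)

/-- The span of the products of `n` theta constants with rational characteristics. -/
noncomputable def MF (ι : Type) [Fintype ι] (n : ℕ) : Submodule ℂ (HH ι → ℂ) :=
  Submodule.span ℂ (Set.range (tq (ι := ι))) ^ n

/-- On the Siegel space `f` is a combination of products of `8 k` theta constants. -/
def Gd (k : ℕ) (f : Matrix ι ι ℂ → ℂ) : Prop := (fun τ : HH ι => f τ.1) ∈ MF ι (8 * k)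

/-- A real matrix with rational entries. -/
def IsQ {κ : Type} (g : Matrix κ κ ℝ) : Prop := ∀ i j, ∃ q : ℚ, g i j = q

/-- `g` is congruent to `1` modulo `q`. -/
def Lv {κ : Type} [DecidableEq κ] (q : ℕ) (g : Matrix κ κ ℤ) : Prop := ∀ i j, (q : ℤ) ∣ (g - 1) i j

/-- The level two theta constants. -/
noncomputable def t2 (e : ι ⊕ ι → Fin 2) : HH ι → ℂ := fun τ => Th τ.1 (hf (bz e))

variable [DecidableEq ι]

/-- The factor of automorphy of weight four. -/
noncomputable def wt (g : Matrix (ι ⊕ ι) (ι ⊕ ι) ℝ) (τ : Matrix ι ι ℂ) : ℂ :=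
  (den g τ).det ^ 4 / (g.det : ℂ) ^ 2

open Classical in
/-- The action on the Siegel space (the identity if `act g τ` is not in the space). -/
noncomputable def aH (g : Matrix (ι ⊕ ι) (ι ⊕ ι) ℝ) (τ : HH ι) : HH ι :=
  if h : InH (act g τ.1) then ⟨act g τ.1, h⟩ else τ

/-- The slash operator of weight `4 k`. -/
noncomputable def slash (k : ℕ) (g : Matrix (ι ⊕ ι) (ι ⊕ ι) ℝ) : (HH ι → ℂ) →ₗ[ℂ] (HH ι → ℂ) where
  toFun f τ := f (aH g τ) / wt g τ.1 ^ k
  map_add' f f' := by funext τ; simp [add_div]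
  map_smul' c f := by funext τ; simp [mul_div_assoc]

/-- Forms of weight `4 k` that are invariant under the integral symplectic matrices in `S`. -/
noncomputable def MI (S : Set (Matrix (ι ⊕ ι) (ι ⊕ ι) ℤ)) (k : ℕ) : Submodule ℂ (HH ι → ℂ) where
  carrier := {f | f ∈ MF ι (8 * k) ∧ ∀ γ ∈ S, γ ∈ symplecticGroup ι ℤ → slash k (mz γ) f = f}
  zero_mem' := ⟨Submodule.zero_mem _, fun _ _ _ => map_zero _⟩
  add_mem' := fun hf hg => ⟨Submodule.add_mem _ hf.1 hg.1, fun γ h h' => by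
    rw [map_add, hf.2 γ h h', hg.2 γ h h']⟩
  smul_mem' := fun c _ hf => ⟨Submodule.smul_mem _ c hf.1, fun γ h h' => by
    rw [map_smul, hf.2 γ h h']⟩

/-- The block diagonal matrix with blocks `τ`. -/
def dg (ρ : Type) [DecidableEq ρ] (τ : Matrix ι ι ℂ) : Matrix (ι × ρ) (ι × ρ) ℂ :=
  blockDiagonal fun _ : ρ => τ

theorem mem_MI {S : Set (Matrix (ι ⊕ ι) (ι ⊕ ι) ℤ)} {k : ℕ} {f : HH ι → ℂ} : f ∈ MI S k ↔
    f ∈ MF ι (8 * k) ∧ ∀ γ ∈ S, γ ∈ symplecticGroup ι ℤ → slash k (mz γ) f = f := Iff.rfl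

theorem slash_apply (k : ℕ) (g : Matrix (ι ⊕ ι) (ι ⊕ ι) ℝ) (f : HH ι → ℂ) (τ : HH ι) :
    slash k g f τ = f (aH g τ) / wt g τ.1 ^ k := rfl

theorem aH_val {g : Matrix (ι ⊕ ι) (ι ⊕ ι) ℝ} {m : ℝ} (hg : Sim g m) (hm : 0 < m) (τ : HH ι) :
    (aH g τ).1 = act g τ.1 := by
  rw [aH, dif_pos (inH_act hg hm τ.2)]

omit [DecidableEq ι] in
theorem tq_mem (x : ι ⊕ ι → ℚ) : tq x ∈ MF ι 1 := by
  rw [MF, pow_one]
  exact Submodule.subset_span ⟨x, rfl⟩

omit [DecidableEq ι] in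
theorem MF.mul {m n : ℕ} {f g : HH ι → ℂ} (hf : f ∈ MF ι m) (hg : g ∈ MF ι n) :
    f * g ∈ MF ι (m + n) := by
  rw [MF, pow_add]
  exact Submodule.mul_mem_mul hf hg

omit [DecidableEq ι] in
theorem MF.one : (1 : HH ι → ℂ) ∈ MF ι 0 := by
  rw [MF, pow_zero]
  exact Submodule.one_le.1 le_rfl

omit [DecidableEq ι] in
theorem MF.pow {n : ℕ} {f : HH ι → ℂ} (hf : f ∈ MF ι n) (k : ℕ) : f ^ k ∈ MF ι (n * k) := by
  rw [MF, pow_mul]
  exact Submodule.pow_mem_pow _ hf k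

omit [DecidableEq ι] in
theorem t2_eq (e : ι ⊕ ι → Fin 2) : t2 e = tq fun i => ((e i : ℕ) : ℚ) / 2 := by
  funext τ
  simp only [t2, tq]
  congr 1
  funext i
  simp [hf, bz, rz, rQ, div_eq_inv_mul]

omit [DecidableEq ι] in
theorem t2_mem (e : ι ⊕ ι → Fin 2) : t2 e ∈ MF ι 1 := t2_eq e ▸ tq_mem _

end M4
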