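import Mathlib
import Pool.Agent.Lib.MP_33b3f9_ag.M4.MFDefs

/-!
Theta functions of block diagonal period matrices.
-/

set_option autoImplicit false

namespace M4

open Complex Matrix

variable {ι ρ : Type} [Fintype ι] [Fintype ρ] [DecidableEq ρ]

/-- `Submodule.span_pow`, `Set.mem_pow`, `List.prod_ofFn`. -/
theorem MF_le {n : ℕ} {W : Submodule ℂ (HH ι → ℂ)}
    (h : ∀ x : Fin n → ι ⊕ ι → ℚ, ∏ i, tq (x i) ∈ W) : MF ι n ≤ W := by
  rw [MF, Submodule.span_pow, Submodule.span_le]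
  intro f hf
  obtain ⟨g, rfl⟩ := Set.mem_pow.1 hf
  choose x hx using fun i => (g i).2
  rw [List.prod_ofFn]
  simpa only [hx, SetLike.mem_coe] using h x

theorem prod_tq_mem {α : Type} (s : Finset α) (x : α → ι ⊕ ι → ℚ) :
    ∏ i ∈ s, tq (x i) ∈ MF ι s.card := by
  classical
  induction s using Finset.induction_on with
  | empty => exact MF.one
  | insert a s ha ih =>
    rw [Finset.prod_insert ha, Finset.card_insert_of_notMem ha, add_comm]
    exact MF.mul (tq_mem _) ih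

/-- The component of a vector in the slot `j`. -/
def slt {R : Type} (x : (ι × ρ) ⊕ (ι × ρ) → R) (j : ρ) : ι ⊕ ι → R :=
  Sum.elim (fun i => x (Sum.inl (i, j))) fun i => x (Sum.inr (i, j))

omit [DecidableEq ρ] in
theorem mfprod_dot (u v : ι × ρ → ℂ) :
    u ⬝ᵥ v = ∑ j, (fun i => u (i, j)) ⬝ᵥ fun i => v (i, j) :=
  Fintype.sum_prod_type_right _

theorem mfprod_quad (τ : Matrix ι ι ℂ) (u v : ι × ρ → ℂ) :
    u ⬝ᵥ dg ρ τ *ᵥ v = ∑ j, (fun i => u (i, j)) ⬝ᵥ τ *ᵥ fun i => v (i, j) := by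
  rw [mfprod_dot]
  refine Finset.sum_congr rfl fun j _ => congrArg _ (funext fun i => ?_)
  simp [dg, mulVec, dotProduct, blockDiagonal_apply, Fintype.sum_prod_type]

theorem inH_dg {τ : Matrix ι ι ℂ} (hτ : InH τ) : InH (dg ρ τ) := by
  classical
  obtain ⟨h1, h2⟩ := act_inH_iff.1 hτ
  refine act_inH_iff.2 ⟨(blockDiagonal_transpose _).trans (congrArg blockDiagonal
    (funext fun _ => h1)), fun v hv => ?_⟩
  obtain ⟨p, hp⟩ := Function.ne_iff.1 hv
  rw [mfprod_quad, im_sum]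
  refine Finset.sum_pos' (fun j _ => ?_)
    ⟨p.2, Finset.mem_univ _, h2 _ (Function.ne_iff.2 ⟨p.1, hp⟩)⟩
  by_cases h : (fun i => v (i, j)) = 0
  · rw [h, mulVec_zero, dotProduct_zero, zero_im]
  · exact (h2 _ h).le

theorem mfprod_fin {α : Type} (n : ℕ) (f : Fin n → α → ℂ) (hf : ∀ j, Summable fun a => ‖f j a‖) :
    (Summable fun x : Fin n → α => ‖∏ j, f j (x j)‖) ∧
      ∑' x : Fin n → α, ∏ j, f j (x j) = ∏ j, ∑' a, f j a := by
  induction n with
  | zero => exact ⟨Summable.of_finite, by simp⟩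
  | succ n ih =>
    obtain ⟨h1, h2⟩ := ih (fun j => f j.succ) fun j => hf _
    have h3 : ∀ p : α × (Fin n → α), ∏ j, f j (Fin.consEquiv (fun _ => α) p j) =
        f 0 p.1 * ∏ j, f j.succ (p.2 j) := fun p => Fin.prod_univ_succ _
    refine ⟨(Fin.consEquiv fun _ => α).summable_iff.1
      (((hf 0).mul_norm h1).congr fun p => congrArg norm (h3 p).symm), ?_⟩
    rw [← (Fin.consEquiv fun _ => α).tsum_eq, Fin.prod_univ_succ, ← h2,
      tsum_mul_tsum_of_summable_norm (hf 0) h1]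
    exact tsum_congr h3

/-- A finite product of absolutely convergent series (induction on the index type,
`Fintype.induction_empty_option` or on `Fin n` with `Fin.consEquiv`;
`HasSum.mul`, `summable_mul_of_summable_norm`). -/
theorem tsum_pi_prod {α : Type} (f : ρ → α → ℂ) (hf : ∀ j, Summable fun a => ‖f j a‖) :
    ∑' n : ρ → α, ∏ j, f j (n j) = ∏ j, ∑' a, f j a := by
  let e := Fintype.equivFin ρ
  rw [← (e.arrowCongr (Equiv.refl α)).symm.tsum_eq, ← e.symm.prod_comp,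
    ← (mfprod_fin _ (fun k => f (e.symm k)) fun k => hf _).2]
  refine tsum_congr fun y => ?_
  rw [← e.symm.prod_comp]
  simp

/-- Reindex by `(ι × ρ → ℤ) ≃ (ρ → ι → ℤ)`; the term is the product of the terms (`ee_sum`). -/
theorem Th_dg {τ : Matrix ι ι ℂ} (hτ : InH τ) (x : (ι × ρ) ⊕ (ι × ρ) → ℝ) :
    Th (dg ρ τ) x = ∏ j, Th τ (slt x j) := by
  let e : (ρ → ι → ℤ) ≃ (ι × ρ → ℤ) :=
    ⟨fun n p => n p.2 p.1, fun m j i => m (i, j), fun _ => rfl, fun _ => rfl⟩
  simp only [Th, Finset.prod_mul_distrib, thc_eq]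
  rw [← tsum_pi_prod _ fun j => summable_norm_term hτ _ _, ← e.tsum_eq, ← ee_sum, mfprod_dot,
    ← Finset.sum_neg_distrib, Finset.sum_div]
  refine congrArg₂ (· * ·) rfl (tsum_congr fun n => ?_)
  simp only [term]
  rw [← ee_sum, mfprod_quad, mfprod_dot, Finset.sum_div, ← Finset.sum_add_distrib]
  rfl

/-- The diagonal embedding of Siegel spaces. -/
def dH (ρ : Type) [Fintype ρ] [DecidableEq ρ] (τ : HH ι) : HH (ι × ρ) := ⟨dg ρ τ.1, inH_dg τ.2⟩

/-- `MF_le`, `Th_dg`, `prod_tq_mem`. -/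
theorem dg_mem {n : ℕ} {f : HH (ι × ρ) → ℂ} (hf : f ∈ MF (ι × ρ) n) :
    (fun τ => f (dH ρ τ)) ∈ MF ι (Fintype.card ρ * n) := by
  refine MF_le (W := (MF ι (Fintype.card ρ * n)).comap (LinearMap.funLeft ℂ ℂ (dH ρ)))
    (fun x => ?_) hf
  have h := prod_tq_mem Finset.univ fun p : ρ × Fin n => slt (x p.2) p.1
  rw [Finset.card_univ, Fintype.card_prod, Fintype.card_fin, Fintype.prod_prod_type_right] at h
  refine (congrArg (· ∈ MF ι (Fintype.card ρ * n)) (funext fun τ => ?_)).mp h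
  simp only [LinearMap.funLeft_apply, Finset.prod_apply]
  refine Finset.prod_congr rfl fun i _ => ((Th_dg τ.2 _).trans ?_).symm
  exact Finset.prod_congr rfl fun j _ => congrArg (Th τ.1) (funext fun a => by cases a <;> rfl)

end M4
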