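import Mathlib
import Pool.Agent.Lib.MP_33b3f9_ag.M4.MFProd

/-!
The slash operator; integral symplectic matrices; levels.
-/

set_option autoImplicit false

namespace M4

open Complex Matrix

variable {ι : Type} [Fintype ι] [DecidableEq ι] {g h : Matrix (ι ⊕ ι) (ι ⊕ ι) ℝ} {m n : ℝ}

theorem wt_ne_zero (hg : Sim g m) (hm : 0 < m) {τ : Matrix ι ι ℂ} (hτ : InH τ) : wt g τ ≠ 0 := by
  exact div_ne_zero (pow_ne_zero _ (den_det_ne_zero hg hm hτ))
    (pow_ne_zero _ (ofReal_ne_zero.2 (hg.det_ne_zero hm.ne')))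

theorem wt_mul (hh : Sim h n) (hn : 0 < n) {τ : Matrix ι ι ℂ} (hτ : InH τ) :
    wt (g * h) τ = wt g (act h τ) * wt h τ := by
  rw [wt, wt, wt, den_mul (den_det_ne_zero hh hn hτ), det_mul, det_mul, ofReal_mul, mul_pow,
    mul_pow, div_mul_div_comm]

theorem aH_mul (hg : Sim g m) (hm : 0 < m) (hh : Sim h n) (hn : 0 < n) (τ : HH ι) :
    aH (g * h) τ = aH g (aH h τ) := by
  apply Subtype.ext
  rw [aH_val (hg.mul hh) (mul_pos hm hn), aH_val hg hm, aH_val hh hn]
  exact act_mul (den_det_ne_zero hh hn τ.2) (den_det_ne_zero hg hm (inH_act hh hn τ.2))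

theorem slash_mul (hg : Sim g m) (hm : 0 < m) (hh : Sim h n) (hn : 0 < n) (k : ℕ)
    (f : HH ι → ℂ) : slash k (g * h) f = slash k h (slash k g f) := by
  funext τ
  rw [slash_apply, slash_apply, slash_apply, aH_mul hg hm hh hn, wt_mul hh hn τ.2, aH_val hh hn,
    mul_pow, div_div]

theorem slash_one (k : ℕ) (f : HH ι → ℂ) : slash k 1 f = f := by
  funext τ
  have h1 : aH 1 τ = τ := Subtype.ext (by rw [aH_val Sim.one one_pos, act_one])
  have h2 : den (1 : Matrix (ι ⊕ ι) (ι ⊕ ι) ℝ) τ.1 = 1 := by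
    rw [den, ← fromBlocks_one, toBlocks_fromBlocks₁₁, toBlocks_fromBlocks₁₂]
    simp
  rw [slash_apply, h1, wt, h2]
  simp

theorem slash_smul {c : ℝ} (hc : c ≠ 0) (k : ℕ) (f : HH ι → ℂ) :
    slash k (c • g) f = slash k g f := by
  funext τ
  have hc' : (c : ℂ) ≠ 0 := ofReal_ne_zero.2 hc
  have h1 : aH (c • g) τ = aH g τ := by
    by_cases h0 : InH (act g τ.1)
    · have h0' : InH (act (c • g) τ.1) := by rwa [act_smul hc]
      rw [aH, aH, dif_pos h0, dif_pos h0']
      exact Subtype.ext (act_smul hc g τ.1)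
    · have h0' : ¬ InH (act (c • g) τ.1) := by rwa [act_smul hc]
      rw [aH, aH, dif_neg h0, dif_neg h0']
  have h2 : den (c • g) τ.1 = (c : ℂ) • den g τ.1 := by
    ext i j
    simp [den, toBlocks₁₁, toBlocks₁₂, Matrix.mul_apply, mul_sub, Finset.mul_sum, mul_assoc]
  have h3 : wt (c • g) τ.1 = wt g τ.1 := by
    have h4 : ((c : ℂ) ^ Fintype.card ι) ^ 4 = ((c : ℂ) ^ Fintype.card (ι ⊕ ι)) ^ 2 := by
      rw [Fintype.card_sum]
      ring
    rw [wt, wt, h2, det_smul, det_smul, ofReal_mul, ofReal_pow, mul_pow, mul_pow, h4,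
      mul_div_mul_left _ _ (pow_ne_zero _ (pow_ne_zero _ hc'))]
  rw [slash_apply, slash_apply, h1, h3]

theorem slash_mul_fun (k l : ℕ) (f f' : HH ι → ℂ) :
    slash (k + l) g (f * f') = slash k g f * slash l g f' := by
  funext τ
  rw [Pi.mul_apply, slash_apply, slash_apply, slash_apply, Pi.mul_apply, pow_add, div_mul_div_comm]

/-- `MF ι (8 k) = MF ι 8 ^ k`; `Submodule.pow_induction_on_left'`. -/
theorem slash_mem_of_one (h1 : ∀ f ∈ MF ι 8, slash 1 g f ∈ MF ι 8) {k : ℕ} {f : HH ι → ℂ}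
    (hf : f ∈ MF ι (8 * k)) : slash k g f ∈ MF ι (8 * k) := by
  induction k generalizing f with
  | zero =>
    rw [mul_zero, MF, pow_zero, Submodule.mem_one] at hf
    obtain ⟨c, rfl⟩ := hf
    have h2 : slash 0 g (algebraMap ℂ (HH ι → ℂ) c) = c • (1 : HH ι → ℂ) := by
      funext τ
      simp [slash_apply]
    rw [h2]
    exact Submodule.smul_mem _ c MF.one
  | succ k ih =>
    rw [MF, mul_add_one, pow_add] at hf
    refine Submodule.mul_induction_on hf (fun a ha b hb => ?_) fun a b ha hb => ?_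
    · rw [slash_mul_fun, mul_add_one]
      exact MF.mul (ih ha) (h1 b hb)
    · rw [map_add]
      exact Submodule.add_mem _ ha hb

end M4
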