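import Mathlib
import Pool.Agent.Lib.MP_33b3f9_ag.M4.MFAct0
import Pool.Agent.Lib.MP_33b3f9_ag.M4.ModIf

/-!
The slash operator; integral symplectic matrices; levels.
-/

set_option autoImplicit false

namespace M4

open Complex Matrix

variable {ι : Type} [Fintype ι] [DecidableEq ι] {g h : Matrix (ι ⊕ ι) (ι ⊕ ι) ℝ} {m n : ℝ}

theorem mz_mul (γ δ : Matrix (ι ⊕ ι) (ι ⊕ ι) ℤ) : mz (γ * δ) = mz γ * mz δ := by
  exact thmod_mul γ δ

/-- The determinant is a unit of `ℤ` (`SymplecticGroup.symplectic_det`). -/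
theorem wt_mz {γ : Matrix (ι ⊕ ι) (ι ⊕ ι) ℤ} (hγ : γ ∈ symplecticGroup ι ℤ) (τ : Matrix ι ι ℂ) :
    wt (mz γ) τ = (den (mz γ) τ).det ^ 4 := by
  have h1 : ((mz γ).det : ℂ) ^ 2 = 1 := by
    have h2 : (mz γ).det = (γ.det : ℝ) := ((Int.castRingHom ℝ).map_det γ).symm
    have h3 : γ.det ^ 2 = 1 := Int.isUnit_sq (SymplecticGroup.symplectic_det hγ)
    rw [h2]
    exact_mod_cast h3
  rw [wt, h1, div_one]

/-- `law_of_mem` gives `k, c` depending on `τ`; only `k` modulo two matters and the function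
`τ ↦ k` may vary: avoid this as follows. For fixed `γ` the shift is determined modulo `2`: both
sides transform under `U 1 (rz n)`, so `chi (γ n) = chi n * ee (E (hf k) (rz n))` for all `n`
(`Th_ne_zero`, `U_comp`, `U_rz_Th`, `U_Th_mem`); two such `k` differ by an even vector
(`exists_rz_of_E`), and `U_add_rz_Th` changes `c` by a fourth root of unity. -/
theorem law_unif {γ : Matrix (ι ⊕ ι) (ι ⊕ ι) ℤ} (hγ : γ ∈ symplecticGroup ι ℤ) :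
    ∃ k : ι ⊕ ι → ℤ, ∀ τ : Matrix ι ι ℂ, InH τ → ∃ c : ℂ, c ^ 8 = wt (mz γ) τ ∧
      ∀ x, Th (act (mz γ) τ) (mz γ *ᵥ x) = c * U 1 (hf k) (Th τ) x := by
  obtain ⟨k, hk⟩ := Mo.transport_wt (ι := ι) ⟨γ, hγ⟩
  refine ⟨k, fun τ hτ => ?_⟩
  rw [wt_mz hγ]
  exact hk τ hτ

/-- `law_unif` at `x' = γ⁻¹ x` (rational); the phases `ee (E (hf k) x' / 2)` are constants. -/
theorem slash_mem_sp {γ : Matrix (ι ⊕ ι) (ι ⊕ ι) ℤ} (hγ : γ ∈ symplecticGroup ι ℤ) {k : ℕ}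
    {f : HH ι → ℂ} (hf : f ∈ MF ι (8 * k)) : slash k (mz γ) f ∈ MF ι (8 * k) := by
  refine slash_mem_of_one (fun f hf => ?_) hf
  refine MF_le (W := (MF ι 8).comap (slash 1 (mz γ))) (fun x => ?_) hf
  obtain ⟨k, hk⟩ := law_unif hγ
  have hs : Sim (mz γ) 1 := sim_mz_iff.2 hγ
  obtain ⟨δ, hδ⟩ : ∃ δ : Matrix (ι ⊕ ι) (ι ⊕ ι) ℤ, γ * δ = 1 :=
    ⟨((⟨γ, hγ⟩ : symplecticGroup ι ℤ)⁻¹).1,
      congrArg Subtype.val (mul_inv_cancel (⟨γ, hγ⟩ : symplecticGroup ι ℤ))⟩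
  have h1 : ∀ y : ι ⊕ ι → ℚ, mz γ *ᵥ (mz δ *ᵥ rQ y) = rQ y := fun y => by
    rw [mulVec_mulVec, ← mz_mul, hδ, show mz (1 : Matrix (ι ⊕ ι) (ι ⊕ ι) ℤ) = 1 from Mo.rm_one,
      one_mulVec]
  have h2 : ∀ y : ι ⊕ ι → ℚ, mz δ *ᵥ rQ y + M4.hf k =
      rQ (δ.map (Int.cast : ℤ → ℚ) *ᵥ y + fun i => (k i : ℚ) / 2) := fun y => by
    funext i
    simp [mz, rQ, M4.hf, rz, mulVec, dotProduct, div_eq_inv_mul]
  have h3 : slash 1 (mz γ) (∏ i, tq (x i)) =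
      (∏ i, ee ((1 : ℝ) * E (M4.hf k) (mz δ *ᵥ rQ (x i)) / 2)) •
        ∏ i, tq (δ.map (Int.cast : ℤ → ℚ) *ᵥ x i + fun i => (k i : ℚ) / 2) := by
    funext τ
    obtain ⟨c, hc, h⟩ := hk τ.1 τ.2
    have h4 : ∀ i, tq (x i) (aH (mz γ) τ) = c * (ee ((1 : ℝ) * E (M4.hf k) (mz δ *ᵥ rQ (x i)) / 2) *
        tq (δ.map (Int.cast : ℤ → ℚ) *ᵥ x i + fun i => (k i : ℚ) / 2) τ) := fun i => by
      rw [tq, tq, aH_val hs one_pos, ← h2, ← U_apply, ← h, h1]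
    rw [slash_apply, pow_one, Pi.smul_apply, Finset.prod_apply, Finset.prod_apply, smul_eq_mul,
      Finset.prod_congr rfl fun i _ => h4 i, Finset.prod_mul_distrib, Finset.prod_mul_distrib,
      Finset.prod_const, Finset.card_univ, Fintype.card_fin, hc,
      mul_div_cancel_left₀ _ (wt_ne_zero hs one_pos τ.2)]
  rw [Submodule.mem_comap, h3]
  refine Submodule.smul_mem _ _ ?_
  simpa using prod_tq_mem (Finset.univ : Finset (Fin 8))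
    fun i => δ.map (Int.cast : ℤ → ℚ) *ᵥ x i + fun i => (k i : ℚ) / 2

end M4
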