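import Mathlib
import Pool.Agent.Lib.MP_33b3f9_ag.M4.MFAct

/-!
Levels of theta constants.
-/

set_option autoImplicit false

namespace M4

open Complex Matrix

variable {ι : Type} [Fintype ι] [DecidableEq ι] {γ δ : Matrix (ι ⊕ ι) (ι ⊕ ι) ℤ}

/-- `law_of_even`; `γ x = x + n` with `n ∈ 2 r ℤ`, so `chi n = 1` and `E (rz n) x / 2` is an
integer (`U_rz_Th`). -/
theorem tq_level (hγ : γ ∈ symplecticGroup ι ℤ) {r : ℕ} (hr : r ≠ 0) (h : Lv (2 * r ^ 2) γ)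
    (τ : HH ι) : ∃ c : ℂ, c ^ 8 = wt (mz γ) τ.1 ∧ ∀ x : ι ⊕ ι → ℚ,
      (∀ i, ∃ z : ℤ, (r : ℚ) * x i = z) → tq x (aH (mz γ) τ) = c * tq x τ := by
  obtain ⟨c, hc, hl⟩ := law_of_even hγ (fun i j => (Dvd.intro _ (by push_cast; rfl)).trans (h i j))
    τ.2
  refine ⟨c, by rw [hc, wt_mz hγ], fun x hx => ?_⟩
  choose z hz using hx
  choose b hb using h
  have hr' : (r : ℝ) ≠ 0 := Nat.cast_ne_zero.2 hr
  have hx : rQ x = (r : ℝ)⁻¹ • rz z := by
    funext i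
    have h1 : (r : ℝ) * (x i : ℝ) = z i := by exact_mod_cast hz i
    simp only [rQ, rz, Pi.smul_apply, smul_eq_mul]
    rw [← h1, inv_mul_cancel_left₀ hr']
  have hg : γ = 1 + ((r : ℤ) * (2 * r)) • Matrix.of b := by
    ext i j
    have h1 := hb i j
    simp only [Matrix.sub_apply] at h1
    simp only [Matrix.add_apply, Matrix.smul_apply, of_apply, smul_eq_mul]
    push_cast at h1
    linarith
  have hm : mz γ *ᵥ rQ x = rQ x + rz ((2 : ℤ) • (r : ℤ) • (Matrix.of b *ᵥ z)) := by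
    rw [hx, mulVec_smul, thmod_rz, hg, add_mulVec, one_mulVec, smul_mulVec, rz_add, smul_add,
      mul_smul, mul_smul, rz_smul, Int.cast_natCast, inv_smul_smul₀ hr']
  have hU := congrFun (U_rz_Th (act (mz γ) τ.1) ((2 : ℤ) • (r : ℤ) • (Matrix.of b *ᵥ z))) (rQ x)
  have hchi : chi ((2 : ℤ) • (r : ℤ) • (Matrix.of b *ᵥ z)) = 1 := by
    rw [← zero_add ((2 : ℤ) • _), chi_add_two]
    simp [chi]
  have hE : ee (((1 : ℝ) : ℂ) * E (rz ((2 : ℤ) • (r : ℤ) • (Matrix.of b *ᵥ z))) (rQ x) / 2) = 1 := by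
    rw [← ee_E_rz (Matrix.of b *ᵥ z) z, hx, rz_smul, rz_smul, E_smul_left, E_smul_left,
      E_smul_right, Int.cast_natCast, mul_inv_cancel_left₀ hr']
    congr 1
    push_cast
    ring
  rw [U_apply, hE, hchi, one_mul, one_smul, ← hm, hl] at hU
  rw [tq, aH_val (sim_mz_iff.2 hγ) one_pos, ← hU]
  rfl

theorem t2_level (hγ : γ ∈ symplecticGroup ι ℤ) (h : Lv 8 γ) (τ : HH ι) :
    ∃ c : ℂ, c ^ 8 = wt (mz γ) τ.1 ∧ ∀ e, t2 e (aH (mz γ) τ) = c * t2 e τ := by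
  obtain ⟨c, hc, hl⟩ := tq_level hγ (r := 2) two_ne_zero h τ
  refine ⟨c, hc, fun e => ?_⟩
  rw [t2_eq]
  exact hl _ fun i => ⟨(e i : ℕ), by push_cast; ring⟩

omit [Fintype ι] in
theorem Lv.of_dvd {q q' : ℕ} (h : Lv q' γ) (hq : q ∣ q') : Lv q γ := by
  exact fun i j => (Int.natCast_dvd_natCast.2 hq).trans (h i j)

theorem mflev0_slash (hγ : γ ∈ symplecticGroup ι ℤ) {k : ℕ} {f : HH ι → ℂ}
    (h : ∀ τ : HH ι, ∃ c : ℂ, c ^ 8 = wt (mz γ) τ.1 ∧ f (aH (mz γ) τ) = c ^ (8 * k) * f τ) :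
    slash k (mz γ) f = f := by
  funext τ
  obtain ⟨c, hc, hf⟩ := h τ
  rw [slash_apply, hf, pow_mul, hc,
    mul_div_cancel_left₀ _ (pow_ne_zero _ (wt_ne_zero (sim_mz_iff.2 hγ) one_pos τ.2))]

/-- The functions that have a level. -/
def mflev0W (ι : Type) [Fintype ι] [DecidableEq ι] (k : ℕ) : Submodule ℂ (HH ι → ℂ) where
  carrier := {f | ∃ q : ℕ, q ≠ 0 ∧ ∀ γ, Lv q γ → γ ∈ symplecticGroup ι ℤ → slash k (mz γ) f = f}
  zero_mem' := ⟨1, one_ne_zero, fun _ _ _ => map_zero _⟩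
  add_mem' := by
    rintro f g ⟨q, hq, hf⟩ ⟨q', hq', hg⟩
    exact ⟨q * q', mul_ne_zero hq hq', fun γ h h' => by
      rw [map_add, hf γ (h.of_dvd (dvd_mul_right _ _)) h', hg γ (h.of_dvd (dvd_mul_left _ _)) h']⟩
  smul_mem' := by
    rintro c f ⟨q, hq, hf⟩
    exact ⟨q, hq, fun γ h h' => by rw [map_smul, hf γ h h']⟩

/-- The forms that have a level are a submodule; `MF_le`, `tq_level`. -/
theorem exists_level {k : ℕ} {f : HH ι → ℂ} (hf : f ∈ MF ι (8 * k)) :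
    ∃ q : ℕ, q ≠ 0 ∧ f ∈ MI {γ | Lv q γ} k := by
  have key : MF ι (8 * k) ≤ mflev0W ι k := MF_le fun x => by
    have hr : ∏ p : Fin (8 * k) × (ι ⊕ ι), (x p.1 p.2).den ≠ 0 :=
      Finset.prod_ne_zero_iff.2 fun p _ => (x p.1 p.2).den_nz
    refine ⟨_, mul_ne_zero two_ne_zero (pow_ne_zero 2 hr), fun γ h hγ =>
      mflev0_slash hγ fun τ => ?_⟩
    obtain ⟨c, hc, hl⟩ := tq_level hγ hr h τ
    refine ⟨c, hc, ?_⟩
    have h1 : ∀ i, tq (x i) (aH (mz γ) τ) = c * tq (x i) τ := fun i => hl _ fun j => by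
      obtain ⟨d, hd⟩ := Finset.dvd_prod_of_mem
        (fun p : Fin (8 * k) × (ι ⊕ ι) => (x p.1 p.2).den) (Finset.mem_univ (i, j))
      refine ⟨d * (x i j).num, ?_⟩
      rw [hd]
      push_cast
      rw [← Rat.mul_den_eq_num]
      ring
    simp only [Finset.prod_apply, h1, Finset.prod_mul_distrib, Finset.prod_const,
      Finset.card_univ, Fintype.card_fin]
  obtain ⟨q, hq, h⟩ := key hf
  exact ⟨q, hq, hf, h⟩

theorem MI.mul {S : Set (Matrix (ι ⊕ ι) (ι ⊕ ι) ℤ)} {k l : ℕ} {f f' : HH ι → ℂ}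
    (hf : f ∈ MI S k) (hf' : f' ∈ MI S l) : f * f' ∈ MI S (k + l) := by
  refine ⟨by rw [mul_add]; exact MF.mul hf.1 hf'.1, fun γ h h' => ?_⟩
  rw [slash_mul_fun, hf.2 γ h h', hf'.2 γ h h']

theorem MI.one (S : Set (Matrix (ι ⊕ ι) (ι ⊕ ι) ℤ)) : (1 : HH ι → ℂ) ∈ MI S 0 := by
  refine ⟨MF.one, fun γ _ _ => ?_⟩
  funext τ
  simp [slash_apply]

theorem MI.anti {S S' : Set (Matrix (ι ⊕ ι) (ι ⊕ ι) ℤ)} (h : S ⊆ S') (k : ℕ) :
    MI S' k ≤ MI S k := by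
  exact fun _ hf => ⟨hf.1, fun γ hγ => hf.2 γ (h hγ)⟩

omit [DecidableEq ι] in
theorem mflev0_pow {σ τ : HH ι} {c : ℂ} (h : ∀ e, t2 e σ = c * t2 e τ) {n : ℕ} {f : HH ι → ℂ}
    (hf : f ∈ Submodule.span ℂ (Set.range (t2 (ι := ι))) ^ n) : f σ = c ^ n * f τ := by
  induction hf using Submodule.pow_induction_on_left' with
  | algebraMap r => simp
  | add x y i _ _ hx hy => rw [Pi.add_apply, Pi.add_apply, hx, hy, mul_add]
  | mem_mul m hm i x _ hx =>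
    have h1 : m σ = c * m τ := by
      induction hm using Submodule.span_induction with
      | mem y hy =>
        obtain ⟨e, rfl⟩ := hy
        exact h e
      | zero => simp
      | add y z _ _ hy hz => rw [Pi.add_apply, Pi.add_apply, hy, hz, mul_add]
      | smul a y _ hy => rw [Pi.smul_apply, Pi.smul_apply, hy, smul_eq_mul, smul_eq_mul, mul_left_comm]
    rw [Pi.mul_apply, Pi.mul_apply, h1, hx, pow_succ]
    ring

/-- Products of `8 k` elements of the span of the `t2 e` are invariant (`t2_level`). -/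
theorem span_t2_pow_le (k : ℕ) :
    Submodule.span ℂ (Set.range (t2 (ι := ι))) ^ (8 * k) ≤ MI {γ | Lv 8 γ} k := by
  intro f hf
  have hle : Submodule.span ℂ (Set.range (t2 (ι := ι))) ≤
      Submodule.span ℂ (Set.range (tq (ι := ι))) := by
    refine Submodule.span_mono ?_
    rintro _ ⟨e, rfl⟩
    exact ⟨_, (t2_eq e).symm⟩
  refine ⟨pow_le_pow_left' hle _ hf, fun γ h hγ => mflev0_slash hγ fun τ => ?_⟩
  obtain ⟨c, hc, hl⟩ := t2_level hγ h τ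
  exact ⟨c, hc, mflev0_pow hl hf⟩

end M4
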