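import Mathlib
import Pool.Agent.Lib.MP_33b3f9_ag.M4.MFLev0

/-!
Levels of theta constants.
-/

set_option autoImplicit false

namespace M4

open Complex Matrix

variable {ι : Type} [Fintype ι] [DecidableEq ι] {γ δ : Matrix (ι ⊕ ι) (ι ⊕ ι) ℤ}

theorem mflev_left {h h' : Matrix (ι ⊕ ι) (ι ⊕ ι) ℤ} {m q : ℕ} (hm : m ≠ 0)
    (hh : Sim (mz h) m) (hh' : Sim (mz h') m) (hq : ∀ i j, ((q * m : ℕ) : ℤ) ∣ (h' - h) i j) :
    ∃ δ ∈ symplecticGroup ι ℤ, Lv q δ ∧ h' = δ * h := by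
  have hm' : (m : ℝ) ≠ 0 := by exact_mod_cast hm
  have h1 : hᵀ * J ι ℤ * h = (m : ℤ) • J ι ℤ := by
    have hJ : mz (J ι ℤ) = J ι ℝ := Matrix.map_J ι (Int.castRingHom ℝ)
    have h2 : mz (hᵀ * J ι ℤ * h) = mz ((m : ℤ) • J ι ℤ) := by
      have h3 : mz hᵀ = (mz h)ᵀ := rfl
      rw [mz_mul, mz_mul, h3, hJ, sim_iff.1 hh, ← hJ]
      ext i j
      simp only [mz, Matrix.smul_apply, Matrix.map_apply, smul_eq_mul, Int.cast_mul,
        Int.cast_natCast]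
    exact Matrix.map_injective Int.cast_injective h2
  have h2 : -(J ι ℤ * hᵀ * J ι ℤ) * h = (m : ℤ) • 1 := by
    rw [Matrix.neg_mul, Matrix.mul_assoc (J ι ℤ), Matrix.mul_assoc (J ι ℤ), h1, Matrix.mul_smul,
      J_squared, smul_neg, neg_neg]
  choose b hb using hq
  have h3 : h' - h = ((q * m : ℕ) : ℤ) • Matrix.of b := by
    ext i j
    rw [hb]
    rfl
  have h4 : h' = (1 + (q : ℤ) • (Matrix.of b * -(J ι ℤ * hᵀ * J ι ℤ))) * h := by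
    rw [Matrix.add_mul, Matrix.one_mul, Matrix.smul_mul, Matrix.mul_assoc, h2, Matrix.mul_smul,
      Matrix.mul_one, smul_smul, ← Nat.cast_mul, ← h3, add_sub_cancel]
  refine ⟨_, sim_mz_iff.1 ?_, fun i j => ?_, h4⟩
  · have h5 := hh'.mul (hh.inv hm')
    rwa [h4, mz_mul, Matrix.mul_assoc, mul_nonsing_inv _ (hh.det_ne_zero hm').isUnit,
      Matrix.mul_one, mul_inv_cancel₀ hm'] at h5
  · rw [add_sub_cancel_left]
    exact Dvd.intro _ rfl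

theorem mflev_dvd {q : ℕ} (h : Matrix (ι ⊕ ι) (ι ⊕ ι) ℤ) (hq : Lv q γ) (i j : ι ⊕ ι) :
    (q : ℤ) ∣ (h * γ - h) i j := by
  rw [← mul_sub_one, Matrix.mul_apply]
  exact Finset.dvd_sum fun l _ => (hq l j).mul_left _

/-- `γ = (γ δ⁻¹) δ` and `γ δ⁻¹` is `1` modulo `q`. -/
theorem slash_congr {q k : ℕ} {f : HH ι → ℂ} (hf : f ∈ MI {γ | Lv q γ} k)
    (hγ : γ ∈ symplecticGroup ι ℤ) (hδ : δ ∈ symplecticGroup ι ℤ)
    (h : ∀ i j, (q : ℤ) ∣ (γ - δ) i j) : slash k (mz γ) f = slash k (mz δ) f := by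
  obtain ⟨ε, hε, hq, rfl⟩ := mflev_left (m := 1) (q := q) one_ne_zero
    (by simpa using sim_mz_iff.2 hδ) (by simpa using sim_mz_iff.2 hγ) (by simpa using h)
  rw [mz_mul, slash_mul (sim_mz_iff.2 hε) one_pos (sim_mz_iff.2 hδ) one_pos, hf.2 ε hq hε]

/-- `slash_mem_sp`, `slash_congr`. -/
theorem slash_mem_MI {q k : ℕ} {f : HH ι → ℂ} (hf : f ∈ MI {γ | Lv q γ} k)
    (hγ : γ ∈ symplecticGroup ι ℤ) : slash k (mz γ) f ∈ MI {γ | Lv q γ} k := by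
  refine ⟨slash_mem_sp hγ hf.1, fun ε hq hε => ?_⟩
  rw [← slash_mul (sim_mz_iff.2 hγ) one_pos (sim_mz_iff.2 hε) one_pos, ← mz_mul]
  exact slash_congr hf (mul_mem hγ hε) hγ (mflev_dvd γ hq)

/-- For an integral similitude `h` of multiplier `m`, `m h⁻¹` is integral (`sim_iff`), so
`h γ h⁻¹` is integral, symplectic and `1` modulo `q` if `γ` is `1` modulo `q m`. -/
theorem exists_conj_level {h : Matrix (ι ⊕ ι) (ι ⊕ ι) ℤ} {m q : ℕ} (hm : m ≠ 0)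
    (hh : Sim (mz h) m) (hγ : γ ∈ symplecticGroup ι ℤ) (hq : Lv (q * m) γ) :
    ∃ δ ∈ symplecticGroup ι ℤ, Lv q δ ∧ h * γ = δ * h := by
  refine mflev_left hm hh ?_ (mflev_dvd h hq)
  have h1 := hh.mul (sim_mz_iff.2 hγ)
  rwa [mul_one, ← mz_mul] at h1

/-- The same computation for `h' h⁻¹`. -/
theorem exists_left_level {h h' : Matrix (ι ⊕ ι) (ι ⊕ ι) ℤ} {m q : ℕ} (hm : m ≠ 0)
    (hh : Sim (mz h) m) (hh' : Sim (mz h') m) (hq : ∀ i j, ((q * m : ℕ) : ℤ) ∣ (h' - h) i j) :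
    ∃ δ ∈ symplecticGroup ι ℤ, Lv q δ ∧ h' = δ * h := by
  exact mflev_left hm hh hh' hq

end M4
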