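import Mathlib
import Pool.Agent.Lib.MP_33b3f9_ag.M4.ThThm

/-!
Periodic functions with bounded denominators on `ℚ^κ`.
-/

set_option autoImplicit false

namespace M4

open Complex Matrix

variable {κ : Type} [Fintype κ]

/-- A rational vector as a complex vector. -/
def cq {κ : Type} (x : κ → ℚ) : κ → ℂ := fun i => (x i : ℂ)

/-- `ψ` is supported on `(1 / N) ℤ^κ` and periodic modulo `N ℤ^κ`. -/
def IsSB {κ : Type} (ψ : (κ → ℚ) → ℂ) : Prop :=
  ∃ N : ℕ, N ≠ 0 ∧ (∀ x, ψ x ≠ 0 → ∀ i, ∃ z : ℤ, (N : ℚ) * x i = z) ∧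
    ∀ (x : κ → ℚ) (n : κ → ℤ), ψ (x + fun i => (N : ℚ) * n i) = ψ x

open Classical in
/-- A character on a coset of the lattice. -/
noncomputable def sbc (a b : κ → ℚ) (x : κ → ℚ) : ℂ :=
  if ∀ i, ∃ z : ℤ, x i = z + a i then ee (cq x ⬝ᵥ cq b) else 0

theorem mfsb_den {α : Type} [Fintype α] (q : α → ℚ) :
    ∃ N : ℕ, N ≠ 0 ∧ ∀ i, ∃ z : ℤ, (N : ℚ) * q i = z := by
  refine ⟨∏ i, (q i).den, Finset.prod_ne_zero_iff.2 fun i _ => (q i).den_nz, fun i => ?_⟩
  obtain ⟨c, hc⟩ := Finset.dvd_prod_of_mem (fun i => (q i).den) (Finset.mem_univ i)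
  refine ⟨c * (q i).num, ?_⟩
  rw [hc]
  push_cast
  rw [← Rat.mul_den_eq_num]
  ring

theorem mfsb_ee {s t : ℂ} (k : ℤ) (h : s = t + k) : ee s = ee t := by
  rw [h, ee_add, ee_int, mul_one]

theorem mfsb_mod {M : ℕ} (hM : M ≠ 0) (z : ℤ) :
    ∃ (r : Fin M) (k : ℤ), z = ((r : ℕ) : ℤ) + M * k := by
  have h0 : (0 : ℤ) < M := by exact_mod_cast Nat.pos_of_ne_zero hM
  have h1 := Int.emod_nonneg z h0.ne'
  have h2 := Int.emod_lt_of_pos z h0
  refine ⟨⟨(z % M).toNat, by omega⟩, z / M, ?_⟩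
  rw [Int.toNat_of_nonneg h1, Int.emod_add_mul_ediv]

theorem mfsb_uniq {M : ℕ} {r r' : Fin M} {k k' : ℤ}
    (h : ((r : ℕ) : ℤ) + M * k = ((r' : ℕ) : ℤ) + M * k') : r = r' := by
  have h1 := congrArg (· % (M : ℤ)) h
  simp only [Int.add_mul_emod_self_left] at h1
  rw [Int.emod_eq_of_lt (by positivity) (by exact_mod_cast r.2),
    Int.emod_eq_of_lt (by positivity) (by exact_mod_cast r'.2)] at h1
  exact Fin.ext (by exact_mod_cast h1)

open Classical in
/-- The indicator function of `a + N ℤ^κ`. -/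
noncomputable def mfsbD (N : ℕ) (a x : κ → ℚ) : ℂ :=
  if ∀ i, ∃ k : ℤ, x i = a i + N * k then 1 else 0

theorem mfsb_sum {N : ℕ} (hN : N ≠ 0) (a x : κ → ℚ) [DecidableEq κ] :
    ∑ s : κ → Fin N, ee (-(cq a ⬝ᵥ cq fun i => ((s i : ℕ) : ℚ) / N)) *
      sbc a (fun i => ((s i : ℕ) : ℚ) / N) x = (N : ℂ) ^ Fintype.card κ * mfsbD N a x := by
  classical
  have hN' : (N : ℂ) ≠ 0 := Nat.cast_ne_zero.2 hN
  by_cases hx : ∀ i, ∃ z : ℤ, x i = z + a i
  · choose z hz using hx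
    choose r k hr using fun i => mfsb_mod hN (z i)
    have h0 : ∀ s : κ → Fin N, ee (-(cq a ⬝ᵥ cq fun i => ((s i : ℕ) : ℚ) / N)) *
        sbc a (fun i => ((s i : ℕ) : ℚ) / N) x =
        ee ((cz (fun i => ((r i : ℕ) : ℤ)) -
          cz (fun _ => (((⟨0, Nat.pos_of_ne_zero hN⟩ : Fin N) : ℕ) : ℤ))) ⬝ᵥ
            cz (fun i => ((s i : ℕ) : ℤ)) / N) := fun s => by
      rw [sbc, if_pos fun i => ⟨z i, hz i⟩, ← ee_add]
      refine mfsb_ee (∑ i, k i * (s i : ℕ)) ?_
      simp only [dotProduct, cq, cz, Pi.sub_apply, Finset.sum_div, ← Finset.sum_neg_distrib,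
        Int.cast_sum, ← Finset.sum_add_distrib]
      refine Finset.sum_congr rfl fun i _ => ?_
      rw [hz i, hr i]
      push_cast
      field_simp
      ring
    rw [Finset.sum_congr rfl fun s _ => h0 s, sum_ee_div hN, mfsbD, mul_ite, mul_one, mul_zero]
    refine if_congr ⟨fun h i => ⟨k i, ?_⟩, fun h => funext fun i => ?_⟩ rfl rfl
    · rw [hz i, hr i, h]
      push_cast
      ring
    · obtain ⟨k', hk'⟩ := h i
      refine mfsb_uniq (k := k i) (k' := k') ?_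
      rw [← hr i]
      have h1 : (z i : ℚ) = N * k' := by linarith [hz i]
      simpa using (by exact_mod_cast h1 : z i = N * k')
  · have h1 : ¬ ∀ i, ∃ k : ℤ, x i = a i + N * k := fun h => hx fun i => by
      obtain ⟨k, hk⟩ := h i
      exact ⟨N * k, by rw [hk]; push_cast; ring⟩
    simp only [sbc, if_neg hx, mfsbD, if_neg h1, mul_zero, Finset.sum_const_zero]

theorem mfsb_mem {N : ℕ} (hN : N ≠ 0) (a : κ → ℚ) :
    mfsbD N a ∈ Submodule.span ℂ (Set.range fun p : (κ → ℚ) × (κ → ℚ) => sbc p.1 p.2) := by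
  classical
  have hN' : (N : ℂ) ^ Fintype.card κ ≠ 0 := pow_ne_zero _ (Nat.cast_ne_zero.2 hN)
  rw [← Submodule.smul_mem_iff _ hN']
  have e : (N : ℂ) ^ Fintype.card κ • mfsbD N a = ∑ s : κ → Fin N,
      ee (-(cq a ⬝ᵥ cq fun i => ((s i : ℕ) : ℚ) / N)) • sbc a fun i => ((s i : ℕ) : ℚ) / N := by
    funext x
    simp only [Finset.sum_apply, Pi.smul_apply, smul_eq_mul]
    exact (mfsb_sum hN a x).symm
  rw [e]
  exact Submodule.sum_mem _ fun s _ => Submodule.smul_mem _ _ (Submodule.subset_span ⟨(a, _), rfl⟩)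

theorem mfsb_cast (y : κ → ℚ) (B : Matrix κ κ ℚ) :
    cq y ⬝ᵥ B.map (Rat.cast : ℚ → ℂ) *ᵥ cq y = ((y ⬝ᵥ B *ᵥ y : ℚ) : ℂ) := by
  simp [dotProduct, mulVec, cq]

/-- `N` = a common denominator of all `a i`, `b i`. -/
theorem isSB_sbc (a b : κ → ℚ) : IsSB (sbc a b) := by
  classical
  obtain ⟨N, hN, h⟩ := mfsb_den (Sum.elim a b)
  refine ⟨N, hN, fun x hx i => ?_, fun x n => ?_⟩
  · have h1 : ∀ i, ∃ z : ℤ, x i = z + a i := by
      by_contra h1
      exact hx (if_neg h1)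
    obtain ⟨z, hz⟩ := h1 i
    obtain ⟨w, hw⟩ := h (Sum.inl i)
    refine ⟨N * z + w, ?_⟩
    rw [hz, mul_add, show (N : ℚ) * a i = w from hw]
    push_cast
    rfl
  · choose w hw using fun i => h (Sum.inr i)
    refine if_congr (forall_congr' fun i => ⟨?_, ?_⟩) ?_ rfl
    · rintro ⟨z, hz⟩
      refine ⟨z - N * n i, ?_⟩
      rw [Pi.add_apply] at hz
      push_cast
      linarith
    · rintro ⟨z, hz⟩
      refine ⟨z + N * n i, ?_⟩
      rw [Pi.add_apply]
      push_cast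
      linarith
    · refine mfsb_ee (∑ i, n i * w i) ?_
      simp only [dotProduct, cq, Pi.add_apply, Int.cast_sum, ← Finset.sum_add_distrib]
      refine Finset.sum_congr rfl fun i _ => ?_
      have h1 : (w i : ℂ) = N * b i := by
        have h2 : (N : ℚ) * b i = w i := hw i
        exact_mod_cast h2.symm
      push_cast
      rw [h1]
      ring

/-- Finite Fourier expansion. With `a = r / N`, `b = s / N` (`r s : κ → Fin N`):
`ψ = ∑ r s, c r s • sbc a b`, `c r s = N^(-card κ) ∑ t : κ → Fin N, ψ (a + t) * ee (-(a + t) b)`.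
At `x` outside `(1 / N) ℤ^κ` both sides vanish; else exactly one `r` has `x - r / N` integral
(`r = N x mod N`), write `x = a + t₀ + N n`, and use `sum_ee_div`. -/
theorem IsSB.mem_span {ψ : (κ → ℚ) → ℂ} (h : IsSB ψ) :
    ψ ∈ Submodule.span ℂ (Set.range fun p : (κ → ℚ) × (κ → ℚ) => sbc p.1 p.2) := by
  classical
  obtain ⟨N, hN, h1, h2⟩ := h
  have hN' : (N : ℚ) ≠ 0 := Nat.cast_ne_zero.2 hN
  have e : ψ = ∑ w : κ → Fin (N * N),
      ψ (fun i => ((w i : ℕ) : ℚ) / N) • mfsbD N fun i => ((w i : ℕ) : ℚ) / N := by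
    funext x
    simp only [Finset.sum_apply, Pi.smul_apply, smul_eq_mul]
    have key : ∀ (w : κ → Fin (N * N)) (i : κ) (k : ℤ), x i = ((w i : ℕ) : ℚ) / N + N * k →
        (N : ℚ) * x i = ((((w i : ℕ) : ℤ) + (N * N : ℕ) * k : ℤ) : ℚ) := fun w i k hk => by
      rw [hk]
      push_cast
      field_simp
    by_cases hx : ∀ i, ∃ z : ℤ, (N : ℚ) * x i = z
    · choose z hz using hx
      choose r k hr using fun i => mfsb_mod (Nat.mul_ne_zero hN hN) (z i)
      have h3 : ∀ i, x i = ((r i : ℕ) : ℚ) / N + N * k i := fun i => by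
        have h4 := hz i
        rw [hr i] at h4
        push_cast at h4
        field_simp
        linarith
      rw [Finset.sum_eq_single r]
      · rw [mfsbD, if_pos fun i => ⟨k i, h3 i⟩, mul_one, ← h2 (fun i => ((r i : ℕ) : ℚ) / N) k]
        exact congrArg ψ (funext h3)
      · intro w _ hw
        rw [mfsbD, if_neg, mul_zero]
        refine fun h => hw (funext fun i => ?_)
        obtain ⟨k', hk'⟩ := h i
        have h4 := key w i k' hk'
        rw [hz i, hr i] at h4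
        exact (mfsb_uniq (Int.cast_injective h4)).symm
      · intro h
        exact absurd (Finset.mem_univ _) h
    · have h3 : ψ x = 0 := by
        by_contra h3
        exact hx (h1 x h3)
      rw [h3]
      refine (Finset.sum_eq_zero fun w _ => ?_).symm
      rw [mfsbD, if_neg, mul_zero]
      refine fun h => hx fun i => ?_
      obtain ⟨k, hk⟩ := h i
      exact ⟨_, key w i k hk⟩
  rw [e]
  exact Submodule.sum_mem _ fun w _ => Submodule.smul_mem _ _ (mfsb_mem hN _)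

/-- Let `d` be a common denominator of the entries of `U`, `U⁻¹`, `B`; the new level is
`2 d ^ 3 N ^ 2` (any multiple is fine). `B` need not be symmetric. -/
theorem IsSB.comp [DecidableEq κ] {ψ : (κ → ℚ) → ℂ} (h : IsSB ψ) {U : Matrix κ κ ℚ}
    (hU : U.det ≠ 0) (B : Matrix κ κ ℚ) :
    IsSB fun x => ψ (U *ᵥ x) * ee (cq (U *ᵥ x) ⬝ᵥ B.map (Rat.cast : ℚ → ℂ) *ᵥ cq (U *ᵥ x) / 2) := by
  obtain ⟨N, hN, h1, h2⟩ := h
  obtain ⟨d, hd, hden⟩ := mfsb_den fun p : Fin 3 × κ × κ => ![U, U⁻¹, B] p.1 p.2.1 p.2.2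
  choose u hu using fun i j => hden (0, i, j)
  choose v hv using fun i j => hden (1, i, j)
  choose b hb using fun i j => hden (2, i, j)
  replace hu : ∀ i j, (d : ℚ) * U i j = u i j := hu
  replace hv : ∀ i j, (d : ℚ) * U⁻¹ i j = v i j := hv
  replace hb : ∀ i j, (d : ℚ) * B i j = b i j := hb
  refine ⟨2 * d ^ 3 * N ^ 2, by positivity, fun x hx i => ?_, fun x n => ?_⟩
  · choose y hy using h1 _ (left_ne_zero_of_mul hx)
    have e : x = U⁻¹ *ᵥ (U *ᵥ x) := by
      rw [mulVec_mulVec, nonsing_inv_mul _ (isUnit_iff_ne_zero.2 hU), one_mulVec]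
    refine ⟨∑ j, 2 * d ^ 2 * N * (v i j * y j), ?_⟩
    rw [congrFun e i]
    generalize U *ᵥ x = w at hy
    simp only [mulVec, dotProduct, Finset.mul_sum]
    push_cast
    refine Finset.sum_congr rfl fun j _ => ?_
    rw [← hv, ← hy]
    ring
  · obtain ⟨p, hp⟩ : ∃ p : κ → ℤ, p = fun i => ∑ j, u i j * n j := ⟨_, rfl⟩
    have e : U *ᵥ (x + fun i => ((2 * d ^ 3 * N ^ 2 : ℕ) : ℚ) * n i) =
        U *ᵥ x + fun i => (N : ℚ) * ((2 * d ^ 2 * N * p i : ℤ) : ℚ) := by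
      rw [mulVec_add]
      congr 1
      funext i
      simp only [hp, mulVec, dotProduct]
      push_cast
      simp only [Finset.mul_sum]
      refine Finset.sum_congr rfl fun j _ => ?_
      rw [← hu]
      ring
    beta_reduce
    rw [e, h2]
    generalize U *ᵥ x = w
    by_cases h0 : ψ w = 0
    · rw [h0, zero_mul, zero_mul]
    choose y hy using h1 w h0
    congr 1
    refine mfsb_ee (∑ i, ∑ j, (y i * b i j * (d * N * p j) + d * N * p i * b i j * y j +
      2 * d ^ 3 * N ^ 4 * p i * b i j * p j)) ?_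
    rw [mfsb_cast, mfsb_cast]
    have e2 : (w + fun i => (N : ℚ) * ((2 * d ^ 2 * N * p i : ℤ) : ℚ)) ⬝ᵥ
        B *ᵥ (w + fun i => (N : ℚ) * ((2 * d ^ 2 * N * p i : ℤ) : ℚ)) / 2 = w ⬝ᵥ B *ᵥ w / 2 +
        ((∑ i, ∑ j, (y i * b i j * (d * N * p j) + d * N * p i * b i j * y j +
          2 * d ^ 3 * N ^ 4 * p i * b i j * p j) : ℤ) : ℚ) := by
      simp only [mulVec, dotProduct, Finset.mul_sum, Finset.sum_div, Pi.add_apply]
      push_cast
      simp only [← Finset.sum_add_distrib]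
      refine Finset.sum_congr rfl fun i _ => Finset.sum_congr rfl fun j _ => ?_
      rw [← hy, ← hy, ← hb]
      ring
    exact_mod_cast congrArg (Rat.cast : ℚ → ℂ) e2

end M4
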