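import Mathlib
import Pool.Agent.Lib.MP_33b3f9_ag.M4.MFDefs
import Pool.Agent.Lib.MP_33b3f9_ag.M4.MFSb

/-!
Theta series of periodic functions; affine rational substitutions.
-/

set_option autoImplicit false

namespace M4

open Complex Matrix

variable {ι : Type} [Fintype ι]

/-- `Function.Injective.hasSum_iff` along `n ↦ n + a`; `summable_norm_term`, `thc_eq`. -/
theorem hasSum_sbc {τ : Matrix ι ι ℂ} (hτ : InH τ) (a b : ι → ℚ) :
    HasSum (fun x : ι → ℚ => sbc a b x * ee (cq x ⬝ᵥ τ *ᵥ cq x / 2))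
      (thc τ (rQ (Sum.elim a b)) 0) := by
  let g : (ι → ℤ) → (ι → ℚ) := fun n i => (n i : ℚ) + a i
  have hg : Function.Injective g := by
    intro n m h
    funext i
    have h1 : (n i : ℚ) + a i = m i + a i := congrFun h i
    exact_mod_cast add_right_cancel h1
  rw [← hg.hasSum_iff]
  · rw [thc_eq]
    have hs : Summable (term τ (rQ (Sum.elim a b)) 0) :=
      (summable_norm_term hτ (rQ (Sum.elim a b)) 0).of_norm
    convert hs.hasSum using 1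
    funext n
    have h1 : cz n + fa (rQ (Sum.elim a b)) = cq (g n) := by
      funext i
      simp [cz, fa, rQ, cq, g]
    have h2 : (0 : ι → ℂ) + fb (rQ (Sum.elim a b)) = cq b := by
      funext i
      simp [fb, rQ, cq]
    rw [Function.comp_apply, term, h1, h2, ee_add, sbc, if_pos fun i => ⟨n i, rfl⟩, mul_comm]
  · intro x hx
    rw [sbc, if_neg, zero_mul]
    intro h
    choose n hn using h
    exact hx ⟨n, funext fun i => (hn i).symm⟩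

/-- `IsSB.mem_span`, `Submodule.span_induction`; `thc τ x 0 = ee (fa x ⬝ᵥ fb x / 2) * Th τ x`. -/
theorem exists_MF_of_SB {ψ : (ι → ℚ) → ℂ} (h : IsSB ψ) : ∃ f ∈ MF ι 1, ∀ τ : HH ι,
    HasSum (fun x : ι → ℚ => ψ x * ee (cq x ⬝ᵥ τ.1 *ᵥ cq x / 2)) (f τ) := by
  have h1 := h.mem_span
  clear h
  induction h1 using Submodule.span_induction with
  | mem ψ hψ =>
    obtain ⟨⟨a, b⟩, rfl⟩ := hψ
    refine ⟨ee (fa (rQ (Sum.elim a b)) ⬝ᵥ fb (rQ (Sum.elim a b)) / 2) • tq (Sum.elim a b),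
      Submodule.smul_mem _ _ (tq_mem _), fun τ => ?_⟩
    convert hasSum_sbc τ.2 a b using 1
    rw [Pi.smul_apply, smul_eq_mul, tq, Th, ← mul_assoc, ← ee_add, neg_div, add_neg_cancel,
      ee_zero, one_mul]
  | zero => exact ⟨0, zero_mem _, fun τ => by simp⟩
  | add ψ φ _ _ hψ hφ =>
    obtain ⟨f, hf, h1⟩ := hψ
    obtain ⟨g, hg, h2⟩ := hφ
    exact ⟨f + g, add_mem hf hg, fun τ => by simpa [add_mul] using (h1 τ).add (h2 τ)⟩
  | smul c ψ _ hψ =>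
    obtain ⟨f, hf, h1⟩ := hψ
    exact ⟨c • f, Submodule.smul_mem _ c hf, fun τ => by
      simpa [mul_assoc] using (h1 τ).mul_left c⟩

theorem mfth_cq_mulVec (U : Matrix ι ι ℚ) (y : ι → ℚ) :
    cq (U *ᵥ y) = U.map (Rat.cast : ℚ → ℂ) *ᵥ cq y := by
  funext i
  simp [cq, mulVec, dotProduct]

/-- `hasSum_sbc` at `σ`, substitute `x = U⁻¹ y` (`Equiv.hasSum_iff`), `IsSB.comp` with `U⁻¹`,
`exists_MF_of_SB`, uniqueness of sums. -/
theorem tq_affine [DecidableEq ι] {U : Matrix ι ι ℚ} (hU : U.det ≠ 0) (B : Matrix ι ι ℚ)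
    (x : ι ⊕ ι → ℚ) : ∃ f ∈ MF ι 1, ∀ τ σ : HH ι,
      σ.1 = (U.map (Rat.cast : ℚ → ℂ))ᵀ * τ.1 * U.map (Rat.cast : ℚ → ℂ) +
        B.map (Rat.cast : ℚ → ℂ) → tq x σ = f τ := by
  have hu : IsUnit U.det := IsUnit.mk0 _ hU
  have hU' : U⁻¹.det ≠ 0 := (isUnit_nonsing_inv_det U hu).ne_zero
  obtain ⟨f, hf, h1⟩ := exists_MF_of_SB ((isSB_sbc (x ∘ Sum.inl) (x ∘ Sum.inr)).comp hU' B)
  refine ⟨ee (-(fa (rQ x) ⬝ᵥ fb (rQ x)) / 2) • f, Submodule.smul_mem _ _ hf, fun τ σ hσ => ?_⟩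
  have hl : ∀ y : ι → ℚ, U⁻¹ *ᵥ U *ᵥ y = y := fun y => by
    rw [mulVec_mulVec, nonsing_inv_mul U hu, one_mulVec]
  let e : (ι → ℚ) ≃ (ι → ℚ) :=
    { toFun := fun y => U *ᵥ y
      invFun := fun y => U⁻¹ *ᵥ y
      left_inv := hl
      right_inv := fun y => by
        change U *ᵥ U⁻¹ *ᵥ y = y
        rw [mulVec_mulVec, mul_nonsing_inv U hu, one_mulVec] }
  have h2 := e.hasSum_iff.2 (h1 τ)
  have h3 := hasSum_sbc σ.2 (x ∘ Sum.inl) (x ∘ Sum.inr)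
  rw [Sum.elim_comp_inl_inr] at h3
  rw [Pi.smul_apply, smul_eq_mul, tq, Th]
  congr 1
  refine h3.unique ?_
  convert h2 using 1
  funext y
  change _ = sbc _ _ (U⁻¹ *ᵥ U *ᵥ y) * ee (cq (U⁻¹ *ᵥ U *ᵥ y) ⬝ᵥ B.map (Rat.cast : ℚ → ℂ) *ᵥ
    cq (U⁻¹ *ᵥ U *ᵥ y) / 2) * ee (cq (U *ᵥ y) ⬝ᵥ τ.1 *ᵥ cq (U *ᵥ y) / 2)
  rw [hl, mul_assoc, ← ee_add, hσ, add_mulVec, dotProduct_add, add_div, add_comm,
    mfth_cq_mulVec, Matrix.mul_assoc, ← mulVec_mulVec, dotProduct_mulVec (cq y) _ᵀ,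
    vecMul_transpose, ← mulVec_mulVec]

end M4
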