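import Mathlib
import Pool.Agent.Lib.MP_33b3f9_ag.M4.MFTh
import Pool.Agent.Lib.MP_33b3f9_ag.M4.MFAct

/-!
Rational similitudes that act by affine maps.
-/

set_option autoImplicit false

namespace M4

open Complex Matrix

variable {ι : Type} [Fintype ι] [DecidableEq ι]

/-- `m = a b / b ^ 2`, `Nat.sum_four_squares`, the matrix of quaternion multiplication. -/
theorem exists_four {m : ℚ} (hm : 0 < m) : ∃ F : Matrix (Fin 4) (Fin 4) ℚ, Fᵀ * F = m • 1 := by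
  obtain ⟨a, b, c, d, h⟩ := Nat.sum_four_squares (m.num.toNat * m.den)
  have hd : (m.den : ℚ) ≠ 0 := Nat.cast_ne_zero.2 m.den_nz
  have h1 : ((m.num.toNat : ℕ) : ℚ) = m * m.den := by
    rw [Rat.mul_den_eq_num, ← Int.cast_natCast, Int.toNat_of_nonneg (Rat.num_pos.2 hm).le]
  have h2 : (a : ℚ) ^ 2 + (b : ℚ) ^ 2 + (c : ℚ) ^ 2 + (d : ℚ) ^ 2 = m * m.den * m.den := by
    rw [← h1]
    exact_mod_cast h
  have h3 : (a / m.den : ℚ) ^ 2 + (b / m.den : ℚ) ^ 2 + (c / m.den : ℚ) ^ 2 +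
      (d / m.den : ℚ) ^ 2 = m := by
    field_simp
    linarith
  generalize (a / m.den : ℚ) = a, (b / m.den : ℚ) = b, (c / m.den : ℚ) = c,
    (d / m.den : ℚ) = d at h3
  refine ⟨!![a, -b, -c, -d; b, a, -d, c; c, d, a, -b; d, -c, b, a], ?_⟩
  rw [← h3]
  ext i j
  fin_cases i <;> fin_cases j <;> simp [Matrix.mul_apply, Fin.sum_univ_four] <;> ring

/-- A product of four theta constants is one theta constant of `dg (Fin 4) σ` (`Th_dg`), and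
`dg σ = Vᵀ * dg τ * V + dg B` with `V = U ⊗ₖ F` (`dg ρ τ = τ ⊗ₖ 1`); `tq_affine`, `dg_mem`. -/
theorem four_affine {m : ℚ} (hm : 0 < m) {U : Matrix ι ι ℚ} (hU : U.det ≠ 0) (B : Matrix ι ι ℚ)
    (x : Fin 4 → ι ⊕ ι → ℚ) : ∃ f ∈ MF ι 4, ∀ τ σ : HH ι,
      σ.1 = (m : ℂ) • ((U.map (Rat.cast : ℚ → ℂ))ᵀ * τ.1 * U.map (Rat.cast : ℚ → ℂ)) +
        B.map (Rat.cast : ℚ → ℂ) → ∏ j, tq (x j) σ = f τ := by
  obtain ⟨F, hF⟩ := exists_four hm
  have hF0 : F.det ≠ 0 := fun h => by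
    have h1 := congrArg Matrix.det hF
    rw [det_mul, h, mul_zero, det_smul, det_one, mul_one] at h1
    exact pow_ne_zero _ hm.ne' h1.symm
  have hV : (kroneckerMap (· * ·) U F).det ≠ 0 := by
    rw [det_kronecker]
    exact mul_ne_zero (pow_ne_zero _ hU) (pow_ne_zero _ hF0)
  obtain ⟨f, hf, h1⟩ := tq_affine hV (kroneckerMap (· * ·) B (1 : Matrix (Fin 4) (Fin 4) ℚ))
    (Sum.elim (fun p => x p.2 (Sum.inl p.1)) fun p => x p.2 (Sum.inr p.1))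
  refine ⟨fun τ => f (dH (Fin 4) τ), by simpa using dg_mem hf, fun τ σ h => ?_⟩
  have h2 : ∀ (P : Matrix ι ι ℚ) (Q : Matrix (Fin 4) (Fin 4) ℚ),
      (kroneckerMap (· * ·) P Q).map (Rat.cast : ℚ → ℂ) =
        kroneckerMap (· * ·) (P.map (Rat.cast : ℚ → ℂ)) (Q.map (Rat.cast : ℚ → ℂ)) := fun P Q => by
    ext i j
    simp
  have h3 : (F.map (Rat.cast : ℚ → ℂ))ᵀ * 1 * F.map (Rat.cast : ℚ → ℂ) = (m : ℂ) • 1 := by
    have h4 := congrArg (fun M => M.map (Rat.castHom ℂ)) hF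
    simp only [Matrix.map_mul] at h4
    rw [Matrix.mul_one]
    refine h4.trans ?_
    ext i j
    by_cases e : i = j <;> simp [e]
  have h5 := h1 (dH (Fin 4) τ) (dH (Fin 4) σ) (by
    change blockDiagonal (fun _ : Fin 4 => σ.1) = _ * blockDiagonal (fun _ : Fin 4 => τ.1) * _ + _
    rw [← kronecker_one, ← kronecker_one, h2, h2, ← kroneckerMap_transpose, ← mul_kronecker_mul,
      ← mul_kronecker_mul, h3, h, add_kronecker, smul_kronecker, kronecker_smul,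
      Matrix.map_one _ Rat.cast_zero Rat.cast_one])
  beta_reduce
  rw [← h5]
  change _ = Th (dg (Fin 4) σ.1) _
  rw [Th_dg σ.2]
  refine Finset.prod_congr rfl fun j _ => congrArg (Th σ.1) (funext fun i => ?_)
  rcases i with i | i <;> rfl

theorem mfpar_rat {g : Matrix (ι ⊕ ι) (ι ⊕ ι) ℝ} {m : ℝ} (hg : Sim g m) (hm : 0 < m)
    (hq : IsQ g) : ∃ m' : ℚ, 0 < m' ∧ ∀ X : Matrix ι ι ℂ, (m : ℂ) • X = (m' : ℂ) • X := by
  rcases isEmpty_or_nonempty ι with h | ⟨⟨i⟩⟩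
  · exact ⟨1, one_pos, fun X => Subsingleton.elim _ _⟩
  choose q hq using hq
  have h1 := hg (Pi.single (Sum.inl i) 1) (Pi.single (Sum.inr i) 1)
  have h2 : E (Pi.single (Sum.inl i) 1 : ι ⊕ ι → ℝ) (Pi.single (Sum.inr i) 1) = 1 := by
    simp [E, Pi.single_apply]
  have h3 : m = ((∑ k, (q (Sum.inl k) (Sum.inl i) * q (Sum.inr k) (Sum.inr i) -
      q (Sum.inr k) (Sum.inl i) * q (Sum.inl k) (Sum.inr i)) : ℚ) : ℝ) := by
    rw [h2, mul_one] at h1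
    rw [← h1]
    simp [E, hq]
  generalize (∑ k, (q (Sum.inl k) (Sum.inl i) * q (Sum.inr k) (Sum.inr i) -
      q (Sum.inr k) (Sum.inl i) * q (Sum.inl k) (Sum.inr i)) : ℚ) = m' at h3
  subst h3
  exact ⟨m', by exact_mod_cast hm, fun X => by rw [Complex.ofReal_ratCast]⟩

theorem mfpar_act {g : Matrix (ι ⊕ ι) (ι ⊕ ι) ℝ} {m : ℝ} (hg : Sim g m) (hm : 0 < m)
    (hq : IsQ g) (h0 : g.toBlocks₁₂ = 0) : ∃ U B : Matrix ι ι ℚ, U.det ≠ 0 ∧
      ∀ τ : Matrix ι ι ℂ, act g τ = (m : ℂ) • ((U.map (Rat.cast : ℚ → ℂ))ᵀ * τ *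
        U.map (Rat.cast : ℚ → ℂ)) + B.map (Rat.cast : ℚ → ℂ) := by
  choose q hq using hq
  let A : Matrix ι ι ℚ := Matrix.of fun i j => q (Sum.inl i) (Sum.inl j)
  let C : Matrix ι ι ℚ := Matrix.of fun i j => q (Sum.inr i) (Sum.inl j)
  have hA : A.det ≠ 0 := fun h => by
    have h1 := hg.det_ne_zero hm.ne'
    have h2 : g.toBlocks₁₁ = (Rat.castHom ℝ).mapMatrix A := Matrix.ext fun i j => hq _ _
    rw [← fromBlocks_toBlocks g, h0, det_fromBlocks_zero₁₂, h2, ← RingHom.map_det, h, map_zero,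
      zero_mul] at h1
    exact h1 rfl
  have hden : ∀ τ : Matrix ι ι ℂ, den g τ = A.map (Rat.castHom ℂ) := fun τ => by
    rw [den, h0, Matrix.map_zero _ ofReal_zero, Matrix.zero_mul, sub_zero]
    ext i j
    simp [A, toBlocks₁₁, hq]
  have hnum : actNum g 0 = -C.map (Rat.castHom ℂ) := by
    rw [actNum, Matrix.mul_zero, zero_sub]
    ext i j
    simp [C, toBlocks₂₁, hq]
  have h1 : A.map (Rat.castHom ℂ) * A⁻¹.map (Rat.castHom ℂ) = 1 := by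
    rw [← Matrix.map_mul, mul_nonsing_inv _ hA.isUnit, Matrix.map_one _ (map_zero _) (map_one _)]
  refine ⟨A⁻¹, -((A⁻¹)ᵀ * Cᵀ), det_ne_zero_of_left_inverse (mul_nonsing_inv _ hA.isUnit),
    fun τ => ?_⟩
  have h2 := hg.act_key 0 τ
  rw [hden, hden, hnum, transpose_zero, sub_zero] at h2
  have h3 : (-((A⁻¹)ᵀ * Cᵀ)).map (Rat.cast : ℚ → ℂ) =
      -((A⁻¹.map (Rat.castHom ℂ))ᵀ * (C.map (Rat.castHom ℂ))ᵀ) := by
    ext i j
    simp [Matrix.mul_apply]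
  rw [act_eq_num, hden, inv_eq_right_inv h1, h3]
  change _ = (m : ℂ) • ((A⁻¹.map (Rat.castHom ℂ))ᵀ * τ * A⁻¹.map (Rat.castHom ℂ)) + _
  rw [← Matrix.smul_mul, ← Matrix.mul_smul, ← h2]
  generalize A⁻¹.map (Rat.castHom ℂ) = U, A.map (Rat.castHom ℂ) = A', C.map (Rat.castHom ℂ) = C',
    actNum g τ = N at h1 ⊢
  have h4 : Uᵀ * A'ᵀ = 1 := by rw [← transpose_mul, h1, transpose_one]
  rw [transpose_neg, Matrix.neg_mul, sub_neg_eq_add, Matrix.mul_add, Matrix.add_mul,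
    ← Matrix.mul_assoc Uᵀ A'ᵀ, h4, Matrix.one_mul, Matrix.mul_assoc Uᵀ, Matrix.mul_assoc C'ᵀ, h1,
    Matrix.mul_one, add_neg_cancel_right]

/-- With blocks `A, 0, C, D`: `sim_iff` gives `Aᵀ D = m`, so `act g τ = m A⁻ᵀ τ A⁻¹ - C A⁻¹`; `m` is
rational (an entry of `Aᵀ D`; if `ι` is empty `aH g τ = τ` and `wt = 1`); `wt g τ` is a constant.
`MF_le`, split `Fin 8` into two halves, `four_affine`. -/
theorem slash_mem_par {g : Matrix (ι ⊕ ι) (ι ⊕ ι) ℝ} {m : ℝ} (hg : Sim g m) (hm : 0 < m)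
    (hq : IsQ g) (h0 : g.toBlocks₁₂ = 0) {k : ℕ} {f : HH ι → ℂ} (hf : f ∈ MF ι (8 * k)) :
    slash k g f ∈ MF ι (8 * k) := by
  refine slash_mem_of_one (fun f hf => ?_) hf
  refine MF_le (W := (MF ι 8).comap (slash 1 g)) (fun x => ?_) hf
  obtain ⟨m', hm', h1⟩ := mfpar_rat hg hm hq
  obtain ⟨U, B, hU, h2⟩ := mfpar_act hg hm hq h0
  obtain ⟨f₁, hf₁, h3⟩ := four_affine hm' hU B fun j => x (Fin.castAdd 4 j)
  obtain ⟨f₂, hf₂, h4⟩ := four_affine hm' hU B fun j => x (Fin.natAdd 4 j)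
  have h5 : slash 1 g (∏ i, tq (x i)) = (wt g 0)⁻¹ • (f₁ * f₂) := by
    funext τ
    have h6 := (aH_val hg hm τ).trans ((h2 τ.1).trans (by rw [h1]))
    have h7 : wt g τ.1 = wt g 0 := by
      simp only [wt, den, h0, Matrix.map_zero _ ofReal_zero, Matrix.zero_mul]
    rw [slash_apply, Finset.prod_apply, pow_one, h7, Pi.smul_apply, Pi.mul_apply, ← h3 τ _ h6,
      ← h4 τ _ h6, smul_eq_mul, div_eq_inv_mul]
    exact congrArg _ (Fin.prod_univ_add (a := 4) (b := 4) fun i => tq (x i) (aH g τ))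
  rw [Submodule.mem_comap, h5]
  exact Submodule.smul_mem _ _ (MF.mul hf₁ hf₂)

end M4
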