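import Mathlib
import Pool.Agent.Lib.MP_33b3f9_ag.M4.MFPar
import Pool.Agent.Lib.MP_33b3f9_ag.M4.MFLev

/-!
The ring of theta constants is stable under rational similitudes.
-/

set_option autoImplicit false

namespace M4

open Complex Matrix

variable {ι : Type} [Fintype ι] [DecidableEq ι] {g : Matrix (ι ⊕ ι) (ι ⊕ ι) ℝ} {m : ℝ}

/-- With blocks `A, B, C, D`: the polynomial `det (t A + B)` does not vanish at `t = I`
(`den_det_ne_zero` at `τ = I • 1`), so not at some integer `t`. -/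
theorem exists_shift (hg : Sim g m) (hm : 0 < m) :
    ∃ t : ℤ, ((t : ℝ) • g.toBlocks₁₁ + g.toBlocks₁₂).det ≠ 0 := by
  by_contra hc
  push Not at hc
  let φ : ℝ →+* Polynomial ℂ := Polynomial.C.comp ofRealHom
  let P : Polynomial ℂ :=
    ((Polynomial.X : Polynomial ℂ) • g.toBlocks₁₁.map φ + g.toBlocks₁₂.map φ).det
  have hP : ∀ z : ℂ, P.eval z = (z • g.toBlocks₁₁.map ofReal + g.toBlocks₁₂.map ofReal).det :=
    fun z => by
      refine ((Polynomial.evalRingHom z).map_det _).trans (congrArg det ?_)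
      ext i j
      simpa [φ] using mul_comm _ z
  have h0 : P = 0 := by
    refine P.eq_zero_of_infinite_isRoot ((Set.infinite_range_of_injective
      (Int.cast_injective (α := ℂ))).mono ?_)
    rintro _ ⟨t, rfl⟩
    have h1 := ofRealHom.map_det ((t : ℝ) • g.toBlocks₁₁ + g.toBlocks₁₂)
    rw [hc t, map_zero] at h1
    refine (hP t).trans ((congrArg det ?_).trans h1.symm)
    ext i j
    simp
  have hI : InH (I • (1 : Matrix ι ι ℂ)) := by
    refine ⟨isSymm_one.smul _, ?_⟩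
    have e : (I • (1 : Matrix ι ι ℂ)).map im = 1 := by
      ext i j
      by_cases h : i = j <;> simp [one_apply, h]
    rw [e]
    exact PosDef.one
  refine den_det_ne_zero hg hm hI ?_
  have e : den g (I • 1) = (-I) • (I • g.toBlocks₁₁.map ofReal + g.toBlocks₁₂.map ofReal) := by
    rw [den, smul_add, smul_smul, neg_mul, I_mul_I, neg_neg, one_smul, Matrix.mul_smul,
      Matrix.mul_one, neg_smul, sub_eq_add_neg]
  rw [e, det_smul, ← hP, h0, Polynomial.eval_zero, mul_zero]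

theorem mfgen_mul {κ : Type} [Fintype κ] {a b : Matrix κ κ ℝ} (ha : IsQ a) (hb : IsQ b) :
    IsQ (a * b) := by
  choose x hx using ha
  choose y hy using hb
  exact fun i j => ⟨∑ l, x i l * y l j, by simp [mul_apply, hx, hy]⟩

theorem mfgen_inv {κ : Type} [Fintype κ] [DecidableEq κ] {a : Matrix κ κ ℝ} (ha : IsQ a) :
    IsQ a⁻¹ := by
  choose x hx using ha
  obtain rfl : a = (Rat.castHom ℝ).mapMatrix (Matrix.of x) := by
    ext i j
    exact hx i j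
  intro i j
  refine ⟨(Matrix.of x).det⁻¹ * (Matrix.of x).adjugate i j, ?_⟩
  rw [Matrix.inv_def, ← RingHom.map_adjugate, ← RingHom.map_det, Ring.inverse_eq_inv']
  simp

omit [Fintype ι] [DecidableEq ι] in
theorem mfgen_mz (γ : Matrix (ι ⊕ ι) (ι ⊕ ι) ℤ) : IsQ (mz γ) :=
  fun i j => ⟨γ i j, by simp [mz]⟩

theorem mfgen_low {X : Matrix ι ι ℝ} (hX : Xᵀ = X) (hq : IsQ X) :
    Sim (fromBlocks 1 0 X 1) 1 ∧ IsQ (fromBlocks 1 0 X 1 : Matrix (ι ⊕ ι) (ι ⊕ ι) ℝ) := by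
  constructor
  · rw [sim_iff, J, fromBlocks_transpose, fromBlocks_multiply, fromBlocks_multiply, hX]
    simp
  · rintro (i | i) (j | j)
    · exact ⟨(1 : Matrix ι ι ℚ) i j, by simp [one_apply, apply_ite]⟩
    · exact ⟨0, by simp⟩
    · exact hq i j
    · exact ⟨(1 : Matrix ι ι ℚ) i j, by simp [one_apply, apply_ite]⟩

theorem mfgen_decomp (hg : Sim g m) (hm : 0 < m) (hq : IsQ g) (hB : g.toBlocks₁₂.det ≠ 0) :
    ∃ p p' : Matrix (ι ⊕ ι) (ι ⊕ ι) ℝ, Sim p m ∧ IsQ p ∧ p.toBlocks₁₂ = 0 ∧ Sim p' 1 ∧ IsQ p' ∧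
      p'.toBlocks₁₂ = 0 ∧ p * mz (J ι ℤ) * p' = g := by
  have hA : IsQ g.toBlocks₁₁ := fun i j => hq _ _
  have hB' : IsQ g.toBlocks₁₂ := fun i j => hq _ _
  have h1 := sim_iff.1 (hg.transpose hm.ne')
  rw [← fromBlocks_toBlocks g] at h1 hg hq ⊢
  generalize g.toBlocks₁₁ = A at *
  generalize g.toBlocks₁₂ = B at *
  generalize g.toBlocks₂₁ = C at *
  generalize g.toBlocks₂₂ = D at *
  have hu : IsUnit B.det := hB.isUnit
  have h2 : B * Aᵀ = A * Bᵀ := by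
    rw [transpose_transpose, J, fromBlocks_transpose, fromBlocks_multiply, fromBlocks_multiply,
      fromBlocks_smul] at h1
    simpa [add_neg_eq_zero] using (fromBlocks_inj.1 h1).1
  have h3 : (B⁻¹ * A)ᵀ = B⁻¹ * A := by
    rw [transpose_mul, transpose_nonsing_inv, ← nonsing_inv_mul_cancel_left B Aᵀ hu, h2,
      ← Matrix.mul_assoc, mul_nonsing_inv_cancel_right _ _ (by rwa [det_transpose])]
  have h4 := mfgen_mul (mfgen_inv hB') hA
  obtain ⟨s1, q1⟩ := mfgen_low h3 h4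
  obtain ⟨s2, q2⟩ := mfgen_low (X := -(B⁻¹ * A)) (by rw [transpose_neg, h3]) fun i j => by
    obtain ⟨x, hx⟩ := h4 i j
    exact ⟨-x, by rw [neg_apply, hx, Rat.cast_neg]⟩
  have s3 := (hg.mul s2).mul
    (sim_mz_iff.2 (SymplecticGroup.neg_mem (SymplecticGroup.J_mem ι ℤ)))
  rw [mul_one, mul_one] at s3
  have e : mz (-J ι ℤ) = fromBlocks 0 1 (-1) 0 := by
    ext (i | i) (j | j) <;> simp [mz, J, one_apply]
  refine ⟨_, _, s3, mfgen_mul (mfgen_mul hq q2) (mfgen_mz _), ?_, s1, q1, rfl, ?_⟩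
  · rw [e, fromBlocks_multiply, fromBlocks_multiply, toBlocks_fromBlocks₁₂]
    simp [mul_nonsing_inv_cancel_left _ _ hu]
  · rw [mul_assoc _ (mz _) (mz _), ← mz_mul, neg_mul, J_squared, neg_neg, mul_assoc, mul_assoc]
    simp [mz, fromBlocks_multiply]

/-- Multiply by the integral symplectic `u = fromBlocks 1 (t • 1) 0 1` so that `B` is invertible.
Then `X = B⁻¹ A` is symmetric (`Sim.transpose`, `sim_iff`), `p' = fromBlocks 1 0 X 1` is
symplectic, `g p'⁻¹` has the block `A = 0`, and `p = g p'⁻¹ J⁻¹` has the block `B = 0`. -/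
theorem exists_decomp (hg : Sim g m) (hm : 0 < m) (hq : IsQ g) :
    ∃ (p p' : Matrix (ι ⊕ ι) (ι ⊕ ι) ℝ) (γ δ : Matrix (ι ⊕ ι) (ι ⊕ ι) ℤ),
      Sim p m ∧ IsQ p ∧ p.toBlocks₁₂ = 0 ∧ Sim p' 1 ∧ IsQ p' ∧ p'.toBlocks₁₂ = 0 ∧
      γ ∈ symplecticGroup ι ℤ ∧ δ ∈ symplecticGroup ι ℤ ∧ g = p * mz γ * p' * mz δ := by
  obtain ⟨t, ht⟩ := exists_shift hg hm
  have hu := upper_mem (ι := ι) (isSymm_one.smul t)
  have hu' := upper_mem (ι := ι) (isSymm_one.smul (-t))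
  have e : mz (fromBlocks 1 (t • 1) 0 1 : Matrix (ι ⊕ ι) (ι ⊕ ι) ℤ) =
      fromBlocks 1 ((t : ℝ) • 1) 0 1 := by
    ext (i | i) (j | j) <;> simp [mz, one_apply, Matrix.intCast_apply]
  obtain ⟨p, p', h1, h2, h3, h4, h5, h6, h7⟩ := mfgen_decomp (m := m)
    (mul_one m ▸ hg.mul (sim_mz_iff.2 hu)) hm (mfgen_mul hq (mfgen_mz _)) (by
      rw [e, ← fromBlocks_toBlocks g, fromBlocks_multiply, toBlocks_fromBlocks₁₂, Matrix.mul_smul,
        Matrix.mul_one, Matrix.mul_one]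
      exact ht)
  refine ⟨p, p', J ι ℤ, _, h1, h2, h3, h4, h5, h6, SymplecticGroup.J_mem ι ℤ, hu', ?_⟩
  rw [h7, mul_assoc, ← mz_mul, fromBlocks_multiply]
  simp [mz]

theorem slash_mem (hg : Sim g m) (hm : 0 < m) (hq : IsQ g) {k : ℕ} {f : HH ι → ℂ}
    (hf : f ∈ MF ι (8 * k)) : slash k g f ∈ MF ι (8 * k) := by
  obtain ⟨p, p', γ, δ, h1, h2, h3, h4, h5, h6, hγ, hδ, rfl⟩ := exists_decomp hg hm hq
  have s1 := sim_mz_iff.2 hγ
  have s2 := h1.mul s1
  have s3 := s2.mul h4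
  rw [mul_one] at s2 s3
  rw [mul_one] at s3
  rw [slash_mul s3 hm (sim_mz_iff.2 hδ) one_pos, slash_mul s2 hm h4 one_pos,
    slash_mul h1 hm s1 one_pos]
  exact slash_mem_sp hδ (slash_mem_par h4 one_pos h5 h6 (slash_mem_sp hγ
    (slash_mem_par h1 hm h2 h3 hf)))

theorem Gd.act (hg : Sim g m) (hm : 0 < m) (hq : IsQ g) {k : ℕ} {f : Matrix ι ι ℂ → ℂ}
    (hf : Gd k f) : Gd k fun τ => f (act g τ) / wt g τ ^ k := by
  have h := slash_mem hg hm hq hf
  have e : slash k g (fun τ : HH ι => f τ.1) = fun τ : HH ι => f (M4.act g τ.1) / wt g τ.1 ^ k :=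
    funext fun τ => by rw [slash_apply, aH_val hg hm]
  rwa [e] at h

/-- `slash_mem`, `exists_conj_level`, `slash_mul`, `mz_mul`. -/
theorem slash_mem_MI_sim {h : Matrix (ι ⊕ ι) (ι ⊕ ι) ℤ} {n q k : ℕ} (hn : n ≠ 0)
    (hh : Sim (mz h) n) {f : HH ι → ℂ} (hf : f ∈ MI {γ | Lv q γ} k) :
    slash k (mz h) f ∈ MI {γ | Lv (q * n) γ} k := by
  have h0 : (0 : ℝ) < n := Nat.cast_pos.2 (Nat.pos_of_ne_zero hn)
  refine ⟨slash_mem hh h0 (mfgen_mz h) hf.1, fun γ h1 h2 => ?_⟩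
  obtain ⟨δ, h3, h4, e⟩ := exists_conj_level hn hh h2 h1
  rw [← slash_mul hh h0 (sim_mz_iff.2 h2) one_pos, ← mz_mul, e, mz_mul,
    slash_mul (sim_mz_iff.2 h3) one_pos hh h0, hf.2 δ h4 h3]

end M4
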