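import Mathlib
import Pool.Agent.Lib.MP_33b3f9_ag.M4.MFProd
import Pool.Agent.Lib.MP_33b3f9_ag.M4.GrB

/-!
Theta constants are integral over the theta constants of level two.
-/

set_option autoImplicit false

namespace M4

open Complex Matrix Polynomial

variable {ι : Type} [Fintype ι] [DecidableEq ι]

omit [DecidableEq ι] in
/-- `U_rz_Th`: the factor `chi n / ee (E (rz n) x / 2)` does not depend on `τ`. -/
theorem tq_add_int (x : ι ⊕ ι → ℚ) (n : ι ⊕ ι → ℤ) :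
    ∃ c : ℂ, tq (x + fun i => (n i : ℚ)) = c • tq x := by
  refine ⟨chi n / ee ((1 : ℝ) * E (rz n) (rQ x) / 2), funext fun τ => ?_⟩
  have h := congrFun (U_rz_Th τ.1 n) (rQ x)
  have h1 : rQ (x + fun i => (n i : ℚ)) = rQ x + rz n := funext fun i => by simp [rQ, rz]
  rw [U_apply, Pi.smul_apply, smul_eq_mul] at h
  rw [Pi.smul_apply, smul_eq_mul, tq, tq, h1, div_mul_eq_mul_div, eq_div_iff (ee_ne_zero _),
    mul_comm, h]

/-- `riemann_aux` with `u = w = x`, `v = s = 0`. -/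
theorem tq_pow_four (x : ι ⊕ ι → ℚ) : ∃ c : (ι ⊕ ι → Fin 2) → ℂ,
    tq x ^ 4 = ∑ e, c e • (tq (fun i => 2 * x i + ((e i : ℕ) : ℚ) / 2) * (t2 e * t2 e * t2 e)) := by
  refine ⟨fun e => chi (bz e) * ee ((1 : ℝ) * E (hf (bz e)) (rQ x + rQ x) / 2) /
    2 ^ Fintype.card ι, funext fun τ => ?_⟩
  have h := riemann_aux τ.2 (rQ x) 0 (rQ x) 0
  have h1 : ∀ e : ι ⊕ ι → Fin 2, rQ (fun i => 2 * x i + ((e i : ℕ) : ℚ) / 2) =
      rQ x + rQ x + hf (bz e) := fun e => funext fun i => by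
    simp only [rQ, hf, bz, rz, Pi.add_apply, Pi.smul_apply, smul_eq_mul]
    push_cast
    ring
  have h2 : (2 : ℂ) ^ Fintype.card ι ≠ 0 := pow_ne_zero _ two_ne_zero
  simp only [add_zero, sub_zero, sub_self, U_at_zero] at h
  refine mul_left_cancel₀ h2 ?_
  simp only [Pi.pow_apply, Finset.sum_apply, Pi.smul_apply, Pi.mul_apply, smul_eq_mul, tq, t2, h1,
    Finset.mul_sum]
  refine Eq.trans (by ring) (h.trans (Finset.sum_congr rfl fun e _ => ?_))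
  rw [U_apply]
  field_simp

omit [DecidableEq ι] in
theorem mfint_red {r : ℕ} (hr : 0 < r) (y : ι ⊕ ι → ℚ) (hy : ∀ i, ∃ a : ℤ, y i = a / r) :
    ∃ (c : ℂ) (b : ι ⊕ ι → Fin r), tq y = c • tq fun i => ((b i : ℕ) : ℚ) / r := by
  choose a ha using hy
  have hz : (0 : ℤ) < r := Int.natCast_pos.2 hr
  have h0 : ∀ i, ((a i % r).toNat : ℤ) = a i % r := fun i =>
    Int.toNat_of_nonneg (Int.emod_nonneg _ hz.ne')
  let b : ι ⊕ ι → Fin r := fun i => ⟨(a i % r).toNat, by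
    have h1 := Int.emod_lt_of_pos (a i) hz
    have h2 := h0 i
    omega⟩
  obtain ⟨c, hc⟩ := tq_add_int (fun i => ((b i : ℕ) : ℚ) / r) fun i => a i / r
  refine ⟨c, b, Eq.trans (congrArg tq (funext fun i => ?_)) hc⟩
  have h1 : ((a i % r).toNat : ℤ) + r * (a i / r) = a i := by rw [h0, Int.emod_add_mul_ediv]
  have h2 : (((a i % r).toNat : ℕ) : ℚ) + r * ((a i / r : ℤ) : ℚ) = a i := by exact_mod_cast h1
  have h3 : (r : ℚ) ≠ 0 := Nat.cast_ne_zero.2 hr.ne'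
  rw [ha i, Pi.add_apply, div_add' _ _ _ h3, mul_comm, h2]

/-- Let `r` be an even common denominator of the `x i`; `Gr.intY_of_pow_four` for the family
`a ↦ tq (a / r)`, `a : ι ⊕ ι → Fin r`; `tq_add_int`. -/
theorem tq_int (x : ι ⊕ ι → ℚ) : Gr.IntY (t2 (ι := ι)) (monomial 1 (tq x)) := by
  obtain ⟨s, hs, hx⟩ : ∃ s : ℕ, 0 < s ∧ ∀ i, ∃ a : ℤ, x i = a / (2 * s : ℕ) := by
    refine ⟨∏ i, (x i).den, Finset.prod_pos fun i _ => (x i).den_pos, fun i => ?_⟩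
    obtain ⟨d, hd⟩ := Finset.dvd_prod_of_mem (fun i => (x i).den) (Finset.mem_univ i)
    have h0 : d ≠ 0 := fun h => (Finset.prod_pos fun i _ => (x i).den_pos).ne' (by
      rw [hd, h, mul_zero])
    refine ⟨2 * d * (x i).num, ?_⟩
    have h1 : ((x i).den : ℚ) ≠ 0 := Nat.cast_ne_zero.2 (x i).den_nz
    have h2 : (d : ℚ) ≠ 0 := Nat.cast_ne_zero.2 h0
    rw [hd]
    push_cast
    rw [← Rat.mul_den_eq_num]
    field_simp
  have hr : 0 < 2 * s := by omega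
  have hs' : (s : ℚ) ≠ 0 := Nat.cast_ne_zero.2 hs.ne'
  have key : ∀ b : ι ⊕ ι → Fin (2 * s),
      Gr.IntY (t2 (ι := ι)) (monomial 1 (tq fun i => ((b i : ℕ) : ℚ) / (2 * s : ℕ))) := by
    refine Gr.intY_of_pow_four fun a => ?_
    obtain ⟨c, hc⟩ := tq_pow_four fun i => ((a i : ℕ) : ℚ) / (2 * s : ℕ)
    rw [hc]
    refine Submodule.sum_mem _ fun e _ => Submodule.smul_mem _ _ ?_
    obtain ⟨d, b, hb⟩ := mfint_red hr
      (fun i => 2 * (((a i : ℕ) : ℚ) / (2 * s : ℕ)) + ((e i : ℕ) : ℚ) / 2) fun i =>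
        ⟨2 * (a i : ℕ) + (e i : ℕ) * s, by
          push_cast
          field_simp⟩
    rw [hb, smul_mul_assoc]
    exact Submodule.smul_mem _ _ (Submodule.subset_span ⟨b, e, e, e, rfl⟩)
  obtain ⟨c, b, hb⟩ := mfint_red hr x hx
  refine Gr.intY_pow key ?_
  rw [pow_one, hb]
  exact Submodule.smul_mem _ _ (Submodule.subset_span ⟨b, rfl⟩)

theorem MF.intY {σ : Type} {y : σ → HH ι → ℂ} (hy : ∀ e, Gr.IntY y (monomial 1 (t2 e))) {n : ℕ}
    {f : HH ι → ℂ} (hf : f ∈ MF ι n) : Gr.IntY y (monomial n f) :=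
  Gr.IntY.trans hy (Gr.intY_pow tq_int hf)

/-- `Gr.IntY.of_expand`, `expand_monomial`. -/
theorem MF.intY_eight {σ : Type} {y : σ → HH ι → ℂ} (hy : ∀ e, Gr.IntY y (monomial 1 (t2 e)))
    {k : ℕ} {f : HH ι → ℂ} (hf : f ∈ MF ι (8 * k)) :
    Gr.IntY (fun i => y i ^ 8) (monomial k f) := by
  refine Gr.IntY.of_expand (by norm_num) ?_
  rw [expand_monomial, mul_comm]
  exact MF.intY hy hf

end M4
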