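import Mathlib
import Pool.Agent.Lib.MP_33b3f9_ag.M4.MFProd

/-!
Holomorphy, bounds, absence of zero divisors.
-/

set_option autoImplicit false

namespace M4

open Complex Matrix

variable {ι : Type} [Fintype ι] {m n : ℕ} {f g : HH ι → ℂ}

/-- `MF_le`, `differentiableOn_Th`. -/
theorem MF.hol (hf : f ∈ MF ι n) : ∃ F : (ι → ι → ℂ) → ℂ, DifferentiableOn ℂ F (PosIm ι) ∧
    ∀ τ : HH ι, f τ = F fun i j => τ.1 i j := by
  let W : Submodule ℂ (HH ι → ℂ) :=
    { carrier := {f | ∃ F : (ι → ι → ℂ) → ℂ, DifferentiableOn ℂ F (PosIm ι) ∧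
        ∀ τ : HH ι, f τ = F fun i j => τ.1 i j}
      zero_mem' := ⟨0, differentiableOn_const 0, fun _ => rfl⟩
      add_mem' := by
        rintro f g ⟨F, hF, hf⟩ ⟨G, hG, hg⟩
        exact ⟨F + G, hF.add hG, fun τ => by rw [Pi.add_apply, Pi.add_apply, hf, hg]⟩
      smul_mem' := by
        rintro c f ⟨F, hF, hf⟩
        exact ⟨c • F, hF.const_smul c, fun τ => by rw [Pi.smul_apply, Pi.smul_apply, hf]⟩ }
  refine MF_le (W := W) (fun x => ?_) hf
  exact ⟨fun τ => ∏ i, Th (Matrix.of τ) (rQ (x i)),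
    fun τ hτ => (HasFDerivWithinAt.finsetProd fun i _ =>
      (differentiableOn_Th _ τ hτ).hasFDerivWithinAt).differentiableWithinAt,
    fun τ => Finset.prod_apply τ _ _⟩

/-- `MF_le`, `norm_Th_bound`. -/
theorem MF.bound (hf : f ∈ MF ι n) {c : ℝ} (hc : 0 < c) : ∃ C : ℝ, ∀ τ : HH ι,
    (∀ v : ι → ℝ, c * (v ⬝ᵥ v) ≤ v ⬝ᵥ τ.1.map im *ᵥ v) → ‖f τ‖ ≤ C := by
  let W : Submodule ℂ (HH ι → ℂ) :=
    { carrier := {f | ∃ C : ℝ, ∀ τ : HH ι,
        (∀ v : ι → ℝ, c * (v ⬝ᵥ v) ≤ v ⬝ᵥ τ.1.map im *ᵥ v) → ‖f τ‖ ≤ C}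
      zero_mem' := ⟨0, fun _ _ => norm_zero.le⟩
      add_mem' := by
        rintro f g ⟨C, hf⟩ ⟨D, hg⟩
        exact ⟨C + D, fun τ h => (norm_add_le _ _).trans (add_le_add (hf τ h) (hg τ h))⟩
      smul_mem' := by
        rintro a f ⟨C, hf⟩
        exact ⟨‖a‖ * C, fun τ h => (norm_smul_le a (f τ)).trans
          (mul_le_mul_of_nonneg_left (hf τ h) (norm_nonneg a))⟩ }
  refine MF_le (W := W) (fun x => ?_) hf
  obtain ⟨C, hC⟩ := norm_Th_bound (ι := ι) hc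
  refine ⟨∏ _i : Fin n, C, fun τ h => ?_⟩
  rw [Finset.prod_apply, norm_prod]
  exact Finset.prod_le_prod (fun i _ => norm_nonneg _) fun i _ => hC τ.1 τ.2 h _

/-- The point `I • 1`. -/
theorem nonempty_HH : Nonempty (HH ι) := by
  classical
  refine ⟨⟨I • 1, isSymm_one.smul I, ?_⟩⟩
  have e : (I • (1 : Matrix ι ι ℂ)).map im = 1 := by
    ext i j
    by_cases h : i = j <;> simp [one_apply, h]
  rw [e]
  exact PosDef.one

theorem mfhol_inH {τ : Matrix ι ι ℂ} (h1 : τ.IsSymm) (h : (fun i j => τ i j) ∈ PosIm ι) :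
    InH τ :=
  ⟨h1, PosDef.of_dotProduct_mulVec_pos (isHermitian_iff_isSymm.2 (h1.map im)) fun x hx => by
    rw [star_trivial, ths_form]
    exact h x hx⟩

theorem mfhol_convex : Convex ℝ (PosIm ι) := by
  intro σ hσ τ hτ a b ha hb hab x hx
  have e : ∑ i, ∑ j, ((a • σ + b • τ) i j).im * x i * x j =
      a * ∑ i, ∑ j, (σ i j).im * x i * x j + b * ∑ i, ∑ j, (τ i j).im * x i * x j := by
    simp only [Finset.mul_sum, ← Finset.sum_add_distrib]
    refine Finset.sum_congr rfl fun i _ => Finset.sum_congr rfl fun j _ => ?_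
    simp only [Pi.add_apply, Pi.smul_apply, add_im, smul_im, smul_eq_mul]
    ring
  rw [e]
  exact convex_Ioi (𝕜 := ℝ) (0 : ℝ) (hσ x hx) (hτ x hx) ha hb hab

/-- For `τ₁, τ₂` in the Siegel space the set `O = {s : ℂ | InH (τ₁ + s • (τ₂ - τ₁))}` is open
(`isOpen_posIm`), convex and contains `0, 1`; `F` and `G` are holomorphic along this line;
`AnalyticOnNhd.eq_zero_or_eq_zero_of_mul_eq_zero` (or isolated zeros). -/
theorem hol_mul_eq_zero {F G : (ι → ι → ℂ) → ℂ} (hF : DifferentiableOn ℂ F (PosIm ι))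
    (hG : DifferentiableOn ℂ G (PosIm ι))
    (h : ∀ τ : HH ι, F (fun i j => τ.1 i j) * G (fun i j => τ.1 i j) = 0) :
    (∀ τ : HH ι, F (fun i j => τ.1 i j) = 0) ∨ ∀ τ : HH ι, G (fun i j => τ.1 i j) = 0 := by
  by_contra hc
  rw [not_or, not_forall, not_forall] at hc
  obtain ⟨⟨σ, hσ⟩, τ, hτ⟩ := hc
  obtain ⟨l, hl⟩ : ∃ l : ℂ → ι → ι → ℂ, l = fun s i j => (σ.1 + s • (τ.1 - σ.1)) i j := ⟨_, rfl⟩
  have hd : Differentiable ℂ l := by
    simp only [hl, Matrix.add_apply, Matrix.smul_apply, smul_eq_mul]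
    fun_prop
  have hO : IsOpen (l ⁻¹' PosIm ι) := isOpen_posIm.preimage hd.continuous
  have hC : Convex ℝ (l ⁻¹' PosIm ι) := by
    intro s hs t ht a b ha hb hab
    have e : l (a • s + b • t) = a • l s + b • l t := by
      funext i j
      have h1 : (a : ℂ) + b = 1 := by exact_mod_cast hab
      simp only [hl, Matrix.add_apply, Matrix.smul_apply, smul_eq_mul, Pi.add_apply, Pi.smul_apply,
        real_smul]
      linear_combination (-σ.1 i j) * h1
    rw [Set.mem_preimage, e]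
    exact mfhol_convex hs ht ha hb hab
  have h0 : l 0 = fun i j => σ.1 i j := by simp [hl]
  have h1 : l 1 = fun i j => τ.1 i j := by simp [hl]
  have h2 : ∀ s ∈ l ⁻¹' PosIm ι, (F ∘ l) s * (G ∘ l) s = 0 := by
    intro s hs
    subst hl
    exact h ⟨_, mfhol_inH (σ.2.1.add ((τ.2.1.sub σ.2.1).smul s)) hs⟩
  rcases AnalyticOnNhd.eq_zero_or_eq_zero_of_mul_eq_zero
    ((hF.comp hd.differentiableOn (Set.mapsTo_preimage _ _)).analyticOnNhd hO)
    ((hG.comp hd.differentiableOn (Set.mapsTo_preimage _ _)).analyticOnNhd hO) h2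
    hC.isPreconnected with e | e
  · have h2 := e 0 (by rw [Set.mem_preimage, h0]; exact σ.2.posIm)
    rw [Function.comp_apply, h0] at h2
    exact hσ h2
  · have h2 := e 1 (by rw [Set.mem_preimage, h1]; exact τ.2.posIm)
    rw [Function.comp_apply, h1] at h2
    exact hτ h2

theorem MF.mul_eq_zero (hf : f ∈ MF ι m) (hg : g ∈ MF ι n) (h : f * g = 0) : f = 0 ∨ g = 0 := by
  obtain ⟨F, hF, hf⟩ := MF.hol hf
  obtain ⟨G, hG, hg⟩ := MF.hol hg
  exact (hol_mul_eq_zero hF hG fun τ => by rw [← hf, ← hg]; exact congrFun h τ).imp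
    (fun e => funext fun τ => (hf τ).trans (e τ)) fun e => funext fun τ => (hg τ).trans (e τ)

/-- `nonempty_HH`, `exists_null_ne_zero`. -/
theorem exists_t2_ne_zero : ∃ e : ι ⊕ ι → Fin 2, t2 e ≠ 0 := by
  obtain ⟨τ⟩ := nonempty_HH (ι := ι)
  obtain ⟨e, he⟩ := exists_null_ne_zero τ.2
  exact ⟨e, fun h => he (congrFun h τ)⟩

end M4
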