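import Mathlib

/-!
Reduction of lattices: bases with bounded orthogonality defect.
-/

set_option autoImplicit false

namespace M4

/-- `b'` is another basis of the lattice spanned by `b`. -/
def SameLat {V κ : Type} [AddCommGroup V] [Module ℝ V] (b b' : κ → V) : Prop :=
  LinearIndependent ℝ b' ∧ Submodule.span ℤ (Set.range b') = Submodule.span ℤ (Set.range b)

/-- Non zero lattice vectors are not short (compactness of the unit sphere, or
`LinearMap.exists_antilipschitzWith` for `x ↦ ∑ x i • b i`). -/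
theorem lat_low {V κ : Type} [NormedAddCommGroup V] [NormedSpace ℝ V] [Fintype κ] {b : κ → V}
    (hb : LinearIndependent ℝ b) :
    ∃ l : ℝ, 0 < l ∧ ∀ v ∈ Submodule.span ℤ (Set.range b), v ≠ 0 → l ≤ ‖v‖ := by
  obtain ⟨K, hK, h⟩ := LinearMap.exists_antilipschitzWith (Fintype.linearCombination ℝ b)
    (LinearMap.ker_eq_bot.2 (linearIndependent_iff_injective_fintypeLinearCombination.1 hb))
  have hK' : (0 : ℝ) < K := hK
  refine ⟨(K : ℝ)⁻¹, inv_pos.2 hK', fun v hv h0 => ?_⟩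
  obtain ⟨c, rfl⟩ := (Submodule.mem_span_range_iff_exists_fun ℤ).1 hv
  have h1 : Fintype.linearCombination ℝ b (fun i => (c i : ℝ)) = ∑ i, c i • b i := by
    simp only [Fintype.linearCombination_apply, Int.cast_smul_eq_zsmul]
  have h2 := h.le_mul_norm (map_zero _) fun i => (c i : ℝ)
  rw [h1] at h2
  obtain ⟨i, hi⟩ : ∃ i, c i ≠ 0 := by
    by_contra hc
    push Not at hc
    exact h0 (Finset.sum_eq_zero fun i _ => by rw [hc i, zero_smul])
  have h3 : (1 : ℝ) ≤ ‖fun i => (c i : ℝ)‖ := by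
    refine le_trans ?_ (norm_le_pi_norm (fun i => (c i : ℝ)) i)
    rw [Real.norm_eq_abs, ← Int.cast_abs]
    exact_mod_cast Int.one_le_abs hi
  rw [inv_le_iff_one_le_mul₀' hK']
  exact h3.trans h2

/-- Let `μ > 0` be the infimum of the `‖b'' j‖ ^ 2` over all bases `b''` and all `j` (`lat_low`);
take one with `‖b'' j‖ ^ 2 ≤ 2 μ` and swap `j` with `0`. -/
theorem exists_short {V : Type} [NormedAddCommGroup V] [NormedSpace ℝ V] {n : ℕ}
    {b : Fin (n + 1) → V} (hb : LinearIndependent ℝ b) : ∃ b', SameLat b b' ∧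
      ∀ b'', SameLat b b'' → ∀ j, ‖b' 0‖ ^ 2 ≤ 2 * ‖b'' j‖ ^ 2 := by
  obtain ⟨l, hl, h⟩ := lat_low hb
  let S : Set ℝ := {t | ∃ b'', SameLat b b'' ∧ ∃ j : Fin (n + 1), t = ‖b'' j‖ ^ 2}
  have hne : S.Nonempty := ⟨_, b, ⟨hb, rfl⟩, 0, rfl⟩
  have hlow : ∀ t ∈ S, l ^ 2 ≤ t := by
    rintro _ ⟨b'', hb'', j, rfl⟩
    refine pow_le_pow_left₀ hl.le (h _ ?_ (hb''.1.ne_zero j)) 2
    rw [← hb''.2]
    exact Submodule.subset_span ⟨j, rfl⟩
  have hpos : 0 < sInf S := (pow_pos hl 2).trans_le (le_csInf hne hlow)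
  obtain ⟨_, ⟨c, hc, j, rfl⟩, h1⟩ := exists_lt_of_csInf_lt hne (show sInf S < 2 * sInf S by linarith)
  refine ⟨c ∘ Equiv.swap 0 j, ⟨hc.1.comp _ (Equiv.injective _), ?_⟩, fun b'' hb'' i => ?_⟩
  · rw [(Equiv.surjective _).range_comp, hc.2]
  · have h2 : sInf S ≤ ‖b'' i‖ ^ 2 := csInf_le ⟨_, hlow⟩ ⟨b'', hb'', i, rfl⟩
    rw [Function.comp_apply, Equiv.swap_apply_left]
    linarith

/-- Let `π v = v - (⟪b 0, v⟫ / ‖b 0‖ ^ 2) • b 0`. Lift `w j = π (u j)` with `u j` in the span of the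
`b i.succ`, subtract the integer multiple of `b 0` nearest to the coefficient (`round`,
`abs_sub_round`). -/
theorem exists_lift {V : Type} [NormedAddCommGroup V] [InnerProductSpace ℝ V] {n : ℕ}
    {b : Fin (n + 1) → V} (hb : LinearIndependent ℝ b) :
    LinearIndependent ℝ (fun j : Fin n => b j.succ - (inner ℝ (b 0) (b j.succ) / ‖b 0‖ ^ 2) • b 0) ∧
    ∀ w, SameLat (fun j : Fin n => b j.succ - (inner ℝ (b 0) (b j.succ) / ‖b 0‖ ^ 2) • b 0) w →
      ∃ μ : Fin n → ℝ, (∀ j, |μ j| ≤ 1 / 2) ∧ (∀ j, inner ℝ (b 0) (w j) = 0) ∧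
        SameLat b (Fin.cons (b 0) fun j => w j + μ j • b 0) := by
  have h0 : b 0 ≠ 0 := hb.ne_zero 0
  have hn : ‖b 0‖ ^ 2 ≠ 0 := pow_ne_zero 2 (norm_ne_zero_iff.2 h0)
  obtain ⟨π, hπ⟩ : ∃ π : V →ₗ[ℝ] V, ∀ v, π v = v - (inner ℝ (b 0) v / ‖b 0‖ ^ 2) • b 0 :=
    ⟨{ toFun := fun v => v - (inner ℝ (b 0) v / ‖b 0‖ ^ 2) • b 0
       map_add' := fun u v => by
         rw [inner_add_right, add_div, add_smul]
         abel
       map_smul' := fun c v => by
         rw [inner_smul_right, RingHom.id_apply, smul_sub, smul_smul, mul_div_assoc] },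
      fun _ => rfl⟩
  have hπ0 : π (b 0) = 0 := by
    rw [hπ, real_inner_self_eq_norm_sq, div_self hn, one_smul, sub_self]
  have hπi : ∀ v, inner ℝ (b 0) (π v) = 0 := fun v => by
    rw [hπ, inner_sub_right, inner_smul_right, real_inner_self_eq_norm_sq, div_mul_cancel₀ _ hn,
      sub_self]
  simp only [← hπ]
  have hli : LinearIndependent ℝ fun j : Fin n => π (b j.succ) := by
    rw [Fintype.linearIndependent_iff]
    intro c hc j
    have h1 : π (∑ j, c j • b j.succ) = 0 := by simpa only [map_sum, map_smul] using hc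
    rw [hπ] at h1
    have h2 := Fintype.linearIndependent_iff.1 hb
      (Fin.cons (-(inner ℝ (b 0) (∑ j, c j • b j.succ) / ‖b 0‖ ^ 2)) c) (by
        rw [Fin.sum_univ_succ, Fin.cons_zero, neg_smul, neg_add_eq_sub]
        simpa only [Fin.cons_succ] using h1) j.succ
    simpa only [Fin.cons_succ] using h2
  refine ⟨hli, fun w hw => ?_⟩
  have hker : ∀ y ∈ Submodule.span ℤ (Set.range b), π y = 0 → ∃ e : ℤ, y = e • b 0 := by
    intro y hy h1
    obtain ⟨e, rfl⟩ := (Submodule.mem_span_range_iff_exists_fun ℤ).1 hy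
    rw [Fin.sum_univ_succ, map_add, map_zsmul, hπ0, smul_zero, zero_add, map_sum] at h1
    have h2 := Fintype.linearIndependent_iff.1 hli (fun j => (e j.succ : ℝ))
      (by simpa only [map_zsmul, Int.cast_smul_eq_zsmul] using h1)
    refine ⟨e 0, ?_⟩
    rw [Fin.sum_univ_succ, Finset.sum_eq_zero fun j _ => ?_, add_zero]
    rw [Int.cast_eq_zero.1 (h2 j), zero_smul]
  have hu : ∀ j, ∃ u ∈ Submodule.span ℤ (Set.range b), π u = w j := fun j => by
    have h1 : w j ∈ Submodule.span ℤ (Set.range fun j : Fin n => π (b j.succ)) := by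
      rw [← hw.2]
      exact Submodule.subset_span ⟨j, rfl⟩
    obtain ⟨c, hc⟩ := (Submodule.mem_span_range_iff_exists_fun ℤ).1 h1
    refine ⟨∑ i, c i • b i.succ, Submodule.sum_mem _ fun i _ =>
      Submodule.smul_mem _ _ (Submodule.subset_span ⟨_, rfl⟩), ?_⟩
    simpa only [map_sum, map_zsmul] using hc
  choose u hu1 hu2 using hu
  have hw0 : ∀ j, inner ℝ (b 0) (w j) = 0 := fun j => by rw [← hu2, hπi]
  have hπw : ∀ (j : Fin n) (t : ℝ), π (w j + t • b 0) = w j := fun j t => by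
    rw [map_add, map_smul, hπ0, smul_zero, add_zero, hπ, hw0, zero_div, zero_smul, sub_zero]
  have hb0 : b 0 ∈ Submodule.span ℤ (Set.range b) := Submodule.subset_span ⟨0, rfl⟩
  obtain ⟨μ, hμ1, hμ2⟩ : ∃ μ : Fin n → ℝ, (∀ j, |μ j| ≤ 1 / 2) ∧
      ∀ j, w j + μ j • b 0 ∈ Submodule.span ℤ (Set.range b) := by
    refine ⟨fun j => inner ℝ (b 0) (u j) / ‖b 0‖ ^ 2 - round (inner ℝ (b 0) (u j) / ‖b 0‖ ^ 2),
      fun j => abs_sub_round _, fun j => ?_⟩
    rw [← hu2, hπ, sub_smul, Int.cast_smul_eq_zsmul, sub_add_sub_cancel]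
    exact sub_mem (hu1 j) (Submodule.smul_mem _ _ hb0)
  refine ⟨μ, hμ1, hw0, ?_, le_antisymm ?_ ?_⟩
  · rw [Fintype.linearIndependent_iff]
    intro c hc
    rw [Fin.sum_univ_succ] at hc
    simp only [Fin.cons_zero, Fin.cons_succ] at hc
    have h1 := congrArg π hc
    rw [map_add, map_smul, hπ0, smul_zero, zero_add, map_sum, map_zero] at h1
    have h2 := Fintype.linearIndependent_iff.1 hw.1 (fun j => c j.succ)
      (by simpa only [map_smul, hπw] using h1)
    rw [Finset.sum_eq_zero fun j _ => by rw [h2 j, zero_smul], add_zero] at hc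
    intro i
    refine Fin.cases ?_ h2 i
    exact (smul_eq_zero.1 hc).resolve_right h0
  · rw [Submodule.span_le]
    rintro _ ⟨i, rfl⟩
    refine Fin.cases ?_ (fun j => ?_) i
    · exact hb0
    · exact hμ2 j
  · rw [Submodule.span_le]
    rintro _ ⟨i, rfl⟩
    have h1 : b 0 ∈ Submodule.span ℤ (Set.range
        (Fin.cons (b 0) fun j => w j + μ j • b 0 : Fin (n + 1) → V)) :=
      Submodule.subset_span ⟨0, rfl⟩
    refine Fin.cases h1 (fun i => ?_) i
    have h2 : π (b i.succ) ∈ Submodule.span ℤ (Set.range w) := by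
      rw [hw.2]
      exact Submodule.subset_span ⟨i, rfl⟩
    obtain ⟨d, hd⟩ := (Submodule.mem_span_range_iff_exists_fun ℤ).1 h2
    obtain ⟨e, he⟩ := hker (b i.succ - ∑ j, d j • (w j + μ j • b 0))
      (sub_mem (Submodule.subset_span ⟨_, rfl⟩)
        (Submodule.sum_mem _ fun j _ => Submodule.smul_mem _ _ (hμ2 j))) (by
      rw [map_sub, map_sum, ← hd]
      simp only [map_zsmul, hπw, sub_self])
    rw [SetLike.mem_coe, eq_add_of_sub_eq he]
    exact add_mem (Submodule.smul_mem _ _ h1) (Submodule.sum_mem _ fun j _ =>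
      Submodule.smul_mem _ _ (Submodule.subset_span ⟨j.succ, rfl⟩))

end M4
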