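import Mathlib
import Pool.Agent.Lib.MP_33b3f9_ag.M4.Red00

/-!
Reduction of lattices: bases with bounded orthogonality defect.
-/

set_option autoImplicit false

namespace M4

theorem red0_pyth {V : Type} [NormedAddCommGroup V] [InnerProductSpace ℝ V] {a w : V}
    (h : inner ℝ a w = 0) (t : ℝ) : ‖w + t • a‖ ^ 2 = ‖w‖ ^ 2 + t ^ 2 * ‖a‖ ^ 2 := by
  rw [norm_add_sq_real, inner_smul_right, real_inner_comm, h, norm_smul, mul_pow, Real.norm_eq_abs,
    sq_abs]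
  ring

/-- Induction on `n`. With `y = ‖b 0‖ ^ 2`, `s j = ‖w j‖ ^ 2`: `y ≤ 2 (s j + y / 4)`, so
`y ≤ 4 s j` and `‖b' j.succ‖ ^ 2 ≤ 2 s j`;
`‖∑ x i • b' i‖ ^ 2 = y (x 0 + μ x') ^ 2 + ‖∑ x' j • w j‖ ^ 2`;
`y x 0 ^ 2 ≤ 2 y (x 0 + μ x') ^ 2 + 2 n ∑ s j x' j ^ 2` (Cauchy-Schwarz `sq_sum_le_card_mul_sum_sq`).
New constant `min (1 / 2) (c / (2 n + 2))`. -/
theorem lat_red (n : ℕ) : ∃ c : ℝ, 0 < c ∧ ∀ (V : Type) [NormedAddCommGroup V]
    [InnerProductSpace ℝ V] (b : Fin n → V), LinearIndependent ℝ b → ∃ b', SameLat b b' ∧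
      ∀ x : Fin n → ℝ, c * ∑ i, ‖b' i‖ ^ 2 * x i ^ 2 ≤ ‖∑ i, x i • b' i‖ ^ 2 := by
  induction n with
  | zero => exact ⟨1, one_pos, fun V _ _ b hb => ⟨b, ⟨hb, rfl⟩, fun x => by simp⟩⟩
  | succ n ih =>
    obtain ⟨c, hc, ih⟩ := ih
    have hn : (0 : ℝ) < 2 * n + 2 := by positivity
    refine ⟨min (1 / 2) (c / (2 * n + 2)), by positivity, fun V _ _ b hb => ?_⟩
    obtain ⟨a, ha, hs⟩ := exists_short hb
    obtain ⟨h1, h2⟩ := exists_lift ha.1
    obtain ⟨w, hw, h3⟩ := ih V _ h1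
    obtain ⟨μ, hμ, ho, h4⟩ := h2 w hw
    have h5 : SameLat b (Fin.cons (a 0) fun j => w j + μ j • a 0) := ⟨h4.1, h4.2.trans ha.2⟩
    refine ⟨_, h5, fun x => ?_⟩
    have hy : 0 ≤ ‖a 0‖ ^ 2 := sq_nonneg _
    have hm : ∀ j, μ j ^ 2 * ‖a 0‖ ^ 2 ≤ ‖w j‖ ^ 2 := fun j => by
      have k1 := hs _ h5 j.succ
      rw [Fin.cons_succ, red0_pyth (ho j)] at k1
      have k2 : μ j ^ 2 ≤ 1 / 4 := by
        have := abs_le.1 (hμ j)
        nlinarith
      have k3 := mul_le_mul_of_nonneg_right k2 hy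
      linarith
    have e : ∑ i, x i • (Fin.cons (a 0) (fun j => w j + μ j • a 0) : Fin (n + 1) → V) i =
        ∑ j, x j.succ • w j + (x 0 + ∑ j, x j.succ * μ j) • a 0 := by
      simp only [Fin.sum_univ_succ, Fin.cons_zero, Fin.cons_succ, smul_add, Finset.sum_add_distrib,
        add_smul, Finset.sum_smul, mul_smul]
      abel
    have ho' : inner ℝ (a 0) (∑ j, x j.succ • w j) = 0 := by
      simp only [inner_sum, inner_smul_right, ho, mul_zero, Finset.sum_const_zero]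
    rw [e, red0_pyth ho', Fin.sum_univ_succ]
    simp only [Fin.cons_zero, Fin.cons_succ]
    have h6 := h3 fun j => x j.succ
    have hS : 0 ≤ ∑ j, ‖w j‖ ^ 2 * x j.succ ^ 2 := Finset.sum_nonneg fun j _ => by positivity
    have h7 : ∑ j, ‖w j + μ j • a 0‖ ^ 2 * x j.succ ^ 2 ≤ 2 * ∑ j, ‖w j‖ ^ 2 * x j.succ ^ 2 := by
      rw [Finset.mul_sum]
      refine Finset.sum_le_sum fun j _ => ?_
      rw [red0_pyth (ho j), ← mul_assoc]
      exact mul_le_mul_of_nonneg_right (by linarith [hm j]) (sq_nonneg _)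
    have h8 : (∑ j, x j.succ * μ j) ^ 2 * ‖a 0‖ ^ 2 ≤ n * ∑ j, ‖w j‖ ^ 2 * x j.succ ^ 2 := by
      have k1 := sq_sum_le_card_mul_sum_sq (s := Finset.univ) (f := fun j => x j.succ * μ j)
      rw [Finset.card_univ, Fintype.card_fin] at k1
      refine (mul_le_mul_of_nonneg_right k1 hy).trans ?_
      rw [mul_assoc, Finset.sum_mul]
      refine mul_le_mul_of_nonneg_left (Finset.sum_le_sum fun j _ => ?_) (Nat.cast_nonneg n)
      rw [mul_pow, mul_assoc, mul_comm]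
      exact mul_le_mul_of_nonneg_right (hm j) (sq_nonneg _)
    generalize ∑ j, ‖w j‖ ^ 2 * x j.succ ^ 2 = S at *
    generalize ∑ j, ‖w j + μ j • a 0‖ ^ 2 * x j.succ ^ 2 = R at *
    generalize ∑ j, x j.succ * μ j = m at *
    generalize ‖∑ j, x j.succ • w j‖ ^ 2 = N at *
    generalize ‖a 0‖ ^ 2 = y at *
    have h9 : y * x 0 ^ 2 + R ≤ 2 * ((x 0 + m) ^ 2 * y) + (2 * n + 2) * S := by
      nlinarith [mul_nonneg hy (sq_nonneg (x 0 + 2 * m))]
    have k1 : min (1 / 2) (c / (2 * n + 2)) * (2 * ((x 0 + m) ^ 2 * y)) ≤ (x 0 + m) ^ 2 * y := by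
      have := mul_le_mul_of_nonneg_right (min_le_left (1 / 2) (c / (2 * n + 2)))
        (show 0 ≤ 2 * ((x 0 + m) ^ 2 * y) by positivity)
      linarith
    have k2 : min (1 / 2) (c / (2 * n + 2)) * ((2 * n + 2) * S) ≤ c * S := by
      refine (mul_le_mul_of_nonneg_right (min_le_right _ _) (by positivity)).trans (le_of_eq ?_)
      field_simp
    have k3 := mul_le_mul_of_nonneg_left h9
      (show 0 ≤ min (1 / 2) (c / (2 * n + 2)) by positivity)
    rw [mul_add _ (2 * _)] at k3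
    linarith

end M4
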