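import Mathlib
import Pool.Agent.Lib.MP_33b3f9_ag.M4.Red0

/-!
Reduction of positive definite matrices.
-/

set_option autoImplicit false

namespace M4

open Matrix

variable {ι : Type} [Fintype ι] [DecidableEq ι]

/-- `Submodule.mem_span_range_iff_exists_fun` in both directions; independence gives
`U * U' = 1`. -/
theorem SameLat.exists_matrix {V : Type} [AddCommGroup V] [Module ℝ V] {b b' : ι → V}
    (hb : LinearIndependent ℝ b) (h : SameLat b b') : ∃ U U' : Matrix ι ι ℤ, U * U' = 1 ∧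
      ∀ j, b' j = ∑ i, (U i j : ℝ) • b i := by
  have h1 : ∀ j, ∃ c : ι → ℤ, ∑ i, c i • b i = b' j := fun j =>
    (Submodule.mem_span_range_iff_exists_fun ℤ).1 (h.2 ▸ Submodule.subset_span ⟨j, rfl⟩)
  have h2 : ∀ j, ∃ c : ι → ℤ, ∑ i, c i • b' i = b j := fun j =>
    (Submodule.mem_span_range_iff_exists_fun ℤ).1 (h.2.symm ▸ Submodule.subset_span ⟨j, rfl⟩)
  choose u hu using h1
  choose v hv using h2
  have hu' : ∀ j, b' j = ∑ i, (u j i : ℝ) • b i := fun j => by
    simp only [Int.cast_smul_eq_zsmul, hu]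
  refine ⟨Matrix.of fun i j => u j i, Matrix.of fun i j => v j i, ?_, hu'⟩
  ext i j
  have h3 : ∑ k, ((∑ l, u l k * v j l : ℤ) : ℝ) • b k =
      ∑ k, (((1 : Matrix ι ι ℤ) k j : ℤ) : ℝ) • b k := by
    have : ∑ k, (((1 : Matrix ι ι ℤ) k j : ℤ) : ℝ) • b k = b j := by simp [Matrix.one_apply]
    rw [this, ← hv j]
    simp only [hu', Finset.smul_sum, Int.cast_sum, Finset.sum_smul]
    rw [Finset.sum_comm]
    refine Finset.sum_congr rfl fun l _ => Finset.sum_congr rfl fun k _ => ?_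
    rw [← Int.cast_smul_eq_zsmul ℝ, smul_smul, Int.cast_mul, mul_comm]
  exact Int.cast_injective (Fintype.linearIndependent_iffₛ.1 hb _ _ h3 i)

open scoped MatrixOrder in
theorem red1_sqrt {Y : Matrix ι ι ℝ} (hY : Y.PosDef) : ∃ B, IsUnit B ∧ Y = star B * B :=
  CStarAlgebra.isStrictlyPositive_iff_eq_star_mul_self.1 hY.isStrictlyPositive

/-- Write `Y = Bᵀ * B` (`CFC.sqrt`, or `PosSemidef` iff `Bᴴ * B`), take the columns of `B` in
`EuclideanSpace ℝ ι`, reindex by `Fintype.equivFin`, `lat_red`. -/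
theorem mat_red (ι : Type) [Fintype ι] [DecidableEq ι] : ∃ c : ℝ, 0 < c ∧
    ∀ Y : Matrix ι ι ℝ, Y.PosDef → ∃ U U' : Matrix ι ι ℤ, U * U' = 1 ∧ ∀ x : ι → ℝ,
      c * ∑ i, ((U.map (Int.cast : ℤ → ℝ))ᵀ * Y * U.map (Int.cast : ℤ → ℝ)) i i * x i ^ 2 ≤
        x ⬝ᵥ ((U.map (Int.cast : ℤ → ℝ))ᵀ * Y * U.map (Int.cast : ℤ → ℝ)) *ᵥ x := by
  obtain ⟨c, hc, H⟩ := lat_red (Fintype.card ι)
  refine ⟨c, hc, fun Y hY => ?_⟩
  obtain ⟨B, hB, rfl⟩ := red1_sqrt hY
  let e := Fintype.equivFin ι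
  let b : ι → EuclideanSpace ℝ ι := fun j => WithLp.toLp 2 (B.col j)
  have hb : LinearIndependent ℝ b :=
    (Matrix.linearIndependent_cols_iff_isUnit.2 hB).map'
      (WithLp.linearEquiv 2 ℝ (ι → ℝ)).symm.toLinearMap (LinearEquiv.ker _)
  obtain ⟨b', h1, h2⟩ := H _ (b ∘ e.symm) (hb.comp _ e.symm.injective)
  obtain ⟨U, U', h3, h4⟩ := SameLat.exists_matrix hb (b' := b' ∘ e)
    ⟨h1.1.comp _ e.injective, by rw [e.surjective.range_comp, h1.2, e.symm.surjective.range_comp]⟩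
  refine ⟨U, U', h3, fun x => ?_⟩
  set W := B * U.map (Int.cast : ℤ → ℝ) with hW
  have h5 : (U.map (Int.cast : ℤ → ℝ))ᵀ * (star B * B) * U.map (Int.cast : ℤ → ℝ) = Wᵀ * W := by
    rw [hW, transpose_mul, star_eq_conjTranspose, conjTranspose_eq_transpose_of_trivial]
    simp only [Matrix.mul_assoc]
  have h6 : ∀ j k, b' (e j) k = W k j := fun j k => by
    rw [show b' (e j) = _ from h4 j]
    simp [b, hW, Matrix.mul_apply, mul_comm]
  have h7 := h2 (x ∘ e.symm)
  rw [← e.sum_comp, ← e.sum_comp] at h7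
  rw [h5, ← mulVec_mulVec, dotProduct_mulVec, vecMul_transpose]
  convert h7 using 1
  · congr 1
    refine Finset.sum_congr rfl fun j _ => ?_
    rw [EuclideanSpace.real_norm_sq_eq]
    simp [h6, Matrix.mul_apply, sq]
  · rw [EuclideanSpace.real_norm_sq_eq]
    refine Finset.sum_congr rfl fun k _ => ?_
    simp [h6, mulVec, dotProduct, sq, mul_comm]

/-- All eigenvalues are at least `κ` (`IsHermitian.det_eq_prod_eigenvalues`, test on the
eigenvectors `mulVec_eigenvectorBasis`). -/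
theorem pow_le_det {Z : Matrix ι ι ℝ} (hZ : Z.IsHermitian) {κ : ℝ} (hκ : 0 ≤ κ)
    (h : ∀ x : ι → ℝ, κ * (x ⬝ᵥ x) ≤ x ⬝ᵥ Z *ᵥ x) : κ ^ Fintype.card ι ≤ Z.det := by
  rw [hZ.det_eq_prod_eigenvalues, ← Finset.card_univ, ← Finset.prod_const]
  refine Finset.prod_le_prod (fun _ _ => hκ) fun i _ => ?_
  have h1 := h (hZ.eigenvectorBasis i)
  have h2 : (hZ.eigenvectorBasis i).ofLp ⬝ᵥ (hZ.eigenvectorBasis i).ofLp = 1 := by
    have := EuclideanSpace.real_norm_sq_eq (hZ.eigenvectorBasis i)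
    rw [hZ.eigenvectorBasis.orthonormal.1 i] at this
    simpa [dotProduct, sq] using this.symm
  rw [hZ.mulVec_eigenvectorBasis, dotProduct_smul, h2] at h1
  simpa using h1

/-- If all non zero integral vectors have length at least `l` then the determinant is bounded
below: `mat_red`, the columns of `U` are not zero, `pow_le_det`, `det U ^ 2 = 1`. -/
theorem det_low (ι : Type) [Fintype ι] [DecidableEq ι] {l : ℝ} (hl : 0 < l) : ∃ δ : ℝ, 0 < δ ∧
    ∀ Z : Matrix ι ι ℝ, Z.PosDef →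
      (∀ n : ι → ℤ, n ≠ 0 → l ≤ (fun i => (n i : ℝ)) ⬝ᵥ Z *ᵥ fun i => (n i : ℝ)) → δ ≤ Z.det := by
  obtain ⟨c, hc, H⟩ := mat_red ι
  refine ⟨(c * l) ^ Fintype.card ι, by positivity, fun Z hZ h => ?_⟩
  obtain ⟨U, U', h1, h2⟩ := H Z hZ
  set W := U.map (Int.cast : ℤ → ℝ) with hW
  have h3 : U.det * U.det = 1 := by
    have := congrArg det h1
    rw [det_mul, det_one] at this
    rcases Int.eq_one_or_neg_one_of_mul_eq_one this with h | h <;> rw [h] <;> rfl
  have h4 : (Wᵀ * Z * W).det = Z.det := by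
    have : W.det = (U.det : ℝ) := ((Int.castRingHom ℝ).map_det U).symm
    rw [det_mul, det_mul, det_transpose, this, mul_right_comm, ← Int.cast_mul, h3]
    simp
  have h5 : ∀ i, l ≤ (Wᵀ * Z * W) i i := fun i => by
    refine (h (fun k => U k i) fun e => ?_).trans (le_of_eq ?_)
    · have := congrFun (congrFun (show U' * U = 1 from mul_eq_one_comm.1 h1) i) i
      simp [Matrix.mul_apply, show ∀ k, U k i = 0 from congrFun e] at this
    · rw [Matrix.mul_assoc]
      rfl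
  rw [← h4]
  refine pow_le_det ?_ (by positivity) fun x => le_trans ?_ (h2 x)
  · simpa using isHermitian_conjTranspose_mul_mul W hZ.isHermitian
  · rw [mul_assoc, dotProduct, Finset.mul_sum]
    refine mul_le_mul_of_nonneg_left (Finset.sum_le_sum fun i _ => ?_) hc.le
    rw [← sq]
    exact mul_le_mul_of_nonneg_right (h5 i) (sq_nonneg _)

end M4
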