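import Mathlib
import Pool.Agent.Lib.MP_33b3f9_ag.M4.Red1
import Pool.Agent.Lib.MP_33b3f9_ag.M4.MFAct

/-!
Reduction theory for the integral symplectic group.
-/

set_option autoImplicit false

namespace M4

open Complex Matrix

variable {ι : Type} [Fintype ι] [DecidableEq ι] {τ : Matrix ι ι ℂ}

/-- Determinants in `im_act`. -/
theorem det_im_act {γ : Matrix (ι ⊕ ι) (ι ⊕ ι) ℤ} (hγ : γ ∈ symplecticGroup ι ℤ) (hτ : InH τ) :
    ((act (mz γ) τ).map im).det * ‖(den (mz γ) τ).det‖ ^ 2 = (τ.map im).det := by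
  have h := congrArg det (im_act (sim_mz_iff.2 hγ) one_pos hτ)
  have e : ∀ P : Matrix ι ι ℝ, (P.map ofReal).det = (P.det : ℂ) := fun P =>
    (RingHom.map_det ofRealHom P).symm
  rw [det_mul, det_mul, det_conjTranspose, ofReal_one, one_smul, e, e] at h
  refine ofReal_injective ?_
  rw [← h, ofReal_mul, ofReal_pow, ← Complex.conj_mul', star_def]
  ring

omit [DecidableEq ι] in
theorem red2_int {Y : Matrix ι ι ℝ} (hY : Y.PosDef) :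
    ∃ c : ℝ, 0 < c ∧ ∀ n : ι → ℤ, n ≠ 0 → c ≤ rz n ⬝ᵥ Y *ᵥ rz n := by
  obtain ⟨c, hc, h⟩ := Pool.Agent.Lib.MP_07b2d0_nt.Sch.coercive hY
  refine ⟨c, hc, fun n hn => ?_⟩
  obtain ⟨i, hi⟩ := Function.ne_iff.1 hn
  have h1 : (1 : ℝ) ≤ rz n i ^ 2 := by
    have : (1 : ℤ) ≤ n i ^ 2 := Int.add_one_le_iff.2 (sq_pos_iff.2 hi)
    simp only [rz]
    exact_mod_cast this
  have h2 : rz n i ^ 2 ≤ ∑ j, rz n j ^ 2 :=
    Finset.single_le_sum (f := fun j => rz n j ^ 2) (fun j _ => sq_nonneg _) (Finset.mem_univ i)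
  have h3 : ∑ i, ∑ j, Y i j * rz n i * rz n j = rz n ⬝ᵥ Y *ᵥ rz n := by
    simp only [dotProduct, mulVec, Finset.mul_sum]
    exact Finset.sum_congr rfl fun i _ => Finset.sum_congr rfl fun j _ => by ring
  have h4 := h (rz n)
  rw [h3] at h4
  nlinarith

theorem red2_form (hτ : τ.IsSymm) (x : ι ⊕ ι → ℝ) : E (cst τ *ᵥ x) x =
    (x ∘ Sum.inl) ⬝ᵥ τ.map im *ᵥ (x ∘ Sum.inl) + (τ.map re *ᵥ (x ∘ Sum.inl) + x ∘ Sum.inr) ⬝ᵥ
      (τ.map im)⁻¹ *ᵥ (τ.map re *ᵥ (x ∘ Sum.inl) + x ∘ Sum.inr) := by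
  have hE : ∀ y : ι ⊕ ι → ℝ,
      E y x = (x ∘ Sum.inr) ⬝ᵥ (y ∘ Sum.inl) - (x ∘ Sum.inl) ⬝ᵥ (y ∘ Sum.inr) := fun y => by
    simp [E, dotProduct, Finset.sum_sub_distrib, mul_comm]
  have hX : (τ.map re)ᵀ = τ.map re := by
    ext i j
    simp [hτ.apply i j]
  have hs : ∀ u v : ι → ℝ, u ⬝ᵥ τ.map re *ᵥ v = (τ.map re *ᵥ u) ⬝ᵥ v := fun u v => by
    rw [dotProduct_mulVec, ← vecMul_transpose, hX]
  rw [hE, cst, fromBlocks_mulVec, Sum.elim_comp_inl, Sum.elim_comp_inr]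
  simp only [neg_mulVec, add_mulVec, ← mulVec_mulVec, dotProduct_add, dotProduct_neg, hs,
    mulVec_add, add_dotProduct]
  ring

/-- From `im_act`: `Y'⁻¹ = den * Y⁻¹ * denᴴ`. For `n` integral put `a = Aᵀ n`, `b = Bᵀ n` (not both
zero, `γ` is invertible); `denᵀ n = (a - X b) - i Y b`, so
`n Y'⁻¹ n = (a - X b) Y⁻¹ (a - X b) + b Y b`. If `b ≠ 0` the second term, else the first, is at
least a constant (`coercive` of FA for `Y` and `Y⁻¹`). -/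
theorem inv_im_low (hτ : InH τ) : ∃ l : ℝ, 0 < l ∧ ∀ γ ∈ symplecticGroup ι ℤ, ∀ n : ι → ℤ,
    n ≠ 0 → l ≤ (fun i => (n i : ℝ)) ⬝ᵥ ((act (mz γ) τ).map im)⁻¹ *ᵥ fun i => (n i : ℝ) := by
  obtain ⟨c, hc, h1⟩ := red2_int hτ.2
  obtain ⟨c', hc', h2⟩ := red2_int hτ.2.inv
  refine ⟨min c c', lt_min hc hc', fun γ hγ n hn => ?_⟩
  have hs := sim_mz_iff.2 hγ
  obtain ⟨δ, hδ⟩ : ∃ δ : Matrix (ι ⊕ ι) (ι ⊕ ι) ℤ, γ * δ = 1 :=
    ⟨((⟨γ, hγ⟩ : symplecticGroup ι ℤ)⁻¹).1,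
      congrArg Subtype.val (mul_inv_cancel (⟨γ, hγ⟩ : symplecticGroup ι ℤ))⟩
  set k : ι ⊕ ι → ℤ := δ *ᵥ Sum.elim (0 : ι → ℤ) n with hk
  have hk1 : γ *ᵥ k = Sum.elim (0 : ι → ℤ) n := by rw [hk, mulVec_mulVec, hδ, one_mulVec]
  have e1 := red2_form (inH_act hs one_pos hτ).1 (mz γ *ᵥ rz k)
  rw [mulVec_mulVec, cst_act hs one_pos hτ, ← mulVec_mulVec, hs, one_mul, red2_form hτ.1,
    thmod_rz, hk1] at e1
  have e2 : rz (Sum.elim (0 : ι → ℤ) n) ∘ Sum.inl = 0 := by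
    funext i
    simp [rz]
  have e3 : rz (Sum.elim (0 : ι → ℤ) n) ∘ Sum.inr = fun i => (n i : ℝ) := rfl
  rw [e2, e3, zero_dotProduct, mulVec_zero, zero_add, zero_add] at e1
  rw [← e1]
  by_cases h0 : k ∘ Sum.inl = 0
  · have h3 : k ∘ Sum.inr ≠ 0 := fun h => hn (by
      have : k = 0 := funext fun i => by
        rcases i with i | i
        exacts [congrFun h0 i, congrFun h i]
      rw [this, mulVec_zero] at hk1
      exact funext fun i => (congrFun hk1 (Sum.inr i)).symm)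
    have e4 : rz k ∘ Sum.inl = 0 := by
      funext i
      have : k (Sum.inl i) = 0 := congrFun h0 i
      simp [rz, this]
    rw [e4, zero_dotProduct, mulVec_zero, zero_add, zero_add]
    exact (min_le_right _ _).trans (h2 _ h3)
  · have h3 := hτ.2.inv.posSemidef.dotProduct_mulVec_nonneg
      (τ.map re *ᵥ (rz k ∘ Sum.inl) + rz k ∘ Sum.inr)
    rw [star_trivial] at h3
    exact le_add_of_le_of_nonneg ((min_le_left _ _).trans (h1 _ h0)) h3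

/-- `det_low` for `Y'⁻¹`. -/
theorem det_im_bdd (hτ : InH τ) :
    ∃ M : ℝ, ∀ γ ∈ symplecticGroup ι ℤ, ((act (mz γ) τ).map im).det ≤ M := by
  obtain ⟨l, hl, h1⟩ := inv_im_low hτ
  obtain ⟨δ, hδ, h2⟩ := det_low ι hl
  refine ⟨δ⁻¹, fun γ hγ => ?_⟩
  have hp := (inH_act (sim_mz_iff.2 hγ) one_pos hτ).2
  have h3 := h2 _ hp.inv (h1 γ hγ)
  rw [det_nonsing_inv, Ring.inverse_eq_inv] at h3
  exact (le_inv_comm₀ hδ hp.det_pos).1 h3

end M4
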