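import Mathlib
import Pool.Agent.Lib.MP_33b3f9_ag.M4.Red2

/-!
Reduction theory for the integral symplectic group.
-/

set_option autoImplicit false

namespace M4

open Complex Matrix

variable {ι : Type} [Fintype ι] [DecidableEq ι] {τ : Matrix ι ι ℂ}

theorem pinv_mem (j : ι) : pinv j ∈ symplecticGroup ι ℤ := by
  exact sim_mz_iff.1 (mj_sim_pinv j)

/-- The matrix is the identity with row `j` replaced by `-τ j`. -/
theorem det_den_pinv (j : ι) (τ : Matrix ι ι ℂ) : (den (mz (pinv j)) τ).det = -τ j j := by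
  exact mj_det_den_pinv j τ

/-- For `U * U' = 1` and `C` symmetric the matrix `fromBlocks U' 0 (C * U') Uᵀ` is symplectic and
acts by `τ ↦ Uᵀ τ U - C`. -/
theorem exists_affine {U U' C : Matrix ι ι ℤ} (hU : U * U' = 1) (hC : C.IsSymm) :
    ∃ γ ∈ symplecticGroup ι ℤ, ∀ τ : Matrix ι ι ℂ, act (mz γ) τ =
      (U.map (Int.cast : ℤ → ℂ))ᵀ * τ * U.map (Int.cast : ℤ → ℂ) - C.map (Int.cast : ℤ → ℂ) := by
  have hU' : U' * U = 1 := mul_eq_one_comm.1 hU
  have hT : U'ᵀ * Uᵀ = 1 := by rw [← transpose_mul, hU, transpose_one]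
  refine ⟨fromBlocks U' 0 (C * U') Uᵀ, ?_, fun τ => ?_⟩
  · rw [SymplecticGroup.mem_iff', J, fromBlocks_transpose, fromBlocks_multiply, fromBlocks_multiply]
    simp only [transpose_zero, transpose_transpose, Matrix.mul_zero, Matrix.mul_one, zero_add,
      Matrix.mul_neg, add_zero, Matrix.neg_mul, Matrix.zero_mul, neg_zero, hU, hT, transpose_mul,
      hC.eq, Matrix.mul_assoc, add_neg_cancel]
  · have e : ∀ M : Matrix ι ι ℤ, (M.map (Int.cast : ℤ → ℝ)).map ofReal = M.map (Int.cast : ℤ → ℂ) :=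
      fun M => by
        ext i j
        simp
    have h1 : U'.map (Int.cast : ℤ → ℂ) * U.map (Int.cast : ℤ → ℂ) = 1 := by
      refine (Matrix.map_mul (f := Int.castRingHom ℂ)).symm.trans ?_
      rw [hU']
      exact Matrix.map_one _ (map_zero _) (map_one _)
    have h2 : (C * U').map (Int.cast : ℤ → ℂ) = C.map (Int.cast : ℤ → ℂ) * U'.map Int.cast :=
      Matrix.map_mul (f := Int.castRingHom ℂ)
    rw [act, mz, fromBlocks_map, toBlocks_fromBlocks₁₁, toBlocks_fromBlocks₁₂,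
      toBlocks_fromBlocks₂₁, toBlocks_fromBlocks₂₂, e, e, e, e, Matrix.map_zero _ Int.cast_zero,
      Matrix.zero_mul, sub_zero, inv_eq_right_inv h1, h2, Matrix.sub_mul, Matrix.mul_assoc (C.map _),
      h1, Matrix.mul_one, transpose_map]

/-- Take `γ₀` with `det im (γ τ) ≤ (4 / 3) * det im (γ₀ τ)` for all `γ` (`det_im_bdd`), reduce the
imaginary part (`mat_red`, the determinant does not change), subtract `C = round (re _)`. Then
`det_im_act` for `pinv j` gives `‖t j j‖ ^ 2 ≥ 3 / 4`, so `im (t j j) ≥ 1 / 2`. -/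
theorem siegel_red (ι : Type) [Fintype ι] [DecidableEq ι] : ∃ c : ℝ, 0 < c ∧
    ∀ τ : Matrix ι ι ℂ, InH τ → ∃ γ ∈ symplecticGroup ι ℤ,
      (∀ i j, |(act (mz γ) τ i j).re| ≤ 1) ∧ (∀ i, c ≤ (act (mz γ) τ i i).im) ∧
      ∀ v : ι → ℝ, c * ∑ i, (act (mz γ) τ i i).im * v i ^ 2 ≤ v ⬝ᵥ (act (mz γ) τ).map im *ᵥ v := by
  obtain ⟨c, hc, hred⟩ := mat_red ι
  refine ⟨min c (1 / 2), lt_min hc (by norm_num), fun τ hτ => ?_⟩
  have hH : ∀ γ ∈ symplecticGroup ι ℤ, ∀ {t : Matrix ι ι ℂ}, InH t → InH (act (mz γ) t) :=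
    fun γ hγ _ ht => inH_act (sim_mz_iff.2 hγ) one_pos ht
  have hmul : ∀ γ ∈ symplecticGroup ι ℤ, ∀ δ ∈ symplecticGroup ι ℤ,
      act (mz (γ * δ)) τ = act (mz γ) (act (mz δ) τ) := fun γ hγ δ hδ => by
    rw [thmod_mul]
    exact act_mul (den_det_ne_zero (sim_mz_iff.2 hδ) one_pos hτ)
      (den_det_ne_zero (sim_mz_iff.2 hγ) one_pos (hH δ hδ hτ))
  obtain ⟨M, hM⟩ := det_im_bdd hτ
  let S : Set ℝ := {x | ∃ γ ∈ symplecticGroup ι ℤ, x = ((act (mz γ) τ).map im).det}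
  have hS : BddAbove S := ⟨M, by rintro _ ⟨γ, hγ, rfl⟩; exact hM γ hγ⟩
  have h1 : ((act (mz 1) τ).map im).det ∈ S := ⟨1, one_mem _, rfl⟩
  have hpos : 0 < sSup S := ((hH 1 (one_mem _) hτ).2.det_pos).trans_le (le_csSup hS h1)
  obtain ⟨_, ⟨γ₀, hγ₀, rfl⟩, h0⟩ := exists_lt_of_lt_csSup ⟨_, h1⟩
    (show 3 / 4 * sSup S < sSup S by linarith)
  have ht₀ := hH γ₀ hγ₀ hτ
  obtain ⟨U, U', hU, hq⟩ := hred _ ht₀.2
  set t₀ := act (mz γ₀) τ with ht₀'
  set w := (U.map (Int.cast : ℤ → ℂ))ᵀ * t₀ * U.map (Int.cast : ℤ → ℂ) with hw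
  have hws : w.IsSymm := by
    rw [IsSymm, hw, transpose_mul, transpose_mul, transpose_transpose, ht₀.1.eq, Matrix.mul_assoc]
  obtain ⟨γ₁, hγ₁, ha⟩ := exists_affine (C := Matrix.of fun i j => round (w i j).re) hU
    (by ext i j; simp only [transpose_apply, of_apply, hws.apply i j])
  have ht : act (mz (γ₁ * γ₀)) τ = w - (Matrix.of fun i j => round (w i j).re).map Int.cast := by
    rw [hmul _ hγ₁ _ hγ₀, ha]
  have him : (act (mz (γ₁ * γ₀)) τ).map im =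
      (U.map (Int.cast : ℤ → ℝ))ᵀ * t₀.map im * U.map (Int.cast : ℤ → ℝ) := by
    rw [ht]
    ext i j
    simp [hw, Matrix.mul_apply, im_sum]
  have hγ := mul_mem hγ₁ hγ₀
  have htH := hH _ hγ hτ
  have hre : ∀ i j, |(act (mz (γ₁ * γ₀)) τ i j).re| ≤ 1 / 2 := fun i j => by
    rw [ht]
    simpa using abs_sub_round (w i j).re
  have hdet : ((act (mz (γ₁ * γ₀)) τ).map im).det = (t₀.map im).det := by
    have h2 : U.det * U.det = 1 := by
      have h3 := congrArg Matrix.det hU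
      rw [det_mul, det_one] at h3
      rcases Int.eq_one_or_neg_one_of_mul_eq_one h3 with h | h <;> simp [h]
    have h3 : (U.map (Int.cast : ℤ → ℝ)).det = (U.det : ℝ) := ((Int.castRingHom ℝ).map_det U).symm
    have h4 : (U.det : ℝ) * U.det = 1 := by exact_mod_cast h2
    rw [him, det_mul, det_mul, det_transpose, h3]
    linear_combination (t₀.map im).det * h4
  have hlow : ∀ i, 1 / 2 ≤ (act (mz (γ₁ * γ₀)) τ i i).im := fun i => by
    have h2 := det_im_act (pinv_mem i) htH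
    rw [det_den_pinv, norm_neg, ← hmul _ (pinv_mem i) _ hγ, hdet] at h2
    have h3 : ((act (mz (pinv i * (γ₁ * γ₀))) τ).map im).det ≤ sSup S :=
      le_csSup hS ⟨_, mul_mem (pinv_mem i) hγ, rfl⟩
    have h4 : 3 / 4 < ‖act (mz (γ₁ * γ₀)) τ i i‖ ^ 2 := by
      by_contra h5
      push Not at h5
      have h6 := mul_le_mul h3 h5 (by positivity) hpos.le
      linarith
    have h5 : 0 < (act (mz (γ₁ * γ₀)) τ i i).im := htH.2.diag_pos (i := i)
    rw [Complex.sq_norm, normSq_apply] at h4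
    have h6 := abs_le.1 (hre i i)
    nlinarith
  refine ⟨γ₁ * γ₀, hγ, fun i j => (hre i j).trans (by norm_num),
    fun i => (min_le_right _ _).trans (hlow i), fun v => ?_⟩
  have h2 := hq v
  rw [← him] at h2
  refine le_trans (mul_le_mul_of_nonneg_right (min_le_left _ _) ?_) h2
  exact Finset.sum_nonneg fun i _ => mul_nonneg (by linarith [hlow i]) (sq_nonneg _)

theorem siegel_red' (ι : Type) [Fintype ι] [DecidableEq ι] : ∃ c : ℝ, 0 < c ∧
    ∀ τ : Matrix ι ι ℂ, InH τ → ∃ γ ∈ symplecticGroup ι ℤ,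
      ∀ v : ι → ℝ, c * (v ⬝ᵥ v) ≤ v ⬝ᵥ (act (mz γ) τ).map im *ᵥ v := by
  obtain ⟨c, hc, h⟩ := siegel_red ι
  refine ⟨c * c, mul_pos hc hc, fun τ hτ => ?_⟩
  obtain ⟨γ, hγ, -, h1, h2⟩ := h τ hτ
  refine ⟨γ, hγ, fun v => le_trans ?_ (h2 v)⟩
  rw [mul_assoc, dotProduct, Finset.mul_sum]
  refine mul_le_mul_of_nonneg_left (Finset.sum_le_sum fun i _ => ?_) hc.le
  rw [← sq]
  exact mul_le_mul_of_nonneg_right (h1 i) (sq_nonneg _)

end M4
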