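import Mathlib
import Pool.Agent.Lib.MP_33b3f9_ag.M4.MFTh
import Pool.Agent.Lib.MP_33b3f9_ag.M4.MFProd

/-!
Fourier expansions of theta constants.
-/

set_option autoImplicit false

namespace M4

open Complex Matrix

variable {ι : Type} [Fintype ι]

/-- The trace pairing. -/
noncomputable def pr (τ : Matrix ι ι ℂ) (T : Matrix ι ι ℚ) : ℂ := ∑ i, ∑ j, τ i j * T i j

/-- Symmetric matrices whose entries are bounded by the trace. -/
def Bd (T : Matrix ι ι ℚ) : Prop := T.IsSymm ∧ ∀ i j, |T i j| ≤ T.trace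

/-- `c` is a family of Fourier coefficients of `f`. -/
def FS (f : HH ι → ℂ) (c : Matrix ι ι ℚ → ℂ) : Prop :=
  (∃ N : ℕ, N ≠ 0 ∧ ∀ T, c T ≠ 0 → Bd T ∧ ∀ i j, ∃ z : ℤ, (N : ℚ) * T i j = z) ∧
    ∀ τ : HH ι, HasSum (fun T => c T * ee (pr τ.1 T / 2)) (f τ)

/-- Expansions over an arbitrary index type. -/
def FS' (f : HH ι → ℂ) : Prop :=
  ∃ (α : Type) (c : α → ℂ) (G : α → Matrix ι ι ℚ) (N : ℕ), N ≠ 0 ∧
    (∀ a, c a ≠ 0 → Bd (G a) ∧ ∀ i j, ∃ z : ℤ, (N : ℚ) * G a i j = z) ∧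
    ∀ τ : HH ι, HasSum (fun a => c a * ee (pr τ.1 (G a) / 2)) (f τ)

theorem FS.add {f g : HH ι → ℂ} {c d : Matrix ι ι ℚ → ℂ} (hf : FS f c) (hg : FS g d) :
    FS (f + g) (c + d) := by
  obtain ⟨⟨N, hN, h⟩, hs⟩ := hf
  obtain ⟨⟨M, hM, h'⟩, hs'⟩ := hg
  refine ⟨⟨N * M, mul_ne_zero hN hM, fun T hT => ?_⟩, fun τ => ?_⟩
  · by_cases hc : c T = 0
    · have hd : d T ≠ 0 := fun hd => hT (by rw [Pi.add_apply, hc, hd, add_zero])
      refine ⟨(h' T hd).1, fun i j => ?_⟩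
      obtain ⟨z, hz⟩ := (h' T hd).2 i j
      exact ⟨N * z, by push_cast; rw [mul_assoc, hz]⟩
    · refine ⟨(h T hc).1, fun i j => ?_⟩
      obtain ⟨z, hz⟩ := (h T hc).2 i j
      exact ⟨M * z, by push_cast; rw [mul_comm (N : ℚ), mul_assoc, hz]⟩
  · simpa only [Pi.add_apply, add_mul] using (hs τ).add (hs' τ)

theorem FS.smul {f : HH ι → ℂ} {c : Matrix ι ι ℚ → ℂ} (hf : FS f c) (a : ℂ) :
    FS (a • f) (a • c) := by
  obtain ⟨⟨N, hN, h⟩, hs⟩ := hf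
  refine ⟨⟨N, hN, fun T hT => h T fun hc => hT ?_⟩, fun τ => ?_⟩
  · rw [Pi.smul_apply, hc, smul_zero]
  · simpa only [Pi.smul_apply, smul_eq_mul, mul_assoc] using (hs τ).mul_left a

theorem FS.zero : FS (0 : HH ι → ℂ) 0 := by
  refine ⟨⟨1, one_ne_zero, fun T hT => absurd rfl hT⟩, fun τ => ?_⟩
  simpa only [Pi.zero_apply, zero_mul] using hasSum_zero

/-- `c T = ∑' a : G ⁻¹' {T}, c a`; `HasSum.tsum_fiberwise`, `tsum_mul_right`. -/
theorem FS'.fs {f : HH ι → ℂ} (h : FS' f) : ∃ c, FS f c := by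
  obtain ⟨α, c, G, N, hN, h, hs⟩ := h
  refine ⟨fun T => ∑' a : G ⁻¹' {T}, c a, ⟨N, hN, fun T hT => ?_⟩, fun τ => ?_⟩
  · have : ∃ a : G ⁻¹' {T}, c a ≠ 0 := by
      by_contra hcon
      refine hT ?_
      have h0 : ∀ a : G ⁻¹' {T}, c a = 0 := fun a => by
        by_contra ha
        exact hcon ⟨a, ha⟩
      simp only [h0, tsum_zero]
    obtain ⟨⟨a, ha⟩, hc⟩ := this
    have ha' : G a = T := ha
    rw [← ha']
    exact h a hc
  · have h1 := (hs τ).tsum_fiberwise G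
    have h2 : ∀ T, (∑' a : G ⁻¹' {T}, c a) * ee (pr τ.1 T / 2) =
        ∑' a : G ⁻¹' {T}, c a * ee (pr τ.1 (G a) / 2) := fun T => by
      rw [← tsum_mul_right]
      refine tsum_congr fun a => ?_
      have ha' : G a = T := a.2
      rw [ha']
    simp only [h2]
    exact h1

end M4
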