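import Mathlib
import Pool.Agent.Lib.MP_33b3f9_ag.M4.VLFs0

/-!
Fourier expansions of theta constants.
-/

set_option autoImplicit false

namespace M4

open Complex Matrix

variable {ι : Type} [Fintype ι]

theorem vlfs_pr_add (τ : Matrix ι ι ℂ) (S T : Matrix ι ι ℚ) : pr τ (S + T) = pr τ S + pr τ T := by
  simp [pr, mul_add, Finset.sum_add_distrib]

theorem vlfs_bd_add {S T : Matrix ι ι ℚ} (hS : Bd S) (hT : Bd T) : Bd (S + T) :=
  ⟨hS.1.add hT.1, fun i j => by
    rw [trace_add, Matrix.add_apply]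
    exact (abs_add_le _ _).trans (add_le_add (hS.2 i j) (hT.2 i j))⟩

theorem FS'.mul {f g : HH ι → ℂ} (hf : FS' f) (hg : FS' g) : FS' (f * g) := by
  obtain ⟨α, c, G, N, hN, h1, h2⟩ := hf
  obtain ⟨β, d, H, M, hM, h3, h4⟩ := hg
  refine ⟨α × β, fun x => c x.1 * d x.2, fun x => G x.1 + H x.2, N * M, mul_ne_zero hN hM,
    fun x hx => ?_, fun τ => ?_⟩
  · obtain ⟨a1, a2⟩ := h1 _ (left_ne_zero_of_mul hx)
    obtain ⟨b1, b2⟩ := h3 _ (right_ne_zero_of_mul hx)
    refine ⟨vlfs_bd_add a1 b1, fun i j => ?_⟩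
    obtain ⟨z, hz⟩ := a2 i j
    obtain ⟨w, hw⟩ := b2 i j
    refine ⟨M * z + N * w, ?_⟩
    beta_reduce
    rw [Matrix.add_apply]
    push_cast
    rw [← hz, ← hw]
    ring
  · have s1 := (h2 τ).summable.norm
    have s2 := (h4 τ).summable.norm
    have s3 := summable_mul_of_summable_norm s1 s2
    have s4 := HasSum.mul (h2 τ) (h4 τ) s3
    refine (congrArg (fun u => HasSum u (f τ * g τ)) (funext fun x => ?_)).mp s4
    beta_reduce
    rw [vlfs_pr_add, add_div, ee_add]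
    ring

theorem vlfs_const (a : ℂ) {f : HH ι → ℂ} (hf : FS' f) : FS' (a • f) := by
  obtain ⟨α, c, G, N, hN, h1, h2⟩ := hf
  refine ⟨α, fun x => a * c x, G, N, hN, fun x hx => h1 x (right_ne_zero_of_mul hx), fun τ => ?_⟩
  simp only [mul_assoc]
  exact (h2 τ).mul_left a

theorem vlfs_one : FS' (1 : HH ι → ℂ) :=
  ⟨Unit, fun _ => 1, fun _ => 0, 1, one_ne_zero,
    fun _ _ => ⟨⟨isSymm_zero, fun i j => by simp⟩, fun i j => ⟨0, by simp⟩⟩,
    fun τ => by simp [pr]⟩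

theorem fs'_tq (x : ι ⊕ ι → ℚ) : FS' (tq x) := by
  classical
  let a : ι → ℚ := x ∘ Sum.inl
  let b : ι → ℚ := x ∘ Sum.inr
  have e : tq x = ee (-(fa (rQ x) ⬝ᵥ fb (rQ x)) / 2) •
      fun τ : HH ι => thc τ.1 (rQ (Sum.elim a b)) 0 := by
    rw [Sum.elim_comp_inl_inr]
    rfl
  rw [e]
  refine vlfs_const _ ⟨ι → ℚ, sbc a b, fun y => vecMulVec y y, (∏ i, (a i).den) ^ 2,
    pow_ne_zero _ (Finset.prod_ne_zero_iff.2 fun i _ => (a i).den_ne_zero), fun y hy => ?_,
    fun τ => ?_⟩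
  · refine ⟨⟨?_, fun i j => ?_⟩, fun i j => ?_⟩
    · ext i j
      simp [vecMulVec_apply, mul_comm]
    · have h : ∀ k, y k * y k ≤ (vecMulVec y y).trace := fun k =>
        Finset.single_le_sum (f := fun k => y k * y k) (fun k _ => mul_self_nonneg _)
          (Finset.mem_univ k)
      have hi := h i
      have hj := h j
      beta_reduce
      rw [vecMulVec_apply, abs_le]
      constructor <;> nlinarith [sq_nonneg (y i + y j), sq_nonneg (y i - y j)]
    · have h : ∀ k, ∃ z : ℤ, ((∏ i, (a i).den : ℕ) : ℚ) * y k = z := fun k => by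
        have h1 : ∀ i, ∃ z : ℤ, y i = z + a i := by
          by_contra hn
          exact hy (if_neg hn)
        obtain ⟨z, hz⟩ := h1 k
        obtain ⟨w, hw⟩ := Finset.dvd_prod_of_mem (fun i => (a i).den) (Finset.mem_univ k)
        refine ⟨(∏ i, (a i).den : ℕ) * z + w * (a k).num, ?_⟩
        rw [hz, mul_add, hw]
        push_cast
        rw [← Rat.den_mul_eq_num]
        ring
      obtain ⟨z, hz⟩ := h i
      obtain ⟨w, hw⟩ := h j
      refine ⟨z * w, ?_⟩
      beta_reduce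
      rw [vecMulVec_apply, Nat.cast_pow, Int.cast_mul, ← hz, ← hw]
      ring
  · convert hasSum_sbc τ.2 a b using 5 with y
    simp only [pr, vecMulVec_apply, cq, dotProduct, mulVec, Finset.mul_sum, Rat.cast_mul]
    exact Finset.sum_congr rfl fun i _ => Finset.sum_congr rfl fun j _ => by ring

theorem exists_FS {n : ℕ} {f : HH ι → ℂ} (hf : f ∈ MF ι n) : ∃ c, FS f c := by
  let W : Submodule ℂ (HH ι → ℂ) :=
    { carrier := {f | ∃ c, FS f c}
      zero_mem' := ⟨0, FS.zero⟩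
      add_mem' := fun ⟨c, hc⟩ ⟨d, hd⟩ => ⟨c + d, hc.add hd⟩
      smul_mem' := fun a _ ⟨c, hc⟩ => ⟨a • c, hc.smul a⟩ }
  exact MF_le (W := W) (fun x => FS'.fs (Finset.prod_induction _ FS' (fun _ _ => FS'.mul)
    vlfs_one fun i _ => fs'_tq (x i))) hf

/-- A linear choice of coefficients. -/
theorem exists_FS_linear (n : ℕ) : ∃ L : MF ι n →ₗ[ℂ] (Matrix ι ι ℚ → ℂ), ∀ f, FS f.1 (L f) := by
  let P : Submodule ℂ (MF ι n × (Matrix ι ι ℚ → ℂ)) :=
    { carrier := {p | FS p.1.1 p.2}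
      zero_mem' := FS.zero
      add_mem' := fun h h' => FS.add h h'
      smul_mem' := fun a _ h => FS.smul h a }
  obtain ⟨g, hg⟩ := ((LinearMap.fst ℂ _ _).comp P.subtype).exists_rightInverse_of_surjective
    (LinearMap.range_eq_top.2 fun f => by
      obtain ⟨c, hc⟩ := exists_FS f.2
      exact ⟨⟨(f, c), hc⟩, rfl⟩)
  refine ⟨((LinearMap.snd ℂ _ _).comp P.subtype).comp g, fun f => ?_⟩
  have h1 : (g f).1.1 = f := LinearMap.congr_fun hg f
  have h2 : FS (g f).1.1.1 (g f).1.2 := (g f).2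
  rwa [h1] at h2

end M4
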