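import Mathlib
import Pool.Agent.Lib.MP_33b3f9_ag.M4.VLFs

/-!
Periodic forms; the maximum principle on a half plane.
-/

set_option autoImplicit false

namespace M4

open Complex Matrix

variable {ι : Type} [Fintype ι] {f : HH ι → ℂ} {c : Matrix ι ι ℚ → ℂ}

theorem vlav0_inH {S : Matrix ι ι ℤ} (hS : S.IsSymm) (τ : HH ι) :
    InH (τ.1 + S.map (Int.cast : ℤ → ℂ)) := by
  refine ⟨τ.2.1.add (hS.map _), ?_⟩
  have h : (τ.1 + S.map (Int.cast : ℤ → ℂ)).map im = τ.1.map im := by
    ext i j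
    simp
  rw [h]
  exact τ.2.2

theorem vlav0_pr (τ : Matrix ι ι ℂ) (S : Matrix ι ι ℤ) (T : Matrix ι ι ℚ) :
    pr (τ + S.map (Int.cast : ℤ → ℂ)) T =
      pr τ T + ((∑ i, ∑ j, (S i j : ℚ) * T i j : ℚ) : ℂ) := by
  simp [pr, add_mul, Finset.sum_add_distrib]

open Classical in
theorem vlav0_geom {N : ℕ} (hN : N ≠ 0) {s : ℚ} {z : ℤ} (hz : (N : ℚ) * s = z) :
    (∑ j ∈ Finset.range (2 * N), ee ((s : ℂ) / 2) ^ j) / (2 * N : ℕ) =
      if ∃ z : ℤ, s = 2 * z then 1 else 0 := by
  have h1 : ee ((s : ℂ) / 2) = 1 ↔ ∃ z : ℤ, s = 2 * z := by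
    rw [ee_eq_one_iff]
    refine exists_congr fun k => ?_
    rw [div_eq_iff two_ne_zero, mul_comm]
    exact_mod_cast Iff.rfl
  have h2 : ee ((s : ℂ) / 2) ^ (2 * N) = 1 := by
    have h3 : (N : ℂ) * s = z := by exact_mod_cast hz
    rw [← ee_nat_mul, ← ee_int z, ← h3]
    congr 1
    push_cast
    ring
  split_ifs with h
  · rw [h1.2 h]
    simp only [one_pow, Finset.sum_const, Finset.card_range, nsmul_eq_mul, mul_one]
    exact div_self (Nat.cast_ne_zero.2 (by omega))
  · rw [geom_sum_eq (mt h1.1 h), h2, sub_self, zero_div, zero_div]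

open Classical in
/-- Average the expansions at `τ + j S`, `j < 2 N`: `pr S T / 2 = z / (2 N)` with `z` integral, and
`∑ j < 2 N, ee (j z / (2 N))` is `2 N` or `0` (`geom_sum_eq`, `ee_eq_one_iff`). -/
theorem FS.avg (h : FS f c) {S : Matrix ι ι ℤ} (hS : S.IsSymm)
    (hf : ∀ τ σ : HH ι, σ.1 = τ.1 + S.map (Int.cast : ℤ → ℂ) → f σ = f τ) :
    FS f fun T => if ∃ z : ℤ, ∑ i, ∑ j, (S i j : ℚ) * T i j = 2 * z then c T else 0 := by
  obtain ⟨⟨N, hN, hc⟩, hs⟩ := h
  refine ⟨⟨N, hN, fun T hT => hc T fun h0 => hT (by simp only [h0, ite_self])⟩, fun τ => ?_⟩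
  have h1 : ∀ (k : ℕ) (τ : HH ι), HasSum (fun T => c T * ee (pr τ.1 T / 2) *
      ee (((∑ i, ∑ j, (S i j : ℚ) * T i j : ℚ) : ℂ) / 2) ^ k) (f τ) := by
    intro k
    induction k with
    | zero => simpa using hs
    | succ k ih =>
      intro τ
      have h2 := ih ⟨_, vlav0_inH hS τ⟩
      rw [hf τ _ rfl] at h2
      simpa only [vlav0_pr, add_div, ee_add, pow_succ', mul_assoc] using h2
  have h2 := (hasSum_sum fun k (_ : k ∈ Finset.range (2 * N)) => h1 k τ).div_const
    ((2 * N : ℕ) : ℂ)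
  rw [Finset.sum_const, Finset.card_range, nsmul_eq_mul,
    mul_div_cancel_left₀ _ (Nat.cast_ne_zero.2 (by omega))] at h2
  refine (congrArg (HasSum · (f τ)) (funext fun T => ?_)).mp h2
  by_cases h0 : c T = 0
  · simp [h0]
  · choose z hz using (hc T h0).2
    have h3 : (N : ℚ) * ∑ i, ∑ j, (S i j : ℚ) * T i j = (∑ i, ∑ j, S i j * z i j : ℤ) := by
      push_cast
      simp only [Finset.mul_sum, ← hz, mul_left_comm]
    rw [← Finset.mul_sum, mul_div_assoc, vlav0_geom hN h3]
    simp only [mul_ite, ite_mul, mul_one, mul_zero, zero_mul]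

open Classical in
/-- `FS.avg` for `S = q • (single i j 1 + single j i 1)`, one pair `(i, j)` after the other
(induction on a finset of pairs); `T` is symmetric where `c T ≠ 0`. -/
theorem FS.lat (h : FS f c) (q : ℕ) (hf : ∀ S : Matrix ι ι ℤ, S.IsSymm → ∀ τ σ : HH ι,
      σ.1 = τ.1 + ((q : ℤ) • S).map (Int.cast : ℤ → ℂ) → f σ = f τ) :
    FS f fun T => if ∀ i j, ∃ z : ℤ, (q : ℚ) * T i j = z then c T else 0 := by
  have key : ∀ s : Finset (ι × ι),
      FS f fun T => if ∀ a ∈ s, ∃ z : ℤ, (q : ℚ) * T a.1 a.2 = z then c T else 0 := by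
    intro s
    induction s using Finset.induction_on with
    | empty => simpa using h
    | insert a s _ ih =>
      have hS : (single a.1 a.2 (1 : ℤ) + single a.2 a.1 1).IsSymm := by
        rw [IsSymm, transpose_add, transpose_single, transpose_single, add_comm]
      refine (congrArg (FS f) (funext fun T => ?_)).mp (ih.avg (hS.smul (q : ℤ)) (hf _ hS))
      by_cases h0 : c T = 0
      · simp only [h0, ite_self]
      · obtain ⟨N, -, hc⟩ := h.1
        have h1 : T a.2 a.1 = T a.1 a.2 := (hc T h0).1.1.apply a.1 a.2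
        have h2 : ∀ k l : ι, ∑ i, ∑ j, (((single k l (1 : ℤ) : Matrix ι ι ℤ) i j : ℤ) : ℚ) * T i j =
            T k l := fun k l => by
          simp [single, ite_and]
        have h3 : ∑ i, ∑ j, ((((q : ℤ) • (single a.1 a.2 (1 : ℤ) + single a.2 a.1 1 :
            Matrix ι ι ℤ)) i j : ℤ) : ℚ) * T i j = 2 * (q * T a.1 a.2) := by
          simp only [Matrix.smul_apply, Matrix.add_apply, smul_eq_mul, Int.cast_mul, Int.cast_add,
            Int.cast_natCast, mul_assoc, add_mul, mul_add, Finset.sum_add_distrib,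
            ← Finset.mul_sum, h2, h1]
          ring
        simp only [h3, mul_right_inj' (two_ne_zero' ℚ), Finset.forall_mem_insert, ite_and]
  simpa only [Finset.mem_univ, forall_true_left, Prod.forall] using key Finset.univ

end M4
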