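import Mathlib
import Pool.Agent.Lib.MP_33b3f9_ag.M4.VLAv0

/-!
Periodic forms; the maximum principle on a half plane.
-/

set_option autoImplicit false

namespace M4

open Complex Matrix

variable {ι : Type} [Fintype ι] {f : HH ι → ℂ} {c : Matrix ι ι ℚ → ℂ}

theorem vlav_pr [DecidableEq ι] (τ : Matrix ι ι ℂ) (w : ℂ) (T : Matrix ι ι ℚ) :
    pr (τ + w • (1 : Matrix ι ι ℂ)) T = pr τ T + w * (T.trace : ℚ) := by
  simp only [pr, Matrix.add_apply, Matrix.smul_apply, smul_eq_mul, add_mul, Finset.sum_add_distrib,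
    Matrix.trace, Matrix.diag_apply, Rat.cast_sum, Finset.mul_sum, Matrix.one_apply, mul_ite,
    mul_one, mul_zero, ite_mul, zero_mul, Finset.sum_ite_eq, Finset.mem_univ, if_true]

/-- `φ w = ∑' T, c T * ee (pr τ T / 2) * ee (w * (trace T - l) / 2)` equals
`f (τ + w) * ee (-l w / 2)`. On `im w ≥ -b` the terms are bounded by their norms at `w = -b I`
(summable by the expansion at `τ - b I`), so `φ` is bounded, continuous, and holomorphic inside
(`differentiableOn_tsum_of_summable_norm`, `continuousOn_tsum`).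
`PhragmenLindelof.right_half_plane_of_bounded_on_real` for `z ↦ φ (I * z - b * I)`. -/
theorem FS.decay [DecidableEq ι] (h : FS f c) {l b M : ℝ} (hb : 0 < b)
    (hl : ∀ T, c T ≠ 0 → l ≤ (T.trace : ℚ)) (τ : HH ι)
    (hτ : ∀ w : ℂ, -b ≤ w.im → InH (τ.1 + w • (1 : Matrix ι ι ℂ)))
    (hM : ∀ (σ : HH ι) (t : ℝ), σ.1 = τ.1 + ((t : ℂ) - b * I) • (1 : Matrix ι ι ℂ) → ‖f σ‖ ≤ M) :
    ‖f τ‖ ≤ M * Real.exp (-(Real.pi * b * l)) := by
  have hσ : ∀ z : ℂ, 0 ≤ z.re → InH (τ.1 + (I * z - b * I) • (1 : Matrix ι ι ℂ)) :=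
    fun z hz => hτ _ (by simpa using hz)
  set a : Matrix ι ι ℚ → ℂ :=
    fun T => c T * ee (pr (τ.1 + (I * 0 - b * I) • (1 : Matrix ι ι ℂ)) T / 2) with ha
  have hsa : Summable fun T => ‖a T‖ := (h.2 ⟨_, hσ 0 le_rfl⟩).summable.norm
  set F : Matrix ι ι ℚ → ℂ → ℂ :=
    fun T z => a T * exp (-(Real.pi * (((T.trace : ℚ) : ℝ) - l) : ℝ) * z) with hF
  have hle : ∀ T z, 0 ≤ z.re → ‖F T z‖ ≤ ‖a T‖ := by
    intro T z hz
    by_cases h0 : c T = 0
    · simp [hF, ha, h0]
    rw [hF, norm_mul, norm_exp]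
    refine mul_le_of_le_one_right (norm_nonneg _) (Real.exp_le_one_iff.2 ?_)
    rw [← ofReal_neg, re_ofReal_mul]
    exact mul_nonpos_of_nonpos_of_nonneg
      (neg_nonpos.2 (mul_nonneg Real.pi_pos.le (sub_nonneg.2 (hl T h0)))) hz
  have hd : ∀ T, Differentiable ℂ (F T) := fun T => by rw [hF]; fun_prop
  have hval : ∀ z (hz : 0 ≤ z.re),
      ∑' T, F T z = f ⟨_, hσ z hz⟩ * exp ((Real.pi * l : ℝ) * z) := by
    intro z hz
    rw [← ((h.2 ⟨_, hσ z hz⟩).mul_right (exp ((Real.pi * l : ℝ) * z))).tsum_eq]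
    refine tsum_congr fun T => ?_
    simp only [hF, ha, vlav_pr, ee, mul_assoc, ← exp_add]
    congr 2
    push_cast
    linear_combination (-(Real.pi : ℂ) * z * (T.trace : ℚ)) * I_mul_I
  have hbd : ∀ z : ℂ, 0 ≤ z.re → ‖∑' T, F T z‖ ≤ ∑' T, ‖a T‖ := fun z hz =>
    tsum_of_norm_bounded hsa.hasSum fun T => hle T z hz
  have hPL := PhragmenLindelof.right_half_plane_of_bounded_on_real (f := fun z => ∑' T, F T z)
    (C := M) (z := b)
    ⟨differentiableOn_tsum_of_summable_norm hsa (fun T => (hd T).differentiableOn)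
      (isOpen_lt continuous_const continuous_re) fun T z hz => hle T z (le_of_lt hz), by
      rw [closure_setOfPred_lt_re]
      exact continuousOn_tsum (fun T => (hd T).continuous.continuousOn) hsa
        fun T z hz => hle T z hz⟩
    ⟨0, two_pos, 0, Asymptotics.IsBigO.of_bound (∑' T, ‖a T‖) (by
      refine Filter.eventually_inf_principal.2 (Filter.Eventually.of_forall fun z hz => ?_)
      simpa using hbd z (le_of_lt hz))⟩
    ⟨∑' T, ‖a T‖, by
      rw [Filter.eventually_map]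
      filter_upwards [Filter.eventually_ge_atTop 0] with x hx
      exact hbd x (by simpa using hx)⟩
    (fun x => by
      have hx : 0 ≤ ((x : ℂ) * I).re := by simp
      rw [hval _ hx, norm_mul, norm_exp]
      have h1 : (((Real.pi * l : ℝ) : ℂ) * (x * I)).re = 0 := by rw [re_ofReal_mul]; simp
      rw [h1, Real.exp_zero, mul_one]
      refine hM _ (-x) ?_
      have h2 : I * (x * I) - b * I = ((-x : ℝ) : ℂ) - b * I := by
        push_cast
        linear_combination (x : ℂ) * I_mul_I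
      rw [← h2])
    (by simpa using hb.le)
  have hb' : 0 ≤ (b : ℂ).re := by simpa using hb.le
  have h3 : (⟨_, hσ b hb'⟩ : HH ι) = τ := Subtype.ext (by
    change τ.1 + (I * b - b * I) • (1 : Matrix ι ι ℂ) = τ.1
    rw [mul_comm, sub_self, zero_smul, add_zero])
  rw [hval _ hb', h3, norm_mul, norm_exp, re_ofReal_mul, ofReal_re] at hPL
  rw [Real.exp_neg, ← div_eq_mul_inv, le_div_iff₀ (Real.exp_pos _),
    show Real.pi * b * l = Real.pi * l * b by ring]
  exact hPL

/-- Inject into `Sym2 ι → Icc (-(q l)) (q l)` by `T ↦ q T i j`. -/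
theorem card_lat [DecidableEq ι] {q : ℕ} (hq : q ≠ 0) (l : ℕ) : ∃ s : Finset (Matrix ι ι ℚ),
    s.card ≤ (2 * q * l + 1) ^ Fintype.card (Sym2 ι) ∧ ∀ T : Matrix ι ι ℚ, Bd T →
      (∀ i j, ∃ z : ℤ, (q : ℚ) * T i j = z) → T.trace ≤ l → T ∈ s := by
  have hq' : (q : ℚ) ≠ 0 := Nat.cast_ne_zero.2 hq
  refine ⟨(Fintype.piFinset fun _ : Sym2 ι => Finset.Icc (-(q * l : ℤ)) (q * l)).image
    fun n => Matrix.of fun i j => (n s(i, j) : ℚ) / q, Finset.card_image_le.trans ?_, ?_⟩
  · rw [Fintype.card_piFinset, Finset.prod_const, Finset.card_univ, Int.card_Icc]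
    refine Nat.pow_le_pow_left ?_ _
    rw [show (q * l + 1 - -(q * l) : ℤ) = ((2 * q * l + 1 : ℕ) : ℤ) by push_cast; ring,
      Int.toNat_natCast]
  · intro T hT hz hl
    choose z hz using hz
    have hs : ∀ i j, z i j = z j i := fun i j => by
      have : (z i j : ℚ) = z j i := by rw [← hz, ← hz, hT.1.apply]
      exact_mod_cast this
    refine Finset.mem_image.2 ⟨Sym2.lift ⟨z, hs⟩, Fintype.mem_piFinset.2 fun p => ?_, ?_⟩
    · induction p using Sym2.ind with
      | _ i j =>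
        have h1 : |(z i j : ℚ)| ≤ q * l := by
          rw [← hz, abs_mul, Nat.abs_cast]
          exact mul_le_mul_of_nonneg_left ((hT.2 i j).trans hl) (Nat.cast_nonneg _)
        have h2 : |z i j| ≤ (q * l : ℤ) := by exact_mod_cast h1
        simpa [abs_le] using h2
    · ext i j
      simp only [Matrix.of_apply, Sym2.lift_mk, ← hz]
      field_simp

end M4
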