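import Mathlib
import Pool.Agent.Lib.MP_33b3f9_ag.M4.VLAv
import Pool.Agent.Lib.MP_33b3f9_ag.M4.Red
import Pool.Agent.Lib.MP_33b3f9_ag.M4.MFLev
import Pool.Agent.Lib.MP_33b3f9_ag.M4.MFHol

/-!
A form that vanishes to high order at all cusps is zero.
-/

set_option autoImplicit false

namespace M4

open Complex Matrix

variable {ι : Type} [Fintype ι]

/-- The maximum of the theta function. -/
noncomputable def NN (τ : Matrix ι ι ℂ) : ℝ := ⨆ x, ‖Th τ x‖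

theorem le_NN {τ : Matrix ι ι ℂ} (hτ : InH τ) (x : ι ⊕ ι → ℝ) : ‖Th τ x‖ ≤ NN τ := by
  classical
  obtain ⟨C, hC⟩ := Gam.bounded (Th_mem hτ)
  have hb : BddAbove (Set.range fun x => ‖Th τ x‖) := ⟨C, by rintro _ ⟨x, rfl⟩; exact hC x⟩
  exact le_ciSup hb x

/-- `null_low`. -/
theorem NN_low (ι : Type) [Fintype ι] :
    ∃ c : ℝ, 0 < c ∧ ∀ τ : Matrix ι ι ℂ, InH τ → c ≤ NN τ := by
  refine ⟨((2 : ℝ) ^ Fintype.card ι)⁻¹, by positivity, fun τ hτ => ?_⟩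
  obtain ⟨e, he⟩ := null_low hτ
  refine le_trans ?_ (le_NN hτ (hf (bz e)))
  have h2 : (1 : ℝ) ≤ 2 ^ Fintype.card ι := one_le_pow₀ (by norm_num)
  rcases le_total 1 ‖Th τ (hf (bz e))‖ with h | h
  · exact (inv_le_one_of_one_le₀ h2).trans h
  · rw [inv_le_iff_one_le_mul₀' (by positivity)]
    exact he.trans (mul_le_mul_of_nonneg_left
      (pow_le_of_le_one (norm_nonneg _) h (by norm_num)) (by positivity))

/-- `norm_Th_bound`. -/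
theorem NN_up {c : ℝ} (hc : 0 < c) : ∃ C : ℝ, ∀ τ : Matrix ι ι ℂ, InH τ →
    (∀ v : ι → ℝ, c * (v ⬝ᵥ v) ≤ v ⬝ᵥ τ.map im *ᵥ v) → NN τ ≤ C := by
  obtain ⟨C, hC⟩ := norm_Th_bound (ι := ι) hc
  exact ⟨C, fun τ hτ hv => ciSup_le (hC τ hτ hv)⟩

variable [DecidableEq ι]

theorem vlvan0_inv {γ : Matrix (ι ⊕ ι) (ι ⊕ ι) ℤ} (hγ : γ ∈ symplecticGroup ι ℤ) :
    ∃ δ ∈ symplecticGroup ι ℤ, γ * δ = 1 ∧ δ * γ = 1 := by
  let g : symplecticGroup ι ℤ := ⟨γ, hγ⟩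
  exact ⟨(g⁻¹ : symplecticGroup ι ℤ), g⁻¹.2, congrArg Subtype.val (mul_inv_cancel g),
    congrArg Subtype.val (inv_mul_cancel g)⟩

omit [Fintype ι] in
theorem vlvan0_mz_one : mz (1 : Matrix (ι ⊕ ι) (ι ⊕ ι) ℤ) = 1 :=
  Matrix.map_one _ Int.cast_zero Int.cast_one

/-- `law_unif`: `x ↦ γ x` and `x ↦ x + hf k` are bijections. -/
theorem NN_act {γ : Matrix (ι ⊕ ι) (ι ⊕ ι) ℤ} (hγ : γ ∈ symplecticGroup ι ℤ) {τ : Matrix ι ι ℂ}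
    (hτ : InH τ) : NN (act (mz γ) τ) ^ 8 = ‖wt (mz γ) τ‖ * NN τ ^ 8 := by
  obtain ⟨k, hk⟩ := law_unif hγ
  obtain ⟨c, hc, h⟩ := hk τ hτ
  obtain ⟨δ, -, hδ⟩ := vlvan0_inv hγ
  have hτ' := inH_act (sim_mz_iff.2 hγ) one_pos hτ
  have hn : ∀ x, ‖Th (act (mz γ) τ) (mz γ *ᵥ x)‖ = ‖c‖ * ‖Th τ (x + hf k)‖ := fun x => by
    have e : ((1 : ℝ) : ℂ) * (E (hf k) x : ℝ) / 2 = ((E (hf k) x / 2 : ℝ) : ℂ) := by
      push_cast; ring
    rw [h, norm_mul, U, norm_mul, e, norm_ee_real, one_mul]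
  have key : NN (act (mz γ) τ) = ‖c‖ * NN τ := by
    refine le_antisymm (ciSup_le fun y => ?_) ?_
    · have e : y = mz γ *ᵥ (mz δ *ᵥ y) := by
        rw [mulVec_mulVec, ← mz_mul, hδ.1, vlvan0_mz_one, one_mulVec]
      rw [e, hn]
      exact mul_le_mul_of_nonneg_left (le_NN hτ _) (norm_nonneg _)
    · rw [NN, Real.mul_iSup_of_nonneg (norm_nonneg c)]
      refine ciSup_le fun x => ?_
      have := le_NN hτ' (mz γ *ᵥ (x - hf k))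
      rwa [hn, sub_add_cancel] at this
  rw [key, mul_pow, ← norm_pow, hc]

/-- The bound `M` for all translates of `f`. -/
def Adm' (k : ℕ) (f : HH ι → ℂ) (M : ℝ) : Prop :=
  ∀ γ ∈ symplecticGroup ι ℤ, ∀ τ : HH ι, ‖slash k (mz γ) f τ‖ ≤ M * NN τ.1 ^ (8 * k)

/-- It is enough to check the bound on a set that meets every orbit: for `τ' = δ τ`,
`slash k γ f τ = slash k (γ δ⁻¹) f τ' / wt δ τ ^ k` (`slash_mul`), and `NN_act`. -/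
theorem adm_of_red {k : ℕ} {f : HH ι → ℂ} {M : ℝ} {s : Set (HH ι)}
    (hs : ∀ τ : HH ι, ∃ δ ∈ symplecticGroup ι ℤ, aH (mz δ) τ ∈ s)
    (h : ∀ γ ∈ symplecticGroup ι ℤ, ∀ τ ∈ s, ‖slash k (mz γ) f τ‖ ≤ M * NN τ.1 ^ (8 * k)) :
    Adm' k f M := by
  intro γ hγ τ
  obtain ⟨δ, hδ, hτ⟩ := hs τ
  obtain ⟨δ', hδ', hi⟩ := vlvan0_inv hδ
  have hm := Submonoid.mul_mem _ hγ hδ'
  have e : mz γ = mz (γ * δ') * mz δ := by rw [← mz_mul, mul_assoc, hi.2, mul_one]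
  have h1 := h _ hm _ hτ
  have hw : 0 < ‖wt (mz δ) τ.1‖ ^ k :=
    pow_pos (norm_pos_iff.2 (wt_ne_zero (sim_mz_iff.2 hδ) one_pos τ.2)) k
  rw [aH_val (sim_mz_iff.2 hδ) one_pos, pow_mul, NN_act hδ τ.2, mul_pow, ← pow_mul] at h1
  rw [e, slash_mul (sim_mz_iff.2 hm) one_pos (sim_mz_iff.2 hδ) one_pos, slash_apply, norm_div,
    norm_pow, div_le_iff₀ hw]
  exact h1.trans_eq (by ring)

end M4
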