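import Mathlib
import Pool.Agent.Lib.MP_33b3f9_ag.M4.VLVan0

/-!
A form that vanishes to high order at all cusps is zero.
-/

set_option autoImplicit false

namespace M4

open Complex Matrix

variable {ι : Type} [Fintype ι]

variable [DecidableEq ι]

/-- Points with imaginary part at least `c`. -/
def vlvan_S (ι : Type) [Fintype ι] (c : ℝ) : Set (HH ι) :=
  {τ | ∀ v : ι → ℝ, c * (v ⬝ᵥ v) ≤ v ⬝ᵥ τ.1.map im *ᵥ v}

theorem vlvan_red (ι : Type) [Fintype ι] [DecidableEq ι] : ∃ c : ℝ, 0 < c ∧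
    ∀ τ : HH ι, ∃ δ ∈ symplecticGroup ι ℤ, aH (mz δ) τ ∈ vlvan_S ι c := by
  obtain ⟨c, hc, h⟩ := siegel_red' ι
  refine ⟨c, hc, fun τ => ?_⟩
  obtain ⟨δ, hδ, h1⟩ := h τ.1 τ.2
  refine ⟨δ, hδ, fun v => ?_⟩
  rw [aH_val (sim_mz_iff.2 hδ) one_pos]
  exact h1 v

omit [Fintype ι] in
theorem vlvan_im (τ : Matrix ι ι ℂ) (w : ℂ) :
    (τ + w • (1 : Matrix ι ι ℂ)).map im = τ.map im + w.im • (1 : Matrix ι ι ℝ) := by
  ext i j
  by_cases h : i = j <;> simp [one_apply, h]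

theorem vlvan_low {b : ℝ} {τ : HH ι} (hτ : τ ∈ vlvan_S ι (2 * b)) {w : ℂ} (hw : -b ≤ w.im)
    (v : ι → ℝ) : b * (v ⬝ᵥ v) ≤ v ⬝ᵥ (τ.1 + w • (1 : Matrix ι ι ℂ)).map im *ᵥ v := by
  have h1 := hτ v
  have h2 : 0 ≤ v ⬝ᵥ v := Finset.sum_nonneg fun i _ => mul_self_nonneg (v i)
  rw [vlvan_im, add_mulVec, dotProduct_add, smul_mulVec, one_mulVec, dotProduct_smul, smul_eq_mul]
  nlinarith [mul_le_mul_of_nonneg_right hw h2]

theorem vlvan_inH {b : ℝ} (hb : 0 < b) {τ : HH ι} (hτ : τ ∈ vlvan_S ι (2 * b)) {w : ℂ}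
    (hw : -b ≤ w.im) : InH (τ.1 + w • (1 : Matrix ι ι ℂ)) := by
  refine ⟨τ.2.1.add (isSymm_one.smul w), PosDef.of_dotProduct_mulVec_pos ?_ fun v hv => ?_⟩
  · rw [vlvan_im]
    refine τ.2.2.1.add ?_
    rw [IsHermitian, conjTranspose_smul, conjTranspose_one, star_trivial]
  · have h1 : 0 < v ⬝ᵥ v := by
      simpa using dotProduct_self_star_pos_iff.2 hv
    rw [star_trivial]
    exact (mul_pos hb h1).trans_le (vlvan_low hτ hw v)

/-- Finitely many translates (`slash_congr`, residues modulo `q`), each bounded on the reduced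
points (`MF.bound`, `slash_mem_sp`, `siegel_red'`), `NN_low`. -/
theorem exists_adm {q k : ℕ} (hq : q ≠ 0) {f : HH ι → ℂ} (hf : f ∈ MI {γ | Lv q γ} k) :
    ∃ M, Adm' k f M := by
  obtain ⟨c, hc, hred⟩ := vlvan_red ι
  obtain ⟨c0, hc0, hlow⟩ := NN_low ι
  have : NeZero q := ⟨hq⟩
  choose B hB using fun γ : symplecticGroup ι ℤ => MF.bound (slash_mem_sp γ.2 hf.1) hc
  let F : symplecticGroup ι ℤ → Matrix (ι ⊕ ι) (ι ⊕ ι) (ZMod q) := fun γ =>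
    γ.1.map (Int.cast : ℤ → ZMod q)
  refine ⟨(∑ ρ, |B (Function.invFun F ρ)|) / c0 ^ (8 * k), adm_of_red hred fun γ hγ τ hτ => ?_⟩
  have e : F (Function.invFun F (F ⟨γ, hγ⟩)) = F ⟨γ, hγ⟩ := Function.invFun_eq ⟨_, rfl⟩
  have h1 : slash k (mz γ) f = slash k (mz (Function.invFun F (F ⟨γ, hγ⟩)).1) f :=
    slash_congr hf hγ (Function.invFun F (F ⟨γ, hγ⟩)).2 fun i j =>
      (ZMod.intCast_eq_intCast_iff_dvd_sub _ _ q).1 (congrFun (congrFun e i) j)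
  have h2 : ‖slash k (mz γ) f τ‖ ≤ ∑ ρ, |B (Function.invFun F ρ)| := by
    rw [h1]
    exact ((hB _ τ hτ).trans (le_abs_self _)).trans (Finset.single_le_sum
      (f := fun ρ => |B (Function.invFun F ρ)|) (fun _ _ => abs_nonneg _) (Finset.mem_univ _))
  refine h2.trans ?_
  rw [div_mul_eq_mul_div, le_div_iff₀ (pow_pos hc0 _)]
  exact mul_le_mul_of_nonneg_left (pow_le_pow_left₀ hc0.le (hlow _ τ.2) _)
    ((norm_nonneg _).trans h2)

theorem vlvan_const {b c0 : ℝ} (hb : 0 < b) (hc0 : 0 < c0) (C0 : ℝ) : ∃ C : ℕ, ∀ k : ℕ,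
    C0 ^ (8 * k) * Real.exp (-(Real.pi * b * ((C * (k + 1) : ℕ) : ℝ))) ≤ c0 ^ (8 * k) / 2 := by
  have hp : 0 < Real.pi * b := mul_pos Real.pi_pos hb
  obtain ⟨C, hC⟩ := exists_nat_ge (((C0 / c0) ^ 8 + 2) / (Real.pi * b))
  refine ⟨C, fun k => ?_⟩
  rw [div_le_iff₀ hp] at hC
  have h0 : 0 ≤ (C0 / c0) ^ 8 := by positivity
  have h1 : (C0 / c0) ^ 8 + 2 ≤ Real.exp (Real.pi * b * C) := by
    have := Real.add_one_le_exp (Real.pi * b * C)
    linarith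
  have h2 : ((C0 / c0) ^ 8) ^ k * 2 ≤ Real.exp (Real.pi * b * ((C * (k + 1) : ℕ) : ℝ)) := by
    rw [Nat.cast_mul, ← mul_assoc, mul_comm _ ((k + 1 : ℕ) : ℝ), Real.exp_nat_mul, pow_succ]
    exact mul_le_mul (pow_le_pow_left₀ h0 (by linarith) k) (by linarith) (by norm_num)
      (pow_nonneg (Real.exp_pos _).le k)
  rw [← pow_mul, div_pow, div_mul_eq_mul_div, div_le_iff₀ (pow_pos hc0 _)] at h2
  rw [Real.exp_neg, ← div_eq_mul_inv, div_le_div_iff₀ (Real.exp_pos _) two_pos, mul_comm (c0 ^ _)]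
  exact h2

/-- Let `c` be as in `siegel_red'`, `b = c / 2`, `c₀ ≤ NN`, `NN ≤ C₀` on `im ≥ b`. If `M` is
admissible then at reduced `τ`, by `FS.decay`,
`‖slash f τ‖ ≤ M C₀ ^ (8 k) exp (-π b C (k + 1)) ≤ M / 2 * c₀ ^ (8 k)` for `C` large. So `M / 2` is
admissible, and all `M / 2 ^ j`. -/
theorem eq_zero_of_van (ι : Type) [Fintype ι] [DecidableEq ι] : ∃ C : ℕ, ∀ (q k : ℕ), q ≠ 0 →
    ∀ f ∈ MI (ι := ι) {γ | Lv q γ} k, (∀ γ ∈ symplecticGroup ι ℤ, ∃ c, FS (slash k (mz γ) f) c ∧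
      ∀ T, c T ≠ 0 → ((C * (k + 1) : ℕ) : ℚ) ≤ T.trace) → f = 0 := by
  obtain ⟨c, hc, hred⟩ := vlvan_red ι
  obtain ⟨b, rfl⟩ : ∃ b, c = 2 * b := ⟨c / 2, by ring⟩
  have hb : 0 < b := by linarith
  obtain ⟨c0, hc0, hlow⟩ := NN_low ι
  obtain ⟨C0, hup⟩ := NN_up (ι := ι) hb
  obtain ⟨C, hC⟩ := vlvan_const hb hc0 |C0|
  refine ⟨C, fun q k hq f hf hv => ?_⟩
  have hpos : ∀ τ : HH ι, 0 < NN τ.1 ^ (8 * k) := fun τ => pow_pos (hc0.trans_le (hlow _ τ.2)) _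
  have key : ∀ M, Adm' k f M → Adm' k f (M / 2) := fun M hM =>
    adm_of_red hred fun γ hγ τ hτ => by
      have hM0 : 0 ≤ M := nonneg_of_mul_nonneg_left ((norm_nonneg _).trans (hM γ hγ τ)) (hpos τ)
      obtain ⟨a, ha, ha'⟩ := hv γ hγ
      have h1 := ha.decay (l := ((C * (k + 1) : ℕ) : ℝ)) (M := M * |C0| ^ (8 * k)) hb
        (fun T hT => by exact_mod_cast ha' T hT) τ (fun w hw => vlvan_inH hb hτ hw)
        fun σ t hσ => (hM γ hγ σ).trans (mul_le_mul_of_nonneg_left (pow_le_pow_left₀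
          (hc0.le.trans (hlow _ σ.2)) ((hup _ σ.2 fun v => by
            rw [hσ]
            exact vlvan_low hτ (by simp) v).trans (le_abs_self _)) _) hM0)
      calc _ ≤ _ := h1
        _ = M * (|C0| ^ (8 * k) * Real.exp (-(Real.pi * b * ((C * (k + 1) : ℕ) : ℝ)))) :=
          mul_assoc _ _ _
        _ ≤ M * (c0 ^ (8 * k) / 2) := mul_le_mul_of_nonneg_left (hC k) hM0
        _ = M / 2 * c0 ^ (8 * k) := by ring
        _ ≤ _ := mul_le_mul_of_nonneg_left (pow_le_pow_left₀ hc0.le (hlow _ τ.2) _)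
          (by linarith)
  obtain ⟨M, hM⟩ := exists_adm hq hf
  have hj : ∀ j : ℕ, Adm' k f (M * (1 / 2) ^ j) := fun j => by
    induction j with
    | zero => simpa using hM
    | succ j ih =>
      have e : M * (1 / 2) ^ (j + 1) = M * (1 / 2) ^ j / 2 := by ring
      rw [e]
      exact key _ ih
  funext τ
  have h1 : mz (1 : Matrix (ι ⊕ ι) (ι ⊕ ι) ℤ) = 1 := Matrix.map_one _ Int.cast_zero Int.cast_one
  have h2 : Filter.Tendsto (fun j : ℕ => M * (1 / 2 : ℝ) ^ j * NN τ.1 ^ (8 * k)) Filter.atTop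
      (nhds (M * 0 * NN τ.1 ^ (8 * k))) :=
    ((tendsto_pow_atTop_nhds_zero_of_lt_one (by norm_num) (by norm_num)).const_mul M).mul_const _
  rw [mul_zero, zero_mul] at h2
  refine norm_le_zero_iff.1 (ge_of_tendsto' h2 fun j => ?_)
  have h3 := hj j 1 (one_mem _) τ
  rwa [h1, slash_one] at h3

end M4
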