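import Mathlib
import Pool.Agent.Lib.MP_33b3f9_ag.M4.VLVan

/-!
The dimension of the spaces of forms.
-/

set_option autoImplicit false

namespace M4

open Complex Matrix

variable {ι : Type} [Fintype ι] [DecidableEq ι]

/-- Choose one symplectic matrix in each residue class modulo `q` that contains one. -/
theorem exists_reps {q : ℕ} (hq : q ≠ 0) : ∃ s : Finset (Matrix (ι ⊕ ι) (ι ⊕ ι) ℤ),
    s.card ≤ q ^ (4 * Fintype.card ι ^ 2) ∧ (∀ δ ∈ s, δ ∈ symplecticGroup ι ℤ) ∧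
    ∀ γ ∈ symplecticGroup ι ℤ, ∃ δ ∈ s, ∀ i j, (q : ℤ) ∣ (γ - δ) i j := by
  classical
  have : NeZero q := ⟨hq⟩
  have h : ∀ r : Matrix (ι ⊕ ι) (ι ⊕ ι) (ZMod q), ∃ δ ∈ symplecticGroup ι ℤ,
      ∀ γ ∈ symplecticGroup ι ℤ, γ.map (Int.cast : ℤ → ZMod q) = r →
        δ.map (Int.cast : ℤ → ZMod q) = r := by
    intro r
    by_cases hr : ∃ γ ∈ symplecticGroup ι ℤ, γ.map (Int.cast : ℤ → ZMod q) = r
    · obtain ⟨γ, hγ, e⟩ := hr
      exact ⟨γ, hγ, fun _ _ _ => e⟩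
    · exact ⟨1, one_mem _, fun γ hγ e => absurd ⟨γ, hγ, e⟩ hr⟩
  choose d hd hd' using h
  refine ⟨Finset.univ.image d, Finset.card_image_le.trans (le_of_eq ?_), ?_, fun γ hγ => ?_⟩
  · have e : Fintype.card (Matrix (ι ⊕ ι) (ι ⊕ ι) (ZMod q)) =
        Fintype.card ((ι ⊕ ι) → (ι ⊕ ι) → ZMod q) := Fintype.card_congr Matrix.of.symm
    rw [Finset.card_univ, e, Fintype.card_fun, Fintype.card_fun, ZMod.card, Fintype.card_sum,
      ← pow_mul]
    congr 1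
    ring
  · intro δ hδ
    obtain ⟨r, -, rfl⟩ := Finset.mem_image.1 hδ
    exact hd r
  · refine ⟨d (γ.map (Int.cast : ℤ → ZMod q)), Finset.mem_image_of_mem d (Finset.mem_univ _),
      fun i j => ?_⟩
    have e := congrFun (congrFun (hd' _ γ hγ rfl) i) j
    rw [Matrix.sub_apply]
    exact (ZMod.intCast_eq_intCast_iff_dvd_sub _ _ _).1 e

/-- `exists_affine` (or directly `fromBlocks 1 0 (-(q • S)) 1`), `wt = 1`. -/
theorem MI.periodic {q k : ℕ} {f : HH ι → ℂ} (hf : f ∈ MI {γ | Lv q γ} k) {S : Matrix ι ι ℤ}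
    (hS : S.IsSymm) (τ σ : HH ι) (h : σ.1 = τ.1 + ((q : ℤ) • S).map (Int.cast : ℤ → ℂ)) :
    f σ = f τ := by
  have hK : (-((q : ℤ) • S)).IsSymm := (hS.smul _).neg
  have hγ := lower_mem hK
  have hl : Lv q (fromBlocks 1 0 (-((q : ℤ) • S)) 1 : Matrix (ι ⊕ ι) (ι ⊕ ι) ℤ) := by
    rintro (i | i) (j | j)
    · simp [Matrix.one_apply]
    · simp
    · refine ⟨-S i j, ?_⟩
      rw [Matrix.sub_apply, fromBlocks_apply₂₁, Matrix.neg_apply, Matrix.smul_apply,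
        Matrix.one_apply_ne Sum.inr_ne_inl, smul_eq_mul, sub_zero, mul_neg]
    · simp [Matrix.one_apply]
  have h1 := congrFun (hf.2 _ hl hγ) τ
  have b11 : (mz (fromBlocks 1 0 (-((q : ℤ) • S)) 1)).toBlocks₁₁.map ofReal =
      (1 : Matrix ι ι ℂ) := by
    ext i j
    simp [mz, toBlocks₁₁, Matrix.one_apply, apply_ite]
  have b12 : (mz (fromBlocks 1 0 (-((q : ℤ) • S)) 1)).toBlocks₁₂.map ofReal =
      (0 : Matrix ι ι ℂ) := by
    ext i j
    simp [mz, toBlocks₁₂]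
  have b21 : (mz (fromBlocks 1 0 (-((q : ℤ) • S)) 1)).toBlocks₂₁.map ofReal =
      -((q : ℤ) • S).map (Int.cast : ℤ → ℂ) := by
    ext i j
    simp [mz, toBlocks₂₁]
  have b22 : (mz (fromBlocks 1 0 (-((q : ℤ) • S)) 1)).toBlocks₂₂.map ofReal =
      (1 : Matrix ι ι ℂ) := by
    ext i j
    simp [mz, toBlocks₂₂, Matrix.one_apply, apply_ite]
  have e : aH (mz (fromBlocks 1 0 (-((q : ℤ) • S)) 1)) τ = σ := by
    apply Subtype.ext
    rw [aH_val (sim_mz_iff.2 hγ) one_pos, h, act, b11, b12, b21, b22]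
    simp
  rw [slash_apply, e, wt_mz hγ, den, b11, b12] at h1
  simpa using h1

/-- The linear map `f ↦ (L (slash k δ f) T)`, `δ` in `exists_reps`, `T` in `card_lat` with
`l = C (k + 1)`, is injective: `FS.lat`, `MI.periodic`, `slash_mem_MI`, `slash_congr`,
`eq_zero_of_van`. -/
theorem dim_MI (ι : Type) [Fintype ι] [DecidableEq ι] : ∃ C : ℕ, ∀ (q k : ℕ), q ≠ 0 →
    Module.Finite ℂ (MI (ι := ι) {γ | Lv q γ} k) ∧
    Module.finrank ℂ (MI (ι := ι) {γ | Lv q γ} k) ≤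
      q ^ (4 * Fintype.card ι ^ 2) * (C * q) ^ Fintype.card (Sym2 ι) *
        (k + 1) ^ Fintype.card (Sym2 ι) := by
  classical
  obtain ⟨C, hC⟩ := eq_zero_of_van ι
  refine ⟨2 * C + 1, fun q k hq => ?_⟩
  obtain ⟨s, hs, hs1, hs2⟩ := exists_reps (ι := ι) hq
  obtain ⟨t, ht, ht1⟩ := card_lat (ι := ι) hq (C * (k + 1))
  obtain ⟨L, hL⟩ := exists_FS_linear (ι := ι) (8 * k)
  let A : s → MI (ι := ι) {γ | Lv q γ} k →ₗ[ℂ] MF ι (8 * k) := fun δ =>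
    (slash k (mz δ.1)).restrict fun f hf => slash_mem_sp (hs1 δ.1 δ.2) hf.1
  let Φ : MI (ι := ι) {γ | Lv q γ} k →ₗ[ℂ] (s × t → ℂ) :=
    LinearMap.pi fun p => (LinearMap.proj p.2.1).comp (L.comp (A p.1))
  have hΦ : Function.Injective Φ := by
    rw [injective_iff_map_eq_zero]
    intro f hf
    refine Subtype.ext (hC q k hq f.1 f.2 fun γ hγ => ?_)
    obtain ⟨δ, hδ, hγδ⟩ := hs2 γ hγ
    rw [slash_congr f.2 hγ (hs1 δ hδ) hγδ]
    have h1 : FS (slash k (mz δ) f.1) (L (A ⟨δ, hδ⟩ f)) := hL (A ⟨δ, hδ⟩ f)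
    have h2 := h1.lat q fun S hS τ σ h => MI.periodic (slash_mem_MI f.2 (hs1 δ hδ)) hS τ σ h
    refine ⟨_, h2, fun T hT => ?_⟩
    by_contra hlt
    by_cases hz : ∀ i j, ∃ z : ℤ, (q : ℚ) * T i j = z
    · rw [if_pos hz] at hT
      obtain ⟨N, -, hN⟩ := h1.1
      exact hT (congrFun hf (⟨δ, hδ⟩, ⟨T, ht1 T (hN T hT).1 hz (not_le.1 hlt).le⟩))
    · exact hT (if_neg hz)
  refine ⟨Module.Finite.of_injective Φ hΦ, (LinearMap.finrank_le_finrank_of_injective hΦ).trans ?_⟩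
  rw [Module.finrank_fintype_fun_eq_card, Fintype.card_prod, Fintype.card_coe, Fintype.card_coe,
    mul_assoc, ← mul_pow]
  refine Nat.mul_le_mul hs (ht.trans (Nat.pow_le_pow_left ?_ _))
  have : 1 ≤ q * (k + 1) := Nat.mul_pos (Nat.pos_of_ne_zero hq) k.succ_pos
  nlinarith

end M4
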