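import Mathlib
import Pool.Agent.Lib.MP_33b3f9_ag.M4.IDefs
import Pool.Agent.Lib.MP_33b3f9_ag.M4.VLMain
import Pool.Agent.Lib.MP_33b3f9_ag.M4.MFInt
import Pool.Agent.Lib.MP_33b3f9_ag.M4.MFGen
import Pool.Agent.Lib.MP_33b3f9_ag.M4.GrC

/-!
Rings of invariant forms are finite over the polynomial ring of the projection.
-/

set_option autoImplicit false

namespace M4

open Complex Matrix Polynomial

variable {y : Matrix (Fin 11) Bits ℂ}

/-- The coordinates of the projection as functions on the Siegel space. -/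
noncomputable def yH (y : Matrix (Fin 11) Bits ℂ) (i : Fin 11) : HH (Fin 4) → ℂ :=
  fun τ => lin y τ.1 i

theorem aeval_yH (φ : MvPolynomial (Fin 11) ℂ) (τ : HH (Fin 4)) :
    MvPolynomial.aeval (yH y) φ τ = MvPolynomial.eval (lin y τ.1) φ := by
  induction φ using MvPolynomial.induction_on with
  | C a => simp
  | add p q hp hq => rw [map_add, map_add, Pi.add_apply, hp, hq]
  | mul_X p i hp =>
    rw [map_mul, map_mul, Pi.mul_apply, hp, MvPolynomial.aeval_X, MvPolynomial.eval_X]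
    rfl

theorem yH_mem (i : Fin 11) : yH y i ∈ Submodule.span ℂ (Set.range (t2 (ι := Fin 4))) := by
  have h : yH y i = ∑ e, y i e • t2 e := by
    funext τ
    rw [Finset.sum_apply]
    rfl
  rw [h]
  exact Submodule.sum_mem _ fun e _ => Submodule.smul_mem _ _ (Submodule.subset_span ⟨e, rfl⟩)

/-- A form of degree `n` in the `yH y i` is in the `n`-th power of the span of the `t2 e`. -/
theorem aeval_yH_mem {n : ℕ} {φ : MvPolynomial (Fin 11) ℂ} (hφ : φ.IsHomogeneous n) :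
    MvPolynomial.aeval (yH y) φ ∈ Submodule.span ℂ (Set.range (t2 (ι := Fin 4))) ^ n := by
  have hW : Gr.MulFam fun k => Submodule.span ℂ (Set.range (t2 (ι := Fin 4))) ^ k :=
    ⟨by rw [pow_zero]; exact Submodule.one_le.1 le_rfl, fun hf hg => by
      rw [pow_add]; exact Submodule.mul_mem_mul hf hg⟩
  have h := (Gr.mem_rees hW).1 (Gr.Ya_mem_rees hW (y := yH y)
    (fun i => by rw [pow_one]; exact yH_mem i) φ) n
  rwa [Gr.Ya_hom _ hφ, coeff_monomial, if_pos rfl] at h

/-- (Y1). -/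
theorem lin_level {γ : MZ} (hγ : γ ∈ symplecticGroup (Fin 4) ℤ) (h : Lv 8 γ) {τ : Mat}
    (hτ : InH τ) : ∃ c : ℂ, c ^ 8 = wt (mz γ) τ ∧ lin y (act (mz γ) τ) = c • lin y τ := by
  obtain ⟨c, h1, h2⟩ := t2_level hγ h ⟨τ, hτ⟩
  refine ⟨c, h1, ?_⟩
  rw [lin, lin, ← mulVec_smul]
  congr 1
  funext e
  have h3 := h2 e
  rw [t2, aH_val (sim_mz_iff.2 hγ) one_pos] at h3
  exact h3

theorem FinProj.intY (hy : FinProj y) (e : Bits) : Gr.IntY (yH y) (monomial 1 (t2 e)) := by
  obtain ⟨d, c, h1, h2⟩ := hy.1 e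
  refine Gr.intY_iff.2 ⟨d, c, fun k hk => by rw [one_mul]; exact h1 k hk, ?_⟩
  funext τ
  simp only [Pi.add_apply, Pi.pow_apply, Finset.sum_apply, Pi.mul_apply, aeval_yH]
  exact h2 τ.1 τ.2

/-- Every form satisfies a graded monic equation over the ring of the projection. -/
theorem FinProj.gEq (hy : FinProj y) {n : ℕ} {f : HH (Fin 4) → ℂ} (hf : f ∈ MF (Fin 4) n) :
    ∃ d, Gr.GEq (yH y) n d f :=
  Gr.intY_iff.1 (MF.intY hy.intY hf)

end M4
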