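import Mathlib
import Pool.Agent.Lib.MP_33b3f9_ag.M4.Fin0

/-!
Rings of invariant forms are finite over the polynomial ring of the projection.
-/

set_option autoImplicit false

namespace M4

open Complex Matrix Polynomial

variable {y : Matrix (Fin 11) Bits ℂ}

theorem fin_expand_hom {n : ℕ} {φ : MvPolynomial (Fin 11) ℂ} (hφ : φ.IsHomogeneous n) :
    (MvPolynomial.expand 8 φ).IsHomogeneous (8 * n) := by
  have : MvPolynomial.expand 8 φ =
      MvPolynomial.aeval (fun i => (MvPolynomial.X i : MvPolynomial (Fin 11) ℂ) ^ 8) φ := by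
    have h : (MvPolynomial.expand 8 : MvPolynomial (Fin 11) ℂ →ₐ[ℂ] _) =
        MvPolynomial.aeval fun i => (MvPolynomial.X i : MvPolynomial (Fin 11) ℂ) ^ 8 :=
      MvPolynomial.algHom_ext fun i => by simp
    rw [h]
  rw [this]
  exact hφ.aeval _ fun i => MvPolynomial.isHomogeneous_X_pow i 8

theorem fin_aeval (φ : MvPolynomial (Fin 11) ℂ) (τ : HH (Fin 4)) :
    MvPolynomial.aeval (fun i => yH y i ^ 8) φ τ =
      MvPolynomial.eval (lin y τ.1) (MvPolynomial.expand 8 φ) := by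
  have h : (MvPolynomial.aeval fun i => yH y i ^ 8 : MvPolynomial (Fin 11) ℂ →ₐ[ℂ] _) =
      (MvPolynomial.aeval (yH y)).comp (MvPolynomial.expand 8) :=
    MvPolynomial.algHom_ext fun i => by simp
  rw [h, AlgHom.comp_apply, aeval_yH]

theorem fin_pow_mem {n : ℕ} {φ : MvPolynomial (Fin 11) ℂ} (hφ : φ.IsHomogeneous n) :
    MvPolynomial.aeval (yH y) φ ^ 8 ∈ MI (ι := Fin 4) {γ | Lv 8 γ} n := by
  apply span_t2_pow_le n
  rw [mul_comm, pow_mul]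
  exact Submodule.pow_mem_pow _ (aeval_yH_mem hφ) 8

theorem fin_slash {h : MZ} {m : ℕ} (hm : m ≠ 0) (hh : Sim (zr h) m) (n : ℕ)
    (φ : MvPolynomial (Fin 11) ℂ) (τ : HH (Fin 4)) :
    slash n (mz h) (MvPolynomial.aeval (yH y) φ ^ 8) τ =
      MvPolynomial.eval (lin y (act (zr h) τ.1)) φ ^ 8 / wt (zr h) τ.1 ^ n := by
  have hh' : Sim (mz h) m := hh
  rw [slash_apply, Pi.pow_apply, aeval_yH, aH_val hh' (by positivity)]
  rfl

/-- `dim_MI` with `Fintype.card (Sym2 (Fin 4)) = 10` (`Sym2.card`), `MI.anti`, `span_t2_pow_le`;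
independence of the eighth powers by `MvPolynomial.expand`. -/
theorem FinProj.nice : ∃ C : ℕ, ∀ y : Matrix (Fin 11) Bits ℂ, FinProj y → ∀ (q : ℕ) (S : Set MZ),
    q ≠ 0 → (∀ γ, Lv q γ → γ ∈ S) → (∀ γ ∈ S, Lv 8 γ) →
      Gr.Nice (MI S) (fun i => yH y i ^ 8) 10 (C * q ^ 74) := by
  obtain ⟨C, hC⟩ := dim_MI (Fin 4)
  have hs : Fintype.card (Sym2 (Fin 4)) = 10 := by
    rw [Sym2.card, Fintype.card_fin]
    rfl
  rw [hs, Fintype.card_fin] at hC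
  refine ⟨C ^ 10, fun y hy q S hq h1 h2 => ?_⟩
  have hle : ∀ k, MI S k ≤ MI {γ | Lv q γ} k := MI.anti fun γ hγ => h1 γ hγ
  refine ⟨⟨MI.one S, MI.mul⟩, fun i => ?_, by simp, fun k => ?_, fun k => ?_,
    fun hf hg h => MF.mul_eq_zero hf.1 hg.1 h, fun n φ hφ h => ?_,
    fun hf => MF.intY_eight hy.intY hf.1⟩
  · apply MI.anti (S' := {γ | Lv 8 γ}) h2 1
    have := fin_pow_mem (y := y) (MvPolynomial.isHomogeneous_X ℂ i)
    rwa [MvPolynomial.aeval_X] at this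
  · have := (hC q k hq).1
    exact Submodule.finiteDimensional_of_le (hle k)
  · have := (hC q k hq).1
    refine (Submodule.finrank_mono (hle k)).trans ((hC q k hq).2.trans (le_of_eq ?_))
    ring
  · refine (MvPolynomial.expand_eq_zero (p := 8) (by norm_num)).1
      (hy.2 _ _ (fin_expand_hom hφ) fun τ hτ => ?_)
    rw [← fin_aeval φ ⟨τ, hτ⟩, h]
    rfl

/-- (FIN). `Gr.Nice.finite`, `MvPolynomial.expand 8`. -/
theorem fin_MI (hy : FinProj y) {q : ℕ} (hq : q ≠ 0) {S : Set MZ} (h1 : ∀ γ, Lv q γ → γ ∈ S)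
    (h2 : ∀ γ ∈ S, Lv 8 γ) : ∃ (N0 : ℕ) (kk : Fin N0 → ℕ) (gg : Fin N0 → HH (Fin 4) → ℂ),
      (∀ i, gg i ∈ MI S (kk i)) ∧ ∀ k, ∀ f ∈ MI S k, ∃ c : Fin N0 → MvPolynomial (Fin 11) ℂ,
        (∀ i, c i = 0 ∨ (kk i ≤ k ∧ (c i).IsHomogeneous (8 * (k - kk i)))) ∧
        ∀ τ, f τ = ∑ i, MvPolynomial.eval (lin y τ.1) (c i) * gg i τ := by
  obtain ⟨C, hC⟩ := FinProj.nice
  obtain ⟨N, deg, g, hg, h⟩ := (hC y hy q S hq h1 h2).finite
  refine ⟨N, deg, g, hg, fun k f hf => ?_⟩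
  obtain ⟨c, hc, e⟩ := h k f hf
  refine ⟨fun i => MvPolynomial.expand 8 (c i), fun i => ?_, fun τ => ?_⟩
  · rcases hc i with h0 | h0
    · exact Or.inl ((congrArg (MvPolynomial.expand 8) h0).trans (map_zero _))
    · exact Or.inr ⟨h0.1, fin_expand_hom h0.2⟩
  · rw [e, Finset.sum_apply]
    exact Finset.sum_congr rfl fun i _ => by rw [Pi.mul_apply, fin_aeval]

/-- (HN1). `f = slash n (mz h) (aeval (yH y) φ ^ 8)` lies in `MI {Lv (8 m)} n`
(`span_t2_pow_le`, `slash_mem_MI_sim`); `Gr.Nice.gEq`. -/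
theorem hn_one : ∃ C : ℕ, ∀ y : Matrix (Fin 11) Bits ℂ, FinProj y → ∀ (h : MZ) (m : ℕ), m ≠ 0 →
    Sim (zr h) m → ∀ (n : ℕ) (φ : MvPolynomial (Fin 11) ℂ), φ.IsHomogeneous n →
      ∃ D ≤ C * m ^ 74, ∃ c : ℕ → MvPolynomial (Fin 11) ℂ,
        (∀ e < D, (c e).IsHomogeneous (8 * (n * (D - e)))) ∧ ∀ τ, InH τ →
          (MvPolynomial.eval (lin y (act (zr h) τ)) φ ^ 8 / wt (zr h) τ ^ n) ^ D +
            ∑ e ∈ Finset.range D, MvPolynomial.eval (lin y τ) (c e) *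
              (MvPolynomial.eval (lin y (act (zr h) τ)) φ ^ 8 / wt (zr h) τ ^ n) ^ e = 0 := by
  obtain ⟨C, hC⟩ := FinProj.nice
  refine ⟨Nat.factorial (10 + 1) * (C * 8 ^ 74), fun y hy h m hm hh n φ hφ => ?_⟩
  have hN := hC y hy (8 * m) {γ | Lv (8 * m) γ} (by omega) (fun _ hγ => hγ)
    fun _ hγ => Lv.of_dvd hγ (Dvd.intro _ rfl)
  obtain ⟨D, hD, c, hc, e⟩ := hN.gEq (slash_mem_MI_sim (h := h) hm hh (fin_pow_mem (y := y) hφ))
  refine ⟨D, hD.trans (le_of_eq (by rw [mul_pow, mul_assoc, mul_assoc])),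
    fun e => MvPolynomial.expand 8 (c e), fun e he => fin_expand_hom (hc e he), fun τ hτ => ?_⟩
  have e1 := congrFun e ⟨τ, hτ⟩
  rw [Pi.add_apply, Finset.sum_apply, Pi.pow_apply, fin_slash hm hh] at e1
  refine Eq.trans ?_ e1
  congr 1
  exact Finset.sum_congr rfl fun i _ => by
    rw [Pi.mul_apply, Pi.pow_apply, fin_slash hm hh, fin_aeval]

/-- The function depends only on the class of `h` modulo `8 m` (`exists_left_level`). -/
theorem hn_congr {h h' : MZ} {m : ℕ} (hm : m ≠ 0) (hh : Sim (zr h) m) (hh' : Sim (zr h') m)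
    (hq : ∀ i j, ((8 * m : ℕ) : ℤ) ∣ (h' - h) i j) {n : ℕ} {φ : MvPolynomial (Fin 11) ℂ}
    (hφ : φ.IsHomogeneous n) {τ : Mat} (hτ : InH τ) :
    MvPolynomial.eval (lin y (act (zr h') τ)) φ ^ 8 / wt (zr h') τ ^ n =
      MvPolynomial.eval (lin y (act (zr h) τ)) φ ^ 8 / wt (zr h) τ ^ n := by
  obtain ⟨δ, hδ, hl, e⟩ := exists_left_level (h := h) (h' := h') hm hh hh' hq
  have hh1 : Sim (mz h) m := hh
  rw [← fin_slash hm hh' n φ ⟨τ, hτ⟩, ← fin_slash hm hh n φ ⟨τ, hτ⟩, e, mz_mul,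
    slash_mul (sim_mz_iff.2 hδ) one_pos hh1 (by positivity), (fin_pow_mem hφ).2 δ hl hδ]

end M4
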