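import Pool.Agent.Lib.MP_33b3f9_ag.M4.ModGam
import Pool.Agent.Lib.MP_940f24_an.Holo

/-!
The Siegel space as an open subset of a vector space; the theta null map is an immersion.
-/

set_option autoImplicit false

namespace M4.Mo

open Complex Matrix Filter Topology

variable {ι : Type} [Fintype ι] {N : ℕ}

/-- `smat` as a continuous linear map. -/
noncomputable def smatL (ι : Type) [Fintype ι] : (Sym2 ι → ℂ) →L[ℂ] (ι → ι → ℂ) :=
  ContinuousLinearMap.pi fun i => ContinuousLinearMap.pi fun j => ContinuousLinearMap.proj s(i, j)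

omit [Fintype ι] in
theorem smat_symm (t : Sym2 ι → ℂ) (i j : ι) : smat t i j = smat t j i := by
  rw [smat, smat, Sym2.eq_swap]

theorem smatL_apply (t : Sym2 ι → ℂ) : smatL ι t = smat t := rfl

omit [Fintype ι] in
theorem sco_smat (t : Sym2 ι → ℂ) : sco (smat t) = t := by
  funext z
  induction z using Sym2.ind with
  | _ i j =>
    rw [sco, Sym2.lift_mk]
    change (smat t i j + smat t j i) / 2 = smat t i j
    rw [smat_symm t j i]
    ring

omit [Fintype ι] in
theorem smat_sco {τ : ι → ι → ℂ} (h : ∀ i j, τ i j = τ j i) : smat (sco τ) = τ := by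
  funext i j
  rw [smat, sco, Sym2.lift_mk]
  change (τ i j + τ j i) / 2 = τ i j
  rw [h j i]
  ring

theorem smat_sco_of_inH {τ : ι → ι → ℂ} (h : InH τ) : smat (sco τ) = τ := by
  exact smat_sco fun i j => h.1.apply j i

theorem continuous_sco : Continuous (sco : (ι → ι → ℂ) → Sym2 ι → ℂ) := by
  refine continuous_pi fun z => ?_
  induction z using Sym2.ind with
  | _ i j =>
    change Continuous fun τ : ι → ι → ℂ => (τ i j + τ j i) / 2
    fun_prop

/-- Near a point of the Siegel space every symmetric matrix lies in the Siegel space. Proof. The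
quadratic form of `im τ₀` is `≥ c > 0` on the unit sphere. -/
theorem eventually_inH {τ₀ : ι → ι → ℂ} (h : InH τ₀) :
    ∀ᶠ τ : ι → ι → ℂ in 𝓝 τ₀, (∀ i j, τ i j = τ j i) → InH τ := by
  have key := (isCompact_sphere (0 : ι → ℝ) 1).eventually_forall_of_forall_eventually (x₀ := τ₀)
    (P := fun τ v => 0 < ∑ i, v i * ∑ j, (τ i j).im * v j) fun v hv => by
      have h0 : v ≠ 0 := ne_zero_of_mem_unit_sphere ⟨v, hv⟩
      have hc : Continuous fun z : (ι → ι → ℂ) × (ι → ℝ) =>
          ∑ i, z.2 i * ∑ j, (z.1 i j).im * z.2 j := by fun_prop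
      exact hc.continuousAt.eventually (lt_mem_nhds (h.2.dotProduct_mulVec_pos h0))
  filter_upwards [key] with τ hτ hs
  refine ⟨Matrix.IsSymm.ext fun i j => hs j i, PosDef.of_dotProduct_mulVec_pos ?_ fun x hx => ?_⟩
  · exact IsHermitian.ext fun i j => congrArg im (hs j i)
  · have h1 := hτ (‖x‖⁻¹ • x) (mem_sphere_zero_iff_norm.2 (norm_smul_inv_norm (𝕜 := ℝ) hx))
    have e : ∑ i, (‖x‖⁻¹ • x) i * ∑ j, (τ i j).im * (‖x‖⁻¹ • x) j =
        ‖x‖⁻¹ ^ 2 * ∑ i, x i * ∑ j, (τ i j).im * x j := by
      simp only [Pi.smul_apply, smul_eq_mul, Finset.mul_sum]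
      exact Finset.sum_congr rfl fun i _ => Finset.sum_congr rfl fun j _ => by ring
    rw [e] at h1
    exact pos_of_mul_pos_right h1 (sq_nonneg _)

theorem isOpen_inH : IsOpen {t : Sym2 ι → ℂ | InH (smat t)} := by
  refine isOpen_iff_mem_nhds.2 fun t ht => ?_
  filter_upwards [(smatL ι).continuous.continuousAt.eventually (eventually_inH ht)] with t' h
  exact h (smat_symm t')

theorem finrank_Sy_four : Module.finrank ℂ (Sym2 (Fin 4) → ℂ) = 10 := by
  rw [Module.finrank_fintype_fun_eq_card, Sym2.card]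
  rfl

/-- An analytic map with injective derivative has a local holomorphic left inverse. Proof. Take `L`
linear with `L ∘ fderiv f a = id` (`LinearMap.exists_leftInverse_of_injective`); `L ∘ f` has strict
derivative the identity; `HasStrictFDerivAt.localInverse` or `ContDiffAt.toOpenPartialHomeomorph`;
`κ = localInverse ∘ L`. -/
theorem exists_left_inv {V W : Type} [NormedAddCommGroup V] [NormedSpace ℂ V]
    [FiniteDimensional ℂ V] [NormedAddCommGroup W] [NormedSpace ℂ W] [FiniteDimensional ℂ W]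
    {f : V → W} {a : V} (hf : AnalyticAt ℂ f a) (hi : Function.Injective (fderiv ℂ f a)) :
    ∃ κ : W → V, AnalyticAt ℂ κ (f a) ∧ ∀ᶠ x in 𝓝 a, κ (f x) = x := by
  obtain ⟨L₀, hL⟩ := (fderiv ℂ f a : V →ₗ[ℂ] W).exists_leftInverse_of_injective
    (LinearMap.ker_eq_bot.2 hi)
  let L : W →L[ℂ] V := LinearMap.toContinuousLinearMap L₀
  have := FiniteDimensional.complete ℂ V
  have h1 : ContDiffAt ℂ ⊤ (fun x => L (f x)) a := ((L.analyticAt _).comp hf).contDiffAt
  have h2 : HasFDerivAt (fun x => L (f x)) (ContinuousLinearEquiv.refl ℂ V : V →L[ℂ] V) a := by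
    have h3 := L.hasFDerivAt.comp a hf.differentiableAt.hasFDerivAt
    have e : L.comp (fderiv ℂ f a) = (ContinuousLinearEquiv.refl ℂ V : V →L[ℂ] V) :=
      ContinuousLinearMap.ext fun v => LinearMap.congr_fun hL v
    rw [e] at h3
    exact h3
  refine ⟨fun w => h1.localInverse h2 (by simp) (L w), ?_,
    (h1.hasStrictFDerivAt' h2 (by simp)).eventually_left_inverse⟩
  exact (h1.to_localInverse h2 (by simp)).analyticAt.comp (L.analyticAt _)

variable [DecidableEq ι]

/-- `analyticOnNhd_of_differentiableOn` of `Lib/MP_940f24_an/Holo`. -/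
theorem analyticAt_thN (N : ℕ) {t : Sym2 ι → ℂ} (ht : InH (smat t)) :
    AnalyticAt ℂ (fun t' : Sym2 ι → ℂ => thN N (smat t')) t := by
  exact Pool.Agent.Lib.MP_940f24_an.analyticOnNhd_of_differentiableOn isOpen_inH
    (fun t' ht' => ((differentiableAt_thN N ht').comp t'
      (smatL ι).differentiableAt).differentiableWithinAt) t ht

/-- Proof. Chain rule with `smatL`; `Th σ (hf k) = u * thN N σ e` for all `σ` in the Siegel space
(`Th_qv`), differentiate along `t + s • w`; `null_imm` gives `smat w = 0`; `thN_ne_zero`. -/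
theorem imm_thN [NeZero N] (hN : 2 ∣ N) {t : Sym2 ι → ℂ} (ht : InH (smat t)) {c : ℂ}
    {w : Sym2 ι → ℂ}
    (h : c • thN N (smat t) + fderiv ℂ (fun t' : Sym2 ι → ℂ => thN N (smat t')) t w = 0) :
    c = 0 ∧ w = 0 := by
  have hw : smat w = 0 := by
    refine null_imm ht (smat_symm w) (c := -c) fun k => ?_
    have e : hf k = qv N (((N / 2 : ℕ) : ℤ) • k) := by
      obtain ⟨m, rfl⟩ := hN
      have hm : (m : ℝ) ≠ 0 := fun h => NeZero.ne (2 * m) (by simpa using h)
      rw [Nat.mul_div_cancel_left _ two_pos, qv, rz_smul, smul_smul, hf]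
      congr 1
      push_cast
      field_simp
    obtain ⟨ε, n, u, -, -, hu⟩ := Th_qv (N := N) (((N / 2 : ℕ) : ℤ) • k)
    rw [← e] at hu
    have h1 := (differentiableAt_Th ht (hf k)).hasFDerivAt.comp t (smatL ι).hasFDerivAt
    have h2 := ((hasFDerivAt_apply ε _).comp t
      (analyticAt_thN N ht).differentiableAt.hasFDerivAt).const_mul u
    have h3 := h1.unique (h2.congr_of_eventuallyEq (by
      filter_upwards [isOpen_inH.mem_nhds ht] with t' ht'
      exact hu _ ht'))
    have h4 : fderiv ℂ (fun σ : ι → ι → ℂ => Th σ (hf k)) (smat t) (smat w) =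
        u * fderiv ℂ (fun t' : Sym2 ι → ℂ => thN N (smat t')) t w ε := DFunLike.congr_fun h3 w
    have h5 := congrFun h ε
    simp only [Pi.add_apply, Pi.smul_apply, smul_eq_mul, Pi.zero_apply] at h5
    rw [h4, hu _ ht]
    linear_combination u * h5
  have hw0 : w = 0 := funext fun z => by
    induction z using Sym2.ind with
    | _ i j => exact congrFun (congrFun hw i) j
  rw [hw0, map_zero, add_zero] at h
  exact ⟨(smul_eq_zero.1 h).resolve_right (thN_ne_zero hN ht), hw0⟩

end M4.Mo
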