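import Pool.Agent.Lib.MP_33b3f9_ag.M4.ZGen

/-! Noether normalisation by linear forms, for finitely many primes at once. -/

namespace M4.Z
open MvPolynomial

variable {σ : Type} [Fintype σ]

omit [Fintype σ] in
theorem znn_hc {y : MvPolynomial σ ℂ} {n : ℕ} (hy : y.IsHomogeneous n) (m : ℕ)
    (c : MvPolynomial σ ℂ) :
    homogeneousComponent (m + n) (c * y) = homogeneousComponent m c * y := by
  induction c using MvPolynomial.induction_on' with
  | monomial u a =>
    have h1 := isHomogeneous_monomial a (rfl : u.degree = u.degree)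
    rw [homogeneousComponent_of_mem (h1.mul hy), homogeneousComponent_of_mem h1]
    simp only [add_left_inj, ite_mul, zero_mul]
  | add p q hp hq => simp only [add_mul, map_add, hp, hq]

theorem znn_int {d : ℕ} (y : Fin (d + 1) → MvPolynomial σ ℂ) (hy : ∀ j, (y j).IsHomogeneous 1)
    (P : Ideal (MvPolynomial σ ℂ)) (hP : Hom P) (N : ℕ) (s : MvPolynomial σ ℂ)
    (hs : constantCoeff s ≠ 0) (h : ∀ i, s * X i ^ N ∈ P ⊔ Ideal.span (Set.range y)) :
    ((Ideal.Quotient.mk P).comp (aeval y : AA d →ₐ[ℂ] MvPolynomial σ ℂ).toRingHom).IsIntegral := by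
  classical
  let _ := ((Ideal.Quotient.mk P).comp (aeval y : AA d →ₐ[ℂ] MvPolynomial σ ℂ).toRingHom).toAlgebra
  have hsm : ∀ (r : AA d) (g : MvPolynomial σ ℂ),
      Ideal.Quotient.mk P (aeval y r * g) = r • Ideal.Quotient.mk P g := fun r g => by
    rw [Algebra.smul_def, map_mul]
    rfl
  obtain ⟨M, hM⟩ : ∃ M, M = Submodule.span (AA d)
      ((fun e : σ →₀ ℕ => Ideal.Quotient.mk P (monomial e (1 : ℂ))) ''
        Set.Iic (Finsupp.equivFunOnFinite.symm fun _ => N)) := ⟨_, rfl⟩
  have hC : ∀ (c : ℂ) (g : MvPolynomial σ ℂ), Ideal.Quotient.mk P g ∈ M →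
      Ideal.Quotient.mk P (C c * g) ∈ M := fun c g hg => by
    have h1 := M.smul_mem (C c) hg
    rwa [← hsm, aeval_C] at h1
  have key : ∀ (μ : ℕ) (g : MvPolynomial σ ℂ), g.IsHomogeneous μ → Ideal.Quotient.mk P g ∈ M := by
    intro μ
    induction μ using Nat.strong_induction_on with
    | _ μ ih =>
      intro g hg
      rw [g.as_sum, map_sum]
      refine sum_mem fun e he => ?_
      have hd : e.degree = μ := by
        rw [Finsupp.degree_eq_weight_one]
        exact hg (mem_support_iff.1 he)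
      rw [← mul_one (coeff e g), ← C_mul_monomial]
      refine hC _ _ ?_
      by_cases hN : ∀ i, e i ≤ N
      · exact hM ▸ Submodule.subset_span ⟨e, hN, rfl⟩
      push Not at hN
      obtain ⟨i, hi⟩ := hN
      obtain ⟨m, rfl⟩ : ∃ m, μ = m + 1 := ⟨μ - 1, by have := Finsupp.le_degree i e; omega⟩
      have h1 : s * monomial e 1 ∈ P ⊔ Ideal.span (Set.range y) := by
        rw [← add_tsub_cancel_of_le (Finsupp.single_le_iff.2 hi.le), monomial_single_add,
          ← mul_assoc]
        exact Ideal.mul_mem_right _ _ (h i)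
      obtain ⟨p, hp, z, hz, h2⟩ := Submodule.mem_sup.1 h1
      obtain ⟨c, rfl⟩ := Ideal.mem_span_range_iff_exists_fun.1 hz
      have h3 := znn_hc (isHomogeneous_monomial (1 : ℂ) hd) 0 s
      rw [zero_add, ← h2, map_add, map_sum, homogeneousComponent_zero] at h3
      have h4 : Ideal.Quotient.mk P (C (coeff 0 s) * monomial e 1) ∈ M := by
        rw [← h3, map_add, Ideal.Quotient.eq_zero_iff_mem.2 (hP p hp _), zero_add, map_sum]
        refine sum_mem fun j _ => ?_
        have h5 := M.smul_mem (X j) (ih m m.lt_succ_self _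
          (homogeneousComponent_isHomogeneous m (c j)))
        rwa [← hsm, aeval_X, mul_comm, ← znn_hc (hy j)] at h5
      have h6 := hC (coeff 0 s)⁻¹ _ h4
      rwa [← mul_assoc, ← map_mul, inv_mul_cancel₀ (show coeff 0 s ≠ 0 from hs), map_one,
        one_mul] at h6
  refine RingHom.Finite.to_isIntegral (Module.finite_def.2 (Submodule.fg_def.2
    ⟨_, (Set.finite_Iic _).image _, hM.symm.trans (eq_top_iff.2 fun x _ => ?_)⟩))
  obtain ⟨g, rfl⟩ := Ideal.Quotient.mk_surjective x
  rw [← sum_homogeneousComponent g, map_sum]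
  exact sum_mem fun μ _ => key μ _ (homogeneousComponent_isHomogeneous μ g)

/-- Graded Nakayama. If `X i ^ N ∈ P + (y)` with `P` homogeneous and `y` linear forms, each `X i` is
integral over `AA d` modulo `P`: every form is, modulo `P`, a combination of monomials with
exponents `< N` with coefficients polynomials in `y` (induction on the degree), so `S ⧸ P` is a
finite module over `AA d`. -/
theorem nn_int {d : ℕ} (y : Fin (d + 1) → MvPolynomial σ ℂ) (hy : ∀ j, (y j).IsHomogeneous 1)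
    (P : Ideal (MvPolynomial σ ℂ)) (hP : Hom P) (N : ℕ) (s : MvPolynomial σ ℂ)
    (hs : constantCoeff s ≠ 0) (h : ∀ i, s * X i ^ N ∈ P ⊔ Ideal.span (Set.range y)) (i : σ) :
    ∃ q : Polynomial (AA d), q.Monic ∧
      q.eval₂ (aeval y : AA d →ₐ[ℂ] MvPolynomial σ ℂ).toRingHom (X i) ∈ P := by
  obtain ⟨q, hq, he⟩ := znn_int y hy P hP N s hs h (Ideal.Quotient.mk P (X i))
  refine ⟨q, hq, Ideal.Quotient.eq_zero_iff_mem.1 ?_⟩
  rw [Polynomial.hom_eval₂]
  exact he

/-- `gen` with `m = mx 0`, `G = homogeneousSubmodule σ ℂ 1`, `e = d + 1`; `loc_nil`; `nn_int`;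
`indep_of_dm`. -/
theorem nn (d : ℕ) (W : Set (Ideal (MvPolynomial σ ℂ))) (hW : W.Finite)
    (h : ∀ P ∈ W, P.IsPrime ∧ Hom P ∧ dm ℂ P = d + 1) :
    ∃ y : Fin (d + 1) → MvPolynomial σ ℂ, (∀ j, (y j).IsHomogeneous 1) ∧ ∀ P ∈ W, NNd y P := by
  have hm : (mx (0 : σ → ℂ)).IsPrime := RingHom.ker_isPrime _
  have hmem : ∀ g : MvPolynomial σ ℂ, g ∈ mx (0 : σ → ℂ) ↔ constantCoeff g = 0 := fun g => by
    rw [mx, RingHom.mem_ker, eval_zero]
  have hle : ∀ P ∈ W, P ≤ mx (0 : σ → ℂ) := fun P hP g hg => by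
    have h1 := (h P hP).2.1 g hg 0
    rw [homogeneousComponent_zero] at h1
    rw [hmem]
    by_contra h2
    exact (h P hP).1.ne_top (P.eq_top_of_isUnit_mem h1 ((IsUnit.mk0 _ h2).map C))
  obtain ⟨y, hy, hq⟩ := gen (k := ℂ) (mx (0 : σ → ℂ)) hm (homogeneousSubmodule σ ℂ 1) (d + 1) W hW
    (fun P hP => ⟨(h P hP).1, hle P hP, (h P hP).2.2.le⟩) fun P _ q _ _ hG hq => by
      have h1 : ∀ g : MvPolynomial σ ℂ, g - C (constantCoeff g) ∈ q := by
        intro g
        induction g using MvPolynomial.induction_on with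
        | C a => simp
        | add f g hf hg =>
          rw [map_add, map_add, add_sub_add_comm]
          exact add_mem hf hg
        | mul_X f i _ =>
          rw [map_mul, constantCoeff_X, mul_zero, map_zero, sub_zero]
          exact q.mul_mem_left _ (hG _ (isHomogeneous_X ℂ i))
      refine le_antisymm hq fun g hg => ?_
      have h2 := h1 g
      rwa [(hmem g).1 hg, map_zero, sub_zero] at h2
  refine ⟨y, hy, fun P hP => ?_⟩
  obtain ⟨N, s, -, hs, hN⟩ := loc_nil (P ⊔ Ideal.span (Set.range y)) (mx (0 : σ → ℂ)) hm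
    (sup_le (hle P hP) (Ideal.span_le.2 (Set.range_subset_iff.2 fun j =>
      (hmem _).2 (IsHomogeneous.coeff_eq_zero (hy j) (d := 0) (by simp)))))
    (fun q hq1 hq2 hq3 => hq P hP q hq1 (le_sup_left.trans hq2)
      (fun j => hq2 (Ideal.mem_sup_right (Ideal.subset_span ⟨j, rfl⟩))) hq3)
    X fun i => (hmem _).2 (constantCoeff_X ℂ i)
  have hs' : constantCoeff s ≠ 0 := fun e => hs ((hmem s).2 e)
  refine ⟨nn_int y hy P (h P hP).2.1 N s hs' hN,
    indep_of_dm (h P hP).1 y ?_ ((h P hP).2.2.trans (Fintype.card_fin _).symm)⟩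
  have := (h P hP).1
  have h1 := znn_int y hy P (h P hP).2.1 N s hs' hN
  set B := Algebra.adjoin ℂ (Set.range fun i => Ideal.Quotient.mk P (y i))
  have h2 : (Ideal.Quotient.mk P).comp (aeval y : AA d →ₐ[ℂ] MvPolynomial σ ℂ).toRingHom =
      (algebraMap B (MvPolynomial σ ℂ ⧸ P)).comp (aeval fun j =>
        (⟨Ideal.Quotient.mk P (y j), Algebra.subset_adjoin ⟨j, rfl⟩⟩ : B) :
          AA d →ₐ[ℂ] B).toRingHom := by
    refine MvPolynomial.ringHom_ext (fun c => ?_) fun j => ?_
    · simp only [RingHom.comp_apply, AlgHom.toRingHom_eq_coe, RingHom.coe_coe, aeval_C]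
      rfl
    · simp only [RingHom.comp_apply, AlgHom.toRingHom_eq_coe, RingHom.coe_coe, aeval_X]
      rfl
  rw [h2] at h1
  have : Algebra.IsIntegral B (MvPolynomial σ ℂ ⧸ P) := ⟨RingHom.IsIntegral.tower_top _ _ h1⟩
  exact Algebra.IsIntegral.isAlgebraic

end M4.Z
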