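import Mathlib
import Pool.Agent.Lib.MP_33b3f9_ag.M4.ZNN
import Pool.Agent.Lib.MP_33b3f9_ag.M4.ZHf
import Pool.Agent.Lib.MP_33b3f9_ag.M4.GrC

/-!
Generic linear projections of a cone.
-/

set_option autoImplicit false

namespace M4.Gr

open MvPolynomial

variable {σ : Type} [Fintype σ]

/-- The images of the variables generate, so some `dm P` of them are algebraically independent
(`exists_isTranscendenceBasis_subset` or `exists_isTranscendenceBasis_between`); if there are
`d + 2` of them then `choose (μ + d + 1) (d + 1) ≤ HF P μ` (`Z.finrank_hom`, `rename`), which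
grows faster than `B (μ + 1) ^ d`. -/
theorem dm_le_of_HF {P : Ideal (MvPolynomial σ ℂ)} (hP : P.IsPrime) {B d : ℕ}
    (h : ∀ μ, Z.HF P μ ≤ B * (μ + 1) ^ d) : Z.dm ℂ P ≤ d + 1 := by
  by_contra hlt
  have hs : Algebra.adjoin ℂ (Set.range fun i : σ => Ideal.Quotient.mk P (X i)) = ⊤ := by
    refine eq_top_iff.2 fun x _ => ?_
    obtain ⟨g, rfl⟩ := Ideal.Quotient.mk_surjective x
    induction g using MvPolynomial.induction_on with
    | C a => exact Subalgebra.algebraMap_mem _ a
    | add p q hp hq => rw [map_add]; exact add_mem (hp trivial) (hq trivial)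
    | mul_X p i hp => rw [map_mul]; exact mul_mem (hp trivial) (Algebra.subset_adjoin ⟨i, rfl⟩)
  have : Algebra.IsAlgebraic (Algebra.adjoin ℂ (Set.range fun i : σ => Ideal.Quotient.mk P (X i)))
      (MvPolynomial σ ℂ ⧸ P) := ⟨fun x =>
    isAlgebraic_algebraMap (⟨x, hs.ge trivial⟩ :
      Algebra.adjoin ℂ (Set.range fun i : σ => Ideal.Quotient.mk P (X i)))⟩
  have : FaithfulSMul ℂ (MvPolynomial σ ℂ ⧸ P) :=
    (faithfulSMul_iff_algebraMap_injective ℂ (MvPolynomial σ ℂ ⧸ P)).2
      (algebraMap ℂ (MvPolynomial σ ℂ ⧸ P)).injective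
  obtain ⟨t, ht, hb⟩ := exists_isTranscendenceBasis_subset (R := ℂ)
    (Set.range fun i : σ => Ideal.Quotient.mk P (X i))
  have hfin : Finite t := ((Set.finite_range _).subset ht).to_subtype
  have := Fintype.ofFinite t
  have hc : Fintype.card (Fin (d + 2)) ≤ Fintype.card t := by
    rw [Z.dm, ← hb.cardinalMk_eq_trdeg, Cardinal.mk_fintype, Cardinal.toNat_natCast] at hlt
    rw [Fintype.card_fin]
    exact not_le.1 hlt
  obtain ⟨f⟩ := Function.Embedding.nonempty_of_card_le hc
  choose j hj using fun a => ht (f a).2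
  have hi : Function.Injective (aeval (R := ℂ) fun a => (f a : MvPolynomial σ ℂ ⧸ P)) :=
    hb.1.comp f f.injective
  have hev : ∀ g : MvPolynomial (Fin (d + 2)) ℂ,
      aeval (fun a => (f a : MvPolynomial σ ℂ ⧸ P)) g = Ideal.Quotient.mkₐ ℂ P (rename j g) := by
    intro g
    have : aeval (fun a => (f a : MvPolynomial σ ℂ ⧸ P)) =
        (Ideal.Quotient.mkₐ ℂ P).comp (rename j) := by
      refine MvPolynomial.algHom_ext fun a => ?_
      rw [aeval_X, AlgHom.comp_apply, rename_X]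
      exact (hj a).symm
    rw [this, AlgHom.comp_apply]
  have key : ∀ μ, (μ + (d + 1)).choose (d + 1) ≤ Z.HF P μ := fun μ => by
    have := Z.fin_hom (σ := σ) μ
    have := Z.fin_hom (σ := Fin (d + 2)) μ
    have h1 := Z.finrank_map_le (homogeneousSubmodule (Fin (d + 2)) ℂ μ)
      (aeval (R := ℂ) fun a => (f a : MvPolynomial σ ℂ ⧸ P)).toLinearMap LinearMap.id
      fun g _ h0 => hi (h0.trans (map_zero _).symm)
    rw [Submodule.map_id, Z.finrank_hom (d := d + 1) (Fintype.card_fin _)] at h1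
    refine h1.trans (Submodule.finrank_mono ?_)
    rintro _ ⟨g, hg, rfl⟩
    exact ⟨rename j g, IsHomogeneous.rename_isHomogeneous hg, (hev g).symm⟩
  have h1 := Nat.pow_succ_le_ascFactorial ((d + 1).factorial * B + 1) (d + 1)
  rw [Nat.ascFactorial_eq_factorial_mul_choose] at h1
  have h2 := h1.trans (Nat.mul_le_mul_left _ ((key _).trans (h _)))
  rw [pow_succ', ← mul_assoc] at h2
  have h3 := Nat.le_of_mul_le_mul_right h2 (by positivity)
  omega

/-- The linear forms given by the rows of `y`. -/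
noncomputable def rows {κ : Type} (y : Matrix κ σ ℂ) (i : κ) : MvPolynomial σ ℂ :=
  ∑ j, C (y i j) * X j

/-- `y` has no zero on the cone except the origin. -/
def NoZ {κ : Type} (P : Ideal (MvPolynomial σ ℂ)) (y : Matrix κ σ ℂ) : Prop :=
  ∀ ξ : σ → ℂ, (∀ g ∈ P, eval ξ g = 0) → y.mulVec ξ = 0 → ξ = 0

/-- `Z.gen` with `m = mx 0`, `G` the linear forms, `W = {P}`; test on `q = mx ξ`... more simply
`Z.loc_nil` gives `s * X i ^ N ∈ P ⊔ span`, `s 0 ≠ 0`; evaluate at `t • ξ` for small `t ≠ 0`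
(the zero set of `P` is a cone since `P` is homogeneous). -/
theorem exists_noZ {P : Ideal (MvPolynomial σ ℂ)} (hP : P.IsPrime) (hh : Z.Hom P)
    (h0 : P ≤ Z.mx (0 : σ → ℂ)) {e : ℕ} (he : Z.dm ℂ P ≤ e) :
    ∃ y : Matrix (Fin e) σ ℂ, NoZ P y := by
  have hm : (Z.mx (0 : σ → ℂ)).IsPrime := Z.mx_prime _
  have hmem : ∀ g : MvPolynomial σ ℂ, g ∈ Z.mx (0 : σ → ℂ) ↔ constantCoeff g = 0 := fun g => by
    rw [Z.mx, RingHom.mem_ker, eval_zero]
  obtain ⟨f, hf, hq⟩ := Z.gen (k := ℂ) (Z.mx (0 : σ → ℂ)) hm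
    (Submodule.span ℂ (Set.range (X : σ → MvPolynomial σ ℂ))) e {P} (Set.finite_singleton P)
    (fun Q hQ => by rw [Set.mem_singleton_iff.1 hQ]; exact ⟨hP, h0, he⟩) fun _ _ q _ _ hG hq => by
      have h1 : ∀ g : MvPolynomial σ ℂ, g - C (constantCoeff g) ∈ q := by
        intro g
        induction g using MvPolynomial.induction_on with
        | C a => simp
        | add f g hf hg =>
          rw [map_add, map_add, add_sub_add_comm]
          exact add_mem hf hg
        | mul_X f i _ =>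
          rw [map_mul, constantCoeff_X, mul_zero, map_zero, sub_zero]
          exact q.mul_mem_left _ (hG _ (Submodule.subset_span ⟨i, rfl⟩))
      refine le_antisymm hq fun g hg => ?_
      have h2 := h1 g
      rwa [(hmem g).1 hg, map_zero, sub_zero] at h2
  choose c hc using fun i => (Submodule.mem_span_range_iff_exists_fun ℂ).1 (hf i)
  refine ⟨Matrix.of c, fun ξ hξ hy => ?_⟩
  by_contra hne
  obtain ⟨L, hL, -, hlt, hin, -⟩ := Z.line_prime ξ hne
  refine hlt.ne (hq P rfl L hL (fun g hg => ?_) (fun i => hin 1 _ ?_ ?_) hlt.le)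
  · rw [← sum_homogeneousComponent g]
    exact sum_mem fun μ _ => hin μ _ (homogeneousComponent_isHomogeneous μ g) (hξ _ (hh g hg μ))
  · rw [← hc]
    exact (homogeneousSubmodule σ ℂ 1).sum_mem fun j _ =>
      (homogeneousSubmodule σ ℂ 1).smul_mem _ (isHomogeneous_X ℂ j)
  · rw [← hc, map_sum]
    simp only [smul_eval, eval_X]
    exact congrFun hy i

/-- The zero set of `P` on the unit sphere is compact (`IsClosed` image of a compact projection,
or the tube lemma, or a lower bound for `‖y ξ‖`). -/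
theorem isOpen_noZ {κ : Type} [Fintype κ] {P : Ideal (MvPolynomial σ ℂ)} (hh : Z.Hom P) :
    IsOpen {y : κ → σ → ℂ | NoZ P (Matrix.of y)} := by
  refine isOpen_iff_eventually.2 fun y hy => ?_
  have hK : IsCompact (Metric.sphere (0 : σ → ℂ) 1 ∩ ⋂ g ∈ P, {ξ | eval ξ g = 0}) :=
    (isCompact_sphere _ _).inter_right (isClosed_biInter fun g _ =>
      isClosed_eq (MvPolynomial.continuous_eval g) continuous_const)
  have hc : Continuous fun z : (κ → σ → ℂ) × (σ → ℂ) => (Matrix.of z.1).mulVec z.2 := by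
    refine continuous_pi fun i => ?_
    simp only [Matrix.mulVec, dotProduct, Matrix.of_apply]
    fun_prop
  have h1 := hK.eventually_forall_of_forall_eventually (x₀ := y)
    (P := fun y' ξ => (Matrix.of y').mulVec ξ ≠ 0) fun ξ hξ =>
      hc.continuousAt.eventually_ne fun h0 => by
        have h2 := hy ξ (fun g hg => Set.mem_iInter₂.1 hξ.2 g hg) h0
        have h3 := hξ.1
        rw [h2] at h3
        simp at h3
  refine h1.mono fun y' hy' ξ hξ h0 => ?_
  by_contra hne
  have hn : ‖ξ‖ ≠ 0 := norm_ne_zero_iff.2 hne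
  refine hy' (((‖ξ‖⁻¹ : ℝ) : ℂ) • ξ) ⟨?_, Set.mem_iInter₂.2 fun g hg => ?_⟩ ?_
  · rw [mem_sphere_zero_iff_norm, norm_smul, Complex.norm_real, norm_inv, norm_norm,
      inv_mul_cancel₀ hn]
  · have h2 : ((‖ξ‖⁻¹ : ℝ) : ℂ) • ξ = fun i => ξ i * ((‖ξ‖⁻¹ : ℝ) : ℂ) :=
      funext fun i => mul_comm _ _
    rw [Set.mem_ofPred_eq, h2, ← sum_homogeneousComponent g, map_sum]
    refine Finset.sum_eq_zero fun μ _ => ?_
    rw [Z.hfb_scale (homogeneousComponent_isHomogeneous μ g), hξ _ (hh g hg μ), zero_mul]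
  · rw [Matrix.mulVec_smul, h0, smul_zero]

end M4.Gr
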