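import Mathlib
import Pool.Agent.Lib.MP_33b3f9_ag.M4.ProjA0

/-!
Generic linear projections of a cone.
-/

set_option autoImplicit false

namespace M4.Gr

open MvPolynomial

variable {σ : Type} [Fintype σ]

/-- Nullstellensatz (`MvPolynomial.vanishingIdeal_zeroLocus_eq_radical`): `X i` is in the radical
of `P ⊔ span (rows y)`; then `Z.nn_int` with `s = 1`. -/
theorem NoZ.int {d : ℕ} {P : Ideal (MvPolynomial σ ℂ)} (hh : Z.Hom P)
    {y : Matrix (Fin (d + 1)) σ ℂ} (h : NoZ P y) (i : σ) :
    ∃ q : Polynomial (Z.AA d), q.Monic ∧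
      q.eval₂ (aeval (rows y) : Z.AA d →ₐ[ℂ] MvPolynomial σ ℂ).toRingHom (X i) ∈ P := by
  have h1 : ∀ j, ∃ N, (X j : MvPolynomial σ ℂ) ^ N ∈ P ⊔ Ideal.span (Set.range (rows y)) := by
    intro j
    have h2 : (X j : MvPolynomial σ ℂ) ∈ (P ⊔ Ideal.span (Set.range (rows y))).radical := by
      rw [← vanishingIdeal_zeroLocus_eq_radical (K := ℂ), mem_vanishingIdeal_iff]
      intro ξ hξ
      have h3 : ξ = 0 := h ξ (fun g hg => hξ g (Ideal.mem_sup_left hg)) (funext fun a => by
        have h4 := hξ (rows y a) (Ideal.mem_sup_right (Ideal.subset_span ⟨a, rfl⟩))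
        simpa [rows, Matrix.mulVec, dotProduct] using h4)
      rw [aeval_X, h3, Pi.zero_apply]
    exact h2
  choose N hN using h1
  refine Z.nn_int (rows y) (fun j => IsHomogeneous.sum _ _ _ fun a _ => isHomogeneous_C_mul_X _ _)
    P hh (∑ j, N j) 1 (by simp) (fun j => ?_) i
  rw [one_mul]
  exact Ideal.pow_mem_of_pow_mem _ (hN j)
    (Finset.single_le_sum (fun _ _ => Nat.zero_le _) (Finset.mem_univ j))

theorem proja1_dense {κ : Type} [Fintype κ] [DecidableEq κ] {L : Matrix σ κ ℂ}
    (hL : Function.Injective L.mulVec) : Dense {y : κ → σ → ℂ | (Matrix.of y * L).det ≠ 0} := by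
  classical
  obtain ⟨g, hg⟩ := LinearMap.exists_leftInverse_of_injective (Matrix.toLin' L)
    (LinearMap.ker_eq_bot.2 hL)
  have hM : LinearMap.toMatrix' g * L = 1 := by
    rw [← LinearMap.toMatrix'_toLin' L, ← LinearMap.toMatrix'_comp, hg, LinearMap.toMatrix'_id]
  generalize LinearMap.toMatrix' g = M at hM
  intro y
  let q : Polynomial ℂ := ((Matrix.of y * L).map Polynomial.C +
    (Polynomial.X : Polynomial ℂ) • (1 - Matrix.of y * L).map Polynomial.C).det
  have hq : ∀ t : ℂ, q.eval t = (Matrix.of y * L + t • (1 - Matrix.of y * L)).det := by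
    intro t
    rw [← Polynomial.coe_evalRingHom, RingHom.map_det]
    congr 1
    ext a b
    simp [-Matrix.map_mul]
  have hq0 : q ≠ 0 := fun h => by
    have h1 := hq 1
    rw [h, one_smul, add_sub_cancel, Matrix.det_one, Polynomial.eval_zero] at h1
    exact zero_ne_one h1
  have hd : Dense {t : ℂ | q.IsRoot t}ᶜ :=
    (Polynomial.finite_setOfPred_isRoot hq0).countable.dense_compl ℂ
  have hc : Continuous fun t : ℂ => y + t • (Matrix.of.symm M - y) := by fun_prop
  have h2 := map_mem_closure hc (hd 0) (t := {y : κ → σ → ℂ | (Matrix.of y * L).det ≠ 0})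
    fun t ht => by
      have h3 : Matrix.of (y + t • (Matrix.of.symm M - y)) = Matrix.of y + t • (M - Matrix.of y) :=
        rfl
      show (Matrix.of (y + t • (Matrix.of.symm M - y)) * L).det ≠ 0
      rw [h3, Matrix.add_mul, Matrix.smul_mul, Matrix.sub_mul, hM, ← hq]
      exact ht
  simpa using h2

/-- For each `n` the set of `y` with `det (y * L n) ≠ 0` is open, and dense (on the line from `y`
to a left inverse of `L n` the determinant is a non zero polynomial); `dense_iInter_of_isOpen`. -/
theorem exists_generic {κ α : Type} [Fintype κ] [Countable α] {O : Set (κ → σ → ℂ)}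
    (hO : IsOpen O) (hne : O.Nonempty) (L : α → Matrix σ κ ℂ)
    (hL : ∀ n, Function.Injective (L n).mulVec) :
    ∃ y ∈ O, ∀ n, Function.Injective (Matrix.of y * L n).mulVec := by
  classical
  have hd := dense_iInter_of_isOpen (f := fun n => {y : κ → σ → ℂ | (Matrix.of y * L n).det ≠ 0})
    (fun n => isOpen_ne_fun (Continuous.matrix_det (Continuous.matrix_mul continuous_id
      continuous_const)) continuous_const) fun n => proja1_dense (hL n)
  obtain ⟨y, hy, hyO⟩ := hd.exists_mem_open hO hne
  exact ⟨y, hyO, fun n => Matrix.mulVec_injective_iff_isUnit.2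
    ((Matrix.isUnit_iff_isUnit_det _).2 (isUnit_iff_ne_zero.2 (Set.mem_iInter.1 hy n)))⟩

end M4.Gr
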