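import Mathlib
import Pool.Agent.Lib.MP_33b3f9_ag.M4.ProjA1

/-!
Generic linear projections of a cone.
-/

set_option autoImplicit false

namespace M4.Gr

open MvPolynomial

variable {σ : Type} [Fintype σ]

theorem proja_smul {n : ℕ} {φ : MvPolynomial σ ℂ} (hφ : φ.IsHomogeneous n) (c : ℂ) (x : σ → ℂ) :
    eval (c • x) φ = c ^ n * eval x φ := by
  rw [eval_eq', eval_eq', Finset.mul_sum]
  refine Finset.sum_congr rfl fun d hd => ?_
  have h := hφ (mem_support_iff.1 hd)
  rw [Pi.one_def, ← Finsupp.degree_eq_weight_one, Finsupp.degree_eq_sum] at h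
  simp only [Pi.smul_apply, smul_eq_mul, mul_pow, Finset.prod_mul_distrib,
    Finset.prod_pow_eq_pow_sum, h]
  ring

/-- A form that vanishes on the image of a map that is etale at one point is zero: the map
`(l, z) ↦ l • Θ z` has an invertible strict derivative at `(1, a)`
(`HasStrictFDerivAt.map_nhds_eq_of_equiv` or `_of_surj`), so `φ` vanishes near `Θ a`; identity
theorem (`AnalyticOnNhd.eq_of_eventuallyEq`) and `MvPolynomial.funext`. -/
theorem eq_zero_of_etale {T : Type} [NormedAddCommGroup T] [NormedSpace ℂ T]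
    [FiniteDimensional ℂ T] (hT : Fintype.card σ = Module.finrank ℂ T + 1) {a : T} {Θ : T → σ → ℂ}
    (hΘ : AnalyticAt ℂ Θ a)
    (hi : Function.Injective fun q : ℂ × T => q.1 • Θ a + fderiv ℂ Θ a q.2) {n : ℕ}
    {φ : MvPolynomial σ ℂ} (hφ : φ.IsHomogeneous n) (h : ∀ᶠ z in nhds a, eval (Θ z) φ = 0) :
    φ = 0 := by
  have := FiniteDimensional.complete ℂ T
  have h1 := (hasStrictFDerivAt_fst (𝕜 := ℂ) (p := ((1 : ℂ), a))).smul
    (hΘ.hasStrictFDerivAt.comp ((1 : ℂ), a) hasStrictFDerivAt_snd)
  have h2 := h1.map_nhds_eq_of_surj (LinearMap.range_eq_top.2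
    ((LinearMap.injective_iff_surjective_of_finrank_eq_finrank (by
      rw [Module.finrank_prod, Module.finrank_self, Module.finrank_fintype_fun_eq_card, hT,
        add_comm])).1 fun q q' e => hi (by simpa [add_comm] using e)))
  have h3 : ∀ᶠ q : ℂ × T in nhds (1, a), eval (q.1 • Θ q.2) φ = 0 :=
    (continuous_snd.continuousAt.eventually (p := fun z => eval (Θ z) φ = 0) h).mono
      fun q hq => by rw [proja_smul hφ, hq, mul_zero]
  have h4 := (AnalyticOnNhd.eval_mvPolynomial φ).eq_of_eventuallyEq analyticOnNhd_const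
    (h2 ▸ Filter.eventually_map.2 h3)
  exact MvPolynomial.funext fun x => (congrFun h4 x).trans (map_zero _).symm

end M4.Gr
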