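import Mathlib
import Pool.Agent.Lib.MP_33b3f9_ag.M4.Fin
import Pool.Agent.Lib.MP_33b3f9_ag.M4.ProjA
import Pool.Agent.Lib.MP_33b3f9_ag.M4.ModSy

/-!
Existence of a finite projection that is etale at countably many points.
-/

set_option autoImplicit false

namespace M4

open Complex Matrix

/-- The ideal of the cone over the theta null variety. -/
noncomputable def IA : Ideal (MvPolynomial Bits ℂ) := RingHom.ker (Gr.Ya (t2 (ι := Fin 4)))

theorem proj0_aeval (φ : MvPolynomial Bits ℂ) (τ : HH (Fin 4)) :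
    MvPolynomial.aeval (t2 (ι := Fin 4)) φ τ = MvPolynomial.eval (th2 τ.1) φ := by
  induction φ using MvPolynomial.induction_on with
  | C c => simp
  | add p q hp hq => simp only [map_add, Pi.add_apply, hp, hq]
  | mul_X p i hp =>
    simp only [map_mul, Pi.mul_apply, hp, MvPolynomial.aeval_X, MvPolynomial.eval_X]
    rfl

theorem proj0_fam {R : Type} [CommRing R] [Algebra ℂ R] (V : Submodule ℂ R) :
    Gr.MulFam fun n => V ^ n :=
  ⟨by rw [pow_zero]; exact Submodule.one_le.1 le_rfl,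
    fun hf hg => by rw [pow_add]; exact Submodule.mul_mem_mul hf hg⟩

theorem proj0_mem {R σ : Type} [CommRing R] [Algebra ℂ R] {V : Submodule ℂ R} {y : σ → R}
    (hy : ∀ i, y i ∈ V) {n : ℕ} {φ : MvPolynomial σ ℂ} (hφ : φ.IsHomogeneous n) :
    MvPolynomial.aeval y φ ∈ V ^ n := by
  have h := Gr.Ya_mem_rees (proj0_fam V) (y := y) (fun i => by rw [pow_one]; exact hy i) φ n
  rwa [Gr.Ya_hom y hφ, Polynomial.coeff_monomial, if_pos rfl] at h

theorem proj0_iff {n : ℕ} {φ : MvPolynomial Bits ℂ} (hφ : φ.IsHomogeneous n) :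
    φ ∈ IA ↔ MvPolynomial.aeval (t2 (ι := Fin 4)) φ = 0 := by
  rw [IA, RingHom.mem_ker, Gr.Ya_hom _ hφ, Polynomial.monomial_eq_zero_iff]

/-- `Gr.Ya_hom`, `Polynomial.monomial_eq_zero_iff`. -/
theorem mem_IA {n : ℕ} {φ : MvPolynomial Bits ℂ} (hφ : φ.IsHomogeneous n) :
    φ ∈ IA ↔ ∀ τ : Mat, InH τ → MvPolynomial.eval (th2 τ) φ = 0 := by
  rw [proj0_iff hφ, funext_iff]
  simp only [proj0_aeval, Pi.zero_apply, Subtype.forall]

/-- `Gr.coeff_Ya`. -/
theorem IA_hom : Z.Hom IA := by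
  intro g hg μ
  rw [proj0_iff (MvPolynomial.homogeneousComponent_isHomogeneous μ g), ← Gr.coeff_Ya,
    show Gr.Ya (t2 (ι := Fin 4)) g = 0 from hg, Polynomial.coeff_zero]

/-- The values lie in `Gr.rees` of the family `MF`; leading coefficients, `MF.mul_eq_zero`. -/
theorem IA_prime : IA.IsPrime := by
  have := nonempty_HH (ι := Fin 4)
  have hm : ∀ (a : MvPolynomial Bits ℂ) n, (Gr.Ya (t2 (ι := Fin 4)) a).coeff n ∈ MF (Fin 4) n :=
    Gr.Ya_mem_rees (W := MF (Fin 4)) ⟨MF.one, MF.mul⟩ t2_mem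
  refine ⟨RingHom.ker_ne_top _, fun {a b} h => ?_⟩
  have h1 : Gr.Ya (t2 (ι := Fin 4)) a * Gr.Ya (t2 (ι := Fin 4)) b = 0 := by
    rw [← map_mul]
    exact h
  have h2 := Polynomial.coeff_mul_degree_add_degree (Gr.Ya (t2 (ι := Fin 4)) a)
    (Gr.Ya (t2 (ι := Fin 4)) b)
  rw [h1, Polynomial.coeff_zero] at h2
  exact (MF.mul_eq_zero (hm a _) (hm b _) h2.symm).imp Polynomial.leadingCoeff_eq_zero.1
    Polynomial.leadingCoeff_eq_zero.1

theorem IA_le : IA ≤ Z.mx (0 : Bits → ℂ) := by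
  intro g hg
  obtain ⟨τ⟩ := nonempty_HH (ι := Fin 4)
  have h := (mem_IA (MvPolynomial.homogeneousComponent_isHomogeneous 0 g)).1 (IA_hom g hg 0) τ.1 τ.2
  rw [MvPolynomial.homogeneousComponent_zero, MvPolynomial.eval_C] at h
  rw [Z.mx, RingHom.mem_ker, MvPolynomial.eval_zero]
  exact h

/-- With `k = μ` and `t2 e ≠ 0`: `φ ↦ aeval t2 φ * t2 e ^ (7 μ)` maps forms of degree `μ` to
`MI {Lv 8} μ` (`span_t2_pow_le`), kernel in `IA` (`MF.mul_eq_zero`); `Z.hf_le`, `dim_MI`. -/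
theorem IA_HF : ∃ B : ℕ, ∀ μ, Z.HF IA μ ≤ B * (μ + 1) ^ 10 := by
  obtain ⟨C, hC⟩ := dim_MI (Fin 4)
  obtain ⟨e, he⟩ := exists_t2_ne_zero (ι := Fin 4)
  refine ⟨8 ^ (4 * Fintype.card (Fin 4) ^ 2) * (C * 8) ^ Fintype.card (Sym2 (Fin 4)), fun μ => ?_⟩
  obtain ⟨h1, h2⟩ := hC 8 μ (by norm_num)
  have h10 : Fintype.card (Sym2 (Fin 4)) = 10 := by
    rw [Sym2.card]
    rfl
  have hp : ∀ k, t2 e ^ k ≠ 0 := fun k h => he (IsNilpotent.eq_zero ⟨k, h⟩)
  let Φ : MvPolynomial Bits ℂ →ₗ[ℂ] (HH (Fin 4) → ℂ) :=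
    (LinearMap.mulRight ℂ (t2 e ^ (7 * μ))).comp
      (MvPolynomial.aeval (t2 (ι := Fin 4))).toLinearMap
  refine (Z.hf_le IA μ Φ fun g hg h0 => (proj0_iff hg).2 ?_).trans ?_
  · have h3 : MvPolynomial.aeval (t2 (ι := Fin 4)) g ∈ MF (Fin 4) μ :=
      proj0_mem (fun i => by simpa only [MF, pow_one] using t2_mem i) hg
    exact (MF.mul_eq_zero h3 (MF.pow (t2_mem e) (7 * μ)) h0).resolve_right (hp _)
  · refine (Submodule.finrank_mono (t := MI {γ | Lv 8 γ} μ) ?_).trans (h10 ▸ h2)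
    rintro _ ⟨g, hg, rfl⟩
    refine span_t2_pow_le μ ?_
    rw [show 8 * μ = μ + 7 * μ by ring, pow_add]
    exact Submodule.mul_mem_mul
      (proj0_mem (fun i => Submodule.subset_span (Set.mem_range_self i)) hg)
      (Submodule.pow_mem_pow _ (Submodule.subset_span (Set.mem_range_self e)) _)

end M4
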