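import Mathlib
import Pool.Agent.Lib.MP_33b3f9_ag.M4.Proj0

/-!
Existence of a finite projection that is etale at countably many points.
-/

set_option autoImplicit false

namespace M4

open Complex Matrix

theorem proj_th2 (τ : Mat) : th2 τ = thN 2 τ := by
  funext e
  simp only [th2, thN, qv, hf, Nat.cast_ofNat]
  rfl

theorem proj_sco : Differentiable ℂ (sco : (Fin 4 → Fin 4 → ℂ) → Sy) := by
  refine differentiable_pi.2 fun z => ?_
  induction z using Sym2.ind with
  | _ i j =>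
    change Differentiable ℂ fun τ : Fin 4 → Fin 4 → ℂ => (τ i j + τ j i) / 2
    fun_prop

/-- The action in the coordinates of the symmetric matrices. -/
noncomputable def projF (G : Matrix ν ν ℝ) (z : Sy) : Sy := sco fun i j => act G (mat z) i j

theorem proj_mat {G : Matrix ν ν ℝ} {m : ℝ} (hG : Sim G m) (hm : 0 < m) {a : Sy}
    (ha : InH (mat a)) : mat (projF G a) = act G (mat a) :=
  Mo.smat_sco_of_inH (inH_act hG hm ha)

theorem proj_an {G : Matrix ν ν ℝ} {m : ℝ} (hG : Sim G m) (hm : 0 < m) {a : Sy}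
    (ha : InH (mat a)) : AnalyticAt ℂ (projF G) a := by
  refine Pool.Agent.Lib.MP_940f24_an.analyticOnNhd_of_differentiableOn Mo.isOpen_inH
    (fun t ht => DifferentiableAt.differentiableWithinAt ?_) a ha
  have h : DifferentiableAt ℂ (fun (σ : Fin 4 → Fin 4 → ℂ) i j => act G (of σ) i j)
      (Mo.smatL (Fin 4) t) := Mo.differentiableAt_act hG hm ht
  exact (proj_sco _).comp t (h.comp t (Mo.smatL (Fin 4)).differentiableAt)

theorem proj_inj {G : Matrix ν ν ℝ} {m : ℝ} (hG : Sim G m) (hm : 0 < m) {a : Sy}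
    (ha : InH (mat a)) {w : Sy} (hw : fderiv ℂ (projF G) a w = 0) : w = 0 := by
  have hb : InH (mat (projF G a)) := by
    rw [proj_mat hG hm ha]
    exact inH_act hG hm ha
  have h1 := (proj_an (hG.inv hm.ne') (inv_pos.2 hm) hb).differentiableAt.hasFDerivAt.comp a
    (proj_an hG hm ha).differentiableAt.hasFDerivAt
  have h2 := (hasFDerivAt_id (𝕜 := ℂ) a).unique (h1.congr_of_eventuallyEq (by
    filter_upwards [Mo.isOpen_inH.mem_nhds ha] with t ht
    replace ht : InH (mat t) := ht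
    rw [Function.comp_apply, projF, proj_mat hG hm ht,
      ← Mo.act_mul (hG.inv hm.ne') (inv_pos.2 hm) hG hm ht,
      nonsing_inv_mul _ (hG.det_ne_zero hm.ne').isUnit, act_one]
    exact (Mo.sco_smat t).symm))
  have h3 := DFunLike.congr_fun h2 w
  rwa [ContinuousLinearMap.comp_apply, hw, map_zero] at h3

theorem proj_T : (fun t : Sy => thN 2 (smat t)) = fun t : Sy => th2 (mat t) :=
  funext fun t => (proj_th2 (mat t)).symm

/-- `z ↦ act g (mat z)` is analytic with values in symmetric matrices; its inverse `act g⁻¹` is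
differentiable, so its derivative is injective; `null_imm` (or `Mo.imm_thN` with `N = 2`) at the
image point, `exists_null_ne_zero`. -/
theorem th2_imm {a : Sy} (ha : InH (mat a)) {g : MZ} {m : ℕ} (hm : 0 < m) (hg : Sim (zr g) m) :
    AnalyticAt ℂ (fun z => th2 (act (zr g) (mat z))) a ∧ Function.Injective fun q : ℂ × Sy =>
      q.1 • th2 (act (zr g) (mat a)) + fderiv ℂ (fun z => th2 (act (zr g) (mat z))) a q.2 := by
  have hm' : (0 : ℝ) < m := Nat.cast_pos.2 hm
  have e0 := proj_mat hg hm' ha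
  have hb : InH (mat (projF (zr g) a)) := by
    rw [e0]
    exact inH_act hg hm' ha
  have e : (fun z => th2 (act (zr g) (mat z))) =ᶠ[nhds a]
      (fun t : Sy => th2 (mat t)) ∘ projF (zr g) := by
    filter_upwards [Mo.isOpen_inH.mem_nhds ha] with t ht
    rw [Function.comp_apply, proj_mat hg hm' ht]
  have h1 := Mo.analyticAt_thN 2 (t := projF (zr g) a) hb
  have h0 := fun c w => Mo.imm_thN (N := 2) dvd_rfl (t := projF (zr g) a) hb (c := c) (w := w)
  rw [proj_T] at h1 h0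
  have h2 := proj_an hg hm' ha
  refine ⟨(h1.comp h2).congr e.symm, fun q q' h => ?_⟩
  have h3 : (q.1 - q'.1) • th2 (mat (projF (zr g) a)) +
      fderiv ℂ (fun t : Sy => th2 (mat t)) (projF (zr g) a)
        (fderiv ℂ (projF (zr g)) a (q.2 - q'.2)) = 0 := by
    rw [← ContinuousLinearMap.comp_apply, ← fderiv_comp a h1.differentiableAt h2.differentiableAt,
      ← e.fderiv_eq, e0, map_sub, sub_smul, ← add_sub_add_comm]
    exact sub_eq_zero.2 h
  rw [proj_th2] at h3
  obtain ⟨h4, h5⟩ := h0 _ _ h3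
  exact Prod.ext (sub_eq_zero.1 h4) (sub_eq_zero.1 (proj_inj hg hm' ha h5))

/-- `Gr.NoZ.int`, `Gr.gEq_of_monic` (`Gr.Ya t2 ∘ aeval (rows y) = Gr.Ya (yH y)`). -/
theorem int_of_noZ {y : Matrix (Fin 11) Bits ℂ} (h : Gr.NoZ IA y) (ε : Bits) :
    ∃ (d : ℕ) (c : ℕ → MvPolynomial (Fin 11) ℂ),
      (∀ e < d, (c e).IsHomogeneous (d - e)) ∧ ∀ τ, InH τ →
        th2 τ ε ^ d + ∑ e ∈ Finset.range d, MvPolynomial.eval (lin y τ) (c e) * th2 τ ε ^ e = 0 := by
  obtain ⟨q, hq, h1⟩ := Gr.NoZ.int (d := 10) IA_hom h ε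
  have e : (Gr.Ya (t2 (ι := Fin 4))).comp (MvPolynomial.aeval (Gr.rows y)) = Gr.Ya (yH y) := by
    refine MvPolynomial.algHom_ext fun i => ?_
    have e1 : yH y i = ∑ j, y i j • t2 (ι := Fin 4) j := by
      funext τ
      rw [Finset.sum_apply]
      rfl
    simp only [AlgHom.comp_apply, MvPolynomial.aeval_X, Gr.rows, Gr.Ya, e1, map_sum, map_smul,
      MvPolynomial.C_mul', Polynomial.smul_monomial]
  have h2 : Gr.Ya (t2 (ι := Fin 4)) _ = 0 := h1
  have h3 := Polynomial.hom_eval₂ q (MvPolynomial.aeval (Gr.rows y) :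
    Z.AA 10 →ₐ[ℂ] MvPolynomial Bits ℂ).toRingHom (Gr.Ya (t2 (ι := Fin 4))).toRingHom
    (MvPolynomial.X ε)
  have h4 : q.eval₂ (Gr.Ya (yH y)).toRingHom (Polynomial.monomial 1 (t2 ε)) = 0 := by
    rw [← e, ← h2, ← MvPolynomial.aeval_X (R := ℂ)
      (fun i => Polynomial.monomial 1 (t2 (ι := Fin 4) i)) ε]
    exact h3.symm
  obtain ⟨c, hc, h5⟩ := Gr.gEq_of_monic hq h4
  refine ⟨_, c, fun e he => by simpa only [one_mul] using hc e he, fun τ hτ => ?_⟩
  have h6 := congrFun h5 ⟨τ, hτ⟩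
  simp only [Pi.add_apply, Finset.sum_apply, Pi.mul_apply, Pi.pow_apply] at h6
  refine Eq.trans (congrArg _ (Finset.sum_congr rfl fun e _ => ?_)) h6
  exact congrArg (· * _) (aeval_yH (c e) ⟨τ, hτ⟩).symm

/-- `Gr.dm_le_of_HF`, `Gr.exists_noZ`, `Gr.isOpen_noZ`, `Gr.exists_generic` for the countable type
of pairs `(g, m)`, the maps of `th2_imm` written as matrices in a basis of `ℂ × Sy` indexed by
`Fin 11`; `Gr.eq_zero_of_etale` for `g = 1`. -/
theorem proj : PROJst := by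
  intro a ha
  obtain ⟨B, hB⟩ := IA_HF
  obtain ⟨y₀, hy₀⟩ := Gr.exists_noZ IA_prime IA_hom IA_le (Gr.dm_le_of_HF IA_prime hB)
  have hc : Countable MZ := inferInstanceAs (Countable (ν → ν → ℤ))
  have hr : Module.finrank ℂ (Fin 11 → ℂ) = Module.finrank ℂ (ℂ × Sy) := by
    rw [Module.finrank_prod, Mo.finrank_Sy_four, Module.finrank_self, Module.finrank_fin_fun]
  let e := LinearEquiv.ofFinrankEq _ _ hr
  let Λ : MZ → (ℂ × Sy →ₗ[ℂ] Bits → ℂ) := fun g =>
    (LinearMap.toSpanSingleton ℂ _ (th2 (act (zr g) (mat a)))).coprod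
      (fderiv ℂ (fun z => th2 (act (zr g) (mat z))) a).toLinearMap
  obtain ⟨y, hy, hi⟩ := Gr.exists_generic (Gr.isOpen_noZ (κ := Fin 11) IA_hom) ⟨y₀, hy₀⟩
    (fun p : {p : MZ × ℕ // 0 < p.2 ∧ Sim (zr p.1) p.2} =>
      LinearMap.toMatrix' (Λ p.1.1 ∘ₗ e.toLinearMap)) fun p x x' h => by
      rw [LinearMap.toMatrix'_mulVec, LinearMap.toMatrix'_mulVec] at h
      exact e.injective ((th2_imm ha p.2.1 p.2.2).2 h)
  have hE : EtProj (of y) a := fun g m hm hg => by
    have h1 := (th2_imm ha hm hg).1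
    let Y := LinearMap.toContinuousLinearMap (mulVecLin (of y))
    have h2 : fderiv ℂ (Thy (of y) g) a = _ :=
      (Y.hasFDerivAt.comp a h1.differentiableAt.hasFDerivAt).fderiv
    have h3 : ∀ q : ℂ × Sy, q.1 • Thy (of y) g a + fderiv ℂ (Thy (of y) g) a q.2 =
        (of y * LinearMap.toMatrix' (Λ g ∘ₗ e.toLinearMap)) *ᵥ e.symm q := fun q => by
      rw [← mulVec_mulVec, LinearMap.toMatrix'_mulVec, LinearMap.comp_apply,
        LinearEquiv.coe_coe, e.apply_symm_apply, h2, LinearMap.coprod_apply, mulVec_add,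
        LinearMap.toSpanSingleton_apply, mulVec_smul]
      rfl
    refine ⟨(Y.analyticAt _).comp h1, fun q q' h => e.symm.injective (hi ⟨(g, m), hm, hg⟩ ?_)⟩
    exact (h3 q).symm.trans (h.trans (h3 q'))
  refine ⟨of y, ⟨int_of_noZ hy, fun n φ hφ h => ?_⟩, hE⟩
  have h1 : Sim (zr 1) (1 : ℕ) := by
    rw [show zr 1 = 1 from Mo.rm_one, Nat.cast_one]
    exact Sim.one
  obtain ⟨h2, h3⟩ := hE 1 1 one_pos h1
  refine Gr.eq_zero_of_etale (by rw [Mo.finrank_Sy_four, Fintype.card_fin]) h2 h3 hφ ?_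
  filter_upwards [Mo.isOpen_inH.mem_nhds ha] with t ht
  exact h _ (inH_act h1 (Nat.cast_pos.2 one_pos) ht)

end M4
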