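import Mathlib
import Pool.Agent.Lib.MP_33b3f9_ag.M4.Proj
import Pool.Agent.Lib.MP_33b3f9_ag.M4.ModHn
import Pool.Agent.Lib.MP_33b3f9_ag.M4.ModFib

/-!
Reduction theory in the form used for the properness of the theta null map.
-/

set_option autoImplicit false

namespace M4

theorem hasRed (ι : Type) [Fintype ι] [DecidableEq ι] : HasRed ι := by
  obtain ⟨c, hc, h⟩ := siegel_red ι
  refine ⟨c, hc, fun τ hτ => ?_⟩
  obtain ⟨γ, hγ, h1⟩ := h τ hτ
  exact ⟨⟨γ, hγ⟩, h1⟩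

end M4
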