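import Pool.Agent.Lib.MP_33b3f9_ag.M4.CBTens

/-!
The tensor structure at primes that split in a suitable number field.
-/

set_option autoImplicit false

noncomputable section

namespace M4.CB

open Matrix NumberField Pool.Agent.M4 Pool.Agent.M4.Mx

variable {F : Type} [Field F] [NumberField F] {K : IntermediateField ℚ ℂ}

theorem sl2_ind {k : Type} [Field k] (p : M2 k → Prop) (hm : ∀ x y, p x → p y → p (x * y))
    (h1 : ∀ c : k, p !![1, c; 0, 1]) (h2 : ∀ c : k, p !![1, 0; c, 1]) (a : M2 k)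
    (ha : a.det = 1) : p a := by
  have key : ∀ a : M2 k, a.det = 1 → a 1 0 ≠ 0 → p a := fun a ha hc => by
    have e : a = !![1, (a 0 0 - 1) / a 1 0; 0, 1] * !![1, 0; a 1 0, 1] *
        !![1, (a 1 1 - 1) / a 1 0; 0, 1] := by
      rw [det_fin_two] at ha
      ext i j
      fin_cases i <;> fin_cases j <;> simp [Matrix.mul_apply, Fin.sum_univ_two] <;> field_simp
      · ring
      · linear_combination -ha
      · ring
    rw [e]
    exact hm _ _ (hm _ _ (h1 _) (h2 _)) (h1 _)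
  by_cases hc : a 1 0 = 0
  · have e : a = !![1, 0; -1, 1] * (!![1, 0; 1, 1] * a) := by
      rw [← mul_assoc]
      simp [← Matrix.one_fin_two]
    rw [e]
    refine hm _ _ (h2 _) (key _ ?_ ?_)
    · rw [det_mul, ha, det_fin_two]
      simp
    · rw [det_fin_two, hc, mul_zero, sub_zero] at ha
      simpa [Matrix.mul_apply, Fin.sum_univ_two, hc] using left_ne_zero_of_mul_eq_one ha
  · exact key a ha hc

theorem crt {O : Type} [CommRing O] {l : ℕ} [Fact l.Prime] (ψ : Fin 3 → O →+* ZMod l)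
    (h : ∀ i j, i ≠ j → ∃ x, ψ i x ≠ ψ j x) (f : Fin 3) (a : ZMod l) :
    ∃ y, ψ f y = a ∧ ∀ j, j ≠ f → ψ j y = 0 := by
  have h1 : ∀ j, ∃ y, ψ f y ≠ 0 ∧ (j ≠ f → ψ j y = 0) := fun j => by
    by_cases hj : j = f
    · exact ⟨1, by simp, fun h => (h hj).elim⟩
    · obtain ⟨x, hx⟩ := h j f hj
      refine ⟨x - ((ψ j x).val : O), ?_, fun _ => by simp⟩
      simpa [sub_eq_zero] using hx.symm
  choose y hy hy' using h1
  have h2 : ψ f (∏ j, y j) ≠ 0 := by
    rw [map_prod]; exact Finset.prod_ne_zero_iff.2 fun j _ => hy j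
  refine ⟨((a / ψ f (∏ j, y j)).val : O) * ∏ j, y j, ?_, fun j hj => ?_⟩
  · rw [map_mul, map_natCast, ZMod.natCast_zmod_val, div_mul_cancel₀ _ h2]
  · rw [map_mul, map_prod (ψ j), Finset.prod_eq_zero (f := fun i => ψ j (y i)) (Finset.mem_univ j)
      (hy' j hj), mul_zero]

theorem sl2_lift {O : Type} [CommRing O] {l : ℕ} [Fact l.Prime] (ψ : Fin 3 → O →+* ZMod l)
    (h : ∀ i j, i ≠ j → ∃ x, ψ i x ≠ ψ j x) (f : Fin 3) (u : M2 (ZMod l)) (hu : u.det = 1) :
    ∃ g : M2 O, g.det = 1 ∧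
      (fun j => g.map (ψ j)) = Function.update (1 : Fin 3 → M2 (ZMod l)) f u := by
  refine sl2_ind (fun u => ∃ g : M2 O, g.det = 1 ∧
    (fun j => g.map (ψ j)) = Function.update (1 : Fin 3 → M2 (ZMod l)) f u) ?_ (fun c => ?_) (fun c => ?_) u hu
  · rintro x y ⟨g, hg, hx⟩ ⟨g', hg', hy⟩
    refine ⟨g * g', by rw [det_mul, hg, hg', one_mul], funext fun j => ?_⟩
    rw [Matrix.map_mul, congrFun hx j, congrFun hy j]
    by_cases hj : j = f
    · simp [hj]
    · simp [Function.update_of_ne hj]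
  · obtain ⟨y, h1, h2⟩ := crt ψ h f c
    refine ⟨!![1, y; 0, 1], by simp [det_fin_two], funext fun j => ?_⟩
    by_cases hj : j = f
    · subst hj
      ext a b; fin_cases a <;> fin_cases b <;> simp [h1]
    · rw [Function.update_of_ne hj]
      ext a b; fin_cases a <;> fin_cases b <;> simp [h2 j hj]
  · obtain ⟨y, h1, h2⟩ := crt ψ h f c
    refine ⟨!![1, 0; y, 1], by simp [det_fin_two], funext fun j => ?_⟩
    by_cases hj : j = f
    · subst hj
      ext a b; fin_cases a <;> fin_cases b <;> simp [h1]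
    · rw [Function.update_of_ne hj]
      ext a b; fin_cases a <;> fin_cases b <;> simp [h2 j hj]

/-- A tensor frame over `ℤ_l`. -/
structure ZFr (r : Rep K) (s : Fin 3 → F →+* Qb) (l : ℕ) [Fact l.Prime]
    (io : Qb →+* PadicAlgCl l) (S : Matrix ν κ ℤ_[l]) (S' : Matrix κ ν ℤ_[l]) : Prop where
  fr : Frame r s l io (S.map (algebraMap ℤ_[l] (PadicAlgCl l)))
    (S'.map (algebraMap ℤ_[l] (PadicAlgCl l)))
  inv : S * S' = 1
  inv' : S' * S = 1
  rat : ∀ i x, io (s i x) ∈ NT.Qp l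
  im : ∀ σ, ∃ (z : ℤ_[l]) (h : Fin 3 → M2 ℤ_[l]),
    (r l σ : Matrix ν ν ℤ_[l]) = z • (S * tp h * S')
  /-- every triple of matrices of determinant one occurs modulo `l` -/
  big : ∀ u : Fin 3 → M2 (ZMod l), (∀ f, (u f).det = 1) →
    ∃ σ, S'.map PadicInt.toZMod * rb r l σ * S.map PadicInt.toZMod = tp u
  ts : TS r l (S'.map PadicInt.toZMod) (S.map PadicInt.toZMod)

theorem map_inj {l : ℕ} [Fact l.Prime] {m n : Type} {X Y : Matrix m n ℤ_[l]}
    (h : X.map (algebraMap ℤ_[l] (PadicAlgCl l)) = Y.map (algebraMap ℤ_[l] (PadicAlgCl l))) :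
    X = Y := by
  ext i j : 2
  exact algZ_inj (congrFun (congrFun h i) j)

theorem exists_Z {l : ℕ} [Fact l.Prime] {x : PadicAlgCl l} (h : x ∈ NT.Qp l) (h1 : ‖x‖ ≤ 1) :
    ∃ y : ℤ_[l], algebraMap ℤ_[l] (PadicAlgCl l) y = x := by
  obtain ⟨q, rfl⟩ := h
  exact ⟨⟨q, by rwa [norm_algQ] at h1⟩, algZ _⟩

theorem rb_mul (r : Rep K) (l : ℕ) [Fact l.Prime] (σ σ' : ℂ ≃ₐ[K] ℂ) :
    rb r l (σ * σ') = rb r l σ * rb r l σ' := by
  rw [rb, map_mul, Units.val_mul, Matrix.map_mul]; rfl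

/-- The split frame. -/
theorem zfr_of {N : M2 F → Matrix ν ν ℚ} {s : Fin 3 → F →+* Qb} {P : Matrix ν κ Qb}
    {Q : Matrix κ ν Qb} (hPQ : P * Q = 1) (hQP : Q * P = 1)
    (hN : ∀ g, (N g).map (algebraMap ℚ _) = P * tp (fun i => g.map (s i)) * Q)
    {r : Rep K} {l : ℕ} [Fact l.Prime] (hB : BigImage N (r l))
    (io : Qb →+* PadicAlgCl l) (hP : MI (P.map io)) (hQ : MI (Q.map io))
    (hP' : ∀ i j, io (P i j) ∈ NT.Qp l) (hQ' : ∀ i j, io (Q i j) ∈ NT.Qp l)
    (hs : ∀ i x, io (s i x) ∈ NT.Qp l)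
    (hd : ∀ i j, i ≠ j → ∃ x : 𝓞 F, 1 ≤ ‖io (s i x) - io (s j x)‖) :
    ∃ S S', ZFr r s l io S S' := by
  obtain ⟨B, h1, h2⟩ := hB
  set ψ := algebraMap ℤ_[l] (PadicAlgCl l) with hψ
  choose P0 hP0 using fun i j => exists_Z (hP' i j) (hP i j)
  choose Q0 hQ0 using fun i j => exists_Z (hQ' i j) (hQ i j)
  have eP : (Matrix.of P0).map ψ = P.map io := by ext i j; exact hP0 i j
  have eQ : (Matrix.of Q0).map ψ = Q.map io := by ext i j; exact hQ0 i j
  choose φ0 hφ0 using fun (i : Fin 3) (x : 𝓞 F) => exists_Z (hs i x)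
    (norm_int (map_isIntegral_int io (map_isIntegral_int (s i) x.isIntegral_coe)))
  let φ : Fin 3 → 𝓞 F →+* ℤ_[l] := fun i =>
    { toFun := φ0 i
      map_one' := algZ_inj (by rw [hφ0]; simp)
      map_mul' := fun x y => algZ_inj (by rw [map_mul, hφ0, hφ0, hφ0]; simp)
      map_zero' := algZ_inj (by rw [hφ0]; simp)
      map_add' := fun x y => algZ_inj (by rw [map_add, hφ0, hφ0, hφ0]; simp) }
  have hφ : ∀ i x, ψ (φ i x) = ri io (s i) x := hφ0
  have fr := frame_of hPQ hQP hN B h1 io hP hQ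
  rw [← eP, ← eQ, ← Matrix.map_mul, ← Matrix.map_mul] at fr
  set S := (B : Matrix ν ν ℤ_[l]) * Matrix.of P0 with hS
  set S' := Matrix.of Q0 * ((B⁻¹ : GL ν ℤ_[l]) : Matrix ν ν ℤ_[l]) with hS'
  have i1 : S * S' = 1 := map_inj (by
    rw [Matrix.map_mul, fr.inv, Matrix.map_one _ (map_zero _) (map_one _)])
  have i2 : S' * S = 1 := map_inj (by
    rw [Matrix.map_mul, fr.inv', Matrix.map_one _ (map_zero _) (map_one _)])
  have i3 : Matrix.of Q0 * Matrix.of P0 = 1 := by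
    rw [← i2, hS, hS', Matrix.mul_assoc, ← Matrix.mul_assoc (_ : Matrix ν ν ℤ_[l]), Units.inv_mul,
      Matrix.one_mul]
  have j1 : S.map PadicInt.toZMod * S'.map PadicInt.toZMod = 1 := by
    rw [← Matrix.map_mul, i1, Matrix.map_one _ (map_zero _) (map_one _)]
  have j2 : S'.map PadicInt.toZMod * S.map PadicInt.toZMod = 1 := by
    rw [← Matrix.map_mul, i2, Matrix.map_one _ (map_zero _) (map_one _)]
  have im : ∀ σ, ∃ (z : ℤ_[l]) (h : Fin 3 → M2 ℤ_[l]),
      (r l σ : Matrix ν ν ℤ_[l]) = z • (S * tp h * S') := fun σ => by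
    obtain ⟨z, c, hz⟩ := lim hN _ (h1 σ)
    refine ⟨z, fun f => hc (φ f) c, ?_⟩
    have e : ((B⁻¹ * r l σ * B : GL ν ℤ_[l]) : Matrix ν ν ℤ_[l]) =
        z • (Matrix.of P0 * tp (fun f => hc (φ f) c) * Matrix.of Q0) := by
      refine map_inj ?_
      rw [← toQ_map, hz io, Matrix.map_smul' _ _ _ (map_mul _), Matrix.map_mul, Matrix.map_mul, eP,
        eQ, tp_map]
      congr 4
      funext f
      ext a b
      simp only [hc, Matrix.map_apply, Matrix.of_apply, map_sum, map_mul, hφ, ← hψ]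
      rfl
    have e2 : r l σ = B * (B⁻¹ * r l σ * B) * B⁻¹ := by group
    rw [e2, Units.val_mul, Units.val_mul, e, hS, hS']
    simp only [Matrix.mul_smul, Matrix.smul_mul, Matrix.mul_assoc]
  have b0 : ∀ g : M2 (𝓞 F), g.det = 1 → ∃ σ, S'.map PadicInt.toZMod * rb r l σ *
      S.map PadicInt.toZMod = tp fun f => g.map (PadicInt.toZMod.comp (φ f)) := fun g hg => by
    obtain ⟨σ, hσ⟩ := h2 g hg
    refine ⟨σ, ?_⟩
    have e : ((B⁻¹ * r l σ * B : GL ν ℤ_[l]) : Matrix ν ν ℤ_[l]).map PadicInt.toZMod =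
        (Matrix.of P0 * tp (fun f => g.map (φ f)) * Matrix.of Q0).map PadicInt.toZMod := by
      ext i j
      rw [Matrix.map_apply, Matrix.map_apply, ← sub_eq_zero, ← map_sub, ← NT.emb_lt, ← norm_algZ,
        map_sub]
      have h3 := hσ i j
      rw [← norm_algQ, map_sub, ← map_N hN io, ← eP, ← eQ] at h3
      convert h3 using 3
      · exact (congrFun (congrFun (toQ_map _) i) j).symm
      · change ((_ : Matrix ν ν ℤ_[l]).map ψ) i j = _
        have e3 : (fun f => (g.map (φ f)).map ψ) = fun f => g.map (ri io (s f)) := by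
          funext f
          ext a b
          exact hφ f _
        rw [Matrix.map_mul, Matrix.map_mul, tp_map, e3]
    rw [rb, ← Matrix.map_mul, ← Matrix.map_mul, hS, hS']
    have e2 : Matrix.of Q0 * ((B⁻¹ : GL ν ℤ_[l]) : Matrix ν ν ℤ_[l]) * (r l σ : Matrix ν ν ℤ_[l]) *
        ((B : Matrix ν ν ℤ_[l]) * Matrix.of P0) = Matrix.of Q0 *
        ((B⁻¹ * r l σ * B : GL ν ℤ_[l]) : Matrix ν ν ℤ_[l]) * Matrix.of P0 := by
      simp only [Units.val_mul, Matrix.mul_assoc]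
    rw [e2, Matrix.map_mul, Matrix.map_mul, e, ← Matrix.map_mul, ← Matrix.map_mul]
    simp only [← Matrix.mul_assoc, i3, Matrix.one_mul]
    rw [Matrix.mul_assoc, i3, Matrix.mul_one, tp_map]
    rfl
  have b1 : ∀ (f : Fin 3) (u : M2 (ZMod l)), u.det = 1 → ∃ σ, S'.map PadicInt.toZMod * rb r l σ *
      S.map PadicInt.toZMod = tp (Function.update 1 f u) := fun f u hu => by
    obtain ⟨g, hg, e⟩ := sl2_lift (fun f => PadicInt.toZMod.comp (φ f)) (fun i j hij => by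
      obtain ⟨x, hx⟩ := hd i j hij
      refine ⟨x, fun h => ?_⟩
      rw [RingHom.comp_apply, RingHom.comp_apply, ← sub_eq_zero, ← map_sub, ← NT.emb_lt,
        ← norm_algZ, map_sub, hφ, hφ] at h
      exact hx.not_gt h) f u hu
    rw [← e]
    exact b0 g hg
  refine ⟨S, S', fr, i1, i2, hs, im, fun u hu => ?_, j2, j1, fun σ => ?_, b1⟩
  · choose σ hσ using fun f => b1 f (u f) (hu f)
    refine ⟨σ 0 * σ 1 * σ 2, ?_⟩
    have e : u = Function.update (1 : Fin 3 → M2 (ZMod l)) 0 (u 0) *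
        Function.update (1 : Fin 3 → M2 (ZMod l)) 1 (u 1) *
        Function.update (1 : Fin 3 → M2 (ZMod l)) 2 (u 2) := by
      funext f; fin_cases f <;> simp
    rw [e, ← tp_mul, ← tp_mul, ← hσ, ← hσ, ← hσ, rb_mul, rb_mul]
    simp only [Matrix.mul_assoc]
    simp only [← Matrix.mul_assoc (S.map _) (S'.map _), j1, Matrix.one_mul]
  · obtain ⟨z, h, e⟩ := im σ
    let c : Fin 3 → ZMod l := Function.update 1 0 (PadicInt.toZMod z)
    refine ⟨fun f => c f • (h f).map PadicInt.toZMod, ?_⟩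
    clear_value S S'
    rw [rb, e, Matrix.map_smul' _ _ _ (map_mul _), Matrix.map_mul, Matrix.map_mul, tp_smul, tp_map,
      Matrix.mul_smul, Matrix.smul_mul]
    simp only [← Matrix.mul_assoc, j2, Matrix.one_mul]
    rw [Matrix.mul_assoc, j2, Matrix.mul_one]
    congr 1
    simp [c, Fin.prod_univ_three]

omit [NumberField F] in
theorem exists_sep {s : Fin 3 → F →+* Qb} [NumberField F] (hs : s.Injective) (i j : Fin 3) :
    ∃ x : 𝓞 F, i ≠ j → s i x ≠ s j x := by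
  by_cases hij : i = j
  · exact ⟨0, fun h => (h hij).elim⟩
  by_contra h
  push Not at h
  refine hij (hs (RingHom.ext fun x => ?_))
  obtain ⟨a, b, hb, rfl⟩ := IsFractionRing.div_surjective (A := 𝓞 F) x
  rw [map_div₀, map_div₀]
  exact congrArg₂ _ (h a).2 (h b).2

theorem exists_io (L : IntermediateField ℚ Qb) {l : ℕ} [Fact l.Prime] (ε : L →+* ℚ_[l]) :
    ∃ io : Qb →+* PadicAlgCl l, ∀ x : L, io x = algebraMap ℚ_[l] (PadicAlgCl l) (ε x) := by
  let : Algebra L (PadicAlgCl l) := ((algebraMap ℚ_[l] (PadicAlgCl l)).comp ε).toAlgebra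
  have := isAlg
  have : Algebra.IsAlgebraic L Qb := Algebra.IsAlgebraic.tower_top (K := ℚ) L
  exact ⟨(IsAlgClosed.lift : Qb →ₐ[L] PadicAlgCl l), fun x =>
    (IsAlgClosed.lift : Qb →ₐ[L] PadicAlgCl l).commutes x⟩

/-- The split form of TENS: a number field `L` (containing any given finite set `T`) such that at
large primes split in `L` the frame is defined over `ℤ_l`. -/
theorem exists_zfr {N : M2 F → Matrix ν ν ℚ} {s : Fin 3 → F →+* Qb} {P : Matrix ν κ Qb}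
    {Q : Matrix κ ν Qb} (hs : s.Injective) (hPQ : P * Q = 1) (hQP : Q * P = 1)
    (hN : ∀ g, (N g).map (algebraMap ℚ _) = P * tp (fun i => g.map (s i)) * Q)
    {r : Rep K} {l₀ : ℕ} (hB : ∀ (l : ℕ) [Fact l.Prime], l₀ < l → BigImage N (r l))
    (T : Finset Qb) :
    ∃ (L : IntermediateField ℚ Qb) (_ : NumberField L) (l₁ : ℕ), (∀ x ∈ T, x ∈ L) ∧
      (∀ i x, s i x ∈ L) ∧ ∀ (l : ℕ) [Fact l.Prime], l₁ < l → NT.Spl L l → l ≡ 1 [MOD 32] ∧
        ∃ (io : Qb →+* PadicAlgCl l) (S : Matrix ν κ ℤ_[l]) (S' : Matrix κ ν ℤ_[l]),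
          ZFr r s l io S S' ∧ ∀ x ∈ L, io x ∈ NT.Qp l := by
  classical
  obtain ⟨ζ, hζ⟩ := HasEnoughRootsOfUnity.exists_primitiveRoot Qb 32
  let b := Module.finBasis ℚ F
  let U : Set Qb := ((T : Set Qb) ∪ {ζ}) ∪ ((Set.range fun x : ν × κ => P x.1 x.2) ∪
    (Set.range fun x : κ × ν => Q x.1 x.2)) ∪
    Set.range fun x : Fin 3 × Fin (Module.finrank ℚ F) => s x.1 (b x.2)
  have hU : U.Finite := ((T.finite_toSet.union (Set.finite_singleton _)).union
    ((Set.finite_range _).union (Set.finite_range _))).union (Set.finite_range _)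
  have : Finite U := hU
  let L := IntermediateField.adjoin ℚ U
  have hL : ∀ x ∈ U, x ∈ L := fun x hx => IntermediateField.subset_adjoin ℚ U hx
  have : FiniteDimensional ℚ L := IntermediateField.finiteDimensional_adjoin fun x _ =>
    (isAlg.isAlgebraic x).isIntegral
  have hNF : NumberField L := ⟨⟩
  have hsL : ∀ i x, s i x ∈ L := fun i x => by
    rw [← b.sum_repr x, map_sum]
    refine sum_mem fun k _ => ?_
    rw [Rat.smul_def, map_mul, map_ratCast]
    exact mul_mem (SubfieldClass.ratCast_mem L _) (hL _ (Or.inr ⟨(i, k), rfl⟩))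
  choose x hx using exists_sep hs
  obtain ⟨a1, h1⟩ := exists_l1 fun x : ν × κ => P x.1 x.2
  obtain ⟨a2, h2⟩ := exists_l1 fun x : κ × ν => Q x.1 x.2
  obtain ⟨a3, h3⟩ := exists_l1 fun y : Fin 3 × Fin 3 => (s y.1 (x y.1 y.2) - s y.2 (x y.1 y.2))⁻¹
  obtain ⟨a4, h4⟩ := NT.emb L
  refine ⟨L, hNF, max (max l₀ 32) (max (max a1 a2) (max a3 a4)),
    fun x hx => hL x (Or.inl (Or.inl (Or.inl hx))), hsL, fun l hp hl hS => ?_⟩
  simp only [max_lt_iff] at hl
  obtain ⟨⟨k0, k1⟩, ⟨k2, k3⟩, k4, k5⟩ := hl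
  refine ⟨NT.Spl.modEq hp.out (fun h => (Nat.le_of_dvd (by norm_num) h).not_gt k1)
    (ζ := ⟨ζ, hL _ (Or.inl (Or.inl (Or.inr rfl)))⟩) (IsPrimitiveRoot.coe_submonoidClass_iff.1 hζ)
    hS, ?_⟩
  obtain ⟨ε⟩ := (h4 l k5.le).1 hS
  obtain ⟨io, hio⟩ := exists_io L ε
  have hQp : ∀ x ∈ L, io x ∈ NT.Qp l := fun x hx => ⟨_, (hio ⟨x, hx⟩).symm⟩
  obtain ⟨S, S', h⟩ := zfr_of hPQ hQP hN (hB l k0) io (fun i j => h1 l k2 io (i, j))
    (fun i j => h2 l k3 io (i, j))
    (fun i j => hQp _ (hL _ (Or.inl (Or.inr (Or.inl ⟨(i, j), rfl⟩)))))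
    (fun i j => hQp _ (hL _ (Or.inl (Or.inr (Or.inr ⟨(i, j), rfl⟩)))))
    (fun i x => hQp _ (hsL i x)) fun i j hij => ⟨x i j, by
      have h5 := h3 l k4 io (i, j)
      rw [map_inv₀, norm_inv, map_sub] at h5
      refine (inv_le_one₀ (norm_pos_iff.2 ?_)).1 h5
      rw [← map_sub, map_ne_zero]
      exact sub_ne_zero.2 (hx i j hij)⟩
  exact ⟨io, S, S', h, hQp⟩

end M4.CB
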