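import Mathlib

/-! Maximality of `sl2 + sl2 + sl2` in `sp8`. -/

open Matrix

namespace Pool.Agent.M4.Mx

set_option linter.unnecessarySeqFocus false

noncomputable section

/-- two by two matrices -/
abbrev M2 (R : Type*) : Type _ := Matrix (Fin 2) (Fin 2) R

section ring

variable (R : Type*) [CommRing R]

/-- the basis `1, e, f, h` -/
def bas : Fin 4 → M2 R := ![1, !![0, 1; 0, 0], !![0, 0; 1, 0], !![1, 0; 0, -1]]

/-- the signs of `1, e, f, h` -/
def sg : Fin 4 → R := ![1, -1, -1, -1]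

variable {R}

lemma bas_zero : bas R 0 = 1 := rfl

lemma bas_br : bas R 1 * bas R 2 - bas R 2 * bas R 1 = bas R 3 := by
  ext i j
  fin_cases i <;> fin_cases j <;> simp [bas]

lemma bas_sq1 : bas R 1 * bas R 1 = 0 := by
  ext i j
  fin_cases i <;> fin_cases j <;> simp [bas]

lemma bas_sq2 : bas R 2 * bas R 2 = 0 := by
  ext i j
  fin_cases i <;> fin_cases j <;> simp [bas]

/-- the commutator with `x` -/
def ad {A : Type*} [Ring A] [Algebra R A] (x : A) : Module.End R A :=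
  LinearMap.mulLeft R x - LinearMap.mulRight R x

lemma ad_apply {A : Type*} [Ring A] [Algebra R A] (x y : A) : ad (R := R) x y = x * y - y * x := rfl

end ring

variable {Ω : Type*} [Field Ω] [CharZero Ω]

variable (Ω) in
/-- words in `ad e`, `ad f` -/
def Wd : Submonoid (Module.End Ω (M2 Ω)) := Submonoid.closure {ad (bas Ω 1), ad (bas Ω 2)}

omit [CharZero Ω] in
lemma Wd_e : ad (bas Ω 1) ∈ Wd Ω := Submonoid.subset_closure (by simp)

omit [CharZero Ω] in
lemma Wd_f : ad (bas Ω 2) ∈ Wd Ω := Submonoid.subset_closure (by simp)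

lemma Wd_down (w : Fin 4) (hw : w ≠ 0) : ∃ φ ∈ Wd Ω, ∃ c : Ω, c ≠ 0 ∧
    ∀ v, φ (bas Ω v) = if v = w then c • bas Ω 1 else 0 := by
  have e2 := mul_mem (Wd_e (Ω := Ω)) Wd_e
  fin_cases w
  · exact absurd rfl hw
  · refine ⟨_, mul_mem e2 (mul_mem Wd_f Wd_f), 4, by norm_num, fun v => ?_⟩
    ext i j
    fin_cases v <;> fin_cases i <;> fin_cases j <;> simp [ad_apply, bas] <;>
      norm_num
  · refine ⟨_, e2, -2, by norm_num, fun v => ?_⟩
    ext i j
    fin_cases v <;> fin_cases i <;> fin_cases j <;> simp [ad_apply, bas] <;>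
      norm_num
  · refine ⟨_, mul_mem e2 Wd_f, -4, by norm_num, fun v => ?_⟩
    ext i j
    fin_cases v <;> fin_cases i <;> fin_cases j <;> simp [ad_apply, bas] <;>
      norm_num

lemma Wd_up (w : Fin 4) (hw : w ≠ 0) : ∃ φ ∈ Wd Ω, ∃ c : Ω, c ≠ 0 ∧
    φ (bas Ω 1) = c • bas Ω w := by
  fin_cases w
  · exact absurd rfl hw
  · exact ⟨1, one_mem _, 1, one_ne_zero, by simp⟩
  · refine ⟨_, mul_mem Wd_f Wd_f, -2, by norm_num, ?_⟩
    ext i j
    fin_cases i <;> fin_cases j <;> simp [ad_apply, bas] <;>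
      norm_num
  · refine ⟨_, Wd_f, -1, by norm_num, ?_⟩
    ext i j
    fin_cases i <;> fin_cases j <;> simp [ad_apply, bas]

end

end Pool.Agent.M4.Mx
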