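import Pool.Agent.Lib.MP_33b3f9_ag.M4.Stmt
import Pool.Agent.Lib.MP_33b3f9_ag.M4.MxA

/-! Tensor products of three `2 × 2` matrices, frames. -/

open Matrix Function

namespace Pool.Agent.M4.Mx

noncomputable section

/-- the index set of the tensor cube -/
abbrev κ : Type := Fin 3 → Fin 2

variable {R : Type*} [CommRing R]

lemma tp_apply (a : Fin 3 → M2 R) (i j : κ) : tp a i j = ∏ s, a s (i s) (j s) := rfl

lemma tp_mul (a b : Fin 3 → M2 R) : tp a * tp b = tp (a * b) := by
  ext i j
  simp only [Matrix.mul_apply, tp_apply, Pi.mul_apply, ← Finset.prod_mul_distrib]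
  rw [Finset.prod_univ_sum, Fintype.piFinset_univ]

lemma tp_one : tp (1 : Fin 3 → M2 R) = 1 := by
  ext i j
  simp only [tp_apply, Pi.one_apply, Matrix.one_apply, Finset.prod_boole, funext_iff]
  simp

lemma tp_update (a : Fin 3 → M2 R) (s : Fin 3) (x : M2 R) (i j : κ) :
    tp (update a s x) i j = x (i s) (j s) * ∏ t ∈ Finset.univ.erase s, a t (i t) (j t) := by
  rw [tp_apply, ← Finset.mul_prod_erase _ _ (Finset.mem_univ s), update_self]
  congr 1
  exact Finset.prod_congr rfl fun t ht => by rw [update_of_ne (Finset.ne_of_mem_erase ht)]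

lemma tp_update_add (a : Fin 3 → M2 R) (s : Fin 3) (x y : M2 R) :
    tp (update a s (x + y)) = tp (update a s x) + tp (update a s y) := by
  ext i j
  simp only [tp_update, Matrix.add_apply, add_mul]

lemma tp_update_smul (a : Fin 3 → M2 R) (s : Fin 3) (c : R) (x : M2 R) :
    tp (update a s (c • x)) = c • tp (update a s x) := by
  ext i j
  simp only [tp_update, Matrix.smul_apply, smul_eq_mul, mul_assoc]

lemma tp_single (i j : κ) : tp (fun s => single (i s) (j s) (1 : R)) = single i j 1 := by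
  ext a b
  simp only [tp_apply, Matrix.single_apply, Finset.prod_boole, funext_iff]
  simp [forall_and]

lemma tp_map {S : Type*} [CommRing S] (φ : R →+* S) (a : Fin 3 → M2 R) :
    (tp a).map φ = tp fun s => (a s).map φ := by
  ext i j
  simp [tp_apply]

lemma tp_smul (c : Fin 3 → R) (a : Fin 3 → M2 R) :
    tp (fun s => c s • a s) = (∏ s, c s) • tp a := by
  ext i j
  simp [tp_apply, Finset.prod_mul_distrib]

/-- an identification of `R^ν` with the tensor cube of `R^2` -/
structure Fr (ν : Type) [Fintype ν] [DecidableEq ν] (R : Type*) [CommRing R] where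
  /-- from the cube -/
  P : Matrix ν κ R
  /-- to the cube -/
  Q : Matrix κ ν R
  pq : P * Q = 1
  qp : Q * P = 1

variable {ν : Type} [Fintype ν] [DecidableEq ν]

namespace Fr

variable (f : Fr ν R)

/-- the tensor product in the frame -/
def T (a : Fin 3 → M2 R) : Matrix ν ν R := f.P * tp a * f.Q

lemma T_mul (a b : Fin 3 → M2 R) : f.T a * f.T b = f.T (a * b) := by
  rw [T, T, T, ← tp_mul]
  calc f.P * tp a * f.Q * (f.P * tp b * f.Q) = f.P * tp a * (f.Q * f.P) * tp b * f.Q := by
        simp only [Matrix.mul_assoc]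
    _ = _ := by rw [f.qp, Matrix.mul_one, Matrix.mul_assoc f.P]

lemma T_one : f.T 1 = 1 := by rw [T, tp_one, Matrix.mul_one, f.pq]

lemma QTP (a : Fin 3 → M2 R) : f.Q * f.T a * f.P = tp a := by
  calc f.Q * f.T a * f.P = (f.Q * f.P) * tp a * (f.Q * f.P) := by simp only [T, Matrix.mul_assoc]
    _ = _ := by rw [f.qp, Matrix.mul_one, Matrix.one_mul]

lemma PQ_conj (g : Matrix ν ν R) : f.P * (f.Q * g * f.P) * f.Q = g := by
  calc f.P * (f.Q * g * f.P) * f.Q = (f.P * f.Q) * g * (f.P * f.Q) := by
        simp only [Matrix.mul_assoc]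
    _ = _ := by rw [f.pq, Matrix.mul_one, Matrix.one_mul]

lemma T_smul (c : Fin 3 → R) (a : Fin 3 → M2 R) :
    f.T (fun s => c s • a s) = (∏ s, c s) • f.T a := by
  rw [T, T, tp_smul, Matrix.mul_smul, Matrix.smul_mul]

/-- the action in one slot -/
def u (s : Fin 3) : M2 R →ₐ[R] Matrix ν ν R :=
  AlgHom.ofLinearMap
    { toFun := fun x => f.T (update 1 s x)
      map_add' := fun x y => by simp only [T, tp_update_add, Matrix.mul_add, Matrix.add_mul]
      map_smul' := fun c x => by
        simp only [T, tp_update_smul, Matrix.mul_smul, Matrix.smul_mul, RingHom.id_apply] }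
    (by
      change f.T (update 1 s ((1 : Fin 3 → M2 R) s)) = 1
      rw [update_eq_self, T_one])
    (fun x y => by
      change f.T (update 1 s (x * y)) = f.T (update 1 s x) * f.T (update 1 s y)
      rw [T_mul, ← update_mul, mul_one])

lemma u_apply (s : Fin 3) (x : M2 R) : f.u s x = f.T (update 1 s x) := rfl

lemma u_comm {s t : Fin 3} (h : s ≠ t) (x y : M2 R) : f.u s x * f.u t y = f.u t y * f.u s x := by
  rw [u_apply, u_apply, T_mul, T_mul]
  congr 1
  funext r
  by_cases h1 : r = s
  · subst h1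
    simp [update_of_ne h]
  · by_cases h2 : r = t
    · subst h2
      simp [update_of_ne h1]
    · simp [update_of_ne h1, update_of_ne h2]

lemma T_eq (a : Fin 3 → M2 R) : f.T a = f.u 0 (a 0) * f.u 1 (a 1) * f.u 2 (a 2) := by
  rw [u_apply, u_apply, u_apply, T_mul, T_mul]
  congr 1
  funext r
  fin_cases r <;> simp

/-- the Lie algebra of the image of `GL2 × GL2 × GL2` -/
def m : Submodule R (Matrix ν ν R) := ⨆ s, LinearMap.range (f.u s).toLinearMap

lemma u_mem_m (s : Fin 3) (x : M2 R) : f.u s x ∈ f.m :=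
  Submodule.mem_iSup_of_mem s ⟨x, rfl⟩

/-- the Lie algebra of the image of `SL2 × SL2 × SL2` -/
def sl : Submodule R (Matrix ν ν R) :=
  Submodule.span R (Set.range fun p : Fin 3 × Fin 3 => f.u p.1 (bas R p.2.succ))

/-- change of rings -/
def map {S : Type*} [CommRing S] (φ : R →+* S) : Fr ν S where
  P := f.P.map φ
  Q := f.Q.map φ
  pq := by rw [← Matrix.map_mul, f.pq, Matrix.map_one _ (map_zero φ) (map_one φ)]
  qp := by rw [← Matrix.map_mul, f.qp, Matrix.map_one _ (map_zero φ) (map_one φ)]

lemma map_T {S : Type*} [CommRing S] (φ : R →+* S) (a : Fin 3 → M2 R) :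
    (f.T a).map φ = (f.map φ).T fun s => (a s).map φ := by
  rw [T, T, Matrix.map_mul, Matrix.map_mul, tp_map]
  rfl

/-- change of basis -/
def conj (B : GL ν R) : Fr ν R where
  P := (B : Matrix ν ν R) * f.P
  Q := f.Q * ((B⁻¹ : GL ν R) : Matrix ν ν R)
  pq := by rw [Matrix.mul_assoc, ← Matrix.mul_assoc f.P, f.pq, Matrix.one_mul, Units.mul_inv]
  qp := by
    rw [Matrix.mul_assoc, ← Matrix.mul_assoc _ _ f.P, Units.inv_mul, Matrix.one_mul, f.qp]

lemma conj_T (B : GL ν R) (a : Fin 3 → M2 R) :
    (f.conj B).T a = (B : Matrix ν ν R) * f.T a * ((B⁻¹ : GL ν R) : Matrix ν ν R) := by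
  simp only [T, conj, Matrix.mul_assoc]

end Fr

/-- `Y` lies in the Lie algebra of the form `E` -/
def Sp (E Y : Matrix ν ν R) : Prop := Yᵀ * E + E * Y = 0

/-- the rank one equations of the cone of pure tensors -/
def Rk (G : Matrix κ κ R) : Prop :=
  ∀ (s : Fin 3) (a b c d : κ), G (update a s (b s)) c * G (update b s (a s)) d =
    G a (update c s (d s)) * G b (update d s (c s))

end

end Pool.Agent.M4.Mx
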