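import Pool.Agent.Lib.MP_33b3f9_ag.M4.NTDefs

/-!
Primes of degree one and embeddings into the field of l-adic numbers.
-/

set_option autoImplicit false

namespace M4.NT

open NumberField Module Filter Topology

variable (K : Type) [Field K] [NumberField K]

/-- A ring hom to `ZMod l` is onto, its kernel has index `l`; an ideal of norm `l` has a quotient of
order `l`, which is `ZMod l` (`ZMod.ringEquivOfPrime`); two homs with the same kernel agree
(`x - (φ x).val` lies in the kernel). -/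
theorem card_hom (l : ℕ) [Fact l.Prime] :
    Nat.card (𝓞 K →+* ZMod l) = Nat.card {I : Ideal (𝓞 K) // Ideal.absNorm I = l} := by
  have hl : l.Prime := Fact.out
  have h1 : ∀ φ : 𝓞 K →+* ZMod l, Ideal.absNorm (RingHom.ker φ) = l := fun φ => by
    rw [Ideal.absNorm_apply, Submodule.cardQuot_apply,
      Nat.card_congr (RingHom.quotientKerEquivOfSurjective (ZMod.ringHom_surjective φ)).toEquiv,
      Nat.card_zmod]
  refine Nat.card_eq_of_bijective (fun φ => ⟨RingHom.ker φ, h1 φ⟩) ⟨fun φ ψ h => ?_, fun I => ?_⟩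
  · exact ZMod.ringHom_eq_of_ker_eq φ ψ (congrArg Subtype.val h)
  · obtain ⟨I, hI⟩ := I
    rw [Ideal.absNorm_apply, Submodule.cardQuot_apply] at hI
    have : Finite (𝓞 K ⧸ I) := Nat.finite_of_card_ne_zero (hI ▸ hl.ne_zero)
    have := Fintype.ofFinite (𝓞 K ⧸ I)
    let e := ZMod.ringEquivOfPrime (𝓞 K ⧸ I) hl (Nat.card_eq_fintype_card.symm.trans hI)
    refine ⟨(e.symm : 𝓞 K ⧸ I →+* ZMod l).comp (Ideal.Quotient.mk I), Subtype.ext ?_⟩
    ext x
    simp [RingHom.mem_ker, Ideal.Quotient.eq_zero_iff_mem]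

theorem emb_gen : ∃ B : PowerBasis ℚ K, IsIntegral ℤ B.gen := by
  let B := Field.powerBasisOfFiniteOfSeparable ℚ K
  have ha : IsAlgebraic ℤ B.gen :=
    (IsFractionRing.isAlgebraic_iff ℤ ℚ K).2 (Algebra.IsAlgebraic.isAlgebraic _)
  obtain ⟨y, hy, hi⟩ := ha.exists_integral_multiple
  refine ⟨PowerBasis.ofAdjoinEqTop (x := y • B.gen) (Algebra.IsIntegral.isIntegral _)
    (B.adjoin_eq_top_of_gen_mem_adjoin ?_), hi⟩
  have h := Subalgebra.smul_mem _ (Algebra.self_mem_adjoin_singleton ℚ (y • B.gen)) (y : ℚ)⁻¹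
  rwa [← Int.cast_smul_eq_zsmul ℚ, smul_smul, inv_mul_cancel₀ (Int.cast_ne_zero.2 hy), one_smul,
    Int.cast_smul_eq_zsmul] at h

/-- The data used for `card_emb`. -/
theorem emb_data : ∃ (B : PowerBasis ℚ K) (θ : 𝓞 K) (f : Polynomial ℤ) (m d : ℤ), B.gen = θ ∧
    minpoly ℚ B.gen = f.map (algebraMap ℤ ℚ) ∧ m ≠ 0 ∧ d ≠ 0 ∧
    (∀ x : 𝓞 K, ∃ p : Polynomial ℤ, m * x = Polynomial.aeval θ p) ∧
    Polynomial.aeval θ f.derivative ∣ (d : 𝓞 K) := by
  obtain ⟨B, hB⟩ := emb_gen K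
  obtain ⟨m, hm⟩ := IsIntegrallyClosed.isIntegral_iff.1 (Algebra.discr_isIntegral ℚ
    (b := B.basis) fun i => by rw [B.basis_eq_pow]; exact hB.pow _)
  have hf := minpoly.isIntegrallyClosed_eq_field_fractions' ℚ hB
  have ha : ∀ p : Polynomial ℤ, ((Polynomial.aeval (⟨B.gen, hB⟩ : 𝓞 K) p : 𝓞 K) : K) =
      Polynomial.aeval B.gen p := fun p =>
    (Polynomial.aeval_algebraMap_apply K (⟨B.gen, hB⟩ : 𝓞 K) p).symm
  have h0 : Polynomial.aeval (⟨B.gen, hB⟩ : 𝓞 K) (minpoly ℤ B.gen).derivative ≠ 0 := by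
    intro h
    have h1 := (Algebra.IsSeparable.isSeparable ℚ B.gen).aeval_derivative_ne_zero
      (minpoly.aeval ℚ B.gen)
    rw [hf, Polynomial.derivative_map, Polynomial.aeval_map_algebraMap, ← ha, h] at h1
    exact h1 rfl
  obtain ⟨d, hd, hd'⟩ := (Algebra.IsAlgebraic.isAlgebraic (R := ℤ) _).exists_nonzero_dvd
    (mem_nonZeroDivisors_of_ne_zero h0)
  refine ⟨B, ⟨B.gen, hB⟩, minpoly ℤ B.gen, m, d, rfl, hf, ?_, hd, fun x => ?_, hd'⟩
  · rintro rfl
    exact Algebra.discr_not_zero_of_basis ℚ B.basis (by rw [← hm, map_zero])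
  · have h := Algebra.discr_mul_isIntegral_mem_adjoin ℚ hB x.isIntegral_coe
    rw [Algebra.adjoin_singleton_eq_range_aeval, ← hm] at h
    obtain ⟨p, hp⟩ := h
    refine ⟨p, RingOfIntegers.coe_injective ?_⟩
    refine Eq.trans ?_ (hp.symm.trans (ha p).symm)
    simp [Algebra.smul_def]

variable {K}

theorem emb_norm {l : ℕ} [Fact l.Prime] (σ : K →+* ℚ_[l]) (x : 𝓞 K) : ‖σ x‖ ≤ 1 := by
  have h : IsIntegral ℤ_[l] (σ x) := (map_isIntegral_int σ x.isIntegral_coe).tower_top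
  obtain ⟨y, hy⟩ := IsIntegrallyClosed.isIntegral_iff.1 h
  exact hy ▸ y.2

/-- An embedding restricted to the integers. -/
noncomputable def emb_res {l : ℕ} [Fact l.Prime] (σ : K →+* ℚ_[l]) : 𝓞 K →+* ℤ_[l] where
  toFun x := ⟨σ x, emb_norm σ x⟩
  map_one' := Subtype.ext (by simp)
  map_mul' x y := Subtype.ext (by simp)
  map_zero' := Subtype.ext (by simp)
  map_add' x y := Subtype.ext (by simp)

theorem emb_lt {l : ℕ} [Fact l.Prime] (z : ℤ_[l]) : ‖z‖ < 1 ↔ PadicInt.toZMod z = 0 := by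
  rw [← RingHom.mem_ker, PadicInt.ker_toZMod, IsLocalRing.mem_maximalIdeal, PadicInt.mem_nonunits]

theorem emb_aeval {R S : Type} [CommRing R] [CommRing S] (φ : R →+* S) (x : R) (p : Polynomial ℤ) :
    φ (Polynomial.aeval x p) = Polynomial.aeval (φ x) p :=
  (Polynomial.aeval_algHom_apply φ.toIntAlgHom x p).symm

theorem emb_hensel {l : ℕ} [Fact l.Prime] (f : Polynomial ℤ) (a : ZMod l)
    (h0 : Polynomial.aeval a f = 0) (h1 : Polynomial.aeval a f.derivative ≠ 0) :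
    ∃! z : ℤ_[l], Polynomial.aeval z f = 0 ∧ PadicInt.toZMod z = a := by
  obtain ⟨b, rfl⟩ := ZMod.ringHom_surjective (PadicInt.toZMod (p := l)) a
  rw [← emb_aeval, ← emb_lt] at h0
  rw [← emb_aeval, Ne, ← emb_lt, not_lt] at h1
  have h2 := le_antisymm (PadicInt.norm_le_one _) h1
  obtain ⟨z, hz, hz1, -, hz2⟩ := hensels_lemma (F := f) (a := b) (by rw [h2, one_pow]; exact h0)
  rw [h2] at hz1 hz2
  refine ⟨z, ⟨hz, ?_⟩, fun y hy => hz2 y hy.1 ?_⟩
  · rwa [emb_lt, map_sub, sub_eq_zero] at hz1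
  · rw [emb_lt, map_sub, hy.2, sub_self]

variable (K)

/-- Take `θ : 𝓞 K` generating `K` over `ℚ`, `f = minpoly ℤ θ`, `m ≠ 0` with `m * x` in `ℤ[θ]` for
all integers `x` (clear denominators on an integral basis) and `u * f + v * f' = d ≠ 0` in `ℤ[X]`
(`f` is separable over `ℚ`). For `l > |m * d|`: homs `𝓞 K → ZMod l` inject into the roots of `f` in
`ZMod l`; these are simple, so they lift to roots in `ℤ_[l]` (`hensels_lemma`), which are embeddings
(`PowerBasis.lift`). Conversely an embedding maps `𝓞 K` into `ℤ_[l]` (integrally closed), compose with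
`PadicInt.toZMod`; two roots of `f` in `ℤ_[l]` with the same reduction are equal
(`f y - f x = (y - x) * (f' x + (y - x) * _)` and `f' x` is a unit). -/
theorem card_emb : ∃ l0 : ℕ, ∀ (l : ℕ) [Fact l.Prime], l0 ≤ l →
    Nat.card (K →+* ℚ_[l]) = Nat.card (𝓞 K →+* ZMod l) := by
  obtain ⟨B, θ, f, m, d, hθ, hf, hm, hd, hp, c, hc⟩ := emb_data K
  refine ⟨(m * d).natAbs + 1, fun l _ hl => ?_⟩
  have hmd : ((m * d : ℤ) : ZMod l) ≠ 0 := fun h => by
    have h1 := Int.natCast_dvd.1 ((ZMod.intCast_zmod_eq_zero_iff_dvd _ _).1 h)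
    have h2 := Nat.le_of_dvd (Int.natAbs_pos.2 (mul_ne_zero hm hd)) h1
    omega
  rw [Int.cast_mul, mul_ne_zero_iff] at hmd
  have hf0 : Polynomial.aeval θ f = 0 := by
    apply RingOfIntegers.coe_injective
    rw [← Polynomial.aeval_algebraMap_apply, ← Polynomial.aeval_map_algebraMap ℚ, ← hf, map_zero]
    exact hθ ▸ minpoly.aeval ℚ B.gen
  have key : ∀ φ : 𝓞 K →+* ZMod l,
      ∃! z : ℤ_[l], Polynomial.aeval z f = 0 ∧ PadicInt.toZMod z = φ θ := fun φ => by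
    refine emb_hensel f _ (by rw [← emb_aeval, hf0, map_zero]) fun h => hmd.2 ?_
    rw [← map_intCast φ, hc, map_mul, emb_aeval, h, zero_mul]
  refine Nat.card_eq_of_bijective (fun σ => PadicInt.toZMod.comp (emb_res σ))
    ⟨fun σ τ h => ?_, fun φ => ?_⟩
  · have h1 : emb_res σ θ = emb_res τ θ := (key (PadicInt.toZMod.comp (emb_res τ))).unique
      ⟨by rw [← emb_aeval, hf0, map_zero], DFunLike.congr_fun h θ⟩
      ⟨by rw [← emb_aeval, hf0, map_zero], rfl⟩
    have h2 : σ.toRatAlgHom = τ.toRatAlgHom :=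
      B.algHom_ext (by rw [hθ]; exact congrArg Subtype.val h1)
    exact RingHom.ext fun x => DFunLike.congr_fun h2 x
  · obtain ⟨z, ⟨hz, hz1⟩, -⟩ := key φ
    have h1 : Polynomial.aeval (z : ℚ_[l]) (minpoly ℚ B.gen) = 0 := by
      rw [hf, Polynomial.aeval_map_algebraMap]
      exact (emb_aeval (algebraMap ℤ_[l] ℚ_[l]) z f).symm.trans (by rw [hz, map_zero])
    have h2 : emb_res (B.lift _ h1 : K →+* ℚ_[l]) θ = z :=
      Subtype.ext (show B.lift _ h1 (θ : K) = z by rw [← hθ, B.lift_gen])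
    refine ⟨(B.lift _ h1 : K →+* ℚ_[l]), RingHom.ext fun x => mul_left_cancel₀ hmd.1 ?_⟩
    obtain ⟨p, hp⟩ := hp x
    have h3 : ∀ ψ : 𝓞 K →+* ZMod l, m * ψ x = Polynomial.aeval (ψ θ) p := fun ψ => by
      rw [← emb_aeval, ← hp, map_mul, map_intCast]
    rw [h3, h3, RingHom.comp_apply, h2, hz1]

/-- `card_emb`, both types are finite. -/
theorem emb : ∃ l0 : ℕ, ∀ (l : ℕ) [Fact l.Prime], l0 ≤ l → (Spl K l ↔ Nonempty (K →+* ℚ_[l])) := by
  obtain ⟨l0, h⟩ := card_emb K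
  refine ⟨l0, fun l _ hl => ?_⟩
  have h1 := h l hl
  have : Finite (K →+* ℚ_[l]) := Finite.of_equiv _ (RingHom.equivRatAlgHom K ℚ_[l]).symm
  have : Finite (𝓞 K →+* ZMod l) := Finite.of_injective
    (fun φ i => φ (RingOfIntegers.basis K i)) fun φ ψ h => RingHom.ext fun x =>
      DFunLike.congr_fun ((RingOfIntegers.basis K).ext (f₁ := φ.toIntAlgHom.toLinearMap)
        (f₂ := ψ.toIntAlgHom.toLinearMap) fun i => congrFun h i) x
  rw [Spl, ← Finite.card_pos_iff, ← Finite.card_pos_iff, h1]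

/-- The image of `ζ` is a root of the cyclotomic polynomial in `ZMod l`
(`Polynomial.isRoot_cyclotomic_iff`), so it has order `N`; `ZMod.orderOf_dvd_card_sub_one`. -/
theorem Spl.modEq {K : Type} [Field K] [NumberField K] {l N : ℕ} (hl : l.Prime) (hN : ¬ l ∣ N) {ζ : K}
    (hζ : IsPrimitiveRoot ζ N) (h : Spl K l) : l ≡ 1 [MOD N] := by
  obtain ⟨φ⟩ := h
  have := Fact.mk hl
  have hN0 : 0 < N := Nat.pos_of_ne_zero fun h => hN (h ▸ dvd_zero l)
  have : NeZero (N : ZMod l) := ⟨mt (CharP.cast_eq_zero_iff _ _ _).1 hN⟩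
  obtain ⟨x, h1⟩ : ∃ x : 𝓞 K, IsPrimitiveRoot x N := ⟨⟨ζ, hζ.isIntegral hN0⟩,
    hζ.of_map_of_injective (f := algebraMap (𝓞 K) K) RingOfIntegers.coe_injective⟩
  have h2 := (h1.isRoot_cyclotomic hN0).map (f := φ)
  rw [Polynomial.map_cyclotomic, Polynomial.isRoot_cyclotomic_iff] at h2
  have h3 := ZMod.orderOf_dvd_card_sub_one (h2.ne_zero hN0.ne')
  rw [← h2.eq_orderOf] at h3
  exact ((Nat.modEq_iff_dvd' hl.one_le).2 h3).symm

end M4.NT
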