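import Pool.Agent.Lib.MP_33b3f9_ag.M4.IDefs
import Pool.Agent.Lib.MP_33b3f9_ag.M4.MxT
import Pool.Agent.Lib.MP_33b3f9_ag.M4.NTEmb

/-!
The exact integral tensor structure of the Tate modules.
-/

set_option autoImplicit false

noncomputable section

namespace M4.CB

open Matrix Filter Topology NumberField Pool.Agent.M4 Pool.Agent.M4.Mx

/-- The algebraic numbers. -/
abbrev Qb : Type := AlgebraicClosure ℚ

/-- All entries have norm at most one. -/
def MI {m n A : Type} [Norm A] (X : Matrix m n A) : Prop := ∀ i j, ‖X i j‖ ≤ 1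

section norm

variable {l : ℕ} [Fact l.Prime]

theorem MI.mul {m n o : Type} [Fintype n] {X : Matrix m n (PadicAlgCl l)}
    {Y : Matrix n o (PadicAlgCl l)} (hX : MI X) (hY : MI Y) : MI (X * Y) := fun i j => by
  rw [Matrix.mul_apply]
  refine IsUltrametricDist.norm_sum_le_of_forall_le_of_nonneg zero_le_one fun k _ => ?_
  rw [norm_mul]
  exact mul_le_one₀ (hX _ _) (norm_nonneg _) (hY _ _)

theorem norm_int {x : PadicAlgCl l} (hx : IsIntegral ℤ x) : ‖x‖ ≤ 1 :=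
  Det.integral_le (w := NormedField.toAbsoluteValue (PadicAlgCl l))
    (PadicAlgCl.isNonarchimedean l) hx

theorem norm_algQ (x : ℚ_[l]) : ‖algebraMap ℚ_[l] (PadicAlgCl l) x‖ = ‖x‖ :=
  PadicAlgCl.norm_extends l x

theorem algZ (x : ℤ_[l]) :
    algebraMap ℤ_[l] (PadicAlgCl l) x = algebraMap ℚ_[l] (PadicAlgCl l) (x : ℚ_[l]) :=
  IsScalarTower.algebraMap_apply ℤ_[l] ℚ_[l] (PadicAlgCl l) x

theorem norm_algZ (x : ℤ_[l]) : ‖algebraMap ℤ_[l] (PadicAlgCl l) x‖ = ‖x‖ := by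
  rw [algZ, norm_algQ]; rfl

theorem algZ_inj : Function.Injective (algebraMap ℤ_[l] (PadicAlgCl l)) := fun x y h => by
  rw [algZ, algZ] at h
  exact Subtype.ext ((algebraMap ℚ_[l] (PadicAlgCl l)).injective h)

theorem MI_map {m n : Type} (X : Matrix m n ℤ_[l]) :
    MI (X.map (algebraMap ℤ_[l] (PadicAlgCl l))) := fun i j => by
  rw [Matrix.map_apply, norm_algZ]; exact PadicInt.norm_le_one _

theorem cont_algZ : Continuous (algebraMap ℤ_[l] (PadicAlgCl l)) :=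
  AddMonoidHomClass.continuous_of_bound _ 1 fun x => by rw [norm_algZ, one_mul]

theorem norm_intCast {n : ℤ} (h : ¬ (l : ℤ) ∣ n) : ‖(n : PadicAlgCl l)‖ = 1 := by
  rw [← map_intCast (algebraMap ℚ_[l] (PadicAlgCl l)), norm_algQ]
  exact le_antisymm (Padic.norm_int_le_one n)
    (not_lt.1 fun h1 => h (Padic.norm_intCast_lt_one_iff.1 h1))

end norm

theorem isAlg : Algebra.IsAlgebraic ℚ Qb := by
  have h := AlgebraicClosure.isAlgebraic ℚ
  rwa [Subsingleton.elim (AlgebraicClosure.instAlgebra ℚ) DivisionRing.toRatAlgebra] at h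

/-- Finitely many algebraic numbers are integral at all large primes. -/
theorem exists_l1 {ι : Type} [Finite ι] (x : ι → Qb) : ∃ l₁ : ℕ, ∀ (l : ℕ) [Fact l.Prime], l₁ < l →
    ∀ (io : Qb →+* PadicAlgCl l) (i : ι), ‖io (x i)‖ ≤ 1 := by
  have h : ∀ i, ∃ y : ℤ, y ≠ 0 ∧ IsIntegral ℤ (y • x i) := fun i =>
    ((IsFractionRing.isAlgebraic_iff ℤ ℚ Qb).2
      (isAlg.isAlgebraic _)).exists_integral_multiple
  choose y hy hi using h
  obtain ⟨M, hM⟩ := (Set.finite_range fun i => (y i).natAbs).bddAbove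
  refine ⟨M, fun l _ hl io i => ?_⟩
  have h1 := norm_int (map_isIntegral_int io (hi i))
  have h2 : ¬ (l : ℤ) ∣ y i := fun h => by
    have := Nat.le_of_dvd (Int.natAbs_pos.2 (hy i)) (Int.natCast_dvd.1 h)
    have := hM ⟨i, rfl⟩
    simp only at this
    omega
  rwa [zsmul_eq_mul, map_mul, map_intCast, norm_mul, norm_intCast h2, one_mul] at h1

variable {F : Type} [Field F] [NumberField F]

/-- Coordinates of `2 × 2` matrices in an integral basis. -/
abbrev Co (F : Type) [Field F] [NumberField F] (l : ℕ) [Fact l.Prime] : Type :=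
  Module.Free.ChooseBasisIndex ℤ (𝓞 F) → Fin 2 → Fin 2 → ℤ_[l]

/-- The matrix with coordinates `c`. -/
def hc {l : ℕ} [Fact l.Prime] {R : Type} [CommRing R] [Algebra ℤ_[l] R] (φ : 𝓞 F →+* R)
    (c : Co F l) : M2 R :=
  Matrix.of fun i j => ∑ k, φ (RingOfIntegers.basis F k) * algebraMap ℤ_[l] R (c k i j)

theorem hc_repr {l : ℕ} [Fact l.Prime] {R : Type} [CommRing R] [Algebra ℤ_[l] R] (φ : 𝓞 F →+* R)
    (g : M2 (𝓞 F)) :
    hc φ (fun k i j => (((RingOfIntegers.basis F).repr (g i j) k : ℤ) : ℤ_[l])) = g.map φ := by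
  ext i j
  rw [hc, Matrix.of_apply, Matrix.map_apply]
  conv_rhs => rw [← (RingOfIntegers.basis F).sum_repr (g i j)]
  simp [mul_comm]

/-- The restriction of `io ∘ s` to the integers. -/
def ri {R : Type} [CommRing R] (io : Qb →+* R) (s : F →+* Qb) : 𝓞 F →+* R :=
  (io.comp s).comp (algebraMap (𝓞 F) F)

omit [NumberField F] in
theorem map_N {N : M2 F → Matrix ν ν ℚ} {s : Fin 3 → F →+* Qb} {P : Matrix ν κ Qb}
    {Q : Matrix κ ν Qb}
    (hN : ∀ g, (N g).map (algebraMap ℚ _) = P * tp (fun i => g.map (s i)) * Q)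
    {l : ℕ} [Fact l.Prime] (io : Qb →+* PadicAlgCl l) (g : M2 (𝓞 F)) (i j : ν) :
    (P.map io * tp (fun f => g.map (ri io (s f))) * Q.map io) i j =
      algebraMap ℚ_[l] (PadicAlgCl l) (N (g.map (↑)) i j : ℚ_[l]) := by
  have h := congrArg (fun X => X.map io i j) (hN (g.map (↑)))
  simp only [Matrix.map_mul, tp_map] at h
  rw [map_ratCast]
  refine Eq.trans ?_ (h.symm.trans ?_)
  · rfl
  · simp

/-- The limit form of the approximation property. -/
theorem lim {N : M2 F → Matrix ν ν ℚ} {s : Fin 3 → F →+* Qb} {P : Matrix ν κ Qb}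
    {Q : Matrix κ ν Qb}
    (hN : ∀ g, (N g).map (algebraMap ℚ _) = P * tp (fun i => g.map (s i)) * Q)
    {l : ℕ} [Fact l.Prime] (X : Matrix ν ν ℚ_[l])
    (hX : ∀ n : ℕ, ∃ (z : ℤ) (g : M2 (𝓞 F)), ∀ i j,
      ‖X i j - z * (N (g.map (↑)) i j : ℚ_[l])‖ ≤ (l : ℝ) ^ (-n : ℤ)) :
    ∃ (z : ℤ_[l]) (c : Co F l), ∀ io : Qb →+* PadicAlgCl l,
      X.map (algebraMap ℚ_[l] (PadicAlgCl l)) = algebraMap ℤ_[l] (PadicAlgCl l) z •
        (P.map io * tp (fun f => hc (ri io (s f)) c) * Q.map io) := by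
  choose z g hg using hX
  let a : ℕ → ℤ_[l] × Co F l := fun n =>
    ((z n : ℤ_[l]), fun k i j => (((RingOfIntegers.basis F).repr (g n i j) k : ℤ) : ℤ_[l]))
  obtain ⟨a0, φ, hφ, hlim⟩ := CompactSpace.tendsto_subseq a
  refine ⟨a0.1, a0.2, fun io => ?_⟩
  ext i j
  let Φ : ℤ_[l] × Co F l → PadicAlgCl l := fun b => (algebraMap ℤ_[l] (PadicAlgCl l) b.1 •
        (P.map io * tp (fun f => hc (ri io (s f)) b.2) * Q.map io)) i j
  have hc' : Continuous Φ := by
    have := cont_algZ (l := l)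
    simp only [Φ, Matrix.smul_apply, Matrix.mul_apply, tp_apply, hc, Matrix.of_apply, smul_eq_mul]
    fun_prop
  have h1 : Tendsto (fun n => Φ (a (φ n))) atTop (𝓝 (Φ a0)) := (hc'.tendsto a0).comp hlim
  have h2 : Tendsto (fun n => Φ (a n)) atTop (𝓝 (algebraMap ℚ_[l] (PadicAlgCl l) (X i j))) := by
    rw [tendsto_iff_norm_sub_tendsto_zero]
    have hl : (1 : ℝ) < l := by exact_mod_cast (Fact.out : l.Prime).one_lt
    have h0 : Tendsto (fun n : ℕ => (l : ℝ) ^ (-n : ℤ)) atTop (𝓝 0) := by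
      simpa using tendsto_pow_atTop_nhds_zero_of_lt_one (r := (l : ℝ)⁻¹) (by positivity)
        (inv_lt_one_of_one_lt₀ hl)
    refine squeeze_zero (fun _ => norm_nonneg _) (fun n => ?_) h0
    have e : Φ (a n) = algebraMap ℚ_[l] (PadicAlgCl l) (z n * (N ((g n).map (↑)) i j : ℚ_[l])) := by
      simp only [Φ, a, hc_repr, Matrix.smul_apply, smul_eq_mul, map_N hN, map_mul, map_intCast]
    rw [e, ← map_sub, norm_algQ, norm_sub_rev]
    exact hg n i j
  exact tendsto_nhds_unique (h2.comp hφ.tendsto_atTop) h1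

variable {K : IntermediateField ℚ ℂ}

/-- An integral and Galois equivariant tensor frame at `l`. -/
structure Frame (r : Rep K) (s : Fin 3 → F →+* Qb) (l : ℕ) [Fact l.Prime]
    (io : Qb →+* PadicAlgCl l) (S : Matrix ν κ (PadicAlgCl l)) (S' : Matrix κ ν (PadicAlgCl l)) :
    Prop where
  int : MI S
  int' : MI S'
  inv : S * S' = 1
  inv' : S' * S = 1
  im : ∀ σ, ∃ (z : ℤ_[l]) (h : Fin 3 → M2 (PadicAlgCl l)), (∀ f, MI (h f)) ∧
    (rq r l σ).map (algebraMap ℚ_[l] (PadicAlgCl l)) =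
      algebraMap ℤ_[l] (PadicAlgCl l) z • (S * tp h * S') ∧
    ∀ (th : PadicAlgCl l ≃ₐ[ℚ_[l]] PadicAlgCl l) (i j : Fin 3),
      (∀ x, th (io (s i x)) = io (s j x)) → (h i).map th = h j

omit [NumberField F] in
theorem Frame.tens {r : Rep K} {s : Fin 3 → F →+* Qb} {l : ℕ} [Fact l.Prime]
    {io : Qb →+* PadicAlgCl l} {S : Matrix ν κ (PadicAlgCl l)} {S' : Matrix κ ν (PadicAlgCl l)}
    (h : Frame r s l io S S') : TENS r l := by
  refine ⟨S, S', h.int, h.int', h.inv, h.inv', fun σ => ?_⟩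
  obtain ⟨z, g, h1, h2, -⟩ := h.im σ
  let c : Fin 3 → PadicAlgCl l := Function.update 1 0 (algebraMap ℤ_[l] (PadicAlgCl l) z)
  refine ⟨fun f => c f • g f, fun f i j => ?_, ?_⟩
  · have : ‖c f‖ ≤ 1 := by
      by_cases hf : f = 0
      · rw [hf]; simp only [c, Function.update_self, norm_algZ]; exact PadicInt.norm_le_one _
      · simp [c, Function.update_of_ne hf]
    change ‖c f * g f i j‖ ≤ 1
    rw [norm_mul]
    exact mul_le_one₀ this (norm_nonneg _) (h1 f i j)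
  · rw [h2, tp_smul, Matrix.mul_smul, Matrix.smul_mul]
    congr 1
    simp [c, Fin.prod_univ_three]

theorem hc_int {l : ℕ} [Fact l.Prime] (φ : 𝓞 F →+* PadicAlgCl l) (c : Co F l) : MI (hc φ c) :=
  fun i j => by
  rw [hc, Matrix.of_apply]
  refine IsUltrametricDist.norm_sum_le_of_forall_le_of_nonneg zero_le_one fun k _ => ?_
  rw [norm_mul, norm_algZ]
  exact mul_le_one₀ (norm_int (map_isIntegral_int φ (Algebra.IsIntegral.isIntegral _)))
    (norm_nonneg _) (PadicInt.norm_le_one _)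

theorem toQ_map {l : ℕ} [Fact l.Prime] (g : GL ν ℤ_[l]) :
    (toQ g : Matrix ν ν ℚ_[l]).map (algebraMap ℚ_[l] (PadicAlgCl l)) =
      (g : Matrix ν ν ℤ_[l]).map (algebraMap ℤ_[l] (PadicAlgCl l)) := by
  ext i j
  rw [Matrix.map_apply, Matrix.map_apply, algZ]
  rfl

/-- The frame attached to a basis `B` of the Tate module. -/
theorem frame_of {N : M2 F → Matrix ν ν ℚ} {s : Fin 3 → F →+* Qb} {P : Matrix ν κ Qb}
    {Q : Matrix κ ν Qb} (hPQ : P * Q = 1) (hQP : Q * P = 1)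
    (hN : ∀ g, (N g).map (algebraMap ℚ _) = P * tp (fun i => g.map (s i)) * Q)
    {r : Rep K} {l : ℕ} [Fact l.Prime] (B : GL ν ℤ_[l])
    (hB : ∀ (σ : ℂ ≃ₐ[K] ℂ) (n : ℕ), ∃ (z : ℤ) (g : M2 (𝓞 F)), ∀ i j,
      ‖(toQ (B⁻¹ * r l σ * B) : Matrix ν ν ℚ_[l]) i j - z * (N (g.map (↑)) i j : ℚ_[l])‖ ≤
        (l : ℝ) ^ (-n : ℤ))
    (io : Qb →+* PadicAlgCl l) (hP : MI (P.map io)) (hQ : MI (Q.map io)) :
    Frame r s l io ((B : Matrix ν ν ℤ_[l]).map (algebraMap ℤ_[l] (PadicAlgCl l)) * P.map io)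
      (Q.map io * ((B⁻¹ : GL ν ℤ_[l]) : Matrix ν ν ℤ_[l]).map (algebraMap ℤ_[l] (PadicAlgCl l))) := by
  set ψ := algebraMap ℤ_[l] (PadicAlgCl l)
  have e1 : (B : Matrix ν ν ℤ_[l]).map ψ * ((B⁻¹ : GL ν ℤ_[l]) : Matrix ν ν ℤ_[l]).map ψ = 1 := by
    rw [← Matrix.map_mul, Units.mul_inv, Matrix.map_one _ (map_zero _) (map_one _)]
  have e2 : ((B⁻¹ : GL ν ℤ_[l]) : Matrix ν ν ℤ_[l]).map ψ * (B : Matrix ν ν ℤ_[l]).map ψ = 1 := by
    rw [← Matrix.map_mul, Units.inv_mul, Matrix.map_one _ (map_zero _) (map_one _)]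
  have e3 : P.map io * Q.map io = 1 := by
    rw [← Matrix.map_mul, hPQ, Matrix.map_one _ (map_zero _) (map_one _)]
  have e4 : Q.map io * P.map io = 1 := by
    rw [← Matrix.map_mul, hQP, Matrix.map_one _ (map_zero _) (map_one _)]
  refine ⟨(MI_map _).mul hP, hQ.mul (MI_map _), ?_, ?_, fun σ => ?_⟩
  · rw [Matrix.mul_assoc, ← Matrix.mul_assoc (P.map io), e3, Matrix.one_mul, e1]
  · rw [Matrix.mul_assoc, ← Matrix.mul_assoc (Matrix.map _ ψ), e2, Matrix.one_mul, e4]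
  · obtain ⟨z, c, hz⟩ := lim hN _ (hB σ)
    refine ⟨z, fun f => hc (ri io (s f)) c, fun f => hc_int _ _, ?_, fun th i j h => ?_⟩
    · have h := hz io
      rw [toQ_map, Units.val_mul, Units.val_mul, Matrix.map_mul, Matrix.map_mul] at h
      rw [rq, toQ_map]
      calc (r l σ : Matrix ν ν ℤ_[l]).map ψ = (B : Matrix ν ν ℤ_[l]).map ψ *
            (((B⁻¹ : GL ν ℤ_[l]) : Matrix ν ν ℤ_[l]).map ψ * (r l σ : Matrix ν ν ℤ_[l]).map ψ *
              (B : Matrix ν ν ℤ_[l]).map ψ) * ((B⁻¹ : GL ν ℤ_[l]) : Matrix ν ν ℤ_[l]).map ψ := by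
            simp only [← Matrix.mul_assoc, e1, Matrix.one_mul]
            rw [Matrix.mul_assoc, e1, Matrix.mul_one]
        _ = _ := by
            rw [h]
            simp only [Matrix.mul_smul, Matrix.smul_mul, Matrix.mul_assoc, ψ]
    · ext a b
      simp only [hc, Matrix.map_apply, Matrix.of_apply, map_sum, map_mul, algZ, AlgEquiv.commutes]
      refine Finset.sum_congr rfl fun k _ => ?_
      congr 1
      exact h _

/-- TENS in equivariant form, for all large `l` and all embeddings. -/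
theorem exists_frame {N : M2 F → Matrix ν ν ℚ} {s : Fin 3 → F →+* Qb} {P : Matrix ν κ Qb}
    {Q : Matrix κ ν Qb} (hPQ : P * Q = 1) (hQP : Q * P = 1)
    (hN : ∀ g, (N g).map (algebraMap ℚ _) = P * tp (fun i => g.map (s i)) * Q)
    {r : Rep K} {l₀ : ℕ} (hB : ∀ (l : ℕ) [Fact l.Prime], l₀ < l → BigImage N (r l)) :
    ∃ l₁ : ℕ, ∀ (l : ℕ) [Fact l.Prime], l₁ < l → ∀ io : Qb →+* PadicAlgCl l,
      ∃ S S', Frame r s l io S S' := by
  obtain ⟨a, ha⟩ := exists_l1 fun x : ν × κ => P x.1 x.2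
  obtain ⟨b, hb⟩ := exists_l1 fun x : κ × ν => Q x.1 x.2
  refine ⟨max l₀ (max a b), fun l _ hl io => ?_⟩
  simp only [max_lt_iff] at hl
  obtain ⟨B, h, -⟩ := hB l hl.1
  exact ⟨_, _, frame_of hPQ hQP hN B h io (fun i j => ha l hl.2.1 io (i, j))
    fun i j => hb l hl.2.2 io (i, j)⟩

end M4.CB
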