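import Pool.Agent.Lib.MP_33b3f9_ag.M4.CntB

/-!
Counting lemma, part C: many independent invariant forms.
-/

set_option autoImplicit false

namespace Pool.Agent.M4.Cnt

open Pointwise

variable {G M : Type*} [Group G] [CommRing M] [MulSemiringAction G M] {Γ : Subgroup G}
  [Algebra ℂ M] [SMulCommClass G ℂ M] {W : ℕ → Submodule ℂ M}

/-- Invariant forms of degree `k`. -/
def RW (Γ : Subgroup G) (W : ℕ → Submodule ℂ M) (k : ℕ) : Submodule ℂ M where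
  carrier := {x | x ∈ W k ∧ Fix Γ x}
  zero_mem' := ⟨(W k).zero_mem, fun _ _ => smul_zero _⟩
  add_mem' := fun ha hb => ⟨(W k).add_mem ha.1 hb.1, ha.2.add hb.2⟩
  smul_mem' := fun c _ ha => ⟨(W k).smul_mem c ha.1, fun γ hγ => by rw [smul_comm, ha.2 γ hγ]⟩

omit [Algebra ℂ M] [SMulCommClass G ℂ M] in
theorem smul_mono_sub {σ : Type*} [Fintype σ] {ps : Ideal M} {F : σ → M} {δ : G}
    (h : ∀ l, δ • F l - F l ∈ ps) (α : σ → ℕ) :
    δ • ∏ l, F l ^ α l - ∏ l, F l ^ α l ∈ ps := by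
  rw [← Ideal.Quotient.eq, Finset.smul_prod', map_prod, map_prod]
  refine Finset.prod_congr rfl fun l _ => ?_
  rw [smul_pow', map_pow, map_pow, Ideal.Quotient.eq.2 (h l)]

theorem homog_of_all (hall : ∀ x : M, ∃ k, x ∈ W k) (q : Ideal M) : Homog W q :=
  fun x hx => Submodule.subset_span ⟨hx, hall x⟩

theorem aux_div {K : Type*} [Field K] (x y z u v t : K) (hy : y ≠ 0) :
    x * (y * z) * (u * v * (t / y)) = u * (x * (t * z * v)) := by
  field_simp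

/-- One class of primes. -/
theorem one_class {ι σ : Type*} [Fintype σ] (hW : Gr G W) (hall : ∀ x : M, ∃ k, x ∈ W k)
    (hmono : Monotone W)
    (hfin : ∀ x : M, (orb Γ x).Finite) (ps : Ideal M) [hp : ps.IsPrime] (g : ι → G)
    {Q : Set (Ideal M)} (hQ : Q.Finite) (hQΓ : ∀ γ ∈ Γ, ∀ q' ∈ Q, γ • q' ∈ Q)
    (j0 : ι) (hj0 : g j0 • ps ∈ Q) (C : Finset ι)
    (hC : ∀ i ∈ C, ∃ γ ∈ Γ, γ • g j0 • ps = g i • ps)
    (hsep : ∀ i j, i ≠ j → ∃ k, ∃ f ∈ W k, Fix Γ f ∧ (g i)⁻¹ • f - (g j)⁻¹ • f ∉ ps)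
    {w : ℕ} (F : σ → M) (hF : ∀ l, F l ∈ W w)
    (hFi : ∀ i j, ∀ γ ∈ Γ, γ • g j • ps = g i • ps → ∀ l, ((g i)⁻¹ * γ * g j) • F l - F l ∈ ps)
    (hind : AlgebraicIndependent ℂ fun l => Ideal.Quotient.mk ps (F l)) :
    ∃ e, ∃ b : ι → (σ → ℕ) → M, (∀ j α, b j α ∈ RW Γ W (w * (∑ l, α l) + e)) ∧
      (∀ j α, ∀ q' ∈ Q, (∀ γ ∈ Γ, ¬ γ • q' ≤ g j0 • ps) → b j α ∈ q') ∧
      ∀ (A : Type) [Fintype A] (α : A → σ → ℕ), Function.Injective α → ∀ c : ι → A → ℂ,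
        (∀ i ∈ C, ∑ j ∈ C, ∑ a, c j a • b j (α a) ∈ g i • ps) → ∀ j ∈ C, ∀ a, c j a = 0 := by
  classical
  let L := FractionRing (M ⧸ ps)
  let ψ : M →ₐ[ℂ] L := (IsScalarTower.toAlgHom ℂ (M ⧸ ps) L).comp (Ideal.Quotient.mkₐ ℂ ps)
  have hψ : ∀ x, ψ x = 0 ↔ x ∈ ps := fun x => by
    change algebraMap (M ⧸ ps) L (Ideal.Quotient.mk ps x) = 0 ↔ _
    rw [map_eq_zero_iff _ (IsFractionRing.injective (M ⧸ ps) L), Ideal.Quotient.eq_zero_iff_mem]
  let φ : ι → M →ₐ[ℂ] L := fun i => ψ.comp (MulSemiringAction.toAlgHom ℂ M (g i)⁻¹)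
  have hφ' : ∀ i x, φ i x = ψ ((g i)⁻¹ • x) := fun _ _ => rfl
  have hφ : ∀ i x, φ i x = 0 ↔ x ∈ g i • ps := fun i x => by
    rw [hφ', hψ, Ideal.mem_pointwise_smul_iff_inv_smul_mem]
  have hker : ∀ x, Fix Γ x → ∀ i ∈ C, (x ∈ g i • ps ↔ x ∈ g j0 • ps) := by
    intro x hx i hi
    obtain ⟨γ, hγ, h⟩ := hC i hi
    rw [← h, hx.mem_smul_iff hγ]
  have h1R : (1 : M) ∈ RW Γ W 0 := ⟨hW.one, fun _ _ => smul_one _⟩
  obtain ⟨k, f, hf, f', hf', hf0, hinj⟩ := sep φ C (RW Γ W) h1R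
    (fun hx hy => ⟨hW.mul hx.1 hy.1, hx.2.mul hy.2⟩)
    (fun k f hf i hi j hj h => by
      rw [hφ] at h ⊢
      exact (hker f hf.2 j hj).2 ((hker f hf.2 i hi).1 h))
    (fun i _ j _ hij => by
      obtain ⟨k, f, h1, h2, h3⟩ := hsep i j hij
      refine ⟨k, f, ⟨h1, h2⟩, 1, ⟨hmono (Nat.zero_le k) hW.one, h1R.2⟩, fun h => h3 ?_⟩
      rw [map_one, map_one, mul_one, one_mul, hφ', hφ'] at h
      rw [← hψ, map_sub, h, sub_self])
  obtain ⟨s, hs1, hs2, hs3⟩ := exists_rank C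
  obtain ⟨e1, h, hhW, hhΓ, hhq, htr⟩ := trace hW hfin (g j0 • ps) hQ
    (fun q' _ => homog_of_all hall q') hj0 hQΓ
  let β : ι → M := fun j => f ^ s j * f' ^ (C.card - s j)
  have hβW : ∀ j, β j ∈ W (C.card * k) := fun j => by
    have := hW.mul (hW.pow hf.1 (s j)) (hW.pow hf'.1 (C.card - s j))
    rwa [← add_mul, Nat.add_sub_cancel' (hs3 j)] at this
  have hβΓ : ∀ j, Fix Γ (β j) := fun j => (hf.2.pow _).mul (hf'.2.pow _)
  let mo : (σ → ℕ) → M := fun α => ∏ l, F l ^ α l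
  have hmo : ∀ α, mo α ∈ W (w * ∑ l, α l) := fun α => by
    have := hW.prod Finset.univ (fun l => α l * w) (fun l => F l ^ α l)
      fun l _ => hW.pow (hF l) (α l)
    rwa [← Finset.sum_mul, mul_comm] at this
  have hmove : ∀ i, ∀ γ ∈ Γ, γ • g j0 • ps = g i • ps → ∀ α,
      γ • g j0 • mo α - g i • mo α ∈ g i • ps := by
    intro i γ hγ hh α
    have h2 := Ideal.smul_mem_pointwise_smul (g i) _ _ (smul_mono_sub (hFi i j0 γ hγ hh) α)
    rwa [smul_sub, ← mul_smul, ← mul_assoc, ← mul_assoc, mul_inv_cancel, one_mul, mul_smul] at h2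
  have hT : ∀ j α, ∃ T ∈ W (e1 + (C.card * k + w * ∑ l, α l)), Fix Γ T ∧
      T - h * (β j * g j0 • mo α) ∈ g j0 • ps ∧
      ∀ q' ∈ Q, (∀ γ ∈ Γ, ¬ γ • q' ≤ g j0 • ps) → T ∈ q' := by
    intro j α
    refine htr _ _ (hW.mul (hβW j) (hW.smul _ (hmo α))) fun γ hγ hh => ?_
    rw [smul_mul', hβΓ j γ hγ, ← mul_sub]
    exact Ideal.mul_mem_left _ _ (hmove j0 γ hγ hh α)
  choose b hb1 hb2 hb3 hb4 using hT
  refine ⟨e1 + C.card * k, b, fun j α => ⟨?_, hb2 j α⟩, hb4, ?_⟩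
  · have := hb1 j α
    rwa [← add_assoc, add_comm] at this
  intro A _ α hα c hc j hj
  have hval : ∀ i ∈ C, ∀ j α, φ i (b j α) = φ i h * (φ i (β j) * ψ (mo α)) := by
    intro i hi j α
    obtain ⟨γ, hγ, hh⟩ := hC i hi
    have h2 := Ideal.smul_mem_pointwise_smul γ _ _ (hb3 j α)
    rw [hh, smul_sub, smul_mul', smul_mul', hb2 j α γ hγ, hhΓ γ hγ, hβΓ j γ hγ, ← hφ, map_sub,
      sub_eq_zero, map_mul, map_mul] at h2
    have h3 := hmove i γ hγ hh α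
    rw [← hφ, map_sub, sub_eq_zero, hφ' i (g i • mo α), inv_smul_smul] at h3
    rw [h2, h3]
  have hzero := vdm C s hs1 hs2 _ hinj (fun j => ∑ a, c j a • ψ (mo (α a))) (fun i hi => by
    have h2 := (hφ i _).2 (hc i hi)
    have h3 : φ i h ≠ 0 := fun h0 => hhq ((hker h hhΓ i hi).1 ((hφ i h).1 h0))
    have h4 := hf0 i hi
    refine mul_left_cancel₀ (mul_ne_zero h3 (pow_ne_zero C.card h4)) ?_
    rw [mul_zero, ← h2, map_sum, Finset.mul_sum]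
    refine Finset.sum_congr rfl fun j _ => ?_
    rw [map_sum, Finset.sum_mul, Finset.mul_sum]
    refine Finset.sum_congr rfl fun a _ => ?_
    have h5 : φ i f' ^ C.card = φ i f' ^ s j * φ i f' ^ (C.card - s j) := by
      rw [← pow_add, Nat.add_sub_cancel' (hs3 j)]
    rw [map_smul, hval i hi, Algebra.smul_def, Algebra.smul_def, h5, div_pow]
    simp only [β, map_mul, map_pow]
    exact aux_div _ _ _ _ _ _ (pow_ne_zero _ h4)) j hj
  have hli : LinearIndependent ℂ fun a => ∏ l, ψ (F l) ^ α a l :=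
    mono_indep (hind.map' (f := IsScalarTower.toAlgHom ℂ (M ⧸ ps) L)
      (IsFractionRing.injective (M ⧸ ps) L)) α hα
  refine Fintype.linearIndependent_iff.1 hli (c j) ?_
  simpa only [mo, map_prod, map_pow] using hzero

/-- All classes together: `card ι` times the number of monomials many invariant forms which are
independent modulo the intersection of the primes. -/
theorem indep {ι σ : Type*} [Fintype ι] [Fintype σ] (hW : Gr G W) (hall : ∀ x : M, ∃ k, x ∈ W k)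
    (hmono : Monotone W) (hfin : ∀ x : M, (orb Γ x).Finite) (ps : Ideal M) [hp : ps.IsPrime]
    (g : ι → G) (hq : ∀ j, (orb Γ (g j • ps)).Finite)
    (hsep : ∀ i j, i ≠ j → ∃ k, ∃ f ∈ W k, Fix Γ f ∧ (g i)⁻¹ • f - (g j)⁻¹ • f ∉ ps)
    {w : ℕ} (F : σ → M) (hF : ∀ l, F l ∈ W w)
    (hFi : ∀ i j, ∀ γ ∈ Γ, γ • g j • ps = g i • ps → ∀ l, ((g i)⁻¹ * γ * g j) • F l - F l ∈ ps)
    (hind : AlgebraicIndependent ℂ fun l => Ideal.Quotient.mk ps (F l)) :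
    ∃ e, ∀ n, ∀ (A : Type) [Fintype A] (α : A → σ → ℕ), Function.Injective α →
      (∀ a, ∑ l, α a l ≤ n) → ∃ b : ι × A → M, (∀ p, b p ∈ RW Γ W (w * n + e)) ∧
        ∀ c : ι × A → ℂ, (∀ j, ∑ p, c p • b p ∈ g j • ps) → c = 0 := by
  classical
  let Q : Set (Ideal M) := ⋃ j, orb Γ (g j • ps)
  have hQ : Q.Finite := Set.finite_iUnion hq
  have hQΓ : ∀ γ ∈ Γ, ∀ q' ∈ Q, γ • q' ∈ Q := fun γ hγ q' h => by
    obtain ⟨j, hj⟩ := Set.mem_iUnion.1 h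
    exact Set.mem_iUnion.2 ⟨j, smul_mem_orb hγ hj⟩
  have hjQ : ∀ j, g j • ps ∈ Q := fun j => Set.mem_iUnion.2 ⟨j, self_mem_orb _⟩
  let r : Setoid ι := ⟨fun i j => ∃ γ ∈ Γ, γ • g i • ps = g j • ps,
    ⟨fun i => ⟨1, Γ.one_mem, one_smul _ _⟩,
      fun ⟨γ, hγ, h⟩ => ⟨γ⁻¹, Γ.inv_mem hγ, by rw [← h, inv_smul_smul]⟩,
      fun ⟨γ, hγ, h⟩ ⟨δ, hδ, h'⟩ => ⟨δ * γ, Γ.mul_mem hδ hγ, by rw [mul_smul, h, h']⟩⟩⟩
  let rep : ι → ι := fun j => (Quotient.mk r j).out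
  have hrep : ∀ j, r (rep j) j := fun j => Quotient.exact (Quotient.out_eq (Quotient.mk r j))
  have hrep2 : ∀ i j, r i j → rep i = rep j := fun i j h => by
    simp only [rep, Quotient.sound h]
  let C : ι → Finset ι := fun j0 => Finset.univ.filter fun i => r j0 i
  have hcl := fun j0 => one_class hW hall hmono hfin ps g hQ hQΓ j0 (hjQ j0) (C j0)
    (fun i hi => (Finset.mem_filter.1 hi).2) hsep F hF hFi hind
  choose e b hb1 hb2 hb3 using hcl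
  refine ⟨Finset.univ.sup e, fun n A _ α hα hn => ⟨fun p => b (rep p.1) p.1 (α p.2), fun p => ?_,
    fun c hc => ?_⟩⟩
  · exact ⟨hmono (Nat.add_le_add (Nat.mul_le_mul_left _ (hn p.2))
      (Finset.le_sup (f := e) (Finset.mem_univ _))) (hb1 _ _ _).1, (hb1 _ _ _).2⟩
  by_contra hne
  let Sp : Finset ι := Finset.univ.filter fun j => ∃ a, c (j, a) ≠ 0
  have hSp : Sp.Nonempty := by
    obtain ⟨⟨j, a⟩, h⟩ := Function.ne_iff.1 hne
    exact ⟨j, Finset.mem_filter.2 ⟨Finset.mem_univ _, a, h⟩⟩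
  let U : ι → Finset ι := fun j => Finset.univ.filter fun i => ∃ γ ∈ Γ, γ • g j • ps ≤ g i • ps
  obtain ⟨j, hj, hmin⟩ := Sp.exists_min_image (fun j => (U j).card) hSp
  have hmax : ∀ i ∈ Sp, (∃ γ ∈ Γ, γ • g j • ps ≤ g i • ps) → r j i := by
    rintro i hi ⟨γ, hγ, h⟩
    have h1 : U i ⊆ U j := fun l hl => by
      obtain ⟨δ, hδ, h'⟩ := (Finset.mem_filter.1 hl).2
      refine Finset.mem_filter.2 ⟨Finset.mem_univ _, δ * γ, Γ.mul_mem hδ hγ, ?_⟩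
      rw [mul_smul]
      exact (Ideal.pointwise_smul_le_pointwise_smul_iff.2 h).trans h'
    have h2 : j ∈ U i := by
      rw [Finset.eq_of_subset_of_card_le h1 (hmin i hi)]
      exact Finset.mem_filter.2 ⟨Finset.mem_univ _, 1, Γ.one_mem, (one_smul _ _).le⟩
    obtain ⟨δ, hδ, h'⟩ := (Finset.mem_filter.1 h2).2
    have h3 : (γ * δ) • g i • ps ≤ γ • g j • ps := by
      rw [mul_smul]
      exact Ideal.pointwise_smul_le_pointwise_smul_iff.2 h'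
    have h4 := smul_eq_of_le (hq i) (Γ.mul_mem hγ hδ) (h3.trans h)
    exact ⟨γ, hγ, le_antisymm h (h4.symm.le.trans h3)⟩
  obtain ⟨a, ha⟩ := (Finset.mem_filter.1 hj).2
  refine ha (hb3 (rep j) A α hα (fun i a => c (i, a)) (fun i hi => ?_) j
    (Finset.mem_filter.2 ⟨Finset.mem_univ _, hrep j⟩) a)
  have hij : r j i := r.trans (r.symm (hrep j)) (Finset.mem_filter.1 hi).2
  have h1 := hc i
  rw [Fintype.sum_prod_type, ← Finset.sum_filter_add_sum_filter_not Finset.univ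
    (fun l => r (rep j) l)] at h1
  have h2 : ∑ l ∈ Finset.univ.filter (fun l => ¬ r (rep j) l),
      ∑ a, c (l, a) • b (rep l) l (α a) ∈ g i • ps := by
    refine Ideal.sum_mem _ fun l hl => Ideal.sum_mem _ fun a _ => ?_
    by_cases h0 : c (l, a) = 0
    · rw [h0, zero_smul]; exact Ideal.zero_mem _
    refine Submodule.smul_of_tower_mem _ _ (hb2 _ _ _ _ (hjQ i) fun γ hγ hle => ?_)
    refine (Finset.mem_filter.1 hl).2 (r.trans (hrep j)
      (hmax l (Finset.mem_filter.2 ⟨Finset.mem_univ _, a, h0⟩) ?_))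
    obtain ⟨δ, hδ, h3⟩ := hij
    obtain ⟨ε, hε, h4⟩ := hrep l
    refine ⟨ε * (γ * δ), Γ.mul_mem hε (Γ.mul_mem hγ hδ), ?_⟩
    rw [mul_smul, mul_smul, h3, ← h4]
    exact Ideal.pointwise_smul_le_pointwise_smul_iff.2 hle
  have h3 := (Ideal.add_mem_iff_left _ h2).1 h1
  convert h3 using 1
  refine Finset.sum_congr rfl fun l hl => ?_
  rw [hrep2 j l (r.trans (r.symm (hrep j)) (Finset.mem_filter.1 hl).2)]

end Pool.Agent.M4.Cnt
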