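import Pool.Agent.Lib.MP_33b3f9_ag.M4.NTGen

/-!
The number of ideals of a quadratic order over the integers of a number field.
-/

open Finset NumberField Module

namespace M4.Cl

variable {F : Type} [Field F] [NumberField F]

open Classical in
/-- The ideals whose norm divides `n`. -/
noncomputable def dv (F : Type) [Field F] [NumberField F] (n : ℕ) : Finset (Ideal (𝓞 F)) :=
  (Ideal.finite_setOfPred_absNorm_le (S := 𝓞 F) n).toFinset.filter fun I => Ideal.absNorm I ∣ n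

lemma mem_dv {n : ℕ} (hn : n ≠ 0) {I : Ideal (𝓞 F)} (h : Ideal.absNorm I ∣ n) : I ∈ dv F n := by
  classical
  exact mem_filter.mpr ⟨(Set.Finite.mem_toFinset _).mpr (Nat.le_of_dvd (Nat.pos_of_ne_zero hn) h), h⟩

lemma card_dv {n : ℕ} (hn : n ≠ 0) : (dv F n).card ≤ n.divisors.card ^ (finrank ℚ F + 1) := by
  classical
  rw [pow_succ]
  refine (card_le_mul_card_image_of_maps_to (f := Ideal.absNorm) (t := n.divisors)
    (fun I hI => Nat.mem_divisors.mpr ⟨(mem_filter.mp hI).2, hn⟩) _ fun k hk => ?_)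
  have hk0 := (Nat.pos_of_mem_divisors hk).ne'
  refine le_trans ?_ ((NT.idc F hk0).trans (Nat.pow_le_pow_left (card_le_card
    (Nat.divisors_subset_of_dvd hn (Nat.dvd_of_mem_divisors hk))) _))
  have : Finite {I : Ideal (𝓞 F) // Ideal.absNorm I = k} :=
    (Ideal.finite_setOfPred_absNorm_eq (S := 𝓞 F) k).to_subtype
  rw [← Nat.card_eq_finsetCard]
  exact Nat.card_le_card_of_injective (β := {I : Ideal (𝓞 F) // Ideal.absNorm I = k})
    (fun I => ⟨I.1, (mem_filter.mp I.2).2⟩) fun I J h => Subtype.ext (Subtype.mk.inj h)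

lemma card_rel {ι : Type} {l d : Ideal (𝓞 F)} (h0 : d * l ≠ ⊥) (T : Finset ι) (x : ι → 𝓞 F)
    (hx : ∀ i ∈ T, x i ∈ l) (hi : ∀ i ∈ T, ∀ j ∈ T, x i - x j ∈ d * l → i = j) :
    T.card ≤ Ideal.absNorm d := by
  have hle : (d * l).toAddSubgroup ≤ l.toAddSubgroup := Ideal.mul_le_right (I := d) (J := l)
  have h1 := AddSubgroup.relIndex_mul_index hle
  rw [← Ideal.absNorm_eq_index, ← Ideal.absNorm_eq_index, map_mul] at h1
  have h2 : Ideal.absNorm (d * l) ≠ 0 := fun h => h0 (Ideal.absNorm_eq_zero_iff.mp h)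
  rw [map_mul] at h2
  have h3 := Nat.eq_of_mul_eq_mul_right (Nat.pos_of_ne_zero (right_ne_zero_of_mul h2)) h1
  rw [← h3, AddSubgroup.relIndex, AddSubgroup.index, ← Nat.card_eq_finsetCard]
  have : Finite (l.toAddSubgroup ⧸ (d * l).toAddSubgroup.addSubgroupOf l.toAddSubgroup) :=
    Nat.finite_of_card_ne_zero fun h => left_ne_zero_of_mul h2 (h3.symm.trans h)
  refine Nat.card_le_card_of_injective
    (fun i => QuotientAddGroup.mk (⟨x i.1, hx i.1 i.2⟩ : l.toAddSubgroup)) fun i j h => ?_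
  have := AddSubgroup.mem_addSubgroupOf.mp (QuotientAddGroup.eq.mp h)
  exact Subtype.ext (hi _ j.2 _ i.2 (by simpa [neg_add_eq_sub] using this)).symm

lemma card_roots {ι : Type} {b : Ideal (𝓞 F)} (hb : b ≠ ⊥) (a : 𝓞 F) (T : Finset ι) (x : ι → 𝓞 F)
    (hx : ∀ i ∈ T, x i ^ 2 - a ∈ b) (hi : ∀ i ∈ T, ∀ j ∈ T, x i - x j ∈ b → i = j) :
    T.card ≤ Nat.floorRoot 2 (Ideal.absNorm b) * (dv F (Ideal.absNorm b)).card := by
  classical
  rcases T.eq_empty_or_nonempty with rfl | ⟨i0, h0⟩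
  · simp
  have hn : Ideal.absNorm b ≠ 0 := fun h => hb (Ideal.absNorm_eq_zero_iff.mp h)
  refine card_le_mul_card_image_of_maps_to (f := fun i => b ⊔ Ideal.span {x i - x i0})
    (fun i _ => mem_dv hn (Ideal.absNorm_dvd_absNorm_of_le le_sup_left)) _ fun u _ => ?_
  set U := T.filter fun i => b ⊔ Ideal.span {x i - x i0} = u
  rcases U.eq_empty_or_nonempty with h | ⟨i1, h1⟩
  · simp [h]
  have hu : b ≤ u := (mem_filter.mp h1).2 ▸ le_sup_left
  obtain ⟨v, hv⟩ := Ideal.dvd_iff_le.mpr hu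
  have hu0 : u ≠ 0 := fun h => hb (by rw [hv, h, zero_mul]; rfl)
  have h2 : ∀ i ∈ U, x i - x i0 ∈ u ∧ x i + x i0 ∈ v := by
    intro i hi
    obtain ⟨h3, h4⟩ := mem_filter.mp hi
    refine ⟨h4 ▸ Ideal.mem_sup_right (Ideal.mem_span_singleton_self _), ?_⟩
    rw [← Ideal.dvd_span_singleton, ← mul_dvd_mul_iff_left hu0, ← hv, Ideal.dvd_iff_le, ← h4,
      Ideal.sup_mul, Ideal.span_singleton_mul_span_singleton]
    refine sup_le Ideal.mul_le_left ((Ideal.span_singleton_le_iff_mem _).mpr ?_)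
    have := b.sub_mem (hx i h3) (hx i0 h0)
    rwa [show x i ^ 2 - a - (x i0 ^ 2 - a) = (x i - x i0) * (x i + x i0) by ring] at this
  have e : (u ⊔ v) * (u ⊓ v) = b := (Ideal.sup_mul_inf u v).trans hv.symm
  refine (card_rel (d := u ⊔ v) (l := u ⊓ v) (e ▸ hb) U (fun i => x i - x i1) (fun i hi => ⟨?_, ?_⟩)
    fun i hi' j hj h => hi i (mem_filter.mp hi').1 j (mem_filter.mp hj).1 ?_).trans ?_
  · simpa using u.sub_mem (h2 i hi).1 (h2 i1 h1).1
  · simpa using v.sub_mem (h2 i hi).2 (h2 i1 h1).2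
  · simpa [e] using h
  · refine Nat.le_of_dvd (Nat.pos_of_ne_zero (Nat.floorRoot_ne_zero.mpr ⟨two_ne_zero, hn⟩))
      (Nat.pow_dvd_iff_dvd_floorRoot.mp ?_)
    rw [← map_pow, hv, sq]
    exact map_dvd _ (mul_dvd_mul (Ideal.dvd_iff_le.mpr le_sup_left)
      (Ideal.dvd_iff_le.mpr le_sup_right))

/-- The quadratic order. -/
abbrev Rm {O : Type} [CommRing O] (a : O) : Type := QuadraticAlgebra O a 0

/-- The intersection of an ideal with the base ring. -/
abbrev cb {O : Type} [CommRing O] {a : O} (B : Ideal (Rm a)) : Ideal O :=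
  B.comap (algebraMap O (Rm a))

lemma mul_star_mem {O : Type} [CommRing O] {a : O} {B : Ideal (Rm a)} {z w : Rm a} (hz : z ∈ B)
    (hw : w ∈ B) : z * star w ∈ (cb B).map (algebraMap O (Rm a)) := by
  have h1 : z.re * w.re - a * z.im * w.im ∈ cb B := by
    have := B.sub_mem (B.mul_mem_left (algebraMap O _ w.re) hz)
      (B.mul_mem_left (algebraMap O _ z.im * QuadraticAlgebra.omega) hw)
    refine Ideal.mem_comap.mpr (by convert this using 1; ext <;> simp <;> ring)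
  have h2 : z.im * w.re - z.re * w.im ∈ cb B := by
    have := B.sub_mem (B.mul_mem_left (algebraMap O _ z.im) hw)
      (B.mul_mem_left (algebraMap O _ w.im) hz)
    refine Ideal.mem_comap.mpr (by convert this using 1; ext <;> simp <;> ring)
  have := Ideal.add_mem _ (Ideal.mem_map_of_mem (algebraMap O (Rm a)) h1)
    (Ideal.mul_mem_right QuadraticAlgebra.omega _ (Ideal.mem_map_of_mem (algebraMap O (Rm a)) h2))
  convert this using 1
  ext <;> simp <;> ring

lemma re_mem {O : Type} [CommRing O] {a : O} {I : Ideal O} {z : Rm a}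
    (hz : z ∈ I.map (algebraMap O (Rm a))) : z.re ∈ I ∧ z.im ∈ I := by
  refine Submodule.span_induction (p := fun z _ => z.re ∈ I ∧ z.im ∈ I) ?_ (by simp) ?_ ?_ hz
  · rintro _ ⟨x, hx, rfl⟩
    exact ⟨hx, I.zero_mem⟩
  · intro x y _ _ hx hy
    exact ⟨I.add_mem hx.1 hy.1, I.add_mem hx.2 hy.2⟩
  · intro r x _ hx
    simp only [smul_eq_mul, QuadraticAlgebra.re_mul, QuadraticAlgebra.im_mul]
    exact ⟨I.add_mem (I.mul_mem_left _ hx.1) (I.mul_mem_left _ hx.2),
      I.add_mem (I.add_mem (I.mul_mem_left _ hx.2) (I.mul_mem_left _ hx.1)) (I.mul_mem_left _ hx.2)⟩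

lemma card_over (a : 𝓞 F) {b : Ideal (𝓞 F)} (hb : b ≠ ⊥) (S : Finset (Ideal (Rm a)))
    (hS : ∀ B ∈ S, cb B = b) : S.card ≤ Nat.floorRoot 2 (Ideal.absNorm b) *
      (dv F (Ideal.absNorm b)).card * (dv F (Ideal.absNorm b)).card := by
  classical
  have hn : Ideal.absNorm b ≠ 0 := fun h => hb (Ideal.absNorm_eq_zero_iff.mp h)
  let c : Ideal (Rm a) → Ideal (𝓞 F) := fun B =>
    (B.restrictScalars (𝓞 F)).map (QuadraticAlgebra.imₗ a 0)
  have hc : ∀ B ∈ S, b ≤ c B := fun B hB y hy =>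
    ⟨algebraMap _ _ y * QuadraticAlgebra.omega,
      B.mul_mem_right _ (Ideal.mem_comap.mp ((hS B hB).ge hy)), by simp⟩
  refine card_le_mul_card_image_of_maps_to (f := c)
    (fun B hB => mem_dv hn (Ideal.absNorm_dvd_absNorm_of_le (hc B hB))) _ fun u _ => ?_
  set U := S.filter fun B => c B = u
  rcases U.eq_empty_or_nonempty with h | ⟨B0, h0⟩
  · simp [h]
  obtain ⟨y, hy⟩ := IsDedekindDomain.exists_sup_span_eq
    ((mem_filter.mp h0).2 ▸ hc B0 (mem_filter.mp h0).1 : b ≤ u) hb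
  have h1 : ∀ B : Ideal (Rm a), ∃ x : 𝓞 F, B ∈ U → (⟨x, y⟩ : Rm a) ∈ B := by
    intro B
    by_cases hB : B ∈ U
    · have : y ∈ c B := (mem_filter.mp hB).2 ▸ hy ▸
        Ideal.mem_sup_right (Ideal.mem_span_singleton_self _)
      obtain ⟨z, hz, rfl⟩ := this
      exact ⟨z.re, fun _ => hz⟩
    · exact ⟨0, fun h => absurd h hB⟩
  choose x hx using h1
  have h2 : ∀ B ∈ U, ∀ B' ∈ U, x B - x B' ∈ b → B ≤ B' := by
    intro B hB B' hB' h z hz
    have e := hS B (mem_filter.mp hB).1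
    have e' := hS B' (mem_filter.mp hB').1
    have : z.im ∈ b ⊔ Ideal.span {y} := hy ▸ (mem_filter.mp hB).2 ▸ ⟨z, hz, rfl⟩
    obtain ⟨s, hs, _, ht, hst⟩ := Submodule.mem_sup.mp this
    obtain ⟨k, rfl⟩ := Ideal.mem_span_singleton'.mp ht
    have h3 : z.re - k * x B ∈ b := by
      have := B.sub_mem (B.sub_mem hz (B.mul_mem_left (algebraMap _ _ k) (hx B hB)))
        (B.mul_mem_right QuadraticAlgebra.omega (Ideal.mem_comap.mp (e.ge hs)))
      rw [← e]
      refine Ideal.mem_comap.mpr (by convert this using 1; ext <;> simp [← hst])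
    have := B'.add_mem (B'.add_mem (B'.mul_mem_left (algebraMap _ _ k) (hx B' hB'))
      (B'.mul_mem_right QuadraticAlgebra.omega (Ideal.mem_comap.mp (e'.ge hs))))
      (Ideal.mem_comap.mp (e'.ge (b.add_mem h3 (b.mul_mem_left k h))))
    convert this using 1
    ext <;> simp [← hst] <;> ring
  refine card_roots hb (a * y ^ 2) U x (fun B hB => ?_) fun B hB B' hB' h =>
    le_antisymm (h2 B hB B' hB' h) (h2 B' hB' B hB (by simpa using b.neg_mem h))
  have := (re_mem (mul_star_mem (hx B hB) (hx B hB))).1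
  rw [hS B (mem_filter.mp hB).1] at this
  convert this using 1
  simp
  ring

lemma sum_floorRoot (X : ℕ) :
    (∑ n ∈ Icc 1 X, Nat.floorRoot 2 n : ℕ) ≤ (X : ℝ) * (1 + Real.log X) := by
  have h1 : ∑ n ∈ Icc 1 X, Nat.floorRoot 2 n ≤ ∑ k ∈ Icc 1 X, k * (X / k ^ 2) := by
    calc _ ≤ ∑ n ∈ Icc 1 X, ∑ k ∈ Icc 1 X, if k ^ 2 ∣ n then k else 0 := by
          refine sum_le_sum fun n hn => ?_
          obtain ⟨h1, h2⟩ := mem_Icc.mp hn
          have h3 := Nat.floorRoot_pow_dvd (n := 2) (a := n)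
          have h4 : Nat.floorRoot 2 n ∈ Icc 1 X := mem_Icc.mpr
            ⟨Nat.pos_of_ne_zero (Nat.floorRoot_ne_zero.mpr ⟨two_ne_zero, by omega⟩),
              (Nat.le_self_pow two_ne_zero _).trans ((Nat.le_of_dvd h1 h3).trans h2)⟩
          refine le_trans (le_of_eq ?_) (single_le_sum (fun _ _ => Nat.zero_le _) h4)
          rw [if_pos h3]
      _ = _ := by
          rw [sum_comm]
          refine sum_congr rfl fun k _ => ?_
          rw [← sum_filter, sum_const, smul_eq_mul, mul_comm,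
            ← Nat.Ioc_filter_dvd_card_eq_div]
          rfl
  calc _ ≤ ((∑ k ∈ Icc 1 X, k * (X / k ^ 2) : ℕ) : ℝ) := by exact_mod_cast h1
    _ ≤ ∑ k ∈ Icc 1 X, (X : ℝ) * (k : ℝ)⁻¹ := by
        rw [Nat.cast_sum]
        refine sum_le_sum fun k hk => ?_
        have hk0 : (0 : ℝ) < k := by exact_mod_cast (mem_Icc.mp hk).1
        rw [Nat.cast_mul]
        refine (mul_le_mul_of_nonneg_left Nat.cast_div_le hk0.le).trans (le_of_eq ?_)
        push_cast
        field_simp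
    _ ≤ _ := by
        rw [← mul_sum]
        refine mul_le_mul_of_nonneg_left (le_trans (le_of_eq ?_) (harmonic_le_one_add_log X))
          (Nat.cast_nonneg _)
        simp [harmonic_eq_sum_Icc]

lemma tau_le (k : ℕ) {ε : ℝ} (hε : 0 < ε) : ∃ C : ℝ, 0 < C ∧ ∀ n : ℕ, n ≠ 0 →
    (n.divisors.card : ℝ) ^ k ≤ C * (n : ℝ) ^ ε := by
  obtain ⟨j, hj⟩ := exists_nat_ge (1 / ε)
  have hj1 : 1 ≤ ε * j := by rwa [div_le_iff₀' hε] at hj
  have hj0 : j ≠ 0 := by rintro rfl; norm_num at hj1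
  set e := (k + 1) * j
  have he : 0 < e := Nat.mul_pos k.succ_pos (Nat.pos_of_ne_zero hj0)
  set c : ℕ := (e ^ e) ^ 2 ^ e
  have hc : (1 : ℝ) ≤ c := by exact_mod_cast Nat.one_le_pow _ _ (pow_pos he e)
  refine ⟨c, by linarith, fun n hn => ?_⟩
  have hn1 : (1 : ℝ) ≤ n := by exact_mod_cast Nat.pos_of_ne_zero hn
  have h0 : (1 : ℝ) ≤ n.divisors.card := by
    exact_mod_cast card_pos.mpr (Nat.nonempty_divisors.mpr hn)
  refine (pow_le_pow_right₀ h0 k.le_succ).trans
    (le_of_pow_le_pow_left₀ hj0 (by positivity) ?_)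
  calc _ ≤ (n : ℝ) * c := by
        rw [← pow_mul]; exact_mod_cast Pool.Agent.Lib.MP_cdccbc_an.card_divisors_pow_le he hn
    _ ≤ _ := by
      rw [mul_pow, ← Real.rpow_natCast ((n : ℝ) ^ ε), ← Real.rpow_mul (by linarith), mul_comm]
      refine mul_le_mul (le_self_pow₀ hc hj0) ?_ (by positivity) (by positivity)
      simpa using Real.rpow_le_rpow_of_exponent_le hn1 hj1

/-- The number of ideals of the order whose intersection with the base has norm at most `X`. -/
theorem count (F : Type) [Field F] [NumberField F] {ε : ℝ} (hε : 0 < ε) : ∃ C : ℝ, 0 < C ∧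
    ∀ (a : 𝓞 F) (X : ℕ) (S : Finset (Ideal (Rm a))),
      (∀ B ∈ S, cb B ≠ ⊥ ∧ Ideal.absNorm (cb B) ≤ X) → (S.card : ℝ) ≤ C * (X : ℝ) ^ (1 + ε) := by
  classical
  obtain ⟨C, hC0, hC⟩ := tau_le (3 * (finrank ℚ F + 1)) (half_pos hε)
  refine ⟨C * (1 + 2 / ε), by positivity, fun a X S hS => ?_⟩
  have hn : ∀ B ∈ S, Ideal.absNorm (cb B) ∈ Icc 1 X := fun B hB => mem_Icc.mpr
    ⟨Nat.pos_of_ne_zero fun h => (hS B hB).1 (Ideal.absNorm_eq_zero_iff.mp h), (hS B hB).2⟩
  rcases Nat.eq_zero_or_pos X with rfl | hX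
  · rw [eq_empty_of_forall_notMem (s := S) fun B hB => by simpa using hn B hB]
    simp only [card_empty, Nat.cast_zero]
    positivity
  have hX1 : (1 : ℝ) ≤ X := by exact_mod_cast hX
  have h1 : ∀ n ∈ Icc 1 X, ((S.filter fun B => Ideal.absNorm (cb B) = n).card : ℝ)
      ≤ Nat.floorRoot 2 n * (C * (X : ℝ) ^ (ε / 2)) := by
    intro n hn
    obtain ⟨h1, h2⟩ := mem_Icc.mp hn
    have hn0 : n ≠ 0 := by omega
    have h3 := card_le_mul_card_image_of_maps_to (f := cb) (t := dv F n)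
      (s := S.filter fun B => Ideal.absNorm (cb B) = n)
      (fun B hB => mem_dv hn0 (mem_filter.mp hB).2.dvd)
      (Nat.floorRoot 2 n * (dv F n).card * (dv F n).card) fun b _ => by
        set U := (S.filter fun B => Ideal.absNorm (cb B) = n).filter fun B => cb B = b
        rcases U.eq_empty_or_nonempty with h | ⟨B, h⟩
        · simp [h]
        obtain ⟨h4, rfl⟩ := mem_filter.mp h
        obtain ⟨h5, rfl⟩ := mem_filter.mp h4
        exact card_over a (hS B h5).1 U fun B' h' => (mem_filter.mp h').2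
    have h4 : (dv F n).card * (dv F n).card * (dv F n).card
        ≤ n.divisors.card ^ (3 * (finrank ℚ F + 1)) := by
      rw [pow_mul', pow_succ, sq]
      exact Nat.mul_le_mul (Nat.mul_le_mul (card_dv hn0) (card_dv hn0)) (card_dv hn0)
    calc _ ≤ Nat.floorRoot 2 n * (n.divisors.card : ℝ) ^ (3 * (finrank ℚ F + 1)) := by
          rw [mul_assoc, mul_assoc, ← mul_assoc (dv F n).card] at h3
          exact_mod_cast h3.trans (Nat.mul_le_mul_left _ h4)
      _ ≤ _ := by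
          refine mul_le_mul_of_nonneg_left ((hC n hn0).trans ?_) (Nat.cast_nonneg _)
          gcongr
  rw [card_eq_sum_card_fiberwise hn, Nat.cast_sum]
  refine (sum_le_sum h1).trans ?_
  rw [← sum_mul, ← Nat.cast_sum]
  have h2 := Real.log_le_rpow_div (by linarith : (0 : ℝ) ≤ X) (half_pos hε)
  have h3 : 1 ≤ (X : ℝ) ^ (ε / 2) := Real.one_le_rpow hX1 (half_pos hε).le
  calc _ ≤ X * ((1 + 2 / ε) * (X : ℝ) ^ (ε / 2)) * (C * (X : ℝ) ^ (ε / 2)) := by
        refine mul_le_mul_of_nonneg_right ((sum_floorRoot X).trans ?_) (by positivity)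
        gcongr
        rw [add_mul, one_mul]
        exact add_le_add h3 (h2.trans (le_of_eq (by field_simp)))
    _ = _ := by
        rw [show 1 + ε = 1 + ε / 2 + ε / 2 by ring, Real.rpow_add (by linarith),
          Real.rpow_add (by linarith), Real.rpow_one]
        ring

end M4.Cl
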