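import Pool.Agent.Lib.MP_33b3f9_ag.M4.ClThue

/-!
Few classes of ideals coprime to their conjugate in a quadratic order.
-/

open Finset NumberField Module Ideal

namespace M4.Cl

section
variable {O : Type} [CommRing O] {a : O}

/-- Nonzero ideals coprime to their conjugate and to `n`. -/
def Adm (n : ℕ) (A : Ideal (Rm a)) : Prop :=
  cb A ≠ ⊥ ∧ (∃ v ∈ A, 1 - star v ∈ A) ∧ ∃ u ∈ A, 1 - u ∈ span {(n : Rm a)}

/-- The conjugate ideal. -/
abbrev cj (A : Ideal (Rm a)) : Ideal (Rm a) := A.map (starRingEnd (Rm a))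

lemma mul_cj_le (A : Ideal (Rm a)) : A * cj A ≤ (cb A).map (algebraMap O (Rm a)) := by
  refine Ideal.mul_le.mpr fun z hz w hw => ?_
  obtain ⟨y, hy, rfl⟩ := (mem_map_iff_of_surjective _ star_involutive.surjective).mp hw
  exact mul_star_mem hz hy

lemma mul_cj_eq {A : Ideal (Rm a)} {v : Rm a} (hv : v ∈ A) (hv1 : 1 - star v ∈ A) :
    A * cj A = (cb A).map (algebraMap O (Rm a)) := by
  refine le_antisymm (mul_cj_le A) (map_le_iff_le_comap.mpr fun c hc => ?_)
  have h1 : algebraMap O (Rm a) c ∈ cj A := by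
    have := mem_map_of_mem (starRingEnd (Rm a)) hc
    rwa [show starRingEnd (Rm a) (algebraMap O _ c) = algebraMap O _ c by
      ext <;> simp [starRingEnd_apply]] at this
  have h2 := (A * cj A).add_mem (mul_mem_mul hv1 h1)
    (mul_mem_mul hc (mem_map_of_mem (starRingEnd (Rm a)) hv))
  refine mem_comap.mpr (by convert h2 using 1; rw [starRingEnd_apply]; ring)

lemma exists_mul_eq {R : Type} [CommRing R] {I : Ideal R} {N : R} (h : I ≤ span {N}) :
    ∃ B, span {N} * B = I := by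
  refine ⟨Submodule.comap (LinearMap.mulLeft R N) I, Ideal.ext fun x => ?_⟩
  rw [mem_span_singleton_mul]
  refine ⟨fun ⟨z, hz, e⟩ => e ▸ hz, fun hx => ?_⟩
  obtain ⟨y, rfl⟩ := mem_span_singleton.mp (h hx)
  exact ⟨y, hx, rfl⟩

end

variable {F : Type} [Field F] [NumberField F]

lemma isDomain [IsTotallyReal F] {m : 𝓞 F} (hm : TP m) : IsDomain (Rm (-m)) :=
  have : NoZeroDivisors (Rm (-m)) := ⟨fun {_ y} h => or_iff_not_imp_left.mpr fun hx =>
    (mem_nonZeroDivisors_iff.mp (mem_nzd hm hx)).1 y h⟩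
  NoZeroDivisors.to_isDomain _

lemma inv_ideal {a : 𝓞 F} [IsDomain (Rm a)] {A : Ideal (Rm a)} (h0 : cb A ≠ ⊥) {v : Rm a}
    (hv : v ∈ A) (hv1 : 1 - star v ∈ A) {α : Rm a} (hα : α ∈ A) :
    ∃ B, A * B = span {α} ∧ α.norm ∈ cb A * cb B := by
  set N := absNorm (cb A)
  have hN : (N : Rm a) ≠ 0 := by
    rw [← map_natCast (algebraMap (𝓞 F) (Rm a)), Ne,
      map_eq_zero_iff _ QuadraticAlgebra.algebraMap_injective, Nat.cast_eq_zero]
    exact fun h => h0 (absNorm_eq_zero_iff.mp h)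
  obtain ⟨c, hc⟩ : cb A ∣ span {(N : 𝓞 F)} :=
    dvd_iff_le.mpr ((span_singleton_le_iff_mem _).mpr (absNorm_mem _))
  have h1 : A * (cj A * c.map (algebraMap _ _)) = span {(N : Rm a)} := by
    rw [← mul_assoc, mul_cj_eq hv hv1, ← Ideal.map_mul, ← hc, map_span, Set.image_singleton,
      map_natCast]
  obtain ⟨B, hB⟩ := exists_mul_eq (I := span {α} * (cj A * c.map (algebraMap _ _)))
    (h1 ▸ mul_mono_left ((span_singleton_le_iff_mem _).mpr hα))
  have h2 : A * B = span {α} := by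
    rw [← span_singleton_mul_right_inj hN, mul_left_comm, hB, mul_left_comm, h1, mul_comm]
  refine ⟨B, h2, ?_⟩
  have h3 : α * star α ∈ (cb A * cb B).map (algebraMap (𝓞 F) (Rm a)) := by
    have h4 : α ∈ A * B := h2 ▸ mem_span_singleton_self α
    have h5 := mul_mem_mul h4 (mem_map_of_mem (starRingEnd (Rm a)) h4)
    rw [Ideal.map_mul, mul_mul_mul_comm] at h5
    rw [Ideal.map_mul]
    exact mul_mono (mul_cj_le A) (mul_cj_le B) h5
  rw [← QuadraticAlgebra.algebraMap_norm_eq_mul_star] at h3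
  exact (re_mem h3).1

theorem small (F : Type) [Field F] [NumberField F] [IsTotallyReal F] : ∃ C : ℝ, 0 < C ∧
    ∀ m : 𝓞 F, TP m → ∀ A : Ideal (Rm (-m)), cb A ≠ ⊥ → (∃ v ∈ A, 1 - star v ∈ A) →
      ∃ (α : Rm (-m)) (B : Ideal (Rm (-m))), α ≠ 0 ∧ A * B = span {α} ∧ cb B ≠ ⊥ ∧
        (absNorm (cb B) : ℝ) ≤ C * Real.sqrt (Algebra.norm ℤ m).natAbs := by
  obtain ⟨C, hC, h⟩ := thue F
  refine ⟨C, hC, fun m hm A h0 ⟨v, hv, hv1⟩ => ?_⟩
  have := isDomain hm
  have := (cb A).finiteQuotientOfFreeOfNeBot h0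
  obtain ⟨α, h1, h2, h3⟩ := h m hm (𝓞 F ⧸ cb A)
    { toFun := fun z => Ideal.Quotient.mk _ (z.re + 2 * z.im * v.im * m)
      map_zero' := by simp
      map_add' := fun x y => by rw [← map_add]; congr 1; simp; ring }
  have h4 : α ∈ A := by
    have h5 := A.add_mem (mem_comap.mp (Ideal.Quotient.eq_zero_iff_mem.mp h2))
      (A.mul_mem_left (algebraMap _ _ α.im * QuadraticAlgebra.omega) (A.add_mem hv1 hv))
    convert h5 using 1
    refine QuadraticAlgebra.ext ?_ ?_ <;> simp [QuadraticAlgebra.re_one, QuadraticAlgebra.im_one]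
    ring
  obtain ⟨B, h5, h6⟩ := inv_ideal h0 hv hv1 h4
  have h7 := norm_ne_zero hm h1
  refine ⟨α, B, h1, h5, fun hB => h7 (by simpa [hB] using h6), ?_⟩
  have h8 := Nat.le_of_dvd (Int.natAbs_pos.mpr (Algebra.norm_ne_zero_iff.mpr h7))
    (Int.natCast_dvd.mp (absNorm_dvd_norm_of_mem h6))
  have h9 : (0 : ℝ) < absNorm (cb A) := by
    exact_mod_cast Nat.pos_of_ne_zero fun h => h0 (absNorm_eq_zero_iff.mp h)
  rw [← Submodule.cardQuot_apply, ← absNorm_apply] at h3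
  rw [map_mul, ← Nat.cast_le (α := ℝ), Nat.cast_mul] at h8
  exact le_of_mul_le_mul_left (h8.trans (h3.trans_eq (by ring))) h9

theorem cls (F : Type) [Field F] [NumberField F] [IsTotallyReal F] {ε : ℝ} (hε : 0 < ε) {n : ℕ}
    (hn : n ≠ 0) : ∃ C : ℝ, 0 < C ∧ ∀ m : 𝓞 F, TP m → ∀ (X : Type) (A : X → Ideal (Rm (-m))),
      (∀ x, Adm n (A x)) → ∃ (h : ℕ) (cl : X → Fin h),
        (h : ℝ) ≤ C * ((Algebra.norm ℤ m).natAbs : ℝ) ^ (1 / 2 + ε) ∧
        ∀ x y, cl x = cl y → ∀ μ ∈ A y, ∃ z ∈ A x,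
          span {μ} * A x = span {z} * A y ∧ z - μ ∈ span {(n : Rm (-m))} := by
  classical
  obtain ⟨C₁, hC₁, h1⟩ := small F
  obtain ⟨C₂, hC₂, h2⟩ := count F (mul_pos two_pos hε)
  have hn0 : span {(n : 𝓞 F)} ≠ ⊥ := by simpa using hn
  have := Ideal.finiteQuotientOfFreeOfNeBot _ hn0
  have := Fintype.ofFinite (𝓞 F ⧸ span {(n : 𝓞 F)})
  set k := Fintype.card (𝓞 F ⧸ span {(n : 𝓞 F)}) with hk
  have hk0 : (0 : ℝ) < k := by exact_mod_cast Fintype.card_pos
  refine ⟨C₂ * C₁ ^ (1 + 2 * ε) * k ^ 2, by positivity, fun m hm X A hA => ?_⟩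
  have := isDomain hm
  rcases isEmpty_or_nonempty X with hX | hX
  · exact ⟨0, isEmptyElim, by rw [Nat.cast_zero]; positivity, isEmptyElim⟩
  choose α B hα hAB hB0 hB using fun x => h1 m hm (A x) (hA x).1 (hA x).2.1
  set N : ℝ := ((Algebra.norm ℤ m).natAbs : ℝ)
  have hc : ∀ S : Finset (Ideal (Rm (-m))), (S : Set _) ⊆ Set.range B →
      (S.card : ℝ) ≤ C₂ * C₁ ^ (1 + 2 * ε) * N ^ (1 / 2 + ε) := by
    intro S hS
    refine (h2 (-m) ⌊C₁ * Real.sqrt N⌋₊ S fun I hI => ?_).trans ?_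
    · obtain ⟨x, rfl⟩ := hS hI
      exact ⟨hB0 x, Nat.le_floor (hB x)⟩
    · rw [mul_assoc]
      refine mul_le_mul_of_nonneg_left ((Real.rpow_le_rpow (Nat.cast_nonneg _)
        (Nat.floor_le (by positivity)) (by positivity)).trans_eq ?_) hC₂.le
      rw [Real.mul_rpow hC₁.le (Real.sqrt_nonneg _), Real.sqrt_eq_rpow,
        ← Real.rpow_mul (Nat.cast_nonneg _)]
      congr 2
      ring
  have hfin : (Set.range B).Finite := by
    by_contra hi
    obtain ⟨j, hj⟩ := exists_nat_gt (C₂ * C₁ ^ (1 + 2 * ε) * N ^ (1 / 2 + ε))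
    obtain ⟨S, hS, rfl⟩ := Set.Infinite.exists_subset_card_eq hi j
    exact hj.not_ge (hc S hS)
  have hμ : ∀ x, ∃ u ∈ A x, u ≠ 0 ∧ 1 - u ∈ span {(n : Rm (-m))} := by
    intro x
    obtain ⟨u, hu, hu1⟩ := (hA x).2.2
    obtain ⟨c, hc, hc0⟩ := Submodule.exists_mem_ne_zero_of_ne_bot (hA x).1
    by_cases h0 : u = 0
    · rw [h0, sub_zero, ← eq_top_iff_one] at hu1
      exact ⟨_, hc, (map_ne_zero_iff _ QuadraticAlgebra.algebraMap_injective).mpr hc0,
        hu1 ▸ Submodule.mem_top⟩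
    · exact ⟨u, hu, h0, hu1⟩
  choose u hu hu0 hu1 using hμ
  have key : ∀ x y, B x = B y → ∀ μ ∈ A y, ∃ z ∈ A x, span {μ} * A x = span {z} * A y := by
    intro x y e μ hμ
    have h3 : span {α y} * A x = span {α x} * A y := by rw [← hAB, ← hAB, e]; ring
    have h4 : α x * μ ∈ span {α y} * A x := h3 ▸ mul_mem_mul (mem_span_singleton_self _) hμ
    obtain ⟨z, hz, h5⟩ := mem_span_singleton_mul.mp h4
    refine ⟨z, hz, (span_singleton_mul_right_inj (hα y)).mp ?_⟩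
    rw [mul_left_comm, h3, ← mul_assoc, ← mul_assoc, span_singleton_mul_span_singleton,
      span_singleton_mul_span_singleton, h5, mul_comm μ]
  let g := Function.invFun B
  have hg : ∀ x, B x = B (g (B x)) := fun x => (Function.invFun_eq ⟨x, rfl⟩).symm
  choose b hb hb1 using fun x => key x (g (B x)) (hg x) _ (hu _)
  let T := hfin.toFinset × (𝓞 F ⧸ span {(n : 𝓞 F)}) × (𝓞 F ⧸ span {(n : 𝓞 F)})
  refine ⟨Fintype.card T, fun x => Fintype.equivFin T (⟨B x, by simp⟩,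
    Ideal.Quotient.mk _ (b x).re, Ideal.Quotient.mk _ (b x).im), ?_, fun x y e μ hμ => ?_⟩
  · simp only [T, Fintype.card_prod, Fintype.card_coe, ← hk]
    push_cast
    have := hc hfin.toFinset (by simp)
    nlinarith [mul_pos hk0 hk0]
  · obtain ⟨e1, e2⟩ := Prod.mk.inj ((Fintype.equivFin T).injective e)
    obtain ⟨e2, e3⟩ := Prod.mk.inj e2
    have e1 : B x = B y := congrArg Subtype.val e1
    have h3 : b x - b y ∈ span {(n : Rm (-m))} := by
      obtain ⟨c, hc⟩ := mem_span_singleton.mp (Ideal.Quotient.eq.mp e2)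
      obtain ⟨d, hd⟩ := mem_span_singleton.mp (Ideal.Quotient.eq.mp e3)
      exact mem_span_singleton.mpr ⟨⟨c, d⟩, by ext <;> simp [hc, hd]⟩
    have h4 := hb1 x
    have h5 := hb1 y
    rw [e1] at h4
    set w := g (B y)
    have h6 : span {b y} * A x = span {b x} * A y := by
      rw [← span_singleton_mul_right_inj (hu0 w), mul_left_comm, h4, mul_left_comm (span {u w}), h5]
      ring
    have h7 : b x * μ ∈ span {b y} * A x := h6 ▸ mul_mem_mul (mem_span_singleton_self _) hμ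
    obtain ⟨z, hz, h8⟩ := mem_span_singleton_mul.mp h7
    have h9 : u w * u y ∈ span {b y} * A w := h5 ▸ mul_mem_mul (mem_span_singleton_self _) (hu y)
    obtain ⟨t, -, ht⟩ := mem_span_singleton_mul.mp h9
    have hb0 : b y ≠ 0 := fun h => mul_ne_zero (hu0 w) (hu0 y) (by rw [← ht, h, zero_mul])
    refine ⟨z, hz, (span_singleton_mul_right_inj hb0).mp ?_, ?_⟩
    · rw [mul_left_comm, h6, ← mul_assoc, ← mul_assoc, span_singleton_mul_span_singleton,
        span_singleton_mul_span_singleton, h8, mul_comm μ]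
    · have := (span {(n : Rm (-m))}).add_mem ((span {(n : Rm (-m))}).add_mem
        (mul_mem_left _ (t * μ) h3) (mul_mem_left _ (z - μ) (hu1 w)))
        (mul_mem_left _ ((z - μ) * u w) (hu1 y))
      convert this using 1
      linear_combination t * h8 - (z - μ) * ht

end M4.Cl
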