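import Pool.Agent.Lib.MP_33b3f9_ag.M4.ClMain
import Pool.Agent.Lib.MP_33b3f9_ag.M4.NTEmb

/-!
The class bound in terms of places.
-/

open NumberField Ideal

namespace M4.Cl

section
variable {l : ℕ} [Fact l.Prime]

lemma nle {x : PadicAlgCl l} (h : IsIntegral ℤ x) : ‖x‖ ≤ 1 := by
  have := (Valuation.integer.integers (Valued.v (R := PadicAlgCl l))).mem_of_integral h.tower_top
  exact_mod_cast this

lemma norm_nat {M : ℕ} (h : ¬ l ∣ M) : ‖(M : PadicAlgCl l)‖ = 1 := by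
  rw [← map_natCast (algebraMap ℚ_[l] (PadicAlgCl l)), norm_algebraMap', Padic.norm_natCast_eq_one_iff]
  exact (Nat.Prime.coprime_iff_not_dvd Fact.out).mpr h

lemma norm_l : ‖(l : PadicAlgCl l)‖ = 1 / l := by
  rw [← map_natCast (algebraMap ℚ_[l] (PadicAlgCl l)), norm_algebraMap', Padic.norm_p, one_div]

lemma inv_lt : (1 : ℝ) / l < 1 := by
  have : (1 : ℝ) < l := by exact_mod_cast (Fact.out : l.Prime).one_lt
  rw [div_lt_one (by linarith)]
  exact this

lemma norm_lt {x : PadicAlgCl l} (hx : ‖x‖ ≤ 1) : ‖(l : PadicAlgCl l) * x‖ < 1 := by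
  rw [norm_mul, norm_l]
  exact (mul_le_of_le_one_right (by positivity) hx).trans_lt inv_lt

lemma add_lt {x y : PadicAlgCl l} (hx : ‖x‖ < 1) (hy : ‖y‖ < 1) : ‖x + y‖ < 1 :=
  (IsUltrametricDist.norm_add_le_max x y).trans_lt (max_lt hx hy)

lemma qp_le {x : PadicAlgCl l} (hx : x ∈ NT.Qp l) (h : ‖x‖ < 1) : ‖x‖ ≤ 1 / l := by
  obtain ⟨y, rfl⟩ := hx
  rw [norm_algebraMap'] at h ⊢
  simpa using (Padic.norm_le_pow_iff_norm_lt_pow_add_one y (-1)).mpr (by simpa using h)

lemma qp_res {x : PadicAlgCl l} (hx : x ∈ NT.Qp l) (h : ‖x‖ ≤ 1) : ∃ e : ℕ, ‖x - e‖ < 1 := by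
  obtain ⟨y, rfl⟩ := hx
  rw [norm_algebraMap'] at h
  refine ⟨PadicInt.zmodRepr ⟨y, h⟩, ?_⟩
  rw [← map_natCast (algebraMap ℚ_[l] (PadicAlgCl l)), ← map_sub, norm_algebraMap']
  exact PadicInt.mem_nonunits.mp (PadicInt.sub_zmodRepr_mem (⟨y, h⟩ : ℤ_[l]))

lemma unit_of_dvd {R : Type} [CommRing R] [Algebra.IsIntegral ℤ R] (φ : R →+* PadicAlgCl l) {x : R}
    {M : ℕ} (h : ¬ l ∣ M) (hx : x ∣ M) : ‖φ x‖ = 1 := by
  obtain ⟨c, hc⟩ := hx
  have h1 := norm_nat h
  have h2 := fun y : R => nle (map_isIntegral_int φ (Algebra.IsIntegral.isIntegral y))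
  rw [← map_natCast φ, hc, map_mul, norm_mul] at h1
  exact le_antisymm (h2 x) (h1 ▸ mul_le_of_le_one_right (norm_nonneg _) (h2 c))

end

variable {F : Type} [Field F] [NumberField F]

lemma emb_sep (F : Type) [Field F] [NumberField F] : ∃ d : ℕ, d ≠ 0 ∧ ∀ (l : ℕ) [Fact l.Prime],
    ¬ l ∣ d → ∀ s s' : F →+* PadicAlgCl l, (∀ x : 𝓞 F, ‖s x - s' x‖ < 1) → s = s' := by
  obtain ⟨B, θ, f, -, d, hθ, hf, -, hd, -, hc⟩ := NT.emb_data F
  refine ⟨d.natAbs, Int.natAbs_ne_zero.mpr hd, fun l _ hl s s' h => ?_⟩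
  let r : (F →+* PadicAlgCl l) → 𝓞 F →+* (integralClosure ℤ (PadicAlgCl l)).toSubring := fun s =>
    (s.comp (algebraMap (𝓞 F) F)).codRestrict _ fun x =>
      map_isIntegral_int s x.isIntegral_coe
  have h0 : Polynomial.aeval θ f = 0 := by
    refine RingOfIntegers.coe_injective ?_
    have := minpoly.aeval ℚ B.gen
    rwa [hf, Polynomial.aeval_map_algebraMap, hθ, RingOfIntegers.coe_eq_algebraMap,
      Polynomial.aeval_algebraMap_apply, ← map_zero (algebraMap (𝓞 F) F)] at this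
  obtain ⟨k, hk⟩ := (f.map (algebraMap ℤ _)).binomExpansion (r s θ) (r s' θ - r s θ)
  rw [add_sub_cancel, Polynomial.derivative_map, Polynomial.eval_map_algebraMap,
    Polynomial.eval_map_algebraMap, Polynomial.eval_map_algebraMap, ← NT.emb_aeval (r s'),
    ← NT.emb_aeval (r s), ← NT.emb_aeval (r s), h0, map_zero, map_zero, zero_add] at hk
  have h1 : (s (Polynomial.aeval θ f.derivative : 𝓞 F) + k * (s' θ - s θ)) * (s' θ - s θ) = 0 := by
    have : 0 = s (Polynomial.aeval θ f.derivative : 𝓞 F) * (s' θ - s θ) + k * (s' θ - s θ) ^ 2 :=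
      congrArg Subtype.val hk
    linear_combination -this
  have h2 : ‖s (Polynomial.aeval θ f.derivative : 𝓞 F)‖ = 1 :=
    unit_of_dvd (s.comp (algebraMap (𝓞 F) F)) hl (hc.trans (by
      simpa using map_dvd (Int.castRingHom (𝓞 F)) (Int.dvd_natAbs.mpr (dvd_refl d))))
  rcases mul_eq_zero.mp h1 with h3 | h3
  · rw [eq_neg_of_add_eq_zero_left h3, norm_neg, norm_mul, norm_sub_rev] at h2
    exact absurd h2 ((mul_le_of_le_one_left (norm_nonneg _) (nle k.2)).trans_lt (h θ)).ne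
  · exact congrArg AlgHom.toRingHom (B.algHom_ext (f := s.toRatAlgHom) (g := s'.toRatAlgHom)
      (hθ ▸ (sub_eq_zero.mp h3).symm))

/-- The embedding of the order given by `s` and a square root `η`. -/
def ev {K : Type} [Field K] {D : 𝓞 F} (s : F →+* K) {η : K} (h : η ^ 2 = s D) : Rm D →+* K where
  toFun z := s z.re + s z.im * η
  map_one' := by simp [QuadraticAlgebra.re_one, QuadraticAlgebra.im_one]
  map_mul' x y := by
    simp only [QuadraticAlgebra.re_mul, QuadraticAlgebra.im_mul, RingOfIntegers.coe_eq_algebraMap,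
      map_add, map_mul, map_zero] at h ⊢
    linear_combination (-s (algebraMap _ _ x.im) * s (algebraMap _ _ y.im)) * h
  map_zero' := by simp
  map_add' x y := by simp; ring

open Classical in
/-- The absolute value of an ideal of norm `M` at the place `(s', η')`. -/
noncomputable def Wt {l : ℕ} [Fact l.Prime] (M : ℕ) (s : F →+* PadicAlgCl l) (η : PadicAlgCl l)
    (s' : F →+* PadicAlgCl l) (η' : PadicAlgCl l) : ℝ :=
  if l ∣ M ∧ s' = s ∧ η' = η then 1 / l else 1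

omit [NumberField F] in
lemma ev_le {l : ℕ} [Fact l.Prime] {D : 𝓞 F} (φ : Rm D →+* PadicAlgCl l) (z : Rm D) : ‖φ z‖ ≤ 1 :=
  nle (map_isIntegral_int φ (isIntegral_trans (A := 𝓞 F) _ (Algebra.IsIntegral.isIntegral z)))

lemma eta_unit {l : ℕ} [Fact l.Prime] {D : 𝓞 F} (hD : ¬ (l : ℤ) ∣ Algebra.norm ℤ D)
    {s : F →+* PadicAlgCl l} {η : PadicAlgCl l} (h : η ^ 2 = s D) : ‖η‖ = 1 := by
  have h1 := absNorm_mem (span {D})
  rw [absNorm_span_singleton, mem_span_singleton] at h1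
  have h2 : ‖s D‖ = 1 := unit_of_dvd (s.comp (algebraMap (𝓞 F) F))
    (fun h => hD (Int.natCast_dvd.mpr h)) h1
  rw [← h, norm_pow] at h2
  exact (pow_eq_one_iff_of_nonneg (norm_nonneg _) two_ne_zero).mp h2

/-- The class bound. -/
theorem classBound (F : Type) [Field F] [NumberField F] [IsTotallyReal F] {ε : ℝ} (hε : 0 < ε)
    {n : ℕ} (hn : n ≠ 0) : ∃ (C : ℝ) (l₃ : ℕ), 0 < C ∧ ∀ D : 𝓞 F, TP (-D) →
    ∀ (X : Type) (M : X → ℕ) (s : X → ∀ (l : ℕ) [Fact l.Prime], F →+* PadicAlgCl l)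
      (η : X → ∀ (l : ℕ) [Fact l.Prime], PadicAlgCl l), (∀ x, Squarefree (M x)) →
      (∀ x (l : ℕ) [Fact l.Prime], l ∣ M x → l₃ < l ∧ ¬ (l : ℤ) ∣ Algebra.norm ℤ D ∧
        (∀ a, s x l a ∈ NT.Qp l) ∧ η x l ∈ NT.Qp l ∧ η x l ^ 2 = s x l D) →
      ∃ (h : ℕ) (cl : X → Fin h), (h : ℝ) ≤ C * ((Algebra.norm ℤ D).natAbs : ℝ) ^ (1 / 2 + ε) ∧
        ∀ x y, cl x = cl y → ∃ a b : F, ∀ (l : ℕ) [Fact l.Prime] (s' : F →+* PadicAlgCl l),
          (∀ η' : PadicAlgCl l, η' ^ 2 = s' D →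
            ‖s' a + s' b * η'‖ * Wt (M y) (s y l) (η y l) s' η' = Wt (M x) (s x l) (η x l) s' η') ∧
          ‖s' a * M y‖ ≤ 1 ∧ ‖s' b * M y‖ ≤ 1 ∧ (¬ l ∣ M y → ‖s' a‖ ≤ 1 ∧ ‖s' b‖ ≤ 1) ∧
          (l ∣ n → ‖s' a - 1‖ ≤ ‖(n : PadicAlgCl l)‖ ∧ ‖s' b‖ ≤ ‖(n : PadicAlgCl l)‖) := by
  classical
  obtain ⟨C, hC, h1⟩ := cls F hε hn
  obtain ⟨d, hd, h2⟩ := emb_sep F
  refine ⟨C, 2 * d * n, hC, fun D hD X M s η hM H => ?_⟩
  obtain ⟨m, rfl⟩ : ∃ m, D = -m := ⟨-D, (neg_neg D).symm⟩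
  rw [neg_neg] at hD
  have hl : ∀ x (l : ℕ) [Fact l.Prime], l ∣ M x → ¬ l ∣ 2 * d * n := fun x l _ h h' =>
    (H x l h).1.not_ge (Nat.le_of_dvd (by positivity) h')
  let φ : ∀ x (l : ℕ) [Fact l.Prime], l ∣ M x → (Rm (-m) →+* PadicAlgCl l) := fun x l _ h =>
    ev (s x l) (H x l h).2.2.2.2
  have hq : ∀ x (l : ℕ) [Fact l.Prime] (h : l ∣ M x) z, φ x l h z ∈ NT.Qp l := fun x l _ h z =>
    (algebraMap ℚ_[l] (PadicAlgCl l)).range.add_mem ((H x l h).2.2.1 _)
      ((algebraMap ℚ_[l] (PadicAlgCl l)).range.mul_mem ((H x l h).2.2.1 _) (H x l h).2.2.2.1)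
  let A : X → Ideal (Rm (-m)) := fun x =>
    { carrier := {z | ∀ (l : ℕ) [Fact l.Prime] (h : l ∣ M x), ‖φ x l h z‖ < 1}
      add_mem' := fun hz hw l _ h => by rw [map_add]; exact add_lt (hz l h) (hw l h)
      zero_mem' := fun l _ h => by simp
      smul_mem' := fun c z hz l _ h => by
        rw [smul_eq_mul, map_mul, norm_mul]
        exact (mul_le_of_le_one_left (norm_nonneg _) (ev_le _ c)).trans_lt (hz l h) }
  have hMA : ∀ x, (M x : Rm (-m)) ∈ A x := fun x l _ h => by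
    obtain ⟨c, hc⟩ := h
    rw [map_natCast, hc, Nat.cast_mul]
    exact norm_lt (IsUltrametricDist.norm_natCast_le_one _ c)
  have hω : ∀ {K : Type} [Field K] (s : F →+* K) {η : K} (h : η ^ 2 = s (-m : 𝓞 F)),
      ev s h QuadraticAlgebra.omega = η := fun s η h => by simp [ev]
  have hadm : ∀ x, Adm n (A x) := by
    intro x
    have hM0 := (hM x).ne_zero
    refine ⟨fun h => hM0 ?_, ?_, ?_⟩
    · have : (M x : 𝓞 F) ∈ cb (A x) := by rw [mem_comap, map_natCast]; exact hMA x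
      simpa [h] using this
    · have he : ∀ l : ℕ, ∃ e : ℕ, ∀ (_ : Fact l.Prime) (h : l ∣ M x),
          ‖φ x l h QuadraticAlgebra.omega - e‖ < 1 := fun l => by
        by_cases h : l.Prime ∧ l ∣ M x
        · have := Fact.mk h.1
          obtain ⟨e, he⟩ := qp_res (hq x l h.2 QuadraticAlgebra.omega) (ev_le _ _)
          exact ⟨e, fun _ _ => he⟩
        · exact ⟨0, fun h1 h2 => absurd ⟨h1.out, h2⟩ h⟩
      choose e he using he
      obtain ⟨k, hk⟩ := Nat.chineseRemainderOfFinset e id (M x).primeFactors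
        (fun l hl => (Nat.prime_of_mem_primeFactors hl).ne_zero) fun l hl l' hl' h =>
          (Nat.coprime_primes (Nat.prime_of_mem_primeFactors hl)
            (Nat.prime_of_mem_primeFactors hl')).mpr h
      have h3 : (k : Rm (-m)) - QuadraticAlgebra.omega ∈ A x := fun l _ h => by
        obtain ⟨c, hc⟩ := (hk l (Nat.mem_primeFactors.mpr ⟨Fact.out, h, hM0⟩)).symm.dvd
        have h4 : (k : PadicAlgCl l) - e l = l * (c : ℤ) := by exact_mod_cast hc
        have := add_lt (norm_lt (IsUltrametricDist.norm_intCast_le_one _ c))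
          ((norm_neg _).trans_lt (he l _ h))
        rw [map_sub, map_natCast]
        convert this using 2
        rw [← h4]
        ring
      have h4 : Nat.Coprime (2 * k) (M x) := Nat.Coprime.symm (Nat.coprime_of_dvd fun l hp h h' => by
        have := Fact.mk hp
        rcases (Nat.Prime.dvd_mul hp).mp h' with h' | ⟨c, hc⟩
        · exact hl x l h ((h'.mul_right d).mul_right n)
        · have h5 := add_lt (norm_lt (IsUltrametricDist.norm_natCast_le_one _ c))
            ((norm_neg _).trans_lt (h3 l h))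
          rw [map_sub, map_natCast, hω, hc, Nat.cast_mul, neg_sub, add_sub_cancel,
            eta_unit (H x l h).2.1 (H x l h).2.2.2.2] at h5
          exact lt_irrefl _ h5)
      obtain ⟨a, b, hab⟩ := Nat.isCoprime_iff_coprime.mpr h4
      have h5 := congrArg (Int.cast (R := Rm (-m))) hab
      refine ⟨_, mul_mem_left _ (a : Rm (-m)) h3, ?_⟩
      convert (A x).add_mem (mul_mem_left _ (a : Rm (-m)) h3)
        (mul_mem_left _ (b : Rm (-m)) (hMA x)) using 1
      rw [star_mul', star_sub, star_intCast, star_natCast,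
        show star QuadraticAlgebra.omega = -(QuadraticAlgebra.omega : Rm (-m)) from
          QuadraticAlgebra.ext (by simp) (by simp)]
      push_cast at h5
      linear_combination -h5
    · have h4 : Nat.Coprime (M x) n := Nat.coprime_of_dvd fun l hp h h' =>
        have := Fact.mk hp
        hl x l h (h'.mul_left _)
      obtain ⟨a, b, hab⟩ := h4.cast (R := Rm (-m))
      exact ⟨_, mul_mem_left _ a (hMA x), mem_span_singleton'.mpr ⟨b, by rw [← hab]; ring⟩⟩
  have hν : ∀ x (l : ℕ) [Fact l.Prime] (s' : F →+* PadicAlgCl l) (η' : PadicAlgCl l)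
      (h' : η' ^ 2 = s' (-m : 𝓞 F)), (∀ z ∈ A x, ‖ev s' h' z‖ ≤ Wt (M x) (s x l) (η x l) s' η') ∧
        ∃ z ∈ A x, ‖ev s' h' z‖ = Wt (M x) (s x l) (η x l) s' η' := by
    intro x l _ s' η' h'
    by_cases h : l ∣ M x
    swap
    · rw [Wt, if_neg fun h1 => h h1.1]
      exact ⟨fun z _ => ev_le _ z, _, hMA x, by rw [map_natCast, norm_nat h]⟩
    obtain ⟨c, hc⟩ := id h
    have hc1 : ¬ l ∣ c := fun h1 => (Fact.out : l.Prime).not_isUnit
      (hM x l (hc ▸ Nat.mul_dvd_mul_left l h1))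
    by_cases he : s' = s x l ∧ η' = η x l
    · obtain ⟨rfl, rfl⟩ := he
      rw [Wt, if_pos ⟨h, rfl, rfl⟩]
      exact ⟨fun z hz => qp_le (hq x l h z) (hz l h), _, hMA x, by
        rw [map_natCast, hc, Nat.cast_mul, norm_mul, norm_l, norm_nat hc1, mul_one]⟩
    rw [Wt, if_neg fun h1 => he h1.2]
    refine ⟨fun z _ => ev_le _ z, ?_⟩
    by_contra hne
    have h3 : ∀ z, ‖φ x l h z - ev s' h' z‖ < 1 := by
      intro z
      obtain ⟨e, he⟩ := qp_res (hq x l h z) (ev_le _ _)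
      have h4 : (c : Rm (-m)) * (z - e) ∈ A x := fun l' _ hl' => by
        rw [map_mul, map_natCast]
        rcases (Nat.Prime.dvd_mul Fact.out).mp (hc ▸ hl') with h5 | ⟨c', rfl⟩
        · obtain rfl := (Nat.prime_dvd_prime_iff_eq Fact.out Fact.out).mp h5
          rwa [norm_mul, norm_nat hc1, one_mul, map_sub, map_natCast]
        · rw [Nat.cast_mul, mul_assoc, ← map_natCast (φ x l' hl') c', ← map_mul]
          exact norm_lt (ev_le _ _)
      have h5 := lt_of_le_of_ne (ev_le (ev s' h') _) fun h5 => hne ⟨_, h4, h5⟩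
      rw [map_mul, map_natCast, norm_mul, norm_nat hc1, one_mul, map_sub, map_natCast] at h5
      simpa using add_lt he ((norm_neg _).trans_lt h5)
    have h4 : s x l = s' := h2 l (fun h1 => hl x l h ((h1.mul_left 2).mul_right n)) _ _ fun y => by
      simpa [φ, ev] using h3 (algebraMap _ _ y)
    have h5 := h3 QuadraticAlgebra.omega
    have h6 := (H x l h).2.2.2.2
    rw [hω, hω] at h5
    rcases sq_eq_sq_iff_eq_or_eq_neg.mp (h'.trans (h4 ▸ h6.symm)) with h7 | h7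
    · exact he ⟨h4.symm, h7⟩
    · rw [h7, sub_neg_eq_add, ← two_mul, norm_mul, eta_unit (H x l h).2.1 h6, ← Nat.cast_ofNat,
        norm_nat fun h1 => hl x l h ((h1.mul_right d).mul_right n), one_mul] at h5
      exact lt_irrefl _ h5
  obtain ⟨h, cl, h3, h4⟩ := h1 m hD X A hadm
  refine ⟨h, cl, by rwa [← absNorm_span_singleton, span_singleton_neg, absNorm_span_singleton],
    fun x y e => ?_⟩
  obtain ⟨z, -, h5, h6⟩ := h4 x y e _ (hMA y)
  refine ⟨z.re / M y, z.im / M y, fun l _ s' => ?_⟩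
  have hM0 : (M y : PadicAlgCl l) ≠ 0 := Nat.cast_ne_zero.mpr (hM y).ne_zero
  have hi : ∀ c : 𝓞 F, ‖s' c‖ ≤ 1 := fun c => nle (map_isIntegral_int s' c.isIntegral_coe)
  simp only [map_div₀, map_natCast, div_mul_cancel₀ _ hM0, hi, true_and]
  refine ⟨fun η' h' => ?_, fun h => by simp only [norm_div, norm_nat h, div_one, hi, true_and],
    fun h => ?_⟩
  · obtain ⟨h7, u, hu, h8⟩ := hν x l s' η' h'
    obtain ⟨h9, v, hv, h10⟩ := hν y l s' η' h'
    obtain ⟨u', hu', e1⟩ := mem_span_singleton_mul.mp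
      (h5 ▸ mul_mem_mul (mem_span_singleton_self (M y : Rm (-m))) hu)
    obtain ⟨v', hv', e2⟩ := mem_span_singleton_mul.mp
      (h5.symm ▸ mul_mem_mul (mem_span_singleton_self z) hv)
    have e3 := congrArg (fun t => ‖ev s' h' t‖) e1
    have e4 := congrArg (fun t => ‖ev s' h' t‖) e2
    simp only [map_mul, norm_mul, map_natCast, h8, h10] at e3 e4
    rw [div_mul_eq_mul_div, ← add_div, norm_div, div_mul_eq_mul_div,
      div_eq_iff (norm_ne_zero_iff.mpr hM0), mul_comm (Wt ..)]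
    change ‖ev s' h' z‖ * _ = _
    exact le_antisymm (e4 ▸ mul_le_mul_of_nonneg_left (h7 _ hv') (norm_nonneg _))
      (e3 ▸ mul_le_mul_of_nonneg_left (h9 _ hu') (norm_nonneg _))
  · have h7 : ¬ l ∣ M y := fun h1 => hl y l h1 (h.mul_left _)
    obtain ⟨c, hc⟩ := mem_span_singleton.mp h6
    have e1 : z.re = M y + n * c.re := by simpa using congrArg QuadraticAlgebra.re (eq_add_of_sub_eq' hc)
    have e2 : z.im = n * c.im := by simpa using congrArg QuadraticAlgebra.im (eq_add_of_sub_eq' hc)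
    rw [div_sub_one hM0, norm_div, norm_div, norm_nat h7, e1, e2]
    simp only [map_add, map_mul, map_natCast, add_sub_cancel_left, div_one, norm_mul]
    exact ⟨mul_le_of_le_one_right (norm_nonneg _) (hi _), mul_le_of_le_one_right (norm_nonneg _) (hi _)⟩

end M4.Cl
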