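import Pool.Agent.Lib.MP_33b3f9_ag.M4.ClCount

/-!
The lemma of Thue for a quadratic order over a totally real field.
-/

open Finset NumberField Module

namespace M4.Cl

lemma thue_gen {ι κ G : Type} [Fintype ι] [Fintype κ] [AddCommGroup G] [Fintype G]
    (hc : Fintype.card κ = Fintype.card ι) (hι : 0 < Fintype.card ι) (c : κ → ι → ℝ) {B : ℝ}
    (hB0 : 0 < B) (hB : ∀ j i, |c j i| ≤ B) (Φ : (ι → ℤ) →+ G) (s : κ → ℝ) (hs : ∀ j, 0 < s j)
    (h : Fintype.card G * (3 * Fintype.card ι * B) ^ Fintype.card ι < ∏ j, s j) :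
    ∃ z : ι → ℤ, z ≠ 0 ∧ Φ z = 0 ∧ ∀ j, |∑ i, z i * c j i| ≤ s j := by
  classical
  set n := Fintype.card ι with hn
  have hn0 : (0 : ℝ) < n := by exact_mod_cast hι
  obtain ⟨H, hH⟩ := exists_nat_gt ((∑ j, s j) / (n * B))
  rw [div_lt_iff₀' (by positivity)] at hH
  set T := n * B * H
  have hT : ∀ j, s j ≤ T := fun j =>
    (single_le_sum (fun j _ => (hs j).le) (mem_univ j)).trans hH.le
  have hH0 : (0 : ℝ) < H := by
    have := (sum_nonneg fun j (_ : j ∈ univ) => (hs j).le).trans_lt hH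
    exact (mul_pos_iff_of_pos_left (by positivity)).mp this
  let L : κ → (ι → ℕ) → ℝ := fun j x => ∑ i, x i * c j i
  have hL : ∀ j, ∀ x ∈ Fintype.piFinset fun _ : ι => range H, |L j x| ≤ T := by
    intro j x hx
    refine (abs_sum_le_sum_abs _ _).trans ((sum_le_card_nsmul _ _ (B * H) fun i _ => ?_).trans
      (by simp [T, hn, mul_assoc]))
    rw [abs_mul, Nat.abs_cast, mul_comm]
    refine mul_le_mul (hB j i) ?_ (Nat.cast_nonneg _) hB0.le
    exact_mod_cast (mem_range.mp (Fintype.mem_piFinset.mp hx i)).le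
  obtain ⟨x, hx, y, hy, hne, e⟩ := exists_ne_map_eq_of_card_lt_of_maps_to
    (s := Fintype.piFinset fun _ : ι => range H)
    (t := (univ : Finset G) ×ˢ Fintype.piFinset fun j => range (⌊2 * T / s j⌋₊ + 1))
    (f := fun x => (Φ fun i => x i, fun j => ⌊(L j x + T) / s j⌋₊)) (by
      rw [card_product, card_univ, Fintype.card_piFinset, Fintype.card_piFinset, prod_const,
        card_range, card_univ, ← hn, ← Nat.cast_lt (α := ℝ)]
      push_cast
      have h1 : ∏ j, ((range (⌊2 * T / s j⌋₊ + 1)).card : ℝ) ≤ ∏ j, 3 * T / s j := by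
        refine prod_le_prod (fun _ _ => Nat.cast_nonneg _) fun j _ => ?_
        have h2 := Nat.floor_le (div_nonneg (by linarith [hT j, hs j] : 0 ≤ 2 * T) (hs j).le)
        have h3 : 1 ≤ T / s j := (one_le_div (hs j)).mpr (hT j)
        rw [card_range, show 3 * T / s j = 2 * T / s j + T / s j by ring]
        push_cast
        linarith
      rw [prod_div_distrib, prod_const, card_univ, hc] at h1
      refine (mul_le_mul_of_nonneg_left h1 (Nat.cast_nonneg _)).trans_lt ?_
      rw [← mul_div_assoc, div_lt_iff₀ (prod_pos fun j _ => hs j)]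
      calc _ = (H : ℝ) ^ n * (Fintype.card G * (3 * n * B) ^ n) := by
            simp only [T, mul_pow]; ring
        _ < _ := mul_lt_mul_of_pos_left h (by positivity)) fun x hx => by
      refine mem_coe.mpr (mem_product.mpr ⟨mem_univ _, Fintype.mem_piFinset.mpr fun j => ?_⟩)
      refine mem_range.mpr (Nat.lt_succ_of_le (Nat.floor_le_floor ?_))
      exact div_le_div_of_nonneg_right (by linarith [(abs_le.mp (hL j x hx)).2]) (hs j).le
  obtain ⟨e1, e2⟩ := Prod.mk.inj e
  refine ⟨(fun i => (x i : ℤ)) - fun i => (y i : ℤ), fun h0 => hne (funext fun i => ?_), ?_, fun j => ?_⟩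
  · exact Nat.cast_injective (R := ℤ) (sub_eq_zero.mp (congrFun h0 i))
  · rw [map_sub, e1, sub_self]
  · have e3 : ⌊(L j x + T) / s j⌋₊ = ⌊(L j y + T) / s j⌋₊ := congrFun e2 j
    have h1 := Nat.floor_le (div_nonneg (by linarith [(abs_le.mp (hL j x hx)).1] : 0 ≤ L j x + T)
      (hs j).le)
    have h2 := Nat.floor_le (div_nonneg (by linarith [(abs_le.mp (hL j y hy)).1] : 0 ≤ L j y + T)
      (hs j).le)
    have h3 := Nat.lt_floor_add_one ((L j x + T) / s j)
    have h4 := Nat.lt_floor_add_one ((L j y + T) / s j)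
    rw [e3] at h1 h3
    rw [le_div_iff₀ (hs j)] at h1 h2
    rw [div_lt_iff₀ (hs j)] at h3 h4
    have : ∑ i, ((((fun i => (x i : ℤ)) - fun i => (y i : ℤ)) i : ℤ) : ℝ) * c j i = L j x - L j y := by
      simp [L, sub_mul, sum_sub_distrib]
    rw [this, abs_le]
    constructor <;> linarith

variable {F : Type} [Field F] [NumberField F]

/-- All conjugates are positive. -/
def TP (m : 𝓞 F) : Prop := ∀ σ : F →+* ℂ, ∃ x : ℝ, σ (m : F) = x ∧ 0 < x

omit [NumberField F] in
lemma emb_re [IsTotallyReal F] (σ : F →+* ℂ) (x : F) : σ x = ((σ x).re : ℂ) :=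
  (Complex.conj_eq_iff_re.mp (RingHom.congr_fun
    (IsTotallyReal.complexEmbedding_isReal σ) x)).symm

lemma emb_norm [IsTotallyReal F] {m : 𝓞 F} (σ : F →+* ℂ) {μ : ℝ} (hμ : σ (m : F) = μ)
    (z : Rm (-m)) : σ ((z.norm : 𝓞 F) : F) =
      (((σ (z.re : F)).re ^ 2 + μ * (σ (z.im : F)).re ^ 2 : ℝ) : ℂ) := by
  push_cast
  rw [← emb_re, ← emb_re, ← hμ, QuadraticAlgebra.norm_def]
  simp
  ring

lemma norm_ne_zero [IsTotallyReal F] {m : 𝓞 F} (hm : TP m) {z : Rm (-m)} (hz : z ≠ 0) :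
    z.norm ≠ 0 := by
  intro h
  obtain ⟨σ⟩ : Nonempty (F →+* ℂ) := inferInstance
  obtain ⟨μ, h1, h2⟩ := hm σ
  have h3 := emb_norm σ h1 z
  rw [h, RingOfIntegers.coe_eq_algebraMap, map_zero, map_zero, eq_comm, Complex.ofReal_eq_zero] at h3
  have h4 : ∀ x : 𝓞 F, (σ (x : F)).re ^ 2 = 0 → x = 0 := fun x hx => by
    have := emb_re σ (x : F)
    rw [pow_eq_zero_iff two_ne_zero] at hx
    rw [hx, Complex.ofReal_zero, map_eq_zero] at this
    exact RingOfIntegers.coe_eq_zero_iff.mp this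
  have h5 := sq_nonneg (σ (z.re : F)).re
  have h6 := sq_nonneg (σ (z.im : F)).re
  exact hz (QuadraticAlgebra.ext (h4 _ (by nlinarith)) (h4 _ (by nlinarith)))

lemma mem_nzd [IsTotallyReal F] {m : 𝓞 F} (hm : TP m) {z : Rm (-m)} (hz : z ≠ 0) :
    z ∈ nonZeroDivisors (Rm (-m)) :=
  QuadraticAlgebra.norm_mem_nonZeroDivisors_iff.mp
    (mem_nonZeroDivisors_of_ne_zero (norm_ne_zero hm hz))

theorem thue (F : Type) [Field F] [NumberField F] [IsTotallyReal F] : ∃ C : ℝ, 0 < C ∧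
    ∀ m : 𝓞 F, TP m → ∀ (G : Type) [AddCommGroup G] [Finite G] (Φ : Rm (-m) →+ G),
      ∃ z : Rm (-m), z ≠ 0 ∧ Φ z = 0 ∧ ((Algebra.norm ℤ z.norm).natAbs : ℝ) ≤
        C * Nat.card G * Real.sqrt (Algebra.norm ℤ m).natAbs := by
  classical
  obtain ⟨ι, _, ⟨b⟩⟩ : ∃ (ι : Type) (_ : Fintype ι), Nonempty (Basis ι ℤ (𝓞 F)) :=
    ⟨_, inferInstance, ⟨RingOfIntegers.basis F⟩⟩
  obtain ⟨B, hB1, hB⟩ := NT.exists_bound b
  have hB0 : (0 : ℝ) < B := by exact_mod_cast hB1
  set d := finrank ℚ F with hd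
  have hd0 : 0 < d := finrank_pos
  have hι : Fintype.card ι = d := by rw [← finrank_eq_card_basis b, RingOfIntegers.rank]
  set W : ℝ := (3 * (d + d : ℕ) * B) ^ (d + d)
  have hW : 0 < W := by positivity
  refine ⟨2 ^ d * (2 * W), by positivity, fun m hm G _ _ Φ => ?_⟩
  have := Fintype.ofFinite G
  set M := Nat.card G with hM
  have hM0 : (0 : ℝ) < M := by exact_mod_cast Nat.card_pos
  choose μ hμ hμ0 using hm
  have hN : ((Algebra.norm ℤ m).natAbs : ℝ) = ∏ σ, μ σ := by
    rw [NT.abs_norm_eq]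
    exact prod_congr rfl fun σ _ => by rw [hμ, Complex.norm_real, Real.norm_of_nonneg (hμ0 σ).le]
  set Q := ∏ σ, Real.sqrt (μ σ) with hQ
  have hQ0 : 0 < Q := prod_pos fun σ _ => Real.sqrt_pos.mpr (hμ0 σ)
  have hQ2 : Q ^ 2 = ∏ σ, μ σ := by
    rw [hQ, ← prod_pow]; exact prod_congr rfl fun σ _ => Real.sq_sqrt (hμ0 σ).le
  obtain ⟨T, hT0, hT⟩ : ∃ T : ℝ, 0 < T ∧ T ^ (d + d) = 2 * W * M / Q :=
    ⟨_, Real.rpow_pos_of_pos (by positivity) _,
      Real.rpow_inv_natCast_pow (by positivity) (by omega)⟩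
  let f : (ι ⊕ ι → ℤ) →+ Rm (-m) :=
    { toFun := fun z => ⟨∑ i, z (.inl i) • b i, ∑ i, z (.inr i) • b i⟩
      map_zero' := by ext <;> simp
      map_add' := fun x y => by ext <;> simp [add_mul, sum_add_distrib] }
  obtain ⟨z, hz0, hz1, hz2⟩ := thue_gen (ι := ι ⊕ ι) (κ := (F →+* ℂ) ⊕ (F →+* ℂ))
    (by simp [hι, Embeddings.card, hd]) (by simp [hι, hd0])
    (Sum.elim (fun σ => Sum.elim (fun i => (σ (b i : F)).re) 0)
      fun σ => Sum.elim 0 fun i => (σ (b i : F)).re) hB0 (by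
      rintro (σ | σ) (i | i)
      · exact (Complex.abs_re_le_norm _).trans (hB σ i)
      · simp
      · simp
      · exact (Complex.abs_re_le_norm _).trans (hB σ i)) (Φ.comp f)
    (Sum.elim (fun σ => T * Real.sqrt (μ σ)) fun _ => T) (by
      rintro (σ | σ)
      · exact mul_pos hT0 (Real.sqrt_pos.mpr (hμ0 σ))
      · exact hT0) (by
      rw [Fintype.card_eq_nat_card, ← hM, Fintype.card_sum, hι, Fintype.prod_sum_type]
      simp only [Sum.elim_inl, Sum.elim_inr, prod_mul_distrib, prod_const, card_univ,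
        Embeddings.card, ← hd, ← hQ]
      rw [mul_right_comm (T ^ d), ← pow_add, hT, div_mul_cancel₀ _ hQ0.ne']
      change M * W < _
      nlinarith [mul_pos hM0 hW])
  have hre : ∀ (σ : F →+* ℂ) (y : ι → ℤ), (σ ((∑ i, y i • b i : 𝓞 F) : F)).re
      = ∑ i, y i * (σ (b i : F)).re := by
    intro σ y
    rw [RingOfIntegers.coe_eq_algebraMap, map_sum, map_sum, Complex.re_sum]
    simp
  refine ⟨f z, fun h => hz0 (funext ?_), hz1, ?_⟩
  · rintro (i | i)
    · exact Fintype.linearIndependent_iff.mp b.linearIndependent _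
        (congrArg QuadraticAlgebra.re h) i
    · exact Fintype.linearIndependent_iff.mp b.linearIndependent _
        (congrArg QuadraticAlgebra.im h) i
  · rw [NT.abs_norm_eq, hN, ← hQ2, Real.sqrt_sq hQ0.le]
    calc _ ≤ ∏ σ, 2 * T ^ 2 * μ σ := by
          refine prod_le_prod (fun _ _ => norm_nonneg _) fun σ _ => ?_
          have h1 : |(σ ((f z).re : F)).re| ≤ T * Real.sqrt (μ σ) := by
            rw [show (f z).re = ∑ i, z (.inl i) • b i from rfl, hre]
            simpa using hz2 (.inl σ)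
          have h2 : |(σ ((f z).im : F)).re| ≤ T := by
            rw [show (f z).im = ∑ i, z (.inr i) • b i from rfl, hre]
            simpa using hz2 (.inr σ)
          have h3 := pow_le_pow_left₀ (abs_nonneg _) h1 2
          have h4 := pow_le_pow_left₀ (abs_nonneg _) h2 2
          rw [sq_abs] at h3 h4
          rw [mul_pow, Real.sq_sqrt (hμ0 σ).le] at h3
          have := hμ0 σ
          rw [emb_norm σ (hμ σ), Complex.norm_real, Real.norm_of_nonneg (by positivity)]
          nlinarith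
      _ = _ := by
          rw [prod_mul_distrib, prod_const, card_univ, Embeddings.card, ← hd, ← hQ2, mul_pow,
            ← pow_mul, two_mul d, hT]
          field_simp

end M4.Cl
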