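import Pool.Agent.Lib.MP_33b3f9_ag.M4.CmDefs

/-!
Block B3a: characteristic polynomial of a tensor product.
-/

set_option autoImplicit false

noncomputable section

namespace M4.CM

open Matrix Polynomial NumberField Pool.Agent.M4.Mx

section ring

variable {R : Type} [CommRing R] (f : Fr ν R) (h : Fin 3 → M2 R)

theorem trace_T : (f.T h).trace = ∏ i, (h i).trace := by
  rw [Fr.T, Matrix.trace_mul_comm, ← Matrix.mul_assoc, f.qp, Matrix.one_mul]
  simp only [Matrix.trace, Matrix.diag_apply, tp_apply]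
  rw [Finset.prod_univ_sum, Fintype.piFinset_univ]

theorem T_pow (k : ℕ) : f.T h ^ k = f.T fun i => h i ^ k := by
  induction k with
  | zero =>
    rw [pow_zero, ← f.T_one]
    congr 1
  | succ k ih =>
    rw [pow_succ, ih, f.T_mul]
    congr 1

theorem T_adj : f.T h * f.T (fun i => (h i).adjugate) = (∏ i, (h i).det) • (1 : Matrix ν ν R) := by
  rw [f.T_mul, ← f.T_one, ← f.T_smul]
  congr 1
  funext i
  rw [Pi.mul_apply, Matrix.mul_adjugate, Pi.one_apply]

/-- `adjugate x = w * xᵀ * w'` with `w = !![0, 1; -1, 0]`, `w' = -w`, so `f.T h` and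
`f.T (adjugate h)` have the same determinant (`Matrix.det_conj_of_mul_eq_one`). -/
theorem det_T_sq : (f.T h).det ^ 2 = (∏ i, (h i).det) ^ 8 := by
  have e0 : ∀ a : Fin 3 → M2 R, (f.T a).det = (Pool.Agent.M4.tp a).det := fun a =>
    Matrix.det_conj_of_mul_eq_one f.pq f.qp
  set w : Fin 3 → M2 R := fun _ => !![0, 1; -1, 0] with hw
  set w' : Fin 3 → M2 R := fun _ => !![0, -1; 1, 0] with hw'
  have e1 : Pool.Agent.M4.tp w * Pool.Agent.M4.tp w' = 1 := by
    rw [tp_mul, ← tp_one]
    congr 1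
    funext s
    ext i j
    fin_cases i <;> fin_cases j <;> simp [hw, hw']
  have e2 : Pool.Agent.M4.tp w' * Pool.Agent.M4.tp w = 1 := by
    rw [tp_mul, ← tp_one]
    congr 1
    funext s
    ext i j
    fin_cases i <;> fin_cases j <;> simp [hw, hw']
  have e3 : (Pool.Agent.M4.tp h)ᵀ = Pool.Agent.M4.tp fun s => (h s)ᵀ := by
    ext i j
    simp only [Matrix.transpose_apply, tp_apply]
  have e4 : (Pool.Agent.M4.tp fun i => (h i).adjugate) = Pool.Agent.M4.tp w * (Pool.Agent.M4.tp h)ᵀ * Pool.Agent.M4.tp w' := by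
    rw [e3, tp_mul, tp_mul]
    congr 1
    funext s
    ext i j
    fin_cases i <;> fin_cases j <;>
      simp [hw, hw', Matrix.adjugate_fin_two, Matrix.mul_apply, Fin.sum_univ_two, Matrix.vecMul,
        dotProduct]
  have e5 : (f.T fun i => (h i).adjugate).det = (f.T h).det := by
    rw [e0, e0, e4, Matrix.det_conj_of_mul_eq_one e1 e2, Matrix.det_transpose]
  have e6 := congrArg Matrix.det (T_adj f h)
  rw [Matrix.det_mul, e5, Matrix.det_smul, Matrix.det_one, mul_one] at e6
  rw [sq, e6]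
  congr 1

theorem T_update_smul (c : R) : f.T (Function.update h 0 (c • h 0)) = c • f.T h := by
  rw [Fr.T, Fr.T, tp_update_smul, Function.update_eq_self, Matrix.mul_smul, Matrix.smul_mul]

end ring

/-- A two by two matrix with the eigenvalue `a` is conjugate to an upper triangular matrix. -/
theorem exists_triang {Ω : Type} [Field Ω] (x : M2 Ω) (a b : Ω) (h1 : a + b = x.trace)
    (h2 : a * b = x.det) : ∃ (U U' : M2 Ω) (c : Ω), U * U' = 1 ∧ U' * U = 1 ∧
      x = U * !![a, c; 0, b] * U' := by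
  rw [Matrix.trace_fin_two] at h1
  rw [Matrix.det_fin_two] at h2
  have key : ∀ v0 v1 c : Ω, v1 ≠ 0 → x 0 0 * v0 + x 0 1 * v1 = a * v0 →
      x 1 0 * v0 + x 1 1 * v1 = a * v1 → x 0 0 = c * v0 + b → x 1 0 = c * v1 →
      ∃ (U U' : M2 Ω) (c : Ω), U * U' = 1 ∧ U' * U = 1 ∧ x = U * !![a, c; 0, b] * U' := by
    intro v0 v1 c hv k1 k2 k3 k4
    have u1 : (!![v0, 1; v1, 0] : M2 Ω) * !![0, v1⁻¹; 1, -(v0 * v1⁻¹)] = 1 := by
      ext i j
      fin_cases i <;> fin_cases j <;> simp [Matrix.mul_apply, Fin.sum_univ_two, hv]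
    have u2 : x * !![v0, 1; v1, 0] = !![v0, 1; v1, 0] * !![a, c; 0, b] := by
      ext i j
      fin_cases i <;> fin_cases j <;> simp [Matrix.mul_apply, Fin.sum_univ_two]
      · linear_combination k1
      · linear_combination k3
      · linear_combination k2
      · linear_combination k4
    refine ⟨_, _, c, u1, mul_eq_one_comm.1 u1, ?_⟩
    rw [← u2, Matrix.mul_assoc, u1, Matrix.mul_one]
  by_cases hr : x 1 0 = 0
  · by_cases ha : a = x 0 0
    · refine ⟨1, 1, x 0 1, mul_one _, mul_one _, ?_⟩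
      have hb : b = x 1 1 := by linear_combination h1 - ha
      rw [Matrix.one_mul, Matrix.mul_one, ha, hb]
      ext i j
      fin_cases i <;> fin_cases j <;> simp [hr]
    · have hs : a = x 1 1 := by
        have : (a - x 0 0) * (a - x 1 1) = 0 := by
          linear_combination a * h1 - h2 + x 0 1 * hr
        rcases mul_eq_zero.1 this with h | h
        · exact absurd (sub_eq_zero.1 h) ha
        · exact sub_eq_zero.1 h
      have hb : b = x 0 0 := by linear_combination h1 - hs
      refine key (x 0 1) (a - x 0 0) 0 (sub_ne_zero.2 ha) (by ring) ?_ ?_ ?_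
      · linear_combination x 0 1 * hr - (a - x 0 0) * hs
      · linear_combination -hb
      · linear_combination hr
  · refine key (a - x 1 1) (x 1 0) 1 hr ?_ (by ring) ?_ (by ring)
    · linear_combination h2 - a * h1
    · linear_combination -h1

theorem cmCubeA_triang {Ω : Type} [Field Ω] (M : Matrix κ κ Ω)
    (hM : ∀ (i j : κ) (s : Fin 3), i s = 1 → j s = 0 → M i j = 0) :
    M.charpoly = ∏ ε : κ, (X - C (M ε ε)) := by
  have hinj : Function.Injective fun i : κ => 4 * (i 0 : ℕ) + 2 * (i 1 : ℕ) + (i 2 : ℕ) := by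
    intro i j hij
    have a0 := (i 0).isLt
    have a1 := (i 1).isLt
    have a2 := (i 2).isLt
    have b0 := (j 0).isLt
    have b1 := (j 1).isLt
    have b2 := (j 2).isLt
    simp only at hij
    have c0 : i 0 = j 0 := Fin.ext (by omega)
    have c1 : i 1 = j 1 := Fin.ext (by omega)
    have c2 : i 2 = j 2 := Fin.ext (by omega)
    funext s
    fin_cases s
    · exact c0
    · exact c1
    · exact c2
  have hlt : ∀ i j : κ, 4 * (j 0 : ℕ) + 2 * (j 1 : ℕ) + (j 2 : ℕ) <
      4 * (i 0 : ℕ) + 2 * (i 1 : ℕ) + (i 2 : ℕ) → ∃ s, i s = 1 ∧ j s = 0 := by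
    intro i j hij
    have hs : ∃ s, (j s : ℕ) < (i s : ℕ) := by
      by_contra hn
      have hn' : ∀ s, (i s : ℕ) ≤ (j s : ℕ) := fun s => not_lt.1 fun h => hn ⟨s, h⟩
      have a0 := hn' 0
      have a1 := hn' 1
      have a2 := hn' 2
      omega
    obtain ⟨s, hs⟩ := hs
    have a0 := (i s).isLt
    exact ⟨s, Fin.ext (by change (i s : ℕ) = 1; omega), Fin.ext (by change (j s : ℕ) = 0; omega)⟩
  refine @Matrix.charpoly_of_isUpperTriangular Ω _ κ _ _ (LinearOrder.lift' _ hinj) M ?_
  intro i j hij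
  obtain ⟨s, hi, hj⟩ := hlt i j hij
  exact hM i j s hi hj

theorem cmCubeA_conj {Ω m n : Type} [Field Ω] [Fintype m] [Fintype n] [DecidableEq m]
    [DecidableEq n] (P : Matrix m n Ω) (Q : Matrix n m Ω) (N : Matrix n n Ω)
    (hc : Fintype.card n = Fintype.card m) (hq : Q * P = 1) :
    (P * N * Q).charpoly = N.charpoly := by
  rw [Matrix.mul_assoc, Matrix.charpoly_mul_comm_of_le _ _ hc.le, Matrix.mul_assoc, hq,
    Matrix.mul_one, hc, Nat.sub_self, pow_zero, one_mul]

theorem cmCubeA_card : Fintype.card κ = Fintype.card ν := by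
  rw [Fintype.card_fun, Fintype.card_sum, Fintype.card_fin, Fintype.card_fin, Fintype.card_fin]
  norm_num

theorem cmCubeA_frame {Ω : Type} [Field Ω] (f : Fr ν Ω) (h : Fin 3 → M2 Ω) :
    (f.T h).charpoly = (Pool.Agent.M4.tp h).charpoly :=
  cmCubeA_conj f.P f.Q _ cmCubeA_card f.qp

/-- Conjugate every factor to triangular form; the tensor product is then triangular for the
lexicographic order (reindex along `toLex` or along an explicit equivalence with `Fin 8`). -/
theorem charpoly_T {Ω : Type} [Field Ω] (f : Fr ν Ω) (h : Fin 3 → M2 Ω) (μ : Fin 3 → Fin 2 → Ω)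
    (h1 : ∀ i, μ i 0 + μ i 1 = (h i).trace) (h2 : ∀ i, μ i 0 * μ i 1 = (h i).det) :
    (f.T h).charpoly = ∏ ε : κ, (X - C (∏ i, μ i (ε i))) := by
  choose U U' c hU hU' hx using fun i => exists_triang (h i) (μ i 0) (μ i 1) (h1 i) (h2 i)
  set t : Fin 3 → M2 Ω := fun i => !![μ i 0, c i; 0, μ i 1] with ht
  have e0 : h = U * t * U' := funext hx
  have e2 : Pool.Agent.M4.tp U' * Pool.Agent.M4.tp U = 1 := by
    have : U' * U = 1 := funext hU'
    rw [tp_mul, this, tp_one]
  have e4 : (Pool.Agent.M4.tp h).charpoly = (Pool.Agent.M4.tp t).charpoly := by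
    rw [e0, ← tp_mul, ← tp_mul, Matrix.charpoly_mul_comm, ← Matrix.mul_assoc, e2, Matrix.one_mul]
  have e5 : ∀ i a, t i a a = μ i a := fun i a => by fin_cases a <;> simp [ht]
  have e6 : ∀ i, t i 1 0 = 0 := fun i => by simp [ht]
  have e7 : ∀ ε : κ, Pool.Agent.M4.tp t ε ε = ∏ i, μ i (ε i) := fun ε => by
    rw [tp_apply]
    exact Finset.prod_congr rfl fun i _ => e5 i (ε i)
  have e8 : ∀ (i j : κ) (s : Fin 3), i s = 1 → j s = 0 → Pool.Agent.M4.tp t i j = 0 := by
    intro i j s hi hj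
    rw [tp_apply]
    refine Finset.prod_eq_zero (Finset.mem_univ s) ?_
    rw [hi, hj, e6]
  refine (cmCubeA_frame f h).trans (e4.trans ((cmCubeA_triang _ e8).trans ?_))
  exact Finset.prod_congr rfl fun ε _ => by rw [e7]

end M4.CM
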