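import Pool.Agent.Lib.MP_33b3f9_ag.M4.CmCubeA
import Pool.Agent.Lib.MP_33b3f9_ag.M4.CmSpec

/-!
Block B3a: the cube of eigenvalues.
-/

set_option autoImplicit false

noncomputable section

namespace M4.CM

open Matrix Polynomial NumberField Pool.Agent.M4.Mx

variable {Ω : Type} [Field Ω] [IsAlgClosed Ω] [CharZero Ω] (f : Fr ν Ω) (h : Fin 3 → M2 Ω)

omit [CharZero Ω] in
theorem CmCubeB_eig : ∃ μ : Fin 3 → Fin 2 → Ω,
    (∀ i, μ i 0 + μ i 1 = (h i).trace) ∧ ∀ i, μ i 0 * μ i 1 = (h i).det := by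
  have key : ∀ t d : Ω, ∃ a : Ω, a * (t - a) = d := by
    intro t d
    have h1 : (X ^ 2 - C t * X + C d : Polynomial Ω).degree = 2 := by compute_degree!
    obtain ⟨a, ha⟩ :=
      IsAlgClosed.exists_root (X ^ 2 - C t * X + C d : Polynomial Ω) (by rw [h1]; decide)
    have h2 : a ^ 2 - t * a + d = 0 := by simpa using ha
    exact ⟨a, by linear_combination (-1 : Ω) * h2⟩
  choose a ha using fun i => key (h i).trace (h i).det
  exact ⟨fun i => ![a i, (h i).trace - a i], fun i => by simp, fun i => by simpa using ha i⟩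

omit [IsAlgClosed Ω] [CharZero Ω] in
theorem CmCubeB_inj {μ : Fin 3 → Fin 2 → Ω} (h1 : ∀ i, μ i 0 + μ i 1 = (h i).trace)
    (h1' : ∀ i, μ i 0 * μ i 1 = (h i).det) (h2 : Sp2 (f.T h).charpoly) :
    Function.Injective fun ε : κ => (∏ i, μ i (ε i)) ^ 2 := by
  rw [charpoly_T f h μ h1 h1'] at h2
  exact (sp2_iff _).1 h2

omit [IsAlgClosed Ω] [CharZero Ω] in
theorem CmCubeB_one {μ : Fin 3 → Fin 2 → Ω}
    (hμ : Function.Injective fun ε : κ => (∏ i, μ i (ε i)) ^ 2) (i : Fin 3) :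
    μ i 0 ^ 2 ≠ μ i 1 ^ 2 := by
  intro h0
  have key : ∀ a, ∏ l, μ l (Function.update (0 : κ) i a l) =
      μ i a * ∏ l ∈ Finset.univ.erase i, μ l 0 := by
    intro a
    rw [← Finset.mul_prod_erase _ _ (Finset.mem_univ i), Function.update_self]
    congr 1
    exact Finset.prod_congr rfl fun l hl => by
      rw [Function.update_of_ne (Finset.ne_of_mem_erase hl), Pi.zero_apply]
  have h1 : Function.update (0 : κ) i 0 = Function.update (0 : κ) i 1 :=
    hμ (by simp only [key, mul_pow, h0])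
  simpa using congrFun h1 i

omit [IsAlgClosed Ω] [CharZero Ω] in
theorem CmCubeB_two {μ : Fin 3 → Fin 2 → Ω}
    (hμ : Function.Injective fun ε : κ => (∏ i, μ i (ε i)) ^ 2) {i j : Fin 3} (hij : i ≠ j)
    (a b : Fin 2) : μ i a * μ j 0 ≠ μ i b * μ j 1 := by
  intro h0
  have key : ∀ a b, ∏ l, μ l (Function.update (Function.update (0 : κ) i a) j b l) =
      μ i a * μ j b * ∏ l ∈ (Finset.univ.erase j).erase i, μ l 0 := by
    intro a b
    rw [← Finset.mul_prod_erase _ _ (Finset.mem_univ j), Function.update_self,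
      ← Finset.mul_prod_erase _ _ (Finset.mem_erase.2 ⟨hij, Finset.mem_univ i⟩),
      Function.update_of_ne hij, Function.update_self, ← mul_assoc, mul_comm (μ j b)]
    congr 1
    exact Finset.prod_congr rfl fun l hl => by
      rw [Function.update_of_ne (Finset.ne_of_mem_erase (Finset.mem_of_mem_erase hl)),
        Function.update_of_ne (Finset.ne_of_mem_erase hl), Pi.zero_apply]
  have h1 : Function.update (Function.update (0 : κ) i a) j 0 =
      Function.update (Function.update (0 : κ) i b) j 1 :=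
    hμ (by simp only [key, h0])
  simpa using congrFun h1 j

/-- Let `μ i 0`, `μ i 1` be the eigenvalues of `h i`; the squares of the eight products are distinct
(`charpoly_T`, `sp2_iff`). If the trace of `h i` vanishes, flipping the slot `i` changes the sign of
the product. -/
theorem cube_trace (h2 : Sp2 (f.T h).charpoly) (i : Fin 3) : (h i).trace ≠ 0 := by
  obtain ⟨μ, h1, h1'⟩ := CmCubeB_eig h
  intro h0
  refine CmCubeB_one (CmCubeB_inj f h h1 h1' h2) i ?_
  have h3 := h1 i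
  rw [h0] at h3
  linear_combination (μ i 0 - μ i 1) * h3

/-- `p • A⁻¹ = -(J * Aᵀ * J)` and `(∏ det) • A⁻¹ = f.T (adjugate h)` have the trace of `A`, which is
not zero. -/
theorem cube_det {p : Ω} (hp : p ≠ 0)
    (hs : (f.T h)ᵀ * J (Fin 4) Ω * f.T h = p • J (Fin 4) Ω) (h2 : Sp2 (f.T h).charpoly) :
    ∏ i, (h i).det = p := by
  have ht : (f.T h).trace ≠ 0 := by
    rw [trace_T]
    exact Finset.prod_ne_zero_iff.2 fun i _ => cube_trace f h h2 i
  have h3 : (f.T fun i => (h i).adjugate).trace = (f.T h).trace := by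
    rw [trace_T, trace_T]
    refine Finset.prod_congr rfl fun i _ => ?_
    rw [adjugate_fin_two, trace_fin_two, trace_fin_two, add_comm]
    simp
  have h4 := T_adj f h
  generalize (f.T fun i => (h i).adjugate) = B at h3 h4
  generalize f.T h = A at hs ht h3 h4
  have h5 : -(J (Fin 4) Ω * Aᵀ * J (Fin 4) Ω) * A = p • (1 : Matrix ν ν Ω) := by
    rw [Matrix.neg_mul, Matrix.mul_assoc (J (Fin 4) Ω), Matrix.mul_assoc (J (Fin 4) Ω), hs,
      Matrix.mul_smul, J_squared, smul_neg, neg_neg]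
  have h6 : (-(J (Fin 4) Ω * Aᵀ * J (Fin 4) Ω)).trace = A.trace := by
    rw [trace_neg, trace_mul_cycle, J_squared, Matrix.neg_mul, Matrix.one_mul, trace_neg, neg_neg,
      trace_transpose]
  generalize -(J (Fin 4) Ω * Aᵀ * J (Fin 4) Ω) = A' at h5 h6
  have h7 : (∏ i, (h i).det) • A' = p • B := by
    have h8 := Matrix.mul_assoc A' A B
    rw [h5, h4, Matrix.smul_mul, Matrix.mul_smul, Matrix.one_mul, Matrix.mul_one] at h8
    exact h8.symm
  have h8 := congrArg trace h7
  rw [trace_smul, trace_smul, h6, h3, smul_eq_mul, smul_eq_mul] at h8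
  exact mul_right_cancel₀ ht h8

/-- With `u i = μ i 1 / μ i 0`, `tv (h i) = u i + 2 + 1 / u i`. If `tv (h i) = tv (h j)` then
`u i = u j` or `u i * u j = 1` and two of the eight products agree. -/
theorem cube_inj (hd : ∀ i, (h i).det ≠ 0) (h2 : Sp2 (f.T h).charpoly) :
    (Function.Injective fun i => tv (h i)) ∧ ∀ i, tv (h i) ≠ 4 := by
  obtain ⟨μ, h1, h1'⟩ := CmCubeB_eig h
  have hμ := CmCubeB_inj f h h1 h1' h2
  refine ⟨fun i j hij => ?_, fun i hi => ?_⟩
  · by_contra hne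
    have h3 : tv (h i) = tv (h j) := hij
    rw [tv, tv, div_eq_div_iff (hd i) (hd j), ← h1, ← h1, ← h1', ← h1'] at h3
    have h4 : (μ i 0 * μ j 0 - μ i 1 * μ j 1) * (μ i 1 * μ j 0 - μ i 0 * μ j 1) = 0 := by
      linear_combination (-1 : Ω) * h3
    rcases mul_eq_zero.1 h4 with h5 | h5
    · exact CmCubeB_two hμ hne 0 1 (sub_eq_zero.1 h5)
    · exact CmCubeB_two hμ hne 1 0 (sub_eq_zero.1 h5)
  · rw [tv, div_eq_iff (hd i), ← h1, ← h1'] at hi
    have h3 : (μ i 0 - μ i 1) ^ 2 = 0 := by linear_combination hi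
    exact CmCubeB_one hμ i (by rw [sub_eq_zero.1 (pow_eq_zero_iff two_ne_zero |>.1 h3)])

omit [IsAlgClosed Ω] [CharZero Ω] in
/-- `tr (x ^ 2) = det x * (tv x - 2)`, `tr (x ^ 3) = tr x * det x * (tv x - 3)`. -/
theorem cube_vals (hd : ∀ i, (h i).det ≠ 0) :
    (∏ i, (h i).det) * ∏ i, tv (h i) = (f.T h).trace ^ 2 ∧
    (∏ i, (h i).det) * ∏ i, (tv (h i) - 2) = (f.T h ^ 2).trace ∧
    (∏ i, (h i).det) * (f.T h).trace * ∏ i, (tv (h i) - 3) = (f.T h ^ 3).trace := by
  have h1 : ∀ i, (h i).det * tv (h i) = (h i).trace ^ 2 := fun i => mul_div_cancel₀ _ (hd i)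
  have h2 : ∀ x : M2 Ω, (x ^ 2).trace = x.trace ^ 2 - 2 * x.det := by
    intro x
    simp only [pow_two, trace_fin_two, Matrix.mul_apply, Fin.sum_univ_two, det_fin_two]
    ring
  have h3 : ∀ x : M2 Ω, (x ^ 3).trace = x.trace ^ 3 - 3 * x.trace * x.det := by
    intro x
    simp only [pow_three, trace_fin_two, Matrix.mul_apply, Fin.sum_univ_two, det_fin_two]
    ring
  rw [T_pow, T_pow, trace_T, trace_T, trace_T, ← Finset.prod_pow]
  simp only [← Finset.prod_mul_distrib]
  refine ⟨Finset.prod_congr rfl fun i _ => h1 i, Finset.prod_congr rfl fun i _ => ?_,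
    Finset.prod_congr rfl fun i _ => ?_⟩
  · rw [h2]
    linear_combination h1 i
  · rw [h3]
    linear_combination (h i).trace * h1 i

/-- The eigenvalues of `h i` are `tr / 2 * (1 ± w i)`; `w' i = ± w i`. -/
theorem cube_roots (hd : ∀ i, (h i).det ≠ 0) (h2 : Sp2 (f.T h).charpoly) (w : Fin 3 → Ω)
    (hw : ∀ i, w i ^ 2 * tv (h i) = tv (h i) - 4) :
    (f.T h).charpoly.eval ((f.T h).trace / 8 * ∏ i, (1 + w i)) = 0 ∧
    ∀ w' : Fin 3 → Ω, (∀ i, w' i ^ 2 * tv (h i) = tv (h i) - 4) →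
      (f.T h).trace / 8 * ∏ i, (1 + w i) = (f.T h).trace / 8 * ∏ i, (1 + w' i) → w = w' := by
  let μ : Fin 3 → Fin 2 → Ω := fun i => ![(h i).trace / 2 * (1 + w i), (h i).trace / 2 * (1 - w i)]
  have m0 : ∀ i, μ i 0 = (h i).trace / 2 * (1 + w i) := fun i => rfl
  have m1 : ∀ i, μ i 1 = (h i).trace / 2 * (1 - w i) := fun i => rfl
  have h0 : ∀ i, (h i).det * tv (h i) = (h i).trace ^ 2 := fun i => mul_div_cancel₀ _ (hd i)
  have h1 : ∀ i, μ i 0 + μ i 1 = (h i).trace := fun i => by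
    rw [m0, m1]
    ring
  have h1' : ∀ i, μ i 0 * μ i 1 = (h i).det := fun i => by
    rw [m0, m1]
    linear_combination (-(1 - w i ^ 2) / 4) * h0 i - (h i).det / 4 * hw i
  have h3 : ∀ v : Fin 3 → Ω, (f.T h).trace / 8 * ∏ i, (1 + v i) =
      ∏ i, (h i).trace / 2 * (1 + v i) := by
    intro v
    rw [trace_T]
    simp only [Fin.prod_univ_three]
    ring
  refine ⟨?_, fun w' hw' he => ?_⟩
  · rw [h3, charpoly_T f h μ h1 h1', eval_prod]
    refine Finset.prod_eq_zero (Finset.mem_univ (0 : κ)) ?_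
    rw [eval_sub, eval_X, eval_C, sub_eq_zero]
    rfl
  · classical
    rw [h3, h3] at he
    let ε : κ := fun i => if w i = w' i then 0 else 1
    have h4 : ∀ i, μ i (ε i) = (h i).trace / 2 * (1 + w' i) := by
      intro i
      by_cases h5 : w i = w' i
      · rw [show ε i = 0 from if_pos h5, m0, h5]
      · have h6 : tv (h i) ≠ 0 := div_ne_zero (pow_ne_zero 2 (cube_trace f h h2 i)) (hd i)
        have h7 : w i ^ 2 = w' i ^ 2 := mul_right_cancel₀ h6 ((hw i).trans (hw' i).symm)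
        rw [show ε i = 1 from if_neg h5, m1, (sq_eq_sq_iff_eq_or_eq_neg.1 h7).resolve_left h5,
          sub_neg_eq_add]
    have h5 : ε = 0 := CmCubeB_inj f h h1 h1' h2 (by
      simp only [h4, Pi.zero_apply, m0, he])
    funext i
    by_contra h6
    have h7 := congrFun h5 i
    rw [show ε i = 1 from if_neg h6] at h7
    simp at h7

end M4.CM
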