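import Pool.Agent.Lib.MP_33b3f9_ag.M4.IDefs
import Pool.Agent.Lib.MP_33b3f9_ag.M4.MxT

/-!
Block B3a: definitions.
-/

set_option autoImplicit false

noncomputable section

namespace M4.CM

open Matrix Polynomial NumberField Pool.Agent.M4.Mx

/-- The algebraic closure of the `l`-adic numbers. -/
abbrev Om (l : ℕ) [Fact l.Prime] : Type := PadicAlgCl l

/-- The algebraic closure of the rational numbers. -/
abbrev Qb : Type := AlgebraicClosure ℚ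

/-- The inclusion of the `l`-adic integers. -/
def toOm (l : ℕ) [Fact l.Prime] : ℤ_[l] →+* Om l :=
  (algebraMap ℚ_[l] (Om l)).comp PadicInt.Coe.ringHom

/-- All entries have norm at most `c`. -/
def Le {m n Ω : Type} [Norm Ω] (A : Matrix m n Ω) (c : ℝ) : Prop := ∀ i j, ‖A i j‖ ≤ c

/-- The representation with coefficients in `Om l`. -/
def ro {K : IntermediateField ℚ ℂ} (r : Rep K) (l : ℕ) [Fact l.Prime] (σ : ℂ ≃ₐ[K] ℂ) :
    Matrix ν ν (Om l) :=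
  (rq r l σ).map (algebraMap ℚ_[l] (Om l))

/-- The squares of the roots are distinct. -/
def Sp2 {Ω : Type} [Field Ω] (P : Polynomial Ω) : Prop := (P.roots.map fun z => z ^ 2).Nodup

/-- The discriminant of the squares of the eigenvalues. -/
def Dq {R : Type} [CommRing R] (A : Matrix ν ν R) : R :=
  (Matrix.of fun i j : Fin 8 => (A ^ (2 * ((i : ℕ) + (j : ℕ)))).trace).det

/-- The signs. -/
def sg (Ω : Type) [Ring Ω] (j : Fin 2) : Ω := if j = 0 then -1 else 1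

/-- The traceless part of `h`, normalised by the trace. -/
def Zm {Ω : Type} [Field Ω] (h : M2 Ω) : M2 Ω := (2 / h.trace) • h - 1

/-- The projector on the eigenline of `Zm h` for the eigenvalue `w`. -/
def Ej {Ω : Type} [Field Ω] (h : M2 Ω) (w : Ω) : M2 Ω := (1 / 2 : Ω) • (1 + w⁻¹ • Zm h)

/-- The invariant `tr ^ 2 / det`. -/
def tv {Ω : Type} [Field Ω] (h : M2 Ω) : Ω := h.trace ^ 2 / h.det

/-- The vector `x` lies in the face of slot `i` that is killed by the covector `w`. -/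
def InS {l : ℕ} (A : Matrix κ ν (ZMod l)) (i : Fin 3) (w : Fin 2 → ZMod l) (x : ν → ZMod l) :
    Prop :=
  ∀ k : κ, ∑ a, w a * (A *ᵥ x) (Function.update k i a) = 0

/-- `g` kills modulo `l` the face of slot `i` on which `Zm (h i)` has the eigenvalue `w`. -/
def Kil {l : ℕ} [Fact l.Prime] (f : Fr ν (Om l)) (h : Fin 3 → M2 (Om l)) (g : MZ) (i : Fin 3)
    (w : Om l) : Prop :=
  Le (g.map (Int.cast : ℤ → Om l) * f.u i (Ej (h i) w)) (l : ℝ)⁻¹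

section cube

variable {F : Type} [Field F]

/-- `w` is a family of square roots of the conjugates of `(t - 4) / t`. -/
def Sq {Ω : Type} [Field Ω] (t : F) (w : (F →+* Ω) → Ω) : Prop :=
  ∀ ι, w ι ^ 2 * ι t = ι t - 4

variable [NumberField F]

/-- The vertex of the cube attached to `w`. -/
def rt {Ω : Type} [Field Ω] [CharZero Ω] (s : ℤ) (w : (F →+* Ω) → Ω) : Ω :=
  (s : Ω) / 8 * ∏ ι, (1 + w ι)

/-- The vertices of the cube are distinct roots of `P`. -/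
structure Cub (t : F) (s : ℤ) (P : ℤ[X]) (Ω : Type) [Field Ω] [CharZero Ω] : Prop where
  root : ∀ w : (F →+* Ω) → Ω, Sq t w → (P.map (Int.castRingHom Ω)).eval (rt s w) = 0
  inj : ∀ w w' : (F →+* Ω) → Ω, Sq t w → Sq t w' → rt s w = rt s w' → w = w'

/-- The global data of a place. -/
structure Glob (p : ℕ) (P : ℤ[X]) (t : F) (s : ℤ) : Prop where
  rank : Module.finrank ℚ F = 3
  prime : p.Prime
  monic : P.Monic
  deg : P.natDegree = 8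
  weil : ∀ z : ℂ, aeval z P = 0 → ‖z‖ ^ 2 = p
  s_ne : s ≠ 0
  nrm : (p : ℚ) * Algebra.norm ℚ t = (s : ℚ) ^ 2
  gen : (minpoly ℚ t).natDegree = 3
  cub : Cub t s P Qb

/-- The local data of a place at a good prime `l`. -/
structure Loc {l : ℕ} [Fact l.Prime] (t : F) (s : ℤ) (f : Fr ν (Om l)) (h : Fin 3 → M2 (Om l))
    (ι : Fin 3 ≃ (F →+* Om l)) : Prop where
  P_le : Le f.P 1
  Q_le : Le f.Q 1
  h_le : ∀ i, Le (h i) 1
  det : ∀ i, ‖(h i).det‖ = 1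
  inv : ∀ i, (h i).trace ^ 2 = ι i t * (h i).det
  tr : ∏ i, (h i).trace = s
  even : ∀ i, ∃ x : F, ‖ι i t‖ = ‖ι i x‖ ^ 2

/-- The pole of `t` at `p`. -/
structure Pole (p : ℕ) [Fact p.Prime] (t : F) (ι₀ : F →+* Om p) : Prop where
  pole : ‖ι₀ t‖ = p
  unit : ∀ ι : F →+* Om p, ι ≠ ι₀ → ‖ι t‖ = 1
  rat : ∀ x, ι₀ x ∈ NT.Qp p
  le : ∀ w : (F →+* Om p) → Om p, Sq t w → ∀ ι, ‖w ι‖ ≤ 1

/-- `γ` takes the value `∏ (a + b w)` at the vertex `w`, in every field. -/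
def Gm (t : F) (s : ℤ) (a b : F) (γ : ℚ[X]) : Prop :=
  ∀ (Ω : Type) [Field Ω] [IsAlgClosed Ω] [CharZero Ω] (w : (F →+* Ω) → Ω), Sq t w →
    (γ.map (Rat.castHom Ω)).eval (rt s w) = ∏ ι : F →+* Ω, (ι a + ι b * w ι)

/-- The prime of an embedding. -/
def pr {l : ℕ} [Fact l.Prime] (ι : F →+* Om l) (h : ∀ x : 𝓞 F, ‖ι x‖ ≤ 1) : Ideal (𝓞 F) where
  carrier := {x | ‖ι x‖ < 1}
  zero_mem' := by simp
  add_mem' := fun {a b} ha hb => by
    change ‖ι ((a + b : 𝓞 F) : F)‖ < 1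
    rw [show ((a + b : 𝓞 F) : F) = a + b from rfl, map_add]
    exact (IsUltrametricDist.norm_add_le_max _ _).trans_lt (max_lt ha hb)
  smul_mem' := fun c a ha => by
    change ‖ι ((c * a : 𝓞 F) : F)‖ < 1
    rw [show ((c * a : 𝓞 F) : F) = c * a from rfl, map_mul, norm_mul]
    exact (mul_le_of_le_one_left (norm_nonneg _) (h c)).trans_lt ha

end cube

section order

variable {F : Type} [Field F]

/-- All conjugates of `m` are real and lie in `(0, μ]`. -/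
def Pos (m : 𝓞 F) (μ : ℝ) : Prop := ∀ σ : F →+* ℂ, ∃ x : ℝ, σ m = x ∧ 0 < x ∧ x ≤ μ

/-- Distinct embeddings define distinct primes. -/
def Sepr (F : Type) [Field F] (l : ℕ) [Fact l.Prime] : Prop :=
  ∃ θ : 𝓞 F, ∀ ι ι' : F →+* Om l, ι ≠ ι' → ‖ι θ - ι' θ‖ = 1

/-- A prime of degree one of the order `O_F[ω]`, `ω ^ 2 = - m`. -/
structure Face (m : 𝓞 F) {l : ℕ} [Fact l.Prime] (ι : F →+* Om l) (ϖ : Om l) : Prop where
  rat : ∀ x, ι x ∈ NT.Qp l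
  rat' : ϖ ∈ NT.Qp l
  sq : ϖ ^ 2 = -ι m
  unit : ‖ϖ‖ = 1
  odd : l ≠ 2
  sep : Sepr F l

/-- A family of places, one over each prime divisor of `M`. -/
structure Pl (F : Type) [Field F] where
  /-- the level -/
  M : ℕ
  /-- the embeddings -/
  ι : ∀ (l : ℕ) [Fact l.Prime], F →+* Om l
  /-- the images of `ω` -/
  ϖ : ∀ (l : ℕ) [Fact l.Prime], Om l

open Classical in
/-- The norm of the product of the primes of `x` at the place `(ι, ϖ)`. -/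
def Pl.wt (x : Pl F) {l : ℕ} [Fact l.Prime] (ι : F →+* Om l) (ϖ : Om l) : ℝ :=
  if l ∣ x.M ∧ ι = x.ι l ∧ ϖ = x.ϖ l then (l : ℝ)⁻¹ else 1

/-- Admissible families. -/
def Pl.Ok (x : Pl F) (m : 𝓞 F) (N₀ : ℕ) : Prop :=
  Squarefree x.M ∧ x.M.Coprime N₀ ∧ ∀ (l : ℕ) [Fact l.Prime], l ∣ x.M → Face m (x.ι l) (x.ϖ l)

/-- `t`, `t - 4` and `k` are units at the odd prime `l`. -/
def Unt (t : F) (k : 𝓞 F) (l : ℕ) [Fact l.Prime] : Prop :=
  l ≠ 2 ∧ ∀ ι : F →+* Om l, ‖ι t‖ = 1 ∧ ‖ι t - 4‖ = 1 ∧ ‖ι k‖ = 1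

/-- The kernel of `g` modulo `l` is the face that belongs to the place of `x`. -/
def Fc {l : ℕ} [Fact l.Prime] (t : F) (k : 𝓞 F) (f : Fr ν (Om l)) (h : Fin 3 → M2 (Om l))
    (ι : Fin 3 ≃ (F →+* Om l)) (g : MZ) (x : Pl F) : Prop :=
  l ∣ x.M → Unt t k l ∧ ∃ (i : Fin 3) (w : Om l), w ^ 2 * ι i t = ι i t - 4 ∧ Kil f h g i w ∧
    x.ι l = ι i ∧ x.ϖ l = ι i k * w

variable [NumberField F]

/-- `a + b ω` generates the quotient of the ideals of `x` and `x'`. -/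
structure Rel (m : 𝓞 F) (x x' : Pl F) (N₀ : ℕ) (a b : F) : Prop where
  int_a : IsIntegral ℤ ((x'.M : F) * a)
  int_b : IsIntegral ℤ ((x'.M : F) * b)
  nrm : (x'.M : ℚ) * Algebra.norm ℚ (a ^ 2 + m * b ^ 2) = x.M
  sz : ∀ (l : ℕ) [Fact l.Prime] (ι : F →+* Om l) (ϖ : Om l), ϖ ^ 2 = -ι m →
    ‖ι a + ι b * ϖ‖ * x'.wt ι ϖ = x.wt ι ϖ
  one : ∀ (l : ℕ) [Fact l.Prime], l ∣ N₀ → ∀ (ι : F →+* Om l) (ϖ : Om l), ϖ ^ 2 = -ι m →
    ‖ι a + ι b * ϖ - 1‖ ≤ ‖(N₀ : Om l)‖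

/-- The elements `k` and `m = k ^ 2 (4 - t) / t`. -/
structure Kap (C p : ℕ) (t : F) (s : ℤ) (k m : 𝓞 F) : Prop where
  eq : (m : F) * t = (k : F) ^ 2 * (4 - t)
  pos : Pos m (((C * p : ℕ) : ℝ) ^ (1 / 3 : ℝ))
  le : ∀ (l : ℕ) [Fact l.Prime] (ι : F →+* Om l), ‖ι k‖ ^ 2 ≤ ‖ι t‖
  unit : ∀ (l : ℕ) [Fact l.Prime], C < l → ¬ (l : ℤ) ∣ s → ∀ ι : F →+* Om l, ‖ι k‖ = 1

end order

section galois

variable {K : IntermediateField ℚ ℂ} {F : Type} [Field F]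

/-- The exact tensor structure at `l`. -/
structure Ten (r : Rep K) (l : ℕ) [Fact l.Prime] (ι : Fin 3 → F →+* Om l) (f : Fr ν (Om l)) :
    Prop where
  inj : Function.Injective ι
  P_le : Le f.P 1
  Q_le : Le f.Q 1
  ex : ∀ σ, ∃ (z : ℤ_[l]) (h : Fin 3 → M2 (Om l)), (∀ i, Le (h i) 1) ∧
    ro r l σ = toOm l z • f.T h ∧
    ∀ (θ : Om l ≃ₐ[ℚ_[l]] Om l) (i k : Fin 3), (∀ x, θ (ι i x) = ι k x) → (h i).map θ = h k
  big : ∀ g : M2 (𝓞 F), g.det = 1 → ∃ σ, ∀ a b,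
    ‖(ro r l σ - f.T fun i => g.map fun x => ι i x) a b‖ < 1

/-- A system of tensor structures, rational at the primes that split in `L`. -/
structure Sys (r : Rep K) (F L : Type) [Field F] [Field L] (l₁ : ℕ) where
  /-- the embeddings -/
  ι : ∀ (l : ℕ) [Fact l.Prime], Fin 3 → F →+* Om l
  /-- the frames -/
  f : ∀ (l : ℕ) [Fact l.Prime], Fr ν (Om l)
  /-- the reductions -/
  A : ∀ l : ℕ, Matrix κ ν (ZMod l)
  /-- the reductions -/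
  A' : ∀ l : ℕ, Matrix ν κ (ZMod l)
  ten : ∀ (l : ℕ) [Fact l.Prime], l₁ < l → Ten r l (ι l) (f l)
  spl : ∀ (l : ℕ) [Fact l.Prime], l₁ < l → NT.Spl L l → l ≡ 1 [MOD 32] ∧
    (∀ (j : F →+* Om l) x, j x ∈ NT.Qp l) ∧ ∃ fz : Fr ν ℤ_[l], f l = fz.map (toOm l) ∧
      A l = fz.Q.map PadicInt.toZMod ∧ A' l = fz.P.map PadicInt.toZMod

/-- `r σ = r σ'` modulo `N`. -/
def Eqm (r : Rep K) (N : ℕ) (σ σ' : ℂ ≃ₐ[K] ℂ) : Prop :=
  ∀ (l : ℕ) [Fact l.Prime] (i j : ν),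
    (N : ℤ_[l]) ∣ (r l σ : Matrix ν ν ℤ_[l]) i j - (r l σ' : Matrix ν ν ℤ_[l]) i j

/-- The kernel of `r` modulo `N` is open. -/
def Opn (r : Rep K) : Prop :=
  ∀ N : ℕ, N ≠ 0 → ∃ K₁ : IntermediateField ℚ ℂ, FiniteDimensional ℚ K₁ ∧
    ∀ σ : ℂ ≃ₐ[K] ℂ, (∀ x ∈ K₁, σ x = x) → Eqm r N σ 1

end galois

end M4.CM
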