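import Pool.Agent.Lib.MP_33b3f9_ag.M4.CmTrans

/-!
Block B3a: primes and embeddings.
-/

set_option autoImplicit false

noncomputable section

namespace M4.CM

open Matrix Polynomial NumberField Pool.Agent.M4.Mx

variable {F : Type} [Field F] [NumberField F] {l : ℕ} [Fact l.Prime]

/-- The elements of norm at most one. -/
def cmembR (l : ℕ) [Fact l.Prime] : Subring (Om l) where
  carrier := {z | ‖z‖ ≤ 1}
  mul_mem' := fun {a b} ha hb => by
    change ‖a * b‖ ≤ 1
    rw [norm_mul]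
    exact mul_le_one₀ ha (norm_nonneg _) hb
  one_mem' := by simp
  add_mem' := fun {a b} ha hb => (IsUltrametricDist.norm_add_le_max a b).trans (max_le ha hb)
  zero_mem' := by simp
  neg_mem' := fun {a} ha => by
    change ‖-a‖ ≤ 1
    rwa [norm_neg]

theorem cmemb_coeff {P : Polynomial (Om l)} (hP : P.Monic) (h : ∀ z, P.eval z = 0 → ‖z‖ ≤ 1) (k : ℕ) :
    ‖P.coeff k‖ ≤ 1 := by
  have h1 : P ∈ Polynomial.liftsRing (cmembR l).subtype := by
    rw [(IsAlgClosed.splits P).eq_prod_roots_of_monic hP]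
    refine Subring.multiset_prod_mem _ _ fun a ha => ?_
    obtain ⟨z, hz, rfl⟩ := Multiset.mem_map.1 ha
    refine sub_mem ((Polynomial.lifts_iff_liftsRing _ _).1 (Polynomial.X_mem_lifts _))
      ((Polynomial.lifts_iff_liftsRing _ _).1 (Polynomial.C'_mem_lifts ?_))
    exact ⟨⟨z, h z (Polynomial.isRoot_of_mem_roots hz)⟩, rfl⟩
  obtain ⟨z, hz⟩ := (Polynomial.lifts_iff_coeff_lifts _).1
    ((Polynomial.lifts_iff_liftsRing _ _).2 h1) k
  rw [← hz]
  exact z.2

/-- The roots of `minpoly ℚ x` in `Om l` are the `ι x` (`exists_emb_of_root`), so its coefficients have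
norm at most one at every `l` (lift the product of the linear factors to the subring of the elements
of norm at most one) and are integers (`int_of_norm_le`). -/
theorem isIntegral_of_le {x : F} (h : ∀ (l : ℕ) [Fact l.Prime] (ι : F →+* Om l), ‖ι x‖ ≤ 1) :
    IsIntegral ℤ x := by
  have hx : IsIntegral ℚ x := Algebra.IsIntegral.isIntegral x
  have hm := minpoly.monic hx
  have hc : minpoly ℚ x ∈ Polynomial.lifts (algebraMap ℤ ℚ) := by
    rw [Polynomial.lifts_iff_coeff_lifts]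
    intro k
    obtain ⟨n, hn⟩ := int_of_norm_le ((minpoly ℚ x).coeff k) fun l _ => by
      have h1 := cmemb_coeff (l := l) (hm.map (Rat.castHom (Om l))) (fun z hz => by
        obtain ⟨ι, rfl⟩ := exists_emb_of_root x hz
        exact h l ι) k
      rwa [Polynomial.coeff_map] at h1
    exact ⟨n, hn.symm⟩
  obtain ⟨q, hq, -, hq1⟩ := Polynomial.lifts_and_natDegree_eq_and_monic hc hm
  refine ⟨q, hq1, ?_⟩
  have h2 := minpoly.aeval ℚ x
  rw [← hq, Polynomial.aeval_map_algebraMap] at h2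
  exact h2

theorem mem_pr (ι : F →+* Om l) (x : 𝓞 F) : x ∈ pr ι (int_le ι) ↔ ‖ι x‖ < 1 := Iff.rfl

theorem pr_prime (ι : F →+* Om l) : (pr ι (int_le ι)).IsPrime := by
  refine ⟨fun h => ?_, fun {x y} hxy => ?_⟩
  · have h1 : (1 : 𝓞 F) ∈ pr ι (int_le ι) := h ▸ Submodule.mem_top
    rw [mem_pr] at h1
    simp at h1
  · rw [mem_pr, show ((x * y : 𝓞 F) : F) = x * y from rfl, map_mul, norm_mul] at hxy
    rw [mem_pr, mem_pr]
    by_contra hc
    push Not at hc
    exact absurd (one_le_mul_of_one_le_of_one_le hc.1 hc.2) (not_le.2 hxy)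

theorem l_mem_pr (ι : F →+* Om l) : (l : 𝓞 F) ∈ pr ι (int_le ι) := by
  rw [mem_pr, show ((l : 𝓞 F) : F) = (l : F) from map_natCast (algebraMap (𝓞 F) F) l, map_natCast,
    norm_l]
  exact inv_lt_one_of_one_lt₀ (by exact_mod_cast (Fact.out : l.Prime).one_lt)

/-- Otherwise (all these ideals are maximal; `Ideal.subset_union_prime` or a product) some `y ∈ P`
has `‖ι y‖ = 1` for all `ι`, so its norm `n` is prime to `l` (`prod_emb`); but `n ∈ P` and `l ∈ P`. -/
theorem exists_emb (P : Ideal (𝓞 F)) (hP : P.IsPrime) (hl : (l : 𝓞 F) ∈ P) :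
    ∃ ι : F →+* Om l, P = pr ι (int_le ι) := by
  classical
  have hl0 : (l : 𝓞 F) ≠ 0 := Nat.cast_ne_zero.2 (Fact.out : l.Prime).ne_zero
  have hP0 : P ≠ ⊥ := fun h => hl0 (by rwa [h, Ideal.mem_bot] at hl)
  have hmax : P.IsMaximal := hP.isMaximal hP0
  by_contra hc
  push Not at hc
  obtain ⟨ι₀⟩ : Nonempty (F →+* Om l) := inferInstance
  have h1 : ¬ ((P : Set (𝓞 F)) ⊆ ⋃ i ∈ ((Finset.univ : Finset (F →+* Om l)) : Set (F →+* Om l)),
      (pr i (int_le i) : Set (𝓞 F))) := by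
    rw [Ideal.subset_union_prime (f := fun i : F →+* Om l => pr i (int_le i)) ι₀ ι₀
      (fun i _ _ _ => pr_prime i)]
    rintro ⟨i, -, hi⟩
    exact hc i (hmax.eq_of_le (pr_prime i).ne_top hi)
  obtain ⟨y, hy, hy1⟩ := Set.not_subset.1 h1
  have h2 : ∀ ι : F →+* Om l, ‖ι y‖ = 1 := fun ι => by
    refine le_antisymm (int_le ι y) (not_lt.1 fun h => hy1 ?_)
    exact Set.mem_biUnion (Finset.mem_coe.2 (Finset.mem_univ ι)) h
  have h3 : ‖((Algebra.norm ℤ y : ℤ) : Om l)‖ = 1 := by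
    have h4 := prod_emb (Ω := Om l) (y : F)
    rw [← Algebra.coe_norm_int, Rat.cast_intCast] at h4
    rw [← h4, norm_prod]
    exact Finset.prod_eq_one fun ι _ => h2 ι
  have h5 : ¬ l ∣ (Algebra.norm ℤ y).natAbs := fun h => by
    have := norm_int_lt_one (l := l) (Int.natCast_dvd.2 h)
    exact absurd h3 this.ne
  have h6 : (((Algebra.norm ℤ y).natAbs : ℕ) : 𝓞 F) ∈ P := by
    rw [← Ideal.absNorm_span_singleton]
    exact (Ideal.span_singleton_le_iff_mem P).2 hy (Ideal.absNorm_mem _)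
  have h7 : IsCoprime (l : 𝓞 F) (((Algebra.norm ℤ y).natAbs : ℕ) : 𝓞 F) :=
    Nat.Coprime.cast (((Fact.out : l.Prime).coprime_iff_not_dvd).2 h5)
  obtain ⟨a, b, hab⟩ := h7
  exact hP.ne_top ((Ideal.eq_top_iff_one P).2
    (hab ▸ P.add_mem (P.mul_mem_left a hl) (P.mul_mem_left b h6)))

omit [NumberField F] in
theorem exists_red (ι : F →+* Om l) (h : ∀ x, ι x ∈ NT.Qp l) :
    ∃ φ : 𝓞 F →+* ℤ_[l], ∀ x, toOm l (φ x) = ι x := by
  choose f hf using fun x : 𝓞 F => exists_toOm (h x) (int_le ι x)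
  refine ⟨{ toFun := f
            map_one' := toOm_inj ?_
            map_mul' := fun x y => toOm_inj ?_
            map_zero' := toOm_inj ?_
            map_add' := fun x y => toOm_inj ?_ }, hf⟩
  · rw [hf, map_one]
    exact map_one (ι.comp (algebraMap (𝓞 F) F))
  · rw [map_mul, hf, hf, hf]
    exact map_mul (ι.comp (algebraMap (𝓞 F) F)) x y
  · rw [hf, map_zero]
    exact map_zero (ι.comp (algebraMap (𝓞 F) F))
  · rw [map_add, hf, hf, hf]
    exact map_add (ι.comp (algebraMap (𝓞 F) F)) x y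

/-- The kernel of `toZMod ∘ φ`, which is onto `ZMod l`. -/
theorem absNorm_pr (ι : F →+* Om l) (h : ∀ x, ι x ∈ NT.Qp l) :
    Ideal.absNorm (pr ι (int_le ι)) = l := by
  obtain ⟨φ, hφ⟩ := exists_red ι h
  have hk : pr ι (int_le ι) = RingHom.ker (PadicInt.toZMod.comp φ) := by
    ext x
    rw [mem_pr, RingHom.mem_ker, RingHom.comp_apply, toZMod_eq_zero_iff, hφ]
  rw [hk, Ideal.absNorm_apply, Submodule.cardQuot_apply,
    Nat.card_congr (RingHom.quotientKerEquivOfSurjective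
      (ZMod.ringHom_surjective (PadicInt.toZMod.comp φ))).toEquiv, Nat.card_zmod]

/-- `y` lies in `adjoin ℚ_[l] (range ι)` (`InfiniteGalois.fixedField_fixingSubgroup`), which is the
`ℚ_[l]`-span of the range of `ι` (the elements are algebraic), and the span lies in the closure of the
range (`Padic.denseRange_ratCast` or `Padic.rat_dense`). Take `x` with `‖y - ι x‖ < ‖y‖`. -/
theorem norm_of_fixed (ι : F →+* Om l) {y : Om l} (h0 : y ≠ 0)
    (h : ∀ θ : Om l ≃ₐ[ℚ_[l]] Om l, (∀ x, θ (ι x) = ι x) → θ y = y) : ∃ x : F, ‖y‖ = ‖ι x‖ := by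
  have h1 : y ∈ IntermediateField.adjoin ℚ_[l] (Set.range ι) := by
    rw [← InfiniteGalois.fixedField_fixingSubgroup (IntermediateField.adjoin ℚ_[l] (Set.range ι)),
      IntermediateField.mem_fixedField_iff]
    intro θ hθ
    refine h θ fun x => ?_
    exact (IntermediateField.mem_fixingSubgroup_iff _ _).1 hθ _
      (IntermediateField.subset_adjoin _ _ ⟨x, rfl⟩)
  have h2 : y ∈ ι.fieldRange.topologicalClosure := by
    refine IntermediateField.adjoin_induction (F := ℚ_[l])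
      (p := fun z _ => z ∈ ι.fieldRange.topologicalClosure) ?_ ?_ ?_ ?_ ?_ h1
    · rintro _ ⟨x, rfl⟩
      exact Subfield.le_topologicalClosure _ ⟨x, rfl⟩
    · intro c
      refine (Padic.denseRange_ratCast (p := l)).induction_on c
        ((Subfield.isClosed_topologicalClosure _).preimage (continuous_algebraMap ℚ_[l] (Om l)))
        fun q => ?_
      rw [map_ratCast]
      exact SubfieldClass.ratCast_mem _ q
    · exact fun _ _ _ _ ha hb => add_mem ha hb
    · exact fun _ _ ha => inv_mem ha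
    · exact fun _ _ _ _ ha hb => mul_mem ha hb
  obtain ⟨_, ⟨x, rfl⟩, hx⟩ := Metric.mem_closure_iff.1
    (show y ∈ closure (ι.fieldRange : Set (Om l)) from h2) ‖y‖ (norm_pos_iff.2 h0)
  rw [dist_eq_norm] at hx
  refine ⟨x, ?_⟩
  have h3 := IsUltrametricDist.norm_add_eq_max_of_norm_ne_norm (x := y) (y := -(y - ι x))
    (by rw [norm_neg]; exact hx.ne')
  rw [norm_neg, max_eq_left hx.le, show y + -(y - ι x) = ι x by ring] at h3
  exact h3.symm

/-- Take an integral primitive element `θ`. For `s ≠ s' : F →+* Qb` the number `s θ - s' θ` is not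
zero, apply `int_large` to its inverse; `comp_bij`. -/
theorem sepr (F : Type) [Field F] [NumberField F] :
    ∃ l₀ : ℕ, ∀ (l : ℕ) [Fact l.Prime], l₀ < l → Sepr F l := by
  classical
  obtain ⟨α, hα⟩ := Field.exists_primitive_element ℚ F
  have h1 := (Field.primitive_element_iff_algHom_eq_of_eval' ℚ Qb
    (fun _ => IsAlgClosed.splits _) α).1 hα
  have h2 : IsAlgebraic ℤ α :=
    (IsFractionRing.isAlgebraic_iff ℤ ℚ F).2 (Algebra.IsAlgebraic.isAlgebraic α)
  obtain ⟨n, hn, hi⟩ := h2.exists_integral_multiple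
  let θ : 𝓞 F := ⟨n • α, hi⟩
  have h3 : ∀ s s' : F →+* Qb, s ≠ s' → s θ - s' θ ≠ 0 := fun s s' hs h => by
    have h4 : s (n • α) = s' (n • α) := sub_eq_zero.1 h
    rw [map_zsmul, map_zsmul, zsmul_eq_mul, zsmul_eq_mul] at h4
    have h5 : s α = s' α := mul_left_cancel₀ (Int.cast_ne_zero.2 hn) h4
    have h8 : s.toRatAlgHom = s'.toRatAlgHom := h1 h5
    exact hs (RingHom.ext fun x => DFunLike.congr_fun h8 x)
  choose f hf using fun z : (F →+* Qb) × (F →+* Qb) => int_large (z.1 θ - z.2 θ)⁻¹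
  refine ⟨Finset.univ.sup f, fun l _ hl => ⟨θ, fun ι ι' hι => ?_⟩⟩
  obtain ⟨s₀⟩ : Nonempty (F →+* Qb) := inferInstance
  obtain ⟨j, -⟩ := exists_j s₀ ι
  obtain ⟨s, rfl⟩ := (comp_bij (F := F) j).2 ι
  obtain ⟨s', rfl⟩ := (comp_bij (F := F) j).2 ι'
  have hs : s ≠ s' := fun h => hι (by rw [h])
  have h6 := hf (s, s') l ((Finset.le_sup (Finset.mem_univ _)).trans_lt hl) j
  have h7 : j (s θ - s' θ) ≠ 0 := (map_ne_zero j).2 (h3 s s' hs)
  rw [map_inv₀, norm_inv, inv_le_one₀ (norm_pos_iff.2 h7), map_sub] at h6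
  refine le_antisymm ?_ h6
  rw [sub_eq_add_neg]
  refine (IsUltrametricDist.norm_add_le_max _ _).trans (max_le (int_le _ θ) ?_)
  rw [norm_neg]
  exact int_le _ θ

end M4.CM
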