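import Pool.Agent.Lib.MP_33b3f9_ag.M4.NTInert

/-!
A cubic polynomial that has the splitting behaviour of a field has a root in that field.
-/

set_option autoImplicit false

namespace M4.NT

open NumberField Module Polynomial

/-- An embedding with image in `Qp l` comes from an embedding into `ℚ_[l]`. -/
theorem exists_hom_of_Qp {F : Type} [Field F] {l : ℕ} [Fact l.Prime] (s : F →+* PadicAlgCl l)
    (h : ∀ x, s x ∈ Qp l) : ∃ φ : F →+* ℚ_[l], ∀ x, algebraMap ℚ_[l] (PadicAlgCl l) (φ x) = s x := by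
  choose u hu using h
  have hj := (algebraMap ℚ_[l] (PadicAlgCl l)).injective
  exact ⟨⟨⟨⟨u, hj (by simp [hu])⟩, fun x y => hj (by simp [hu])⟩, hj (by simp [hu]),
    fun x y => hj (by simp [hu])⟩, hu⟩

theorem root_in (F : Type) [Field F] [NumberField F] {c : ℚ[X]} (hc : c.natDegree = 3) (l0 : ℕ)
    (h : ∀ (l : ℕ) [Fact l.Prime], l0 ≤ l → Nonempty (F →+* ℚ_[l]) →
      ∃ x : ℚ_[l], aeval x c = 0) : ∃ t : F, aeval t c = 0 := by
  by_contra hn
  push Not at hn
  set f := c.map (algebraMap ℚ F) with hf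
  have hd : f.natDegree = 3 := by rw [hf, natDegree_map, hc]
  have hirr : Irreducible f := irreducible_of_degree_le_three_of_not_isRoot (by simp [hd])
    fun t ht => hn t (by rwa [IsRoot, hf, eval_map_algebraMap] at ht)
  have hs : (f.map (algebraMap F f.SplittingField)).Splits := SplittingField.splits f
  have := Fact.mk hs
  have ht := Gal.galAction_isPretransitive f f.SplittingField hirr
  have : Nontrivial (f.rootSet f.SplittingField) := by
    rw [← Fintype.one_lt_card_iff_nontrivial, card_rootSet_eq_natDegree hirr.separable hs, hd]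
    norm_num
  obtain ⟨g, hg⟩ := @inert_jordan f.Gal (f.rootSet f.SplittingField) _ _ _ _
    (Gal.galAction f f.SplittingField) ht
  have : Normal F f.SplittingField :=
    Normal.of_isSplittingField (hFEp := IsSplittingField.splittingField f)
  obtain ⟨g, rfl⟩ := Gal.restrict_surjective f f.SplittingField g
  have : NumberField f.SplittingField := NumberField.of_module_finite F _
  obtain ⟨l, ⟨hl, e, he⟩, hl0⟩ := (frob f.SplittingField g.toRingEquiv).exists_ge l0
  obtain ⟨φ, -⟩ := exists_hom_of_Qp (e.comp (algebraMap F f.SplittingField))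
    fun x => (he _).2 (g.commutes x)
  obtain ⟨x, hx⟩ := h l hl0 ⟨φ⟩
  have hc0 : c ≠ 0 := by
    rintro rfl
    simp at hc
  have h1 : algebraMap ℚ_[l] (PadicAlgCl l) x ∈ c.rootSet (PadicAlgCl l) := by
    rw [mem_rootSet_of_ne hc0]
    exact (aeval_algHom_apply (algebraMap ℚ_[l] (PadicAlgCl l)).toRatAlgHom x c).trans
      (by rw [hx, map_zero])
  have hs' : (c.map (algebraMap ℚ f.SplittingField)).Splits := by
    rwa [hf, map_map, ← IsScalarTower.algebraMap_eq] at hs
  rw [← hs'.image_rootSet e.toRatAlgHom] at h1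
  obtain ⟨y, hy, h2⟩ := h1
  have hy' : y ∈ f.rootSet f.SplittingField := by
    rw [mem_rootSet_of_ne hirr.ne_zero]
    exact (aeval_map_algebraMap F y c).trans (aeval_eq_zero_of_mem_rootSet hy)
  refine hg ⟨y, hy'⟩ (Subtype.ext ?_)
  rw [Gal.restrict_smul]
  exact (he y).1 ⟨_, h2.symm⟩

theorem irreducible_of_inert (F : Type) [Field F] [NumberField F] (hF : 2 ≤ finrank ℚ F) {c : ℚ[X]}
    (hc : c.natDegree = 3) (l0 : ℕ)
    (h : ∀ (l : ℕ) [Fact l.Prime], l0 ≤ l → (∃ x : ℚ_[l], aeval x c = 0) →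
      Nonempty (F →+* ℚ_[l])) : Irreducible c := by
  obtain ⟨l, hl0, hl, he⟩ := exists_inert F hF l0
  refine irreducible_of_degree_le_three_of_not_isRoot (by simp [hc]) fun x hx => ?_
  refine not_nonempty_iff.2 he (h l hl0 ⟨algebraMap ℚ ℚ_[l] x, ?_⟩)
  rw [aeval_algebraMap_apply, coe_aeval_eq_eval, hx, map_zero]

/-- The roots of `c` are attached to the embeddings of `F`, compatibly with the local Galois groups.
-/
theorem root_of_equivariant (F : Type) [Field F] [NumberField F] (hF : finrank ℚ F = 3) {c : ℚ[X]}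
    (hc : c.natDegree = 3) (l0 : ℕ)
    (h : ∀ (l : ℕ) [Fact l.Prime], l0 ≤ l → ∃ T : (F →+* PadicAlgCl l) → PadicAlgCl l,
      Function.Injective T ∧ (∀ s, aeval (T s) c = 0) ∧
      ∀ (θ : PadicAlgCl l ≃ₐ[ℚ_[l]] PadicAlgCl l) (s s' : F →+* PadicAlgCl l),
        (∀ x, θ (s x) = s' x) → θ (T s) = T s') :
    Irreducible c ∧ ∃ t : F, aeval t c = 0 := by
  have hc0 : c ≠ 0 := by
    rintro rfl
    simp at hc
  refine ⟨irreducible_of_inert F (by omega) hc l0 fun l _ hl ⟨x, hx⟩ => ?_,
    root_in F hc l0 fun l _ hl ⟨φ⟩ => ?_⟩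
  · obtain ⟨T, h1, h2, h3⟩ := h l hl
    classical
    have h4 : Finset.univ.image T = (c.aroots (PadicAlgCl l)).toFinset := by
      refine Finset.eq_of_subset_of_card_le (fun y hy => ?_) ?_
      · obtain ⟨s, -, rfl⟩ := Finset.mem_image.1 hy
        exact Multiset.mem_toFinset.2 (mem_aroots.2 ⟨hc0, h2 s⟩)
      · rw [Finset.card_image_of_injective _ h1, Finset.card_univ, Embeddings.card, hF, ← hc,
          ← natDegree_map (algebraMap ℚ (PadicAlgCl l))]
        exact (Multiset.toFinset_card_le _).trans (card_roots' _)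
    have h5 : algebraMap ℚ_[l] (PadicAlgCl l) x ∈ Finset.univ.image T := by
      rw [h4, Multiset.mem_toFinset, mem_aroots]
      exact ⟨hc0, (aeval_algHom_apply (algebraMap ℚ_[l] (PadicAlgCl l)).toRatAlgHom x c).trans
        (by rw [hx, map_zero])⟩
    obtain ⟨s, -, hs⟩ := Finset.mem_image.1 h5
    obtain ⟨φ, -⟩ := exists_hom_of_Qp s fun y => by
      by_contra hy
      obtain ⟨θ, hθ⟩ := exists_move hy
      have h6 := h3 θ s ((θ : PadicAlgCl l →+* PadicAlgCl l).comp s) fun _ => rfl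
      rw [hs, θ.commutes, ← hs] at h6
      exact hθ (RingHom.congr_fun (h1 h6) y).symm
    exact ⟨φ⟩
  · obtain ⟨T, -, h2, h3⟩ := h l hl
    have h4 : T ((algebraMap ℚ_[l] (PadicAlgCl l)).comp φ) ∈ Qp l := by
      by_contra hy
      obtain ⟨θ, hθ⟩ := exists_move hy
      exact hθ (h3 θ _ _ fun x => θ.commutes _)
    obtain ⟨x, hx⟩ := h4
    refine ⟨x, (algebraMap ℚ_[l] (PadicAlgCl l)).injective ?_⟩
    rw [map_zero, ← h2 ((algebraMap ℚ_[l] (PadicAlgCl l)).comp φ), ← hx]
    exact (aeval_algHom_apply (algebraMap ℚ_[l] (PadicAlgCl l)).toRatAlgHom x c).symm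

end M4.NT
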