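import Pool.Agent.Lib.MP_33b3f9_ag.M4.CmCubeB
import Pool.Agent.Lib.MP_33b3f9_ag.M4.NTRoot
import Pool.Agent.Lib.MP_33b3f9_ag.M4.CmEmb

/-!
Block B3a: the global data of a place.
-/

set_option autoImplicit false

noncomputable section

namespace M4.CM

open Matrix Polynomial NumberField Pool.Agent.M4.Mx

theorem cmGlob_loc {τ : Mat} {K : IntermediateField ℚ ℂ} {r : Rep K} {F L : Type} [Field F]
    [NumberField F] [Field L] (hF : Module.finrank ℚ F = 3) {l₁ : ℕ} (S : Sys r F L l₁) {p : ℕ}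
    [Fact p.Prime] {e : ℂ ≃+* PadicAlgCl p} {σ : ℂ ≃ₐ[K] ℂ} (hσ : Frob τ r e σ) {P : ℤ[X]}
    (hW : Weil r p σ P) (h2 : Sp2 (P.map (Int.castRingHom Qb))) (l : ℕ) [Fact l.Prime]
    (h1 : l₁ < l) (hl : l ≠ p) : ∃ (h : Fin 3 → M2 (Om l)) (ι : Fin 3 ≃ (F →+* Om l)),
      (∀ i, Le (h i) 1) ∧ ro r l σ = (S.f l).T h ∧ Sp2 ((S.f l).T h).charpoly ∧
      ∏ i, (h i).det = p ∧ (∀ i, (h i).det ≠ 0) ∧
      ∀ (θ : Om l ≃ₐ[ℚ_[l]] Om l) (i k : Fin 3), (∀ x, θ (ι i x) = ι k x) →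
        θ (tv (h i)) = tv (h k) ∧ (i = k → ∀ a b, θ (h i a b) = h i a b) := by
  have T := S.ten l h1
  obtain ⟨z, g, g1, g2, g3⟩ := T.ex σ
  obtain ⟨ι, hι⟩ := equiv_of_inj hF T.inj
  obtain ⟨c, hc⟩ : ∃ c : Fin 3 → ℤ_[l], c = ![z, 1, 1] := ⟨_, rfl⟩
  have h3 : ro r l σ = (S.f l).T fun i => toOm l (c i) • g i := by
    rw [Fr.T_smul, g2, hc]
    simp [Fin.prod_univ_three]
  have h4 : Sp2 ((S.f l).T fun i => toOm l (c i) • g i).charpoly := by
    rw [← h3, ro_charpoly r hW hl]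
    exact h2.transfer P Qb (Om l)
  have hp : (p : Om l) ≠ 0 := Nat.cast_ne_zero.2 (Fact.out : p.Prime).ne_zero
  have h5 := cube_det _ _ hp (by
    have := congrArg (Matrix.map · (algebraMap ℚ_[l] (Om l))) (hσ.mult l hl)
    simp only [Matrix.map_mul, Matrix.transpose_map, Matrix.map_J] at this
    rw [← h3, ro, this]
    ext a b
    simp only [Matrix.map_apply, Matrix.smul_apply, smul_eq_mul, map_mul, map_natCast,
      ← Matrix.map_J (Fin 4) (algebraMap ℚ_[l] (Om l))]) h4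
  have h6 := fun i => Finset.prod_ne_zero_iff.1 (h5 ▸ hp) i (Finset.mem_univ i)
  have h7 : ∀ i, tv (toOm l (c i) • g i) = tv (g i) := fun i => by
    have := h6 i
    rw [det_smul, Fintype.card_fin, mul_ne_zero_iff] at this
    rw [tv, tv, det_smul, trace_smul, Fintype.card_fin, smul_eq_mul, mul_pow,
      mul_div_mul_left _ _ this.1]
  refine ⟨_, ι, fun i => ((g1 i).smul _).mono ?_, h3, h4, h5, h6, fun θ i k h => ?_⟩
  · rw [norm_toOm, mul_one]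
    exact PadicInt.norm_le_one _
  have h8 := g3 θ i k (by simpa only [hι] using h)
  refine ⟨?_, fun e a b => ?_⟩
  · rw [h7, h7, ← h8]
    simp [tv, trace_fin_two, det_fin_two]
  · subst e
    rw [Matrix.smul_apply, smul_eq_mul, map_mul, (mem_Qp_iff _).1 (toOm_mem _) θ]
    exact congrArg _ (congrFun (congrFun h8 a) b)

/-- For `l > l₁`, `l ≠ p` take `z`, `h₀` from `Ten.ex`, `h = update h₀ 0 (z • h₀ 0)`. The numbers
`tv (h i) = tv (h₀ i)` are distinct roots of the cubic `c` of `exists_cubic` with the values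
`a 1 ^ 2 / p`, `a 2 / p`, `a 3 / (p * a 1)` (`pow_sums`, `cube_vals`), and equivariant; `NT.root_of_equivariant`
gives `t`, and `minpoly ℚ t = c` (`minpoly.eq_of_irreducible_of_monic`).
Every `tv (h i)` is `ι i t` (`exists_emb_of_root`, `equiv_of_inj`). `cube_roots` and `cub_iff` give the
cube. An automorphism that fixes `ι i t` fixes the slot `i`, hence the trace (`norm_of_fixed`). -/
theorem glob {τ : Mat} {K : IntermediateField ℚ ℂ} {r : Rep K} {F L : Type} [Field F]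
    [NumberField F] [Field L] (hF : Module.finrank ℚ F = 3) {l₁ : ℕ} (S : Sys r F L l₁) {p : ℕ}
    [Fact p.Prime] {e : ℂ ≃+* PadicAlgCl p} {σ : ℂ ≃ₐ[K] ℂ} (hσ : Frob τ r e σ) {P : ℤ[X]}
    (hW : Weil r p σ P) (h2 : Sp2 (P.map (Int.castRingHom Qb))) :
    ∃ (t : F) (s : ℤ), Glob p P t s ∧ ∀ (l : ℕ) [Fact l.Prime], l₁ < l → l ≠ p →
      ∃ (h : Fin 3 → M2 (Om l)) (ι : Fin 3 ≃ (F →+* Om l)), Loc t s (S.f l) h ι ∧
        ro r l σ = (S.f l).T h ∧
        ((∀ (j : F →+* Om l) x, j x ∈ NT.Qp l) → ∀ i a b, h i a b ∈ NT.Qp l) := by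
  obtain ⟨a, ha⟩ := pow_sums P hW.monic
  obtain ⟨c, hc1, hc2, hc3⟩ := exists_cubic ((a 1 : ℚ) ^ 2 / p) (a 2 / p) (a 3 / (p * a 1))
  have hp := (Fact.out : p.Prime)
  have H := cmGlob_loc hF S hσ hW h2
  have H1 : ∀ (l : ℕ) [Fact l.Prime] (h : Fin 3 → M2 (Om l)), l ≠ p → ro r l σ = (S.f l).T h →
      Sp2 ((S.f l).T h).charpoly → ∏ i, (h i).det = p → (∀ i, (h i).det ≠ 0) →
      ((S.f l).T h).trace = a 1 ∧ a 1 ≠ 0 ∧ (p : Om l) * ∏ i, tv (h i) = a 1 ^ 2 ∧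
        ∀ i, (c.map (Rat.castHom (Om l))).eval (tv (h i)) = 0 := by
    intro l _ h hl e1 e2 e3 e4
    have e5 := ha _ _ (e1 ▸ ro_charpoly r hW hl)
    have e6 := e5 1
    obtain ⟨v1, v2, v3⟩ := cube_vals (S.f l) h e4
    rw [pow_one] at e6
    rw [e3] at v1 v2 v3
    rw [e5] at v2 v3
    rw [e6] at v1 v3
    have e7 : (a 1 : Om l) ≠ 0 := by
      rw [← e6, trace_T]
      exact Finset.prod_ne_zero_iff.2 fun i _ => cube_trace _ _ e2 i
    have e8 : (p : Om l) ≠ 0 := Nat.cast_ne_zero.2 hp.ne_zero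
    refine ⟨e6, Int.cast_ne_zero.1 e7, v1, hc3 _ _ ?_ ?_ ?_⟩ <;> push_cast
    · exact eq_div_of_mul_eq e8 (by rw [mul_comm, v1])
    · exact eq_div_of_mul_eq e8 (by rw [mul_comm, v2])
    · exact eq_div_of_mul_eq (mul_ne_zero e8 e7) (by rw [mul_comm, v3])
  obtain ⟨hirr, t, ht⟩ := NT.root_of_equivariant F hF hc2 (l₁ + p + 1) fun l _ hl => by
    obtain ⟨h, ι, -, e1, e2, e3, e4, e5⟩ := H l (by omega) (by omega)
    refine ⟨fun s => tv (h (ι.symm s)), (cube_inj _ _ e4 e2).1.comp ι.symm.injective, fun s => ?_,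
      fun θ s s' e => (e5 θ _ _ (by simpa using e)).1⟩
    rw [← eval_map_algebraMap]
    exact (H1 l h (by omega) e1 e2 e3 e4).2.2.2 _
  have hm := minpoly.eq_of_irreducible_of_monic hirr ht hc1
  have H2 : ∀ (l : ℕ) [Fact l.Prime], l₁ < l → l ≠ p →
      (a 1 ≠ 0 ∧ (p : ℚ) * Algebra.norm ℚ t = (a 1 : ℚ) ^ 2 ∧ Cub t (a 1) P (Om l)) ∧
      ∃ (h : Fin 3 → M2 (Om l)) (ι : Fin 3 ≃ (F →+* Om l)), Loc t (a 1) (S.f l) h ι ∧
        ro r l σ = (S.f l).T h ∧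
        ((∀ (j : F →+* Om l) x, j x ∈ NT.Qp l) → ∀ i a b, h i a b ∈ NT.Qp l) := by
    intro l hl' h1 hl
    obtain ⟨h, ι, e0, e1, e2, e3, e4, e5⟩ := H l h1 hl
    obtain ⟨f1, f2, f3, f4⟩ := H1 l h hl e1 e2 e3 e4
    have f5 := (cube_inj _ _ e4 e2).1
    choose j hj using fun i => exists_emb_of_root t (hm ▸ f4 i)
    obtain ⟨u, hu⟩ := equiv_of_inj hF (ι := j) fun i k e => f5 (by simp only [← hj, e])
    simp only [← hu] at hj
    have f6 : ∀ w : (F →+* Om l) → Om l,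
        rt (a 1) w = ((S.f l).T h).trace / 8 * ∏ i, (1 + w (u i)) := fun w => by
      rw [rt, f1, u.prod_comp fun s => 1 + w s]
    have f7 : ∀ i, ‖(h i).det‖ = 1 := norm_eq_one_of_prod (fun i => (e0 i).det) (by
      rw [e3, norm_nat_eq_one fun e => hl ((Nat.prime_dvd_prime_iff_eq hl'.out hp).1 e)])
    refine ⟨⟨f2, (Rat.cast_injective (α := Om l)) ?_, fun w hw => ?_, fun w w' hw hw' e => ?_⟩, h, u,
      ⟨(S.ten l h1).P_le, (S.ten l h1).Q_le, e0, f7, fun i => ?_, by rw [← trace_T, f1],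
        fun i => ?_⟩, e1, fun hq i x y => (mem_Qp_iff _).2 fun θ =>
          (e5 θ i i fun z => (mem_Qp_iff _).1 (hq _ z) θ).2 rfl x y⟩
    · push_cast
      rw [← prod_emb, ← f3, ← u.prod_comp fun s => s t]
      simp only [hj]
    · rw [← ro_charpoly r hW hl, e1, f6]
      exact (cube_roots _ _ e4 e2 _ fun i => hj i ▸ hw _).1
    · rw [f6, f6] at e
      have := (cube_roots _ _ e4 e2 _ fun i => hj i ▸ hw _).2 _ (fun i => hj i ▸ hw' _) e
      exact funext fun s => by simpa using congrFun this (u.symm s)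
    · rw [hj, tv, div_mul_cancel₀ _ (e4 i)]
    · obtain ⟨x, hx⟩ := norm_of_fixed (u i) (cube_trace _ _ e2 i) fun θ hθ => by
        have g1 := e5 θ i (ι.symm ((θ : Om l →+* Om l).comp (ι i))) fun x => by simp
        have g2 := g1.2 (f5 ((hj i ▸ hθ t).symm.trans g1.1))
        rw [trace_fin_two, map_add, g2, g2]
      exact ⟨x, by rw [hj, tv, norm_div, f7, div_one, norm_pow, hx]⟩
  obtain ⟨l, hl, hl'⟩ := Nat.exists_infinite_primes (l₁ + p + 1)
  have := Fact.mk hl'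
  obtain ⟨⟨g1, g2, g3⟩, -⟩ := H2 l (by omega) (by omega)
  have h0 : t ≠ 0 := by
    rintro rfl
    rw [Algebra.norm_zero, mul_zero] at g2
    exact pow_ne_zero 2 (Int.cast_ne_zero.2 g1) g2.symm
  exact ⟨t, a 1, ⟨hF, hp, hW.monic, hW.deg, hW.weil, g1, g2, hm ▸ hc2, (cub_iff h0 _ _).1 g3⟩,
    fun l _ h1 hl => (H2 l h1 hl).2⟩

end M4.CM
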