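import Pool.Agent.Lib.MP_33b3f9_ag.M4.CmTen
import Pool.Agent.Lib.MP_33b3f9_ag.M4.CmTrans
import Pool.Agent.Lib.MP_33b3f9_ag.M4.CBSplit

/-!
Block B3a: the system of frames.
-/

set_option autoImplicit false

noncomputable section

namespace M4.CM

open Matrix Polynomial NumberField Pool.Agent.M4.Mx

theorem sys_field {F : Type} [Field F] [NumberField F] (s : Fin 3 → F →+* Qb) (f₀ : Fr ν Qb) :
    ∃ (L : IntermediateField ℚ Qb) (_ : NumberField L), (∀ i x, s i x ∈ L) ∧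
      (∀ i j, f₀.P i j ∈ L) ∧ (∀ i j, f₀.Q i j ∈ L) ∧ ∃ ζ : L, IsPrimitiveRoot ζ 32 := by
  obtain ⟨ζ, hζ⟩ := HasEnoughRootsOfUnity.exists_primitiveRoot Qb 32
  let b := Module.finBasis ℚ F
  let U : Set Qb := ({ζ} ∪ ((Set.range fun x : ν × κ => f₀.P x.1 x.2) ∪
    (Set.range fun x : κ × ν => f₀.Q x.1 x.2))) ∪
    Set.range fun x : Fin 3 × Fin (Module.finrank ℚ F) => s x.1 (b x.2)
  have hU : U.Finite := ((Set.finite_singleton _).union
    ((Set.finite_range _).union (Set.finite_range _))).union (Set.finite_range _)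
  have : Finite U := hU
  let L := IntermediateField.adjoin ℚ U
  have hL : ∀ x ∈ U, x ∈ L := fun x hx => IntermediateField.subset_adjoin ℚ U hx
  have : FiniteDimensional ℚ L := IntermediateField.finiteDimensional_adjoin fun x _ =>
    (CB.isAlg.isAlgebraic x).isIntegral
  refine ⟨L, ⟨⟩, fun i x => ?_, fun i j => hL _ (Or.inl (Or.inr (Or.inl ⟨(i, j), rfl⟩))),
    fun i j => hL _ (Or.inl (Or.inr (Or.inr ⟨(i, j), rfl⟩))), ⟨ζ, hL _ (Or.inl (Or.inl rfl))⟩,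
    IsPrimitiveRoot.coe_submonoidClass_iff.1 hζ⟩
  rw [← b.sum_repr x, map_sum]
  refine sum_mem fun k _ => ?_
  rw [Rat.smul_def, map_mul, map_ratCast]
  exact mul_mem (SubfieldClass.ratCast_mem L _) (hL _ (Or.inr ⟨(i, k), rfl⟩))

/-- `L` is generated inside `Qb` by the entries of `P`, `Q`, the images of `F` under the three
embeddings and a primitive root of unity of order `32`. -/
theorem exists_sys {K : IntermediateField ℚ ℂ} (r : Rep K) (F : Type) [Field F] [NumberField F]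
    (hF : Module.finrank ℚ F = 3) (N : M2 F → Matrix ν ν ℚ) (hN : Pool.Agent.M4.IsTensInd N)
    (l₀ : ℕ) (hB : ∀ (l : ℕ) [Fact l.Prime], l₀ < l → Pool.Agent.M4.BigImage N (r l)) :
    ∃ (L : Type) (_ : Field L) (_ : NumberField L) (l₁ : ℕ), 2 ≤ l₁ ∧ Nonempty (Sys r F L l₁) := by
  obtain ⟨s, P, Q, hs, hPQ, hQP, hN⟩ := hN
  let f₀ : Fr ν Qb := ⟨P, Q, hPQ, hQP⟩
  obtain ⟨L, hL, h1, h2, h3, ζ, hζ⟩ := sys_field s f₀
  obtain ⟨a1, b1⟩ := CB.exists_l1 fun x : ν × κ => P x.1 x.2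
  obtain ⟨a2, b2⟩ := CB.exists_l1 fun x : κ × ν => Q x.1 x.2
  obtain ⟨a3, b3⟩ := NT.emb L
  refine ⟨L, inferInstance, hL, max (max l₀ 32) (max a1 (max a2 a3)), by omega, ?_⟩
  have key : ∀ (l : ℕ) [Fact l.Prime], ∃ (ι : Fin 3 → F →+* Om l) (f : Fr ν (Om l))
      (fz : Fr ν ℤ_[l]), max (max l₀ 32) (max a1 (max a2 a3)) < l → Ten r l ι f ∧
        (NT.Spl L l → (∀ (j : F →+* Om l) x, j x ∈ NT.Qp l) ∧ f = fz.map (toOm l)) := by
    intro l hp
    let fz₀ : Fr ν ℤ_[l] :=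
      ⟨(1 : Matrix κ κ ℤ_[l]).submatrix (Fintype.equivOfCardEq (by simp) : ν ≃ κ) (Equiv.refl κ),
        (1 : Matrix κ κ ℤ_[l]).submatrix (Equiv.refl κ) (Fintype.equivOfCardEq (by simp) : ν ≃ κ),
        by rw [submatrix_mul_equiv, Matrix.one_mul, submatrix_one_equiv],
        by rw [submatrix_mul_equiv, Matrix.one_mul, submatrix_one_equiv]⟩
    let j₀ : Qb →+* Om l := (exists_j (algebraMap ℚ Qb) (algebraMap ℚ (Om l))).choose
    by_cases hl : max (max l₀ 32) (max a1 (max a2 a3)) < l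
    swap
    · exact ⟨fun i => j₀.comp (s i), f₀.map j₀, fz₀, fun h => (hl h).elim⟩
    simp only [max_lt_iff] at hl
    obtain ⟨⟨k0, -⟩, k1, k2, k3⟩ := hl
    by_cases hS : NT.Spl L l
    swap
    · obtain ⟨B, hT⟩ := ten_of_big (r := r) (f₀ := f₀) hs hN (hB l k0) j₀
        (fun a b => b1 l k1 j₀ (a, b)) fun a b => b2 l k2 j₀ (a, b)
      exact ⟨_, _, fz₀, fun _ => ⟨hT, fun h => (hS h).elim⟩⟩
    obtain ⟨ε⟩ := (b3 l k3.le).1 hS
    obtain ⟨j, hj⟩ := CB.exists_io L ε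
    have hQp : ∀ x ∈ L, j x ∈ NT.Qp l := fun x hx => ⟨_, (hj ⟨x, hx⟩).symm⟩
    have hP : Le (f₀.P.map j) 1 := fun a b => b1 l k1 j (a, b)
    have hQ : Le (f₀.Q.map j) 1 := fun a b => b2 l k2 j (a, b)
    obtain ⟨B, hT⟩ := ten_of_big (r := r) (f₀ := f₀) hs hN (hB l k0) j hP hQ
    obtain ⟨P0, eP⟩ := exists_mat (fun a b => hQp _ (h2 a b)) hP
    obtain ⟨Q0, eQ⟩ := exists_mat (fun a b => hQp _ (h3 a b)) hQ
    let f1 : Fr ν ℤ_[l] := ⟨P0, Q0, Matrix.map_injective toOm_inj (by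
        change Matrix.map _ _ = Matrix.map _ _
        rw [Matrix.map_mul, eP, eQ, Matrix.map_one _ (map_zero _) (map_one _)]
        exact (f₀.map j).pq), Matrix.map_injective toOm_inj (by
        change Matrix.map _ _ = Matrix.map _ _
        rw [Matrix.map_mul, eP, eQ, Matrix.map_one _ (map_zero _) (map_one _)]
        exact (f₀.map j).qp)⟩
    refine ⟨_, _, f1.conj B, fun _ => ⟨hT, fun _ => ⟨fun ι x => ?_, ?_⟩⟩⟩
    · obtain ⟨e, he⟩ := equiv_of_inj hF hT.inj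
      obtain ⟨i, rfl⟩ := e.surjective ι
      rw [he]
      exact hQp _ (h1 i x)
    · simp only [Fr.conj, Fr.map, Fr.mk.injEq, Matrix.map_mul, f1, eP, eQ]
      exact ⟨rfl, rfl⟩
  choose ι f fz h using key
  classical
  refine ⟨⟨ι, f,
    fun l => if hl : l.Prime then haveI := Fact.mk hl; (fz l).Q.map PadicInt.toZMod else 0,
    fun l => if hl : l.Prime then haveI := Fact.mk hl; (fz l).P.map PadicInt.toZMod else 0,
    fun l _ hl => (h l hl).1, fun l hp hl hS => ⟨NT.Spl.modEq hp.out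
      (fun hd => by have := Nat.le_of_dvd (by norm_num) hd; omega) hζ hS, ((h l hl).2 hS).1, fz l,
      ((h l hl).2 hS).2, dif_pos hp.out, dif_pos hp.out⟩⟩⟩

end M4.CM
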