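import Pool.Agent.Lib.MP_33b3f9_ag.M4.CmEmb
import Pool.Agent.Lib.MP_33b3f9_ag.M4.CBSplit

/-!
Block B3a: the tensor structure modulo l.
-/

set_option autoImplicit false

noncomputable section

namespace M4.CM

open Matrix Polynomial NumberField Pool.Agent.M4.Mx

variable {K : IntermediateField ℚ ℂ} {r : Rep K} {F : Type} [Field F] {l : ℕ} [Fact l.Prime]

/-- All `θ` fix the embeddings, so they fix the `h i`. -/
theorem Ten.ex_z {ι : Fin 3 → F →+* Om l} {fz : Fr ν ℤ_[l]} (h : Ten r l ι (fz.map (toOm l)))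
    (hr : ∀ (j : F →+* Om l) x, j x ∈ NT.Qp l) (σ : ℂ ≃ₐ[K] ℂ) :
    ∃ hz : Fin 3 → M2 ℤ_[l], (r l σ : Matrix ν ν ℤ_[l]) = fz.T hz := by
  obtain ⟨z, g, h1, h2, h3⟩ := h.ex σ
  choose g0 hg0 using fun i => exists_mat (A := g i) (fun a b => (mem_Qp_iff _).2 fun θ =>
    congrFun (congrFun (h3 θ i i fun x => (mem_Qp_iff _).1 (hr _ x) θ) a) b) (h1 i)
  let c : Fin 3 → ℤ_[l] := Function.update 1 0 z
  refine ⟨fun i => c i • g0 i, ?_⟩
  have e : ∏ i, c i = z := by simp [c, Fin.prod_univ_three]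
  rw [Fr.T_smul, e]
  refine Matrix.map_injective toOm_inj ?_
  change Matrix.map _ _ = Matrix.map _ _
  rw [← ro_eq, h2, Matrix.map_smul' _ _ _ (map_mul _), Fr.map_T]
  simp only [hg0]

theorem Ten.ts {ι : Fin 3 → F →+* Om l} {fz : Fr ν ℤ_[l]} (h : Ten r l ι (fz.map (toOm l)))
    (hr : ∀ (j : F →+* Om l) x, j x ∈ NT.Qp l) (hs : Sepr F l) :
    TS r l (fz.Q.map PadicInt.toZMod) (fz.P.map PadicInt.toZMod) := by
  refine ⟨(fz.map PadicInt.toZMod).qp, (fz.map PadicInt.toZMod).pq, fun σ => ?_, fun i u hu => ?_⟩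
  · obtain ⟨hz, e⟩ := h.ex_z hr σ
    exact ⟨_, by rw [rb, e, Fr.map_T]; exact (fz.map PadicInt.toZMod).QTP _⟩
  · choose φ hφ using fun i => exists_red (ι i) (hr _)
    obtain ⟨θ, hθ⟩ := hs
    obtain ⟨g, hg, e⟩ := CB.sl2_lift (fun i => PadicInt.toZMod.comp (φ i)) (fun a b hab =>
      ⟨θ, fun h1 => by
        rw [RingHom.comp_apply, RingHom.comp_apply, ← sub_eq_zero, ← map_sub, toZMod_eq_zero_iff,
          map_sub, hφ, hφ, hθ _ _ (h.inj.ne hab)] at h1
        exact lt_irrefl _ h1⟩) i u hu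
    obtain ⟨σ, hσ⟩ := h.big g hg
    refine ⟨σ, ?_⟩
    have e2 : rb r l σ = (fz.T fun i => g.map (φ i)).map PadicInt.toZMod := by
      ext a b
      rw [rb, Matrix.map_apply, Matrix.map_apply, ← sub_eq_zero, ← map_sub, toZMod_eq_zero_iff,
        map_sub]
      have e3 : (fun i => g.map fun x : 𝓞 F => ι i x) = fun i => (g.map (φ i)).map (toOm l) := by
        funext i
        ext a b
        exact (hφ i _).symm
      have h4 := hσ a b
      rwa [e3, ← Fr.map_T, ro_eq] at h4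
    rw [e2, Fr.map_T, ← e]
    exact (fz.map PadicInt.toZMod).QTP _

end M4.CM
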