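import Pool.Agent.Lib.MP_33b3f9_ag.M4.CmDq
import Pool.Agent.Lib.MP_33b3f9_ag.M4.CmCubeA
import Pool.Agent.Lib.MP_33b3f9_ag.M4.CmTrans
import Pool.Agent.Lib.MP_33b3f9_ag.M4.NTFrobC

/-!
Block B3a: an element with distinct eigenvalues.
-/

set_option autoImplicit false

noncomputable section

namespace M4.CM

open Matrix Polynomial NumberField Pool.Agent.M4.Mx

/-- Real numbers `x i > 2` that are distinct, `μ i > 1` with `μ i + 1 / μ i = x i`, so
`x i - 1 < μ i < x i`. If `x i < (x j - 1) * (x k - 1)` for all `i, j, k` the eight products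
`∏ μ i ^ (± 1)` are distinct positive numbers. -/
theorem real_cube (μ : Fin 3 → ℝ) (h1 : ∀ i, 1 < μ i) (h2 : Function.Injective μ)
    (h3 : ∀ i j k, μ i < μ j * μ k) :
    Function.Injective fun ε : κ => (∏ i, if ε i = 0 then μ i else (μ i)⁻¹) ^ 2 := by
  have h0 : ∀ i, 0 < μ i := fun i => one_pos.trans (h1 i)
  have hL : ∀ i, 0 < Real.log (μ i) := fun i => Real.log_pos (h1 i)
  have hT : ∀ i j k, Real.log (μ i) < Real.log (μ j) + Real.log (μ k) := fun i j k => by
    rw [← Real.log_mul (h0 j).ne' (h0 k).ne']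
    exact Real.log_lt_log (h0 i) (h3 i j k)
  have hN : ∀ i j, i ≠ j → Real.log (μ i) ≠ Real.log (μ j) := fun i j hij h =>
    hij (h2 (Real.log_injOn_pos (h0 i) (h0 j) h))
  have key : ∀ ε : κ, (∏ i, if ε i = 0 then μ i else (μ i)⁻¹) =
      Real.exp (∑ i, if ε i = 0 then Real.log (μ i) else -Real.log (μ i)) := fun ε => by
    rw [Real.exp_sum]
    refine Finset.prod_congr rfl fun i _ => ?_
    split_ifs
    · exact (Real.exp_log (h0 i)).symm
    · rw [Real.exp_neg, Real.exp_log (h0 i)]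
  intro ε ε' h
  simp only [key] at h
  have h4 := Real.exp_injective
    ((pow_left_inj₀ (Real.exp_pos _).le (Real.exp_pos _).le two_ne_zero).1 h)
  simp only [Fin.sum_univ_three] at h4
  have a0 := hL 0
  have a1 := hL 1
  have a2 := hL 2
  have b0 := hT 0 1 2
  have b1 := hT 1 0 2
  have b2 := hT 2 0 1
  have c0 := hN 0 1 (by decide)
  have c1 := hN 0 2 (by decide)
  have c2 := hN 1 2 (by decide)
  have e : ∀ x y : Fin 2, (x = 0 ↔ y = 0) → x = y := by decide
  suffices hs : (ε 0 = 0 ↔ ε' 0 = 0) ∧ (ε 1 = 0 ↔ ε' 1 = 0) ∧ (ε 2 = 0 ↔ ε' 2 = 0) by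
    funext i
    fin_cases i
    exacts [e _ _ hs.1, e _ _ hs.2.1, e _ _ hs.2.2]
  split_ifs at h4 <;>
    first
    | (simp only [*, and_self]; done)
    | (exfalso; linarith)
    | exact absurd (by linarith) c0
    | exact absurd (by linarith) c1
    | exact absurd (by linarith) c2

theorem cmtau_root {x : ℝ} (hx : 2 < x) : ∃ μ : ℝ, 1 < μ ∧ μ + μ⁻¹ = x := by
  have h1 : √(x ^ 2 - 4) ^ 2 = x ^ 2 - 4 := Real.sq_sqrt (by nlinarith)
  have h2 := Real.sqrt_nonneg (x ^ 2 - 4)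
  refine ⟨(x + √(x ^ 2 - 4)) / 2, by linarith, ?_⟩
  rw [inv_eq_of_mul_eq_one_right (b := (x - √(x ^ 2 - 4)) / 2) (by nlinarith)]
  ring

theorem cmtau_prim (F : Type) [Field F] [NumberField F] :
    ∃ θ : 𝓞 F, Function.Injective fun ι : F →+* ℂ => ι θ := by
  obtain ⟨α, hα⟩ := Field.exists_primitive_element ℚ F
  have h1 := (Field.primitive_element_iff_algHom_eq_of_eval' ℚ ℂ
    (fun x => IsAlgClosed.splits _) α).1 hα
  have h2 : IsAlgebraic ℤ α :=
    (IsFractionRing.isAlgebraic_iff ℤ ℚ F).2 (Algebra.IsAlgebraic.isAlgebraic α)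
  obtain ⟨d, hd, h3⟩ := h2.exists_integral_multiple
  refine ⟨⟨d • α, h3⟩, fun ι ι' h => ?_⟩
  have h4 : ι (d • α) = ι' (d • α) := h
  rw [map_zsmul, map_zsmul] at h4
  have h5 : ι.toRatAlgHom = ι'.toRatAlgHom := h1 (smul_right_injective ℂ hd h4)
  exact RingHom.ext fun x => DFunLike.congr_fun h5 x

variable (F : Type) [Field F] [NumberField F]

/-- `g = !![x, -1; 1, 0]`, `x = θ + n`, `θ` an integral primitive element, `n` large. The traces of the
powers are `∏ i, ι i (tr (g ^ k)) = N (tr (g ^ k))`, integers that do not depend on `Ω`; `D` is the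
determinant of the matrix of these integers. `D ≠ 0` is seen in `ℂ` (`Dq_ne_iff`, `charpoly_T`,
`sp2_iff`, `real_cube`); a frame over `ℂ` comes from a bijection of the index sets. -/
theorem exists_g [IsTotallyReal F] (hF : Module.finrank ℚ F = 3) :
    ∃ (g : M2 (𝓞 F)) (D : ℤ), g.det = 1 ∧ D ≠ 0 ∧ ∀ (Ω : Type) [Field Ω] [IsAlgClosed Ω]
      [CharZero Ω] (ι : Fin 3 → F →+* Ω), Function.Injective ι → ∀ f : Fr ν Ω,
        Dq (f.T fun i => g.map fun x => ι i x) = D := by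
  have hD : ∀ g : M2 (𝓞 F), ∃ D : ℤ, ∀ (Ω : Type) [Field Ω] [IsAlgClosed Ω]
      [CharZero Ω] (ι : Fin 3 → F →+* Ω), Function.Injective ι → ∀ f : Fr ν Ω,
        Dq (f.T fun i => g.map fun x => ι i x) = D := fun g => by
    refine ⟨(Matrix.of fun i j : Fin 8 =>
      Algebra.norm ℤ (g ^ (2 * ((i : ℕ) + (j : ℕ)))).trace).det, fun Ω _ _ _ ι hι f => ?_⟩
    obtain ⟨e, he⟩ := equiv_of_inj hF hι
    rw [← eq_intCast (Int.castRingHom Ω), RingHom.map_det, Dq]
    congr 1
    ext i j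
    have h1 : ∀ s k, ((g.map fun x => ι s x) ^ k).trace = e s ((g ^ k).trace : 𝓞 F) := fun s k => by
      have h2 := map_pow ((ι s).comp (algebraMap (𝓞 F) F)).mapMatrix g k
      have h3 := AddMonoidHom.map_trace ((ι s).comp (algebraMap (𝓞 F) F)) (g ^ k)
      rw [he]
      exact (congrArg Matrix.trace h2).symm.trans h3.symm
    simp only [of_apply, T_pow, trace_T, h1, RingHom.mapMatrix_apply, map_apply, eq_intCast]
    rw [e.prod_comp fun s : F →+* Ω => s ((g ^ (2 * ((i : ℕ) + (j : ℕ)))).trace : 𝓞 F), prod_emb,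
      ← Algebra.coe_norm_int, Rat.cast_intCast]
  obtain ⟨θ, hθ⟩ := cmtau_prim F
  obtain ⟨e, -⟩ := exists_equiv (Ω := ℂ) hF (Classical.arbitrary _)
  let t : Fin 3 → ℝ := fun i => (IsTotallyReal.complexEmbedding_isReal (e i)).embedding θ
  have ht : ∀ i, (t i : ℂ) = e i θ := fun i => ComplexEmbedding.IsReal.coe_embedding_apply _ _
  have hB : ∀ i, |t i| ≤ ∑ j, |t j| := fun i =>
    Finset.single_le_sum (f := fun j => |t j|) (fun j _ => abs_nonneg _) (Finset.mem_univ i)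
  generalize ∑ j, |t j| = B at hB
  have hB0 : 0 ≤ B := (abs_nonneg _).trans (hB 0)
  obtain ⟨n, hn⟩ := exists_nat_ge (3 * B + 4)
  choose μ hμ1 hμ using fun i => cmtau_root (x := t i + n) (by linarith [(abs_le.1 (hB i)).1])
  have hμ0 : ∀ i, 0 < μ i := fun i => one_pos.trans (hμ1 i)
  have hinj : Function.Injective μ := fun i j h => by
    have h1 : t i = t j := by
      have h2 := hμ i
      rw [h, hμ j] at h2
      linarith
    exact e.injective (hθ (by simp only [← ht, h1]))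
  have h3 : ∀ i j k, μ i < μ j * μ k := fun i j k => by
    have lo : ∀ s, 2 * B + 3 ≤ μ s ∧ n - B - 1 ≤ μ s := fun s => by
      have := inv_le_one_of_one_le₀ (hμ1 s).le
      constructor <;> linarith [hμ s, (abs_le.1 (hB s)).1]
    have up : μ i ≤ n + B := by linarith [hμ i, (abs_le.1 (hB i)).2, inv_pos.2 (hμ0 i)]
    have h4 : (n - B - 1) * (2 * B + 3) ≤ μ j * μ k :=
      mul_le_mul (lo j).2 (lo k).1 (by linarith) (hμ0 j).le
    nlinarith
  obtain ⟨D, hD⟩ := hD !![θ + n, -1; 1, 0]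
  refine ⟨_, D, by simp [det_fin_two], fun h0 => ?_, hD⟩
  let b : ν ≃ κ := Fintype.equivOfCardEq (by simp)
  let f : Fr ν ℂ :=
    { P := (1 : Matrix κ κ ℂ).submatrix b id
      Q := (1 : Matrix κ κ ℂ).submatrix id b
      pq := by
        have h := submatrix_mul_equiv (1 : Matrix κ κ ℂ) 1 b (Equiv.refl κ) b
        rw [Matrix.one_mul, submatrix_one_equiv] at h
        exact h
      qp := by rw [submatrix_mul_equiv, Matrix.one_mul, submatrix_id_id] }
  have h5 := hD ℂ e e.injective f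
  rw [h0, Int.cast_zero] at h5
  refine (Dq_ne_iff _).2 ?_ h5
  rw [charpoly_T f _ (fun i a => ((if a = 0 then μ i else (μ i)⁻¹ : ℝ) : ℂ)) (fun i => ?_)
    (fun i => ?_), sp2_iff]
  · intro ε ε' h
    refine real_cube μ hμ1 hinj h3 ?_
    simp only at h ⊢
    exact_mod_cast h
  · rw [if_pos rfl, if_neg (by decide), ← Complex.ofReal_add, hμ, Complex.ofReal_add, ht]
    simp [trace_fin_two]
  · rw [if_pos rfl, if_neg (by decide), ← Complex.ofReal_mul, mul_inv_cancel₀ (hμ0 i).ne']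
    simp [det_fin_two]

/-- A prime `l > l₁` that does not divide `D`; `Ten.big`, `Dq_near`. -/
theorem exists_sigma [IsTotallyReal F] (hF : Module.finrank ℚ F = 3) {K : IntermediateField ℚ ℂ}
    {r : Rep K} {L : Type} [Field L] {l₁ : ℕ} (S : Sys r F L l₁) :
    ∃ (l : ℕ) (_ : Fact l.Prime) (σ : ℂ ≃ₐ[K] ℂ), ‖Dq (ro r l σ)‖ = 1 := by
  obtain ⟨g, D, hg, hD0, hD⟩ := exists_g F hF
  obtain ⟨l, hl, hp⟩ := Nat.exists_infinite_primes (l₁ + D.natAbs + 1)
  have := Fact.mk hp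
  have T := S.ten l (by omega)
  obtain ⟨σ, hσ⟩ := T.big g hg
  refine ⟨l, this, σ, ?_⟩
  have h0 : ∀ i, Le (g.map fun x => S.ι l i x) 1 := fun i a b => int_le _ _
  have h1 := Dq_near (by rw [ro_eq]; exact le_toOm _) (Le.T T.P_le T.Q_le h0) hσ
  rw [hD _ _ T.inj] at h1
  have h2 : ‖(D : Om l)‖ = 1 := norm_int_eq_one fun h => by
    have := Nat.le_of_dvd (Int.natAbs_pos.2 hD0) (Int.natCast_dvd.1 h)
    omega
  have h3 := IsUltrametricDist.norm_add_eq_max_of_norm_ne_norm (h1.trans_eq h2.symm).ne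
  rw [sub_add_cancel, h2, max_eq_right h1.le] at h3
  exact h3

end M4.CM
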