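import Pool.Agent.Lib.MP_33b3f9_ag.M4.CmPole
import Pool.Agent.Lib.MP_33b3f9_ag.M4.CmOmega
import Pool.Agent.Lib.MP_33b3f9_ag.M4.CmClass
import Pool.Agent.Lib.MP_33b3f9_ag.M4.CmNM
import Pool.Agent.Lib.MP_33b3f9_ag.M4.CmLocal
import Pool.Agent.Lib.MP_33b3f9_ag.M4.CmSys
import Pool.Agent.Lib.MP_33b3f9_ag.M4.CmTS
import Pool.Agent.Lib.MP_33b3f9_ag.M4.CmTau
import Pool.Agent.Lib.MP_33b3f9_ag.M4.CmOpen
import Pool.Agent.Lib.MP_33b3f9_ag.M4.CmPlaces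
import Pool.Agent.Lib.MP_33b3f9_ag.M4.CmGlob
import Pool.Agent.Lib.MP_33b3f9_ag.M4.CmSplit

/-!
Block B3a: the class bound.
-/

set_option autoImplicit false

noncomputable section

namespace M4.CM

open Matrix Polynomial NumberField Pool.Agent.M4.Mx Pool.Agent.M4.Det

theorem main_norm {l l₁ n : ℕ} [Fact l.Prime] (hl : l ≤ l₁) {d : ℝ} (hd : (l : ℝ) ^ (-n : ℤ) ≤ d) :
    ‖((l₁.factorial ^ (n + 5) : ℕ) : Om l)‖ ≤ ‖(32 : Om l)‖ * d := by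
  have hp : l.Prime := Fact.out
  have h0 : (0 : ℝ) < l := by exact_mod_cast hp.pos
  have h1 : (1 : ℝ) ≤ l := by exact_mod_cast hp.one_lt.le
  have a1 : ‖((l₁.factorial : ℕ) : Om l)‖ ≤ (l : ℝ)⁻¹ := by
    obtain ⟨c, hc⟩ := hp.dvd_factorial.2 hl
    rw [hc, Nat.cast_mul, norm_mul, norm_l]
    refine mul_le_of_le_one_right (by positivity) ?_
    exact_mod_cast norm_int_le (l := l) (c : ℤ)
  have a2 : (l : ℝ)⁻¹ ≤ ‖(2 : Om l)‖ := by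
    by_cases h : l = 2
    · have h3 : ((l : ℕ) : Om l) = 2 := (congrArg (Nat.cast : ℕ → Om l) h).trans Nat.cast_ofNat
      rw [← norm_l (l := l), h3]
    · rw [norm_two h]
      exact inv_le_one_of_one_le₀ h1
  calc ‖((l₁.factorial ^ (n + 5) : ℕ) : Om l)‖ = ‖((l₁.factorial : ℕ) : Om l)‖ ^ (n + 5) := by
        rw [Nat.cast_pow, norm_pow]
    _ ≤ ((l : ℝ)⁻¹) ^ (n + 5) := pow_le_pow_left₀ (norm_nonneg _) a1 _
    _ = ((l : ℝ)⁻¹) ^ 5 * (l : ℝ) ^ (-n : ℤ) := by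
        rw [_root_.zpow_neg, zpow_natCast, ← inv_pow, pow_add, mul_comm]
    _ ≤ ‖(2 : Om l)‖ ^ 5 * d :=
        mul_le_mul (pow_le_pow_left₀ (by positivity) a2 _) hd (by positivity) (by positivity)
    _ = _ := by rw [← norm_pow]; norm_num

variable {τ : Mat} {K : IntermediateField ℚ ℂ} {r : Rep K} {F L : Type} [Field F] [NumberField F]
  [Field L] {l₁ : ℕ}

/-- Integral models at the split primes. -/
theorem main_split (S : Sys r F L l₁) {l : ℕ} [Fact l.Prime] (h1 : l₁ < l) (hs : NT.Spl L l)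
    {t : F} {s : ℤ} {h : Fin 3 → M2 (Om l)} {ι : Fin 3 ≃ (F →+* Om l)} (hL : Loc t s (S.f l) h ι)
    (hR : (∀ (j : F →+* Om l) x, j x ∈ NT.Qp l) → ∀ i a b, h i a b ∈ NT.Qp l) :
    (∀ (j : F →+* Om l) x, j x ∈ NT.Qp l) ∧ ∃ (fz : Fr ν ℤ_[l]) (hz : Fin 3 → M2 ℤ_[l]),
      S.f l = fz.map (toOm l) ∧ S.A l = fz.Q.map PadicInt.toZMod ∧
      h = fun i => (hz i).map (toOm l) := by
  obtain ⟨-, hq, fz, hf, hA, -⟩ := S.spl l h1 hs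
  choose hz hhz using fun i => exists_mat (hR hq i) (hL.h_le i)
  exact ⟨hq, fz, hz, hf, hA, funext fun i => (hhz i).symm⟩

theorem main_place (hF : Module.finrank ℚ F = 3) (S : Sys r F L l₁) (h2 : 2 ≤ l₁)
    {C l₃ n : ℕ} {C' : ℝ} (hC1 : 1 ≤ C) (h13 : l₁ ≤ l₃) (hC3 : C ≤ l₃)
    (hC : ∀ (p : ℕ) (t : F) (s Δ : ℤ), NT.Plc p t Δ →
      (p : ℚ) * Algebra.norm ℚ t = (s : ℚ) ^ 2 → ¬ (p : ℤ) ∣ s →
      (∀ (l : ℕ) [Fact l.Prime], l₁ < l → l ≠ p → ∀ ι : F →+* Om l,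
        ∃ x : F, ‖ι t‖ = ‖ι x‖ ^ 2) → ∃ k m, Kap C p t s k m)
    (hs : ∀ (l : ℕ) [Fact l.Prime], l₃ < l → Sepr F l)
    (hcl : ∀ (m : 𝓞 F) (μ : ℝ), Pos m μ → 1 ≤ μ →
      ∃ (h : ℕ) (cl : Pl F → Fin h), (h : ℝ) ≤ C' * μ ^ 2 ∧ ∀ x x' : Pl F,
        x.Ok m (l₁.factorial ^ (n + 5)) → x'.Ok m (l₁.factorial ^ (n + 5)) → cl x = cl x' →
          ∃ a b : F, Rel m x x' (l₁.factorial ^ (n + 5)) a b)
    {p : ℕ} [Fact p.Prime] (hp : 64 ≤ p) (hp1 : l₁ < p)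
    (hv : ∀ (ι : F →+* Om p) (x : F), x ≠ 0 → ∃ n : ℤ, ‖ι x‖ = (p : ℝ) ^ n)
    {e : ℂ ≃+* PadicAlgCl p} {σ : ℂ ≃ₐ[K] ℂ} (hσ : Frob τ r e σ) {P : ℤ[X]} (hW : Weil r p σ P)
    (hP : Sp2 (P.map (Int.castRingHom Qb)))
    (hn : ∀ (l : ℕ) [Fact l.Prime], l ≤ l₁ → (l : ℝ) ^ (-n : ℤ) ≤ ‖Dq (ro r l σ)‖) :
    ∃ (t : F) (Δ : ℤ), NT.Plc p t Δ ∧
      (∀ l : ℕ, l.Prime → l₃ < l → l ≠ p → NT.Spl L l → jacobiSym Δ l = 1 →
        ∃ f w, w ≠ 0 ∧ ∀ σ : ℂ ≃ₐ[K] ℂ, NT.Dec e σ → Stab r σ l (slot (S.A l) f w)) ∧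
      ∃ (h : ℕ) (cl : MZ → ℕ → Fin h), (h : ℝ) ≤ C' * (((C * p : ℕ) : ℝ) ^ (1 / 3 : ℝ)) ^ 2 ∧
        ∀ g M g' M', Good r L l₃ S.A e Δ g M → Good r L l₃ S.A e Δ g' M' →
          cl g M = cl g' M' → SameRed e (th2 (act (zr g) τ)) (th2 (act (zr g') τ)) := by
  obtain ⟨t, s, G, loc⟩ := glob hF S hσ hW hP
  choose hh ιι hL hA hR using loc
  obtain ⟨ι₀, hι₀⟩ := G.pole hp hv
  obtain ⟨Δ, hΔ⟩ := G.plc hι₀
  obtain ⟨k, m, hk⟩ := hC p t s Δ hΔ G.nrm (G.not_dvd hp) fun l _ h1 h3 j => by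
    have := (hL l h1 h3).even ((ιι l h1 h3).symm j)
    rwa [Equiv.apply_symm_apply] at this
  refine ⟨t, Δ, hΔ, fun l hl h3 hlp hsp hj => ?_, ?_⟩
  · have := Fact.mk hl
    have h1 : l₁ < l := h13.trans_lt h3
    have a1 := hL l h1 hlp
    have a2 := hA l h1 hlp
    obtain ⟨-, fz, hz, e1, e2, e3⟩ := main_split S h1 hsp a1 (hR l h1 hlp)
    rw [e1, e3] at a1 a2
    rw [e2]
    exact exists_slot hσ G a1 a2 hΔ.disc hlp (by omega) hj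
  have key : ∀ (g : MZ) (M : ℕ), ∃ x : Pl F, x.M = M ∧ (Good r L l₃ S.A e Δ g M →
      x.Ok m (l₁.factorial ^ (n + 5)) ∧ ∀ (l : ℕ) [Fact l.Prime] (h1 : l₁ < l) (h3 : l ≠ p),
        Fc t k (S.f l) (hh l h1 h3) (ιι l h1 h3) g x) := fun g M => by
    have hl : ∀ (l : ℕ) [Fact l.Prime], ∃ (j : F →+* Om l) (ϖ : Om l),
        Good r L l₃ S.A e Δ g M → l ∣ M → Face m j ϖ ∧ ∀ (h1 : l₁ < l) (h3 : l ≠ p), Unt t k l ∧
          ∃ (i : Fin 3) (w : Om l), w ^ 2 * ιι l h1 h3 i t = ιι l h1 h3 i t - 4 ∧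
            Kil (S.f l) (hh l h1 h3) g i w ∧ j = ιι l h1 h3 i ∧ ϖ = ιι l h1 h3 i k * w := by
      intro l hl
      by_cases hc : Good r L l₃ S.A e Δ g M ∧ l ∣ M
      swap
      · exact ⟨S.ι l 0, 0, fun a b => absurd ⟨a, b⟩ hc⟩
      obtain ⟨h3, hlp, hsp, hj, ⟨i, w, hw, hK⟩, hst⟩ := hc.1.2 l hl.out hc.2
      have h1 : l₁ < l := h13.trans_lt h3
      have a1 := hL l h1 hlp
      have a2 := hA l h1 hlp
      obtain ⟨hq, fz, hz, e1, e2, e3⟩ := main_split S h1 hsp a1 (hR l h1 hlp)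
      obtain ⟨u1, u2⟩ := G.unit_of_jac hΔ.disc hlp hj
      have hu : Unt t k l := ⟨by omega, fun j => ⟨(u2 j).1, (u2 j).2,
        hk.unit l (hC3.trans_lt h3) u1 j⟩⟩
      rw [e1, e3] at a1 a2
      rw [e2] at hK
      obtain ⟨z, z1, z2, z3, z4⟩ := exists_face a1 a2 hu hw hK (hst σ hσ.dec)
      rw [← e1, ← e3] at z4
      refine ⟨ιι l h1 hlp i, ιι l h1 hlp i k * z, fun _ _ => ⟨⟨hq _, ?_, ?_, ?_, hu.1, hs l h3⟩,
        fun _ _ => ⟨hu, i, z, z3, z4, rfl, rfl⟩⟩⟩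
      · obtain ⟨a, ha⟩ := hq (ιι l h1 hlp i) k
        obtain ⟨b, hb⟩ := z1
        exact ⟨a * b, by rw [map_mul, ha, hb]⟩
      · have b1 := congrArg (ιι l h1 hlp i) hk.eq
        rw [map_mul, map_mul, map_pow, map_sub, map_ofNat] at b1
        have b2 : ιι l h1 hlp i t ≠ 0 := (_root_.map_ne_zero _).2 G.ne_zero
        refine mul_right_cancel₀ b2 ?_
        linear_combination (ιι l h1 hlp i k) ^ 2 * z3 + b1
      · rw [norm_mul, (hu.2 _).2.2, z2, mul_one]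
    choose j ϖ hj using hl
    refine ⟨⟨M, j, ϖ⟩, rfl, fun hg => ⟨⟨hg.1.1.1, ?_, fun l _ hl => (hj l hg hl).1⟩,
      fun l _ h1 h3 hl => (hj l hg hl).2 h1 h3⟩⟩
    refine Nat.Coprime.pow_right _ (Nat.coprime_of_dvd fun q hq h1 h3 => ?_)
    have := (hg.2 q hq h1).1
    have := hq.dvd_factorial.1 h3
    omega
  choose X hXM hX using key
  have hμ : (1 : ℝ) ≤ ((C * p : ℕ) : ℝ) ^ (1 / 3 : ℝ) :=
    Real.one_le_rpow (by exact_mod_cast Nat.mul_pos hC1 (by omega)) (by norm_num)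
  obtain ⟨h, cl, hh1, hh2⟩ := hcl m _ hk.pos hμ
  refine ⟨h, fun g M => cl (X g M), hh1, fun g M g' M' hg hg' hc => ?_⟩
  obtain ⟨o1, f1⟩ := hX g M hg
  obtain ⟨o2, f2⟩ := hX g' M' hg'
  obtain ⟨a, b, hr⟩ := hh2 _ _ o1 o2 hc
  obtain ⟨γ, hγ⟩ := G.exists_gamma a (b * k)
  have n1 : ¬ p ∣ M := fun hd => (hg.2 p Fact.out hd).2.1 rfl
  have n2 : ¬ p ∣ M' := fun hd => (hg'.2 p Fact.out hd).2.1 rfl
  have i1 : Iso g (X g M).M := by rw [hXM]; exact hg.1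
  have i2 : Iso g' (X g' M').M := by rw [hXM]; exact hg'.1
  have hcube := G.cube hι₀ hp hk hr (by rwa [hXM]) (by rwa [hXM]) hγ
  rw [hXM, hXM] at hcube
  refine hσ.few P hW (S.ten p hp1).tens γ M M' g g' hcube hg.1 hg'.1 n1 n2 fun l hl hlp => ?_
  by_cases h1 : l₁ < l
  · obtain ⟨W, w1, w2⟩ := local_good G (hL l h1 hlp) hk hr hγ i1 i2 (f1 l h1 hlp) (f2 l h1 hlp)
    rw [← hA l h1 hlp, ← aeval_ro] at w2
    exact desc_good (by omega) hg.1 _ w1 w2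
  · have h3 : l ≤ l₁ := not_lt.1 h1
    have h4 := hn l h3
    have h5 : (0 : ℝ) < l := by exact_mod_cast hl.out.pos
    refine desc_bad hg.1 hg'.1 (fun hd => ?_) _ ?_
    · have := (hg.2 l hl.out hd).1
      omega
    · rw [aeval_ro]
      refine local_bad G (by rw [ro_eq]; exact le_toOm _) (ro_charpoly r hW hlp) hk hr hγ
        (dvd_pow (hl.out.dvd_factorial.2 h3) (by omega)) (fun h0 => ?_) (main_norm h3 h4)
      rw [h0, norm_zero] at h4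
      exact absurd h4 (not_le.2 (zpow_pos h5 _))

omit [Field F] [NumberField F] [Field L] in
/-- The class bound. -/
theorem cb (hred : REDst τ r) (_hmu : MUst r) (h : AV τ K r) (F : Type) [Field F] [NumberField F]
    [NumberField.IsTotallyReal F] (hF : Module.finrank ℚ F = 3)
    (N : Matrix (Fin 2) (Fin 2) F → Matrix ν ν ℚ) (hN : Pool.Agent.M4.IsTensInd N) (l₀ : ℕ)
    (hB : ∀ (l : ℕ) [Fact l.Prime], l₀ < l → Pool.Agent.M4.BigImage N (r l)) : CBst τ r F := by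
  have := h.fin
  obtain ⟨L, _, _, l₁, h2, ⟨S⟩⟩ := exists_sys r F hF N hN l₀ hB
  obtain ⟨l₂, _, σ₂, hσ₂⟩ := exists_sigma F hF S
  obtain ⟨C, hC1, hC⟩ := omega hF l₁
  obtain ⟨lv, hlv⟩ := val_unram F
  obtain ⟨ls, hls⟩ := sepr F
  obtain ⟨n, G, hG, hGp⟩ := places hred (opn h) h2 hσ₂ (max 64 (max l₁ lv))
  obtain ⟨C', hC', hcl⟩ := classes hF (N₀ := l₁.factorial ^ (n + 5))
    (pow_ne_zero _ (Nat.factorial_ne_zero _))
  have key : ∀ p : ℕ, ∃ (t : F) (Δ : ℤ), p ∈ G → NT.Plc p t Δ ∧ ∀ [Fact p.Prime],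
      ∃ e : ℂ ≃+* PadicAlgCl p, IsPlace K e ∧
      (∀ l : ℕ, l.Prime → max l₁ (max C ls) < l → l ≠ p → NT.Spl L l → jacobiSym Δ l = 1 →
        ∃ f w, w ≠ 0 ∧ ∀ σ : ℂ ≃ₐ[K] ℂ, NT.Dec e σ → Stab r σ l (slot (S.A l) f w)) ∧
      ∃ (h : ℕ) (cl : MZ → ℕ → Fin h), (h : ℝ) ≤ C' * C * (p : ℝ) ^ (7 / 10 : ℝ) ∧
        ∀ g M g' M', Good r L (max l₁ (max C ls)) S.A e Δ g M →
          Good r L (max l₁ (max C ls)) S.A e Δ g' M' →
          cl g M = cl g' M' → SameRed e (th2 (act (zr g) τ)) (th2 (act (zr g') τ)) := fun p => by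
    by_cases hp : p ∈ G
    swap
    · exact ⟨0, 0, fun a => absurd a hp⟩
    obtain ⟨h1, _, e, σ, P, he, hσ, hW, hP, hn⟩ := hGp p hp
    simp only [max_lt_iff] at h1
    obtain ⟨t, Δ, a1, a2, h', cl, a3, a4⟩ := main_place hF S h2 hC1 (le_max_left l₁ (max C ls))
      ((le_max_left _ _).trans (le_max_right _ _)) hC
      (fun l _ hl => hls l (((le_max_right _ _).trans (le_max_right _ _)).trans_lt hl)) hcl
      h1.1.le h1.2.1 (hlv p h1.2.2) hσ hW hP hn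
    refine ⟨t, Δ, fun _ => ⟨a1, e, he, a2, h', cl, a3.trans ?_, a4⟩⟩
    have b1 : (1 : ℝ) ≤ C := by exact_mod_cast hC1
    have b2 : (1 : ℝ) ≤ p := by exact_mod_cast (by omega : 1 ≤ p)
    rw [mul_assoc]
    refine mul_le_mul_of_nonneg_left ?_ hC'
    rw [← Real.rpow_natCast, ← Real.rpow_mul (by positivity), Nat.cast_mul,
      Real.mul_rpow (by positivity) (by positivity)]
    refine mul_le_mul ?_ (Real.rpow_le_rpow_of_exponent_le b2 (by norm_num)) (by positivity)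
      (by positivity)
    exact (Real.rpow_le_rpow_of_exponent_le b1 (by norm_num)).trans_eq (Real.rpow_one _)
  choose t Δ ht using key
  refine ⟨L, inferInstance, inferInstance, max l₁ (max C ls), S.A, S.A', G, t, Δ, C' * C,
    fun l _ hl hs => ?_, hG, fun p hp => (ht p hp).1, fun p _ hp => (ht p hp).2⟩
  simp only [max_lt_iff] at hl
  obtain ⟨a1, a2, fz, a3, a4, a5⟩ := S.spl l hl.1 hs
  have a6 := S.ten l hl.1
  rw [a3] at a6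
  rw [a4, a5]
  exact ⟨a1, a6.ts a2 (hls l hl.2.2)⟩

end M4.CM
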