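import Pool.Agent.Lib.MP_33b3f9_ag.M4.ThDefs

/-!
Block B1b: definitions and elementary algebra (no analysis).
-/

set_option autoImplicit false

namespace M4.Kz

open Complex Matrix

variable {ι : Type} [Fintype ι]

/-- The symplectic form over any commutative ring. -/
def Ef {R : Type} [CommRing R] (x y : ι ⊕ ι → R) : R :=
  ∑ i, (x (Sum.inl i) * y (Sum.inr i) - x (Sum.inr i) * y (Sum.inl i))

/-- `h` is a symplectic similitude with multiplier `m`. -/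
def SimR {R : Type} [CommRing R] (h : Matrix (ι ⊕ ι) (ι ⊕ ι) R) (m : R) : Prop :=
  ∀ x y, Ef (h *ᵥ x) (h *ᵥ y) = m * Ef x y

/-- An integral matrix as a real matrix. -/
def mR {κ : Type} (h : Matrix κ κ ℤ) : Matrix κ κ ℝ := h.map (Int.cast : ℤ → ℝ)

/-- An integral matrix modulo `m`. -/
def mZ {κ : Type} (m : ℕ) (h : Matrix κ κ ℤ) : Matrix κ κ (ZMod m) := h.map (Int.cast : ℤ → ZMod m)

/-- An integral vector modulo `m`. -/
def vZ {κ : Type} (m : ℕ) (a : κ → ℤ) : κ → ZMod m := fun i => (a i : ZMod m)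

/-- The integral lift of a vector modulo `m`. -/
def lift {κ : Type} {m : ℕ} (a : κ → ZMod m) : κ → ℤ := fun i => ((a i).val : ℤ)

/-- The vector `a / M`. -/
noncomputable def rq {κ : Type} (M : ℕ) (a : κ → ℤ) : κ → ℝ := (M : ℝ)⁻¹ • rz a

/-- `h = 1` modulo `Q`. -/
def One {κ : Type} [DecidableEq κ] (Q : ℕ) (h : Matrix κ κ ℤ) : Prop :=
  ∀ i j, (Q : ℤ) ∣ (h - 1) i j

/-- The kernel of `h` modulo `m`. -/
def kerM {κ : Type} [Fintype κ] (m : ℕ) (h : Matrix κ κ ℤ) : AddSubgroup (κ → ZMod m) where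
  carrier := {a | mZ m h *ᵥ a = 0}
  zero_mem' := mulVec_zero _
  add_mem' := fun {a b} ha hb => by
    change mZ m h *ᵥ (a + b) = 0
    rw [mulVec_add, show mZ m h *ᵥ a = 0 from ha, show mZ m h *ᵥ b = 0 from hb, add_zero]
  neg_mem' := fun {a} ha => by
    change mZ m h *ᵥ (-a) = 0
    rw [mulVec_neg, show mZ m h *ᵥ a = 0 from ha, neg_zero]

/-- `F` acts on tuples of vectors. -/
def mix {ρ M : Type} [Fintype ρ] [AddCommGroup M] (F : Matrix ρ ρ ℤ) (x : ρ → M) : ρ → M :=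
  fun j => ∑ k, F j k • x k

/-- `σ` acts on the points of level `N` through the integral matrix `r`. -/
def Acts (τ : Matrix ι ι ℂ) (σ : ℂ →+* ℂ) (r : Matrix (ι ⊕ ι) (ι ⊕ ι) ℤ) (N : ℕ) : Prop :=
  ∀ a : ι ⊕ ι → ℤ, ∃ c : ℂ, ∀ k, σ (XX τ k (rq N a)) = c * XX τ k (rq N (r *ᵥ a))

/-- `σ` fixes `i` and the normalised theta constants. -/
def Fixes (τ : Matrix ι ι ℂ) (t : ℂ) (σ : ℂ →+* ℂ) : Prop :=
  σ I = I ∧ ∀ k, σ (XX τ k 0 / t) = XX τ k 0 / t

/-- Lagrangian submodules: equal to their orthogonal. -/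
def Lag {R : Type} [CommRing R] (L : Submodule R (ι ⊕ ι → R)) : Prop :=
  ∀ x, x ∈ L ↔ ∀ y ∈ L, Ef x y = 0

/-- The subgroup modulo `∏ T` with the components `G l`, `l ∈ T`. -/
def glue {κ : Type} (T : Finset ℕ) (G : (l : ℕ) → Submodule (ZMod l) (κ → ZMod l)) :
    Set (κ → ZMod (∏ l ∈ T, l)) := {a | ∀ l ∈ T, vZ l (lift a) ∈ G l}

open Classical in
/-- The Koizumi sums of normalised level four coordinates. -/
noncomputable def YY {ρ : Type} [Fintype ρ] [DecidableEq ρ] (τ : Matrix ι ι ℂ) (t : ℂ)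
    (F : Matrix ρ ρ ℤ) {m : ℕ} [NeZero m] (G : Set (ι ⊕ ι → ZMod m)) (k : ρ → ι ⊕ ι → ℤ) : ℂ :=
  ∑ s : ρ → G, ∏ j, XX τ (mix F k j) (rq m (mix F (fun i => lift (s i).1) j)) / t

/-- An auxiliary characteristic, canonical. -/
noncomputable def eta1 {ρ : Type} [Fintype ρ] [DecidableEq ρ] (τ : Matrix ι ι ℂ) (t : ℂ)
    (F : Matrix ρ ρ ℤ) {m : ℕ} [NeZero m] (G : Set (ι ⊕ ι → ZMod m)) : ι ⊕ ι → ℤ :=
  Classical.epsilon fun η => YY τ t F G (fun _ => η) ≠ 0

/-- The homogeneous coordinates of the point attached to `G`. -/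
noncomputable def yy {ρ : Type} [Fintype ρ] [DecidableEq ρ] (τ : Matrix ι ι ℂ) (t : ℂ)
    (F : Matrix ρ ρ ℤ) (i₀ : ρ) {m : ℕ} [NeZero m] (G : Set (ι ⊕ ι → ZMod m))
    (η : ι ⊕ ι → ℤ) : ℂ :=
  YY τ t F G (Function.update (fun _ => eta1 τ t F G) i₀ η)

/-! ### `ee` -/

theorem ee_add (s t : ℂ) : ee (s + t) = ee s * ee t := by
  unfold ee; rw [← Complex.exp_add]; congr 1; ring

@[simp] theorem ee_zero : ee 0 = 1 := by simp [ee]

theorem ee_ne (t : ℂ) : ee t ≠ 0 := Complex.exp_ne_zero _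

theorem ee_int (n : ℤ) : ee n = 1 := by
  unfold ee
  rw [show 2 * (Real.pi : ℂ) * I * n = n * (2 * Real.pi * I) by ring]
  exact Complex.exp_int_mul_two_pi_mul_I n

theorem ee_congr {s t : ℂ} (n : ℤ) (h : s = t + n) : ee s = ee t := by
  rw [h, ee_add, ee_int, mul_one]

theorem ee_sum {α : Type} (s : Finset α) (f : α → ℂ) : ee (∑ a ∈ s, f a) = ∏ a ∈ s, ee (f a) := by
  unfold ee; rw [Finset.mul_sum, Complex.exp_sum]

theorem ee_pow (t : ℂ) (n : ℕ) : ee t ^ n = ee (n * t) := by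
  unfold ee; rw [← Complex.exp_nat_mul]; congr 1; ring

theorem ee_neg_mul (t : ℂ) : ee (-t) * ee t = 1 := by rw [← ee_add, neg_add_cancel, ee_zero]

theorem ee_eq_one {t : ℂ} (h : ee t = 1) : ∃ n : ℤ, t = n := by
  obtain ⟨n, hn⟩ := Complex.exp_eq_one_iff.1 h
  refine ⟨n, ?_⟩
  have h0 : (2 * Real.pi * I : ℂ) ≠ 0 := Complex.two_pi_I_ne_zero
  exact mul_left_cancel₀ h0 (by rw [hn]; ring)

theorem ee_quarter : ee (1 / 4) = I := by
  unfold ee
  rw [show 2 * (Real.pi : ℂ) * I * (1 / 4) = Real.pi / 2 * I by ring]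
  exact Complex.exp_pi_div_two_mul_I

theorem ee_int_div_four (n : ℤ) : ee (n / 4) = I ^ n := by
  rw [← ee_quarter]; unfold ee; rw [← Complex.exp_int_mul]; congr 1; ring

/-! ### The form -/

section form
variable {R : Type} [CommRing R]

theorem E_eq (x y : ι ⊕ ι → ℝ) : E x y = Ef x y := rfl

theorem Ef_add_left (x y z : ι ⊕ ι → R) : Ef (x + y) z = Ef x z + Ef y z := by
  simp only [Ef, Pi.add_apply, ← Finset.sum_add_distrib]
  exact Finset.sum_congr rfl fun i _ => by ring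

theorem Ef_smul_left (c : R) (x z : ι ⊕ ι → R) : Ef (c • x) z = c * Ef x z := by
  simp only [Ef, Pi.smul_apply, smul_eq_mul, Finset.mul_sum]
  exact Finset.sum_congr rfl fun i _ => by ring

theorem Ef_swap (x y : ι ⊕ ι → R) : Ef x y = -Ef y x := by
  simp only [Ef, ← Finset.sum_neg_distrib]
  exact Finset.sum_congr rfl fun i _ => by ring

@[simp] theorem Ef_self (x : ι ⊕ ι → R) : Ef x x = 0 := by
  simp only [Ef]
  exact Finset.sum_eq_zero fun i _ => by ring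

theorem Ef_add_right (x y z : ι ⊕ ι → R) : Ef x (y + z) = Ef x y + Ef x z := by
  rw [Ef_swap, Ef_add_left, Ef_swap y, Ef_swap z]; ring

theorem Ef_smul_right (c : R) (x z : ι ⊕ ι → R) : Ef x (c • z) = c * Ef x z := by
  rw [Ef_swap, Ef_smul_left, Ef_swap z]; ring

@[simp] theorem Ef_zero_left (x : ι ⊕ ι → R) : Ef 0 x = 0 := by simp [Ef]

@[simp] theorem Ef_zero_right (x : ι ⊕ ι → R) : Ef x 0 = 0 := by simp [Ef]

theorem Ef_neg_left (x y : ι ⊕ ι → R) : Ef (-x) y = -Ef x y := by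
  rw [← neg_one_smul R x, Ef_smul_left]; ring

theorem Ef_neg_right (x y : ι ⊕ ι → R) : Ef x (-y) = -Ef x y := by
  rw [← neg_one_smul R y, Ef_smul_right]; ring

theorem Ef_sub_left (x y z : ι ⊕ ι → R) : Ef (x - y) z = Ef x z - Ef y z := by
  rw [sub_eq_add_neg, Ef_add_left, Ef_neg_left]; ring

theorem Ef_sub_right (x y z : ι ⊕ ι → R) : Ef x (y - z) = Ef x y - Ef x z := by
  rw [sub_eq_add_neg, Ef_add_right, Ef_neg_right]; ring

theorem Ef_zsmul_left (c : ℤ) (x z : ι ⊕ ι → R) : Ef (c • x) z = c * Ef x z := by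
  rw [← Int.cast_smul_eq_zsmul R, Ef_smul_left]

theorem Ef_zsmul_right (c : ℤ) (x z : ι ⊕ ι → R) : Ef x (c • z) = c * Ef x z := by
  rw [← Int.cast_smul_eq_zsmul R, Ef_smul_right]

theorem Ef_sum_left {α : Type} (s : Finset α) (x : α → ι ⊕ ι → R) (z : ι ⊕ ι → R) :
    Ef (∑ a ∈ s, x a) z = ∑ a ∈ s, Ef (x a) z := by
  classical
  induction s using Finset.induction_on with
  | empty => simp
  | insert a s ha ih => rw [Finset.sum_insert ha, Finset.sum_insert ha, Ef_add_left, ih]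

theorem Ef_sum_right {α : Type} (s : Finset α) (x : α → ι ⊕ ι → R) (z : ι ⊕ ι → R) :
    Ef z (∑ a ∈ s, x a) = ∑ a ∈ s, Ef z (x a) := by
  classical
  induction s using Finset.induction_on with
  | empty => simp
  | insert a s ha ih => rw [Finset.sum_insert ha, Finset.sum_insert ha, Ef_add_right, ih]

theorem Ef_map {S : Type} [CommRing S] (f : R →+* S) (x y : ι ⊕ ι → R) :
    Ef (fun i => f (x i)) (fun i => f (y i)) = f (Ef x y) := by
  simp [Ef, map_sum]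

theorem Ef_rz (a b : ι ⊕ ι → ℤ) : Ef (rz a) (rz b) = ((Ef a b : ℤ) : ℝ) :=
  Ef_map (Int.castRingHom ℝ) a b

theorem Ef_vZ (m : ℕ) (a b : ι ⊕ ι → ℤ) : Ef (vZ m a) (vZ m b) = ((Ef a b : ℤ) : ZMod m) :=
  Ef_map (Int.castRingHom (ZMod m)) a b

theorem Ef_eq_J [DecidableEq ι] (x y : ι ⊕ ι → R) : Ef x y = -(x ⬝ᵥ J ι R *ᵥ y) := by
  simp [Ef, J, dotProduct, Fintype.sum_sum_type, fromBlocks_mulVec, neg_mulVec,
    sub_eq_add_neg, Finset.sum_add_distrib, add_comm]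

theorem simR_iff [DecidableEq ι] (h : Matrix (ι ⊕ ι) (ι ⊕ ι) R) (m : R) :
    SimR h m ↔ hᵀ * J ι R * h = m • J ι R := by
  have key : ∀ x y, Ef (h *ᵥ x) (h *ᵥ y) = -(x ⬝ᵥ (hᵀ * J ι R * h) *ᵥ y) := fun x y => by
    rw [Ef_eq_J, ← mulVec_mulVec, ← mulVec_mulVec, dotProduct_mulVec x hᵀ, vecMul_transpose]
  constructor
  · intro H
    ext i j
    have := H (Pi.single i 1) (Pi.single j 1)
    rw [key, Ef_eq_J] at this
    simpa using this
  · intro H x y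
    rw [key, H, Ef_eq_J, smul_mulVec, dotProduct_smul, smul_eq_mul, mul_neg]

theorem SimR.map {S : Type} [CommRing S] (f : R →+* S) {h : Matrix (ι ⊕ ι) (ι ⊕ ι) R} {m : R}
    (H : SimR h m) : SimR (h.map f) (f m) := by
  classical
  rw [simR_iff] at H ⊢
  have := congrArg (fun A => A.map f) H
  simp only [Matrix.map_mul, map_J] at this
  rw [← transpose_map, this]
  ext i j
  rw [← map_J ι f]
  simp only [Matrix.map_apply, Matrix.smul_apply, smul_eq_mul, map_mul]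

theorem SimR.mul {h h' : Matrix (ι ⊕ ι) (ι ⊕ ι) R} {m m' : R} (H : SimR h m) (H' : SimR h' m') :
    SimR (h * h') (m * m') := fun x y => by
  rw [← mulVec_mulVec, ← mulVec_mulVec, H, H', mul_assoc]

theorem SimR.sim {h : Matrix (ι ⊕ ι) (ι ⊕ ι) ℤ} {m : ℤ} (H : SimR h m) : Sim (mR h) m :=
  H.map (Int.castRingHom ℝ)

theorem simR_of_sim {h : Matrix (ι ⊕ ι) (ι ⊕ ι) ℤ} {m : ℤ} (H : Sim (mR h) m) : SimR h m := by
  intro x y
  have h1 : ∀ x : ι ⊕ ι → ℤ, mR h *ᵥ rz x = rz (h *ᵥ x) := fun x => by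
    funext i; simp [mR, rz, mulVec, dotProduct]
  have := H (rz x) (rz y)
  rw [h1, h1, E_eq, E_eq, Ef_rz, Ef_rz] at this
  exact_mod_cast this

/-- The adjoint `h† = - J hᵀ J`. -/
def adj [DecidableEq ι] (h : Matrix (ι ⊕ ι) (ι ⊕ ι) R) : Matrix (ι ⊕ ι) (ι ⊕ ι) R :=
  -(J ι R * hᵀ * J ι R)

theorem SimR.adj_mul [DecidableEq ι] {h : Matrix (ι ⊕ ι) (ι ⊕ ι) R} {m : R} (H : SimR h m) :
    adj h * h = m • (1 : Matrix _ _ R) := by
  rw [simR_iff] at H
  rw [adj, Matrix.neg_mul, Matrix.mul_assoc, Matrix.mul_assoc, ← Matrix.mul_assoc hᵀ, H,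
    Matrix.mul_smul, J_squared, smul_neg, neg_neg]

theorem SimR.mul_adj [DecidableEq ι] [IsDomain R] {h : Matrix (ι ⊕ ι) (ι ⊕ ι) R} {m : R}
    (H : SimR h m) (hm : m ≠ 0) : h * adj h = m • (1 : Matrix _ _ R) := by
  have h1 := H.adj_mul
  have hd : h.det ≠ 0 := fun h0 => by
    have := congrArg det h1
    rw [det_mul, h0, mul_zero, det_smul, det_one, mul_one] at this
    exact pow_ne_zero _ hm this.symm
  have h2 : (h * adj h - m • (1 : Matrix _ _ R)) * h = 0 := by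
    rw [Matrix.sub_mul, Matrix.mul_assoc, h1]; simp
  have h3 := congrArg (· * adjugate h) h2
  simp only [Matrix.mul_assoc, mul_adjugate, Matrix.zero_mul, Matrix.mul_smul, Matrix.mul_one]
    at h3
  exact sub_eq_zero.1 ((smul_eq_zero.1 h3).resolve_left hd)

end form

/-! ### Casts -/

section casts
variable {κ : Type}

theorem rz_add (a b : κ → ℤ) : rz (a + b) = rz a + rz b := by funext i; simp [rz]

theorem rz_sub (a b : κ → ℤ) : rz (a - b) = rz a - rz b := by funext i; simp [rz]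

theorem rz_zsmul (c : ℤ) (a : κ → ℤ) : rz (c • a) = (c : ℝ) • rz a := by funext i; simp [rz]

@[simp] theorem rz_zero : rz (0 : κ → ℤ) = 0 := by funext i; simp [rz]

theorem rq_add (M : ℕ) (a b : κ → ℤ) : rq M (a + b) = rq M a + rq M b := by
  rw [rq, rz_add, smul_add]; rfl

theorem rq_sub (M : ℕ) (a b : κ → ℤ) : rq M (a - b) = rq M a - rq M b := by
  rw [rq, rz_sub, smul_sub]; rfl

@[simp] theorem rq_zero (M : ℕ) : rq M (0 : κ → ℤ) = 0 := by simp [rq]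

theorem rq_smul {M : ℕ} (hM : M ≠ 0) (a : κ → ℤ) : rq M ((M : ℤ) • a) = rz a := by
  rw [rq, rz_zsmul, smul_smul, Int.cast_natCast, inv_mul_cancel₀ (by exact_mod_cast hM), one_smul]

theorem rq_mul {c : ℕ} (hc : c ≠ 0) (M : ℕ) (a : κ → ℤ) :
    rq (c * M) ((c : ℤ) • a) = rq M a := by
  have : (c : ℝ) ≠ 0 := by exact_mod_cast hc
  rw [rq, rq, rz_zsmul, smul_smul]
  congr 1
  push_cast
  rw [mul_inv, mul_right_comm, inv_mul_cancel₀ this, one_mul]

theorem mR_mulVec [Fintype κ] (h : Matrix κ κ ℤ) (a : κ → ℤ) : mR h *ᵥ rz a = rz (h *ᵥ a) := by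
  funext i; simp [mR, rz, mulVec, dotProduct]

theorem mZ_mulVec [Fintype κ] (m : ℕ) (h : Matrix κ κ ℤ) (a : κ → ℤ) :
    mZ m h *ᵥ vZ m a = vZ m (h *ᵥ a) := by
  funext i; simp [mZ, vZ, mulVec, dotProduct]

theorem vZ_lift {m : ℕ} [NeZero m] (a : κ → ZMod m) : vZ m (lift a) = a := by
  funext i; simp [vZ, lift]

theorem vZ_eq_iff (m : ℕ) (a b : κ → ℤ) : vZ m a = vZ m b ↔ ∃ n : κ → ℤ, a = b + (m : ℤ) • n := by
  constructor
  · intro h
    have : ∀ i, ∃ n : ℤ, a i = b i + m * n := fun i => by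
      obtain ⟨n, hn⟩ := (ZMod.intCast_eq_intCast_iff_dvd_sub (b i) (a i) m).1 (congrFun h i).symm
      exact ⟨n, by rw [← hn]; ring⟩
    choose n hn using this
    exact ⟨n, funext fun i => by simp [hn i]⟩
  · rintro ⟨n, rfl⟩
    funext i; simp [vZ]

theorem vZ_add (m : ℕ) (a b : κ → ℤ) : vZ m (a + b) = vZ m a + vZ m b := by funext i; simp [vZ]

theorem vZ_zsmul (m : ℕ) (c : ℤ) (a : κ → ℤ) : vZ m (c • a) = c • vZ m a := by
  funext i; simp [vZ]

theorem One.mulVec [Fintype κ] [DecidableEq κ] {Q : ℕ} {h : Matrix κ κ ℤ} (H : One Q h) :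
    ∃ β : Matrix κ κ ℤ, h = 1 + (Q : ℤ) • β := by
  choose β hβ using H
  refine ⟨Matrix.of β, ?_⟩
  ext i j
  have := hβ i j
  simp only [Matrix.sub_apply] at this
  simp only [Matrix.add_apply, Matrix.smul_apply, of_apply, smul_eq_mul, ← this]
  ring

end casts

end M4.Kz
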