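import Pool.Agent.Lib.MP_33b3f9_ag.M4.CmDefs
import Pool.Agent.Lib.MP_33b3f9_ag.M4.KzDefs

/-!
Block B3a: norms on the algebraic closure of the l-adic numbers.
-/

set_option autoImplicit false

noncomputable section

namespace M4.CM

open Matrix Polynomial NumberField Pool.Agent.M4.Mx

variable {l : ℕ} [Fact l.Prime]

/-- `PadicAlgCl.norm_extends`. -/
theorem norm_toOm (x : ℤ_[l]) : ‖toOm l x‖ = ‖x‖ :=
  PadicAlgCl.norm_extends l (x : ℚ_[l])

theorem toOm_inj : Function.Injective (toOm l) :=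
  (algebraMap ℚ_[l] (Om l)).injective.comp Subtype.val_injective

theorem toOm_mem (x : ℤ_[l]) : toOm l x ∈ NT.Qp l :=
  ⟨(x : ℚ_[l]), rfl⟩

theorem exists_toOm {y : Om l} (h1 : y ∈ NT.Qp l) (h2 : ‖y‖ ≤ 1) : ∃ x, toOm l x = y := by
  obtain ⟨q, rfl⟩ := h1
  exact ⟨⟨q, (PadicAlgCl.norm_extends l q).symm.le.trans h2⟩, rfl⟩

theorem toZMod_eq_zero_iff (x : ℤ_[l]) : PadicInt.toZMod x = 0 ↔ ‖toOm l x‖ < 1 := by
  rw [norm_toOm, ← RingHom.mem_ker, PadicInt.ker_toZMod, IsLocalRing.mem_maximalIdeal,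
    PadicInt.mem_nonunits]

theorem cmnorm_int (n : ℤ) : ‖(n : Om l)‖ = ‖(n : ℚ_[l])‖ := by
  rw [← map_intCast (algebraMap ℚ_[l] (Om l))]
  exact PadicAlgCl.norm_extends l _

theorem norm_int_le (n : ℤ) : ‖(n : Om l)‖ ≤ 1 :=
  (cmnorm_int n).le.trans (Padic.norm_int_le_one n)

theorem norm_int_eq_one {n : ℤ} (h : ¬ (l : ℤ) ∣ n) : ‖(n : Om l)‖ = 1 := by
  refine le_antisymm (norm_int_le n) (not_lt.1 fun h' => h ?_)
  rwa [cmnorm_int, Padic.norm_intCast_lt_one_iff] at h'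

theorem norm_int_lt_one {n : ℤ} (h : (l : ℤ) ∣ n) : ‖(n : Om l)‖ < 1 := by
  rwa [cmnorm_int, Padic.norm_intCast_lt_one_iff]

theorem norm_nat_eq_one {n : ℕ} (h : ¬ l ∣ n) : ‖(n : Om l)‖ = 1 := by
  rw [← Int.cast_natCast]
  exact norm_int_eq_one fun h' => h (Int.natCast_dvd_natCast.1 h')

theorem norm_two (h : l ≠ 2) : ‖(2 : Om l)‖ = 1 := by
  have h1 := norm_nat_eq_one (l := l) (n := 2) fun h' =>
    h ((Nat.prime_dvd_prime_iff_eq Fact.out Nat.prime_two).1 h')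
  rwa [Nat.cast_ofNat] at h1

theorem norm_l : ‖(l : Om l)‖ = (l : ℝ)⁻¹ := by
  rw [← Int.cast_natCast (R := Om l), cmnorm_int, Int.cast_natCast, Padic.norm_p]

theorem norm_sqfree {M : ℕ} (hM : Squarefree M) (h : l ∣ M) : ‖(M : Om l)‖ = (l : ℝ)⁻¹ := by
  obtain ⟨c, rfl⟩ := h
  have hc : ¬ l ∣ c := fun h' =>
    (Fact.out : l.Prime).prime.not_isUnit (hM l (mul_dvd_mul_left l h'))
  rw [Nat.cast_mul, norm_mul, norm_nat_eq_one hc, mul_one, norm_l]

theorem norm_rat (q : ℚ) : ‖(q : Om l)‖ = ‖(q : ℚ_[l])‖ := by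
  rw [← map_ratCast (algebraMap ℚ_[l] (Om l))]
  exact PadicAlgCl.norm_extends l _

/-- A rational number that is integral at all primes: no prime divides the denominator. -/
theorem int_of_norm_le (q : ℚ) (h : ∀ (l : ℕ) [Fact l.Prime], ‖(q : Om l)‖ ≤ 1) :
    ∃ n : ℤ, q = n := by
  refine ⟨q.num, (Rat.coe_int_num_of_den_eq_one ?_).symm⟩
  by_contra hd
  obtain ⟨p, hp, hpd⟩ := Nat.exists_prime_and_dvd hd
  have : Fact p.Prime := ⟨hp⟩
  have h1 := h p
  rw [norm_rat, Padic.norm_rat_le_one_iff_padicValuation_le_one,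
    Rat.padicValuation_le_one_iff] at h1
  exact h1 hpd

theorem le_inv_of_lt {y : Om l} (h1 : y ∈ NT.Qp l) (h2 : ‖y‖ < 1) : ‖y‖ ≤ (l : ℝ)⁻¹ := by
  obtain ⟨q, rfl⟩ := h1
  have h3 : ‖algebraMap ℚ_[l] (Om l) q‖ = ‖q‖ := PadicAlgCl.norm_extends l q
  rw [h3] at h2 ⊢
  simpa using (Padic.norm_le_pow_iff_norm_lt_pow_add_one q (-1)).2 (by simpa using h2)

theorem exists_int_near {y : Om l} (h1 : y ∈ NT.Qp l) (h2 : ‖y‖ ≤ 1) :
    ∃ n : ℤ, ‖y - n‖ < 1 := by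
  obtain ⟨x, rfl⟩ := exists_toOm h1 h2
  refine ⟨x.zmodRepr, ?_⟩
  rw [Int.cast_natCast, ← map_natCast (toOm l), ← map_sub, norm_toOm]
  exact x.norm_sub_zmodRepr_lt_one

/-- `spectralNorm_eq_of_equiv`. -/
theorem norm_aut (θ : Om l ≃ₐ[ℚ_[l]] Om l) (y : Om l) : ‖θ y‖ = ‖y‖ :=
  (spectralNorm_eq_of_equiv θ y).symm

/-- `InfiniteGalois.mem_range_algebraMap_iff_fixed`. -/
theorem mem_Qp_iff (y : Om l) : y ∈ NT.Qp l ↔ ∀ θ : Om l ≃ₐ[ℚ_[l]] Om l, θ y = y :=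
  InfiniteGalois.mem_range_algebraMap_iff_fixed y

/-- `Pool.Agent.M4.Det.integral_le`. -/
theorem le_of_integral {y : Om l} (h : IsIntegral ℤ y) : ‖y‖ ≤ 1 :=
  Pool.Agent.M4.Det.integral_le (w := NormedField.toAbsoluteValue (Om l))
    (PadicAlgCl.isNonarchimedean l) h

theorem int_le {F : Type} [Field F] (ι : F →+* Om l) (x : 𝓞 F) : ‖ι x‖ ≤ 1 :=
  le_of_integral (x.isIntegral_coe.map ι.toIntAlgHom)

/-- If all factors have norm at most one and the product has norm one, all have norm one. -/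
theorem norm_eq_one_of_prod {α : Type} [Fintype α] {x : α → Om l} (h : ∀ i, ‖x i‖ ≤ 1)
    (h1 : ‖∏ i, x i‖ = 1) (i : α) : ‖x i‖ = 1 := by
  classical
  refine le_antisymm (h i) ?_
  rw [← h1, ← Finset.mul_prod_erase _ _ (Finset.mem_univ i), norm_mul, norm_prod]
  exact mul_le_of_le_one_right (norm_nonneg _)
    (Finset.prod_le_one (fun _ _ => norm_nonneg _) fun j _ => h j)

theorem cmnorm_add {x y : Om l} {a : ℝ} (hx : ‖x‖ ≤ a) (hy : ‖y‖ ≤ a) : ‖x + y‖ ≤ a :=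
  (IsUltrametricDist.norm_add_le_max x y).trans (max_le hx hy)

theorem cmnorm_prod {α : Type} (T : Finset α) {x : α → Om l} (h : ∀ i ∈ T, ‖x i‖ ≤ 1) :
    ‖∏ i ∈ T, x i‖ ≤ 1 := by
  rw [norm_prod]
  exact Finset.prod_le_one (fun _ _ => norm_nonneg _) h

theorem norm_prod_sub_one {α : Type} (T : Finset α) {x : α → Om l} {η : ℝ} (h0 : 0 ≤ η)
    (h1 : η ≤ 1) (h : ∀ i ∈ T, ‖x i - 1‖ ≤ η) : ‖∏ i ∈ T, x i - 1‖ ≤ η := by
  classical
  induction T using Finset.induction_on with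
  | empty => simpa using h0
  | insert a T ha ih =>
    have h2 := h a (Finset.mem_insert_self _ _)
    have h3 := ih fun i hi => h i (Finset.mem_insert_of_mem hi)
    have h4 : x a * ∏ i ∈ T, x i - 1 =
        (x a - 1) * (∏ i ∈ T, x i - 1) + ((x a - 1) + (∏ i ∈ T, x i - 1)) := by ring
    rw [Finset.prod_insert ha, h4]
    refine cmnorm_add ?_ (cmnorm_add h2 h3)
    rw [norm_mul]
    exact (mul_le_of_le_one_left (norm_nonneg _) (h2.trans h1)).trans h3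

section mat

variable {m n o : Type}

theorem Le.mono {A : Matrix m n (Om l)} {a b : ℝ} (h : Le A a) (hab : a ≤ b) : Le A b :=
  fun i j => (h i j).trans hab

theorem Le.mul [Fintype n] {A : Matrix m n (Om l)} {B : Matrix n o (Om l)} {a b : ℝ}
    (hA : Le A a) (hB : Le B b) (ha : 0 ≤ a) (hb : 0 ≤ b) : Le (A * B) (a * b) := fun i j => by
  rw [Matrix.mul_apply]
  refine IsUltrametricDist.norm_sum_le_of_forall_le_of_nonneg (mul_nonneg ha hb) fun k _ => ?_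
  rw [norm_mul]
  exact mul_le_mul (hA i k) (hB k j) (norm_nonneg _) ha

theorem Le.mul_one [Fintype n] {A : Matrix m n (Om l)} {B : Matrix n o (Om l)}
    (hA : Le A 1) (hB : Le B 1) : Le (A * B) 1 :=
  (hA.mul hB zero_le_one zero_le_one).mono (one_mul _).le

theorem Le.add {A B : Matrix m n (Om l)} {a : ℝ} (hA : Le A a) (hB : Le B a) : Le (A + B) a :=
  fun i j => cmnorm_add (hA i j) (hB i j)

theorem Le.sub {A B : Matrix m n (Om l)} {a : ℝ} (hA : Le A a) (hB : Le B a) : Le (A - B) a :=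
  fun i j => by
  rw [Matrix.sub_apply, sub_eq_add_neg]
  exact cmnorm_add (hA i j) ((norm_neg _).le.trans (hB i j))

theorem Le.smul {A : Matrix m n (Om l)} {a : ℝ} (hA : Le A a) (c : Om l) :
    Le (c • A) (‖c‖ * a) := fun i j => by
  rw [Matrix.smul_apply, smul_eq_mul, norm_mul]
  exact mul_le_mul_of_nonneg_left (hA i j) (norm_nonneg _)

theorem Le.sum {α : Type} (T : Finset α) {A : α → Matrix m n (Om l)} {a : ℝ} (ha : 0 ≤ a)
    (h : ∀ i ∈ T, Le (A i) a) : Le (∑ i ∈ T, A i) a := fun i j => by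
  rw [Matrix.sum_apply]
  exact IsUltrametricDist.norm_sum_le_of_forall_le_of_nonneg ha fun k hk => h k hk i j

theorem Le.one [DecidableEq n] : Le (1 : Matrix n n (Om l)) 1 := fun i j => by
  rw [Matrix.one_apply]
  split_ifs <;> simp

theorem Le.pow [Fintype n] [DecidableEq n] {A : Matrix n n (Om l)} (h : Le A 1) (k : ℕ) :
    Le (A ^ k) 1 := by
  induction k with
  | zero => simpa using Le.one
  | succ k ih =>
    rw [pow_succ]
    exact ih.mul_one h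

theorem Le.trace [Fintype n] {A : Matrix n n (Om l)} (h : Le A 1) : ‖A.trace‖ ≤ 1 :=
  IsUltrametricDist.norm_sum_le_of_forall_le_of_nonneg zero_le_one fun i _ => h i i

theorem Le.det [Fintype n] [DecidableEq n] {A : Matrix n n (Om l)} (h : Le A 1) :
    ‖A.det‖ ≤ 1 := by
  rw [det_apply']
  refine IsUltrametricDist.norm_sum_le_of_forall_le_of_nonneg zero_le_one fun σ _ => ?_
  rw [norm_mul]
  exact mul_le_one₀ (norm_int_le _) (norm_nonneg _) (cmnorm_prod _ fun i _ => h _ _)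

theorem Le.adjugate [Fintype n] [DecidableEq n] {A : Matrix n n (Om l)} (h : Le A 1) :
    Le A.adjugate 1 := fun i j => by
  rw [adjugate_apply]
  refine Le.det fun a b => ?_
  rw [updateRow_apply]
  split_ifs
  · rw [Pi.single_apply]
    split_ifs <;> simp
  · exact h a b

/-- `A⁻¹ = (det A)⁻¹ • adjugate A`. -/
theorem Le.inv [Fintype n] [DecidableEq n] {A : Matrix n n (Om l)} (h : Le A 1)
    (hd : ‖A.det‖ = 1) : Le A⁻¹ 1 := by
  rw [inv_def, Ring.inverse_eq_inv']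
  exact (h.adjugate.smul _).mono (by rw [norm_inv, hd, inv_one, one_mul])

theorem Le.T {f : Fr ν (Om l)} (hP : Le f.P 1) (hQ : Le f.Q 1) {h : Fin 3 → M2 (Om l)}
    (hh : ∀ i, Le (h i) 1) : Le (f.T h) 1 := by
  have h1 : Le (Pool.Agent.M4.tp h) 1 := fun i j => by
    rw [tp_apply]
    exact cmnorm_prod _ fun s _ => hh s _ _
  rw [Fr.T]
  exact (hP.mul_one h1).mul_one hQ

theorem le_int (g : Matrix m n ℤ) : Le (g.map (Int.cast : ℤ → Om l)) 1 :=
  fun _ _ => norm_int_le _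

theorem le_toOm (g : Matrix m n ℤ_[l]) : Le (g.map (toOm l)) 1 :=
  fun i j => (norm_toOm (g i j)).le.trans (PadicInt.norm_le_one _)

theorem exists_mat {A : Matrix m n (Om l)} (h1 : ∀ i j, A i j ∈ NT.Qp l) (h2 : Le A 1) :
    ∃ B : Matrix m n ℤ_[l], B.map (toOm l) = A := by
  choose B hB using fun i j => exists_toOm (h1 i j) (h2 i j)
  exact ⟨Matrix.of B, Matrix.ext hB⟩

/-- An eigenvalue of an integral matrix: take the largest coordinate of an eigenvector. -/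
theorem Le.root [Fintype n] [DecidableEq n] {A : Matrix n n (Om l)} (h : Le A 1) {z : Om l}
    (hz : A.charpoly.eval z = 0) : ‖z‖ ≤ 1 := by
  rw [eval_charpoly] at hz
  obtain ⟨v, hv, h0⟩ := exists_mulVec_eq_zero_iff.2 hz
  obtain ⟨j, hj⟩ := Function.ne_iff.1 hv
  obtain ⟨i, -, hi⟩ := Finset.exists_max_image Finset.univ (fun i => ‖v i‖) ⟨j, Finset.mem_univ j⟩
  have hpos : 0 < ‖v i‖ := (norm_pos_iff.2 hj).trans_le (hi j (Finset.mem_univ j))
  have h1 : z * v i = ∑ k, A i k * v k := by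
    have h2 := congrFun h0 i
    rw [sub_mulVec, Pi.sub_apply, Pi.zero_apply, sub_eq_zero, scalar_apply, mulVec_diagonal] at h2
    exact h2
  have h2 : ‖z‖ * ‖v i‖ ≤ 1 * ‖v i‖ := by
    rw [← norm_mul, h1]
    refine IsUltrametricDist.norm_sum_le_of_forall_le_of_nonneg (by positivity) fun k _ => ?_
    rw [norm_mul]
    exact mul_le_mul (h i k) (hi k (Finset.mem_univ k)) (norm_nonneg _) zero_le_one
  exact le_of_mul_le_mul_right h2 hpos

end mat

variable {K : IntermediateField ℚ ℂ} (r : Rep K)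

theorem ro_eq (σ : ℂ ≃ₐ[K] ℂ) : ro r l σ = (r l σ : Matrix ν ν ℤ_[l]).map (toOm l) :=
  rfl

theorem ro_pow (σ : ℂ ≃ₐ[K] ℂ) (j : ℕ) : ro r l (σ ^ j) = ro r l σ ^ j := by
  rw [ro_eq, ro_eq, map_pow, Units.val_pow_eq_pow_val]
  exact map_pow (toOm l).mapMatrix _ _

theorem ro_charpoly {p : ℕ} {σ : ℂ ≃ₐ[K] ℂ} {P : ℤ[X]} (h : Weil r p σ P) (hl : l ≠ p) :
    (ro r l σ).charpoly = P.map (Int.castRingHom (Om l)) := by
  rw [ro, charpoly_map, h.char l hl, Polynomial.map_map]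
  congr 1

/-- `det g ^ 2 = M ^ 8` (`M4.Kz.simR_of_sim`, `simR_iff`, or directly). -/
theorem Iso.det_sq {g : MZ} {M : ℕ} (h : Iso g M) : g.det ^ 2 = (M : ℤ) ^ 8 := by
  have h1 := (Kz.simR_iff g (M : ℤ)).1 (Kz.simR_of_sim (by rw [Int.cast_natCast]; exact h.2.2))
  have h2 := congrArg det h1
  rw [det_mul, det_mul, det_transpose, det_smul] at h2
  have h3 : (J (Fin 4) ℤ).det ≠ 0 := (isUnit_det_J (Fin 4) ℤ).ne_zero
  refine mul_right_cancel₀ h3 ?_
  rw [show Fintype.card (Fin 4 ⊕ Fin 4) = 8 from rfl] at h2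
  rw [← h2]
  ring

theorem Iso.norm_det {g : MZ} {M : ℕ} (h : Iso g M) :
    ‖(g.map (Int.cast : ℤ → Om l)).det‖ = ‖(M : Om l)‖ ^ 4 := by
  have h1 : (g.map (Int.cast : ℤ → Om l)).det = (g.det : Om l) := (Int.cast_det g).symm
  have h2 := congrArg (fun n : ℤ => ‖(n : Om l)‖) (Iso.det_sq h)
  simp only [Int.cast_pow, norm_pow, Int.cast_natCast] at h2
  rw [h1, ← pow_left_inj₀ (norm_nonneg _) (by positivity) two_ne_zero, h2, ← pow_mul]

/-- A nonzero integer multiple of `y` is integral. -/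
theorem int_large (y : Qb) : ∃ l₂ : ℕ, ∀ (l : ℕ) [Fact l.Prime], l₂ < l →
    ∀ j : Qb →+* Om l, ‖j y‖ ≤ 1 := by
  have hy : IsAlgebraic ℤ y :=
    (IsFractionRing.isAlgebraic_iff ℤ ℚ Qb).2 ((AlgebraicClosure.isAlgebraic ℚ).isAlgebraic y)
  obtain ⟨n, hn, hi⟩ := hy.exists_integral_multiple
  refine ⟨n.natAbs, fun l _ hl j => ?_⟩
  have h1 := le_of_integral (hi.map j.toIntAlgHom)
  have h2 : ¬ (l : ℤ) ∣ n := fun h =>
    (Nat.le_of_dvd (Int.natAbs_pos.2 hn) (Int.natCast_dvd.1 h)).not_gt hl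
  rwa [map_zsmul, zsmul_eq_mul, norm_mul, norm_int_eq_one h2, one_mul] at h1

/-- `IsAlgClosed.lift` for the algebra structures `s.toAlgebra`, `e.toAlgebra`. -/
theorem exists_j {E Ω : Type} [Field E] [Field Ω] [IsAlgClosed Ω] (s : E →+* Qb) (e : E →+* Ω) :
    ∃ j : Qb →+* Ω, ∀ x, j (s x) = e x := by
  let _ := s.toAlgebra
  let _ := e.toAlgebra
  have : CharZero E := s.charZero
  have : IsScalarTower ℚ E Qb := IsScalarTower.of_algebraMap_eq' (RingHom.ext_rat _ _)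
  have : Algebra.IsAlgebraic ℚ Qb := AlgebraicClosure.isAlgebraic ℚ
  have : Algebra.IsAlgebraic E Qb := Algebra.IsAlgebraic.tower_top (K := ℚ) E
  exact ⟨(IsAlgClosed.lift : Qb →ₐ[E] Ω).toRingHom,
    fun x => (IsAlgClosed.lift : Qb →ₐ[E] Ω).commutes x⟩

end M4.CM
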