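import Pool.Agent.Lib.MP_33b3f9_ag.M4.CmCubeA
import Pool.Agent.Lib.MP_33b3f9_ag.M4.CmNorm

/-!
Block B3a: polynomials in a tensor product.
-/

set_option autoImplicit false

noncomputable section

namespace M4.CM

open Matrix Polynomial NumberField Pool.Agent.M4.Mx

section field

variable {Ω : Type} [Field Ω] [CharZero Ω]

section one

variable {x : M2 Ω} {z : Ω} (ht : x.trace ≠ 0) (h0 : z ≠ 0)
  (hz : z ^ 2 * x.trace ^ 2 = x.trace ^ 2 - 4 * x.det)

include ht hz in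
theorem Zm_sq : Zm x * Zm x = (z ^ 2) • (1 : M2 Ω) := by
  have hz' : z ^ 2 = 1 - 4 * x.det / x.trace ^ 2 := by
    field_simp
    linear_combination hz
  have hc : x * x = x.trace • x - x.det • (1 : M2 Ω) := by
    ext i j
    fin_cases i <;> fin_cases j <;>
      simp [Matrix.mul_apply, Fin.sum_univ_two, trace_fin_two, det_fin_two] <;> ring
  rw [Zm, sub_mul, mul_sub, mul_sub, smul_mul_smul_comm, hc, hz']
  simp only [mul_one, one_mul]
  match_scalars <;> field_simp <;> ring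

theorem Ej_sum : ∑ j, Ej x (sg Ω j * z) = 1 := by
  simp only [Fin.sum_univ_two, Ej, sg, if_true, one_ne_zero, if_false, neg_mul, one_mul, inv_neg]
  match_scalars <;> ring

include ht h0 hz in
theorem Ej_mul (j j' : Fin 2) :
    Ej x (sg Ω j * z) * Ej x (sg Ω j' * z) = if j = j' then Ej x (sg Ω j * z) else 0 := by
  have h := Zm_sq ht hz
  have key : ∀ u v : Ω, Ej x u * Ej x v =
      (1 / 4 : Ω) • ((1 + u⁻¹ * v⁻¹ * z ^ 2) • (1 : M2 Ω) + (u⁻¹ + v⁻¹) • Zm x) := by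
    intro u v
    rw [Ej, Ej, smul_mul_smul_comm, add_mul, mul_add, mul_add, smul_mul_smul_comm, h]
    simp only [mul_one, one_mul]
    match_scalars <;> ring
  rw [key]
  fin_cases j <;> fin_cases j' <;>
    simp only [Ej, sg, Fin.zero_eta, Fin.mk_one, if_true, one_ne_zero, zero_ne_one, if_false,
      neg_mul, one_mul, inv_neg] <;>
    match_scalars <;> field_simp <;> ring

include h0 in
theorem lin_eq (a b : Ω) :
    a • (1 : M2 Ω) + b • Zm x = ∑ j, (a + b * (sg Ω j * z)) • Ej x (sg Ω j * z) := by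
  simp only [Fin.sum_univ_two, Ej, sg, if_true, one_ne_zero, if_false, neg_mul, one_mul, inv_neg]
  match_scalars <;> field_simp <;> ring

include ht h0 hz in
theorem CmOp_comb_Ej (c : Fin 2 → Ω) (k : Fin 2) :
    (∑ j, c j • Ej x (sg Ω j * z)) * Ej x (sg Ω k * z) = c k • Ej x (sg Ω k * z) := by
  rw [Finset.sum_mul, Finset.sum_eq_single k]
  · rw [smul_mul_assoc, Ej_mul ht h0 hz, if_pos rfl]
  · intro j _ hj
    rw [smul_mul_assoc, Ej_mul ht h0 hz, if_neg hj, smul_zero]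
  · simp

include ht h0 hz in
theorem comb_mul (c d : Fin 2 → Ω) :
    (∑ j, c j • Ej x (sg Ω j * z)) * ∑ j, d j • Ej x (sg Ω j * z) =
      ∑ j, (c j * d j) • Ej x (sg Ω j * z) := by
  rw [Finset.mul_sum]
  refine Finset.sum_congr rfl fun k _ => ?_
  rw [mul_smul_comm, CmOp_comb_Ej ht h0 hz, smul_smul, mul_comm]

include ht h0 hz in
theorem comb_det (c : Fin 2 → Ω) : (∑ j, c j • Ej x (sg Ω j * z)).det = c 0 * c 1 := by
  have h1 : Zm x 1 1 = -Zm x 0 0 := by
    have h2 : x.trace = x 0 0 + x 1 1 := trace_fin_two x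
    simp only [Zm, Matrix.sub_apply, Matrix.smul_apply, one_apply_eq, smul_eq_mul]
    field_simp
    linear_combination -2 * h2
  have h2 : Zm x 0 0 * Zm x 0 0 + Zm x 0 1 * Zm x 1 0 = z ^ 2 := by
    have := congrFun (congrFun (Zm_sq ht hz) 0) 0
    simpa [Matrix.mul_apply, Fin.sum_univ_two] using this
  have h3 : ∑ j, c j • Ej x (sg Ω j * z) =
      ((c 0 + c 1) / 2) • (1 : M2 Ω) + ((c 1 - c 0) / (2 * z)) • Zm x := by
    simp only [Fin.sum_univ_two, Ej, sg, if_true, one_ne_zero, if_false, neg_mul, one_mul, inv_neg]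
    match_scalars <;> field_simp <;> ring
  rw [h3, det_fin_two]
  simp only [Matrix.add_apply, Matrix.smul_apply, one_apply_eq, smul_eq_mul, h1,
    one_apply_ne (zero_ne_one' (Fin 2)), one_apply_ne (one_ne_zero' (Fin 2))]
  field_simp
  linear_combination -(c 1 - c 0) ^ 2 * h2

end one

omit [CharZero Ω] in
theorem CmOp_T_sum (f : Fr ν Ω) (E : Fin 3 → Fin 2 → M2 Ω) :
    f.T (fun i => ∑ j, E i j) = ∑ ε : κ, f.T fun i => E i (ε i) := by
  simp only [Fr.T]
  rw [← Matrix.sum_mul, ← Matrix.mul_sum]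
  congr 2
  ext a b
  simp only [tp_apply, Matrix.sum_apply]
  rw [Finset.prod_univ_sum, Fintype.piFinset_univ]

omit [CharZero Ω] in
theorem CmOp_aeval_mul {A e : Matrix ν ν Ω} {c : Ω} (h : A * e = c • e) (γ : Polynomial Ω) :
    aeval A γ * e = γ.eval c • e := by
  have hp : ∀ n : ℕ, A ^ n * e = c ^ n • e := by
    intro n
    induction n with
    | zero => simp
    | succ n ih => rw [pow_succ, mul_assoc, h, mul_smul_comm, ih, smul_smul, pow_succ']
  induction γ using Polynomial.induction_on' with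
  | add p q hp hq => rw [map_add, add_mul, hp, hq, eval_add, add_smul]
  | monomial n a =>
    rw [aeval_monomial, eval_monomial, mul_assoc, hp, ← Algebra.smul_def, smul_smul]

/-- The eight matrices `e ε = f.T fun i => Ej (h i) (sg (ε i) * z i)` have the sum one, and
`f.T h * e ε = π ε • e ε`, so `aeval (f.T h) γ * e ε = γ.eval (π ε) • e ε`; the right hand side acts on
`e ε` by the same scalar. -/
theorem aeval_T (f : Fr ν Ω) (h : Fin 3 → M2 Ω) (z a b : Fin 3 → Ω) (γ : Polynomial Ω)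
    (ht : ∀ i, (h i).trace ≠ 0) (h0 : ∀ i, z i ≠ 0)
    (hz : ∀ i, z i ^ 2 * (h i).trace ^ 2 = (h i).trace ^ 2 - 4 * (h i).det)
    (hγ : ∀ ε : κ, γ.eval ((∏ i, (h i).trace) / 8 * ∏ i, (1 + sg Ω (ε i) * z i)) =
      ∏ i, (a i + b i * (sg Ω (ε i) * z i))) :
    aeval (f.T h) γ = f.T fun i => a i • (1 : M2 Ω) + b i • Zm (h i) := by
  have hs : ∑ ε : κ, f.T (fun i => Ej (h i) (sg Ω (ε i) * z i)) = 1 := by
    rw [← CmOp_T_sum f fun i j => Ej (h i) (sg Ω j * z i), ← f.T_one]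
    congr 1
    funext i
    exact Ej_sum
  have hm : ∀ (a b : Fin 3 → Ω) (ε : κ),
      (f.T fun i => a i • (1 : M2 Ω) + b i • Zm (h i)) *
        f.T (fun i => Ej (h i) (sg Ω (ε i) * z i)) =
      (∏ i, (a i + b i * (sg Ω (ε i) * z i))) • f.T fun i => Ej (h i) (sg Ω (ε i) * z i) := by
    intro a b ε
    rw [f.T_mul, ← f.T_smul]
    congr 1
    funext i
    rw [Pi.mul_apply, lin_eq (h0 i), CmOp_comb_Ej (ht i) (h0 i) (hz i)]
  have hh : h = fun i => ((h i).trace / 2) • (1 : M2 Ω) + ((h i).trace / 2) • Zm (h i) := by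
    funext i
    have := ht i
    rw [Zm]
    match_scalars <;> field_simp <;> ring
  rw [← mul_one (aeval (f.T h) γ), ← mul_one (f.T fun i => a i • (1 : M2 Ω) + b i • Zm (h i)), ← hs,
    Finset.mul_sum, Finset.mul_sum]
  refine Finset.sum_congr rfl fun ε _ => ?_
  have h1 := hm (fun i => (h i).trace / 2) (fun i => (h i).trace / 2) ε
  rw [← hh] at h1
  rw [CmOp_aeval_mul h1, hm, ← hγ]
  congr 2
  simp only [Fin.prod_univ_three]
  ring

end field

variable {l : ℕ} [Fact l.Prime]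

/-- Let `D`, `D'` be the matrices of `ρ`, `ρ'`. `g * D` is integral with unit determinant (`det_T_sq`,
`comb_det`); `W = (g' * D') * f.T (∑ (d ρ / ρ') • Ej) * (g * D)⁻¹`. -/
theorem lattice (f : Fr ν (Om l)) (h : Fin 3 → M2 (Om l)) (z : Fin 3 → Om l) (hP : Le f.P 1)
    (hQ : Le f.Q 1) (ht : ∀ i, (h i).trace ≠ 0) (h0 : ∀ i, z i ≠ 0)
    (hz : ∀ i, z i ^ 2 * (h i).trace ^ 2 = (h i).trace ^ 2 - 4 * (h i).det)
    (hE : ∀ i j, Le (Ej (h i) (sg (Om l) j * z i)) 1) (ρ ρ' d : Fin 3 → Fin 2 → Om l)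
    (g g' : Matrix ν ν (Om l))
    (hg : Le (g * f.T fun i => ∑ j, ρ i j • Ej (h i) (sg (Om l) j * z i)) 1)
    (hdet : ‖g.det‖ * (∏ i, ‖ρ i 0 * ρ i 1‖) ^ 4 = 1)
    (hg' : Le (g' * f.T fun i => ∑ j, ρ' i j • Ej (h i) (sg (Om l) j * z i)) 1)
    (hρ' : ∀ i j, ρ' i j ≠ 0) (hd : ∀ i j, ‖d i j * ρ i j‖ ≤ ‖ρ' i j‖) :
    ∃ W, Le W 1 ∧ (g' * f.T fun i => ∑ j, d i j • Ej (h i) (sg (Om l) j * z i)) = W * g := by
  set D := f.T fun i => ∑ j, ρ i j • Ej (h i) (sg (Om l) j * z i) with hD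
  set D' := f.T fun i => ∑ j, ρ' i j • Ej (h i) (sg (Om l) j * z i) with hD'
  set Y := f.T fun i => ∑ j, (d i j * ρ i j / ρ' i j) • Ej (h i) (sg (Om l) j * z i) with hY
  have hYle : Le Y 1 := by
    refine Le.T hP hQ fun i => Le.sum _ zero_le_one fun j _ => ((hE i j).smul _).mono ?_
    rw [_root_.mul_one, norm_div]
    exact div_le_one_of_le₀ (hd i j) (norm_nonneg _)
  have hDdet : ‖D.det‖ = (∏ i, ‖ρ i 0 * ρ i 1‖) ^ 4 := by
    have h1 := congrArg norm (det_T_sq f fun i => ∑ j, ρ i j • Ej (h i) (sg (Om l) j * z i))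
    rw [norm_pow, norm_pow, norm_prod] at h1
    simp only [fun i => comb_det (ht i) (h0 i) (hz i) (ρ i)] at h1
    refine (pow_left_inj₀ (norm_nonneg _) (by positivity) two_ne_zero).1 ?_
    rw [hD, h1]
    ring
  have hu : ‖(g * D).det‖ = 1 := by rw [det_mul, norm_mul, hDdet, hdet]
  have hu0 : (g * D).det ≠ 0 := fun h => by simp [h] at hu
  have hD0 : D.det ≠ 0 := fun h => hu0 (by rw [det_mul, h, mul_zero])
  refine ⟨g' * D' * Y * (g * D)⁻¹, (hg'.mul_one hYle).mul_one (hg.inv hu), ?_⟩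
  have h2 : (f.T fun i => ∑ j, d i j • Ej (h i) (sg (Om l) j * z i)) * D = D' * Y := by
    rw [hD, hD', hY, f.T_mul, f.T_mul]
    congr 1
    funext i
    rw [Pi.mul_apply, Pi.mul_apply, comb_mul (ht i) (h0 i) (hz i), comb_mul (ht i) (h0 i) (hz i)]
    refine Finset.sum_congr rfl fun j _ => ?_
    rw [mul_div_cancel₀ _ (hρ' i j)]
  have h3 : D * D⁻¹ = 1 := Matrix.mul_nonsing_inv _ hD0.isUnit
  calc (g' * f.T fun i => ∑ j, d i j • Ej (h i) (sg (Om l) j * z i))
      = g' * ((f.T fun i => ∑ j, d i j • Ej (h i) (sg (Om l) j * z i)) * D) * D⁻¹ := by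
        rw [mul_assoc, mul_assoc, h3, _root_.mul_one]
    _ = g' * D' * Y * ((g * D)⁻¹ * (g * D)) * D⁻¹ := by
        rw [h2, Matrix.nonsing_inv_mul _ hu0.isUnit, _root_.mul_one, mul_assoc g' D' Y]
    _ = g' * D' * Y * (g * D)⁻¹ * g * (D * D⁻¹) := by simp only [mul_assoc]
    _ = _ := by rw [h3, _root_.mul_one]

end M4.CM
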