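import Pool.Agent.Lib.MP_33b3f9_ag.M4.CmNorm
import Pool.Agent.Lib.MP_33b3f9_ag.M4.CBTens

/-!
Block B3a: the exact tensor structure.
-/

set_option autoImplicit false

noncomputable section

namespace M4.CM

open Matrix Polynomial NumberField Pool.Agent.M4.Mx

variable {K : IntermediateField ℚ ℂ} {r : Rep K} {F : Type} [Field F]

theorem toOm_eq (l : ℕ) [Fact l.Prime] : toOm l = algebraMap ℤ_[l] (Om l) :=
  RingHom.ext fun x => (CB.algZ x).symm

theorem Ten.tens {l : ℕ} [Fact l.Prime] {ι : Fin 3 → F →+* Om l} {f : Fr ν (Om l)}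
    (h : Ten r l ι f) : TENS r l := by
  refine ⟨f.P, f.Q, h.P_le, h.Q_le, f.pq, f.qp, fun σ => ?_⟩
  obtain ⟨z, g, h1, h2, -⟩ := h.ex σ
  let c : Fin 3 → Om l := Function.update 1 0 (toOm l z)
  refine ⟨fun i => c i • g i, fun i a b => ?_, ?_⟩
  · have : ‖c i‖ ≤ 1 := by
      by_cases hf : i = 0
      · rw [hf]; simp only [c, Function.update_self, norm_toOm]; exact PadicInt.norm_le_one _
      · simp [c, Function.update_of_ne hf]
    change ‖c i * g i a b‖ ≤ 1
    rw [norm_mul]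
    exact mul_le_one₀ this (norm_nonneg _) (h1 i a b)
  · refine h2.trans (Eq.trans ?_ (f.T_smul c g).symm)
    congr 1
    simp [c, Fin.prod_univ_three]

/-- The frame is the given frame, moved by the matrix of `BigImage`. -/
theorem ten_of_big [NumberField F] {N : M2 F → Matrix ν ν ℚ} {s : Fin 3 → F →+* Qb} {f₀ : Fr ν Qb}
    (hs : Function.Injective s)
    (hN : ∀ g, (N g).map (algebraMap ℚ Qb) = f₀.T fun i => g.map (s i)) {l : ℕ} [Fact l.Prime]
    (hB : Pool.Agent.M4.BigImage N (r l)) (j : Qb →+* Om l) (hP : Le (f₀.P.map j) 1)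
    (hQ : Le (f₀.Q.map j) 1) : ∃ B : GL ν ℤ_[l],
      Ten r l (fun i => j.comp (s i))
        ((f₀.map j).conj (Matrix.GeneralLinearGroup.map (toOm l) B)) := by
  obtain ⟨B, h1, h2⟩ := hB
  have fr := CB.frame_of f₀.pq f₀.qp hN B h1 j hP hQ
  rw [← toOm_eq] at fr
  refine ⟨B, fun a b hab => hs (RingHom.ext fun x => j.injective (RingHom.congr_fun hab x)),
    fr.int, fr.int', fun σ => ?_, fun g hg => ?_⟩
  · obtain ⟨z, h, e1, e2, e3⟩ := fr.im σ
    rw [← toOm_eq] at e2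
    exact ⟨z, h, e1, e2, e3⟩
  · obtain ⟨σ, hσ⟩ := h2 g hg
    refine ⟨σ, fun a b => ?_⟩
    let D : Matrix ν ν (Om l) := ((B⁻¹ * r l σ * B : GL ν ℤ_[l]) : Matrix ν ν ℤ_[l]).map (toOm l) -
      (f₀.map j).T fun i => g.map fun x => j.comp (s i) x
    have hD : Le D (l : ℝ)⁻¹ := fun a b => by
      have e : D a b = algebraMap ℚ_[l] (Om l) ((Pool.Agent.M4.toQ (B⁻¹ * r l σ * B) :
          Matrix ν ν ℚ_[l]) a b - (N (g.map (↑)) a b : ℚ_[l])) := by
        rw [map_sub, ← CB.map_N hN j]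
        rfl
      exact le_inv_of_lt ⟨_, e.symm⟩ (by rw [e, CB.norm_algQ]; exact hσ a b)
    have hl : (1 : ℝ) < l := by exact_mod_cast (Fact.out : l.Prime).one_lt
    have h3 := ((le_toOm (B : Matrix ν ν ℤ_[l])).mul hD zero_le_one (by positivity)).mul
      (le_toOm ((B⁻¹ : GL ν ℤ_[l]) : Matrix ν ν ℤ_[l])) (by positivity) zero_le_one a b
    rw [one_mul, mul_one] at h3
    refine lt_of_eq_of_lt ?_ (h3.trans_lt (inv_lt_one_of_one_lt₀ hl))
    congr 1
    refine congrFun (congrFun ?_ a) b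
    rw [Fr.conj_T, Matrix.mul_sub, Matrix.sub_mul, ← Matrix.map_mul, ← Matrix.map_mul,
      ← Units.val_mul, ← Units.val_mul, ro_eq]
    congr 3
    group

end M4.CM
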