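import Pool.Agent.Lib.MP_33b3f9_ag.M4.CmEmb
import Pool.Agent.Lib.MP_33b3f9_ag.M4.NTTypes

/-!
Block B3a: valuations.
-/

set_option autoImplicit false

noncomputable section

namespace M4.CM

open Matrix Polynomial NumberField Pool.Agent.M4.Mx

variable {F : Type} [Field F] [NumberField F] {l : ℕ} [Fact l.Prime]

theorem cmVal_ne (ι : F →+* Om l) : pr ι (int_le ι) ≠ ⊥ := fun h => by
  have h1 := l_mem_pr ι
  rw [h, Ideal.mem_bot] at h1
  exact (Fact.out : l.Prime).ne_zero (by exact_mod_cast h1)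

theorem cmVal_prime (ι : F →+* Om l) : Prime (pr ι (int_le ι)) :=
  Ideal.prime_of_isPrime (cmVal_ne ι) (pr_prime ι)

theorem cmVal_unit (ι : F →+* Om l) {B : Ideal (𝓞 F)} (hB : ¬ pr ι (int_le ι) ∣ B) :
    ∃ v ∈ B, ‖ι v‖ = 1 := by
  obtain ⟨v, hv, h⟩ := SetLike.not_le_iff_exists.1 fun h => hB (Ideal.dvd_iff_le.2 h)
  exact ⟨v, hv, le_antisymm (int_le ι v) (not_lt.1 h)⟩

theorem cmVal_le (ι : F →+* Om l) {a b : 𝓞 F} {A B : Ideal (𝓞 F)}
    (h : Ideal.span {a} * B = Ideal.span {b} * A) (hB : ¬ pr ι (int_le ι) ∣ B) :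
    ‖ι a‖ ≤ ‖ι b‖ := by
  obtain ⟨v, hv, h1⟩ := cmVal_unit ι hB
  have h2 : a * v ∈ Ideal.span {b} := by
    rw [← Ideal.dvd_span_singleton, ← Ideal.span_singleton_mul_span_singleton]
    exact (Dvd.intro _ h.symm).trans (mul_dvd_mul_left _ (Ideal.dvd_span_singleton.2 hv))
  obtain ⟨c, hc⟩ := Ideal.mem_span_singleton'.1 h2
  have h3 : ‖ι c‖ * ‖ι b‖ = ‖ι a‖ * ‖ι v‖ := by
    have h4 : (c : F) * b = a * v := congrArg (fun x : 𝓞 F => (x : F)) hc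
    rw [← norm_mul, ← norm_mul, ← map_mul ι, ← map_mul ι, h4]
  rw [h1, mul_one] at h3
  rw [← h3]
  exact mul_le_of_le_one_left (norm_nonneg _) (int_le ι c)

theorem cmVal_pow (ι : F →+* Om l) {π : 𝓞 F} (h1 : π ∈ pr ι (int_le ι))
    (h2 : π ∉ pr ι (int_le ι) ^ 2) {a : 𝓞 F} (ha : a ≠ 0) :
    ‖ι a‖ = ‖ι π‖ ^ multiplicity (pr ι (int_le ι)) (Ideal.span {a}) := by
  obtain ⟨A, hA, hA'⟩ := (FiniteMultiplicity.of_prime_left (cmVal_prime ι)
    (Ideal.span_singleton_eq_bot.not.2 ha)).exists_eq_pow_mul_and_not_dvd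
  obtain ⟨B, hB⟩ := Ideal.dvd_span_singleton.2 h1
  have hB' : ¬ pr ι (int_le ι) ∣ B := fun h => h2 (Ideal.dvd_span_singleton.1 (by
    rw [hB, pow_two]
    exact mul_dvd_mul_left _ h))
  generalize multiplicity (pr ι (int_le ι)) (Ideal.span {a}) = i at hA ⊢
  have h3 : Ideal.span {a} * B ^ i = Ideal.span {π ^ i} * A := by
    rw [← Ideal.span_singleton_pow, hB, hA]
    ring
  have h4 : ‖ι ((π ^ i : 𝓞 F) : F)‖ = ‖ι π‖ ^ i := by
    rw [← norm_pow, ← map_pow]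
    rfl
  rw [← h4]
  exact le_antisymm (cmVal_le ι h3 fun h => hB' ((cmVal_prime ι).dvd_of_dvd_pow h))
    (cmVal_le ι h3.symm hA')

theorem cmVal_key (ι : F →+* Om l) : ∃ ρ : ℝ, 0 < ρ ∧ ρ < 1 ∧ ∀ a : 𝓞 F, a ≠ 0 →
    ‖ι a‖ = ρ ^ multiplicity (pr ι (int_le ι)) (Ideal.span {a}) := by
  obtain ⟨π, h1, h2⟩ := Ideal.exists_mem_pow_notMem_pow_succ _ (cmVal_ne ι) (pr_prime ι).ne_top 1
  rw [pow_one] at h1
  have h0 : π ≠ 0 := fun h => h2 (h ▸ zero_mem _)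
  exact ⟨‖ι π‖, norm_pos_iff.2 ((map_ne_zero ι).2 (by exact_mod_cast h0)), h1,
    fun a ha => cmVal_pow ι h1 h2 ha⟩

/-- The localisation at `P = pr ι` is a valuation ring: for `a, b ≠ 0` in `𝓞 F` with
`‖ι a‖ = ‖ι b‖` the multiplicities of `P` in `(a)` and `(b)` agree. Write `(a) = P ^ i * A`,
`(b) = P ^ j * B` with `A`, `B` prime to `P`, `i ≤ j`; take `u ∈ A \ P`, then `u * b ∈ (a) * P ^ (j - i)`,
and `‖ι (u * b)‖ < ‖ι a‖` if `i < j`. -/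
theorem mult_eq (ι : F →+* Om l) {a b : 𝓞 F} (ha : a ≠ 0) (hb : b ≠ 0) :
    ‖ι a‖ = ‖ι b‖ ↔ multiplicity (pr ι (int_le ι)) (Ideal.span {a}) =
      multiplicity (pr ι (int_le ι)) (Ideal.span {b}) := by
  obtain ⟨ρ, h0, h1, h⟩ := cmVal_key ι
  rw [h a ha, h b hb]
  exact pow_right_inj₀ h0 h1.ne

/-- For `l` not dividing the discriminant `l ∉ P ^ 2` (`NumberField.not_dvd_discr_iff_forall_mem`,
`Algebra.isUnramifiedAt_iff_map_eq` or `Ideal.ramificationIdx_eq_one_of_isUnramifiedAt`), so `l ^ n`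
has multiplicity `n`; `mult_eq`; write `x` as a quotient of integers. -/
theorem val_unram (F : Type) [Field F] [NumberField F] : ∃ l₀ : ℕ, ∀ (l : ℕ) [Fact l.Prime],
    l₀ < l → ∀ (ι : F →+* Om l) (x : F), x ≠ 0 → ∃ n : ℤ, ‖ι x‖ = (l : ℝ) ^ n := by
  refine ⟨(discr F).natAbs, fun l _ hl ι x hx => ?_⟩
  have hp : l.Prime := Fact.out
  have h2 : (l : 𝓞 F) ∉ pr ι (int_le ι) ^ 2 := fun h => by
    have hm : (Ideal.span {(l : ℤ)}).IsMaximal :=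
      PrincipalIdealRing.isMaximal_of_irreducible (Nat.prime_iff_prime_int.1 hp).irreducible
    have h3 := pow_sub_one_dvd_differentIdeal ℤ (p := Ideal.span {(l : ℤ)}) (pr ι (int_le ι)) 2
      (by simpa using hp.ne_zero) (by
        rw [Ideal.map_span, Set.image_singleton, map_natCast]
        exact Ideal.dvd_span_singleton.2 h)
    have h4 := Ideal.absNorm_dvd_absNorm_of_le (Ideal.dvd_iff_le.1 h3)
    obtain ⟨f, hf, h5⟩ := NT.over_norm hp (pr_prime ι) (l_mem_pr ι)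
    rw [absNorm_differentIdeal F, show 2 - 1 = 1 from rfl, pow_one, h5] at h4
    exact absurd (Nat.le_of_dvd (Int.natAbs_pos.2 (discr_ne_zero F))
      ((dvd_pow_self l (by omega)).trans h4)) (not_le.2 hl)
  have h3 : ‖ι ((l : 𝓞 F) : F)‖ = (l : ℝ)⁻¹ := by
    rw [← norm_l, ← map_natCast ι]
    rfl
  obtain ⟨a, b, hb, rfl⟩ := IsFractionRing.div_surjective (𝓞 F) x
  have ha : a ≠ 0 := fun h => hx (by simp [h])
  have h4 := cmVal_pow ι (l_mem_pr ι) h2 ha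
  have h5 := cmVal_pow ι (l_mem_pr ι) h2 (nonZeroDivisors.ne_zero hb)
  rw [h3] at h4 h5
  refine ⟨(multiplicity (pr ι (int_le ι)) (Ideal.span {b}) : ℤ) -
    multiplicity (pr ι (int_le ι)) (Ideal.span {a}), ?_⟩
  rw [map_div₀, norm_div, zpow_sub₀ (Nat.cast_ne_zero.2 hp.ne_zero), zpow_natCast, zpow_natCast]
  change ‖ι a‖ / ‖ι b‖ = _
  rw [h4, h5, inv_pow, inv_pow, inv_div_inv]

/-- Write `t = t₁ / t₂`, `x = x₁ / x₂`. Then `(t₂) * (a ^ 2 * b) = (t₁) * w` and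
`‖ι (t₁ * x₂ ^ 2)‖ = ‖ι (t₂ * x₁ ^ 2)‖`; compare the multiplicities of `P` modulo two. -/
theorem not_dvd_of_even {w a b : Ideal (𝓞 F)} {t : F} (ht : t ≠ 0) (hb : Squarefree b)
    (hi : ∀ x ∈ w, IsIntegral ℤ ((x : F) * t))
    (hn : ∀ y : 𝓞 F, y ∈ a ^ 2 * b ↔ ∃ x ∈ w, (y : F) = x * t) (ι : F →+* Om l)
    (hw : ¬ pr ι (int_le ι) ∣ w) {x : F} (hx : ‖ι t‖ = ‖ι x‖ ^ 2) : ¬ pr ι (int_le ι) ∣ b := by
  intro hd
  have hP := cmVal_prime ι
  obtain ⟨ρ, h0, h1, h⟩ := cmVal_key ι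
  obtain ⟨u, hu, hu1⟩ := cmVal_unit ι hw
  let y : 𝓞 F := ⟨u * t, hi u hu⟩
  have hy : y ∈ a ^ 2 * b := (hn y).2 ⟨u, hu, rfl⟩
  have hy1 : ‖ι y‖ = ‖ι t‖ := by
    change ‖ι (u * t)‖ = _
    rw [map_mul, norm_mul, hu1, one_mul]
  have ht0 : 0 < ‖ι t‖ := norm_pos_iff.2 ((map_ne_zero ι).2 ht)
  have hy0 : y ≠ 0 := fun e => by simp [e, ← hy1] at ht0
  have hn0 : a ^ 2 * b ≠ 0 := fun e => hy0 (by simpa [e] using hy)
  have hf := FiniteMultiplicity.of_prime_left hP hn0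
  have hm : multiplicity (pr ι (int_le ι)) (a ^ 2 * b)
      = 2 * multiplicity (pr ι (int_le ι)) a + 1 := by
    rw [multiplicity_mul hP hf, (FiniteMultiplicity.of_prime_left hP fun e : a = 0 =>
      hn0 (by simp [e])).multiplicity_pow hP, multiplicity_eq_of_dvd_of_not_dvd (b := b) (k := 1)
      (by rwa [pow_one]) fun e => hP.not_isUnit (hb _ (by rwa [← pow_two]))]
  have hfy := FiniteMultiplicity.of_prime_left hP (Ideal.span_singleton_eq_bot.not.2 hy0)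
  have hmy : multiplicity (pr ι (int_le ι)) (Ideal.span {y})
      = multiplicity (pr ι (int_le ι)) (a ^ 2 * b) := by
    refine le_antisymm ?_ (hfy.le_multiplicity_of_pow_dvd ((pow_multiplicity_dvd _ _).trans
      (Ideal.dvd_span_singleton.2 hy)))
    obtain ⟨z, hz, hz'⟩ := SetLike.not_le_iff_exists.1 fun e =>
      hf.not_pow_dvd_of_multiplicity_lt (Nat.lt_succ_self _) (Ideal.dvd_iff_le.2 e)
    have hz0 : z ≠ 0 := fun e => hz' (e ▸ zero_mem _)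
    obtain ⟨v, -, hv⟩ := (hn z).1 hz
    have h2 : ‖ι z‖ ≤ ‖ι y‖ := by
      rw [hy1, hv, map_mul, norm_mul]
      exact mul_le_of_le_one_left (norm_nonneg _) (int_le ι v)
    rw [h z hz0, h y hy0, pow_le_pow_iff_right_of_lt_one₀ h0 h1] at h2
    refine h2.trans (Nat.lt_succ_iff.1 (lt_of_not_ge fun e => hz' ?_))
    exact Ideal.dvd_span_singleton.1 (pow_dvd_of_le_multiplicity e)
  obtain ⟨x₁, x₂, hx₂, rfl⟩ := IsFractionRing.div_surjective (𝓞 F) x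
  have hx₁ : x₁ ≠ 0 := fun e => by simp [hx, e] at ht0
  have h3 := h x₁ hx₁
  have h4 := h x₂ (nonZeroDivisors.ne_zero hx₂)
  rw [map_div₀, norm_div, ← hy1, h y hy0, hmy, hm] at hx
  change _ = (‖ι x₁‖ / ‖ι x₂‖) ^ 2 at hx
  rw [h3, h4, div_pow, eq_div_iff (by positivity), ← pow_mul, ← pow_mul, ← pow_add,
    pow_right_inj₀ h0 h1.ne] at hx
  omega

/-- Induction on divisibility: if `n` is not squarefree write `n = x * x * n'`. -/
theorem exists_sq_mul (n : Ideal (𝓞 F)) (hn : n ≠ ⊥) :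
    ∃ a b : Ideal (𝓞 F), n = a ^ 2 * b ∧ Squarefree b := by
  refine (wellFounded_dvdNotUnit (α := Ideal (𝓞 F))).induction
    (C := fun n => n ≠ ⊥ → ∃ a b : Ideal (𝓞 F), n = a ^ 2 * b ∧ Squarefree b) n ?_ hn
  intro n ih hn
  by_cases h : Squarefree n
  · exact ⟨1, n, by rw [one_pow, one_mul], h⟩
  simp only [Squarefree, not_forall] at h
  obtain ⟨x, ⟨m, rfl⟩, hx⟩ := h
  have hm : m ≠ 0 := fun e => hn (by simp [e])
  obtain ⟨a, b, rfl, hb⟩ := ih m ⟨hm, x * x, fun e => hx (isUnit_of_mul_isUnit_left e),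
    by ring⟩ hm
  exact ⟨x * a, b, by ring, hb⟩

end M4.CM
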