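import Mathlib

/-!
Counting lemma, part A: a group acting on a graded commutative algebra, the trace trick.
-/

set_option autoImplicit false

namespace Pool.Agent.M4.Cnt

open Pointwise

/-- The orbit of `x` under a subgroup. -/
def orb {G α : Type*} [Group G] [MulAction G α] (Γ : Subgroup G) (x : α) : Set α :=
  {y | ∃ γ ∈ Γ, γ • x = y}

/-- `x` is fixed by the subgroup. -/
def Fix {G α : Type*} [Group G] [MulAction G α] (Γ : Subgroup G) (x : α) : Prop :=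
  ∀ γ ∈ Γ, γ • x = x

section Orb

variable {G α : Type*} [Group G] [MulAction G α] {Γ : Subgroup G}

theorem self_mem_orb (x : α) : x ∈ orb Γ x := ⟨1, Γ.one_mem, one_smul _ _⟩

theorem smul_mem_orb {x y : α} {γ : G} (hγ : γ ∈ Γ) (hy : y ∈ orb Γ x) : γ • y ∈ orb Γ x := by
  obtain ⟨δ, hδ, rfl⟩ := hy
  exact ⟨γ * δ, Γ.mul_mem hγ hδ, mul_smul _ _ _⟩

theorem smul_mem_orb_iff {x y : α} {γ : G} (hγ : γ ∈ Γ) : y ∈ orb Γ x ↔ γ • y ∈ orb Γ x :=
  ⟨smul_mem_orb hγ, fun h => by simpa using smul_mem_orb (Γ.inv_mem hγ) h⟩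

theorem orb_mono {Γ' : Subgroup G} (h : Γ' ≤ Γ) (x : α) : orb Γ' x ⊆ orb Γ x := by
  rintro y ⟨γ, hγ, rfl⟩
  exact ⟨γ, h hγ, rfl⟩

/-- If a subgroup of finite index fixes `x`, the orbit is finite. -/
theorem orb_finite_of_relIndex {H : Subgroup G} (hH : H.relIndex Γ ≠ 0) {x : α} (hx : Fix H x) :
    (orb Γ x).Finite := by
  have : (H.subgroupOf Γ).FiniteIndex := ⟨hH⟩
  refine (Set.finite_range fun c : Γ ⧸ H.subgroupOf Γ => ((Quotient.out c : Γ) : G) • x).subset ?_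
  rintro y ⟨γ, hγ, rfl⟩
  obtain ⟨h, hh⟩ := QuotientGroup.mk_out_eq_mul (H.subgroupOf Γ) (⟨γ, hγ⟩ : Γ)
  refine ⟨QuotientGroup.mk (⟨γ, hγ⟩ : Γ), ?_⟩
  have h2 : ((h : Γ) : G) • x = x := hx _ (Subgroup.mem_subgroupOf.1 h.2)
  simp only [hh, Subgroup.coe_mul, mul_smul, h2]

end Orb

variable {G M : Type*} [Group G] [CommRing M] [MulSemiringAction G M] {Γ : Subgroup G}

theorem fix_sum {x : M} (h : (orb Γ x).Finite) : Fix Γ (∑ y ∈ h.toFinset, y) := by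
  intro γ hγ
  rw [Finset.smul_sum]
  exact Finset.sum_equiv (MulAction.toPerm γ)
    (fun y => by simpa using smul_mem_orb_iff hγ) (fun _ _ => rfl)

theorem fix_prod {x : M} (h : (orb Γ x).Finite) : Fix Γ (∏ y ∈ h.toFinset, y) := by
  intro γ hγ
  rw [Finset.smul_prod']
  exact Finset.prod_equiv (MulAction.toPerm γ)
    (fun y => by simpa using smul_mem_orb_iff hγ) (fun _ _ => rfl)

theorem Fix.mul {x y : M} (hx : Fix Γ x) (hy : Fix Γ y) : Fix Γ (x * y) := fun γ hγ => by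
  rw [smul_mul', hx γ hγ, hy γ hγ]

theorem Fix.pow {x : M} (hx : Fix Γ x) (n : ℕ) : Fix Γ (x ^ n) := fun γ hγ => by
  rw [smul_pow', hx γ hγ]

theorem Fix.add {x y : M} (hx : Fix Γ x) (hy : Fix Γ y) : Fix Γ (x + y) := fun γ hγ => by
  rw [smul_add, hx γ hγ, hy γ hγ]

theorem Fix.mem_smul_iff {x : M} (hx : Fix Γ x) {γ : G} (hγ : γ ∈ Γ) {q : Ideal M} :
    x ∈ γ • q ↔ x ∈ q := by
  rw [Ideal.mem_pointwise_smul_iff_inv_smul_mem, hx _ (Γ.inv_mem hγ)]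

/-- An ideal with a finite orbit is not moved into itself properly. -/
theorem smul_eq_of_le {q : Ideal M} (hq : (orb Γ q).Finite) {γ : G} (hγ : γ ∈ Γ)
    (h : γ • q ≤ q) : γ • q = q := by
  have h1 : ∀ n : ℕ, γ ^ (n + 1) • q ≤ γ • q := by
    intro n
    induction n with
    | zero => simp
    | succ n ih =>
      rw [pow_succ', mul_smul]
      exact Ideal.pointwise_smul_le_pointwise_smul_iff.2 (ih.trans h)
  obtain ⟨n, m, hnm, he⟩ := Set.Finite.exists_lt_map_eq_of_forall_mem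
    (f := fun n : ℕ => γ ^ n • q) (t := orb Γ q) (fun n => ⟨γ ^ n, Γ.pow_mem hγ n, rfl⟩) hq
  obtain ⟨k, rfl⟩ := Nat.exists_eq_add_of_lt hnm
  have he' : γ ^ n • q = γ ^ n • γ ^ (k + 1) • q := by
    rw [← mul_smul, ← pow_add, ← add_assoc]; exact he
  have h2 : q = γ ^ (k + 1) • q := MulAction.injective (γ ^ n) he'
  exact le_antisymm h (h2.le.trans (h1 k))

variable [Algebra ℂ M]

/-- A grading (only the closure properties are used) which the group respects. -/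
structure Gr (G : Type*) [Group G] [MulSemiringAction G M] (W : ℕ → Submodule ℂ M) : Prop where
  one : (1 : M) ∈ W 0
  mul : ∀ {i j : ℕ} {x y : M}, x ∈ W i → y ∈ W j → x * y ∈ W (i + j)
  smul : ∀ (g : G) {k : ℕ} {x : M}, x ∈ W k → g • x ∈ W k

/-- The ideal is spanned by its homogeneous elements. -/
def Homog (W : ℕ → Submodule ℂ M) (q : Ideal M) : Prop :=
  ∀ x ∈ q, x ∈ Submodule.span ℂ {y | y ∈ q ∧ ∃ k, y ∈ W k}

variable {W : ℕ → Submodule ℂ M}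

theorem Gr.prod (hW : Gr G W) {ι : Type*} (s : Finset ι) (k : ι → ℕ) (a : ι → M)
    (h : ∀ i ∈ s, a i ∈ W (k i)) : ∏ i ∈ s, a i ∈ W (∑ i ∈ s, k i) := by
  classical
  induction s using Finset.induction_on with
  | empty => simpa using hW.one
  | insert i s hi ih =>
    rw [Finset.prod_insert hi, Finset.sum_insert hi]
    exact hW.mul (h i (Finset.mem_insert_self _ _))
      (ih fun j hj => h j (Finset.mem_insert_of_mem hj))

theorem Gr.pow (hW : Gr G W) {k : ℕ} {x : M} (hx : x ∈ W k) (n : ℕ) : x ^ n ∈ W (n * k) := by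
  simpa using hW.prod (Finset.range n) (fun _ => k) (fun _ => x) fun _ _ => hx

theorem Homog.exists_notMem {q q' : Ideal M} (h : Homog W q') (hn : ¬ q' ≤ q) :
    ∃ k y, y ∈ W k ∧ y ∈ q' ∧ y ∉ q := by
  by_contra hc
  push Not at hc
  refine hn fun x hx => ?_
  have : Submodule.span ℂ {y | y ∈ q' ∧ ∃ k, y ∈ W k} ≤ q.restrictScalars ℂ :=
    Submodule.span_le.2 fun y ⟨hy, k, hk⟩ => hc k y hk hy
  exact this (h x hx)

variable [SMulCommClass G ℂ M]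

theorem Homog.smul (hW : Gr G W) {q : Ideal M} (h : Homog W q) (g : G) : Homog W (g • q) := by
  intro x hx
  have h1 := h _ (Ideal.mem_pointwise_smul_iff_inv_smul_mem.1 hx)
  have h2 : ∀ z ∈ Submodule.span ℂ {y | y ∈ q ∧ ∃ k, y ∈ W k},
      g • z ∈ Submodule.span ℂ {y | y ∈ g • q ∧ ∃ k, y ∈ W k} := by
    intro z hz
    induction hz using Submodule.span_induction with
    | mem z hz =>
      obtain ⟨hz, k, hk⟩ := hz
      exact Submodule.subset_span ⟨Ideal.smul_mem_pointwise_smul _ _ _ hz, k, hW.smul g hk⟩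
    | zero => simp
    | add a b _ _ ha hb => rw [smul_add]; exact Submodule.add_mem _ ha hb
    | smul c a _ ha => rw [smul_comm]; exact Submodule.smul_mem _ c ha
  simpa using h2 _ h1

/-- The trace trick: one invariant form `h` makes everything that is invariant under the
decomposition group of `q` an invariant form modulo `q`. -/
theorem trace (hW : Gr G W) (hfin : ∀ x : M, (orb Γ x).Finite) (q : Ideal M) [hp : q.IsPrime]
    {Q : Set (Ideal M)} (hQ : Q.Finite) (hQh : ∀ q' ∈ Q, Homog W q') (hq : q ∈ Q)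
    (hQΓ : ∀ γ ∈ Γ, ∀ q' ∈ Q, γ • q' ∈ Q) :
    ∃ e h, h ∈ W e ∧ Fix Γ h ∧ h ∉ q ∧ ∀ k x, x ∈ W k → (∀ γ ∈ Γ, γ • q = q → γ • x - x ∈ q) →
      ∃ T ∈ W (e + k), Fix Γ T ∧ T - h * x ∈ q ∧
        ∀ q' ∈ Q, (∀ γ ∈ Γ, ¬ γ • q' ≤ q) → T ∈ q' := by
  classical
  have hoq : (orb Γ q).Finite := hQ.subset (by rintro _ ⟨γ, hγ, rfl⟩; exact hQΓ γ hγ q hq)
  have h0 : ∀ q' : Ideal M, ∃ k y, y ∈ W k ∧ y ∉ q ∧ (q' ∈ Q → ¬ q' ≤ q → y ∈ q') := by
    intro q'
    by_cases h : q' ∈ Q ∧ ¬ q' ≤ q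
    · obtain ⟨k, y, h1, h2, h3⟩ := (hQh q' h.1).exists_notMem h.2
      exact ⟨k, y, h1, h3, fun _ _ => h2⟩
    · exact ⟨0, 1, hW.one, fun h1 => hp.ne_top ((Ideal.eq_top_iff_one _).2 h1),
        fun h1 h2 => absurd ⟨h1, h2⟩ h⟩
  choose k0 a ha1 ha2 ha3 using h0
  set u : M := ∏ q' ∈ hQ.toFinset, a q' with hu
  have huW : u ∈ W (∑ q' ∈ hQ.toFinset, k0 q') := hW.prod _ _ _ fun q' _ => ha1 q'
  have huq : u ∉ q := fun h => by
    obtain ⟨q', _, h'⟩ := Ideal.IsPrime.prod_mem_iff.1 h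
    exact ha2 q' h'
  have huQ : ∀ q' ∈ Q, ¬ q' ≤ q → u ∈ q' := fun q' h1 h2 =>
    Ideal.mem_of_dvd _ (Finset.dvd_prod_of_mem a (hQ.mem_toFinset.2 h1)) (ha3 q' h1 h2)
  set D : Subgroup G := Γ ⊓ MulAction.stabilizer G q with hD
  have hDfin : ∀ x : M, (orb D x).Finite := fun x => (hfin x).subset (orb_mono inf_le_left x)
  set u' : M := ∏ y ∈ (hDfin u).toFinset, y with hu'
  obtain ⟨e, hu'W⟩ : ∃ e, u' ∈ W e :=
    ⟨_, hW.prod _ (fun _ => ∑ q' ∈ hQ.toFinset, k0 q') _ fun y hy => by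
      obtain ⟨γ, _, rfl⟩ := (hDfin u).mem_toFinset.1 hy
      exact hW.smul γ huW⟩
  have hu'q : u' ∉ q := fun h => by
    obtain ⟨y, hy, h'⟩ := Ideal.IsPrime.prod_mem_iff.1 h
    obtain ⟨γ, hγ, rfl⟩ := (hDfin u).mem_toFinset.1 hy
    have h2 : γ • q = q := hγ.2
    rw [← h2, Ideal.smul_mem_pointwise_smul_iff] at h'
    exact huq h'
  have huu' : u ∣ u' :=
    Finset.dvd_prod_of_mem (fun y => y) ((hDfin u).mem_toFinset.2 (self_mem_orb u))
  have key : ∀ m z, z ∈ W m → Fix D z → u ∣ z → ∃ T ∈ W m, Fix Γ T ∧ T - z ∈ q ∧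
      ∀ q' ∈ Q, (∀ γ ∈ Γ, ¬ γ • q' ≤ q) → T ∈ q' := by
    intro m z hz hDz huz
    refine ⟨∑ y ∈ (hfin z).toFinset, y, Submodule.sum_mem _ fun y hy => ?_, fix_sum _, ?_, ?_⟩
    · obtain ⟨γ, _, rfl⟩ := (hfin z).mem_toFinset.1 hy
      exact hW.smul γ hz
    · rw [← Finset.add_sum_erase _ _ ((hfin z).mem_toFinset.2 (self_mem_orb z)),
        add_sub_cancel_left]
      refine Ideal.sum_mem _ fun y hy => ?_
      obtain ⟨hy1, hy2⟩ := Finset.mem_erase.1 hy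
      obtain ⟨γ, hγ, rfl⟩ := (hfin z).mem_toFinset.1 hy2
      rw [← Ideal.mem_inv_pointwise_smul_iff]
      refine Ideal.mem_of_dvd _ huz (huQ _ (hQΓ _ (Γ.inv_mem hγ) q hq) fun hle => hy1 ?_)
      have h3 := smul_eq_of_le hoq (Γ.inv_mem hγ) hle
      exact hDz γ ⟨hγ, (MulAction.stabilizer G q).inv_mem_iff.1 h3⟩
    · intro q' hq' hn
      refine Ideal.sum_mem _ fun y hy => ?_
      obtain ⟨γ, hγ, rfl⟩ := (hfin z).mem_toFinset.1 hy
      rw [← Ideal.mem_inv_pointwise_smul_iff]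
      exact Ideal.mem_of_dvd _ huz (huQ _ (hQΓ _ (Γ.inv_mem hγ) q' hq') (hn _ (Γ.inv_mem hγ)))
  obtain ⟨h, hhW, hhΓ, hhq, -⟩ := key e u' hu'W (fix_prod _) huu'
  refine ⟨e, h, hhW, hhΓ, fun hc => hu'q (by simpa using q.sub_mem hc hhq), ?_⟩
  intro k x hx hxD
  set c : ℕ := (hDfin x).toFinset.card with hc
  have hc0 : (c : ℂ) ≠ 0 := Nat.cast_ne_zero.2
    (Finset.card_ne_zero_of_mem ((hDfin x).mem_toFinset.2 (self_mem_orb x)))
  set x' : M := (c : ℂ)⁻¹ • ∑ y ∈ (hDfin x).toFinset, y with hx'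
  have hx'W : x' ∈ W k := Submodule.smul_mem _ _ (Submodule.sum_mem _ fun y hy => by
    obtain ⟨γ, _, rfl⟩ := (hDfin x).mem_toFinset.1 hy
    exact hW.smul γ hx)
  have hx'D : Fix D x' := fun γ hγ => by rw [hx', smul_comm, fix_sum _ γ hγ]
  have hx'q : x' - x ∈ q := by
    have h1 : x' - x = (c : ℂ)⁻¹ • ∑ y ∈ (hDfin x).toFinset, (y - x) := by
      rw [Finset.sum_sub_distrib, Finset.sum_const, ← hc, smul_sub, ← Nat.cast_smul_eq_nsmul ℂ,
        inv_smul_smul₀ hc0]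
    rw [h1]
    refine Submodule.smul_of_tower_mem _ _ (Ideal.sum_mem _ fun y hy => ?_)
    obtain ⟨γ, hγ, rfl⟩ := (hDfin x).mem_toFinset.1 hy
    exact hxD γ hγ.1 hγ.2
  obtain ⟨T, hTW, hTΓ, hTq, hTQ⟩ := key (e + k) (u' * x') (hW.mul hu'W hx'W)
    ((fix_prod _).mul hx'D) (huu'.mul_right _)
  refine ⟨T, hTW, hTΓ, ?_, hTQ⟩
  have h1 : T - h * x = (T - u' * x') + u' * (x' - x) - (h - u') * x := by ring
  rw [h1]
  exact q.sub_mem (q.add_mem hTq (q.mul_mem_left _ hx'q)) (q.mul_mem_right _ hhq)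

end Pool.Agent.M4.Cnt
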