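import Pool.Agent.Lib.MP_33b3f9_ag.M4.CntA

/-!
Counting lemma, part B: a separating ratio, Vandermonde, monomials.
-/

set_option autoImplicit false

namespace Pool.Agent.M4.Cnt

variable {M L ι : Type*} [CommRing M] [Algebra ℂ M] [Field L] [Algebra ℂ L]

/-- One ratio of two forms of the same degree separates all the embeddings. -/
theorem sep (φ : ι → M →ₐ[ℂ] L) (C : Finset ι) (R : ℕ → Submodule ℂ M) (h1 : (1 : M) ∈ R 0)
    (hmul : ∀ {i j : ℕ} {x y : M}, x ∈ R i → y ∈ R j → x * y ∈ R (i + j))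
    (hker : ∀ k, ∀ f ∈ R k, ∀ i ∈ C, ∀ j ∈ C, φ i f = 0 → φ j f = 0)
    (hsep : ∀ i ∈ C, ∀ j ∈ C, i ≠ j →
      ∃ k, ∃ f ∈ R k, ∃ f' ∈ R k, φ i f * φ j f' ≠ φ i f' * φ j f) :
    ∃ k, ∃ f ∈ R k, ∃ f' ∈ R k, (∀ i ∈ C, φ i f' ≠ 0) ∧
      Set.InjOn (fun i => φ i f / φ i f') C := by
  let V : Submodule ℂ (ι → L) :=
    { carrier := {v | ∃ k, ∃ f ∈ R k, ∃ f' ∈ R k, (∀ i ∈ C, φ i f' ≠ 0) ∧
        ∀ i ∈ C, v i = φ i f / φ i f'}
      zero_mem' := ⟨0, 0, (R 0).zero_mem, 1, h1, fun i _ => by simp, fun i _ => by simp⟩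
      add_mem' := by
        rintro v w ⟨k, f, hf, f', hf', h0, hv⟩ ⟨l, g, hg, g', hg', h0', hw⟩
        refine ⟨k + l, f * g' + f' * g, (R _).add_mem (hmul hf hg') (hmul hf' hg), f' * g',
          hmul hf' hg', fun i hi => ?_, fun i hi => ?_⟩
        · rw [map_mul]; exact mul_ne_zero (h0 i hi) (h0' i hi)
        · have a := h0 i hi
          have b := h0' i hi
          rw [Pi.add_apply, hv i hi, hw i hi, map_add, map_mul, map_mul, map_mul]
          field_simp
      smul_mem' := by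
        rintro c v ⟨k, f, hf, f', hf', h0, hv⟩
        refine ⟨k, c • f, (R _).smul_mem c hf, f', hf', h0, fun i hi => ?_⟩
        rw [Pi.smul_apply, hv i hi, map_smul, smul_div_assoc] }
  let U : {p : C × C // p.1 ≠ p.2} → Submodule ℂ V := fun p =>
    LinearMap.ker (((LinearMap.proj (p.1.1 : ι) : (ι → L) →ₗ[ℂ] L) -
      LinearMap.proj (p.1.2 : ι)) ∘ₗ V.subtype)
  have hU : ∀ p, U p ≠ ⊤ := by
    rintro ⟨⟨⟨i, hi⟩, ⟨j, hj⟩⟩, hij⟩ ht
    obtain ⟨k, f, hf, f', hf', hne⟩ := hsep i hi j hj fun h => hij (Subtype.ext h)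
    have h0 : ∀ l ∈ C, φ l f' ≠ 0 := fun l hl h => hne (by
      rw [hker k f' hf' l hl i hi h, hker k f' hf' l hl j hj h, mul_zero, zero_mul])
    have hm : (⟨fun l => φ l f / φ l f', k, f, hf, f', hf', h0, fun _ _ => rfl⟩ : V) ∈
        U ⟨(⟨i, hi⟩, ⟨j, hj⟩), hij⟩ := ht ▸ Submodule.mem_top
    have h2 : φ i f / φ i f' - φ j f / φ j f' = 0 := hm
    rw [sub_eq_zero, div_eq_div_iff (h0 i hi) (h0 j hj)] at h2
    exact hne (h2.trans (mul_comm _ _))
  obtain ⟨⟨v, k, f, hf, f', hf', h0, hv⟩, hx⟩ := Submodule.exists_forall_notMem_of_forall_ne_top U hU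
  refine ⟨k, f, hf, f', hf', h0, fun i hi j hj h => ?_⟩
  by_contra hij
  refine hx ⟨(⟨i, hi⟩, ⟨j, hj⟩), fun h => hij (congrArg Subtype.val h)⟩ ?_
  change v i - v j = 0
  rw [hv i hi, hv j hj]
  exact sub_eq_zero.2 h

theorem exists_rank (C : Finset ι) :
    ∃ s : ι → ℕ, Set.InjOn s C ∧ (∀ j ∈ C, s j < C.card) ∧ ∀ j, s j ≤ C.card := by
  classical
  refine ⟨fun j => if h : j ∈ C then (C.equivFin ⟨j, h⟩ : ℕ) else 0, fun i hi j hj h => ?_,
    fun j hj => ?_, fun j => ?_⟩
  · have hi' : i ∈ C := hi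
    have hj' : j ∈ C := hj
    simp only [dif_pos hi', dif_pos hj'] at h
    exact congrArg Subtype.val (C.equivFin.injective (Fin.ext h))
  · simp only [dif_pos hj]; exact Fin.is_lt _
  · dsimp only
    split_ifs
    · exact (Fin.is_lt _).le
    · exact Nat.zero_le _

omit [Algebra ℂ L] in
/-- Vandermonde. -/
theorem vdm (C : Finset ι) (s : ι → ℕ) (hs : Set.InjOn s C) (hlt : ∀ j ∈ C, s j < C.card)
    (t : ι → L) (ht : Set.InjOn t C) (a : ι → L) (h : ∀ i ∈ C, ∑ j ∈ C, a j * t i ^ s j = 0) :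
    ∀ j ∈ C, a j = 0 := by
  classical
  intro j hj
  set p : Polynomial L := ∑ l ∈ C, Polynomial.monomial (s l) (a l) with hp
  have hp0 : p = 0 := by
    refine Polynomial.eq_zero_of_natDegree_lt_card_of_eval_eq_zero' p (C.image t) ?_ ?_
    · intro x hx
      obtain ⟨i, hi, rfl⟩ := Finset.mem_image.1 hx
      rw [hp, Polynomial.eval_finsetSum]
      simpa using h i hi
    · rw [Finset.card_image_of_injOn ht]
      have hpos : 0 < C.card := Finset.card_pos.2 ⟨j, hj⟩
      refine lt_of_le_of_lt (Polynomial.natDegree_sum_le_of_forall_le (n := C.card - 1) _ _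
        fun l hl => (Polynomial.natDegree_monomial_le _).trans ?_) (by omega)
      have := hlt l hl
      omega
  have h2 : p.coeff (s j) = a j := by
    rw [hp, Polynomial.finsetSum_coeff, Finset.sum_eq_single j]
    · simp
    · intro l hl hlj
      rw [Polynomial.coeff_monomial, if_neg fun h => hlj (hs hl hj h)]
    · intro h; exact absurd hj h
  rw [← h2, hp0, Polynomial.coeff_zero]

/-- Distinct monomials in independent elements are linearly independent. -/
theorem mono_indep {σ A : Type*} [Fintype σ] {F : σ → M} (hF : AlgebraicIndependent ℂ F)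
    (α : A → σ → ℕ) (hα : Function.Injective α) :
    LinearIndependent ℂ fun a => ∏ l, F l ^ α a l := by
  have h1 := ((MvPolynomial.basisMonomials σ ℂ).linearIndependent.comp
    (fun a => Finsupp.equivFunOnFinite.symm (α a))
    (Finsupp.equivFunOnFinite.symm.injective.comp hα)).map'
    (MvPolynomial.aeval F : MvPolynomial σ ℂ →ₐ[ℂ] M).toLinearMap
    (LinearMap.ker_eq_bot.2 hF)
  have h2 : (fun a => ∏ l, F l ^ α a l) = ⇑(MvPolynomial.aeval F).toLinearMap ∘
      ⇑(MvPolynomial.basisMonomials σ ℂ) ∘ fun a => Finsupp.equivFunOnFinite.symm (α a) := by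
    funext a
    simp [MvPolynomial.aeval_monomial, Finsupp.prod_fintype]
  rw [h2]
  exact h1

/-- The exponents of total degree at most `n`. -/
theorem exists_expo (D n : ℕ) : ∃ (A : Type) (_ : Fintype A) (α : A → Fin D → ℕ),
    Function.Injective α ∧ (∀ a, ∑ l, α a l ≤ n) ∧ Fintype.card A = (n + D).choose D := by
  classical
  have hs : ∀ m : Sym (Option (Fin D)) n,
      Multiset.count none m.1 + ∑ l, Multiset.count (some l) m.1 = n := by
    intro m
    rw [← Fintype.sum_option (fun o => Multiset.count o m.1),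
      Multiset.sum_count_eq_card (fun _ _ => Finset.mem_univ _), m.2]
  refine ⟨Sym (Option (Fin D)) n, inferInstance, fun m l => Multiset.count (some l) m.1,
    fun m m' h => ?_, fun m => ?_, ?_⟩
  · refine Subtype.ext (Multiset.ext.2 fun o => ?_)
    cases o with
    | none =>
      have h1 := hs m
      have h2 := hs m'
      have h3 : ∑ l, Multiset.count (some l) m.1 = ∑ l, Multiset.count (some l) m'.1 :=
        Finset.sum_congr rfl fun l _ => congrFun h l
      omega
    | some l => exact congrFun h l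
  · exact (Nat.le_add_left _ _).trans (hs m).le
  · rw [Sym.card_sym_eq_choose, Fintype.card_option, Fintype.card_fin,
      show D + 1 + n - 1 = n + D by omega, Nat.choose_symm_add]

/-- Comparison of two binomial coefficients. -/
theorem num {a b w e D : ℕ} (h : ∀ n, a * (n + D).choose D ≤ b * (w * n + e + D).choose D) :
    a ≤ b * w ^ D := by
  have h1 : ∀ n : ℕ, a * (n + 1) ^ D ≤ b * (w * n + e + D) ^ D := fun n =>
    calc a * (n + 1) ^ D ≤ a * (n + 1).ascFactorial D :=
          Nat.mul_le_mul_left _ (Nat.pow_succ_le_ascFactorial _ _)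
      _ = D.factorial * (a * (n + D).choose D) := by
          rw [Nat.ascFactorial_eq_factorial_mul_choose]; ring
      _ ≤ D.factorial * (b * (w * n + e + D).choose D) := Nat.mul_le_mul_left _ (h n)
      _ = b * (w * n + e + 1).ascFactorial D := by
          rw [Nat.ascFactorial_eq_factorial_mul_choose]; ring
      _ ≤ b * (w * n + e + D) ^ D := Nat.mul_le_mul_left _ (Nat.ascFactorial_le_pow_add _ _)
  have h2 : ∀ n : ℕ, (a : ℝ) ≤ b * (w + (e + D : ℝ) * (1 / ((n : ℝ) + 1))) ^ D := by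
    intro n
    have hn : (0 : ℝ) < (n : ℝ) + 1 := by positivity
    have h3 : (a : ℝ) * ((n : ℝ) + 1) ^ D ≤ b * ((w : ℝ) * n + e + D) ^ D := by exact_mod_cast h1 n
    have h4 : ((w : ℝ) * n + e + D) ^ D ≤
        ((w + (e + D : ℝ) * (1 / ((n : ℝ) + 1))) * ((n : ℝ) + 1)) ^ D := by
      refine pow_le_pow_left₀ (by positivity) ?_ _
      have : (w + (e + D : ℝ) * (1 / ((n : ℝ) + 1))) * ((n : ℝ) + 1) = w * n + w + e + D := by
        field_simp; ring
      rw [this]
      have : (0 : ℝ) ≤ w := by positivity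
      linarith
    rw [mul_pow] at h4
    refine le_of_mul_le_mul_right (h3.trans ?_) (pow_pos hn D)
    rw [mul_assoc]
    exact mul_le_mul_of_nonneg_left h4 (by positivity)
  have h5 : Filter.Tendsto (fun n : ℕ => (b : ℝ) * (w + (e + D : ℝ) * (1 / ((n : ℝ) + 1))) ^ D)
      Filter.atTop (nhds (b * (w + (e + D : ℝ) * 0) ^ D)) :=
    (((tendsto_one_div_add_atTop_nhds_zero_nat.const_mul _).const_add _).pow _).const_mul _
  have h6 := ge_of_tendsto' h5 h2
  rw [mul_zero, add_zero] at h6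
  exact_mod_cast h6

end Pool.Agent.M4.Cnt
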