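import Pool.Agent.Lib.MP_33b3f9_ag.M4.IDefs

/-! The numerical contradiction between the zero estimate and the arithmetic half. -/

set_option autoImplicit false

namespace M4

open Filter

theorem num_choose (k : ℕ) : ((k : ℝ) / 10) ^ 10 ≤ ((k + 10).choose 10 : ℝ) := by
  have h1 : (k + 1) ^ 10 ≤ (k + 1).ascFactorial 10 := Nat.pow_succ_le_ascFactorial _ _
  rw [Nat.ascFactorial_eq_factorial_mul_choose] at h1
  have h2 : k ^ 10 ≤ 10 ^ 10 * (k + 10).choose 10 :=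
    (Nat.pow_le_pow_left (Nat.le_succ k) 10).trans
      (h1.trans (Nat.mul_le_mul_right _ (by decide)))
  rw [div_pow, div_le_iff₀ (by positivity), mul_comm]
  exact_mod_cast h2

theorem num {τ : Mat} (h1 : GEOst τ) (h2 : ARITHst τ) : False := by
  obtain ⟨e, h1⟩ := h1
  obtain ⟨s, hs, δ, hδ, h2⟩ := h2 (200 * e + 1)
  have hs1 : 1 ≤ s := by omega
  have ev1 : ∀ᶠ Y : ℕ in atTop, (Y : ℝ) ^ (2 * s) / 2 ^ Y < 1 :=
    (tendsto_pow_const_div_const_pow_of_one_lt (2 * s) one_lt_two).eventually_lt_const one_pos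
  have hZt : Tendsto (fun Y : ℕ => (Y : ℝ) ^ (1 / 100 : ℝ)) atTop atTop :=
    (tendsto_rpow_atTop (by norm_num)).comp tendsto_natCast_atTop_atTop
  obtain ⟨Y₀, hY₀⟩ := eventually_atTop.1 (ev1.and ((hZt.eventually_ge_atTop 12).and
    (hZt.eventually_gt_atTop ((20 * s + 1) / δ))))
  obtain ⟨Y, hY, Om, _, X, g, M, N, hF, hN, hOm, hX, hH⟩ := h2 Y₀
  obtain ⟨e1, e2, e3⟩ := hY₀ Y hY
  set Z : ℝ := (Y : ℝ) ^ (1 / 100 : ℝ) with hZ
  have hY0 : (0 : ℝ) ≤ Y := Nat.cast_nonneg _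
  have hpow : ∀ (n : ℕ) (x : ℝ), x = n / 100 → (Y : ℝ) ^ x = Z ^ n := by
    intro n x hx
    rw [hZ, ← Real.rpow_natCast, ← Real.rpow_mul hY0, hx]
    congr 1; ring
  have hYZ : (Y : ℝ) = Z ^ 100 := by
    rw [← hpow 100 1 (by norm_num), Real.rpow_one]
  rw [hpow 198 _ (by norm_num)] at hN
  rw [hpow (20 * s) _ (by push_cast; ring), hpow (190 * s) _ (by push_cast; ring)] at hH
  clear_value Z
  have hZ1 : 1 < Z := by linarith
  have hZ0 : 0 < Z := by linarith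
  have hmono : ∀ {a b : ℕ}, a ≤ b → Z ^ a ≤ Z ^ b := fun h => pow_le_pow_right₀ hZ1.le h
  have hone : ∀ a : ℕ, 1 ≤ Z ^ a := fun a => one_le_pow₀ hZ1.le
  have hY4 : (4 : ℝ) ≤ Y := by
    rw [hYZ]
    have := hmono (show 1 ≤ 100 by norm_num)
    rw [pow_one] at this
    linarith
  have hY4' : 4 ≤ Y := by exact_mod_cast hY4
  have hN0 : (0 : ℝ) < N := lt_of_lt_of_le (by positivity) hN
  have hH0 : (⌊Z ^ (190 * s)⌋₊ : ℝ) ≤ Z ^ (190 * s) := Nat.floor_le (by positivity)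
  have hk0 : 10 * Z ^ (19 * s) < (⌊10 * Z ^ (19 * s)⌋₊ + 1 : ℕ) := by
    push_cast; exact Nat.lt_floor_add_one _
  have hk0' : ((⌊10 * Z ^ (19 * s)⌋₊ + 1 : ℕ) : ℝ) ≤ Z ^ (19 * s + 1) := by
    push_cast
    have := Nat.floor_le (show 0 ≤ 10 * Z ^ (19 * s) by positivity)
    have := hone (19 * s)
    rw [pow_succ]
    nlinarith
  have hth : Z ^ 195 ≤ (⌈Z ^ 195⌉₊ : ℝ) := Nat.le_ceil _
  have hth' : (⌈Z ^ 195⌉₊ : ℝ) ≤ 2 * Z ^ 195 := by
    have := Nat.ceil_lt_add_one (show 0 ≤ Z ^ 195 by positivity)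
    have := hone 195
    linarith
  have hLam : ((((Y + 1) * (2 * Y)) ^ e * ⌊Z ^ (190 * s)⌋₊ : ℕ) : ℝ) < Z ^ (195 * s) := by
    push_cast
    have a1 : ((Y : ℝ) + 1) * (2 * Y) ≤ Z ^ 300 := by
      rw [show 300 = 100 * 3 by norm_num, pow_mul, ← hYZ]
      have a2 : 0 ≤ (Y : ℝ) * ((Y : ℝ) * (Y - 4) + 2 * (Y - 1)) :=
        mul_nonneg hY0 (add_nonneg (mul_nonneg hY0 (by linarith)) (by linarith))
      nlinarith
    calc (((Y : ℝ) + 1) * (2 * Y)) ^ e * ⌊Z ^ (190 * s)⌋₊ ≤ (Z ^ 300) ^ e * Z ^ (190 * s) := by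
          gcongr
      _ = Z ^ (300 * e + 190 * s) := by rw [← pow_mul, ← pow_add]
      _ < Z ^ (195 * s) := pow_lt_pow_right₀ hZ1 (by omega)
  have key := h1 (2 * Y) s Om X g M N (⌊10 * Z ^ (19 * s)⌋₊ + 1) ⌊Z ^ (20 * s)⌋₊
    ⌊Z ^ (190 * s)⌋₊ Y ⌈Z ^ 195⌉₊ (by omega) hF (by exact_mod_cast hN0) hOm
    (fun μ hμ => Nat.le_floor (hH μ ((Nat.le_floor_iff (by positivity)).1 hμ))) (by omega)
    (by
      have a1 := num_choose (⌊10 * Z ^ (19 * s)⌋₊ + 1)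
      have a2 : Z ^ (190 * s) < (((⌊10 * Z ^ (19 * s)⌋₊ + 1 : ℕ) : ℝ) / 10) ^ 10 := by
        rw [show 190 * s = 19 * s * 10 by ring, pow_mul]
        exact pow_lt_pow_left₀ (by linarith) (by positivity) (by norm_num)
      exact_mod_cast hH0.trans_lt (a2.trans_le a1))
    (by
      rw [div_lt_one (by positivity)] at e1
      have a1 : Z ^ (190 * s) ≤ (Y : ℝ) ^ (2 * s) := by
        rw [hYZ, ← pow_mul]; exact hmono (by omega)
      exact_mod_cast hH0.trans_lt (a1.trans_lt e1))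
    (by
      refine Nat.le_floor ?_
      rw [Nat.cast_mul, Nat.cast_pow]
      have a1 : ((2 * Y : ℕ) : ℝ) ≤ Z ^ 200 := by
        rw [show 200 = 100 * 2 by norm_num, pow_mul, ← hYZ]
        push_cast
        nlinarith
      calc ((⌊10 * Z ^ (19 * s)⌋₊ + 1 : ℕ) : ℝ) * ((2 * Y : ℕ) : ℝ) ^ e
          ≤ Z ^ (19 * s + 1) * (Z ^ 200) ^ e := by gcongr
        _ = Z ^ (19 * s + 1 + 200 * e) := by rw [← pow_mul, ← pow_add]
        _ ≤ Z ^ (20 * s) := hmono (by omega))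
    (by
      have a1 : Z ^ (195 * s) ≤ (⌈Z ^ 195⌉₊ : ℝ) ^ s := by
        rw [pow_mul]; gcongr
      exact_mod_cast hLam.trans_le a1)
  have key' : (X.card : ℝ) * N ≤ 10 * s * ⌈Z ^ 195⌉₊ * ∏ i, (Fintype.card (Om i) : ℝ) +
      N * ((((Y + 1) * (2 * Y)) ^ e * ⌊Z ^ (190 * s)⌋₊ : ℕ) : ℝ) := by
    exact_mod_cast key
  set P : ℝ := ∏ i, (Fintype.card (Om i) : ℝ) with hP
  have hPN : Z ^ (198 * s) ≤ P := by
    rw [pow_mul]
    calc (Z ^ 198) ^ s = ∏ _i : Fin s, Z ^ 198 := by simp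
      _ ≤ P := Finset.prod_le_prod (fun _ _ => by positivity) fun i _ =>
          hN.trans (by exact_mod_cast hOm i)
  have hP0 : 0 < P := lt_of_lt_of_le (by positivity) hPN
  have b1 : Z ^ 195 * Z ≤ N := by rw [← pow_succ]; exact (hmono (by norm_num)).trans hN
  have b2 : Z ^ (195 * s) * Z ≤ P := by rw [← pow_succ]; exact (hmono (by omega)).trans hPN
  rw [div_lt_iff₀ hδ] at e3
  have c1 : δ * P * N ≤ 10 * s * (2 * Z ^ 195) * P + N * Z ^ (195 * s) :=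
    calc δ * P * N ≤ X.card * N := by gcongr
      _ ≤ _ := key'
      _ ≤ _ := by gcongr
  have c2 : δ * P * N * Z ≤ (20 * s + 1) * (P * N) := by
    have d1 : 10 * s * (2 * Z ^ 195) * P * Z ≤ 20 * s * (P * N) := by
      have : (20 * s * P) * (Z ^ 195 * Z) ≤ (20 * s * P) * N := by gcongr
      linarith
    have d2 : N * Z ^ (195 * s) * Z ≤ P * N := by
      have : (N : ℝ) * (Z ^ (195 * s) * Z) ≤ N * P := by gcongr
      linarith
    have := mul_le_mul_of_nonneg_right c1 hZ0.le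
    linarith
  have c3 : (20 * s + 1) * (P * N) < Z * δ * (P * N) := by gcongr
  linarith

end M4
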