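import Pool.Agent.Lib.MP_33b3f9_ag.M4.KzDefs

/-!
Block B1b: Lagrangian subgroups are kernels of integral similitudes.
-/

set_option autoImplicit false

namespace M4.Kz

open Matrix

variable {ι : Type} [Fintype ι] [DecidableEq ι]

/-- The transvection `x ↦ x + c E(x, w) w`. -/
def Tv {R : Type} [CommRing R] (c : R) (w : ι ⊕ ι → R) : Matrix (ι ⊕ ι) (ι ⊕ ι) R :=
  1 + c • vecMulVec w fun j => Ef (Pi.single j 1) w

/-- Write `x = ∑ j, x j • Pi.single j 1` and use `Ef_sum_left`. -/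
theorem Tv_mulVec {R : Type} [CommRing R] (c : R) (w x : ι ⊕ ι → R) :
    Tv c w *ᵥ x = x + (c * Ef x w) • w := by
  have h1 : Ef x w = ∑ j, x j * Ef (Pi.single j 1) w := by
    conv_lhs => rw [pi_eq_sum_univ' x]
    rw [Ef_sum_left]
    exact Finset.sum_congr rfl fun j _ => Ef_smul_left _ _ _
  rw [Tv, add_mulVec, one_mulVec, smul_mulVec, h1]
  congr 1
  funext i
  simp only [Pi.smul_apply, mulVec, dotProduct, vecMulVec_apply, smul_eq_mul, Finset.mul_sum,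
    Finset.sum_mul]
  exact Finset.sum_congr rfl fun j _ => by ring

theorem Tv_sim {R : Type} [CommRing R] (c : R) (w : ι ⊕ ι → R) : SimR (Tv c w) 1 := by
  intro x y
  rw [Tv_mulVec, Tv_mulVec, Ef_add_left, Ef_add_right, Ef_add_right, Ef_smul_right, Ef_smul_left,
    Ef_smul_left, Ef_smul_right, Ef_self, Ef_swap w y]
  ring

theorem mZ_Tv (m : ℕ) (c : ℤ) (w : ι ⊕ ι → ℤ) : mZ m (Tv c w) = Tv (c : ZMod m) (vZ m w) := by
  ext i j
  have h1 : vZ m (Pi.single j 1 : ι ⊕ ι → ℤ) = Pi.single j 1 := by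
    funext k
    by_cases h : k = j
    · subst h; simp [vZ]
    · simp [vZ, Pi.single_eq_of_ne h]
  have h2 := Ef_vZ m (Pi.single j 1) w
  rw [h1] at h2
  simp only [mZ, Tv, Matrix.map_apply, Matrix.add_apply, Matrix.smul_apply, vecMulVec_apply,
    smul_eq_mul, h2, Matrix.one_apply, vZ]
  split_ifs <;> push_cast <;> rfl

omit [DecidableEq ι] in
theorem kzlag_mZ_mul (m : ℕ) (a b : Matrix (ι ⊕ ι) (ι ⊕ ι) ℤ) : mZ m (a * b) = mZ m a * mZ m b :=
  Matrix.map_mul (f := Int.castRingHom (ZMod m))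

omit [Fintype ι] in
theorem kzlag_mZ_one {m Q : ℕ} (hm : m ∣ Q) {a : Matrix (ι ⊕ ι) (ι ⊕ ι) ℤ} (h : One Q a) :
    mZ m a = 1 := by
  ext i j
  have h1 : ((m : ℤ) ∣ (a - 1) i j) := (Int.natCast_dvd_natCast.2 hm).trans (h i j)
  have h2 := (ZMod.intCast_zmod_eq_zero_iff_dvd _ m).2 h1
  rw [Matrix.sub_apply, Int.cast_sub, sub_eq_zero] at h2
  rw [mZ, Matrix.map_apply, h2, Matrix.one_apply, Matrix.one_apply]
  split_ifs <;> simp

omit [Fintype ι] in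
theorem kzlag_one_one (Q : ℕ) : One Q (1 : Matrix (ι ⊕ ι) (ι ⊕ ι) ℤ) := fun i j => by simp

omit [Fintype ι] in
theorem kzlag_one_dvd {m Q : ℕ} (hm : m ∣ Q) {a : Matrix (ι ⊕ ι) (ι ⊕ ι) ℤ} (h : One Q a) :
    One m a := fun i j => (Int.natCast_dvd_natCast.2 hm).trans (h i j)

theorem kzlag_one_mul {Q : ℕ} {a b : Matrix (ι ⊕ ι) (ι ⊕ ι) ℤ} (ha : One Q a) (hb : One Q b) :
    One Q (a * b) := by
  obtain ⟨α, rfl⟩ := ha.mulVec
  obtain ⟨β, rfl⟩ := hb.mulVec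
  intro i j
  refine ⟨(α + β + (Q : ℤ) • (α * β)) i j, ?_⟩
  have : (1 + (Q : ℤ) • α) * (1 + (Q : ℤ) • β) - 1 = (Q : ℤ) • (α + β + (Q : ℤ) • (α * β)) := by
    simp only [Matrix.add_mul, Matrix.mul_add, Matrix.one_mul, Matrix.mul_one, Matrix.smul_mul,
      Matrix.mul_smul, smul_add]
    abel
  rw [this, Matrix.smul_apply, smul_eq_mul]

theorem kzlag_sim_one {R : Type} [CommRing R] : SimR (1 : Matrix (ι ⊕ ι) (ι ⊕ ι) R) 1 :=
  fun x y => by rw [one_mulVec, one_mulVec, one_mul]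

theorem kzlag_inv {R : Type} [CommRing R] {h : Matrix (ι ⊕ ι) (ι ⊕ ι) R} {m : R} (hh : SimR h m)
    (hm : IsUnit m) : ∃ g : Matrix (ι ⊕ ι) (ι ⊕ ι) R, g * h = 1 ∧ h * g = 1 := by
  obtain ⟨u, rfl⟩ := hm
  have h1 : ((↑u⁻¹ : R) • adj h) * h = 1 := by
    rw [Matrix.smul_mul, hh.adj_mul, smul_smul, Units.inv_mul, one_smul]
  exact ⟨_, h1, mul_eq_one_comm.1 h1⟩

theorem kzlag_mem_map {R : Type} [CommRing R] {L : Submodule R (ι ⊕ ι → R)}
    {h : Matrix (ι ⊕ ι) (ι ⊕ ι) R} {m : R} (hh : SimR h m) (hm : IsUnit m) (x : ι ⊕ ι → R) :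
    h *ᵥ x ∈ L.map h.mulVecLin ↔ x ∈ L := by
  obtain ⟨g, hg, -⟩ := kzlag_inv hh hm
  refine ⟨?_, fun hx => ⟨x, hx, rfl⟩⟩
  rintro ⟨y, hy, e⟩
  have e' : g *ᵥ (h *ᵥ y) = g *ᵥ (h *ᵥ x) := congrArg (g *ᵥ ·) e
  rw [mulVec_mulVec, mulVec_mulVec, hg, one_mulVec, one_mulVec] at e'
  exact e' ▸ hy

/-- The standard Lagrangian `{(a, 0)}`. -/
def L0 (R : Type) [CommRing R] (ι : Type) : Submodule R (ι ⊕ ι → R) where
  carrier := {x | ∀ i, x (Sum.inr i) = 0}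
  zero_mem' := fun _ => rfl
  add_mem' := fun {a b} ha hb i => by simp [ha i, hb i]
  smul_mem' := fun c a ha i => by simp [ha i]

theorem lag_L0 (R : Type) [CommRing R] : Lag (L0 R ι) := by
  intro x
  constructor
  · intro hx y hy
    exact Finset.sum_eq_zero fun i _ => by rw [hx i, hy i]; ring
  · intro h i
    have := h (Pi.single (Sum.inl i) 1) fun j => Pi.single_eq_of_ne (by simp) _
    simpa [Ef, Pi.single_apply] using this

/-- The image of a Lagrangian under an invertible similitude with unit multiplier. -/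
theorem Lag.map {R : Type} [CommRing R] {L : Submodule R (ι ⊕ ι → R)} (hL : Lag L)
    {h : Matrix (ι ⊕ ι) (ι ⊕ ι) R} {m : R} (hh : SimR h m) (hm : IsUnit m) :
    Lag (L.map h.mulVecLin) := by
  intro x
  obtain ⟨g, -, hg⟩ := kzlag_inv hh hm
  obtain ⟨x, rfl⟩ : ∃ x', x = h *ᵥ x' := ⟨g *ᵥ x, by rw [mulVec_mulVec, hg, one_mulVec]⟩
  rw [kzlag_mem_map hh hm, hL x]
  constructor
  · rintro H _ ⟨y, hy, rfl⟩
    rw [mulVecLin_apply, hh, H y hy, mul_zero]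
  · intro H y hy
    have := H (h *ᵥ y) ⟨y, hy, rfl⟩
    rw [hh] at this
    exact hm.mul_right_eq_zero.1 this

/-- Induction on `finrank L' - finrank (L ⊓ L')`. If `E u v = 0` for all `u ∈ L`, `v ∈ L'` then
`L = L'`. Otherwise `w = v - u`, `c = (E u v)⁻¹`: `Tv c w` sends `u` to `v` and fixes `L ⊓ L'`, and
`v ∉ L`, so `L.map (Tv c w) ⊓ L'` is strictly larger than `L ⊓ L'`. Lift `w` by `lift` and `c` to
`Q * (lift of c * Q⁻¹)`. -/
theorem exists_sp_lag {l : ℕ} (hl : l.Prime) {Q : ℕ} (hQ : l.Coprime Q)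
    {L L' : Submodule (ZMod l) (ι ⊕ ι → ZMod l)} (hL : Lag L) (hL' : Lag L') :
    ∃ γ : Matrix (ι ⊕ ι) (ι ⊕ ι) ℤ, SimR γ 1 ∧ One Q γ ∧ ∀ x, x ∈ L ↔ mZ l γ *ᵥ x ∈ L' := by
  have := Fact.mk hl
  have hQu : (Q : ZMod l) ≠ 0 := fun h =>
    (Nat.Prime.coprime_iff_not_dvd hl).1 hQ ((ZMod.natCast_eq_zero_iff Q l).1 h)
  induction hn : Module.finrank (ZMod l) (ι ⊕ ι → ZMod l) - Module.finrank (ZMod l) ↥(L ⊓ L')
    using Nat.strong_induction_on generalizing L with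
  | _ n ih =>
  by_cases H : ∀ u ∈ L, ∀ v ∈ L', Ef u v = 0
  · refine ⟨1, kzlag_sim_one, kzlag_one_one Q, fun x => ?_⟩
    rw [kzlag_mZ_one dvd_rfl (kzlag_one_one l), one_mulVec]
    exact ⟨fun hx => (hL' x).2 (H x hx),
      fun hx => (hL x).2 fun y hy => by rw [Ef_swap, H y hy x hx, neg_zero]⟩
  push Not at H
  obtain ⟨u, hu, v, hv, huv⟩ := H
  set c : ℤ := Q * (((Ef u v)⁻¹ * (Q : ZMod l)⁻¹).val : ℤ) with hc
  have hc' : (c : ZMod l) = (Ef u v)⁻¹ := by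
    rw [hc]
    push_cast
    rw [ZMod.natCast_zmod_val]
    field_simp
  set t := Tv c (lift (v - u)) with ht
  have ht' : mZ l t = Tv (Ef u v)⁻¹ (v - u) := by rw [ht, mZ_Tv, hc', vZ_lift]
  have hs : SimR (mZ l t) 1 := ht' ▸ Tv_sim _ _
  have h1 : One Q t := fun i j => by
    rw [ht, Tv, add_sub_cancel_left, Matrix.smul_apply, smul_eq_mul, hc, mul_assoc]
    exact dvd_mul_right _ _
  have hlt : L ⊓ L' < L.map (mZ l t).mulVecLin ⊓ L' := by
    refine lt_of_le_of_ne (fun x hx => ⟨⟨x, hx.1, ?_⟩, hx.2⟩) fun e => ?_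
    · rw [mulVecLin_apply, ht', Tv_mulVec, Ef_sub_right, (hL x).1 hx.1 u hu, (hL' x).1 hx.2 v hv,
        sub_zero, mul_zero, zero_smul, add_zero]
    · have h2 : v ∈ L ⊓ L' := by
        rw [e]
        refine ⟨⟨u, hu, ?_⟩, hv⟩
        rw [mulVecLin_apply, ht', Tv_mulVec, Ef_sub_right, Ef_self, sub_zero,
          inv_mul_cancel₀ huv, one_smul, add_sub_cancel]
      exact huv ((hL u).1 hu v h2.1)
  have h3 := Submodule.finrank_lt_finrank_of_lt hlt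
  have h4 := Submodule.finrank_le (L.map (mZ l t).mulVecLin ⊓ L')
  obtain ⟨γ, g1, g2, g3⟩ := ih _ (by omega) (hL.map hs isUnit_one) rfl
  refine ⟨γ * t, by simpa using g1.mul (Tv_sim c _), kzlag_one_mul g2 h1, fun x => ?_⟩
  rw [kzlag_mZ_mul, ← mulVec_mulVec, ← g3, kzlag_mem_map hs isUnit_one]

/-- Induction on `T` (for all `Q`): for `insert l T` multiply the matrix for `T` and `Q * l` with the
matrix for `l` and `Q * ∏ T`. -/
theorem exists_sp_lags (T : Finset ℕ) (hT : ∀ l ∈ T, l.Prime) (Q : ℕ) (hQ : ∀ l ∈ T, l.Coprime Q)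
    (G G' : (l : ℕ) → Submodule (ZMod l) (ι ⊕ ι → ZMod l)) (hG : ∀ l ∈ T, Lag (G l))
    (hG' : ∀ l ∈ T, Lag (G' l)) :
    ∃ γ : Matrix (ι ⊕ ι) (ι ⊕ ι) ℤ, SimR γ 1 ∧ One Q γ ∧
      ∀ l ∈ T, ∀ x, x ∈ G l ↔ mZ l γ *ᵥ x ∈ G' l := by
  induction T using Finset.induction_on generalizing Q with
  | empty => exact ⟨1, kzlag_sim_one, kzlag_one_one Q, fun l hl => absurd hl (by simp)⟩
  | insert l T hlT ih =>
  have hl := hT l (Finset.mem_insert_self _ _)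
  have hco : ∀ k ∈ T, k.Coprime l := fun k hk =>
    (Nat.coprime_primes (hT k (Finset.mem_insert_of_mem hk)) hl).2 fun e => hlT (e ▸ hk)
  obtain ⟨γ, g1, g2, g3⟩ := ih (fun k hk => hT k (Finset.mem_insert_of_mem hk)) (Q * l)
    (fun k hk => Nat.Coprime.mul_right (hQ k (Finset.mem_insert_of_mem hk)) (hco k hk))
    (fun k hk => hG k (Finset.mem_insert_of_mem hk))
    (fun k hk => hG' k (Finset.mem_insert_of_mem hk))
  obtain ⟨δ, d1, d2, d3⟩ := exists_sp_lag hl (Q := Q * ∏ k ∈ T, k)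
    (Nat.Coprime.mul_right (hQ l (Finset.mem_insert_self _ _))
      (Nat.Coprime.prod_right fun k hk => (hco k hk).symm))
    (hG l (Finset.mem_insert_self _ _)) (hG' l (Finset.mem_insert_self _ _))
  refine ⟨γ * δ, by simpa using g1.mul d1,
    kzlag_one_mul (kzlag_one_dvd (dvd_mul_right _ _) g2) (kzlag_one_dvd (dvd_mul_right _ _) d2),
    fun k hk x => ?_⟩
  rw [kzlag_mZ_mul]
  rcases Finset.mem_insert.1 hk with rfl | hk
  · rw [kzlag_mZ_one (dvd_mul_left _ _) g2, Matrix.one_mul]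
    exact d3 x
  · rw [kzlag_mZ_one ((Finset.dvd_prod_of_mem (fun k => k) hk).mul_left Q) d2, Matrix.mul_one]
    exact g3 k hk x

/-- `h = diag (M, 1) γ` with `γ G = L0`. -/
theorem exists_sim (T : Finset ℕ) (hT : ∀ l ∈ T, l.Prime) (Q : ℕ) (hQ : ∀ l ∈ T, l ≡ 1 [MOD Q])
    (G : (l : ℕ) → Submodule (ZMod l) (ι ⊕ ι → ZMod l)) (hG : ∀ l ∈ T, Lag (G l)) :
    ∃ h : Matrix (ι ⊕ ι) (ι ⊕ ι) ℤ, SimR h ((∏ l ∈ T, l : ℕ) : ℤ) ∧ One Q h ∧
      ∀ l ∈ T, ∀ x, x ∈ G l ↔ mZ l h *ᵥ x = 0 := by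
  obtain ⟨γ, g1, g2, g3⟩ := exists_sp_lags T hT Q
    (fun l hl => (Nat.ModEq.gcd_eq (hQ l hl)).trans (Nat.gcd_one_left Q)) G
    (fun l => L0 (ZMod l) ι) hG fun l _ => lag_L0 _
  set M : ℕ := ∏ l ∈ T, l with hM
  let D : Matrix (ι ⊕ ι) (ι ⊕ ι) ℤ := diagonal (Sum.elim (fun _ => (M : ℤ)) fun _ => 1)
  have hD : SimR D (M : ℤ) := fun x y => by
    simp only [Ef, D, mulVec_diagonal, Sum.elim_inl, Sum.elim_inr, Finset.mul_sum]
    exact Finset.sum_congr rfl fun i _ => by ring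
  have hM1 : M ≡ 1 [MOD Q] := by
    have := Nat.ModEq.prod (s := T) (f := fun l => l) (g := fun _ => 1) hQ
    rwa [Finset.prod_const_one] at this
  have hD1 : One Q D := by
    intro i j
    by_cases e : i = j
    · subst e
      rcases i with i | i
      · simpa [D] using (Nat.modEq_iff_dvd.1 hM1.symm)
      · simp [D]
    · simp [D, Matrix.one_apply_ne e, diagonal_apply_ne _ e]
  refine ⟨D * γ, by simpa using hD.mul g1, kzlag_one_mul hD1 g2, fun l hl x => ?_⟩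
  have hlM : (M : ZMod l) = 0 :=
    (ZMod.natCast_eq_zero_iff M l).2 (Finset.dvd_prod_of_mem (fun k => k) hl)
  have hDl : mZ l D = diagonal (Sum.elim (fun _ => 0) fun _ => 1) := by
    rw [mZ, diagonal_map Int.cast_zero]
    congr 1
    funext i
    rcases i with i | i <;> simp [hlM]
  rw [g3 l hl, kzlag_mZ_mul, ← mulVec_mulVec, hDl]
  constructor
  · intro h
    funext i
    rcases i with i | i
    · simp [mulVec_diagonal]
    · simpa [mulVec_diagonal] using h i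
  · intro h i
    simpa [mulVec_diagonal] using congrFun h (Sum.inr i)

end M4.Kz
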