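import Pool.Agent.Lib.MP_33b3f9_ag.M4.KzBound

/-!
Block B1b: exact Galois equivariance of the normalised coordinates.
-/

set_option autoImplicit false

namespace M4.Kz

open Complex Matrix

variable {ι : Type} [Fintype ι] [DecidableEq ι] {τ : Matrix ι ι ℂ} {t : ℂ} {σ : ℂ →+* ℂ}
  {r : Matrix (ι ⊕ ι) (ι ⊕ ι) ℤ}

theorem para {A : Type} [AddCommGroup A] {μ : A → ℂ} (h0 : μ 0 = 1) (hne : ∀ a, μ a ≠ 0)
    (h : ∀ a b, μ (a + b) * μ (a - b) = μ a ^ 2 * μ b ^ 2) (a : A) (n : ℕ) :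
    μ (n • a) = μ a ^ n ^ 2 := by
  induction n using Nat.twoStepInduction with
  | zero => simp [h0]
  | one => simp
  | more n h1 h2 =>
    have := h ((n + 1) • a) a
    rw [← succ_nsmul, succ_nsmul a n, add_sub_cancel_right, ← succ_nsmul, h1, h2] at this
    refine mul_right_cancel₀ (pow_ne_zero (n ^ 2) (hne a)) (this.trans ?_)
    ring

omit [DecidableEq ι] in
theorem XX_rq_shift (hτ : InH τ) {N : ℕ} (hN : N ≠ 0) (k a n : ι ⊕ ι → ℤ) :
    XX τ k (rq N (a + (N : ℤ) • n)) = ee (((2 * Ef a n : ℤ) : ℂ) / N) * XX τ k (rq N a) := by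
  rw [rq_add, rq_smul hN, XX_shift hτ, Ef_rz_rq, Ef_swap n a]
  congr 2
  push_cast; ring

theorem exists_mu (hτ : InH τ) (ht : t ≠ 0) (hF : Fixes τ t σ) {N : ℕ} (hN : N ≠ 0)
    (hA : Acts τ σ r N) : ∃ μ : (ι ⊕ ι → ℤ) → ℂ,
      (∀ a k, σ (XX τ k (rq N a) / t) = μ a * (XX τ k (rq N (r *ᵥ a)) / t)) ∧
      (∀ a (n : ℕ), μ (n • a) = μ a ^ n ^ 2) ∧ ∀ a, μ a ^ (4 * N) = 1 := by
  choose c hc using hA
  have hσt : σ t ≠ 0 := by simpa using ht
  obtain ⟨μ, hμ⟩ : ∃ μ : (ι ⊕ ι → ℤ) → ℂ,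
      ∀ a k, σ (XX τ k (rq N a) / t) = μ a * (XX τ k (rq N (r *ᵥ a)) / t) :=
    ⟨fun a => c a * t / σ t, fun a k => by rw [map_div₀, hc]; field_simp⟩
  have hb : ∀ x, ∃ k, XX τ k x / t ≠ 0 := fun x =>
    (bpfXX hτ x).elim fun k hk => ⟨_, div_ne_zero hk ht⟩
  have hne : ∀ a, μ a ≠ 0 := fun a h => by
    obtain ⟨k, hk⟩ := hb (rq N a)
    exact hk (by simpa [h] using hμ a k)
  have h0 : μ 0 = 1 := by
    obtain ⟨k, hk⟩ := hb 0
    have := hμ 0 k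
    rw [mulVec_zero, rq_zero, hF.2] at this
    exact mul_right_cancel₀ hk (by rw [← this, one_mul])
  have hR : ∀ e e' a b, 2 ^ Fintype.card ι * ((XX τ e (rq N a) / t) ^ 2 *
      (XX τ e' (rq N b) / t) ^ 2) = ∑ k : ι ⊕ ι → Fin 2, chi (bz k) * I ^ Ef (bz k) e *
        (XX τ (e + e' + bz k) (rq N (a + b)) / t * (XX τ (e - e' + bz k) (rq N (a - b)) / t) *
          (XX τ (bz k) 0 / t) ^ 2) := fun e e' a b => by
    have := congrArg (· / t ^ 4) (riemXX hτ e e' (rq N a) (rq N b))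
    simp only [Finset.sum_div] at this
    rw [rq_add, rq_sub]
    refine Eq.trans (by field_simp) (this.trans (Finset.sum_congr rfl fun k _ => by field_simp))
  have hp : ∀ a b, μ (a + b) * μ (a - b) = μ a ^ 2 * μ b ^ 2 := fun a b => by
    obtain ⟨e, he⟩ := hb (rq N (r *ᵥ a))
    obtain ⟨e', he'⟩ := hb (rq N (r *ᵥ b))
    have h1 := congrArg σ (hR e e' a b)
    have h2 := hR e e' (r *ᵥ a) (r *ᵥ b)
    simp only [map_mul, map_pow, map_sum, map_ofNat, hμ, map_chi, map_zpow₀, hF.1, hF.2, mulVec_add,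
      mulVec_sub] at h1
    have h3 := congrArg (μ (a + b) * μ (a - b) * ·) h2
    simp only [Finset.mul_sum] at h3
    have h4 := h1.trans ((Finset.sum_congr rfl fun k _ => by ring).trans h3.symm)
    refine mul_right_cancel₀ (mul_ne_zero (pow_ne_zero (Fintype.card ι) two_ne_zero)
      (mul_ne_zero (pow_ne_zero 2 he) (pow_ne_zero 2 he'))) ?_
    rw [← h4]; ring
  have hq := para h0 hne hp
  refine ⟨μ, hμ, hq, fun a => ?_⟩
  have hs : ∀ s : ℤ, μ (a + (N : ℤ) • s • a) = μ a := fun s => by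
    obtain ⟨k, hk⟩ := hb (rq N (r *ᵥ a))
    have h1 := hμ (a + (N : ℤ) • s • a) k
    rw [mulVec_add, mulVec_smul, mulVec_smul, XX_rq_shift hτ hN, XX_rq_shift hτ hN, Ef_smul_right,
      Ef_smul_right, Ef_self, Ef_self] at h1
    simp only [mul_zero, Int.cast_zero, zero_div, ee_zero, one_mul, hμ] at h1
    exact (mul_right_cancel₀ hk h1).symm
  have hneg : ∀ b, μ (-b) = μ b := fun b => by
    have := hp 0 b
    rw [zero_add, zero_sub, h0, one_pow, one_mul, sq] at this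
    exact mul_left_cancel₀ (hne b) this
  obtain ⟨n, rfl⟩ := Nat.exists_eq_succ_of_ne_zero hN
  have h1 := hs 1
  have h2 := hs (-1)
  rw [show a + ((n.succ : ℕ) : ℤ) • (1 : ℤ) • a = (n + 2) • a by push_cast; module, hq] at h1
  rw [show a + ((n.succ : ℕ) : ℤ) • (-1 : ℤ) • a = -(n • a) by push_cast; module, hneg, hq] at h2
  refine mul_left_cancel₀ (pow_ne_zero (n ^ 2) (hne a)) ?_
  rw [← pow_add, mul_one, h2, ← h1, h1]
  rw [show n ^ 2 + 4 * n.succ = (n + 2) ^ 2 by simp only [Nat.succ_eq_add_one]; ring, h1]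

/-- MU: exact equivariance. -/
theorem mu_exact (hτ : InH τ) (ht : t ≠ 0) (hF : Fixes τ t σ) {M : ℕ} (hM : M ≠ 0)
    (hA : Acts τ σ r (4 * M * M)) (k a : ι ⊕ ι → ℤ) :
    σ (XX τ k (rq M a) / t) = XX τ k (rq M (r *ᵥ a)) / t := by
  have h4 : 4 * M ≠ 0 := by omega
  obtain ⟨μ, h1, h2, h3⟩ := exists_mu hτ ht hF (mul_ne_zero h4 hM) hA
  have h := h1 (((4 * M : ℕ) : ℤ) • a) k
  rwa [mulVec_smul, rq_mul h4, rq_mul h4, natCast_zsmul, h2,
    show (4 * M) ^ 2 = 4 * (4 * M * M) by ring, h3, one_mul] at h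

/-- The action is a similitude with the cyclotomic multiplier. -/
theorem mu_sim (hτ : InH τ) (ht : t ≠ 0) (hF : Fixes τ t σ) {M : ℕ} (hM : M ≠ 0)
    (hA : Acts τ σ r (4 * (2 * M) * (2 * M))) (a b : ι ⊕ ι → ℤ) :
    σ (ee ((Ef a b : ℤ) / M)) = ee ((Ef (r *ᵥ a) (r *ᵥ b) : ℤ) / M) := by
  have h2 : 2 * M ≠ 0 := by omega
  obtain ⟨k, hk⟩ := bpfXX hτ (rq (2 * M) (r *ᵥ a))
  have h1 := mu_exact hτ ht hF h2 hA (bz k) (a + ((2 * M : ℕ) : ℤ) • b)
  rw [mulVec_add, mulVec_smul, XX_rq_shift hτ h2, XX_rq_shift hτ h2, mul_div_assoc, mul_div_assoc,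
    map_mul, mu_exact hτ ht hF h2 hA] at h1
  have e : ∀ n : ℤ, ((2 * n : ℤ) : ℂ) / ((2 * M : ℕ) : ℂ) = n / M := fun n => by
    push_cast; exact mul_div_mul_left _ _ two_ne_zero
  rw [e, e] at h1
  exact mul_right_cancel₀ (div_ne_zero hk ht) h1

omit [DecidableEq ι] in
theorem Acts.of_mul {N c : ℕ} (hc : c ≠ 0) (hA : Acts τ σ r (c * N)) : Acts τ σ r N := fun a => by
  simpa only [mulVec_smul, rq_mul hc] using hA ((c : ℤ) • a)

theorem ee_div_eq_one {M : ℕ} (hM : M ≠ 0) {n : ℤ} : ee (n / M) = 1 ↔ (M : ℤ) ∣ n := by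
  have : (M : ℂ) ≠ 0 := by exact_mod_cast hM
  constructor
  · intro h
    obtain ⟨k, hk⟩ := ee_eq_one h
    refine ⟨k, ?_⟩
    rw [div_eq_iff this, mul_comm] at hk
    exact_mod_cast hk
  · rintro ⟨k, rfl⟩
    push_cast
    rw [mul_div_cancel_left₀ _ this, ee_int]

end M4.Kz
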