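import Pool.Agent.Lib.MP_33b3f9_ag.M4.KzDefs

/-!
Block B1b: the kernel of a similitude modulo its multiplier.
-/

set_option autoImplicit false

namespace M4.Kz

open Matrix

variable {ι : Type} [Fintype ι] [DecidableEq ι] {m : ℕ} {h h' R : Matrix (ι ⊕ ι) (ι ⊕ ι) ℤ}

omit [DecidableEq ι] in
theorem kzcard_mem {a : ι ⊕ ι → ℤ} : vZ m a ∈ kerM m h ↔ ∃ n, h *ᵥ a = (m : ℤ) • n := by
  have h0 : vZ m (0 : ι ⊕ ι → ℤ) = 0 := by
    funext i
    simp [vZ]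
  change mZ m h *ᵥ vZ m a = 0 ↔ _
  rw [mZ_mulVec, ← h0, vZ_eq_iff]
  simp only [zero_add]

theorem kzcard_nd {S : Type} [CommRing S] {x : ι ⊕ ι → S} (hx : ∀ z, Ef x z = 0) : x = 0 := by
  funext i
  rcases i with i | i
  · simpa [Ef, Pi.single_apply] using hx (Pi.single (Sum.inr i) 1)
  · simpa [Ef, Pi.single_apply] using hx (Pi.single (Sum.inl i) 1)

theorem kzcard_ndZ [NeZero m] {a : ι ⊕ ι → ℤ} (ha : ∀ z, (m : ℤ) ∣ Ef a z) : vZ m a = 0 :=
  kzcard_nd fun z => by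
    rw [← vZ_lift z, Ef_vZ]
    exact (ZMod.intCast_zmod_eq_zero_iff_dvd _ _).2 (ha _)

/-- The kernel is isotropic: `h x = m a`, `h y = m b`, `m E (x, y) = m ^ 2 E (a, b)`. -/
theorem kerM_iso (hm : m ≠ 0) (hs : SimR h (m : ℤ)) {a b : ι ⊕ ι → ℤ} (ha : vZ m a ∈ kerM m h)
    (hb : vZ m b ∈ kerM m h) : (m : ℤ) ∣ Ef a b := by
  obtain ⟨n, hn⟩ := kzcard_mem.1 ha
  obtain ⟨n', hn'⟩ := kzcard_mem.1 hb
  have h1 := hs a b
  rw [hn, hn', Ef_smul_left, Ef_smul_right] at h1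
  exact ⟨_, (mul_left_cancel₀ (by exact_mod_cast hm) h1).symm⟩

/-- The kernel contains its orthogonal: test against `b = adj h *ᵥ z`, `E (a, b) = E (h a, z)`. -/
theorem kerM_perp (hm : m ≠ 0) (hs : SimR h (m : ℤ)) {a : ι ⊕ ι → ℤ}
    (ha : ∀ b, vZ m b ∈ kerM m h → (m : ℤ) ∣ Ef a b) : vZ m a ∈ kerM m h := by
  have : NeZero m := ⟨hm⟩
  have hm' : (m : ℤ) ≠ 0 := by exact_mod_cast hm
  change mZ m h *ᵥ vZ m a = 0
  rw [mZ_mulVec]
  refine kzcard_ndZ fun z => ?_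
  have h1 : h *ᵥ (adj h *ᵥ z) = (m : ℤ) • z := by
    rw [mulVec_mulVec, hs.mul_adj hm', smul_mulVec, one_mulVec]
  have h2 := hs a (adj h *ᵥ z)
  rw [h1, Ef_smul_right] at h2
  rw [mul_left_cancel₀ hm' h2]
  exact ha _ (kzcard_mem.2 ⟨z, h1⟩)

/-- `y ↦ (x ↦ e (E (y, x) / m))` embeds the kernel into the characters of the quotient
(`AddChar.card_eq`), or use the index of `adj h ℤ^(ι ⊕ ι)`. -/
theorem card_kerM [NeZero m] (hs : SimR h (m : ℤ)) :
    Nat.card (kerM m h) ≤ m ^ Fintype.card ι := by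
  classical
  let f : (ι ⊕ ι → ZMod m) → (ι ⊕ ι → ZMod m) →+ ZMod m := fun y =>
    AddMonoidHom.mk' (Ef y) (Ef_add_right y)
  have hf : ∀ y : kerM m h, ∀ x ∈ kerM m h, f y x = 0 := by
    intro y x hx
    change Ef y.1 x = 0
    rw [← vZ_lift y.1, ← vZ_lift x, Ef_vZ]
    refine (ZMod.intCast_zmod_eq_zero_iff_dvd _ _).2 (kerM_iso (NeZero.ne m) hs ?_ ?_)
    · rw [vZ_lift]
      exact y.2
    · rwa [vZ_lift]
  let χ : kerM m h → AddChar ((ι ⊕ ι → ZMod m) ⧸ kerM m h) ℂ := fun y =>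
    (ZMod.stdAddChar (N := m)).compAddMonoidHom (QuotientAddGroup.lift _ (f y) (hf y))
  have hχ : Function.Injective χ := by
    intro y y' e
    refine Subtype.ext (sub_eq_zero.1 (kzcard_nd fun z => ?_))
    have h1 : ZMod.stdAddChar (Ef y.1 z) = ZMod.stdAddChar (Ef y'.1 z) :=
      DFunLike.congr_fun e (QuotientAddGroup.mk z)
    rw [Ef_sub_left, ZMod.injective_stdAddChar h1, sub_self]
  have := Fintype.ofFinite ((ι ⊕ ι → ZMod m) ⧸ kerM m h)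
  have h1 := Nat.card_le_card_of_injective χ hχ
  rw [Nat.card_eq_fintype_card (α := AddChar _ _), AddChar.card_eq, ← Nat.card_eq_fintype_card]
    at h1
  have h2 := AddSubgroup.card_eq_card_quotient_mul_card_addSubgroup (kerM m h)
  rw [Nat.card_fun, Nat.card_zmod, Nat.card_sum, Nat.card_eq_fintype_card (α := ι), pow_add] at h2
  refine Nat.mul_self_le_mul_self_iff.1 ?_
  rw [h2]
  exact Nat.mul_le_mul_right _ h1

/-- `R` is injective modulo `m` (test against all `b`), so bijective; if `R x` is in the second kernel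
then `x` is orthogonal to the first. -/
theorem bijOn_kerM [NeZero m] (hs : SimR h (m : ℤ)) (hs' : SimR h' (m : ℤ))
    (hR : ∀ a b, (m : ℤ) ∣ Ef (R *ᵥ a) (R *ᵥ b) → (m : ℤ) ∣ Ef a b)
    (hk : ∀ a, vZ m a ∈ kerM m h → vZ m (R *ᵥ a) ∈ kerM m h') :
    Set.BijOn (mZ m R).mulVec (kerM m h) (kerM m h') := by
  have hinj : Function.Injective (mZ m R).mulVec := by
    rw [← Matrix.coe_mulVecLin, injective_iff_map_eq_zero]
    intro x hx
    rw [mulVecLin_apply, ← vZ_lift x, mZ_mulVec] at hx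
    rw [← vZ_lift x]
    refine kzcard_ndZ fun z => hR _ _ ((ZMod.intCast_zmod_eq_zero_iff_dvd _ _).1 ?_)
    rw [← Ef_vZ, hx, Ef_zero_left]
  refine ⟨fun x hx => ?_, hinj.injOn, fun y hy => ?_⟩
  · rw [← vZ_lift x, mZ_mulVec]
    exact hk _ (by rwa [vZ_lift])
  · obtain ⟨x, rfl⟩ := Finite.injective_iff_surjective.1 hinj y
    refine ⟨x, ?_, rfl⟩
    rw [← vZ_lift x, mZ_mulVec] at hy
    rw [← vZ_lift x]
    exact kerM_perp (NeZero.ne m) hs fun b hb =>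
      hR _ _ (kerM_iso (NeZero.ne m) hs' hy (hk b hb))

/-- An integer that is divisible by `m` in every `ℤ_l` is divisible by `m`. -/
theorem dvd_of_padic {m : ℕ} (hm : m ≠ 0) {a : ℤ}
    (h : ∀ (l : ℕ) [Fact l.Prime], (m : ℤ_[l]) ∣ (a : ℤ_[l])) : (m : ℤ) ∣ a := by
  rw [Int.natCast_dvd, Nat.dvd_iff_prime_pow_dvd_dvd]
  intro l k hl hk
  have : Fact l.Prime := ⟨hl⟩
  have h1 : (l : ℤ_[l]) ^ k ∣ (m : ℤ_[l]) := by exact_mod_cast Nat.cast_dvd_cast (α := ℤ_[l]) hk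
  have h2 := (PadicInt.pow_p_dvd_int_iff k a).1 (h1.trans (h l))
  rw [← Int.natCast_dvd]
  exact_mod_cast h2

end M4.Kz
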