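import Pool.Agent.Lib.MP_33b3f9_ag.M4.KzX
import Pool.Agent.Lib.MP_33b3f9_ag.M4.ThExt

/-!
Block B1b: the formula of Koizumi for an isogeny of odd degree.
-/

set_option autoImplicit false

namespace M4.Kz

open Complex Matrix

variable {ι : Type} [Fintype ι] [DecidableEq ι] {τ τ' : Matrix ι ι ℂ}
  {ρ : Type} [Fintype ρ] [DecidableEq ρ]

omit [Fintype ι] [DecidableEq ι] in
/-- SLOT. Fix `v₀` with `T v₀ ≠ 0`; induction on a finset `s`: if `x k = v₀` off `s` then
`Ψ x * T v₀ ^ s.card = Ψ (fun _ => v₀) * ∏ k ∈ s, T (x k)`. -/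
theorem slot {V : Type} {Ψ : (ρ → V) → ℂ} {T : V → ℂ} {v₀ : V} (h0 : T v₀ ≠ 0)
    (h : ∀ x k, ∃ c : ℂ, ∀ v, Ψ (Function.update x k v) = c * T v) :
    ∃ c : ℂ, ∀ x, Ψ x = c * ∏ k, T (x k) := by
  have key : ∀ (s : Finset ρ) (x : ρ → V), (∀ k, k ∉ s → x k = v₀) →
      Ψ x * T v₀ ^ s.card = Ψ (fun _ => v₀) * ∏ k ∈ s, T (x k) := by
    intro s
    induction s using Finset.induction_on with
    | empty =>
      intro x hx
      rw [show x = fun _ => v₀ from funext fun k => hx k (Finset.notMem_empty k)]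
      simp
    | insert k s hk ih =>
      intro x hx
      obtain ⟨c, hc⟩ := h x k
      have h1 := hc (x k)
      rw [Function.update_eq_self] at h1
      have h2 := ih (Function.update x k v₀) fun i hi => by
        by_cases e : i = k
        · rw [e, Function.update_self]
        · rw [Function.update_of_ne e]
          exact hx i (by simp [e, hi])
      rw [hc, Finset.prod_congr rfl fun i hi => by
        rw [Function.update_of_ne (ne_of_mem_of_not_mem hi hk)]] at h2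
      rw [Finset.card_insert_of_notMem hk, Finset.prod_insert hk, h1]
      linear_combination T (x k) * h2
  refine ⟨Ψ (fun _ => v₀) / T v₀ ^ Fintype.card ρ, fun x => ?_⟩
  rw [div_mul_eq_mul_div, eq_div_iff (pow_ne_zero _ h0)]
  exact key Finset.univ x fun k hk => absurd (Finset.mem_univ k) hk

section aux

omit [DecidableEq ι] [DecidableEq ρ]

/-- The form on tuples. -/
def kE (x y : ρ → ι ⊕ ι → ℝ) : ℝ := ∑ k, Ef (x k) (y k)

/-- The product of theta functions. -/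
noncomputable def kP (τ : Matrix ι ι ℂ) (F : Matrix ρ ρ ℤ) (x : ρ → ι ⊕ ι → ℝ) : ℂ :=
  ∏ j, Th τ (mix F x j)

/-- The Heisenberg operators on tuples. -/
noncomputable def kU (m : ℕ) (y : ρ → ι ⊕ ι → ℝ) (f : (ρ → ι ⊕ ι → ℝ) → ℂ) :
    (ρ → ι ⊕ ι → ℝ) → ℂ := fun x => ee (m * kE y x / 2) * f (x + y)

/-- Integral tuples. -/
def kz {κ : Type} (a : ρ → κ → ℤ) : ρ → κ → ℝ := fun k => rz (a k)

/-- The tuple `2 a / m`. -/
noncomputable def kq {κ : Type} (m : ℕ) (a : ρ → κ → ℤ) : ρ → κ → ℝ := (2 * (m : ℝ)⁻¹) • kz a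

theorem kE_add_left (x y z : ρ → ι ⊕ ι → ℝ) : kE (x + y) z = kE x z + kE y z := by
  simp only [kE, Pi.add_apply, Ef_add_left, Finset.sum_add_distrib]

theorem kE_add_right (x y z : ρ → ι ⊕ ι → ℝ) : kE x (y + z) = kE x y + kE x z := by
  simp only [kE, Pi.add_apply, Ef_add_right, Finset.sum_add_distrib]

theorem kE_smul_left (c : ℝ) (x y : ρ → ι ⊕ ι → ℝ) : kE (c • x) y = c * kE x y := by
  simp only [kE, Pi.smul_apply, Ef_smul_left, Finset.mul_sum]

theorem kE_smul_right (c : ℝ) (x y : ρ → ι ⊕ ι → ℝ) : kE x (c • y) = c * kE x y := by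
  simp only [kE, Pi.smul_apply, Ef_smul_right, Finset.mul_sum]

theorem kE_swap (x y : ρ → ι ⊕ ι → ℝ) : kE x y = -kE y x := by
  simp only [kE, ← Finset.sum_neg_distrib]
  exact Finset.sum_congr rfl fun k _ => Ef_swap _ _

theorem kE_self (x : ρ → ι ⊕ ι → ℝ) : kE x x = 0 := by simp [kE]

theorem kE_kz (a b : ρ → ι ⊕ ι → ℤ) : kE (kz a) (kz b) = ((∑ k, Ef (a k) (b k) : ℤ) : ℝ) := by
  simp only [kE, kz, Ef_rz, Int.cast_sum]

omit [Fintype ρ] in
theorem kz_add {κ : Type} (a b : ρ → κ → ℤ) : kz (a + b) = kz a + kz b :=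
  funext fun _ => rz_add _ _

omit [Fintype ρ] in
theorem kz_smul {κ : Type} (c : ℤ) (a : ρ → κ → ℤ) : kz (c • a) = (c : ℝ) • kz a :=
  funext fun _ => rz_zsmul _ _

theorem kmix_add {κ : Type} (F : Matrix ρ ρ ℤ) (x y : ρ → κ → ℝ) :
    mix F (x + y) = mix F x + mix F y := by
  funext j
  simp only [mix, Pi.add_apply, smul_add, Finset.sum_add_distrib]

theorem kmix_smul {κ : Type} (F : Matrix ρ ρ ℤ) (c : ℝ) (x : ρ → κ → ℝ) :
    mix F (c • x) = c • mix F x := by
  funext j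
  simp only [mix, Pi.smul_apply, Finset.smul_sum, smul_comm c]

theorem kmix_kz {κ : Type} (F : Matrix ρ ρ ℤ) (a : ρ → κ → ℤ) : mix F (kz a) = kz (mix F a) := by
  funext j i
  simp [mix, kz, rz]

theorem kU_kU (m : ℕ) (y z : ρ → ι ⊕ ι → ℝ) (f : (ρ → ι ⊕ ι → ℝ) → ℂ) :
    kU m y (kU m z f) = ee (m * kE z y / 2) • kU m (y + z) f := by
  funext x
  simp only [kU, Pi.smul_apply, smul_eq_mul, ← mul_assoc, ← ee_add, kE_add_left, kE_add_right,
    add_assoc]
  congr 2
  push_cast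
  ring

theorem kU_smul (m : ℕ) (y : ρ → ι ⊕ ι → ℝ) (c : ℂ) (f : (ρ → ι ⊕ ι → ℝ) → ℂ) :
    kU m y (c • f) = c • kU m y f := by
  funext x
  simp only [kU, Pi.smul_apply, smul_eq_mul, mul_left_comm]

theorem kU_sum {α : Type} [Fintype α] (m : ℕ) (y : ρ → ι ⊕ ι → ℝ)
    (f : α → (ρ → ι ⊕ ι → ℝ) → ℂ) : kU m y (∑ s, f s) = ∑ s, kU m y (f s) := by
  funext x
  simp only [kU, Finset.sum_apply, Finset.mul_sum]

theorem kU_comm (m : ℕ) (y z : ρ → ι ⊕ ι → ℝ) (f : (ρ → ι ⊕ ι → ℝ) → ℂ) :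
    kU m y (kU m z f) = ee (m * kE z y) • kU m z (kU m y f) := by
  rw [kU_kU, kU_kU, smul_smul, ← ee_add, add_comm z, kE_swap y z]
  congr 2
  push_cast
  ring

theorem kchar {G S : Type} [Monoid G] [Fintype S] (χ : S → G →* ℂ) (t : S → ℂ)
    [∀ s, Decidable (χ s = 1)] (h : ∀ u, ∑ s, χ s u * t s = 0) :
    ∑ s, (if χ s = 1 then t s else 0) = 0 := by
  classical
  have h1 := linearIndependent_iff.1 (linearIndependent_monoidHom G ℂ)
    (∑ s, Finsupp.single (χ s) (t s)) (by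
      funext u
      simpa [map_sum, mul_comm] using h u)
  have h2 := DFunLike.congr_fun h1 1
  rw [Finsupp.finsetSum_apply] at h2
  refine Eq.trans (Finset.sum_congr rfl fun s _ => ?_) h2
  rw [Finsupp.single_apply]

theorem kzpow {α : Type} (s : Finset α) {c : ℂ} (hc : c ≠ 0) (n : α → ℤ) :
    ∏ j ∈ s, c ^ n j = c ^ ∑ j ∈ s, n j := by
  classical
  induction s using Finset.induction_on with
  | empty => simp
  | insert a s ha ih => rw [Finset.prod_insert ha, Finset.sum_insert ha, ih, zpow_add₀ hc]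

theorem khol_prod {α : Type} (s : Finset α) {n : α → ℝ} {f : α → (ι ⊕ ι → ℝ) → ℂ}
    (hf : ∀ j, f j ∈ Hol τ (n j)) : ∏ j ∈ s, f j ∈ Hol τ (∑ j ∈ s, n j) := by
  classical
  induction s using Finset.induction_on with
  | empty => simpa using Hol.one
  | insert a s ha ih =>
    rw [Finset.prod_insert ha, Finset.sum_insert ha]
    exact Hol.mul (hf a) ih

end aux

section main

omit [DecidableEq ι]

variable {m : ℕ} {F : Matrix ρ ρ ℤ}

theorem kE_single (x : ρ → ι ⊕ ι → ℝ) (k : ρ) (v : ι ⊕ ι → ℝ) :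
    kE x (Pi.single k v) = Ef (x k) v := by
  rw [kE, Finset.sum_eq_single k, Pi.single_eq_same]
  · intro i _ hi
    rw [Pi.single_eq_of_ne hi, Ef_zero_right]
  · exact fun h => absurd (Finset.mem_univ k) h

theorem kmix_single {M : Type} [AddCommGroup M] (F : Matrix ρ ρ ℤ) (k j : ρ) (v : M) :
    mix F (Pi.single k v) j = F j k • v := by
  rw [mix, Finset.sum_eq_single k, Pi.single_eq_same]
  · intro i _ hi
    rw [Pi.single_eq_of_ne hi, smul_zero]
  · exact fun h => absurd (Finset.mem_univ k) h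

theorem kmix_mix {κ : Type} {G : Matrix ρ ρ ℤ} (h : F * G = (m : ℤ) • 1) (x : ρ → κ → ℝ) :
    mix F (mix G x) = (m : ℝ) • x := by
  funext j
  have h1 : mix F (mix G x) j = ∑ l, (F * G) j l • x l := by
    simp only [mix, Finset.smul_sum, mul_apply, Finset.sum_smul, mul_smul]
    exact Finset.sum_comm
  rw [h1, h, Finset.sum_eq_single j]
  · rw [Matrix.smul_apply, one_apply_eq, smul_eq_mul, mul_one, Pi.smul_apply,
      ← Int.cast_smul_eq_zsmul ℝ, Int.cast_natCast]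
  · intro i _ hi
    simp [one_apply_ne hi.symm]
  · exact fun h => absurd (Finset.mem_univ j) h

theorem kE_mix (hF : Fᵀ * F = (m : ℤ) • 1) (x y : ρ → ι ⊕ ι → ℝ) :
    kE (mix F x) (mix F y) = m * kE x y := by
  rw [← kE_smul_right, ← kmix_mix hF y]
  generalize mix F y = z
  simp only [kE, mix, Ef_sum_left, Ef_sum_right, Ef_zsmul_left, Ef_zsmul_right, transpose_apply]
  exact Finset.sum_comm

theorem ksq (hF : Fᵀ * F = (m : ℤ) • 1) (k : ρ) : ∑ j, F j k * F j k = m := by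
  simpa [mul_apply] using congrFun (congrFun hF k) k

theorem kU_kP (hτ : InH τ) (hF : Fᵀ * F = (m : ℤ) • 1) {y : ρ → ι ⊕ ι → ℝ} {n : ρ → ι ⊕ ι → ℤ}
    (h : mix F y = kz n) : kU m y (kP τ F) = (∏ j, chi (n j)) • kP τ F := by
  funext x
  have h1 : ∀ j, Th τ (mix F (x + y) j) =
      chi (n j) * ee (-(Ef (mix F y j) (mix F x j) : ℝ) / 2) * Th τ (mix F x j) := fun j => by
    rw [kmix_add, h]
    exact Th_add_int hτ _ _
  have h2 : ee (m * kE y x / 2) * ∏ j, ee (-(Ef (mix F y j) (mix F x j) : ℝ) / 2) = 1 := by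
    have h3 := congrArg ((↑) : ℝ → ℂ) (kE_mix hF y x)
    rw [kE] at h3
    push_cast at h3
    rw [← ee_sum, ← ee_add, ← Finset.sum_div, Finset.sum_neg_distrib, h3, ← ee_zero]
    congr 1
    ring
  simp only [kU, kP, Pi.smul_apply, smul_eq_mul, h1, Finset.prod_mul_distrib]
  linear_combination ((∏ j, chi (n j)) * ∏ j, Th τ (mix F x j)) * h2

theorem kU_two (hτ : InH τ) (hF : Fᵀ * F = (m : ℤ) • 1) {y : ρ → ι ⊕ ι → ℝ} {n : ρ → ι ⊕ ι → ℤ}
    (h : mix F y = kz ((2 : ℤ) • n)) : kU m y (kP τ F) = kP τ F := by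
  rw [kU_kP hτ hF h]
  simp only [Pi.smul_apply, chi_two, Finset.prod_const_one, one_smul]

theorem kP_hol (hτ : InH τ) (hF : Fᵀ * F = (m : ℤ) • 1) (z : ρ → ι ⊕ ι → ℝ) (k : ρ) :
    (fun v => kP τ F (Function.update z k v)) ∈ Hol τ m := by
  have h1 := khol_prod (τ := τ) Finset.univ fun j =>
    Hol.scale (Hol.U hτ.1 (Th_mem_Hol hτ) (mix F (Function.update z k 0) j)) (F j k)
  have h2 : ∑ j, (1 : ℝ) * (F j k : ℝ) ^ 2 = (m : ℝ) := by
    have h3 := congrArg ((↑) : ℤ → ℝ) (ksq hF k)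
    push_cast at h3
    simpa only [one_mul, sq] using h3
  rw [h2] at h1
  refine (Set.mem_of_eq_of_mem (funext fun v => ?_) h1 :)
  have h3 : Function.update z k v = Pi.single k v + Function.update z k 0 := by
    funext i
    by_cases e : i = k <;> simp [e]
  have h4 := congrArg ((↑) : ℝ → ℂ) (kE_mix hF (Function.update z k 0) (Pi.single k v))
  rw [kE_single, Function.update_self, Ef_zero_left, mul_zero, kE] at h4
  simp only [kmix_single] at h4
  push_cast at h4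
  simp only [Finset.prod_apply, U, Finset.prod_mul_distrib, ← ee_sum, E_eq, ofReal_one, one_mul,
    ← Finset.sum_div, h4, zero_div, ee_zero, kP, h3, kmix_add, Pi.add_apply, kmix_single,
    Int.cast_smul_eq_zsmul]

theorem kU_hol (hτ : InH τ) (hF : Fᵀ * F = (m : ℤ) • 1) (y x : ρ → ι ⊕ ι → ℝ) (k : ρ) :
    (fun v => kU m y (kP τ F) (Function.update x k v)) ∈ Hol τ m := by
  refine (Set.mem_of_eq_of_mem (funext fun v => ?_) ((Hol τ m).smul_mem
    (ee (m * kE y (Function.update x k 0) / 2)) (Hol.U hτ.1 (kP_hol hτ hF (x + y) k) (y k))) :)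
  have h3 : Function.update x k v = Pi.single k v + Function.update x k 0 := by
    funext i
    by_cases e : i = k <;> simp [e]
  have h4 : Function.update x k v + y = Function.update (x + y) k (v + y k) := by
    funext i
    by_cases e : i = k <;> simp [e]
  rw [kU, h4, h3, kE_add_right, kE_single, Pi.smul_apply, smul_eq_mul, U, ← mul_assoc, ← ee_add,
    E_eq]
  congr 2
  push_cast
  ring

theorem kT_congr [NeZero m] (hτ : InH τ) (hF : Fᵀ * F = (m : ℤ) • 1) {a b : ρ → ι ⊕ ι → ℤ}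
    (h : ∀ k, vZ m (a k) = vZ m (b k)) : kU m (kq m a) (kP τ F) = kU m (kq m b) (kP τ F) := by
  have hm : (m : ℝ) ≠ 0 := by exact_mod_cast NeZero.ne m
  choose n hn using fun k => (vZ_eq_iff m _ _).1 (h k)
  have h1 : kq m a = kq m b + kz ((2 : ℤ) • n) := by
    rw [show a = b + (m : ℤ) • n from funext hn, kq, kq, kz_add, kz_smul, kz_smul, smul_add,
      smul_smul]
    congr 2
    push_cast
    field_simp
  have h2 := kU_kU m (kq m b) (kz ((2 : ℤ) • n)) (kP τ F)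
  rw [kU_two hτ hF (n := mix F n) (by rw [kz_smul, kz_smul, kmix_smul, kmix_kz]), ← h1] at h2
  rw [h2, ee_congr (t := 0) (2 * ∑ k, Ef (n k) (b k)), ee_zero, one_smul]
  have hm' : (m : ℂ) ≠ 0 := by exact_mod_cast NeZero.ne m
  rw [kq, kz_smul, kE_smul_left, kE_smul_right, kE_kz]
  push_cast
  field_simp
  ring

theorem kT_int [NeZero m] (hτ : InH τ) (hF : Fᵀ * F = (m : ℤ) • 1) (a n : ρ → ι ⊕ ι → ℤ) :
    kU m (kz n) (kU m (kq m a) (kP τ F)) = (∏ j, chi (mix F n j)) • kU m (kq m a) (kP τ F) := by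
  have hm' : (m : ℂ) ≠ 0 := by exact_mod_cast NeZero.ne m
  rw [kU_comm, kU_kP hτ hF (kmix_kz F n), kU_smul,
    ee_congr (t := 0) (2 * ∑ k, Ef (a k) (n k)), ee_zero, one_smul]
  rw [kq, kE_smul_left, kE_kz]
  push_cast
  field_simp
  ring

omit [DecidableEq ρ] in
theorem kT_ker [NeZero m] {h : Matrix (ι ⊕ ι) (ι ⊕ ι) ℤ} (hs : SimR h (m : ℤ))
    {a b : ρ → ι ⊕ ι → ℤ} (ha : ∀ k, vZ m (a k) ∈ kerM m h) (hb : ∀ k, vZ m (b k) ∈ kerM m h)
    (f : (ρ → ι ⊕ ι → ℝ) → ℂ) : kU m (kq m b) (kU m (kq m a) f) = kU m (kq m (b + a)) f := by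
  have hm' : (m : ℂ) ≠ 0 := by exact_mod_cast NeZero.ne m
  have h0 : ∀ c : ι ⊕ ι → ℤ, vZ m c ∈ kerM m h → ∃ n, h *ᵥ c = 0 + (m : ℤ) • n := fun c hc =>
    (vZ_eq_iff m _ _).1 ((mZ_mulVec m h c).symm.trans (Eq.trans hc (by funext i; simp [vZ])))
  have h1 : ∀ k, ∃ t : ℤ, Ef (a k) (b k) = m * t := fun k => by
    obtain ⟨n, hn⟩ := h0 _ (ha k)
    obtain ⟨n', hn'⟩ := h0 _ (hb k)
    have h1 := hs (a k) (b k)
    rw [hn, hn', zero_add, zero_add, Ef_smul_left, Ef_smul_right] at h1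
    exact ⟨_, (mul_left_cancel₀ (by exact_mod_cast NeZero.ne m) h1).symm⟩
  choose t ht using h1
  rw [kU_kU, ee_congr (t := 0) (2 * ∑ k, t k), ee_zero, one_smul, kq, kq, kq, kz_add, smul_add]
  rw [kq, kq, kE_smul_left, kE_smul_right, kE_kz]
  simp only [ht, ← Finset.mul_sum]
  push_cast
  field_simp
  ring

theorem kP_ne [NeZero m] (hm : Odd m) (hτ : InH τ) (hF : Fᵀ * F = (m : ℤ) • 1) {S : Type}
    [Fintype S] (a : S → ρ → ι ⊕ ι → ℤ) {s₀ : S} (h0 : a s₀ = 0) :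
    ∑ s, kU m (kq m (a s)) (kP τ F) ≠ 0 := by
  classical
  intro hz
  have hm0 : (m : ℝ) ≠ 0 := by exact_mod_cast NeZero.ne m
  have hF' : F * Fᵀ = (m : ℤ) • 1 := by
    have hd : F.det ≠ 0 := fun e => by
      have h1 := congrArg det hF
      rw [det_mul, e, mul_zero, det_smul, det_one, mul_one] at h1
      exact pow_ne_zero _ (by exact_mod_cast NeZero.ne m) h1.symm
    have h2 : (F * Fᵀ - (m : ℤ) • (1 : Matrix ρ ρ ℤ)) * F = 0 := by
      rw [Matrix.sub_mul, Matrix.mul_assoc, hF, Matrix.mul_smul, Matrix.smul_mul, Matrix.mul_one,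
        Matrix.one_mul, sub_self]
    have h3 := congrArg (· * adjugate F) h2
    simp only [Matrix.mul_assoc, mul_adjugate, Matrix.zero_mul, Matrix.mul_smul, Matrix.mul_one]
      at h3
    exact sub_eq_zero.1 ((smul_eq_zero.1 h3).resolve_left hd)
  have hw : ∀ u : ρ → ι ⊕ ι → ℤ, mix F (kq m (mix Fᵀ u)) = kz ((2 : ℤ) • u) := fun u => by
    rw [kq, kmix_smul, ← kmix_kz, kmix_mix hF', smul_smul, kz_smul, mul_assoc,
      inv_mul_cancel₀ hm0, mul_one, Int.cast_ofNat]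
  obtain ⟨χ, hχ⟩ : ∃ χ : S → Multiplicative (ρ → ι ⊕ ι → ℤ) →* ℂ,
      ∀ s u, χ s u = ee (kE ((2 : ℝ) • mix F (kq m (a s))) (kz u.toAdd)) :=
    ⟨fun s =>
      { toFun := fun u => ee (kE ((2 : ℝ) • mix F (kq m (a s))) (kz u.toAdd))
        map_one' := by simp [kE, kz]
        map_mul' := fun u v => by rw [toAdd_mul, kz_add, kE_add_right, ofReal_add, ee_add] },
      fun _ _ => rfl⟩
  obtain ⟨v, hv⟩ := Function.ne_iff.1 (Th_ne_zero hτ)
  have hx : kP τ F ((m : ℝ)⁻¹ • mix Fᵀ fun _ => v) ≠ 0 := by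
    rw [kP, kmix_smul, kmix_mix hF', smul_smul, inv_mul_cancel₀ hm0, one_smul]
    exact Finset.prod_ne_zero_iff.2 fun _ _ => hv
  generalize ((m : ℝ)⁻¹ • mix Fᵀ fun _ => v) = x at hx
  have h1 := kchar χ (fun s => kU m (kq m (a s)) (kP τ F) x) fun u => by
    have h2 := congrFun (congrArg (kU m (kq m (mix Fᵀ u.toAdd))) hz) x
    rw [kU_sum, Finset.sum_apply] at h2
    refine Eq.trans (Finset.sum_congr rfl fun s _ => ?_) (h2.trans (by simp [kU]))
    rw [kU_comm, kU_two hτ hF (hw _), ← ofReal_natCast, ← ofReal_mul, ← kE_mix hF, hw, kz_smul,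
      kE_smul_right, ← kE_smul_left, Int.cast_ofNat, hχ, Pi.smul_apply, smul_eq_mul]
  have h2 : ∀ s, χ s = 1 → kU m (kq m (a s)) (kP τ F) = kP τ F := by
    intro s hs
    have h3 : ∀ j, ∃ n, ((2 : ℝ) • mix F (kq m (a s))) j = rz n := fun j =>
      exists_rz_of_E fun n => by
        have h4 := hχ s (Multiplicative.ofAdd (Pi.single j n))
        have h5 : kz (Pi.single j n : ρ → ι ⊕ ι → ℤ) = Pi.single j (rz n) := by
          funext i
          by_cases e : i = j <;> simp [kz, e]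
        rw [hs, toAdd_ofAdd, h5, kE_single] at h4
        exact h4.symm
    choose n hn using h3
    obtain ⟨t, ht⟩ := hm
    have h4 : (2 : ℝ) • mix F (kq m (a s)) = kz n := funext hn
    refine kU_two hτ hF (n := (m : ℤ) • mix F (a s) + (-(t * t + t) : ℤ) • n) ?_
    rw [kz_smul, kz_add, kz_smul, kz_smul, ← h4, kq, kmix_smul, kmix_kz]
    have h5 : (m : ℝ) = 2 * t + 1 := by exact_mod_cast ht
    simp only [smul_smul, ← add_smul]
    congr 1
    push_cast
    field_simp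
    rw [h5]
    ring
  rw [Finset.sum_congr rfl fun s _ => if_ctx_congr Iff.rfl (fun e => congrFun (h2 s e) x)
    fun _ => rfl, ← Finset.sum_filter, Finset.sum_const, nsmul_eq_mul, mul_eq_zero] at h1
  refine hx (h1.resolve_left ?_)
  refine Nat.cast_ne_zero.2 (Finset.card_ne_zero.2 ⟨s₀, Finset.mem_filter.2 ⟨Finset.mem_univ _, ?_⟩⟩)
  ext u
  simp [hχ, h0, kq, kE, kz, mix]

end main

open Classical in
/-- KOIZUMI. Put `Φ x = ∏ j, Th τ (mix F x j)`, `U4 y f x = ee (m ∑ k, E (y k) (x k) / 2) f (x + y)`;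
the left side is `Ψ = ∑ s, U4 (2 s) Φ`, `s k = lift (s k) / m`.
(1) `∑ j, E (mix F x j) (mix F y j) = m ∑ k, E (x k) (y k)`, so `U4 y Φ = ∏ j, chi (n j) • Φ` if
`mix F y j = rz (n j)`; the summand depends only on the class of the lift modulo `m`
(`U4 (2 (s + n)) = U4 (2 s) U4 (2 n)`, the phase is `2 m E (n, s) ∈ ℤ`).
(2) In slot `k` the summand is in `Hol τ m`: `Th (a v + c) = ee (-E c (a v) / 2) (U c Th) (a v)`,
`Hol.U`, `Hol.scale`, `Hol.mul`, `∑ j, F j k ^ 2 = m`, and the phases cancel by orthogonality.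
(3) If `mR h *ᵥ l = rz n` then `l = b / m`, `b = adj h *ᵥ n`, `b = n` modulo two, `l = 2 s' - b` with
`s' = ((m + 1) / 2) b / m`; `U4 (2 s')` in slot `k` permutes the summands (phases `2 m E (s, s')`
are even integers because `m E (s, s') = E (h s, h s')`), `U4 (-b)` in slot `k` commutes with them
and acts on `Φ` by `∏ j, chi (F j k • b) = chi b ^ m = chi n`. Then `eq_Th_comp` and `slot`.
(4) `c ≠ 0`: for `u : ρ → ι ⊕ ι → ℤ`, `w = mix Fᵀ u / m`, `U4 (2 w) Φ = Φ` and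
`U4 (2 w) U4 (2 s) Φ = χ_s u • U4 (2 s) Φ`, `χ_s u = ee (± 4 ∑ j, E (u j) (mix F s j))`. If `Ψ = 0`,
`linearIndependent_monoidHom` shows that the terms with `χ_s = 1` add up to zero; for these
`mix F s` is integral (`m` odd), so `U4 (2 s) Φ = Φ`; `s = 0` is one of them and `Φ ≠ 0`. -/
theorem koizumi {m : ℕ} [NeZero m] (hm : Odd m) {h : Matrix (ι ⊕ ι) (ι ⊕ ι) ℤ}
    (hs : SimR h (m : ℤ)) (h2 : One 2 h) {F : Matrix ρ ρ ℤ} (hF : Fᵀ * F = (m : ℤ) • 1)
    (hτ : InH τ) (hτ' : InH τ') (hR : Rel (mR h) τ τ') :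
    ∃ c : ℂ, c ≠ 0 ∧ ∀ x : ρ → ι ⊕ ι → ℝ,
      ∑ s : ρ → kerM m h, ee ((∑ k, Ef (rz (lift (s k).1)) (x k) : ℝ)) *
        ∏ j, Th τ (mix F (fun k => x k + (2 : ℝ) • rq m (lift (s k).1)) j) =
      c * ∏ k, Th τ' (mR h *ᵥ x k) := by
  have hm0 : (m : ℝ) ≠ 0 := by exact_mod_cast NeZero.ne m
  have hmz : (m : ℤ) ≠ 0 := by exact_mod_cast NeZero.ne m
  have hR1 : ∀ {A B : Matrix (ι ⊕ ι) (ι ⊕ ι) ℤ}, A * B = (m : ℤ) • 1 → ∀ y : ι ⊕ ι → ℝ,
      mR A *ᵥ (mR B *ᵥ y) = (m : ℝ) • y := by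
    intro A B e y
    have h1 : mR A * mR B = (m : ℝ) • 1 := by
      rw [show mR A * mR B = mR (A * B) from (Matrix.map_mul (f := Int.castRingHom ℝ)).symm, e]
      ext i j
      simp only [mR, map_apply, Matrix.smul_apply, one_apply, smul_eq_mul]
      split_ifs <;> simp
    rw [mulVec_mulVec, h1, smul_mulVec, one_mulVec]
  let Ψ := ∑ s : ρ → kerM m h, kU m (kq m fun k => lift (s k).1) (kP τ F)
  have hΨ : ∀ (k : ρ) (n : ι ⊕ ι → ℤ) l, mR h *ᵥ l = rz n →
      kU m (Pi.single k l) Ψ = chi n • Ψ := by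
    intro k n l hl
    obtain ⟨t, ht⟩ := hm
    have h1 : (m : ℝ) • l = rz (adj h *ᵥ n) := by rw [← hR1 hs.adj_mul, hl, mR_mulVec]
    have h3 : chi (adj h *ᵥ n) = chi n := by
      obtain ⟨β, rfl⟩ := h2.mulVec
      have h4 : adj (1 + ((2 : ℕ) : ℤ) • β) = 1 + (2 : ℤ) • adj β := by
        rw [adj, adj, transpose_add, transpose_one, transpose_smul, Matrix.mul_add, Matrix.add_mul,
          Matrix.mul_one, J_squared, Matrix.mul_smul, Matrix.smul_mul, neg_add, neg_neg, smul_neg,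
          Nat.cast_ofNat]
      rw [h4, add_mulVec, one_mulVec, smul_mulVec, chi_add_two]
    have h4 : vZ m (adj h *ᵥ n) ∈ kerM m h := by
      change mZ m h *ᵥ _ = 0
      rw [mZ_mulVec, mulVec_mulVec, hs.mul_adj hmz, smul_mulVec, one_mulVec]
      funext i
      simp [vZ]
    generalize adj h *ᵥ n = b at h1 h3 h4
    have h5 : kz (Pi.single k b : ρ → ι ⊕ ι → ℤ) = (m : ℝ) • Pi.single k l := by
      funext i
      by_cases e : i = k <;> simp [kz, e, h1]
    have h6 : ∀ i, vZ m ((((t : ℤ) + 1) • Pi.single k b : ρ → ι ⊕ ι → ℤ) i) ∈ kerM m h := by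
      intro i
      rw [Pi.smul_apply, vZ_zsmul]
      refine AddSubgroup.zsmul_mem _ ?_ _
      by_cases e : i = k
      · rwa [e, Pi.single_eq_same]
      · rw [Pi.single_eq_of_ne e, show vZ m (0 : ι ⊕ ι → ℤ) = 0 by funext i; simp [vZ]]
        exact zero_mem _
    have h7 := kU_kU m (kq m (((t : ℤ) + 1) • Pi.single k b)) (kz ((-1 : ℤ) • Pi.single k b)) Ψ
    have h8 : kq m (((t : ℤ) + 1) • Pi.single k b) + kz ((-1 : ℤ) • Pi.single k b) =
        (Pi.single k l : ρ → ι ⊕ ι → ℝ) := by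
      have h9 : (m : ℝ) = 2 * t + 1 := by exact_mod_cast ht
      rw [kq, kz_smul, kz_smul, h5]
      generalize (Pi.single k l : ρ → ι ⊕ ι → ℝ) = w
      simp only [smul_smul, ← add_smul]
      conv_rhs => rw [← one_smul ℝ w]
      congr 1
      push_cast
      field_simp
      rw [h9]
      ring
    rw [h8, kq, kz_smul, kz_smul, kE_smul_left, kE_smul_right, kE_smul_right, kE_self] at h7
    simp only [mul_zero, ofReal_zero, zero_div, ee_zero, one_smul] at h7
    rw [← h7, ← kz_smul, ← kz_smul, ← kq]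
    have h9 : ∏ j, chi (mix F ((-1 : ℤ) • Pi.single k b : ρ → ι ⊕ ι → ℤ) j) = chi n := by
      rw [← Pi.single_smul']
      simp only [kmix_single, smul_smul, chi_zsmul, mul_neg, mul_one, neg_mul, neg_neg]
      rw [← h3, kzpow Finset.univ (chi_ne b), ksq hF, ht]
      push_cast
      rw [zpow_add₀ (chi_ne b), _root_.zpow_mul, zpow_ofNat, chi_sq, _root_.one_zpow, one_mul,
        zpow_one]
    simp only [Ψ, kU_sum, kT_int hτ hF, h9, kU_smul, ← Finset.smul_sum]
    congr 1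
    refine Fintype.sum_equiv (Equiv.addLeft fun i => ⟨_, h6 i⟩) _ _ fun s => ?_
    rw [kT_ker hs (fun i => by rw [vZ_lift]; exact (s i).2) h6]
    refine kT_congr hτ hF fun i => ?_
    rw [Pi.add_apply, vZ_add, vZ_lift, vZ_lift]
    rfl
  obtain ⟨v, hv⟩ := Function.ne_iff.1 (Th_ne_zero hτ')
  obtain ⟨c, hc⟩ := slot (Ψ := Ψ) (T := fun v => Th τ' (mR h *ᵥ v))
    (v₀ := (m : ℝ)⁻¹ • mR (adj h) *ᵥ v)
    (by rwa [mulVec_smul, hR1 (hs.mul_adj hmz), smul_smul, inv_mul_cancel₀ hm0, one_smul])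
    fun x k => eq_Th_comp hτ hτ' (m := m) (by exact_mod_cast Nat.pos_of_ne_zero (NeZero.ne m))
      (by simpa using hs.sim) hR (f := fun v => Ψ (Function.update x k v))
      (by
        refine (Set.mem_of_eq_of_mem (funext fun v => ?_) (Submodule.sum_mem (Hol τ m)
          (t := Finset.univ) fun (s : ρ → kerM m h) _ =>
            kU_hol hτ hF (kq m fun k => lift (s k).1) x k) :)
        simp only [Ψ, Finset.sum_apply])
      fun n l hl => funext fun v => by
        have h1 := congrFun (hΨ k n l hl) (Function.update x k v)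
        rw [kU, kE_swap, kE_single, Function.update_self, ← Ef_swap] at h1
        refine Eq.trans ?_ h1
        rw [U, E_eq, ofReal_natCast]
        congr 2
        funext i
        by_cases e : i = k <;> simp [e]
  refine ⟨c, fun e => kP_ne hm hτ hF (fun (s : ρ → kerM m h) k => lift (s k).1) (s₀ := 0) ?_ ?_,
    fun x => ?_⟩
  · funext k i
    simp [lift]
  · exact funext fun x => (hc x).trans (by rw [e, zero_mul]; rfl)
  · have hm' : (m : ℂ) ≠ 0 := by exact_mod_cast NeZero.ne m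
    rw [← hc]
    simp only [Ψ, Finset.sum_apply]
    refine Finset.sum_congr rfl fun s _ => ?_
    rw [kU, kP]
    congr 2
    · rw [kq, kE_smul_left, kE]
      push_cast
      field_simp
      rfl
    · funext j
      congr 2
      funext k
      simp only [kq, kz, rq, Pi.add_apply, Pi.smul_apply, smul_smul]

omit [Fintype ι] [DecidableEq ι] [Fintype ρ] [DecidableEq ρ] in
/-- Four squares and the quaternion matrix. -/
theorem exists_four (m : ℕ) : ∃ F : Matrix (Fin 4) (Fin 4) ℤ, Fᵀ * F = (m : ℤ) • 1 := by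
  obtain ⟨a, b, c, d, h⟩ := Nat.sum_four_squares m
  refine ⟨!![a, -b, -c, -d; b, a, -d, c; c, d, a, -b; d, -c, b, a], ?_⟩
  rw [← h]
  ext i j
  fin_cases i <;> fin_cases j <;> simp [mul_apply, Fin.sum_univ_four] <;> ring

end M4.Kz
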