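import Pool.Agent.Lib.MP_33b3f9_ag.M4.KzMu
import Pool.Agent.Lib.MP_33b3f9_ag.M4.KzKoi

/-!
Block B1b: integral equivariant coordinates of isogenous points.
-/

set_option autoImplicit false

namespace M4.Kz

open Complex Matrix

variable {ι : Type} [Fintype ι] [DecidableEq ι] {τ τ' : Matrix ι ι ℂ} {t : ℂ} {σ : ℂ →+* ℂ}
  {ρ : Type} [Fintype ρ] [DecidableEq ρ] {F : Matrix ρ ρ ℤ} {m : ℕ}

omit [DecidableEq ι] in
theorem pts_sum_Ef (hF : Fᵀ * F = (m : ℤ) • 1) (x y : ρ → ι ⊕ ι → ℤ) :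
    ∑ j, Ef (mix F x j) (mix F y j) = m * ∑ k, Ef (x k) (y k) := by
  have h : ∀ k l, ∑ j, F j k * F j l = if k = l then (m : ℤ) else 0 := fun k l => by
    simpa [mul_apply, one_apply] using congrFun (congrFun hF k) l
  simp only [mix, Ef_sum_left, Ef_sum_right, Ef_smul_left, Ef_smul_right]
  rw [Finset.sum_comm, Finset.mul_sum]
  refine Finset.sum_congr rfl fun l _ => ?_
  simp only [Finset.mul_sum]
  rw [Finset.sum_comm]
  simp only [← mul_assoc, ← Finset.sum_mul, h]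
  simp

omit [DecidableEq ρ] in
theorem pts_map_mix {M N : Type} [AddCommGroup M] [AddCommGroup N] (f : M →+ N) (x : ρ → M)
    (j : ρ) : f (mix F x j) = mix F (fun i => f (x i)) j := by
  simp [mix, map_sum]

omit [DecidableEq ρ] in
theorem pts_mix_add {M : Type} [AddCommGroup M] (c : ℤ) (x y : ρ → M) (j : ρ) :
    mix F (fun i => x i + c • y i) j = mix F x j + c • mix F y j := by
  simp only [mix, smul_add, Finset.sum_add_distrib, Finset.smul_sum, smul_comm c]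

/-- One summand. -/
noncomputable def sm (τ : Matrix ι ι ℂ) (t : ℂ) (F : Matrix ρ ρ ℤ) (m : ℕ)
    (k a : ρ → ι ⊕ ι → ℤ) : ℂ := ∏ j, XX τ (mix F k j) (rq m (mix F a j)) / t

omit [DecidableEq ι] in
theorem sm_congr (hτ : InH τ) (hm : m ≠ 0) (hF : Fᵀ * F = (m : ℤ) • 1) (k : ρ → ι ⊕ ι → ℤ)
    {a b : ρ → ι ⊕ ι → ℤ} (h : ∀ i, vZ m (a i) = vZ m (b i)) : sm τ t F m k a = sm τ t F m k b := by
  choose n hn using fun i => (vZ_eq_iff m _ _).1 (h i)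
  rw [funext hn]
  simp only [sm, pts_mix_add, XX_rq_shift hτ hm, mul_div_assoc, Finset.prod_mul_distrib]
  rw [← ee_sum, ← Finset.sum_div, ← Int.cast_sum, ← Finset.mul_sum, pts_sum_Ef hF,
    (ee_div_eq_one hm).2 ((dvd_mul_right _ _).mul_left _), one_mul]

variable [NeZero m]

omit [DecidableEq ι] in
theorem YY_gal (hτ : InH τ) (hF : Fᵀ * F = (m : ℤ) • 1) {r : Matrix (ι ⊕ ι) (ι ⊕ ι) ℤ}
    (hr : ∀ k a, σ (XX τ k (rq m a) / t) = XX τ k (rq m (r *ᵥ a)) / t)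
    {G G' : Set (ι ⊕ ι → ZMod m)} (hG : Set.BijOn (mZ m r).mulVec G G') (k : ρ → ι ⊕ ι → ℤ) :
    σ (YY τ t F G k) = YY τ t F G' k := by
  classical
  unfold YY
  rw [map_sum]
  refine Fintype.sum_equiv (Equiv.piCongrRight fun _ => hG.equiv _) _ _ fun s => ?_
  simp only [map_prod, hr]
  have : ∀ j, r *ᵥ mix F (fun i => lift (s i).1) j = mix F (fun i => r *ᵥ lift (s i).1) j :=
    fun j => pts_map_mix r.mulVecLin.toAddMonoidHom _ j
  simp only [this]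
  refine sm_congr hτ (NeZero.ne m) hF k fun i => ?_
  rw [← mZ_mulVec, vZ_lift, vZ_lift]
  rfl

omit [DecidableEq ι] in
theorem yy_gal (hτ : InH τ) (hF : Fᵀ * F = (m : ℤ) • 1) {r : Matrix (ι ⊕ ι) (ι ⊕ ι) ℤ}
    (hr : ∀ k a, σ (XX τ k (rq m a) / t) = XX τ k (rq m (r *ᵥ a)) / t)
    {G G' : Set (ι ⊕ ι → ZMod m)} (hG : Set.BijOn (mZ m r).mulVec G G') (i₀ : ρ)
    (η : ι ⊕ ι → ℤ) : σ (yy τ t F i₀ G η) = yy τ t F i₀ G' η := by
  have : eta1 τ t F G = eta1 τ t F G' := by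
    unfold eta1
    congr 1
    funext η
    rw [← YY_gal hτ hF hr hG, map_ne_zero]
  rw [yy, yy, YY_gal hτ hF hr hG, this]

omit [NeZero m] in
theorem Th_one_eight (hτ : InH τ) {h : Matrix (ι ⊕ ι) (ι ⊕ ι) ℤ} (h8 : One 8 h)
    (k : ι ⊕ ι → ℤ) : Th τ (mR h *ᵥ hf k) = Th τ (hf k) := by
  obtain ⟨β, rfl⟩ := h8.mulVec
  have : mR (1 + ((8 : ℕ) : ℤ) • β) *ᵥ hf k = hf k + rz ((2 : ℤ) • (2 : ℤ) • β *ᵥ k) := by
    rw [hf, mulVec_smul, mR_mulVec, add_mulVec, one_mulVec, smul_mulVec, rz_add, rz_zsmul, rz_zsmul,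
      rz_zsmul]
    push_cast; module
  rw [this, Th_add_int hτ, chi_two, one_mul, ee_congr (t := 0) (-Ef (β *ᵥ k) k), ee_zero, one_mul]
  simp only [hf, rz_zsmul, Ef_smul_left, Ef_smul_right, Ef_rz]
  push_cast; ring

omit [DecidableEq ι] [NeZero m] in
theorem sm_eq (hm : m ≠ 0) (hF : Fᵀ * F = (m : ℤ) • 1) (k a : ρ → ι ⊕ ι → ℤ) :
    sm τ t F m k a = (ee ((∑ i, Ef (rz (a i)) (hf (k i)) : ℝ)) *
      ∏ j, Th τ (mix F (fun i => hf (k i) + (2 : ℝ) • rq m (a i)) j)) / t ^ Fintype.card ρ := by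
  have hm0 : (m : ℂ) ≠ 0 := by exact_mod_cast hm
  have h1 : ∏ j, ee ((Ef (rz (mix F k j)) (rq m (mix F a j)) : ℝ) / 2) =
      ee ((∑ i, Ef (rz (a i)) (hf (k i)) : ℝ)) := by
    rw [← ee_sum]
    refine ee_congr (∑ i, Ef (k i) (a i)) ?_
    simp only [Ef_rz_rq, ← Finset.sum_div, ← Int.cast_sum, pts_sum_Ef hF, hf, Ef_smul_right, Ef_rz,
      ← Finset.mul_sum, Ef_swap (a _) (k _), Finset.sum_neg_distrib]
    push_cast
    field_simp
    ring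
  have h2 : ∀ j, (2 : ℝ) • rq m (mix F a j) + hf (mix F k j) =
      mix F (fun i => hf (k i) + (2 : ℝ) • rq m (a i)) j := fun j => by
    funext i
    simp only [mix, hf, rq, rz, Pi.add_apply, Pi.smul_apply, Finset.sum_apply, smul_eq_mul,
      Int.cast_sum, Int.cast_mul, Finset.mul_sum, ← Finset.sum_add_distrib]
    exact Finset.sum_congr rfl fun l _ => by rw [zsmul_eq_mul]; ring
  rw [sm, Finset.prod_div_distrib, Finset.prod_const, Finset.card_univ, ← h1,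
    ← Finset.prod_mul_distrib]
  simp only [XX_def, h2]

theorem YY_koi (hm : Odd m) {h : Matrix (ι ⊕ ι) (ι ⊕ ι) ℤ} (hs : SimR h (m : ℤ)) (h8 : One 8 h)
    (hF : Fᵀ * F = (m : ℤ) • 1) (hτ : InH τ) (hτ' : InH τ') (hR : Rel (mR h) τ τ') (ht : t ≠ 0) :
    ∃ c : ℂ, c ≠ 0 ∧ ∀ k, YY τ t F (kerM m h : Set (ι ⊕ ι → ZMod m)) k =
      c * ∏ i, Th τ' (hf (k i)) := by
  classical
  obtain ⟨c, hc, H⟩ := koizumi hm hs (fun i j => (by norm_num : ((2 : ℕ) : ℤ) ∣ (8 : ℕ)).trans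
    (h8 i j)) hF hτ hτ' hR
  refine ⟨c / t ^ Fintype.card ρ, div_ne_zero hc (pow_ne_zero _ ht), fun k => ?_⟩
  have H1 := (H fun i => hf (k i)).trans (congrArg (c * ·)
    (Finset.prod_congr rfl fun i _ => Th_one_eight hτ' h8 (k i)))
  rw [div_mul_eq_mul_div, ← H1, Finset.sum_div]
  unfold YY
  refine Finset.sum_congr ?_ fun s _ => sm_eq (NeZero.ne m) hF k fun i => lift (s i).1
  ext s
  simp only [Finset.mem_univ]

omit [DecidableEq ι] in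
theorem yy_of_prod {G : Set (ι ⊕ ι → ZMod m)} {c : ℂ} (hc : c ≠ 0) {T : (ι ⊕ ι → ℤ) → ℂ}
    (H : ∀ k, YY τ t F G k = c * ∏ i, T (k i)) {e : ι ⊕ ι → ℤ} (he : T e ≠ 0) (i₀ : ρ) :
    ∃ c : ℂ, c ≠ 0 ∧ ∀ η, yy τ t F i₀ G η = c * T η := by
  have h1 : YY τ t F G (fun _ => eta1 τ t F G) ≠ 0 :=
    Classical.epsilon_spec (p := fun η => YY τ t F G (fun _ => η) ≠ 0) ⟨e, by
      rw [H]; exact mul_ne_zero hc (Finset.prod_ne_zero_iff.2 fun _ _ => he)⟩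
  rw [H] at h1
  have h2 := Finset.prod_ne_zero_iff.1 (right_ne_zero_of_mul h1) i₀ (Finset.mem_univ _)
  refine ⟨c * ∏ _i ∈ Finset.univ.erase i₀, T (eta1 τ t F G),
    mul_ne_zero hc (Finset.prod_ne_zero_iff.2 fun _ _ => h2), fun η => ?_⟩
  rw [yy, H, ← Finset.mul_prod_erase _ _ (Finset.mem_univ i₀), Function.update_self, mul_assoc,
    mul_comm (T η), Finset.prod_congr rfl fun i hi => by
      rw [Function.update_of_ne (Finset.ne_of_mem_erase hi)]]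

theorem yy_koi (hm : Odd m) {h : Matrix (ι ⊕ ι) (ι ⊕ ι) ℤ} (hs : SimR h (m : ℤ)) (h8 : One 8 h)
    (hF : Fᵀ * F = (m : ℤ) • 1) (hτ : InH τ) (hτ' : InH τ') (hR : Rel (mR h) τ τ') (ht : t ≠ 0)
    (i₀ : ρ) : ∃ c : ℂ, c ≠ 0 ∧ ∀ η, yy τ t F i₀ (kerM m h : Set (ι ⊕ ι → ZMod m)) η =
      c * Th τ' (hf η) := by
  obtain ⟨c, hc, H⟩ := YY_koi hm hs h8 hF hτ hτ' hR ht
  obtain ⟨e, he⟩ := exists_null_ne_zero hτ'
  exact yy_of_prod hc (T := fun η => Th τ' (hf η)) H he i₀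

omit [DecidableEq ι] in
theorem YY_int {D : ℂ} (hD : ∀ k a, IsIntegral ℤ (D * (XX τ k (rq m a) / t)))
    (G : Set (ι ⊕ ι → ZMod m)) (k : ρ → ι ⊕ ι → ℤ) :
    IsIntegral ℤ (D ^ Fintype.card ρ * YY τ t F G k) := by
  unfold YY
  rw [Finset.mul_sum]
  refine IsIntegral.sum _ fun s _ => ?_
  rw [← Finset.card_univ, ← Finset.prod_const, ← Finset.prod_mul_distrib]
  exact IsIntegral.prod _ fun j _ => hD _ _

omit [DecidableEq ι] in
theorem YY_le (φ : ℂ →+* ℂ) {B : ℝ} (hB : ∀ k a, ‖φ (XX τ k (rq m a) / t)‖ ≤ B)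
    (G : Set (ι ⊕ ι → ZMod m)) (k : ρ → ι ⊕ ι → ℤ) :
    ‖φ (YY τ t F G k)‖ ≤ (Nat.card G * B) ^ Fintype.card ρ := by
  classical
  unfold YY
  rw [map_sum]
  refine (norm_sum_le _ _).trans ((Finset.sum_le_card_nsmul _ _ (B ^ Fintype.card ρ)
    fun s _ => ?_).trans_eq ?_)
  · rw [map_prod, norm_prod, ← Finset.card_univ, ← Finset.prod_const]
    exact Finset.prod_le_prod (fun _ _ => norm_nonneg _) fun j _ => hB _ _
  · rw [nsmul_eq_mul, mul_pow, Finset.card_univ, ← Nat.card_eq_fintype_card, Nat.card_fun,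
      Nat.card_eq_fintype_card (α := ρ), Nat.cast_pow]

end M4.Kz
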