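import Pool.Agent.Lib.MP_33b3f9_ag.M4.ZMain
import Pool.Agent.Lib.MP_33b3f9_ag.M4.IDefs
import Pool.Agent.Lib.MP_33b3f9_ag.M4.ThAct
import Pool.Agent.Lib.MP_33b3f9_ag.M4.ThSum

/-! The zero estimate for families of lattices. -/

namespace M4.Z
open MvPolynomial Matrix Filter Topology Pool.Agent.M4.Det

theorem geo_hp {Ξ σ κ : Type} [Fintype σ] [Fintype κ] (y : Matrix σ κ ℂ) (u : Ξ → κ → ℂ)
    (X : Finset Ξ) (μ : ℕ) :
    HP (fun ξ => y *ᵥ u ξ) (X : Set Ξ) μ ≤ hil (fun ξ : X => u ξ) μ := by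
  classical
  refine Submodule.finrank_mono (s := (homogeneousSubmodule σ ℂ μ).map (evs _ (X : Set Ξ))) ?_
  rintro _ ⟨g, hg, rfl⟩
  let f : σ → MvPolynomial κ ℂ := fun i => ∑ j, C (y i j) * MvPolynomial.X j
  have hf : ∀ i, (f i).IsHomogeneous 1 := fun i =>
    IsHomogeneous.sum _ _ _ fun j _ => isHomogeneous_C_mul_X _ _
  have hG : (aeval f g).IsHomogeneous μ := by
    simpa using IsHomogeneous.aeval hg f hf
  have he : evs (fun ξ => y *ᵥ u ξ) (X : Set Ξ) g =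
      ∑ m ∈ (aeval f g).support, coeff m (aeval f g) • mono (fun ξ : X => u ξ) m := by
    funext ξ
    have h1 : eval (u ξ) (aeval f g) = eval (y *ᵥ u ξ) g := by
      rw [← coe_aeval_eq_eval, RingHom.coe_coe, ← AlgHom.comp_apply, comp_aeval,
        ← coe_aeval_eq_eval, RingHom.coe_coe]
      congr 2
      funext i
      simp [f, mulVec, dotProduct]
    rw [eval_eq'] at h1
    simp only [evs, LinearMap.pi_apply, AlgHom.toLinearMap_apply, Finset.sum_apply,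
      Pi.smul_apply, smul_eq_mul, mono]
    exact h1.symm
  rw [he]
  refine Submodule.sum_mem _ fun m hm => Submodule.smul_mem _ _ (Submodule.subset_span
    ⟨⟨m, ?_⟩, rfl⟩)
  have := hG (mem_support_iff.1 hm)
  rw [← this, Finsupp.weight_apply, Finsupp.sum_fintype _ _ (by simp)]
  simp

theorem geo_open {a : Sy} (ha : InH (mat a)) : ∀ᶠ z in 𝓝 a, InH (mat z) := by
  have h1 : Continuous fun (z : Sy) (i j : Fin 4) => mat z i j := by
    unfold mat; fun_prop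
  filter_upwards [h1.continuousAt.eventually (isOpen_posIm.mem_nhds ha.posIm)] with z hz
  have hs : (mat z).IsSymm := by ext i j; simp [mat, Sym2.eq_swap]
  refine ⟨hs, Matrix.PosDef.of_dotProduct_mulVec_pos ?_ fun x hx => ?_⟩
  · ext i j; simp [mat, Sym2.eq_swap]
  · refine (hz x hx).trans_eq ?_
    simp only [star_trivial, dotProduct, mulVec, map_apply, Finset.mul_sum]
    exact Finset.sum_congr rfl fun i _ => Finset.sum_congr rfl fun j _ => by ring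

theorem geo_thin {α V : Type} [AddCommGroup V] [Module ℂ V] (x : α → V) (B : Set α)
    (hB : B.Finite) (h0 : ∀ ξ ∈ B, x ξ ≠ 0) (C : ℕ)
    (hC : ∀ v, {η | η ∈ B ∧ ∃ c : ℂ, x η = c • v}.ncard ≤ C) : ∃ S : Finset α, (S : Set α) ⊆ B ∧
      (∀ ξ ∈ S, ∀ ξ' ∈ S, ∀ t : ℂ, x ξ' = t • x ξ → ξ = ξ') ∧ B.ncard ≤ S.card * C := by
  let f : α → Submodule ℂ V := fun ξ => Submodule.span ℂ {x ξ}
  obtain ⟨S, h1, h2⟩ := (Set.surjOn_image f B).exists_bijOn_subset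
  lift S to Finset α using hB.subset h1
  refine ⟨S, h1, fun ξ h ξ' h' t e => h2.injOn h h' ?_, ?_⟩
  · have ht : t ≠ 0 := fun e0 => h0 ξ' (h1 h') (by rw [e, e0, zero_smul])
    simp only [f, e]
    exact (Submodule.span_singleton_smul_eq ht.isUnit _).symm
  · rw [← Set.ncard_coe_finset, h2.ncard_eq]
    refine last_fib hB f (hB.image f) (fun ξ h => ⟨ξ, h, rfl⟩) C ?_
    rintro _ ⟨ξ, _, rfl⟩
    refine le_trans (Set.ncard_le_ncard (fun η h => ?_) (hB.subset fun _ h => h.1)) (hC (x ξ))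
    obtain ⟨c, hc⟩ := Submodule.mem_span_singleton.1 (h.2.le (Submodule.mem_span_singleton_self _))
    exact ⟨h.1, c, hc.symm⟩

theorem geo_zr_mul (g h : MZ) : zr (g * h) = zr g * zr h :=
  Matrix.map_mul (f := Int.castRingHom ℝ)

theorem geo_zr_smul (c : ℤ) (g : MZ) : zr (c • g) = (c : ℝ) • zr g := by
  ext i j; simp only [zr, map_apply, Matrix.smul_apply, smul_eq_mul, Int.cast_mul]

theorem geo_zr_inj {g h : MZ} (e : zr g = zr h) : g = h := by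
  ext i j
  exact Int.cast_injective (α := ℝ) (congrFun (congrFun e i) j)

theorem geo_zr_one : zr 1 = 1 := Matrix.map_one _ Int.cast_zero Int.cast_one

theorem geo_act_mul {g h : Matrix ν ν ℝ} {m n : ℝ} (hg : Sim g m) (hm : 0 < m) (hh : Sim h n)
    (hn : 0 < n) {τ : Mat} (hτ : InH τ) : act (g * h) τ = act g (act h τ) :=
  act_mul (den_det_ne_zero hh hn hτ) (den_det_ne_zero hg hm (inH_act hh hn hτ))

/-- The symplectic adjoint. -/
theorem geo_adj {g : MZ} {m : ℕ} (hg : Sim (zr g) m) (hm : 0 < m) :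
    ∃ g' : MZ, Sim (zr g') m ∧ g' * g = (m : ℤ) • (1 : MZ) ∧ g * g' = (m : ℤ) • (1 : MZ) := by
  have hJ : zr (J (Fin 4) ℤ) = J (Fin 4) ℝ := Matrix.map_J (f := Int.castRingHom ℝ) _
  have hm' : (m : ℝ) ≠ 0 := by positivity
  have h1 : ∀ {k : Matrix ν ν ℝ}, Sim k m → -(J (Fin 4) ℝ * kᵀ * J (Fin 4) ℝ) * k =
      (m : ℝ) • (1 : Matrix ν ν ℝ) := fun {k} hk => by
    rw [neg_mul, mul_assoc (J _ _), mul_assoc (J _ _), sim_iff.1 hk, Matrix.mul_smul, J_squared]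
    simp
  have h2 : zr (-(J (Fin 4) ℤ * gᵀ * J (Fin 4) ℤ)) = -(J (Fin 4) ℝ * (zr g)ᵀ * J (Fin 4) ℝ) := by
    rw [← neg_one_smul ℤ, geo_zr_smul, geo_zr_mul, geo_zr_mul, hJ]
    simp [zr, Matrix.transpose_map]
  have h3 : zr (-(J (Fin 4) ℤ * gᵀ * J (Fin 4) ℤ)) = (m : ℝ) • (zr g)⁻¹ := by
    rw [h2, ← mul_one (-_), ← mul_nonsing_inv (zr g) (hg.det_ne_zero hm').isUnit, ← mul_assoc,
      h1 hg]
    simp
  refine ⟨-(J (Fin 4) ℤ * gᵀ * J (Fin 4) ℤ), fun x y => ?_, geo_zr_inj ?_, geo_zr_inj ?_⟩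
  · have := (hg.inv hm') ((m : ℝ) • x) ((m : ℝ) • y)
    rw [h3, smul_mulVec, smul_mulVec, ← mulVec_smul, ← mulVec_smul, this]
    simp only [E, Pi.smul_apply, smul_eq_mul, Finset.mul_sum]
    exact Finset.sum_congr rfl fun i _ => by field_simp
  · rw [geo_zr_mul, geo_zr_smul, h2, h1 hg, geo_zr_one]; simp
  · rw [geo_zr_mul, geo_zr_smul, h3, Matrix.mul_smul,
      mul_nonsing_inv _ (hg.det_ne_zero hm').isUnit, geo_zr_one]; simp

theorem geo_pos {g : MZ} {M : ℕ} (h : Iso g M) : 0 < M := Nat.pos_of_ne_zero h.1.1.ne_zero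

theorem geo_same {τ t : Mat} (hτ : InH τ) (hg : GEN (cst τ)) (h3 : STABst) (ht : InH t)
    {g g' γ γ' : MZ} {M M' : ℕ} (h : Iso g M) (h' : Iso g' M') (hγ : Sim (zr γ) 1)
    (hγ' : Sim (zr γ') 1) (e : act (zr g) τ = act (zr γ) t) (e' : act (zr g') τ = act (zr γ') t) :
    ∃ δ : MZ, Sim (zr δ) 1 ∧ ∃ c c' : ℤ, c ≠ 0 ∧ c • g' = c' • (δ * g) := by
  have hM : (0 : ℝ) < M := by exact_mod_cast geo_pos h
  have hM' : (0 : ℝ) < M' := by exact_mod_cast geo_pos h'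
  obtain ⟨u, u1, u2, -⟩ := geo_adj (m := 1) (by simpa using hγ) one_pos
  obtain ⟨w, w1, w2, w3⟩ := geo_adj h'.2.2 (geo_pos h')
  rw [Nat.cast_one] at u1
  rw [Nat.cast_one, one_smul] at u2
  have hδ : Sim (zr (γ' * u)) 1 := by simpa [geo_zr_mul] using hγ'.mul u1
  have hδg : Sim (zr (γ' * u * g)) M := by simpa [geo_zr_mul] using hδ.mul h.2.2
  have e1 : act (zr (γ' * u * g)) τ = act (zr g') τ := by
    rw [geo_zr_mul, geo_act_mul hδ one_pos h.2.2 hM hτ, e,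
      ← geo_act_mul hδ one_pos hγ one_pos ht, ← geo_zr_mul, mul_assoc, u2, mul_one, e']
  obtain ⟨c, hc⟩ := h3 τ hτ hg (w * (γ' * u * g)) (M' * M) (Nat.mul_pos (geo_pos h') (geo_pos h))
    (by simpa [geo_zr_mul] using w1.mul hδg) (by
      rw [geo_zr_mul, geo_act_mul w1 hM' hδg hM hτ, e1, ← geo_act_mul w1 hM' h'.2.2 hM' hτ,
        ← geo_zr_mul, w2, geo_zr_smul, act_smul (by exact_mod_cast hM'.ne'), geo_zr_one, act_one])
  have e2 : c • g' = (M' : ℤ) • (γ' * u * g) := by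
    rw [← mul_one g', ← Matrix.mul_smul, ← hc, ← mul_assoc, w3, Matrix.smul_mul, one_mul]
  refine ⟨γ' * u, hδ, c, M', ?_, e2⟩
  rintro rfl
  have h4 : γ' * u * g = 0 := by
    rw [zero_smul] at e2
    exact (smul_eq_zero.1 e2.symm).resolve_left (by exact_mod_cast hM'.ne')
  exact hδg.det_ne_zero hM.ne' (by rw [h4]; simp [zr])

theorem geo_mu {y : Matrix (Fin 11) Bits ℂ} {τ : Mat} (hτ : InH τ) (hg : GEN (cst τ))
    (h2 : FIBst y) (h3 : STABst) : ∃ C : ℕ, ∀ (α : Type) (X : Finset α) (g : α → MZ) (M : α → ℕ),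
      (∀ ξ ∈ X, Iso (g ξ) (M ξ)) → M4.Sep X g → ∀ v : Fin 11 → ℂ,
      {η | η ∈ (X : Set α) ∧ ∃ c : ℂ, lin y (act (zr (g η)) τ) = c • v}.ncard ≤ C := by
  obtain ⟨C, hC⟩ := h2
  refine ⟨C, fun α X g M hI hS v => ?_⟩
  obtain ⟨T, h1, h4, h5⟩ := hC v
  choose! t ht γ hγ e using fun η (h : η ∈ {η | η ∈ (X : Set α) ∧
    ∃ c : ℂ, lin y (act (zr (g η)) τ) = c • v}) => h5 _ (inH_act (hI η h.1).2.2
      (by exact_mod_cast geo_pos (hI η h.1)) hτ) h.2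
  refine le_trans ?_ h1
  rw [← Set.ncard_coe_finset]
  refine Set.ncard_le_ncard_of_injOn t ht (fun η h η' h' e1 => ?_) T.finite_toSet
  obtain ⟨δ, k1, c, c', k2, k3⟩ := geo_same hτ hg h3 (h4 _ (ht η h)) (hI η h.1) (hI η' h'.1)
    (hγ η h) (hγ η' h') (e η h) (e1 ▸ e η' h')
  exact hS η h.1 η' h'.1 δ k1 c c' k2 k3

theorem geo_num1 (Y D e : ℕ) (hY : 2 ≤ Y) (hD : D ≤ Y ^ e) :
    (((10 + 1) * (9 * 10 + 2) + 3 * 10 + 1) * (10 + D)) ^ 10 ≤ Y ^ (10 * (15 + e)) := by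
  have h1 : 1 ≤ Y ^ e := Nat.one_le_pow _ _ (by omega)
  have h2 : 2 ^ 15 ≤ Y ^ 15 := Nat.pow_le_pow_left hY _
  rw [mul_comm 10 (15 + e), pow_mul, pow_add]
  exact Nat.pow_le_pow_left (by nlinarith) _

theorem geo_num2 (Y D e L C : ℕ) (hY : 2 ≤ Y) (hD : D ≤ Y ^ e) :
    (2 * (L + 1) ^ 2 * (D + 1)) ^ 2 ^ 10 * C ≤ ((L + 1) * Y) ^ ((e + 2) * 2 ^ 10 + C) := by
  have h0 : Y ≤ (L + 1) * Y := Nat.le_mul_of_pos_left _ (by omega)
  have h1 : 1 ≤ Y ^ e := Nat.one_le_pow _ _ (by omega)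
  have h2 : Y ^ e ≤ ((L + 1) * Y) ^ e := Nat.pow_le_pow_left h0 _
  have h3 : 2 ^ 2 ≤ Y ^ 2 := Nat.pow_le_pow_left hY _
  rw [pow_add, pow_mul]
  refine Nat.mul_le_mul (Nat.pow_le_pow_left ?_ _)
    (Nat.lt_two_pow_self.le.trans (Nat.pow_le_pow_left (hY.trans h0) _))
  calc 2 * (L + 1) ^ 2 * (D + 1) ≤ 2 * (L + 1) ^ 2 * (2 * ((L + 1) * Y) ^ e) := by gcongr; omega
    _ = ((L + 1) * Y) ^ e * ((L + 1) ^ 2 * 2 ^ 2) := by ring
    _ ≤ ((L + 1) * Y) ^ e * ((L + 1) ^ 2 * Y ^ 2) := by gcongr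
    _ = _ := by ring

theorem geo (y : Matrix (Fin 11) Bits ℂ) (a : Sy) (ha : InH (mat a)) (hg : GEN (cst (mat a)))
    (he : EtProj y a) (h1 : HNst y) (h2 : FIBst y) (h3 : STABst) (h4 : CLst y a) :
    GEOst (mat a) := by
  classical
  obtain ⟨e, h1⟩ := h1
  obtain ⟨C1, hC1⟩ := geo_mu ha hg h2 h3
  obtain ⟨C2, hC2⟩ := h4
  refine ⟨10 * (15 + e) + ((e + 2) * 2 ^ 10 + (C1 + C2 * C1)), ?_⟩
  intro Y s Om _ X g M N k₀ k₁ H₀ L th hY hF _ hN hH hk hk0 hL hK hth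
  obtain ⟨D, hD, h1⟩ := h1 Y hY
  have hM : ∀ ξ ∈ X, (0 : ℝ) < M ξ := fun ξ h => by exact_mod_cast geo_pos (hF.iso ξ h)
  have hE : ∀ ξ ∈ (X : Set (∀ i, Om i)), Et a (Thy y (g ξ)) := fun ξ h => by
    obtain ⟨k1, k2⟩ := he (g ξ) (M ξ) (geo_pos (hF.iso ξ h)) (hF.iso ξ h).2.2
    exact ⟨k1, fun l w e => by simpa using k2 (a₁ := (l, w)) (a₂ := 0) (by simpa using e)⟩
  have n2 := Nat.mul_le_mul_right H₀ ((geo_num2 Y D e L (C1 + C2 * C1) hY hD).trans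
    (Nat.pow_le_pow_right (by positivity) (Nat.le_add_left _ (10 * (15 + e)))))
  have key := zeroEst (σ := Fin 11) (T := Sy) (ι := Fin s) (Ω := Om) 10 N k₁ k₀ H₀ L D (C1 + C2 * C1)
    th (by norm_num) (by simp) (by simp [Sym2.card]; rfl) (by simpa using hN) a
    (fun ξ => Thy y (g ξ)) X hE
    (fun μ hμ => (geo_hp y (fun ξ => th2 (act (zr (g ξ)) (mat a))) X μ).trans (hH μ hμ)) hk hk0 hL
    (fun n φ hφ => ?_) (fun d F P δ c d1 d2 hs hP hh hd hb => ?_)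
    (fun ξ _ => (hC1 _ X g M hF.iso hF.sep _).trans (Nat.le_add_right _ _))
    (le_trans (Nat.mul_le_mul_left _ ((geo_num1 Y D e hY hD).trans
      (Nat.pow_le_pow_right (by omega) (Nat.le_add_right _ _)))) hK)
    (by rw [Fintype.card_fin]; exact n2.trans_lt hth)
  · rw [Set.ncard_coe_finset, Fintype.card_fin, Nat.card_eq_fintype_card, Fintype.card_pi] at key
    refine key.trans (add_le_add (le_of_eq (by ring)) (Nat.mul_le_mul_left _ n2))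
  · obtain ⟨c, c1, c2, c3⟩ := h1 n φ hφ
    refine ⟨fun e => c e, fun e => c1 e, fun ξ _ => ⟨Fin.last D, by simp [c2]⟩,
      fun ξ hξ ξ' hξ' _ hn => ?_⟩
    obtain ⟨l, m, h, l0, m1, m2, m3, m4, m5⟩ := hF.nb ξ hξ ξ' hξ' hn
    obtain ⟨ρ, r1, r2⟩ := c3 m h m1 m2 m3 m4
    have m0 : (0 : ℝ) < m := by
      rcases Nat.eq_zero_or_pos m with rfl | h0
      · exact absurd m2 (by decide)
      · exact_mod_cast h0
    refine ⟨_, r1 a (g ξ) (M ξ) ha (geo_pos (hF.iso ξ hξ)) (hF.iso ξ hξ).2.2, ?_⟩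
    filter_upwards [geo_open ha] with z hz
    have e1 : act (zr h) (act (zr (g ξ)) (mat z)) = act (zr (g ξ')) (mat z) := by
      rw [← geo_act_mul m4 m0 (hF.iso ξ hξ).2.2 (hM ξ hξ) hz, ← geo_zr_mul, ← m5, geo_zr_smul,
        act_smul (by exact_mod_cast l0.ne')]
    have := r2 _ (inH_act (hF.iso ξ hξ).2.2 (hM ξ hξ) hz)
    rw [e1, Finset.sum_range] at this
    exact this
  · obtain ⟨v, v1, v2, v3, rfl⟩ := hs
    obtain ⟨S, s1, s2, s3⟩ := geo_thin (fun ξ => Thy y (g ξ) a)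
      {ξ | ξ ∈ (X : Set (∀ i, Om i)) ∧ Cuts a (Thy y (g ξ)) (map v (𝓝 0)) P}
      (X.finite_toSet.subset fun _ h => h.1) (fun ξ h => stp_ne (hE ξ h.1)) C1 fun w =>
      le_trans (Set.ncard_le_ncard (fun η h => And.intro h.1.1 h.2)
        (X.finite_toSet.subset fun _ h => h.1)) (hC1 _ X g M hF.iso hF.sep w)
    have := hC2 _ S g M (fun ξ h => hF.iso ξ (s1 h).1) s2 d v P δ c d1 d2 v1 v2 v3 hP hh hd hb
      fun ξ h => (s1 h).2
    calc _ ≤ C2 * δ * C1 := s3.trans (Nat.mul_le_mul_right _ this)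
      _ = C2 * C1 * δ := by ring
      _ ≤ _ := Nat.mul_le_mul_right _ (Nat.le_add_left _ _)

end M4.Z
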