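import Pool.Agent.Lib.MP_33b3f9_ag.M4.G.Arith
import Pool.Agent.Lib.MP_33b3f9_ag.M4.INum
import Pool.Agent.Lib.MP_33b3f9_ag.M4.ZGeo
import Pool.Agent.Lib.MP_33b3f9_ag.M4.B5
import Pool.Agent.Lib.MP_33b3f9_ag.M4.Fin
import Pool.Agent.Lib.MP_33b3f9_ag.M4.KzFinM
import Pool.Agent.Lib.MP_33b3f9_ag.M4.KzFinL
import Pool.Agent.Lib.MP_33b3f9_ag.M4.KzFinP
import Pool.Agent.Lib.MP_33b3f9_ag.M4.B2.Red
import Pool.Agent.Lib.MP_33b3f9_ag.M4.SH.Out
import Pool.Agent.Lib.MP_33b3f9_ag.M4.SH.Fin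
import Pool.Agent.Lib.MP_33b3f9_ag.M4.CL.Main
import Pool.Agent.Lib.MP_33b3f9_ag.M4.CmMain

/-!
The blocks put together.
-/

set_option autoImplicit false

namespace M4.Blk

open Pool.Agent.Lib.MP_33b3f9_ag

variable {τ : Mat} {K : IntermediateField ℚ ℂ} {r : Rep K}

theorem cl (y : Matrix (Fin 11) Bits ℂ) (a : Sy) (ha : InH (mat a)) (hg : GEN (cst (mat a)))
    (hy : FinProj y) (he : EtProj y a) : CLst y a := by
  obtain ⟨N0, kk, gg, -, h⟩ := fin_MI hy (q := 32) (by norm_num) (S := {γ | Lv 32 γ})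
    (fun _ h => h) fun _ h => Lv.of_dvd h (by norm_num)
  exact CL.cl y a ha hy ⟨N0, kk, gg, h⟩ (SH.monoO (hasRed _) y a ha hg hy he)

/-- The Mumford-Tate group is not the full symplectic group. -/
theorem core (h : AV τ K r) (F : Type) [Field F] [NumberField F]
    [NumberField.IsTotallyReal F] (hF : Module.finrank ℚ F = 3)
    (N : Matrix (Fin 2) (Fin 2) F → Matrix ν ν ℚ) (hN : Pool.Agent.M4.IsTensInd N) (l₀ : ℕ)
    (hB : ∀ (l : ℕ) [Fact l.Prime], l₀ < l → Pool.Agent.M4.BigImage N (r l)) :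
    ¬ GEN (cst τ) := fun hg => by
  obtain ⟨a, rfl⟩ : ∃ a : Sy, mat a = τ :=
    ⟨Sym2.lift ⟨fun i j => τ i j, fun i j => (h.inH.1.apply j i)⟩, by ext i j; simp [mat]⟩
  obtain ⟨y, hy, he⟩ := proj a h.inH
  exact num (Z.geo y a h.inH hg he (hn y hy) (fib y hy) SH.stabI (cl y a h.inH hg hy he))
    (G.arith h (Kz.mu h) Kz.lagr (Kz.points h) F hF
      (CM.cb (B2.red h) (Kz.mu h) h F hF N hN l₀ hB))

end M4.Blk
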