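import Mathlib

/-! Determinants whose rows fall in few congruence classes; minors of maximal rank. -/

namespace Pool.Agent.M4.Det

open Finset

section NA

variable {F : Type} [Field F] {w : AbsoluteValue F ℝ}

theorem sum_le (hw : IsNonarchimedean w) {α : Type} (s : Finset α) (f : α → F) {b : ℝ}
    (hb : 0 ≤ b) (h : ∀ i ∈ s, w (f i) ≤ b) : w (∑ i ∈ s, f i) ≤ b := by
  classical
  induction s using Finset.induction_on with
  | empty => simpa using hb
  | insert a s ha ih =>
    rw [sum_insert ha]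
    exact (hw _ _).trans (max_le (h a (mem_insert_self _ _))
      (ih fun i hi => h i (mem_insert_of_mem hi)))

theorem int_le (hw : IsNonarchimedean w) (n : ℤ) : w n ≤ 1 := by
  have h : ∀ m : ℕ, w m ≤ 1 := fun m => by
    have := sum_le hw (range m) (fun _ => (1 : F)) zero_le_one (by simp)
    simpa using this
  rcases Int.eq_nat_or_neg n with ⟨m, rfl | rfl⟩
  · simpa using h m
  · simpa using h m

theorem integral_le (hw : IsNonarchimedean w) {x : F} (hx : IsIntegral ℤ x) : w x ≤ 1 := by
  by_contra hc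
  push Not at hc
  obtain ⟨P, hP, h0⟩ := hx
  have h0' : ∑ i ∈ range (P.natDegree + 1), (P.coeff i : F) * x ^ i = 0 := by
    rw [Polynomial.eval₂_eq_sum_range] at h0
    simpa using h0
  rw [sum_range_succ, hP.coeff_natDegree] at h0'
  rcases Nat.eq_zero_or_pos P.natDegree with hd | hd
  · simp [hd] at h0'
  have h1 : w (x ^ P.natDegree) ≤ w x ^ (P.natDegree - 1) := by
    have : x ^ P.natDegree = -∑ i ∈ range P.natDegree, (P.coeff i : F) * x ^ i := by
      rw [eq_neg_iff_add_eq_zero, add_comm]; simpa using h0'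
    rw [this, AbsoluteValue.map_neg]
    refine sum_le hw _ _ (by positivity) fun i hi => ?_
    rw [map_mul, map_pow]
    calc w _ * w x ^ i ≤ 1 * w x ^ (P.natDegree - 1) :=
          mul_le_mul (int_le hw _) (pow_le_pow_right₀ hc.le (by have := mem_range.1 hi; omega))
            (by positivity) zero_le_one
      _ = _ := one_mul _
  rw [map_pow] at h1
  exact absurd h1 (not_le.2 (pow_lt_pow_right₀ hc (by omega)))

theorem det_le (hw : IsNonarchimedean w) {R : Type} [Fintype R] [DecidableEq R]
    (A : Matrix R R F) (b : R → ℝ) (h : ∀ i j, w (A i j) ≤ b i) : w A.det ≤ ∏ i, b i := by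
  have hb : ∀ i, 0 ≤ b i := fun i => (w.nonneg _).trans (h i i)
  rw [← Matrix.det_transpose, Matrix.det_apply']
  refine sum_le hw _ _ (prod_nonneg fun i _ => hb i) fun σ _ => ?_
  rw [map_mul, map_prod]
  calc _ ≤ 1 * ∏ i, b i := mul_le_mul (int_le hw _)
        (prod_le_prod (fun _ _ => w.nonneg _) fun i _ => h i (σ i))
        (prod_nonneg fun _ _ => w.nonneg _) zero_le_one
    _ = _ := one_mul _

theorem sub_le (hw : IsNonarchimedean w) {a b : F} {c : ℝ} (ha : w a ≤ c) (hb : w b ≤ c) :
    w (a - b) ≤ c := by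
  rw [sub_eq_add_neg]
  exact (hw _ _).trans (max_le ha (by simpa using hb))

theorem det_small (hw : IsNonarchimedean w) {R : Type} [Fintype R] [DecidableEq R]
    (T : Finset R) {h : ℕ} (cl : R → Fin h) (ref : Fin h → R → F) (A : Matrix R R F) {δ : ℝ}
    (hδ : 0 ≤ δ) (hδ1 : δ ≤ 1) (h1 : ∀ i j, w (A i j) ≤ 1)
    (h2 : ∀ i ∈ T, ∃ c : F, ∀ j, w (A i j - c * ref (cl i) j) ≤ δ) :
    w A.det ≤ δ ^ (T.card - h) := by
  choose! c hc using h2
  let U : R → R → F := fun i => if i ∈ T then c i • ref (cl i) else A i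
  let V : R → R → F := fun i => if i ∈ T then A i - c i • ref (cl i) else 0
  have hA : A = U + V := by
    funext i
    by_cases hi : i ∈ T <;> simp [U, V, hi]
  have hV : ∀ i j, w (V i j) ≤ δ := fun i j => by
    by_cases hi : i ∈ T
    · simpa [V, hi] using hc i hi j
    · simpa [V, hi] using hδ
  have hU : ∀ i j, w (U i j) ≤ 1 := fun i j => by
    have : U i j = A i j - V i j := by rw [hA]; simp
    rw [this]
    exact sub_le hw (h1 i j) ((hV i j).trans hδ1)
  have e : A.det = ∑ s : Finset R, Matrix.detRowAlternating (s.piecewise U V) := by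
    rw [← AlternatingMap.map_add_univ, ← hA]; rfl
  rw [e]
  refine sum_le hw _ _ (by positivity) fun s _ => ?_
  by_cases hs : h < (s ∩ T).card
  · obtain ⟨i, hi, i', hi', hne, he⟩ := exists_ne_map_eq_of_card_lt_of_maps_to
      (t := (univ : Finset (Fin h))) (by simpa using hs) (f := cl) fun _ _ => by simp
    obtain ⟨hi1, hi2⟩ := mem_inter.1 hi
    obtain ⟨hi1', hi2'⟩ := mem_inter.1 hi'
    have : Matrix.detRowAlternating (s.piecewise U V) = 0 := by
      refine AlternatingMap.map_linearDependent _ _ fun hl => ?_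
      have h3 := hl.comp ![i, i'] (by
        intro x y hxy
        fin_cases x <;> fin_cases y <;> simp_all [eq_comm])
      have h4 : (s.piecewise U V) ∘ ![i, i'] = ![c i • ref (cl i), c i' • ref (cl i)] := by
        funext x
        fin_cases x <;> simp [U, hi1, hi2, hi1', hi2', he]
      rw [h4, LinearIndependent.pair_iff] at h3
      have h5 := h3 (c i') (-c i) (by module)
      have h6 := h3 1 0 (by simp [neg_eq_zero.1 h5.2])
      exact one_ne_zero h6.1
    rw [this, map_zero]; positivity
  · refine (det_le hw (Matrix.of (s.piecewise U V)) (fun i => if i ∈ T \ s then δ else 1)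
      fun i j => ?_).trans ?_
    · by_cases hi : i ∈ s
      · simpa [hi] using hU i j
      · by_cases hi' : i ∈ T
        · simpa [hi, hi'] using hV i j
        · simpa [hi, hi'] using (hV i j).trans hδ1
    · rw [prod_ite_mem, univ_inter, prod_const]
      refine pow_le_pow_of_le_one hδ hδ1 ?_
      have := card_sdiff_add_card_inter T s
      rw [inter_comm] at hs
      omega

theorem prod_sub_le (hw : IsNonarchimedean w) {α : Type} (s : Finset α) (a b : α → F) {δ : ℝ}
    (hδ : 0 ≤ δ) (ha : ∀ i, w (a i) ≤ 1) (hb : ∀ i, w (b i) ≤ 1) (h : ∀ i, w (a i - b i) ≤ δ) :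
    w (∏ i ∈ s, a i - ∏ i ∈ s, b i) ≤ δ := by
  classical
  induction s using Finset.induction_on with
  | empty => simpa using hδ
  | insert x s hx ih =>
    rw [prod_insert hx, prod_insert hx]
    have e : a x * ∏ i ∈ s, a i - b x * ∏ i ∈ s, b i =
        a x * (∏ i ∈ s, a i - ∏ i ∈ s, b i) + (a x - b x) * ∏ i ∈ s, b i := by ring
    rw [e]
    refine (hw _ _).trans (max_le ?_ ?_)
    · rw [map_mul]
      exact (mul_le_mul (ha x) ih (w.nonneg _) zero_le_one).trans (one_mul _).le
    · rw [map_mul, map_prod]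
      exact (mul_le_mul (h x) (prod_le_one (fun _ _ => w.nonneg _) fun i _ => hb i)
        (prod_nonneg fun _ _ => w.nonneg _) hδ).trans (mul_one _).le

theorem pow_sub_le (hw : IsNonarchimedean w) {a b : F} {δ : ℝ} (hδ : 0 ≤ δ) (ha : w a ≤ 1)
    (hb : w b ≤ 1) (h : w (a - b) ≤ δ) (n : ℕ) : w (a ^ n - b ^ n) ≤ δ := by
  simpa using prod_sub_le hw (range n) (fun _ => a) (fun _ => b) hδ (fun _ => ha) (fun _ => hb)
    fun _ => h

theorem pow_dvd [CharZero F] (hw : IsNonarchimedean w) {p : ℕ} (hp : p.Prime)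
    (hwp : w p = (p : ℝ)⁻¹) {n : ℤ} (hn : n ≠ 0) {e : ℕ} (h : w n ≤ (p : ℝ)⁻¹ ^ e) :
    (p : ℤ) ^ e ∣ n := by
  have hp' : Prime (p : ℤ) := Nat.prime_iff_prime_int.1 hp
  obtain ⟨a, m, hm, rfl⟩ := WfDvdMonoid.max_power_factor hn hp'.irreducible
  have h1 : (1 : ℝ) < p := by exact_mod_cast hp.one_lt
  have hi : (p : ℝ)⁻¹ < 1 := inv_lt_one_of_one_lt₀ h1
  have hi0 : 0 < (p : ℝ)⁻¹ := by positivity
  have hm1 : w m = 1 := by
    obtain ⟨u, v, huv⟩ := (hp'.irreducible.coprime_iff_not_dvd.2 hm)
    refine le_antisymm (int_le hw m) (not_lt.1 fun hlt => ?_)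
    have h2 : ((u : F) * p + v * m) = 1 := by exact_mod_cast huv
    have h3 := hw ((u : F) * p) (v * m)
    rw [h2, map_one, map_mul, map_mul, hwp] at h3
    refine absurd h3 (not_le.2 (max_lt ?_ ?_))
    · exact (mul_le_of_le_one_left hi0.le (int_le hw u)).trans_lt hi
    · exact (mul_le_of_le_one_left (w.nonneg _) (int_le hw v)).trans_lt hlt
  push_cast at h
  rw [map_mul, map_pow, hwp, hm1, mul_one, pow_le_pow_iff_right_of_lt_one₀ hi0 hi] at h
  exact (pow_dvd_pow _ h).mul_right _

end NA

theorem exists_minor {F : Type} [Field F] {κ S : Type} [Fintype S] (v : κ → S → F) :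
    ∃ (m : Fin (Module.finrank F (Submodule.span F (Set.range v))) → κ)
      (s : Fin (Module.finrank F (Submodule.span F (Set.range v))) → S),
      (Matrix.of fun i j => v (m j) (s i)).det ≠ 0 := by
  classical
  obtain ⟨κ', a, -, h1, h2⟩ := exists_linearIndependent' F v
  have : Finite κ' := h2.finite
  have := Fintype.ofFinite κ'
  have hc : Module.finrank F (Submodule.span F (Set.range v)) = Fintype.card κ' := by
    rw [← h1, finrank_span_eq_card h2]
  let P : Matrix κ' S F := Matrix.of fun i s => v (a i) s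
  have hr : P.rank = Fintype.card κ' := LinearIndependent.rank_matrix (M := P) h2
  obtain ⟨κ'', b, -, h3, h4⟩ := exists_linearIndependent' F P.col
  have : Finite κ'' := h4.finite
  have := Fintype.ofFinite κ''
  have hc' : Fintype.card κ'' = Fintype.card κ' := by
    rw [← finrank_span_eq_card h4, h3, ← Matrix.rank_eq_finrank_span_cols, hr]
  let e := Fintype.equivFinOfCardEq hc.symm
  let e' := Fintype.equivOfCardEq hc'
  refine ⟨fun j => a (e.symm j), fun i => b (e'.symm (e.symm i)), ?_⟩
  have h5 : IsUnit (Matrix.of fun i j => v (a j) (b (e'.symm i)) : Matrix κ' κ' F) := by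
    rw [← Matrix.linearIndependent_rows_iff_isUnit]
    exact h4.comp e'.symm e'.symm.injective
  rw [Matrix.isUnit_iff_isUnit_det, ← Matrix.det_reindex_self e] at h5
  exact h5.ne_zero

end Pool.Agent.M4.Det
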