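import Pool.Agent.Lib.MP_33b3f9_ag.M4.DetA

/-! Automorphisms of the complex numbers over a number field; norms. -/

namespace Pool.Agent.M4.Det

open Finset

variable (K : IntermediateField ℚ ℂ)

theorem exists_equiv (L : IntermediateField ℚ ℂ) (σ : L ≃+* L) :
    ∃ τ : ℂ ≃+* ℂ, ∀ a : L, τ a = σ a := by
  obtain ⟨s, hx⟩ := exists_isTranscendenceBasis L ℂ
  have := IsAlgClosed.isAlgClosure_of_transcendence_basis _ hx
  let e := (hx.1.aevalEquiv.symm.toRingEquiv.trans (MvPolynomial.mapEquiv s σ)).trans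
    hx.1.aevalEquiv.toRingEquiv
  refine ⟨IsAlgClosure.equivOfEquiv ℂ ℂ e, fun a => ?_⟩
  have h1 := IsAlgClosure.equivOfEquiv_algebraMap ℂ ℂ e (algebraMap L _ a)
  have h2 : e (algebraMap L _ a) = algebraMap L _ (σ a) := by
    simp only [e, RingEquiv.trans_apply, AlgEquiv.coe_ringEquiv, AlgEquiv.commutes]
    rw [MvPolynomial.algebraMap_eq, MvPolynomial.mapEquiv_apply, MvPolynomial.map_C,
      ← MvPolynomial.algebraMap_eq, AlgEquiv.commutes]
    rfl
  rw [h2] at h1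
  exact h1

/-- Every embedding of an algebraic subfield extends to an automorphism. -/
theorem exists_ext [Algebra.IsAlgebraic ℚ K] (φ : K →+* ℂ) :
    ∃ τ : ℂ ≃+* ℂ, ∀ a : K, τ a = φ a := by
  obtain ⟨L, hL, h1, h2⟩ : ∃ L : IntermediateField ℚ ℂ, (∀ x, x ∈ L ↔ IsAlgebraic ℚ x) ∧
      IsAlgClosed L ∧ Algebra.IsAlgebraic ℚ L :=
    ⟨algebraicClosure ℚ ℂ, fun _ => mem_algebraicClosure_iff,
      (algebraicClosure.isAlgClosure ℚ ℂ).isAlgClosed, algebraicClosure.isAlgebraic ℚ ℂ⟩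
  have hKL : K ≤ L := fun x hx =>
    (hL x).2 ((Algebra.IsAlgebraic.isAlgebraic (R := ℚ) (⟨x, hx⟩ : K)).algHom K.val)
  have hφ : ∀ a : K, φ a ∈ L := fun a =>
    (hL _).2 ((Algebra.IsAlgebraic.isAlgebraic (R := ℚ) a).algHom φ.toRatAlgHom)
  let i : K →+* L := (IntermediateField.inclusion hKL).toRingHom
  let j : K →+* L := φ.codRestrict L.toSubfield hφ
  obtain ⟨ψ, hψ⟩ : ∃ ψ : L →+* L, ∀ a, ψ (i a) = j a := by
    let _ : Algebra K L := i.toAlgebra
    have : IsScalarTower ℚ K L := IsScalarTower.of_algebraMap_eq fun x => by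
      simp [RingHom.algebraMap_toAlgebra]
    have : Algebra.IsAlgebraic K L := Algebra.IsAlgebraic.tower_top (K := ℚ) K
    obtain ⟨ψ, hψ⟩ := IsAlgClosed.surjective_domRestrict_of_isAlgebraic (K := ℚ) (L := K)
      (M := L) (E := L) j.toRatAlgHom
    exact ⟨ψ, fun a => DFunLike.congr_fun hψ a⟩
  have hb : Function.Bijective ψ := Algebra.IsAlgebraic.algHom_bijective ψ.toRatAlgHom
  obtain ⟨τ, hτ⟩ := exists_equiv L (RingEquiv.ofBijective ψ hb)
  refine ⟨τ, fun a => ?_⟩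
  have := hτ (i a)
  rw [RingEquiv.ofBijective_apply, hψ] at this
  exact this

/-- An algebraic number that is fixed by all automorphisms over `K` lies in `K`. -/
theorem mem_of_fixed [Algebra.IsAlgebraic ℚ K] {z : ℂ} (hz : IsAlgebraic ℚ z)
    (h : ∀ σ : ℂ ≃ₐ[K] ℂ, σ z = z) : z ∈ K := by
  have hi : IsIntegral K z := (hz.tower_top K).isIntegral
  by_contra hc
  have hd : 1 < (minpoly K z).natDegree := by
    have h1 := minpoly.natDegree_pos hi
    by_contra h2
    have h3 : (minpoly K z).natDegree = 1 := by omega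
    obtain ⟨x, hx⟩ := (minpoly.natDegree_eq_one_iff).1 h3
    exact hc (hx ▸ x.2)
  have hs : (minpoly K z).Separable := (minpoly.irreducible hi).separable
  have hcard := Polynomial.card_rootSet_eq_natDegree hs (IsAlgClosed.splits (k := ℂ) _)
  obtain ⟨y, hy⟩ := Fintype.exists_ne_of_one_lt_card (hcard ▸ hd)
    (⟨z, by rw [Polynomial.mem_rootSet]; exact ⟨minpoly.ne_zero hi, minpoly.aeval K z⟩⟩ :
      (minpoly K z).rootSet ℂ)
  have hy' : (y : ℂ) ∈ (minpoly K z).aroots ℂ := by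
    have := y.2
    rw [Polynomial.mem_rootSet] at this
    exact Polynomial.mem_aroots.2 this
  let φ := (IntermediateField.algHomAdjoinIntegralEquiv K (K := ℂ) hi).symm ⟨y, hy'⟩
  let K' : IntermediateField ℚ ℂ := (IntermediateField.adjoin K {z}).restrictScalars ℚ
  have : Algebra.IsAlgebraic K (IntermediateField.adjoin K {z}) :=
    IntermediateField.isAlgebraic_adjoin_simple hi
  have : Algebra.IsAlgebraic ℚ K' :=
    Algebra.IsAlgebraic.trans ℚ K (IntermediateField.adjoin K {z})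
  obtain ⟨τ, hτ⟩ := exists_ext K' φ.toRingHom
  have h1 : ∀ a : K, τ (algebraMap K ℂ a) = algebraMap K ℂ a := fun a => by
    have := hτ (algebraMap K (IntermediateField.adjoin K {z}) a)
    exact this.trans (φ.commutes a)
  have h2 := h (AlgEquiv.ofRingEquiv h1)
  have h3 := hτ (IntermediateField.AdjoinSimple.gen K z)
  have h4 := IntermediateField.algHomAdjoinIntegralEquiv_symm_apply_gen K (K := ℂ) hi ⟨y, hy'⟩
  exact hy (Subtype.ext (h4.symm.trans (h3.symm.trans h2)))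

/-- The norm of a nonzero algebraic integer of `K`. -/
theorem exists_norm [FiniteDimensional ℚ K] {z : ℂ} (hK : z ∈ K) (hz : IsIntegral ℤ z)
    (h0 : z ≠ 0) {B : ℝ} (hB : ∀ φ : ℂ →+* ℂ, ‖φ z‖ ≤ B) :
    ∃ n : ℤ, n ≠ 0 ∧ |(n : ℝ)| ≤ B ^ Module.finrank ℚ K ∧
      ∀ w : AbsoluteValue ℂ ℝ, IsNonarchimedean w → w n ≤ w z := by
  classical
  let x : K := ⟨z, hK⟩
  have hx : IsIntegral ℤ x := (isIntegral_algHom_iff (K.val.restrictScalars ℤ)
    K.val.injective).1 hz
  obtain ⟨n, hn⟩ := IsIntegrallyClosed.isIntegral_iff.1 (Algebra.isIntegral_norm ℚ hx)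
  have hp := Algebra.norm_eq_prod_embeddings ℚ ℂ x
  rw [← hn] at hp
  have hp' : (n : ℂ) = ∏ σ : K →ₐ[ℚ] ℂ, σ x := by simpa using hp
  refine ⟨n, fun h => ?_, ?_, fun w hw => ?_⟩
  · rw [h, Int.cast_zero, eq_comm, prod_eq_zero_iff] at hp'
    obtain ⟨σ, -, hσ⟩ := hp'
    exact h0 (congrArg Subtype.val ((map_eq_zero σ).1 hσ))
  · rw [← Complex.norm_intCast, hp', norm_prod, ← AlgHom.card ℚ K ℂ, ← card_univ, ← prod_const]
    refine prod_le_prod (fun _ _ => norm_nonneg _) fun σ _ => ?_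
    obtain ⟨τ, hτ⟩ := exists_ext K σ.toRingHom
    exact (congrArg norm (hτ x)).symm.le.trans (hB τ.toRingHom)
  · rw [hp', map_prod, ← mul_prod_erase univ (fun σ : K →ₐ[ℚ] ℂ => w (σ x)) (mem_univ K.val)]
    exact mul_le_of_le_one_right (w.nonneg _) (prod_le_one (fun _ _ => w.nonneg _) fun σ _ =>
      integral_le hw (hx.map (σ.restrictScalars ℤ)))

/-- Double counting on an orbit. -/
theorem card_le_orbit {S : Type} [Fintype S] [DecidableEq S] (Γ : Subgroup (Equiv.Perm S))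
    [Fintype Γ] (s : S) (T : Finset S) {Om : ℕ} (h : (MulAction.orbit Γ s).ncard ≤ Om)
    (hT : ∃ g : Γ, g • s ∈ T) :
    Fintype.card Γ ≤ Om * (univ.filter fun g : Γ => g • s ∈ T).card := by
  classical
  obtain ⟨g0, hg0⟩ := hT
  rw [← MulAction.card_orbit_mul_card_stabilizer_eq_card_group Γ s]
  refine Nat.mul_le_mul ?_ ?_
  · rwa [← Nat.card_eq_fintype_card, Nat.card_coe_set_eq]
  · rw [← card_univ]
    refine card_le_card_of_injOn (fun g => g0 * g.1) (fun g _ => ?_) fun g _ g' _ hg => ?_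
    · simp only [coe_filter, mem_univ, true_and, Set.mem_ofPred_eq]
      rwa [mul_smul, g.2]
    · exact Subtype.ext (mul_left_cancel hg)

end Pool.Agent.M4.Det
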