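import Pool.Agent.Lib.MP_33b3f9_ag.M4.DetB

/-! The bound for the Hilbert function of a Galois stable set of points with few reductions. -/

noncomputable section

namespace Pool.Agent.M4.Det

open Finset

variable {S ι : Type} [Fintype ι]

/-- The monomial with exponent `m` as a function on the points `y s`. -/
def mono (y : S → ι → ℂ) (m : ι →₀ ℕ) (s : S) : ℂ := ∏ i, y s i ^ m i

/-- The Hilbert function of the family of points `y`. -/
def hil (y : S → ι → ℂ) (k : ℕ) : ℕ := Module.finrank ℂ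
  (Submodule.span ℂ (Set.range fun m : {m : ι →₀ ℕ // ∑ i, m i = k} => mono y m.1))

/-- At the prime `p` the points of `T` fall in at most `h` classes modulo `p`. -/
def FewRed (y : S → ι → ℂ) (p h : ℕ) (T : Set S) : Prop :=
  ∃ w : AbsoluteValue ℂ ℝ, IsNonarchimedean w ∧ w p = (p : ℝ)⁻¹ ∧
    ∃ (cl : S → Fin h) (ref : Fin h → ι → ℂ), (∀ c i, w (ref c i) ≤ 1) ∧
      ∀ s ∈ T, ∃ c : ℂ, w c ≤ 1 ∧ ∀ i, w (y s i - c * ref (cl s) i) ≤ (p : ℝ)⁻¹

theorem detc_small {y : S → ι → ℂ} (hi : ∀ s i, IsIntegral ℤ (y s i)) {p h : ℕ} (hp : 0 < p)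
    {T : Set S} (H : FewRed y p h T) : ∃ w : AbsoluteValue ℂ ℝ, IsNonarchimedean w ∧
      w p = (p : ℝ)⁻¹ ∧ ∀ (k R : ℕ) (m : Fin R → {m : ι →₀ ℕ // ∑ i, m i = k}) (s : Fin R → S)
        (U : Finset (Fin R)), (∀ i ∈ U, s i ∈ T) →
        w (Matrix.of fun i j => mono y (m j).1 (s i)).det ≤ (p : ℝ)⁻¹ ^ (U.card - h) := by
  obtain ⟨w, hw, hwp, cl, ref, href, H⟩ := H
  refine ⟨w, hw, hwp, fun k R m s U hU => ?_⟩
  have h1 : ∀ s i, w (y s i) ≤ 1 := fun s i => integral_le hw (hi s i)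
  have hp1 : (p : ℝ)⁻¹ ≤ 1 := inv_le_one_of_one_le₀ (by exact_mod_cast hp)
  refine det_small hw U (fun i => cl (s i)) (fun c j => ∏ i, ref c i ^ (m j).1 i) _
    (by positivity) hp1 (fun i j => ?_) fun i hiU => ?_
  · rw [Matrix.of_apply, mono, map_prod]
    exact prod_le_one (fun _ _ => w.nonneg _) fun l _ => by
      rw [map_pow]; exact pow_le_one₀ (w.nonneg _) (h1 _ _)
  · obtain ⟨c, hc, hc'⟩ := H _ (hU i hiU)
    refine ⟨c ^ k, fun j => ?_⟩
    have e : c ^ k * ∏ l, ref (cl (s i)) l ^ (m j).1 l = ∏ l, (c * ref (cl (s i)) l) ^ (m j).1 l := by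
      simp only [mul_pow, prod_mul_distrib, prod_pow_eq_pow_sum, (m j).2]
    have h2 : ∀ l, w (c * ref (cl (s i)) l) ≤ 1 := fun l => by
      rw [map_mul]; exact mul_le_one₀ hc (w.nonneg _) (href _ _)
    rw [e, Matrix.of_apply, mono]
    refine prod_sub_le hw _ _ _ (by positivity) (fun l => ?_) (fun l => ?_) fun l =>
      pow_sub_le hw (by positivity) (h1 _ _) (h2 _) (hc' l) _
    · rw [map_pow]; exact pow_le_one₀ (w.nonneg _) (h1 _ _)
    · rw [map_pow]; exact pow_le_one₀ (w.nonneg _) (h2 _)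

theorem detc_map (φ : ℂ →+* ℂ) {R : ℕ} (y : S → ι → ℂ) (m : Fin R → ι →₀ ℕ) (s : Fin R → S) :
    φ (Matrix.of fun i j => mono y (m j) (s i)).det =
      (Matrix.of fun i j => mono (fun s i => φ (y s i)) (m j) (s i)).det := by
  rw [RingHom.map_det]
  congr 1
  ext i j
  simp [mono]

theorem detc_arch {y : S → ι → ℂ} {B : ℝ} (hB1 : 1 ≤ B) (hB : ∀ s i, ‖y s i‖ ≤ B) {k R : ℕ}
    (m : Fin R → {m : ι →₀ ℕ // ∑ i, m i = k}) (s : Fin R → S) :
    ‖(Matrix.of fun i j => mono y (m j).1 (s i)).det‖ ≤ (R * B ^ k) ^ R := by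
  have h := Matrix.det_le (abv := IsAbsoluteValue.toAbsoluteValue (norm : ℂ → ℝ))
    (A := Matrix.of fun i j => mono y (m j).1 (s i)) (x := B ^ k) fun i j => by
      change ‖mono y (m j).1 (s i)‖ ≤ _
      rw [mono, norm_prod, (congrArg (B ^ ·) (m j).2).symm, ← prod_pow_eq_pow_sum]
      exact prod_le_prod (fun _ _ => norm_nonneg _) fun l _ => by
        rw [norm_pow]; exact pow_le_pow_left₀ (norm_nonneg _) (hB _ _) _
  refine h.trans ?_
  rw [Fintype.card_fin, nsmul_eq_mul, mul_pow]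
  refine mul_le_mul_of_nonneg_right ?_ (by positivity)
  exact_mod_cast Nat.factorial_le_pow R

theorem hil_le_card [Fintype S] (y : S → ι → ℂ) (k : ℕ) : hil y k ≤ Fintype.card S :=
  (Submodule.finrank_le _).trans (Module.finrank_fintype_fun_eq_card ℂ).le

open Classical in
/-- The determinant method. -/
theorem hilb [Fintype S] (K : IntermediateField ℚ ℂ) [FiniteDimensional ℚ K]
    (a : (ℂ ≃ₐ[K] ℂ) →* Equiv.Perm S) (y : S → ι → ℂ) (hy : ∀ σ s i, σ (y s i) = y (a σ s) i)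
    (hi : ∀ s i, IsIntegral ℤ (y s i)) {B : ℝ} (hB1 : 1 ≤ B)
    (hB : ∀ (φ : ℂ →+* ℂ) s i, ‖φ (y s i)‖ ≤ B) {Om : ℕ}
    (hOm : ∀ s, (Set.range fun σ => a σ s).ncard ≤ Om) (PP : Finset ℕ) {P : ℝ} (hP : 1 < P)
    (hPP : ∀ p ∈ PP, p.Prime ∧ P ≤ p) {h N : ℕ} (St : ℕ → Set S)
    (hSt : ∀ p ∈ PP, FewRed y p h (St p))
    (hN : ∀ s, N ≤ (PP.filter fun p => ∃ σ, a σ s ∈ St p).card) (k : ℕ)
    (hk : 2 * Module.finrank ℚ K * Om * (Real.log (Fintype.card S) + k * Real.log B) ≤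
      N * Real.log P) : hil y k * N ≤ 2 * h * Om * PP.card := by
  obtain ⟨R, hR0, m, s, hΔ⟩ : ∃ R, hil y k = R ∧ ∃ (m : Fin R → {m : ι →₀ ℕ // ∑ i, m i = k})
      (s : Fin R → S), (Matrix.of fun i j => mono y (m j).1 (s i)).det ≠ 0 :=
    ⟨_, rfl, exists_minor fun m : {m : ι →₀ ℕ // ∑ i, m i = k} => mono y m.1⟩
  have hRS := hil_le_card y k
  rw [hR0] at hRS ⊢
  clear hR0
  rcases Nat.eq_zero_or_pos R with rfl | hR
  · simp
  let Γ := a.range
  let D : Equiv.Perm S → ℂ := fun g => (Matrix.of fun i j => mono y (m j).1 (g (s i))).det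
  have hD : ∀ (σ : ℂ ≃ₐ[K] ℂ) g, σ (D g) = D (a σ * g) := fun σ g => by
    refine (detc_map (σ : ℂ →+* ℂ) y (fun j => (m j).1) fun i => g (s i)).trans ?_
    simp only [D, mono, RingHom.coe_coe, hy, Equiv.Perm.mul_apply]
  have hD0 : ∀ g : Γ, D g ≠ 0 := fun ⟨_, σ, hσ⟩ => by
    have := hD σ 1
    rw [mul_one, hσ] at this
    rw [← this]
    exact (map_ne_zero σ).2 hΔ
  have hDi : ∀ g, IsIntegral ℤ (D g) := fun g =>
    IsIntegral.det fun i j => IsIntegral.prod _ fun l _ => (hi _ _).pow _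
  have hzi : IsIntegral ℤ (∏ g : Γ, D g) := IsIntegral.prod _ fun g _ => hDi g
  have hzK : ∏ g : Γ, D g ∈ K := mem_of_fixed K (hzi.tower_top (A := ℚ)).isAlgebraic fun σ => by
    rw [map_prod]
    exact Fintype.prod_equiv (Equiv.mulLeft (⟨a σ, σ, rfl⟩ : Γ)) _ _ fun g => hD σ g
  obtain ⟨n, hn0, hn1, hn2⟩ := exists_norm K hzK hzi (prod_ne_zero_iff.2 fun g _ => hD0 g)
    (B := ((R * B ^ k) ^ R) ^ Fintype.card Γ) fun φ => by
      rw [map_prod, norm_prod, ← card_univ, ← prod_const]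
      refine prod_le_prod (fun _ _ => norm_nonneg _) fun g _ => ?_
      rw [detc_map φ y (fun j => (m j).1) fun i => (g : Equiv.Perm S) (s i)]
      exact detc_arch hB1 (hB φ) m _
  let U : ℕ → Γ → Finset (Fin R) := fun p g => univ.filter fun i => g • s i ∈ St p
  let e : ℕ → ℕ := fun p => ∑ g : Γ, ((U p g).card - h)
  have hdvd : ∏ p ∈ PP, (p : ℤ) ^ e p ∣ n := by
    refine prod_dvd_of_coprime (fun p hp q hq hpq => ?_) fun p hp => ?_
    · exact IsCoprime.pow (Nat.isCoprime_iff_coprime.2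
        ((Nat.coprime_primes (hPP p hp).1 (hPP q hq).1).2 hpq))
    · obtain ⟨w, hw, hwp, H⟩ := detc_small hi (hPP p hp).1.pos (hSt p hp)
      refine pow_dvd hw (hPP p hp).1 hwp hn0 ((hn2 w hw).trans ?_)
      rw [map_prod, ← prod_pow_eq_pow_sum]
      exact prod_le_prod (fun _ _ => w.nonneg _) fun g _ =>
        H k R m _ (U p g) fun i hi => (mem_filter.1 hi).2
  have hle : P ^ ∑ p ∈ PP, e p ≤ |(n : ℝ)| := by
    have h1 := Int.le_of_dvd (abs_pos.2 hn0) ((dvd_abs _ _).2 hdvd)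
    have h2 : ∏ p ∈ PP, (p : ℝ) ^ e p ≤ |(n : ℝ)| := by exact_mod_cast h1
    refine le_trans ?_ h2
    rw [← prod_pow_eq_pow_sum]
    exact prod_le_prod (fun _ _ => by positivity) fun p hp =>
      pow_le_pow_left₀ (by positivity) (hPP p hp).2 _
  have hcount : Fintype.card Γ * (R * N) ≤
      Om * (∑ p ∈ PP, e p + PP.card * (Fintype.card Γ * h)) := by
    have h1 : ∀ i, Fintype.card Γ * N ≤
        Om * ∑ p ∈ PP, (univ.filter fun g : Γ => g • s i ∈ St p).card := fun i => by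
      refine (Nat.mul_le_mul_left _ (hN (s i))).trans ?_
      rw [mul_sum, mul_comm, ← smul_eq_mul, ← sum_const]
      refine (sum_le_sum fun p hp => ?_).trans (sum_le_sum_of_subset (filter_subset _ _))
      obtain ⟨σ, hσ⟩ := (mem_filter.1 hp).2
      have := card_le_orbit Γ (s i) (St p).toFinset (Om := Om) (by
        refine le_of_eq_of_le (congrArg Set.ncard ?_) (hOm (s i))
        ext x
        exact ⟨fun ⟨⟨_, τ, rfl⟩, hx⟩ => ⟨τ, hx⟩, fun ⟨τ, hx⟩ => ⟨⟨_, τ, rfl⟩, hx⟩⟩)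
        ⟨⟨_, σ, rfl⟩, Set.mem_toFinset.2 hσ⟩
      simpa only [Set.mem_toFinset] using this
    have h2 : ∀ p, ∑ i, (univ.filter fun g : Γ => g • s i ∈ St p).card ≤
        e p + Fintype.card Γ * h := fun p => by
      have h3 : ∑ i, (univ.filter fun g : Γ => g • s i ∈ St p).card = ∑ g : Γ, (U p g).card := by
        simp only [U, card_filter]
        exact sum_comm
      rw [h3, ← card_univ, ← smul_eq_mul, ← sum_const, ← sum_add_distrib]
      exact sum_le_sum fun g _ => by omega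
    calc _ = ∑ _i : Fin R, Fintype.card Γ * N := by simp; ring
      _ ≤ _ := sum_le_sum fun i _ => h1 i
      _ = Om * ∑ p ∈ PP, ∑ i, (univ.filter fun g : Γ => g • s i ∈ St p).card := by
        rw [← mul_sum, sum_comm]
      _ ≤ _ := Nat.mul_le_mul_left _ (by
        rw [← smul_eq_mul, ← sum_const, ← sum_add_distrib]
        exact sum_le_sum fun p _ => h2 p)
  have hR' : (0 : ℝ) < R := by exact_mod_cast hR
  have hG : (0 : ℝ) < Fintype.card Γ := by exact_mod_cast Fintype.card_pos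
  have hlP := Real.log_pos hP
  have hlog := Real.log_le_log (by positivity) (hle.trans hn1)
  rw [Real.log_pow, Real.log_pow, Real.log_pow, Real.log_pow,
    Real.log_mul hR'.ne' (by positivity), Real.log_pow] at hlog
  have hRS' : Real.log R ≤ Real.log (Fintype.card S) :=
    Real.log_le_log hR' (by exact_mod_cast hRS)
  have hc : (Fintype.card Γ : ℝ) * (R * N) ≤
      Om * ((∑ p ∈ PP, e p : ℕ) + PP.card * (Fintype.card Γ * h)) := by exact_mod_cast hcount
  generalize ((∑ p ∈ PP, e p : ℕ) : ℝ) = E at *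
  generalize (Fintype.card Γ : ℝ) = G at *
  have h5 : Om * (E * Real.log P) ≤ G * R * (N * Real.log P) / 2 := by
    have h6 : E * Real.log P ≤ Module.finrank ℚ K * (G * (R *
        (Real.log (Fintype.card S) + k * Real.log B))) := hlog.trans (by gcongr)
    have h7 := mul_le_mul_of_nonneg_left h6 (Nat.cast_nonneg Om : (0 : ℝ) ≤ Om)
    have h8 := mul_le_mul_of_nonneg_left hk (mul_pos hG hR').le
    linarith
  have h9 : G * Real.log P * (R * N) ≤ G * Real.log P * (2 * h * Om * PP.card) := by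
    have := mul_le_mul_of_nonneg_right hc hlP.le
    linarith
  exact_mod_cast le_of_mul_le_mul_left h9 (mul_pos hG hlP)

/-- More forms than the Hilbert function: a combination vanishes at all points. -/
theorem exists_vanish [Fintype S] (y : S → ι → ℂ) (k : ℕ) {J : Type} [Fintype J]
    (f : J → MvPolynomial ι ℂ) (hf : ∀ j, (f j).IsHomogeneous k) (h : hil y k < Fintype.card J) :
    ∃ c : J → ℂ, c ≠ 0 ∧ ∀ s, MvPolynomial.eval (y s) (∑ j, c j • f j) = 0 := by
  let V := Submodule.span ℂ (Set.range fun m : {m : ι →₀ ℕ // ∑ i, m i = k} => mono y m.1)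
  have hV : ∀ j, (fun s => MvPolynomial.eval (y s) (f j)) ∈ V := fun j => by
    have e : (fun s => MvPolynomial.eval (y s) (f j)) =
        ∑ m ∈ (f j).support, (f j).coeff m • mono y m := by
      funext s
      simp [MvPolynomial.eval_eq', mono]
    rw [e]
    refine Submodule.sum_mem _ fun m hm => Submodule.smul_mem _ _ (Submodule.subset_span
      ⟨⟨m, ?_⟩, rfl⟩)
    have := hf j (MvPolynomial.mem_support_iff.1 hm)
    rw [← this, Finsupp.weight_apply, Finsupp.sum_fintype _ _ (by simp)]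
    simp
  have hl : ¬LinearIndependent ℂ fun j => (⟨_, hV j⟩ : V) := fun hl =>
    absurd hl.fintype_card_le_finrank (not_le.2 h)
  obtain ⟨c, hc, j, hj⟩ := Fintype.not_linearIndependent_iff.1 hl
  refine ⟨c, fun h0 => hj (congrFun h0 j), fun s => ?_⟩
  have := congrFun (congrArg Subtype.val hc) s
  simpa [MvPolynomial.smul_eval] using this

end Pool.Agent.M4.Det
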