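import Pool.Agent.Lib.MP_33b3f9_ag.M4.NTSvB

/-!
The sieve.
-/

set_option autoImplicit false

namespace M4.NT

open NumberField Module Filter Topology

/-- The output of the sieve at the scales `Y`, `P`, with `s` blocks. -/
def Out (L : Type) [Field L] (G : Set ℕ) (Δ : ℕ → ℤ) (φ : ℝ) (s Y P : ℕ) : Prop :=
  ∃ (n : ℕ) (PP : Finset ℕ) (LL : Fin s → Finset ℕ),
    (Y : ℝ) ^ (1 - φ) ≤ n ∧ (P : ℝ) ^ (1 - φ) ≤ PP.card ∧
    (∀ p ∈ PP, p ∈ G ∧ P ≤ p ∧ p ≤ 2 * P) ∧ (∀ i, (LL i).card = n) ∧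
    (∀ i j, i ≠ j → Disjoint (LL i) (LL j)) ∧
    (∀ i, ∀ l ∈ LL i, l.Prime ∧ Y < l ∧ l ≤ 2 * Y ∧ Spl L l) ∧
    ∀ p ∈ PP, ∀ i, n ≤ 5 * ((LL i).filter fun l => jacobiSym (Δ p) l = 1).card

theorem Out.mono {L : Type} [Field L] {G : Set ℕ} {Δ : ℕ → ℤ} {φ φ' : ℝ} {s s' Y P : ℕ}
    (h : Out L G Δ φ s Y P) (hs : s' ≤ s) (hφ : φ ≤ φ') (hY : 1 ≤ Y) (hP : 1 ≤ P) :
    Out L G Δ φ' s' Y P := by
  obtain ⟨n, PP, LL, h1, h2, h3, h4, h5, h6, h7⟩ := h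
  exact ⟨n, PP, fun i => LL (Fin.castLE hs i),
    (Real.rpow_le_rpow_of_exponent_le (by exact_mod_cast hY) (by linarith)).trans h1,
    (Real.rpow_le_rpow_of_exponent_le (by exact_mod_cast hP) (by linarith)).trans h2, h3,
    fun i => h4 _, fun i j hij => h5 _ _ fun e => hij (Fin.castLE_injective hs e), fun i => h6 _,
    fun p hp i => h7 p hp _⟩

theorem sv_core (F L : Type) [Field F] [NumberField F] [Field L] [NumberField L]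
    (hF : finrank ℚ F = 3) (G : Set ℕ) (hG : Dvg G) (t : ℕ → F) (Δ : ℕ → ℤ)
    (h : ∀ p ∈ G, Plc p (t p) (Δ p)) {φ : ℝ} (hφ : 0 < φ) (hφ' : φ ≤ 1 / 2) :
    ∃ A : ℕ, 1 ≤ A ∧ ∀ σ : ℝ, 0 < σ → ∀ s Y0 : ℕ, ∃ Y P : ℕ, Y0 ≤ Y ∧ 3 ≤ Y ∧ 1 ≤ P ∧
      (P : ℝ) ^ (1 / (A * σ)) ≤ Y ∧ (Y : ℝ) ≤ (P : ℝ) ^ (1 / σ) ∧ Out L G Δ φ s Y P := by
  classical
  obtain ⟨A, hA, hq⟩ := sv_quad L
  refine ⟨A, hA, fun σ hσ s Y0 => ?_⟩
  have hA' : (1 : ℝ) ≤ A := by exact_mod_cast hA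
  obtain ⟨b, hb⟩ : ∃ b : ℝ, b = 1 / (A * σ) := ⟨_, rfl⟩
  have hb0 : 0 < b := by rw [hb]; positivity
  have hbA : b * A = 1 / σ := by rw [hb]; field_simp
  obtain ⟨κ, hκ0, hκ1, hκ2⟩ : ∃ κ : ℝ, 0 < κ ∧ κ * A ≤ b * (φ / 2) ∧ κ ≤ φ / 2 :=
    ⟨min (b * (φ / 2) / A) (φ / 2), by positivity,
      (le_div_iff₀ (by positivity)).1 (min_le_left _ _), min_le_right _ _⟩
  obtain ⟨c, hc⟩ : ∃ c : ℕ, 3 ≤ b * c :=
    ⟨⌈3 / b⌉₊, by rw [mul_comm, ← div_le_iff₀ hb0]; exact Nat.le_ceil _⟩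
  obtain ⟨u, hu, hu0, hub⟩ : ∃ u : ℕ, Even u ∧ 0 < u ∧ 5 ≤ b / 2 * u := by
    refine ⟨2 * ⌈5 / b⌉₊, even_two_mul _, Nat.mul_pos two_pos (Nat.ceil_pos.2 (by positivity)), ?_⟩
    have := (div_le_iff₀ hb0).1 (Nat.le_ceil (5 / b))
    push_cast
    linarith
  have hu0' : (0 : ℝ) < u := by exact_mod_cast hu0
  obtain ⟨η, hη0, hη1, hη2⟩ : ∃ η : ℝ, 0 < η ∧ 2 * η * u ≤ κ * σ / 8 ∧ η ≤ φ / 2 := by
    refine ⟨min (κ * σ / 16 / u) (φ / 2), by positivity, ?_, min_le_right _ _⟩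
    have := (le_div_iff₀ hu0').1 (min_le_left (κ * σ / 16 / u) (φ / 2))
    linarith
  obtain ⟨C, hC, hT⟩ := types F hF (show 0 < κ / 8 by positivity)
  obtain ⟨P0, hP0⟩ := eventually_atTop.1 (tendsto_natCast_atTop_atTop.eventually
    ((hq s c Y0 (φ / 2) b (by positivity) (by linarith) hb0).and
    ((hq s c Y0 η b hη0 (by linarith) hb0).and
    ((sv_ev 2 (show 1 - φ + κ < 1 - κ / 8 by linarith)).and
    ((sv_ev 4 (show 1 - φ < 1 - κ / 8 by linarith)).and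
    ((sv_ev (4 * (s * (2 * (8 * u) ^ u) * C)) (show 1 - κ / 4 < 1 - κ / 8 by linarith)).and
    ((sv_ev (8 * (4 * u) ^ u * 16384 ^ 2) (show (4 : ℝ) < 5 by norm_num)).and
    ((sv_ev 16384 (show (2 : ℝ) < 3 by norm_num)).and (eventually_ge_atTop (1 : ℝ))))))))))
  obtain ⟨P, hP, hS⟩ := hG.dyadic (show 0 < κ / 8 by positivity) P0
  obtain ⟨q1, q2, e1, e2, e3, e4, e5, hP1⟩ := hP0 P hP
  have hP0' : (0 : ℝ) < P := by linarith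
  have hP1' : 1 ≤ P := by exact_mod_cast hP1
  set S := (Finset.Icc P (2 * P)).filter (· ∈ G)
  have hSm : ∀ p ∈ S, p ∈ G ∧ P ≤ p ∧ p ≤ 2 * P := fun p hp => by
    obtain ⟨h1, h2⟩ := Finset.mem_filter.1 hp
    exact ⟨h2, Finset.mem_Icc.1 h1⟩
  have hΔ : ∀ p ∈ S, Δ p < 0 ∧ (Δ p).natAbs ≤ 4096 * (2 * P) ^ 2 := fun p hp =>
    ⟨((h p (hSm p hp).1).bound hF).1, ((h p (hSm p hp).1).bound hF).2.trans
      (Nat.mul_le_mul_left _ (Nat.pow_le_pow_left (hSm p hp).2.2 2))⟩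
  choose! typ ht1 ht2 ht3 using fun p (hp : p ∈ S) => sv_typ (hΔ p hp).1
  have hgood : ∀ (Y : ℕ) (B : Finset ℕ), 3 ≤ Y → (P : ℝ) ^ b ≤ Y → (∀ l ∈ B, l.Prime ∧ Y ≤ l) →
      20 * c < B.card → ∀ p ∈ S,
      4 * (B.filter fun l => jacobiSym (-(typ p : ℤ)) l = -1).card < 3 * B.card →
      B.card ≤ 5 * (B.filter fun l => jacobiSym (Δ p) l = 1).card := by
    intro Y B hY hPY hB hcB p hp hb
    obtain ⟨k, hk⟩ := ht3 p hp
    refine sv_good B hB hk (hΔ p hp).1.ne ((hΔ p hp).2.trans ?_) (by omega) hcB.le hb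
    have h1 : (P : ℝ) ^ (3 : ℝ) ≤ (Y : ℝ) ^ c :=
      calc (P : ℝ) ^ (3 : ℝ) ≤ (P : ℝ) ^ (b * c) := Real.rpow_le_rpow_of_exponent_le hP1 hc
        _ = ((P : ℝ) ^ b) ^ c := by rw [Real.rpow_mul hP0'.le, Real.rpow_natCast]
        _ ≤ _ := pow_le_pow_left₀ (by positivity) hPY c
    have h2 : 4096 * (2 * (P : ℝ)) ^ 2 ≤ (Y : ℝ) ^ c := by
      rw [Real.rpow_two] at e5
      linarith
    exact_mod_cast h2
  have hAσ : ((P : ℝ) ^ b) ^ A = (P : ℝ) ^ (1 / σ) := by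
    rw [← hbA, Real.rpow_mul hP0'.le, Real.rpow_natCast]
  have hsum : ((S.filter fun p => (typ p : ℝ) ≤ (P : ℝ) ^ κ).card : ℝ) +
      (S.filter fun p => ¬ (typ p : ℝ) ≤ (P : ℝ) ^ κ).card = S.card := by
    exact_mod_cast Finset.card_filter_add_card_filter_not _
  rcases le_total ((P : ℝ) ^ (1 - κ / 8) / 2)
    (S.filter fun p => (typ p : ℝ) ≤ (P : ℝ) ^ κ).card with hs | hs
  · obtain ⟨δ, d1, d2, d3⟩ := sv_small (S.filter fun p => (typ p : ℝ) ≤ (P : ℝ) ^ κ) typ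
      (Real.one_le_rpow hP1 hκ0.le) fun p hp =>
        ⟨Nat.pos_of_ne_zero (ht1 p (Finset.mem_filter.1 hp).1).ne_zero, (Finset.mem_filter.1 hp).2⟩
    obtain ⟨Y, n, LL, y0, y1, y2, y3, y4, y5, -, y7, y8, y9⟩ := q1 δ d1 (by
      calc (δ : ℝ) ^ A ≤ ((P : ℝ) ^ κ) ^ A := pow_le_pow_left₀ (Nat.cast_nonneg _) d2 A
        _ = (P : ℝ) ^ (κ * A) := by rw [Real.rpow_mul hP0'.le, Real.rpow_natCast]
        _ ≤ (P : ℝ) ^ (b * (φ / 2)) := Real.rpow_le_rpow_of_exponent_le hP1 hκ1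
        _ = _ := Real.rpow_mul hP0'.le _ _)
    refine ⟨Y, P, y0, y1, hP1', hb ▸ y2, hAσ ▸ y3, n,
      (S.filter fun p => (typ p : ℝ) ≤ (P : ℝ) ^ κ).filter fun p => typ p = δ, LL,
      by convert y4 using 3; ring, ?_,
      fun p hp => hSm p (Finset.mem_filter.1 (Finset.mem_filter.1 hp).1).1, y7, y8,
      fun i l hl => ⟨(y9 i l hl).1, (y9 i l hl).2.1, (y9 i l hl).2.2.1, (y9 i l hl).2.2.2.1⟩,
      fun p hp i => ?_⟩
    · refine le_of_mul_le_mul_left ?_ (show 0 < (P : ℝ) ^ κ by positivity)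
      rw [Real.rpow_add hP0'] at e1
      linarith
    · obtain ⟨h1, h2⟩ := Finset.mem_filter.1 hp
      rw [← y7 i]
      refine hgood Y _ y1 y2 (fun l hl => ⟨(y9 i l hl).1, (y9 i l hl).2.1.le⟩) (y7 i ▸ y5) p
        (Finset.mem_filter.1 h1).1 ?_
      rw [Finset.filter_eq_empty_iff.2 fun l hl hj =>
        ZMod.nonsquare_of_jacobiSym_eq_neg_one hj (by simpa [h2] using (y9 i l hl).2.2.2.2), y7 i]
      simp only [Finset.card_empty]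
      omega
  · obtain ⟨Y, n, LL, y0, y1, y2, y3, y4, y5, y6, y7, y8, y9⟩ := q2 1 le_rfl (by
      rw [Nat.cast_one, one_pow]
      exact Real.one_le_rpow (Real.one_le_rpow hP1 hb0.le) hη0.le)
    have hn' : 8 * (4 * u) ^ u * (4096 * (2 * P) ^ 2) ^ 2 ≤ n ^ u := by
      have h1 : (P : ℝ) ^ (5 : ℝ) ≤ (n : ℝ) ^ u :=
        calc (P : ℝ) ^ (5 : ℝ) ≤ (P : ℝ) ^ (b / 2 * u) := Real.rpow_le_rpow_of_exponent_le hP1 hub
          _ = ((P : ℝ) ^ (b / 2)) ^ u := by rw [Real.rpow_mul hP0'.le, Real.rpow_natCast]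
          _ ≤ _ := pow_le_pow_left₀ (by positivity) y6 u
      have h2 : 8 * (4 * (u : ℝ)) ^ u * (4096 * (2 * (P : ℝ)) ^ 2) ^ 2 ≤ (n : ℝ) ^ u := by
        refine le_trans (le_of_eq ?_) (e4.trans h1)
        rw [show (4 : ℝ) = (4 : ℕ) by norm_num, Real.rpow_natCast]
        ring
      exact_mod_cast h2
    have hbig := sv_big (S.filter fun p => ¬ (typ p : ℝ) ≤ (P : ℝ) ^ κ) typ LL hu hP1' y1 hC.le
      hη0.le hσ hη1 (hAσ ▸ y3) y4 hn' y7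
      (fun i l hl => ⟨(y9 i l hl).1, (y9 i l hl).2.1, (y9 i l hl).2.2.1⟩)
      (fun p hp => by
        obtain ⟨h1, h2⟩ := Finset.mem_filter.1 hp
        exact ⟨ht1 p h1, (ht2 p h1).trans (hΔ p h1).2, (not_le.1 h2).le⟩)
      fun δ hδ => hT P δ _ t Δ hP1' hδ fun p hp => by
        obtain ⟨h1, rfl⟩ := Finset.mem_filter.1 hp
        have h2 := (Finset.mem_filter.1 h1).1
        exact ⟨(hSm p h2).2.2, h p (hSm p h2).1, ht3 p h2⟩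
    refine ⟨Y, P, y0, y1, hP1', hb ▸ y2, hAσ ▸ y3, n,
      (S.filter fun p => ¬ (typ p : ℝ) ≤ (P : ℝ) ^ κ).filter fun p => ∀ i, ¬ 3 * (LL i).card ≤
        4 * ((LL i).filter fun l => jacobiSym (-(typ p : ℤ)) l = -1).card, LL,
      (Real.rpow_le_rpow_of_exponent_le (by exact_mod_cast (by omega : 1 ≤ Y))
        (by linarith)).trans y4, by linarith,
      fun p hp => hSm p (Finset.mem_filter.1 (Finset.mem_filter.1 hp).1).1, y7, y8,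
      fun i l hl => ⟨(y9 i l hl).1, (y9 i l hl).2.1, (y9 i l hl).2.2.1, (y9 i l hl).2.2.2.1⟩,
      fun p hp i => ?_⟩
    obtain ⟨h1, h2⟩ := Finset.mem_filter.1 hp
    rw [← y7 i]
    exact hgood Y _ y1 y2 (fun l hl => ⟨(y9 i l hl).1, (y9 i l hl).2.1.le⟩) (y7 i ▸ y5) p
      (Finset.mem_filter.1 h1).1 (not_le.1 (h2 i))

theorem sieve_out (F L : Type) [Field F] [NumberField F] [Field L] [NumberField L]
    (hF : finrank ℚ F = 3) (G : Set ℕ) (hG : Dvg G) (t : ℕ → F) (Δ : ℕ → ℤ)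
    (h : ∀ p ∈ G, Plc p (t p) (Δ p)) {a φ : ℝ} (ha : 0 < a) (hφ : 0 < φ) (s0 : ℕ) :
    ∃ s : ℕ, s0 ≤ s ∧ ∀ Y0 : ℕ, ∃ Y P : ℕ, Y0 ≤ Y ∧ (Y : ℝ) ^ (a * s) ≤ P ∧
      (P : ℝ) ≤ (Y : ℝ) ^ (a * (s + 1)) ∧ Out L G Δ φ s Y P := by
  obtain ⟨A, hA, hc⟩ := sv_core F L hF G hG t Δ h (lt_min hφ one_half_pos) (min_le_right _ _)
  have hA' : (1 : ℝ) ≤ A := by exact_mod_cast hA
  have key : ∀ Y0 : ℕ, ∃ s ∈ Finset.Icc s0 (A * (s0 + 1)), ∃ Y P : ℕ, Y0 ≤ Y ∧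
      (Y : ℝ) ^ (a * s) ≤ P ∧ (P : ℝ) ≤ (Y : ℝ) ^ (a * (s + 1)) ∧ Out L G Δ φ s Y P := by
    intro Y0
    have hσ : 0 < a * (s0 + 1) := by positivity
    obtain ⟨Y, P, h1, h2, h3, h4, h5, h6⟩ := hc (a * (s0 + 1)) hσ (A * (s0 + 1)) Y0
    have hY : (1 : ℝ) < Y := by exact_mod_cast (by omega : 1 < Y)
    have hP : (1 : ℝ) ≤ P := by exact_mod_cast h3
    have hy := Real.log_pos hY
    have hl := Real.log_nonneg hP
    have h7 := Real.log_le_log (by positivity) h4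
    have h8 := Real.log_le_log (by positivity) h5
    rw [Real.log_rpow (by positivity), one_div, inv_mul_le_iff₀ (by positivity)] at h7
    rw [Real.log_rpow (by positivity), one_div, le_inv_mul_iff₀ hσ] at h8
    have hay : 0 < a * Real.log Y := by positivity
    have h9 : ⌊Real.log P / (a * Real.log Y)⌋₊ ≤ A * (s0 + 1) := by
      refine Nat.floor_le_of_le ((div_le_iff₀ hay).2 ?_)
      push_cast
      linarith
    refine ⟨⌊Real.log P / (a * Real.log Y)⌋₊, Finset.mem_Icc.2 ⟨Nat.le_floor ?_, h9⟩, Y, P, h1,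
      ?_, ?_, h6.mono h9 (min_le_left _ _) (by omega) h3⟩
    · rw [le_div_iff₀ hay]
      linarith
    · rw [← Real.log_le_log_iff (by positivity) (by positivity), Real.log_rpow (by positivity)]
      have := (le_div_iff₀ hay).1 (Nat.floor_le (div_nonneg hl hay.le))
      linarith
    · rw [← Real.log_le_log_iff (by positivity) (by positivity), Real.log_rpow (by positivity)]
      have := (div_lt_iff₀ hay).1 (Nat.lt_floor_add_one (Real.log P / (a * Real.log Y)))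
      linarith
  by_contra hcon
  push Not at hcon
  choose! y hy using hcon
  obtain ⟨s, hs, Y, P, h1, h2, h3, h4⟩ := key ((Finset.Icc s0 (A * (s0 + 1))).sup y)
  exact hy s (Finset.mem_Icc.1 hs).1 Y P ((Finset.le_sup hs).trans h1) h2 h3 h4

theorem sieve (F L : Type) [Field F] [NumberField F] [Field L] [NumberField L]
    (hF : finrank ℚ F = 3) (G : Set ℕ) (hG : Dvg G) (t : ℕ → F) (Δ : ℕ → ℤ)
    (h : ∀ p ∈ G, Plc p (t p) (Δ p)) {a φ : ℝ} (ha : 0 < a) (hφ : 0 < φ) (s0 : ℕ) :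
    ∃ s : ℕ, s0 ≤ s ∧ ∀ Y0 : ℕ, ∃ (Y P n : ℕ) (PP : Finset ℕ) (LL : Fin s → Finset ℕ),
      Y0 ≤ Y ∧ (Y : ℝ) ^ (a * s) ≤ P ∧ (P : ℝ) ≤ (Y : ℝ) ^ (a * (s + 1)) ∧
      (Y : ℝ) ^ (1 - φ) ≤ n ∧ (P : ℝ) ^ (1 - φ) ≤ PP.card ∧
      (∀ p ∈ PP, p ∈ G ∧ P ≤ p ∧ p ≤ 2 * P) ∧ (∀ i, (LL i).card = n) ∧
      (∀ i j, i ≠ j → Disjoint (LL i) (LL j)) ∧
      (∀ i, ∀ l ∈ LL i, l.Prime ∧ Y < l ∧ l ≤ 2 * Y ∧ Spl L l) ∧
      ∀ p ∈ PP, ∀ i, n ≤ 5 * ((LL i).filter fun l => jacobiSym (Δ p) l = 1).card := by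
  obtain ⟨s, hs, H⟩ := sieve_out F L hF G hG t Δ h ha hφ s0
  refine ⟨s, hs, fun Y0 => ?_⟩
  obtain ⟨Y, P, h1, h2, h3, n, PP, LL, h4⟩ := H Y0
  exact ⟨Y, P, n, PP, LL, h1, h2, h3, h4⟩

end M4.NT
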