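import Pool.Agent.Lib.MP_33b3f9_ag.M4.IDefs
import Pool.Agent.Lib.MP_33b3f9_ag.M4.ThId

/-!
The hypotheses of the statement in the coordinates of the blocks.
-/

set_option autoImplicit false

noncomputable section

namespace M4.Bridge

open Matrix Complex Pool.Agent.Lib.MP_33b3f9_ag

theorem per_eq (τ : Mat) (x : ν → ℝ) : Pool.Agent.M4.per τ x = per τ x := rfl

theorem coord_eq (τ : Mat) (x : ν → ℚ) (ε : Bits) :
    Pool.Agent.M4.coord τ x ε = thc τ (hf (bz ε)) ((2 : ℂ) • per τ fun i => (x i : ℝ)) := by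
  have ha : (fun i => ((ε (.inl i) : ℕ) : ℂ) / 2) = fa (hf (bz ε)) := by
    funext i
    simp [fa, hf, rz, bz, div_eq_inv_mul]
  have hb : (fun i => ((ε (.inr i) : ℕ) : ℂ) / 2) = fb (hf (bz ε)) := by
    funext i
    simp [fb, hf, rz, bz, div_eq_inv_mul]
  unfold Pool.Agent.M4.coord Pool.Agent.M4.theta thc
  rw [ha, hb, per_eq]
  refine tsum_congr fun n => ?_
  unfold ee
  congr 1
  have hn : (fun i => (n i : ℂ)) = cz n := rfl
  rw [hn, dotProduct_add, dotProduct_smul, smul_eq_mul]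
  ring

/-- The phase of the characteristic `ε`. -/
def ph (ε : Bits) : ℂ := ee (-(fa (hf (bz ε)) ⬝ᵥ fb (hf (bz ε)) / 2))

theorem ph_ne (ε : Bits) : ph ε ≠ 0 := ee_ne_zero _

theorem ph_mem {K : IntermediateField ℚ ℂ} (h : ee (1 / 8) ∈ K) (ε : Bits) : ph ε ∈ K := by
  have e : fa (hf (bz ε)) ⬝ᵥ fb (hf (bz ε)) / 2 =
      ((∑ i, (ε (.inl i) : ℕ) * (ε (.inr i) : ℕ) : ℕ) : ℂ) * (1 / 8) := by
    simp only [dotProduct, fa, fb, hf, rz, bz, Pi.smul_apply, smul_eq_mul]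
    push_cast
    rw [Finset.sum_div, Finset.sum_mul]
    exact Finset.sum_congr rfl fun i _ => by ring
  rw [ph, ee_neg, e, ee_nat_mul]
  exact K.inv_mem (pow_mem h _)

theorem XX_coord {τ : Mat} (hτ : InH τ) (x : ν → ℚ) (ε : Bits) :
    XX τ (bz ε) (fun i => (x i : ℝ)) =
      ee (2 * (fa (fun i => (x i : ℝ)) ⬝ᵥ per τ fun i => (x i : ℝ))) * ph ε *
        Pool.Agent.M4.coord τ x ε := by
  rw [XX_eq hτ.1, coord_eq, ph, ← ee_add, sub_eq_add_neg]

theorem th2_coord {τ : Mat} (hτ : InH τ) (ε : Bits) :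
    th2 τ ε = ph ε * Pool.Agent.M4.coord τ 0 ε := by
  have h := XX_coord hτ 0 ε
  have h0 : (fun i => (((0 : ν → ℚ) i : ℚ) : ℝ)) = 0 := by
    funext i
    simp
  have h1 : fa (0 : ν → ℝ) = 0 := by
    funext i
    simp [fa]
  rw [h0, XX_zero, h1] at h
  simpa [th2, ee] using h

theorem av {τ : Mat} {K : IntermediateField ℚ ℂ} [FiniteDimensional ℚ K] {r : Rep K}
    (h1 : Pool.Agent.M4.Siegel τ) (h2 : Pool.Agent.M4.DefinedOver τ K)
    (h3 : Pool.Agent.M4.IsTate τ K r) : AV τ K r := by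
  have hτ : InH τ := h1
  have h8 : ee (1 / 8) ∈ K := by
    have e : ee (1 / 8) = Complex.exp (Real.pi * Complex.I / 4) := by
      unfold ee
      congr 1
      ring
    rw [e]
    exact h2.1
  refine ⟨hτ, inferInstance, ⟨h8, fun ε ε' => ?_⟩, fun σ x y h => ?_⟩
  · rw [th2_coord hτ, th2_coord hτ, mul_div_mul_comm]
    exact K.mul_mem (K.div_mem (ph_mem h8 ε) (ph_mem h8 ε')) (h2.2 ε ε')
  · obtain ⟨c, hc⟩ := h3 σ x y h
    refine ⟨σ (ee (2 * (fa (fun i => (x i : ℝ)) ⬝ᵥ per τ fun i => (x i : ℝ)))) * c /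
      ee (2 * (fa (fun i => (y i : ℝ)) ⬝ᵥ per τ fun i => (y i : ℝ))), fun ε => ?_⟩
    have hp : σ (ph ε) = ph ε := σ.commutes ⟨ph ε, ph_mem h8 ε⟩
    have hy := ee_ne_zero (2 * (fa (fun i => (y i : ℝ)) ⬝ᵥ per τ fun i => (y i : ℝ)))
    rw [XX_coord hτ, XX_coord hτ, map_mul, map_mul, hc, hp]
    field_simp

theorem eq_cst {τ : Mat} (h1 : Pool.Agent.M4.Siegel τ) {I' : Matrix ν ν ℝ}
    (h : ∀ x, Pool.Agent.M4.per τ (I' *ᵥ x) = Complex.I • Pool.Agent.M4.per τ x) :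
    I' = cst τ := by
  have hτ : InH τ := h1
  refine Matrix.toLin'.injective (LinearMap.ext fun x => ?_)
  rw [Matrix.toLin'_apply, Matrix.toLin'_apply]
  refine (per_bijective hτ).1 ?_
  rw [per_cst hτ]
  exact h x

end M4.Bridge
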