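import Pool.Agent.Lib.MP_33b3f9_ag.M4.KzDefs

/-!
Block B1b: gluing subgroups modulo distinct primes.
-/

set_option autoImplicit false

namespace M4.Kz

open Matrix

variable {ι : Type} [Fintype ι] [DecidableEq ι]

theorem kzglue_dvd {T : Finset ℕ} (hT : ∀ l ∈ T, l.Prime) (n : ℤ) :
    ((∏ l ∈ T, l : ℕ) : ℤ) ∣ n ↔ ∀ l ∈ T, (l : ℤ) ∣ n := by
  simp only [Int.natCast_dvd]
  exact ⟨fun h l hl => (Finset.dvd_prod_of_mem _ hl).trans h,
    Finset.prod_primes_dvd _ fun l hl => (hT l hl).prime⟩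

theorem kzglue_eq {κ : Type} {T : Finset ℕ} (hT : ∀ l ∈ T, l.Prime) (a b : κ → ℤ) :
    vZ (∏ l ∈ T, l) a = vZ (∏ l ∈ T, l) b ↔ ∀ l ∈ T, vZ l a = vZ l b := by
  simp only [funext_iff, vZ, ZMod.intCast_eq_intCast_iff_dvd_sub, kzglue_dvd hT]
  exact ⟨fun h l hl i => h i l hl, fun h i l hl => h l hl i⟩

theorem kzglue_zero {κ : Type} (m : ℕ) : vZ m (0 : κ → ℤ) = 0 := funext fun _ => Int.cast_zero

theorem kzglue_ne {T : Finset ℕ} (hT : ∀ l ∈ T, l.Prime) : NeZero (∏ l ∈ T, l) :=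
  ⟨Finset.prod_ne_zero_iff.2 fun l hl => (hT l hl).ne_zero⟩

/-- Divisibility by a product of distinct primes. -/
theorem kerM_eq_glue {κ : Type} [Fintype κ] (T : Finset ℕ) (hT : ∀ l ∈ T, l.Prime)
    (G : (l : ℕ) → Submodule (ZMod l) (κ → ZMod l)) (h : Matrix κ κ ℤ)
    (hh : ∀ l ∈ T, ∀ x, x ∈ G l ↔ mZ l h *ᵥ x = 0) :
    (kerM (∏ l ∈ T, l) h : Set (κ → ZMod (∏ l ∈ T, l))) = glue T G := by
  have := kzglue_ne hT
  ext a
  change mZ _ h *ᵥ a = 0 ↔ ∀ l ∈ T, vZ l (lift a) ∈ G l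
  conv_lhs => rw [← vZ_lift a, mZ_mulVec, ← kzglue_zero, kzglue_eq hT]
  refine forall₂_congr fun l hl => ?_
  rw [hh l hl, mZ_mulVec, kzglue_zero]

/-- `r` is invertible modulo `∏ T` and carries `G l` onto `G' l`: it carries the glued groups to each
other. -/
theorem glue_bij {κ : Type} [Fintype κ] [DecidableEq κ] (T : Finset ℕ) (hT : ∀ l ∈ T, l.Prime)
    (G G' : (l : ℕ) → Submodule (ZMod l) (κ → ZMod l)) (r : Matrix κ κ ℤ)
    (hr : ∀ l ∈ T, IsUnit (mZ l r)) (hG : ∀ l ∈ T, G' l = (G l).map (mZ l r).mulVecLin) :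
    Set.BijOn (mZ (∏ l ∈ T, l) r).mulVec (glue T G) (glue T G') := by
  have := kzglue_ne hT
  have key : ∀ l ∈ T, ∀ a, vZ l (lift (mZ (∏ l ∈ T, l) r *ᵥ a)) = mZ l r *ᵥ vZ l (lift a) :=
    fun l hl a => by
      rw [mZ_mulVec]
      refine (kzglue_eq hT _ _).1 ?_ l hl
      rw [vZ_lift, ← mZ_mulVec, vZ_lift]
  have h1 : ∀ l ∈ T, Function.Injective (mZ l r).mulVec := fun l hl =>
    mulVec_injective_of_isUnit (hr l hl)
  have h2 : Function.Injective (mZ (∏ l ∈ T, l) r).mulVec := fun a b e => by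
    rw [← vZ_lift a, ← vZ_lift b, kzglue_eq hT]
    exact fun l hl => h1 l hl (by rw [← key l hl, ← key l hl, e])
  refine ⟨fun a ha l hl => ?_, h2.injOn, fun b hb => ?_⟩
  · rw [key l hl, hG l hl]
    exact ⟨_, ha l hl, rfl⟩
  · obtain ⟨a, rfl⟩ := Finite.injective_iff_surjective.1 h2 b
    refine ⟨a, fun l hl => ?_, rfl⟩
    have h3 := hb l hl
    rw [key l hl, hG l hl] at h3
    obtain ⟨x, hx, e⟩ := h3
    exact h1 l hl e ▸ hx

/-- Neighbours: if the kernel of `h` is killed by `h'` at all primes of `T` except those of `T₀`,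
then `(∏ T₀) h' h⁻¹` is integral. Proof: `h⁻¹ = adj h / M`, the columns of `adj h` lie in the kernel
of `h` modulo every `l ∈ T`. -/
theorem neighbour (T T₀ : Finset ℕ) (hT : ∀ l ∈ T, l.Prime) {h h' : Matrix (ι ⊕ ι) (ι ⊕ ι) ℤ}
    (hh : SimR h ((∏ l ∈ T, l : ℕ) : ℤ))
    (hk : ∀ l ∈ T, l ∉ T₀ → ∀ x, mZ l h *ᵥ x = 0 → mZ l h' *ᵥ x = 0) :
    ∃ ξ : Matrix (ι ⊕ ι) (ι ⊕ ι) ℤ, ξ * h = ((∏ l ∈ T₀, l : ℕ) : ℤ) • h' := by
  have h0 : ((∏ l ∈ T, l : ℕ) : ℤ) ≠ 0 := Int.natCast_ne_zero.2 (kzglue_ne hT).out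
  have h1 : ∀ i j, ((∏ l ∈ T, l : ℕ) : ℤ) ∣ ((∏ l ∈ T₀, l : ℕ) : ℤ) * (h' * adj h) i j :=
    fun i j => (kzglue_dvd hT _).2 fun l hl => by
      by_cases k : l ∈ T₀
      · exact (Int.natCast_dvd_natCast.2 (Finset.dvd_prod_of_mem _ k)).mul_right _
      have e := hk l hl k (vZ l (adj h *ᵥ Pi.single j 1)) (by
        rw [mZ_mulVec, mulVec_mulVec, hh.mul_adj h0, smul_mulVec, vZ_zsmul,
          ← Int.cast_smul_eq_zsmul (ZMod l), Int.cast_natCast,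
          (ZMod.natCast_eq_zero_iff _ _).2 (Finset.dvd_prod_of_mem _ hl), zero_smul])
      rw [mZ_mulVec, mulVec_mulVec, mulVec_single_one] at e
      exact ((ZMod.intCast_zmod_eq_zero_iff_dvd _ _).1 (congrFun e i)).mul_left _
  choose ξ hξ using h1
  have h2 : ((∏ l ∈ T, l : ℕ) : ℤ) • of ξ = ((∏ l ∈ T₀, l : ℕ) : ℤ) • (h' * adj h) :=
    Matrix.ext fun i j => (hξ i j).symm
  refine ⟨of ξ, smul_right_injective _ h0 ?_⟩
  simp only
  rw [← Matrix.smul_mul, h2, Matrix.smul_mul, Matrix.mul_assoc, hh.adj_mul, Matrix.mul_smul,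
    Matrix.mul_one, smul_comm]

end M4.Kz
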