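import Pool.Agent.Lib.MP_33b3f9_ag.M4.KzDefs
import Pool.Agent.Lib.MP_33b3f9_ag.M4.ThBpf
import Pool.Agent.Lib.MP_33b3f9_ag.M4.ThAct

/-!
Block B1b: the facts of block B1a that are used.
-/

set_option autoImplicit false

namespace M4.Kz

open Complex Matrix

variable {ι : Type} [Fintype ι] {τ τ' : Matrix ι ι ℂ}

theorem uniq (hτ : InH τ) {f : (ι ⊕ ι → ℝ) → ℂ} (hf : f ∈ Gam τ 1 0) :
    ∃ c : ℂ, f = c • Th τ := by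
  simpa using Gam_one hτ hf

theorem riemann [DecidableEq ι] (hτ : InH τ) (x₁ x₂ x₃ x₄ : ι ⊕ ι → ℝ) :
    2 ^ Fintype.card ι * (Th τ x₁ * Th τ x₂ * Th τ x₃ * Th τ x₄) =
      ∑ k : ι ⊕ ι → Fin 2, chi (bz k) *
        (U 1 (hf (bz k)) (Th τ) ((1 / 2 : ℝ) • (x₁ + x₂ + x₃ + x₄)) *
          U 1 (hf (bz k)) (Th τ) ((1 / 2 : ℝ) • (x₁ + x₂ - x₃ - x₄)) *
          U 1 (hf (bz k)) (Th τ) ((1 / 2 : ℝ) • (x₁ - x₂ + x₃ - x₄)) *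
          U 1 (hf (bz k)) (Th τ) ((1 / 2 : ℝ) • (x₁ - x₂ - x₃ + x₄))) := by
  simpa [hs, sub_eq_add_neg] using M4.riemann hτ 0 0 0 0 x₁ x₂ x₃ x₄

theorem bpf (hτ : InH τ) (x : ι ⊕ ι → ℝ) : ∃ k : ι ⊕ ι → Fin 2, Th τ (x + hf (bz k)) ≠ 0 :=
  (Th_nv hτ x x).imp fun _ h => h.1

end M4.Kz
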