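import Pool.Agent.Lib.MP_33b3f9_ag.M4.ModGam

/-!
The boundary, and estimates at reduced points.
-/

set_option autoImplicit false

namespace M4.Mo

open Complex Matrix Filter Topology

variable {ι : Type} [Fintype ι] {N : ℕ} {τ : Matrix ι ι ℂ}

theorem zero_mem_Ln (n : ι ⊕ ι → ℤ) : (0 : (ι ⊕ ι → Fin N) → ℂ) ∈ Ln N n := fun _ _ => rfl

theorem smul_mem_Ln {n : ι ⊕ ι → ℤ} {ξ : (ι ⊕ ι → Fin N) → ℂ} (h : ξ ∈ Ln N n) (s : ℂ) :
    s • ξ ∈ Ln N n := fun e he => by simp [h e he]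

theorem Ln_add (n k : ι ⊕ ι → ℤ) : Ln N (n + (N : ℤ) • k) = Ln (ι := ι) N n := by
  ext ξ
  refine forall_congr' fun e => ?_
  rw [EZ_add_left, EZ_smul_left, mul_add, mul_left_comm, dvd_add_left (dvd_mul_right _ _)]

/-- The boundary as a finite union (division with remainder; `N` even keeps the parity). -/
theorem mem_bd [NeZero N] (hN : 2 ∣ N) {ξ : (ι ⊕ ι → Fin N) → ℂ} :
    ξ ∈ bd ι N ↔ ∃ e : ι ⊕ ι → Fin N, (∃ i, Odd (fz e i)) ∧ ξ ∈ Ln N (fz e) := by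
  refine ⟨?_, fun ⟨e, h1, h2⟩ => ⟨fz e, h1, h2⟩⟩
  rintro ⟨n, ⟨i, hi⟩, h⟩
  obtain ⟨e, k, -, rfl, -⟩ := Th_qv (N := N) n
  obtain ⟨M, rfl⟩ := hN
  refine ⟨e, ⟨i, ?_⟩, Ln_add (fz e) k ▸ h⟩
  obtain ⟨m, hm⟩ := hi
  refine ⟨m - M * k i, ?_⟩
  simp only [Pi.add_apply, Pi.smul_apply, smul_eq_mul, Nat.cast_mul, Nat.cast_ofNat] at hm
  linear_combination hm

theorem isClosed_bd [NeZero N] (hN : 2 ∣ N) : IsClosed (bd ι N) := by
  classical
  have e : bd ι N = ⋃ e ∈ {e : ι ⊕ ι → Fin N | ∃ i, Odd (fz e i)}, Ln N (fz e) := by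
    ext ξ
    simp only [mem_bd hN, Set.mem_iUnion, Set.mem_ofPred_eq, exists_prop]
  rw [e]
  refine (Set.toFinite _).isClosed_biUnion fun e _ => ?_
  simp only [Ln, Set.ofPred_forall]
  exact isClosed_iInter fun f => isClosed_iInter fun _ =>
    isClosed_eq (continuous_apply f) continuous_const

/-- Proof. `N = 4 N'`. If `n i` is odd take a basis vector `y` with `EZ n y = ± n i`; `bpf` at
`qv N (N' • y)` gives `k` with `Th τ (qv N (N' • y + 2 N' • k)) ≠ 0`; `Th_qv` gives `e`; and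
`2 EZ n (fz e) = 2 N' (odd)` modulo `N`. -/
theorem thN_not_mem_bd [NeZero N] (hN : 4 ∣ N) (hτ : InH τ) : thN N τ ∉ bd ι N := by
  classical
  rintro ⟨n, ⟨i, hi⟩, h⟩
  obtain ⟨y, hy⟩ : ∃ y, Odd (EZ n y) := by
    rcases i with j | j
    · exact ⟨Pi.single (Sum.inr j) 1, by simpa [EZ, Pi.single_apply] using hi⟩
    · exact ⟨Pi.single (Sum.inl j) 1, by simpa [EZ, Pi.single_apply] using hi⟩
  obtain ⟨M, rfl⟩ := hN
  have hM : M ≠ 0 := right_ne_zero_of_mul (NeZero.ne (4 * M))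
  obtain ⟨k, hk⟩ := bpf hτ (qv (4 * M) ((M : ℤ) • y))
  have e1 : qv (4 * M) ((M : ℤ) • y) + hf k = qv (4 * M) ((M : ℤ) • y + (2 * M : ℤ) • k) := by
    have : (M : ℝ) ≠ 0 := Nat.cast_ne_zero.2 hM
    funext a
    simp only [qv, hf, rz, Pi.add_apply, Pi.smul_apply, smul_eq_mul]
    push_cast
    field_simp
    ring
  obtain ⟨e, m, u, e2, -, e3⟩ := Th_qv (N := 4 * M) ((M : ℤ) • y + (2 * M : ℤ) • k)
  rw [e1, e3 τ hτ] at hk
  obtain ⟨w, hw⟩ := not_not.1 fun h1 => right_ne_zero_of_mul hk (h e h1)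
  have e4 := congrArg (EZ n) e2
  simp only [EZ_add_right, EZ_smul_right] at e4
  obtain ⟨z, hz⟩ := hy
  have e5 : (2 * M : ℤ) * (2 * z + 1) = 2 * M * (2 * (w + 2 * EZ n m - EZ n k)) := by
    push_cast at hw e4
    linear_combination 2 * e4 + hw - 2 * M * hz
  have e6 := mul_left_cancel₀ (by positivity) e5
  omega

theorem not_mem_bd [NeZero N] (hN : 4 ∣ N) {ξ : (ι ⊕ ι → Fin N) → ℂ} (h : ξ ∈ Xo ι N) :
    ξ ∉ bd ι N := by
  obtain ⟨s, τ, hs, hτ, rfl⟩ := h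
  rintro ⟨n, h1, h2⟩
  exact thN_not_mem_bd hN hτ ⟨n, h1, inv_smul_smul₀ hs (thN N τ) ▸ smul_mem_Ln h2 s⁻¹⟩

/-- A form that vanishes on the boundary and not at a given point: the product over the finitely
many `e` of `mem_bd` of one variable `X (f e)` with `ξ (f e) ≠ 0`, `¬ N ∣ 2 EZ (fz e) (fz (f e))`. -/
theorem exists_form_bd [NeZero N] (hN : 2 ∣ N) {ξ : (ι ⊕ ι → Fin N) → ℂ} (h : ξ ∉ bd ι N) :
    ∃ (d : ℕ) (P : MvPolynomial (ι ⊕ ι → Fin N) ℂ), P.IsHomogeneous d ∧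
      MvPolynomial.eval ξ P ≠ 0 ∧ ∀ η ∈ bd ι N, MvPolynomial.eval η P = 0 := by
  classical
  have h1 : ∀ e : {e : ι ⊕ ι → Fin N // ∃ i, Odd (fz e i)}, ∃ f : ι ⊕ ι → Fin N,
      ¬ (N : ℤ) ∣ 2 * EZ (fz e.1) (fz f) ∧ ξ f ≠ 0 := fun e => by
    by_contra h2
    exact h ⟨fz e.1, e.2, fun f hf => not_not.1 fun h3 => h2 ⟨f, hf, h3⟩⟩
  choose f hf hf' using h1
  refine ⟨_, ∏ e, MvPolynomial.X (f e), MvPolynomial.IsHomogeneous.prod _ _ (fun _ => 1)
    fun e _ => MvPolynomial.isHomogeneous_X _ _, ?_, fun η hη => ?_⟩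
  · rw [map_prod]
    exact Finset.prod_ne_zero_iff.2 fun e _ => by rw [MvPolynomial.eval_X]; exact hf' e
  · obtain ⟨e, he, h2⟩ := (mem_bd hN).1 hη
    rw [map_prod]
    exact Finset.prod_eq_zero (Finset.mem_univ ⟨e, he⟩)
      (by rw [MvPolynomial.eval_X]; exact h2 _ (hf ⟨e, he⟩))

theorem modBd_pi [DecidableEq ι] {f : ℤ → ℝ} (hf : Summable f) (h0 : ∀ n, 0 ≤ f n) :
    Summable fun m : ι → ℤ => ∏ l, f (m l) := by
  refine summable_of_sum_le (c := ∏ _l : ι, ∑' n, f n)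
    (fun m => Finset.prod_nonneg fun _ _ => h0 _) fun s => ?_
  calc ∑ m ∈ s, ∏ l, f (m l)
      ≤ ∑ m ∈ Fintype.piFinset (fun l => s.image fun m => m l), ∏ l, f (m l) :=
        Finset.sum_le_sum_of_subset_of_nonneg
          (fun m hm => Fintype.mem_piFinset.2 fun l => Finset.mem_image_of_mem _ hm)
          fun _ _ _ => Finset.prod_nonneg fun _ _ => h0 _
    _ = ∏ l, ∑ n ∈ s.image fun m => m l, f n := (Finset.prod_univ_sum _ fun _ n => f n).symm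
    _ ≤ _ := Finset.prod_le_prod (fun _ _ => Finset.sum_nonneg fun _ _ => h0 _)
        fun _ _ => hf.sum_le_tsum _ fun _ _ => h0 _

/-- A Gaussian sum is bounded uniformly in the shift. Proof. Shift `a` into `[0, 1)` coordinatewise
(`Equiv.addRight` on `ι → ℤ`); then `(n + a) ^ 2 ≥ |n| - 1`, so the term is at most
`∏ i, exp (π d) * exp (-π d |n i|)`, which is summable (product of geometric series; induction on
the finite type, or `Lib/MP_07b2d0_nt` `summable_pi`). -/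
theorem gauss_bound (ι : Type) [Fintype ι] {d : ℝ} (hd : 0 < d) : ∃ C : ℝ, ∀ a : ι → ℝ,
    (Summable fun n : ι → ℤ => Real.exp (-(Real.pi * (d * ∑ i, (n i + a i) ^ 2)))) ∧
      ∑' n : ι → ℤ, Real.exp (-(Real.pi * (d * ∑ i, (n i + a i) ^ 2))) ≤ C := by
  classical
  have hp : 0 < Real.pi * d := mul_pos Real.pi_pos hd
  have h0 : Summable fun n : ℕ => Real.exp (2 * (Real.pi * d)) * Real.exp (n * -(Real.pi * d)) :=
    (Real.summable_exp_nat_mul_iff.2 (by linarith)).mul_left _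
  have h1 : Summable fun n : ℤ => Real.exp (-(Real.pi * d * (|(n : ℝ)| - 2))) := by
    refine Summable.of_nat_of_neg (h0.congr fun n => ?_) (h0.congr fun n => ?_) <;>
      simp only [← Real.exp_add, Int.cast_neg, abs_neg, Int.cast_natCast, Nat.abs_cast] <;>
      congr 1 <;> ring
  have h2 := modBd_pi (ι := ι) h1 fun _ => (Real.exp_pos _).le
  refine ⟨∑' n : ι → ℤ, ∏ i, Real.exp (-(Real.pi * d * (|(n i : ℝ)| - 2))), fun a => ?_⟩
  have h3 := (Equiv.addRight fun i => ⌊a i⌋).summable_iff.2 h2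
  have h4 : ∀ n : ι → ℤ, Real.exp (-(Real.pi * (d * ∑ i, (n i + a i) ^ 2))) ≤
      ∏ i, Real.exp (-(Real.pi * d * (|((n i + ⌊a i⌋ : ℤ) : ℝ)| - 2))) := by
    intro n
    rw [← Real.exp_sum, Real.exp_le_exp, Finset.sum_neg_distrib, neg_le_neg_iff, ← mul_assoc,
      ← Finset.mul_sum]
    refine mul_le_mul_of_nonneg_left (Finset.sum_le_sum fun i _ => ?_) hp.le
    have h5 : ((n i + ⌊a i⌋ : ℤ) : ℝ) = n i + a i - Int.fract (a i) := by
      rw [Int.fract]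
      push_cast
      ring
    have h6 := abs_sub ((n i : ℝ) + a i) (Int.fract (a i))
    rw [abs_of_nonneg (Int.fract_nonneg (a i))] at h6
    rw [h5, ← sq_abs]
    nlinarith [Int.fract_lt_one (a i), sq_nonneg (|(n i : ℝ) + a i| - 1)]
  have h5 := Summable.of_nonneg_of_le (fun _ => (Real.exp_pos _).le) h4 h3
  exact ⟨h5, (h5.tsum_le_tsum h4 h3).trans_eq ((Equiv.addRight fun i => ⌊a i⌋).tsum_eq
    fun n : ι → ℤ => ∏ i, Real.exp (-(Real.pi * d * (|(n i : ℝ)| - 2))))⟩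

/-- Proof. `norm_Th_le`; with `v = n + a`:
`v Y v ≥ c ∑ Y_jj v_j ^ 2 ≥ (c / 2) Y_ii δ ^ 2 + (c ^ 2 / 2) ∑ v_j ^ 2`; `gauss_bound`. -/
theorem decay (ι : Type) [Fintype ι] {c : ℝ} (hc : 0 < c) : ∃ C : ℝ, ∀ τ : Matrix ι ι ℂ, InH τ →
    Red c τ → ∀ (x : ι ⊕ ι → ℝ) (i : ι) (δ : ℝ), 0 ≤ δ → (∀ n : ℤ, δ ≤ |n + x (Sum.inl i)|) →
      ‖Th τ x‖ ≤ C * Real.exp (-(Real.pi * (c / 2 * (τ i i).im * δ ^ 2))) := by
  obtain ⟨C, hC⟩ := gauss_bound ι (d := c ^ 2 / 2) (by positivity)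
  refine ⟨C, fun τ hτ hR x i δ hδ h => ?_⟩
  obtain ⟨h1, h2⟩ := hC fun i => x (Sum.inl i)
  refine (norm_Th_le hτ x).trans (le_trans ?_ (mul_le_mul_of_nonneg_right h2 (Real.exp_pos _).le))
  rw [← tsum_mul_right]
  refine (summable_gauss hτ _).tsum_le_tsum (fun n => ?_) (h1.mul_right _)
  rw [← Real.exp_add, Real.exp_le_exp, ← neg_add, ← mul_add, neg_le_neg_iff]
  refine mul_le_mul_of_nonneg_left (le_trans ?_ (hR.2.2 _)) Real.pi_pos.le
  simp only [Pi.add_apply, rz]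
  have h3 : ∀ j, 0 ≤ (τ j j).im := fun j => hc.le.trans (hR.2.1 j)
  have h4 : (τ i i).im * δ ^ 2 ≤ ∑ j, (τ j j).im * ((n j : ℝ) + x (Sum.inl j)) ^ 2 := by
    refine le_trans ?_ (Finset.single_le_sum (f := fun j => (τ j j).im *
      ((n j : ℝ) + x (Sum.inl j)) ^ 2) (fun j _ => mul_nonneg (h3 j) (sq_nonneg _))
      (Finset.mem_univ i))
    rw [← sq_abs ((n i : ℝ) + _)]
    exact mul_le_mul_of_nonneg_left (pow_le_pow_left₀ hδ (h _) 2) (h3 i)
  have h5 : c * ∑ j, ((n j : ℝ) + x (Sum.inl j)) ^ 2 ≤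
      ∑ j, (τ j j).im * ((n j : ℝ) + x (Sum.inl j)) ^ 2 := by
    rw [Finset.mul_sum]
    exact Finset.sum_le_sum fun j _ => mul_le_mul_of_nonneg_right (hR.2.1 j) (sq_nonneg _)
  nlinarith [mul_le_mul_of_nonneg_left h4 hc.le, mul_le_mul_of_nonneg_left h5 hc.le]

/-- Reduced points with bounded diagonal form a compact subset of the Siegel space. Proof. The set
is closed in `ι → ι → ℂ` (symmetry and the inequalities of `Red`, which imply `PosDef`) and bounded: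
`|Y_ij| ≤ (Y_ii + Y_jj) / 2` from positivity at `e_i ± e_j`. -/
theorem isCompact_Red {c : ℝ} (hc : 0 < c) (B : ℝ) :
    IsCompact {τ : ι → ι → ℂ | InH τ ∧ Red c τ ∧ ∀ i, (τ i i).im ≤ B} := by
  classical
  have hnn : ∀ τ : Matrix ι ι ℂ, Red c τ → ∀ (v : ι → ℝ) (j : ι), 0 ≤ (τ j j).im * v j ^ 2 :=
    fun τ h v j => mul_nonneg (hc.le.trans (h.2.1 j)) (sq_nonneg _)
  have e : {τ : ι → ι → ℂ | InH τ ∧ Red c τ ∧ ∀ i, (τ i i).im ≤ B} =
      {τ : ι → ι → ℂ | (∀ i j, τ j i = τ i j) ∧ Red c τ ∧ ∀ i, (τ i i).im ≤ B} := by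
    ext τ
    refine and_congr_left fun h => ⟨fun h1 i j => h1.1.apply i j, fun h1 =>
      ⟨Matrix.IsSymm.ext h1, PosDef.of_dotProduct_mulVec_pos (Matrix.IsHermitian.ext fun i j =>
        congrArg im (h1 i j)) fun v hv => lt_of_lt_of_le (mul_pos hc ?_) (h.1.2.2 v)⟩⟩
    obtain ⟨i, hi⟩ := Function.ne_iff.1 hv
    exact Finset.sum_pos' (fun j _ => hnn τ h.1 v j)
      ⟨i, Finset.mem_univ i, mul_pos (hc.trans_le (h.1.2.1 i)) (sq_pos_of_ne_zero hi)⟩
  rw [e]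
  refine Metric.isCompact_of_isClosed_isBounded ?_
    (isBounded_iff_forall_norm_le.2 ⟨1 + |B|, fun τ h => ?_⟩)
  · simp only [Red, Set.ofPred_and, Set.ofPred_forall, dotProduct, mulVec, Matrix.map, of_apply]
    refine IsClosed.inter ?_ (IsClosed.inter (IsClosed.inter ?_ (IsClosed.inter ?_ ?_)) ?_)
    · exact isClosed_iInter fun i => isClosed_iInter fun j => isClosed_eq (by fun_prop) (by fun_prop)
    · exact isClosed_iInter fun i => isClosed_iInter fun j => isClosed_le (by fun_prop) (by fun_prop)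
    · exact isClosed_iInter fun i => isClosed_le (by fun_prop) (by fun_prop)
    · exact isClosed_iInter fun i => isClosed_le (by fun_prop) (by fun_prop)
    · exact isClosed_iInter fun i => isClosed_le (by fun_prop) (by fun_prop)
  · refine (pi_norm_le_iff_of_nonneg (by positivity)).2 fun i =>
      (pi_norm_le_iff_of_nonneg (by positivity)).2 fun j =>
        (norm_le_abs_re_add_abs_im _).trans (add_le_add (h.2.1.1 i j) ?_)
    have h1 : ∀ s : ℝ, 0 ≤ (τ i i).im + 2 * s * (τ i j).im + s ^ 2 * (τ j j).im := by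
      intro s
      have h2 := (mul_nonneg hc.le (Finset.sum_nonneg fun k _ => hnn τ h.2.1 _ k)).trans
        (h.2.1.2.2 (Pi.single i 1 + s • Pi.single j 1))
      simp only [mulVec_add, mulVec_smul, add_dotProduct, smul_dotProduct, single_one_dotProduct,
        mulVec_single_one, Pi.add_apply, Pi.smul_apply, smul_eq_mul, col_apply, Matrix.map,
        of_apply, h.1 i j] at h2
      linarith
    have := le_abs_self B
    exact abs_le.2 ⟨by linarith [h1 1, h.2.2 i, h.2.2 j], by linarith [h1 (-1), h.2.2 i, h.2.2 j]⟩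

end M4.Mo
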