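import Mathlib

/-!
Closed subgroups of a product of two real vector spaces with discrete cocompact kernel contain
the graph of a linear map.
-/

set_option autoImplicit false

namespace M4.Mo

open Filter Topology Matrix

theorem modClg_lim {W : Type} [NormedAddCommGroup W] [NormedSpace ℝ W] [FiniteDimensional ℝ W]
    (U : Ultrafilter ℕ) {z : ℕ → W} {R : ℝ} (h : ∀ᶠ k in (U : Filter ℕ), ‖z k‖ ≤ R) :
    ∃ w, Tendsto z U (𝓝 w) := by
  have : ProperSpace W := FiniteDimensional.proper ℝ W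
  obtain ⟨w, -, hw⟩ := (isCompact_closedBall (0 : W) R).ultrafilter_le_nhds (U.map z)
    (le_principal_iff.2 (mem_map.2 (h.mono fun _ hk => mem_closedBall_zero_iff.2 hk)))
  exact ⟨w, hw⟩

/-- Proof. Take `y k` with `(2⁻¹ ^ k • x, y k) ∈ S`, `‖y k‖ ≤ C`. Along a subsequence
`y k → w`, `(0, w) ∈ S`; replace `y k` by `y k - w`, so `y k → 0`. The `2 ^ k • y k` are bounded
along a subsequence: else with `m k = ⌊(δ / 2) / ‖y k‖⌋` one has `m k / 2 ^ k → 0` and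
`δ / 4 ≤ ‖m k • y k‖ ≤ δ / 2` for large `k`, and a limit point is a nonzero element of the kernel
of norm `< δ`. Let `2 ^ k • y k → y`; then `⌊t 2 ^ k⌋ • (2⁻¹ ^ k • x, y k) → (t • x, t • y)`. -/
theorem clg_line {V W : Type} [NormedAddCommGroup V] [NormedSpace ℝ V] [NormedAddCommGroup W]
    [NormedSpace ℝ W] [FiniteDimensional ℝ W] (S : AddSubgroup (V × W))
    (hS : IsClosed (S : Set (V × W))) {δ C : ℝ} (hδ : 0 < δ)
    (hdisc : ∀ y : W, (0, y) ∈ S → ‖y‖ < δ → y = 0)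
    (hco : ∀ y : W, ∃ w, (0, w) ∈ S ∧ ‖y - w‖ ≤ C) {x : V}
    (hx : ∀ k : ℕ, ∃ y, (((2 : ℝ)⁻¹) ^ k • x, y) ∈ S) :
    ∃ y, ∀ t : ℝ, (t • x, t • y) ∈ S := by
  let U := hyperfilter ℕ
  have hU : (U : Filter ℕ) ≤ atTop := Nat.hyperfilter_le_atTop
  have h2 : Tendsto (fun k : ℕ => (2 : ℝ) ^ k) U atTop :=
    (tendsto_pow_atTop_atTop_of_one_lt one_lt_two).mono_left hU
  have h2' : Tendsto (fun k : ℕ => ((2 : ℝ)⁻¹) ^ k) U (𝓝 0) :=
    (tendsto_pow_atTop_nhds_zero_of_lt_one (by norm_num) (by norm_num)).mono_left hU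
  have hmem : ∀ {c : ℕ → ℝ} {z : ℕ → W} {t : ℝ} {w : W}, Tendsto c U (𝓝 t) → Tendsto z U (𝓝 w) →
      (∀ k, (c k • x, z k) ∈ S) → (t • x, w) ∈ S := fun hc hz h =>
    hS.mem_of_tendsto ((hc.smul_const x).prodMk_nhds hz) (Eventually.of_forall h)
  obtain ⟨z, hz, hz0⟩ : ∃ z : ℕ → W, (∀ k, (((2 : ℝ)⁻¹) ^ k • x, z k) ∈ S) ∧
      Tendsto z U (𝓝 0) := by
    choose y hy using hx
    choose v hv hv' using fun k => hco (y k)
    obtain ⟨w, hw⟩ := modClg_lim U (Eventually.of_forall hv')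
    have h1 : ∀ k, (((2 : ℝ)⁻¹) ^ k • x, y k - v k) ∈ S := fun k => by
      simpa using S.sub_mem (hy k) (hv k)
    have h3 := hmem h2' hw h1
    rw [zero_smul] at h3
    exact ⟨fun k => y k - v k - w, fun k => by simpa using S.sub_mem (h1 k) h3,
      by simpa using hw.sub_const w⟩
  have hmul : ∀ (m : ℕ → ℕ) (k : ℕ),
      (((m k : ℝ) / 2 ^ k) • x, (m k : ℝ) • z k) ∈ S := fun m k => by
    have h1 := S.nsmul_mem (hz k) (m k)
    rwa [Prod.smul_mk, ← Nat.cast_smul_eq_nsmul ℝ, ← Nat.cast_smul_eq_nsmul ℝ, smul_smul, inv_pow,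
      ← div_eq_mul_inv] at h1
  obtain ⟨R, hR⟩ : ∃ R : ℝ, ∀ᶠ k in (U : Filter ℕ), ‖(2 : ℝ) ^ k • z k‖ ≤ R := by
    by_contra hn
    have h1 : Tendsto (fun k => ‖(2 : ℝ) ^ k • z k‖) U atTop := by
      refine tendsto_atTop.2 fun R => ?_
      have h3 := Ultrafilter.eventually_not.2 fun e => hn ⟨R, e⟩
      exact h3.mono fun k hk => (not_le.1 hk).le
    have h3 : ∀ᶠ k in (U : Filter ℕ), 0 < ‖z k‖ := by
      filter_upwards [h1.eventually_gt_atTop 0] with k hk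
      rw [norm_pos_iff] at hk ⊢
      exact right_ne_zero_of_smul hk
    have h4 : ∀ᶠ k in (U : Filter ℕ), ‖z k‖ < δ / 4 :=
      (tendsto_zero_iff_norm_tendsto_zero.1 hz0).eventually_lt_const (by positivity)
    obtain ⟨m, hm⟩ : ∃ m : ℕ → ℕ, ∀ k, m k = ⌊δ / 2 / ‖z k‖⌋₊ := ⟨_, fun _ => rfl⟩
    have h5 : ∀ k, (m k : ℝ) ≤ δ / 2 / ‖z k‖ := fun k => hm k ▸ Nat.floor_le (by positivity)
    have h6 : ∀ᶠ k in (U : Filter ℕ), δ / 4 ≤ ‖(m k : ℝ) • z k‖ ∧ ‖(m k : ℝ) • z k‖ ≤ δ / 2 := by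
      filter_upwards [h3, h4] with k a1 a2
      have a3 := Nat.lt_floor_add_one (δ / 2 / ‖z k‖)
      rw [← hm, div_lt_iff₀ a1] at a3
      rw [norm_smul, Real.norm_natCast]
      exact ⟨by linarith, (le_div_iff₀ a1).1 (h5 k)⟩
    obtain ⟨u, hu⟩ := modClg_lim U (h6.mono fun k hk => hk.2)
    have h7 : Tendsto (fun k => (m k : ℝ) / 2 ^ k) U (𝓝 0) := by
      refine squeeze_zero (fun k => by positivity) (fun k => ?_) (h1.const_div_atTop (δ / 2))
      rw [norm_smul, Real.norm_of_nonneg (by positivity), mul_comm, ← div_div]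
      exact div_le_div_of_nonneg_right (h5 k) (by positivity)
    have h8 := hmem h7 hu (hmul m)
    rw [zero_smul] at h8
    have h9 := ge_of_tendsto hu.norm (h6.mono fun k hk => hk.1)
    have h10 := le_of_tendsto hu.norm (h6.mono fun k hk => hk.2)
    rw [hdisc u h8 (by linarith), norm_zero] at h9
    linarith
  obtain ⟨y, hy⟩ := modClg_lim U hR
  have key : ∀ t : ℝ, 0 ≤ t → (t • x, t • y) ∈ S := fun t ht => by
    have h1 : Tendsto (fun k : ℕ => (⌊t * 2 ^ k⌋₊ : ℝ) / 2 ^ k) U (𝓝 t) :=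
      (tendsto_nat_floor_mul_div_atTop ht).comp h2
    refine hmem h1 (h1.smul hy) fun k => ?_
    rw [smul_smul, div_mul_cancel₀ _ (by positivity)]
    exact hmul (fun k => ⌊t * 2 ^ k⌋₊) k
  refine ⟨y, fun t => ?_⟩
  rcases le_total 0 t with ht | ht
  · exact key t ht
  · simpa using S.neg_mem (key (-t) (neg_nonneg.2 ht))

/-- Proof. `clg_line` for `x = r • Pi.single i 1` gives the columns of `γ`; sum over `i`. -/
theorem clg {κ : Type} [Fintype κ] [DecidableEq κ] (S : AddSubgroup ((κ → ℝ) × (κ → ℝ)))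
    (hS : IsClosed (S : Set ((κ → ℝ) × (κ → ℝ)))) {δ C r : ℝ} (hδ : 0 < δ) (hr : r ≠ 0)
    (hdisc : ∀ y : κ → ℝ, (0, y) ∈ S → ‖y‖ < δ → y = 0)
    (hco : ∀ y : κ → ℝ, ∃ w, (0, w) ∈ S ∧ ‖y - w‖ ≤ C)
    (hx : ∀ (i : κ) (k : ℕ), ∃ y, (((2 : ℝ)⁻¹) ^ k • r • (Pi.single i 1 : κ → ℝ), y) ∈ S) :
    ∃ γ : Matrix κ κ ℝ, ∀ x, (x, γ *ᵥ x) ∈ S := by
  choose y hy using fun i => clg_line S hS hδ hdisc hco (hx i)
  refine ⟨Matrix.of fun j i => y i j / r, fun x => ?_⟩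
  have h1 := S.sum_mem fun i (_ : i ∈ Finset.univ) => hy i (x i / r)
  have h2 : ∑ i, ((x i / r) • r • (Pi.single i 1 : κ → ℝ), (x i / r) • y i) =
      (x, (Matrix.of fun j i => y i j / r) *ᵥ x) := by
    refine Prod.ext ?_ ?_
    · rw [Prod.fst_sum]
      funext j
      simp [Finset.sum_apply, Pi.single_apply, hr]
    · rw [Prod.snd_sum]
      funext j
      simp only [Finset.sum_apply, Pi.smul_apply, smul_eq_mul, mulVec, dotProduct, of_apply]
      exact Finset.sum_congr rfl fun i _ => by ring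
  exact h2 ▸ h1

end M4.Mo
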