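import Pool.Agent.Lib.MP_33b3f9_ag.M4.ThBasis

/-!
The theta null map of level `N`: definitions.
-/

set_option autoImplicit false

namespace M4

open Complex Matrix

variable {ι : Type} [Fintype ι]

/-- The symplectic form on integral vectors. -/
def EZ (x y : ι ⊕ ι → ℤ) : ℤ :=
  ∑ i, (x (Sum.inl i) * y (Sum.inr i) - x (Sum.inr i) * y (Sum.inl i))

/-- An integral matrix as a real matrix. -/
def rm {κ : Type} (g : Matrix κ κ ℤ) : Matrix κ κ ℝ := g.map (Int.cast : ℤ → ℝ)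

/-- The rational point `y / N`. -/
noncomputable def qv {κ : Type} (N : ℕ) (y : κ → ℤ) : κ → ℝ := (1 / N : ℝ) • rz y

/-- The theta null point of level `N`. -/
noncomputable def thN (N : ℕ) (τ : Matrix ι ι ℂ) : (ι ⊕ ι → Fin N) → ℂ :=
  fun e => Th τ (qv N (fz e))

/-- The cone over the image of the theta null map. -/
def Xo (ι : Type) [Fintype ι] (N : ℕ) : Set ((ι ⊕ ι → Fin N) → ℂ) :=
  {ξ | ∃ (s : ℂ) (τ : Matrix ι ι ℂ), s ≠ 0 ∧ InH τ ∧ ξ = s • thN N τ}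

/-- The linear space of the vectors supported on the `y` with `2 E(n, y / N)` integral. -/
def Ln (N : ℕ) (n : ι ⊕ ι → ℤ) : Set ((ι ⊕ ι → Fin N) → ℂ) :=
  {ξ | ∀ e, ¬ (N : ℤ) ∣ 2 * EZ n (fz e) → ξ e = 0}

/-- The boundary: a finite union of linear spaces. -/
def bd (ι : Type) [Fintype ι] (N : ℕ) : Set ((ι ⊕ ι → Fin N) → ℂ) :=
  {ξ | ∃ n : ι ⊕ ι → ℤ, (∃ i, Odd (n i)) ∧ ξ ∈ Ln N n}

/-- The level sixteen coordinates `(U_(z/4) Th)(x)`. -/
noncomputable def YY (τ : Matrix ι ι ℂ) (z : ι ⊕ ι → ℤ) (x : ι ⊕ ι → ℝ) : ℂ :=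
  U 1 (qv 4 z) (Th τ) x

/-- The point `x'` for `τ'` and the point `x` for `τ` have proportional coordinates. -/
def Pr (τ τ' : Matrix ι ι ℂ) (x x' : ι ⊕ ι → ℝ) (μ : ℂ) : Prop :=
  μ ≠ 0 ∧ ∀ z, YY τ' z x' = μ * YY τ z x

/-- A weak form of reducedness. -/
def Red (c : ℝ) (τ : Matrix ι ι ℂ) : Prop :=
  (∀ i j, |(τ i j).re| ≤ 1) ∧ (∀ i, c ≤ (τ i i).im) ∧
    ∀ v : ι → ℝ, c * ∑ i, (τ i i).im * v i ^ 2 ≤ v ⬝ᵥ τ.map im *ᵥ v

/-- The symmetric matrix with coordinates `t`. -/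
def smat {κ : Type} (t : Sym2 κ → ℂ) : κ → κ → ℂ := fun i j => t s(i, j)

/-- The coordinates of the symmetric part of a matrix. -/
noncomputable def sco {κ : Type} (τ : κ → κ → ℂ) : Sym2 κ → ℂ :=
  Sym2.lift ⟨fun i j => (τ i j + τ j i) / 2, fun i j => by simp only [add_comm]⟩

variable [DecidableEq ι]

/-- The positive quadratic form of `τ`. -/
noncomputable def Qf (τ : Matrix ι ι ℂ) (x : ι ⊕ ι → ℝ) : ℝ := E (cst τ *ᵥ x) x

/-- The integral symplectic group. -/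
abbrev SpZ (ι : Type) [Fintype ι] [DecidableEq ι] : Type := Matrix.symplecticGroup ι ℤ

/-- The action of the integral symplectic group on the Siegel space. -/
noncomputable def actZ (γ : SpZ ι) (τ : Matrix ι ι ℂ) : Matrix ι ι ℂ := act (rm γ.1) τ

/-- Every point is equivalent to a reduced point. -/
def HasRed (ι : Type) [Fintype ι] [DecidableEq ι] : Prop :=
  ∃ c : ℝ, 0 < c ∧ ∀ τ : Matrix ι ι ℂ, InH τ → ∃ γ : SpZ ι, Red c (actZ γ τ)

/-- The theta constants of level two are not all small at a reduced point. -/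
def HasLow (ι : Type) [Fintype ι] : Prop :=
  ∀ c : ℝ, 0 < c → ∃ c₁ : ℝ, 0 < c₁ ∧ ∀ τ : Matrix ι ι ℂ, InH τ → Red c τ →
    ∃ k : ι ⊕ ι → ℤ, c₁ ≤ ‖Th τ (hf k)‖

omit [DecidableEq ι] in
theorem EZ_add_left (x x' y : ι ⊕ ι → ℤ) : EZ (x + x') y = EZ x y + EZ x' y := by
  simp only [EZ, Pi.add_apply, ← Finset.sum_add_distrib]
  exact Finset.sum_congr rfl fun i _ => by ring

omit [DecidableEq ι] in
theorem EZ_add_right (x y y' : ι ⊕ ι → ℤ) : EZ x (y + y') = EZ x y + EZ x y' := by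
  simp only [EZ, Pi.add_apply, ← Finset.sum_add_distrib]
  exact Finset.sum_congr rfl fun i _ => by ring

omit [DecidableEq ι] in
theorem EZ_smul_left (c : ℤ) (x y : ι ⊕ ι → ℤ) : EZ (c • x) y = c * EZ x y := by
  simp only [EZ, Pi.smul_apply, smul_eq_mul, Finset.mul_sum]
  exact Finset.sum_congr rfl fun i _ => by ring

omit [DecidableEq ι] in
theorem EZ_smul_right (c : ℤ) (x y : ι ⊕ ι → ℤ) : EZ x (c • y) = c * EZ x y := by
  simp only [EZ, Pi.smul_apply, smul_eq_mul, Finset.mul_sum]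
  exact Finset.sum_congr rfl fun i _ => by ring

omit [DecidableEq ι] in
theorem EZ_comm (x y : ι ⊕ ι → ℤ) : EZ x y = -EZ y x := by
  simp only [EZ, ← Finset.sum_neg_distrib]
  exact Finset.sum_congr rfl fun i _ => by ring

omit [DecidableEq ι] in
theorem EZ_self (x : ι ⊕ ι → ℤ) : EZ x x = 0 := by
  have := EZ_comm x x
  omega

omit [DecidableEq ι] in
theorem EZ_neg_left (x y : ι ⊕ ι → ℤ) : EZ (-x) y = -EZ x y := by
  simpa using EZ_smul_left (-1) x y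

omit [DecidableEq ι] in
theorem Mo.E_rz (x y : ι ⊕ ι → ℤ) : E (rz x) (rz y) = EZ x y := by
  simp [E, EZ, rz]

/-- The principal congruence subgroup. -/
def GamP (ι : Type) [Fintype ι] [DecidableEq ι] (M : ℕ) : Subgroup (SpZ ι) where
  carrier := {γ | ∃ β : Matrix (ι ⊕ ι) (ι ⊕ ι) ℤ, γ.1 = 1 + (M : ℤ) • β}
  one_mem' := ⟨0, by simp⟩
  mul_mem' := by
    rintro a b ⟨β, ha⟩ ⟨β', hb⟩
    refine ⟨β + β' + (M : ℤ) • (β * β'), ?_⟩
    change a.1 * b.1 = _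
    rw [ha, hb]
    simp only [add_mul, mul_add, one_mul, mul_one, smul_add, Matrix.smul_mul, Matrix.mul_smul]
    abel
  inv_mem' := by
    rintro a ⟨β, ha⟩
    refine ⟨-(β * (a⁻¹).1), ?_⟩
    have h : a.1 * (a⁻¹).1 = 1 := congrArg Subtype.val (mul_inv_cancel a)
    nth_rewrite 1 [ha] at h
    rw [add_mul, one_mul, Matrix.smul_mul] at h
    rw [smul_neg, ← h]
    abel

/-- The Igusa group `Γ(N ^ 2, 2 N ^ 2)`. -/
def GamN (ι : Type) [Fintype ι] [DecidableEq ι] (N : ℕ) : Subgroup (SpZ ι) where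
  carrier := {γ | ∃ β : Matrix (ι ⊕ ι) (ι ⊕ ι) ℤ, γ.1 = 1 + (2 * N : ℤ) • β ∧
    ∀ y, (N : ℤ) ∣ EZ (β *ᵥ y) y}
  one_mem' := ⟨0, by simp, fun y => by simp [EZ]⟩
  mul_mem' := by
    rintro a b ⟨β, ha, h⟩ ⟨β', hb, h'⟩
    refine ⟨β + β' + (2 * N : ℤ) • (β * β'), ?_, fun y => ?_⟩
    · change a.1 * b.1 = _
      rw [ha, hb]
      simp only [add_mul, mul_add, one_mul, mul_one, smul_add, Matrix.smul_mul, Matrix.mul_smul]
      abel
    · rw [add_mulVec, add_mulVec, smul_mulVec, EZ_add_left, EZ_add_left, EZ_smul_left]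
      exact ((h y).add (h' y)).add (Dvd.dvd.mul_right (Dvd.intro_left 2 rfl) _)
  inv_mem' := by
    rintro a ⟨β, ha, h⟩
    have h1 : a.1 * (a⁻¹).1 = 1 := congrArg Subtype.val (mul_inv_cancel a)
    have h2 := h1
    nth_rewrite 1 [ha] at h2
    rw [add_mul, one_mul, Matrix.smul_mul] at h2
    refine ⟨-(β * (a⁻¹).1), ?_, fun y => ?_⟩
    · rw [smul_neg, ← h2]
      abel
    · have h3 : y = (a⁻¹).1 *ᵥ y + (2 * N : ℤ) • β *ᵥ ((a⁻¹).1 *ᵥ y) := by
        rw [mulVec_mulVec, ← smul_mulVec, ← add_mulVec, h2, one_mulVec]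
      rw [neg_mulVec, EZ_neg_left, dvd_neg, ← mulVec_mulVec]
      generalize (a⁻¹).1 *ᵥ y = w at h3 ⊢
      rw [h3, EZ_add_right, EZ_smul_right, EZ_self, mul_zero, add_zero]
      exact h w

end M4
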