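import Pool.Agent.Lib.MP_33b3f9_ag.M4.ModR4

/-!
Addition, subtraction and halving of pairs of points with proportional coordinates.
-/

set_option autoImplicit false

namespace M4.Mo

open Complex Matrix

variable {ι : Type} [Fintype ι] {τ τ' : Matrix ι ι ℂ}

/-- Proof. `r4` with the points `(x + y, x - y, 0, 0)` (half sums `x, x, y, y`); by `YY_bpf` at `0`
choose `z₃ = 2 k₃` and `z₄ = -(z₁ + z₂) + 2 k₄` with `YY τ z₃ 0 ≠ 0`, `YY τ z₄ 0 ≠ 0`, cancel. -/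
theorem add_aux (hτ : InH τ) (hτ' : InH τ') {c μ ν : ℂ} (h0 : Pr τ τ' 0 0 c)
    {x x' y y' : ι ⊕ ι → ℝ} (hx : Pr τ τ' x x' μ) (hy : Pr τ τ' y y' ν) (z₁ z₂ : ι ⊕ ι → ℤ) :
    c ^ 2 * (YY τ' z₁ (x' + y') * YY τ' z₂ (x' - y')) =
      μ ^ 2 * ν ^ 2 * (YY τ z₁ (x + y) * YY τ z₂ (x - y)) := by
  obtain ⟨k₃, h₃⟩ := YY_bpf hτ 0 0
  obtain ⟨k₄, h₄⟩ := YY_bpf hτ (-(z₁ + z₂)) 0
  have e1 : ∀ u v : ι ⊕ ι → ℝ, (1 / 2 : ℝ) • (u + v + (u - v) + 0 + 0) = u := fun u v => by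
    module
  have e2 : ∀ u v : ι ⊕ ι → ℝ, (1 / 2 : ℝ) • (u + v + (u - v) - 0 - 0) = u := fun u v => by
    module
  have e3 : ∀ u v : ι ⊕ ι → ℝ, (1 / 2 : ℝ) • (u + v - (u - v) + 0 - 0) = v := fun u v => by
    module
  have e4 : ∀ u v : ι ⊕ ι → ℝ, (1 / 2 : ℝ) • (u + v - (u - v) - 0 + 0) = v := fun u v => by
    module
  have hs : z₁ + z₂ + (0 + (2 : ℤ) • k₃) + (-(z₁ + z₂) + (2 : ℤ) • k₄) = (2 : ℤ) • (k₃ + k₄) := by
    module
  have h := r4 (x₁ := x + y) (x₂ := x - y) (x₃ := 0) (x₄ := 0) (x₁' := x' + y') (x₂' := x' - y')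
    (x₃' := 0) (x₄' := 0) (μ₁ := μ) (μ₂ := μ) (μ₃ := ν) (μ₄ := ν) hτ hτ'
    (by rw [e1, e1]; exact hx) (by rw [e2, e2]; exact hx) (by rw [e3, e3]; exact hy)
    (by rw [e4, e4]; exact hy) hs
  rw [h0.2, h0.2] at h
  apply mul_right_cancel₀ (mul_ne_zero h₃ h₄)
  linear_combination h

/-- Proof. Fix `z₁`, `z₂` with `YY τ z₁ (x + y) ≠ 0`, `YY τ z₂ (x - y) ≠ 0`; then both factors on
the left of `add_aux` are nonzero; `α = YY τ' z₁ (x' + y') / YY τ z₁ (x + y)`, same for `β`. -/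
theorem Pr_add_sub (hτ : InH τ) (hτ' : InH τ') {c μ ν : ℂ} (h0 : Pr τ τ' 0 0 c)
    {x x' y y' : ι ⊕ ι → ℝ} (hx : Pr τ τ' x x' μ) (hy : Pr τ τ' y y' ν) :
    ∃ α β : ℂ, Pr τ τ' (x + y) (x' + y') α ∧ Pr τ τ' (x - y) (x' - y') β ∧
      α * β * c ^ 2 = μ ^ 2 * ν ^ 2 := by
  obtain ⟨k₁, h₁⟩ := YY_bpf hτ 0 (x + y)
  obtain ⟨k₂, h₂⟩ := YY_bpf hτ 0 (x - y)
  generalize 0 + (2 : ℤ) • k₁ = z₁ at h₁
  generalize 0 + (2 : ℤ) • k₂ = z₂ at h₂
  have h := add_aux hτ hτ' h0 hx hy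
  have hc : c ^ 2 ≠ 0 := pow_ne_zero 2 h0.1
  have hr : μ ^ 2 * ν ^ 2 * (YY τ z₁ (x + y) * YY τ z₂ (x - y)) ≠ 0 :=
    mul_ne_zero (mul_ne_zero (pow_ne_zero 2 hx.1) (pow_ne_zero 2 hy.1)) (mul_ne_zero h₁ h₂)
  rw [← h z₁ z₂] at hr
  have h₁' : YY τ' z₁ (x' + y') ≠ 0 := left_ne_zero_of_mul (right_ne_zero_of_mul hr)
  have h₂' : YY τ' z₂ (x' - y') ≠ 0 := right_ne_zero_of_mul (right_ne_zero_of_mul hr)
  refine ⟨YY τ' z₁ (x' + y') / YY τ z₁ (x + y), YY τ' z₂ (x' - y') / YY τ z₂ (x - y),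
    ⟨div_ne_zero h₁' h₁, fun z => ?_⟩, ⟨div_ne_zero h₂' h₂, fun z => ?_⟩, ?_⟩
  · rw [div_mul_eq_mul_div, eq_div_iff h₁]
    apply mul_left_cancel₀ (mul_ne_zero hc h₂')
    linear_combination YY τ z₁ (x + y) * h z z₂ - YY τ z (x + y) * h z₁ z₂
  · rw [div_mul_eq_mul_div, eq_div_iff h₂]
    apply mul_left_cancel₀ (mul_ne_zero hc h₁')
    linear_combination YY τ z₂ (x - y) * h z₁ z - YY τ z (x - y) * h z₁ z₂
  · rw [div_mul_div_comm, div_mul_eq_mul_div, div_eq_iff (mul_ne_zero h₁ h₂)]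
    linear_combination h z₁ z₂

/-- A character of order two of the lattice comes from a lattice vector. Proof. `ρ 0 = 1`,
`ρ (n • z) = ρ z ^ n`; let `b j ∈ {0, 1}` with `ρ (Pi.single j 1) = (-1) ^ b j`, and
`l (inr i) = b (inl i)`, `l (inl i) = b (inr i)`; both sides are multiplicative and agree on the
`Pi.single j 1` (`ee (± 1 / 2) = -1`). -/
theorem exists_char (ρ : (ι ⊕ ι → ℤ) → ℂ) (hmul : ∀ z w, ρ (z + w) = ρ z * ρ w)
    (hsq : ∀ z, ρ z * ρ z = 1) : ∃ l : ι ⊕ ι → ℤ, ∀ z, ρ z = ee (EZ z l / 2) := by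
  classical
  have hhalf : ee (1 / 2) = -1 := by
    rw [ee, show 2 * (Real.pi : ℂ) * I * (1 / 2) = Real.pi * I by ring]
    exact Complex.exp_pi_mul_I
  have hneg : ∀ n : ℤ, ee (((-n : ℤ) : ℂ) / 2) = ee (n / 2) := fun n => by
    have h1 : (n : ℂ) / 2 = ((-n : ℤ) : ℂ) / 2 + n := by push_cast; ring
    rw [h1, ee_add, ee_int, mul_one]
  have hb : ∀ j, ∃ b : ℤ, ρ (Pi.single j 1) = ee (b / 2) := fun j => by
    rcases mul_self_eq_one_iff.1 (hsq (Pi.single j 1)) with h | h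
    · exact ⟨0, by rw [h]; simp [ee_zero]⟩
    · exact ⟨1, by rw [h, ← hhalf]; simp⟩
  choose b hb using hb
  refine ⟨Sum.elim (fun i => b (Sum.inr i)) (fun i => b (Sum.inl i)), fun z => ?_⟩
  set l : ι ⊕ ι → ℤ := Sum.elim (fun i => b (Sum.inr i)) (fun i => b (Sum.inl i)) with hl
  have h0 : ρ 0 = 1 := by
    have := hmul 0 0
    rw [add_zero, hsq] at this
    exact this
  have p0 : ρ 0 = ee (EZ 0 l / 2) := by
    rw [h0]
    simp [EZ, ee_zero]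
  have padd : ∀ f g, ρ f = ee (EZ f l / 2) → ρ g = ee (EZ g l / 2) →
      ρ (f + g) = ee (EZ (f + g) l / 2) := fun f g hf hg => by
    rw [hmul, hf, hg, EZ_add_left, ← ee_add]
    push_cast
    ring_nf
  have pneg : ∀ f, ρ f = ee (EZ f l / 2) → ρ (-f) = ee (EZ (-f) l / 2) := fun f hf => by
    have h1 := hmul (-f) f
    rw [neg_add_cancel, h0] at h1
    have h2 : ρ (-f) = ρ f := by
      linear_combination (-ρ f) * h1 - ρ (-f) * hsq f
    rw [h2, hf, EZ_neg_left, hneg]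
  have pone : ∀ j, ρ (Pi.single j 1) = ee (EZ (Pi.single j 1) l / 2) := by
    rintro (i | i)
    · have : EZ (Pi.single (Sum.inl i) 1) l = b (Sum.inl i) := by
        simp [EZ, hl, Pi.single_apply]
      rw [this, hb]
    · have : EZ (Pi.single (Sum.inr i) 1) l = -b (Sum.inr i) := by
        simp [EZ, hl, Pi.single_apply]
      rw [this, hneg, hb]
  refine Pi.single_induction (fun z => ρ z = ee (EZ z l / 2)) z p0 padd fun j m => ?_
  induction m using Int.induction_on with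
  | zero => rw [Pi.single_zero]; exact p0
  | succ m ih => rw [Pi.single_add]; exact padd _ _ ih (pone j)
  | pred m ih =>
    rw [Pi.single_sub, sub_eq_add_neg]
    exact padd _ _ ih (pneg _ (pone j))

/-- Two families with the same quartic monomials of even total index differ by a character of
order two. Proof. `z, z, z, z` shows that the supports agree. For `z₁`, `z₂` in the support and
congruent modulo two, `(z₁, z₁, z₁, z₁)` and `(z₁, z₁, z₁, z₂)` give `b z₁ / a z₁ = b z₂ / a z₂`.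
Define `r z` as this ratio at any element of the support congruent to `z`; then
`r z₁ r z₂ r z₃ r z₄ = κ` if the sum is even; `ρ z = r z / r 0`. -/
theorem quartic {a b : (ι ⊕ ι → ℤ) → ℂ} {κ : ℂ} (hκ : κ ≠ 0)
    (ha : ∀ z, ∃ k, a (z + (2 : ℤ) • k) ≠ 0)
    (h : ∀ z₁ z₂ z₃ z₄ s, z₁ + z₂ + z₃ + z₄ = (2 : ℤ) • s →
      b z₁ * b z₂ * b z₃ * b z₄ = κ * (a z₁ * a z₂ * a z₃ * a z₄)) :
    ∃ (μ : ℂ) (l : ι ⊕ ι → ℤ), μ ≠ 0 ∧ ∀ z, b z = μ * ee (EZ z l / 2) * a z := by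
  choose k hk using ha
  have hb : ∀ z, a z ≠ 0 → b z ≠ 0 := fun z hz hb => by
    have h1 := h z z z z ((2 : ℤ) • z) (by module)
    rw [hb, mul_zero] at h1
    exact mul_ne_zero hκ (mul_ne_zero (mul_ne_zero (mul_ne_zero hz hz) hz) hz) h1.symm
  set r : (ι ⊕ ι → ℤ) → ℂ := fun z => b (z + (2 : ℤ) • k z) / a (z + (2 : ℤ) • k z) with hr
  have hr0 : ∀ z, r z ≠ 0 := fun z => div_ne_zero (hb _ (hk z)) (hk z)
  have hba : ∀ z, b z = r z * a z := fun z => by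
    have h1 := h (z + (2 : ℤ) • k z) (z + (2 : ℤ) • k z) (z + (2 : ℤ) • k z) (z + (2 : ℤ) • k z)
      ((2 : ℤ) • (z + (2 : ℤ) • k z)) (by module)
    have h2 := h (z + (2 : ℤ) • k z) (z + (2 : ℤ) • k z) (z + (2 : ℤ) • k z) z
      ((2 : ℤ) • z + (3 : ℤ) • k z) (by module)
    have h3 := hb _ (hk z)
    simp only [hr]
    rw [div_mul_eq_mul_div, eq_div_iff (hk z)]
    apply mul_left_cancel₀ (mul_ne_zero (mul_ne_zero h3 h3) h3)
    linear_combination a (z + (2 : ℤ) • k z) * h2 - a z * h1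
  have hrr : ∀ z₁ z₂ z₃ z₄ s, z₁ + z₂ + z₃ + z₄ = (2 : ℤ) • s → r z₁ * r z₂ * r z₃ * r z₄ = κ :=
    fun z₁ z₂ z₃ z₄ s hs => by
      have h1 := h (z₁ + (2 : ℤ) • k z₁) (z₂ + (2 : ℤ) • k z₂) (z₃ + (2 : ℤ) • k z₃)
        (z₄ + (2 : ℤ) • k z₄) (s + k z₁ + k z₂ + k z₃ + k z₄)
        (by linear_combination (exp := 1) hs)
      simp only [hr]
      rw [div_mul_div_comm, div_mul_div_comm, div_mul_div_comm,
        div_eq_iff (mul_ne_zero (mul_ne_zero (mul_ne_zero (hk z₁) (hk z₂)) (hk z₃)) (hk z₄))]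
      exact h1
  have h00 := hrr 0 0 0 0 0 (by simp)
  have hz := hr0 0
  have hsq : ∀ z, r z * r z = r 0 * r 0 := fun z => by
    have h1 := hrr z z 0 0 z (by module)
    apply mul_right_cancel₀ (mul_ne_zero hz hz)
    linear_combination h1 - h00
  obtain ⟨l, hl⟩ := exists_char (fun z => r z / r 0) (fun z w => by
    have h1 := hrr (z + w) z w 0 (z + w) (by module)
    have h2 : r (z + w) * r 0 = r z * r w := by
      apply mul_right_cancel₀ (mul_ne_zero (hr0 z) (hr0 w))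
      linear_combination h1 - h00 - r w * r w * hsq z - r 0 * r 0 * hsq w
    field_simp
    linear_combination h2) (fun z => by
    field_simp
    linear_combination hsq z)
  refine ⟨r 0, l, hz, fun z => ?_⟩
  rw [← hl z, hba z]
  field_simp

/-- Proof. `r4` with the points `(x, x, x, x)` (half sums `2 x, 0, 0, 0`), `quartic`, and
`YY_add_rz` for `n = 2 • l`: the product of the two characters is `ee (EZ z l) = 1`. -/
theorem Pr_half (hτ : InH τ) (hτ' : InH τ') {c μ : ℂ} (h0 : Pr τ τ' 0 0 c) {x x' : ι ⊕ ι → ℝ}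
    (h : Pr τ τ' ((2 : ℝ) • x) ((2 : ℝ) • x') μ) :
    ∃ (l : ι ⊕ ι → ℤ) (ν : ℂ), Pr τ τ' x (x' + rz ((2 : ℤ) • l)) ν := by
  have e1 : ∀ u : ι ⊕ ι → ℝ, (1 / 2 : ℝ) • (u + u + u + u) = (2 : ℝ) • u := fun u => by module
  have e2 : ∀ u : ι ⊕ ι → ℝ, (1 / 2 : ℝ) • (u + u - u - u) = 0 := fun u => by module
  have e3 : ∀ u : ι ⊕ ι → ℝ, (1 / 2 : ℝ) • (u - u + u - u) = 0 := fun u => by module
  have e4 : ∀ u : ι ⊕ ι → ℝ, (1 / 2 : ℝ) • (u - u - u + u) = 0 := fun u => by module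
  obtain ⟨ν, l, hν, hl⟩ := quartic (a := fun z => YY τ z x) (b := fun z => YY τ' z x')
    (κ := μ * c * c * c) (mul_ne_zero (mul_ne_zero (mul_ne_zero h.1 h0.1) h0.1) h0.1)
    (fun z => YY_bpf hτ z x) (fun z₁ z₂ z₃ z₄ s hs =>
      r4 (x₁ := x) (x₂ := x) (x₃ := x) (x₄ := x) (x₁' := x') (x₂' := x') (x₃' := x') (x₄' := x')
        hτ hτ' (by rw [e1, e1]; exact h) (by rw [e2, e2]; exact h0) (by rw [e3, e3]; exact h0)
        (by rw [e4, e4]; exact h0) hs)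
  refine ⟨l, ee (E x' (rz ((2 : ℤ) • l)) / 2) * ν, mul_ne_zero (ee_ne _) hν, fun z => ?_⟩
  have h1 : ee ((EZ z ((2 : ℤ) • l) : ℂ) / 4) * ee (EZ z l / 2) = 1 := by
    rw [← ee_add, ← ee_int (EZ z l), EZ_smul_right]
    congr 1
    push_cast
    ring
  rw [YY_add_rz hτ', chi_even, hl z]
  linear_combination ee (E x' (rz ((2 : ℤ) • l)) / 2) * ν * YY τ z x * h1

end M4.Mo
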