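import Pool.Agent.Lib.MP_33b3f9_ag.M4.ModHalf
import Pool.Agent.Lib.MP_33b3f9_ag.M4.ModClg

/-!
Proportional theta null points give a complex linear map between the two tori.
-/

set_option autoImplicit false

namespace M4.Mo

open Complex Matrix

variable {ι : Type} [Fintype ι] {τ τ' : Matrix ι ι ℂ}

/-- Two partners of the same point differ by an element of `2 L` (`XX_eq`, `inj` for `τ'` at the
points `2⁻¹ • x'`, `2⁻¹ • x''`). Only the coordinates `2 • k` are used. -/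
theorem partner (hτ' : InH τ') {x' x'' : ι ⊕ ι → ℝ} {μ : ℂ}
    (h : ∀ k : ι ⊕ ι → ℤ, YY τ' ((2 : ℤ) • k) x' = μ * YY τ' ((2 : ℤ) • k) x'') :
    ∃ l : ι ⊕ ι → ℤ, x' = x'' + rz ((2 : ℤ) • l) := by
  obtain ⟨n, hn⟩ := inj hτ' (x := (2 : ℝ)⁻¹ • x') (y := (2 : ℝ)⁻¹ • x'') (μ := μ) fun k => by
    rw [XX_eq, XX_eq, smul_inv_smul₀ two_ne_zero, smul_inv_smul₀ two_ne_zero, h]
  refine ⟨n, ?_⟩
  rw [← smul_inv_smul₀ (two_ne_zero (α := ℝ)) x', hn, smul_add, smul_inv_smul₀ two_ne_zero, rz_smul,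
    Int.cast_ofNat]

variable [DecidableEq ι]

/-- Proof. `S = {p | ∃ μ, Pr τ τ' p.1 p.2 μ}` is a subgroup (`Pr_add_sub`; negation is `0 - x`),
closed (`isClosed_Pr`); `(0, y) ∈ S` gives `y ∈ 2 L` (`partner`), so `δ = 2`; `(0, 4 n) ∈ S`
(`Pr_add_four`), so `C = 4` (take floors); `(4 e_i, 0) ∈ S` and induction with `Pr_half`; `clg`
with `r = 4`. -/
theorem exists_lin (hτ : InH τ) (hτ' : InH τ') {c : ℂ} (h0 : Pr τ τ' 0 0 c) :
    ∃ γ : Matrix (ι ⊕ ι) (ι ⊕ ι) ℝ, ∀ x, ∃ μ, Pr τ τ' x (γ *ᵥ x) μ := by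
  let S : AddSubgroup ((ι ⊕ ι → ℝ) × (ι ⊕ ι → ℝ)) :=
    { carrier := {p | ∃ μ, Pr τ τ' p.1 p.2 μ}
      zero_mem' := ⟨c, h0⟩
      add_mem' := fun ⟨_, h⟩ ⟨_, h'⟩ => (Pr_add_sub hτ hτ' h0 h h').imp fun _ ⟨_, k, _⟩ => k
      neg_mem' := fun ⟨_, h⟩ => by
        obtain ⟨_, β, -, k, -⟩ := Pr_add_sub hτ hτ' h0 h0 h
        rw [zero_sub, zero_sub] at k
        exact ⟨β, k⟩ }
  have hz : rz ((4 : ℤ) • (0 : ι ⊕ ι → ℤ)) = 0 := by
    funext i
    simp [rz]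
  refine clg S (isClosed_Pr hτ hτ') (C := 4) two_pos four_ne_zero ?_ (fun y => ?_) fun i k => ?_
  · rintro y ⟨μ, -, h⟩ hy
    obtain ⟨l, rfl⟩ := partner hτ' (x' := y) (x'' := 0) (μ := μ / c) fun k => by
      rw [h, h0.2, ← mul_assoc, div_mul_cancel₀ _ h0.1]
    funext i
    have h1 := (norm_le_pi_norm _ i).trans_lt hy
    simp only [rz, zero_add, Pi.smul_apply, smul_eq_mul, Real.norm_eq_abs, Pi.zero_apply] at h1 ⊢
    have h2 : |2 * l i| < 2 := by exact_mod_cast h1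
    rw [abs_lt] at h2
    exact Int.cast_eq_zero.2 (by omega)
  · have h := Pr_add_four hτ hτ' h0 0 fun i => ⌊y i / 4⌋
    rw [hz, zero_add, zero_add] at h
    refine ⟨_, ⟨_, h⟩, (pi_norm_le_iff_of_nonneg (by norm_num)).2 fun i => ?_⟩
    simp only [Pi.sub_apply, Pi.smul_apply, smul_eq_mul, Real.norm_eq_abs, abs_le]
    push_cast
    constructor <;> linarith [Int.floor_le (y i / 4), Int.lt_floor_add_one (y i / 4)]
  · induction k with
    | zero =>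
      have h := Pr_add_four hτ hτ' h0 (Pi.single i 1) 0
      have h1 : rz (Pi.single i (1 : ℤ)) = Pi.single i 1 := by
        funext j
        simp [rz, Pi.single_apply]
      rw [hz, zero_add, zero_add, rz_smul, h1, Int.cast_ofNat] at h
      exact ⟨0, _, by rw [pow_zero, one_smul]; exact h⟩
    | succ k ih =>
      obtain ⟨y, μ, h⟩ := ih
      obtain ⟨l, ν, h1⟩ := Pr_half hτ hτ' h0 (μ := μ) (x' := (2 : ℝ)⁻¹ • y)
        (x := (2 : ℝ)⁻¹ ^ (k + 1) • (4 : ℝ) • (Pi.single i 1 : ι ⊕ ι → ℝ)) (by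
          rwa [pow_succ', mul_smul, smul_inv_smul₀ two_ne_zero, smul_inv_smul₀ two_ne_zero])
      exact ⟨_, ν, h1⟩

omit [DecidableEq ι] in
theorem modLin_thc (hτ : InH τ) (hτ' : InH τ') {x x' : ι ⊕ ι → ℝ} {μ : ℂ} (h : Pr τ τ' x x' μ) :
    ∃ ν : ℂ, ∀ k, thc τ' (hf k) (per τ' x') = ν * thc τ (hf k) (per τ x) := by
  refine ⟨μ * ee (fa x ⬝ᵥ per τ x / 2) / ee (fa x' ⬝ᵥ per τ' x' / 2), fun k => ?_⟩
  have h1 : qv 4 ((2 : ℤ) • k) = hf k := by
    rw [qv, rz_smul, smul_smul, hf]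
    norm_num
  have h2 := h.2 ((2 : ℤ) • k)
  rw [YY, YY, h1, U_Th hτ, U_Th hτ', sub_eq_add_neg, sub_eq_add_neg, ee_add, ee_add] at h2
  rw [div_mul_eq_mul_div, eq_div_iff (ee_ne _)]
  exact mul_left_cancel₀ (ee_ne (-(fa (hf k) ⬝ᵥ fb (hf k) / 2))) (by linear_combination h2)

omit [DecidableEq ι] in
theorem modLin_per (τ : Matrix ι ι ℂ) (t : ℝ) (x : ι ⊕ ι → ℝ) :
    per τ (t • x) = (t : ℂ) • per τ x := by
  rw [per, per, smul_add, ← mulVec_smul]
  congr 2 <;> funext i <;> simp [fa, fb]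

omit [DecidableEq ι] in
theorem modLin_der {F : (ι → ℂ) → ℂ} (hF : Differentiable ℂ F) (w : ι → ℂ) :
    HasDerivAt (fun t : ℝ => F ((t : ℂ) • w)) (fderiv ℂ F 0 w) 0 := by
  have h := (hF ((0 : ℂ) • w)).hasFDerivAt.comp_hasDerivAt (0 : ℂ)
    ((hasDerivAt_id (0 : ℂ)).smul_const w)
  rw [zero_smul, one_smul] at h
  exact HasDerivAt.comp_ofReal (z := 0) h

/-- Proof. Put `F k = thc τ (hf k)`, `F' k = thc τ' (hf k)`, `w = per τ x`, `w' = per τ' (γ x)`.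
`U_Th` and `h` at `t • x` (coordinates `2 • k`, `qv 4 (2 • k) = hf k`) give
`F' k (t w') * F k' (t w) = F' k' (t w') * F k (t w)` for real `t`, and `F' k 0 = ν * F k 0` with
`ν ≠ 0`. Differentiate at `t = 0`: `ω' k k' w' = ν ^ 2 * ω k k' w` for the complex linear forms
`ω k k' v = F k' 0 * dF k v - F k 0 * dF k' v`. For `x = Pi.single (inl j) 1` one has
`w = ∑ i, τ i j • per τ (Pi.single (inr i) 1)`, so the `ω'` kill column `j` of
`τ' A + C - (τ' B + D) τ`; `imm` for `τ'`. -/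
theorem rel_of_Pr (hτ : InH τ) (hτ' : InH τ') {γ : Matrix (ι ⊕ ι) (ι ⊕ ι) ℝ}
    (h : ∀ x, ∃ μ, Pr τ τ' x (γ *ᵥ x) μ) : Rel γ τ τ' := by
  have h1 := fun x => (h x).elim fun _ => modLin_thc hτ hτ'
  obtain ⟨ν, hν⟩ := h1 0
  have h0 : ∀ σ : Matrix ι ι ℂ, per σ 0 = 0 := fun σ => by simpa using modLin_per σ 0 0
  rw [mulVec_zero, h0, h0] at hν
  have key : ∀ x k k', thc τ' (hf k') 0 * fderiv ℂ (thc τ' (hf k)) 0 (per τ' (γ *ᵥ x)) -
      thc τ' (hf k) 0 * fderiv ℂ (thc τ' (hf k')) 0 (per τ' (γ *ᵥ x)) =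
      ν ^ 2 * (thc τ (hf k') 0 * fderiv ℂ (thc τ (hf k)) 0 (per τ x) -
        thc τ (hf k) 0 * fderiv ℂ (thc τ (hf k')) 0 (per τ x)) := by
    intro x k k'
    have d := fun k k' => (modLin_der (differentiable_thc hτ' (hf k)) (per τ' (γ *ᵥ x))).mul
      (modLin_der (differentiable_thc hτ (hf k')) (per τ x))
    have e := (d k k').unique ((d k' k).congr_of_eventuallyEq (.of_forall fun t => by
      obtain ⟨μ, hμ⟩ := h1 (t • x)
      rw [mulVec_smul, modLin_per, modLin_per] at hμ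
      simp only [Pi.mul_apply, hμ]
      ring))
    simp only [ofReal_zero, zero_smul, hν] at e ⊢
    linear_combination ν * e
  ext i j
  have h2 : per τ (Pi.single (.inl j) 1) = ∑ l, τ l j • per τ (Pi.single (.inr l) 1) := by
    funext a
    simp [per, fa, fb, mulVec, dotProduct, Pi.single_apply, apply_ite ofReal]
  have h3 := imm hτ' (v := per τ' (γ *ᵥ Pi.single (.inl j) 1) -
      ∑ l, τ l j • per τ' (γ *ᵥ Pi.single (.inr l) 1)) fun k k' => by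
    have e := key (Pi.single (.inl j) 1) k k'
    have e' := Finset.sum_congr (s₁ := Finset.univ) rfl
      fun l _ => congrArg (τ l j * ·) (key (Pi.single (.inr l) 1) k k')
    simp only [h2, map_sub, map_sum, map_smul, smul_eq_mul, mul_sub, Finset.sum_sub_distrib,
      mul_left_comm (τ _ j), ← Finset.mul_sum] at e e' ⊢
    linear_combination e - e'
  have h4 := congrFun (sub_eq_zero.1 h3) i
  simp only [per, fb, mulVec_single_one, Finset.sum_apply, Pi.smul_apply, Pi.add_apply,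
    smul_eq_mul] at h4
  simpa [jf, mul_apply, mulVec, dotProduct, fa, toBlocks₁₁, toBlocks₂₁, toBlocks₁₂, toBlocks₂₂,
    mul_comm] using h4

end M4.Mo
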