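import Pool.Agent.Lib.MP_33b3f9_ag.M4.ModProp

/-!
Local holomorphic sections of the theta null map.
-/

set_option autoImplicit false

namespace M4.Mo

open Complex Matrix Filter Topology

variable {ι : Type} [Fintype ι] [DecidableEq ι] {N : ℕ}

/-- Proof. `exists_left_inv` for `f (s, t) = s • thN N (smat t)` at `(s₀, sco τ₀)`, whose derivative
is `(c, w) ↦ c • thN + s₀ • fderiv w` (`imm_thN`); compose with `smat`. -/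
theorem loc_left [NeZero N] (hN : 2 ∣ N) {τ₀ : ι → ι → ℂ} (hτ₀ : InH τ₀) {s₀ : ℂ} (hs₀ : s₀ ≠ 0) :
    ∃ κ : ((ι ⊕ ι → Fin N) → ℂ) → ℂ × (ι → ι → ℂ), AnalyticAt ℂ κ (s₀ • thN N τ₀) ∧
      (∀ ξ i j, (κ ξ).2 i j = (κ ξ).2 j i) ∧
      ∀ᶠ p : ℂ × (ι → ι → ℂ) in 𝓝 (s₀, τ₀), InH p.2 → κ (p.1 • thN N p.2) = p := by
  have e₀ : smat (sco τ₀) = τ₀ := smat_sco_of_inH hτ₀
  have ht : InH (smat (sco τ₀)) := by rw [e₀]; exact hτ₀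
  let F : (Sym2 ι → ℂ) → (ι ⊕ ι → Fin N) → ℂ := fun t => thN N (smat t)
  have hF : AnalyticAt ℂ F (sco τ₀) := analyticAt_thN N ht
  let f : ℂ × (Sym2 ι → ℂ) → (ι ⊕ ι → Fin N) → ℂ := fun p => p.1 • F p.2
  have hF2 : AnalyticAt ℂ (fun p : ℂ × (Sym2 ι → ℂ) => F p.2) (s₀, sco τ₀) :=
    AnalyticAt.comp (g := F) (f := Prod.snd) hF analyticAt_snd
  have hf : AnalyticAt ℂ f (s₀, sco τ₀) := analyticAt_fst.smul hF2
  have hd2 : HasFDerivAt (fun p : ℂ × (Sym2 ι → ℂ) => F p.2)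
      ((fderiv ℂ F (sco τ₀)).comp (ContinuousLinearMap.snd ℂ ℂ (Sym2 ι → ℂ))) (s₀, sco τ₀) :=
    HasFDerivAt.comp (g := F) (f := Prod.snd) (s₀, sco τ₀) hF.differentiableAt.hasFDerivAt
      hasFDerivAt_snd
  have hd := (hasFDerivAt_fst (𝕜 := ℂ) (p := (s₀, sco τ₀))).smul hd2
  have hi : Function.Injective (fderiv ℂ f (s₀, sco τ₀)) := by
    have e : fderiv ℂ f (s₀, sco τ₀) = _ := hd.fderiv
    rw [injective_iff_map_eq_zero, e]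
    rintro ⟨c, w⟩ h
    have h' : c • thN N (smat (sco τ₀)) + fderiv ℂ F (sco τ₀) (s₀ • w) = 0 := by
      rw [map_smul, add_comm]
      exact h
    obtain ⟨h1, h2⟩ := imm_thN hN ht h'
    exact Prod.ext h1 ((smul_eq_zero.1 h2).resolve_left hs₀)
  obtain ⟨κ, hκ, hl⟩ := exists_left_inv hf hi
  have e₁ : f (s₀, sco τ₀) = s₀ • thN N τ₀ := by simp only [f, F, e₀]
  rw [e₁] at hκ
  refine ⟨fun ξ => ((κ ξ).1, smatL ι (κ ξ).2), ?_, fun ξ i j => smat_symm _ i j, ?_⟩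
  · exact (analyticAt_fst.comp hκ).prod
      (((smatL ι).analyticAt _).comp (analyticAt_snd.comp hκ))
  · have hc : Continuous fun p : ℂ × (ι → ι → ℂ) => (p.1, sco p.2) :=
      continuous_fst.prodMk (continuous_sco.comp continuous_snd)
    filter_upwards [(hc.tendsto (s₀, τ₀)).eventually hl] with p hp hp'
    simp only [f, F, smat_sco_of_inH hp'] at hp
    rw [hp, smatL_apply, smat_sco_of_inH hp']

/-- Proof. `loc_left`, `near`, `eventually_inH`, `AnalyticAt.eventually_analyticAt`. -/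
theorem loc [NeZero N] (hN : 4 ∣ N) (hred : HasRed ι) (hlow : HasLow ι) {τ₀ : ι → ι → ℂ}
    (hτ₀ : InH τ₀) {s₀ : ℂ} (hs₀ : s₀ ≠ 0) :
    ∃ (W : Set ((ι ⊕ ι → Fin N) → ℂ)) (κ : ((ι ⊕ ι → Fin N) → ℂ) → ℂ × (ι → ι → ℂ)),
      IsOpen W ∧ s₀ • thN N τ₀ ∈ W ∧ AnalyticOnNhd ℂ κ W ∧ κ (s₀ • thN N τ₀) = (s₀, τ₀) ∧
      (∀ ξ ∈ W, (κ ξ).1 ≠ 0 ∧ InH (κ ξ).2) ∧
      (∀ ξ ∈ W, ξ ∈ Xo ι N → (κ ξ).1 • thN N (κ ξ).2 = ξ) ∧
      ∀ᶠ p : ℂ × (ι → ι → ℂ) in 𝓝 (s₀, τ₀), InH p.2 → κ (p.1 • thN N p.2) = p := by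
  obtain ⟨κ, hκ, hsy, hl⟩ := loc_left (Dvd.dvd.trans (by norm_num) hN) hτ₀ hs₀
  have h0 : κ (s₀ • thN N τ₀) = (s₀, τ₀) := hl.self_of_nhds hτ₀
  have hc : Tendsto κ (𝓝 (s₀ • thN N τ₀)) (𝓝 (s₀, τ₀)) := h0 ▸ hκ.continuousAt.tendsto
  have h1 : ∀ᶠ ξ in 𝓝 (s₀ • thN N τ₀), (κ ξ).1 ≠ 0 :=
    ((continuous_fst.tendsto _).comp hc).eventually_ne hs₀
  have h2 : ∀ᶠ ξ in 𝓝 (s₀ • thN N τ₀), InH (κ ξ).2 :=
    (((continuous_snd.tendsto _).comp hc).eventually (eventually_inH hτ₀)).mono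
      fun ξ h => h (hsy ξ)
  have h3 : ∀ᶠ ξ in 𝓝 (s₀ • thN N τ₀), ξ ∈ Xo ι N → (κ ξ).1 • thN N (κ ξ).2 = ξ := by
    filter_upwards [near hN hred hlow hτ₀ hs₀ hl] with ξ h hξ
    obtain ⟨p, hp, hp', e⟩ := h hξ
    have : κ ξ = p := by rw [e]; exact hp hp'
    rw [this, e]
  obtain ⟨W, hW, hWo, hW0⟩ :=
    eventually_nhds_iff.1 (hκ.eventually_analyticAt.and ((h1.and h2).and h3))
  exact ⟨W, κ, hWo, hW0, fun ξ h => (hW ξ h).1, h0, fun ξ h => (hW ξ h).2.1,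
    fun ξ h => (hW ξ h).2.2, hl⟩

end M4.Mo
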