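import Pool.Agent.Lib.MP_33b3f9_ag.M4.ModIf

/-!
Proper discontinuity and freeness.
-/

set_option autoImplicit false

namespace M4.Mo

open Complex Matrix

variable {ι : Type} [Fintype ι] [DecidableEq ι] {τ : Matrix ι ι ℂ}

omit [DecidableEq ι] in
theorem modPD_E (u x : ι ⊕ ι → ℝ) :
    E u x = (u ∘ Sum.inl) ⬝ᵥ (x ∘ Sum.inr) - (u ∘ Sum.inr) ⬝ᵥ (x ∘ Sum.inl) := by
  simp only [E, dotProduct, Finset.sum_sub_distrib, Function.comp]

omit [DecidableEq ι] in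
theorem modPD_E_neg_left (x y : ι ⊕ ι → ℝ) : E (-x) y = -E x y := by
  simpa using E_smul_left (-1) x y

omit [DecidableEq ι] in
theorem modPD_E_neg_right (x y : ι ⊕ ι → ℝ) : E x (-y) = -E x y := by
  simpa using E_smul_right (-1) x y

/-- With `X = re τ`, `Y = im τ` (both symmetric), `x = (a, b)`. -/
theorem Qf_eq (hτ : InH τ) (x : ι ⊕ ι → ℝ) :
    Qf τ x = (fun i => x (Sum.inl i)) ⬝ᵥ τ.map im *ᵥ (fun i => x (Sum.inl i)) +
      (τ.map re *ᵥ (fun i => x (Sum.inl i)) + fun i => x (Sum.inr i)) ⬝ᵥ (τ.map im)⁻¹ *ᵥ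
        (τ.map re *ᵥ (fun i => x (Sum.inl i)) + fun i => x (Sum.inr i)) := by
  have hX : (τ.map re)ᵀ = τ.map re := by
    rw [← transpose_map, hτ.1.eq]
  have h1 : ∀ a w : ι → ℝ, (τ.map re *ᵥ w) ⬝ᵥ a = (τ.map re *ᵥ a) ⬝ᵥ w := fun a w => by
    rw [dotProduct_comm, dotProduct_mulVec, ← mulVec_transpose, hX]
  rw [Qf, modPD_E, cst, fromBlocks_mulVec, Sum.elim_comp_inl, Sum.elim_comp_inr]
  change _ = (x ∘ Sum.inl) ⬝ᵥ τ.map im *ᵥ (x ∘ Sum.inl) +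
    (τ.map re *ᵥ (x ∘ Sum.inl) + x ∘ Sum.inr) ⬝ᵥ (τ.map im)⁻¹ *ᵥ
      (τ.map re *ᵥ (x ∘ Sum.inl) + x ∘ Sum.inr)
  generalize x ∘ Sum.inl = a
  generalize x ∘ Sum.inr = b
  simp only [neg_mulVec, add_mulVec, ← mulVec_mulVec, mulVec_add, add_dotProduct, dotProduct_add,
    neg_dotProduct]
  rw [h1 a ((τ.map im)⁻¹ *ᵥ τ.map re *ᵥ a), h1 a ((τ.map im)⁻¹ *ᵥ b), dotProduct_comm b,
    dotProduct_comm b, dotProduct_comm a]
  ring

/-- `Matrix.PosDef.inv`. -/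
theorem Qf_pos (hτ : InH τ) {x : ι ⊕ ι → ℝ} (hx : x ≠ 0) : 0 < Qf τ x := by
  have h1 := hτ.2
  have h2 := h1.inv
  rw [Qf_eq hτ]
  by_cases ha : (fun i => x (Sum.inl i)) = 0
  · have hb : (fun i => x (Sum.inr i)) ≠ 0 := fun hb => hx (funext fun i => by
      rcases i with i | i
      · exact congrFun ha i
      · exact congrFun hb i)
    rw [ha, zero_dotProduct, mulVec_zero, zero_add, zero_add]
    exact h2.dotProduct_mulVec_pos hb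
  · exact add_pos_of_pos_of_nonneg (h1.dotProduct_mulVec_pos ha)
      (h2.posSemidef.dotProduct_mulVec_nonneg _)

theorem Qf_smul (τ : Matrix ι ι ℂ) (t : ℝ) (x : ι ⊕ ι → ℝ) : Qf τ (t • x) = t ^ 2 * Qf τ x := by
  rw [Qf, Qf, mulVec_smul, E_smul_left, E_smul_right]
  ring

/-- Parallelogram law, which holds for every bilinear form. -/
theorem Qf_par (τ : Matrix ι ι ℂ) (x y : ι ⊕ ι → ℝ) :
    Qf τ (x + y) + Qf τ (x - y) = 2 * Qf τ x + 2 * Qf τ y := by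
  simp only [Qf, sub_eq_add_neg, mulVec_add, mulVec_neg, E_add_left, E_add_right, modPD_E_neg_left,
    modPD_E_neg_right]
  ring

/-- `cst_act`. -/
theorem Qf_act {g : Matrix (ι ⊕ ι) (ι ⊕ ι) ℝ} {m : ℝ} (hg : Sim g m) (hm : 0 < m) (hτ : InH τ)
    (x : ι ⊕ ι → ℝ) : Qf (act g τ) (g *ᵥ x) = m * Qf τ x := by
  rw [Qf, Qf, mulVec_mulVec, cst_act hg hm hτ, ← mulVec_mulVec, hg]

/-- The inverse matrix is `det⁻¹ • adjugate` (`Matrix.inv_def`, `Ring.inverse_eq_inv`), or use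
`continuousAt_matrix_inv`. -/
theorem continuousOn_Qf :
    ContinuousOn (fun p : (ι → ι → ℂ) × (ι ⊕ ι → ℝ) => Qf p.1 p.2) {p | InH p.1} := by
  rw [continuousOn_iff_continuous_domRestrict]
  have hT : Continuous fun p : {p : (ι → ι → ℂ) × (ι ⊕ ι → ℝ) | InH p.1} =>
      (show Matrix ι ι ℂ from p.1.1) := continuous_fst.comp continuous_subtype_val
  have hx : Continuous fun p : {p : (ι → ι → ℂ) × (ι ⊕ ι → ℝ) | InH p.1} => p.1.2 :=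
    continuous_snd.comp continuous_subtype_val
  have hX := hT.matrix_map continuous_re
  have hY := hT.matrix_map continuous_im
  have hZ : Continuous fun p : {p : (ι → ι → ℂ) × (ι ⊕ ι → ℝ) | InH p.1} =>
      ((show Matrix ι ι ℂ from p.1.1).map im)⁻¹ := by
    refine continuous_iff_continuousAt.2 fun p => ContinuousAt.comp ?_ hY.continuousAt
    refine continuousAt_matrix_inv _ ?_
    rw [Ring.inverse_eq_inv']
    exact continuousAt_inv₀ p.2.2.det_pos.ne'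
  have ha : Continuous fun p : {p : (ι → ι → ℂ) × (ι ⊕ ι → ℝ) | InH p.1} =>
      fun i => p.1.2 (Sum.inl i) := continuous_pi fun i => (continuous_apply _).comp hx
  have hb : Continuous fun p : {p : (ι → ι → ℂ) × (ι ⊕ ι → ℝ) | InH p.1} =>
      fun i => p.1.2 (Sum.inr i) := continuous_pi fun i => (continuous_apply _).comp hx
  have hw := (hX.matrix_mulVec ha).add hb
  exact ((ha.dotProduct (hY.matrix_mulVec ha)).add (hw.dotProduct (hZ.matrix_mulVec hw))).congr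
    fun p => (Qf_eq p.2 p.1.2).symm

/-- Minimum and maximum on `K ×ˢ sphere 0 1`, scaling. -/
theorem Qf_bounds {K : Set (ι → ι → ℂ)} (hK : IsCompact K) (hH : ∀ τ ∈ K, InH τ) :
    ∃ c C : ℝ, 0 < c ∧ ∀ τ ∈ K, ∀ x, c * ‖x‖ ^ 2 ≤ Qf τ x ∧ Qf τ x ≤ C * ‖x‖ ^ 2 := by
  have hS := hK.prod (isCompact_sphere (0 : ι ⊕ ι → ℝ) 1)
  have hc : ContinuousOn (fun p : (ι → ι → ℂ) × (ι ⊕ ι → ℝ) => Qf p.1 p.2)
      (K ×ˢ Metric.sphere 0 1) := continuousOn_Qf.mono fun p hp => hH _ hp.1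
  obtain ⟨c, hc0, hc1⟩ := hS.exists_forall_le' hc (a := 0) fun p hp =>
    Qf_pos (hH _ hp.1) fun h => by simpa [h] using hp.2
  obtain ⟨C, hC⟩ := hS.bddAbove_image hc
  refine ⟨c, C, hc0, fun τ hτ x => ?_⟩
  by_cases hx : x = 0
  · have e : Qf τ 0 = 0 := E_zero_right _
    rw [hx, e]
    simp
  · have hn : ‖x‖ ≠ 0 := norm_ne_zero_iff.2 hx
    have hm : (τ, ‖x‖⁻¹ • x) ∈ K ×ˢ Metric.sphere (0 : ι ⊕ ι → ℝ) 1 :=
      ⟨hτ, by simp [norm_smul, hn]⟩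
    have e : Qf τ x = Qf τ (‖x‖⁻¹ • x) * ‖x‖ ^ 2 := by
      rw [Qf_smul τ ‖x‖⁻¹ x]
      field_simp
    have l1 := hc1 (τ, ‖x‖⁻¹ • x) hm
    dsimp only at l1
    have l2 := hC (Set.mem_image_of_mem _ hm)
    dsimp only at l2
    rw [e]
    exact ⟨mul_le_mul_of_nonneg_right l1 (sq_nonneg _), mul_le_mul_of_nonneg_right l2 (sq_nonneg _)⟩

/-- Proof. Column `j` of `g` satisfies `c ‖g e_j‖ ^ 2 ≤ Qf (act g τ) (g e_j) ≤ m C`. -/
theorem finite_act {K : Set (ι → ι → ℂ)} (hK : IsCompact K) (hH : ∀ τ ∈ K, InH τ) {m : ℝ}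
    (hm : 0 < m) : {g : Matrix (ι ⊕ ι) (ι ⊕ ι) ℤ | Sim (rm g) m ∧
      ∃ τ ∈ K, (act (rm g) τ : ι → ι → ℂ) ∈ K}.Finite := by
  obtain ⟨c, C, hc, hb⟩ := Qf_bounds hK hH
  refine Set.Finite.subset (Set.Finite.pi' fun _ : ι ⊕ ι => Set.Finite.pi' fun _ : ι ⊕ ι =>
    Set.finite_Icc (-⌈m * C / c⌉) ⌈m * C / c⌉) ?_
  rintro g ⟨hg, τ, hτ, hτ'⟩ i j
  have h1 := (hb _ hτ' (rm g *ᵥ Pi.single j 1)).1
  have h2 := (hb _ hτ (Pi.single j 1)).2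
  have h3 := Qf_act hg hm (hH _ hτ) (Pi.single j 1)
  have h4 := norm_le_pi_norm (rm g *ᵥ Pi.single j 1) i
  rw [Pi.norm_single, norm_one, one_pow, mul_one] at h2
  have h5 : (rm g *ᵥ Pi.single j 1) i = (g i j : ℝ) := by
    rw [mulVec_single_one]
    rfl
  rw [h5, Real.norm_eq_abs] at h4
  have h6 : (g i j : ℝ) ^ 2 ≤ m * C / c := by
    rw [le_div_iff₀ hc, mul_comm, ← sq_abs]
    calc c * |(g i j : ℝ)| ^ 2 ≤ c * ‖rm g *ᵥ Pi.single j 1‖ ^ 2 := by gcongr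
      _ ≤ m * Qf τ (Pi.single j 1) := h3 ▸ h1
      _ ≤ m * C := by gcongr
  have h7 : g i j ^ 2 ≤ ⌈m * C / c⌉ := by exact_mod_cast h6.trans (Int.le_ceil _)
  exact abs_le.1 ((Int.le_self_sq _).trans (by rwa [sq_abs]))

theorem finite_actZ {K : Set (ι → ι → ℂ)} (hK : IsCompact K) (hH : ∀ τ ∈ K, InH τ) :
    {γ : SpZ ι | ∃ τ ∈ K, (actZ γ τ : ι → ι → ℂ) ∈ K}.Finite := by
  refine Set.Finite.subset ((finite_act hK hH one_pos).preimage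
    (f := fun γ : SpZ ι => γ.1) Subtype.val_injective.injOn) ?_
  rintro γ ⟨τ, h1, h2⟩
  exact ⟨sim_sp γ, τ, h1, h2⟩

theorem modPD_nonneg (hτ : InH τ) (x : ι ⊕ ι → ℝ) : 0 ≤ Qf τ x := by
  by_cases hx : x = 0
  · rw [hx, Qf, E_zero_right]
  · exact (Qf_pos hτ hx).le

omit [DecidableEq ι] in
theorem modPD_norm {z : ι ⊕ ι → ℤ} (hz : z ≠ 0) : 1 ≤ ‖rz z‖ := by
  obtain ⟨i, hi⟩ := Function.ne_iff.1 hz
  refine le_trans ?_ (norm_le_pi_norm (rz z) i)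
  rw [rz, Real.norm_eq_abs, ← Int.cast_abs]
  exact_mod_cast Int.one_le_abs hi

/-- Proof. `γ = 1 + M β` preserves `Q = Qf τ`, so `M ^ 2 Q (β x) = Q (γ x - x) ≤ 4 Q x` (`Qf_par`),
`Q (β ^ k x) ≤ (4 / 9) ^ k Q x`. For integral `x` the vector `β ^ k x` is integral, so it is zero
for large `k` (`Qf_bounds` for `{τ}`; a nonzero integral vector has norm `≥ 1`). If `β (β w) = 0`
then `γ ^ n w = w + n M β w` has bounded `Q`, so `β w = 0`; descend to `β x = 0`. -/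
theorem free {M : ℕ} (hM : 3 ≤ M) {γ : SpZ ι} (hγ : γ ∈ GamP ι M) (hτ : InH τ)
    (h : actZ γ τ = τ) : γ = 1 := by
  obtain ⟨β, hβ⟩ := hγ
  have hQ : ∀ x, Qf τ (rm γ.1 *ᵥ x) = Qf τ x := fun x => by
    have h1 := Qf_act (sim_sp γ) one_pos hτ x
    rw [one_mul] at h1
    exact (congrArg (fun σ => Qf σ (rm γ.1 *ᵥ x)) h).symm.trans h1
  have hM' : (3 : ℝ) ≤ M := by exact_mod_cast hM
  have hg : ∀ z : ι ⊕ ι → ℤ, rm γ.1 *ᵥ rz z = rz z + (M : ℝ) • rz (β *ᵥ z) := fun z => by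
    rw [rm_mulVec, hβ, add_mulVec, one_mulVec, smul_mulVec, rz_add, rz_smul, Int.cast_natCast]
  have hA : ∀ z : ι ⊕ ι → ℤ, Qf τ (rz (β *ᵥ z)) ≤ 4 / 9 * Qf τ (rz z) := fun z => by
    have h1 := Qf_par τ (rm γ.1 *ᵥ rz z) (rz z)
    have h2 := modPD_nonneg hτ (rm γ.1 *ᵥ rz z + rz z)
    have h3 := modPD_nonneg hτ (rz (β *ᵥ z))
    rw [hQ] at h1
    nth_rewrite 2 [hg] at h1
    rw [add_sub_cancel_left, Qf_smul] at h1
    have h4 : 9 * Qf τ (rz (β *ᵥ z)) ≤ (M : ℝ) ^ 2 * Qf τ (rz (β *ᵥ z)) :=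
      mul_le_mul_of_nonneg_right (by nlinarith) h3
    linarith
  have hB : ∀ z : ι ⊕ ι → ℤ, β *ᵥ z ≠ 0 → β *ᵥ (β *ᵥ z) ≠ 0 := fun z hz h0 => by
    have hv : rm γ.1 *ᵥ rz (β *ᵥ z) = rz (β *ᵥ z) := by
      rw [hg, h0]
      funext i
      simp [rz]
    have h1 := hQ (rz z)
    have h2 := hQ (rz z + (M : ℝ) • rz (β *ᵥ z))
    have h3 := Qf_par τ (rz z + (M : ℝ) • rz (β *ᵥ z)) ((M : ℝ) • rz (β *ᵥ z))
    rw [mulVec_add, mulVec_smul, hv, hg] at h2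
    rw [hg] at h1
    rw [add_sub_cancel_right, h2, h1, Qf_smul] at h3
    have h4 : 0 < Qf τ (rz (β *ᵥ z)) := Qf_pos hτ fun h5 => by
      have h6 := modPD_norm hz
      rw [h5, norm_zero] at h6
      linarith
    have h5 : 0 < (M : ℝ) ^ 2 * Qf τ (rz (β *ᵥ z)) := mul_pos (by nlinarith) h4
    linarith
  by_contra hne
  obtain ⟨y, hy⟩ : ∃ y : ι ⊕ ι → ℤ, β *ᵥ y ≠ 0 := by
    by_contra h0
    push Not at h0
    refine hne (Subtype.ext ?_)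
    have h1 : β = 0 := by
      ext i j
      simpa using congrFun (h0 (Pi.single j 1)) i
    rw [hβ, h1, smul_zero, add_zero]
    rfl
  have hk : ∀ k : ℕ, ∃ z : ι ⊕ ι → ℤ, β *ᵥ z ≠ 0 ∧ Qf τ (rz z) ≤ (4 / 9) ^ k * Qf τ (rz y) := by
    intro k
    induction k with
    | zero => exact ⟨y, hy, by simp⟩
    | succ k ih =>
      obtain ⟨z, h1, h2⟩ := ih
      refine ⟨β *ᵥ z, hB z h1, (hA z).trans ?_⟩
      rw [pow_succ]
      linarith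
  obtain ⟨c, C, hc, hb⟩ := Qf_bounds (K := {(τ : ι → ι → ℂ)}) isCompact_singleton
    (fun σ hσ => hσ ▸ hτ)
  have hlow : ∀ z : ι ⊕ ι → ℤ, β *ᵥ z ≠ 0 → c ≤ Qf τ (rz z) := fun z hz => by
    have h1 := modPD_norm (z := z) fun h0 => hz (by rw [h0, mulVec_zero])
    exact (le_mul_of_one_le_right hc.le (one_le_pow₀ h1)).trans (hb τ rfl (rz z)).1
  have hy0 : 0 < Qf τ (rz y) := hc.trans_le (hlow y hy)
  obtain ⟨k, hk'⟩ := exists_pow_lt_of_lt_one (div_pos hc hy0) (show (4 / 9 : ℝ) < 1 by norm_num)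
  obtain ⟨z, h1, h2⟩ := hk k
  rw [lt_div_iff₀ hy0] at hk'
  exact absurd ((hlow z h1).trans h2) (not_le.2 hk')

end M4.Mo
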