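import Pool.Agent.Lib.MP_33b3f9_ag.M4.ModBd
import Pool.Agent.Lib.MP_33b3f9_ag.M4.ModTor
import Pool.Agent.Lib.MP_33b3f9_ag.M4.ModSy

/-!
The theta null map is proper away from the boundary.
-/

set_option autoImplicit false

namespace M4.Mo

open Complex Matrix Filter Topology

variable {ι : Type} [Fintype ι] [DecidableEq ι] {N : ℕ}

theorem modProp_hf {κ : Type} [NeZero N] (hN : 2 ∣ N) (z : κ ⊕ κ → ℤ) :
    hf z = qv N (((N / 2 : ℕ) : ℤ) • z) := by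
  obtain ⟨m, rfl⟩ := hN
  have hm : (m : ℝ) ≠ 0 := by
    have := NeZero.ne (2 * m)
    exact_mod_cast (by omega : m ≠ 0)
  funext i
  simp only [hf, qv, rz, Pi.smul_apply, smul_eq_mul, Nat.mul_div_cancel_left m two_pos]
  push_cast
  field_simp

theorem modProp_scal {κ : Type} {a : ℕ → ℂ} {v : ℕ → κ → ℂ} {v₀ ξ : κ → ℂ}
    (h : Tendsto (fun k => a k • v k) atTop (𝓝 ξ)) (hv : Tendsto v atTop (𝓝 v₀)) (h0 : v₀ ≠ 0) :
    ∃ a₀, Tendsto a atTop (𝓝 a₀) ∧ ξ = a₀ • v₀ := by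
  obtain ⟨e, he⟩ := Function.ne_iff.1 h0
  have h1 := tendsto_pi_nhds.1 hv e
  have h2 : Tendsto a atTop (𝓝 (ξ e / v₀ e)) := by
    refine ((tendsto_pi_nhds.1 h e).div h1 he).congr' ((h1.eventually_ne he).mono fun k hk => ?_)
    simp only [Pi.div_apply, Pi.smul_apply, smul_eq_mul]
    exact mul_div_cancel_right₀ _ hk
  exact ⟨_, h2, tendsto_nhds_unique h (h2.smul hv)⟩

omit [DecidableEq ι] in
theorem modProp_thN (N : ℕ) {τ : ℕ → ι → ι → ℂ} (hτ : ∀ k, InH (τ k)) {τ₀ : ι → ι → ℂ}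
    (h0 : InH τ₀) (h : Tendsto τ atTop (𝓝 τ₀)) :
    Tendsto (fun k => thN N (τ k)) atTop (𝓝 (thN N τ₀)) :=
  (continuousOn_thN N τ₀ h0).tendsto.comp
    (tendsto_nhdsWithin_iff.2 ⟨h, Eventually.of_forall hτ⟩)

/-- The cone is stable under the monomial action, and so is the boundary. Proof. `thN_monomial`
for `γ`; if `η ∈ Ln N n` then `ξ ∈ Ln N (γ n)`, where `γ n` has an odd coordinate since
`n = γ⁻¹ (γ n)`; `2 EZ (γ n) (fz e) = 2 EZ n (γ⁻¹ fz e) = 2 EZ n (fz (π e))` modulo `N`. -/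
theorem monomial_bd [NeZero N] (hN : 2 ∣ N) (γ : SpZ ι) :
    ∃ (π : Equiv.Perm (ι ⊕ ι → Fin N)) (u : (ι ⊕ ι → Fin N) → ℂ), (∀ e, ‖u e‖ = 1) ∧
      (∀ η ∈ bd ι N, (fun e => u e * η (π e)) ∈ bd ι N) ∧
      ∀ τ : Matrix ι ι ℂ, InH τ → ∃ c : ℂ, c ≠ 0 ∧
        ∀ e, thN N (actZ γ τ) e = c * (u e * thN N τ (π e)) := by
  obtain ⟨π, u, k, hu, hπ, h⟩ := thN_monomial hN γ
  have hN0 : N ≠ 0 := NeZero.ne N
  refine ⟨π, u, fun e => Complex.norm_eq_one_of_pow_eq_one (hu e) (by omega), ?_, h⟩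
  rintro η ⟨n, ⟨i, hi⟩, hη⟩
  have h1 : (γ⁻¹).1 * γ.1 = 1 := congrArg Subtype.val (inv_mul_cancel γ)
  have h2 : γ.1 * (γ⁻¹).1 = 1 := congrArg Subtype.val (mul_inv_cancel γ)
  refine ⟨γ.1 *ᵥ n, ?_, fun e he => ?_⟩
  · by_contra hc
    have h3 : ∀ j, Even ((γ.1 *ᵥ n) j) := fun j => Int.not_odd_iff_even.1 fun h => hc ⟨j, h⟩
    have h4 : n i = ((γ⁻¹).1 *ᵥ (γ.1 *ᵥ n)) i := by rw [mulVec_mulVec, h1, one_mulVec]
    rw [h4, ← Int.not_even_iff_odd] at hi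
    exact hi (Finset.even_sum _ fun j _ => (h3 j).mul_left _)
  · obtain ⟨m, hm⟩ := hπ e
    have h5 : EZ (γ.1 *ᵥ n) (fz e) = EZ n ((γ⁻¹).1 *ᵥ fz e) := by
      rw [← EZ_sp γ n, mulVec_mulVec (fz e), h2, one_mulVec]
    have h6 := congrArg (EZ n) hm
    rw [EZ_add_right, EZ_add_right, EZ_smul_right, EZ_smul_right, ← h5] at h6
    have h7 : (N : ℤ) = 2 * ((N / 2 : ℕ) : ℤ) := by omega
    have h8 : η (π e) = 0 := by
      refine hη _ fun hd => he ?_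
      have h9 : 2 * EZ (γ.1 *ᵥ n) (fz e) =
          2 * EZ n (fz (π e)) + (N : ℤ) * (2 * EZ n m - EZ n k) := by
        linear_combination 2 * h6 + EZ n k * h7
      rw [h9]
      exact hd.add (Dvd.intro _ rfl)
    simp [h8]

/-- Reduced points whose theta null points stay away from the boundary have bounded diagonal.
Proof. Else along a subsequence `im (τ k i i) → ∞` for one `i`. `HasLow` and `Th_qv` bound `s k`;
`decay` with `δ = 1 / N` kills the coordinates `e` with `e (inl i) ≠ 0`, in particular those with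
`¬ N ∣ 2 EZ n (fz e)` for `n = Pi.single (inr i) 1`. -/
theorem bdd_of_red [NeZero N] (hN : 2 ∣ N) (hlow : HasLow ι) {c : ℝ} (hc : 0 < c)
    {τ : ℕ → Matrix ι ι ℂ} (hτ : ∀ k, InH (τ k)) (hr : ∀ k, Red c (τ k)) {s : ℕ → ℂ}
    {ξ : (ι ⊕ ι → Fin N) → ℂ} (h : Tendsto (fun k => s k • thN N (τ k)) atTop (𝓝 ξ))
    (hξ : ξ ∉ bd ι N) : ∃ B : ℝ, ∀ k i, (τ k i i).im ≤ B := by
  have hN0 : N ≠ 0 := NeZero.ne N
  have hNr : (0 : ℝ) < N := by exact_mod_cast Nat.pos_of_ne_zero hN0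
  by_cases hb : ∀ i, ∃ B : ℝ, ∀ᶠ k in atTop, (τ k i i).im ≤ B
  · have h1 : ∀ i, ∃ B : ℝ, ∀ k, (τ k i i).im ≤ B := by
      intro i
      obtain ⟨B, hB⟩ := IsBoundedUnder.bddAbove_range (isBoundedUnder_of_eventually_le
        (hb i).choose_spec)
      exact ⟨B, fun k => hB ⟨k, rfl⟩⟩
    choose B hB using h1
    refine ⟨∑ i, |B i|, fun k i => (hB i k).trans ((le_abs_self _).trans ?_)⟩
    exact Finset.single_le_sum (f := fun i => |B i|) (fun j _ => abs_nonneg _) (Finset.mem_univ i)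
  exfalso
  obtain ⟨i, hi⟩ := not_forall.1 hb
  have h2 : ∀ n : ℕ, ∃ᶠ k in atTop, (n : ℝ) ≤ (τ k i i).im := by
    intro n
    have := not_exists.1 hi n
    exact (not_eventually.1 this).mono fun k hk => (not_le.1 hk).le
  obtain ⟨φ, hφ, hφ2⟩ := extraction_forall_of_frequently h2
  obtain ⟨c₁, hc₁, hl⟩ := hlow c hc
  obtain ⟨C, hC⟩ := decay ι hc
  obtain ⟨M, hM⟩ := h.norm.bddAbove_range
  have hs : ∀ k, ‖s k‖ ≤ M / c₁ := by
    intro k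
    obtain ⟨z, hz⟩ := hl _ (hτ k) (hr k)
    obtain ⟨e, -, u, -, hu, he⟩ := Th_qv (N := N) (((N / 2 : ℕ) : ℤ) • z)
    rw [modProp_hf hN, he _ (hτ k), norm_mul,
      Complex.norm_eq_one_of_pow_eq_one hu (by omega), one_mul] at hz
    have h3 : ‖s k • thN N (τ k)‖ ≤ M := hM ⟨k, rfl⟩
    rw [norm_smul] at h3
    rw [le_div_iff₀ hc₁]
    exact (mul_le_mul_of_nonneg_left (hz.trans (norm_le_pi_norm _ e)) (norm_nonneg _)).trans h3
  refine hξ ⟨Pi.single (Sum.inr i) 1, ⟨Sum.inr i, by simp⟩, fun e he => ?_⟩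
  have h4 : fz e (Sum.inl i) ≠ 0 := by
    intro h0
    apply he
    have : EZ (Pi.single (Sum.inr i) 1) (fz e) = -fz e (Sum.inl i) := by
      simp [EZ, Pi.single_apply]
    rw [this, h0]
    simp
  have h5 : ∀ n : ℤ, (1 / N : ℝ) ≤ |n + qv N (fz e) (Sum.inl i)| := by
    intro n
    have h6 : (n : ℝ) + qv N (fz e) (Sum.inl i) =
        (1 / N : ℝ) * ((n * N + fz e (Sum.inl i) : ℤ) : ℝ) := by
      simp only [qv, rz, Pi.smul_apply, smul_eq_mul]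
      push_cast
      field_simp
    have h7 : n * N + fz e (Sum.inl i) ≠ 0 := by
      intro h0
      have h8 : (N : ℤ) ∣ fz e (Sum.inl i) := ⟨-n, by linarith⟩
      have h9 : fz e (Sum.inl i) < N := by
        simp only [fz]
        exact_mod_cast (e (Sum.inl i)).2
      have h10 : 0 ≤ fz e (Sum.inl i) := Int.natCast_nonneg _
      exact h4 (Int.eq_zero_of_dvd_of_nonneg_of_lt h10 h9 h8)
    rw [h6, abs_mul, abs_of_pos (by positivity)]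
    refine le_mul_of_one_le_right (by positivity) ?_
    exact_mod_cast Int.one_le_abs h7
  have h11 : Tendsto (fun k => (τ (φ k) i i).im) atTop atTop :=
    tendsto_atTop_mono hφ2 tendsto_natCast_atTop_atTop
  have h12 : Tendsto (fun k => Real.pi * (c / 2 * (τ (φ k) i i).im * (1 / N : ℝ) ^ 2)) atTop
      atTop :=
    ((h11.const_mul_atTop (by positivity)).atTop_mul_const (by positivity)).const_mul_atTop
      Real.pi_pos
  have h13 := ((Real.tendsto_exp_neg_atTop_nhds_zero.comp h12).const_mul C).const_mul (M / c₁)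
  rw [mul_zero, mul_zero] at h13
  have h14 : Tendsto (fun k => (s (φ k) • thN N (τ (φ k))) e) atTop (𝓝 0) := by
    refine squeeze_zero_norm (fun k => ?_) h13
    rw [Pi.smul_apply, norm_smul]
    exact mul_le_mul (hs _) (hC _ (hτ _) (hr _) _ i _ (by positivity) h5) (norm_nonneg _)
      ((norm_nonneg _).trans (hs 0))
  exact tendsto_nhds_unique (tendsto_pi_nhds.1 (h.comp hφ.tendsto_atTop) e) h14

/-- Proof. Let `actZ (g k) (τ k)` be reduced. One coset `σ • GamN` contains infinitely many `g k`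
(finite index): `g k = σ * γ k` along a subsequence. `thN_act` and `monomial_bd` for `σ` and `σ⁻¹`
transport the hypothesis to the reduced points; `bdd_of_red`, `isCompact_Red`, a further
subsequence converges to `τ₁`; `τ₀ = actZ σ⁻¹ τ₁` (`continuousAt_actZ`). The scalars converge since
some coordinate of `thN N τ₀` is nonzero; `s₀ ≠ 0` since `ξ ≠ 0` (if `ι` is empty the boundary is
empty: see the hypothesis `hξ0`). -/
theorem proper [NeZero N] (hN : 2 ∣ N) (hred : HasRed ι) (hlow : HasLow ι)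
    {τ : ℕ → ι → ι → ℂ} (hτ : ∀ k, InH (τ k)) {s : ℕ → ℂ} {ξ : (ι ⊕ ι → Fin N) → ℂ}
    (h : Tendsto (fun k => s k • thN N (τ k)) atTop (𝓝 ξ)) (hξ : ξ ∉ bd ι N) (hξ0 : ξ ≠ 0) :
    ∃ (φ : ℕ → ℕ) (γ : ℕ → SpZ ι) (s' : ℕ → ℂ) (τ₀ : ι → ι → ℂ) (s₀ : ℂ), StrictMono φ ∧
      (∀ k, γ k ∈ GamN ι N) ∧ InH τ₀ ∧ s₀ ≠ 0 ∧
      (∀ k, s' k • thN N (actZ (γ k) (τ (φ k))) = s (φ k) • thN N (τ (φ k))) ∧
      Tendsto (fun k => (actZ (γ k) (τ (φ k)) : ι → ι → ℂ)) atTop (𝓝 τ₀) ∧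
      Tendsto s' atTop (𝓝 s₀) ∧ ξ = s₀ • thN N τ₀ := by
  obtain ⟨c, hc, hred⟩ := hred
  choose g hg using fun k => hred (τ k) (hτ k)
  obtain ⟨q, hq⟩ := Finite.exists_infinite_fiber
    (fun k => (QuotientGroup.mk (g k) : SpZ ι ⧸ GamN ι N))
  obtain ⟨σ, rfl⟩ := QuotientGroup.mk_surjective q
  obtain ⟨φ, hφ, hφ2⟩ := extraction_of_frequently_atTop
    (Nat.frequently_atTop_iff_infinite.2 (Set.infinite_coe_iff.1 hq))
  have hγ : ∀ k, σ⁻¹ * g (φ k) ∈ GamN ι N := fun k => QuotientGroup.eq.1 (Eq.symm (hφ2 k))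
  choose a ha _ ha2 using fun k => thN_act (hγ k) (hτ (φ k))
  have hρ : ∀ k, InH (actZ (g (φ k)) (τ (φ k))) := fun k => inH_actZ _ (hτ _)
  have hmul : ∀ k, actZ (σ⁻¹ * g (φ k)) (τ (φ k)) = actZ σ⁻¹ (actZ (g (φ k)) (τ (φ k))) :=
    fun k => actZ_mul _ _ (hτ _)
  have hs : ∀ k, (s (φ k) / a k) • thN N (actZ (σ⁻¹ * g (φ k)) (τ (φ k))) =
      s (φ k) • thN N (τ (φ k)) := by
    intro k
    rw [ha2, smul_smul, div_mul_cancel₀ _ (ha k)]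
  obtain ⟨π, u, hu, hbd, hm⟩ := monomial_bd hN σ⁻¹
  have hu0 : ∀ e, u e ≠ 0 := fun e h0 => by simpa [h0] using hu e
  choose b _ hb using fun k => hm _ (hρ k)
  have h1 : Tendsto (fun k => (s (φ k) / a k * b k) • thN N (actZ (g (φ k)) (τ (φ k)))) atTop
      (𝓝 fun f => ξ (π.symm f) / u (π.symm f)) := by
    refine tendsto_pi_nhds.2 fun f => ?_
    obtain ⟨e, rfl⟩ := π.surjective f
    rw [π.symm_apply_apply]
    refine ((tendsto_pi_nhds.1 (h.comp hφ.tendsto_atTop) e).div_const (u e)).congr fun k => ?_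
    have h2 := congrFun (hs k) e
    rw [hmul, Pi.smul_apply, hb] at h2
    simp only [Function.comp_apply]
    rw [← h2, div_eq_iff (hu0 e)]
    simp only [Pi.smul_apply, smul_eq_mul]
    ring
  have h3 : (fun f => ξ (π.symm f) / u (π.symm f)) ∉ bd ι N := by
    intro h0
    have h4 := hbd _ h0
    have h5 : (fun e => u e * (ξ (π.symm (π e)) / u (π.symm (π e)))) = ξ := by
      funext e
      rw [π.symm_apply_apply, mul_div_cancel₀ _ (hu0 e)]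
    exact hξ (h5 ▸ h4)
  obtain ⟨B, hB⟩ := bdd_of_red hN hlow hc hρ (fun k => hg (φ k)) h1 h3
  obtain ⟨τ₁, hτ₁, ψ, hψ, hlim⟩ := IsCompact.tendsto_subseq (X := ι → ι → ℂ)
    (isCompact_Red (ι := ι) hc B) (x := fun k => actZ (g (φ k)) (τ (φ k)))
    fun k => ⟨hρ k, hg (φ k), hB k⟩
  have hτ₀ : InH (actZ σ⁻¹ τ₁) := inH_actZ _ hτ₁.1
  have h6 : Tendsto (fun k => (actZ (σ⁻¹ * g (φ (ψ k))) (τ (φ (ψ k))) : ι → ι → ℂ)) atTop
      (𝓝 (actZ σ⁻¹ τ₁ : ι → ι → ℂ)) :=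
    ((continuousAt_actZ σ⁻¹ hτ₁.1).tendsto.comp hlim).congr fun k => (hmul (ψ k)).symm
  have h7 := modProp_thN N (fun k => inH_actZ (σ⁻¹ * g (φ (ψ k))) (hτ (φ (ψ k)))) hτ₀ h6
  have h8 : Tendsto (fun k => (s (φ (ψ k)) / a (ψ k)) •
      thN N (actZ (σ⁻¹ * g (φ (ψ k))) (τ (φ (ψ k))))) atTop (𝓝 ξ) :=
    (h.comp (hφ.comp hψ).tendsto_atTop).congr fun k => (hs (ψ k)).symm
  obtain ⟨s₀, h9, h10⟩ := modProp_scal h8 h7 (thN_ne_zero hN hτ₀)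
  refine ⟨φ ∘ ψ, fun k => σ⁻¹ * g (φ (ψ k)), fun k => s (φ (ψ k)) / a (ψ k), actZ σ⁻¹ τ₁, s₀,
    hφ.comp hψ, fun k => hγ _, hτ₀, ?_, fun k => hs _, h6, h9, h10⟩
  rintro rfl
  exact hξ0 (by rw [h10, zero_smul])

theorem mem_Xo_of_closure [NeZero N] (hN : 2 ∣ N) (hred : HasRed ι) (hlow : HasLow ι)
    {ξ : (ι ⊕ ι → Fin N) → ℂ} (h : ξ ∈ closure (Xo ι N)) (hξ : ξ ∉ bd ι N) (hξ0 : ξ ≠ 0) :
    ξ ∈ Xo ι N := by
  obtain ⟨x, hx, hlim⟩ := mem_closure_iff_seq_limit.1 h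
  choose s τ _ hτ hx using hx
  obtain ⟨-, -, -, τ₀, s₀, -, -, h1, h2, -, -, -, h3⟩ :=
    proper hN hred hlow (τ := τ) (s := s) hτ (hlim.congr hx) hξ hξ0
  exact ⟨s₀, τ₀, h2, h1, h3⟩

/-- Points of the cone near `s₀ • thN N τ₀` come from points near `(s₀, τ₀)`. Proof. Else take a
sequence; `proper`, `not_mem_bd`; `torelli` moves the limit to `τ₀`, `thN_act` moves the scalars. -/
theorem near [NeZero N] (hN : 4 ∣ N) (hred : HasRed ι) (hlow : HasLow ι) {τ₀ : ι → ι → ℂ}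
    (hτ₀ : InH τ₀) {s₀ : ℂ} (hs₀ : s₀ ≠ 0) {W : Set (ℂ × (ι → ι → ℂ))} (hW : W ∈ 𝓝 (s₀, τ₀)) :
    ∀ᶠ ξ in 𝓝 (s₀ • thN N τ₀), ξ ∈ Xo ι N → ∃ p ∈ W, InH p.2 ∧ ξ = p.1 • thN N p.2 := by
  have hN2 : 2 ∣ N := dvd_trans ⟨2, rfl⟩ hN
  by_contra hcon
  obtain ⟨x, hlim, hx⟩ := exists_seq_forall_of_frequently (not_eventually.1 hcon)
  have hx1 : ∀ k, x k ∈ Xo ι N := fun k => (Classical.not_imp.1 (hx k)).1
  choose s τ _ hτ hx2 using hx1
  have hv0 : thN N τ₀ ≠ 0 := thN_ne_zero hN2 hτ₀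
  obtain ⟨φ, γ, s', τ₁, s₁, hφ, -, hτ₁, -, h1, h2, -, h3⟩ :=
    proper hN2 hred hlow (τ := τ) (s := s) hτ (hlim.congr hx2)
      (not_mem_bd hN ⟨s₀, τ₀, hs₀, hτ₀, rfl⟩) (smul_ne_zero hs₀ hv0)
  have h4 : thN N τ₀ = (s₀⁻¹ * s₁) • thN N τ₁ := by
    rw [← smul_smul, ← h3, smul_smul, inv_mul_cancel₀ hs₀, one_smul]
  obtain ⟨δ, hδ, h5⟩ := torelli hN hτ₁ hτ₀ h4
  have hρ : ∀ k, InH (actZ (γ k) (τ (φ k))) := fun k => inH_actZ _ (hτ _)
  choose a ha _ ha2 using fun k => thN_act hδ (hρ k)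
  have h6 : Tendsto (fun k => (actZ δ (actZ (γ k) (τ (φ k))) : ι → ι → ℂ)) atTop (𝓝 τ₀) := by
    have h7 := (continuousAt_actZ δ hτ₁).tendsto.comp h2
    have h5' : (actZ δ τ₁ : ι → ι → ℂ) = τ₀ := h5.symm
    rw [h5'] at h7
    exact h7
  have h8 : ∀ k, x (φ k) = (s' k / a k) • thN N (actZ δ (actZ (γ k) (τ (φ k)))) := by
    intro k
    rw [ha2, smul_smul, div_mul_cancel₀ _ (ha k), hx2]
    exact (h1 k).symm
  obtain ⟨s₂, h9, h10⟩ := modProp_scal ((hlim.comp hφ.tendsto_atTop).congr h8)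
    (modProp_thN N (fun k => inH_actZ δ (hρ k)) hτ₀ h6) hv0
  have h11 : s₀ = s₂ := smul_left_injective ℂ hv0 h10
  subst h11
  obtain ⟨k, hk⟩ := ((h9.prodMk_nhds h6).eventually hW).exists
  exact (Classical.not_imp.1 (hx (φ k))).2 ⟨_, hk, inH_actZ δ (hρ k), h8 k⟩

/-- Proof. Each point `ξ` of `K` has a neighbourhood `O` and a compact `K'` that work for `O`: if
`ξ ∉ Xo` take `O` disjoint from `Xo` (`mem_Xo_of_closure`); else use `near` for a compact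
neighbourhood `W` on which symmetric matrices lie in the Siegel space (`eventually_inH`), and
`torelli`. -/
theorem exists_compact [NeZero N] (hN : 4 ∣ N) (hred : HasRed ι) (hlow : HasLow ι)
    {K : Set ((ι ⊕ ι → Fin N) → ℂ)} (hK : IsCompact K) (hb : ∀ ξ ∈ K, ξ ∉ bd ι N ∧ ξ ≠ 0) :
    ∃ K' : Set (ι → ι → ℂ), IsCompact K' ∧ (∀ τ ∈ K', InH τ) ∧ ∀ (s : ℂ) (τ : Matrix ι ι ℂ),
      InH τ → s • thN N τ ∈ K → ∃ γ ∈ GamN ι N, (actZ γ τ : ι → ι → ℂ) ∈ K' := by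
  have hN2 : 2 ∣ N := dvd_trans ⟨2, rfl⟩ hN
  suffices H : ∃ K' : Set (ι → ι → ℂ), IsCompact K' ∧ (∀ τ ∈ K', InH τ) ∧
      ∀ (s : ℂ) (τ : Matrix ι ι ℂ), s ≠ 0 → InH τ → s • thN N τ ∈ K →
        ∃ γ ∈ GamN ι N, (actZ γ τ : ι → ι → ℂ) ∈ K' by
    obtain ⟨K', h1, h2, h3⟩ := H
    refine ⟨K', h1, h2, fun s τ hτ h => h3 s τ ?_ hτ h⟩
    rintro rfl
    exact (hb _ h).2 (zero_smul _ _)
  refine hK.induction_on (p := fun K => ∃ K' : Set (ι → ι → ℂ), IsCompact K' ∧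
      (∀ τ ∈ K', InH τ) ∧ ∀ (s : ℂ) (τ : Matrix ι ι ℂ), s ≠ 0 → InH τ → s • thN N τ ∈ K →
        ∃ γ ∈ GamN ι N, (actZ γ τ : ι → ι → ℂ) ∈ K') ?_ ?_ ?_ ?_
  · exact ⟨∅, isCompact_empty, by simp, fun _ _ _ _ h => h.elim⟩
  · rintro A B hAB ⟨K', h1, h2, h3⟩
    exact ⟨K', h1, h2, fun s τ hs hτ h => h3 s τ hs hτ (hAB h)⟩
  · rintro A B ⟨K₁, h1, h2, h3⟩ ⟨K₂, h1', h2', h3'⟩
    refine ⟨K₁ ∪ K₂, h1.union h1', fun τ h => h.elim (h2 τ) (h2' τ), fun s τ hs hτ h => ?_⟩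
    rcases h with h | h
    · obtain ⟨γ, h4, h5⟩ := h3 s τ hs hτ h
      exact ⟨γ, h4, Or.inl h5⟩
    · obtain ⟨γ, h4, h5⟩ := h3' s τ hs hτ h
      exact ⟨γ, h4, Or.inr h5⟩
  intro ξ hξ
  by_cases hX : ξ ∈ Xo ι N
  · obtain ⟨s₀, τ₀, hs₀, hτ₀, rfl⟩ := hX
    obtain ⟨V, hV, hVU, hVc⟩ := local_compact_nhds (eventually_inH (τ₀ := τ₀) hτ₀)
    have hW : Set.univ ×ˢ V ∈ 𝓝 ((s₀, τ₀) : ℂ × (ι → ι → ℂ)) := prod_mem_nhds univ_mem hV
    have hcl : IsClosed {τ : ι → ι → ℂ | ∀ i j, τ i j = τ j i} := by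
      simp only [Set.ofPred_forall]
      exact isClosed_iInter fun i => isClosed_iInter fun j =>
        isClosed_eq (by fun_prop) (by fun_prop)
    refine ⟨_, mem_nhdsWithin_of_mem_nhds (near hN hred hlow (τ₀ := τ₀) hτ₀ hs₀ hW),
      V ∩ {τ | ∀ i j, τ i j = τ j i}, hVc.inter_right hcl, fun τ h => hVU h.1 h.2,
      fun s τ hs hτ h => ?_⟩
    obtain ⟨p, hp, hp1, hp2⟩ := h ⟨s, τ, hs, hτ, rfl⟩
    have h1 : p.1 ≠ 0 := by
      intro h0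
      rw [h0, zero_smul] at hp2
      exact smul_ne_zero hs (thN_ne_zero hN2 hτ) hp2
    have h2 : thN N p.2 = (p.1⁻¹ * s) • thN N τ := by
      rw [← smul_smul, hp2, smul_smul, inv_mul_cancel₀ h1, one_smul]
    obtain ⟨γ, h3, h4⟩ := torelli hN hτ hp1 h2
    have h5 : (actZ γ τ : ι → ι → ℂ) = p.2 := h4.symm
    refine ⟨γ, h3, ?_⟩
    rw [h5]
    exact ⟨hp.2, fun i j => (hp1.1.apply j i)⟩
  · have h1 : ξ ∉ closure (Xo ι N) := fun h =>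
      hX (mem_Xo_of_closure hN2 hred hlow h (hb ξ hξ).1 (hb ξ hξ).2)
    refine ⟨(closure (Xo ι N))ᶜ,
      mem_nhdsWithin_of_mem_nhds (isClosed_closure.isOpen_compl.mem_nhds h1), ∅, isCompact_empty,
      by simp, fun s τ hs hτ h => (h (subset_closure ⟨s, τ, hs, hτ, rfl⟩)).elim⟩

end M4.Mo
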