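import Pool.Agent.Lib.MP_33b3f9_ag.M4.ModIf

/-!
The Riemann relation in the level sixteen coordinates.
-/

set_option autoImplicit false

namespace M4.Mo

open Complex Matrix

variable {ι : Type} [Fintype ι] {τ τ' : Matrix ι ι ℂ}

omit [Fintype ι] in
theorem modR4_two (k : ι ⊕ ι → ℤ) : qv 4 ((2 : ℤ) • k) = hf k := by
  funext i
  simp only [qv, hf, rz, Pi.smul_apply, smul_eq_mul]
  push_cast
  ring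

omit [Fintype ι] in
theorem modR4_add (a b : ι ⊕ ι → ℤ) : qv 4 (a + b) = qv 4 a + qv 4 b := by
  rw [qv, rz_add, smul_add, qv, qv]

theorem modR4_sub (a b : ℂ) : ee ((a - b) / 2) * ee (b / 2) = ee (a / 2) := by
  rw [← ee_add]
  congr 1
  ring

/-- `YY` unfolded. -/
theorem YY_eq (τ : Matrix ι ι ℂ) (z : ι ⊕ ι → ℤ) (x : ι ⊕ ι → ℝ) :
    YY τ z x = ee (E (qv 4 z) x / 2) * Th τ (x + qv 4 z) := by
  simp [YY, U]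

theorem XX_eq (τ : Matrix ι ι ℂ) (k : ι ⊕ ι → ℤ) (x : ι ⊕ ι → ℝ) :
    XX τ k x = YY τ ((2 : ℤ) • k) ((2 : ℝ) • x) := by
  rw [XX, YY, modR4_two]

/-- Translation of the point by a lattice vector (`Th_add_rz`). -/
theorem YY_add_rz (hτ : InH τ) (z n : ι ⊕ ι → ℤ) (x : ι ⊕ ι → ℝ) :
    YY τ z (x + rz n) = chi n * ee (E x (rz n) / 2) * ee (EZ z n / 4) * YY τ z x := by
  have h : E (qv 4 z) (rz n) = EZ z n / 4 := by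
    rw [qv, E_smul_left, E_rz]
    push_cast
    ring
  have h1 : ee (((E (qv 4 z) x + EZ z n / 4 : ℝ) : ℂ) / 2) *
      ee (((E x (rz n) + EZ z n / 4 : ℝ) : ℂ) / 2) =
      ee (E x (rz n) / 2) * ee (EZ z n / 4) * ee (E (qv 4 z) x / 2) := by
    rw [← ee_add, ← ee_add, ← ee_add]
    congr 1
    push_cast
    ring
  rw [YY_eq, YY_eq, add_right_comm, Th_add_rz hτ, E_add_right, E_add_left, h]
  linear_combination chi n * Th τ (x + qv 4 z) * h1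

/-- Every class of `z` modulo two contains an element of the support (`bpf` at `x + z / 4`). -/
theorem YY_bpf (hτ : InH τ) (z : ι ⊕ ι → ℤ) (x : ι ⊕ ι → ℝ) :
    ∃ k : ι ⊕ ι → ℤ, YY τ (z + (2 : ℤ) • k) x ≠ 0 := by
  obtain ⟨k, hk⟩ := bpf hτ (x + qv 4 z)
  refine ⟨k, ?_⟩
  rw [YY_eq, modR4_add, modR4_two, ← add_assoc]
  exact mul_ne_zero (ee_ne _) hk

theorem continuous_YY (hτ : InH τ) (z : ι ⊕ ι → ℤ) : Continuous (YY τ z) := by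
  have h1 : Continuous (Th τ) :=
    continuousOn_Th.comp_continuous (f := fun x : ι ⊕ ι → ℝ => ((τ : ι → ι → ℂ), x))
      (continuous_const.prodMk continuous_id) fun _ => hτ
  have h2 : YY τ z = fun x => ee (E (qv 4 z) x / 2) * Th τ (x + qv 4 z) := funext (YY_eq τ z)
  rw [h2]
  unfold ee E
  fun_prop

theorem modR4_U (τ : Matrix ι ι ℂ) (k s : ι ⊕ ι → ℤ) (y : ι ⊕ ι → ℝ) :
    U 1 (hf k) (Th τ) (y + qv 4 s) =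
      ee (E (hf k) (qv 4 s) / 2) * ee (-(E (qv 4 s) y / 2)) * YY τ (s + (2 : ℤ) • k) y := by
  rw [YY_eq, modR4_add, modR4_two, ← mul_assoc, ← ee_add, ← ee_add, ← add_assoc y, U, E_add_left,
    E_add_right]
  congr 2
  push_cast
  ring

theorem modR4_E (q₁ q₂ q₃ q₄ x₁ x₂ x₃ x₄ : ι ⊕ ι → ℝ) :
    E ((1 / 2 : ℝ) • (q₁ + q₂ + q₃ + q₄)) ((1 / 2 : ℝ) • (x₁ + x₂ + x₃ + x₄)) +
      E ((1 / 2 : ℝ) • (q₁ + q₂ - q₃ - q₄)) ((1 / 2 : ℝ) • (x₁ + x₂ - x₃ - x₄)) +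
      E ((1 / 2 : ℝ) • (q₁ - q₂ + q₃ - q₄)) ((1 / 2 : ℝ) • (x₁ - x₂ + x₃ - x₄)) +
      E ((1 / 2 : ℝ) • (q₁ - q₂ - q₃ + q₄)) ((1 / 2 : ℝ) • (x₁ - x₂ - x₃ + x₄)) =
      E q₁ x₁ + E q₂ x₂ + E q₃ x₃ + E q₄ x₄ := by
  simp only [E, ← Finset.sum_add_distrib, Pi.add_apply, Pi.sub_apply, Pi.smul_apply, smul_eq_mul]
  exact Finset.sum_congr rfl fun i _ => by ring

/-- The Riemann relation with coefficients that depend neither on `τ` nor on the points.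
Proof. `riemann` at the points `x j + z j / 4`. With `z₁ + z₂ + z₃ + z₄ = 2 • s` the half sums are
`y j + s j / 4` for `s₁ = s`, `s₂ = z₁ + z₂ - s`, `s₃ = z₁ + z₃ - s`, `s₄ = z₁ + z₄ - s`, and
`U 1 (hf k) Th (y + s / 4) = ee (E (k/2) (s/4) / 2) * ee (- E (s/4) y / 2) * YY (s + 2 k) y`;
`∑ E (s j) (y j) = ∑ E (z j) (x j)`. -/
theorem r4_aux [DecidableEq ι] (z₁ z₂ z₃ z₄ s : ι ⊕ ι → ℤ) (hs : z₁ + z₂ + z₃ + z₄ = (2 : ℤ) • s) :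
    ∃ c : (ι ⊕ ι → Fin 2) → ℂ, ∀ τ : Matrix ι ι ℂ, InH τ → ∀ x₁ x₂ x₃ x₄ : ι ⊕ ι → ℝ,
      YY τ z₁ x₁ * YY τ z₂ x₂ * YY τ z₃ x₃ * YY τ z₄ x₄ = ∑ e, c e *
        (YY τ (s + (2 : ℤ) • bz e) ((1 / 2 : ℝ) • (x₁ + x₂ + x₃ + x₄)) *
          YY τ (z₁ + z₂ - s + (2 : ℤ) • bz e) ((1 / 2 : ℝ) • (x₁ + x₂ - x₃ - x₄)) *
          YY τ (z₁ + z₃ - s + (2 : ℤ) • bz e) ((1 / 2 : ℝ) • (x₁ - x₂ + x₃ - x₄)) *
          YY τ (z₁ + z₄ - s + (2 : ℤ) • bz e) ((1 / 2 : ℝ) • (x₁ - x₂ - x₃ + x₄))) := by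
  have h0 : ∀ i, (z₁ i : ℝ) + z₂ i + z₃ i + z₄ i = 2 * s i := fun i => by
    exact_mod_cast congrFun hs i
  have q1 : qv 4 s = (1 / 2 : ℝ) • (qv 4 z₁ + qv 4 z₂ + qv 4 z₃ + qv 4 z₄) := by
    funext i
    simp only [qv, rz, Pi.add_apply, Pi.smul_apply, smul_eq_mul]
    linear_combination (-1 / 8 : ℝ) * h0 i
  have q2 : qv 4 (z₁ + z₂ - s) = (1 / 2 : ℝ) • (qv 4 z₁ + qv 4 z₂ - qv 4 z₃ - qv 4 z₄) := by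
    funext i
    simp only [qv, rz, Pi.add_apply, Pi.sub_apply, Pi.smul_apply, smul_eq_mul]
    push_cast
    linear_combination (1 / 8 : ℝ) * h0 i
  have q3 : qv 4 (z₁ + z₃ - s) = (1 / 2 : ℝ) • (qv 4 z₁ - qv 4 z₂ + qv 4 z₃ - qv 4 z₄) := by
    funext i
    simp only [qv, rz, Pi.add_apply, Pi.sub_apply, Pi.smul_apply, smul_eq_mul]
    push_cast
    linear_combination (1 / 8 : ℝ) * h0 i
  have q4 : qv 4 (z₁ + z₄ - s) = (1 / 2 : ℝ) • (qv 4 z₁ - qv 4 z₂ - qv 4 z₃ + qv 4 z₄) := by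
    funext i
    simp only [qv, rz, Pi.add_apply, Pi.sub_apply, Pi.smul_apply, smul_eq_mul]
    push_cast
    linear_combination (1 / 8 : ℝ) * h0 i
  refine ⟨fun e => ((2 : ℂ) ^ Fintype.card ι)⁻¹ * chi (bz e) *
    (ee (E (hf (bz e)) (qv 4 s) / 2) * ee (E (hf (bz e)) (qv 4 (z₁ + z₂ - s)) / 2) *
      ee (E (hf (bz e)) (qv 4 (z₁ + z₃ - s)) / 2) * ee (E (hf (bz e)) (qv 4 (z₁ + z₄ - s)) / 2)),
    fun τ hτ x₁ x₂ x₃ x₄ => ?_⟩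
  have h1 := riemann hτ (x₁ + qv 4 z₁) (x₂ + qv 4 z₂) (x₃ + qv 4 z₃) (x₄ + qv 4 z₄)
  have p1 : (1 / 2 : ℝ) • (x₁ + qv 4 z₁ + (x₂ + qv 4 z₂) + (x₃ + qv 4 z₃) + (x₄ + qv 4 z₄)) =
      (1 / 2 : ℝ) • (x₁ + x₂ + x₃ + x₄) + qv 4 s := by
    rw [q1]
    module
  have p2 : (1 / 2 : ℝ) • (x₁ + qv 4 z₁ + (x₂ + qv 4 z₂) - (x₃ + qv 4 z₃) - (x₄ + qv 4 z₄)) =
      (1 / 2 : ℝ) • (x₁ + x₂ - x₃ - x₄) + qv 4 (z₁ + z₂ - s) := by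
    rw [q2]
    module
  have p3 : (1 / 2 : ℝ) • (x₁ + qv 4 z₁ - (x₂ + qv 4 z₂) + (x₃ + qv 4 z₃) - (x₄ + qv 4 z₄)) =
      (1 / 2 : ℝ) • (x₁ - x₂ + x₃ - x₄) + qv 4 (z₁ + z₃ - s) := by
    rw [q3]
    module
  have p4 : (1 / 2 : ℝ) • (x₁ + qv 4 z₁ - (x₂ + qv 4 z₂) - (x₃ + qv 4 z₃) + (x₄ + qv 4 z₄)) =
      (1 / 2 : ℝ) • (x₁ - x₂ - x₃ + x₄) + qv 4 (z₁ + z₄ - s) := by
    rw [q4]
    module
  have h2 := modR4_E (qv 4 z₁) (qv 4 z₂) (qv 4 z₃) (qv 4 z₄) x₁ x₂ x₃ x₄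
  rw [← q1, ← q2, ← q3, ← q4] at h2
  rw [p1, p2, p3, p4] at h1
  generalize (1 / 2 : ℝ) • (x₁ + x₂ + x₃ + x₄) = y₁ at h1 h2 ⊢
  generalize (1 / 2 : ℝ) • (x₁ + x₂ - x₃ - x₄) = y₂ at h1 h2 ⊢
  generalize (1 / 2 : ℝ) • (x₁ - x₂ + x₃ - x₄) = y₃ at h1 h2 ⊢
  generalize (1 / 2 : ℝ) • (x₁ - x₂ - x₃ + x₄) = y₄ at h1 h2 ⊢
  have h3 : ee (E (qv 4 z₁) x₁ / 2) * ee (E (qv 4 z₂) x₂ / 2) * ee (E (qv 4 z₃) x₃ / 2) *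
      ee (E (qv 4 z₄) x₄ / 2) * (ee (-(E (qv 4 s) y₁ / 2)) *
        ee (-(E (qv 4 (z₁ + z₂ - s)) y₂ / 2)) * ee (-(E (qv 4 (z₁ + z₃ - s)) y₃ / 2)) *
        ee (-(E (qv 4 (z₁ + z₄ - s)) y₄ / 2))) = 1 := by
    have h4 := congrArg ((↑) : ℝ → ℂ) h2
    push_cast at h4
    simp only [← ee_add]
    rw [← ee_zero]
    congr 1
    linear_combination (-1 / 2 : ℂ) * h4
  rw [YY_eq τ z₁, YY_eq τ z₂, YY_eq τ z₃, YY_eq τ z₄]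
  trans ee (E (qv 4 z₁) x₁ / 2) * ee (E (qv 4 z₂) x₂ / 2) * ee (E (qv 4 z₃) x₃ / 2) *
    ee (E (qv 4 z₄) x₄ / 2) *
      (Th τ (x₁ + qv 4 z₁) * Th τ (x₂ + qv 4 z₂) * Th τ (x₃ + qv 4 z₃) * Th τ (x₄ + qv 4 z₄))
  · ring
  rw [h1, Finset.mul_sum, Finset.mul_sum]
  refine Finset.sum_congr rfl fun e _ => ?_
  rw [modR4_U, modR4_U, modR4_U, modR4_U]
  linear_combination ((2 : ℂ) ^ Fintype.card ι)⁻¹ * chi (bz e) *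
    (ee (E (hf (bz e)) (qv 4 s) / 2) * ee (E (hf (bz e)) (qv 4 (z₁ + z₂ - s)) / 2) *
      ee (E (hf (bz e)) (qv 4 (z₁ + z₃ - s)) / 2) * ee (E (hf (bz e)) (qv 4 (z₁ + z₄ - s)) / 2)) *
    (YY τ (s + (2 : ℤ) • bz e) y₁ * YY τ (z₁ + z₂ - s + (2 : ℤ) • bz e) y₂ *
      YY τ (z₁ + z₃ - s + (2 : ℤ) • bz e) y₃ * YY τ (z₁ + z₄ - s + (2 : ℤ) • bz e) y₄) * h3

/-- Proof. `r4_aux` for `τ` and for `τ'`. -/
theorem r4 (hτ : InH τ) (hτ' : InH τ') {x₁ x₂ x₃ x₄ x₁' x₂' x₃' x₄' : ι ⊕ ι → ℝ} {μ₁ μ₂ μ₃ μ₄ : ℂ}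
    (h₁ : Pr τ τ' ((1 / 2 : ℝ) • (x₁ + x₂ + x₃ + x₄)) ((1 / 2 : ℝ) • (x₁' + x₂' + x₃' + x₄')) μ₁)
    (h₂ : Pr τ τ' ((1 / 2 : ℝ) • (x₁ + x₂ - x₃ - x₄)) ((1 / 2 : ℝ) • (x₁' + x₂' - x₃' - x₄')) μ₂)
    (h₃ : Pr τ τ' ((1 / 2 : ℝ) • (x₁ - x₂ + x₃ - x₄)) ((1 / 2 : ℝ) • (x₁' - x₂' + x₃' - x₄')) μ₃)
    (h₄ : Pr τ τ' ((1 / 2 : ℝ) • (x₁ - x₂ - x₃ + x₄)) ((1 / 2 : ℝ) • (x₁' - x₂' - x₃' + x₄')) μ₄)
    {z₁ z₂ z₃ z₄ s : ι ⊕ ι → ℤ} (hs : z₁ + z₂ + z₃ + z₄ = (2 : ℤ) • s) :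
    YY τ' z₁ x₁' * YY τ' z₂ x₂' * YY τ' z₃ x₃' * YY τ' z₄ x₄' =
      μ₁ * μ₂ * μ₃ * μ₄ * (YY τ z₁ x₁ * YY τ z₂ x₂ * YY τ z₃ x₃ * YY τ z₄ x₄) := by
  classical
  obtain ⟨c, hc⟩ := r4_aux z₁ z₂ z₃ z₄ s hs
  rw [hc τ hτ, hc τ' hτ', Finset.mul_sum]
  refine Finset.sum_congr rfl fun e _ => ?_
  rw [h₁.2, h₂.2, h₃.2, h₄.2]
  ring

/-- The factor is unique. -/
theorem Pr_unique (hτ : InH τ) {x x' : ι ⊕ ι → ℝ} {μ ν : ℂ} (h : Pr τ τ' x x' μ)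
    (h' : Pr τ τ' x x' ν) : μ = ν := by
  obtain ⟨k, hk⟩ := YY_bpf hτ 0 x
  exact mul_right_cancel₀ hk ((h.2 _).symm.trans (h'.2 _))

/-- Simultaneous translation by a lattice vector. -/
theorem Pr_add_rz (hτ : InH τ) (hτ' : InH τ') {x x' : ι ⊕ ι → ℝ} {μ : ℂ} (h : Pr τ τ' x x' μ)
    (n : ι ⊕ ι → ℤ) :
    Pr τ τ' (x + rz n) (x' + rz n) (μ * ee ((E x' (rz n) - E x (rz n)) / 2)) := by
  refine ⟨mul_ne_zero h.1 (ee_ne _), fun z => ?_⟩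
  rw [YY_add_rz hτ, YY_add_rz hτ', h.2, ← modR4_sub (E x' (rz n)) (E x (rz n))]
  ring

/-- Separate translations by elements of `4 L` (`chi_even`, `ee_int`). -/
theorem Pr_add_four (hτ : InH τ) (hτ' : InH τ') {x x' : ι ⊕ ι → ℝ} {μ : ℂ} (h : Pr τ τ' x x' μ)
    (n n' : ι ⊕ ι → ℤ) :
    Pr τ τ' (x + rz ((4 : ℤ) • n)) (x' + rz ((4 : ℤ) • n'))
      (μ * ee ((E x' (rz ((4 : ℤ) • n')) - E x (rz ((4 : ℤ) • n))) / 2)) := by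
  have h1 : ∀ m : ι ⊕ ι → ℤ, chi ((4 : ℤ) • m) = 1 := fun m => by
    rw [show (4 : ℤ) = 2 * 2 by norm_num, mul_smul, chi_even]
  have h2 : ∀ z m : ι ⊕ ι → ℤ, ee (EZ z ((4 : ℤ) • m) / 4) = 1 := fun z m => by
    rw [EZ_smul_right, ← ee_int (EZ z m)]
    congr 1
    push_cast
    ring
  refine ⟨mul_ne_zero h.1 (ee_ne _), fun z => ?_⟩
  rw [YY_add_rz hτ, YY_add_rz hτ', h.2, h1, h1, h2, h2,
    ← modR4_sub (E x' (rz ((4 : ℤ) • n'))) (E x (rz ((4 : ℤ) • n)))]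
  ring

/-- Proof. The set is `{p | ∀ z z', YY τ' z p.2 * YY τ z' p.1 = YY τ' z' p.2 * YY τ z p.1}` because
both vectors are nonzero (`YY_bpf`). -/
theorem isClosed_Pr (hτ : InH τ) (hτ' : InH τ') :
    IsClosed {p : (ι ⊕ ι → ℝ) × (ι ⊕ ι → ℝ) | ∃ μ, Pr τ τ' p.1 p.2 μ} := by
  have h : {p : (ι ⊕ ι → ℝ) × (ι ⊕ ι → ℝ) | ∃ μ, Pr τ τ' p.1 p.2 μ} =
      ⋂ z, ⋂ z', {p | YY τ' z p.2 * YY τ z' p.1 = YY τ' z' p.2 * YY τ z p.1} := by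
    ext p
    simp only [Set.mem_ofPred_eq, Set.mem_iInter]
    constructor
    · rintro ⟨μ, -, h⟩ z z'
      rw [h, h]
      ring
    · intro h
      obtain ⟨k, hk⟩ := YY_bpf hτ 0 p.1
      obtain ⟨k', hk'⟩ := YY_bpf hτ' 0 p.2
      have h1 : ∀ z, YY τ' z p.2 =
          YY τ' (0 + (2 : ℤ) • k) p.2 / YY τ (0 + (2 : ℤ) • k) p.1 * YY τ z p.1 := fun z => by
        rw [div_mul_eq_mul_div, eq_div_iff hk, h]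
      refine ⟨_, fun h0 => hk' ?_, h1⟩
      rw [h1, h0, zero_mul]
  rw [h]
  exact isClosed_iInter fun z => isClosed_iInter fun z' => isClosed_eq
    (((continuous_YY hτ' z).comp continuous_snd).mul ((continuous_YY hτ z').comp continuous_fst))
    (((continuous_YY hτ' z').comp continuous_snd).mul ((continuous_YY hτ z).comp continuous_fst))

end M4.Mo
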