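import Pool.Agent.Lib.MP_33b3f9_ag.M4.MxRkB

open Matrix Function
open scoped Kronecker

namespace Pool.Agent.M4.Mx

open Pool.Agent.Lib.MP_33b3f9_ag

noncomputable section

variable {ν : Type} [Fintype ν] [DecidableEq ν]

/-- equations saying that `c` commutes with `g ⊗ g` -/
def mxc1_eqns (c : Matrix (ν × ν) (ν × ν) ℚ) : Set (MvPolynomial (ν × ν) ℚ) :=
  {P | ∃ p q : ν × ν,
    P = ∑ r : ν × ν, MvPolynomial.C (c p r) *
        (MvPolynomial.X (r.1, q.1) * MvPolynomial.X (r.2, q.2)) -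
      ∑ r : ν × ν, (MvPolynomial.X (p.1, r.1) * MvPolynomial.X (p.2, r.2)) *
        MvPolynomial.C (c r q)}

omit [DecidableEq ν] in
theorem mxc1_iff {Ω : Type*} [Field Ω] [Algebra ℚ Ω] (c : Matrix (ν × ν) (ν × ν) ℚ)
    (g : Matrix ν ν Ω) : (∀ P ∈ mxc1_eqns c, evalM g P = 0) ↔
      c.map (algebraMap ℚ Ω) * (g ⊗ₖ g) = (g ⊗ₖ g) * c.map (algebraMap ℚ Ω) := by
  have key : ∀ p q : ν × ν, evalM g (∑ r : ν × ν, MvPolynomial.C (c p r) *
        (MvPolynomial.X (r.1, q.1) * MvPolynomial.X (r.2, q.2)) -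
      ∑ r : ν × ν, (MvPolynomial.X (p.1, r.1) * MvPolynomial.X (p.2, r.2)) *
        MvPolynomial.C (c r q)) = (c.map (algebraMap ℚ Ω) * (g ⊗ₖ g)) p q -
        ((g ⊗ₖ g) * c.map (algebraMap ℚ Ω)) p q := by
    intro p q
    simp only [evalM, map_sub, map_sum, map_mul, MvPolynomial.aeval_C, MvPolynomial.aeval_X,
      Matrix.mul_apply, Matrix.map_apply, Matrix.kroneckerMap_apply]
  constructor
  · intro h
    ext p q
    have h1 := h _ ⟨p, q, rfl⟩
    rwa [key, sub_eq_zero] at h1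
  · rintro h P ⟨p, q, rfl⟩
    rw [key, h, sub_self]

/-- the group of all `g` such that `A` commutes with `g ⊗ g` -/
def mxc1_grp {Ω : Type*} [Field Ω] (A : Matrix (ν × ν) (ν × ν) Ω) : Subgroup (GL ν Ω) where
  carrier := {g | A * ((g : Matrix ν ν Ω) ⊗ₖ (g : Matrix ν ν Ω)) =
    ((g : Matrix ν ν Ω) ⊗ₖ (g : Matrix ν ν Ω)) * A}
  one_mem' := by simp
  mul_mem' := by
    intro g h hg hh
    simp only [Set.mem_ofPred_eq, Units.val_mul, Matrix.mul_kronecker_mul] at *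
    rw [← Matrix.mul_assoc, hg, Matrix.mul_assoc, hh, Matrix.mul_assoc]
  inv_mem' := by
    intro g hg
    simp only [Set.mem_ofPred_eq] at *
    have e1 : ((g : Matrix ν ν Ω) ⊗ₖ (g : Matrix ν ν Ω)) *
        (((g⁻¹ : GL ν Ω) : Matrix ν ν Ω) ⊗ₖ ((g⁻¹ : GL ν Ω) : Matrix ν ν Ω)) = 1 := by
      rw [← Matrix.mul_kronecker_mul, Units.mul_inv, Matrix.one_kronecker_one]
    have e2 : (((g⁻¹ : GL ν Ω) : Matrix ν ν Ω) ⊗ₖ ((g⁻¹ : GL ν Ω) : Matrix ν ν Ω)) *
        ((g : Matrix ν ν Ω) ⊗ₖ (g : Matrix ν ν Ω)) = 1 := by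
      rw [← Matrix.mul_kronecker_mul, Units.inv_mul, Matrix.one_kronecker_one]
    generalize ((g : Matrix ν ν Ω) ⊗ₖ (g : Matrix ν ν Ω)) = G at *
    generalize (((g⁻¹ : GL ν Ω) : Matrix ν ν Ω) ⊗ₖ ((g⁻¹ : GL ν Ω) : Matrix ν ν Ω)) = H at *
    calc A * H = (H * G) * A * H := by rw [e2, Matrix.one_mul]
      _ = H * (A * G) * H := by rw [hg, Matrix.mul_assoc H]
      _ = H * A := by rw [Matrix.mul_assoc, Matrix.mul_assoc, e1, Matrix.mul_one]

/-- The entries of `c (x ⊗ x) - (x ⊗ x) c` (`x` the generic matrix) define an algebraic subgroup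
(`Commute` with `g ⊗ g` is stable under products and inverses), and it contains `u + v I` since
`(u + v I) ⊗ (u + v I) = u^2 + u v D + v^2 I ⊗ I` and `D * D = -2 + 2 I ⊗ I`. Compare
`simEqns_subset` in `MT.lean`. -/
theorem comm_of_mt {Ω : Type*} [Field Ω] [Algebra ℚ Ω] {I : Matrix ν ν ℝ} (hI : I * I = -1)
    {c : Matrix (ν × ν) (ν × ν) ℚ}
    (hc : c.map (algebraMap ℚ ℝ) * (I ⊗ₖ (1 : Matrix ν ν ℝ) + (1 : Matrix ν ν ℝ) ⊗ₖ I) =
      (I ⊗ₖ (1 : Matrix ν ν ℝ) + (1 : Matrix ν ν ℝ) ⊗ₖ I) * c.map (algebraMap ℚ ℝ))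
    {g : Matrix ν ν Ω} (hg : ∀ P ∈ mtEqns I, evalM g P = 0) :
    c.map (algebraMap ℚ Ω) * (g ⊗ₖ g) = (g ⊗ₖ g) * c.map (algebraMap ℚ Ω) := by
  rw [← mxc1_iff]
  have hsub : mxc1_eqns c ⊆ mtEqns I := by
    apply Set.subset_sUnion_of_mem
    refine ⟨⟨mxc1_grp (c.map (algebraMap ℚ (AlgebraicClosure ℚ))), ?_⟩, ?_⟩
    · ext g
      exact (mxc1_iff c (g : Matrix ν ν (AlgebraicClosure ℚ))).symm
    · intro u v _
      rw [mxc1_iff]
      obtain ⟨D, hD⟩ : ∃ D, D = I ⊗ₖ (1 : Matrix ν ν ℝ) + (1 : Matrix ν ν ℝ) ⊗ₖ I := ⟨_, rfl⟩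
      have h1 : D * D = (-2 : ℝ) • (1 : Matrix (ν × ν) (ν × ν) ℝ) + (2 : ℝ) • (I ⊗ₖ I) := by
        have hI' : I * I = (-1 : ℝ) • (1 : Matrix ν ν ℝ) := by rw [hI, neg_smul, one_smul]
        simp only [hD, Matrix.add_mul, Matrix.mul_add, ← Matrix.mul_kronecker_mul, hI',
          Matrix.one_mul, Matrix.mul_one, Matrix.smul_kronecker, Matrix.kronecker_smul,
          Matrix.one_kronecker_one]
        module
      have h2 : (u • (1 : Matrix ν ν ℝ) + v • I) ⊗ₖ (u • (1 : Matrix ν ν ℝ) + v • I) =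
          (u * u + v * v) • (1 : Matrix (ν × ν) (ν × ν) ℝ) + (u * v) • D +
            (v * v / 2) • (D * D) := by
        rw [h1, hD]
        simp only [Matrix.add_kronecker, Matrix.kronecker_add, Matrix.smul_kronecker,
          Matrix.kronecker_smul, Matrix.one_kronecker_one]
        module
      rw [← hD] at hc
      have h3 : Commute (c.map (algebraMap ℚ ℝ)) D := hc
      rw [h2]
      exact (((Commute.one_right _).smul_right _).add_right (h3.smul_right _)).add_right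
        ((h3.mul_right h3).smul_right _)
  exact fun P hP => hg P (hsub hP)

/-- Descent: for a `ℚ`-linear `lam : Ω → ℚ` the rational matrix `w.map lam` commutes with all
`D i`; `w` is an `Ω`-combination of the `w.map (b.coord k)` for a basis `b` of `Ω` over `ℚ`
(`Module.Basis.ofVectorSpace`, `k` in the union of the supports of the entries). -/
theorem comm_desc {Ω : Type*} [Field Ω] [Algebra ℚ Ω] {μ ι : Type} [Fintype μ] [DecidableEq μ]
    (D : ι → Matrix μ μ ℚ) {w G : Matrix μ μ Ω}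
    (hw : ∀ i, w * (D i).map (algebraMap ℚ Ω) = (D i).map (algebraMap ℚ Ω) * w)
    (hG : ∀ c : Matrix μ μ ℚ, (∀ i, c * D i = D i * c) →
      c.map (algebraMap ℚ Ω) * G = G * c.map (algebraMap ℚ Ω)) : w * G = G * w := by
  classical
  let b := Module.Basis.ofVectorSpace ℚ Ω
  have hc : ∀ k i, w.map (b.coord k) * D i = D i * w.map (b.coord k) := by
    intro k i
    ext x y
    have h := congrArg (b.coord k) (congrFun (congrFun (hw i) x) y)
    simp only [Matrix.mul_apply, Matrix.map_apply, map_sum] at h ⊢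
    have e1 : ∀ z, b.coord k (w x z * algebraMap ℚ Ω (D i z y)) = b.coord k (w x z) * D i z y :=
      fun z => by rw [mul_comm, ← Algebra.smul_def, map_smul, smul_eq_mul, mul_comm]
    have e2 : ∀ z, b.coord k (algebraMap ℚ Ω (D i x z) * w z y) = D i x z * b.coord k (w z y) :=
      fun z => by rw [← Algebra.smul_def, map_smul, smul_eq_mul]
    simpa only [e1, e2] using h
  let K := Finset.univ.biUnion fun p : μ × μ => (b.repr (w p.1 p.2)).support
  have hsum : w = ∑ k ∈ K, b k • (w.map (b.coord k)).map (algebraMap ℚ Ω) := by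
    ext x y
    have h1 : (b.repr (w x y)).support ⊆ K :=
      Finset.subset_biUnion_of_mem (fun p : μ × μ => (b.repr (w p.1 p.2)).support)
        (Finset.mem_univ (x, y))
    have h2 := b.linearCombination_repr (w x y)
    rw [Finsupp.linearCombination_apply, Finsupp.sum_of_support_subset _ h1
      (fun i a => a • b i) fun k _ => zero_smul _ _] at h2
    rw [Matrix.sum_apply]
    refine h2.symm.trans (Finset.sum_congr rfl fun k _ => ?_)
    rw [Matrix.smul_apply, Matrix.map_apply, Matrix.map_apply, Module.Basis.coord_apply,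
      smul_eq_mul, Algebra.smul_def, mul_comm]
  rw [hsum, Finset.sum_mul, Finset.mul_sum]
  refine Finset.sum_congr rfl fun k _ => ?_
  rw [Matrix.smul_mul, Matrix.mul_smul, hG _ (hc k)]

omit [Fintype ν] in
theorem mxc1_map {Ω : Type*} [Field Ω] [Algebra ℚ Ω] (X : Matrix ν ν ℚ) :
    (X ⊗ₖ (1 : Matrix ν ν ℚ) + (1 : Matrix ν ν ℚ) ⊗ₖ X).map (algebraMap ℚ Ω) =
      X.map (algebraMap ℚ Ω) ⊗ₖ (1 : Matrix ν ν Ω) +
        (1 : Matrix ν ν Ω) ⊗ₖ X.map (algebraMap ℚ Ω) := by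
  ext p q
  simp only [Matrix.map_apply, Matrix.add_apply, Matrix.kroneckerMap_apply, Matrix.one_apply,
    map_add, map_mul]
  split_ifs <;> simp

/-- `D i = X i ⊗ 1 + 1 ⊗ X i`, `w = f.W s`, `G = g ⊗ g`; `W_comm`, `comm_desc`, `comm_of_mt`,
`rk_of_comm`, `eq_T` (`algebraRat.charZero Ω` gives `CharZero Ω`) -/
theorem case1 {Ω : Type*} [Field Ω] [Algebra ℚ Ω] (f : Fr ν Ω) {I : Matrix ν ν ℝ} (hI : I * I = -1)
    {n : ℕ} {l : Fin n → ℝ} {X : Fin n → Matrix ν ν ℚ}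
    (hIX : I = ∑ i, l i • (X i).map (algebraMap ℚ ℝ))
    (hX : ∀ i, (X i).map (algebraMap ℚ Ω) ∈ f.m) {g : Matrix ν ν Ω}
    (hg : ∀ P ∈ mtEqns I, evalM g P = 0) : ∃ a, g = f.T a := by
  have : CharZero Ω := algebraRat.charZero Ω
  refine f.eq_T (f.rk_of_comm fun s => ?_)
  refine comm_desc (fun i => X i ⊗ₖ (1 : Matrix ν ν ℚ) + (1 : Matrix ν ν ℚ) ⊗ₖ X i)
    (fun i => ?_) fun c hc => comm_of_mt hI ?_ hg
  · rw [mxc1_map]
    exact f.W_comm (hX i) s
  · have h1 : I ⊗ₖ (1 : Matrix ν ν ℝ) + (1 : Matrix ν ν ℝ) ⊗ₖ I = ∑ i, l i •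
        (X i ⊗ₖ (1 : Matrix ν ν ℚ) + (1 : Matrix ν ν ℚ) ⊗ₖ X i).map (algebraMap ℚ ℝ) := by
      simp only [mxc1_map]
      rw [hIX]
      ext p q
      simp only [Matrix.add_apply, Matrix.kroneckerMap_apply, Matrix.sum_apply, Matrix.smul_apply,
        smul_eq_mul, Finset.sum_mul, Finset.mul_sum, ← Finset.sum_add_distrib]
      exact Finset.sum_congr rfl fun i _ => by ring
    rw [h1, Finset.sum_mul, Finset.mul_sum]
    refine Finset.sum_congr rfl fun i _ => ?_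
    rw [Matrix.smul_mul, Matrix.mul_smul, ← Matrix.map_mul, ← Matrix.map_mul, hc i]

end

end Pool.Agent.M4.Mx
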