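import Pool.Agent.Lib.MP_33b3f9_ag.M4.MxDefs

open Matrix Function
open scoped Kronecker

namespace Pool.Agent.M4.Mx

open Pool.Agent.Lib.MP_33b3f9_ag

noncomputable section

variable {ν : Type} [Fintype ν] [DecidableEq ν] {Ω : Type*} [Field Ω] [CharZero Ω]

omit [CharZero Ω] in
lemma mxCube_ind (p : M2 Ω → Prop) (hm : ∀ x y, p x → p y → p (x * y))
    (h1 : ∀ c : Ω, p (1 + c • bas Ω 1)) (h2 : ∀ c : Ω, p (1 + c • bas Ω 2)) (a : M2 Ω)
    (ha : a.det = 1) : p a := by
  have key : ∀ a : M2 Ω, a.det = 1 → a 1 0 ≠ 0 → p a := fun a ha hc => by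
    have e : a = (1 + ((a 0 0 - 1) / a 1 0) • bas Ω 1) * (1 + a 1 0 • bas Ω 2) *
        (1 + ((a 1 1 - 1) / a 1 0) • bas Ω 1) := by
      rw [det_fin_two] at ha
      ext i j
      fin_cases i <;> fin_cases j <;> simp [bas, Matrix.mul_apply, Fin.sum_univ_two] <;>
        field_simp
      · ring
      · linear_combination -ha
      · ring
    rw [e]
    exact hm _ _ (hm _ _ (h1 _) (h2 _)) (h1 _)
  by_cases hc : a 1 0 = 0
  · have e : a = (1 + (-1 : Ω) • bas Ω 2) * ((1 + bas Ω 2) * a) := by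
      rw [← mul_assoc, neg_one_smul, add_mul, one_mul, neg_mul, mul_add, mul_one, bas_sq2]
      simp
    rw [e]
    refine hm _ _ (h2 _) (key _ ?_ ?_)
    · rw [det_mul, ha, det_fin_two]
      simp [bas]
    · rw [det_fin_two, hc, mul_zero, sub_zero] at ha
      simpa [bas, Matrix.mul_apply, Fin.sum_univ_two, hc] using left_ne_zero_of_mul_eq_one ha
  · exact key a ha hc

omit [CharZero Ω] in
lemma mxCube_det_nil {N : Matrix ν ν Ω} (h : N * N = 0) (c : Ω) : (1 + c • N).det = 1 := by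
  have h1 : IsNilpotent (-(c • N)) := ⟨2, by
    rw [neg_sq, sq, smul_mul_smul_comm, h, smul_zero]⟩
  have h2 := sub_eq_zero.1 (Matrix.isNilpotent_charpoly_sub_pow_of_isNilpotent h1).eq_zero
  have h3 := Matrix.eval_charpoly (-(c • N)) 1
  rw [h2, map_one, sub_neg_eq_add] at h3
  simpa using h3.symm

omit [CharZero Ω] in
lemma mxCube_det_u (f : Fr ν Ω) (s : Fin 3) (a : M2 Ω) (ha : a.det = 1) : (f.u s a).det = 1 := by
  refine mxCube_ind (fun x => (f.u s x).det = 1) (fun x y hx hy => ?_) (fun c => ?_) (fun c => ?_)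
    a ha
  · rw [map_mul, det_mul, hx, hy, one_mul]
  · rw [map_add, map_one, map_smul]
    exact mxCube_det_nil (by rw [← map_mul, bas_sq1, map_zero]) c
  · rw [map_add, map_one, map_smul]
    exact mxCube_det_nil (by rw [← map_mul, bas_sq2, map_zero]) c

omit [CharZero Ω] in
lemma mxCube_nontrivial (f : Fr ν Ω) : Nontrivial (Matrix ν ν Ω) := by
  refine ⟨1, 0, fun h => ?_⟩
  have h1 := f.QTP 1
  rw [f.T_one, h, Matrix.mul_zero, Matrix.zero_mul, tp_one] at h1
  exact zero_ne_one h1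

omit [CharZero Ω] in
lemma mxCube_det_ne (f : Fr ν Ω) (s : Fin 3) (a : M2 Ω) (ha : (f.u s a).det ≠ 0) : a.det ≠ 0 := by
  intro h
  have := mxCube_nontrivial f
  have hu : IsUnit (f.u s a) := (Matrix.isUnit_iff_isUnit_det _).2 ha.isUnit
  have h1 : f.u s a * f.u s a.adjugate = 0 := by
    rw [← map_mul, mul_adjugate, h, zero_smul, map_zero]
  have h2 : a.adjugate = 0 := (f.u s : M2 Ω →+* Matrix ν ν Ω).injective
    ((hu.mul_right_eq_zero.1 h1).trans (map_zero _).symm)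
  have h3 : a = 0 := by
    rw [adjugate_fin_two] at h2
    have h4 := fun i j => congrFun (congrFun h2 i) j
    ext i j
    fin_cases i <;> fin_cases j
    · simpa using h4 1 1
    · simpa using h4 0 1
    · simpa using h4 1 0
    · simpa using h4 0 0
  rw [h3, map_zero] at hu
  exact not_isUnit_zero hu

/-- `tng_exp` gives `u s (1 + c e)`, `u s (1 + c f)` in the closure, which is a monoid (`mcl_mul`);
a matrix `(a b; c d)` of determinant one with `c ≠ 0` is
`(1, (a-1)/c; 0, 1) (1, 0; c, 1) (1, (d-1)/c; 0, 1)`; for `c = 0` multiply by `(1, 0; 1, 1)` first;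
`T_eq`. -/
theorem Fr.sl_mcl (f : Fr ν Ω) (T : Submonoid (Matrix ν ν Ω))
    (h1 : ∀ s, f.u s (bas Ω 1) ∈ tng T ∧ f.u s (bas Ω 2) ∈ tng T) (a : Fin 3 → M2 Ω)
    (ha : ∀ s, (a s).det = 1) : f.T a ∈ mcl (T : Set (Matrix ν ν Ω)) := by
  have hT : ∀ h ∈ (T : Set (Matrix ν ν Ω)), ∀ h' ∈ (T : Set (Matrix ν ν Ω)),
      h * h' ∈ (T : Set (Matrix ν ν Ω)) := fun _ h _ h' => T.mul_mem h h'
  have hu : ∀ s, f.u s (a s) ∈ mcl (T : Set (Matrix ν ν Ω)) := fun s => by
    refine mxCube_ind (fun x => f.u s x ∈ mcl (T : Set (Matrix ν ν Ω))) (fun x y hx hy => ?_)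
      (fun c => ?_) (fun c => ?_) _ (ha s)
    · rw [map_mul]
      exact mcl_mul hT hx hy
    · rw [map_add, map_one, map_smul]
      exact tng_exp (h1 s).1 (by rw [← map_mul, bas_sq1, map_zero]) c
    · rw [map_add, map_one, map_smul]
      exact tng_exp (h1 s).2 (by rw [← map_mul, bas_sq2, map_zero]) c
  rw [f.T_eq]
  exact mcl_mul hT (mcl_mul hT (hu 0) (hu 1)) (hu 2)

/-- If `det (T a) ≠ 0` then all `det (a s) ≠ 0` (`T_eq`: `u s (a s)` is a unit; if
`det (a s) = 0` then `a s * adjugate = 0` or `a s = 0` gives a contradiction), so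
`T a = c • T a'` with `det (a' s) = 1` (square roots, `T_smul`), `c ≠ 0`. -/
theorem Fr.T_split [IsAlgClosed Ω] (f : Fr ν Ω) (a : Fin 3 → M2 Ω) (ha : (f.T a).det ≠ 0) :
    ∃ (c : Ω) (a' : Fin 3 → M2 Ω), (∀ s, (a' s).det = 1) ∧ f.T a = c • f.T a' := by
  have hd : ∀ s, (a s).det ≠ 0 := fun s => by
    rw [f.T_eq, det_mul, det_mul] at ha
    refine mxCube_det_ne f s _ ?_
    fin_cases s
    · exact left_ne_zero_of_mul (left_ne_zero_of_mul ha)
    · exact right_ne_zero_of_mul (left_ne_zero_of_mul ha)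
    · exact right_ne_zero_of_mul ha
  choose r hr using fun s => IsAlgClosed.exists_pow_nat_eq (a s).det two_pos
  have h0 : ∀ s, r s ≠ 0 := fun s h => hd s (by rw [← hr, h, zero_pow two_ne_zero])
  refine ⟨∏ s, r s, fun s => (r s)⁻¹ • a s, fun s => ?_, ?_⟩
  · rw [det_smul, Fintype.card_fin, inv_pow, hr, inv_mul_cancel₀ (hd s)]
  · rw [← f.T_smul]
    congr 1
    funext s
    rw [smul_inv_smul₀ (h0 s)]

/-- For `t = c • T a'` in `T`: `c • 1 = t * T (adjugate a')` is in the closure and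
`det t = c ^ card ν * det (T a')`, where `det (T a') = 1` (a product of unipotents; or only use that
`det (T a')` takes the value `1`: `SL2` is generated by elementary matrices, `det (1 + N) = 1` for
`N * N = 0`). So infinitely many scalars, then all (`mcl_curve`). -/
theorem Fr.cube_mcl [IsAlgClosed Ω] (f : Fr ν Ω) (T : Submonoid (Matrix ν ν Ω))
    (h1 : ∀ s, f.u s (bas Ω 1) ∈ tng T ∧ f.u s (bas Ω 2) ∈ tng T)
    (h2 : ∀ t ∈ T, t.det ≠ 0 ∧ ∃ a, t = f.T a) (h3 : (Matrix.det '' (T : Set (Matrix ν ν Ω))).Infinite)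
    (a : Fin 3 → M2 Ω) (ha : (f.T a).det ≠ 0) : f.T a ∈ mcl (T : Set (Matrix ν ν Ω)) := by
  have hT : ∀ h ∈ (T : Set (Matrix ν ν Ω)), ∀ h' ∈ (T : Set (Matrix ν ν Ω)),
      h * h' ∈ (T : Set (Matrix ν ν Ω)) := fun _ h _ h' => T.mul_mem h h'
  have hS : {c : Ω | c • (1 : Matrix ν ν Ω) ∈ mcl (T : Set (Matrix ν ν Ω))}.Infinite := by
    refine Set.Infinite.of_image (fun c => c ^ Fintype.card ν) (h3.mono ?_)
    rintro _ ⟨t, ht, rfl⟩
    obtain ⟨hd, b, rfl⟩ := h2 t ht
    obtain ⟨c, b', hb, e⟩ := f.T_split b hd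
    refine ⟨c, ?_, ?_⟩
    · have h4 := mcl_mul hT (subset_mcl _ ht) (f.sl_mcl T h1 (fun s => (b' s).adjugate) fun s => by
        rw [det_adjugate, hb, one_pow])
      have h5 : (b' * fun s => (b' s).adjugate) = 1 := funext fun s => by
        rw [Pi.mul_apply, mul_adjugate, hb, one_smul, Pi.one_apply]
      rwa [e, smul_mul_assoc, f.T_mul, h5, f.T_one] at h4
    · rw [e, det_smul, f.T_eq, det_mul, det_mul, mxCube_det_u f _ _ (hb 0),
        mxCube_det_u f _ _ (hb 1), mxCube_det_u f _ _ (hb 2), mul_one, mul_one, mul_one]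
  have hγ : ∀ t : Ω, ((Polynomial.X : Polynomial Ω) • (1 : Matrix ν ν (Polynomial Ω))).map
      (Polynomial.eval t) = t • (1 : Matrix ν ν Ω) := fun t => by
    ext i j
    by_cases h : i = j <;> simp [h]
  obtain ⟨c, a', ha', e⟩ := f.T_split a ha
  have h6 := mcl_curve (T : Set (Matrix ν ν Ω))
    ((Polynomial.X : Polynomial Ω) • (1 : Matrix ν ν (Polynomial Ω))) _ hS
    (fun t ht => by rw [hγ]; exact ht) c
  rw [hγ] at h6
  have h7 := mcl_mul hT h6 (f.sl_mcl T h1 a' ha')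
  rwa [smul_mul_assoc, one_mul, ← e] at h7

end

end Pool.Agent.M4.Mx
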