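import Pool.Agent.Lib.MP_33b3f9_ag.M4.MxDefs

open Matrix Function
open scoped Kronecker

namespace Pool.Agent.M4.Mx

open Pool.Agent.Lib.MP_33b3f9_ag

noncomputable section

theorem mxcyc_aux {K L M ι : Type} [Field K] [Field L] [Field M] [Algebra K L] [Algebra K M]
    [IsAlgClosed L] [IsAlgClosed M] {v : ι → L} {w : ι → M} (hv : IsTranscendenceBasis K v)
    (hw : IsTranscendenceBasis K w) :
    ∃ τ : L ≃+* M, ∀ x : K, τ (algebraMap K L x) = algebraMap K M x := by
  have := IsAlgClosed.isAlgClosure_of_transcendence_basis v hv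
  have := IsAlgClosed.isAlgClosure_of_transcendence_basis w hw
  let e := hv.1.aevalEquiv.symm.trans hw.1.aevalEquiv
  refine ⟨IsAlgClosure.equivOfEquiv L M e.toRingEquiv, fun x => ?_⟩
  rw [IsScalarTower.algebraMap_apply K (Algebra.adjoin K (Set.range v)) L,
    IsAlgClosure.equivOfEquiv_algebraMap,
    IsScalarTower.algebraMap_apply K (Algebra.adjoin K (Set.range w)) M]
  exact congrArg _ (e.commutes x)

theorem mxcyc_basis {K E L ι : Type} [Field K] [Field E] [Field L] [Algebra K E] [Algebra K L]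
    [Algebra.IsAlgebraic K E] (φ : E →ₐ[K] L) {v : ι → L} (hv : IsTranscendenceBasis K v) :
    @IsTranscendenceBasis ι E L _ _ φ.toRingHom.toAlgebra v := by
  let := φ.toRingHom.toAlgebra
  have : IsScalarTower K E L := IsScalarTower.of_algebraMap_eq fun x => (φ.commutes x).symm
  exact (Algebra.IsAlgebraic.isTranscendenceBasis_iff K E).1 hv

theorem mxcyc_deg (K : IntermediateField ℚ ℂ) [FiniteDimensional ℚ K] {x : ℂ}
    (hx : IsIntegral K x) :
    (minpoly ℚ x).natDegree ≤ Module.finrank ℚ K * (minpoly K x).natDegree := by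
  have : FiniteDimensional K (IntermediateField.adjoin K {x}) :=
    IntermediateField.adjoin.finiteDimensional hx
  have : FiniteDimensional ℚ (IntermediateField.adjoin K {x}) := Module.Finite.trans K _
  rw [← IntermediateField.adjoin.finrank hx, Module.finrank_mul_finrank]
  have h := minpoly.natDegree_le (A := ℚ) (IntermediateField.AdjoinSimple.gen K x)
  rwa [← minpoly.algebraMap_eq (algebraMap (IntermediateField.adjoin K {x}) ℂ).injective] at h

/-- A root of the minimal polynomial of an algebraic `x` over `K` is the image of `x` under an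
automorphism of `ℂ` over `K` (extend an embedding `K(x) → ℂ` over a transcendence basis;
`IsAlgClosed.lift`, `IsAlgClosure.equivOfEquiv`; grep the team library for this lemma first). -/
theorem exists_aut (K : IntermediateField ℚ ℂ) [FiniteDimensional ℚ K] {x y : ℂ}
    (hx : IsIntegral K x) (hy : Polynomial.aeval y (minpoly K x) = 0) :
    ∃ σ : ℂ ≃ₐ[K] ℂ, σ x = y := by
  obtain ⟨B, hB⟩ := exists_isTranscendenceBasis K ℂ
  have hy' : IsAlgebraic K y := ⟨minpoly K x, minpoly.ne_zero hx, hy⟩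
  let f := minpoly.algEquiv hx.isAlgebraic (minpoly.eq_of_root hx.isAlgebraic hy).symm
  let φ : IntermediateField.adjoin K {x} →ₐ[K] ℂ :=
    (IntermediateField.adjoin K {y}).val.comp f.toAlgHom
  have : FiniteDimensional K (IntermediateField.adjoin K {x}) :=
    IntermediateField.adjoin.finiteDimensional hx
  obtain ⟨τ, hτ⟩ := @mxcyc_aux (IntermediateField.adjoin K {x}) ℂ ℂ B _ _ _ _
    φ.toRingHom.toAlgebra _ _ _ _ ((Algebra.IsAlgebraic.isTranscendenceBasis_iff K _).1 hB)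
    (mxcyc_basis φ hB)
  refine ⟨AlgEquiv.ofRingEquiv (f := τ) fun k => ?_, ?_⟩
  · exact (hτ (algebraMap K _ k)).trans (φ.commutes k)
  · refine (hτ (IntermediateField.AdjoinSimple.gen K x)).trans ?_
    change ((f (IntermediateField.AdjoinSimple.gen K x) : IntermediateField.adjoin K {y}) : ℂ) = y
    rw [minpoly.algEquiv_apply]
    rfl

/-- Suppose the image is finite; then `U' = U ⊓ ker d` has finite index `N`. For `ζ` a primitive
`ℓ^n`-th root of unity and `σ ∈ U'`, `σ ζ = ζ^c` with `c^8 = 1` in the cyclic group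
`(ZMod (ℓ^n))ˣ`, at most 8 values, so the orbit of `ζ` under the whole group has at most `8 N`
elements; it contains all roots of `minpoly K ζ` (`exists_aut`, separable), whose degree times
`[K:ℚ]` is at least `φ(ℓ^n)`. -/
theorem det_infinite (K : IntermediateField ℚ ℂ) [FiniteDimensional ℚ K] {ℓ : ℕ} [Fact ℓ.Prime]
    (hℓ : 2 < ℓ) {G : Type*} [CommGroup G] (d : (ℂ ≃ₐ[K] ℂ) →* G)
    (hd : ∀ σ, d σ = 1 → ∀ (n c : ℕ) (ζ : ℂ), IsPrimitiveRoot ζ (ℓ ^ n) → σ ζ = ζ ^ c →
      c ^ 8 ≡ 1 [MOD ℓ ^ n])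
    (U : Subgroup (ℂ ≃ₐ[K] ℂ)) [U.FiniteIndex] : (d '' U).Infinite := by
  classical
  intro hfin
  have hp : ℓ.Prime := Fact.out
  have hU : (d.ker ⊓ U).FiniteIndex := by
    have : Finite (U.map d) := hfin.to_subtype
    refine ⟨?_⟩
    rw [← Subgroup.relIndex_mul_index inf_le_right, Subgroup.inf_relIndex_right,
      Subgroup.relIndex_ker]
    exact mul_ne_zero Nat.card_pos.ne' Subgroup.FiniteIndex.index_ne_zero
  have := Fintype.ofFinite ((ℂ ≃ₐ[K] ℂ) ⧸ (d.ker ⊓ U))
  obtain ⟨n, hn⟩ : ∃ n, n = Module.finrank ℚ K *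
    (Fintype.card ((ℂ ≃ₐ[K] ℂ) ⧸ (d.ker ⊓ U)) * 8) := ⟨_, rfl⟩
  have h0 : 0 < ℓ ^ (n + 1) := pow_pos hp.pos _
  have : NeZero (ℓ ^ (n + 1)) := ⟨h0.ne'⟩
  have hζ := Complex.isPrimitiveRoot_exp _ h0.ne'
  generalize Complex.exp _ = ζ at hζ
  have hi : IsIntegral K ζ := (hζ.isIntegral h0).tower_top
  have := ZMod.isCyclic_units_of_prime_pow ℓ hp hℓ.ne' (n + 1)
  have h1 : ((minpoly K ζ).rootSet ℂ).toFinset ⊆
      (Finset.univ ×ˢ Finset.univ.filter fun u : (ZMod (ℓ ^ (n + 1)))ˣ => u ^ 8 = 1).image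
        fun q : ((ℂ ≃ₐ[K] ℂ) ⧸ (d.ker ⊓ U)) × (ZMod (ℓ ^ (n + 1)))ˣ =>
          q.1.out (ζ ^ (q.2 : ZMod (ℓ ^ (n + 1))).val) := by
    intro y hy
    obtain ⟨σ, rfl⟩ := exists_aut K hi
      (Polynomial.aeval_eq_zero_of_mem_rootSet (Set.mem_toFinset.1 hy))
    obtain ⟨τ, hτ⟩ := QuotientGroup.mk_out_eq_mul (d.ker ⊓ U) σ
    obtain ⟨c, hc, e⟩ := hζ.eq_pow_of_pow_eq_one (ξ := (τ⁻¹ : (d.ker ⊓ U : Subgroup _)).1 ζ)
      (by rw [← map_pow, hζ.pow_eq_one, map_one])
    have h8 : (c : ZMod (ℓ ^ (n + 1))) ^ 8 = 1 := by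
      have k := (ZMod.natCast_eq_natCast_iff _ _ _).2 (hd _ τ⁻¹.2.1 _ c ζ hζ e.symm)
      rwa [Nat.cast_pow, Nat.cast_one] at k
    refine Finset.mem_image.2 ⟨(σ, Units.ofPowEqOne _ 8 h8 (by norm_num)), ?_, ?_⟩
    · simp
    · simp only [Units.val_ofPowEqOne, ZMod.val_natCast_of_lt hc, e, hτ]
      simp
  have h2 : (minpoly K ζ).natDegree ≤ Fintype.card ((ℂ ≃ₐ[K] ℂ) ⧸ (d.ker ⊓ U)) * 8 := by
    rw [← Polynomial.card_rootSet_eq_natDegree (K := ℂ) (minpoly.irreducible hi).separable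
      (IsAlgClosed.splits _), ← Set.toFinset_card]
    refine (Finset.card_le_card h1).trans (Finset.card_image_le.trans ?_)
    rw [Finset.card_product, Finset.card_univ]
    exact Nat.mul_le_mul_left _ (IsCyclic.card_pow_eq_one_le (by norm_num))
  have h3 := (mxcyc_deg K hi).trans (Nat.mul_le_mul_left _ h2)
  rw [← hn, ← Polynomial.cyclotomic_eq_minpoly_rat hζ h0, Polynomial.natDegree_cyclotomic,
    Nat.totient_prime_pow_succ hp] at h3
  exact absurd ((Nat.le_mul_of_pos_right _ (by omega)).trans h3)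
    (not_le.2 (Nat.lt_pow_self hp.one_lt))

end

end Pool.Agent.M4.Mx
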