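import Pool.Agent.Lib.MP_33b3f9_ag.M4.MxT
import Pool.Agent.Lib.MP_33b3f9_ag.IgExp
import Pool.Agent.Lib.MP_33b3f9_ag.IgBr
import Pool.Agent.Lib.MP_33b3f9_ag.MT

open Matrix Function
open scoped Kronecker

namespace Pool.Agent.M4.Mx

open Pool.Agent.Lib.MP_33b3f9_ag

noncomputable section

variable {ν : Type} [Fintype ν] [DecidableEq ν]

/-- the Hodge structure `I` is generic for the form `J` -/
def GEN (J : Matrix ν ν ℚ) (I : Matrix ν ν ℝ) : Prop :=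
  ∀ g : Matrix ν ν ℚ, gᵀ * J * g = J → ∀ P ∈ mtEqns I, evalM g P = 0

/-- the permutation matrix that exchanges the slots `s` of two tensor cubes -/
def sw (R : Type*) [CommRing R] (s : Fin 3) : Matrix (κ × κ) (κ × κ) R :=
  Matrix.of fun p q => if q = (update p.1 s (p.2 s), update p.2 s (p.1 s)) then 1 else 0

/-- the partial swap in a frame -/
def Fr.W {R : Type*} [CommRing R] (f : Fr ν R) (s : Fin 3) : Matrix (ν × ν) (ν × ν) R :=
  (f.P ⊗ₖ f.P) * sw R s * (f.Q ⊗ₖ f.Q)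

/-- the points of the Mumford-Tate group as a set of matrices -/
def mtSet (Ω : Type*) [Field Ω] [Algebra ℚ Ω] (I : Matrix ν ν ℝ) : Set (Matrix ν ν Ω) :=
  {g | g.det ≠ 0 ∧ ∀ P ∈ mtEqns I, evalM g P = 0}

/-- an algebraic closure of `ℚ_ℓ`, with the norm of `PadicAlgCl ℓ` -/
abbrev Om (ℓ : ℕ) [Fact ℓ.Prime] : Type := AlgebraicClosure ℚ_[ℓ]

/-- the map `ℤ_ℓ → Om ℓ` -/
def toOm (ℓ : ℕ) [Fact ℓ.Prime] : ℤ_[ℓ] →+* Om ℓ :=
  (algebraMap ℚ_[ℓ] (Om ℓ)).comp PadicInt.Coe.ringHom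

/-- the image of a subgroup as a monoid of matrices over `Om ℓ` -/
def imU {Γ : Type} [Group Γ] {ℓ : ℕ} [Fact ℓ.Prime] (ρ : Γ →* GL ν ℤ_[ℓ]) (U : Subgroup Γ) :
    Submonoid (Matrix ν ν (Om ℓ)) where
  carrier := {t | ∃ σ ∈ U, t = (ρ σ : Matrix ν ν ℤ_[ℓ]).map (toOm ℓ)}
  one_mem' := ⟨1, U.one_mem, by
    rw [map_one, Units.val_one, Matrix.map_one _ (map_zero _) (map_one _)]⟩
  mul_mem' := by
    rintro _ _ ⟨σ, hσ, rfl⟩ ⟨τ, hτ, rfl⟩
    exact ⟨σ * τ, U.mul_mem hσ hτ, by rw [map_mul, Units.val_mul, Matrix.map_mul]⟩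

/-- six times the truncated logarithm of `1 + A` -/
def lg {A : Type*} [Ring A] (a : A) : A := 6 * a - 3 * a ^ 2 + 2 * a ^ 3

end

end Pool.Agent.M4.Mx
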