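import Pool.Agent.Lib.MP_33b3f9_ag.M4.MxDefs

open Matrix Function
open scoped Kronecker

namespace Pool.Agent.M4.Mx

open Pool.Agent.Lib.MP_33b3f9_ag

noncomputable section

variable {ν : Type} [Fintype ν] [DecidableEq ν]

section
open scoped TensorProduct

theorem mxGeo_red (F K Ω : Type) [Field F] [CharZero F] [Field K] [Algebra F K] [Field Ω]
    [Algebra F Ω] [Algebra.IsAlgebraic F Ω] : IsReduced (K ⊗[F] Ω) := by
  refine IsReduced.tensorProduct_of_flat_of_forall_fg fun S hS => ?_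
  have hf : IsField S := Subalgebra.isField_of_algebraic S
  let : Field S := hf.toField
  have : Algebra.FiniteType F S := ⟨(Subalgebra.fg_top S).2 hS⟩
  have : Algebra.IsAlgebraic F S := Algebra.IsAlgebraic.of_injective S.val Subtype.val_injective
  have : Algebra.IsSeparable F S := inferInstance
  have : Algebra.FormallyUnramified F S := Algebra.FormallyUnramified.of_isSeparable F S
  exact Algebra.FormallyUnramified.isReduced_of_field K (K ⊗[F] S)

theorem mxGeo_pt (Ω A : Type) [Field Ω] [IsAlgClosed Ω] [CommRing A] [Algebra Ω A]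
    [Algebra.FiniteType Ω A] [IsReduced A] {d : A} (hd : d ≠ 0) : ∃ x : A →ₐ[Ω] Ω, x d ≠ 0 := by
  have : IsJacobsonRing A := isJacobsonRing_of_finiteType (A := Ω)
  have h1 : d ∉ (⊥ : Ideal A).jacobson := by
    rw [← Ideal.radical_eq_jacobson]
    intro h
    exact hd (IsNilpotent.eq_zero (mem_nilradical.1 h))
  obtain ⟨m, ⟨-, hm⟩, hdm⟩ : ∃ m : Ideal A, (⊥ ≤ m ∧ m.IsMaximal) ∧ d ∉ m := by
    by_contra hc
    push Not at hc
    exact h1 (Ideal.mem_sInf.2 fun {I} hI => hc I hI)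
  let : Field (A ⧸ m) := Ideal.Quotient.field m
  have : Module.Finite Ω (A ⧸ m) := finite_of_finite_type_of_isJacobsonRing Ω (A ⧸ m)
  have hb : Function.Bijective (algebraMap Ω (A ⧸ m)) :=
    IsAlgClosed.algebraMap_bijective_of_isIntegral
  let e : Ω ≃ₐ[Ω] (A ⧸ m) := AlgEquiv.ofBijective (Algebra.ofId Ω (A ⧸ m)) hb
  refine ⟨(e.symm : (A ⧸ m) →ₐ[Ω] Ω).comp (Ideal.Quotient.mkₐ Ω m), fun h => hdm ?_⟩
  have h2 : e.symm (Ideal.Quotient.mk m d) = 0 := h
  rw [map_eq_zero_iff _ e.symm.injective] at h2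
  exact Ideal.Quotient.eq_zero_iff_mem.1 h2

theorem mxGeo_det (Ω : Type) [Field Ω] {X : Type} {s : ℕ} (v : X → Fin s → Ω)
    (h : ∀ c : Fin s → Ω, (∀ x, ∑ i, c i * v x i = 0) → c = 0) :
    ∃ x : Fin s → X, (Matrix.of fun a i => v (x a) i).det ≠ 0 := by
  classical
  have htop : Submodule.span Ω (Set.range v) = ⊤ := by
    by_contra hne
    obtain ⟨φ, hφ, hk⟩ := Submodule.exists_le_ker_of_lt_top _ (lt_top_iff_ne_top.2 hne)
    have hφ' : ∀ w : Fin s → Ω, φ w = ∑ i, φ (Pi.single i 1) * w i := by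
      intro w
      conv_lhs => rw [← Finset.univ_sum_single w]
      rw [map_sum]
      refine Finset.sum_congr rfl fun i _ => ?_
      have : (Pi.single i (w i) : Fin s → Ω) = w i • Pi.single i 1 := by
        ext j
        by_cases hj : j = i
        · subst hj; simp
        · simp [hj]
      rw [this, map_smul, smul_eq_mul, mul_comm]
    have h0 := h (fun i => φ (Pi.single i 1)) fun x => by
      rw [← hφ']
      exact hk (Submodule.subset_span ⟨x, rfl⟩)
    apply hφ
    refine LinearMap.ext fun w => ?_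
    rw [hφ']
    refine Finset.sum_eq_zero fun i _ => ?_
    have := congrFun h0 i
    simp only [Pi.zero_apply] at this
    rw [this, zero_mul]
  obtain ⟨κ, a, -, hsp, hli⟩ := exists_linearIndependent' Ω v
  rw [htop] at hsp
  let bs : Module.Basis κ Ω (Fin s → Ω) := Module.Basis.mk hli hsp.ge
  let e : Fin s ≃ κ := (Pi.basisFun Ω (Fin s)).indexEquiv bs
  refine ⟨fun i => a (e i), ?_⟩
  have hli2 : LinearIndependent Ω (Matrix.of fun b i => v (a (e b)) i).row :=
    hli.comp e e.injective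
  exact ((Matrix.isUnit_iff_isUnit_det _).1 (Matrix.linearIndependent_rows_iff_isUnit.1 hli2)).ne_zero

theorem mxGeo_points (F K Ω : Type) [Field F] [CharZero F] [Field K] [Algebra F K] [Field Ω]
    [Algebra F Ω] [Algebra.IsAlgebraic F Ω] [IsAlgClosed Ω] (R : Subalgebra F K) (hR : R.FG)
    {s : ℕ} (l : Fin s → R) (hl : LinearIndependent F l) :
    ∃ x : Fin s → R →ₐ[F] Ω, (Matrix.of fun a i => x a (l i)).det ≠ 0 := by
  have : Algebra.FiniteType F R := ⟨(Subalgebra.fg_top R).2 hR⟩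
  have : IsReduced (K ⊗[F] Ω) := mxGeo_red F K Ω
  have : IsReduced (Ω ⊗[F] K) :=
    isReduced_of_injective (Algebra.TensorProduct.comm F Ω K) (AlgEquiv.injective _)
  have hinj : Function.Injective (Algebra.TensorProduct.map (AlgHom.id F Ω) R.val) :=
    Module.Flat.lTensor_preserves_injective_linearMap (M := Ω) R.val.toLinearMap
      Subtype.val_injective
  have : IsReduced (Ω ⊗[F] R) := isReduced_of_injective _ hinj
  refine mxGeo_det Ω (fun (x : R →ₐ[F] Ω) i => x (l i)) fun c hc => ?_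
  have hli := Module.Flat.linearIndependent_one_tmul (S := Ω) hl
  rw [Fintype.linearIndependent_iff] at hli
  refine funext (hli c ?_)
  by_contra hd
  obtain ⟨y, hy⟩ := mxGeo_pt Ω (Ω ⊗[F] R) hd
  apply hy
  rw [map_sum, ← hc ((y.restrictScalars F).comp Algebra.TensorProduct.includeRight)]
  refine Finset.sum_congr rfl fun i _ => ?_
  rw [map_smul, smul_eq_mul]
  rfl

end

omit [Fintype ν] [DecidableEq ν] in
theorem mxGeo_ev {R R' : Type} [CommRing R] [Algebra ℚ R] [CommRing R'] [Algebra ℚ R']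
    (φ : R →ₐ[ℚ] R') (m : Matrix ν ν R) (P : MvPolynomial (ν × ν) ℚ) :
    φ (MvPolynomial.aeval (fun p : ν × ν => m p.1 p.2) P) =
      MvPolynomial.aeval (fun p : ν × ν => m.map φ p.1 p.2) P :=
  MvPolynomial.comp_aeval_apply _ φ P

/-- Rational components. `A` is generated by the entries of `I`; `l` is a basis of the `ℚ`-span of
the entries; `geo_points` (copy `geo_red`, `geo_pt`, `geo_det`, `geo_points` from
`Lib/MP_4287a9_ag/WGeo`, Mathlib only) with `Ω = AlgebraicClosure ℚ`, composed with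
`IsAlgClosed.lift`, gives points `x a : A → Ω` with `det (x a (l i)) ≠ 0`, and
`I'.map (x a) = ∑ i, x a (l i) • X i`; invert. -/
theorem comps (Ω : Type) [Field Ω] [Algebra ℚ Ω] [IsAlgClosed Ω] (I : Matrix ν ν ℝ) :
    ∃ (A : Subalgebra ℚ ℝ) (I' : Matrix ν ν A) (n : ℕ) (l : Fin n → ℝ) (X : Fin n → Matrix ν ν ℚ),
      I'.map A.val = I ∧ I = ∑ i, l i • (X i).map (algebraMap ℚ ℝ) ∧
      ∀ i, (X i).map (algebraMap ℚ Ω) ∈
        Submodule.span Ω (Set.range fun φ : A →ₐ[ℚ] Ω => I'.map φ) := by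
  let V : Submodule ℚ ℝ := Submodule.span ℚ (Set.range fun p : ν × ν => I p.1 p.2)
  let A : Subalgebra ℚ ℝ := Algebra.adjoin ℚ (Set.range fun p : ν × ν => I p.1 p.2)
  have : FiniteDimensional ℚ V := FiniteDimensional.span_of_finite ℚ (Set.finite_range _)
  have hV : ∀ p q, I p q ∈ V := fun p q => Submodule.subset_span ⟨(p, q), rfl⟩
  have hVA : ∀ z : V, z.1 ∈ A := fun z => Algebra.span_le_adjoin ℚ _ z.2
  let b := Module.finBasis ℚ V
  let l : Fin (Module.finrank ℚ V) → A := fun i => ⟨b i, hVA _⟩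
  let X : Fin (Module.finrank ℚ V) → Matrix ν ν ℚ := fun i => of fun p q => b.repr ⟨_, hV p q⟩ i
  let I' : Matrix ν ν A := of fun p q => ⟨I p q, hVA ⟨_, hV p q⟩⟩
  have hI : ∀ {R : Type} [CommRing R] [Algebra ℚ R] (φ : A →ₐ[ℚ] R),
      I'.map φ = ∑ i, φ (l i) • (X i).map (algebraMap ℚ R) := by
    intro R _ _ φ
    ext p q
    have h1 : I' p q = ∑ i, X i p q • l i := by
      have h := congrArg V.subtype (b.sum_repr ⟨_, hV p q⟩)
      rw [map_sum] at h
      refine Subtype.ext (h.symm.trans ?_)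
      exact (map_sum A.val (fun i => X i p q • l i) Finset.univ).symm
    rw [map_apply, h1, map_sum, Matrix.sum_apply]
    refine Finset.sum_congr rfl fun i _ => ?_
    rw [map_smul, Matrix.smul_apply, map_apply, smul_eq_mul, Algebra.smul_def, mul_comm]
  have : Algebra.IsAlgebraic ℚ (AlgebraicClosure ℚ) := AlgebraicClosure.isAlgebraic ℚ
  obtain ⟨x, hx⟩ := mxGeo_points ℚ ℝ (AlgebraicClosure ℚ) A
    (Subalgebra.fg_def.2 ⟨_, Set.finite_range _, rfl⟩) l
    (LinearIndependent.of_comp A.val.toLinearMap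
      (b.linearIndependent.map' V.subtype V.ker_subtype))
  let j : AlgebraicClosure ℚ →ₐ[ℚ] Ω := IsAlgClosed.lift
  let M : Matrix _ _ Ω := of fun a i => j (x a (l i))
  have hM : IsUnit M.det := by
    have h1 := j.toRingHom.map_det (of fun a i => x a (l i))
    exact Ne.isUnit fun h => hx (j.toRingHom.injective (h1.trans (h.trans (map_zero _).symm)))
  refine ⟨A, I', _, fun i => l i, X, rfl, hI A.val, fun i => ?_⟩
  have h1 : (X i).map (algebraMap ℚ Ω) = ∑ a, M⁻¹ i a • I'.map (j.comp (x a)) := by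
    simp only [hI, Finset.smul_sum, smul_smul]
    rw [Finset.sum_comm]
    simp only [← Finset.sum_smul]
    have h2 : ∀ k, ∑ a, M⁻¹ i a * (j.comp (x a)) (l k) = if i = k then 1 else 0 := fun k =>
      congrFun (congrFun (nonsing_inv_mul M hM) i) k
    simp only [h2, ite_smul, one_smul, zero_smul, Finset.sum_ite_eq, Finset.mem_univ, if_true]
  rw [h1]
  exact Submodule.sum_mem _ fun a _ => Submodule.smul_mem _ _ (Submodule.subset_span ⟨_, rfl⟩)

/-- `B` is the `ℚ`-subalgebra of `Ω` generated by the entries of `a`, `b` and the inverses of the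
determinants. An element of `B` that is killed by all `B →ₐ[ℚ] AlgebraicClosure ℚ` is zero
(`geo_points` with one element). The images of `a`, `b` are invertible zeros of `S`, so their
product is one. -/
theorem alg_mul {Ω : Type} [Field Ω] [Algebra ℚ Ω] {S : Set (MvPolynomial (ν × ν) ℚ)}
    (hS : IsAlgSubgroup S) {a b : Matrix ν ν Ω} (ha : a.det ≠ 0) (hb : b.det ≠ 0)
    (ha' : ∀ P ∈ S, evalM a P = 0) (hb' : ∀ P ∈ S, evalM b P = 0) :
    ∀ P ∈ S, evalM (a * b) P = 0 := by
  have : CharZero Ω := algebraRat.charZero Ω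
  obtain ⟨H, hH⟩ := hS
  let T : Set Ω := (Set.range fun p : ν × ν => a p.1 p.2) ∪
    (Set.range fun p : ν × ν => b p.1 p.2) ∪ {a.det⁻¹, b.det⁻¹}
  let B : Subalgebra ℚ Ω := Algebra.adjoin ℚ T
  have hT : T.Finite := ((Set.finite_range _).union (Set.finite_range _)).union (Set.toFinite _)
  let a' : Matrix ν ν B := of fun p q =>
    ⟨a p q, Algebra.subset_adjoin (Or.inl (Or.inl ⟨(p, q), rfl⟩))⟩
  let b' : Matrix ν ν B := of fun p q =>
    ⟨b p q, Algebra.subset_adjoin (Or.inl (Or.inr ⟨(p, q), rfl⟩))⟩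
  intro P hP
  by_contra hne
  have h1 : B.val (MvPolynomial.aeval (fun p : ν × ν => (a' * b') p.1 p.2) P) = evalM (a * b) P := by
    rw [mxGeo_ev, Matrix.map_mul]
    rfl
  have : Algebra.IsAlgebraic ℚ (AlgebraicClosure ℚ) := AlgebraicClosure.isAlgebraic ℚ
  obtain ⟨x, hx⟩ := mxGeo_points ℚ Ω (AlgebraicClosure ℚ) B (Subalgebra.fg_def.2 ⟨_, hT, rfl⟩)
    (fun _ : Fin 1 => MvPolynomial.aeval (fun p : ν × ν => (a' * b') p.1 p.2) P)
    (linearIndependent_unique_iff.2 fun h => hne (by rw [← h1, h, map_zero]))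
  have key : ∀ m : Matrix ν ν B, (m.map B.val).det ≠ 0 → (m.map B.val).det⁻¹ ∈ B →
      (∀ P ∈ S, evalM (m.map B.val) P = 0) → ∃ g ∈ H, g.1 = m.map (x 0) := by
    intro m h2 h3 h4
    have h5 : m.det * ⟨_, h3⟩ = 1 := Subtype.ext (by
      have h6 : (m.det : Ω) = (m.map B.val).det := B.val.toRingHom.map_det m
      rw [MulMemClass.coe_mul, h6]
      exact mul_inv_cancel₀ h2)
    have h6 : (m.map (x 0)).det ≠ 0 := by
      have h7 : x 0 m.det = (m.map (x 0)).det := (x 0).toRingHom.map_det m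
      rw [← h7]
      exact left_ne_zero_of_mul_eq_one ((map_mul _ _ _).symm.trans (by rw [h5, map_one]))
    refine ⟨GeneralLinearGroup.mkOfDetNeZero _ h6, ?_, rfl⟩
    rw [← SetLike.mem_coe, hH]
    intro Q hQ
    have h7 : MvPolynomial.aeval (fun p : ν × ν => m p.1 p.2) Q = 0 :=
      Subtype.ext ((mxGeo_ev B.val m Q).trans (h4 Q hQ))
    exact (mxGeo_ev (x 0) m Q).symm.trans (by rw [h7, map_zero])
  obtain ⟨g, hg, eg⟩ := key a' ha (Algebra.subset_adjoin (Or.inr (Or.inl rfl))) ha'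
  obtain ⟨g', hg', eg'⟩ := key b' hb (Algebra.subset_adjoin (Or.inr (Or.inr rfl))) hb'
  have h2 := H.mul_mem hg hg'
  rw [← SetLike.mem_coe, hH] at h2
  have h3 := h2 P hP
  rw [Units.val_mul, eg, eg', ← Matrix.map_mul] at h3
  exact hx ((det_unique _).trans ((mxGeo_ev (x 0) _ P).trans h3))

end

end Pool.Agent.M4.Mx
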