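import Pool.Agent.Lib.MP_33b3f9_ag.M4.MxDefs

open Matrix Function
open scoped Kronecker

namespace Pool.Agent.M4.Mx

open Pool.Agent.Lib.MP_33b3f9_ag

noncomputable section

/-- the denominators are prime to `ℓ` when `ℓ` exceeds them (`padicNormE.eq_padicNorm`,
`Padic.norm_rat_le_one` or similar) -/
theorem rat_integral {ι : Type} [Fintype ι] (x : ι → ℚ) :
    ∃ ℓ₁ : ℕ, ∀ (ℓ : ℕ) [Fact ℓ.Prime], ℓ₁ < ℓ → ∀ i, ‖(x i : ℚ_[ℓ])‖ ≤ 1 := by
  refine ⟨Finset.univ.sup fun i => (x i).den, fun ℓ _ h i => Padic.norm_rat_le_one fun hd => ?_⟩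
  have h1 : (x i).den ≤ Finset.univ.sup fun i => (x i).den :=
    Finset.le_sup (f := fun i => (x i).den) (Finset.mem_univ i)
  exact absurd ((Nat.le_of_dvd (x i).den_pos hd).trans h1) (not_le.2 h)

theorem mxind_right {m n : Type} [Fintype m] [Fintype n] [DecidableEq m] (v : m → n → ℚ)
    (hv : LinearIndependent ℚ v) : ∃ L : Matrix n m ℚ, Matrix.of v * L = 1 := by
  classical
  have h1 : Injective (Matrix.of v).vecMul := Matrix.vecMul_injective_iff.2 hv
  obtain ⟨g, hg⟩ := (Matrix.of v).vecMulLinear.exists_leftInverse_of_injective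
    (LinearMap.ker_eq_bot.2 h1)
  refine ⟨Matrix.of fun j => g (Pi.single j 1), ?_⟩
  ext i k
  have h2 : g (v i) = Pi.single i 1 := by
    have h3 := LinearMap.congr_fun hg (Pi.single i 1)
    simpa using h3
  have h3 : v i = ∑ j, v i j • (Pi.single j 1 : n → ℚ) := pi_eq_sum_univ' _
  rw [h3, map_sum] at h2
  have h4 := congrFun h2 k
  simp only [map_smul, Finset.sum_apply, Pi.smul_apply, smul_eq_mul] at h4
  rw [Matrix.mul_apply, Matrix.one_apply]
  simp only [Matrix.of_apply]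
  rw [h4, Pi.single_apply]
  simp only [eq_comm]

theorem mxind_unit {m : Type} [Fintype m] [DecidableEq m] {ℓ : ℕ} [Fact ℓ.Prime]
    (N : Matrix m m ℚ_[ℓ]) (hN : ∀ i j, ‖N i j‖ < 1) : IsUnit (1 + N) := by
  rw [← Matrix.vecMul_injective_iff_isUnit, ← Matrix.coe_vecMulLinear, injective_iff_map_eq_zero]
  intro x hx
  by_contra h0
  obtain ⟨b, hb⟩ := Function.ne_iff.1 h0
  obtain ⟨a, -, ha⟩ := Finset.exists_max_image Finset.univ (fun a => ‖x a‖) ⟨b, Finset.mem_univ b⟩
  have h1 : 0 < ‖x a‖ := (norm_pos_iff.2 hb).trans_le (ha b (Finset.mem_univ b))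
  have h2 : x a = -∑ k, x k * N k a := by
    have h3 := congrFun hx a
    rw [Matrix.vecMulLinear_apply, Matrix.vecMul_add, Matrix.vecMul_one] at h3
    exact eq_neg_of_add_eq_zero_left h3
  obtain ⟨k, -, hk⟩ := IsUltrametricDist.exists_norm_finsetSum_le_of_nonempty
    ⟨b, Finset.mem_univ b⟩ fun k => x k * N k a
  rw [← norm_neg, ← h2, norm_mul] at hk
  exact absurd (hk.trans (mul_le_mul_of_nonneg_right (ha k (Finset.mem_univ k)) (norm_nonneg _)))
    (not_le.2 (mul_lt_of_lt_one_right h1 (hN k a)))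

/-- There is a rational matrix `L` with `(of v) * L = 1`; for `ℓ` large `L` is integral, so
`(of w) * L` is congruent to `1`, its determinant has norm one, and the rows of `of w` are
independent over every extension. -/
theorem indep_perturb {m n : Type} [Fintype m] [Fintype n] (v : m → n → ℚ)
    (hv : LinearIndependent ℚ v) :
    ∃ ℓ₁ : ℕ, ∀ (ℓ : ℕ) [Fact ℓ.Prime], ℓ₁ < ℓ → ∀ w : m → n → ℚ_[ℓ],
      (∀ i j, ‖w i j - (v i j : ℚ_[ℓ])‖ < 1) →
      LinearIndependent (Om ℓ) fun i j => algebraMap ℚ_[ℓ] (Om ℓ) (w i j) := by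
  classical
  obtain ⟨L, hL⟩ := mxind_right v hv
  obtain ⟨ℓ₁, h1⟩ := rat_integral fun a : n × m => L a.1 a.2
  refine ⟨ℓ₁, fun ℓ _ hℓ w hw => ?_⟩
  let φ : ℚ →+* ℚ_[ℓ] := Rat.castHom _
  have h2 : (Matrix.of v).map φ * L.map φ = 1 := by
    rw [← Matrix.map_mul, hL, Matrix.map_one _ (map_zero _) (map_one _)]
  have h3 : IsUnit (Matrix.of w * L.map φ) := by
    have h4 : Matrix.of w * L.map φ = 1 + (Matrix.of w - (Matrix.of v).map φ) * L.map φ := by
      rw [Matrix.sub_mul, h2, add_sub_cancel]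
    rw [h4]
    refine mxind_unit _ fun i j => ?_
    rw [Matrix.mul_apply]
    rcases isEmpty_or_nonempty n with h5 | h5
    · simp
    · obtain ⟨k, -, hk⟩ := IsUltrametricDist.exists_norm_finsetSum_le_of_nonempty
        Finset.univ_nonempty fun k => (Matrix.of w - (Matrix.of v).map φ) i k * L.map φ k j
      refine hk.trans_lt ?_
      rw [norm_mul]
      exact mul_lt_one_of_nonneg_of_lt_one_left (norm_nonneg _) (hw i k) (h1 ℓ hℓ (k, j))
  have h4 := Matrix.vecMul_injective_iff_isUnit.2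
    (h3.map (algebraMap ℚ_[ℓ] (Om ℓ)).mapMatrix)
  rw [RingHom.mapMatrix_apply, Matrix.map_mul] at h4
  have h5 : Injective ((Matrix.of w).map (algebraMap ℚ_[ℓ] (Om ℓ))).vecMul := by
    intro x y hxy
    refine h4 ?_
    change x ᵥ* (_ * _) = y ᵥ* (_ * _)
    rw [← Matrix.vecMul_vecMul, ← Matrix.vecMul_vecMul]
    exact congrArg (fun z => z ᵥ* _) hxy
  exact Matrix.vecMul_injective_iff.1 h5

end

end Pool.Agent.M4.Mx
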