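import Pool.Agent.Lib.MP_33b3f9_ag.M4.MxWd

open Matrix Function
open scoped Kronecker

namespace Pool.Agent.M4.Mx

open Pool.Agent.Lib.MP_33b3f9_ag

noncomputable section

variable {ν : Type} [Fintype ν] [DecidableEq ν] {Ω : Type*} [Field Ω] [CharZero Ω]

omit [DecidableEq ν] [CharZero Ω] in
lemma MxLie_mul {E A B : Matrix ν ν Ω} {α β : Ω} (hA : Aᵀ * E = α • (E * A))
    (hB : Bᵀ * E = β • (E * B)) (h : A * B = B * A) :
    (A * B)ᵀ * E = (α * β) • (E * (A * B)) := by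
  rw [transpose_mul, Matrix.mul_assoc, hA, Matrix.mul_smul, ← Matrix.mul_assoc, hB,
    Matrix.smul_mul, smul_smul, h, Matrix.mul_assoc]

omit [CharZero Ω] in
lemma MxLie_sign (f : Fr ν Ω) {E : Matrix ν ν Ω}
    (hsp : ∀ s, Sp E (f.u s (bas Ω 1)) ∧ Sp E (f.u s (bas Ω 2))) (s : Fin 3) (v : Fin 4) :
    (f.u s (bas Ω v))ᵀ * E = sg Ω v • (E * f.u s (bas Ω v)) := by
  have h1 : (f.u s (bas Ω 1))ᵀ * E = -(E * f.u s (bas Ω 1)) := eq_neg_of_add_eq_zero_left (hsp s).1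
  have h2 : (f.u s (bas Ω 2))ᵀ * E = -(E * f.u s (bas Ω 2)) := eq_neg_of_add_eq_zero_left (hsp s).2
  have h3 : (f.u s (bas Ω 3))ᵀ * E = -(E * f.u s (bas Ω 3)) := by
    rw [← bas_br, map_sub, map_mul, map_mul, transpose_sub, transpose_mul, transpose_mul,
      Matrix.sub_mul, Matrix.mul_assoc, Matrix.mul_assoc, h1, h2, Matrix.mul_neg, Matrix.mul_neg,
      ← Matrix.mul_assoc, ← Matrix.mul_assoc, h1, h2]
    simp only [Matrix.neg_mul, neg_neg, Matrix.mul_sub, neg_sub, Matrix.mul_assoc]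
  fin_cases v
  · simp [bas_zero, sg]
  · simpa [sg] using h1
  · simpa [sg] using h2
  · simpa [sg] using h3

lemma MxLie_mem (f : Fr ν Ω) {E : Matrix ν ν Ω} (hE : E.det ≠ 0)
    (hsp : ∀ s, Sp E (f.u s (bas Ω 1)) ∧ Sp E (f.u s (bas Ω 2))) (N : Submodule Ω (Matrix ν ν Ω))
    (hN : ∀ s v, v ≠ 0 → f.u s (bas Ω v) ∈ N) {Z : Matrix ν ν Ω} (hZ : Sp E Z)
    {z : Fin 4 → Fin 4 → Fin 4 → Ω}
    (hz : Z = ∑ a, ∑ b, ∑ c, z a b c • (f.u 0 (bas Ω a) * f.u 1 (bas Ω b) * f.u 2 (bas Ω c)))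
    (h : ∀ a b c, a ≠ 0 → b ≠ 0 → c ≠ 0 →
      z a b c • (f.u 0 (bas Ω a) * f.u 1 (bas Ω b) * f.u 2 (bas Ω c)) ∈ N) : Z ∈ N := by
  have h1 : ∀ a b c, (f.u 0 (bas Ω a) * f.u 1 (bas Ω b) * f.u 2 (bas Ω c))ᵀ * E =
      (sg Ω a * sg Ω b * sg Ω c) • (E * (f.u 0 (bas Ω a) * f.u 1 (bas Ω b) * f.u 2 (bas Ω c))) := by
    intro a b c
    refine MxLie_mul (MxLie_mul (MxLie_sign f hsp 0 a) (MxLie_sign f hsp 1 b)
      (f.u_comm (by decide) _ _)) (MxLie_sign f hsp 2 c) ?_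
    rw [Matrix.mul_assoc, f.u_comm (s := 1) (t := 2) (by decide), ← Matrix.mul_assoc,
      f.u_comm (s := 0) (t := 2) (by decide), Matrix.mul_assoc]
  have h2 : Zᵀ * E = E * ∑ a, ∑ b, ∑ c, (sg Ω a * sg Ω b * sg Ω c) •
      z a b c • (f.u 0 (bas Ω a) * f.u 1 (bas Ω b) * f.u 2 (bas Ω c)) := by
    rw [hz]
    simp only [transpose_sum, transpose_smul, Matrix.sum_mul, Matrix.mul_sum, Matrix.smul_mul,
      Matrix.mul_smul, h1, smul_comm (z _ _ _)]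
  have h3 : Z + ∑ a, ∑ b, ∑ c, (sg Ω a * sg Ω b * sg Ω c) •
      z a b c • (f.u 0 (bas Ω a) * f.u 1 (bas Ω b) * f.u 2 (bas Ω c)) = 0 := by
    have hU : IsUnit E := (isUnit_iff_isUnit_det E).2 (Ne.isUnit hE)
    refine hU.mul_left_cancel ?_
    rw [Matrix.mul_add, ← h2, Matrix.mul_zero, add_comm]
    exact hZ
  have h4 : (2 : Ω) • Z = ∑ a, ∑ b, ∑ c, (1 - sg Ω a * sg Ω b * sg Ω c) •
      z a b c • (f.u 0 (bas Ω a) * f.u 1 (bas Ω b) * f.u 2 (bas Ω c)) := by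
    simp only [sub_smul, one_smul, Finset.sum_sub_distrib]
    rw [← hz, eq_neg_of_add_eq_zero_right h3, sub_neg_eq_add, two_smul]
  rw [← N.smul_mem_iff (two_ne_zero (α := Ω)), h4]
  have hs : ∀ v : Fin 4, v ≠ 0 → sg Ω v = -1 := by
    intro v hv
    fin_cases v
    · exact absurd rfl hv
    all_goals simp [sg]
  have h0 : sg Ω 0 = 1 := rfl
  refine sum_mem fun a _ => sum_mem fun b _ => sum_mem fun c _ => ?_
  by_cases ha : a = 0 <;> by_cases hb : b = 0 <;> by_cases hc : c = 0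
  · simp [ha, hb, hc, h0]
  · refine N.smul_mem _ (N.smul_mem _ ?_)
    simpa [ha, hb, bas_zero] using hN 2 c hc
  · refine N.smul_mem _ (N.smul_mem _ ?_)
    simpa [ha, hc, bas_zero] using hN 1 b hb
  · simp [ha, h0, hs b hb, hs c hc]
  · refine N.smul_mem _ (N.smul_mem _ ?_)
    simpa [hb, hc, bas_zero] using hN 0 a ha
  · simp [hb, h0, hs a ha, hs c hc]
  · simp [hc, h0, hs a ha, hs b hb]
  · exact N.smul_mem _ (h a b c ha hb hc)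

omit [CharZero Ω] in
lemma MxLie_ad (f : Fr ν Ω) (s : Fin 3) (x : M2 Ω) (a : Fin 3 → M2 Ω) :
    ad (R := Ω) (f.u s x) (f.T a) = f.T (update a s (ad (R := Ω) x (a s))) := by
  have h1 : update (1 : Fin 3 → M2 Ω) s x * a = update a s (x * a s) := by
    funext r
    by_cases h : r = s
    · subst h; simp
    · simp [update_of_ne h]
  have h2 : a * update (1 : Fin 3 → M2 Ω) s x = update a s (a s * x) := by
    funext r
    by_cases h : r = s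
    · subst h; simp
    · simp [update_of_ne h]
  rw [ad_apply, ad_apply, f.u_apply, f.T_mul, f.T_mul, h1, h2, sub_eq_iff_eq_add, Fr.T, Fr.T, Fr.T,
    ← Matrix.add_mul, ← Matrix.mul_add, ← tp_update_add, sub_add_cancel]

omit [CharZero Ω] in
lemma MxLie_slot (f : Fr ν Ω) (L : Submodule Ω (Matrix ν ν Ω))
    (hL : ∀ Y ∈ L, ∀ Z ∈ L, Y * Z - Z * Y ∈ L)
    (hu : ∀ s, f.u s (bas Ω 1) ∈ L ∧ f.u s (bas Ω 2) ∈ L) (s : Fin 3) {φ : Module.End Ω (M2 Ω)}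
    (hφ : φ ∈ Wd Ω) : ∃ Φ : Module.End Ω (Matrix ν ν Ω), (∀ Y ∈ L, Φ Y ∈ L) ∧
      ∀ a, Φ (f.T a) = f.T (update a s (φ (a s))) := by
  induction hφ using Submonoid.closure_induction with
  | mem x hx =>
    rcases hx with rfl | rfl
    · exact ⟨ad (f.u s (bas Ω 1)), fun Y hY => hL _ (hu s).1 _ hY, MxLie_ad f s _⟩
    · exact ⟨ad (f.u s (bas Ω 2)), fun Y hY => hL _ (hu s).2 _ hY, MxLie_ad f s _⟩
  | one => exact ⟨1, fun Y hY => hY, fun a => by simp⟩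
  | mul x y _ _ hx hy =>
    obtain ⟨Φ, h1, h2⟩ := hx
    obtain ⟨Ψ, h3, h4⟩ := hy
    refine ⟨Φ * Ψ, fun Y hY => h1 _ (h3 _ hY), fun a => ?_⟩
    rw [Module.End.mul_apply, h4, h2, update_idem, update_self, Module.End.mul_apply]

omit [CharZero Ω] in
lemma MxLie_three (f : Fr ν Ω) (L : Submodule Ω (Matrix ν ν Ω))
    (hL : ∀ Y ∈ L, ∀ Z ∈ L, Y * Z - Z * Y ∈ L)
    (hu : ∀ s, f.u s (bas Ω 1) ∈ L ∧ f.u s (bas Ω 2) ∈ L) {φ ψ χ : Module.End Ω (M2 Ω)}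
    (hφ : φ ∈ Wd Ω) (hψ : ψ ∈ Wd Ω) (hχ : χ ∈ Wd Ω) :
    ∃ Φ : Module.End Ω (Matrix ν ν Ω), (∀ Y ∈ L, Φ Y ∈ L) ∧
      ∀ a b c, Φ (f.u 0 a * f.u 1 b * f.u 2 c) = f.u 0 (φ a) * f.u 1 (ψ b) * f.u 2 (χ c) := by
  obtain ⟨A, a1, a2⟩ := MxLie_slot f L hL hu 0 hφ
  obtain ⟨B, b1, b2⟩ := MxLie_slot f L hL hu 1 hψ
  obtain ⟨C, c1, c2⟩ := MxLie_slot f L hL hu 2 hχ
  refine ⟨A * B * C, fun Y hY => a1 _ (b1 _ (c1 _ hY)), fun a b c => ?_⟩
  have h1 : f.u 0 a * f.u 1 b * f.u 2 c = f.T ![a, b, c] := (f.T_eq ![a, b, c]).symm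
  rw [h1, Module.End.mul_apply, Module.End.mul_apply, c2, b2, a2, f.T_eq]
  simp

/-- `sl2 + sl2 + sl2` is maximal in `sp8`. Sketch. (1) `(u s (bas v))ᵀ E = sg v • E * u s (bas v)`
(`bas_br` for `h`), the signs multiply for commuting factors, so the word `w = (a,b,c)` has sign
`sg a * sg b * sg c`. (2) If `Sp E Z`, `Z = ∑ z_w T_w`, then `E * ∑ z_w (1 + sign w) T_w = 0`, so
`2 Z = ∑ z_w (1 - sign w) T_w`: `Z` lies in every submodule that contains `z_w • T_w` for the words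
of sign `-1` (exactly one or all three letters nonzero). (3) For `φ0 φ1 φ2 ∈ Wd Ω` there is a linear
map `Φ` that preserves `L` with `Φ (u 0 a * u 1 b * u 2 c) = u 0 (φ0 a) * u 1 (φ1 b) * u 2 (φ2 c)`
(`Submonoid.closure_induction` in each slot, generators `ad (u s x)`, `u_comm`). (4) `Y ∉ f.m` gives
a word with three nonzero letters and `y_w ≠ 0`; `Wd_down` gives `e ⊗ e ⊗ e ∈ L`, `Wd_up` all
words with three nonzero letters; (2) finishes. -/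
theorem lieMax (f : Fr ν Ω) {E : Matrix ν ν Ω} (hE : E.det ≠ 0)
    (hsp : ∀ s, Sp E (f.u s (bas Ω 1)) ∧ Sp E (f.u s (bas Ω 2))) (L : Submodule Ω (Matrix ν ν Ω))
    (hL : ∀ Y ∈ L, ∀ Z ∈ L, Y * Z - Z * Y ∈ L)
    (hu : ∀ s, f.u s (bas Ω 1) ∈ L ∧ f.u s (bas Ω 2) ∈ L) {Y : Matrix ν ν Ω} (hY : Y ∈ L)
    (hYE : Sp E Y) (hYm : Y ∉ f.m) {Z : Matrix ν ν Ω} (hZ : Sp E Z) : Z ∈ L := by
  have hN : ∀ s v, v ≠ 0 → f.u s (bas Ω v) ∈ L := by
    intro s v hv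
    fin_cases v
    · exact absurd rfl hv
    · exact (hu s).1
    · exact (hu s).2
    · have := hL _ (hu s).1 _ (hu s).2
      rwa [← map_mul, ← map_mul, ← map_sub, bas_br] at this
  obtain ⟨y, hy⟩ := words_span f Y
  obtain ⟨a, b, c, ha, hb, hc, h0⟩ : ∃ a b c, a ≠ 0 ∧ b ≠ 0 ∧ c ≠ 0 ∧ y a b c ≠ 0 := by
    by_contra e
    push Not at e
    refine hYm (MxLie_mem f hE hsp _ (fun s v _ => f.u_mem_m s _) hYE hy ?_)
    intro a b c ha hb hc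
    rw [e a b c ha hb hc, zero_smul]
    exact zero_mem _
  have he : f.u 0 (bas Ω 1) * f.u 1 (bas Ω 1) * f.u 2 (bas Ω 1) ∈ L := by
    obtain ⟨φ, hφ, p, hp, e1⟩ := Wd_down (Ω := Ω) a ha
    obtain ⟨ψ, hψ, q, hq, e2⟩ := Wd_down (Ω := Ω) b hb
    obtain ⟨χ, hχ, r, hr, e3⟩ := Wd_down (Ω := Ω) c hc
    obtain ⟨Φ, h1, h2⟩ := MxLie_three f L hL hu hφ hψ hχ
    have h3 := h1 _ hY
    rw [hy] at h3
    simp only [map_sum, map_smul, h2, e1, e2, e3] at h3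
    rw [Finset.sum_eq_single a (fun v _ hv => by simp [hv]) (by simp),
      Finset.sum_eq_single b (fun v _ hv => by simp [hv]) (by simp),
      Finset.sum_eq_single c (fun v _ hv => by simp [hv]) (by simp)] at h3
    simp only [if_true, map_smul, Matrix.smul_mul, Matrix.mul_smul] at h3
    rwa [L.smul_mem_iff h0, L.smul_mem_iff hr, L.smul_mem_iff hq, L.smul_mem_iff hp] at h3
  obtain ⟨z, hz⟩ := words_span f Z
  refine MxLie_mem f hE hsp L hN hZ hz (fun a b c ha hb hc => L.smul_mem _ ?_)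
  obtain ⟨φ, hφ, p, hp, e1⟩ := Wd_up (Ω := Ω) a ha
  obtain ⟨ψ, hψ, q, hq, e2⟩ := Wd_up (Ω := Ω) b hb
  obtain ⟨χ, hχ, r, hr, e3⟩ := Wd_up (Ω := Ω) c hc
  obtain ⟨Φ, h1, h2⟩ := MxLie_three f L hL hu hφ hψ hχ
  have h3 := h1 _ he
  simp only [h2, e1, e2, e3, map_smul, Matrix.smul_mul, Matrix.mul_smul] at h3
  rwa [L.smul_mem_iff hr, L.smul_mem_iff hq, L.smul_mem_iff hp] at h3

end

end Pool.Agent.M4.Mx
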