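import Pool.Agent.Lib.MP_33b3f9_ag.M4.MxDefs

open Matrix Function
open scoped Kronecker

namespace Pool.Agent.M4.Mx

open Pool.Agent.Lib.MP_33b3f9_ag

noncomputable section

open Filter Topology

variable {ν : Type} [Fintype ν] [DecidableEq ν] {ℓ : ℕ} [Fact ℓ.Prime]

lemma mxLim_cont : Continuous (algebraMap ℚ_[ℓ] (Om ℓ)) :=
  (AddMonoidHomClass.isometry_of_norm _ (PadicAlgCl.norm_extends ℓ)).continuous

lemma mxLim_cont' : Continuous (toOm ℓ) := mxLim_cont.comp continuous_subtype_val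

omit [Fintype ν] in
/-- Taylor expansion to first order; induction on `P` -/
lemma mxLim_taylor {K : Type} [NormedField K] (P : MvPolynomial (ν × ν) K) : ∃ (L : Matrix ν ν K → K)
    (Rem : K × Matrix ν ν K → K), Continuous L ∧ Continuous Rem ∧
      (∀ Z, MvPolynomial.aeval (fun p : ν × ν => dualM Z p.1 p.2) P =
        algebraMap K (DualNumber K) (evalM (1 : Matrix ν ν K) P) +
          algebraMap K (DualNumber K) (L Z) * DualNumber.eps) ∧
      ∀ c Z, evalM (1 + c • Z : Matrix ν ν K) P =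
        evalM (1 : Matrix ν ν K) P + c * L Z + c * c * Rem (c, Z) := by
  induction P using MvPolynomial.induction_on with
  | C a =>
    exact ⟨fun _ => 0, fun _ => 0, continuous_const, continuous_const, fun Z => by simp [evalM],
      fun c Z => by simp [evalM]⟩
  | add P Q hP hQ =>
    obtain ⟨L, Rem, h1, h2, h3, h4⟩ := hP
    obtain ⟨L', Rem', h1', h2', h3', h4'⟩ := hQ
    refine ⟨fun Z => L Z + L' Z, fun x => Rem x + Rem' x, h1.add h1', h2.add h2', fun Z => ?_,
      fun c Z => ?_⟩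
    · rw [map_add, h3, h3']
      simp only [evalM, map_add]
      ring
    · have e := h4 c Z
      have e' := h4' c Z
      simp only [evalM, map_add] at e e' ⊢
      rw [e, e']
      ring
  | mul_X P p hP =>
    obtain ⟨L, Rem, h1, h2, h3, h4⟩ := hP
    refine ⟨fun Z => L Z * (1 : Matrix ν ν K) p.1 p.2 + evalM (1 : Matrix ν ν K) P * Z p.1 p.2,
      fun x => L x.2 * x.2 p.1 p.2 + Rem x * ((1 : Matrix ν ν K) p.1 p.2 + x.1 * x.2 p.1 p.2),
      by fun_prop, by fun_prop, fun Z => ?_, fun c Z => ?_⟩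
    · have e : dualM Z p.1 p.2 = algebraMap K (DualNumber K) ((1 : Matrix ν ν K) p.1 p.2) +
          DualNumber.eps * algebraMap K (DualNumber K) (Z p.1 p.2) := by
        simp only [dualM, Matrix.add_apply, Matrix.smul_apply, map_apply, smul_eq_mul,
          Matrix.one_apply, apply_ite (algebraMap K (DualNumber K)), map_one, map_zero]
      rw [map_mul, h3, MvPolynomial.aeval_X, e]
      simp only [evalM, map_mul, map_add, MvPolynomial.aeval_X]
      linear_combination (algebraMap K (DualNumber K) (L Z) *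
        algebraMap K (DualNumber K) (Z p.1 p.2)) * DualNumber.eps_mul_eps (R := K)
    · have e := h4 c Z
      simp only [evalM, map_mul, MvPolynomial.aeval_X] at e ⊢
      rw [e]
      simp only [Matrix.add_apply, Matrix.smul_apply, smul_eq_mul]
      ring

/-- as in `IgLim`, with `2`
replaced by `ℓ` -/
theorem tng_of_limit (T : Submonoid (Matrix ν ν (Om ℓ))) (X : ℕ → Matrix ν ν ℤ_[ℓ]) (n : ℕ → ℕ)
    (hn : Tendsto n atTop atTop) {Y : Matrix ν ν ℤ_[ℓ]} (hX : Tendsto X atTop (𝓝 Y))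
    (hT : ∀ j, (1 + (ℓ : ℤ_[ℓ]) ^ n j • X j).map (toOm ℓ) ∈ T) : Y.map (toOm ℓ) ∈ tng T := by
  intro P hP
  obtain ⟨L, Rem, h1, h2, h3, h4⟩ := mxLim_taylor P
  have e0 := hP 1 T.one_mem
  have hm : Tendsto (fun j => (X j).map (toOm ℓ)) atTop (𝓝 (Y.map (toOm ℓ))) :=
    ((continuous_id.matrix_map mxLim_cont').tendsto Y).comp hX
  have hc : Tendsto (fun j => toOm ℓ (ℓ ^ n j)) atTop (𝓝 0) := by
    have h5 : Tendsto (fun j => (ℓ : ℤ_[ℓ]) ^ n j) atTop (𝓝 0) := by
      refine (tendsto_pow_atTop_nhds_zero_of_norm_lt_one ?_).comp hn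
      rw [PadicInt.norm_p]
      exact inv_lt_one_of_one_lt₀ (Nat.one_lt_cast.2 (Fact.out : ℓ.Prime).one_lt)
    have := (mxLim_cont'.tendsto 0).comp h5
    rwa [map_zero] at this
  have e1 : ∀ j, L ((X j).map (toOm ℓ)) =
      -(toOm ℓ (ℓ ^ n j) * Rem (toOm ℓ (ℓ ^ n j), (X j).map (toOm ℓ))) := fun j => by
    have e2 := hP _ (hT j)
    have e3 : (1 + (ℓ : ℤ_[ℓ]) ^ n j • X j).map (toOm ℓ) =
        1 + toOm ℓ (ℓ ^ n j) • (X j).map (toOm ℓ) := by
      ext a b
      simp only [map_apply, Matrix.add_apply, Matrix.smul_apply, smul_eq_mul, map_add, map_mul,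
        Matrix.one_apply, apply_ite (toOm ℓ), map_one, map_zero]
    rw [e3, h4, e0] at e2
    have e4 : toOm ℓ (ℓ ^ n j) ≠ 0 := by
      rw [map_pow, map_natCast]
      exact pow_ne_zero _ (Nat.cast_ne_zero.2 (Fact.out : ℓ.Prime).ne_zero)
    refine mul_left_cancel₀ e4 ?_
    linear_combination e2
  have l1 := (h1.tendsto _).comp hm
  have l2 := (hc.mul ((h2.tendsto _).comp (hc.prodMk_nhds hm))).neg
  rw [zero_mul, neg_zero] at l2
  have e5 : L (Y.map (toOm ℓ)) = 0 := tendsto_nhds_unique l1 (l2.congr fun j => (e1 j).symm)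
  rw [h3, e0, e5, map_zero, zero_mul, add_zero]

/-- The equations `Rk (Q g P)` are continuous in `g` (norm of `PadicAlgCl ℓ` on `Om ℓ`,
`PadicAlgCl.norm_extends`), and `g` is a limit of the `t n`. -/
theorem rk_limit (f : Fr ν (Om ℓ)) (g : Matrix ν ν ℚ_[ℓ]) (t : ℕ → Matrix ν ν ℚ_[ℓ])
    (ht : ∀ n i j, ‖g i j - t n i j‖ ≤ (ℓ : ℝ) ^ (-n : ℤ))
    (h : ∀ n, Rk (f.Q * (t n).map (algebraMap ℚ_[ℓ] (Om ℓ)) * f.P)) :
    Rk (f.Q * g.map (algebraMap ℚ_[ℓ] (Om ℓ)) * f.P) := by
  have h1 : (1 : ℝ) < ℓ := Nat.one_lt_cast.2 (Fact.out : ℓ.Prime).one_lt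
  have h2 : Tendsto t atTop (𝓝 g) := tendsto_pi_nhds.2 fun i => tendsto_pi_nhds.2 fun j =>
    tendsto_iff_norm_sub_tendsto_zero.2 (squeeze_zero (fun _ => norm_nonneg _)
      (fun n => (norm_sub_rev _ _).trans_le ((ht n i j).trans_eq (by simp)))
      (tendsto_inv_atTop_zero.comp (tendsto_pow_atTop_atTop_of_one_lt h1)))
  have h3 : Continuous fun x : Matrix ν ν ℚ_[ℓ] =>
      f.Q * x.map (algebraMap ℚ_[ℓ] (Om ℓ)) * f.P :=
    (continuous_const.matrix_mul (continuous_id.matrix_map mxLim_cont)).matrix_mul continuous_const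
  have h4 := fun a b => ((h3.matrix_elem a b).tendsto g).comp h2
  exact fun s a b c d => tendsto_nhds_unique ((h4 _ _).mul (h4 _ _))
    (((h4 _ _).mul (h4 _ _)).congr fun n => (h n s a b c d).symm)

end

end Pool.Agent.M4.Mx
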