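import Pool.Agent.Lib.MP_33b3f9_ag.M4.MxRk

open Matrix Function
open scoped Kronecker

namespace Pool.Agent.M4.Mx

open Pool.Agent.Lib.MP_33b3f9_ag

noncomputable section

variable {ν : Type} [Fintype ν] [DecidableEq ν]

theorem mxrkb_W_T {R : Type*} [CommRing R] (f : Fr ν R) (a : Fin 3 → M2 R) (s : Fin 3) :
    f.W s * (f.T a ⊗ₖ f.T a) = (f.T a ⊗ₖ f.T a) * f.W s := by
  have h1 : f.T a ⊗ₖ f.T a = (f.P ⊗ₖ f.P) * (tp a ⊗ₖ tp a) * (f.Q ⊗ₖ f.Q) := by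
    rw [Fr.T, mul_kronecker_mul, mul_kronecker_mul]
  have h2 : (f.Q ⊗ₖ f.Q) * (f.P ⊗ₖ f.P) = 1 := by
    rw [← mul_kronecker_mul, f.qp, one_kronecker_one]
  have h3 := (rk_iff _).1 (rk_tp a) s
  rw [h1, Fr.W]
  calc _ = (f.P ⊗ₖ f.P) * (sw R s * ((f.Q ⊗ₖ f.Q) * (f.P ⊗ₖ f.P)) * (tp a ⊗ₖ tp a)) *
        (f.Q ⊗ₖ f.Q) := by simp only [Matrix.mul_assoc]
    _ = (f.P ⊗ₖ f.P) * ((tp a ⊗ₖ tp a) * ((f.Q ⊗ₖ f.Q) * (f.P ⊗ₖ f.P)) * sw R s) *
        (f.Q ⊗ₖ f.Q) := by rw [h2, Matrix.mul_one, Matrix.mul_one, h3]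
    _ = _ := by simp only [Matrix.mul_assoc]

/-- It suffices to treat `X = u t x` (`Submodule.iSup_induction`). Over the dual numbers or
directly: `tp (update 1 t (1 + c • x))` satisfies `Rk` for `c = 1, -1`, and
`(1 + c X) ⊗ (1 + c X) = 1 + c (X ⊗ 1 + 1 ⊗ X) + c^2 X ⊗ X`; subtract and cancel `2`. -/
theorem Fr.W_comm {Ω : Type*} [Field Ω] [CharZero Ω] (f : Fr ν Ω) {X : Matrix ν ν Ω}
    (hX : X ∈ f.m) (s : Fin 3) :
    f.W s * (X ⊗ₖ (1 : Matrix ν ν Ω) + (1 : Matrix ν ν Ω) ⊗ₖ X) =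
      (X ⊗ₖ (1 : Matrix ν ν Ω) + (1 : Matrix ν ν Ω) ⊗ₖ X) * f.W s := by
  refine Submodule.iSup_induction _ (motive := fun X : Matrix ν ν Ω =>
    f.W s * (X ⊗ₖ (1 : Matrix ν ν Ω) + (1 : Matrix ν ν Ω) ⊗ₖ X) =
      (X ⊗ₖ (1 : Matrix ν ν Ω) + (1 : Matrix ν ν Ω) ⊗ₖ X) * f.W s) hX ?_ (by simp) ?_
  · rintro t _ ⟨x, rfl⟩
    have h : ∀ c : Ω, f.W s * ((1 + c • f.u t x) ⊗ₖ (1 + c • f.u t x)) =
        ((1 + c • f.u t x) ⊗ₖ (1 + c • f.u t x)) * f.W s := fun c => by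
      have h1 := mxrkb_W_T f (update 1 t (1 + c • x)) s
      rwa [← f.u_apply, map_add, map_one, map_smul] at h1
    have e : ∀ Z : Matrix ν ν Ω, (2 : Ω) • (Z ⊗ₖ (1 : Matrix ν ν Ω) + (1 : Matrix ν ν Ω) ⊗ₖ Z) =
        (1 + (1 : Ω) • Z) ⊗ₖ (1 + (1 : Ω) • Z) - (1 + (-1 : Ω) • Z) ⊗ₖ (1 + (-1 : Ω) • Z) := by
      intro Z
      simp only [add_kronecker, kronecker_add, smul_kronecker, kronecker_smul]
      module
    refine smul_right_injective _ (two_ne_zero (α := Ω)) ?_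
    change (2 : Ω) • (f.W s * (f.u t x ⊗ₖ 1 + 1 ⊗ₖ f.u t x)) =
      (2 : Ω) • ((f.u t x ⊗ₖ 1 + 1 ⊗ₖ f.u t x) * f.W s)
    rw [← Matrix.mul_smul, ← Matrix.smul_mul, e, mul_sub, sub_mul, h, h]
  · intro x y hx hy
    rw [add_kronecker, kronecker_add, add_add_add_comm, mul_add, add_mul, hx, hy]

variable {Ω : Type*} [Field Ω]

/-- if `G = Q g P = 0` take `a = 0`; else pick `G p q ≠ 0` and use `Rk.eq`, `PQ_conj` -/
theorem Fr.eq_T (f : Fr ν Ω) {g : Matrix ν ν Ω} (h : Rk (f.Q * g * f.P)) : ∃ a, g = f.T a := by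
  by_cases h0 : f.Q * g * f.P = 0
  · refine ⟨0, ?_⟩
    have h1 : tp (0 : Fin 3 → M2 Ω) = 0 := by
      ext i j
      simp [tp_apply]
    rw [← f.PQ_conj g, h0, Fr.T, h1]
  · obtain ⟨p, q, hpq⟩ : ∃ p q, (f.Q * g * f.P) p q ≠ 0 := by
      by_contra hn
      push Not at hn
      exact h0 (Matrix.ext hn)
    let b : Fin 3 → M2 Ω := fun s => Matrix.of fun i j =>
      (f.Q * g * f.P) (update p s i) (update q s j)
    let c : Fin 3 → Ω := ![((f.Q * g * f.P) p q ^ 2)⁻¹, 1, 1]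
    refine ⟨fun s => c s • b s, ?_⟩
    have h1 : tp (fun s => c s • b s) = f.Q * g * f.P := by
      ext i j
      rw [tp_smul, Matrix.smul_apply, tp_apply, Fin.prod_univ_three, Fin.prod_univ_three,
        smul_eq_mul]
      change (_ ^ 2)⁻¹ * 1 * 1 * ((f.Q * g * f.P) _ _ * (f.Q * g * f.P) _ _ *
        (f.Q * g * f.P) _ _) = _
      rw [← h.eq p q i j, mul_one, mul_one, mul_comm _ (_ ^ 2),
        inv_mul_cancel_left₀ (pow_ne_zero 2 hpq)]
    rw [Fr.T, h1, f.PQ_conj]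

theorem mxrkb_pts (f : Fr ν Ω) {T : Set (Matrix ν ν Ω)} (hT : ∀ t ∈ T, Rk (f.Q * t * f.P))
    {R : Type*} [CommRing R] [Algebra Ω R] {g : Matrix ν ν R} (hg : g ∈ ptsR T R) :
    Rk (f.Q.map (algebraMap Ω R) * g * f.P.map (algebraMap Ω R)) := by
  intro s a b c d
  let X : Matrix ν ν (MvPolynomial (ν × ν) Ω) := Matrix.of fun i j => MvPolynomial.X (i, j)
  let G : Matrix κ κ (MvPolynomial (ν × ν) Ω) :=
    f.Q.map (algebraMap Ω (MvPolynomial (ν × ν) Ω)) * X *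
      f.P.map (algebraMap Ω (MvPolynomial (ν × ν) Ω))
  have h1 : ∀ (x : Matrix ν ν Ω) (i j : κ),
      MvPolynomial.aeval (fun p : ν × ν => x p.1 p.2) (G i j) = (f.Q * x * f.P) i j := by
    intro x i j
    simp [G, X, Matrix.mul_apply]
  have h2 : ∀ i j : κ, MvPolynomial.aeval (fun p : ν × ν => g p.1 p.2) (G i j) =
      (f.Q.map (algebraMap Ω R) * g * f.P.map (algebraMap Ω R)) i j := by
    intro i j
    simp [G, X, Matrix.mul_apply]
  have h3 := hg (G (update a s (b s)) c * G (update b s (a s)) d -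
    G a (update c s (d s)) * G b (update d s (c s))) fun t ht => by
      rw [evalM, map_sub, map_mul, map_mul, h1, h1, h1, h1, hT t ht, sub_self]
  rwa [map_sub, map_mul, map_mul, h2, h2, h2, h2, sub_eq_zero] at h3

theorem mxrkb_one (s : Fin 3) (a b : Fin 2) :
    (1 : Matrix κ κ Ω) (update 0 s a) (update 0 s b) = (1 : M2 Ω) a b := by
  simp only [Matrix.one_apply, (update_injective (0 : κ) s).eq_iff]

theorem mxrkb_dual {Z : Matrix κ κ Ω} (h : Rk (1 + (DualNumber.eps : DualNumber Ω) •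
    Z.map (algebraMap Ω (DualNumber Ω)))) :
    Z = ∑ s, tp (update 1 s (Matrix.of fun i j => Z (update 0 s i) (update 0 s j))) -
      (2 * Z 0 0) • 1 := by
  set G := 1 + (DualNumber.eps : DualNumber Ω) • Z.map (algebraMap Ω (DualNumber Ω)) with hG
  have h1 : ∀ a b, (G a b).fst = (1 : Matrix κ κ Ω) a b := fun a b => by
    by_cases e : a = b <;> simp [hG, e, Matrix.one_apply]
  have h2 : ∀ a b, (G a b).snd = Z a b := fun a b => by
    by_cases e : a = b <;> simp [hG, e, TrivSqZeroExt.algebraMap_eq_inl]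
  ext i j
  have h3 := congrArg TrivSqZeroExt.snd (h.eq 0 0 i j)
  simp only [pow_two, DualNumber.snd_mul, TrivSqZeroExt.fst_mul, h1, h2, mxrkb_one,
    Matrix.one_apply_eq] at h3
  simp only [Matrix.sub_apply, Matrix.add_apply, Fin.sum_univ_three, tp_apply,
    Fin.prod_univ_three, Matrix.smul_apply, smul_eq_mul, update_self, Matrix.of_apply,
    update_of_ne (show (1 : Fin 3) ≠ 0 by decide), update_of_ne (show (2 : Fin 3) ≠ 0 by decide),
    update_of_ne (show (0 : Fin 3) ≠ 1 by decide), update_of_ne (show (2 : Fin 3) ≠ 1 by decide),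
    update_of_ne (show (0 : Fin 3) ≠ 2 by decide), update_of_ne (show (1 : Fin 3) ≠ 2 by decide),
    Pi.one_apply]
  linear_combination h3

/-- The equations `Rk (Q X P)` are polynomial in the entries of `X` and vanish on `T`, so
`Rk (Q (1 + ε Y) P)` holds over the dual numbers. Take `Rk.eq` with `p = q = 0` and the `ε` parts:
`Q Y P = ∑ s, tp (update 1 s (x s)) - 2 (Q Y P) 0 0 • 1` with
`x s i j = (Q Y P) (update 0 s i) (update 0 s j)`; `1 = u 0 1`. -/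
theorem Fr.tng_m (f : Fr ν Ω) {T : Submonoid (Matrix ν ν Ω)} (hT : ∀ t ∈ T, Rk (f.Q * t * f.P))
    {Y : Matrix ν ν Ω} (hY : Y ∈ tng T) : Y ∈ f.m := by
  have h1 := mxrkb_pts f hT (mem_tng.1 hY)
  rw [dualM, Matrix.mul_add, Matrix.add_mul, Matrix.mul_one, ← Matrix.map_mul, f.qp,
    Matrix.map_one _ (map_zero _) (map_one _), Matrix.mul_smul, Matrix.smul_mul, ← Matrix.map_mul,
    ← Matrix.map_mul] at h1
  rw [← f.PQ_conj Y, mxrkb_dual h1, Matrix.mul_sub, Matrix.sub_mul, Matrix.mul_sum, Matrix.sum_mul,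
    Matrix.mul_smul, Matrix.smul_mul, Matrix.mul_one, f.pq]
  refine sub_mem (Submodule.sum_mem _ fun s _ => f.u_mem_m s _) (Submodule.smul_mem _ _ ?_)
  rw [← map_one (f.u 0)]
  exact f.u_mem_m 0 1

end

end Pool.Agent.M4.Mx
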