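import Pool.Agent.Lib.MP_33b3f9_ag.M4.MxLim

open Matrix Function
open scoped Kronecker

namespace Pool.Agent.M4.Mx

open Pool.Agent.Lib.MP_33b3f9_ag

noncomputable section

variable {ν : Type} [Fintype ν] [DecidableEq ν] {ℓ : ℕ} [Fact ℓ.Prime]

theorem mxser_cast {A : Type*} [Ring A] [Algebra ℤ_[ℓ] A] (x : A) (n : ℕ) :
    x * (n : A) = (n : ℤ_[ℓ]) • x := by
  rw [Nat.cast_smul_eq_nsmul, nsmul_eq_mul']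

theorem mxser_lg {A : Type*} [Ring A] [Algebra ℤ_[ℓ] A] (a : A) :
    lg a = (6 : ℤ_[ℓ]) • a - (3 : ℤ_[ℓ]) • a ^ 2 + (2 : ℤ_[ℓ]) • a ^ 3 := by
  simp only [lg, Algebra.smul_def, map_ofNat]

theorem mxser_two (hℓ : 7 < ℓ) : ∃ c : ℤ_[ℓ], (ℓ.choose 2 : ℤ_[ℓ]) = ℓ * c ∧ 2 * c = ℓ - 1 := by
  have hp : ℓ.Prime := Fact.out
  obtain ⟨c, hc⟩ := hp.dvd_choose_self (k := 2) two_ne_zero (by omega)
  refine ⟨c, by rw [hc, Nat.cast_mul], ?_⟩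
  obtain ⟨q, rfl⟩ := Nat.exists_eq_add_of_le' (show 1 ≤ ℓ by omega)
  have e := Nat.descFactorial_eq_factorial_mul_choose (q + 1) 2
  rw [hc] at e
  simp only [Nat.descFactorial, Nat.factorial, Nat.sub_zero, Nat.add_sub_cancel] at e
  have e2 : 2 * c = q := Nat.eq_of_mul_eq_mul_left (Nat.succ_pos q) (by linarith)
  have e3 := congrArg (Nat.cast : ℕ → ℤ_[q + 1]) e2
  push_cast at e3 ⊢
  linear_combination e3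

theorem mxser_three (hℓ : 7 < ℓ) :
    ∃ c : ℤ_[ℓ], (ℓ.choose 3 : ℤ_[ℓ]) = ℓ * c ∧ 6 * c = (ℓ - 1) * (ℓ - 2) := by
  have hp : ℓ.Prime := Fact.out
  obtain ⟨c, hc⟩ := hp.dvd_choose_self (k := 3) three_ne_zero (by omega)
  refine ⟨c, by rw [hc, Nat.cast_mul], ?_⟩
  obtain ⟨q, rfl⟩ := Nat.exists_eq_add_of_le' (show 2 ≤ ℓ by omega)
  have e := Nat.descFactorial_eq_factorial_mul_choose (q + 2) 3
  rw [hc] at e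
  simp only [Nat.descFactorial, Nat.factorial, Nat.sub_zero, Nat.add_sub_cancel,
    show q + 2 - 1 = q + 1 from rfl] at e
  have e2 : 6 * c = (q + 1) * q := Nat.eq_of_mul_eq_mul_left (by omega : 0 < q + 2) (by linarith)
  have e3 := congrArg (Nat.cast : ℕ → ℤ_[q + 2]) e2
  push_cast at e3 ⊢
  linear_combination e3

/-- Binomial theorem (`Commute.add_pow` or in `Algebra.adjoin`): `ℓ ∣ choose ℓ j` for `0 < j < ℓ`,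
`a^4 = ℓ • w`, `a^ℓ = a^8 a^(ℓ-8)`, `2 choose ℓ 2 = ℓ (ℓ-1)`, `6 choose ℓ 3 = ℓ (ℓ-1) (ℓ-2)`. -/
theorem pow_prime {A : Type*} [Ring A] [Algebra ℤ_[ℓ] A] (hℓ : 7 < ℓ) {a w : A}
    (h : a ^ 4 = (ℓ : ℤ_[ℓ]) • w) :
    ∃ y z : A, (1 + a) ^ ℓ = 1 + (ℓ : ℤ_[ℓ]) • y ∧ (6 : ℤ_[ℓ]) • y = lg a + (ℓ : ℤ_[ℓ]) • z := by
  have hp : ℓ.Prime := Fact.out
  obtain ⟨c2, a2, b2⟩ := mxser_two hℓ
  obtain ⟨c3, a3, b3⟩ := mxser_three hℓ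
  obtain ⟨q, hq⟩ := Nat.exists_eq_add_of_le' (show 8 ≤ ℓ by omega)
  have hd : ∀ m ∈ Finset.range (q + 4), ∃ d : ℕ, ℓ.choose (m + 1 + 1 + 1 + 1) = ℓ * d :=
    fun m hm => hp.dvd_choose_self (by omega) (by
      have := Finset.mem_range.1 hm
      omega)
  choose! d hd using hd
  have e := (Commute.one_right a).add_pow ℓ
  rw [Finset.sum_range_succ, show ℓ = q + 4 + 1 + 1 + 1 + 1 by omega, Finset.sum_range_succ',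
    Finset.sum_range_succ', Finset.sum_range_succ', Finset.sum_range_succ',
    ← show ℓ = q + 4 + 1 + 1 + 1 + 1 by omega] at e
  simp only [one_pow, mul_one, mxser_cast (ℓ := ℓ)] at e
  have e1 : ∑ m ∈ Finset.range (q + 4), (ℓ.choose (m + 1 + 1 + 1 + 1) : ℤ_[ℓ]) •
      a ^ (m + 1 + 1 + 1 + 1) =
      ((ℓ : ℤ_[ℓ]) * ℓ) • ∑ m ∈ Finset.range (q + 4), (d m : ℤ_[ℓ]) • (w * a ^ m) := by
    rw [Finset.smul_sum]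
    refine Finset.sum_congr rfl fun m hm => ?_
    rw [hd m hm, show m + 1 + 1 + 1 + 1 = 4 + m by omega, pow_add, h, smul_mul_assoc]
    push_cast
    module
  have e2 : a ^ ℓ = ((ℓ : ℤ_[ℓ]) * ℓ) • (w * w * a ^ q) := by
    calc a ^ ℓ = a ^ 4 * a ^ 4 * a ^ q := by rw [← pow_add, ← pow_add, hq, add_comm]
      _ = _ := by simp only [h, smul_mul_assoc, mul_smul_comm, smul_smul]
  rw [e1, e2] at e
  generalize ∑ m ∈ Finset.range (q + 4), (d m : ℤ_[ℓ]) • (w * a ^ m) = s at e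
  generalize w * w * a ^ q = t at e
  simp only [zero_add, Nat.choose_self, Nat.choose_zero_right, Nat.choose_one_right, pow_zero,
    pow_one, Nat.reduceAdd, Nat.cast_one, one_smul, a2, a3] at e
  refine ⟨a + c2 • a ^ 2 + c3 • a ^ 3 + (ℓ : ℤ_[ℓ]) • (s + t),
    (3 : ℤ_[ℓ]) • a ^ 2 + ((ℓ : ℤ_[ℓ]) - 3) • a ^ 3 + (6 : ℤ_[ℓ]) • (s + t), ?_, ?_⟩
  · rw [add_comm 1 a, e]
    module
  · rw [mxser_lg (ℓ := ℓ)]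
    linear_combination (norm := module) b2 • ((3 : ℤ_[ℓ]) • a ^ 2) + b3 • a ^ 3

theorem mxser_exp {A : Type*} [Ring A] [Algebra ℤ_[ℓ] A] (t : ℤ_[ℓ]) (y : A) (k : ℕ) :
    ∃ z : A, (1 + t • y) ^ k =
      1 + ((k : ℤ_[ℓ]) * t) • y + ((k.choose 2 : ℤ_[ℓ]) * t ^ 2) • (y * y) + t ^ 3 • z := by
  induction k with
  | zero => exact ⟨0, by simp⟩
  | succ k ih =>
    obtain ⟨z, hz⟩ := ih
    refine ⟨(k.choose 2 : ℤ_[ℓ]) • (y * y * y) + z + t • (z * y), ?_⟩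
    rw [pow_succ, hz, Nat.choose_succ_succ' k 1, Nat.choose_one_right]
    simp only [mul_add, add_mul, mul_one, one_mul, smul_mul_assoc, mul_smul_comm]
    push_cast
    module

theorem mxser_tower {A : Type*} [Ring A] [Algebra ℤ_[ℓ] A] (hℓ : 7 < ℓ) (y : A) (m : ℕ) :
    ∃ z : A, (1 + (ℓ : ℤ_[ℓ]) • y) ^ ℓ ^ m =
      1 + (ℓ : ℤ_[ℓ]) ^ (m + 1) • (y + (ℓ : ℤ_[ℓ]) • z) := by
  obtain ⟨c2, a2, -⟩ := mxser_two hℓ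
  induction m with
  | zero => exact ⟨0, by simp⟩
  | succ m ih =>
    obtain ⟨z, hz⟩ := ih
    obtain ⟨z', hz'⟩ := mxser_exp ((ℓ : ℤ_[ℓ]) ^ (m + 1)) (y + (ℓ : ℤ_[ℓ]) • z) ℓ
    rw [pow_succ ℓ m, pow_mul, hz, hz', a2]
    generalize (y + (ℓ : ℤ_[ℓ]) • z) * (y + (ℓ : ℤ_[ℓ]) • z) = v
    exact ⟨z + (c2 * (ℓ : ℤ_[ℓ]) ^ m) • v + ((ℓ : ℤ_[ℓ]) ^ m) ^ 2 • z', by module⟩

/-- `(1 + ℓ^n y)^k = 1 + ℓ^n (k y + ℓ^n z)` by induction on `k`, and for `k = ℓ` odd, `n ≥ 1`: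
`(1 + ℓ^n y)^ℓ = 1 + ℓ^(n+1) (y + ℓ z)`. Write `k ℓ^m = k' ℓ^(m+e)` with `ℓ ∤ k'`. -/
theorem pow_lead {A : Type*} [Ring A] [Algebra ℤ_[ℓ] A] (hℓ : 7 < ℓ) (y : A) {k : ℕ} (hk : k ≠ 0) :
    ∃ c e : ℕ, ¬ ℓ ∣ c ∧ ∀ m : ℕ, ∃ z : A, (1 + (ℓ : ℤ_[ℓ]) • y) ^ (k * ℓ ^ m) =
      1 + (ℓ : ℤ_[ℓ]) ^ (m + e + 1) • ((c : ℤ_[ℓ]) • y + (ℓ : ℤ_[ℓ]) • z) := by
  have hp : ℓ.Prime := Fact.out
  obtain ⟨e, c, hc, rfl⟩ := Nat.exists_eq_pow_mul_and_not_dvd hk ℓ hp.ne_one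
  refine ⟨c, e, hc, fun m => ?_⟩
  obtain ⟨z, hz⟩ := mxser_tower hℓ y (m + e)
  obtain ⟨z', hz'⟩ := mxser_exp ((ℓ : ℤ_[ℓ]) ^ (m + e + 1)) (y + (ℓ : ℤ_[ℓ]) • z) c
  rw [show ℓ ^ e * c * ℓ ^ m = ℓ ^ (m + e) * c by ring, pow_mul, hz, hz']
  generalize (y + (ℓ : ℤ_[ℓ]) • z) * (y + (ℓ : ℤ_[ℓ]) • z) = v
  exact ⟨(c : ℤ_[ℓ]) • z + ((c.choose 2 : ℤ_[ℓ]) * (ℓ : ℤ_[ℓ]) ^ (m + e)) • v +
    ((ℓ : ℤ_[ℓ]) * ((ℓ : ℤ_[ℓ]) ^ (m + e)) ^ 2) • z', by module⟩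

/-- Serre's trick. `σ ^ k ∈ U` for some `k ≠ 0` (`Subgroup.pow_mem_of_index_ne_zero_of_dvd` or the
normal core); `ρ σ ^ (ℓ k ℓ^m)`; a subsequence of the `z` converges (`ℤ_[ℓ]` is compact,
`CompactSpace.tendsto_subseq`); `tng_of_limit`; multiply by the unit `6 / c`. -/
theorem serre {Γ : Type} [Group Γ] (hℓ : 7 < ℓ) (ρ : Γ →* GL ν ℤ_[ℓ]) (U : Subgroup Γ)
    [U.FiniteIndex] (σ : Γ)
    (h : ∀ i j, ‖(((ρ σ : Matrix ν ν ℤ_[ℓ]) - 1) ^ 4 : Matrix ν ν ℤ_[ℓ]) i j‖ < 1) :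
    ∃ Y : Matrix ν ν ℤ_[ℓ], Y.map (toOm ℓ) ∈ tng (imU ρ U) ∧
      ∀ i j, ‖(Y - lg ((ρ σ : Matrix ν ν ℤ_[ℓ]) - 1) : Matrix ν ν ℤ_[ℓ]) i j‖ < 1 := by
  have hp : ℓ.Prime := Fact.out
  choose w hw using fun i j => (PadicInt.norm_lt_one_iff_dvd _).1 (h i j)
  obtain ⟨y, z0, h1, h2⟩ := pow_prime (a := (ρ σ : Matrix ν ν ℤ_[ℓ]) - 1) (w := Matrix.of w) hℓ
    (Matrix.ext fun i j => hw i j)
  rw [add_sub_cancel] at h1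
  obtain ⟨k, hk, -, hU⟩ := U.exists_pow_mem_of_index_ne_zero Subgroup.FiniteIndex.index_ne_zero σ
  obtain ⟨c, e, hc, hz⟩ := pow_lead (ℓ := ℓ) hℓ y hk.ne'
  choose z hz using hz
  have : CompactSpace (Matrix ν ν ℤ_[ℓ]) := inferInstanceAs (CompactSpace (ν → ν → ℤ_[ℓ]))
  have : FirstCountableTopology (Matrix ν ν ℤ_[ℓ]) :=
    inferInstanceAs (FirstCountableTopology (ν → ν → ℤ_[ℓ]))
  obtain ⟨z1, φ, hφ, hlim⟩ := CompactSpace.tendsto_subseq z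
  have key := tng_of_limit (imU ρ U) (fun j => (c : ℤ_[ℓ]) • y + (ℓ : ℤ_[ℓ]) • z (φ j))
    (fun j => φ j + e + 1) (Y := (c : ℤ_[ℓ]) • y + (ℓ : ℤ_[ℓ]) • z1)
    (Filter.tendsto_atTop_mono (fun j => by
      show φ j ≤ φ j + e + 1
      omega) hφ.tendsto_atTop)
    ((hlim.const_smul (ℓ : ℤ_[ℓ])).const_add _) fun j => by
      refine ⟨(σ ^ k) ^ (ℓ * ℓ ^ φ j), U.pow_mem hU _, ?_⟩
      rw [← hz, ← h1, ← pow_mul, ← pow_mul, map_pow, Units.val_pow_eq_pow_val,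
        show k * (ℓ * ℓ ^ φ j) = ℓ * (k * ℓ ^ φ j) by ring]
  obtain ⟨u, hu⟩ : ∃ u : ℤ_[ℓ], u * c = 1 := by
    have : IsUnit (c : ℤ_[ℓ]) := PadicInt.isUnit_iff.2
      (PadicInt.norm_natCast_eq_one_iff.2 (hp.coprime_iff_not_dvd.2 hc))
    exact this.exists_left_inv
  refine ⟨(6 * u) • ((c : ℤ_[ℓ]) • y + (ℓ : ℤ_[ℓ]) • z1), ?_, fun i j => ?_⟩
  · rw [Matrix.map_smul' _ _ _ (map_mul (toOm ℓ))]
    exact Submodule.smul_mem _ _ key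
  · have e1 : (6 * u) • ((c : ℤ_[ℓ]) • y + (ℓ : ℤ_[ℓ]) • z1) - lg ((ρ σ : Matrix ν ν ℤ_[ℓ]) - 1) =
        (ℓ : ℤ_[ℓ]) • (z0 + (6 * u) • z1) := by
      linear_combination (norm := module) h2 + hu • ((6 : ℤ_[ℓ]) • y)
    rw [e1]
    exact (PadicInt.norm_lt_one_iff_dvd _).2 (dvd_mul_right _ _)

end

end Pool.Agent.M4.Mx
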