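import Pool.Agent.Lib.MP_33b3f9_ag.M4.MxNine
import Pool.Agent.Lib.MP_33b3f9_ag.M4.MxSer
import Pool.Agent.Lib.MP_33b3f9_ag.M4.MxInd
import Pool.Agent.Lib.MP_33b3f9_ag.M4.MxCube
import Pool.Agent.Lib.MP_33b3f9_ag.M4.MxRkB

open Matrix Function
open scoped Kronecker

namespace Pool.Agent.M4.Mx

open Pool.Agent.Lib.MP_33b3f9_ag

noncomputable section

section cg

variable {ν : Type} [Fintype ν] [DecidableEq ν] (ℓ : ℕ) [Fact ℓ.Prime]

variable (ν) in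
/-- pairs of an integral and a rational matrix that are congruent modulo `ℓ` -/
def cgR : Subring (Matrix ν ν ℤ_[ℓ] × Matrix ν ν ℚ) where
  carrier := {x | ∃ y : Matrix ν ν ℤ_[ℓ],
    (PadicInt.Coe.ringHom (p := ℓ)).mapMatrix y = (Rat.castHom ℚ_[ℓ]).mapMatrix x.2 ∧
      (PadicInt.toZMod (p := ℓ)).mapMatrix x.1 = (PadicInt.toZMod (p := ℓ)).mapMatrix y}
  one_mem' := ⟨1, by simp, rfl⟩
  zero_mem' := ⟨0, by simp, rfl⟩
  mul_mem' := by
    rintro a b ⟨y, h1, h2⟩ ⟨z, h3, h4⟩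
    exact ⟨y * z, by rw [map_mul, h1, h3, Prod.snd_mul, map_mul],
      by rw [Prod.fst_mul, map_mul, h2, h4, map_mul]⟩
  add_mem' := by
    rintro a b ⟨y, h1, h2⟩ ⟨z, h3, h4⟩
    exact ⟨y + z, by rw [map_add, h1, h3, Prod.snd_add, map_add],
      by rw [Prod.fst_add, map_add, h2, h4, map_add]⟩
  neg_mem' := by
    rintro a ⟨y, h1, h2⟩
    exact ⟨-y, by rw [map_neg, h1, Prod.snd_neg, map_neg], by rw [Prod.fst_neg, map_neg, h2, map_neg]⟩

variable {ℓ}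

lemma norm_lt_iff (x y : ℤ_[ℓ]) : ‖x - y‖ < 1 ↔ PadicInt.toZMod x = PadicInt.toZMod y := by
  rw [← sub_eq_zero, ← map_sub, ← RingHom.mem_ker, PadicInt.ker_toZMod,
    IsLocalRing.mem_maximalIdeal, PadicInt.mem_nonunits]

lemma mem_cgR {X : Matrix ν ν ℤ_[ℓ]} {q : Matrix ν ν ℚ} :
    (X, q) ∈ cgR ν ℓ ↔ ∀ i j, ‖(X i j : ℚ_[ℓ]) - (q i j : ℚ_[ℓ])‖ < 1 := by
  constructor
  · rintro ⟨y, h1, h2⟩ i j
    have e1 : (y i j : ℚ_[ℓ]) = q i j := congrFun (congrFun h1 i) j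
    rw [← e1, ← PadicInt.coe_sub]
    exact (norm_lt_iff _ _).2 (congrFun (congrFun h2 i) j)
  · intro h
    have hq : ∀ i j, ‖(q i j : ℚ_[ℓ])‖ ≤ 1 := fun i j => by
      have e : (q i j : ℚ_[ℓ]) = X i j + -(X i j - q i j) := by ring
      rw [e]
      exact (Padic.nonarchimedean _ _).trans (max_le (X i j).2 (by rw [norm_neg]; exact (h i j).le))
    refine ⟨fun i j => ⟨_, hq i j⟩, rfl, ?_⟩
    ext i j
    exact (norm_lt_iff _ _).1 (h i j)

lemma serre' {Γ : Type} [Group Γ] (hℓ : 7 < ℓ) (ρ : Γ →* GL ν ℤ_[ℓ]) (U : Subgroup Γ)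
    [U.FiniteIndex] (σ : Γ) {q : Matrix ν ν ℚ} (h : ((ρ σ : Matrix ν ν ℤ_[ℓ]), q) ∈ cgR ν ℓ)
    (hq : (q - 1) ^ 4 = 0) :
    ∃ Y : Matrix ν ν ℤ_[ℓ], Y.map (toOm ℓ) ∈ tng (imU ρ U) ∧ (Y, lg (q - 1)) ∈ cgR ν ℓ := by
  have h1 : ((ρ σ : Matrix ν ν ℤ_[ℓ]) - 1, q - 1) ∈ cgR ν ℓ := (cgR ν ℓ).sub_mem h (cgR ν ℓ).one_mem
  obtain ⟨Y, hY, hY'⟩ := serre hℓ ρ U σ fun i j => by
    have h2 : (((ρ σ : Matrix ν ν ℤ_[ℓ]) - 1) ^ 4, (q - 1) ^ 4) ∈ cgR ν ℓ := (cgR ν ℓ).pow_mem h1 4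
    rw [hq] at h2
    simpa using mem_cgR.1 h2 i j
  refine ⟨Y, hY, ?_⟩
  have h2 : (Y - lg ((ρ σ : Matrix ν ν ℤ_[ℓ]) - 1), (0 : Matrix ν ν ℚ)) ∈ cgR ν ℓ :=
    mem_cgR.2 fun i j => by
      rw [Matrix.zero_apply, Rat.cast_zero, sub_zero]
      exact hY' i j
  have h3 := (cgR ν ℓ).add_mem h2 (lg_mem _ h1)
  rwa [lg_prod, Prod.mk_add_mk, sub_add_cancel, zero_add] at h3

end cg

section rat

variable {ν : Type} [Fintype ν] [DecidableEq ν] {Ω : Type*} [Field Ω] [Algebra ℚ Ω]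
  {F : Type} [Field F] [NumberField F]

/-- the matrix `1 + t x` over the ring of integers -/
def el (t : NumberField.RingOfIntegers F) (v : Fin 4) : M2 (NumberField.RingOfIntegers F) :=
  1 + t • bas _ v

omit [NumberField F] in
lemma el_map {S : Type*} [CommRing S] (φ : F →+* S) (t : NumberField.RingOfIntegers F)
    (v : Fin 4) : ((el t v).map (↑) : M2 F).map φ = 1 + φ t • bas S v := by
  ext i j
  fin_cases v <;> fin_cases i <;> fin_cases j <;> simp [el, bas]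

omit [NumberField F] in
lemma el_det1 (t : NumberField.RingOfIntegers F) : (el t 1).det = 1 := by
  simp [el, bas, det_fin_two]

omit [NumberField F] in
lemma el_det2 (t : NumberField.RingOfIntegers F) : (el t 2).det = 1 := by
  simp [el, bas, det_fin_two]

omit [NumberField F] in
lemma lg_N (f : Fr ν Ω) (s : Fin 3 → F →+* Ω) {N : M2 F → Matrix ν ν ℚ}
    (hN : ∀ g, (N g).map (algebraMap ℚ Ω) = f.T fun i => g.map (s i))
    (t : NumberField.RingOfIntegers F) {v : Fin 4} (hv : bas Ω v * bas Ω v = 0) :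
    (algebraMap ℚ Ω).mapMatrix (lg (N ((el t v).map (↑)) - 1)) =
        f.S (fun i => s i t) ((6 : Ω) • bas Ω v) ∧
      (N ((el t v).map (↑)) - 1) ^ 4 = 0 := by
  have h1 : (algebraMap ℚ Ω).mapMatrix (N ((el t v).map (↑)) - 1) =
      f.T (fun i => 1 + s i t • bas Ω v) - 1 := by
    rw [map_sub, map_one, RingHom.mapMatrix_apply, hN]
    simp only [el_map]
  have h2 := f.lg_T (fun i => s i t) hv
  refine ⟨by rw [map_lg, h1, h2.1], ?_⟩
  have h3 : (algebraMap ℚ Ω).mapMatrix ((N ((el t v).map (↑)) - 1) ^ 4) = 0 := by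
    rw [map_pow, h1, h2.2]
  ext i j
  exact (map_eq_zero (algebraMap ℚ Ω)).1 (congrFun (congrFun h3 i) j)

lemma exists_basis (hF : Module.finrank ℚ F = 3) (s : Fin 3 → F →+* Ω) (hs : s.Injective) :
    ∃ b : Fin 3 → NumberField.RingOfIntegers F, (Matrix.of fun k i => s i (b k)).det ≠ 0 := by
  let B := NumberField.integralBasis F
  have hc : Fintype.card (Module.Free.ChooseBasisIndex ℤ (NumberField.RingOfIntegers F)) = 3 := by
    rw [← hF, Module.finrank_eq_card_basis B]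
  let e := Fintype.equivFinOfCardEq hc
  refine ⟨fun k => NumberField.RingOfIntegers.basis F (e.symm k), fun h0 => ?_⟩
  obtain ⟨c, hc0, hc1⟩ := Matrix.exists_mulVec_eq_zero_iff.2 h0
  have hli := (linearIndependent_monoidHom F Ω).comp (fun i => (s i : F →* Ω))
    (fun i j h => hs (RingHom.ext fun x => DFunLike.congr_fun h x))
  refine hc0 (funext (Fintype.linearIndependent_iff.1 hli c (funext fun x => ?_)))
  let L : F →ₗ[ℚ] Ω := ∑ i, c i • (s i).toRatAlgHom.toLinearMap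
  have hL : L = 0 := B.ext fun k => by
    have h1 := congrFun hc1 (e k)
    simp only [mulVec, dotProduct, of_apply, Equiv.symm_apply_apply, Pi.zero_apply] at h1
    simp only [L, B, LinearMap.sum_apply, LinearMap.smul_apply, AlgHom.toLinearMap_apply,
      RingHom.toRatAlgHom_apply, smul_eq_mul, LinearMap.zero_apply, NumberField.integralBasis_apply]
    rw [← h1]
    exact Finset.sum_congr rfl fun i _ => mul_comm _ _
  have h2 := LinearMap.congr_fun hL x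
  simpa [L] using h2

omit [NumberField F] in
/-- the nine rational matrices are independent -/
lemma nine_indep (f : Fr ν Ω) (s : Fin 3 → F →+* Ω) {N : M2 F → Matrix ν ν ℚ}
    (hN : ∀ g, (N g).map (algebraMap ℚ Ω) = f.T fun i => g.map (s i))
    {b : Fin 3 → NumberField.RingOfIntegers F} (hb : (Matrix.of fun k i => s i (b k)).det ≠ 0) :
    LinearIndependent ℚ fun (p : Fin 3 × Fin 3) (ij : ν × ν) =>
      nine (fun k => lg (N ((el (b k) 1).map (↑)) - 1)) (lg (N ((el (F := F) 1 1).map (↑)) - 1))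
        (lg (N ((el (F := F) 1 2).map (↑)) - 1)) p ij.1 ij.2 := by
  have : CharZero Ω := algebraRat.charZero Ω
  rw [Fintype.linearIndependent_iff]
  intro g hg p
  refine (map_eq_zero (algebraMap ℚ Ω)).1 (Fintype.linearIndependent_iff.1 (f.S_indep _ hb)
    (fun p => algebraMap ℚ Ω (g p)) ?_ p)
  have h1 : (fun i => s i ((1 : NumberField.RingOfIntegers F) : F)) = 1 := by
    funext i
    simp
  have h2 : ∀ p, (algebraMap ℚ Ω).mapMatrix (nine (fun k => lg (N ((el (b k) 1).map (↑)) - 1))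
      (lg (N ((el (F := F) 1 1).map (↑)) - 1)) (lg (N ((el (F := F) 1 2).map (↑)) - 1)) p) =
      (![432, -432, 36] p.2 : Ω) • f.S (fun i => s i (b p.1)) (bas Ω p.2.succ) := fun p => by
    rw [map_nine, (lg_N f s hN 1 bas_sq1).1, (lg_N f s hN 1 bas_sq2).1, h1]
    simp only [(lg_N f s hN _ bas_sq1).1]
    exact f.nine_S (fun k i => s i (b k)) p
  ext i j
  have h3 := congrArg (algebraMap ℚ Ω) (congrFun hg (i, j))
  simp only [Finset.sum_apply, Pi.smul_apply, smul_eq_mul, map_sum, map_mul, Pi.zero_apply,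
    map_zero] at h3
  rw [Matrix.sum_apply, Matrix.zero_apply, ← h3]
  refine Finset.sum_congr rfl fun p _ => ?_
  rw [Matrix.smul_apply, smul_eq_mul]
  exact congrArg _ (congrFun (congrFun (h2 p) i) j).symm

/-- the cube lies in the closure of the image of a subgroup of finite index -/
theorem m1_core (hF : Module.finrank ℚ F = 3) (f : Fr ν (AlgebraicClosure ℚ))
    (s : Fin 3 → F →+* AlgebraicClosure ℚ) (hs : s.Injective) {N : M2 F → Matrix ν ν ℚ}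
    (hN : ∀ g, (N g).map (algebraMap ℚ _) = f.T fun i => g.map (s i)) :
    ∃ ℓ₁ : ℕ, ∀ (ℓ : ℕ) [Fact ℓ.Prime], ℓ₁ < ℓ → ∀ {Γ : Type} [Group Γ] (ρ : Γ →* GL ν ℤ_[ℓ])
      (U : Subgroup Γ) [U.FiniteIndex],
      (∀ (σ : Γ) (n : ℕ), ∃ (z : ℤ) (g : M2 (NumberField.RingOfIntegers F)), ∀ i j,
        ‖((ρ σ : Matrix ν ν ℤ_[ℓ]) i j : ℚ_[ℓ]) - z * (N (g.map (↑)) i j : ℚ_[ℓ])‖ ≤
          (ℓ : ℝ) ^ (-n : ℤ)) →
      (∀ g : M2 (NumberField.RingOfIntegers F), g.det = 1 → ∃ σ : Γ, ∀ i j,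
        ‖((ρ σ : Matrix ν ν ℤ_[ℓ]) i j : ℚ_[ℓ]) - (N (g.map (↑)) i j : ℚ_[ℓ])‖ < 1) →
      ((fun σ => GeneralLinearGroup.det (ρ σ)) '' U).Infinite →
      ∃ f' : Fr ν (Om ℓ), ∀ a, (f'.T a).det ≠ 0 → f'.T a ∈ mcl (imU ρ U : Set _) := by
  obtain ⟨b, hb⟩ := exists_basis hF s hs
  obtain ⟨ℓ₁, h₁⟩ := indep_perturb _ (nine_indep f s hN hb)
  refine ⟨max ℓ₁ 7, fun ℓ _ hℓ Γ _ ρ U _ ha hb' hinf => ?_⟩
  have hℓ7 : 7 < ℓ := (le_max_right _ _).trans_lt hℓ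
  have : Algebra.IsAlgebraic ℚ (AlgebraicClosure ℚ) := AlgebraicClosure.isAlgebraic ℚ
  let ι : AlgebraicClosure ℚ →+* Om ℓ := (IsAlgClosed.lift (R := ℚ) (S := AlgebraicClosure ℚ)
    (M := Om ℓ)).toRingHom
  have hinj : Injective (toOm ℓ) := (algebraMap ℚ_[ℓ] (Om ℓ)).injective.comp Subtype.val_injective
  have hdet : ∀ σ, ((ρ σ : Matrix ν ν ℤ_[ℓ]).map (toOm ℓ)).det =
      toOm ℓ (GeneralLinearGroup.det (ρ σ) : ℤ_[ℓ]ˣ) := fun σ => ((toOm ℓ).map_det _).symm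
  refine ⟨f.map ι, ?_⟩
  have hrk : ∀ t ∈ imU ρ U, Rk ((f.map ι).Q * t * (f.map ι).P) := by
    rintro _ ⟨σ, -, rfl⟩
    choose z g hg using ha σ
    refine rk_limit (f.map ι) ((ρ σ : Matrix ν ν ℤ_[ℓ]).map (↑))
      (fun n => Matrix.of fun i j => z n * (N ((g n).map (↑)) i j : ℚ_[ℓ])) hg fun n => ?_
    have e1 : (Matrix.of fun i j => (z n : ℚ_[ℓ]) * (N ((g n).map (↑)) i j : ℚ_[ℓ])).map
        (algebraMap ℚ_[ℓ] (Om ℓ)) = (f.map ι).T fun r => (![(z n : Om ℓ), 1, 1] r) •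
          (((g n).map (↑) : M2 F).map (s r)).map ι := by
      rw [Fr.T_smul, ← f.map_T, ← hN]
      ext i j
      simp [Fin.prod_univ_three]
    rw [e1, Fr.QTP]
    exact rk_tp _
  have hm : ∀ Y ∈ tng (imU ρ U), Y ∈ (f.map ι).m := fun Y hY => (f.map ι).tng_m hrk hY
  have key : ∀ (t : NumberField.RingOfIntegers F) (v : Fin 4), (el t v).det = 1 →
      bas (AlgebraicClosure ℚ) v * bas _ v = 0 → ∃ Y : Matrix ν ν ℤ_[ℓ],
        Y.map (toOm ℓ) ∈ tng (imU ρ U) ∧ (Y, lg (N ((el t v).map (↑)) - 1)) ∈ cgR ν ℓ := by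
    intro t v h1 h2
    obtain ⟨σ, hσ⟩ := hb' _ h1
    exact serre' hℓ7 ρ U σ (mem_cgR.2 hσ) (lg_N f s hN t h2).2
  choose E hE hE' using fun k => key (b k) 1 (el_det1 _) bas_sq1
  obtain ⟨E1, h1, h1'⟩ := key 1 1 (el_det1 _) bas_sq1
  obtain ⟨F1, h2, h2'⟩ := key 1 2 (el_det2 _) bas_sq2
  have hw := h₁ ℓ ((le_max_left _ _).trans_lt hℓ) (fun p ij => nine E E1 F1 p ij.1 ij.2)
    fun p ij => by
      have h3 := nine_mem _ hE' h1' h2' p
      rw [nine_prod] at h3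
      exact mem_cgR.1 h3 ij.1 ij.2
  have hb1 : ∀ X ∈ tng (imU ρ U), ∀ Y ∈ tng (imU ρ U),
      br X Y ∈ (f.map ι).sl ∧ br X Y ∈ tng (imU ρ U) := fun X hX Y hY =>
    ⟨(f.map ι).br_sl (hm X hX) (hm Y hY), tng_lie hX hY⟩
  have hn : ∀ p, (toOm ℓ).mapMatrix (nine E E1 F1 p) ∈ (f.map ι).sl ∧
      (toOm ℓ).mapMatrix (nine E E1 F1 p) ∈ tng (imU ρ U) := by
    rintro ⟨k, v⟩
    rw [map_nine]
    fin_cases v
    · exact hb1 _ (hb1 _ (hE k) _ h2).2 _ h1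
    · exact hb1 _ (hb1 _ (hE k) _ h2).2 _ h2
    · exact hb1 _ (hE k) _ h2
  have hsl := (f.map ι).sl_le (tng (imU ρ U)) (fun p => (toOm ℓ).mapMatrix (nine E E1 F1 p))
    (LinearIndependent.of_comp (LinearMap.pi fun ij : ν × ν => Matrix.entryLinearMap _ _ ij.1 ij.2)
      hw) (fun p => (hn p).1) fun p => (hn p).2
  refine (f.map ι).cube_mcl _ (fun r => ⟨hsl (Submodule.subset_span ⟨(r, 0), rfl⟩),
    hsl (Submodule.subset_span ⟨(r, 1), rfl⟩)⟩) (fun t ht => ⟨?_, (f.map ι).eq_T (hrk t ht)⟩) ?_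
  · obtain ⟨σ, -, rfl⟩ := ht
    rw [hdet]
    exact ((Units.isUnit _).map (toOm ℓ)).ne_zero
  · refine (hinf.image (f := fun x : ℤ_[ℓ]ˣ => toOm ℓ x) (hinj.comp Units.val_injective).injOn).mono ?_
    rintro _ ⟨_, ⟨σ, hσ, rfl⟩, rfl⟩
    exact ⟨_, ⟨σ, hσ, rfl⟩, hdet σ⟩

end rat

end

end Pool.Agent.M4.Mx
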