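import Pool.Agent.Lib.MP_33b3f9_ag.M4.MxGeo
import Pool.Agent.Lib.MP_33b3f9_ag.M4.MxC1
import Pool.Agent.Lib.MP_33b3f9_ag.M4.MxLie

open Matrix Function
open scoped Kronecker

namespace Pool.Agent.M4.Mx

open Pool.Agent.Lib.MP_33b3f9_ag

noncomputable section

variable {ν : Type} [Fintype ν] [DecidableEq ν] {Ω : Type} [Field Ω] [Algebra ℚ Ω]

omit [Fintype ν] [DecidableEq ν] in
lemma evalM_map {A B : Type*} [Field A] [Field B] [Algebra ℚ A] [Algebra ℚ B] (φ : A →+* B)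
    (g : Matrix ν ν A) (P : MvPolynomial (ν × ν) ℚ) : evalM (g.map φ) P = φ (evalM g P) :=
  (MvPolynomial.comp_aeval_apply (fun p : ν × ν => g p.1 p.2) φ.toRatAlgHom P).symm

lemma one_mt (I : Matrix ν ν ℝ) : ∀ P ∈ mtEqns I, evalM (1 : Matrix ν ν Ω) P = 0 := by
  rintro P ⟨S, ⟨-, hS⟩, hP⟩
  have h1 := hS 1 0 (by simp) P hP
  rw [one_smul, zero_smul, add_zero, ← Matrix.map_one (algebraMap ℚ ℝ) (map_zero _) (map_one _),
    evalM_map, map_eq_zero] at h1
  rw [← Matrix.map_one (algebraMap ℚ Ω) (map_zero _) (map_one _), evalM_map, h1, map_zero]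

variable (Ω) in
/-- the Mumford-Tate group as a monoid of matrices -/
def mtMon (I : Matrix ν ν ℝ) : Submonoid (Matrix ν ν Ω) where
  carrier := mtSet Ω I
  one_mem' := ⟨by simp, one_mt I⟩
  mul_mem' := by
    rintro a b ⟨ha, ha'⟩ ⟨hb, hb'⟩
    refine ⟨by rw [det_mul]; exact mul_ne_zero ha hb, ?_⟩
    rintro P ⟨S, hS, hP⟩
    exact alg_mul hS.1 ha hb (fun Q hQ => ha' Q ⟨S, hS, hQ⟩) (fun Q hQ => hb' Q ⟨S, hS, hQ⟩) P hP

lemma mt_closed {I : Matrix ν ν ℝ} {g : Matrix ν ν Ω} (hg : g ∈ mcl (mtMon Ω I : Set _))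
    (hd : g.det ≠ 0) : g ∈ mtMon Ω I := by
  refine ⟨hd, fun P hP => ?_⟩
  have h1 := hg (MvPolynomial.map (algebraMap ℚ Ω) P) fun h hh => by
    rw [evalM, MvPolynomial.aeval_map_algebraMap]
    exact hh.2 P hP
  rwa [evalM, MvPolynomial.aeval_map_algebraMap] at h1

omit [Algebra ℚ Ω] in
lemma tng_of_line {T : Submonoid (Matrix ν ν Ω)} {Y : Matrix ν ν Ω} {S : Set Ω} (hS : S.Infinite)
    (h : ∀ t ∈ S, 1 + t • Y ∈ T) : Y ∈ tng T := by
  intro P hP
  have h0 : MvPolynomial.aeval (fun p : ν × ν => (1 + (Polynomial.X : Polynomial Ω) •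
      Y.map (algebraMap Ω _) : Matrix ν ν (Polynomial Ω)) p.1 p.2) P = 0 := by
    refine Polynomial.eq_zero_of_infinite_isRoot _ (hS.mono fun t ht => ?_)
    have h1 := igExp_ev Y t P
    rw [Polynomial.coe_aeval_eq_eval] at h1
    exact h1.symm.trans (hP _ (h t ht))
  have h2 := igExp_ev Y (DualNumber.eps : DualNumber Ω) P
  rw [h0, map_zero] at h2
  exact h2

lemma inf_rat : (Set.range (algebraMap ℚ Ω)).Infinite :=
  Set.infinite_range_of_injective (algebraMap ℚ Ω).injective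

/-- specialisations of `I` are tangent to the Mumford-Tate group -/
lemma spec_tng {I : Matrix ν ν ℝ} (hI : I * I = -1) {A : Subalgebra ℚ ℝ} {I' : Matrix ν ν A}
    (h : I'.map A.val = I) (φ : A →ₐ[ℚ] Ω) : I'.map φ ∈ tng (mtMon Ω I) := by
  have hinj : Injective fun M : Matrix ν ν A => M.map A.val :=
    Matrix.map_injective Subtype.val_injective
  have h2 : I' * I' = -1 := hinj (by
    have e1 : (I' * I').map A.val = I * I := by
      rw [← h]
      exact Matrix.map_mul (f := A.val)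
    have e2 : (-1 : Matrix ν ν A).map A.val = -1 := by
      ext i j
      by_cases hij : i = j <;> simp [hij]
    simp only [e1, e2, hI])
  have h3 : I'.map φ * I'.map φ = -1 := by
    rw [← Matrix.map_mul (f := φ), h2]
    ext i j
    by_cases hij : i = j <;> simp [hij]
  refine tng_of_line inf_rat ?_
  rintro _ ⟨v, rfl⟩
  constructor
  · have h4 : (1 + algebraMap ℚ Ω v • I'.map φ) * (1 - algebraMap ℚ Ω v • I'.map φ) =
        algebraMap ℚ Ω (1 + v * v) • (1 : Matrix ν ν Ω) := by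
      rw [add_mul, mul_sub, mul_sub, smul_mul_smul_comm, h3, map_add, map_mul, map_one]
      simp only [one_mul, mul_one]
      module
    intro h0
    have h5 := congrArg Matrix.det h4
    rw [det_mul, h0, zero_mul, det_smul, det_one, mul_one] at h5
    have h6 : (1 + v * v : ℚ) ≠ 0 := by nlinarith [mul_self_nonneg v]
    exact pow_ne_zero _ ((map_ne_zero _).2 h6) h5.symm
  · rintro P ⟨S, ⟨-, hS⟩, hP⟩
    have h4 := hS 1 (algebraMap ℚ ℝ v) (by simp) P hP
    let G : Matrix ν ν A := 1 + algebraMap ℚ A v • I'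
    have e1 : ∀ {B : Type} [Field B] [Algebra ℚ B] (ψ : A →ₐ[ℚ] B),
        evalM (1 + algebraMap ℚ B v • I'.map ψ) P =
          ψ (MvPolynomial.aeval (fun p : ν × ν => G p.1 p.2) P) := fun {B} _ _ ψ => by
      rw [MvPolynomial.comp_aeval_apply, evalM]
      congr 2
      funext p
      simp only [G, Matrix.add_apply, Matrix.smul_apply, Matrix.map_apply, smul_eq_mul, map_add,
        map_mul, AlgHom.commutes, Matrix.one_apply, apply_ite ψ, map_one, map_zero]
    rw [one_smul, ← h, e1 A.val] at h4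
    rw [e1 φ, (map_eq_zero_iff _ Subtype.val_injective).1 h4, map_zero]

omit [DecidableEq ν] in
lemma spec_sp {I : Matrix ν ν ℝ} {J : Matrix ν ν ℚ} (hI : Sp (J.map (algebraMap ℚ ℝ)) I)
    {A : Subalgebra ℚ ℝ} {I' : Matrix ν ν A} (h : I'.map A.val = I) (φ : A →ₐ[ℚ] Ω) :
    Sp (J.map (algebraMap ℚ Ω)) (I'.map φ) := by
  have e1 : ∀ {B : Type} [Field B] [Algebra ℚ B] (ψ : A →ₐ[ℚ] B),
      (I'.map ψ)ᵀ * J.map (algebraMap ℚ B) + J.map (algebraMap ℚ B) * I'.map ψ =
        (I'ᵀ * J.map (algebraMap ℚ A) + J.map (algebraMap ℚ A) * I').map ψ := fun {B} _ _ ψ => by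
    ext i j
    simp only [Matrix.add_apply, Matrix.mul_apply, Matrix.map_apply, transpose_apply, map_add,
      map_sum, map_mul, AlgHom.commutes]
  rw [Sp, ← h, e1 A.val] at hI
  have h2 : I'ᵀ * J.map (algebraMap ℚ A) + J.map (algebraMap ℚ A) * I' = 0 := by
    ext i j
    exact congrFun (congrFun hI i) j
  rw [Sp, e1 φ, h2, Matrix.map_zero _ (map_zero _)]

omit [Algebra ℚ Ω] in
/-- a square zero element whose one parameter group consists of similitudes -/
lemma sp_of_sim [CharZero Ω] [Nonempty ν] {E N : Matrix ν ν Ω} (hE : E.det ≠ 0) (hN : N * N = 0)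
    (h : ∀ t : Ω, ∃ m : Ω, (1 + t • N)ᵀ * E * (1 + t • N) = m • E) : Sp E N := by
  obtain ⟨m, hm⟩ := h 1
  obtain ⟨m', hm'⟩ := h (-1)
  have h1 : Nᵀ * E = E * (((m - m') / 2) • (1 : Matrix ν ν Ω) - N) := by
    simp only [transpose_add, transpose_smul, transpose_one, add_mul, mul_add, one_mul, mul_one,
      smul_mul_assoc, mul_smul_comm] at hm hm'
    rw [mul_sub, mul_smul_comm, mul_one]
    have : (2 : Ω) • (Nᵀ * E) = (2 : Ω) • (((m - m') / 2) • E - E * N) := by
      linear_combination (norm := skip) hm - hm'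
      match_scalars <;> ring
    exact smul_right_injective _ two_ne_zero this
  set μ := (m - m') / 2
  have h2 : E * ((μ • (1 : Matrix ν ν Ω) - N) * (μ • (1 : Matrix ν ν Ω) - N)) = 0 := by
    rw [← mul_assoc, ← h1, mul_assoc, ← h1, ← mul_assoc, ← transpose_mul, hN, transpose_zero,
      zero_mul]
  have hu : IsUnit E := (isUnit_iff_isUnit_det E).2 (Ne.isUnit hE)
  have h3 := hu.mul_right_eq_zero.1 h2
  have h4 : (μ * μ) • (1 : Matrix ν ν Ω) = (2 * μ) • N := by
    simp only [sub_mul, mul_sub, smul_mul_assoc, mul_smul_comm, one_mul, mul_one, hN] at h3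
    linear_combination (norm := skip) h3
    match_scalars <;> ring
  have h5 : ((μ * μ) * (μ * μ)) • (1 : Matrix ν ν Ω) = 0 := by
    rw [← mul_one (1 : Matrix ν ν Ω), ← smul_mul_smul_comm, h4, smul_mul_smul_comm, hN, smul_zero]
  have h6 : μ = 0 := by
    have := (smul_eq_zero.1 h5).resolve_right one_ne_zero
    simpa using this
  rw [Sp, h1, h6, zero_smul, zero_sub, mul_neg, neg_add_cancel]

lemma det_map_ne {J : Matrix ν ν ℚ} (hd : J.det ≠ 0) : (J.map (algebraMap ℚ Ω)).det ≠ 0 := by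
  have : (J.map (algebraMap ℚ Ω)).det = algebraMap ℚ Ω J.det := ((algebraMap ℚ Ω).map_det J).symm
  rw [this]
  exact (map_ne_zero _).2 hd

lemma case2 {I : Matrix ν ν ℝ} {J : Matrix ν ν ℚ} (hJ : Jᵀ = -J) (hd : J.det ≠ 0)
    (h : ∀ Z, Sp (J.map (algebraMap ℚ Ω)) Z → Z ∈ tng (mtMon Ω I)) : GEN J I := by
  have : CharZero Ω := algebraRat.charZero Ω
  have hE := MT_skew (algebraMap ℚ Ω) hJ
  have hd' := det_map_ne (Ω := Ω) hd
  intro g hg P hP
  have h1 : g.map (algebraMap ℚ Ω) ∈ mtMon Ω I := by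
    refine sp_gen hE hd' _ (fun u c => ?_) (g := g.map (algebraMap ℚ Ω)) ?_
    · have hu := trans_alt hE u
      refine mt_closed (tng_exp (h _ (sqm_sp hE u)) ?_ c) fun h0 => ?_
      · rw [sqm, vecMulVec_mul_vecMulVec, dotProduct_comm, hu, zero_smul, vecMulVec_zero]
      · have := congrArg Matrix.det (trans_sp hE u hu c)
        rw [det_mul, h0, mul_zero] at this
        exact hd' this.symm
    · rw [← transpose_map, ← Matrix.map_mul, ← Matrix.map_mul, hg]
  have h2 := h1.2 P hP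
  rwa [evalM_map, map_eq_zero] at h2

/-- the Mumford-Tate group contains the cube and is not generic, so it is the cube -/
theorem m2 [IsAlgClosed Ω] [Nonempty ν] (f : Fr ν Ω) {I : Matrix ν ν ℝ} {J : Matrix ν ν ℚ}
    (hI : I * I = -1) (hJ : Jᵀ = -J) (hd : J.det ≠ 0)
    (hIJ : Iᵀ * J.map (Rat.cast : ℚ → ℝ) * I = J.map (Rat.cast : ℚ → ℝ)) (hG : ¬ GEN J I)
    (hc : ∀ a, (f.T a).det ≠ 0 → ∀ P ∈ mtEqns I, evalM (f.T a) P = 0) {g : Matrix ν ν Ω}
    (hg : ∀ P ∈ mtEqns I, evalM g P = 0) : ∃ a, g = f.T a := by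
  have : CharZero Ω := algebraRat.charZero Ω
  have hd' := det_map_ne (Ω := Ω) hd
  have hJ0 : J ≠ 0 := fun h => hd (by rw [h, det_zero])
  obtain ⟨A, I', n, l, X, h1, h2, h3⟩ := comps Ω I
  by_cases hX : ∀ i, (X i).map (algebraMap ℚ Ω) ∈ f.m
  · exact case1 f hI h2 hX hg
  push Not at hX
  obtain ⟨i, hi⟩ := hX
  have hline : ∀ s (x : M2 Ω), x * x = 0 → ∀ t : Ω, 1 + t • f.u s x ∈ mtMon Ω I := by
    intro s x hx t
    have e1 : 1 + t • f.u s x = f.T (update 1 s (1 + t • x)) := by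
      rw [← f.u_apply, map_add, map_one, map_smul]
    have e2 : (1 + t • f.u s x).det ≠ 0 := by
      have e3 : (1 + t • f.u s x) * (1 - t • f.u s x) = 1 := by
        rw [add_mul, mul_sub, mul_sub, smul_mul_smul_comm, ← map_mul, hx, map_zero]
        simp
      exact (isUnit_det_of_right_inverse e3).ne_zero
    exact ⟨e2, by rw [e1] at e2 ⊢; exact hc _ e2⟩
  have hsp : ∀ s (x : M2 Ω), x * x = 0 → Sp (J.map (algebraMap ℚ Ω)) (f.u s x) := fun s x hx =>
    sp_of_sim hd' (by rw [← map_mul, hx, map_zero]) fun t =>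
      (simEqns_iff hJ0 _).1 fun P hP => (hline s x hx t).2 P (simEqns_subset hI hJ0 hIJ hP)
  have htn : ∀ s (x : M2 Ω), x * x = 0 → f.u s x ∈ tng (mtMon Ω I) := fun s x hx =>
    tng_of_line Set.infinite_univ fun t _ => hline s x hx t
  have hIsp : Sp (J.map (algebraMap ℚ ℝ)) I := by
    have hc' : J.map (algebraMap ℚ ℝ) = J.map (Rat.cast : ℚ → ℝ) := rfl
    have e1 : Iᵀ * J.map (Rat.cast : ℚ → ℝ) * I * I = J.map (Rat.cast : ℚ → ℝ) * I := by rw [hIJ]
    rw [Matrix.mul_assoc, hI, Matrix.mul_neg, Matrix.mul_one] at e1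
    rw [Sp, hc', ← e1, add_neg_cancel]
  refine absurd (case2 (Ω := Ω) hJ hd fun Z hZ => ?_) hG
  refine lieMax f hd' (fun s => ⟨hsp s _ bas_sq1, hsp s _ bas_sq2⟩) _ (fun Y hY Z hZ => tng_lie hY hZ)
    (fun s => ⟨htn s _ bas_sq1, htn s _ bas_sq2⟩) ?_ ?_ hi hZ
  · exact Submodule.span_le.2 (by rintro _ ⟨φ, rfl⟩; exact spec_tng hI h1 φ) (h3 i)
  · refine Submodule.span_induction (p := fun Y _ => Sp (J.map (algebraMap ℚ Ω)) Y) ?_ ?_ ?_ ?_ (h3 i)
    · rintro _ ⟨φ, rfl⟩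
      exact spec_sp hIsp h1 φ
    · simp [Sp]
    · intro x y _ _ hx hy
      rw [Sp] at hx hy ⊢
      rw [transpose_add, add_mul, mul_add]
      linear_combination (norm := abel) hx + hy
    · intro c x _ hx
      rw [Sp] at hx ⊢
      rw [transpose_smul, smul_mul_assoc, mul_smul_comm, ← smul_add, hx, smul_zero]

end

end Pool.Agent.M4.Mx
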