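import Pool.Agent.Lib.MP_33b3f9_ag.M4.MxDefs

open Matrix Function
open scoped Kronecker

namespace Pool.Agent.M4.Mx

open Pool.Agent.Lib.MP_33b3f9_ag

noncomputable section

theorem mxper_T (τ : Matrix (Fin 4) (Fin 4) ℂ) (x : ν → ℝ) :
    fromBlocks (τ.map Complex.im) 0 (τ.map Complex.re) 1 *ᵥ x =
      Sum.elim (fun i => (per τ x i).im) fun i => (per τ x i).re := by
  rw [fromBlocks_mulVec, zero_mulVec, one_mulVec, add_zero]
  congr 1 <;> funext i <;>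
    simp [per, mulVec, dotProduct, Complex.im_sum, Complex.re_sum]

/-- `per τ` is injective on real vectors (imaginary part: `Im τ` is positive definite), so
`I * I = -1`. For the form: with `z = per τ x`, `z' = per τ x'`, `Y = Im τ`, `x = (a, b)`, one has
`Im z = Y a`, `Re z = X a + b`; if `I x = (a₁, b₁)` then `Y a₁ = X a + b`, `X a₁ + b₁ = - Y a`;
compute `a₁ b₁' - b₁ a₁' = a b' - b a'` with the symmetry of `X`, `Y`. -/
theorem cst_props {τ : Matrix (Fin 4) (Fin 4) ℂ} (hτ : Siegel τ) {I : Matrix ν ν ℝ}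
    (hI : ∀ x, per τ (I *ᵥ x) = Complex.I • per τ x) :
    I * I = -1 ∧ Iᵀ * (Matrix.J (Fin 4) ℚ).map (Rat.cast : ℚ → ℝ) * I =
      (Matrix.J (Fin 4) ℚ).map (Rat.cast : ℚ → ℝ) := by
  have hJ : (Matrix.J (Fin 4) ℚ).map (Rat.cast : ℚ → ℝ) = fromBlocks 0 (-1) 1 0 := by
    ext (i | i) (j | j) <;> simp [Matrix.J, one_apply, apply_ite (Rat.cast : ℚ → ℝ)]
  rw [hJ]
  obtain ⟨X, hX⟩ : ∃ X, X = τ.map Complex.re := ⟨_, rfl⟩
  obtain ⟨Y, hY⟩ : ∃ Y, Y = τ.map Complex.im := ⟨_, rfl⟩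
  have hXs : Xᵀ = X := by rw [hX, ← transpose_map, hτ.1.eq]
  have hYs : Yᵀ = Y := by rw [hY, ← transpose_map, hτ.1.eq]
  have hd : IsUnit Y.det := by
    rw [hY]
    exact hτ.2.det_pos.ne'.isUnit
  have h1 : Y * Y⁻¹ = 1 := mul_nonsing_inv Y hd
  have h2 : Y⁻¹ * Y = 1 := nonsing_inv_mul Y hd
  obtain ⟨T, hT⟩ : ∃ T : Matrix ν ν ℝ, T = fromBlocks Y 0 X 1 := ⟨_, rfl⟩
  obtain ⟨J, hJ'⟩ : ∃ J : Matrix ν ν ℝ, J = fromBlocks 0 (-1) 1 0 := ⟨_, rfl⟩
  obtain ⟨W, hW⟩ : ∃ W : Matrix ν ν ℝ, W = fromBlocks 0 (-Y⁻¹) Y⁻¹ 0 := ⟨_, rfl⟩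
  have hTI : T * I = -(J * T) := by
    refine ext_of_mulVec_single fun j => ?_
    rw [← mulVec_mulVec, neg_mulVec, ← mulVec_mulVec, hT, hX, hY, mxper_T, mxper_T, hI, hJ',
      fromBlocks_mulVec]
    funext i
    rcases i with i | i <;> simp [neg_mulVec]
  have hJJ : J * J = -1 := by
    rw [hJ', fromBlocks_multiply, ← fromBlocks_one, fromBlocks_neg]
    simp
  have hTu : IsUnit T := by
    rw [isUnit_iff_isUnit_det, hT, det_fromBlocks_zero₁₂, det_one, mul_one]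
    exact hd
  have hTW : Tᵀ * W * T = J := by
    rw [hT, hW, hJ', fromBlocks_transpose, fromBlocks_multiply, fromBlocks_multiply, hXs, hYs]
    simp [h1, h2, Matrix.mul_assoc]
  have hJW : Jᵀ * W * J = W := by
    rw [hW, hJ', fromBlocks_transpose, fromBlocks_multiply, fromBlocks_multiply]
    simp
  rw [← hJ']
  constructor
  · refine hTu.mul_left_cancel ?_
    rw [← Matrix.mul_assoc, hTI, Matrix.neg_mul, Matrix.mul_assoc, hTI, Matrix.mul_neg, neg_neg,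
      ← Matrix.mul_assoc, hJJ]
    simp
  · calc Iᵀ * J * I = (T * I)ᵀ * W * (T * I) := by
          rw [← hTW, transpose_mul]
          simp only [Matrix.mul_assoc]
      _ = Tᵀ * (Jᵀ * W * J) * T := by
          rw [hTI, transpose_neg, transpose_mul]
          simp only [Matrix.mul_assoc, Matrix.neg_mul, Matrix.mul_neg, neg_neg]
      _ = J := by rw [hJW, hTW]

end

end Pool.Agent.M4.Mx
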