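import Pool.Agent.Lib.MP_33b3f9_ag.M4.MxM1
import Pool.Agent.Lib.MP_33b3f9_ag.M4.MxM2
import Pool.Agent.Lib.MP_33b3f9_ag.M4.MxCyc
import Pool.Agent.Lib.MP_33b3f9_ag.M4.MxPer

open Matrix Function
open scoped Kronecker

namespace Pool.Agent.M4.Mx

open Pool.Agent.Lib.MP_33b3f9_ag

noncomputable section

variable {ℓ : ℕ} [Fact ℓ.Prime]

lemma mcl_zcl {Γ : Type} [Group Γ] (r : Γ →* GL ν ℤ_[ℓ]) (U : Subgroup Γ) {g : GL ν (Om ℓ)}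
    (hg : (g : Matrix ν ν (Om ℓ)) ∈ mcl (imU r U : Set _)) :
    g ∈ zcl (Om ℓ) ((fun σ => toQ (r σ)) '' U) := by
  intro P hP
  have h1 := hg (MvPolynomial.map (algebraMap ℚ_[ℓ] (Om ℓ)) P) (by
    rintro _ ⟨σ, hσ, rfl⟩
    rw [evalM, MvPolynomial.aeval_map_algebraMap]
    have h2 := MvPolynomial.comp_aeval_apply
      (fun p : ν × ν => (toQ (r σ) : Matrix ν ν ℚ_[ℓ]) p.1 p.2) (Algebra.ofId ℚ_[ℓ] (Om ℓ)) P
    have h3 := hP _ ⟨σ, hσ, rfl⟩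
    rw [evalM] at h3
    rw [h3, map_zero] at h2
    exact h2.symm)
  rwa [evalM, MvPolynomial.aeval_map_algebraMap] at h1

omit [Fact ℓ.Prime] in
/-- for large `ℓ` the closure of the image contains a cube -/
theorem m1 {F : Type} [Field F] [NumberField F] (hF : Module.finrank ℚ F = 3)
    {N : M2 F → Matrix ν ν ℚ} (hN : IsTensInd N) :
    ∃ ℓ₁ : ℕ, ∀ (ℓ : ℕ) [Fact ℓ.Prime], ℓ₁ < ℓ → ∀ {Γ : Type} [Group Γ] (r : Γ →* GL ν ℤ_[ℓ])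
      (U : Subgroup Γ) [U.FiniteIndex], BigImage N r →
      ((fun σ => GeneralLinearGroup.det (r σ)) '' U).Infinite →
      HasCube (zcl (Om ℓ) ((fun σ => toQ (r σ)) '' U)) := by
  obtain ⟨s, P, Q, hs, h1, h2, h3⟩ := hN
  obtain ⟨ℓ₁, h⟩ := m1_core hF ⟨P, Q, h1, h2⟩ s hs h3
  refine ⟨ℓ₁, fun ℓ _ hℓ Γ _ r U _ ⟨B, ha, hb⟩ hinf => ?_⟩
  let ρ : Γ →* GL ν ℤ_[ℓ] := (MulAut.conj B⁻¹).toMonoidHom.comp r
  have hρ : ∀ σ, ρ σ = B⁻¹ * r σ * B := fun σ => by simp [ρ]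
  obtain ⟨f, hf⟩ := h ℓ hℓ ρ U (fun σ n => by rw [hρ]; exact ha σ n)
    (fun g hg => (hb g hg).imp fun σ hσ => by rw [hρ]; exact hσ) (by
      have e : (fun σ => GeneralLinearGroup.det (ρ σ)) = fun σ => GeneralLinearGroup.det (r σ) :=
        funext fun σ => by rw [hρ, map_mul, map_mul, map_inv, inv_mul_cancel_comm]
      rwa [e])
  let B' : GL ν (Om ℓ) := GeneralLinearGroup.map (toOm ℓ) B
  refine ⟨(f.conj B').P, (f.conj B').Q, (f.conj B').pq, (f.conj B').qp, fun g a hg => ?_⟩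
  have hg' : (g : Matrix ν ν (Om ℓ)) = (B' : Matrix ν ν (Om ℓ)) * f.T a *
      ((B'⁻¹ : GL ν (Om ℓ)) : Matrix ν ν (Om ℓ)) := hg.trans (f.conj_T B' a)
  have hd : (f.T a).det ≠ 0 := fun h0 => by
    have := g.det_ne_zero
    rw [hg', det_mul, det_mul, h0, mul_zero, zero_mul] at this
    exact this rfl
  refine mcl_zcl r U fun R hR => ?_
  obtain ⟨R', hR'⟩ := zarA_two (B' : Matrix ν ν (Om ℓ)) ((B'⁻¹ : GL ν (Om ℓ)) : Matrix ν ν (Om ℓ)) R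
  rw [hg', ← hR']
  refine hf a hd R' ?_
  rintro _ ⟨σ, hσ, rfl⟩
  rw [hR']
  refine hR _ ⟨σ, hσ, ?_⟩
  have e : B' * GeneralLinearGroup.map (toOm ℓ) (ρ σ) * B'⁻¹ =
      GeneralLinearGroup.map (toOm ℓ) (r σ) := by
    rw [hρ, map_mul, map_mul, map_inv]
    simp [B', mul_assoc]
  exact congrArg Units.val e

lemma det_inf (K : IntermediateField ℚ ℂ) [FiniteDimensional ℚ K] (hℓ : 2 < ℓ)
    (r : (ℂ ≃ₐ[K] ℂ) →* GL ν ℤ_[ℓ])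
    (hmu : ∀ σ : ℂ ≃ₐ[K] ℂ, ∃ c : ℤ_[ℓ],
      (r σ : Matrix ν ν ℤ_[ℓ])ᵀ * Matrix.J (Fin 4) ℤ_[ℓ] * (r σ : Matrix ν ν ℤ_[ℓ]) =
        c • Matrix.J (Fin 4) ℤ_[ℓ] ∧
      ∀ (n : ℕ) (ζ : ℂ), ζ ^ ℓ ^ n = 1 → σ ζ = ζ ^ (PadicInt.toZModPow n c).val)
    (U : Subgroup (ℂ ≃ₐ[K] ℂ)) [U.FiniteIndex] :
    ((fun σ => GeneralLinearGroup.det (r σ)) '' U).Infinite := by
  refine det_infinite K hℓ (GeneralLinearGroup.det.comp r) (fun σ hσ n c ζ hζ hc => ?_) U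
  obtain ⟨c₀, h1, h2⟩ := hmu σ
  have hd : (r σ : Matrix ν ν ℤ_[ℓ]).det = 1 := congrArg Units.val hσ
  have h3 := congrArg Matrix.det h1
  rw [det_mul, det_mul, det_transpose, hd, one_mul, mul_one, det_smul] at h3
  have h4 : c₀ ^ 8 = 1 := by
    have h5 := (Matrix.isUnit_det_J (Fin 4) ℤ_[ℓ]).ne_zero
    have h6 : Fintype.card ν = 8 := by simp
    rw [h6] at h3
    exact mul_right_cancel₀ h5 (h3.symm.trans (one_mul _).symm)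
  have : NeZero (ℓ ^ n) := ⟨pow_ne_zero _ (Fact.out : ℓ.Prime).ne_zero⟩
  have h5 : c ≡ (PadicInt.toZModPow n c₀).val [MOD ℓ ^ n] := by
    have h6 := (h2 n ζ hζ.pow_eq_one).symm.trans hc
    generalize (PadicInt.toZModPow n c₀).val = k at h6
    obtain ⟨u, rfl⟩ := hζ.isUnit (NeZero.ne _)
    rw [hζ.eq_orderOf, orderOf_units, ← pow_eq_pow_iff_modEq]
    exact Units.ext (by simpa using h6.symm)
  rw [← ZMod.natCast_eq_natCast_iff] at h5 ⊢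
  rw [Nat.cast_pow, h5, ZMod.natCast_zmod_val, ← map_pow, h4, map_one, Nat.cast_one]

omit [Fact ℓ.Prime] in
lemma ne_gsp {ν : Type} [Fintype ν] [DecidableEq ν] {Ω : Type} [Field Ω] [Algebra ℚ Ω]
    {J : Matrix ν ν ℚ} {I : Matrix ν ν ℝ} (hd : J.det ≠ 0) (hG : ¬ GEN J I) :
    zeroSet Ω (mtEqns I) ≠ gsp Ω J := by
  intro h
  refine hG fun g hg P hP => ?_
  have hg0 : g.det ≠ 0 := fun h0 => by
    have := congrArg Matrix.det hg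
    rw [det_mul, h0, mul_zero] at this
    exact hd this.symm
  have h1 : GeneralLinearGroup.mkOfDetNeZero _ (det_map_ne (Ω := Ω) hg0) ∈ gsp Ω J := ⟨1, by
    change (g.map _)ᵀ * _ * g.map _ = _
    rw [← transpose_map, ← Matrix.map_mul, ← Matrix.map_mul, hg, one_smul]⟩
  rw [← h] at h1
  have h2 : evalM (g.map (algebraMap ℚ Ω)) P = 0 := h1 P hP
  rwa [evalM_map, map_eq_zero] at h2

omit [Fact ℓ.Prime] in
lemma eq_of_cube {Ω : Type} [Field Ω] [Algebra ℚ Ω] [IsAlgClosed Ω] {J : Matrix ν ν ℚ}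
    {I : Matrix ν ν ℝ} (hI : I * I = -1) (hJ : Jᵀ = -J) (hd : J.det ≠ 0)
    (hIJ : Iᵀ * J.map (Rat.cast : ℚ → ℝ) * I = J.map (Rat.cast : ℚ → ℝ)) (hG : ¬ GEN J I)
    {G : Set (GL ν Ω)} (hc : HasCube G) (hle : G ⊆ zeroSet Ω (mtEqns I)) :
    G = zeroSet Ω (mtEqns I) := by
  obtain ⟨P, Q, h1, h2, h3⟩ := hc
  refine Set.Subset.antisymm hle fun g hg => ?_
  have h4 : ∀ (a : Fin 3 → M2 Ω) (x : Matrix ν ν Ω), x = P * tp a * Q → x.det ≠ 0 →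
      ∀ R ∈ mtEqns I, evalM x R = 0 := fun a x hx hx' => by
    obtain ⟨y, rfl⟩ := (isUnit_iff_isUnit_det x).2 hx'.isUnit
    exact hle (h3 y a hx)
  let f : Fr ν Ω := ⟨P, Q, h1, h2⟩
  have h5 : ∀ a, f.T a = P * tp a * Q := fun a => rfl
  obtain ⟨a, ha⟩ := m2 f hI hJ hd hIJ hG (fun a => h4 a _ (h5 a)) (g := (g : Matrix ν ν Ω)) hg
  exact h3 g a (ha.trans (h5 a))

omit [Fact ℓ.Prime] in
/-- the conclusion of the main theorem from the fact that the Hodge structure is not generic -/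
theorem final {τ : Matrix (Fin 4) (Fin 4) ℂ} (K : IntermediateField ℚ ℂ) [FiniteDimensional ℚ K]
    (r : ∀ (ℓ : ℕ) [Fact ℓ.Prime], (ℂ ≃ₐ[K] ℂ) →* GL ν ℤ_[ℓ]) {I : Matrix ν ν ℝ}
    {F : Type} [Field F] [NumberField F] {N : Matrix (Fin 2) (Fin 2) F → Matrix ν ν ℚ} {ℓ₀ : ℕ}
    (hτ : Siegel τ) (hI : ∀ x, per τ (I *ᵥ x) = Complex.I • per τ x)
    (hF : Module.finrank ℚ F = 3) (hN : IsTensInd N)
    (hB : ∀ (ℓ : ℕ) [Fact ℓ.Prime], ℓ₀ < ℓ → BigImage N (r ℓ))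
    (hmu : ∀ (ℓ : ℕ) [Fact ℓ.Prime] (σ : ℂ ≃ₐ[K] ℂ), ∃ c : ℤ_[ℓ],
      (r ℓ σ : Matrix ν ν ℤ_[ℓ])ᵀ * Matrix.J (Fin 4) ℤ_[ℓ] * (r ℓ σ : Matrix ν ν ℤ_[ℓ]) =
        c • Matrix.J (Fin 4) ℤ_[ℓ] ∧
      ∀ (n : ℕ) (ζ : ℂ), ζ ^ ℓ ^ n = 1 → σ ζ = ζ ^ (PadicInt.toZModPow n c).val)
    (hG : ¬ GEN (Matrix.J (Fin 4) ℚ) I) :
    zeroSet (AlgebraicClosure ℚ) (mtEqns I) ≠ gsp (AlgebraicClosure ℚ) (Matrix.J (Fin 4) ℚ) ∧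
    ∃ ℓ₁ : ℕ, ∀ (ℓ : ℕ) [Fact ℓ.Prime] (U : Subgroup (ℂ ≃ₐ[K] ℂ)), U.FiniteIndex →
      (fun σ => toQ (r ℓ σ)) '' U ⊆ zeroSet ℚ_[ℓ] (mtEqns I) →
      (ℓ₁ < ℓ ∨ HasCube (zcl (AlgebraicClosure ℚ_[ℓ]) ((fun σ => toQ (r ℓ σ)) '' U))) →
      zcl (AlgebraicClosure ℚ_[ℓ]) ((fun σ => toQ (r ℓ σ)) '' U) =
        zeroSet (AlgebraicClosure ℚ_[ℓ]) (mtEqns I) := by
  obtain ⟨hII, hIJ⟩ := cst_props hτ hI
  have hd : (Matrix.J (Fin 4) ℚ).det ≠ 0 := (Matrix.isUnit_det_J (Fin 4) ℚ).ne_zero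
  refine ⟨ne_gsp hd hG, ?_⟩
  obtain ⟨ℓ₁, h₁⟩ := m1 hF hN
  refine ⟨max (max ℓ₁ ℓ₀) 2, fun ℓ _ U hU hsub hc => ?_⟩
  refine eq_of_cube hII (Matrix.J_transpose _ _) hd hIJ hG (hc.elim (fun hℓ => ?_) id)
    (MT_sub _ _ hsub)
  rw [max_lt_iff, max_lt_iff] at hℓ
  exact h₁ ℓ hℓ.1.1 (r ℓ) U (hB ℓ hℓ.1.2) (det_inf K hℓ.2 (r ℓ) (hmu ℓ) U)

end

end Pool.Agent.M4.Mx
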