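import Pool.Agent.Lib.MP_33b3f9_ag.M4.MxSl

open Matrix Function
open scoped Kronecker

namespace Pool.Agent.M4.Mx

open Pool.Agent.Lib.MP_33b3f9_ag

noncomputable section

section ring

variable {A B : Type*} [Ring A] [Ring B]

/-- the commutator -/
def br (x y : A) : A := x * y - y * x

/-- nine iterated commutators -/
def nine (E : Fin 3 → A) (E' F' : A) (p : Fin 3 × Fin 3) : A :=
  ![br (br (E p.1) F') E', br (br (E p.1) F') F', br (E p.1) F'] p.2

lemma map_nine (φ : A →+* B) (E : Fin 3 → A) (E' F' : A) (p : Fin 3 × Fin 3) :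
    φ (nine E E' F' p) = nine (fun k => φ (E k)) (φ E') (φ F') p := by
  obtain ⟨k, v⟩ := p
  fin_cases v <;> simp [nine, br]

lemma map_lg (φ : A →+* B) (a : A) : φ (lg a) = lg (φ a) := by
  simp [lg, map_ofNat]

lemma lg_prod (a : A) (b : B) : lg (a, b) = (lg a, lg b) :=
  Prod.ext (map_lg (RingHom.fst A B) (a, b)) (map_lg (RingHom.snd A B) (a, b))

lemma nine_prod (E : Fin 3 → A) (E' F' : A) (G : Fin 3 → B) (G' H' : B) (p : Fin 3 × Fin 3) :
    nine (fun k => (E k, G k)) (E', G') (F', H') p = (nine E E' F' p, nine G G' H' p) :=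
  Prod.ext (map_nine (RingHom.fst A B) _ _ _ p) (map_nine (RingHom.snd A B) _ _ _ p)

lemma nine_mem (S : Subring A) {E : Fin 3 → A} {E' F' : A} (h : ∀ k, E k ∈ S) (h1 : E' ∈ S)
    (h2 : F' ∈ S) (p : Fin 3 × Fin 3) : nine E E' F' p ∈ S := by
  have hb : ∀ x ∈ S, ∀ y ∈ S, br x y ∈ S := fun x hx y hy =>
    S.sub_mem (S.mul_mem hx hy) (S.mul_mem hy hx)
  obtain ⟨k, v⟩ := p
  fin_cases v
  · exact hb _ (hb _ (h k) _ h2) _ h1
  · exact hb _ (hb _ (h k) _ h2) _ h2
  · exact hb _ (h k) _ h2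

lemma lg_mem (S : Subring A) {a : A} (h : a ∈ S) : lg a ∈ S :=
  S.add_mem (S.sub_mem (S.mul_mem (ofNat_mem S 6) h) (S.mul_mem (ofNat_mem S 3) (S.pow_mem h 2)))
    (S.mul_mem (ofNat_mem S 2) (S.pow_mem h 3))

lemma lg_three {a b c : A} (ha : a * a = 0) (hb : b * b = 0) (hc : c * c = 0)
    (hab : b * a = a * b) (hac : c * a = a * c) (hbc : c * b = b * c) :
    lg ((1 + a) * (1 + b) * (1 + c) - 1) = 6 * (a + b + c) ∧
      ((1 + a) * (1 + b) * (1 + c) - 1) ^ 4 = 0 := by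
  have ha' : ∀ x, a * (a * x) = 0 := fun x => by rw [← mul_assoc, ha, zero_mul]
  have hb' : ∀ x, b * (b * x) = 0 := fun x => by rw [← mul_assoc, hb, zero_mul]
  have hab' : ∀ x, b * (a * x) = a * (b * x) := fun x => by rw [← mul_assoc, hab, mul_assoc]
  have hac' : ∀ x, c * (a * x) = a * (c * x) := fun x => by rw [← mul_assoc, hac, mul_assoc]
  have hbc' : ∀ x, c * (b * x) = b * (c * x) := fun x => by rw [← mul_assoc, hbc, mul_assoc]
  have e1 : (1 + a) * (1 + b) * (1 + c) - 1 =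
      a + b + c + (a * b + a * c + b * c) + a * (b * c) := by noncomm_ring
  have e2 : (a + b + c + (a * b + a * c + b * c) + a * (b * c)) ^ 2 =
      2 * (a * b + a * c + b * c) + 6 * (a * (b * c)) := by
    simp only [sq, add_mul, mul_add, mul_assoc, ha, hb, hc, ha', hb', hab, hac, hbc, hab',
      hac', hbc', mul_zero, add_zero, zero_add]
    noncomm_ring
  have e3 : (a + b + c + (a * b + a * c + b * c) + a * (b * c)) ^ 3 = 6 * (a * (b * c)) := by
    rw [pow_succ, e2]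
    simp only [add_mul, mul_add, mul_assoc, hb, hc, ha', hb', hab, hac, hbc, hab',
      hac', hbc', mul_zero, add_zero, zero_add]
    noncomm_ring
  rw [e1]
  constructor
  · rw [lg, e2, e3]
    noncomm_ring
  · rw [pow_succ, e3]
    simp only [mul_add, mul_assoc, hc, ha', hb', hac, hbc, hab', hac', hbc', mul_zero, add_zero]

end ring

variable {ν : Type} [Fintype ν] [DecidableEq ν] {Ω : Type*} [Field Ω] (f : Fr ν Ω)

/-- the same element in the three slots, with coefficients -/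
def Fr.S (c : Fin 3 → Ω) (x : M2 Ω) : Matrix ν ν Ω := ∑ i, c i • f.u i x

lemma Fr.br_S (c d : Fin 3 → Ω) (x y : M2 Ω) : br (f.S c x) (f.S d y) = f.S (c * d) (br x y) := by
  simp only [br, Fr.S, Fin.sum_univ_three, add_mul, mul_add, smul_mul_smul_comm, map_sub, map_mul,
    Pi.mul_apply, f.u_comm (show (1 : Fin 3) ≠ 0 by decide),
    f.u_comm (show (2 : Fin 3) ≠ 0 by decide), f.u_comm (show (2 : Fin 3) ≠ 1 by decide)]
  module

lemma Fr.S_smul (c : Fin 3 → Ω) (a : Ω) (x : M2 Ω) : f.S c (a • x) = a • f.S c x := by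
  simp only [Fr.S, map_smul, Finset.smul_sum, smul_comm a]

lemma Fr.lg_T (c : Fin 3 → Ω) {x : M2 Ω} (hx : x * x = 0) :
    lg (f.T (fun i => 1 + c i • x) - 1) = f.S c ((6 : Ω) • x) ∧
      (f.T (fun i => 1 + c i • x) - 1) ^ 4 = 0 := by
  have h0 : ∀ i, c i • f.u i x * c i • f.u i x = 0 := fun i => by
    rw [smul_mul_smul_comm, ← map_mul, hx, map_zero, smul_zero]
  have h1 : ∀ i j, i ≠ j → c i • f.u i x * c j • f.u j x = c j • f.u j x * c i • f.u i x :=
    fun i j h => by rw [smul_mul_smul_comm, smul_mul_smul_comm, f.u_comm h, mul_comm (c i)]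
  have h2 := lg_three (h0 0) (h0 1) (h0 2) (h1 1 0 (by decide)) (h1 2 0 (by decide))
    (h1 2 1 (by decide))
  rw [f.T_eq]
  simp only [map_add, map_one, map_smul]
  refine ⟨h2.1.trans ?_, h2.2⟩
  rw [f.S_smul, Fr.S, Fin.sum_univ_three, Algebra.smul_def (6 : Ω), map_ofNat]

lemma Fr.nine_S (c : Fin 3 → Fin 3 → Ω) (p : Fin 3 × Fin 3) :
    nine (fun k => f.S (c k) ((6 : Ω) • bas Ω 1)) (f.S 1 ((6 : Ω) • bas Ω 1))
      (f.S 1 ((6 : Ω) • bas Ω 2)) p = (![432, -432, 36] p.2 : Ω) • f.S (c p.1) (bas Ω p.2.succ) := by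
  obtain ⟨k, v⟩ := p
  rw [← f.S_smul]
  fin_cases v <;> simp only [nine, f.br_S, mul_one, Fin.reduceFinMk, cons_val] <;> congr 1 <;>
    ext i j <;> fin_cases i <;> fin_cases j <;> simp [br, bas] <;> norm_num

lemma Fr.S_indep [CharZero Ω] (c : Matrix (Fin 3) (Fin 3) Ω) (hc : c.det ≠ 0) :
    LinearIndependent Ω fun p : Fin 3 × Fin 3 =>
      (![432, -432, 36] p.2 : Ω) • f.S (c p.1) (bas Ω p.2.succ) := by
  rw [Fintype.linearIndependent_iff]
  intro g hg
  have h1 := Fintype.linearIndependent_iff.1 f.sl_indep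
    (fun q => ∑ k, g (k, q.2) * ![432, -432, 36] q.2 * c k q.1) (by
      rw [← hg]
      simp only [Fr.S, Fintype.sum_prod_type, Finset.smul_sum, Finset.sum_smul, smul_smul, mul_assoc]
      rw [Finset.sum_comm]
      conv_rhs => rw [Finset.sum_comm]
      exact Finset.sum_congr rfl fun v _ => Finset.sum_comm)
  rintro ⟨k, v⟩
  have h2 : (fun k => g (k, v) * ![432, -432, 36] v) ᵥ* c = 0 := funext fun i => h1 (i, v)
  have h3 := congrFun (Matrix.eq_zero_of_vecMul_eq_zero hc h2) k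
  refine (mul_eq_zero.1 h3).resolve_right ?_
  fin_cases v <;> simp

end

end Pool.Agent.M4.Mx
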