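import Pool.Agent.Lib.MP_33b3f9_ag.M4.MxDefs

open Matrix Function
open scoped Kronecker

namespace Pool.Agent.M4.Mx

open Pool.Agent.Lib.MP_33b3f9_ag

noncomputable section

section ring

variable {R : Type*} [CommRing R]

lemma mxRk_inv (s : Fin 3) (a b : κ) : update (update a s (b s)) s (update b s (a s) s) = a := by
  rw [update_self, update_idem, update_eq_self]

lemma mxRk_swap {G : Matrix κ κ R} (h : Rk G) (s : Fin 3) (a b c d : κ) :
    G a c * G b d =
      G (update a s (b s)) (update c s (d s)) * G (update b s (a s)) (update d s (c s)) := by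
  have h1 := h s (update a s (b s)) (update b s (a s)) c d
  rwa [mxRk_inv, mxRk_inv] at h1

lemma mxRk_left (s : Fin 3) (M : Matrix (κ × κ) (κ × κ) R) (p q : κ × κ) :
    (sw R s * M) p q = M (update p.1 s (p.2 s), update p.2 s (p.1 s)) q := by
  simp only [Matrix.mul_apply, sw, Matrix.of_apply, ite_mul, one_mul, zero_mul,
    Finset.sum_ite_eq', Finset.mem_univ, if_true]

lemma mxRk_right (s : Fin 3) (M : Matrix (κ × κ) (κ × κ) R) (p q : κ × κ) :
    (M * sw R s) p q = M p (update q.1 s (q.2 s), update q.2 s (q.1 s)) := by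
  have e : ∀ r : κ × κ, (q = (update r.1 s (r.2 s), update r.2 s (r.1 s))) ↔
      r = (update q.1 s (q.2 s), update q.2 s (q.1 s)) := by
    intro r
    constructor
    · rintro rfl
      simp only [mxRk_inv]
    · rintro rfl
      simp only [mxRk_inv]
  simp only [Matrix.mul_apply, sw, Matrix.of_apply, mul_ite, mul_one, mul_zero, e,
    Finset.sum_ite_eq', Finset.mem_univ, if_true]

/-- both sides are `∏ t` of products of entries; split off the slot `s` (`tp_apply`,
`Finset.mul_prod_erase` or `Fin.prod_univ_three` with `fin_cases s`) -/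
theorem rk_tp (a : Fin 3 → M2 R) : Rk (tp a) := by
  intro s i j k l
  have e : ∀ (x y : κ) (u : Fin 2), tp a (update x s u) y =
      a s u (y s) * ∏ t ∈ Finset.univ.erase s, a t (x t) (y t) := by
    intro x y u
    rw [tp_apply, ← Finset.mul_prod_erase _ _ (Finset.mem_univ s), update_self]
    congr 1
    exact Finset.prod_congr rfl fun t ht => by rw [update_of_ne (Finset.ne_of_mem_erase ht)]
  have e' : ∀ (x y : κ) (u : Fin 2), tp a x (update y s u) =
      a s (x s) u * ∏ t ∈ Finset.univ.erase s, a t (x t) (y t) := by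
    intro x y u
    rw [tp_apply, ← Finset.mul_prod_erase _ _ (Finset.mem_univ s), update_self]
    congr 1
    exact Finset.prod_congr rfl fun t ht => by rw [update_of_ne (Finset.ne_of_mem_erase ht)]
  rw [e, e, e', e']
  ring

/-- realignment: apply `Rk` in slot 0 to the pairs `(i,j)`, `(p,q)` and then in slot 1 -/
theorem Rk.eq {G : Matrix κ κ R} (h : Rk G) (p q i j : κ) :
    G i j * G p q ^ 2 = G (update p 0 (i 0)) (update q 0 (j 0)) *
      G (update p 1 (i 1)) (update q 1 (j 1)) * G (update p 2 (i 2)) (update q 2 (j 2)) := by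
  have e : ∀ x y : κ, update (update x 0 (y 0)) 1 (y 1) = update y 2 (x 2) := by
    intro x y
    funext t
    fin_cases t <;> simp
  have h0 := mxRk_swap h 0 i p j q
  have h1 := mxRk_swap h 1 (update i 0 (p 0)) p (update j 0 (q 0)) q
  rw [e, e, update_of_ne (by decide : (1 : Fin 3) ≠ 0),
    update_of_ne (by decide : (1 : Fin 3) ≠ 0)] at h1
  calc G i j * G p q ^ 2 = (G i j * G p q) * G p q := by ring
    _ = G (update p 0 (i 0)) (update q 0 (j 0)) *
        (G (update i 0 (p 0)) (update j 0 (q 0)) * G p q) := by rw [h0]; ring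
    _ = _ := by rw [h1]; ring

/-- the entries of `sw * (G ⊗ G)` and `(G ⊗ G) * sw` are the two sides of `Rk` -/
theorem rk_iff (G : Matrix κ κ R) : Rk G ↔ ∀ s, sw R s * (G ⊗ₖ G) = (G ⊗ₖ G) * sw R s := by
  constructor
  · intro h s
    ext p q
    rw [mxRk_left, mxRk_right, kroneckerMap_apply, kroneckerMap_apply]
    exact h s p.1 p.2 q.1 q.2
  · intro h s a b c d
    have h1 := congrFun (congrFun (h s) (a, b)) (c, d)
    rwa [mxRk_left, mxRk_right, kroneckerMap_apply, kroneckerMap_apply] at h1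

variable {ν : Type} [Fintype ν] [DecidableEq ν]

/-- conjugate by `P ⊗ P`, `Q ⊗ Q` (`Matrix.mul_kronecker_mul`, `f.pq`, `f.qp`) -/
theorem Fr.rk_of_comm (f : Fr ν R) {g : Matrix ν ν R}
    (h : ∀ s, f.W s * (g ⊗ₖ g) = (g ⊗ₖ g) * f.W s) : Rk (f.Q * g * f.P) := by
  rw [rk_iff]
  intro s
  have hqp : (f.Q ⊗ₖ f.Q) * (f.P ⊗ₖ f.P) = 1 := by
    rw [← Matrix.mul_kronecker_mul, f.qp, Matrix.one_kronecker_one]
  rw [Matrix.mul_kronecker_mul, Matrix.mul_kronecker_mul]
  calc sw R s * (f.Q ⊗ₖ f.Q * g ⊗ₖ g * f.P ⊗ₖ f.P)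
      = (f.Q ⊗ₖ f.Q * f.P ⊗ₖ f.P) * sw R s * (f.Q ⊗ₖ f.Q * g ⊗ₖ g * f.P ⊗ₖ f.P) := by
        rw [hqp, Matrix.one_mul]
    _ = f.Q ⊗ₖ f.Q * (f.W s * g ⊗ₖ g) * f.P ⊗ₖ f.P := by
        simp only [Fr.W, Matrix.mul_assoc]
    _ = f.Q ⊗ₖ f.Q * (g ⊗ₖ g * f.W s) * f.P ⊗ₖ f.P := by rw [h s]
    _ = f.Q ⊗ₖ f.Q * g ⊗ₖ g * f.P ⊗ₖ f.P * sw R s * (f.Q ⊗ₖ f.Q * f.P ⊗ₖ f.P) := by
        simp only [Fr.W, Matrix.mul_assoc]
    _ = _ := by rw [hqp, Matrix.mul_one]

end ring

end

end Pool.Agent.M4.Mx
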