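import Pool.Agent.Lib.MP_33b3f9_ag.M4.MxDefs

open Matrix Function
open scoped Kronecker

namespace Pool.Agent.M4.Mx

open Pool.Agent.Lib.MP_33b3f9_ag

noncomputable section

variable {ν : Type} [Fintype ν] [DecidableEq ν] {Ω : Type*} [Field Ω] [CharZero Ω]

omit [CharZero Ω] in
lemma MxSl_tr (f : Fr ν Ω) (s : Fin 3) (x : M2 Ω) (hx : x 1 1 = -x 0 0) : f.u s x ∈ f.sl := by
  have e : x = x 0 1 • bas Ω 1 + x 1 0 • bas Ω 2 + x 0 0 • bas Ω 3 := by
    ext i j
    fin_cases i <;> fin_cases j <;> simp [bas, hx]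
  rw [e, map_add, map_add, map_smul, map_smul, map_smul]
  refine add_mem (add_mem (f.sl.smul_mem _ ?_) (f.sl.smul_mem _ ?_)) (f.sl.smul_mem _ ?_)
  · exact Submodule.subset_span ⟨(s, 0), rfl⟩
  · exact Submodule.subset_span ⟨(s, 1), rfl⟩
  · exact Submodule.subset_span ⟨(s, 2), rfl⟩

omit [CharZero Ω] in
lemma MxSl_inj (f : Fr ν Ω) (s : Fin 3) (x : M2 Ω) (hx : f.u s x = 0) : x = 0 := by
  have h1 := f.QTP (update 1 s x)
  rw [← f.u_apply, hx, Matrix.mul_zero, Matrix.zero_mul] at h1
  ext i j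
  have h2 := congrFun (congrFun h1 (update 0 s i)) (update 0 s j)
  rw [tp_update, update_self, update_self, Finset.prod_eq_one, mul_one] at h2
  · exact h2.symm
  · intro t ht
    rw [update_of_ne (Finset.ne_of_mem_erase ht), update_of_ne (Finset.ne_of_mem_erase ht)]
    simp

/-- bilinear; `u s x` and `u t y` commute for `s ≠ t`, and a commutator of `2 × 2` matrices is a
combination of `e, f, h` -/
theorem Fr.br_sl (f : Fr ν Ω) {X Y : Matrix ν ν Ω} (hX : X ∈ f.m) (hY : Y ∈ f.m) :
    X * Y - Y * X ∈ f.sl := by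
  unfold Fr.m at hX hY
  induction hX using Submodule.iSup_induction' with
  | zero => simp
  | add a b _ _ h1 h2 =>
    have e : (a + b) * Y - Y * (a + b) = a * Y - Y * a + (b * Y - Y * b) := by noncomm_ring
    rw [e]
    exact add_mem h1 h2
  | mem s a ha =>
    obtain ⟨x, rfl⟩ := ha
    induction hY using Submodule.iSup_induction' with
    | zero => simp
    | add a b _ _ h1 h2 =>
      have e : ∀ Z : Matrix ν ν Ω,
          Z * (a + b) - (a + b) * Z = Z * a - a * Z + (Z * b - b * Z) := fun Z => by noncomm_ring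
      rw [e]
      exact add_mem h1 h2
    | mem t b hb =>
      obtain ⟨y, rfl⟩ := hb
      change f.u s x * f.u t y - f.u t y * f.u s x ∈ f.sl
      by_cases h : s = t
      · subst h
        rw [← map_mul, ← map_mul, ← map_sub]
        refine MxSl_tr f s _ ?_
        simp only [Matrix.sub_apply, Matrix.mul_apply, Fin.sum_univ_two]
        ring
      · rw [f.u_comm h, sub_self]
        exact zero_mem _

/-- A relation `∑ c (s,v) u s (bas (v+1)) = 0` reads `∑ s, u s (x s) = 0` with `x s` of trace zero.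
Bracket with `u s y`: `u s (x s y - y x s) = 0`; `u s` is injective (`QTP`, the entry of
`tp (update 1 s x)` at `(update 0 s i, update 0 s j)` is `x i j`), so `x s` is central of trace
zero. -/
theorem Fr.sl_indep (f : Fr ν Ω) :
    LinearIndependent Ω fun p : Fin 3 × Fin 3 => f.u p.1 (bas Ω p.2.succ) := by
  rw [Fintype.linearIndependent_iff]
  intro g hg
  let x : Fin 3 → M2 Ω := fun s => ∑ v : Fin 3, g (s, v) • bas Ω v.succ
  have h1 : ∑ s, f.u s (x s) = 0 := by
    rw [← hg, Fintype.sum_prod_type]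
    refine Finset.sum_congr rfl fun s _ => ?_
    simp only [x, map_sum, map_smul]
  have h2 : ∀ s y, x s * y - y * x s = 0 := by
    intro s y
    refine MxSl_inj f s _ ?_
    have h3 : (∑ t, f.u t (x t)) * f.u s y - f.u s y * ∑ t, f.u t (x t) = 0 := by
      rw [h1, Matrix.zero_mul, Matrix.mul_zero, sub_self]
    rw [Finset.sum_mul, Finset.mul_sum, ← Finset.sum_sub_distrib, Finset.sum_eq_single s] at h3
    · rw [map_sub, map_mul, map_mul, h3]
    · intro t _ ht
      rw [f.u_comm ht, sub_self]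
    · simp
  have hx : ∀ s, x s = !![g (s, 2), g (s, 0); g (s, 1), -g (s, 2)] := by
    intro s
    ext i j
    fin_cases i <;> fin_cases j <;> simp [x, bas, Fin.sum_univ_three]
  rintro ⟨s, v⟩
  have a1 := congrFun (congrFun (h2 s (bas Ω 3)) 0) 1
  have a2 := congrFun (congrFun (h2 s (bas Ω 3)) 1) 0
  have a3 := congrFun (congrFun (h2 s (bas Ω 1)) 0) 1
  rw [hx] at a1 a2 a3
  simp [bas] at a1 a2 a3
  fin_cases v
  · exact (mul_eq_zero.1 (by linear_combination -a1 : (2 : Ω) * g (s, 0) = 0)).resolve_left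
      two_ne_zero
  · exact a2
  · exact a3

/-- nine independent elements of `f.sl` span it (`finrank_span_eq_card`, `finrank_range_le_card`,
`Submodule.eq_of_le_of_finrank_le`) -/
theorem Fr.sl_le (f : Fr ν Ω) (L : Submodule Ω (Matrix ν ν Ω)) (w : Fin 3 × Fin 3 → Matrix ν ν Ω)
    (hw : LinearIndependent Ω w) (h1 : ∀ p, w p ∈ f.sl) (h2 : ∀ p, w p ∈ L) : f.sl ≤ L := by
  have a1 : Submodule.span Ω (Set.range w) ≤ f.sl := by
    rw [Submodule.span_le]
    rintro _ ⟨p, rfl⟩
    exact h1 p
  have a2 : Submodule.span Ω (Set.range w) ≤ L := by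
    rw [Submodule.span_le]
    rintro _ ⟨p, rfl⟩
    exact h2 p
  have a3 : Module.finrank Ω f.sl ≤ Module.finrank Ω (Submodule.span Ω (Set.range w)) := by
    rw [finrank_span_eq_card hw]
    exact finrank_range_le_card _
  rw [← Submodule.eq_of_le_of_finrank_le a1 a3]
  exact a2

end

end Pool.Agent.M4.Mx
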