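import Pool.Agent.Lib.MP_33b3f9_ag.M4.MxDefs

open Matrix Function
open scoped Kronecker

namespace Pool.Agent.M4.Mx

open Pool.Agent.Lib.MP_33b3f9_ag

noncomputable section

variable {ν : Type} [Fintype ν] [DecidableEq ν] {Ω : Type*} [Field Ω] [CharZero Ω]

theorem mxwd_bas (x : M2 Ω) : ∃ c : Fin 4 → Ω, x = ∑ v, c v • bas Ω v := by
  refine ⟨![(x 0 0 + x 1 1) / 2, x 0 1, x 1 0, (x 0 0 - x 1 1) / 2], ?_⟩
  ext i j
  fin_cases i <;> fin_cases j <;> simp [bas, Fin.sum_univ_four] <;> ring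

theorem mxwd_T (f : Fr ν Ω) (x : Fin 3 → M2 Ω) : f.T x ∈ Submodule.span Ω
    (Set.range fun p : Fin 4 × Fin 4 × Fin 4 =>
      f.u 0 (bas Ω p.1) * f.u 1 (bas Ω p.2.1) * f.u 2 (bas Ω p.2.2)) := by
  obtain ⟨a, ha⟩ := mxwd_bas (x 0)
  obtain ⟨b, hb⟩ := mxwd_bas (x 1)
  obtain ⟨c, hc⟩ := mxwd_bas (x 2)
  rw [f.T_eq, ha, hb, hc]
  simp only [map_sum, map_smul, Finset.sum_mul, Finset.mul_sum, smul_mul_assoc, mul_smul_comm]
  refine Submodule.sum_mem _ fun k _ => ?_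
  simp only [Finset.smul_sum]
  refine Submodule.sum_mem _ fun j _ => Submodule.sum_mem _ fun i _ => ?_
  exact Submodule.smul_mem _ _ (Submodule.smul_mem _ _ (Submodule.smul_mem _ _
    (Submodule.subset_span (Set.mem_range_self (i, j, k)))))

/-- Every matrix is a combination of the 64 words. `Y = P (Q Y P) Q`, `matrix_eq_sum_single`,
`tp_single`, `T_eq`; each `single i j 1` of size two is a combination of `bas` (`1/2 (1 + h)`, `e`,
`f`, `1/2 (1 - h)`); the span is stable: use that `u s` is linear (`Submodule.span_induction` or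
write `x = ∑ v, c v • bas v` and expand the three sums). -/
theorem words_span (f : Fr ν Ω) (Y : Matrix ν ν Ω) : ∃ y : Fin 4 → Fin 4 → Fin 4 → Ω,
    Y = ∑ a, ∑ b, ∑ c, y a b c • (f.u 0 (bas Ω a) * f.u 1 (bas Ω b) * f.u 2 (bas Ω c)) := by
  have h : Y ∈ Submodule.span Ω (Set.range fun p : Fin 4 × Fin 4 × Fin 4 =>
      f.u 0 (bas Ω p.1) * f.u 1 (bas Ω p.2.1) * f.u 2 (bas Ω p.2.2)) := by
    rw [← f.PQ_conj Y, matrix_eq_sum_single (f.Q * Y * f.P)]
    simp only [Matrix.mul_sum, Matrix.sum_mul]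
    refine Submodule.sum_mem _ fun i _ => Submodule.sum_mem _ fun j _ => ?_
    rw [← mul_one ((f.Q * Y * f.P) i j), ← smul_eq_mul, ← smul_single, Matrix.mul_smul,
      Matrix.smul_mul, ← tp_single]
    exact Submodule.smul_mem _ _ (mxwd_T f _)
  obtain ⟨y, hy⟩ := (Submodule.mem_span_range_iff_exists_fun Ω).1 h
  refine ⟨fun a b c => y (a, b, c), ?_⟩
  rw [← hy]
  simp only [Fintype.sum_prod_type]

end

end Pool.Agent.M4.Mx
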