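import Pool.Agent.Lib.MP_778b46_nt.Mertens

/-!
Values of a monic integer polynomial with small prime factors only.
-/

open Finset Polynomial

namespace M4.NT

lemma cha_classes {g : ℤ[X]} (hg : g.Monic) {l : ℕ} (hl : l.Prime) (j : ℕ) (S : Finset ℕ)
    (hS : ∀ a ∈ S, (l : ℤ) ^ (g.natDegree * j + 1) ∣ g.eval (a : ℤ)) :
    (S.image fun a => a % l ^ (j + 1)).card ≤ g.natDegree := by
  by_contra hn
  obtain ⟨t, ht1, ht2⟩ := exists_subset_card_eq (Nat.succ_le_of_lt (not_le.mp hn))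
  obtain ⟨u, hu1, hu2, hu3⟩ := exists_subset_injOn_image_eq_of_surjOn
    (f := fun a => a % l ^ (j + 1)) S t (fun x hx => by simpa using ht1 hx)
  have hu4 : u.card = g.natDegree + 1 := by rw [← card_image_of_injOn hu2, hu3, ht2]
  have := Fact.mk hl
  have hl1 : (1 : ℝ) < l := by exact_mod_cast hl.one_lt
  have hG := hg.map (Int.castRingHom ℚ_[l])
  have h1 := Lagrange.leadingCoeff_eq_sum (s := u) (v := fun a : ℕ => (a : ℚ_[l]))
    (P := g.map (Int.castRingHom ℚ_[l])) Nat.cast_injective.injOn (by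
      rw [degree_eq_natDegree hG.ne_zero, hg.natDegree_map, hu4]; norm_cast)
  rw [hG.leadingCoeff] at h1
  have h2 : ‖(1 : ℚ_[l])‖ ≤ (l : ℝ)⁻¹ := by
    rw [h1]
    refine IsUltrametricDist.norm_sum_le_of_forall_le_of_nonneg (by positivity) fun a ha => ?_
    have e1 : eval (a : ℚ_[l]) (g.map (Int.castRingHom ℚ_[l])) = ((g.eval (a : ℤ) : ℤ) : ℚ_[l]) := by
      simp
    have e2 := (Padic.norm_int_le_pow_iff_dvd (p := l) _ _).mpr (hS a (hu1 ha))
    have e3 : ((l : ℝ) ^ (-(j : ℤ))) ^ g.natDegree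
        ≤ ‖∏ b ∈ u.erase a, ((a : ℚ_[l]) - (b : ℚ_[l]))‖ := by
      have hc : (u.erase a).card = g.natDegree := by rw [card_erase_of_mem ha, hu4]; rfl
      rw [norm_prod, ← hc, ← prod_const]
      refine prod_le_prod (fun _ _ => by positivity) fun b hb => ?_
      by_contra hlt
      have h3 := (Padic.norm_le_pow_iff_norm_lt_pow_add_one ((a : ℚ_[l]) - (b : ℚ_[l]))
        (-((j + 1 : ℕ) : ℤ))).mpr (by simpa using hlt)
      have h4 := (Padic.norm_int_le_pow_iff_dvd (p := l) ((a : ℤ) - (b : ℤ)) (j + 1)).mp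
        (by simpa using h3)
      refine (mem_erase.mp hb).1 (hu2 (mem_erase.mp hb).2 ha ?_)
      exact Nat.modEq_iff_dvd.mpr (by exact_mod_cast h4)
    have hp : (0 : ℝ) < ((l : ℝ) ^ (-(j : ℤ))) ^ g.natDegree := by positivity
    rw [norm_div, e1, div_le_iff₀ (hp.trans_le e3)]
    refine e2.trans (le_trans (le_of_eq ?_) (mul_le_mul_of_nonneg_left e3 (by positivity)))
    rw [← zpow_natCast, ← zpow_mul, ← zpow_neg_one, ← zpow_add₀ (by positivity)]
    congr 1
    push_cast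
    ring
  rw [norm_one] at h2
  exact absurd h2 (not_le.mpr (inv_lt_one_of_one_lt₀ hl1))

lemma cha_count {g : ℤ[X]} (hg : g.Monic) {l : ℕ} (hl : l.Prime) (j H : ℕ) :
    (((range H).filter fun a : ℕ => (l : ℤ) ^ (g.natDegree * j + 1) ∣ g.eval (a : ℤ)).card : ℝ)
      ≤ g.natDegree * (H / l ^ (j + 1) + 1) := by
  set S := (range H).filter fun a : ℕ => (l : ℤ) ^ (g.natDegree * j + 1) ∣ g.eval (a : ℤ)
  have h1 := card_le_mul_card_image (f := fun a => a % l ^ (j + 1)) S (H / l ^ (j + 1) + 1)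
    fun r _ => by
      rw [← card_range (H / l ^ (j + 1) + 1)]
      refine card_le_card_of_injOn (fun a => a / l ^ (j + 1)) (fun a ha => ?_) fun a ha b hb h => ?_
      · have := mem_range.mp (mem_filter.mp (mem_filter.mp (mem_coe.mp ha)).1).1
        exact mem_coe.mpr (mem_range.mpr (Nat.lt_succ_of_le (Nat.div_le_div_right this.le)))
      · exact Nat.ext_div_mod h ((mem_filter.mp (mem_coe.mp ha)).2.trans
          (mem_filter.mp (mem_coe.mp hb)).2.symm)
  have h2 := h1.trans (Nat.mul_le_mul_left _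
    (cha_classes hg hl j S fun a ha => (mem_filter.mp ha).2))
  have h3 : ((H / l ^ (j + 1) : ℕ) : ℝ) ≤ H / l ^ (j + 1) := by exact_mod_cast Nat.cast_div_le
  calc (S.card : ℝ) ≤ ((H / l ^ (j + 1) : ℕ) + 1) * g.natDegree := by exact_mod_cast h2
    _ ≤ _ := by rw [mul_comm]; gcongr

lemma cha_geom {l : ℝ} (hl : 2 ≤ l) (J : ℕ) :
    ∑ j ∈ range J, 1 / l ^ (j + 1) ≤ 2 / l - 2 / l ^ (J + 1) := by
  induction J with
  | zero => simp
  | succ J ih =>
    rw [sum_range_succ]
    have h0 : 0 < l := by linarith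
    have : 2 / l ^ (J + 1 + 1) ≤ 1 / l ^ (J + 1) := by
      rw [div_le_div_iff₀ (by positivity) (by positivity), pow_succ l (J + 1)]
      nlinarith [pow_pos h0 (J + 1)]
    have e : 2 / l ^ (J + 1) = 2 * (1 / l ^ (J + 1)) := by ring
    linarith

lemma cha_val {n l d J : ℕ} (hl : l.Prime) (hd : 0 < d) (hn : n ≠ 0) (hJ : n ≤ 2 ^ J) :
    n.factorization l ≤ d * ((range J).filter fun j => l ^ (d * j + 1) ∣ n).card := by
  set v := n.factorization l
  have h1 : v ≤ J := by
    rw [← Nat.pow_le_pow_iff_right (by norm_num : 1 < 2)]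
    exact (Nat.pow_le_pow_left hl.two_le v).trans ((Nat.ordProj_le l hn).trans hJ)
  have h2 : range ((v + d - 1) / d) ⊆ (range J).filter fun j => l ^ (d * j + 1) ∣ n := by
    intro j hj
    have h3 := (Nat.le_div_iff_mul_le hd).mp (Nat.succ_le_of_lt (mem_range.mp hj))
    rw [Nat.succ_mul, mul_comm] at h3
    have h4 : j ≤ d * j := Nat.le_mul_of_pos_left j hd
    exact mem_filter.mpr ⟨mem_range.mpr (by omega),
      (hl.pow_dvd_iff_le_factorization hn).mpr (by omega)⟩
  have h5 := card_le_card h2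
  rw [card_range] at h5
  refine le_trans ?_ (Nat.mul_le_mul_left d h5)
  have := Nat.lt_mul_div_succ (v + d - 1) hd
  rw [mul_add, mul_one] at this
  omega

theorem cha_smooth {g : ℤ[X]} (hg : g.Monic) (hd : 0 < g.natDegree) {Z H J : ℕ} (hZ : 1 ≤ Z)
    (S : Finset ℕ) (hS : ∀ a ∈ S, a < H ∧ (g.eval (a : ℤ)).natAbs ≠ 0 ∧
      (g.eval (a : ℤ)).natAbs ≤ 2 ^ J ∧ ∀ l, l.Prime → l ∣ (g.eval (a : ℤ)).natAbs → l ≤ Z) :
    ∑ a ∈ S, Real.log (g.eval (a : ℤ)).natAbs ≤ (g.natDegree : ℝ) ^ 2 *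
      (2 * H * (Real.log Z + Real.log 4) + J * Z * Real.log Z) := by
  set d := g.natDegree
  have hlog : ∀ l ∈ Nat.primesLE Z, 0 ≤ Real.log l := fun l _ => Real.log_natCast_nonneg l
  have h1 : ∀ a ∈ S, Real.log (g.eval (a : ℤ)).natAbs ≤ ∑ l ∈ Nat.primesLE Z, Real.log l *
      (d * ∑ j ∈ range J, if (l : ℤ) ^ (d * j + 1) ∣ g.eval (a : ℤ) then (1 : ℝ) else 0) := by
    intro a ha
    obtain ⟨-, h0, hJ, hl⟩ := hS a ha
    rw [Real.log_nat_eq_sum_factorization, Finsupp.sum]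
    refine (sum_le_sum_of_subset_of_nonneg (t := Nat.primesLE Z) (fun l h => ?_)
      fun l h _ => mul_nonneg (Nat.cast_nonneg _) (hlog l h)).trans (sum_le_sum fun l h => ?_)
    · have h' := Nat.mem_primeFactors.mp (Nat.support_factorization _ ▸ h)
      exact Nat.mem_primesLE.mpr ⟨hl l h'.1 h'.2.1, h'.1⟩
    · rw [mul_comm]
      refine mul_le_mul_of_nonneg_left ?_ (hlog l h)
      have := cha_val (Nat.prime_of_mem_primesLE h) hd h0 hJ
      rw [sum_boole, filter_congr (q := fun j => l ^ (d * j + 1) ∣ (g.eval (a : ℤ)).natAbs)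
        fun j _ => by rw [← Int.natCast_dvd, Nat.cast_pow]]
      exact_mod_cast this
  refine (sum_le_sum h1).trans ?_
  rw [sum_comm]
  have h2 : ∀ l ∈ Nat.primesLE Z, ∑ a ∈ S, Real.log l *
      (d * ∑ j ∈ range J, if (l : ℤ) ^ (d * j + 1) ∣ g.eval (a : ℤ) then (1 : ℝ) else 0)
      ≤ (d : ℝ) ^ 2 * (2 * H * (Real.log l / l) + J * Real.log Z) := by
    intro l hl
    have hp := Nat.prime_of_mem_primesLE hl
    have hl2 : (2 : ℝ) ≤ l := by exact_mod_cast hp.two_le
    rw [← mul_sum, ← mul_sum, sum_comm]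
    have h3 : ∑ j ∈ range J, ∑ a ∈ S, (if (l : ℤ) ^ (d * j + 1) ∣ g.eval (a : ℤ) then (1 : ℝ) else 0)
        ≤ d * (H * (2 / l) + J) := by
      calc _ ≤ ∑ j ∈ range J, (d : ℝ) * (H * (1 / l ^ (j + 1)) + 1) := by
            refine sum_le_sum fun j _ => ?_
            rw [sum_boole, mul_one_div]
            refine le_trans ?_ (cha_count hg hp j H)
            exact_mod_cast card_le_card (filter_subset_filter _
              fun a ha => mem_range.mpr (hS a ha).1)
        _ = d * (H * ∑ j ∈ range J, 1 / (l : ℝ) ^ (j + 1) + J) := by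
            rw [← mul_sum, sum_add_distrib, ← mul_sum]; simp
        _ ≤ _ := by
            have h4 := cha_geom hl2 J
            have h5 : (0 : ℝ) ≤ 2 / (l : ℝ) ^ (J + 1) := by positivity
            gcongr
            linarith
    have h6 : Real.log l ≤ Real.log Z :=
      Real.log_le_log (by linarith) (by exact_mod_cast Nat.le_of_mem_primesLE hl)
    calc _ ≤ Real.log l * (d * (d * (H * (2 / l) + J))) := by
          have := hlog l hl
          gcongr
      _ = (d : ℝ) ^ 2 * (2 * H * (Real.log l / l) + J * Real.log l) := by ring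
      _ ≤ _ := by gcongr
  refine (sum_le_sum h2).trans ?_
  rw [← mul_sum, sum_add_distrib, ← mul_sum, sum_const, nsmul_eq_mul]
  have h7 := Pool.Agent.Lib.MP_778b46_nt.sum_log_div_le Z hZ
  have h8 : ((Nat.primesLE Z).card : ℝ) ≤ Z := by
    rw [Nat.primesLE_eq_filter_Ioc_zero]
    exact_mod_cast (card_filter_le _ _).trans (by simp)
  have h9 := Real.log_natCast_nonneg Z
  rw [show (J : ℝ) * Z * Real.log Z = Z * (J * Real.log Z) by ring]
  gcongr

end M4.NT
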