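import Pool.Agent.Lib.MP_33b3f9_ag.M4.NTIdc
import Pool.Agent.Lib.MP_cdccbc_an.Divisor

/-!
Integers of given norm and bounded size; small elements of ideals.
-/

open Finset NumberField Module

namespace M4.NT

variable {E : Type} [Field E] [NumberField E]

lemma gen_nat (E : Type) [Field E] [NumberField E] : ∃ C : ℕ, ∀ (n K : ℕ) (S : Finset (𝓞 E)),
    n ≠ 0 → (∀ g ∈ S, (Algebra.norm ℤ g).natAbs = n ∧ ∀ σ : E →+* ℂ, ‖σ (g : E)‖ ≤ 2 ^ K) →
    S.card ≤ C * (n.divisors.card ^ finrank ℚ E * (K * (finrank ℚ E + 1) + 1) ^ finrank ℚ E) := by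
  classical
  have hU := Embeddings.finite_of_norm_le E ℂ 2
  refine ⟨hU.toFinset.card, fun n K S hn hS => ?_⟩
  set d := finrank ℚ E with hd
  have hK : (1 : ℝ) ≤ 2 ^ K := one_le_pow₀ (by norm_num)
  let c : 𝓞 E → (E →+* ℂ) → ℕ := fun g σ => Nat.log 2 ⌊‖σ (g : E)‖ * (2 ^ K) ^ d⌋₊
  have hc : ∀ g ∈ S, ∀ σ : E →+* ℂ, (2 : ℝ) ^ c g σ ≤ ‖σ (g : E)‖ * (2 ^ K) ^ d ∧
      ‖σ (g : E)‖ * (2 ^ K) ^ d ≤ 2 * 2 ^ c g σ := by
    intro g hg σ
    have h1 : 1 ≤ ‖σ (g : E)‖ * (2 ^ K) ^ d := by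
      have e1 : (1 : ℝ) ≤ ∏ τ : E →+* ℂ, ‖τ (g : E)‖ := by
        rw [← abs_norm_eq, (hS g hg).1]; exact_mod_cast Nat.one_le_iff_ne_zero.mpr hn
      rw [← mul_prod_erase _ _ (mem_univ σ)] at e1
      refine e1.trans (mul_le_mul_of_nonneg_left ?_ (norm_nonneg _))
      calc _ ≤ ∏ _τ ∈ univ.erase σ, (2 : ℝ) ^ K :=
            prod_le_prod (fun _ _ => norm_nonneg _) fun τ _ => (hS g hg).2 τ
        _ ≤ _ := by
            rw [prod_const]
            refine pow_le_pow_right₀ hK (card_erase_le.trans ?_)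
            rw [card_univ, Embeddings.card]
    set x := ‖σ (g : E)‖ * (2 ^ K) ^ d
    have h2 : ⌊x⌋₊ ≠ 0 := (Nat.floor_pos.mpr h1).ne'
    constructor
    · have : ((2 ^ Nat.log 2 ⌊x⌋₊ : ℕ) : ℝ) ≤ ⌊x⌋₊ := by exact_mod_cast Nat.pow_log_le_self 2 h2
      push_cast at this
      exact this.trans (Nat.floor_le (by linarith))
    · have : ((⌊x⌋₊ + 1 : ℕ) : ℝ) ≤ (2 ^ (Nat.log 2 ⌊x⌋₊ + 1) : ℕ) := by
        exact_mod_cast Nat.lt_pow_succ_log_self (by norm_num : 1 < 2) ⌊x⌋₊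
      push_cast at this
      rw [pow_succ'] at this
      exact (Nat.lt_floor_add_one x).le.trans this
  have hI := Ideal.finite_setOfPred_absNorm_eq (S := 𝓞 E) n
  refine (card_le_mul_card_image (f := fun g => (Ideal.span {g}, c g)) S hU.toFinset.card
    fun a ha => ?_).trans (Nat.mul_le_mul_left _ ?_)
  · obtain ⟨g0, hg0, rfl⟩ := mem_image.mp ha
    have hg00 : (g0 : E) ≠ 0 := by
      intro h
      have : g0 = 0 := by exact_mod_cast h
      exact hn (by rw [← (hS g0 hg0).1, this]; simp)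
    refine card_le_card_of_injOn (fun g => (g : E) / g0) (fun g hg => ?_) fun g _ g' _ h => ?_
    · obtain ⟨hg1, hg2⟩ := mem_filter.mp (mem_coe.mp hg)
      obtain ⟨h1, h2⟩ := Prod.mk.inj hg2
      obtain ⟨u, hu⟩ := Ideal.mem_span_singleton'.mp (h1 ▸ Ideal.mem_span_singleton_self g)
      refine mem_coe.mpr (hU.mem_toFinset.mpr ⟨?_, fun σ => ?_⟩)
      · have : (g : E) / g0 = u := by rw [← hu]; push_cast; field_simp
        simp only [this]
        exact u.isIntegral_coe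
      · have h3 := (hc g hg1 σ).2
        have h4 := (hc g0 hg0 σ).1
        rw [h2] at h3
        have h5 : 0 < ‖σ (g0 : E)‖ := norm_pos_iff.mpr ((map_ne_zero σ).mpr hg00)
        rw [map_div₀, norm_div, div_le_iff₀ h5]
        refine le_of_mul_le_mul_right (a := ((2 : ℝ) ^ K) ^ d) ?_ (by positivity)
        linarith
    · have : (g : E) = g' := (div_left_inj' hg00).mp h
      exact_mod_cast this
  · calc _ ≤ (hI.toFinset ×ˢ Fintype.piFinset fun _ : E →+* ℂ => range (K * (d + 1) + 1)).card := by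
          refine card_le_card fun a ha => ?_
          obtain ⟨g, hg, rfl⟩ := mem_image.mp ha
          refine mem_product.mpr ⟨hI.mem_toFinset.mpr ?_, Fintype.mem_piFinset.mpr fun σ => ?_⟩
          · exact (Ideal.absNorm_span_singleton g).trans (hS g hg).1
          · rw [mem_range, Nat.lt_succ_iff, ← pow_le_pow_iff_right₀ (by norm_num : (1 : ℝ) < 2)]
            refine (hc g hg σ).1.trans ?_
            rw [pow_mul, pow_succ']
            exact mul_le_mul_of_nonneg_right ((hS g hg).2 σ) (by positivity)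
      _ ≤ _ := by
          rw [card_product, Fintype.card_piFinset, prod_const, card_range, card_univ,
            Embeddings.card]
          refine Nat.mul_le_mul_right _ ?_
          rw [← Nat.card_eq_card_finite_toFinset]
          exact idc E hn

theorem gen (E : Type) [Field E] [NumberField E] (C : ℕ) {ε : ℝ} (hε : 0 < ε) : ∃ C' : ℝ, 0 < C' ∧
    ∀ (P n : ℕ) (S : Finset (𝓞 E)), 1 ≤ P → n ≠ 0 → n ≤ C * P →
    (∀ g ∈ S, (Algebra.norm ℤ g).natAbs = n ∧ ∀ σ : E →+* ℂ, ‖σ (g : E)‖ ≤ C * P) →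
    (S.card : ℝ) ≤ C' * (P : ℝ) ^ ε := by
  obtain ⟨C0, h0⟩ := gen_nat E
  obtain ⟨k, hk⟩ := exists_nat_ge (2 / ε)
  have hk2 : 2 ≤ ε * k := by rwa [div_le_iff₀' hε] at hk
  have hk0 : 0 < k := by
    rcases Nat.eq_zero_or_pos k with rfl | h
    · norm_num at hk2
    · exact h
  set d := finrank ℚ E
  have hd : 0 < d := finrank_pos
  set e := d * k
  have he : 0 < e := Nat.mul_pos hd hk0
  set c : ℕ := C0 ^ k * (C * (e ^ e) ^ 2 ^ e * ((d + 1) ^ e * (2 * C * e ^ e))) + 1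
  have hc1 : (1 : ℝ) ≤ c := by exact_mod_cast Nat.le_add_left 1 _
  refine ⟨c, by linarith, fun P n S hP hn hnP hS => ?_⟩
  have hCP : 1 ≤ C * P := (Nat.one_le_iff_ne_zero.mpr hn).trans hnP
  set K := Nat.log 2 (C * P) + 1
  have hK1 : C * P ≤ 2 ^ K := (Nat.lt_pow_succ_log_self (by norm_num : 1 < 2) _).le
  have hK2 : 2 ^ K ≤ 2 * (C * P) := by
    rw [pow_succ']; exact Nat.mul_le_mul_left 2 (Nat.pow_log_le_self 2 (by omega))
  have h1 := h0 n K S hn fun g hg => ⟨(hS g hg).1, fun σ => ((hS g hg).2 σ).trans (by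
    exact_mod_cast hK1)⟩
  have h2 := Pool.Agent.Lib.MP_cdccbc_an.card_divisors_pow_le he hn
  have h3 := Pool.Agent.Lib.MP_cdccbc_an.succ_pow_le_aux he K
  have h4 : (K * (d + 1) + 1) ^ e ≤ (d + 1) ^ e * (2 * (C * P) * e ^ e) := by
    calc _ ≤ ((d + 1) * (K + 1)) ^ e := Nat.pow_le_pow_left (by nlinarith) e
      _ ≤ _ := by
        rw [mul_pow]
        exact Nat.mul_le_mul_left _ (h3.trans (Nat.mul_le_mul_right _ hK2))
  have h5 : S.card ^ k ≤ c * P ^ 2 := by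
    calc _ ≤ (C0 * (n.divisors.card ^ d * (K * (d + 1) + 1) ^ d)) ^ k := Nat.pow_le_pow_left h1 k
      _ = C0 ^ k * (n.divisors.card ^ e * (K * (d + 1) + 1) ^ e) := by
          rw [mul_pow, mul_pow, ← pow_mul, ← pow_mul]
      _ ≤ C0 ^ k * ((C * P * (e ^ e) ^ 2 ^ e) * ((d + 1) ^ e * (2 * (C * P) * e ^ e))) :=
          Nat.mul_le_mul_left _ (Nat.mul_le_mul (h2.trans (Nat.mul_le_mul_right _ hnP)) h4)
      _ = C0 ^ k * (C * (e ^ e) ^ 2 ^ e * ((d + 1) ^ e * (2 * C * e ^ e))) * P ^ 2 := by ring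
      _ ≤ _ := Nat.mul_le_mul_right _ (Nat.le_succ _)
  have hP1 : (1 : ℝ) ≤ P := by exact_mod_cast hP
  refine le_of_pow_le_pow_left₀ hk0.ne' (by positivity) ?_
  calc (S.card : ℝ) ^ k ≤ c * (P : ℝ) ^ 2 := by exact_mod_cast h5
    _ ≤ _ := by
      rw [mul_pow, ← Real.rpow_natCast ((P : ℝ) ^ ε), ← Real.rpow_mul (by linarith),
        ← Real.rpow_two]
      exact mul_le_mul (le_self_pow₀ hc1 hk0.ne') (Real.rpow_le_rpow_of_exponent_le hP1 hk2)
        (by positivity) (by positivity)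

omit [NumberField E] in
lemma norm_comb_le {ι : Type} [Fintype ι] (w : ι → 𝓞 E) {B s : ℝ} (σ : E →+* ℂ)
    (hw : ∀ i, ‖σ (w i : E)‖ ≤ B) (y : ι → ℤ) (hy : ∀ i, |(y i : ℝ)| ≤ s) :
    ‖σ ((∑ i, y i • w i : 𝓞 E) : E)‖ ≤ Fintype.card ι * B * s := by
  have : σ ((∑ i, y i • w i : 𝓞 E) : E) = ∑ i, (y i : ℂ) * σ (w i : E) := by
    rw [RingOfIntegers.coe_eq_algebraMap, map_sum, map_sum]
    simp
  rw [this]
  refine (norm_sum_le _ _).trans ?_
  calc _ ≤ ∑ _i : ι, B * s := sum_le_sum fun i _ => by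
        rw [norm_mul, Complex.norm_intCast, mul_comm]
        exact mul_le_mul (hw i) (hy i) (abs_nonneg _) ((norm_nonneg _).trans (hw i))
    _ = _ := by simp [mul_assoc]

lemma exists_bound {ι : Type} [Fintype ι] (w : ι → 𝓞 E) :
    ∃ B : ℕ, 1 ≤ B ∧ ∀ (σ : E →+* ℂ) (i : ι), ‖σ (w i : E)‖ ≤ B := by
  obtain ⟨B, hB⟩ := (Set.finite_range fun x : (E →+* ℂ) × ι => ‖x.1 (w x.2 : E)‖).bddAbove
  refine ⟨⌈B⌉₊ + 1, by omega, fun σ i => ?_⟩
  have := hB ⟨(σ, i), rfl⟩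
  have h2 := Nat.le_ceil B
  push_cast
  linarith

theorem small (E : Type) [Field E] [NumberField E] : ∃ C : ℕ, 1 ≤ C ∧ ∀ I : Ideal (𝓞 E), I ≠ ⊥ →
    ∃ β ∈ I, β ≠ 0 ∧ (Algebra.norm ℤ β).natAbs ≤ C * Ideal.absNorm I ∧
      ∀ σ : E →+* ℂ, ‖σ (β : E)‖ ≤ C * Ideal.absNorm I := by
  classical
  let b := RingOfIntegers.basis E
  obtain ⟨B, hB1, hB⟩ := exists_bound b
  set d := finrank ℚ E with hd
  have hd0 : 0 < d := finrank_pos
  have hι : Fintype.card (Free.ChooseBasisIndex ℤ (𝓞 E)) = d := by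
    rw [← finrank_eq_card_basis b, RingOfIntegers.rank]
  have hdB : 1 ≤ d * B := Nat.mul_pos hd0 hB1
  refine ⟨(d * B) ^ d, Nat.one_le_pow _ _ hdB, fun I hI => ?_⟩
  set N := Ideal.absNorm I with hN
  have hN0 : N ≠ 0 := fun h => hI (Ideal.absNorm_eq_zero_iff.mp h)
  have : Finite (𝓞 E ⧸ I) := (Ideal.absNorm_ne_zero_iff I).mp hN0
  have := Fintype.ofFinite (𝓞 E ⧸ I)
  set s := Nat.nthRoot d N
  have hs1 : s ^ d ≤ N := Nat.pow_nthRoot_le (Or.inl hd0.ne')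
  have hs2 : N < (s + 1) ^ d := Nat.lt_pow_nthRoot_add_one hd0.ne' N
  obtain ⟨x, hx, x', hx', hne, h⟩ := exists_ne_map_eq_of_card_lt_of_maps_to
    (s := Fintype.piFinset fun _ : Free.ChooseBasisIndex ℤ (𝓞 E) => range (s + 1))
    (t := (univ : Finset (𝓞 E ⧸ I)))
    (f := fun x => Ideal.Quotient.mk I (∑ i, (x i : ℤ) • b i)) (by
      rw [card_univ, Fintype.card_piFinset, prod_const, card_range, card_univ, hι,
        ← Nat.card_eq_fintype_card]
      exact hs2) fun _ _ => mem_univ _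
  have hσ : ∀ σ : E →+* ℂ, ‖σ ((∑ i, ((x i : ℤ) - x' i) • b i : 𝓞 E) : E)‖ ≤ d * B * s := by
    intro σ
    rw [← hι]
    refine norm_comb_le b σ (hB σ) _ fun i => ?_
    have h1 : (x i : ℝ) ≤ s := by
      exact_mod_cast Nat.lt_succ_iff.mp (mem_range.mp (Fintype.mem_piFinset.mp hx i))
    have h2 : (x' i : ℝ) ≤ s := by
      exact_mod_cast Nat.lt_succ_iff.mp (mem_range.mp (Fintype.mem_piFinset.mp hx' i))
    have h3 : (0 : ℝ) ≤ x i := Nat.cast_nonneg _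
    have h4 : (0 : ℝ) ≤ x' i := Nat.cast_nonneg _
    push_cast
    rw [abs_le]
    constructor <;> linarith
  refine ⟨∑ i, ((x i : ℤ) - x' i) • b i, ?_, fun h0 => hne ?_, ?_, fun σ => (hσ σ).trans ?_⟩
  · simp only [sub_smul, sum_sub_distrib]
    exact Ideal.Quotient.eq.mp h
  · funext i
    have := Fintype.linearIndependent_iff.mp b.linearIndependent _ h0 i
    omega
  · have h1 := abs_norm_le hσ
    have h2 : (Algebra.norm ℤ (∑ i, ((x i : ℤ) - x' i) • b i)).natAbs ≤ (d * B * s) ^ d := by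
      exact_mod_cast h1
    rw [mul_pow] at h2
    exact h2.trans (Nat.mul_le_mul_left _ hs1)
  · exact_mod_cast Nat.mul_le_mul (Nat.le_self_pow hd0.ne' (d * B))
      ((Nat.le_self_pow hd0.ne' s).trans hs1)

end M4.NT
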