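import Pool.Agent.Lib.MP_33b3f9_ag.M4.NTChA
import Pool.Agent.Lib.MP_33b3f9_ag.M4.NTGen

/-!
Points of a box: packing, lines, and the main inequality.
-/

open Finset NumberField Module

namespace M4.NT

variable {E : Type} [Field E] [NumberField E] {ι : Type} [Fintype ι] [DecidableEq ι]

/-- The box of side `H`. -/
def box (ι : Type) [Fintype ι] [DecidableEq ι] (H : ℕ) : Finset (ι → ℕ) :=
  Fintype.piFinset fun _ => range H

lemma card_box (H : ℕ) : (box ι H).card = H ^ Fintype.card ι := by simp [box]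

/-- The point with coordinates `x`. -/
noncomputable def pt (w : ι → 𝓞 E) (x : ι → ℕ) : 𝓞 E := ∑ i, (x i : ℤ) • w i

omit [DecidableEq ι] in
lemma chb_norm {w : ι → 𝓞 E} (hι : Fintype.card ι = finrank ℚ E) {B s : ℕ}
    (hB : ∀ (σ : E →+* ℂ) i, ‖σ (w i : E)‖ ≤ B) (y : ι → ℤ) (hy : ∀ i, |y i| ≤ s) :
    (Algebra.norm ℤ (∑ i, y i • w i)).natAbs ≤ (finrank ℚ E * B * s) ^ finrank ℚ E := by
  have := abs_norm_le fun σ => norm_comb_le w σ (hB σ) y (s := s) fun i => by exact_mod_cast hy i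
  rw [hι] at this
  exact_mod_cast this

open Classical in
lemma chb_pack {w : ι → 𝓞 E} (hw : LinearIndependent ℤ w) (hι : Fintype.card ι = finrank ℚ E)
    {B H : ℕ} (hB : ∀ (σ : E →+* ℂ) i, ‖σ (w i : E)‖ ≤ B) {P : Ideal (𝓞 E)}
    (h0 : Ideal.absNorm P ≠ 0) (hP : Ideal.absNorm P ≤ (finrank ℚ E * B * H) ^ finrank ℚ E) :
    ((box ι H).filter fun x => pt w x ∈ P).card * Ideal.absNorm P
      ≤ (2 * (finrank ℚ E * B * H)) ^ finrank ℚ E := by
  set d := finrank ℚ E with hd
  have hd0 : 0 < d := finrank_pos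
  have hex : ∃ r, Ideal.absNorm P ≤ (d * B * r) ^ d := ⟨H, hP⟩
  set r := Nat.find hex
  have hr1 : Ideal.absNorm P ≤ (d * B * r) ^ d := Nat.find_spec hex
  have hr2 : r ≤ H := Nat.find_min' hex hP
  have hr0 : 0 < r := by
    refine Nat.pos_of_ne_zero fun h => h0 ?_
    rw [h, mul_zero, zero_pow hd0.ne'] at hr1
    omega
  have h1 : ((box ι H).filter fun x => pt w x ∈ P).card ≤ (box ι (H / r + 1)).card := by
    refine card_le_card_of_injOn (fun x i => x i / r) (fun x hx => ?_) fun x hx y hy h => ?_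
    · refine mem_coe.mpr (Fintype.mem_piFinset.mpr fun i => mem_range.mpr (Nat.lt_succ_of_le ?_))
      exact Nat.div_le_div_right
        (mem_range.mp (Fintype.mem_piFinset.mp (mem_filter.mp (mem_coe.mp hx)).1 i)).le
    · by_contra hne
      have hz : ∑ i, ((x i : ℤ) - y i) • w i ∈ P := by
        simp only [sub_smul, sum_sub_distrib]
        exact P.sub_mem (mem_filter.mp (mem_coe.mp hx)).2 (mem_filter.mp (mem_coe.mp hy)).2
      have hz0 : ∑ i, ((x i : ℤ) - y i) • w i ≠ 0 := fun h0 => hne (funext fun i => by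
        have := Fintype.linearIndependent_iff.mp hw _ h0 i
        omega)
      refine Nat.find_min hex (Nat.sub_lt hr0 one_pos) (le_trans ?_
        (chb_norm hι hB (fun i => (x i : ℤ) - y i) fun i => ?_))
      · exact Nat.le_of_dvd (Int.natAbs_pos.mpr (Algebra.norm_ne_zero_iff.mpr hz0))
          (Int.natCast_dvd.mp (Ideal.absNorm_dvd_norm_of_mem hz))
      · have e : x i / r = y i / r := congrFun h i
        have h2 := Nat.div_add_mod (x i) r
        have h3 := Nat.div_add_mod (y i) r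
        have h4 := Nat.mod_lt (x i) hr0
        have h5 := Nat.mod_lt (y i) hr0
        rw [e] at h2
        rw [abs_le]
        change _ ≤ (x i : ℤ) - y i ∧ (x i : ℤ) - y i ≤ ((r - 1 : ℕ) : ℤ)
        constructor <;> omega
  rw [card_box, hι] at h1
  refine (Nat.mul_le_mul h1 hr1).trans ?_
  rw [← mul_pow]
  refine Nat.pow_le_pow_left ?_ _
  have := Nat.div_mul_le_self H r
  calc _ = d * B * (H / r * r + r) := by ring
    _ ≤ d * B * (2 * H) := Nat.mul_le_mul_left _ (by omega)
    _ = _ := by ring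

lemma chb_poly (c : 𝓞 E) : ∃ g : Polynomial ℤ, g.Monic ∧ g.natDegree = finrank ℚ E ∧
    ∀ a : ℕ, g.eval (a : ℤ) = Algebra.norm ℤ ((a : 𝓞 E) + c) := by
  refine ⟨(-LinearMap.mul ℤ (𝓞 E) c).charpoly, LinearMap.charpoly_monic _, ?_, fun a => ?_⟩
  · rw [LinearMap.charpoly_natDegree, RingOfIntegers.rank]
  · rw [LinearMap.eval_charpoly, Algebra.norm_apply]
    congr 1
    ext x
    simp

lemma chb_near (z : ℂ) (h H : ℕ) :
    ((range H).filter fun a : ℕ => ‖(a : ℂ) + z‖ < h).card ≤ 2 * h := by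
  set S := (range H).filter fun a : ℕ => ‖(a : ℂ) + z‖ < h
  rcases S.eq_empty_or_nonempty with h0 | h0
  · simp [h0]
  have h1 := (mem_filter.mp (S.min'_mem h0)).2
  refine (card_le_card (t := Ico (S.min' h0) (S.min' h0 + 2 * h)) fun a ha => ?_).trans (by simp)
  refine mem_Ico.mpr ⟨S.min'_le a ha, ?_⟩
  have h2 := (mem_filter.mp ha).2
  have h3 := norm_sub_le ((a : ℂ) + z) ((S.min' h0 : ℕ) + z)
  rw [add_sub_add_right_eq_sub, ← Complex.ofReal_natCast a, ← Complex.ofReal_natCast (S.min' h0),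
    ← Complex.ofReal_sub, Complex.norm_real, Complex.ofReal_natCast, Complex.ofReal_natCast] at h3
  have h4 : (a : ℝ) < (S.min' h0 : ℕ) + 2 * h := by
    linarith [le_abs_self ((a : ℝ) - (S.min' h0 : ℕ)), Real.norm_eq_abs ((a : ℝ) - (S.min' h0 : ℕ))]
  exact_mod_cast h4

/-- The norm is not zero and has a prime factor above `Z`. -/
def Gd (Z : ℕ) (x : 𝓞 E) : Prop :=
  x ≠ 0 ∧ ∃ l : ℕ, l.Prime ∧ l ∣ (Algebra.norm ℤ x).natAbs ∧ Z < l

open Classical in
lemma chb_line (c : 𝓞 E) {D h J Z : ℕ} (hD : finrank ℚ E ≤ D) (hZ : 1 ≤ Z) (hh : 2 ≤ h)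
    (hJ : ∀ a < 8 * D * h, (Algebra.norm ℤ ((a : 𝓞 E) + c)).natAbs ≤ 2 ^ J)
    (hl : (D : ℝ) ^ 2 * (2 * (8 * D * h : ℕ) * (Real.log Z + Real.log 4) + J * Z * Real.log Z)
      ≤ 4 * D * h * Real.log h) :
    ((range (8 * D * h)).filter fun a : ℕ => ¬ Gd Z ((a : 𝓞 E) + c)).card ≤ 6 * D * h := by
  obtain ⟨g, hg, hgd, hge⟩ := chb_poly c
  have hd0 : 0 < finrank ℚ E := finrank_pos
  set H := 8 * D * h
  set U := (univ : Finset (E →+* ℂ)).biUnion fun σ =>
    (range H).filter fun a : ℕ => ‖(a : ℂ) + σ (c : E)‖ < h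
  have hU : U.card ≤ 2 * D * h := by
    refine (card_biUnion_le_card_mul _ _ (2 * h) fun σ _ => chb_near _ h H).trans ?_
    rw [card_univ, Embeddings.card]
    nlinarith
  set S := ((range H).filter fun a : ℕ => ¬ Gd Z ((a : 𝓞 E) + c)) \ U
  have hh1 : (1 : ℝ) < h := by exact_mod_cast hh
  have h1 : ∀ a ∈ S, (h : ℝ) ≤ (Algebra.norm ℤ ((a : 𝓞 E) + c)).natAbs := by
    intro a ha
    obtain ⟨ha1, ha2⟩ := mem_sdiff.mp ha
    rw [abs_norm_eq]
    refine (le_self_pow₀ hh1.le hd0.ne').trans ?_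
    rw [← Embeddings.card E ℂ, ← card_univ, ← prod_const]
    refine prod_le_prod (fun _ _ => by positivity) fun σ _ => not_lt.mp fun hlt => ha2 ?_
    exact mem_biUnion.mpr ⟨σ, mem_univ _, mem_filter.mpr ⟨(mem_filter.mp ha1).1, by simpa using hlt⟩⟩
  have h2 := cha_smooth hg (hgd ▸ hd0) (H := H) (J := J) hZ S fun a ha => by
    have ha1 := mem_filter.mp (mem_sdiff.mp ha).1
    have h0 : (Algebra.norm ℤ ((a : 𝓞 E) + c)).natAbs ≠ 0 := fun h0 => by
      have := h1 a ha
      rw [h0, Nat.cast_zero] at this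
      linarith
    rw [hge]
    refine ⟨mem_range.mp ha1.1, h0, hJ a (mem_range.mp ha1.1), fun l hl hd => not_lt.mp fun hlt =>
      ha1.2 ⟨fun h => h0 (by rw [h]; simp), l, hl, hd, hlt⟩⟩
  have h3 : (S.card : ℝ) * Real.log h ≤ 4 * D * h * Real.log h := by
    rw [← nsmul_eq_mul]
    refine (card_nsmul_le_sum _ _ _ fun a ha => ?_).trans (h2.trans (le_trans ?_ hl))
    · rw [hge]; exact Real.log_le_log (by linarith) (h1 a ha)
    · have := Real.log_natCast_nonneg Z
      have : 0 ≤ Real.log 4 := Real.log_nonneg (by norm_num)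
      rw [hgd]
      gcongr
  have h4 : S.card ≤ 4 * D * h := by
    exact_mod_cast le_of_mul_le_mul_right h3 (Real.log_pos hh1)
  have h5 := le_card_sdiff U ((range H).filter fun a : ℕ => ¬ Gd Z ((a : 𝓞 E) + c))
  change _ ≤ S.card at h5
  nlinarith [Nat.sub_le_iff_le_add.mp h5]

omit [NumberField E] in
lemma pt_update {w : ι → 𝓞 E} {i0 : ι} (hw : w i0 = 1) (x : ι → ℕ) (a : ℕ) :
    pt w (Function.update x i0 a) = a + pt w (Function.update x i0 0) := by
  unfold pt
  rw [← add_sum_erase _ _ (mem_univ i0), ← add_sum_erase _ _ (mem_univ i0),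
    sum_congr rfl fun i hi => by rw [Function.update_of_ne (mem_erase.mp hi).1],
    sum_congr rfl (s₂ := univ.erase i0) (f := fun i => ((Function.update x i0 0 i : ℕ) : ℤ) • w i)
      fun i hi => by rw [Function.update_of_ne (mem_erase.mp hi).1]]
  simp [hw]

omit [NumberField E] in
lemma chb_box {w : ι → 𝓞 E} {i0 : ι} (hw : w i0 = 1) (p : 𝓞 E → Prop) [DecidablePred p] {H m : ℕ}
    (h : ∀ x ∈ box ι H, ((range H).filter fun a : ℕ =>
      p (a + pt w (Function.update x i0 0))).card ≤ m) :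
    ((box ι H).filter fun x => p (pt w x)).card * H ≤ m * H ^ Fintype.card ι := by
  have h1 := card_le_mul_card_image (f := fun x => Function.update x i0 0)
    ((box ι H).filter fun x => p (pt w x)) m fun y hy => by
      obtain ⟨x0, hx0, rfl⟩ := mem_image.mp hy
      refine le_trans (card_le_card_of_injOn (fun x => x i0) (fun x hx => ?_) fun x hx y hy e => ?_)
        (h x0 (mem_filter.mp hx0).1)
      · obtain ⟨h1, h2⟩ := mem_filter.mp (mem_coe.mp hx)
        obtain ⟨h3, h4⟩ := mem_filter.mp h1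
        refine mem_coe.mpr (mem_filter.mpr ⟨Fintype.mem_piFinset.mp h3 i0, ?_⟩)
        rwa [← h2, ← pt_update hw, Function.update_eq_self]
      · have := (mem_filter.mp (mem_coe.mp hx)).2.trans (mem_filter.mp (mem_coe.mp hy)).2.symm
        funext i
        by_cases hi : i = i0
        · rw [hi]; exact e
        · simpa [Function.update_of_ne hi] using congrFun this i
  have h2 : (((box ι H).filter fun x => p (pt w x)).image fun x => Function.update x i0 0).card * H
      ≤ H ^ Fintype.card ι := by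
    calc _ ≤ (Fintype.piFinset (Function.update (fun _ : ι => range H) i0 {0})).card * H := by
          refine Nat.mul_le_mul_right _ (card_le_card fun y hy => ?_)
          obtain ⟨x, hx, rfl⟩ := mem_image.mp hy
          refine Fintype.mem_piFinset.mpr fun i => ?_
          by_cases hi : i = i0
          · rw [hi]; simp
          · simpa [Function.update_of_ne hi] using Fintype.mem_piFinset.mp (mem_filter.mp hx).1 i
      _ = _ := by
          rw [Fintype.card_piFinset, ← mul_prod_erase _ _ (mem_univ i0),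
            prod_congr rfl fun i hi => by rw [Function.update_of_ne (mem_erase.mp hi).1],
            ← card_univ, ← card_erase_add_one (mem_univ i0), pow_succ]
          simp
  calc _ ≤ m * _ * H := Nat.mul_le_mul_right _ h1
    _ ≤ _ := by rw [mul_assoc]; exact Nat.mul_le_mul_left _ h2

open Classical in
lemma chb_good {w : ι → 𝓞 E} (hw : LinearIndependent ℤ w) (hι : Fintype.card ι = finrank ℚ E)
    {B H Z T : ℕ} (hB : ∀ (σ : E →+* ℂ) i, ‖σ (w i : E)‖ ≤ B) (hZ : 1 ≤ Z) (hZT : Z ≤ T)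
    (hT : (finrank ℚ E * B * H) ^ finrank ℚ E ≤ T) :
    (((box ι H).filter fun x => Gd Z (pt w x)).card : ℝ) ≤ finrank ℚ E *
      (2 * (finrank ℚ E * B * H)) ^ finrank ℚ E *
        (∑ l ∈ (Ioc Z T).filter fun l => l.Prime ∧ Spl E l, (l : ℝ)⁻¹ + (Z : ℝ)⁻¹) := by
  set d := finrank ℚ E with hd
  set N := (d * B * H) ^ d
  set V : ℝ := (2 * (d * B * H)) ^ d
  have hF := Ideal.finite_setOfPred_absNorm_le (S := 𝓞 E) N
  let U : ℕ → Finset (Ideal (𝓞 E)) := fun l =>
    hF.toFinset.filter fun P => P.IsPrime ∧ (l : 𝓞 E) ∈ P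
  have h1 : ((box ι H).filter fun x => Gd Z (pt w x)) ⊆ ((Ioc Z T).filter Nat.Prime).biUnion
      fun l => (U l).biUnion fun P => (box ι H).filter fun x => pt w x ∈ P := by
    intro x hx
    obtain ⟨hx1, hx0, l, hl, hd, hlt⟩ := mem_filter.mp hx
    have hN : (Algebra.norm ℤ (pt w x)).natAbs ≤ N := chb_norm hι hB _ fun i => by
      have := mem_range.mp (Fintype.mem_piFinset.mp hx1 i)
      rw [abs_of_nonneg (by positivity)]
      exact_mod_cast this.le
    have hp := Int.natAbs_pos.mpr ((Algebra.norm_ne_zero_iff (R := ℤ)).mpr hx0)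
    obtain ⟨P, hP, hP1, hP2⟩ := Ideal.exists_isMaximal_dvd_of_dvd_absNorm' hl
      (Ideal.span {pt w x}) (by rwa [Ideal.absNorm_span_singleton])
    have hxP := Ideal.dvd_span_singleton.mp hP2
    refine mem_biUnion.mpr ⟨l, mem_filter.mpr ⟨mem_Ioc.mpr
      ⟨hlt, (Nat.le_of_dvd hp hd).trans (hN.trans hT)⟩, hl⟩, mem_biUnion.mpr
      ⟨P, mem_filter.mpr ⟨hF.mem_toFinset.mpr ?_, hP.isPrime, ?_⟩, mem_filter.mpr ⟨hx1, hxP⟩⟩⟩
    · exact (Nat.le_of_dvd hp (Int.natCast_dvd.mp (Ideal.absNorm_dvd_norm_of_mem hxP))).trans hN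
    · have : (l : ℤ) ∈ P.under ℤ := hP1 ▸ Ideal.mem_span_singleton_self _
      simpa using Ideal.mem_comap.mp this
  have hV : 0 ≤ V := by positivity
  have h2 : ∀ l ∈ (Ioc Z T).filter Nat.Prime,
      (((U l).biUnion fun P => (box ι H).filter fun x => pt w x ∈ P).card : ℝ)
        ≤ d * V * ((if Spl E l then (l : ℝ)⁻¹ else 0) + ((l : ℝ) ^ 2)⁻¹) := by
    intro l hl
    have hp := (mem_filter.mp hl).2
    have hl0 : (0 : ℝ) < l := by exact_mod_cast hp.pos
    have h3 : ∀ P ∈ U l, ((((box ι H).filter fun x => pt w x ∈ P).card : ℕ) : ℝ)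
        ≤ V * ((if Spl E l then (l : ℝ)⁻¹ else 0) + ((l : ℝ) ^ 2)⁻¹) := by
      intro P hP
      obtain ⟨h4, h5, h6⟩ := mem_filter.mp hP
      obtain ⟨f, hf, he⟩ := over_norm hp h5 h6
      have h7 := chb_pack hw hι hB (he ▸ pow_ne_zero f hp.ne_zero) (hF.mem_toFinset.mp h4)
      rw [he] at h7
      have h8 : ((((box ι H).filter fun x => pt w x ∈ P).card : ℕ) : ℝ) ≤ V * ((l : ℝ) ^ f)⁻¹ := by
        rw [← div_eq_mul_inv, le_div_iff₀ (by positivity)]
        simp only [V]
        exact_mod_cast h7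
      refine h8.trans (mul_le_mul_of_nonneg_left ?_ hV)
      rcases hf.eq_or_lt with rfl | hf
      · have := Fact.mk hp
        have : Finite (𝓞 E ⧸ P) :=
          (Ideal.absNorm_ne_zero_iff P).mp (he ▸ pow_ne_zero 1 hp.ne_zero)
        have := Fintype.ofFinite (𝓞 E ⧸ P)
        have hc : Fintype.card (𝓞 E ⧸ P) = l := by
          rw [← Nat.card_eq_fintype_card, ← Submodule.cardQuot_apply, ← Ideal.absNorm_apply, he,
            pow_one]
        rw [if_pos ⟨(ZMod.ringEquivOfPrime (𝓞 E ⧸ P) hp hc).symm.toRingHom.comp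
          (Ideal.Quotient.mk P)⟩, pow_one]
        exact le_add_of_nonneg_right (by positivity)
      · refine le_add_of_nonneg_of_le (by split_ifs <;> positivity) ?_
        exact inv_anti₀ (by positivity)
          (pow_le_pow_right₀ (by exact_mod_cast hp.one_le) hf)
    calc _ ≤ ∑ P ∈ U l, ((((box ι H).filter fun x => pt w x ∈ P).card : ℕ) : ℝ) := by
          exact_mod_cast card_biUnion_le
      _ ≤ (U l).card • _ := sum_le_card_nsmul _ _ _ h3
      _ ≤ _ := by
          rw [nsmul_eq_mul, mul_assoc]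
          refine mul_le_mul_of_nonneg_right ?_ (by split_ifs <;> positivity)
          exact_mod_cast over_card hp (U l) fun P hP => (mem_filter.mp hP).2
  calc _ ≤ ∑ l ∈ (Ioc Z T).filter Nat.Prime,
        (((U l).biUnion fun P => (box ι H).filter fun x => pt w x ∈ P).card : ℝ) := by
        exact_mod_cast (card_le_card h1).trans card_biUnion_le
    _ ≤ _ := (sum_le_sum h2).trans ?_
  rw [← mul_sum, sum_add_distrib, ← sum_filter, filter_filter]
  refine mul_le_mul_of_nonneg_left (add_le_add le_rfl ?_) (by positivity)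
  refine (sum_le_sum_of_subset_of_nonneg (filter_subset _ _) fun _ _ _ => by positivity).trans
    ((sum_Ioc_inv_sq_le_sub (by omega) hZT).trans (sub_le_self _ (by positivity)))

end M4.NT
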