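import Pool.Agent.Lib.MP_33b3f9_ag.M4.NTChB

/-!
A lower bound of Chebyshev type for primes of degree one, uniform in the field.
-/

open Finset NumberField Module Filter

namespace M4.NT

variable {E : Type} [Field E] [NumberField E] {ι : Type} [Fintype ι] [DecidableEq ι]

open Classical in
lemma chc_main {w : ι → 𝓞 E} (hw : LinearIndependent ℤ w) (hι : Fintype.card ι = finrank ℚ E)
    {i0 : ι} (h0 : w i0 = 1) {B D Z : ℕ} (hB : ∀ (σ : E →+* ℂ) i, ‖σ (w i : E)‖ ≤ B)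
    (hD : finrank ℚ E ≤ D) (hZ1 : (8 * D ^ 2) ^ D ≤ Z) (hZ2 : B ^ D ≤ Z) (hZ3 : 10 * D ^ 3 + 2 ≤ Z) :
    (1 : ℝ) ≤ 4 * D * (2 * D) ^ D * B ^ D *
      (∑ l ∈ (Ioc Z (Z ^ (10 * D ^ 3 + 2))).filter fun l => l.Prime ∧ Spl E l, (l : ℝ)⁻¹
        + (Z : ℝ)⁻¹) := by
  set d := finrank ℚ E with hd
  have hd0 : 0 < d := finrank_pos
  have hD0 : 0 < D := hd0.trans_le hD
  have hB1 : 1 ≤ B := by
    have := hB (Classical.arbitrary _) i0
    rw [h0] at this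
    exact_mod_cast (by simpa using this : (1 : ℝ) ≤ B)
  have hD3 : 1 ≤ D ^ 3 := Nat.one_le_pow _ _ hD0
  have hD2 : 1 ≤ D ^ 2 := Nat.one_le_pow _ _ hD0
  set A := 10 * D ^ 3 + 2 with hA
  set h := Z ^ (10 * D ^ 2) with hh
  set H := 8 * D * h with hH
  have hZ : 1 ≤ Z := by omega
  have hh3 : Z ^ 3 ≤ h := Nat.pow_le_pow_right hZ (by omega)
  have hh2 : 2 ≤ h := le_trans (by omega) ((Nat.le_self_pow three_ne_zero Z).trans hh3)
  have hH0 : 0 < H := by positivity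
  have hT : (d * B * H) ^ d ≤ Z ^ A := by
    calc _ ≤ (D * B * H) ^ d := by gcongr
      _ ≤ (D * B * H) ^ D := Nat.pow_le_pow_right (by positivity) hD
      _ = (8 * D ^ 2) ^ D * B ^ D * h ^ D := by rw [← mul_pow, ← mul_pow, hH]; congr 1; ring
      _ ≤ Z * Z * h ^ D := by gcongr
      _ = _ := by rw [hh, hA, ← pow_mul]; ring
  have h1 := chb_box h0 (fun x => ¬ Gd Z x) (H := H) (m := 6 * D * h) fun x hx => by
    refine chb_line _ hD hZ hh2 (J := Z * A) (fun a ha => ?_) ?_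
    · rw [← pt_update h0, pow_mul]
      refine (chb_norm hι hB _ fun i => ?_).trans
        (hT.trans (Nat.pow_le_pow_left Nat.lt_two_pow_self.le _))
      rw [abs_of_nonneg (by positivity), Nat.cast_le]
      by_cases hi : i = i0
      · rw [hi, Function.update_self]; exact ha.le
      · rw [Function.update_of_ne hi]; exact (mem_range.mp (Fintype.mem_piFinset.mp hx i)).le
    · have e1 : Real.log 4 ≤ Real.log Z :=
        Real.log_le_log (by norm_num) (by exact_mod_cast (by omega : 4 ≤ Z))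
      have e2 : Real.log h = 10 * D ^ 2 * Real.log Z := by
        rw [hh, Nat.cast_pow, Real.log_pow]; push_cast; ring
      have e3 : Z * A * Z ≤ 8 * D * h := by
        calc Z * A * Z ≤ Z * Z * Z := by gcongr
          _ = Z ^ 3 := by ring
          _ ≤ _ := hh3.trans (Nat.le_mul_of_pos_left _ (by positivity))
      have e4 : ((Z * A : ℕ) : ℝ) * Z ≤ 8 * D * h := by exact_mod_cast e3
      have e5 := Real.log_natCast_nonneg Z
      calc _ ≤ (D : ℝ) ^ 2 * (2 * (8 * D * h : ℕ) * (Real.log Z + Real.log Z)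
            + 8 * D * h * Real.log Z) := by gcongr
        _ = _ := by rw [e2]; push_cast; ring
  have h2 := card_filter_add_card_filter_not (s := box ι H) fun x => Gd Z (pt w x)
  rw [card_box, hι] at h2
  rw [hι] at h1
  have h3 : 4 * ((box ι H).filter fun x => ¬ Gd Z (pt w x)).card ≤ 3 * H ^ d := by
    refine Nat.le_of_mul_le_mul_right (c := H) ?_ hH0
    calc _ ≤ 4 * (6 * D * h * H ^ d) := by rw [mul_assoc]; exact Nat.mul_le_mul_left _ h1
      _ = 3 * H ^ d * (8 * D * h) := by ring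
  have h4 : (H : ℝ) ^ d ≤ 4 * ((box ι H).filter fun x => Gd Z (pt w x)).card := by
    exact_mod_cast (by omega : H ^ d ≤ 4 * ((box ι H).filter fun x => Gd Z (pt w x)).card)
  have h5 := chb_good hw hι hB hZ (Nat.le_self_pow (by omega) Z) hT
  set s := ∑ l ∈ (Ioc Z (Z ^ A)).filter fun l => l.Prime ∧ Spl E l, (l : ℝ)⁻¹ + (Z : ℝ)⁻¹
  have hs : 0 ≤ s := by positivity
  refine le_of_mul_le_mul_right (a := (H : ℝ) ^ d) ?_ (by positivity)
  have h6 : (d : ℝ) ≤ D := by exact_mod_cast hD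
  have h7 : (1 : ℝ) ≤ 2 * D * B := by exact_mod_cast (by nlinarith : 1 ≤ 2 * D * B)
  calc 1 * (H : ℝ) ^ d ≤ 4 * (d * (2 * (d * B * H)) ^ d * s) := by linarith
    _ = 4 * d * (2 * d * B) ^ d * s * H ^ d := by rw [← mul_assoc 2, mul_pow, ← mul_assoc 2]; ring
    _ ≤ 4 * D * (2 * D * B) ^ d * s * H ^ d := by gcongr
    _ ≤ 4 * D * (2 * D * B) ^ D * s * H ^ d := by gcongr
    _ = _ := by rw [mul_pow]; ring

lemma chc_dyadic (p : ℕ → Prop) [DecidablePred p] {Z T : ℕ} (hZ : 1 ≤ Z) {η : ℝ} (hη : 0 < η)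
    (h : ∀ Y : ℕ, Z ≤ Y → Y ≤ T → (((Icc Y (2 * Y)).filter p).card : ℝ) ≤ (Y : ℝ) ^ (1 - η)) :
    ∑ l ∈ (Ioc Z T).filter p, (l : ℝ)⁻¹ ≤ (Nat.log 2 T + 1 : ℕ) * ((Z : ℝ) ^ η)⁻¹ := by
  have hZ0 : (0 : ℝ) < Z := by exact_mod_cast hZ
  rw [← sum_fiberwise_of_maps_to (t := range (Nat.log 2 T + 1)) (g := fun l => Nat.log 2 (l / Z))]
  · refine (sum_le_card_nsmul _ _ _ fun j _ => ?_).trans (by rw [card_range, nsmul_eq_mul])
    set U := ((Ioc Z T).filter p).filter fun l => Nat.log 2 (l / Z) = j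
    have hU : ∀ l ∈ U, Z * 2 ^ j ≤ l ∧ l ≤ 2 * (Z * 2 ^ j) ∧ l ≤ T ∧ p l := by
      intro l hl
      obtain ⟨h1, rfl⟩ := mem_filter.mp hl
      obtain ⟨h2, h3⟩ := mem_filter.mp h1
      obtain ⟨h4, h5⟩ := mem_Ioc.mp h2
      have h6 := Nat.pow_log_le_self 2 (Nat.div_pos h4.le hZ).ne'
      have h7 := Nat.lt_pow_succ_log_self (by norm_num : 1 < 2) (l / Z)
      rw [Nat.le_div_iff_mul_le hZ] at h6
      rw [Nat.div_lt_iff_lt_mul hZ, pow_succ] at h7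
      exact ⟨by linarith, by linarith, h5, h3⟩
    rcases U.eq_empty_or_nonempty with h0 | ⟨l0, h0⟩
    · rw [h0, sum_empty]; positivity
    have hY : Z ≤ Z * 2 ^ j := Nat.le_mul_of_pos_right _ (by positivity)
    have h1 := h _ hY ((hU l0 h0).1.trans (hU l0 h0).2.2.1)
    set Y := Z * 2 ^ j
    have hY' : (Z : ℝ) ≤ Y := by exact_mod_cast hY
    have hY0 : (0 : ℝ) < Y := hZ0.trans_le hY'
    have h2 : (U.card : ℝ) ≤ ((Icc Y (2 * Y)).filter p).card := by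
      exact_mod_cast card_le_card fun l hl => mem_filter.mpr
        ⟨mem_Icc.mpr ⟨(hU l hl).1, (hU l hl).2.1⟩, (hU l hl).2.2.2⟩
    calc _ ≤ U.card • (Y : ℝ)⁻¹ := sum_le_card_nsmul _ _ _ fun l hl =>
          inv_anti₀ hY0 (by exact_mod_cast (hU l hl).1)
      _ ≤ (Y : ℝ) ^ (1 - η) * (Y : ℝ)⁻¹ := by
          rw [nsmul_eq_mul]; exact mul_le_mul_of_nonneg_right (h2.trans h1) (by positivity)
      _ = ((Y : ℝ) ^ η)⁻¹ := by rw [Real.rpow_sub hY0, Real.rpow_one]; field_simp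
      _ ≤ _ := inv_anti₀ (by positivity) (Real.rpow_le_rpow hZ0.le hY' hη.le)
  · intro l hl
    exact mem_range.mpr (Nat.lt_succ_of_le (Nat.log_mono_right
      ((Nat.div_le_self _ _).trans (mem_Ioc.mp (mem_filter.mp hl).1).2)))

open Classical in
theorem cheb (D : ℕ) {η : ℝ} (hη : 0 < η) (hη1 : η ≤ 1) : ∃ Z0 : ℕ, ∀ Z : ℕ, Z0 ≤ Z →
    ∀ (E : Type) [Field E] [NumberField E] (ι : Type) [Fintype ι] (w : ι → 𝓞 E) (i0 : ι) (B : ℕ),
      LinearIndependent ℤ w → Fintype.card ι = finrank ℚ E → w i0 = 1 →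
      (∀ (σ : E →+* ℂ) i, ‖σ (w i : E)‖ ≤ B) → finrank ℚ E ≤ D → (B : ℝ) ^ D ≤ (Z : ℝ) ^ (η / 2) →
      ∃ Y : ℕ, Z ≤ Y ∧ Y ≤ Z ^ (10 * D ^ 3 + 2) ∧
        (Y : ℝ) ^ (1 - η) ≤ ((Icc Y (2 * Y)).filter fun l => l.Prime ∧ Spl E l).card := by
  set A := 10 * D ^ 3 + 2 with hA
  set c : ℝ := 4 * D * (2 * D) ^ D
  have hc : 0 ≤ c := by positivity
  obtain ⟨Z1, hZ1⟩ := eventually_atTop.mp (((tendsto_rpow_atTop (by linarith : 0 < η / 4)).comp
    tendsto_natCast_atTop_atTop).eventually_gt_atTop (c * (8 * A / η + 2)))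
  refine ⟨Z1 + (8 * D ^ 2) ^ D + A, fun Z hZ E _ _ ι _ w i0 B hw hι h0 hB hD hBZ => ?_⟩
  by_contra hn
  push Not at hn
  have hZ0 : 1 ≤ Z := by omega
  have hZ' : (1 : ℝ) ≤ Z := by exact_mod_cast hZ0
  have hu : c * (8 * A / η + 2) < (Z : ℝ) ^ (η / 4) := hZ1 Z (by omega)
  have e0 := Real.log_le_rpow_div (by linarith : (0 : ℝ) ≤ Z) (by linarith : 0 < η / 4)
  have hu1 : 1 ≤ (Z : ℝ) ^ (η / 4) := Real.one_le_rpow hZ' (by linarith)
  have e2 : (Z : ℝ) ^ (η / 2) = ((Z : ℝ) ^ (η / 4)) ^ 2 := by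
    rw [← Real.rpow_natCast, ← Real.rpow_mul (by linarith)]; congr 1; push_cast; ring
  have e4 : (Z : ℝ) ^ η = ((Z : ℝ) ^ (η / 4)) ^ 4 := by
    rw [← Real.rpow_natCast, ← Real.rpow_mul (by linarith)]; congr 1; push_cast; ring
  have e5 : (Z : ℝ) ^ η ≤ Z := by simpa using Real.rpow_le_rpow_of_exponent_le hZ' hη1
  have e6 : (Z : ℝ) ^ (η / 2) ≤ Z := by
    simpa using Real.rpow_le_rpow_of_exponent_le hZ' (by linarith : η / 2 ≤ 1)
  have h1 := chc_main hw hι h0 hB hD (Z := Z) (by omega) (by exact_mod_cast hBZ.trans e6)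
    (by omega)
  have h2 := chc_dyadic (fun l => l.Prime ∧ Spl E l) hZ0 hη fun Y h h' => (hn Y h h').le
  have h3 : ((Nat.log 2 (Z ^ A) : ℕ) : ℝ) ≤ 2 * A * Real.log Z := by
    have h4 : ((2 ^ Nat.log 2 (Z ^ A) : ℕ) : ℝ) ≤ (Z ^ A : ℕ) := by
      exact_mod_cast Nat.pow_log_le_self 2 (by positivity)
    have h5 := Real.log_le_log (by positivity) h4
    rw [Nat.cast_pow, Nat.cast_pow, Real.log_pow, Real.log_pow, Nat.cast_ofNat] at h5
    have := Real.log_two_gt_d9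
    nlinarith [Nat.cast_nonneg (α := ℝ) (Nat.log 2 (Z ^ A))]
  rw [e2] at hBZ
  rw [e4] at e5 h2
  set u := (Z : ℝ) ^ (η / 4)
  have h6 : ((Nat.log 2 (Z ^ A) + 1 : ℕ) : ℝ) ≤ (8 * A / η + 1) * u := by
    have : 2 * A * Real.log Z ≤ 8 * A / η * u :=
      (mul_le_mul_of_nonneg_left e0 (by positivity)).trans (le_of_eq (by field_simp; ring))
    push_cast
    linarith
  have h7 : (Z : ℝ)⁻¹ ≤ u * (u ^ 4)⁻¹ :=
    (inv_anti₀ (by positivity) e5).trans (le_mul_of_one_le_left (by positivity) hu1)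
  have h8 : (1 : ℝ) ≤ c * u ^ 2 * ((8 * A / η + 1) * u * (u ^ 4)⁻¹ + u * (u ^ 4)⁻¹) := by
    refine h1.trans ?_
    gcongr
    exact h2.trans (mul_le_mul_of_nonneg_right h6 (by positivity))
  have h9 : c * u ^ 2 * ((8 * A / η + 1) * u * (u ^ 4)⁻¹ + u * (u ^ 4)⁻¹)
      = c * (8 * A / η + 2) / u := by field_simp; ring
  rw [h9, le_div_iff₀ (by positivity)] at h8
  linarith

end M4.NT
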