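import Pool.Agent.Lib.MP_33b3f9_ag.M4.NTEuler

/-!
Primes of degree one have density one.
-/

set_option autoImplicit false

namespace M4.NT

open NumberField Module Filter Topology

variable (K : Type) [Field K] [NumberField K]

/-- The product of the members of `T` divides `span {l}` (distinct primes are coprime), whose norm is
`l ^ finrank`; each member has norm a positive power of `l`. Or `Ideal.sum_ramification_inertia`. -/
theorem card_over {l : ℕ} (hl : l.Prime) (T : Finset (Ideal (𝓞 K)))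
    (hT : ∀ P ∈ T, P.IsPrime ∧ (l : 𝓞 K) ∈ P) : T.card ≤ finrank ℚ K := by
  have h0 : (l : 𝓞 K) ≠ 0 := by exact_mod_cast hl.ne_zero
  have h1 : ∀ P ∈ T, P ∣ Ideal.span {(l : 𝓞 K)} := fun P hP =>
    Ideal.dvd_span_singleton.2 (hT P hP).2
  have h2 : ∏ P ∈ T, P ∣ Ideal.span {(l : 𝓞 K)} := Finset.prod_primes_dvd _
    (fun P hP => Ideal.prime_of_isPrime (fun h => h0 (by simpa [h] using (hT P hP).2)) (hT P hP).1) h1
  have h3 : Ideal.absNorm (Ideal.span {(l : 𝓞 K)}) = l ^ finrank ℚ K := by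
    rw [Ideal.absNorm_span_natCast, RingOfIntegers.rank]
  have h4 := map_dvd Ideal.absNorm h2
  rw [map_prod, h3] at h4
  have h5 : ∏ _P ∈ T, l ∣ ∏ P ∈ T, Ideal.absNorm P := by
    refine Finset.prod_dvd_prod_of_dvd _ _ fun P hP => ?_
    have h6 := map_dvd Ideal.absNorm (h1 P hP)
    rw [h3] at h6
    obtain ⟨k, -, hk⟩ := (Nat.dvd_prime_pow hl).1 h6
    rw [hk]
    refine dvd_pow_self l fun h => (hT P hP).1.ne_top ?_
    rw [← Ideal.absNorm_eq_one_iff, hk, h, pow_zero]
  rw [Finset.prod_const] at h5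
  exact (Nat.pow_dvd_pow_iff_le_right hl.one_lt).1 (h5.trans h4)

/-- An ideal of prime norm `p` is prime and contains `p` (`Ideal.absNorm_mem`). -/
theorem rk_le (p : ℕ) : 0 ≤ rk K p ∧ rk K p ≤ finrank ℚ K := by
  unfold rk
  split_ifs with hp
  · refine ⟨Nat.cast_nonneg _, Nat.cast_le.2 ?_⟩
    have h1 := Ideal.finite_setOfPred_absNorm_eq (S := 𝓞 K) p
    have h2 : Nat.card {I : Ideal (𝓞 K) // Ideal.absNorm I = p} = h1.toFinset.card :=
      Nat.card_eq_card_finite_toFinset h1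
    rw [h2]
    refine card_over K hp _ fun P hP => ?_
    have h3 : Ideal.absNorm P = p := h1.mem_toFinset.1 hP
    exact ⟨Ideal.isPrime_of_irreducible_absNorm (h3 ▸ hp), h3 ▸ Ideal.absNorm_mem P⟩
  · exact ⟨le_rfl, Nat.cast_nonneg _⟩

theorem dens_one {s : ℝ} (hs : 1 < s) :
    ∑' P : IsDedekindDomain.HeightOneSpectrum (𝓞 K),
      (if (Ideal.absNorm P.asIdeal).Prime then (Ideal.absNorm P.asIdeal : ℝ) ^ (-s) else 0) =
      ∑' n : ℕ, rk K n * (n : ℝ) ^ (-s) := by
  have h1 : Summable fun P : IsDedekindDomain.HeightOneSpectrum (𝓞 K) =>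
      if (Ideal.absNorm P.asIdeal).Prime then (Ideal.absNorm P.asIdeal : ℝ) ^ (-s) else 0 :=
    Summable.of_nonneg_of_le (fun P => by split_ifs <;> positivity)
      (fun P => by split_ifs <;> first | exact le_rfl | positivity) (pz_summable K hs)
  rw [← (h1.hasSum.tsum_fiberwise fun P => Ideal.absNorm P.asIdeal).tsum_eq]
  refine tsum_congr fun n => ?_
  have h2 : ∀ P : (fun P : IsDedekindDomain.HeightOneSpectrum (𝓞 K) =>
      Ideal.absNorm P.asIdeal) ⁻¹' {n},
      (if (Ideal.absNorm P.1.asIdeal).Prime then (Ideal.absNorm P.1.asIdeal : ℝ) ^ (-s) else 0) =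
        if n.Prime then (n : ℝ) ^ (-s) else 0 := fun P => by
    have h3 : Ideal.absNorm P.1.asIdeal = n := P.2
    rw [h3]
  rw [tsum_congr h2, tsum_const, rk]
  split_ifs with hn
  · rw [nsmul_eq_mul]
    congr 2
    refine Nat.card_congr ⟨fun P => ⟨P.1.asIdeal, P.2⟩, fun I => ⟨⟨I.1,
      Ideal.isPrime_of_irreducible_absNorm (I.2.symm ▸ hn), fun h => hn.ne_zero ?_⟩, I.2⟩,
      fun P => rfl, fun I => rfl⟩
    rw [← I.2, h, Ideal.absNorm_bot]
  · simp

theorem dens_two : ∃ C : ℝ, ∀ s : ℝ, 1 < s → ∀ T : Finset (IsDedekindDomain.HeightOneSpectrum (𝓞 K)),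
    ∑ P ∈ T, (if (Ideal.absNorm P.asIdeal).Prime then 0 else (Ideal.absNorm P.asIdeal : ℝ) ^ (-s))
      ≤ C := by
  classical
  have h0 : Summable fun m : ℕ => (finrank ℚ K : ℝ) * (1 / (m : ℝ) ^ 2) :=
    (Real.summable_one_div_nat_pow.2 one_lt_two).mul_left _
  have h1 := fun P : IsDedekindDomain.HeightOneSpectrum (𝓞 K) =>
    @Ideal.exists_prime_and_absNorm_eq_pow (𝓞 K) _ _ _ _ P.asIdeal P.isMaximal
  choose l f hf hl hp hN using h1
  refine ⟨∑' m : ℕ, (finrank ℚ K : ℝ) * (1 / (m : ℝ) ^ 2), fun s hs T => ?_⟩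
  have h2 : ∀ P ∈ T, (if (Ideal.absNorm P.asIdeal).Prime then 0 else
      (Ideal.absNorm P.asIdeal : ℝ) ^ (-s)) ≤ 1 / (l P : ℝ) ^ 2 := by
    intro P _
    split_ifs with h
    · positivity
    · have h3 : 2 ≤ f P := by
        by_contra h4
        have h5 : f P = 1 := by have := hf P; omega
        exact h (by rw [hN, h5, pow_one]; exact hp P)
      have h4 : (1 : ℝ) ≤ l P := by exact_mod_cast (hp P).one_le
      have h5 : (l P : ℝ) ^ 2 ≤ (Ideal.absNorm P.asIdeal : ℝ) := by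
        rw [hN, Nat.cast_pow]
        exact pow_le_pow_right₀ h4 h3
      have h6 : (1 : ℝ) ≤ (l P : ℝ) ^ 2 := one_le_pow₀ h4
      refine (Real.rpow_le_rpow_of_exponent_le (h6.trans h5) (neg_le_neg hs.le)).trans ?_
      rw [Real.rpow_neg_one, one_div]
      exact inv_anti₀ (by positivity) h5
  refine (Finset.sum_le_sum h2).trans ?_
  rw [Finset.sum_comp (fun m : ℕ => 1 / (m : ℝ) ^ 2) l]
  refine le_trans (Finset.sum_le_sum fun m hm => ?_) (h0.sum_le_tsum _ fun m _ => by positivity)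
  obtain ⟨Q, -, rfl⟩ := Finset.mem_image.1 hm
  rw [nsmul_eq_mul]
  refine mul_le_mul_of_nonneg_right (Nat.cast_le.2 ?_) (by positivity)
  rw [← Finset.card_image_of_injective _ (IsDedekindDomain.HeightOneSpectrum.asIdeal_injective)]
  refine card_over K (hp Q) _ fun I hI => ?_
  obtain ⟨P, hP, rfl⟩ := Finset.mem_image.1 hI
  exact ⟨P.isPrime, (Finset.mem_filter.1 hP).2 ▸ hl P⟩

/-- A non-zero prime `P` contains exactly one rational prime `l` and has norm `l ^ f`, `1 ≤ f`. The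
primes with `f = 1` give the first sum. Those with `2 ≤ f` have `N P ^ (-s) ≤ 1 / l ^ 2` and there
are at most `finrank` of them over each `l`. -/
theorem pz_sub : ∃ C : ℝ, ∀ s : ℝ, 1 < s → |pz K s - ∑' n : ℕ, rk K n * (n : ℝ) ^ (-s)| ≤ C := by
  obtain ⟨C, hC⟩ := dens_two K
  refine ⟨C, fun s hs => ?_⟩
  have h1 : Summable fun P : IsDedekindDomain.HeightOneSpectrum (𝓞 K) =>
      if (Ideal.absNorm P.asIdeal).Prime then (Ideal.absNorm P.asIdeal : ℝ) ^ (-s) else 0 :=
    Summable.of_nonneg_of_le (fun P => by split_ifs <;> positivity)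
      (fun P => by split_ifs <;> first | exact le_rfl | positivity) (pz_summable K hs)
  have h2 : Summable fun P : IsDedekindDomain.HeightOneSpectrum (𝓞 K) =>
      if (Ideal.absNorm P.asIdeal).Prime then 0 else (Ideal.absNorm P.asIdeal : ℝ) ^ (-s) :=
    Summable.of_nonneg_of_le (fun P => by split_ifs <;> positivity)
      (fun P => by split_ifs <;> first | exact le_rfl | positivity) (pz_summable K hs)
  have h3 : pz K s = _ := (tsum_congr fun P => by split_ifs <;> simp).trans (h1.tsum_add h2)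
  rw [h3, dens_one K hs, add_sub_cancel_left,
    abs_of_nonneg (tsum_nonneg fun P => by split_ifs <;> positivity)]
  exact h2.tsum_le_of_sum_le (hC s hs)

/-- `|pz K s - log (zt K s)| ≤ 2 * zt K 2`, `log (zt K s) = log ((s - 1) * zt K s) + log (1 / (s - 1))`,
the first term converges and `log (1 / (s - 1))` tends to infinity. -/
theorem dens_rk : Dens (rk K) 1 := by
  refine ⟨⟨finrank ℚ K, fun n => by rw [abs_of_nonneg (rk_le K n).1]; exact (rk_le K n).2⟩, ?_⟩
  obtain ⟨C, hC⟩ := pz_sub K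
  obtain ⟨ρ, hρ, h1⟩ := zt_tendsto K
  have h2 : Tendsto (fun s : ℝ => Real.log (1 / (s - 1))) (𝓝[>] 1) atTop := by
    refine Real.tendsto_log_atTop.comp ?_
    simp only [one_div]
    refine tendsto_inv_nhdsGT_zero.comp (tendsto_nhdsWithin_iff.2 ⟨?_, ?_⟩)
    · have h3 : Tendsto (fun s : ℝ => s - 1) (𝓝 1) (𝓝 (1 - 1)) := tendsto_id.sub_const 1
      rw [sub_self] at h3
      exact h3.mono_left nhdsWithin_le_nhds
    · filter_upwards [self_mem_nhdsWithin] with s hs
      exact Set.mem_Ioi.2 (sub_pos.2 (Set.mem_Ioi.1 hs))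
  have h3 : 0 ≤ zt K 2 := tsum_nonneg fun I => by positivity
  have h4 := (h1.log hρ.ne').abs.eventually (gt_mem_nhds (lt_add_one |Real.log ρ|))
  have h5 : Tendsto (fun s : ℝ => ((∑' n : ℕ, rk K n * (n : ℝ) ^ (-s)) - Real.log (1 / (s - 1))) /
      Real.log (1 / (s - 1))) (𝓝[>] 1) (𝓝 0) := by
    refine squeeze_zero_norm' ?_
      ((tendsto_const_nhds (x := C + 2 * zt K 2 + (|Real.log ρ| + 1))).div_atTop h2)
    filter_upwards [self_mem_nhdsWithin, h4, h2.eventually_gt_atTop 0] with s hs k1 k2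
    have k3 : (0 : ℝ) < s - 1 := sub_pos.2 hs
    have k4 := euler_ge K hs
    have k5 : 0 < zt K s := (Real.exp_pos _).trans_le k4
    have k6 := (Real.log_le_iff_le_exp k5).2 (euler_le K hs)
    have k7 := (Real.le_log_iff_exp_le k5).2 k4
    rw [Real.log_mul k3.ne' k5.ne', abs_lt] at k1
    have k8 := abs_le.1 (hC s hs)
    rw [Real.norm_eq_abs, abs_div, abs_of_pos k2]
    refine div_le_div_of_nonneg_right (abs_le.2 ⟨?_, ?_⟩) k2.le <;>
      rw [one_div, Real.log_inv] <;> linarith [k1.1, k1.2, k8.1, k8.2]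
  have h6 := h5.add_const 1
  rw [zero_add] at h6
  refine h6.congr' ?_
  filter_upwards [h2.eventually_gt_atTop 0] with s k2
  field_simp
  ring

end M4.NT
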