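import Pool.Agent.Lib.MP_33b3f9_ag.M4.NTDefs

/-!
Calculus of Dirichlet densities.
-/

set_option autoImplicit false

namespace M4.NT

open NumberField Module Filter Topology

theorem densA_summable {f : ℕ → ℝ} {B : ℝ} (hB : ∀ n, |f n| ≤ B) {s : ℝ} (hs : 1 < s) :
    Summable fun n : ℕ => f n * (n : ℝ) ^ (-s) := by
  refine Summable.of_norm_bounded
    ((Real.summable_nat_rpow.2 (by linarith : -s < -1)).mul_left B) fun n => ?_
  rw [Real.norm_eq_abs, abs_mul, abs_of_nonneg (Real.rpow_nonneg (Nat.cast_nonneg n) _)]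
  exact mul_le_mul_of_nonneg_right (hB n) (Real.rpow_nonneg (Nat.cast_nonneg n) _)

theorem densA_log : Tendsto (fun s : ℝ => Real.log (1 / (s - 1))) (𝓝[>] 1) atTop := by
  refine Real.tendsto_log_atTop.comp ?_
  simp only [one_div]
  refine tendsto_inv_nhdsGT_zero.comp ?_
  refine tendsto_nhdsWithin_iff.2 ⟨?_, ?_⟩
  · have : Tendsto (fun s : ℝ => s - 1) (𝓝 1) (𝓝 (1 - 1)) := tendsto_id.sub_const 1
    rw [sub_self] at this
    exact this.mono_left nhdsWithin_le_nhds
  · filter_upwards [self_mem_nhdsWithin] with s hs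
    exact sub_pos.2 (show (1 : ℝ) < s from hs)

theorem densA_rpow_le {s : ℝ} (hs : 1 < s) (n : ℕ) : (n : ℝ) ^ (-s) ≤ 1 / n := by
  rcases Nat.eq_zero_or_pos n with rfl | hn
  · rw [Nat.cast_zero, Real.zero_rpow (by linarith), div_zero]
  · rw [one_div, ← Real.rpow_neg_one]
    exact Real.rpow_le_rpow_of_exponent_le (by exact_mod_cast hn) (by linarith)

theorem Dens.add {f g : ℕ → ℝ} {a b : ℝ} (hf : Dens f a) (hg : Dens g b) :
    Dens (fun n => f n + g n) (a + b) := by
  obtain ⟨⟨B, hB⟩, hf⟩ := hf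
  obtain ⟨⟨C, hC⟩, hg⟩ := hg
  refine ⟨⟨B + C, fun n => (abs_add_le _ _).trans (add_le_add (hB n) (hC n))⟩,
    (hf.add hg).congr' ?_⟩
  filter_upwards [self_mem_nhdsWithin] with s hs
  rw [← add_div, ← (densA_summable hB hs).tsum_add (densA_summable hC hs)]
  simp only [add_mul]

theorem Dens.const_mul {f : ℕ → ℝ} {a : ℝ} (c : ℝ) (hf : Dens f a) :
    Dens (fun n => c * f n) (c * a) := by
  obtain ⟨⟨B, hB⟩, hf⟩ := hf
  refine ⟨⟨|c| * B, fun n => ?_⟩, (hf.const_mul c).congr fun s => ?_⟩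
  · rw [abs_mul]; exact mul_le_mul_of_nonneg_left (hB n) (abs_nonneg c)
  · simp only [mul_assoc, tsum_mul_left, mul_div_assoc]

theorem dens_zero {f : ℕ → ℝ} {B : ℝ} (hB : ∀ n, |f n| ≤ B)
    (h : Summable fun n : ℕ => |f n| * (1 / n)) : Dens f 0 := by
  refine ⟨⟨B, hB⟩, ?_⟩
  have h0 : Tendsto (fun s : ℝ => (∑' n : ℕ, |f n| * (1 / n)) / Real.log (1 / (s - 1)))
      (𝓝[>] 1) (𝓝 0) := tendsto_const_nhds.div_atTop densA_log
  refine squeeze_zero_norm' ?_ h0
  filter_upwards [self_mem_nhdsWithin, densA_log.eventually_gt_atTop 0] with s hs hl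
  rw [Real.norm_eq_abs, abs_div, abs_of_pos hl]
  refine div_le_div_of_nonneg_right ?_ hl.le
  rw [← Real.norm_eq_abs]
  refine tsum_of_norm_bounded h.hasSum fun n => ?_
  rw [Real.norm_eq_abs, abs_mul, abs_of_nonneg (Real.rpow_nonneg (Nat.cast_nonneg n) _)]
  exact mul_le_mul_of_nonneg_left (densA_rpow_le hs n) (abs_nonneg _)

theorem Dens.congr {f g : ℕ → ℝ} {a : ℝ} (hf : Dens f a) (n0 : ℕ) (h : ∀ n, n0 ≤ n → f n = g n) :
    Dens g a := by
  have h1 : Dens (fun n => g n - f n) 0 := by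
    refine dens_zero (B := ∑ n ∈ Finset.range n0, |g n - f n|) (fun n => ?_) ?_
    · rcases lt_or_ge n n0 with hn | hn
      · exact Finset.single_le_sum (f := fun n => |g n - f n|) (fun _ _ => abs_nonneg _)
          (Finset.mem_range.2 hn)
      · rw [h n hn, sub_self, abs_zero]
        exact Finset.sum_nonneg fun _ _ => abs_nonneg _
    · refine summable_of_ne_finset_zero (s := Finset.range n0) fun n hn => ?_
      rw [h n (by simpa using hn), sub_self, abs_zero, zero_mul]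
  have h2 := hf.add h1
  simpa using h2

theorem Dens.sum {ι : Type} (T : Finset ι) {f : ι → ℕ → ℝ} {a : ι → ℝ}
    (h : ∀ i ∈ T, Dens (f i) (a i)) : Dens (fun n => ∑ i ∈ T, f i n) (∑ i ∈ T, a i) := by
  classical
  induction T using Finset.induction_on with
  | empty => simpa using dens_zero (f := fun _ => 0) (B := 0) (by simp) (by simp)
  | insert i T hi ih =>
    simp only [Finset.sum_insert hi]
    exact (h i (Finset.mem_insert_self _ _)).add
      (ih fun j hj => h j (Finset.mem_insert_of_mem hj))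

theorem Dens.dvg {f : ℕ → ℝ} {a : ℝ} (hf : Dens f a) (ha : 0 < a) {G : Set ℕ}
    (h : ∀ n, n ∉ G → f n ≤ 0) : Dvg G := by
  obtain ⟨⟨B, hB⟩, hf⟩ := hf
  intro hG
  have h0 : Tendsto (fun s : ℝ => (∑' n : ℕ, B * G.indicator (fun p => (1 : ℝ) / p) n) /
      Real.log (1 / (s - 1))) (𝓝[>] 1) (𝓝 0) := tendsto_const_nhds.div_atTop densA_log
  refine absurd (le_of_tendsto_of_tendsto hf h0 ?_) ha.not_ge
  filter_upwards [self_mem_nhdsWithin, densA_log.eventually_gt_atTop 0] with s hs hl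
  refine div_le_div_of_nonneg_right ?_ hl.le
  refine (densA_summable hB hs).tsum_le_tsum (fun n => ?_) (hG.mul_left B)
  by_cases hn : n ∈ G
  · rw [Set.indicator_of_mem hn]
    exact mul_le_mul ((le_abs_self _).trans (hB n)) (densA_rpow_le hs n)
      (Real.rpow_nonneg (Nat.cast_nonneg n) _) ((abs_nonneg _).trans (hB n))
  · rw [Set.indicator_of_notMem hn, mul_zero]
    exact mul_nonpos_of_nonpos_of_nonneg (h n hn) (Real.rpow_nonneg (Nat.cast_nonneg n) _)

end M4.NT
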