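import Pool.Agent.Lib.MP_33b3f9_ag.M4.NTZeta

/-!
Both inequalities of the Euler product.
-/

set_option autoImplicit false

namespace M4.NT

open NumberField Module Filter Topology

variable (K : Type) [Field K] [NumberField K]

/-- `zt_summable` and `Summable.comp_injective`. -/
theorem pz_summable {s : ℝ} (hs : 1 < s) :
    Summable fun P : IsDedekindDomain.HeightOneSpectrum (𝓞 K) =>
      (Ideal.absNorm P.asIdeal : ℝ) ^ (-s) := by
  exact (zt_summable K hs).comp_injective IsDedekindDomain.HeightOneSpectrum.asIdeal_injective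

theorem euler_nonneg (I : Ideal (𝓞 K)) (s : ℝ) : 0 ≤ (Ideal.absNorm I : ℝ) ^ s :=
  Real.rpow_nonneg (Nat.cast_nonneg _) _

theorem euler_prod {ι : Type} (S : Finset ι) (f : ι → Ideal (𝓞 K)) (s : ℝ) :
    (Ideal.absNorm (∏ i ∈ S, f i) : ℝ) ^ s = ∏ i ∈ S, (Ideal.absNorm (f i) : ℝ) ^ s := by
  rw [map_prod, Nat.cast_prod, Real.finsetProd_rpow _ _ fun _ _ => Nat.cast_nonneg _]

theorem euler_sum_le {ι : Type} (S : Finset ι) (f : ι → Ideal (𝓞 K)) (hf : Set.InjOn f S) {s : ℝ}
    (hs : 1 < s) : ∑ i ∈ S, (Ideal.absNorm (f i) : ℝ) ^ (-s) ≤ zt K s := by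
  classical
  rw [← Finset.sum_image (f := fun I : Ideal (𝓞 K) => (Ideal.absNorm I : ℝ) ^ (-s)) hf]
  exact (zt_summable K hs).sum_le_tsum _ fun I _ => euler_nonneg K I _

theorem euler_half (P : IsDedekindDomain.HeightOneSpectrum (𝓞 K)) {s : ℝ} (hs : 1 < s) :
    (Ideal.absNorm P.asIdeal : ℝ) ^ (-s) ≤ 1 / 2 := by
  have h : (2 : ℝ) ≤ Ideal.absNorm P.asIdeal := by
    exact_mod_cast NumberField.HeightOneSpectrum.one_lt_absNorm P
  refine (Real.rpow_le_rpow_of_exponent_le (by linarith) (neg_le_neg hs.le)).trans ?_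
  rw [Real.rpow_neg_one, one_div]
  exact inv_anti₀ two_pos h

theorem euler_sq (S : Finset (IsDedekindDomain.HeightOneSpectrum (𝓞 K))) {s : ℝ} (hs : 1 < s) :
    ∑ P ∈ S, ((Ideal.absNorm P.asIdeal : ℝ) ^ (-s)) ^ 2 ≤ zt K 2 := by
  refine le_trans (Finset.sum_le_sum fun P _ => ?_) (euler_sum_le K S _
    IsDedekindDomain.HeightOneSpectrum.asIdeal_injective.injOn one_lt_two)
  rw [← Real.rpow_mul_natCast (Nat.cast_nonneg _)]
  refine Real.rpow_le_rpow_of_exponent_le ?_ (by push_cast; linarith)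
  exact_mod_cast (NumberField.HeightOneSpectrum.one_lt_absNorm P).le

/-- `Summable.tsum_le_of_sum_le`. A finite set `T` of non-zero ideals: let `S` be the finite set of
primes dividing some member, `k` a bound for the exponents. `I` is the product of `P ^ e P` over `S`,
so `I ↦ e` injects `T` into `S → Fin (k + 1)` and the sum over `T` is at most
`∏ P ∈ S, ∑ j ≤ k, x P ^ j` (`Finset.prod_univ_sum`), `x P = N P ^ (-s) ≤ 1 / 2`. Then
`∑ j ≤ k, x ^ j ≤ 1 / (1 - x) ≤ 1 + x + 2 * x ^ 2 ≤ exp (x + 2 * x ^ 2)` and `x P ^ 2 ≤ N P ^ (-2)`. -/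
theorem euler_le {s : ℝ} (hs : 1 < s) : zt K s ≤ Real.exp (pz K s + 2 * zt K 2) := by
  classical
  refine (zt_summable K hs).tsum_le_of_sum_le fun T => ?_
  rw [← Finset.sum_erase T (a := 0) (by simp [(neg_neg_of_pos (one_pos.trans hs)).ne])]
  have h0 : ∀ I ∈ T.erase 0, I ≠ 0 := fun I hI => (Finset.mem_erase.1 hI).1
  generalize T.erase 0 = U at h0
  obtain ⟨S, hS⟩ := (U.finite_toSet.biUnion fun I hI =>
    Ideal.hasFiniteMulSupport (h0 I hI)).exists_finset_coe
  let c : Ideal (𝓞 K) → S → ℕ := fun I v =>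
    (Associates.mk v.1.asIdeal).count (Associates.mk I).factors
  have h1 : ∀ I ∈ U, ∏ v : S, v.1.asIdeal ^ c I v = I := fun I hI => by
    refine Eq.trans ?_ (Ideal.finprod_heightOneSpectrum_factorization (h0 I hI))
    rw [finprod_eq_prod_of_mulSupport_subset _ (s := S)
      (hS ▸ Set.subset_biUnion_of_mem (u := fun I => Function.mulSupport
        fun v : IsDedekindDomain.HeightOneSpectrum (𝓞 K) => v.maxPowDividing I) hI)]
    exact Finset.prod_coe_sort S fun v => v.maxPowDividing I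
  set x : IsDedekindDomain.HeightOneSpectrum (𝓞 K) → ℝ :=
    fun P => (Ideal.absNorm P.asIdeal : ℝ) ^ (-s) with hx
  have hx0 : ∀ P, 0 ≤ x P := fun P => euler_nonneg K _ _
  calc ∑ I ∈ U, (Ideal.absNorm I : ℝ) ^ (-s) = ∑ I ∈ U, ∏ v : S, x v ^ c I v := by
        refine Finset.sum_congr rfl fun I hI => ?_
        conv_lhs => rw [← h1 I hI, euler_prod]
        refine Finset.prod_congr rfl fun v _ => ?_
        rw [map_pow, Nat.cast_pow, Real.rpow_pow_comm (Nat.cast_nonneg _)]
    _ = ∑ e ∈ U.image c, ∏ v : S, x v ^ e v :=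
        (Finset.sum_image (f := fun e : S → ℕ => ∏ v : S, x v ^ e v) fun I hI J hJ e => by
          rw [← h1 I hI, e, h1 J hJ]).symm
    _ ≤ ∑ e ∈ Fintype.piFinset fun v => U.image fun I => c I v, ∏ v : S, x v ^ e v := by
        refine Finset.sum_le_sum_of_subset_of_nonneg (fun e he => ?_) fun e _ _ =>
          Finset.prod_nonneg fun v _ => pow_nonneg (hx0 v) _
        obtain ⟨I, hI, rfl⟩ := Finset.mem_image.1 he
        exact Fintype.mem_piFinset.2 fun v => Finset.mem_image_of_mem _ hI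
    _ = ∏ v : S, ∑ j ∈ U.image fun I => c I v, x v ^ j :=
        (Finset.prod_univ_sum _ fun (v : S) j => x v ^ j).symm
    _ ≤ ∏ v : S, Real.exp (x v + 2 * x v ^ 2) := by
        refine Finset.prod_le_prod (fun v _ => Finset.sum_nonneg fun j _ => pow_nonneg (hx0 v) _)
          fun v _ => ?_
        have h2 : x v ≤ 1 / 2 := euler_half K v hs
        have h3 := hx0 v
        refine (sum_le_hasSum _ (fun j _ => pow_nonneg h3 j)
          (hasSum_geometric_of_lt_one h3 (by linarith))).trans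
          (le_trans ?_ (Real.add_one_le_exp _))
        rw [inv_le_iff_one_le_mul₀ (by linarith)]
        nlinarith [mul_nonneg (sq_nonneg (x v)) (sub_nonneg.2 h2)]
    _ ≤ _ := by
        rw [← Real.exp_sum, Real.exp_le_exp, Finset.sum_coe_sort S fun v => x v + 2 * x v ^ 2,
          Finset.sum_add_distrib, ← Finset.mul_sum]
        exact add_le_add ((pz_summable K hs).sum_le_tsum S fun P _ => hx0 P)
          (mul_le_mul_of_nonneg_left (euler_sq K S hs) zero_le_two)

/-- For a finite set `S` of primes `∏ P ∈ S, (1 + x P) = ∑ U ∈ S.powerset, ∏ P ∈ U, x P`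
(`Finset.prod_one_add`), `U ↦ ∏ P ∈ U, P.asIdeal` is injective (a prime divides the product iff it
is in `U`), so the product is at most `zt K s`; `exp (x - x ^ 2) ≤ 1 + x` for `0 ≤ x`. Hence
`∑ P ∈ S, x P ≤ log (zt K s) + zt K 2` for all `S`. -/
theorem euler_ge {s : ℝ} (hs : 1 < s) : Real.exp (pz K s - zt K 2) ≤ zt K s := by
  have key : ∀ S : Finset (IsDedekindDomain.HeightOneSpectrum (𝓞 K)),
      Real.exp (∑ P ∈ S, (Ideal.absNorm P.asIdeal : ℝ) ^ (-s) - zt K 2) ≤ zt K s := fun S => by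
    have h1 : ∀ (U : Finset (IsDedekindDomain.HeightOneSpectrum (𝓞 K)))
        (v : IsDedekindDomain.HeightOneSpectrum (𝓞 K)),
        v.asIdeal ∣ ∏ P ∈ U, P.asIdeal ↔ v ∈ U := fun U v => by
      refine ⟨fun h => ?_, Finset.dvd_prod_of_mem _⟩
      obtain ⟨w, hw, h2⟩ := v.prime.exists_mem_finset_dvd h
      rwa [← IsDedekindDomain.HeightOneSpectrum.ext
        (w.isMaximal.eq_of_le v.isPrime.ne_top (Ideal.le_of_dvd h2))]
    refine le_trans ?_ (euler_sum_le K S.powerset (fun U => ∏ P ∈ U, P.asIdeal)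
      (fun U _ U' _ e => Finset.ext fun v => (h1 U v).symm.trans
        ((congrArg (v.asIdeal ∣ ·) e).to_iff.trans (h1 U' v))) hs)
    simp only [euler_prod]
    rw [← Finset.prod_one_add]
    refine (Real.exp_le_exp.2 (sub_le_sub_left (euler_sq K S hs) _)).trans ?_
    rw [← Finset.sum_sub_distrib, Real.exp_sum]
    refine Finset.prod_le_prod (fun P _ => (Real.exp_pos _).le) fun P _ => ?_
    have h2 := euler_nonneg K P.asIdeal (-s)
    generalize (Ideal.absNorm P.asIdeal : ℝ) ^ (-s) = x at h2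
    rw [← Real.le_log_iff_exp_le (by linarith)]
    refine le_trans ?_ (Real.one_sub_inv_le_log_of_pos (by linarith))
    rw [le_sub_comm, inv_le_iff_one_le_mul₀ (by linarith)]
    nlinarith [pow_nonneg h2 3]
  have h0 : 0 < zt K s := (Real.exp_pos _).trans_le (key ∅)
  rw [← Real.le_log_iff_exp_le h0, sub_le_iff_le_add]
  exact (pz_summable K hs).tsum_le_of_sum_le fun S =>
    sub_le_iff_le_add.1 ((Real.le_log_iff_exp_le h0).2 (key S))

end M4.NT
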