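import Pool.Agent.Lib.MP_33b3f9_ag.M4.NTDens
import Pool.Agent.Lib.MP_33b3f9_ag.M4.NTDensA
import Pool.Agent.Lib.MP_33b3f9_ag.M4.NTEmb

/-!
The Frobenius division theorem.
-/

set_option autoImplicit false

namespace M4.NT

open NumberField Module Filter Topology

theorem frob_fib (M L Ω : Type) [Field M] [Field L] [Field Ω] [IsAlgClosed Ω] [CharZero M]
    [Algebra M L] [FiniteDimensional M L] (e : M →+* Ω) :
    Nat.card {ε : L →+* Ω // ε.comp (algebraMap M L) = e} = finrank M L := by
  let _ := e.toAlgebra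
  rw [← AlgHom.card M L Ω, ← Nat.card_eq_fintype_card]
  exact Nat.card_congr ⟨fun ε => ⟨ε.1, fun x => RingHom.congr_fun ε.2 x⟩,
    fun φ => ⟨φ.toRingHom, RingHom.ext fun x => φ.commutes x⟩, fun _ => rfl, fun _ => rfl⟩

theorem frob_cnt (M L k Ω : Type) [Field M] [NumberField M] [Field L] [NumberField L] [Field k]
    [CharZero k] [Field Ω] [CharZero Ω] [IsAlgClosed Ω] [Algebra M L] [Algebra k Ω]
    [FiniteDimensional M L] :
    Nat.card {ε : L →+* Ω // ∀ x : M, ε (algebraMap M L x) ∈ Set.range (algebraMap k Ω)} =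
      finrank M L * Nat.card (M →+* k) := by
  have hj := (algebraMap k Ω).injective
  let f : (Σ e : M →+* k, {ε : L →+* Ω // ε.comp (algebraMap M L) = (algebraMap k Ω).comp e}) →
      {ε : L →+* Ω // ∀ x : M, ε (algebraMap M L x) ∈ Set.range (algebraMap k Ω)} :=
    fun z => ⟨z.2.1, fun x => ⟨z.1 x, (RingHom.congr_fun z.2.2 x).symm⟩⟩
  have hf : Function.Bijective f := by
    constructor
    · rintro ⟨e, ε, h⟩ ⟨e', ε', h'⟩ hh
      obtain rfl : ε = ε' := congrArg Subtype.val hh
      obtain rfl : e = e' := RingHom.ext fun x => hj (RingHom.congr_fun (h.symm.trans h') x)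
      rfl
    · rintro ⟨ε, h⟩
      choose u hu using id h
      refine ⟨⟨⟨⟨⟨u, hj (by simp [hu])⟩, fun x y => hj (by simp [hu])⟩, hj (by simp [hu]),
        fun x y => hj (by simp [hu])⟩, ε, RingHom.ext fun x => (hu x).symm⟩, rfl⟩
  rw [← Nat.card_congr (Equiv.ofBijective f hf), Nat.card_sigma]
  simp only [frob_fib, Finset.sum_const, Finset.card_univ, smul_eq_mul, Nat.card_eq_fintype_card,
    mul_comm]

section

variable {K L : Type} [Field K] [Field L] [NumberField L] [Algebra K L]

open IntermediateField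

open Classical in
theorem frob_part [FiniteDimensional K L] [IsGalois K L] (k Ω : Type) [Field k] [Field Ω]
    [CharZero Ω] [Algebra k Ω] (H : Subgroup (L ≃ₐ[K] L)) :
    Nat.card {ε : L →+* Ω // ∀ x ∈ fixedField H, ε x ∈ Set.range (algebraMap k Ω)} =
      ∑ H' ∈ Finset.univ.filter (· ≤ H),
        Nat.card {ε : L →+* Ω // ∀ x, ε x ∈ Set.range (algebraMap k Ω) ↔ x ∈ fixedField H'} := by
  have key : ∀ ε : L →+* Ω, (∀ x ∈ fixedField H, ε x ∈ Set.range (algebraMap k Ω)) →
      ∃ M : IntermediateField K L, ∀ x, x ∈ M ↔ ε x ∈ Set.range (algebraMap k Ω) := fun ε h =>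
    ⟨((algebraMap k Ω).fieldRange.comap ε).toIntermediateField
      fun x => h _ ((fixedField H).algebraMap_mem x), fun x => Iff.rfl⟩
  let d : (L →+* Ω) → Subgroup (L ≃ₐ[K] L) := fun ε =>
    _root_.fixingSubgroup (L ≃ₐ[K] L) {x | ε x ∈ Set.range (algebraMap k Ω)}
  have hd : ∀ (ε : L →+* Ω) (M : IntermediateField K L),
      (∀ x, x ∈ M ↔ ε x ∈ Set.range (algebraMap k Ω)) → d ε = M.fixingSubgroup := fun ε M h => by
    have : {x | ε x ∈ Set.range (algebraMap k Ω)} = (M : Set L) := Set.ext fun x => (h x).symm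
    simp only [d, this]
    rfl
  simp only [Nat.card_eq_fintype_card, Fintype.card_subtype]
  rw [Finset.card_eq_sum_card_fiberwise (f := d) (t := Finset.univ.filter (· ≤ H))]
  · refine Finset.sum_congr rfl fun H' hH' => congrArg _ (Finset.ext fun ε => ?_)
    simp only [Finset.mem_filter, Finset.mem_univ, true_and] at hH' ⊢
    constructor
    · rintro ⟨h, rfl⟩ x
      obtain ⟨M, hM⟩ := key ε h
      rw [hd ε M hM, IsGalois.fixedField_fixingSubgroup, hM]
    · intro h
      refine ⟨fun x hx => (h x).2 (fixedField_le hH' hx), ?_⟩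
      rw [hd ε _ fun x => (h x).symm, fixingSubgroup_fixedField]
  · intro ε hε
    simp only [Finset.coe_filter, Finset.mem_univ, true_and, Set.mem_ofPred_eq] at hε ⊢
    obtain ⟨M, hM⟩ := key ε hε
    rw [hd ε M hM, ← fixingSubgroup_fixedField H]
    exact fixingSubgroup_le fun x hx => (hM x).2 (hε x hx)

open Classical in
theorem frob_gen {Γ : Type} [Group Γ] [Fintype Γ] (H : Subgroup Γ) :
    Nat.card H = ∑ H' ∈ Finset.univ.filter (· ≤ H),
      (Finset.univ.filter fun g : Γ => Subgroup.zpowers g = H').card := by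
  rw [Nat.card_eq_fintype_card, Fintype.card_subtype,
    Finset.card_eq_sum_card_fiberwise (f := Subgroup.zpowers) (t := Finset.univ.filter (· ≤ H))]
  · refine Finset.sum_congr rfl fun H' hH' => congrArg _ (Finset.ext fun g => ?_)
    simp only [Finset.mem_filter, Finset.mem_univ, true_and] at hH' ⊢
    exact ⟨fun h => h.2, fun h => ⟨hH' (h ▸ Subgroup.mem_zpowers g), h⟩⟩
  · intro g hg
    simpa using hg

/-- The number of places with decomposition group `H`. -/
noncomputable def frobA (H : Subgroup (L ≃ₐ[K] L)) (p : ℕ) : ℝ :=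
  if h : p.Prime then
    haveI := Fact.mk h
    (Nat.card {ε : L →+* PadicAlgCl p // ∀ x, ε x ∈ Qp p ↔ x ∈ fixedField H} : ℝ)
  else 0

open Classical in
theorem frob_dens_sum [NumberField K] [IsGalois K L] (H : Subgroup (L ≃ₐ[K] L)) :
    Dens (fun p => ∑ H' ∈ Finset.univ.filter (· ≤ H), frobA H' p) (Nat.card H) := by
  obtain ⟨l0, hl0⟩ := card_emb (fixedField H)
  have h1 := (dens_rk (fixedField H)).const_mul (Nat.card H)
  rw [mul_one] at h1
  refine h1.congr l0 fun p hp => ?_
  by_cases h : p.Prime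
  · have := Fact.mk h
    simp only [rk, frobA, h, if_true, dif_pos, Qp]
    rw [← card_hom, ← hl0 p hp, ← finrank_fixedField_eq_card, ← Nat.cast_mul,
      ← frob_cnt (fixedField H) L ℚ_[p] (PadicAlgCl p), ← Nat.cast_sum,
      ← frob_part ℚ_[p] (PadicAlgCl p) H]
    congr 1
    exact Nat.card_congr (Equiv.subtypeEquivRight fun ε => Subtype.forall)
  · simp [rk, frobA, h]

open Classical in
theorem frob_dens [NumberField K] [IsGalois K L] (H : Subgroup (L ≃ₐ[K] L)) :
    Dens (frobA H) (Finset.univ.filter fun g : L ≃ₐ[K] L => Subgroup.zpowers g = H).card := by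
  induction H using WellFoundedLT.induction with
  | ind H ih =>
    have h1 := (Dens.sum (Finset.univ.filter (· < H)) fun H' hH' =>
      ih H' (Finset.mem_filter.1 hH').2).const_mul (-1)
    have h2 := (frob_dens_sum H).add h1
    have h3 : Finset.univ.filter (· ≤ H) = insert H (Finset.univ.filter (· < H)) := by
      ext H'
      simp [le_iff_eq_or_lt]
    have h4 : H ∉ Finset.univ.filter (· < H) := by simp
    rw [frob_gen, h3] at h2
    simpa [Finset.sum_insert h4] using h2

theorem frob_gal [NumberField K] [IsGalois K L] (g : L ≃ₐ[K] L) :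
    Dvg {p | ∃ _ : Fact p.Prime, ∃ e : L →+* PadicAlgCl p, ∀ x, e x ∈ Qp p ↔ g x = x} := by
  classical
  refine (frob_dens (Subgroup.zpowers g)).dvg ?_ fun p hp => ?_
  · exact_mod_cast Finset.card_pos.2 ⟨g, by simp⟩
  · unfold frobA
    split_ifs with h
    · have := Fact.mk h
      have h1 : ∀ x, x ∈ fixedField (Subgroup.zpowers g) ↔ g x = x := fun x => by
        rw [mem_fixedField_iff]
        exact ⟨fun hx => hx g (Subgroup.mem_zpowers g), fun hx σ hσ =>
          (Subgroup.zpowers_le.2 (show g ∈ MulAction.stabilizer (L ≃ₐ[K] L) x from hx) hσ :)⟩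
      rw [Nat.card_eq_zero.2 (Or.inl ⟨fun ε => hp ⟨this, ε.1, fun x => (ε.2 x).trans (h1 x)⟩⟩),
        Nat.cast_zero]
    · exact le_rfl

end

/-- For a divergent set of primes there is a place whose decomposition field is the field fixed by
`g`. -/
theorem frob (L : Type) [Field L] [NumberField L] (g : L ≃+* L) :
    Dvg {p | ∃ _ : Fact p.Prime, ∃ e : L →+* PadicAlgCl p, ∀ x, e x ∈ Qp p ↔ g x = x} := by
  let g' : L ≃ₐ[ℚ] L := { g with commutes' := fun q => by simp }
  exact frob_gal (K := FixedPoints.subfield (L ≃ₐ[ℚ] L) L)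
    { g with commutes' := fun x => x.2 g' }

end M4.NT
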