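import Pool.Agent.Lib.MP_33b3f9_ag.M4.NTChC

/-!
Primes of degree one in `L` for which `-δ` is a square.
-/

open Finset NumberField Module Filter

namespace M4.NT

lemma quad_base (L : Type) [Field L] [NumberField L] : ∃ (ι : Type) (_ : Fintype ι) (w : ι → 𝓞 L)
    (i0 : ι), LinearIndependent ℤ w ∧ Fintype.card ι = finrank ℚ L ∧ w i0 = 1 := by
  classical
  let b := RingOfIntegers.basis L
  obtain ⟨i0, h⟩ : ∃ i, b.repr 1 i ≠ 0 := by
    by_contra hn
    push Not at hn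
    exact one_ne_zero (b.repr.map_eq_zero_iff.mp (Finsupp.ext hn))
  refine ⟨_, inferInstance, Function.update b i0 1, i0, b.linearIndependent.update i0 1
    ⟨1, one_mem _, b.repr 1, mem_nonZeroDivisors_of_ne_zero h, by simp⟩, ?_, by simp⟩
  rw [← finrank_eq_card_basis b, RingOfIntegers.rank]

lemma quad_mk {L : Type} [Field L] (a x y : L) : algebraMap L (QuadraticAlgebra L a 0) x
    + algebraMap L (QuadraticAlgebra L a 0) y * QuadraticAlgebra.omega = ⟨x, y⟩ := by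
  ext <;> simp

lemma quad_sq {L : Type} [Field L] (n : ℕ) :
    (QuadraticAlgebra.omega : QuadraticAlgebra L (-(n : L)) 0) ^ 2 = -(n : QuadraticAlgebra L _ 0) := by
  rw [sq, QuadraticAlgebra.omega_mul_omega_eq_mk]
  ext <;> simp

lemma quad_data (L : Type) [Field L] [NumberField L] : ∃ C : ℕ, 1 ≤ C ∧ ∀ δ : ℕ, 1 ≤ δ →
    ∃ (E : Type) (_ : Field E) (_ : NumberField E) (ι : Type) (_ : Fintype ι) (w : ι → 𝓞 E) (i0 : ι)
      (_ : 𝓞 L →+* 𝓞 E) (ω : 𝓞 E), LinearIndependent ℤ w ∧ Fintype.card ι = finrank ℚ E ∧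
      w i0 = 1 ∧ (∀ (σ : E →+* ℂ) i, ‖σ (w i : E)‖ ≤ (C * δ : ℕ)) ∧
      finrank ℚ E ≤ 2 * finrank ℚ L ∧ -(δ : 𝓞 E) = ω * ω := by
  obtain ⟨ι, _, w, i0, hw, hι, h0⟩ := quad_base L
  obtain ⟨C, hC1, hC⟩ := exists_bound w
  refine ⟨C, hC1, fun δ hδ => ?_⟩
  have hδ' : (1 : ℝ) ≤ δ := by exact_mod_cast hδ
  have hint : ∀ (E : Type) [Field E] (r : E), r ^ 2 = -(δ : E) → IsIntegral ℤ r := by
    intro E _ r hr
    refine IsIntegral.of_pow two_pos ?_
    rw [hr]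
    exact (isIntegral_natCast δ).neg
  by_cases hs : ∃ r : L, r ^ 2 = -(δ : L)
  · obtain ⟨r, hr⟩ := hs
    refine ⟨L, _, inferInstance, ι, _, w, i0, RingHom.id _, ⟨r, hint L r hr⟩, hw, hι, h0,
      fun σ i => (hC σ i).trans ?_, by omega, RingOfIntegers.ext ?_⟩
    · exact_mod_cast Nat.le_mul_of_pos_right C hδ
    · change -((δ : 𝓞 L) : L) = r * r
      rw [← sq, hr]
      simp
  have : Fact (∀ r : L, r ^ 2 ≠ -(δ : L) + 0 * r) := ⟨fun r hr => hs ⟨r, by simpa using hr⟩⟩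
  let E := QuadraticAlgebra L (-(δ : L)) 0
  have : NumberField E := NumberField.of_module_finite L E
  have hω : (QuadraticAlgebra.omega : E) ^ 2 = -(δ : E) := quad_sq δ
  let ω : 𝓞 E := ⟨QuadraticAlgebra.omega, hint E _ hω⟩
  let f := RingOfIntegers.mapRingHom (algebraMap L E)
  have hf : finrank ℚ E = 2 * finrank ℚ L := by
    rw [← finrank_mul_finrank ℚ L E, QuadraticAlgebra.finrank_eq_two, mul_comm]
  refine ⟨E, _, this, ι ⊕ ι, inferInstance, Sum.elim (fun i => f (w i)) fun i => f (w i) * ω,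
    Sum.inl i0, f, ω, Fintype.linearIndependent_iff.mpr fun g hg => ?_, ?_, by simp [h0], ?_,
    hf.le, RingOfIntegers.ext ?_⟩
  · have h1 := congrArg (algebraMap (𝓞 E) E) hg
    simp only [Fintype.sum_sum_type, Sum.elim_inl, Sum.elim_inr, map_add, map_sum, map_zsmul,
      map_mul, map_zero] at h1
    have h2 : ∀ g : ι → ℤ, ∑ i, g i • algebraMap (𝓞 E) E (f (w i))
        = algebraMap L E ((∑ i, g i • w i : 𝓞 L) : L) := by
      intro g
      rw [RingOfIntegers.coe_eq_algebraMap, map_sum, map_sum]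
      simp only [map_zsmul]
      rfl
    simp only [← smul_mul_assoc, ← sum_mul, h2] at h1
    have h5 := (quad_mk _ _ _).symm.trans h1
    have h3 := congrArg QuadraticAlgebra.re h5
    have h4 := congrArg QuadraticAlgebra.im h5
    rintro (i | i)
    · exact Fintype.linearIndependent_iff.mp hw _ (RingOfIntegers.coe_eq_zero_iff.mp h3) i
    · exact Fintype.linearIndependent_iff.mp hw _ (RingOfIntegers.coe_eq_zero_iff.mp h4) i
  · rw [Fintype.card_sum, hι, hf, two_mul]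
  · intro σ
    have h1 : ‖σ QuadraticAlgebra.omega‖ ≤ δ := by
      refine le_of_pow_le_pow_left₀ two_ne_zero (by linarith) ?_
      rw [← norm_pow, ← map_pow, hω, map_neg, map_natCast, norm_neg, Complex.norm_natCast]
      exact le_self_pow₀ hδ' two_ne_zero
    rintro (i | i)
    · refine (hC (σ.comp (algebraMap L E)) i).trans ?_
      exact_mod_cast Nat.le_mul_of_pos_right C hδ
    · change ‖σ (algebraMap L E (w i) * QuadraticAlgebra.omega)‖ ≤ _
      rw [map_mul, norm_mul, Nat.cast_mul]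
      exact mul_le_mul (hC (σ.comp (algebraMap L E)) i) h1 (norm_nonneg _) (Nat.cast_nonneg _)
  · change -((δ : 𝓞 E) : E) = QuadraticAlgebra.omega * QuadraticAlgebra.omega
    rw [← sq, hω]
    simp

open Classical in
theorem quad (L : Type) [Field L] [NumberField L] :
    ∃ A : ℕ, 1 ≤ A ∧ ∀ η : ℝ, 0 < η → η ≤ 1 → ∃ Z0 : ℝ, ∀ Z : ℝ, Z0 ≤ Z → ∀ δ : ℕ, 1 ≤ δ →
      (δ : ℝ) ^ A ≤ Z ^ η → ∃ Y : ℕ, Z ≤ Y ∧ (Y : ℝ) ≤ Z ^ A ∧
        (Y : ℝ) ^ (1 - η) ≤ ((Finset.Icc Y (2 * Y)).filter fun l =>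
          l.Prime ∧ Spl L l ∧ IsSquare (-(δ : ZMod l))).card := by
  obtain ⟨C, hC1, hC⟩ := quad_data L
  set D := 2 * finrank ℚ L
  refine ⟨2 * (10 * D ^ 3 + 2) + 4 * D, by omega, fun η hη hη1 => ?_⟩
  obtain ⟨Z0, hZ0⟩ := cheb D hη hη1
  obtain ⟨Z1, hZ1⟩ := eventually_atTop.mp
    ((tendsto_rpow_atTop (by linarith : 0 < η / 4)).eventually_ge_atTop ((C : ℝ) ^ D))
  refine ⟨max (max Z0 Z1) 2, fun Z hZ δ hδ hδZ => ?_⟩
  have hZ2 : 2 ≤ Z := (le_max_right _ _).trans hZ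
  have hZa : (Z0 : ℝ) ≤ Z := ((le_max_left _ _).trans (le_max_left _ _)).trans hZ
  have hZb := hZ1 Z (((le_max_right _ _).trans (le_max_left _ _)).trans hZ)
  have hδ' : (1 : ℝ) ≤ δ := by exact_mod_cast hδ
  obtain ⟨E, _, _, ι, _, w, i0, f, ω, hw, hι, h0, hB, hD, hω⟩ := hC δ hδ
  have hc := Nat.le_ceil Z
  have h1 : (δ : ℝ) ^ D ≤ Z ^ (η / 4) := by
    refine le_of_pow_le_pow_left₀ four_ne_zero (by positivity) ?_
    rw [← pow_mul, ← Real.rpow_natCast (Z ^ (η / 4)), ← Real.rpow_mul (by linarith),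
      show η / 4 * ((4 : ℕ) : ℝ) = η by push_cast; ring]
    exact (pow_le_pow_right₀ hδ' (by omega)).trans hδZ
  obtain ⟨Y, hY1, hY2, hY3⟩ := hZ0 ⌈Z⌉₊ (by exact_mod_cast hZa.trans hc) E ι w i0 (C * δ) hw hι h0
    hB hD (by
      refine le_trans ?_ (Real.rpow_le_rpow (by linarith) hc (by linarith))
      rw [Nat.cast_mul, mul_pow, show η / 2 = η / 4 + η / 4 by ring, Real.rpow_add (by linarith)]
      exact mul_le_mul hZb h1 (by positivity) (by positivity))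
  refine ⟨Y, hc.trans (by exact_mod_cast hY1), ?_, hY3.trans ?_⟩
  · have h2 : (⌈Z⌉₊ : ℝ) ≤ Z ^ 2 := by nlinarith [Nat.ceil_lt_add_one (by linarith : 0 ≤ Z)]
    calc (Y : ℝ) ≤ (⌈Z⌉₊ : ℝ) ^ (10 * D ^ 3 + 2) := by exact_mod_cast hY2
      _ ≤ (Z ^ 2) ^ (10 * D ^ 3 + 2) := by gcongr
      _ ≤ _ := by rw [← pow_mul]; exact pow_le_pow_right₀ (by linarith) (by omega)
  · refine Nat.cast_le.mpr (card_le_card (monotone_filter_right _ fun l _ hl => ?_))
    obtain ⟨hp, ⟨φ⟩⟩ := hl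
    exact ⟨hp, ⟨φ.comp f⟩, φ ω, by rw [← map_mul, ← hω, map_neg, map_natCast]⟩

end M4.NT
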