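import Pool.Agent.Lib.MP_33b3f9_ag.M4.NTLs
import Pool.Agent.Lib.MP_33b3f9_ag.M4.NTTypes
import Pool.Agent.Lib.MP_33b3f9_ag.M4.NTQuad

/-!
Collects `idc`, `Plc.bound`, `types`, `ls`, `quad`.
-/
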