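import Pool.Agent.Lib.MP_33b3f9_ag.M4.NTDefs

/-!
Norms, primes over a rational prime, ideals of given norm.
-/

open Finset NumberField Module UniqueFactorizationMonoid

namespace M4.NT

variable {E : Type} [Field E] [NumberField E]

lemma norm_eq_prod (x : E) : ((Algebra.norm ℚ x : ℚ) : ℂ) = ∏ σ : E →+* ℂ, σ x := by
  have := Algebra.norm_eq_prod_embeddings ℚ ℂ x
  rw [eq_ratCast] at this
  rw [this]
  exact (Fintype.prod_equiv (RingHom.equivRatAlgHom E ℂ) _ _ fun _ => rfl).symm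

lemma abs_norm_eq (x : 𝓞 E) :
    ((Algebra.norm ℤ x).natAbs : ℝ) = ∏ σ : E →+* ℂ, ‖σ (x : E)‖ := by
  rw [← norm_prod, ← norm_eq_prod, ← Algebra.coe_norm_int, Nat.cast_natAbs]
  simp

lemma abs_norm_le {x : 𝓞 E} {B : ℝ} (h : ∀ σ : E →+* ℂ, ‖σ (x : E)‖ ≤ B) :
    ((Algebra.norm ℤ x).natAbs : ℝ) ≤ B ^ finrank ℚ E := by
  rw [abs_norm_eq, ← Embeddings.card E ℂ, ← card_univ, ← prod_const]
  exact prod_le_prod (fun _ _ => norm_nonneg _) fun σ _ => h σ

lemma over_norm {l : ℕ} (hl : l.Prime) {P : Ideal (𝓞 E)} (hP : P.IsPrime)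
    (hlP : (l : 𝓞 E) ∈ P) : ∃ f, 1 ≤ f ∧ Ideal.absNorm P = l ^ f := by
  have h1 := Ideal.absNorm_dvd_absNorm_of_le ((Ideal.span_singleton_le_iff_mem P).mpr hlP)
  rw [Ideal.absNorm_span_natCast] at h1
  obtain ⟨f, -, hf⟩ := (Nat.dvd_prime_pow hl).mp h1
  refine ⟨f, Nat.one_le_iff_ne_zero.mpr ?_, hf⟩
  rintro rfl
  exact hP.ne_top (Ideal.absNorm_eq_one_iff.mp hf)

lemma over_card {l : ℕ} (hl : l.Prime) (T : Finset (Ideal (𝓞 E)))
    (hT : ∀ P ∈ T, P.IsPrime ∧ (l : 𝓞 E) ∈ P) : T.card ≤ finrank ℚ E := by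
  have hl0 : (l : 𝓞 E) ≠ 0 := Nat.cast_ne_zero.mpr hl.ne_zero
  have h1 : ∏ P ∈ T, P ∣ Ideal.span {(l : 𝓞 E)} :=
    Finset.prod_primes_dvd _ (fun P hP => Ideal.prime_of_isPrime
      (by rintro rfl; exact hl0 (hT _ hP).2) (hT P hP).1)
      fun P hP => Ideal.dvd_span_singleton.mpr (hT P hP).2
  have h2 := map_dvd Ideal.absNorm h1
  rw [Ideal.absNorm_span_natCast, RingOfIntegers.rank, map_prod] at h2
  have h3 : l ^ T.card ∣ ∏ P ∈ T, Ideal.absNorm P := by
    rw [← prod_const]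
    refine prod_dvd_prod_of_dvd _ _ fun P hP => ?_
    obtain ⟨f, hf, he⟩ := over_norm hl (hT P hP).1 (hT P hP).2
    rw [he]
    exact dvd_pow_self l (by omega)
  exact (Nat.pow_dvd_pow_iff_le_right hl.one_lt).mp (h3.trans h2)

theorem idc (E : Type) [Field E] [NumberField E] {n : ℕ} (hn : n ≠ 0) :
    Nat.card {I : Ideal (𝓞 E) // Ideal.absNorm I = n} ≤ n.divisors.card ^ finrank ℚ E := by
  classical
  have hn0 : Ideal.span {(n : 𝓞 E)} ≠ ⊥ := by simpa using hn
  set T := (normalizedFactors (Ideal.span {(n : 𝓞 E)})).toFinset with hT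
  set q : Ideal (𝓞 E) → ℕ := fun P => (Ideal.absNorm P).minFac with hq
  have hTP : ∀ P ∈ T, P.IsPrime ∧ (q P).Prime ∧ ((q P : ℕ) : 𝓞 E) ∈ P ∧ q P ∣ Ideal.absNorm P := by
    intro P hP
    have hp := prime_of_normalized_factor P (Multiset.mem_toFinset.mp hP)
    have hpr := Ideal.isPrime_of_prime hp
    have := hpr.isMaximal hp.ne_zero
    obtain ⟨p, k, hk, h1, h2, h3⟩ := Ideal.exists_prime_and_absNorm_eq_pow P
    have : q P = p := by simp only [hq]; rw [h3, h2.pow_minFac hk.ne']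
    exact ⟨hpr, this ▸ h2, this ▸ h1, Nat.minFac_dvd _⟩
  have hidx : ∀ l : ℕ, ∃ f : Ideal (𝓞 E) → ℕ, Set.InjOn f (T.filter fun P => q P = l) ∧
      ∀ P ∈ T.filter fun P => q P = l, f P < finrank ℚ E := by
    intro l
    set U := T.filter fun P => q P = l
    refine ⟨fun P => if h : P ∈ U then (U.equivFin ⟨P, h⟩ : ℕ) else 0, fun P hP Q hQ h => ?_,
      fun P hP => ?_⟩
    · simp only [dif_pos (mem_coe.mp hP), dif_pos (mem_coe.mp hQ)] at h
      exact congrArg Subtype.val (U.equivFin.injective (Fin.ext h))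
    · simp only [dif_pos hP]
      have hl : l.Prime := (mem_filter.mp hP).2 ▸ (hTP P (mem_filter.mp hP).1).2.1
      refine (Fin.is_lt _).trans_le (over_card hl U fun Q hQ => ?_)
      have := hTP Q (mem_filter.mp hQ).1
      exact ⟨this.1, (mem_filter.mp hQ).2 ▸ this.2.2.1⟩
  choose f hf1 hf2 using hidx
  have hI : ∀ I : Ideal (𝓞 E), Ideal.absNorm I = n →
      I = ∏ P ∈ T, P ^ (normalizedFactors I).count P := by
    intro I hI
    have hI0 : I ≠ ⊥ := by rintro rfl; exact hn (by simpa using hI.symm)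
    have hd : I ∣ Ideal.span {(n : 𝓞 E)} :=
      Ideal.dvd_span_singleton.mpr (hI ▸ Ideal.absNorm_mem I)
    rw [← prod_multiset_count_of_subset _ T, Ideal.prod_normalizedFactors_eq_self hI0]
    exact Multiset.toFinset_subset.mpr (Multiset.subset_of_le
      ((dvd_iff_normalizedFactors_le_normalizedFactors hI0 hn0).mp hd))
  let m : Ideal (𝓞 E) → ℕ → ℕ := fun I j =>
    ∏ P ∈ T.filter fun P => f (q P) P = j, q P ^ (normalizedFactors I).count P
  have hm1 : ∀ I, Ideal.absNorm I = n → ∀ j, m I j ∣ n := by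
    intro I h j
    calc m I j ∣ ∏ P ∈ T, q P ^ (normalizedFactors I).count P :=
          prod_dvd_prod_of_subset _ _ _ (filter_subset _ _)
      _ ∣ ∏ P ∈ T, Ideal.absNorm P ^ (normalizedFactors I).count P :=
          prod_dvd_prod_of_dvd _ _ fun P hP => pow_dvd_pow_of_dvd (hTP P hP).2.2.2 _
      _ = n := by
          rw [← h]
          conv_rhs => rw [hI I h, map_prod]
          simp
  have hm2 : ∀ I, ∀ P ∈ T, (m I (f (q P) P)).factorization (q P)
      = (normalizedFactors I).count P := by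
    intro I P hP
    simp only [m]
    rw [Nat.factorization_prod_apply
      fun Q hQ => pow_ne_zero _ (hTP Q (mem_filter.mp hQ).1).2.1.ne_zero, sum_eq_single P]
    · rw [(hTP P hP).2.1.factorization_pow, Finsupp.single_eq_same]
    · intro Q hQ hne
      obtain ⟨hQ1, hQ2⟩ := mem_filter.mp hQ
      rw [(hTP Q hQ1).2.1.factorization_pow, Finsupp.single_eq_of_ne']
      intro h
      rw [h] at hQ2
      exact hne (hf1 (q P) (mem_coe.mpr (mem_filter.mpr ⟨hQ1, h⟩))
        (mem_coe.mpr (mem_filter.mpr ⟨hP, rfl⟩)) hQ2)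
    · intro h
      exact (h (mem_filter.mpr ⟨hP, rfl⟩)).elim
  let g : {I : Ideal (𝓞 E) // Ideal.absNorm I = n} → (Fin (finrank ℚ E) → n.divisors) :=
    fun I j => ⟨m I.1 j, Nat.mem_divisors.mpr ⟨hm1 I.1 I.2 j, hn⟩⟩
  have hg : Function.Injective g := by
    intro I J h
    apply Subtype.ext
    rw [hI I.1 I.2, hI J.1 J.2]
    refine prod_congr rfl fun P hP => ?_
    have := congrArg Subtype.val (congrFun h ⟨f (q P) P, hf2 _ P (mem_filter.mpr ⟨hP, rfl⟩)⟩)
    simp only [g] at this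
    rw [← hm2 I.1 P hP, ← hm2 J.1 P hP, this]
  have := Nat.card_le_card_of_injective g hg
  rwa [Nat.card_fun, Nat.card_eq_finsetCard, Nat.card_fin] at this

end M4.NT
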