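import Pool.Agent.Lib.MP_33b3f9_ag.M4.NTPlc

/-!
Primes without a prime of degree one.
-/

set_option autoImplicit false

namespace M4.NT

open NumberField Module Polynomial

/-- A transitive action on at least two points has an element without fixed point. -/
theorem inert_jordan (G X : Type) [Group G] [Finite G] [Finite X] [Nontrivial X] [MulAction G X]
    [MulAction.IsPretransitive G X] : ∃ g : G, ∀ x : X, g • x ≠ x := by
  classical
  have := Fintype.ofFinite G
  have := Fintype.ofFinite X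
  by_contra h
  push Not at h
  have h1 := MulAction.sum_card_fixedBy_eq_card_orbits_mul_card_group G X
  have h2 : Fintype.card (Quotient (MulAction.orbitRel G X)) ≤ 1 :=
    Fintype.card_le_one_iff_subsingleton.2
      ((MulAction.pretransitive_iff_subsingleton_quotient G X).1 ‹_›)
  have h3 : ∑ _g : G, 1 < ∑ g : G, Fintype.card (MulAction.fixedBy X g) := by
    refine Finset.sum_lt_sum (fun g _ => ?_) ⟨1, Finset.mem_univ _, ?_⟩
    · obtain ⟨x, hx⟩ := h g
      exact Fintype.card_pos_iff.2 ⟨⟨x, hx⟩⟩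
    · obtain ⟨x, y, hxy⟩ := exists_pair_ne X
      exact Fintype.one_lt_card_iff.2 ⟨⟨x, one_smul _ _⟩, ⟨y, one_smul _ _⟩,
        fun e => hxy (congrArg Subtype.val e)⟩
  rw [h1] at h3
  simp only [Finset.sum_const, Finset.card_univ, smul_eq_mul, mul_one] at h3
  nlinarith

/-- A number field other than `ℚ` does not embed into `ℚ_[l]` for a divergent set of primes. -/
theorem dvg_inert (F : Type) [Field F] [NumberField F] (hF : 2 ≤ finrank ℚ F) :
    Dvg {l | ∃ _ : Fact l.Prime, IsEmpty (F →+* ℚ_[l])} := by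
  obtain ⟨θ, hθ⟩ := Field.exists_primitive_element ℚ F
  have hi : IsIntegral ℚ θ := Algebra.IsIntegral.isIntegral θ
  have hirr := minpoly.irreducible hi
  set f := minpoly ℚ θ with hf
  have hs : (f.map (algebraMap ℚ f.SplittingField)).Splits := SplittingField.splits f
  have := Fact.mk hs
  have := Gal.galAction_isPretransitive f f.SplittingField hirr
  have : Nontrivial (f.rootSet f.SplittingField) := by
    rw [← Fintype.one_lt_card_iff_nontrivial, card_rootSet_eq_natDegree hirr.separable hs,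
      (Field.primitive_element_iff_minpoly_natDegree_eq ℚ θ).1 hθ]
    exact hF
  obtain ⟨g, hg⟩ := inert_jordan f.Gal (f.rootSet f.SplittingField)
  have : Normal ℚ f.SplittingField :=
    Normal.of_isSplittingField (hFEp := IsSplittingField.splittingField f)
  obtain ⟨g, rfl⟩ := Gal.restrict_surjective f f.SplittingField g
  have : NumberField f.SplittingField := ⟨⟩
  refine (frob f.SplittingField g.toRingEquiv).mono ?_
  rintro l ⟨hl, e, he⟩
  refine ⟨hl, ⟨fun φ => ?_⟩⟩
  have h1 : algebraMap ℚ_[l] (PadicAlgCl l) (φ θ) ∈ f.rootSet (PadicAlgCl l) := by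
    rw [mem_rootSet_of_ne hirr.ne_zero]
    exact (aeval_algHom_apply ((algebraMap ℚ_[l] (PadicAlgCl l)).comp φ).toRatAlgHom θ f).trans
      (by rw [hf, minpoly.aeval, map_zero])
  rw [← hs.image_rootSet e.toRatAlgHom] at h1
  obtain ⟨x, hx, h2⟩ := h1
  refine hg ⟨x, hx⟩ (Subtype.ext ?_)
  rw [Gal.restrict_smul]
  exact (he x).1 ⟨_, h2.symm⟩

theorem exists_inert (F : Type) [Field F] [NumberField F] (hF : 2 ≤ finrank ℚ F) (l0 : ℕ) :
    ∃ l : ℕ, l0 ≤ l ∧ ∃ _ : Fact l.Prime, IsEmpty (F →+* ℚ_[l]) := by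
  obtain ⟨l, h, hl⟩ := (dvg_inert F hF).exists_ge l0
  exact ⟨l, hl, h⟩

/-- Infinitely many primes split in `L`. -/
theorem exists_split (L : Type) [Field L] [NumberField L] (l0 : ℕ) :
    ∃ l : ℕ, l0 ≤ l ∧ ∃ _ : Fact l.Prime, Spl L l ∧ Nonempty (L →+* ℚ_[l]) := by
  obtain ⟨l1, h1⟩ := emb L
  obtain ⟨l, ⟨hl, e, he⟩, h⟩ := (frob L (RingEquiv.refl L)).exists_ge (max l0 l1)
  choose u hu using fun x => (he x).2 rfl
  have hj := (algebraMap ℚ_[l] (PadicAlgCl l)).injective
  have h2 : Nonempty (L →+* ℚ_[l]) :=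
    ⟨⟨⟨⟨u, hj (by simp [hu])⟩, fun x y => hj (by simp [hu])⟩, hj (by simp [hu]),
      fun x y => hj (by simp [hu])⟩⟩
  exact ⟨l, le_of_max_le_left h, hl, (h1 l (le_of_max_le_right h)).2 h2, h2⟩

/-- An embedding whose image is not in `ℚ_[l]` is moved by the Galois group. -/
theorem exists_move {l : ℕ} [Fact l.Prime] {x : PadicAlgCl l} (hx : x ∉ Qp l) :
    ∃ τ : PadicAlgCl l ≃ₐ[ℚ_[l]] PadicAlgCl l, τ x ≠ x := by
  by_contra h
  push Not at h
  exact hx (IntermediateField.mem_bot.1 ((InfiniteGalois.mem_bot_iff_fixed x).2 h))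

end M4.NT
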