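import Mathlib

/-!
Partial sums of the Jacobi symbol in the lower argument.
-/

open Finset
open scoped NumberTheorySymbols

namespace M4.NT

/-- The Jacobi symbol of `m` on odd lower arguments, zero on even ones. -/
def jo (m : ℤ) (x : ℕ) : ℤ := if Odd x then J(m | x) else 0

lemma abs_jo_le (m : ℤ) (x : ℕ) : |jo m x| ≤ 1 := by
  unfold jo
  split_ifs
  · rcases jacobiSym.trichotomy m x with h | h | h <;> simp [h]
  · simp

lemma jo_mul_right (m : ℤ) (x y : ℕ) : jo m (x * y) = jo m x * jo m y := by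
  unfold jo
  by_cases hx : Odd x
  · by_cases hy : Odd y
    · rw [if_pos (hx.mul hy), if_pos hx, if_pos hy]
      exact jacobiSym.mul_right' m hx.pos.ne' hy.pos.ne'
    · rw [if_neg (fun h => hy (Nat.odd_mul.mp h).2), if_neg hy, mul_zero]
  · rw [if_neg (fun h => hx (Nat.odd_mul.mp h).1), if_neg hx, zero_mul]

lemma jo_mul_left (m m' : ℤ) (x : ℕ) : jo (m * m') x = jo m x * jo m' x := by
  unfold jo
  split_ifs
  · exact jacobiSym.mul_left m m' x
  · simp

lemma jo_mod (m : ℕ) (x : ℕ) : jo m (x % (4 * m)) = jo m x := by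
  unfold jo
  have h2 : (x % (4 * m)) % 2 = x % 2 := Nat.mod_mod_of_dvd x ⟨2 * m, by ring⟩
  by_cases hx : Odd x
  · have : Odd (x % (4 * m)) := by rw [Nat.odd_iff] at hx ⊢; omega
    rw [if_pos hx, if_pos this]
    exact (jacobiSym.mod_right' m hx).symm
  · have : ¬ Odd (x % (4 * m)) := by rw [Nat.odd_iff] at hx ⊢; omega
    rw [if_neg hx, if_neg this]

lemma jo_congr (m : ℕ) {x y : ℕ} (h : x ≡ y [MOD 4 * m]) : jo m x = jo m y := by
  rw [← jo_mod m x, ← jo_mod m y, h]

/-- A number divisible exactly once by a prime is a non residue for some odd modulus. -/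
lemma exists_jo_neg {q u : ℕ} (hq : q.Prime) (hu : ¬ q ∣ u) :
    ∃ x : ℕ, jo ((q * u : ℕ) : ℤ) x = -1 := by
  have hu0 : u ≠ 0 := by rintro rfl; exact hu (dvd_zero q)
  obtain ⟨e, v, hv, rfl⟩ := Nat.exists_eq_two_pow_mul_odd hu0
  have hone : ∀ x : ℕ, x % 4 = 1 → x ≡ 1 [MOD v] → J((v : ℤ) | x) = 1 := by
    intro x h4 h1
    rw [jacobiSym.quadratic_reciprocity_one_mod_four' hv h4,
      jacobiSym.mod_left' (a₂ := 1) (by exact_mod_cast h1), jacobiSym.one_left]
  rcases hq.eq_two_or_odd' with rfl | hqo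
  · have he : e = 0 := by
      by_contra he
      exact hu (Dvd.dvd.mul_right (dvd_pow_self 2 he) v)
    subst he
    have hc : Nat.Coprime 8 v := by
      have : Nat.Coprime 2 v := (Nat.coprime_two_left).mpr hv
      simpa using this.pow_left 3
    obtain ⟨x, hx1, hx2⟩ := Nat.chineseRemainder hc 5 1
    have h8 : x % 8 = 5 := hx1
    have hxo : Odd x := by rw [Nat.odd_iff]; omega
    refine ⟨x, ?_⟩
    unfold jo
    rw [if_pos hxo]
    push_cast
    rw [one_mul, jacobiSym.mul_left, hone x (by omega) hx2, mul_one, jacobiSym.at_two hxo,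
      ZMod.χ₈_nat_mod_eight, h8]
    decide
  · have := Fact.mk hq
    have hq2 : q ≠ 2 := by rintro rfl; exact absurd hqo (by decide)
    obtain ⟨a, ha⟩ := FiniteField.exists_nonsquare (F := ZMod q)
      (by rw [ZMod.ringChar_zmod_n]; exact hq2)
    have hqv : Nat.Coprime q v := (Nat.Prime.coprime_iff_not_dvd hq).mpr
      fun h => hu (Dvd.dvd.mul_left h _)
    have hc8 : Nat.Coprime 8 v := by
      have : Nat.Coprime 2 v := (Nat.coprime_two_left).mpr hv
      simpa using this.pow_left 3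
    have hc8q : Nat.Coprime 8 q := by
      have : Nat.Coprime 2 q := (Nat.coprime_two_left).mpr hqo
      simpa using this.pow_left 3
    have hc : Nat.Coprime (8 * v) q := Nat.Coprime.mul_left hc8q hqv.symm
    obtain ⟨x, hx1, hx2⟩ := Nat.chineseRemainder hc 1 a.val
    have h8 : x % 8 = 1 := hx1.of_mul_right v
    have hxv : x ≡ 1 [MOD v] := hx1.of_mul_left 8
    have hxo : Odd x := by rw [Nat.odd_iff]; omega
    refine ⟨x, ?_⟩
    unfold jo
    rw [if_pos hxo]
    push_cast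
    rw [jacobiSym.mul_left, jacobiSym.mul_left, hone x (by omega) hxv, mul_one,
      jacobiSym.pow_left, jacobiSym.at_two hxo, ZMod.χ₈_nat_mod_eight, h8,
      jacobiSym.quadratic_reciprocity_one_mod_four' hqo (by omega)]
    have h1 : ZMod.χ₈ ((1 : ℕ) : ZMod 8) = 1 := by decide
    rw [h1, one_pow, mul_one, ZMod.nonsquare_iff_jacobiSym_eq_neg_one]
    have : (((x : ℕ) : ℤ) : ZMod q) = a := by
      rw [Int.cast_natCast, (ZMod.natCast_eq_natCast_iff _ _ _).mpr hx2, ZMod.natCast_zmod_val]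
    rwa [this]

lemma sum_period {m x₀ : ℕ} (hm : 0 < m) (h : jo m x₀ = -1) :
    ∑ x ∈ range (4 * m), jo m x = 0 := by
  have hxo : Odd x₀ := by
    by_contra hx
    simp [jo, hx] at h
  have hJ : J((m : ℤ) | x₀) = -1 := by simpa [jo, hxo] using h
  have : NeZero x₀ := ⟨hxo.pos.ne'⟩
  have hc : Nat.Coprime x₀ (4 * m) := by
    refine Nat.Coprime.mul_right ?_ ?_
    · have : Nat.Coprime x₀ 2 := (Nat.coprime_two_right).mpr hxo
      simpa using this.pow_right 2
    · by_contra hn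
      have : J((m : ℤ) | x₀) = 0 := jacobiSym.eq_zero_iff_not_coprime.mpr (by
        rw [Int.gcd_natCast_natCast, Nat.gcd_comm]; exact hn)
      omega
  have : NeZero (4 * m) := ⟨by omega⟩
  have hs : ∀ f : ℕ → ℤ, ∑ x ∈ range (4 * m), f x = ∑ z : ZMod (4 * m), f z.val := by
    intro f
    refine (sum_bij (fun (z : ZMod (4 * m)) _ => z.val) (fun z _ => mem_range.mpr (ZMod.val_lt z))
      (fun a _ b _ hab => ZMod.val_injective _ hab) (fun x hx => ?_) (fun _ _ => rfl)).symm
    exact ⟨(x : ZMod (4 * m)), mem_univ _, ZMod.val_cast_of_lt (mem_range.mp hx)⟩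
  rw [hs]
  have h2 : ∑ z : ZMod (4 * m), jo m z.val = ∑ z : ZMod (4 * m),
      jo m ((ZMod.unitOfCoprime x₀ hc : (ZMod (4 * m))ˣ) * z : ZMod (4 * m)).val :=
    (Equiv.sum_comp (Units.mulLeft (ZMod.unitOfCoprime x₀ hc))
      (fun z : ZMod (4 * m) => jo m z.val)).symm
  have h3 : ∀ z : ZMod (4 * m),
      jo m ((ZMod.unitOfCoprime x₀ hc : (ZMod (4 * m))ˣ) * z : ZMod (4 * m)).val
        = - jo m z.val := by
    intro z
    rw [ZMod.coe_unitOfCoprime, ZMod.val_mul, jo_mod, jo_mul_right, ZMod.val_natCast, jo_mod, h]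
    ring
  rw [sum_congr rfl fun z _ => h3 z, sum_neg_distrib] at h2
  omega

lemma abs_sum_jo_le {m x₀ : ℕ} (hm : 0 < m) (h : jo m x₀ = -1) (R : ℕ) :
    |∑ x ∈ range R, jo m x| ≤ 4 * m := by
  induction R using Nat.strong_induction_on with
  | _ R ih =>
    by_cases hR : R ≤ 4 * m
    · calc |∑ x ∈ range R, jo m x| ≤ ∑ x ∈ range R, |jo m x| := abs_sum_le_sum_abs _ _
        _ ≤ ∑ _x ∈ range R, (1 : ℤ) := sum_le_sum fun x _ => abs_jo_le m x
        _ = R := by simp
        _ ≤ 4 * m := by exact_mod_cast hR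
    · obtain ⟨S, rfl⟩ : ∃ S, R = 4 * m + S := ⟨R - 4 * m, by omega⟩
      rw [sum_range_add, sum_period hm h, zero_add,
        sum_congr rfl fun x _ => jo_congr m (x := 4 * m + x) (y := x) (by simp [Nat.ModEq])]
      exact ih S (by omega)

/-- JAC: the symbol of the product of two different squarefree numbers has bounded sums. -/
theorem jac {a b : ℕ} (ha : Squarefree a) (hb : Squarefree b) (hab : a ≠ b) (R : ℕ) :
    |∑ x ∈ range R, jo ((a * b : ℕ) : ℤ) x| ≤ 4 * (a * b : ℕ) := by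
  have key : ∀ {a b : ℕ}, Squarefree a → Squarefree b → ¬ a ∣ b →
      ∃ x : ℕ, jo ((a * b : ℕ) : ℤ) x = -1 := by
    intro a b ha hb hab
    obtain ⟨q, hq, hqa, hqb⟩ : ∃ q, q.Prime ∧ q ∣ a ∧ ¬ q ∣ b := by
      by_contra hn
      push Not at hn
      apply hab
      rw [← Nat.prod_primeFactors_of_squarefree ha]
      exact Finset.prod_primes_dvd b (fun q hq => (Nat.prime_of_mem_primeFactors hq).prime)
        fun q hq => hn q (Nat.prime_of_mem_primeFactors hq) (Nat.dvd_of_mem_primeFactors hq)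
    obtain ⟨c, rfl⟩ := hqa
    rw [mul_assoc]
    refine exists_jo_neg hq fun h => ?_
    rcases (Nat.Prime.dvd_mul hq).mp h with h | h
    · exact hq.one_lt.ne' (Nat.isUnit_iff.mp (ha q (Nat.mul_dvd_mul_left q h)))
    · exact hqb h
  have hpos : 0 < a * b := Nat.mul_pos (Nat.pos_of_ne_zero ha.ne_zero)
    (Nat.pos_of_ne_zero hb.ne_zero)
  by_cases h : a ∣ b
  · obtain ⟨x, hx⟩ := key hb ha fun h' => hab (Nat.dvd_antisymm h h')
    rw [mul_comm] at hx
    exact abs_sum_jo_le hpos hx R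
  · obtain ⟨x, hx⟩ := key ha hb h
    exact abs_sum_jo_le hpos hx R

end M4.NT
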