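import Pool.Agent.Lib.MP_33b3f9_ag.M4.NTJac

/-!
The large sieve for Jacobi symbols, in the simplest form.
-/

open Finset

namespace M4.NT

lemma jo_prod {ι : Type} (m : ℤ) (s : Finset ι) (f : ι → ℕ) :
    jo m (∏ i ∈ s, f i) = ∏ i ∈ s, jo m (f i) := by
  classical
  induction s using Finset.induction_on with
  | empty => simp [jo]
  | insert a s ha ih => rw [prod_insert ha, prod_insert ha, jo_mul_right, ih]

lemma ls_fiber {u : ℕ} (L : Finset ℕ) (hL : ∀ l ∈ L, l.Prime) (x : ℕ) :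
    ((Fintype.piFinset fun _ : Fin u => L).filter fun f => ∏ i, f i = x).card ≤ u ^ u := by
  rcases ((Fintype.piFinset fun _ : Fin u => L).filter fun f => ∏ i, f i = x).eq_empty_or_nonempty
    with h | ⟨g, hg⟩
  · simp [h]
  obtain ⟨hg1, hg2⟩ := mem_filter.mp hg
  calc _ ≤ (Fintype.piFinset fun _ : Fin u => univ.image g).card := by
        refine card_le_card fun f hf => ?_
        obtain ⟨hf1, hf2⟩ := mem_filter.mp hf
        refine Fintype.mem_piFinset.mpr fun i => ?_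
        have hp := hL _ (Fintype.mem_piFinset.mp hf1 i)
        have hd : f i ∣ ∏ j, g j := by rw [hg2, ← hf2]; exact dvd_prod_of_mem f (mem_univ i)
        obtain ⟨j, -, hj⟩ := (Prime.dvd_finsetProd_iff hp.prime g).mp hd
        exact mem_image.mpr ⟨j, mem_univ j, ((Nat.prime_dvd_prime_iff_eq hp
          (hL _ (Fintype.mem_piFinset.mp hg1 j))).mp hj).symm⟩
    _ ≤ u ^ u := by
        rw [Fintype.card_piFinset, prod_const, card_univ, Fintype.card_fin]
        refine Nat.pow_le_pow_left (card_image_le.trans (by simp)) u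

lemma ls_dual {Q : ℕ} (D : Finset ℕ) (hD : ∀ δ ∈ D, Squarefree δ ∧ δ ≤ Q) (N : ℕ) :
    ∑ x ∈ range (N + 1), (∑ δ ∈ D, jo (-(δ : ℤ)) x) ^ 2
      ≤ D.card * N + (D.card : ℤ) ^ 2 * (4 * Q ^ 2) := by
  have h1 : ∀ x, (∑ δ ∈ D, jo (-(δ : ℤ)) x) ^ 2
      = ∑ a ∈ D, ∑ b ∈ D, jo ((a * b : ℕ) : ℤ) x := by
    intro x
    rw [sq, sum_mul_sum]
    refine sum_congr rfl fun a _ => sum_congr rfl fun b _ => ?_
    rw [← jo_mul_left]
    congr 1
    push_cast
    ring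
  rw [sum_congr rfl fun x _ => h1 x, sum_comm]
  have h2 : ∀ a ∈ D, ∑ x ∈ range (N + 1), ∑ b ∈ D, jo ((a * b : ℕ) : ℤ) x
      ≤ N + D.card * (4 * (Q : ℤ) ^ 2) := by
    intro a ha
    rw [sum_comm]
    calc _ ≤ ∑ b ∈ D, ((if b = a then (N : ℤ) else 0) + 4 * (Q : ℤ) ^ 2) := by
          refine sum_le_sum fun b hb => ?_
          split_ifs with hab
          · have h0 : ∀ m : ℤ, jo m 0 = 0 := fun m => by simp [jo]
            rw [sum_range_succ', h0, add_zero]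
            calc _ ≤ ∑ _x ∈ range N, (1 : ℤ) :=
                  sum_le_sum fun x _ => (le_abs_self _).trans (abs_jo_le _ _)
              _ = N := by simp
              _ ≤ _ := le_add_of_nonneg_right (by positivity)
          · refine (le_abs_self _).trans
              ((jac (hD a ha).1 (hD b hb).1 (fun h => hab h.symm) _).trans ?_)
            have : a * b ≤ Q ^ 2 := by rw [sq]; exact Nat.mul_le_mul (hD a ha).2 (hD b hb).2
            have : ((a * b : ℕ) : ℤ) ≤ (Q : ℤ) ^ 2 := by exact_mod_cast this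
            linarith
      _ = _ := by rw [sum_add_distrib, sum_ite_eq' D a, if_pos ha]; simp
  refine (sum_le_sum h2).trans (le_of_eq ?_)
  rw [sum_const, nsmul_eq_mul]
  ring

theorem ls {u R Q : ℕ} (hu : Even u) (L : Finset ℕ) (hL : ∀ l ∈ L, l.Prime ∧ l ≠ 2 ∧ l ≤ R)
    (D : Finset ℕ) (hD : ∀ δ ∈ D, Squarefree δ ∧ δ ≤ Q ∧
      3 * L.card ≤ 4 * (L.filter fun l => jacobiSym (-(δ : ℤ)) l = -1).card)
    (hn : 8 * (4 * u) ^ u * Q ^ 2 ≤ L.card ^ u) :
    D.card * L.card ^ u ≤ 2 * (4 * u * R) ^ u := by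
  set X := Fintype.piFinset fun _ : Fin u => L with hX
  set G : ℕ → ℤ := fun x => ∑ δ ∈ D, jo (-(δ : ℤ)) x with hG
  have hcX : X.card = L.card ^ u := by simp [hX]
  have h1 : ∀ δ ∈ D, (L.card : ℤ) ^ u ≤ 2 ^ u * ∑ f ∈ X, jo (-(δ : ℤ)) (∏ i, f i) := by
    intro δ hδ
    have e1 : ∑ f ∈ X, jo (-(δ : ℤ)) (∏ i, f i) = (∑ l ∈ L, jo (-(δ : ℤ)) l) ^ u := by
      rw [sum_congr rfl fun f _ => jo_prod _ univ f, ← prod_univ_sum]
      simp
    have e2 : ∑ l ∈ L, jo (-(δ : ℤ)) l ≤ L.card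
        - 2 * (L.filter fun l => jacobiSym (-(δ : ℤ)) l = -1).card := by
      rw [card_filter, card_eq_sum_ones L]
      push_cast
      rw [mul_sum, ← sum_sub_distrib]
      refine sum_le_sum fun l hl => ?_
      have ho : Odd l := (hL l hl).1.odd_of_ne_two (hL l hl).2.1
      have := abs_jo_le (-(δ : ℤ)) l
      split_ifs with h
      · simp [jo, ho, h]
      · simpa using (le_abs_self _).trans this
    have e3 : (3 * L.card : ℤ) ≤ 4 * (L.filter fun l => jacobiSym (-(δ : ℤ)) l = -1).card := by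
      exact_mod_cast (hD δ hδ).2.2
    rw [e1, ← mul_pow, ← hu.neg_pow (2 * _)]
    exact pow_le_pow_left₀ (by positivity) (by linarith) u
  have h2 : (D.card : ℤ) * (L.card : ℤ) ^ u ≤ 2 ^ u * ∑ f ∈ X, G (∏ i, f i) := by
    simp only [hG]
    rw [sum_comm, mul_sum]
    refine le_trans (le_of_eq ?_) (sum_le_sum h1)
    simp
  have h3 : (∑ f ∈ X, G (∏ i, f i)) ^ 2 ≤ (L.card : ℤ) ^ u * ∑ f ∈ X, G (∏ i, f i) ^ 2 := by
    have := sq_sum_le_card_mul_sum_sq (s := X) (f := fun f => G (∏ i, f i))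
    rwa [hcX, Nat.cast_pow] at this
  have h4 : ∑ f ∈ X, G (∏ i, f i) ^ 2 ≤ (u : ℤ) ^ u * ∑ x ∈ range (R ^ u + 1), G x ^ 2 := by
    rw [← sum_fiberwise_of_maps_to (t := range (R ^ u + 1)) (g := fun f => ∏ i, f i), mul_sum]
    · refine sum_le_sum fun x _ => ?_
      rw [sum_congr rfl fun f hf => by rw [(mem_filter.mp hf).2], sum_const, nsmul_eq_mul]
      refine mul_le_mul_of_nonneg_right ?_ (sq_nonneg _)
      exact_mod_cast ls_fiber L (fun l hl => (hL l hl).1) x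
    · intro f hf
      rw [mem_range, Nat.lt_succ_iff]
      calc ∏ i, f i ≤ ∏ _i : Fin u, R :=
            prod_le_prod' fun i _ => (hL _ (Fintype.mem_piFinset.mp hf i)).2.2
        _ = R ^ u := by simp
  have h5 := ls_dual D (fun δ hδ => ⟨(hD δ hδ).1, (hD δ hδ).2.1⟩) (R ^ u)
  have hn' : 8 * (4 * (u : ℤ)) ^ u * (Q : ℤ) ^ 2 ≤ (L.card : ℤ) ^ u := by exact_mod_cast hn
  rcases Nat.eq_zero_or_pos (D.card * L.card ^ u) with h0 | h0
  · rw [h0]; exact Nat.zero_le _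
  have h0' : (0 : ℤ) < (D.card : ℤ) * (L.card : ℤ) ^ u := by exact_mod_cast h0
  suffices h : (D.card : ℤ) * (L.card : ℤ) ^ u ≤ 2 * (4 * (u : ℤ) * R) ^ u by exact_mod_cast h
  set J : ℤ := (D.card : ℤ)
  set n : ℤ := (L.card : ℤ) ^ u
  set S := ∑ f ∈ X, G (∏ i, f i)
  have hJ : 0 ≤ J := by positivity
  have hn0 : 0 ≤ n := by positivity
  have h6 : (J * n) ^ 2 ≤ (2 ^ u * S) ^ 2 := pow_le_pow_left₀ h0'.le h2 2
  have h7 : S ^ 2 ≤ n * ((u : ℤ) ^ u * (J * ((R : ℤ) ^ u) + J ^ 2 * (4 * (Q : ℤ) ^ 2))) := by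
    refine h3.trans (mul_le_mul_of_nonneg_left (h4.trans ?_) hn0)
    refine mul_le_mul_of_nonneg_left ?_ (by positivity)
    simpa using h5
  have e4 : (4 * (u : ℤ)) ^ u = (2 ^ u) ^ 2 * (u : ℤ) ^ u := by
    rw [mul_pow, ← pow_mul, mul_comm u 2, pow_mul]; norm_num
  have h8 : (J * n) * (J * n) ≤ (J * n) * ((4 * (u : ℤ)) ^ u * ((R : ℤ) ^ u + J * (4 * (Q : ℤ) ^ 2))) := by
    calc (J * n) * (J * n) = (J * n) ^ 2 := by ring
      _ ≤ (2 ^ u) ^ 2 * S ^ 2 := by rw [← mul_pow]; exact h6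
      _ ≤ (2 ^ u) ^ 2 * (n * ((u : ℤ) ^ u * (J * ((R : ℤ) ^ u) + J ^ 2 * (4 * (Q : ℤ) ^ 2)))) :=
          mul_le_mul_of_nonneg_left h7 (by positivity)
      _ = _ := by rw [e4]; ring
  have h9 := le_of_mul_le_mul_left h8 h0'
  have h10 := mul_le_mul_of_nonneg_left hn' hJ
  rw [mul_pow (4 * (u : ℤ))]
  nlinarith

end M4.NT
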