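import Pool.Agent.Lib.MP_33b3f9_ag.M4.NTH17
import Pool.Agent.Lib.MP_33b3f9_ag.M4.NTMisc

/-!
Lemmas for the sieve.
-/

set_option autoImplicit false

namespace M4.NT

open NumberField Module Filter Topology

theorem sv_ev (C : ℝ) {α β : ℝ} (h : α < β) : ∀ᶠ x : ℝ in atTop, C * x ^ α ≤ x ^ β := by
  filter_upwards [(tendsto_rpow_atTop (sub_pos.2 h)).eventually_ge_atTop C,
    eventually_gt_atTop 0] with x hx h0
  calc C * x ^ α ≤ x ^ (β - α) * x ^ α := mul_le_mul_of_nonneg_right hx (Real.rpow_nonneg h0.le _)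
    _ = x ^ β := by rw [← Real.rpow_add h0, sub_add_cancel]

theorem sv_good {Y c δ : ℕ} (B : Finset ℕ) (hB : ∀ l ∈ B, l.Prime ∧ Y ≤ l) {Δ k : ℤ}
    (hΔ : Δ = -(δ : ℤ) * k ^ 2) (h0 : Δ ≠ 0) (hc : Δ.natAbs ≤ Y ^ c) (hY : 2 ≤ Y)
    (hn : 20 * c ≤ B.card)
    (hb : 4 * (B.filter fun l => jacobiSym (-(δ : ℤ)) l = -1).card < 3 * B.card) :
    B.card ≤ 5 * (B.filter fun l => jacobiSym Δ l = 1).card := by
  have h1 : (B.filter fun l => l ∣ Δ.natAbs).card ≤ c :=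
    (Nat.pow_le_pow_iff_right hY).1 ((pow_card_dvd_le (Int.natAbs_ne_zero.2 h0) _ fun l hl => by
      obtain ⟨h1, h2⟩ := Finset.mem_filter.1 hl
      exact ⟨(hB l h1).1, (hB l h1).2, h2⟩).trans hc)
  have h2 : B ⊆ (B.filter fun l => l ∣ Δ.natAbs) ∪
      ((B.filter fun l => jacobiSym (-(δ : ℤ)) l = -1) ∪ B.filter fun l => jacobiSym Δ l = 1) := by
    intro l hl
    simp only [Finset.mem_union, Finset.mem_filter, hl, true_and]
    by_cases hd : l ∣ Δ.natAbs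
    · exact Or.inl hd
    right
    have hp := (hB l hl).1
    have h3 : Δ.gcd l = 1 := by
      rw [Int.gcd_eq_natAbs, Int.natAbs_natCast]
      exact ((Nat.Prime.coprime_iff_not_dvd hp).2 hd).symm
    have h4 : k.gcd l = 1 := by
      rw [Int.gcd_eq_natAbs, Int.natAbs_natCast]
      refine ((Nat.Prime.coprime_iff_not_dvd hp).2 fun h => hd ?_).symm
      rw [hΔ, Int.natAbs_mul, Int.natAbs_pow]
      exact (dvd_pow h two_ne_zero).mul_left _
    have h5 : jacobiSym Δ l = jacobiSym (-(δ : ℤ)) l := by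
      rw [hΔ, jacobiSym.mul_left, jacobiSym.sq_one' h4, mul_one]
    rcases jacobiSym.eq_one_or_neg_one h3 with h | h
    · exact Or.inr h
    · exact Or.inl (h5 ▸ h)
  have h3 := (Finset.card_le_card h2).trans ((Finset.card_union_le _ _).trans
    (Nat.add_le_add_left (Finset.card_union_le _ _) _))
  omega

theorem sv_typ {Δ : ℤ} (h : Δ < 0) :
    ∃ δ : ℕ, Squarefree δ ∧ δ ≤ Δ.natAbs ∧ ∃ k : ℤ, Δ = -(δ : ℤ) * k ^ 2 := by
  obtain ⟨a, b, hab, ha⟩ := Nat.sq_mul_squarefree Δ.natAbs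
  refine ⟨a, ha, Nat.le_of_dvd (Int.natAbs_pos.2 h.ne) (hab ▸ dvd_mul_left _ _), b, ?_⟩
  have : ((b ^ 2 * a : ℕ) : ℤ) = -Δ := by rw [hab, Int.natCast_natAbs, abs_of_neg h]
  push_cast at this
  linarith

theorem sv_small (S : Finset ℕ) (typ : ℕ → ℕ) {D : ℝ} (hD : 1 ≤ D)
    (h : ∀ p ∈ S, 1 ≤ typ p ∧ (typ p : ℝ) ≤ D) :
    ∃ δ : ℕ, 1 ≤ δ ∧ (δ : ℝ) ≤ D ∧ (S.card : ℝ) ≤ D * (S.filter fun p => typ p = δ).card := by
  have h1 : 1 ≤ ⌊D⌋₊ := Nat.le_floor (by simpa using hD)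
  obtain ⟨δ, hδ, hm⟩ := Finset.exists_max_image (Finset.Icc 1 ⌊D⌋₊)
    (fun δ => (S.filter fun p => typ p = δ).card) ⟨1, by simpa using h1⟩
  obtain ⟨h2, h3⟩ := Finset.mem_Icc.1 hδ
  have hD0 : 0 ≤ D := by linarith
  refine ⟨δ, h2, (Nat.le_floor_iff hD0).1 h3, ?_⟩
  have h4 : S.card ≤ ⌊D⌋₊ * (S.filter fun p => typ p = δ).card := by
    rw [Finset.card_eq_sum_card_fiberwise (f := typ) (t := Finset.Icc 1 ⌊D⌋₊) fun p hp =>
      Finset.mem_coe.2 (Finset.mem_Icc.2 ⟨(h p hp).1, Nat.le_floor (h p hp).2⟩)]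
    simpa using Finset.sum_le_card_nsmul _ _ _ hm
  calc (S.card : ℝ) ≤ ⌊D⌋₊ * (S.filter fun p => typ p = δ).card := by exact_mod_cast h4
    _ ≤ _ := mul_le_mul_of_nonneg_right (Nat.floor_le hD0) (Nat.cast_nonneg _)

theorem sv_large {s : ℕ} (S : Finset ℕ) (typ : ℕ → ℕ) (bad : Fin s → ℕ → Prop)
    [∀ i, DecidablePred (bad i)] {J W : ℝ} (hW : 0 ≤ W)
    (hJ : ∀ i, (((S.image typ).filter (bad i)).card : ℝ) ≤ J)
    (h : ∀ δ ∈ S.image typ, ((S.filter fun p => typ p = δ).card : ℝ) ≤ W) :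
    (S.card : ℝ) ≤ (S.filter fun p => ∀ i, ¬ bad i (typ p)).card + s * (J * W) := by
  have h1 : S ⊆ (S.filter fun p => ∀ i, ¬ bad i (typ p)) ∪ Finset.univ.biUnion fun i =>
      ((S.image typ).filter (bad i)).biUnion fun δ => S.filter fun p => typ p = δ := by
    intro p hp
    simp only [Finset.mem_union, Finset.mem_filter, hp, true_and, Finset.mem_biUnion,
      Finset.mem_univ]
    by_cases hb : ∀ i, ¬ bad i (typ p)
    · exact Or.inl hb
    · push Not at hb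
      obtain ⟨i, hi⟩ := hb
      exact Or.inr ⟨i, typ p, ⟨Finset.mem_image_of_mem _ hp, hi⟩, rfl⟩
  have h2 := (Finset.card_le_card h1).trans ((Finset.card_union_le _ _).trans
    (Nat.add_le_add_left (Finset.card_biUnion_le.trans
      (Finset.sum_le_sum fun i _ => Finset.card_biUnion_le)) _))
  have h3 : ∑ i : Fin s, ∑ δ ∈ (S.image typ).filter (bad i),
      ((S.filter fun p => typ p = δ).card : ℝ) ≤ s * (J * W) := by
    have := Finset.sum_le_card_nsmul (Finset.univ : Finset (Fin s)) _ (J * W) fun i _ =>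
      (Finset.sum_le_card_nsmul ((S.image typ).filter (bad i)) _ W fun δ hδ =>
        h δ (Finset.mem_filter.1 hδ).1).trans
        (by rw [nsmul_eq_mul]; exact mul_le_mul_of_nonneg_right (hJ i) hW)
    simpa using this
  refine le_trans ?_ (add_le_add_right h3 _)
  exact_mod_cast h2

theorem sv_blocks (s : ℕ) {η : ℝ} (hη : 0 < η) (hη' : η ≤ 1 / 2) :
    ∀ᶠ Y : ℝ in atTop, ∀ T : Finset ℕ, Y ^ (1 - η) ≤ T.card + 1 →
      ∃ (n : ℕ) (LL : Fin s → Finset ℕ), Y ^ (1 - 2 * η) ≤ n ∧ (∀ i, LL i ⊆ T ∧ (LL i).card = n) ∧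
        ∀ i j, i ≠ j → Disjoint (LL i) (LL j) := by
  filter_upwards [sv_ev (2 * s + 1) (show 1 - 2 * η < 1 - η by linarith), eventually_ge_atTop 1]
    with Y hY h1 T hT
  have h2 : 1 ≤ Y ^ (1 - 2 * η) := Real.one_le_rpow h1 (by linarith)
  have h3 := (Nat.ceil_lt_add_one (le_trans zero_le_one h2)).le
  obtain ⟨LL, h4, h5⟩ := exists_blocks T s ⌈Y ^ (1 - 2 * η)⌉₊ (by
    have : (s : ℝ) * ⌈Y ^ (1 - 2 * η)⌉₊ ≤ T.card := by
      have : (0 : ℝ) ≤ s := Nat.cast_nonneg s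
      nlinarith
    exact_mod_cast this)
  exact ⟨_, LL, Nat.le_ceil _, h4, h5⟩

end M4.NT
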