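import Pool.Agent.Lib.MP_33b3f9_ag.M4.NTSvA

/-!
The two cases of the sieve.
-/

set_option autoImplicit false

namespace M4.NT

open NumberField Module Filter Topology

theorem sv_quad (L : Type) [Field L] [NumberField L] :
    ∃ A : ℕ, 1 ≤ A ∧ ∀ (s c Y0 : ℕ) (η b : ℝ), 0 < η → η ≤ 1 / 4 → 0 < b → ∀ᶠ x : ℝ in atTop,
      ∀ δ : ℕ, 1 ≤ δ → (δ : ℝ) ^ A ≤ (x ^ b) ^ η → ∃ (Y n : ℕ) (LL : Fin s → Finset ℕ),
        Y0 ≤ Y ∧ 3 ≤ Y ∧ x ^ b ≤ Y ∧ (Y : ℝ) ≤ (x ^ b) ^ A ∧ (Y : ℝ) ^ (1 - 2 * η) ≤ n ∧ 20 * c < n ∧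
        x ^ (b / 2) ≤ n ∧ (∀ i, (LL i).card = n) ∧ (∀ i j, i ≠ j → Disjoint (LL i) (LL j)) ∧
        ∀ i, ∀ l ∈ LL i, l.Prime ∧ Y < l ∧ l ≤ 2 * Y ∧ Spl L l ∧ IsSquare (-(δ : ZMod l)) := by
  obtain ⟨A, hA, h⟩ := quad L
  refine ⟨A, hA, fun s c Y0 η b hη hη' hb => ?_⟩
  obtain ⟨Z0, hZ⟩ := h η hη (by linarith)
  obtain ⟨Y1, hY1⟩ := eventually_atTop.1 ((sv_blocks s hη (by linarith)).and
    (((tendsto_rpow_atTop (show (0 : ℝ) < 1 / 2 by norm_num)).eventually_gt_atTop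
      (20 * c : ℝ)).and ((eventually_ge_atTop (Y0 : ℝ)).and (eventually_ge_atTop (3 : ℝ)))))
  filter_upwards [(tendsto_rpow_atTop hb).eventually_ge_atTop Z0,
    (tendsto_rpow_atTop hb).eventually_ge_atTop Y1, eventually_ge_atTop 0] with x h0 h1 hx δ hδ hδ'
  obtain ⟨Y, h2, h3, h4⟩ := hZ _ h0 δ hδ hδ'
  obtain ⟨h5, h6, h7, h8⟩ := hY1 Y (h1.trans h2)
  obtain ⟨n, LL, h9, h10, h11⟩ := h5 (Finset.erase _ Y) (h4.trans (by
    exact_mod_cast Nat.sub_le_iff_le_add.1 Finset.pred_card_le_card_erase))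
  have h12 : (Y : ℝ) ^ (1 / 2 : ℝ) ≤ n :=
    (Real.rpow_le_rpow_of_exponent_le (by linarith) (by linarith)).trans h9
  refine ⟨Y, n, LL, by exact_mod_cast h7, by exact_mod_cast h8, h2, h3, h9,
    by exact_mod_cast h6.trans_le h12, le_trans ?_ h12, fun i => (h10 i).2, h11, fun i l hl => ?_⟩
  · rw [div_eq_mul_one_div, Real.rpow_mul hx]
    exact Real.rpow_le_rpow (Real.rpow_nonneg hx _) h2 (by norm_num)
  · classical
    have := (h10 i).1 hl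
    simp only [Finset.mem_erase, Finset.mem_filter, Finset.mem_Icc] at this
    exact ⟨this.2.2.1, lt_of_le_of_ne this.2.1.1 this.1.symm, this.2.1.2, this.2.2.2⟩

theorem sv_J {u Y n J : ℕ} {η : ℝ} (hY : 1 ≤ Y) (hn : (Y : ℝ) ^ (1 - 2 * η) ≤ n)
    (h : J * n ^ u ≤ 2 * (4 * u * (2 * Y)) ^ u) :
    (J : ℝ) ≤ 2 * (8 * u) ^ u * (Y : ℝ) ^ (2 * η * u) := by
  have h0 : (0 : ℝ) < Y := by exact_mod_cast hY
  have h1 : (J : ℝ) * (n : ℝ) ^ u ≤ 2 * (4 * u * (2 * Y)) ^ u := by exact_mod_cast h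
  have h2 : ((Y : ℝ) ^ (1 - 2 * η)) ^ u ≤ (n : ℝ) ^ u := pow_le_pow_left₀ (by positivity) hn u
  have h3 : (Y : ℝ) ^ (2 * η * u) * ((Y : ℝ) ^ (1 - 2 * η)) ^ u = (Y : ℝ) ^ u := by
    rw [← Real.rpow_natCast, ← Real.rpow_mul h0.le, ← Real.rpow_add h0, ← Real.rpow_natCast]
    congr 1
    ring
  refine le_of_mul_le_mul_right ?_ (show 0 < ((Y : ℝ) ^ (1 - 2 * η)) ^ u by positivity)
  calc (J : ℝ) * ((Y : ℝ) ^ (1 - 2 * η)) ^ u ≤ J * (n : ℝ) ^ u :=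
        mul_le_mul_of_nonneg_left h2 (Nat.cast_nonneg _)
    _ ≤ _ := h1
    _ = _ := by
      rw [mul_assoc _ ((Y : ℝ) ^ (2 * η * u)), h3, mul_assoc 2, ← mul_pow]
      congr 2
      ring

/-- The case of large types. -/
theorem sv_big {s u Y P n : ℕ} {κ η C σ : ℝ} (S : Finset ℕ) (typ : ℕ → ℕ) (LL : Fin s → Finset ℕ)
    (hu : Even u) (hP : 1 ≤ P) (hY : 3 ≤ Y) (hC : 0 ≤ C) (hη : 0 ≤ η) (hσ : 0 < σ)
    (hηu : 2 * η * u ≤ κ * σ / 8) (hYP : (Y : ℝ) ≤ (P : ℝ) ^ (1 / σ))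
    (hn : (Y : ℝ) ^ (1 - 2 * η) ≤ n) (hn' : 8 * (4 * u) ^ u * (4096 * (2 * P) ^ 2) ^ 2 ≤ n ^ u)
    (hc : ∀ i, (LL i).card = n) (hL : ∀ i, ∀ l ∈ LL i, l.Prime ∧ Y < l ∧ l ≤ 2 * Y)
    (hS : ∀ p ∈ S, Squarefree (typ p) ∧ typ p ≤ 4096 * (2 * P) ^ 2 ∧ (P : ℝ) ^ κ ≤ typ p)
    (hT : ∀ δ, Squarefree δ →
      ((S.filter fun p => typ p = δ).card : ℝ) * Real.sqrt δ ≤ C * (P : ℝ) ^ (1 + κ / 8)) :
    (S.card : ℝ) ≤ (S.filter fun p => ∀ i, ¬ 3 * (LL i).card ≤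
      4 * ((LL i).filter fun l => jacobiSym (-(typ p : ℤ)) l = -1).card).card +
      s * (2 * (8 * u) ^ u) * C * (P : ℝ) ^ (1 - κ / 4) := by
  have h0 : (0 : ℝ) < P := by exact_mod_cast hP
  have h1 : (1 : ℝ) ≤ P := by exact_mod_cast hP
  refine (sv_large S typ (fun i δ => 3 * (LL i).card ≤
      4 * ((LL i).filter fun l => jacobiSym (-(δ : ℤ)) l = -1).card)
    (J := 2 * (8 * u) ^ u * (P : ℝ) ^ (κ / 8)) (W := C * (P : ℝ) ^ (1 - 3 * κ / 8)) (by positivity)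
    (fun i => ?_) fun δ hδ => ?_).trans (le_of_eq ?_)
  · refine (sv_J (u := u) (by omega) hn ?_).trans (mul_le_mul_of_nonneg_left ?_ (by positivity))
    · rw [← hc i]
      refine ls hu (LL i) (fun l hl => ⟨(hL i l hl).1, ?_, (hL i l hl).2.2⟩) _ (fun δ hδ => ?_)
        (hc i ▸ hn')
      · have := (hL i l hl).2.1
        omega
      · obtain ⟨h2, h3⟩ := Finset.mem_filter.1 hδ
        obtain ⟨p, hp, rfl⟩ := Finset.mem_image.1 h2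
        exact ⟨(hS p hp).1, (hS p hp).2.1, h3⟩
    · refine (Real.rpow_le_rpow (Nat.cast_nonneg _) hYP (by positivity)).trans ?_
      rw [← Real.rpow_mul h0.le]
      refine Real.rpow_le_rpow_of_exponent_le h1 ?_
      rw [one_div, inv_mul_le_iff₀ hσ]
      linarith
  · obtain ⟨p, hp, rfl⟩ := Finset.mem_image.1 hδ
    have h2 : (P : ℝ) ^ (κ / 2) ≤ Real.sqrt (typ p) := by
      rw [Real.sqrt_eq_rpow, div_eq_mul_one_div, Real.rpow_mul h0.le]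
      exact Real.rpow_le_rpow (by positivity) (hS p hp).2.2 (by norm_num)
    refine le_of_mul_le_mul_right ?_ (show 0 < (P : ℝ) ^ (κ / 2) by positivity)
    refine (mul_le_mul_of_nonneg_left h2 (Nat.cast_nonneg _)).trans
      ((hT _ (hS p hp).1).trans (le_of_eq ?_))
    rw [mul_assoc, ← Real.rpow_add h0]
    congr 2
    ring
  · have : (P : ℝ) ^ (1 - κ / 4) = (P : ℝ) ^ (κ / 8) * (P : ℝ) ^ (1 - 3 * κ / 8) := by
      rw [← Real.rpow_add h0]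
      congr 1
      ring
    rw [this]
    ring

end M4.NT
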