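import Pool.Agent.Lib.MP_33b3f9_ag.M4.NTDefs

/-!
The Dedekind zeta function as a sum over ideals.
-/

set_option autoImplicit false

namespace M4.NT

open NumberField Module Filter Topology

variable (K : Type) [Field K] [NumberField K]

theorem zeta_partSum : Tendsto (fun n : ℕ => (∑ k ∈ Finset.Icc 1 n,
    (Nat.card {I : Ideal (𝓞 K) // Ideal.absNorm I = k} : ℝ)) / (n : ℝ)) atTop
    (𝓝 (dedekindZeta_residue K)) := by
  refine ((Ideal.tendsto_norm_le_div_atTop₀ K).comp tendsto_natCast_atTop_atTop).congr fun n => ?_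
  simp only [Function.comp_apply, Nat.cast_le, ← Nat.cast_sum]
  congr
  rw [← add_left_inj 1, ← Ideal.card_norm_le_eq_card_norm_le_add_one,
    show Finset.Icc 1 n = Finset.Ioc 0 n from Finset.Icc_succ_left_eq_Ioc _ _,
    show 1 = Nat.card {I : Ideal (𝓞 K) // Ideal.absNorm I = 0} by simp [Ideal.absNorm_eq_zero_iff],
    Finset.sum_Ioc_add_eq_sum_Icc (n.zero_le),
    ← Finset.card_preimage_eq_sum_card_image_eq fun k _ => Ideal.finite_setOfPred_absNorm_eq k]
  simp [Set.coe_eq_subtype]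

theorem zeta_term {s : ℝ} (hs : 1 < s) (a : ℕ → ℝ) (n : ℕ) :
    LSeries.term (fun n => (a n : ℂ)) s n = ((a n * (n : ℝ) ^ (-s) : ℝ) : ℂ) := by
  rcases eq_or_ne n 0 with rfl | hn
  · rw [LSeries.term_zero, Nat.cast_zero, Real.zero_rpow (by linarith), mul_zero,
      Complex.ofReal_zero]
  · rw [LSeries.term_of_ne_zero hn, Complex.ofReal_mul, Complex.ofReal_cpow n.cast_nonneg,
      Complex.ofReal_neg, Complex.cpow_neg, Complex.ofReal_natCast, div_eq_mul_inv]

theorem zeta_nat {s : ℝ} (hs : 1 < s) : Summable fun n : ℕ =>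
    (Nat.card {I : Ideal (𝓞 K) // Ideal.absNorm I = n} : ℝ) * (n : ℝ) ^ (-s) := by
  have h1 := LSeriesSummable_of_sum_norm_bigO_and_nonneg (r := 1) (s := s)
    (f := fun n => (Nat.card {I : Ideal (𝓞 K) // Ideal.absNorm I = n} : ℝ))
    (by
      simp only [Real.rpow_one]
      exact Asymptotics.isBigO_atTop_natCast_rpow_of_tendsto_div_rpow (r := 1)
        (by simpa using zeta_partSum K) |>.congr_right fun n => Real.rpow_one _)
    (fun _ => Nat.cast_nonneg _) zero_le_one hs
  rw [LSeriesSummable, funext (zeta_term hs _)] at h1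
  exact Complex.summable_ofReal.1 h1

theorem zeta_fib (s : ℝ) (n : ℕ) :
    HasSum (fun I : {I : Ideal (𝓞 K) // Ideal.absNorm I = n} => (Ideal.absNorm I.1 : ℝ) ^ (-s))
      ((Nat.card {I : Ideal (𝓞 K) // Ideal.absNorm I = n} : ℝ) * (n : ℝ) ^ (-s)) := by
  have : Finite {I : Ideal (𝓞 K) // Ideal.absNorm I = n} := Ideal.finite_setOfPred_absNorm_eq n
  have := Fintype.ofFinite {I : Ideal (𝓞 K) // Ideal.absNorm I = n}
  have h1 := hasSum_fintype
    fun I : {I : Ideal (𝓞 K) // Ideal.absNorm I = n} => (Ideal.absNorm I.1 : ℝ) ^ (-s)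
  rwa [Finset.sum_congr rfl fun I _ => by rw [I.2], Finset.sum_const, nsmul_eq_mul,
    Finset.card_univ, ← Nat.card_eq_fintype_card] at h1

/-- Group by the norm (`summable_sigma_of_nonneg` on `Equiv.sigmaFiberEquiv Ideal.absNorm`, fibres
are finite by `Ideal.finite_setOfPred_absNorm_eq`). The series `a n * n ^ (-s)`, `a n` the number of
ideals of norm `n`, converges by `LSeriesSummable_of_sum_norm_bigO_and_nonneg` with the partial sums
computed as in the proof of `NumberField.tendsto_sub_one_mul_dedekindZeta_nhdsGT`. The zero ideal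
contributes `0 ^ (-s) = 0`. -/
theorem zt_summable {s : ℝ} (hs : 1 < s) :
    Summable fun I : Ideal (𝓞 K) => (Ideal.absNorm I : ℝ) ^ (-s) := by
  rw [← (Equiv.sigmaFiberEquiv fun I : Ideal (𝓞 K) => Ideal.absNorm I).summable_iff]
  refine (summable_sigma_of_nonneg fun _ => Real.rpow_nonneg (Nat.cast_nonneg _) _).2
    ⟨fun n => (zeta_fib K s n).summable, ?_⟩
  exact (zeta_nat K hs).congr fun n => (zeta_fib K s n).tsum_eq.symm

theorem zeta_eq {s : ℝ} (hs : 1 < s) : (zt K s : ℂ) = dedekindZeta K s := by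
  have h1 := ((Equiv.sigmaFiberEquiv fun I : Ideal (𝓞 K) => Ideal.absNorm I).hasSum_iff.2
    (zt_summable K hs).hasSum).sigma fun n => zeta_fib K s n
  rw [zt, ← h1.tsum_eq, Complex.ofReal_tsum, dedekindZeta, LSeries]
  exact tsum_congr fun n => (zeta_term hs
    (fun n => (Nat.card {I : Ideal (𝓞 K) // Ideal.absNorm I = n} : ℝ)) n).symm

/-- `(zt K s : ℂ) = dedekindZeta K s` for `1 < s` (same regrouping), then take real parts in
`NumberField.tendsto_sub_one_mul_dedekindZeta_nhdsGT`; `dedekindZeta_residue_pos`. -/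
theorem zt_tendsto : ∃ ρ : ℝ, 0 < ρ ∧ Tendsto (fun s : ℝ => (s - 1) * zt K s) (𝓝[>] 1) (𝓝 ρ) := by
  refine ⟨_, dedekindZeta_residue_pos K, ?_⟩
  have h1 := (Complex.continuous_re.tendsto _).comp (tendsto_sub_one_mul_dedekindZeta_nhdsGT K)
  refine h1.congr' ?_
  filter_upwards [self_mem_nhdsWithin] with s hs
  rw [Function.comp_apply, ← zeta_eq K hs, ← Complex.ofReal_one, ← Complex.ofReal_sub,
    ← Complex.ofReal_mul, Complex.ofReal_re]

end M4.NT
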