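import Mathlib
import Pool.Agent.Lib.MP_33b3f9_ag.M4.ThBpf

/-!
Normal generation.
-/

set_option autoImplicit false

namespace M4

open Complex Matrix

variable {ι : Type} [Fintype ι] {τ : Matrix ι ι ℂ}

theorem Gam_mul_le (τ : Matrix ι ι ℂ) (m n : ℕ) (c c' : ι ⊕ ι → ℝ) :
    Gam τ m c * Gam τ n c' ≤ Gam τ (m + n) (c + c') :=
  Submodule.mul_le.2 fun _ hf _ hg => Gam.mul hf hg

theorem gen_U (hτ : τ.IsSymm) {m n : ℕ} {c c' : ι ⊕ ι → ℝ} {f : (ι ⊕ ι → ℝ) → ℂ}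
    (hf : f ∈ Gam τ m c * Gam τ n c') (t : ι ⊕ ι → ℝ) :
    U ((m + n : ℕ) : ℝ) t f ∈ Gam τ m (c + (m : ℝ) • t) * Gam τ n (c' + (n : ℝ) • t) := by
  refine Submodule.mul_induction_on hf (fun a ha b hb => ?_) (fun a b ha hb => ?_)
  · rw [Nat.cast_add, U_mul]
    exact Submodule.mul_mem_mul (Gam.U hτ ha t) (Gam.U hτ hb t)
  · rw [U_add]
    exact add_mem ha hb

theorem gen_ne (hτ : InH τ) {m : ℕ} (hm : m ≠ 0) (c : ι ⊕ ι → ℝ) : ∃ f ∈ Gam τ m c, f ≠ 0 := by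
  have h := Gam.U hτ.1 (Thm_mem hτ hm 0) ((m : ℝ)⁻¹ • c)
  rw [smul_smul, mul_inv_cancel₀ (Nat.cast_ne_zero.2 hm), one_smul, zero_add] at h
  exact ⟨_, h, fun e => Thm_ne_zero hτ hm 0 (U_eq_zero.1 e)⟩

/-- The supremum is stable under `U (m + n) (l / (m + n))` (`U_mul`, `Gam.U`, `Gam_add_rz`) and
not zero (`Hol.mul_ne_zero`); `Gam_irred`. -/
theorem iSup_Gam_mul (hτ : InH τ) {m n : ℕ} (hm : m ≠ 0) (hn : n ≠ 0) (c : ι ⊕ ι → ℝ) :
    ⨆ l : ι ⊕ ι → ℤ, Gam τ m (c + ((m : ℝ) / (m + n)) • rz l) *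
      Gam τ n (-(c + ((m : ℝ) / (m + n)) • rz l)) = Gam τ (m + n) 0 := by
  have hmn : m + n ≠ 0 := by omega
  have hr : (m : ℝ) + n ≠ 0 := by exact_mod_cast hmn
  refine Gam_irred hτ hmn (iSup_le fun l => ?_) ?_ fun k f hf => ?_
  · simpa only [add_neg_cancel] using Gam_mul_le τ m n (c + ((m : ℝ) / (m + n)) • rz l)
      (-(c + ((m : ℝ) / (m + n)) • rz l))
  · obtain ⟨f, hf, hf0⟩ := gen_ne hτ hm (c + ((m : ℝ) / (m + n)) • rz (0 : ι ⊕ ι → ℤ))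
    obtain ⟨g, hg, hg0⟩ := gen_ne hτ hn (-(c + ((m : ℝ) / (m + n)) • rz (0 : ι ⊕ ι → ℤ)))
    exact (Submodule.ne_bot_iff _).2 ⟨f * g,
      Submodule.mem_iSup_of_mem 0 (Submodule.mul_mem_mul hf hg),
      Hol.mul_ne_zero hτ hf.1 hg.1 hf0 hg0⟩
  · induction hf using Submodule.iSup_induction' with
    | mem l f hf =>
      have h := gen_U hτ.1 hf (((m + n : ℕ) : ℝ)⁻¹ • rz k)
      have e1 : c + ((m : ℝ) / (m + n)) • rz l + (m : ℝ) • (((m + n : ℕ) : ℝ)⁻¹ • rz k) =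
          c + ((m : ℝ) / (m + n)) • rz (l + k) := by
        rw [rz_add, smul_add, smul_smul, Nat.cast_add, ← div_eq_mul_inv, add_assoc]
      have e2 : -(c + ((m : ℝ) / (m + n)) • rz l) + (n : ℝ) • (((m + n : ℕ) : ℝ)⁻¹ • rz k) =
          -(c + ((m : ℝ) / (m + n)) • rz (l + k)) + rz k := by
        funext i
        simp only [rz_add, Pi.add_apply, Pi.neg_apply, Pi.smul_apply, smul_eq_mul, Nat.cast_add]
        field_simp
        ring
      rw [e1, e2, Gam_add_rz] at h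
      exact Submodule.mem_iSup_of_mem (l + k) h
    | zero =>
      rw [U_eq_zero.2 rfl]
      exact zero_mem _
    | add f g _ _ hf hg =>
      rw [U_add]
      exact add_mem hf hg

/-- `XX k x * XX k y = ∑ r, U 2 (k/2) (Thm r) (x + y) * Thm r (x - y)` (`U_Th_mul`), the factors
are values of `U 2 y _` and `U 2 (-y) _` (the phases cancel); `span_XX`. -/
theorem Gam_two_mul (hτ : InH τ) {y : ι ⊕ ι → ℝ} (hy : ∀ e : ι ⊕ ι → Fin 2, XX τ (bz e) y ≠ 0) :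
    Gam τ 2 ((2 : ℝ) • y) * Gam τ 2 (-((2 : ℝ) • y)) = Gam τ 4 0 := by
  classical
  refine le_antisymm ?_ ?_
  · simpa only [add_neg_cancel] using Gam_mul_le τ 2 2 ((2 : ℝ) • y) (-((2 : ℝ) • y))
  rw [← span_XX hτ, Submodule.span_le]
  rintro _ ⟨e, rfl⟩
  have key : XX τ (bz e) = (XX τ (bz e) y)⁻¹ • ∑ r : ι → Fin 2,
      U 2 y (U 2 (hf (bz e)) (Thm τ 2 (bz r))) * U 2 (-y) (Thm τ 2 (bz r)) := by
    funext x
    have h := U_Th_mul hτ (hf (bz e)) (x + y) (x - y)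
    have e1 : x + y + (x - y) = (2 : ℝ) • x := by rw [two_smul]; abel
    have e2 : x + y - (x - y) = (2 : ℝ) • y := by rw [two_smul]; abel
    rw [e1, e2] at h
    rw [Pi.smul_apply, smul_eq_mul, eq_inv_mul_iff_mul_eq₀ (hy e), mul_comm, XX, XX, h,
      Finset.sum_apply]
    refine Finset.sum_congr rfl fun r _ => ?_
    rw [Pi.mul_apply, U_apply 2 y, U_apply 2 (-y), mul_mul_mul_comm, ← ee_add, E_neg_left,
      ← sub_eq_add_neg x y]
    push_cast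
    rw [mul_neg, neg_div, add_neg_cancel, ee_zero, one_mul]
  show XX τ (bz e) ∈ _
  rw [key]
  refine Submodule.smul_mem _ _ (Submodule.sum_mem _ fun r _ => Submodule.mul_mem_mul ?_ ?_)
  · have h1 := Gam.U hτ.1 (Thm_mem hτ two_ne_zero (bz r)) (hf (bz e))
    rw [Nat.cast_ofNat, two_smul_hf, Gam_add_rz] at h1
    have h2 := Gam.U hτ.1 h1 y
    rwa [Nat.cast_ofNat, zero_add] at h2
  · have h2 := Gam.U hτ.1 (Thm_mem hτ two_ne_zero (bz r)) (-y)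
    rwa [Nat.cast_ofNat, zero_add, smul_neg] at h2

/-- Translate by `U 4 y`. -/
theorem Gam_two_mul' (hτ : InH τ) {y : ι ⊕ ι → ℝ} (hy : ∀ e : ι ⊕ ι → Fin 2, XX τ (bz e) y ≠ 0) :
    Gam τ 2 0 * Gam τ 2 ((4 : ℝ) • y) = Gam τ 4 ((4 : ℝ) • y) := by
  refine le_antisymm ?_ fun f hf => ?_
  · simpa only [zero_add] using Gam_mul_le τ 2 2 0 ((4 : ℝ) • y)
  have h1 := Gam.U hτ.1 hf (-y)
  rw [Nat.cast_ofNat, smul_neg, add_neg_cancel, ← Gam_two_mul hτ hy, mul_comm] at h1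
  have h2 := gen_U hτ.1 h1 y
  have h3 := U_neg_U 4 (-y) f
  have e1 : (2 : ℝ) • y + (2 : ℝ) • y = (4 : ℝ) • y := by
    rw [← add_smul]
    norm_num
  rw [neg_neg] at h3
  rwa [show ((2 + 2 : ℕ) : ℝ) = 4 by norm_num, h3, Nat.cast_ofNat, neg_add_cancel, e1] at h2

theorem gen_generic (hτ : InH τ) {N : ℕ} (hN : N ≠ 0) : ∃ y : ι ⊕ ι → ℝ,
    ∀ (l : ι ⊕ ι → ℤ) (e : ι ⊕ ι → Fin 2), XX τ (bz e) (y + (N : ℝ)⁻¹ • rz l) ≠ 0 := by
  obtain ⟨y, hy⟩ := exists_forall_ne_zero hτ (α := (ι ⊕ ι → Fin 2) × (ι ⊕ ι → Fin N))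
    (m := fun _ => ((4 : ℕ) : ℝ)) (f := fun p => XX τ (bz p.1)) (fun p => (XX_mem hτ _).1)
    (fun p => (linearIndependent_XX hτ).ne_zero p.1) (fun p => (N : ℝ)⁻¹ • rz (fz p.2))
    (fun _ => 1) (fun _ => one_ne_zero)
  refine ⟨y, fun l e => ?_⟩
  have hN' : (0 : ℤ) < N := by exact_mod_cast Nat.pos_of_ne_zero hN
  let r : ι ⊕ ι → Fin N := fun i => ⟨(l i % N).toNat, by
    have h1 := Int.emod_nonneg (l i) hN'.ne'
    have h2 := Int.emod_lt_of_pos (l i) hN'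
    omega⟩
  have hl : l = fz r + (N : ℤ) • fun i => l i / N := by
    funext i
    have h1 := Int.emod_nonneg (l i) hN'.ne'
    simp only [fz, r, Pi.add_apply, Pi.smul_apply, smul_eq_mul, Int.toNat_of_nonneg h1]
    exact (Int.emod_add_mul_ediv _ _).symm
  have e1 : y + (N : ℝ)⁻¹ • rz l = ((N : ℝ)⁻¹ • rz (fz r) + (1 : ℝ) • y) + rz fun i => l i / N := by
    conv_lhs => rw [hl]
    rw [rz_add, rz_smul, smul_add, smul_smul, Int.cast_natCast,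
      inv_mul_cancel₀ (Nat.cast_ne_zero.2 hN), one_smul, one_smul, add_comm _ y, add_assoc]
  rw [e1, ← norm_ne_zero_iff, Gam.norm_add_rz (XX_mem hτ _), norm_ne_zero_iff]
  exact hy (e, r)

/-- `iSup_Gam_mul` with `m = 4`, `n - 2` and `c = 4 y₀`, where `y₀` is such that `XX e` does not
vanish at the finitely many points `y₀ + l / (n + 2)`, `l` modulo `n + 2` (`Gam.norm_add_rz`,
`exists_forall_ne_zero`). -/
theorem Gam_two_mul_Gam (hτ : InH τ) {n : ℕ} (hn : 3 ≤ n) :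
    Gam τ 2 0 * Gam τ n 0 = Gam τ (n + 2) 0 := by
  refine le_antisymm ?_ ?_
  · simpa only [add_zero, add_comm 2 n] using Gam_mul_le τ 2 n 0 0
  obtain ⟨k, rfl⟩ : ∃ k, n = 2 + k := ⟨n - 2, by omega⟩
  have hk : k ≠ 0 := by omega
  obtain ⟨y, hy⟩ := gen_generic hτ (N := 4 + k) (by omega)
  rw [show 2 + k + 2 = 4 + k by omega, ← iSup_Gam_mul hτ four_ne_zero hk ((4 : ℝ) • y)]
  refine iSup_le fun l => ?_
  have e : (4 : ℝ) • y + (((4 : ℕ) : ℝ) / (((4 : ℕ) : ℝ) + k)) • rz l =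
      (4 : ℝ) • (y + ((4 + k : ℕ) : ℝ)⁻¹ • rz l) := by
    rw [smul_add, smul_smul, Nat.cast_add, Nat.cast_ofNat, div_eq_mul_inv]
  rw [e, ← Gam_two_mul' hτ (hy l), mul_assoc]
  refine mul_le_mul_right ?_ _
  simpa only [add_neg_cancel] using Gam_mul_le τ 2 k ((4 : ℝ) • (y + ((4 + k : ℕ) : ℝ)⁻¹ • rz l))
    (-((4 : ℝ) • (y + ((4 + k : ℕ) : ℝ)⁻¹ • rz l)))

theorem Gam_four_mul_Gam (hτ : InH τ) {n : ℕ} (hn : 3 ≤ n) :
    Gam τ 4 0 * Gam τ n 0 = Gam τ (n + 4) 0 := by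
  refine le_antisymm ?_ ?_
  · simpa only [add_zero, add_comm 4 n] using Gam_mul_le τ 4 n 0 0
  rw [show n + 4 = n + 2 + 2 by omega, ← Gam_two_mul_Gam hτ (n := n + 2) (by omega),
    ← Gam_two_mul_Gam hτ hn, ← mul_assoc]
  refine mul_le_mul_left ?_ _
  simpa only [add_zero] using Gam_mul_le τ 2 2 0 0

theorem Gam_four_pow (hτ : InH τ) {k : ℕ} (hk : k ≠ 0) : Gam τ 4 0 ^ k = Gam τ (4 * k) 0 := by
  obtain ⟨j, rfl⟩ := Nat.exists_eq_succ_of_ne_zero hk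
  clear hk
  induction j with
  | zero => simp
  | succ j ih =>
    rw [Nat.succ_eq_add_one, pow_succ', ih, Gam_four_mul_Gam hτ (by omega)]
    rfl

theorem gen_map (hτ : InH τ) (k : ℕ) :
    (MvPolynomial.homogeneousSubmodule (ι ⊕ ι → Fin 2) ℂ k).map
      (MvPolynomial.aeval fun e => XX τ (bz e)).toLinearMap = Gam τ 4 0 ^ k := by
  rw [← MvPolynomial.homogeneousSubmodule_one_pow, Submodule.map_pow,
    MvPolynomial.homogeneousSubmodule_one_eq_span_X, Submodule.map_span, ← Set.range_comp,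
    ← span_XX hτ]
  congr 3
  funext e
  simp

theorem gen_eval (P : MvPolynomial (ι ⊕ ι → Fin 2) ℂ) (x : ι ⊕ ι → ℝ) :
    MvPolynomial.aeval (fun e => XX τ (bz e)) P x =
      MvPolynomial.eval (fun e => XX τ (bz e) x) P := by
  induction P using MvPolynomial.induction_on with
  | C a => simp
  | add p q hp hq => simp [hp, hq]
  | mul_X p e hp => simp [hp]

theorem eval_XX_mem (hτ : InH τ) {k : ℕ} {P : MvPolynomial (ι ⊕ ι → Fin 2) ℂ}
    (hP : P.IsHomogeneous k) :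
    (fun x => MvPolynomial.eval (fun e => XX τ (bz e) x) P) ∈ Gam τ (4 * k) 0 := by
  have h : MvPolynomial.aeval (fun e => XX τ (bz e)) P ∈ Gam τ 4 0 ^ k :=
    gen_map hτ k ▸ Submodule.mem_map_of_mem hP
  rw [← funext (gen_eval P)]
  rcases eq_or_ne k 0 with rfl | hk
  · rw [pow_zero] at h
    exact Submodule.one_le.2 Gam.one h
  · rwa [Gam_four_pow hτ hk] at h

theorem exists_eval_XX (hτ : InH τ) {k : ℕ} (hk : k ≠ 0) {f : (ι ⊕ ι → ℝ) → ℂ}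
    (hf : f ∈ Gam τ (4 * k) 0) : ∃ P : MvPolynomial (ι ⊕ ι → Fin 2) ℂ, P.IsHomogeneous k ∧
      ∀ x, f x = MvPolynomial.eval (fun e => XX τ (bz e) x) P := by
  rw [← Gam_four_pow hτ hk, ← gen_map hτ k] at hf
  obtain ⟨P, hP, rfl⟩ := hf
  exact ⟨P, hP, gen_eval P⟩

end M4
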