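import Mathlib
import Pool.Agent.Lib.MP_33b3f9_ag.M4.ThGen
import Pool.Agent.Lib.MP_33b3f9_ag.M4.ThInj
import Pool.Agent.Lib.MP_33b3f9_ag.M4.ThNull2
import Pool.Agent.Lib.MP_33b3f9_ag.M4.ThExt
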