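import Pool.Agent.Lib.MP_33b3f9_ag.M4.ZSep

/-! Generic points. -/

namespace M4.Z
open MvPolynomial

variable {σ : Type} [Fintype σ] {d : ℕ} {y : Fin (d + 1) → MvPolynomial σ ℂ}

theorem aeval_pts {W : Set (Ideal (MvPolynomial σ ℂ))} {p : σ → Fb d} (hp : p ∈ Pts y W)
    (r : AA d) : aeval p (aeval y r) = algebraMap (AA d) (Fb d) r := by
  have h : (aeval p : MvPolynomial σ ℂ →ₐ[ℂ] Fb d).comp (aeval y) =
      IsScalarTower.toAlgHom ℂ (AA d) (Fb d) := by
    refine algHom_ext fun j => ?_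
    rw [AlgHom.comp_apply, aeval_X, hp.2 j]
    rfl
  exact AlgHom.congr_fun h r

theorem inj_Fb : Function.Injective (algebraMap (AA d) (Fb d)) := by
  rw [IsScalarTower.algebraMap_eq (AA d) (FractionRing (AA d)) (Fb d), RingHom.coe_comp]
  exact (algebraMap (FractionRing (AA d)) (Fb d)).injective.comp
    (IsFractionRing.injective (AA d) (FractionRing (AA d)))

theorem ptsa_root {W : Set (Ideal (MvPolynomial σ ℂ))} {p : σ → Fb d} (hp : p ∈ Pts y W)
    {q : Polynomial (AA d)} {i : σ}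
    (h : q.eval₂ (aeval y : AA d →ₐ[ℂ] MvPolynomial σ ℂ).toRingHom (X i) ∈
      RingHom.ker (aeval p : MvPolynomial σ ℂ →ₐ[ℂ] Fb d)) :
    q.eval₂ (algebraMap (AA d) (Fb d)) (p i) = 0 := by
  have h1 := Polynomial.hom_eval₂ q (aeval y : AA d →ₐ[ℂ] MvPolynomial σ ℂ).toRingHom
    (aeval p : MvPolynomial σ ℂ →ₐ[ℂ] Fb d).toRingHom (X i)
  have h2 : (aeval p : MvPolynomial σ ℂ →ₐ[ℂ] Fb d).toRingHom.comp
      (aeval y : AA d →ₐ[ℂ] MvPolynomial σ ℂ).toRingHom = algebraMap (AA d) (Fb d) :=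
    RingHom.ext fun r => aeval_pts hp r
  have h3 : (aeval p : MvPolynomial σ ℂ →ₐ[ℂ] Fb d).toRingHom (X i) = p i := aeval_X p i
  rw [h2, h3] at h1
  exact h1.symm.trans h

/-- The values at a generic point are integral over `AA d`. -/
theorem int_pts {W : Set (Ideal (MvPolynomial σ ℂ))} (hW : ∀ P ∈ W, NNd y P) {p : σ → Fb d}
    (hp : p ∈ Pts y W) (g : MvPolynomial σ ℂ) : IsIntegral (AA d) (aeval p g) := by
  induction g using MvPolynomial.induction_on with
  | C c =>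
    rw [aeval_C, IsScalarTower.algebraMap_apply ℂ (AA d) (Fb d)]
    exact isIntegral_algebraMap
  | add f g hf hg =>
    rw [map_add]
    exact hf.add hg
  | mul_X f i hf =>
    obtain ⟨q, h1, h2⟩ := (hW _ hp.1).1 i
    rw [map_mul, aeval_X]
    exact hf.mul ⟨q, h1, ptsa_root hp h2⟩

/-- Each coordinate is a root of one of finitely many monic polynomials. -/
theorem pts_finite {W : Set (Ideal (MvPolynomial σ ℂ))} (hf : W.Finite) (hW : ∀ P ∈ W, NNd y P) :
    (Pts y W).Finite := by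
  have h1 : ∀ P ∈ W, (Pts y {P}).Finite := by
    intro P hP
    choose q h1 h2 using (hW P hP).1
    refine (Set.Finite.pi' fun i => (q i).rootSet_finite (Fb d)).subset fun p hp i => ?_
    refine (h1 i).mem_rootSet.2 (ptsa_root hp ?_)
    rw [Set.mem_singleton_iff.1 hp.1]
    exact h2 i
  exact (hf.biUnion h1).subset fun p hp => Set.mem_biUnion hp.1 ⟨rfl, hp.2⟩

/-- `IsAlgClosed.lift` for the integral extension `AA d → S ⧸ P`; injective by
`Ideal.eq_bot_of_comap_eq_bot`. -/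
theorem pts_nonempty {P : Ideal (MvPolynomial σ ℂ)} (hP : P.IsPrime) (h : NNd y P) :
    (Pts y {P}).Nonempty := by
  let f : AA d →+* MvPolynomial σ ℂ ⧸ P :=
    (Ideal.Quotient.mk P).comp (aeval y : AA d →ₐ[ℂ] MvPolynomial σ ℂ).toRingHom
  let _ : Algebra (AA d) (MvPolynomial σ ℂ ⧸ P) := f.toAlgebra
  have h0 : ∀ r, algebraMap (AA d) (MvPolynomial σ ℂ ⧸ P) r = Ideal.Quotient.mk P (aeval y r) :=
    fun r => rfl
  have h1 : Function.Injective (algebraMap (AA d) (MvPolynomial σ ℂ ⧸ P)) :=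
    (injective_iff_map_eq_zero _).2 fun r hr => h.2 r (Ideal.Quotient.eq_zero_iff_mem.1 hr)
  have h2 : Algebra.IsIntegral (AA d) (MvPolynomial σ ℂ ⧸ P) := by
    refine ⟨fun x => ?_⟩
    obtain ⟨g, rfl⟩ := Ideal.Quotient.mk_surjective x
    induction g using MvPolynomial.induction_on with
    | C c =>
      have h3 := h0 (C c)
      rw [aeval_C, algebraMap_eq] at h3
      rw [← h3]
      exact isIntegral_algebraMap
    | add f g hf hg =>
      rw [map_add]
      exact hf.add hg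
    | mul_X g i hg =>
      obtain ⟨q, k1, k2⟩ := h.1 i
      rw [map_mul]
      refine hg.mul ⟨q, k1, ?_⟩
      exact (Polynomial.hom_eval₂ q _ (Ideal.Quotient.mk P) (X i)).symm.trans
        (Ideal.Quotient.eq_zero_iff_mem.2 k2)
  have h3 := (faithfulSMul_iff_algebraMap_injective _ _).2 h1
  have h4 := (faithfulSMul_iff_algebraMap_injective _ _).2 (inj_Fb (d := d))
  let φ : (MvPolynomial σ ℂ ⧸ P) →ₐ[AA d] Fb d := IsAlgClosed.lift
  have h5 : RingHom.ker φ = ⊥ := by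
    refine Ideal.eq_bot_of_comap_eq_bot (R := AA d) (eq_bot_iff.2 fun r hr => ?_)
    rw [Ideal.mem_comap, RingHom.mem_ker, φ.commutes] at hr
    exact (injective_iff_map_eq_zero _).1 inj_Fb r hr
  have h6 : ∀ g, aeval (fun i => φ (Ideal.Quotient.mk P (X i))) g = φ (Ideal.Quotient.mk P g) := by
    intro g
    induction g using MvPolynomial.induction_on with
    | C c =>
      have k := h0 (C c)
      rw [aeval_C, algebraMap_eq] at k
      rw [← k, φ.commutes, aeval_C, IsScalarTower.algebraMap_apply ℂ (AA d) (Fb d), algebraMap_eq]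
    | add f g hf hg => rw [map_add, map_add, map_add, hf, hg]
    | mul_X g i hg => rw [map_mul, map_mul, map_mul, hg, aeval_X]
  refine ⟨fun i => φ (Ideal.Quotient.mk P (X i)), ?_, fun j => ?_⟩
  · ext g
    rw [RingHom.mem_ker, h6, ← RingHom.mem_ker, h5, Ideal.mem_bot, Ideal.Quotient.eq_zero_iff_mem]
  · have k := h0 (X j)
    rw [aeval_X] at k
    rw [h6, ← k, φ.commutes, YY]

theorem pts_sum {W : Set (Ideal (MvPolynomial σ ℂ))} (hf : W.Finite) (hW : ∀ P ∈ W, NNd y P) :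
    ∑ P ∈ hf.toFinset, (Pts y {P}).ncard = (Pts y W).ncard := by
  classical
  have h1 := pts_finite hf hW
  rw [Set.ncard_eq_toFinset_card _ h1, Finset.card_eq_sum_card_fiberwise
    (f := fun p : σ → Fb d => RingHom.ker (aeval p : MvPolynomial σ ℂ →ₐ[ℂ] Fb d))
    (t := hf.toFinset) fun p hp => by simpa using (h1.mem_toFinset.1 hp).1]
  refine Finset.sum_congr rfl fun P hP => ?_
  rw [← Set.ncard_coe_finset]
  congr 1
  ext p
  rw [Finset.mem_coe, Finset.mem_filter, h1.mem_toFinset]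
  exact ⟨fun hp => ⟨⟨Set.mem_singleton_iff.1 hp.1 ▸ hf.mem_toFinset.1 hP, hp.2⟩, hp.1⟩,
    fun hp => ⟨hp.2, hp.1.2⟩⟩

theorem ptsb_deg {K : Type} [Field K] [Algebra ℂ K] (g : MvPolynomial σ ℂ) :
    (map (algebraMap ℂ K) g).totalDegree ≤ g.totalDegree :=
  Finset.sup_mono (support_map_subset _ g)

theorem ptsb_eval {K : Type} [Field K] [Algebra ℂ K] (p : σ → K) (g : MvPolynomial σ ℂ) :
    eval p (map (algebraMap ℂ K) g) = aeval p g := by
  rw [eval_map, aeval_def]

theorem ptsb_root {q : Ideal (MvPolynomial σ (Fb d))} (hq : q.IsPrime)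
    (h : ∀ j, map (algebraMap ℂ (Fb d)) (y j) - C (YY d j) ∈ q) {i : σ} {Q : Polynomial (AA d)}
    (hQ : Q.Monic) (hi : map (algebraMap ℂ (Fb d))
      (Q.eval₂ (aeval y : AA d →ₐ[ℂ] MvPolynomial σ ℂ).toRingHom (X i)) ∈ q) :
    ∃ c : Fb d, X i - C c ∈ q := by
  let ι : Fb d →+* MvPolynomial σ (Fb d) ⧸ q := (Ideal.Quotient.mk q).comp C
  have e : ((Ideal.Quotient.mk q).comp (map (algebraMap ℂ (Fb d)))).comp
      (aeval y : AA d →ₐ[ℂ] MvPolynomial σ ℂ).toRingHom = ι.comp (algebraMap (AA d) (Fb d)) := by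
    refine ringHom_ext (fun c => ?_) fun j => ?_
    · change Ideal.Quotient.mk q (map _ (aeval y (C c : AA d))) =
        Ideal.Quotient.mk q (C (algebraMap (AA d) (Fb d) (algebraMap ℂ (AA d) c)))
      rw [aeval_C, algebraMap_eq, map_C, ← IsScalarTower.algebraMap_apply]
    · change Ideal.Quotient.mk q (map _ (aeval y (X j : AA d))) = Ideal.Quotient.mk q (C (YY d j))
      rw [aeval_X]
      exact Ideal.Quotient.eq.2 (h j)
  have h1 : ((Q.map (algebraMap (AA d) (Fb d))).map ι).IsRoot (Ideal.Quotient.mk q (X i)) := by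
    have h2 := Polynomial.hom_eval₂ Q (aeval y : AA d →ₐ[ℂ] MvPolynomial σ ℂ).toRingHom
      ((Ideal.Quotient.mk q).comp (map (algebraMap ℂ (Fb d)))) (X i)
    rw [e, RingHom.comp_apply, RingHom.comp_apply, map_X, Ideal.Quotient.eq_zero_iff_mem.2 hi] at h2
    rw [Polynomial.IsRoot.def, Polynomial.map_map, Polynomial.eval_map, ← h2]
  obtain ⟨c, hc⟩ := (IsAlgClosed.splits _).mem_range_of_isRoot (hQ.map _).ne_zero h1
  exact ⟨c, Ideal.Quotient.eq.1 hc.symm⟩

/-- `sep_point` over `Fb d` for `G = map J ∪ {map (y j) - C (YY d j)}`. For a prime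
`G ⊆ q ≤ mx p` the preimage of `q` in `S` contains `J` and lies in `P = ker`, so is `P`; then each
`X i` is integral over `Fb d` modulo `q` (map the monic equation), so `q` is maximal
(`X i - C c ∈ q` for a root `c`, by factoring the monic polynomial over `Fb d`; `c = p i`). -/
theorem pts_sep (k : ℕ) (hk : 1 ≤ k) (hy : ∀ j, (y j).IsHomogeneous 1)
    (J : Set (MvPolynomial σ ℂ)) (hJ : ∀ g ∈ J, g.totalDegree ≤ k)
    {W : Set (Ideal (MvPolynomial σ ℂ))} (hW : ∀ P ∈ W, NNd y P)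
    (hm : ∀ P ∈ W, P ∈ (Ideal.span J).minimalPrimes) :
    Sep (Pts y W) (Fintype.card σ * k) := by
  intro p hp
  let G : Set (MvPolynomial σ (Fb d)) := map (algebraMap ℂ (Fb d)) '' J ∪
    Set.range fun j => map (algebraMap ℂ (Fb d)) (y j) - C (YY d j)
  have h0 : ∀ q ∈ Pts y W, ∀ f ∈ G, eval q f = 0 := by
    rintro q hq _ (⟨g, hg, rfl⟩ | ⟨j, rfl⟩)
    · rw [ptsb_eval]
      exact (hm _ hq.1).1.2 (Ideal.subset_span hg)
    · rw [map_sub, ptsb_eval, eval_C, hq.2, sub_self]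
  refine (sep_point k G ?_ p (h0 p hp) ?_).imp fun g h => ⟨h.1, h.2.1, fun q hq => h.2.2 q (h0 q hq)⟩
  · rintro _ (⟨g, hg, rfl⟩ | ⟨j, rfl⟩)
    · exact (ptsb_deg g).trans (hJ g hg)
    · exact (totalDegree_sub_C_le _ _).trans
        ((ptsb_deg _).trans ((hy j).totalDegree_le.trans hk))
  · intro q hq hG hle
    have h1 : RingHom.ker (aeval p : MvPolynomial σ ℂ →ₐ[ℂ] Fb d) ≤
        q.comap (map (algebraMap ℂ (Fb d))) := by
      refine (hm _ hp.1).2 ⟨hq.comap _, Ideal.span_le.2 fun g hg => hG (Or.inl ⟨g, hg, rfl⟩)⟩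
        fun g hg => ?_
      rw [RingHom.mem_ker, ← ptsb_eval]
      exact hle hg
    have h2 : ∀ i, X i - C (p i) ∈ q := by
      intro i
      obtain ⟨Q, hQ, hi⟩ := (hW _ hp.1).1 i
      obtain ⟨c, hc⟩ := ptsb_root hq (fun j => hG (Or.inr ⟨j, rfl⟩)) hQ (h1 hi)
      have h3 : eval p (X i - C c) = 0 := hle hc
      rw [map_sub, eval_X, eval_C, sub_eq_zero] at h3
      rwa [h3]
    refine le_antisymm hle fun f hf => ?_
    obtain ⟨B, -, hB⟩ := bez p f
    rw [show eval p f = 0 from hf, map_zero, sub_zero] at hB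
    rw [hB]
    exact Ideal.sum_mem _ fun j _ => Ideal.mul_mem_left _ _ (h2 j)

end M4.Z
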