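import Pool.Agent.Lib.MP_33b3f9_ag.M4.ZNs

/-! The prime ideal of a smooth germ. -/

namespace M4.Z
open MvPolynomial

open Filter Topology

variable {σ E : Type} [Fintype σ] [NormedAddCommGroup E] [NormedSpace ℂ E]

theorem germa_an (u : E → σ → ℂ) {z : E} (hu : AnalyticAt ℂ u z) (g : MvPolynomial σ ℂ) :
    AnalyticAt ℂ (fun s => eval (u s) g) z := by
  induction g using MvPolynomial.induction_on with
  | C a => simpa using analyticAt_const
  | add p q hp hq =>
    simp only [map_add]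
    exact hp.add hq
  | mul_X p i hp =>
    simp only [map_mul, eval_X]
    exact hp.mul (analyticAt_pi_iff.1 hu i)

theorem germa_mul {f g : E → ℂ} (hf : AnalyticAt ℂ f 0) (hg : AnalyticAt ℂ g 0)
    (h : ∀ᶠ s in 𝓝 (0 : E), f s * g s = 0) :
    (∀ᶠ s in 𝓝 (0 : E), f s = 0) ∨ ∀ᶠ s in 𝓝 (0 : E), g s = 0 := by
  obtain ⟨r, hr, hb⟩ := Metric.eventually_nhds_iff_ball.1
    (h.and (hf.eventually_analyticAt.and hg.eventually_analyticAt))
  have hm : Metric.ball (0 : E) r ∈ 𝓝 (0 : E) := Metric.ball_mem_nhds _ hr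
  by_cases h0 : ∀ z ∈ Metric.ball (0 : E) r, f z = 0
  · exact Or.inl (Filter.mem_of_superset hm h0)
  · push Not at h0
    obtain ⟨z, hz, hfz⟩ := h0
    have hG : AnalyticOnNhd ℂ g (Metric.ball (0 : E) r) := fun y hy => (hb y hy).2.2
    have h1 : g =ᶠ[𝓝 z] 0 := by
      filter_upwards [(hb z hz).2.1.continuousAt.eventually_ne hfz,
        Metric.isOpen_ball.mem_nhds hz] with y hy hy'
      exact (mul_eq_zero.1 (hb y hy').1).resolve_left hy
    have h2 := hG.eqOn_zero_of_preconnected_of_eventuallyEq_zero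
      (convex_ball (0 : E) r).isPreconnected hz h1
    exact Or.inr (Filter.mem_of_superset hm fun y hy => h2 hy)

/-- Identity theorem on a ball (`AnalyticOnNhd.eqOn_zero_of_preconnected_of_eventuallyEq_zero`). -/
theorem germ_prime (u : E → σ → ℂ) (hu : AnalyticAt ℂ u 0) :
    ∃ P : Ideal (MvPolynomial σ ℂ), P.IsPrime ∧
      ∀ g, g ∈ P ↔ ∀ᶠ s in 𝓝 (0 : E), eval (u s) g = 0 := by
  let P : Ideal (MvPolynomial σ ℂ) :=
    { carrier := {g | ∀ᶠ s in 𝓝 (0 : E), eval (u s) g = 0}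
      add_mem' := fun {a b} ha hb => by
        filter_upwards [ha, hb] with s h1 h2
        rw [map_add, h1, h2, add_zero]
      zero_mem' := Filter.Eventually.of_forall fun s => map_zero _
      smul_mem' := fun c {a} ha => by
        filter_upwards [ha] with s h1
        rw [smul_eq_mul, map_mul, h1, mul_zero] }
  refine ⟨P, ⟨?_, fun {a b} h => ?_⟩, fun g => Iff.rfl⟩
  · rw [Ideal.ne_top_iff_one]
    intro h
    have h1 : ∀ᶠ s in 𝓝 (0 : E), eval (u s) (1 : MvPolynomial σ ℂ) = 0 := h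
    simpa using h1.self_of_nhds
  · have h1 : ∀ᶠ s in 𝓝 (0 : E), eval (u s) (a * b) = 0 := h
    exact germa_mul (germa_an u hu a) (germa_an u hu b) (by simpa only [map_mul] using h1)

section GermB

variable [DecidableEq σ]

/-- differential of a polynomial at `y` -/
noncomputable def germb_dEval (p : MvPolynomial σ ℂ) (y : σ → ℂ) : (σ → ℂ) →L[ℂ] ℂ :=
  ∑ i, eval y (pderiv i p) • ContinuousLinearMap.proj i

omit [DecidableEq σ] in
lemma germb_dEval_apply (p : MvPolynomial σ ℂ) (y w : σ → ℂ) :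
    germb_dEval p y w = ∑ i, eval y (pderiv i p) * w i := by
  simp [germb_dEval]

lemma germb_hasFDerivAt_eval (p : MvPolynomial σ ℂ) (y : σ → ℂ) :
    HasFDerivAt (fun y => eval y p) (germb_dEval p y) y := by
  induction p using MvPolynomial.induction_on with
  | C c =>
    have h : germb_dEval (C c) y = 0 := by
      ext w
      simp [germb_dEval_apply]
    simp only [eval_C, h]
    exact hasFDerivAt_const c y
  | add p q hp hq =>
    have h : germb_dEval (p + q) y = germb_dEval p y + germb_dEval q y := by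
      ext w
      simp [germb_dEval_apply, add_mul, Finset.sum_add_distrib]
    simp only [map_add, h]
    exact hp.add hq
  | mul_X p k hp =>
    have h : germb_dEval (p * X k) y = eval y p • ContinuousLinearMap.proj k + y k • germb_dEval p y := by
      ext w
      simp [germb_dEval_apply, Pi.single_apply, add_mul, Finset.sum_add_distrib, apply_ite (eval y),
        Finset.mul_sum, mul_assoc]
    simp only [map_mul, eval_X, h]
    exact hp.mul (hasFDerivAt_apply k y)

/-- linear part of `p` at `x` -/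
noncomputable def germb_lin (x : σ → ℂ) (p : MvPolynomial σ ℂ) : MvPolynomial σ ℂ :=
  ∑ i, C (eval x (pderiv i p)) * X i

omit [DecidableEq σ] in
lemma germb_lin_hom (x : σ → ℂ) (p : MvPolynomial σ ℂ) : (germb_lin x p).IsHomogeneous 1 :=
  IsHomogeneous.sum _ _ _ fun i _ => (isHomogeneous_X ℂ i).C_mul _

omit [DecidableEq σ] in
lemma germb_lin_aeval (x : σ → ℂ) (p : MvPolynomial σ ℂ) (t : σ → MvPolynomial σ ℂ) :
    aeval t (germb_lin x p) = ∑ i, C (eval x (pderiv i p)) * t i := by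
  simp [germb_lin]

omit [DecidableEq σ] in
lemma germb_lin_eval (x : σ → ℂ) (p : MvPolynomial σ ℂ) (w : σ → ℂ) :
    eval w (germb_lin x p) = germb_dEval p x w := by
  simp [germb_lin, germb_dEval_apply]

omit [Fintype σ] [DecidableEq σ] in
lemma germb_t_mem (x : σ → ℂ) (i : σ) : (X i - C (x i) : MvPolynomial σ ℂ) ∈ mx x := by
  simp [mx, RingHom.mem_ker]

lemma germb_taylor (x : σ → ℂ) (p : MvPolynomial σ ℂ) :
    p - C (eval x p) - ∑ i, C (eval x (pderiv i p)) * (X i - C (x i)) ∈ mx x ^ 2 := by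
  induction p using MvPolynomial.induction_on with
  | C c => simp
  | add p q hp hq =>
    have h := add_mem hp hq
    simp only [map_add, add_mul, Finset.sum_add_distrib]
    refine (congrArg (· ∈ mx x ^ 2) ?_).mp h
    ring
  | mul_X p k hp =>
    have h1 : ∑ i, C (eval x (pderiv i p)) * (X i - C (x i)) ∈ mx x :=
      Ideal.sum_mem _ fun i _ => Ideal.mul_mem_left _ _ (germb_t_mem x i)
    have h2 := Ideal.mul_mem_mul h1 (germb_t_mem x k)
    rw [← pow_two] at h2
    have h := add_mem (Ideal.mul_mem_right (X k) _ hp) h2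
    have h3 : ∀ i, C (eval x (pderiv i (p * X k))) * (X i - C (x i))
        = (if i = k then C (eval x p) * (X k - C (x k)) else 0)
          + C (x k) * (C (eval x (pderiv i p)) * (X i - C (x i)) : MvPolynomial σ ℂ) := by
      intro i
      by_cases hi : i = k
      · subst hi
        simp
        ring
      · simp [hi, pderiv_X_of_ne (Ne.symm hi), mul_assoc]
    rw [Finset.sum_congr rfl fun i _ => h3 i, Finset.sum_add_distrib, ← Finset.mul_sum]
    refine (congrArg (· ∈ mx x ^ 2) ?_).mp h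
    simp
    ring

/-- `H` is the leading form of `g` -/
def germb_Sym (u : E → σ → ℂ) (J : Ideal (MvPolynomial σ ℂ)) (t : σ → MvPolynomial σ ℂ) (N : ℕ)
    (g H : MvPolynomial σ ℂ) : Prop :=
  g ∈ mx (u 0) ^ N ∧ aeval t H ∈ mx (u 0) ^ N ∧ g - aeval t H ∈ J ⊔ mx (u 0) ^ (N + 1) ∧
    ∀ s, Tendsto (fun r : ℂ => r⁻¹ ^ N * eval (u (r • s)) g) (𝓝[≠] 0)
      (𝓝 (eval (fderiv ℂ u 0 s) H))

omit [Fintype σ] [DecidableEq σ] in
lemma germb_Sym_mul {u : E → σ → ℂ} {J : Ideal (MvPolynomial σ ℂ)} {t : σ → MvPolynomial σ ℂ}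
    {N : ℕ} {g H g' H' : MvPolynomial σ ℂ} (h : germb_Sym u J t 1 g H)
    (h' : germb_Sym u J t N g' H') : germb_Sym u J t (N + 1) (g * g') (H * H') := by
  obtain ⟨a1, a2, a3, a4⟩ := h
  obtain ⟨b1, b2, b3, b4⟩ := h'
  have hm : ∀ (k l : ℕ) (p q : MvPolynomial σ ℂ), p ∈ J ⊔ mx (u 0) ^ k → q ∈ mx (u 0) ^ l →
      p * q ∈ J ⊔ mx (u 0) ^ (k + l) := fun k l p q hp hq => by
    obtain ⟨y, hy, z, hz, rfl⟩ := Submodule.mem_sup.1 hp
    rw [add_mul, pow_add]
    exact Submodule.add_mem_sup (J.mul_mem_right _ hy) (Ideal.mul_mem_mul hz hq)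
  refine ⟨?_, ?_, ?_, fun s => ?_⟩
  · rw [add_comm, pow_add]
    exact Ideal.mul_mem_mul a1 b1
  · rw [add_comm, pow_add, map_mul]
    exact Ideal.mul_mem_mul a2 b2
  · have h1 := hm _ _ _ _ a3 b1
    have h2 := hm _ _ _ _ b3 a2
    rw [show 1 + 1 + N = N + 1 + 1 by ring] at h1
    refine (congrArg (· ∈ J ⊔ mx (u 0) ^ (N + 1 + 1)) ?_).mp (add_mem h1 h2)
    rw [map_mul]
    ring
  · rw [map_mul]
    refine ((a4 s).mul (b4 s)).congr fun r => ?_
    rw [map_mul]
    ring

lemma germb_Sym_exists {u : E → σ → ℂ} (hu : DifferentiableAt ℂ u 0)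
    {J : Ideal (MvPolynomial σ ℂ)} {t : σ → MvPolynomial σ ℂ} (ht : ∀ i, t i ∈ mx (u 0))
    (ht' : ∀ i, X i - C (u 0 i) - t i ∈ J ⊔ mx (u 0) ^ 2) (N : ℕ) (g : MvPolynomial σ ℂ)
    (hg : g ∈ mx (u 0) ^ N) : ∃ H, germb_Sym u J t N g H := by
  have hd : ∀ (p : MvPolynomial σ ℂ) (s : E), HasDerivAt (fun r : ℂ => eval (u (r • s)) p)
      (germb_dEval p (u 0) (fderiv ℂ u 0 s)) 0 := fun p s => by
    have h1 : HasDerivAt (fun r : ℂ => r • s) s 0 := by
      simpa using (hasDerivAt_id (0 : ℂ)).smul_const s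
    have h2 := (germb_hasFDerivAt_eval p (u 0)).comp 0 hu.hasFDerivAt
    exact h2.comp_hasDerivAt_of_eq 0 h1 (zero_smul ℂ s).symm
  induction hg using Submodule.pow_induction_on_left' with
  | algebraMap g =>
    refine ⟨C (eval (u 0) g), by simp, by simp, Submodule.mem_sup_right ?_, fun s => ?_⟩
    · simp [mx, RingHom.mem_ker]
    · have h := (hd g s).continuousAt.tendsto.mono_left (nhdsWithin_le_nhds (s := {0}ᶜ))
      simpa using h
  | add x y i _ _ hx hy =>
    obtain ⟨H, a1, a2, a3, a4⟩ := hx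
    obtain ⟨H', b1, b2, b3, b4⟩ := hy
    refine ⟨H + H', add_mem a1 b1, map_add (aeval t) H H' ▸ add_mem a2 b2, ?_, fun s => ?_⟩
    · refine (congrArg (· ∈ J ⊔ mx (u 0) ^ (i + 1)) ?_).mp (add_mem a3 b3)
      rw [map_add]
      ring
    · rw [map_add]
      refine ((a4 s).add (b4 s)).congr fun r => ?_
      rw [map_add]
      ring
  | mem_mul p hp i y _ hy =>
    obtain ⟨H, hH⟩ := hy
    have hp0 : eval (u 0) p = 0 := hp
    refine ⟨germb_lin (u 0) p * H, germb_Sym_mul ⟨?_, ?_, ?_, fun s => ?_⟩ hH⟩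
    · rwa [pow_one]
    · rw [pow_one, germb_lin_aeval]
      exact Ideal.sum_mem _ fun k _ => Ideal.mul_mem_left _ _ (ht k)
    · have h1 : ∑ k, C (eval (u 0) (pderiv k p)) * (X k - C (u 0 k) - t k) ∈ J ⊔ mx (u 0) ^ 2 :=
        Ideal.sum_mem _ fun k _ => Ideal.mul_mem_left _ _ (ht' k)
      have h2 := add_mem (Submodule.mem_sup_right (S := J) (germb_taylor (u 0) p)) h1
      have h3 : p - C (eval (u 0) p) - ∑ k, C (eval (u 0) (pderiv k p)) * (X k - C (u 0 k))
          + ∑ k, C (eval (u 0) (pderiv k p)) * (X k - C (u 0 k) - t k)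
          = p - aeval t (germb_lin (u 0) p) := by
        simp only [germb_lin_aeval, hp0, map_zero, mul_sub _ _ (t _), Finset.sum_sub_distrib]
        ring
      rw [h3] at h2
      rw [one_add_one_eq_two]
      exact h2
    · have h := (hd p s).tendsto_slope_zero
      rw [germb_lin_eval]
      simpa [hp0] using h

end GermB

/-- Let `m = mx x`, `t b = X b - C (x b)` for `b` outside the range of `j`. `m = (ψ) + (t) + m ^ 2`,
so every `g` is `h(t)` modulo `(ψ) + m ^ N`. Along a line `r ↦ u (r • s) = x + r • β r`, elements of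
`m ^ N` are `r ^ N * ρ r` with `ρ` continuous at `0`; `s ↦ (fderiv u 0 s)` restricted to the
coordinates outside `j` is bijective; so the components of `h` of degree `< N` vanish and
`g ∈ (ψ) + m ^ N`. Krull: `Ideal.iInf_pow_eq_bot_of_isDomain` in `S ⧸ q`. -/
theorem germ_le [FiniteDimensional ℂ E] (e d : ℕ) (hσ : Fintype.card σ = e + d + 1)
    (hE : Module.finrank ℂ E = d + 1) (u : E → σ → ℂ) (hu : DifferentiableAt ℂ u 0)
    (hinj : Function.Injective (fderiv ℂ u 0)) (ψ : Fin e → MvPolynomial σ ℂ) (j : Fin e → σ)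
    (hψ : ∀ a, ∀ᶠ s in 𝓝 (0 : E), eval (u s) (ψ a) = 0)
    (hj : eval (u 0) (Matrix.of fun a b => pderiv (j b) (ψ a)).det ≠ 0)
    (q : Ideal (MvPolynomial σ ℂ)) (hq : q.IsPrime) (hψq : ∀ a, ψ a ∈ q) (hqm : q ≤ mx (u 0))
    (g : MvPolynomial σ ℂ) (hg : ∀ᶠ s in 𝓝 (0 : E), eval (u s) g = 0) : g ∈ q := by
  classical
  let G : (σ → ℂ) →L[ℂ] (Fin e → ℂ) := ContinuousLinearMap.pi fun a => germb_dEval (ψ a) (u 0)
  let M : Matrix (Fin e) (Fin e) ℂ := Matrix.of fun a b => eval (u 0) (pderiv (j b) (ψ a))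
  have hM : M.det ≠ 0 := by
    rw [RingHom.map_det] at hj
    exact hj
  have hG : Function.Surjective G := fun r => by
    refine ⟨∑ b, Pi.single (j b) (M⁻¹.mulVec r b), funext fun i => ?_⟩
    have h1 : M.mulVec (M⁻¹.mulVec r) i = r i := by
      rw [Matrix.mulVec_mulVec, Matrix.mul_nonsing_inv M (isUnit_iff_ne_zero.2 hM),
        Matrix.one_mulVec]
    rw [← h1, map_sum, Finset.sum_apply]
    refine Finset.sum_congr rfl fun b _ => ?_
    change germb_dEval (ψ i) (u 0) _ = _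
    simp [germb_dEval_apply, Pi.single_apply, M]
  have hrk : LinearMap.range (fderiv ℂ u 0 : E →ₗ[ℂ] σ → ℂ)
      = LinearMap.ker (G : (σ → ℂ) →ₗ[ℂ] (Fin e → ℂ)) := by
    refine Submodule.eq_of_le_of_finrank_eq ?_ ?_
    · rintro _ ⟨s, rfl⟩
      funext a
      have h2 := (germb_hasFDerivAt_eval (ψ a) (u 0)).comp 0 hu.hasFDerivAt
      have h3 : HasFDerivAt ((fun y => eval y (ψ a)) ∘ u) (0 : E →L[ℂ] ℂ) 0 :=
        (hasFDerivAt_const (0 : ℂ) (0 : E)).congr_of_eventuallyEq (hψ a)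
      exact DFunLike.congr_fun (h2.unique h3) s
    · have h1 := LinearMap.finrank_range_add_finrank_ker (G : (σ → ℂ) →ₗ[ℂ] (Fin e → ℂ))
      rw [LinearMap.range_eq_top.2 hG, finrank_top, Module.finrank_fintype_fun_eq_card,
        Module.finrank_fintype_fun_eq_card, Fintype.card_fin, hσ] at h1
      rw [LinearMap.finrank_range_of_inj hinj, hE]
      omega
  choose c hc using fun a : Fin e => hG (Pi.single a 1)
  let A : Fin e → MvPolynomial σ ℂ := fun a =>
    ∑ i, C (eval (u 0) (pderiv i (ψ a))) * (X i - C (u 0 i))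
  let t : σ → MvPolynomial σ ℂ := fun i => X i - C (u 0 i) - ∑ a, C (c a i) * A a
  let J : Ideal (MvPolynomial σ ℂ) := Ideal.span (Set.range ψ)
  have hA : ∀ a, A a ∈ mx (u 0) := fun a =>
    Ideal.sum_mem _ fun i _ => Ideal.mul_mem_left _ _ (germb_t_mem _ i)
  have ht : ∀ i, t i ∈ mx (u 0) := fun i =>
    sub_mem (germb_t_mem _ i) (Ideal.sum_mem _ fun a _ => Ideal.mul_mem_left _ _ (hA a))
  have ht' : ∀ i, X i - C (u 0 i) - t i ∈ J ⊔ mx (u 0) ^ 2 := fun i => by
    rw [sub_sub_cancel]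
    refine Ideal.sum_mem _ fun a _ => Ideal.mul_mem_left _ _ ?_
    have h1 := germb_taylor (u 0) (ψ a)
    rw [(hψ a).self_of_nhds, map_zero, sub_zero] at h1
    have h2 := sub_mem (Submodule.mem_sup_left (T := mx (u 0) ^ 2)
      (Ideal.subset_span ⟨a, rfl⟩ : ψ a ∈ J)) (Submodule.mem_sup_right (S := J) h1)
    rwa [sub_sub_cancel] at h2
  have hy : ∀ y : σ → ℂ, ∃ s, fderiv ℂ u 0 s = fun i => eval y (t i) := fun y => by
    have h1 : (fun i => eval y (t i)) = (y - u 0) - ∑ a, G (y - u 0) a • c a := by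
      funext i
      simp [t, A, G, germb_dEval_apply, mul_comm]
    have h2 : (y - u 0) - ∑ a, G (y - u 0) a • c a
        ∈ LinearMap.ker (G : (σ → ℂ) →ₗ[ℂ] (Fin e → ℂ)) := by
      change G _ = 0
      rw [map_sub G (y - u 0), map_sum, sub_eq_zero]
      simp only [map_smul, hc]
      funext a
      simp [Pi.single_apply]
    rw [← hrk, ← h1] at h2
    exact h2
  have hJ : ∀ p ∈ J, ∀ᶠ s in 𝓝 (0 : E), eval (u s) p = 0 := fun p hp => by
    obtain ⟨f, rfl⟩ := Ideal.mem_span_range_iff_exists_fun.1 hp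
    filter_upwards [eventually_all.2 hψ] with s hs
    simp [hs]
  have hN : ∀ N, g ∈ J ⊔ mx (u 0) ^ N := fun N => by
    induction N with
    | zero => exact Submodule.mem_sup_right (by simp)
    | succ N ih =>
      obtain ⟨p, hp, z, hz, rfl⟩ := Submodule.mem_sup.1 ih
      obtain ⟨H, -, -, h3, h4⟩ := germb_Sym_exists hu ht ht' N z hz
      have hz0 : ∀ᶠ s in 𝓝 (0 : E), eval (u s) z = 0 := by
        filter_upwards [hg, hJ p hp] with s h1 h2
        rwa [map_add, h2, zero_add] at h1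
      have h5 : ∀ s, eval (fderiv ℂ u 0 s) H = 0 := fun s => by
        have h6 : Tendsto (fun r : ℂ => r • s) (𝓝[≠] 0) (𝓝 0) :=
          ((continuous_id.smul continuous_const).tendsto' 0 0 (zero_smul ℂ s)).mono_left
            nhdsWithin_le_nhds
        refine tendsto_nhds_unique (h4 s) (tendsto_const_nhds.congr' ?_)
        filter_upwards [h6.eventually hz0] with r hr
        rw [hr, mul_zero]
      have h7 : aeval t H = 0 := MvPolynomial.funext fun y => by
        obtain ⟨s, hs⟩ := hy y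
        rw [map_zero, ← h5 s, hs]
        exact (map_aeval t (eval y) H).trans (by
          rw [show (eval y).comp (algebraMap ℂ (MvPolynomial σ ℂ)) = RingHom.id ℂ from
            RingHom.ext fun r => eval_C r]
          rfl)
      rw [h7, sub_zero] at h3
      exact add_mem (Submodule.mem_sup_left hp) h3
  have hne : (mx (u 0)).map (Ideal.Quotient.mk q) ≠ ⊤ := fun h => by
    have h1 := congrArg (Ideal.comap (Ideal.Quotient.mk q)) h
    rw [Ideal.comap_map_of_surjective _ Ideal.Quotient.mk_surjective, ← RingHom.ker_eq_comap_bot,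
      Ideal.mk_ker, sup_eq_left.2 hqm, Ideal.comap_top] at h1
    exact RingHom.ker_ne_top _ h1
  have hk := Ideal.iInf_pow_eq_bot_of_isDomain _ hne
  rw [← Ideal.Quotient.eq_zero_iff_mem, ← Ideal.mem_bot, ← hk, Ideal.mem_iInf]
  intro N
  obtain ⟨p, hp, z, hz, rfl⟩ := Submodule.mem_sup.1 (hN N)
  have hpq : p ∈ q := (Ideal.span_le.2 (Set.range_subset_iff.2 hψq)) hp
  rw [map_add, Ideal.Quotient.eq_zero_iff_mem.2 hpq, zero_add, ← Ideal.map_pow]
  exact Ideal.mem_map_of_mem _ hz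

/-- `germ_prime`, `germ_le`, `ns`, `dm_lt`. -/
theorem germ_eq [FiniteDimensional ℂ E] (e d : ℕ) (hσ : Fintype.card σ = e + d + 1)
    (hE : Module.finrank ℂ E = d + 1) (u : E → σ → ℂ) (hu : AnalyticAt ℂ u 0)
    (hinj : Function.Injective (fderiv ℂ u 0)) (ψ : Fin e → MvPolynomial σ ℂ) (j : Fin e → σ)
    (hψ : ∀ a, ∀ᶠ s in 𝓝 (0 : E), eval (u s) (ψ a) = 0)
    (hj : eval (u 0) (Matrix.of fun a b => pderiv (j b) (ψ a)).det ≠ 0)
    (q : Ideal (MvPolynomial σ ℂ)) (hq : q.IsPrime) (hψq : ∀ a, ψ a ∈ q) (hqm : q ≤ mx (u 0))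
    (hd : d + 1 ≤ dm ℂ q) (g : MvPolynomial σ ℂ) :
    g ∈ q ↔ ∀ᶠ s in 𝓝 (0 : E), eval (u s) g = 0 := by
  obtain ⟨P, hP, hm⟩ := germ_prime u hu
  have hle : P ≤ q := fun f hf => germ_le e d hσ hE u hu.differentiableAt hinj ψ j hψ hj q hq hψq
    hqm f ((hm f).1 hf)
  have hd' := ns e d hσ P hP ψ j (fun a => (hm _).2 (hψ a))
    (fun h => hj ((hm _).1 h).self_of_nhds)
  rcases hle.eq_or_lt with h | h
  · rw [← h, hm]
  · have := dm_lt (k := ℂ) hP hq h
    omega

end M4.Z
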