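import Pool.Agent.Lib.MP_33b3f9_ag.Stmt

open Matrix

namespace Pool.Agent.M4

open Pool.Agent.Lib.MP_33b3f9_ag

noncomputable section

/-- Index set of the lattice basis. -/
abbrev ν : Type := Fin 4 ⊕ Fin 4

/-- `τ` lies in the Siegel upper half space of degree 4. -/
def Siegel (τ : Matrix (Fin 4) (Fin 4) ℂ) : Prop := τ.IsSymm ∧ (τ.map Complex.im).PosDef

/-- The theta function with characteristic `(a, b)`. -/
def theta (τ : Matrix (Fin 4) (Fin 4) ℂ) (a b z : Fin 4 → ℂ) : ℂ :=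
  ∑' n : Fin 4 → ℤ, Complex.exp (Real.pi * Complex.I *
    (((fun i => (n i : ℂ)) + a) ⬝ᵥ (τ *ᵥ ((fun i => (n i : ℂ)) + a) + (2 : ℂ) • (z + b))))

/-- The point `τ a + b` of `ℂ^4` with real coordinates `x = (a, b)`. -/
def per (τ : Matrix (Fin 4) (Fin 4) ℂ) (x : ν → ℝ) : Fin 4 → ℂ :=
  τ *ᵥ (fun i => (x (.inl i) : ℂ)) + fun i => (x (.inr i) : ℂ)

/-- The 256 homogeneous coordinates `θ[ε/2](2 z)` of the point `z = τ a + b` of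
`A = ℂ^4 / (τ ℤ^4 + ℤ^4)`. -/
def coord (τ : Matrix (Fin 4) (Fin 4) ℂ) (x : ν → ℚ) (ε : ν → Fin 2) : ℂ :=
  theta τ (fun i => ((ε (.inl i) : ℕ) : ℂ) / 2) (fun i => ((ε (.inr i) : ℕ) : ℂ) / 2)
    ((2 : ℂ) • per τ fun i => (x i : ℝ))

/-- `K` contains the eighth roots of unity and the ratios of the theta constants. -/
def DefinedOver (τ : Matrix (Fin 4) (Fin 4) ℂ) (K : IntermediateField ℚ ℂ) : Prop :=
  Complex.exp (Real.pi * Complex.I / 4) ∈ K ∧ ∀ ε ε', coord τ 0 ε / coord τ 0 ε' ∈ K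

/-- Integral matrices as `ℓ`-adic matrices. -/
def toQ {ℓ : ℕ} [Fact ℓ.Prime] (g : GL ν ℤ_[ℓ]) : GL ν ℚ_[ℓ] :=
  Matrix.GeneralLinearGroup.map PadicInt.Coe.ringHom g

/-- `r ℓ σ` is the matrix of `σ` on the `ℓ`-adic Tate module in the lattice basis: `σ` maps the
torsion point `x` to the torsion point `y` when `y = r ℓ σ x` modulo `ℤ_ℓ^8` for all `ℓ`. -/
def IsTate (τ : Matrix (Fin 4) (Fin 4) ℂ) (K : IntermediateField ℚ ℂ)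
    (r : ∀ (ℓ : ℕ) [Fact ℓ.Prime], (ℂ ≃ₐ[K] ℂ) →* GL ν ℤ_[ℓ]) : Prop :=
  ∀ (σ : ℂ ≃ₐ[K] ℂ) (x y : ν → ℚ),
    (∀ (ℓ : ℕ) [Fact ℓ.Prime] (i : ν),
      ‖((toQ (r ℓ σ) : Matrix ν ν ℚ_[ℓ]) *ᵥ fun j => (x j : ℚ_[ℓ])) i - (y i : ℚ_[ℓ])‖ ≤ 1) →
    ∃ c : ℂ, ∀ ε, σ (coord τ x ε) = c * coord τ y ε

/-- The tensor product of three `2 × 2` matrices. -/
def tp {R : Type*} [CommRing R] (h : Fin 3 → Matrix (Fin 2) (Fin 2) R) :
    Matrix (Fin 3 → Fin 2) (Fin 3 → Fin 2) R :=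
  Matrix.of fun i j => ∏ s, h s (i s) (j s)

/-- `N` is a rational form of the tensor product of the three conjugates of a `2 × 2` matrix over
the cubic field `F`. -/
def IsTensInd {F : Type} [Field F] (N : Matrix (Fin 2) (Fin 2) F → Matrix ν ν ℚ) : Prop :=
  ∃ (s : Fin 3 → F →+* AlgebraicClosure ℚ) (P : Matrix ν (Fin 3 → Fin 2) (AlgebraicClosure ℚ))
    (Q : Matrix (Fin 3 → Fin 2) ν (AlgebraicClosure ℚ)), s.Injective ∧ P * Q = 1 ∧ Q * P = 1 ∧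
    ∀ g, (N g).map (algebraMap ℚ _) = P * tp (fun i => g.map (s i)) * Q

/-- In some basis of the Tate module the image of `r` lies in the closure of `ℤ N(M_2(O_F))`, and
modulo `ℓ` it contains `N(SL_2(O_F))`. -/
def BigImage {F : Type} [Field F] (N : Matrix (Fin 2) (Fin 2) F → Matrix ν ν ℚ) {Γ : Type}
    [Group Γ] {ℓ : ℕ} [Fact ℓ.Prime] (r : Γ →* GL ν ℤ_[ℓ]) : Prop :=
  ∃ B : GL ν ℤ_[ℓ],
    (∀ (σ : Γ) (n : ℕ), ∃ (z : ℤ) (g : Matrix (Fin 2) (Fin 2) (NumberField.RingOfIntegers F)),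
      ∀ i j, ‖(toQ (B⁻¹ * r σ * B) : Matrix ν ν ℚ_[ℓ]) i j - z * (N (g.map (↑)) i j : ℚ_[ℓ])‖ ≤
        (ℓ : ℝ) ^ (-n : ℤ)) ∧
    ∀ g : Matrix (Fin 2) (Fin 2) (NumberField.RingOfIntegers F), g.det = 1 → ∃ σ : Γ,
      ∀ i j, ‖(toQ (B⁻¹ * r σ * B) : Matrix ν ν ℚ_[ℓ]) i j - (N (g.map (↑)) i j : ℚ_[ℓ])‖ < 1

/-- The set `G` contains a conjugate of the image of `GL_2 × GL_2 × GL_2` in `GL_8`. -/
def HasCube {Ω : Type} [Field Ω] (G : Set (GL ν Ω)) : Prop :=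
  ∃ (P : Matrix ν (Fin 3 → Fin 2) Ω) (Q : Matrix (Fin 3 → Fin 2) ν Ω), P * Q = 1 ∧ Q * P = 1 ∧
    ∀ (g : GL ν Ω) (h : Fin 3 → Matrix (Fin 2) (Fin 2) Ω),
      (g : Matrix ν ν Ω) = P * tp h * Q → g ∈ G

end

end Pool.Agent.M4
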