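import Pool.Agent.Lib.MP_33b3f9_ag.M4.ZDefs

/-! Forms spanning a space of values. -/

namespace M4.Z
open MvPolynomial

/-- The span over `K` of `Φ (map S_c)` is everything: a monomial of degree `≤ c` times a power of
`l` is a form of degree `c`. Then `exists_linearIndependent` (or `exists_basis_of_span`). -/
theorem span_forms {K σ V : Type} [Field K] [Algebra ℂ K] [AddCommGroup V] [Module K V]
    [Module.Finite K V] (Φ : MvPolynomial σ K →ₗ[K] V) (c : ℕ)
    (hΦ : ∀ v, ∃ g : MvPolynomial σ K, g.totalDegree ≤ c ∧ Φ g = v)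
    (l : MvPolynomial σ ℂ) (hl : l.IsHomogeneous 1) (t : K) (ht : t ≠ 0)
    (hlt : ∀ g, Φ (map (algebraMap ℂ K) l * g) = t • Φ g) :
    ∃ b : Fin (Module.finrank K V) → MvPolynomial σ ℂ, (∀ i, (b i).IsHomogeneous c) ∧
      LinearIndependent K fun i => Φ (map (algebraMap ℂ K) (b i)) := by
  have h1 : ∀ (n : ℕ) g, Φ (map (algebraMap ℂ K) (l ^ n) * g) = t ^ n • Φ g := fun n g => by
    induction n with
    | zero => rw [pow_zero, map_one, one_mul, pow_zero, one_smul]
    | succ n ih => rw [pow_succ', map_mul (map _), mul_assoc, hlt, ih, smul_smul, pow_succ']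
  have h2 : Submodule.span K {v | ∃ f : MvPolynomial σ ℂ, f.IsHomogeneous c ∧
      Φ (map (algebraMap ℂ K) f) = v} = ⊤ := by
    refine eq_top_iff.2 fun v _ => ?_
    obtain ⟨g, hg, rfl⟩ := hΦ v
    rw [g.as_sum, map_sum]
    refine Submodule.sum_mem _ fun m hm => ?_
    have h3 : m.degree ≤ c := (le_totalDegree hm).trans hg
    have h4 : Φ (monomial m (coeff m g)) = (coeff m g * (t ^ (c - m.degree))⁻¹) •
        Φ (map (algebraMap ℂ K) (l ^ (c - m.degree) * monomial m 1)) := by
      rw [map_mul, h1, smul_smul, inv_mul_cancel_right₀ (pow_ne_zero _ ht), map_monomial, map_one,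
        ← map_smul, smul_monomial, smul_eq_mul, mul_one]
    rw [h4]
    refine Submodule.smul_mem _ _ (Submodule.subset_span ⟨_, ?_, rfl⟩)
    have h5 := (hl.pow (c - m.degree)).mul (isHomogeneous_monomial (d := m) 1 rfl)
    rwa [one_mul, Nat.sub_add_cancel h3] at h5
  have h3 := Submodule.exists_fun_fin_finrank_span_eq K {v | ∃ f : MvPolynomial σ ℂ,
    f.IsHomogeneous c ∧ Φ (map (algebraMap ℂ K) f) = v}
  rw [h2, finrank_top] at h3
  obtain ⟨f, k1, -, k2⟩ := h3
  choose b k3 k4 using k1
  exact ⟨b, k3, (funext k4).symm ▸ k2⟩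

/-- Independent rows give a non zero maximal minor. -/
theorem spanb_minor {K σ : Type} [Field K] [Fintype σ] {e : ℕ} (v : Fin e → σ → K)
    (hv : LinearIndependent K v) :
    ∃ j : Fin e → σ, (Matrix.of fun a b => v a (j b)).det ≠ 0 := by
  classical
  have hr : (Matrix.of v).rank = e := by
    have := LinearIndependent.rank_matrix (M := Matrix.of v) hv
    simpa using this
  rw [Matrix.rank_eq_finrank_span_cols] at hr
  obtain ⟨κ, a, ha, hsp, hli⟩ := exists_linearIndependent' K (Matrix.of v).col
  have : Fintype κ := Fintype.ofInjective a ha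
  have hc : Fintype.card κ = e := by
    rw [← hr, ← hsp, finrank_span_eq_card hli]
  let q : Fin e ≃ κ := (Fintype.equivFinOfCardEq hc).symm
  refine ⟨a ∘ q, ?_⟩
  have h2 : LinearIndependent K (Matrix.of fun x y => v x ((a ∘ q) y)).col :=
    hli.comp q q.injective
  exact ((Matrix.isUnit_iff_isUnit_det _).1
    (Matrix.linearIndependent_cols_iff_isUnit.1 h2)).ne_zero

theorem spanb_lt {K σ : Type} [Field K] [Fintype σ] (e : ℕ) (E : Set (σ → K))
    (hE : ∀ (v : Fin e → σ → K) (j : Fin e → σ), (∀ a, v a ∈ E) →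
      (Matrix.of fun a b => v a (j b)).det = 0) :
    Module.finrank K (Submodule.span K E) < e := by
  classical
  by_contra hlt
  rw [not_lt] at hlt
  obtain ⟨κ, a, -, hsp, hli⟩ := exists_linearIndependent' K (Subtype.val : E → σ → K)
  have : Finite κ := hli.finite
  have : Fintype κ := Fintype.ofFinite κ
  have hc : e ≤ Fintype.card κ := by
    rw [← finrank_span_eq_card hli, hsp, Subtype.range_coe]
    exact hlt
  obtain ⟨q⟩ : Nonempty (Fin e ↪ κ) := Function.Embedding.nonempty_of_card_le (by simpa using hc)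
  obtain ⟨j, hj⟩ := spanb_minor _ (hli.comp q q.injective)
  exact hj (hE _ j fun x => (a (q x)).2)

/-- A vector killed by all `v ∈ E` and by `d + 1` more covectors, if all `e × e` minors of `E`
vanish: the span of `E` has dimension `< e` (else `e` independent rows, the columns span, a basis
among the columns gives a non zero minor). -/
theorem exists_tau {K σ : Type} [Field K] [Fintype σ] (e d : ℕ)
    (hσ : Fintype.card σ = e + d + 1) (E : Set (σ → K))
    (hE : ∀ (v : Fin e → σ → K) (j : Fin e → σ), (∀ a, v a ∈ E) →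
      (Matrix.of fun a b => v a (j b)).det = 0) (w : Fin (d + 1) → σ → K) :
    ∃ τ : σ → K, τ ≠ 0 ∧ (∀ v ∈ E, ∑ i, τ i * v i = 0) ∧ ∀ j, ∑ i, τ i * w j i = 0 := by
  classical
  have h1 := spanb_lt e E hE
  have h2 : Module.finrank K (Submodule.span K (Set.range w)) ≤ d + 1 := by
    simpa [Set.finrank] using finrank_range_le_card (R := K) w
  have h3 := Submodule.finrank_add_le_finrank_add_finrank (Submodule.span K E)
    (Submodule.span K (Set.range w))
  have h4 : Submodule.span K E ⊔ Submodule.span K (Set.range w) < ⊤ := by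
    apply Submodule.lt_top_of_finrank_lt_finrank
    rw [Module.finrank_fintype_fun_eq_card, hσ]
    omega
  obtain ⟨f, hf0, hf⟩ := Submodule.exists_le_ker_of_lt_top _ h4
  have hs : ∀ v : σ → K, ∑ i, f (Pi.single i 1) * v i = f v := by
    intro v
    rw [LinearMap.pi_apply_eq_sum_univ f v]
    refine Finset.sum_congr rfl fun i _ => ?_
    rw [smul_eq_mul, mul_comm]
    congr 2
    ext j
    simp [Pi.single_apply, eq_comm]
  refine ⟨fun i => f (Pi.single i 1), fun h0 => hf0 ?_, fun v hv => ?_, fun j => ?_⟩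
  · refine LinearMap.ext fun v => ?_
    rw [← hs v]
    exact Finset.sum_eq_zero fun i _ => by rw [congrFun h0 i, Pi.zero_apply, zero_mul]
  · rw [hs]
    exact hf (Submodule.mem_sup_left (Submodule.subset_span hv))
  · rw [hs]
    exact hf (Submodule.mem_sup_right (Submodule.subset_span ⟨j, rfl⟩))

end M4.Z
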