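import Pool.Agent.Lib.MP_33b3f9_ag.M4.ZPts
import Pool.Agent.Lib.MP_33b3f9_ag.M4.ZSpan
import Pool.Agent.Lib.MP_33b3f9_ag.M4.ZHf

/-! Lower bound for the Hilbert function by first order jets. -/

namespace M4.Z
open MvPolynomial

variable {σ : Type} [Fintype σ] {d : ℕ} {y : Fin (d + 1) → MvPolynomial σ ℂ}

theorem lowa_lin {K : Type} [Field K] (p t : σ → K) (α β : K) : ∃ h : MvPolynomial σ K,
    h.totalDegree ≤ 1 ∧ eval p h = α ∧ (t ≠ 0 → ∑ i, t i * eval p (pderiv i h) = β) := by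
  classical
  by_cases ht : t = 0
  · exact ⟨C α, by simp, eval_C _, fun h => absurd ht h⟩
  obtain ⟨j, hj⟩ := Function.ne_iff.1 ht
  refine ⟨C (α - β / t j * p j) + C (β / t j) * X j, ?_, by simp, fun _ => ?_⟩
  · refine (totalDegree_add _ _).trans (max_le (by rw [totalDegree_C]; omega) ?_)
    exact (totalDegree_mul _ _).trans (by rw [totalDegree_C, totalDegree_X])
  · rw [Finset.sum_eq_single j]
    · simp only [map_add, pderiv_C, pderiv_C_mul, pderiv_X_self, zero_add, mul_one, eval_C]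
      exact mul_div_cancel₀ _ hj
    · intro i _ hi
      simp only [map_add, pderiv_C, pderiv_C_mul, pderiv_X_of_ne hi.symm, zero_add, mul_zero,
        map_zero]
    · simp

theorem lowa_one {K : Type} [Field K] {A : Set (σ → K)} {c : ℕ} (hs : Sep A c) {p : σ → K}
    (hp : p ∈ A) (t : σ → K) (α β : K) : ∃ G : MvPolynomial σ K, G.totalDegree ≤ 2 * c + 1 ∧
      eval p G = α ∧ (t ≠ 0 → ∑ i, t i * eval p (pderiv i G) = β) ∧
      ∀ q ∈ A, q ≠ p → eval q G = 0 ∧ ∀ i, eval q (pderiv i G) = 0 := by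
  obtain ⟨g, h1, h2, h3⟩ := hs p hp
  obtain ⟨h, h4, h5, h6⟩ := lowa_lin p t (α / eval p g ^ 2)
    ((β - 2 * eval p g * (α / eval p g ^ 2) * ∑ i, t i * eval p (pderiv i g)) / eval p g ^ 2)
  have hd : ∀ q i, eval q (pderiv i (g * g * h)) = eval q g ^ 2 * eval q (pderiv i h) +
      2 * eval q g * eval q h * eval q (pderiv i g) := by
    intro q i
    simp only [pderiv_mul, map_add, map_mul]
    ring
  refine ⟨g * g * h, ?_, ?_, fun ht => ?_, fun q hq hqp => ⟨?_, fun i => ?_⟩⟩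
  · have := totalDegree_mul (g * g) h
    have := totalDegree_mul g g
    omega
  · rw [map_mul, map_mul, h5]
    field_simp
  · have e : ∑ i, t i * eval p (pderiv i (g * g * h)) =
        eval p g ^ 2 * ∑ i, t i * eval p (pderiv i h) +
          2 * eval p g * eval p h * ∑ i, t i * eval p (pderiv i g) := by
      rw [Finset.mul_sum, Finset.mul_sum, ← Finset.sum_add_distrib]
      exact Finset.sum_congr rfl fun i _ => by rw [hd]; ring
    rw [e, h6 ht, h5, mul_div_cancel₀ _ (pow_ne_zero 2 h2), sub_add_cancel]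
  · rw [map_mul, map_mul, h3 q hq hqp, zero_mul, zero_mul]
  · rw [hd, h3 q hq hqp]
    ring

/-- `Φ : K[x] → (A → K) × (B → K)`, `g ↦ (g p, ∑ i, τ p i * ∂ i g p)` is onto on polynomials of
degree `≤ 2 c + 1`: use `g_p ^ 2 * (X i - C (p i))` with `τ p i ≠ 0` and `g_p ^ 2`. -/
theorem jets_onto {K : Type} [Field K] (A B : Finset (σ → K)) (hBA : B ⊆ A) (c : ℕ)
    (hs : Sep (A : Set (σ → K)) c) (τ : (σ → K) → σ → K) (hτ : ∀ p ∈ B, τ p ≠ 0)
    (u w : (σ → K) → K) : ∃ g : MvPolynomial σ K, g.totalDegree ≤ 2 * c + 1 ∧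
      (∀ p ∈ A, eval p g = u p) ∧ ∀ p ∈ B, ∑ i, τ p i * eval p (pderiv i g) = w p := by
  choose! G h1 h2 h3 h4 using fun p (hp : p ∈ (A : Set (σ → K))) =>
    lowa_one hs hp (τ p) (u p) (w p)
  refine ⟨∑ p ∈ A, G p, (totalDegree_finsetSum _ _).trans (Finset.sup_le fun p hp => h1 p hp),
    fun q hq => ?_, fun q hq => ?_⟩
  · rw [map_sum, Finset.sum_eq_single_of_mem q hq fun p hp hpq => (h4 p hp q hq hpq.symm).1]
    exact h2 q hq
  · rw [← h3 q (hBA hq) (hτ q hq)]
    refine Finset.sum_congr rfl fun i _ => ?_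
    rw [map_sum, map_sum, Finset.sum_eq_single_of_mem q (hBA hq) fun p hp hpq =>
      (h4 p hp q (hBA hq) hpq.symm).2 i]

/-- Values on `A` and first order jets on `B`. -/
noncomputable def lowb_phi {K : Type} [Field K] (A B : Finset (σ → K)) (τ : (σ → K) → σ → K) :
    MvPolynomial σ K →ₗ[K] (A → K) × (B → K) where
  toFun g := (fun p => eval p.1 g, fun p => ∑ i, τ p.1 i * eval p.1 (pderiv i g))
  map_add' g h := by
    ext p
    · simp
    · simp [mul_add, Finset.sum_add_distrib]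
  map_smul' c g := by
    ext p
    · simp
    · simp [Finset.mul_sum, mul_left_comm]

theorem lowb_mul {K : Type} [Field K] (A B : Finset (σ → K)) (hBA : B ⊆ A)
    (τ : (σ → K) → σ → K) (h : MvPolynomial σ K) (t : K) (h1 : ∀ p ∈ A, eval p h = t)
    (h2 : ∀ p ∈ B, ∑ i, τ p i * eval p (pderiv i h) = 0) (g : MvPolynomial σ K) :
    lowb_phi A B τ (h * g) = t • lowb_phi A B τ g := by
  ext p
  · simp [lowb_phi, h1 p.1 p.2]
  · have e1 := h1 p.1 (hBA p.2)
    have e2 := h2 p.1 p.2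
    simp only [lowb_phi, LinearMap.coe_mk, AddHom.coe_mk, Derivation.leibniz, smul_eq_mul, map_add,
      map_mul, e1, Prod.smul_snd, Pi.smul_apply]
    have : ∑ i, τ p.1 i * (t * eval p.1 (pderiv i g) + eval p.1 g * eval p.1 (pderiv i h)) =
        t * ∑ i, τ p.1 i * eval p.1 (pderiv i g) +
          eval p.1 g * ∑ i, τ p.1 i * eval p.1 (pderiv i h) := by
      rw [Finset.mul_sum, Finset.mul_sum, ← Finset.sum_add_distrib]
      exact Finset.sum_congr rfl fun i _ => by ring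
    rw [this, e2, mul_zero, add_zero]

theorem lowb_inj (d : ℕ) : Function.Injective (algebraMap (AA d) (Fb d)) := by
  rw [IsScalarTower.algebraMap_eq (AA d) (FractionRing (AA d)) (Fb d), RingHom.coe_comp]
  exact (algebraMap (FractionRing (AA d)) (Fb d)).injective.comp
    (IsFractionRing.injective (AA d) (FractionRing (AA d)))

omit [Fintype σ] in
theorem lowb_val {p : σ → Fb d} (hp : ∀ j, aeval p (y j) = YY d j) (r : AA d) :
    aeval p (aeval y r) = algebraMap (AA d) (Fb d) r := by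
  have : (aeval p : MvPolynomial σ ℂ →ₐ[ℂ] Fb d).comp (aeval y) =
      IsScalarTower.toAlgHom ℂ (AA d) (Fb d) := by
    ext j
    simp [hp j, YY]
  exact DFunLike.congr_fun this r

theorem lowb_der {p τ : σ → Fb d} (hp : ∀ j, ∑ i, τ i * aeval p (pderiv i (y j)) = 0) (r : AA d) :
    ∑ i, τ i * aeval p (pderiv i (aeval y r)) = 0 := by
  induction r using MvPolynomial.induction_on with
  | C a => simp
  | add f g hf hg => simp only [map_add, mul_add, Finset.sum_add_distrib, hf, hg, add_zero]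
  | mul_X f j hf =>
    simp only [map_mul, aeval_X, Derivation.leibniz, smul_eq_mul, map_add]
    have : ∑ i, τ i * (aeval p (aeval y f) * aeval p (pderiv i (y j)) +
        aeval p (y j) * aeval p (pderiv i (aeval y f))) =
        aeval p (aeval y f) * ∑ i, τ i * aeval p (pderiv i (y j)) +
          aeval p (y j) * ∑ i, τ i * aeval p (pderiv i (aeval y f)) := by
      rw [Finset.mul_sum, Finset.mul_sum, ← Finset.sum_add_distrib]
      exact Finset.sum_congr rfl fun i _ => by ring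
    rw [this, hp j, hf, mul_zero, mul_zero, add_zero]

omit [Fintype σ] in
theorem lowb_eval {K : Type} [Field K] [Algebra ℂ K] (p : σ → K) (g : MvPolynomial σ ℂ) :
    eval p (map (algebraMap ℂ K) g) = aeval p g := by
  rw [eval_map, aeval_def]

/-- `span_forms` gives forms `b t` of degree `2 c + 1` with `Φ (b t)` independent over `Fb d`;
`Φ (r(y) * b) = r(Y) • Φ b`; so `(r t) ↦ Φ (∑ r t (y) * b t)` is injective on tuples of forms of
degree `m`; `le_hf`, `finrank_hom`. -/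
theorem low_core (hy : ∀ j, (y j).IsHomogeneous 1) (A B : Finset (σ → Fb d)) (hBA : B ⊆ A)
    (hA : ∀ p ∈ A, ∀ j, aeval p (y j) = YY d j) (c : ℕ) (hs : Sep (A : Set (σ → Fb d)) c)
    (τ : (σ → Fb d) → σ → Fb d) (hτ : ∀ p ∈ B, τ p ≠ 0)
    (hτy : ∀ p ∈ B, ∀ j, ∑ i, τ p i * aeval p (pderiv i (y j)) = 0)
    (I : Ideal (MvPolynomial σ ℂ)) (m : ℕ)
    (hI : ∀ g ∈ I, g.IsHomogeneous (m + (2 * c + 1)) → (∀ p ∈ A, aeval p g = 0) ∧
      ∀ p ∈ B, ∑ i, τ p i * aeval p (pderiv i g) = 0) :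
    (A.card + B.card) * (m + d).choose d ≤ HF I (m + (2 * c + 1)) := by
  classical
  have hmul : ∀ (r : AA d) (g : MvPolynomial σ (Fb d)),
      lowb_phi A B τ (map (algebraMap ℂ (Fb d)) (aeval y r) * g) =
        algebraMap (AA d) (Fb d) r • lowb_phi A B τ g := by
    intro r
    refine lowb_mul A B hBA τ _ _ (fun p hp => ?_) fun p hp => ?_
    · rw [lowb_eval, lowb_val (hA p hp)]
    · simp only [pderiv_map, lowb_eval]
      exact lowb_der (hτy p hp) r
  have honto : ∀ v, ∃ g : MvPolynomial σ (Fb d), g.totalDegree ≤ 2 * c + 1 ∧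
      lowb_phi A B τ g = v := by
    rintro ⟨u, w⟩
    obtain ⟨g, hg, h1, h2⟩ := jets_onto A B hBA c hs τ hτ
      (fun p => if h : p ∈ A then u ⟨p, h⟩ else 0) (fun p => if h : p ∈ B then w ⟨p, h⟩ else 0)
    refine ⟨g, hg, Prod.ext (funext fun p => ?_) (funext fun p => ?_)⟩
    · exact (h1 p.1 p.2).trans (dif_pos p.2)
    · exact (h2 p.1 p.2).trans (dif_pos p.2)
  have ht : algebraMap (AA d) (Fb d) (X 0) ≠ 0 := fun h =>
    X_ne_zero (R := ℂ) (0 : Fin (d + 1)) (lowb_inj d (h.trans (map_zero _).symm))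
  obtain ⟨b, hb, hli⟩ := span_forms (lowb_phi A B τ) (2 * c + 1) honto (y 0) (hy 0) _ ht
    fun g => by simpa using hmul (X 0) g
  let Ψ : MvPolynomial σ ℂ →ₗ[ℂ] (A → Fb d) × (B → Fb d) :=
    ((lowb_phi A B τ).restrictScalars ℂ).comp (mapAlgHom (Algebra.ofId ℂ (Fb d))).toLinearMap
  have hΨ : ∀ g, Ψ g = lowb_phi A B τ (map (algebraMap ℂ (Fb d)) g) := fun g => rfl
  refine le_trans ?_ (le_hf I _ Ψ fun g hg hgI => ?_)
  · have := fin_hom (σ := σ) (m + (2 * c + 1))
    have := fin_hom (σ := Fin (d + 1)) m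
    let L0 : (Fin (Module.finrank (Fb d) ((A → Fb d) × (B → Fb d))) →
        homogeneousSubmodule (Fin (d + 1)) ℂ m) →ₗ[ℂ] MvPolynomial σ ℂ :=
      ∑ t, (LinearMap.mulRight ℂ (b t)).comp ((aeval y : AA d →ₐ[ℂ] _).toLinearMap.comp
        ((homogeneousSubmodule (Fin (d + 1)) ℂ m).subtype.comp (LinearMap.proj t)))
    have hL0 : ∀ r, L0 r = ∑ t, aeval y (r t).1 * b t := fun r => by
      simp [L0]
    have hmem : ∀ r, Ψ.comp L0 r ∈ (homogeneousSubmodule σ ℂ (m + (2 * c + 1))).map Ψ := by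
      intro r
      refine ⟨L0 r, ?_, rfl⟩
      rw [hL0]
      refine Submodule.sum_mem _ fun t _ => ?_
      have h1 : (aeval y (r t).1).IsHomogeneous (1 * m) := IsHomogeneous.aeval (r t).2 y hy
      rw [one_mul] at h1
      exact h1.mul (hb t)
    have hinj : Function.Injective ((Ψ.comp L0).codRestrict _ hmem) := by
      rw [injective_iff_map_eq_zero]
      intro r hr
      have h0 : Ψ (L0 r) = 0 := congrArg Subtype.val hr
      rw [hL0, map_sum] at h0
      simp only [hΨ, map_mul, hmul] at h0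
      funext t
      exact Subtype.ext (lowb_inj d
        ((Fintype.linearIndependent_iff.1 hli _ h0 t).trans (map_zero _).symm))
    have hle := LinearMap.finrank_le_finrank_of_injective hinj
    rw [Module.finrank_pi_fintype, Finset.sum_const, finrank_hom (d := d) (Fintype.card_fin _),
      Finset.card_univ, Fintype.card_fin, Module.finrank_prod,
      Module.finrank_fintype_fun_eq_card, Module.finrank_fintype_fun_eq_card, Fintype.card_coe,
      Fintype.card_coe, smul_eq_mul] at hle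
    exact hle
  · obtain ⟨h1, h2⟩ := hI g hgI hg
    rw [hΨ]
    refine Prod.ext (funext fun p => ?_) (funext fun p => ?_)
    · exact (lowb_eval p.1 g).trans (h1 p.1 p.2)
    · refine Eq.trans ?_ (h2 p.1 p.2)
      simp only [lowb_phi, LinearMap.coe_mk, AddHom.coe_mk, pderiv_map, lowb_eval]

/-- `exists_tau` at each point of `Pts y V`, then `low_core`. -/
theorem low (e : ℕ) (hσ : Fintype.card σ = e + d + 1) (hy : ∀ j, (y j).IsHomogeneous 1)
    {U V : Set (Ideal (MvPolynomial σ ℂ))} (hVU : V ⊆ U) (hf : (Pts y U).Finite) (c : ℕ)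
    (hs : Sep (Pts y U) c) (I : Ideal (MvPolynomial σ ℂ)) (m : ℕ)
    (hU : ∀ P ∈ U, fm I (m + (2 * c + 1)) ⊆ P)
    (hV : ∀ P ∈ V, jac e (fm I (m + (2 * c + 1))) ⊆ P) :
    ((Pts y U).ncard + (Pts y V).ncard) * (m + d).choose d ≤ HF I (m + (2 * c + 1)) := by
  have hsub : Pts y V ⊆ Pts y U := fun p hp => ⟨hVU hp.1, hp.2⟩
  have hf' := hf.subset hsub
  have key : ∀ p ∈ Pts y V, ∃ t : σ → Fb d, t ≠ 0 ∧
      (∀ g ∈ fm I (m + (2 * c + 1)), ∑ i, t i * aeval p (pderiv i g) = 0) ∧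
      ∀ j, ∑ i, t i * aeval p (pderiv i (y j)) = 0 := by
    intro p hp
    obtain ⟨t, h1, h2, h3⟩ := exists_tau e d hσ
      {v | ∃ g ∈ fm I (m + (2 * c + 1)), v = fun i => aeval p (pderiv i g)} (fun v j hv => by
        choose ψ h1 h2 using hv
        have h3 : aeval p (Matrix.of fun a b => pderiv (j b) (ψ a)).det = 0 :=
          hV _ hp.1 ⟨ψ, j, h1, rfl⟩
        rw [AlgHom.map_det] at h3
        rw [← h3]
        congr 1
        ext a b
        rw [Matrix.of_apply, h2]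
        rfl) fun j i => aeval p (pderiv i (y j))
    exact ⟨t, h1, fun g hg => h2 _ ⟨g, hg, rfl⟩, h3⟩
  choose! τ h1 h2 h3 using key
  rw [Set.ncard_eq_toFinset_card _ hf, Set.ncard_eq_toFinset_card _ hf']
  refine low_core hy hf.toFinset hf'.toFinset (Set.Finite.toFinset_subset_toFinset.2 hsub)
    (fun p hp => (hf.mem_toFinset.1 hp).2) c (by rwa [hf.coe_toFinset]) τ
    (fun p hp => h1 p (hf'.mem_toFinset.1 hp)) (fun p hp => h3 p (hf'.mem_toFinset.1 hp)) I m
    fun g hg hh => ⟨fun p hp => ?_, fun p hp => h2 p (hf'.mem_toFinset.1 hp) g ⟨hg, _, le_rfl, hh⟩⟩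
  exact hU _ (hf.mem_toFinset.1 hp).1 ⟨hg, _, le_rfl, hh⟩

end M4.Z
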