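import Pool.Agent.Lib.MP_33b3f9_ag.M4.ZPts
import Pool.Agent.Lib.MP_33b3f9_ag.M4.ZSpan
import Pool.Agent.Lib.MP_33b3f9_ag.M4.ZHf

/-! Upper bound for the Hilbert function by traces. -/

namespace M4.Z
open MvPolynomial

variable {σ : Type} [Fintype σ] {d : ℕ} {y : Fin (d + 1) → MvPolynomial σ ℂ}

omit [Fintype σ] in
theorem upa_smul_form {L : Type} [CommRing L] [Algebra ℂ L] (c : ℂ) (p : σ → L) {μ : ℕ}
    {g : MvPolynomial σ ℂ} (hg : g.IsHomogeneous μ) :
    aeval (fun i => c • p i) g = c ^ μ • aeval p g := by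
  conv_lhs => rw [g.as_sum]
  conv_rhs => rw [g.as_sum]
  rw [map_sum, map_sum, Finset.smul_sum]
  refine Finset.sum_congr rfl fun m hm => ?_
  have h1 : ∑ i ∈ m.support, m i = μ := by
    have := hg (mem_support_iff.1 hm)
    simpa [Finsupp.weight_apply, Finsupp.sum] using this
  rw [aeval_monomial, aeval_monomial, ← h1]
  simp only [Finsupp.prod, smul_pow, Finset.prod_smul, Finset.prod_pow_eq_pow_sum,
    mul_smul_comm]

omit [Fintype σ] in
theorem upa_ker_le {L : Type} [Field L] [Algebra ℂ L] (c : ℂ) (p : σ → L)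
    (hP : Hom (RingHom.ker (aeval p : MvPolynomial σ ℂ →ₐ[ℂ] L))) {g : MvPolynomial σ ℂ}
    (hg : aeval p g = 0) : aeval (fun i => c • p i) g = 0 := by
  rw [← sum_homogeneousComponent g, map_sum]
  refine Finset.sum_eq_zero fun μ _ => ?_
  have : aeval p (homogeneousComponent μ g) = 0 := hP g hg μ
  rw [upa_smul_form c p (homogeneousComponent_isHomogeneous μ g), this, smul_zero]

omit [Fintype σ] in
theorem upa_ker_eq {L : Type} [Field L] [Algebra ℂ L] (c : ℂ) (hc : c ≠ 0) (p : σ → L)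
    (hP : Hom (RingHom.ker (aeval p : MvPolynomial σ ℂ →ₐ[ℂ] L))) :
    RingHom.ker (aeval (fun i => c • p i) : MvPolynomial σ ℂ →ₐ[ℂ] L) =
      RingHom.ker (aeval p : MvPolynomial σ ℂ →ₐ[ℂ] L) := by
  refine le_antisymm (fun g hg => ?_) fun g hg => upa_ker_le c p hP hg
  let T : MvPolynomial σ ℂ →ₐ[ℂ] MvPolynomial σ ℂ := aeval fun i => c • X i
  have h1 : ∀ g, aeval p (T g) = aeval (fun i => c • p i) g := by
    intro g
    rw [← AlgHom.comp_apply, comp_aeval]
    simp
  have h2 : aeval p (T g) = 0 := (h1 g).trans hg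
  have h3 := upa_ker_le c⁻¹ p hP h2
  have h4 : aeval (fun i => c⁻¹ • p i) (T g) = aeval p g := by
    rw [← AlgHom.comp_apply, comp_aeval]
    simp [smul_smul, hc]
  exact h4.symm.trans h3

omit [Fintype σ] in
/-- `p ↦ t⁻¹ • ω ∘ p` maps `Pts y W` injectively to itself (the primes are homogeneous), and
`aeval (t⁻¹ • ω ∘ p) g = t⁻¹ ^ μ * ω (aeval p g)` for forms. -/
theorem tr_twist (hy : ∀ j, (y j).IsHomogeneous 1) {W : Set (Ideal (MvPolynomial σ ℂ))}
    (hh : ∀ P ∈ W, Hom P) (hf : (Pts y W).Finite) (ω : Fb d ≃ₐ[ℂ] Fb d) (t : ℂ) (ht : t ≠ 0)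
    (hω : ∀ j, ω (YY d j) = t • YY d j) {μ : ℕ} {g : MvPolynomial σ ℂ}
    (hg : g.IsHomogeneous μ) :
    ω (∑ p ∈ hf.toFinset, aeval p g) = t ^ μ • ∑ p ∈ hf.toFinset, aeval p g := by
  classical
  let F : (σ → Fb d) → σ → Fb d := fun p i => t⁻¹ • ω (p i)
  have hωp : ∀ (p : σ → Fb d) (g : MvPolynomial σ ℂ),
      aeval (fun i => ω (p i)) g = ω (aeval p g) := by
    intro p g
    have := comp_aeval p (ω : Fb d →ₐ[ℂ] Fb d)
    exact (DFunLike.congr_fun this g).symm
  have hker : ∀ p : σ → Fb d,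
      RingHom.ker (aeval (fun i => ω (p i)) : MvPolynomial σ ℂ →ₐ[ℂ] Fb d) =
        RingHom.ker (aeval p : MvPolynomial σ ℂ →ₐ[ℂ] Fb d) := by
    intro p
    ext g
    simp only [RingHom.mem_ker, hωp, map_eq_zero_iff ω ω.injective]
  have hF : ∀ p ∈ Pts y W, F p ∈ Pts y W := by
    intro p hp
    refine ⟨?_, fun j => ?_⟩
    · rw [upa_ker_eq t⁻¹ (inv_ne_zero ht) _ (by rw [hker]; exact hh _ hp.1), hker]
      exact hp.1
    · rw [upa_smul_form t⁻¹ _ (hy j), hωp, hp.2, hω, pow_one, smul_smul, inv_mul_cancel₀ ht,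
        one_smul]
  have hinj : Function.Injective F := by
    intro p q h
    funext i
    exact ω.injective (smul_right_injective _ (inv_ne_zero ht) (congrFun h i))
  have him : hf.toFinset.image F = hf.toFinset := by
    refine Finset.eq_of_subset_of_card_le ?_ (Finset.card_image_of_injective _ hinj).ge
    intro q hq
    obtain ⟨p, hp, rfl⟩ := Finset.mem_image.1 hq
    exact hf.mem_toFinset.2 (hF p (hf.mem_toFinset.1 hp))
  conv_rhs => rw [← him, Finset.sum_image fun p _ q _ h => hinj h]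
  rw [map_sum, Finset.smul_sum]
  refine Finset.sum_congr rfl fun p _ => ?_
  rw [upa_smul_form t⁻¹ _ hg, hωp, smul_smul, ← mul_pow, mul_inv_cancel₀ ht, one_pow, one_smul]

theorem upb_coeff {τ : Type} (t : ℂ) (r : MvPolynomial τ ℂ) (m : τ →₀ ℕ) :
    coeff m (aeval (fun j => t • (X j : MvPolynomial τ ℂ)) r) = t ^ m.degree * coeff m r := by
  classical
  induction r using MvPolynomial.induction_on' with
  | monomial u a =>
    have h : aeval (fun j => t • (X j : MvPolynomial τ ℂ)) (monomial u a) =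
        t ^ u.degree • monomial u a := by
      rw [aeval_monomial, monomial_eq, Finsupp.prod, Finsupp.prod, Finsupp.degree_apply,
        ← Finset.prod_pow_eq_pow_sum, ← mul_smul_comm, ← Finset.prod_smul]
      simp only [smul_pow, algebraMap_eq]
    rw [h, coeff_smul, coeff_monomial, smul_eq_mul]
    split_ifs with e
    · rw [e]
    · simp
  | add p q hp hq => rw [map_add, coeff_add, coeff_add, hp, hq, mul_add]

/-- The scaling automorphism. -/
noncomputable def upb_scale (τ : Type) (t : ℂ) (ht : t ≠ 0) :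
    MvPolynomial τ ℂ ≃ₐ[ℂ] MvPolynomial τ ℂ :=
  AlgEquiv.ofAlgHom (aeval fun j => t • X j) (aeval fun j => t⁻¹ • X j)
    (by ext1 j; simp [smul_smul, ht]) (by ext1 j; simp [smul_smul, ht])

theorem upb_ext (d : ℕ) (s : AA d ≃ₐ[ℂ] AA d) : ∃ ω : Fb d ≃ₐ[ℂ] Fb d,
    ∀ r : AA d, ω (algebraMap (AA d) (Fb d) r) = algebraMap (AA d) (Fb d) (s r) := by
  let e := IsAlgClosure.equivOfEquiv (Fb d) (Fb d)
    (IsFractionRing.ringEquivOfRingEquiv (K := FractionRing (AA d)) (L := FractionRing (AA d))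
      s.toRingEquiv)
  have he : ∀ r : AA d, e (algebraMap (AA d) (Fb d) r) = algebraMap (AA d) (Fb d) (s r) := by
    intro r
    rw [IsScalarTower.algebraMap_apply (AA d) (FractionRing (AA d)) (Fb d),
      IsAlgClosure.equivOfEquiv_algebraMap, IsFractionRing.ringEquivOfRingEquiv_algebraMap,
      ← IsScalarTower.algebraMap_apply]
    rfl
  refine ⟨AlgEquiv.ofRingEquiv (f := e) fun c => ?_, he⟩
  rw [IsScalarTower.algebraMap_apply ℂ (AA d) (Fb d), he, s.commutes]

/-- Fixed by all automorphisms over the fraction field (`InfiniteGalois.mem_bot_iff_fixed`), integral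
(`IsIntegrallyClosed.isIntegral_iff`), and multiplied by `2 ^ μ` by an extension of `Y ↦ 2 Y`
(`IsAlgClosure.equivOfEquiv`). -/
theorem form_of_twist (μ : ℕ) (z : Fb d) (hz : IsIntegral (AA d) z)
    (h : ∀ (ω : Fb d ≃ₐ[ℂ] Fb d) (t : ℂ), t ≠ 0 → (∀ j, ω (YY d j) = t • YY d j) →
      ω z = t ^ μ • z) :
    ∃ r : AA d, r.IsHomogeneous μ ∧ algebraMap (AA d) (Fb d) r = z := by
  have h1 : z ∈ Set.range (algebraMap (FractionRing (AA d)) (Fb d)) := by
    refine (InfiniteGalois.mem_range_algebraMap_iff_fixed z).2 fun f => ?_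
    have h2 := h (f.restrictScalars ℂ) 1 one_ne_zero fun j => by
      rw [one_smul, YY, IsScalarTower.algebraMap_apply (AA d) (FractionRing (AA d)) (Fb d)]
      exact f.commutes _
    rwa [one_pow, one_smul] at h2
  obtain ⟨q, rfl⟩ := h1
  rw [isIntegral_algebraMap_iff (algebraMap (FractionRing (AA d)) (Fb d)).injective,
    IsIntegrallyClosed.isIntegral_iff] at hz
  obtain ⟨r, rfl⟩ := hz
  rw [← IsScalarTower.algebraMap_apply] at h ⊢
  refine ⟨r, fun m hm => ?_, rfl⟩
  obtain ⟨ω, hω⟩ := upb_ext d (upb_scale _ 2 two_ne_zero)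
  have h3 := h ω 2 two_ne_zero fun j => by
    rw [YY, hω, Algebra.smul_def, IsScalarTower.algebraMap_apply ℂ (AA d) (Fb d), ← map_mul,
      ← Algebra.smul_def]
    exact congrArg _ (aeval_X _ _)
  rw [hω, Algebra.smul_def, IsScalarTower.algebraMap_apply ℂ (AA d) (Fb d), ← map_mul,
    ← Algebra.smul_def] at h3
  have hi : Function.Injective (algebraMap (AA d) (Fb d)) := by
    rw [IsScalarTower.algebraMap_eq (AA d) (FractionRing (AA d)) (Fb d)]
    exact (algebraMap (FractionRing (AA d)) (Fb d)).injective.comp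
      (IsFractionRing.injective (AA d) (FractionRing (AA d)))
  have h4 := congrArg (coeff m) (hi h3)
  rw [coeff_smul, smul_eq_mul] at h4
  have h5 : (2 : ℂ) ^ m.degree = 2 ^ μ := mul_right_cancel₀ hm ((upb_coeff 2 r m).symm.trans h4)
  have h6 : m.degree = μ := Nat.pow_right_injective (le_refl 2) (by exact_mod_cast h5)
  rw [← h6, Finsupp.degree_eq_weight_one]
  rfl

/-- `span_forms` for evaluation `Fb[x] → (Pts → Fb)` gives forms `b i` of degree `c`;
`Φ g = (Tr (g * b i))_i` kills only elements of `sInf W` (`pts_nonempty`), its values on forms of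
degree `μ` lie in the image of `Fin _ → homogeneousSubmodule (μ + c)`; `hf_le`, `finrank_hom`. -/
theorem up (hy : ∀ j, (y j).IsHomogeneous 1) {W : Set (Ideal (MvPolynomial σ ℂ))}
    (hf : W.Finite) (hW : ∀ P ∈ W, P.IsPrime ∧ Hom P ∧ NNd y P) (c : ℕ)
    (hs : Sep (Pts y W) c) (μ : ℕ) :
    HF (sInf W) μ ≤ (Pts y W).ncard * (μ + c + d).choose d := by
  classical
  have hN : ∀ P ∈ W, NNd y P := fun P hP => (hW P hP).2.2
  have hfin := pts_finite hf hN
  set Q := hfin.toFinset with hQ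
  have hQm : ∀ p, p ∈ Q ↔ p ∈ Pts y W := fun p => hfin.mem_toFinset
  let Φ : MvPolynomial σ (Fb d) →ₗ[Fb d] (Q → Fb d) :=
    LinearMap.pi fun p => (aeval (p : σ → Fb d) : MvPolynomial σ (Fb d) →ₐ[Fb d] Fb d).toLinearMap
  have hΦ : ∀ g (p : Q), Φ g p = eval (p : σ → Fb d) g := fun g p => by simp [Φ]
  have hΦm : ∀ (g : MvPolynomial σ ℂ) (p : Q),
      Φ (map (algebraMap ℂ (Fb d)) g) p = aeval (p : σ → Fb d) g := fun g p => by
    rw [hΦ, eval_map, aeval_def]
  have hY : YY d 0 ≠ 0 := fun h => X_ne_zero 0 (inj_Fb (h.trans (map_zero _).symm))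
  have hsur : ∀ v, ∃ g : MvPolynomial σ (Fb d), g.totalDegree ≤ c ∧ Φ g = v := by
    intro v
    choose G hG1 hG2 hG3 using fun p : Q => hs p ((hQm _).1 p.2)
    refine ⟨∑ p : Q, (v p / eval (p : σ → Fb d) (G p)) • G p, ?_, ?_⟩
    · exact (totalDegree_finsetSum _ _).trans (Finset.sup_le fun p _ =>
        (totalDegree_smul_le _ _).trans (hG1 p))
    · funext q
      rw [map_sum, Finset.sum_apply, Finset.sum_eq_single q]
      · rw [map_smul, Pi.smul_apply, hΦ, smul_eq_mul, div_mul_cancel₀ _ (hG2 q)]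
      · intro p _ hp
        rw [map_smul, Pi.smul_apply, hΦ, hG3 p q ((hQm _).1 q.2)
          fun h => hp (Subtype.ext h).symm, smul_zero]
      · simp
  obtain ⟨b, hb1, hb2⟩ := span_forms Φ c hsur (y 0) (hy 0) (YY d 0) hY (by
    intro g
    funext p
    have := hΦm (y 0) p
    rw [hΦ] at this
    rw [hΦ, map_mul, this, ((hQm _).1 p.2).2, Pi.smul_apply, hΦ, smul_eq_mul])
  have hr : Module.finrank (Fb d) (Q → Fb d) = (Pts y W).ncard := by
    rw [Module.finrank_fintype_fun_eq_card, Fintype.card_coe, Set.ncard_eq_toFinset_card _ hfin]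
  let Ψ : MvPolynomial σ ℂ →ₗ[ℂ] (Fin (Module.finrank (Fb d) (Q → Fb d)) → Fb d) :=
    LinearMap.pi fun i => ∑ p ∈ Q,
      (aeval p : MvPolynomial σ ℂ →ₐ[ℂ] Fb d).toLinearMap ∘ₗ LinearMap.mulRight ℂ (b i)
  have hΨ : ∀ g i, Ψ g i = ∑ p ∈ Q, aeval p (g * b i) := fun g i => by
    simp only [Ψ, LinearMap.pi_apply, LinearMap.coe_sum, Finset.sum_apply, LinearMap.comp_apply,
      LinearMap.mulRight_apply, AlgHom.toLinearMap_apply]
  have hspan : Submodule.span (Fb d)
      (Set.range fun i => Φ (map (algebraMap ℂ (Fb d)) (b i))) = ⊤ :=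
    hb2.span_eq_top_of_card_eq_finrank' (by simp)
  have hker : ∀ g : MvPolynomial σ ℂ, g.IsHomogeneous μ → Ψ g = 0 → g ∈ sInf W := by
    intro g _ h0
    let l : (Q → Fb d) →ₗ[Fb d] Fb d :=
      ∑ p : Q, aeval (p : σ → Fb d) g • LinearMap.proj p
    have hl : ∀ v, l v = ∑ p : Q, aeval (p : σ → Fb d) g * v p := fun v => by
      simp only [l, LinearMap.coe_sum, Finset.sum_apply, LinearMap.smul_apply,
        LinearMap.proj_apply, smul_eq_mul]
    have hl0 : l = 0 := by
      refine LinearMap.ext_on_range hspan fun i => ?_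
      have := congrFun h0 i
      rw [hΨ, ← Finset.sum_coe_sort] at this
      rw [hl]
      simpa only [hΦm, ← map_mul, Pi.zero_apply, LinearMap.zero_apply] using this
    refine Ideal.mem_sInf.2 fun {P} hP => ?_
    obtain ⟨p, hp1, hp2⟩ := pts_nonempty (hW P hP).1 (hN P hP)
    have hp1' : RingHom.ker (aeval p : MvPolynomial σ ℂ →ₐ[ℂ] Fb d) = P := hp1
    have hp : p ∈ Q := (hQm _).2 ⟨hp1'.symm ▸ hP, hp2⟩
    have := hl (Pi.single ⟨p, hp⟩ 1)
    rw [hl0, Finset.sum_eq_single ⟨p, hp⟩ (fun q _ hq => by simp [hq]) (by simp)] at this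
    rw [← hp1', RingHom.mem_ker]
    simpa using this.symm
  refine (hf_le _ μ Ψ hker).trans ?_
  have := fin_hom (σ := Fin (d + 1)) (μ + c)
  let Θ : (Fin (Module.finrank (Fb d) (Q → Fb d)) → homogeneousSubmodule (Fin (d + 1)) ℂ (μ + c))
      →ₗ[ℂ] (Fin (Module.finrank (Fb d) (Q → Fb d)) → Fb d) :=
    LinearMap.pi fun i => (IsScalarTower.toAlgHom ℂ (AA d) (Fb d)).toLinearMap ∘ₗ
      (homogeneousSubmodule (Fin (d + 1)) ℂ (μ + c)).subtype ∘ₗ LinearMap.proj i
  have hle : (homogeneousSubmodule σ ℂ μ).map Ψ ≤ LinearMap.range Θ := by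
    rintro _ ⟨g, hg, rfl⟩
    have : ∀ i, ∃ r : AA d, r.IsHomogeneous (μ + c) ∧ algebraMap (AA d) (Fb d) r = Ψ g i := by
      intro i
      rw [hΨ]
      have hgb : (g * b i).IsHomogeneous (μ + c) := IsHomogeneous.mul hg (hb1 i)
      exact form_of_twist _ _ (IsIntegral.sum _ fun p hp => int_pts hN ((hQm _).1 hp) _)
        fun ω t ht hω => tr_twist hy (fun P hP => (hW P hP).2.1) hfin ω t ht hω hgb
    choose r hr1 hr2 using this
    exact ⟨fun i => ⟨r i, hr1 i⟩, funext fun i => hr2 i⟩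
  refine (Submodule.finrank_mono hle).trans ((LinearMap.finrank_range_le Θ).trans ?_)
  rw [Module.finrank_pi_fintype, Finset.sum_const, Finset.card_univ, Fintype.card_fin, hr,
    finrank_hom (d := d) (by simp), smul_eq_mul]

end M4.Z
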