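import Pool.Agent.Lib.MP_33b3f9_ag.M4.ZNN
import Pool.Agent.Lib.MP_33b3f9_ag.M4.ZUp
import Pool.Agent.Lib.MP_33b3f9_ag.M4.ZLow

/-! The algebraic half of the zero estimate. -/

namespace M4.Z
open MvPolynomial

variable {σ : Type} [Fintype σ]

omit [Fintype σ] in
theorem alg_sep {K : Type} [Field K] {A B : Set (σ → K)} (hAB : A ⊆ B) {c : ℕ} (h : Sep B c) :
    Sep A c := fun p hp => by
  obtain ⟨g, h1, h2, h3⟩ := h p (hAB hp)
  exact ⟨g, h1, h2, fun q hq => h3 q (hAB hq)⟩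

omit [Fintype σ] in
theorem alg_pts {d : ℕ} (y : Fin (d + 1) → MvPolynomial σ ℂ)
    {U W : Set (Ideal (MvPolynomial σ ℂ))} (h : U ⊆ W) : Pts y U ⊆ Pts y W :=
  fun _ hp => ⟨h hp.1, hp.2⟩

omit [Fintype σ] in
theorem alg_sq (e ν : ℕ) (W : Set (Ideal (MvPolynomial σ ℂ))) (i : ℕ) : sq e ν W i ⊆ W := by
  cases i with
  | zero => exact subset_rfl
  | succ i => exact fun _ hP => hP.1

/-- `nn`, `pts_sep` (`c = (n + 1) * k`, `Sep` passes to subsets), `del P = ncard (Pts y {P})`.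
`low` with `U = W`, `V = ∅`: `ncard (Pts y W) ≤ H0`. `low` with `I = sInf W_i`,
`U = W_i ∪ W_(i+1)`, `V = W_(i+1)`, `up` for `W_i` and `ratio` (`t = 3 c + 1`, `m = 3 n t`):
`2 * ncard (Pts y W_(i+1)) ≤ ncard (Pts y W_i)`. -/
theorem alg (n e d k H0 L : ℕ) (hσ : Fintype.card σ = n + 1) (hed : e + d = n) (hk : 1 ≤ k)
    (I : Ideal (MvPolynomial σ ℂ)) (W : Set (Ideal (MvPolynomial σ ℂ))) (hf : W.Finite)
    (hW : ∀ P ∈ W, P ∈ (Ideal.span (fm I k)).minimalPrimes ∧ dm ℂ P = d + 1 ∧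
      fm I (nu n k) ⊆ P) (hH : HF I (nu n k) ≤ H0) (hL : H0 < 2 ^ L) :
    sq e (nu n k) W L = ∅ ∧ ∃ δ : Ideal (MvPolynomial σ ℂ) → ℕ,
      (∀ P ∈ W, 1 ≤ δ P ∧ Hom P ∧ ∀ μ, HF P μ ≤ δ P * (μ + (n + 1) * k + d).choose d) ∧
      ∑ P ∈ hf.toFinset, δ P ≤ H0 := by
  have hpr : ∀ P ∈ W, P.IsPrime := fun P hP => (hW P hP).1.1.1
  have hhom : ∀ P ∈ W, Hom P := fun P hP =>
    hom_of_min (fm I k) (fun g hg => hg.2.imp fun _ h => h.2) (hW P hP).1
  obtain ⟨y, hy, hN⟩ := nn d W hf fun P hP => ⟨hpr P hP, hhom P hP, (hW P hP).2.1⟩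
  have hs : Sep (Pts y W) ((n + 1) * k) := by
    rw [← hσ]
    refine pts_sep k hk hy (fm I k) (fun g hg => ?_) hN fun P hP => (hW P hP).1
    obtain ⟨μ, h1, h2⟩ := hg.2
    exact h2.totalDegree_le.trans h1
  have hfin : (Pts y W).Finite := pts_finite hf hN
  have hσ' : Fintype.card σ = e + d + 1 := by rw [hσ, hed]
  have hup : ∀ U ⊆ W, ∀ μ, HF (sInf U) μ ≤
      (Pts y U).ncard * (μ + (n + 1) * k + d).choose d := fun U hU μ =>
    up hy (hf.subset hU) (fun P hP => ⟨hpr P (hU hP), hhom P (hU hP), hN P (hU hP)⟩) _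
      (alg_sep (alg_pts y hU) hs) μ
  generalize hc : (n + 1) * k = c at hs hup
  have hν : nu n k = 3 * n * (3 * c + 1) + (2 * c + 1) := by rw [nu, hc, add_comm]
  rw [hν] at hW hH ⊢
  have hpos : 0 < (3 * n * (3 * c + 1) + d).choose d := Nat.choose_pos (Nat.le_add_left _ _)
  have h0 : (Pts y W).ncard ≤ H0 := by
    have h1 := low e hσ' hy (Set.empty_subset W) hfin c hs I (3 * n * (3 * c + 1))
      (fun P hP => (hW P hP).2.2) (fun P hP => hP.elim)
    exact (Nat.le_add_right _ _).trans ((Nat.le_mul_of_pos_right _ hpos).trans (h1.trans hH))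
  have hstep : ∀ i, 2 * (Pts y (sq e (3 * n * (3 * c + 1) + (2 * c + 1)) W (i + 1))).ncard ≤
      (Pts y (sq e (3 * n * (3 * c + 1) + (2 * c + 1)) W i)).ncard := by
    intro i
    have hU := Set.union_subset (alg_sq e (3 * n * (3 * c + 1) + (2 * c + 1)) W i)
      (alg_sq e (3 * n * (3 * c + 1) + (2 * c + 1)) W (i + 1))
    have hfU := hfin.subset (alg_pts y hU)
    have h1 := low e hσ' hy Set.subset_union_right hfU c (alg_sep (alg_pts y hU) hs)
      (sInf (sq e (3 * n * (3 * c + 1) + (2 * c + 1)) W i)) (3 * n * (3 * c + 1))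
      (fun P hP => hP.elim (fun h g hg => sInf_le h hg.1) fun h => h.2.1) fun P hP => hP.2.2
    have h2 := hup _ (alg_sq e (3 * n * (3 * c + 1) + (2 * c + 1)) W i)
      (3 * n * (3 * c + 1) + (2 * c + 1))
    have h3 := ratio n d (3 * c + 1) (by omega)
    rw [show 3 * n * (3 * c + 1) + (2 * c + 1) + c + d = 3 * n * (3 * c + 1) + (3 * c + 1) + d by
      ring] at h2
    have h4 := Set.ncard_le_ncard (alg_pts y Set.subset_union_left) hfU
    have h5 := h1.trans h2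
    generalize (Pts y (sq e (3 * n * (3 * c + 1) + (2 * c + 1)) W i ∪
      sq e (3 * n * (3 * c + 1) + (2 * c + 1)) W (i + 1))).ncard = a at h4 h5
    generalize (Pts y (sq e (3 * n * (3 * c + 1) + (2 * c + 1)) W (i + 1))).ncard = b at h5 ⊢
    generalize (Pts y (sq e (3 * n * (3 * c + 1) + (2 * c + 1)) W i)).ncard = x at h4 h5 ⊢
    have h6 : 2 * (a + b) * (3 * n * (3 * c + 1) + d).choose d ≤
        3 * x * (3 * n * (3 * c + 1) + d).choose d := by
      calc 2 * (a + b) * (3 * n * (3 * c + 1) + d).choose d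
          = 2 * ((a + b) * (3 * n * (3 * c + 1) + d).choose d) := by ring
        _ ≤ 2 * (x * (3 * n * (3 * c + 1) + (3 * c + 1) + d).choose d) :=
          Nat.mul_le_mul_left 2 h5
        _ = x * (2 * (3 * n * (3 * c + 1) + (3 * c + 1) + d).choose d) := by ring
        _ ≤ x * (3 * (3 * n * (3 * c + 1) + d).choose d) := Nat.mul_le_mul_left x h3
        _ = 3 * x * (3 * n * (3 * c + 1) + d).choose d := by ring
    have h7 := Nat.le_of_mul_le_mul_right h6 hpos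
    omega
  have hall : ∀ i, 2 ^ i * (Pts y (sq e (3 * n * (3 * c + 1) + (2 * c + 1)) W i)).ncard ≤ H0 := by
    intro i
    induction i with
    | zero => rw [pow_zero, one_mul]; exact h0
    | succ i ih =>
      rw [pow_succ, mul_assoc]
      exact (Nat.mul_le_mul_left _ (hstep i)).trans ih
  have hone : ∀ U ⊆ W, ∀ P ∈ U, 1 ≤ (Pts y U).ncard := fun U hU P hP =>
    (Set.ncard_pos (hfin.subset (alg_pts y hU))).2
      ((pts_nonempty (hpr P (hU hP)) (hN P (hU hP))).mono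
        (alg_pts y (Set.singleton_subset_iff.2 hP)))
  refine ⟨Set.eq_empty_of_forall_notMem fun P hP => ?_, fun P => (Pts y {P}).ncard,
    fun P hP => ⟨hone _ (Set.singleton_subset_iff.2 hP) P rfl, hhom P hP, fun μ => ?_⟩, ?_⟩
  · have h1 := (Nat.le_mul_of_pos_right _ (hone _ (alg_sq e _ W L) P hP)).trans (hall L)
    omega
  · have h1 := hup _ (Set.singleton_subset_iff.2 hP) μ
    rwa [sInf_singleton] at h1
  · rw [pts_sum hf hN]
    exact h0

end M4.Z
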