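import Pool.Agent.Lib.MP_33b3f9_ag.M4.ZDefs

/-! The cutting coefficient, generic forms, pruning. -/

namespace M4.Z
open MvPolynomial

open Filter Topology

/-- The least `e` with `c e` not eventually zero along `F`: divide by `ρ ^ e` where `ρ ≠ 0`. -/
theorem cut {T : Type} [TopologicalSpace T] (a : T) (F : Filter T) (hF : F ≤ 𝓝 a) (D : ℕ)
    (c : Fin (D + 1) → T → ℂ) (hc : ∀ e, ContinuousAt (c e) a) (h1 : ∃ e, c e a ≠ 0)
    (ρ : T → ℂ) (hρ : ContinuousAt ρ a) (h0 : ρ a = 0) (hne : ¬ ∀ᶠ z in F, ρ z = 0)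
    (hs : ∀ᶠ z in F, ∑ e, c e z * ρ z ^ (e : ℕ) = 0) :
    ∃ e, c e a = 0 ∧ ¬ ∀ᶠ z in F, c e z = 0 := by
  classical
  by_contra hcon
  push Not at hcon
  obtain ⟨e₀, he₀, hmin⟩ := (wellFounded_lt (α := Fin (D + 1))).has_min {e | c e a ≠ 0} h1
  have hlow : ∀ᶠ z in F, ∀ e, e < e₀ → c e z = 0 := by
    rw [eventually_all]
    intro e
    by_cases he : e < e₀
    · have : c e a = 0 := by
        by_contra h
        exact hmin e h he
      exact (hcon e this).mono fun z hz _ => hz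
    · exact Eventually.of_forall fun z h => absurd h he
  let G : T → ℂ := fun z => ∑ e, if e₀ ≤ e then c e z * ρ z ^ ((e : ℕ) - e₀) else 0
  have hG : ContinuousAt G a := by
    refine tendsto_finsetSum _ fun e _ => ?_
    split_ifs
    · exact (hc e).mul (hρ.pow _)
    · exact tendsto_const_nhds
  have hGa : G a = c e₀ a := by
    simp only [G]
    rw [Finset.sum_eq_single e₀]
    · simp
    · intro e _ hne'
      split_ifs with h
      · have : e₀ < e := lt_of_le_of_ne h (Ne.symm hne')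
        have h2 : (e : ℕ) - e₀ ≠ 0 := by
          have : (e₀ : ℕ) < e := this
          omega
        simp [h0, h2]
      · rfl
    · simp
  have hG0 : ∀ᶠ z in F, G z ≠ 0 := hF (hG.eventually_ne (hGa ▸ he₀))
  apply hne
  filter_upwards [hlow, hG0, hs] with z hz hz' hz''
  have : ρ z ^ (e₀ : ℕ) * G z = 0 := by
    rw [← hz'', Finset.mul_sum]
    refine Finset.sum_congr rfl fun e _ => ?_
    split_ifs with h
    · have h' : (e₀ : ℕ) ≤ e := h
      rw [mul_left_comm, ← pow_add, Nat.add_sub_cancel' h']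
    · rw [hz e (not_le.1 h), mul_zero, zero_mul]
  exact pow_eq_zero_iff'.1 ((mul_eq_zero.1 this).resolve_right hz') |>.1

/-- A form of degree `ν` in `I` that vanishes on none of finitely many germs. For each `t` multiply
the given form by a power of a coordinate that is not zero at `a`; then
`Subspace.biUnion_ne_univ_of_top_notMem`. -/
theorem generic_form {σ T τ : Type} [Fintype σ] [TopologicalSpace T] (a : T)
    (I : Ideal (MvPolynomial σ ℂ)) (ν : ℕ) (S : Set τ) (hS : S.Finite) (F : τ → Filter T)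
    (Θ : τ → T → σ → ℂ) (hF : ∀ t ∈ S, F t ≤ 𝓝 a) (hΘ : ∀ t ∈ S, ContinuousAt (Θ t) a)
    (h0 : ∀ t ∈ S, Θ t a ≠ 0)
    (h : ∀ t ∈ S, ∃ ψ ∈ fm I ν, ¬ ∀ᶠ z in F t, eval (Θ t z) ψ = 0) :
    ∃ φ ∈ I, φ.IsHomogeneous ν ∧ ∀ t ∈ S, ¬ ∀ᶠ z in F t, eval (Θ t z) φ = 0 := by
  classical
  let V : Submodule ℂ (MvPolynomial σ ℂ) := I.restrictScalars ℂ ⊓ homogeneousSubmodule σ ℂ ν
  let W : τ → Submodule ℂ V := fun t =>
    { carrier := {φ | ∀ᶠ z in F t, eval (Θ t z) (φ : MvPolynomial σ ℂ) = 0}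
      zero_mem' := Eventually.of_forall fun z => by simp
      add_mem' := by
        intro φ ψ hφ hψ
        filter_upwards [hφ, hψ] with z h1 h2
        simp [h1, h2]
      smul_mem' := by
        intro r φ hφ
        filter_upwards [hφ] with z h1
        simp [h1] }
  have hW : ∀ t : S, W t ≠ ⊤ := by
    rintro ⟨t, ht⟩ htop
    obtain ⟨ψ, ⟨hψ, μ, hμ, hh⟩, hn⟩ := h t ht
    obtain ⟨i, hi⟩ := Function.ne_iff.1 (h0 t ht)
    have hi' : ∀ᶠ z in F t, Θ t z i ≠ 0 :=
      hF t ht ((continuousAt_pi.1 (hΘ t ht) i).eventually_ne hi)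
    have hm : ψ * X i ^ (ν - μ) ∈ V := by
      refine ⟨I.mul_mem_right _ hψ, ?_⟩
      have := hh.mul ((isHomogeneous_X ℂ i).pow (ν - μ))
      rwa [one_mul, Nat.add_sub_cancel' hμ] at this
    have hw : (⟨_, hm⟩ : V) ∈ W t := htop ▸ Submodule.mem_top
    apply hn
    filter_upwards [hi', hw] with z h1 h2
    simpa [h1] using h2
  have := hS.to_subtype
  obtain ⟨φ, hφ⟩ := Submodule.exists_forall_notMem_of_forall_ne_top (fun t : S => W t) hW
  exact ⟨φ, φ.2.1, φ.2.2, fun t ht => hφ ⟨t, ht⟩⟩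

end M4.Z
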