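import Pool.Agent.Lib.MP_33b3f9_ag.M4.ZDefs

/-! Dimension of primes as transcendence degree. -/

namespace M4.Z
open MvPolynomial

variable {k R : Type} [Field k] [CommRing R] [Algebra k R]

/-- A surjection of domains with nonzero kernel lowers the transcendence degree. -/
theorem dm_succ_le {A B : Type} [CommRing A] [CommRing B] [IsDomain A] [IsDomain B] [Algebra k A]
    [Algebra k B] (φ : A →ₐ[k] B) (hφ : Function.Surjective φ) {a : A} (ha : a ≠ 0)
    (h0 : φ a = 0) : Algebra.trdeg k B + 1 ≤ Algebra.trdeg k A := by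
  obtain ⟨ι, x', hx'⟩ := exists_isTranscendenceBasis' k B
  choose x hx using fun i => hφ (x' i)
  have e : φ ∘ x = x' := funext hx
  have hi : AlgebraicIndependent k x := AlgebraicIndependent.of_comp φ (e ▸ hx'.1)
  have ht : Transcendental (Algebra.adjoin k (Set.range x)) a := fun hal => by
    obtain ⟨⟨r, hr⟩, hr0, hd⟩ := hal.exists_nonzero_dvd (mem_nonZeroDivisors_of_ne_zero ha)
    have h1 : φ r = 0 := by
      have := map_dvd φ hd
      rwa [h0, zero_dvd_iff] at this
    have hr' := hr
    rw [Algebra.adjoin_range_eq_range_aeval] at hr'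
    obtain ⟨p, rfl⟩ := hr'
    have h2 : aeval x' p = 0 := by
      rw [← e, ← h1]
      exact (comp_aeval_apply x φ p).symm
    have h3 := hx'.1.eq_zero_of_aeval_eq_zero p h2
    subst h3
    exact hr0 (Subtype.ext (map_zero _))
  have h4 := ((hi.option_iff_transcendental a).2 ht).cardinalMk_le_trdeg
  rwa [Cardinal.mk_option, hx'.cardinalMk_eq_trdeg] at h4

/-- Hint: `f ∈ P' \ P` together with lifts of a transcendence basis of `R ⧸ P'` is algebraically
independent modulo `P` (a relation of least degree in `f` has constant term in `P'`, so zero);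
or: the localisation-free route `trdeg_le_of_surjective`, `trdeg_lt_aleph0_of_finiteType`,
`AlgebraicIndependent.option_iff` / `cardinalMk_le_trdeg`. -/
theorem dm_lt [Algebra.FiniteType k R] {P P' : Ideal R} (hP : P.IsPrime) (hP' : P'.IsPrime)
    (h : P < P') : dm k P' < dm k P := by
  obtain ⟨f, hf', hf⟩ := SetLike.exists_of_lt h
  have h1 := dm_succ_le (Ideal.Quotient.factorₐ k h.le) (Ideal.Quotient.factor_surjective h.le)
    (a := Ideal.Quotient.mk P f) (mt Ideal.Quotient.eq_zero_iff_mem.1 hf)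
    (Ideal.Quotient.eq_zero_iff_mem.2 hf')
  have h2 : Algebra.trdeg k (R ⧸ P) < Cardinal.aleph0 := trdeg_lt_aleph0_of_finiteType
  have h3 : Algebra.trdeg k (R ⧸ P') < Cardinal.aleph0 := trdeg_lt_aleph0_of_finiteType
  refine Cardinal.toNat_lt_toNat (lt_of_lt_of_le ?_ h1) h2
  obtain ⟨n, hn⟩ := Cardinal.lt_aleph0.1 h3
  rw [hn]
  exact_mod_cast Nat.lt_succ_self n

theorem dm_le [Algebra.FiniteType k R] {P P' : Ideal R} (hP : P.IsPrime) (hP' : P'.IsPrime)
    (h : P ≤ P') : dm k P' ≤ dm k P := by
  rcases h.eq_or_lt with rfl | h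
  · exact le_rfl
  · exact (dm_lt hP hP' h).le

/-- Hint: `MvPolynomial.trdeg_of_isDomain`, `RingEquiv.quotientBot`. -/
theorem dm_bot {σ : Type} [Fintype σ] :
    dm k (⊥ : Ideal (MvPolynomial σ k)) = Fintype.card σ := by
  rw [dm, (AlgEquiv.quotientBot k (MvPolynomial σ k)).trdeg_eq, MvPolynomial.trdeg_of_isDomain]
  simp

/-- If `R ⧸ P` is algebraic over the image of `y`, the dimension is at most the number of `y`.
Hint: `Algebra.IsAlgebraic.trdeg_le_cardinalMk`. -/
theorem dm_le_of_alg {ι : Type} [Fintype ι] {P : Ideal R} (hP : P.IsPrime) (y : ι → R)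
    (h : Algebra.IsAlgebraic
      (Algebra.adjoin k (Set.range fun i => Ideal.Quotient.mk P (y i))) (R ⧸ P)) :
    dm k P ≤ Fintype.card ι := by
  have h1 := (Algebra.IsAlgebraic.trdeg_le_cardinalMk k
    (Set.range fun i => Ideal.Quotient.mk P (y i))).trans Cardinal.mk_range_le
  have h2 := Cardinal.toNat_le_toNat h1 (Cardinal.mk_lt_aleph0_iff.2 inferInstance)
  rwa [Cardinal.mk_toNat_eq_card] at h2

/-- If moreover the dimension is the number of `y`, they are independent modulo `P`.
Hint: `isTranscendenceBasis_of_lift_le_trdeg_of_finite` (or its version without lift). -/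
theorem indep_of_dm {ι : Type} [Fintype ι] {P : Ideal R} (hP : P.IsPrime) (y : ι → R)
    (h : Algebra.IsAlgebraic
      (Algebra.adjoin k (Set.range fun i => Ideal.Quotient.mk P (y i))) (R ⧸ P))
    (hd : dm k P = Fintype.card ι) (r : MvPolynomial ι k) (hr : aeval y r ∈ P) : r = 0 := by
  have h1 : Cardinal.mk ι ≤ Algebra.trdeg k (R ⧸ P) := by
    rw [Cardinal.mk_fintype, ← hd]
    exact Cardinal.natCast_toNat_le _
  have h2 := Algebra.IsAlgebraic.isTranscendenceBasis_of_le_trdeg_of_finite k
    (fun i => Ideal.Quotient.mk P (y i)) h1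
  refine h2.1.eq_zero_of_aeval_eq_zero r ?_
  have h3 := comp_aeval_apply y (Ideal.Quotient.mkₐ k P) r
  exact h3.symm.trans (Ideal.Quotient.eq_zero_iff_mem.2 hr)

end M4.Z
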