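import Pool.Agent.Lib.MP_33b3f9_ag.M4.ZDm

/-! Generic elements cut out an isolated point. -/

namespace M4.Z
open MvPolynomial

variable {k R : Type} [Field k] [CommRing R] [Algebra k R]

/-- Induction on `e`. For `e = 0` every `Q ∈ W` is `m` (`dm_lt`). Step: `G` is in no `Q ≠ m` of `W`,
take `f ∈ G` outside all of them (`Subspace.biUnion_ne_univ_of_top_notMem`, applied to the
subspaces `comap G.subtype (Q.restrictScalars k)`); new `W` = minimal primes of `Q ⊔ span {f}`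
(`Q ∈ W`, `Q ≠ m`) that lie in `m` (`Ideal.finite_minimalPrimes_of_isNoetherianRing`,
`Ideal.exists_minimalPrimes_le`); use `Fin.cons`. -/
theorem gen [Infinite k] [Algebra.FiniteType k R] (m : Ideal R) (hm : m.IsPrime)
    (G : Submodule k R) (e : ℕ) (W : Set (Ideal R)) (hW : W.Finite)
    (hp : ∀ Q ∈ W, Q.IsPrime ∧ Q ≤ m ∧ dm k Q ≤ e)
    (hG : ∀ Q ∈ W, ∀ q : Ideal R, q.IsPrime → Q ≤ q → (∀ g ∈ G, g ∈ q) → q ≤ m → q = m) :
    ∃ f : Fin e → R, (∀ i, f i ∈ G) ∧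
      ∀ Q ∈ W, ∀ q : Ideal R, q.IsPrime → Q ≤ q → (∀ i, f i ∈ q) → q ≤ m → q = m := by
  have : IsNoetherianRing R := Algebra.FiniteType.isNoetherianRing k R
  induction e generalizing W with
  | zero =>
    refine ⟨Fin.elim0, fun i => i.elim0, fun Q hQ q hq h1 _ h2 => ?_⟩
    by_contra hne
    have h3 := dm_lt (k := k) hq hm (lt_of_le_of_ne h2 hne)
    have h4 := dm_le (k := k) (hp Q hQ).1 hq h1
    have h5 := (hp Q hQ).2.2
    omega
  | succ e ih =>
    have : Finite {Q // Q ∈ W ∧ Q ≠ m} := (hW.subset fun Q hQ => hQ.1).to_subtype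
    obtain ⟨f, hf⟩ := Submodule.exists_forall_notMem_of_forall_ne_top
      (fun Q : {Q // Q ∈ W ∧ Q ≠ m} => (Q.1.restrictScalars k).comap G.subtype) fun Q h =>
        Q.2.2 (hG Q Q.2.1 Q (hp Q Q.2.1).1 le_rfl
          (fun g hg => (h.ge (Submodule.mem_top (x := (⟨g, hg⟩ : G))) :)) (hp Q Q.2.1).2.1)
    obtain ⟨f', h1, h2⟩ := ih
      {q | ∃ Q ∈ W, Q ≠ m ∧ q ∈ (Q ⊔ Ideal.span {f.1}).minimalPrimes ∧ q ≤ m}
      ((hW.biUnion fun Q _ => Ideal.finite_minimalPrimes_of_isNoetherianRing R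
        (Q ⊔ Ideal.span {f.1})).subset fun q ⟨Q, hQ, _, h, _⟩ => Set.mem_biUnion hQ h)
      (fun q ⟨Q, hQ, hne, h, h'⟩ => ⟨h.1.1, h', by
        have h3 : Q < q := lt_of_le_of_ne (le_sup_left.trans h.1.2) fun h4 =>
          hf ⟨Q, hQ, hne⟩ (h4.ge (h.1.2 (Ideal.mem_sup_right (Ideal.mem_span_singleton_self _))))
        have h4 := dm_lt (k := k) (hp Q hQ).1 h.1.1 h3
        have h5 := (hp Q hQ).2.2
        omega⟩)
      (fun q ⟨Q, hQ, _, h, _⟩ q' hq' h3 => hG Q hQ q' hq' ((le_sup_left.trans h.1.2).trans h3))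
    refine ⟨Fin.cons f.1 f', fun i => Fin.cases f.2 h1 i, fun Q hQ q hq h3 h4 h5 => ?_⟩
    by_cases hQm : Q = m
    · exact le_antisymm h5 (hQm.ge.trans h3)
    obtain ⟨p, h6, h7⟩ := Ideal.exists_minimalPrimes_le (I := Q ⊔ Ideal.span {f.1}) (J := q)
      (sup_le h3 ((Ideal.span_singleton_le_iff_mem q).2 (h4 0)))
    exact h2 p ⟨Q, hQ, hQm, h6, h7.trans h5⟩ q hq h7 (fun i => h4 i.succ) h5

/-- If `m` is a minimal prime of `I`, the elements of `m` are nilpotent modulo `I` after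
localisation. Hint: `IsLocalization.AtPrime.radical_map_of_mem_minimalPrimes`, or: the submonoid
generated by `x i` and the complement of `m` meets `I`
(`Ideal.exists_le_prime_disjoint`). Then take the product of the `h` and the sum of the `N`. -/
theorem loc_nil {ι : Type} [Fintype ι] (I m : Ideal R) (hm : m.IsPrime) (hI : I ≤ m)
    (h : ∀ q : Ideal R, q.IsPrime → I ≤ q → q ≤ m → q = m) (x : ι → R) (hx : ∀ i, x i ∈ m) :
    ∃ (N : ℕ) (s : R), 1 ≤ N ∧ s ∉ m ∧ ∀ i, s * x i ^ N ∈ I := by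
  have key : ∀ i, ∃ (N : ℕ) (s : R), s ∉ m ∧ s * x i ^ N ∈ I := by
    intro i
    by_contra hc
    push Not at hc
    obtain ⟨q, hq, h1, h2⟩ := I.exists_le_prime_disjoint (m.primeCompl ⊔ Submonoid.powers (x i))
      (Set.disjoint_right.2 fun z hz => by
        obtain ⟨s, hs, _, ⟨N, rfl⟩, rfl⟩ := Submonoid.mem_sup.1 hz
        exact hc N s hs)
    have h3 : q = m := h q hq h1 fun z hz => by
      by_contra hzm
      exact Set.disjoint_left.1 h2 hz (Submonoid.mem_sup_left hzm)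
    exact Set.disjoint_left.1 h2 (h3.ge (hx i)) (Submonoid.mem_sup_right (Submonoid.mem_powers _))
  choose N s h1 h2 using key
  refine ⟨∑ i, N i + 1, ∏ i, s i, Nat.le_add_left _ _,
    (m.primeCompl.prod_mem fun i _ => h1 i :), fun i => ?_⟩
  exact I.mem_of_dvd (mul_dvd_mul (Finset.dvd_prod_of_mem s (Finset.mem_univ i))
    (pow_dvd_pow _ ((Finset.single_le_sum (fun _ _ => Nat.zero_le _) (Finset.mem_univ i)).trans
      (Nat.le_succ _)))) (h2 i)

end M4.Z
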