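import Pool.Agent.Lib.MP_33b3f9_ag.M4.ZGerm

/-! Smooth germs in the chart. -/

namespace M4.Z
open MvPolynomial

open Filter Topology

variable {σ T : Type} [Fintype σ] [NormedAddCommGroup T] [NormedSpace ℂ T] [FiniteDimensional ℂ T]

/-- A surjective linear map is the first component of an isomorphism. -/
theorem ifta_complete (e d : ℕ) (hT : Module.finrank ℂ T = e + d) (L : T →L[ℂ] Fin e → ℂ)
    (hs : Function.Surjective L) :
    ∃ (π : T →L[ℂ] Fin d → ℂ) (Φ : T ≃L[ℂ] (Fin e → ℂ) × (Fin d → ℂ)),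
      (Φ : T →L[ℂ] (Fin e → ℂ) × (Fin d → ℂ)) = L.prod π := by
  have hk : Module.finrank ℂ (LinearMap.ker (L : T →ₗ[ℂ] Fin e → ℂ)) =
      Module.finrank ℂ (Fin d → ℂ) := by
    have h := LinearMap.finrank_range_add_finrank_ker (L : T →ₗ[ℂ] Fin e → ℂ)
    rw [LinearMap.range_eq_top.2 hs, finrank_top, hT] at h
    simp only [Module.finrank_fintype_fun_eq_card, Fintype.card_fin] at h ⊢
    omega
  obtain ⟨p, hp⟩ := LinearMap.exists_leftInverse_of_injective
    (LinearMap.ker (L : T →ₗ[ℂ] Fin e → ℂ)).subtype (Submodule.ker_subtype _)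
  let ε := LinearEquiv.ofFinrankEq _ _ hk
  let π : T →ₗ[ℂ] Fin d → ℂ := ε.toLinearMap ∘ₗ p
  have hi : Function.Injective ((L : T →ₗ[ℂ] Fin e → ℂ).prod π) := by
    refine (injective_iff_map_eq_zero _).2 fun x hx => ?_
    have h1 : x ∈ LinearMap.ker (L : T →ₗ[ℂ] Fin e → ℂ) := congrArg Prod.fst hx
    have h2 : ε (p x) = 0 := congrArg Prod.snd hx
    have h3 : p x = ⟨x, h1⟩ := LinearMap.congr_fun hp ⟨x, h1⟩
    rw [LinearEquiv.map_eq_zero_iff, h3] at h2
    exact congrArg Subtype.val h2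
  have hd : Module.finrank ℂ T = Module.finrank ℂ ((Fin e → ℂ) × (Fin d → ℂ)) := by
    simp [hT]
  exact ⟨LinearMap.toContinuousLinearMap π,
    (LinearMap.linearEquivOfInjective _ hi hd).toContinuousLinearEquiv, by ext x <;> rfl⟩

/-- Analytic implicit function theorem. Complete `dF` by a linear `π : T → (Fin d → ℂ)` to an
isomorphism, `HasStrictFDerivAt.toOpenPartialHomeomorph`, `OpenPartialHomeomorph.analyticAt_symm'`,
`v s = G⁻¹ (0, s)`. -/
theorem ift (e d : ℕ) (hT : Module.finrank ℂ T = e + d) (a : T) (F : T → Fin e → ℂ)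
    (hF : AnalyticAt ℂ F a) (h0 : F a = 0) (hs : Function.Surjective (fderiv ℂ F a)) :
    Sm a d (𝓝[{z | F z = 0}] a) := by
  have := FiniteDimensional.complete ℂ T
  obtain ⟨π, Φ, hΦ⟩ := ifta_complete e d hT _ hs
  let G : T → (Fin e → ℂ) × (Fin d → ℂ) := fun z => (F z, π z - π a)
  have hG0 : G a = (0, 0) := by simp [G, h0]
  have hGa : AnalyticAt ℂ G a := hF.prod ((π.analyticAt a).sub analyticAt_const)
  have hG : HasStrictFDerivAt G (Φ : T →L[ℂ] (Fin e → ℂ) × (Fin d → ℂ)) a := by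
    rw [hΦ]
    exact hF.hasStrictFDerivAt.prodMk (π.hasStrictFDerivAt.sub_const _)
  let H := hG.toOpenPartialHomeomorph G
  have ha : a ∈ H.source := hG.mem_toOpenPartialHomeomorph_source
  have hHa : H a = (0, 0) := hG0
  have hs0 : H.symm (0, 0) = a := by rw [← hHa]; exact H.left_inv ha
  have h1 : AnalyticAt ℂ H.symm (0, 0) := by
    rw [← hHa]
    exact H.analyticAt_symm' ha hGa hG.hasFDerivAt.fderiv
  have h2 : HasFDerivAt H.symm (Φ.symm : (Fin e → ℂ) × (Fin d → ℂ) →L[ℂ] T) (0, 0) := by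
    rw [← hG0]
    exact hG.to_localInverse.hasFDerivAt
  let ι : (Fin d → ℂ) →L[ℂ] (Fin e → ℂ) × (Fin d → ℂ) := ContinuousLinearMap.inr ℂ _ _
  refine ⟨H.symm ∘ ι, AnalyticAt.comp h1 (ι.analyticAt 0), hs0, ?_, ?_⟩
  · rw [(HasFDerivAt.comp (f := ι) 0 h2 ι.hasFDerivAt).fderiv]
    exact Φ.symm.injective.comp (Prod.mk_right_injective _)
  · have h3 : Filter.map ι (𝓝 0) = 𝓝[{y | y.1 = 0}] (0, 0) := by
      have h4 : Set.range ι = {y | y.1 = 0} := by
        ext ⟨y, w⟩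
        exact ⟨fun ⟨s, h⟩ => (congrArg Prod.fst h).symm, fun h => ⟨w, Prod.ext (Eq.symm h) rfl⟩⟩
      rw [← h4]
      exact (isEmbedding_prodMkRight (0 : Fin e → ℂ)).isInducing.map_nhds_eq 0
    have h5 : H.IsImage {z | F z = 0} {y | y.1 = 0} := fun _ _ => Iff.rfl
    rw [← Filter.map_map, h3, h5.symm.map_nhdsWithin_eq (hHa ▸ H.map_source ha), hs0]

theorem iftb_deriv {E : Type} [NormedAddCommGroup E] [NormedSpace ℂ E] {f : E → σ → ℂ}
    {f' : E →L[ℂ] σ → ℂ} {a : E} (hf : HasFDerivAt f f' a) (p : MvPolynomial σ ℂ) :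
    ∃ D : E →L[ℂ] ℂ, HasFDerivAt (fun z => eval (f z) p) D a ∧
      ∀ w, D w = ∑ b, eval (f a) (pderiv b p) * f' w b := by
  classical
  induction p using MvPolynomial.induction_on with
  | C k => exact ⟨0, by simpa using hasFDerivAt_const k a, by simp⟩
  | add p q hp hq =>
    obtain ⟨D, h1, h2⟩ := hp
    obtain ⟨D', h1', h2'⟩ := hq
    refine ⟨D + D', ?_, fun w => ?_⟩
    · have := h1.add h1'
      refine this.congr_of_eventuallyEq (Eventually.of_forall fun z => ?_)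
      simp
    · simp [h2, h2', add_mul, Finset.sum_add_distrib]
  | mul_X p i hp =>
    obtain ⟨D, h1, h2⟩ := hp
    have h3 : HasFDerivAt (fun z => f z i) ((ContinuousLinearMap.proj i).comp f') a :=
      (ContinuousLinearMap.proj (R := ℂ) (φ := fun _ : σ => ℂ) i).hasFDerivAt.comp a hf
    refine ⟨_, (h1.mul h3).congr_of_eventuallyEq (Eventually.of_forall fun z => ?_), fun w => ?_⟩
    · simp
    · have h4 : ∀ b, eval (f a) (pderiv b (p * X i)) * f' w b =
          f a i * (eval (f a) (pderiv b p) * f' w b) +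
            (if i = b then eval (f a) p * f' w b else 0) := by
        intro b
        rw [pderiv_mul, pderiv_X]
        by_cases h : i = b
        · subst h
          simp
          ring
        · simp [h]
          ring
      simp only [h4, Finset.sum_add_distrib, Finset.sum_ite_eq, Finset.mem_univ, if_true,
        ← Finset.mul_sum, ← h2]
      simp [add_comm]

omit [Fintype σ] in
theorem iftb_smul {g : MvPolynomial σ ℂ} {μ : ℕ} (hg : g.IsHomogeneous μ) (c : ℂ) (x : σ → ℂ) :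
    eval (c • x) g = c ^ μ * eval x g := by
  rw [eval_eq, eval_eq, Finset.mul_sum]
  refine Finset.sum_congr rfl fun m hm => ?_
  have h : ∑ i ∈ m.support, m i = μ := by
    have := hg (mem_support_iff.1 hm)
    rw [← this, Finsupp.weight_apply, Finsupp.sum]
    simp
  simp only [Pi.smul_apply, smul_eq_mul, mul_pow, Finset.prod_mul_distrib,
    Finset.prod_pow_eq_pow_sum, h]
  ring

omit [FiniteDimensional ℂ T] in
theorem iftb_an {a : T} {Θ : T → σ → ℂ} (h : AnalyticAt ℂ Θ a) (p : MvPolynomial σ ℂ) :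
    AnalyticAt ℂ (fun z => eval (Θ z) p) a :=
  (AnalyticOnNhd.eval_mvPolynomial p (Θ a) (Set.mem_univ _)).comp h

/-- `dψ(x)` is onto (minor), kills `x` (Euler, `IsHomogeneous.sum_X_mul_pderiv`), and
`(l, w) ↦ l • x + dΘ w` is bijective (`Et` and dimensions); `ift`. -/
theorem sm_of_minor (e d : ℕ) (hσ : Fintype.card σ = e + d + 1)
    (hT : Module.finrank ℂ T = e + d) (a : T) (Θ : T → σ → ℂ) (hΘ : Et a Θ)
    (ψ : Fin e → MvPolynomial σ ℂ) (hh : ∀ i, ∃ μ, (ψ i).IsHomogeneous μ) (j : Fin e → σ)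
    (h0 : ∀ i, eval (Θ a) (ψ i) = 0)
    (hj : eval (Θ a) (Matrix.of fun a b => pderiv (j b) (ψ a)).det ≠ 0) :
    Sm a d (𝓝[{z | ∀ i, eval (Θ z) (ψ i) = 0}] a) := by
  classical
  have hd := hΘ.1.differentiableAt.hasFDerivAt
  choose D hD1 hD2 using fun i => iftb_deriv hd (ψ i)
  have hF : HasFDerivAt (fun z i => eval (Θ z) (ψ i)) (ContinuousLinearMap.pi D) a :=
    hasFDerivAt_pi.2 hD1
  have hset : {z | ∀ i, eval (Θ z) (ψ i) = 0} = {z | (fun i => eval (Θ z) (ψ i)) = 0} := by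
    ext z
    simp [funext_iff]
  rw [hset]
  refine ift e d hT a (fun z i => eval (Θ z) (ψ i))
    (analyticAt_pi_iff.2 fun i => iftb_an hΘ.1 (ψ i)) (funext h0) ?_
  rw [hF.fderiv]
  intro t
  let L : (ℂ × T) →ₗ[ℂ] (σ → ℂ) :=
    (LinearMap.toSpanSingleton ℂ _ (Θ a)).coprod (fderiv ℂ Θ a).toLinearMap
  have hL : ∀ l w, L (l, w) = l • Θ a + fderiv ℂ Θ a w := fun l w => rfl
  have hinj : Function.Injective L := by
    rw [injective_iff_map_eq_zero]
    rintro ⟨l, w⟩ h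
    obtain ⟨h1, h2⟩ := hΘ.2 l w h
    rw [h1, h2]
    rfl
  have hsur : Function.Surjective L := by
    refine (LinearMap.injective_iff_surjective_of_finrank_eq_finrank ?_).1 hinj
    rw [Module.finrank_prod, Module.finrank_self, hT, Module.finrank_fintype_fun_eq_card, hσ]
    omega
  let M : Matrix (Fin e) (Fin e) ℂ := Matrix.of fun i b => eval (Θ a) (pderiv (j b) (ψ i))
  have hM : IsUnit M.det := by
    rw [RingHom.map_det] at hj
    exact isUnit_iff_ne_zero.2 hj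
  let c : Fin e → ℂ := M⁻¹.mulVec t
  have hc : M.mulVec c = t := by
    rw [Matrix.mulVec_mulVec, Matrix.mul_nonsing_inv _ hM, Matrix.one_mulVec]
  obtain ⟨⟨l, w⟩, hlw⟩ := hsur fun b => ∑ k, if j k = b then c k else 0
  rw [hL] at hlw
  refine ⟨w, funext fun i => ?_⟩
  have hw : ∀ b, fderiv ℂ Θ a w b = (∑ k, if j k = b then c k else 0) - l * Θ a b := by
    intro b
    have := congrFun hlw b
    simp only [Pi.add_apply, Pi.smul_apply, smul_eq_mul] at this
    rw [← this]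
    ring
  have hE : ∑ b, eval (Θ a) (pderiv b (ψ i)) * (l * Θ a b) = 0 := by
    obtain ⟨μ, hμ⟩ := hh i
    have h1 := congrArg (eval (Θ a)) hμ.sum_X_mul_pderiv
    rw [map_nsmul, h0 i, smul_zero, map_sum] at h1
    calc ∑ b, eval (Θ a) (pderiv b (ψ i)) * (l * Θ a b)
        = l * ∑ b, eval (Θ a) (X b * pderiv b (ψ i)) := by
          rw [Finset.mul_sum]
          refine Finset.sum_congr rfl fun b _ => ?_
          rw [map_mul, eval_X]
          ring
      _ = 0 := by rw [h1, mul_zero]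
  rw [ContinuousLinearMap.pi_apply, hD2]
  simp only [hw, mul_sub, Finset.sum_sub_distrib, hE, sub_zero, Finset.mul_sum]
  rw [Finset.sum_comm, ← hc]
  simp [M, Matrix.mulVec, dotProduct]

/-- `germ_eq` for `u (l, s) = (1 + l) • Θ (v s)` on `ℂ × (Fin d → ℂ)`, `v` from `sm_of_minor`. -/
theorem germ (e d : ℕ) (hσ : Fintype.card σ = e + d + 1)
    (hT : Module.finrank ℂ T = e + d) (a : T) (Θ : T → σ → ℂ) (hΘ : Et a Θ)
    (ψ : Fin e → MvPolynomial σ ℂ) (hh : ∀ i, ∃ μ, (ψ i).IsHomogeneous μ) (j : Fin e → σ)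
    (h0 : ∀ i, eval (Θ a) (ψ i) = 0)
    (hj : eval (Θ a) (Matrix.of fun a b => pderiv (j b) (ψ a)).det ≠ 0)
    (q : Ideal (MvPolynomial σ ℂ)) (hq : q.IsPrime) (hψq : ∀ i, ψ i ∈ q) (hqm : q ≤ mx (Θ a))
    (hd : d + 1 ≤ dm ℂ q) (μ : ℕ) (g : MvPolynomial σ ℂ) (hg : g.IsHomogeneous μ) :
    g ∈ q ↔ ∀ᶠ z in 𝓝[{z | ∀ i, eval (Θ z) (ψ i) = 0}] a, eval (Θ z) g = 0 := by
  obtain ⟨v, hv, hv0, hvi, hvm⟩ := sm_of_minor e d hσ hT a Θ hΘ ψ hh j h0 hj
  let u : ℂ × (Fin d → ℂ) → σ → ℂ := fun p => (1 + p.1) • Θ (v p.2)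
  have hu0 : u 0 = Θ a := by simp [u, hv0]
  have hΘ' : AnalyticAt ℂ Θ (v 0) := hv0 ▸ hΘ.1
  have hs : AnalyticAt ℂ (fun p : ℂ × (Fin d → ℂ) => Θ (v p.2)) 0 :=
    AnalyticAt.comp (g := fun s => Θ (v s)) (f := fun p : ℂ × (Fin d → ℂ) => p.2)
      (AnalyticAt.comp (g := Θ) (f := v) hΘ' hv) analyticAt_snd
  have h1 : AnalyticAt ℂ (fun p : ℂ × (Fin d → ℂ) => 1 + p.1) 0 :=
    analyticAt_const.add analyticAt_fst
  have hu : AnalyticAt ℂ u 0 := h1.smul hs
  have hd1 : HasFDerivAt (fun p : ℂ × (Fin d → ℂ) => 1 + p.1)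
      (ContinuousLinearMap.fst ℂ ℂ (Fin d → ℂ)) 0 := hasFDerivAt_fst.const_add 1
  have hd2 : HasFDerivAt (fun p : ℂ × (Fin d → ℂ) => Θ (v p.2))
      ((fderiv ℂ Θ (v 0)).comp ((fderiv ℂ v 0).comp (ContinuousLinearMap.snd ℂ ℂ (Fin d → ℂ))))
      0 :=
    HasFDerivAt.comp (g := Θ) (f := fun p : ℂ × (Fin d → ℂ) => v p.2) 0
      hΘ'.differentiableAt.hasFDerivAt
      (HasFDerivAt.comp (g := v) (f := fun p : ℂ × (Fin d → ℂ) => p.2) 0
        hv.differentiableAt.hasFDerivAt hasFDerivAt_snd)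
  have hinj : Function.Injective (fderiv ℂ u 0) := by
    have h3 : HasFDerivAt u _ 0 := hd1.smul hd2
    rw [h3.fderiv, injective_iff_map_eq_zero]
    rintro ⟨l, s⟩ h
    have h4 : l • Θ a + fderiv ℂ Θ a (fderiv ℂ v 0 s) = 0 := by
      rw [← h]
      simp [hv0, add_comm]
    obtain ⟨h5, h6⟩ := hΘ.2 _ _ h4
    rw [h5, (injective_iff_map_eq_zero _).1 hvi s h6]
    rfl
  have key : ∀ (μ : ℕ) (g : MvPolynomial σ ℂ), g.IsHomogeneous μ →
      ((∀ᶠ p in 𝓝 (0 : ℂ × (Fin d → ℂ)), eval (u p) g = 0) ↔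
        ∀ᶠ z in 𝓝[{z | ∀ i, eval (Θ z) (ψ i) = 0}] a, eval (Θ z) g = 0) := by
    intro μ g hg
    rw [← hvm, eventually_map]
    constructor
    · intro h
      have hc : Tendsto (fun s : Fin d → ℂ => ((0 : ℂ), s)) (𝓝 0) (𝓝 0) :=
        (continuous_const.prodMk continuous_id).tendsto' 0 0 rfl
      refine (hc.eventually h).mono fun s hs => ?_
      simpa [u] using hs
    · intro h
      have hc : Tendsto (fun p : ℂ × (Fin d → ℂ) => p.2) (𝓝 0) (𝓝 0) :=
        continuous_snd.tendsto' 0 0 rfl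
      refine (hc.eventually h).mono fun p hp => ?_
      rw [iftb_smul hg, hp, mul_zero]
  rw [← key μ g hg]
  refine germ_eq e d hσ ?_ u hu hinj ψ j (fun i => ?_) (hu0 ▸ hj) q hq hψq (hu0 ▸ hqm) hd g
  · rw [Module.finrank_prod, Module.finrank_self, Module.finrank_fintype_fun_eq_card,
      Fintype.card_fin, add_comm]
  · obtain ⟨ν, hν⟩ := hh i
    exact (key ν _ hν).2 (eventually_mem_nhdsWithin.mono fun z hz => hz i)

/-- For homogeneous `q`: finitely many generators, their homogeneous components lie in `q`. -/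
theorem cuts (e d : ℕ) (hσ : Fintype.card σ = e + d + 1)
    (hT : Module.finrank ℂ T = e + d) (a : T) (Θ : T → σ → ℂ) (hΘ : Et a Θ)
    (ψ : Fin e → MvPolynomial σ ℂ) (hh : ∀ i, ∃ μ, (ψ i).IsHomogeneous μ) (j : Fin e → σ)
    (h0 : ∀ i, eval (Θ a) (ψ i) = 0)
    (hj : eval (Θ a) (Matrix.of fun a b => pderiv (j b) (ψ a)).det ≠ 0)
    (q : Ideal (MvPolynomial σ ℂ)) (hq : q.IsPrime) (hψq : ∀ i, ψ i ∈ q) (hqm : q ≤ mx (Θ a))
    (hd : d + 1 ≤ dm ℂ q) (hH : Hom q) :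
    Cuts a Θ (𝓝[{z | ∀ i, eval (Θ z) (ψ i) = 0}] a) q := by
  have h := germ e d hσ hT a Θ hΘ ψ hh j h0 hj q hq hψq hqm hd
  refine ⟨h, le_antisymm (nhdsWithin_mono a fun z hz i => hz _ (hψq i)) ?_⟩
  obtain ⟨s, hs⟩ := IsNoetherian.noetherian q
  have h1 : ∀ g ∈ q, ∀ᶠ z in 𝓝[{z | ∀ i, eval (Θ z) (ψ i) = 0}] a, eval (Θ z) g = 0 := by
    intro g hg
    have h2 := (eventually_all_finset (Finset.range (g.totalDegree + 1))).2 fun μ _ =>
      (h μ _ (homogeneousComponent_isHomogeneous μ g)).1 (hH g hg μ)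
    refine h2.mono fun z hz => ?_
    rw [← sum_homogeneousComponent g, map_sum]
    exact Finset.sum_eq_zero hz
  have h3 := (eventually_all_finset s).2 fun g hg =>
    h1 g (hs ▸ Submodule.subset_span (Finset.mem_coe.2 hg))
  refine le_inf nhdsWithin_le_nhds (le_principal_iff.2 (h3.mono fun z hz g hg => ?_))
  have h4 : q ≤ RingHom.ker (eval (Θ z)) := by
    rw [← hs]
    exact Submodule.span_le.2 fun x hx => hz x hx
  exact h4 hg

end M4.Z
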