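import Pool.Agent.Lib.MP_33b3f9_ag.M4.ZDefs

/-! Pruning in a product. -/

namespace M4.Z
open MvPolynomial

open Finset in
/-- If all lines through points of `G` are rich, the colour classes are large. -/
theorem lw_rich {ι : Type} [Fintype ι] [DecidableEq ι] {Ω : ι → Type} [∀ i, DecidableEq (Ω i)]
    (th : ℕ) {C : Type} [DecidableEq C] (G : Finset (∀ i, Ω i)) (col : (∀ i, Ω i) → C)
    (hc : ∀ ξ ∈ G, ∀ η ∈ G, Nbr ξ η → col ξ = col η)
    (h : ∀ ξ ∈ G, ∀ i, th ≤ #{η ∈ G | ∀ j, j ≠ i → ξ j = η j}) (U : Finset ι) :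
    ∀ ξ ∈ G, th ^ U.card ≤ #{η ∈ G | col η = col ξ ∧ ∀ j, j ∉ U → η j = ξ j} := by
  induction U using Finset.induction_on with
  | empty =>
    intro ξ hξ
    rw [card_empty, pow_zero]
    exact card_pos.2 ⟨ξ, mem_filter.2 ⟨hξ, rfl, fun _ _ => rfl⟩⟩
  | insert i U hi ih =>
    intro ξ hξ
    have hd : ((G.filter fun η => ∀ j, j ≠ i → ξ j = η j : Finset (∀ i, Ω i)) :
        Set (∀ i, Ω i)).PairwiseDisjoint
          fun η => G.filter fun ζ => col ζ = col η ∧ ∀ j, j ∉ U → ζ j = η j := by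
      intro η hη η' hη' hne
      refine disjoint_left.2 fun ζ h1 h2 => hne (funext fun j => ?_)
      rcases eq_or_ne j i with rfl | hj
      · exact ((mem_filter.1 h1).2.2 j hi).symm.trans ((mem_filter.1 h2).2.2 j hi)
      · exact ((mem_filter.1 hη).2 j hj).symm.trans ((mem_filter.1 hη').2 j hj)
    calc th ^ #(insert i U) = th * th ^ U.card := by rw [card_insert_of_notMem hi, pow_succ']
      _ ≤ #{η ∈ G | ∀ j, j ≠ i → ξ j = η j} * th ^ U.card := Nat.mul_le_mul_right _ (h ξ hξ i)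
      _ ≤ ∑ η ∈ G with ∀ j, j ≠ i → ξ j = η j,
            #{ζ ∈ G | col ζ = col η ∧ ∀ j, j ∉ U → ζ j = η j} :=
          card_nsmul_le_sum _ _ _ fun η hη => ih η (mem_filter.1 hη).1
      _ = _ := (card_biUnion hd).symm
      _ ≤ _ := by
          refine card_le_card fun ζ hζ => ?_
          obtain ⟨η, hη, hζ⟩ := mem_biUnion.1 hζ
          obtain ⟨hη1, hη2⟩ := mem_filter.1 hη
          obtain ⟨hζ1, hζ2, hζ3⟩ := mem_filter.1 hζ
          refine mem_filter.2 ⟨hζ1, hζ2.trans (hc ξ hξ η hη1 ⟨i, hη2⟩).symm, fun j hj => ?_⟩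
          rw [mem_insert, not_or] at hj
          exact (hζ3 j hj.2).trans (hη2 j hj.1).symm

/-- The projection along the direction `i`. -/
def lw_pr {ι : Type} {Ω : ι → Type} (i : ι) (ξ : ∀ i, Ω i) : ∀ j : {j // j ≠ i}, Ω j :=
  fun j => ξ j

open Finset in
/-- Pruning: every point is charged to a line with few points. -/
theorem lw_prune {ι : Type} [Fintype ι] [DecidableEq ι] {Ω : ι → Type} [∀ i, DecidableEq (Ω i)]
    (th B : ℕ) (hB : B < th ^ Fintype.card ι) {C : Type} [DecidableEq C]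
    (col : (∀ i, Ω i) → C) (G : Finset (∀ i, Ω i)) :
    (∀ ξ ∈ G, ∀ η ∈ G, Nbr ξ η → col ξ = col η) → (∀ c, #{ξ ∈ G | col ξ = c} ≤ B) →
      G.card ≤ ∑ i, th * #(G.image (lw_pr i)) := by
  induction G using Finset.strongInduction with
  | H G ih =>
    intro hc hs
    by_cases h : ∀ ξ ∈ G, ∀ i, th ≤ #{η ∈ G | ∀ j, j ≠ i → ξ j = η j}
    · rcases G.eq_empty_or_nonempty with rfl | ⟨ξ, hξ⟩
      · simp
      · have h1 := lw_rich th G col hc h univ ξ hξ
        have h2 : #{η ∈ G | col η = col ξ ∧ ∀ j, j ∉ (univ : Finset ι) → η j = ξ j} ≤ B :=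
          (card_le_card fun η hη => mem_filter.2
            ⟨(mem_filter.1 hη).1, (mem_filter.1 hη).2.1⟩).trans (hs (col ξ))
        rw [card_univ] at h1
        omega
    · push Not at h
      obtain ⟨ξ, hξ, i, hlt⟩ := h
      have hsub : (G.filter fun η => ¬ ∀ j, j ≠ i → ξ j = η j) ⊆ G := filter_subset _ _
      have hss : (G.filter fun η => ¬ ∀ j, j ≠ i → ξ j = η j) ⊂ G :=
        (ssubset_iff_of_subset hsub).2 ⟨ξ, hξ, fun hh => (mem_filter.1 hh).2 fun _ _ => rfl⟩
      have h1 := ih _ hss (fun a ha b hb => hc a (hsub ha) b (hsub hb))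
        fun c => (card_le_card (filter_subset_filter _ hsub)).trans (hs c)
      have h2 := card_filter_add_card_filter_not (s := G) fun η => ∀ j, j ≠ i → ξ j = η j
      have h3 : #((G.filter fun η => ¬ ∀ j, j ≠ i → ξ j = η j).image (lw_pr i)) + 1 ≤
          #(G.image (lw_pr i)) := by
        refine card_lt_card ((ssubset_iff_of_subset (image_subset_image hsub)).2
          ⟨lw_pr i ξ, mem_image_of_mem _ hξ, fun hh => ?_⟩)
        obtain ⟨η, hη, he⟩ := mem_image.1 hh
        exact (mem_filter.1 hη).2 fun j hj => (congrFun he ⟨j, hj⟩).symm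
      have h4 : ∑ j ∈ univ.erase i,
          th * #((G.filter fun η => ¬ ∀ j, j ≠ i → ξ j = η j).image (lw_pr j)) ≤
          ∑ j ∈ univ.erase i, th * #(G.image (lw_pr j)) :=
        sum_le_sum fun j _ => Nat.mul_le_mul_left _ (card_le_card (image_subset_image hsub))
      have h5 := Nat.mul_le_mul_left th h3
      rw [← add_sum_erase _ _ (mem_univ i)] at h1 ⊢
      rw [mul_add, mul_one] at h5
      omega

/-- Strong induction on `G`: `card G ≤ th * (number of lines meeting G)`. If every line through a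
point of `G` has at least `th` points of `G`, the sets
`R U = {η ∈ G | col η = col ξ, η j = ξ j for j ∉ U}` have at least `th ^ card U` points
(induction on the finset `U`). The lines in direction `i` are disjoint with at least `N` points. -/
theorem lw {ι : Type} [Fintype ι] {Ω : ι → Type} [∀ i, Finite (Ω i)] (N th B : ℕ)
    (hN : ∀ i, N ≤ Nat.card (Ω i)) (hB : B < th ^ Fintype.card ι) {C : Type}
    (G : Set (∀ i, Ω i)) (col : (∀ i, Ω i) → C)
    (hc : ∀ ξ ∈ G, ∀ η ∈ G, Nbr ξ η → col ξ = col η)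
    (hs : ∀ c, {ξ | ξ ∈ G ∧ col ξ = c}.ncard ≤ B) :
    G.ncard * N ≤ Fintype.card ι * th * Nat.card (∀ i, Ω i) := by
  classical
  have hG : G.Finite := Set.toFinite G
  obtain ⟨G, rfl⟩ := hG.exists_finset_coe
  have h1 := lw_prune th B hB col G hc fun c => by
    have := hs c
    rwa [show {ξ | ξ ∈ (G : Set (∀ i, Ω i)) ∧ col ξ = c} =
      ((G.filter fun ξ => col ξ = c : Finset (∀ i, Ω i)) : Set (∀ i, Ω i)) by ext; simp,
      Set.ncard_coe_finset] at this
  have h2 : ∀ i, (G.image (lw_pr i)).card * N ≤ Nat.card (∀ i, Ω i) := fun i => by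
    rw [Nat.card_congr (Equiv.piSplitAt i Ω), Nat.card_prod, mul_comm]
    refine Nat.mul_le_mul (hN i) ?_
    rw [← Set.ncard_coe_finset, ← Set.ncard_univ]
    exact Set.ncard_le_ncard (Set.subset_univ _)
  rw [Set.ncard_coe_finset]
  calc G.card * N ≤ (∑ i, th * (G.image (lw_pr i)).card) * N := Nat.mul_le_mul_right _ h1
    _ = ∑ i, th * ((G.image (lw_pr i)).card * N) := by
        rw [Finset.sum_mul]
        exact Finset.sum_congr rfl fun i _ => mul_assoc _ _ _
    _ ≤ ∑ _i : ι, th * Nat.card (∀ i, Ω i) :=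
        Finset.sum_le_sum fun i _ => Nat.mul_le_mul_left _ (h2 i)
    _ = _ := by rw [Finset.sum_const, Finset.card_univ, smul_eq_mul, mul_assoc]

end M4.Z
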