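import Pool.Agent.Lib.MP_33b3f9_ag.M4.ZStep
import Pool.Agent.Lib.MP_33b3f9_ag.M4.ZLw

/-! The zero estimate. -/

namespace M4.Z
open MvPolynomial

theorem main_nu (n k : ℕ) (hk : 1 ≤ k) : nu n k ≤ ((n + 1) * (9 * n + 2) + 3 * n + 1) * k := by
  have h := Nat.mul_le_mul_left (3 * n + 1) hk
  unfold nu
  nlinarith

theorem main_nbr {ι : Type} {Ω : ι → Type} (ξ η : ∀ i, Ω i) (h : Nbr ξ η) : Nbr η ξ :=
  h.imp fun _ hi j hj => (hi j hj).symm

theorem main_start {σ Ξ : Type} [Fintype σ] {d k : ℕ} (hσ : Fintype.card σ = d + 1 + 1)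
    (x : Ξ → σ → ℂ) (A : Set Ξ) (h : HP x A k < (k + (d + 1)).choose (d + 1)) : St x d k 1 A := by
  refine ⟨Unit, inferInstance, fun _ => (), by simp, fun ξ _ q hq h1 _ => ?_⟩
  obtain ⟨g, hg, h0⟩ := exists_form hσ x A k h
  have e : {η | η ∈ A ∧ (fun _ : Ξ => ()) η = (fun _ : Ξ => ()) ξ} = A := by
    ext η
    simp
  rw [e] at h1
  have h2 := dm_lt (k := ℂ) Ideal.isPrime_bot hq
    (bot_lt_iff_ne_bot.2 fun hb => h0 (by simpa [hb] using h1 hg))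
  rw [dm_bot, hσ] at h2
  omega

/-- The zero estimate. -/
theorem zeroEst {σ T ι : Type} [Fintype σ] [NormedAddCommGroup T] [NormedSpace ℂ T]
    [FiniteDimensional ℂ T] [Fintype ι] {Ω : ι → Type} [∀ i, Finite (Ω i)]
    (n N K k0 H0 L D C0 th : ℕ) (hn : 1 ≤ n) (hσ : Fintype.card σ = n + 1)
    (hT : Module.finrank ℂ T = n) (hN : ∀ i, N ≤ Nat.card (Ω i)) (a : T)
    (Θ : (∀ i, Ω i) → T → σ → ℂ) (X0 : Set (∀ i, Ω i)) (hE : ∀ ξ ∈ X0, Et a (Θ ξ))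
    (hH : ∀ μ ≤ K, HP (fun ξ => Θ ξ a) X0 μ ≤ H0) (hk : 1 ≤ k0) (hk0 : H0 < (k0 + n).choose n)
    (hL : H0 < 2 ^ L) (hHN : HN a Θ X0 Nbr D) (hC : CL n a Θ X0 C0)
    (hM : ∀ ξ ∈ X0, {η | η ∈ X0 ∧ ∃ c : ℂ, Θ η a = c • Θ ξ a}.ncard ≤ C0)
    (hK : k0 * (((n + 1) * (9 * n + 2) + 3 * n + 1) * (n + D)) ^ n ≤ K)
    (hth : (2 * (L + 1) ^ 2 * (D + 1)) ^ 2 ^ n * C0 * H0 < th ^ Fintype.card ι) :
    X0.ncard * N ≤ n * (Fintype.card ι * th * Nat.card (∀ i, Ω i)) +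
      N * ((2 * (L + 1) ^ 2 * (D + 1)) ^ 2 ^ n * C0 * H0) := by
  have hX0 : X0.Finite := Set.toFinite _
  generalize hb : 2 * (L + 1) ^ 2 * (D + 1) = b at hth ⊢
  have hb1 : 1 ≤ b := hb ▸ Nat.succ_le_of_lt (by positivity)
  have hnu := main_nu n
  generalize (n + 1) * (9 * n + 2) + 3 * n + 1 = C1 at hK hnu
  have hC1 : 1 ≤ C1 := by
    have := hnu 1 le_rfl
    unfold nu at this
    omega
  have hM1 : 1 ≤ C1 * (n + D) := Nat.mul_pos hC1 (by omega)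
  have hm : ∀ m d : ℕ, (m * b) ^ 2 ^ d ≤ b ^ 2 ^ n → m * C0 * H0 ≤ b ^ 2 ^ n * C0 * H0 :=
    fun m d h => Nat.mul_le_mul_right _ (Nat.mul_le_mul_right _
      ((Nat.le_mul_of_pos_right m hb1).trans ((Nat.le_self_pow (by positivity) _).trans h)))
  have hνK : ∀ k d : ℕ, 1 ≤ k → k * (C1 * (n + D)) ^ (d + 1) ≤ K → nu n k ≤ K := fun k d h1 h2 =>
    calc nu n k ≤ C1 * k := hnu k h1
      _ ≤ k * (C1 * (n + D)) := by
        rw [mul_comm]
        exact Nat.mul_le_mul_left _ (Nat.le_mul_of_pos_right _ (by omega))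
      _ ≤ k * (C1 * (n + D)) ^ (d + 1) := Nat.mul_le_mul_left _ (Nat.le_self_pow (by omega) _)
      _ ≤ K := h2
  have key : ∀ (d k m : ℕ) (A : Set (∀ i, Ω i)), d + 1 ≤ n → A ⊆ X0 → 1 ≤ k →
      k * (C1 * (n + D)) ^ (d + 1) ≤ K → (m * b) ^ 2 ^ d ≤ b ^ 2 ^ n →
      St (fun ξ => Θ ξ a) d k m A →
      A.ncard * N ≤ d * (Fintype.card ι * th * Nat.card (∀ i, Ω i)) +
        N * (b ^ 2 ^ n * C0 * H0) := by
    intro d
    induction d with
    | zero =>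
      intro k m A _ hA h1 h2 h3 hS
      have h4 := last n k m H0 C0 hσ h1 (fun ξ => Θ ξ a) X0 hX0
        (fun ξ hξ h => one_ne_zero ((hE ξ hξ).2 1 0 (by rw [one_smul, map_zero, add_zero, h])).1)
        (hH _ (hνK k 0 h1 h2)) hM A hA hS
      rw [zero_mul, zero_add, mul_comm]
      exact Nat.mul_le_mul_left _ (h4.trans (hm m 0 h3))
    | succ d ih =>
      intro k m A hd hA h1 h2 h3 hS
      obtain ⟨G, hG, hS', col, hc, hs⟩ := step n (n - (d + 1)) d k m H0 L D C0 hσ (by omega)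
        (by omega) hT h1 a Θ X0 hX0 Nbr main_nbr hE (hH _ (hνK k _ h1 h2)) hL hHN hC A hA hS
      have h4 := lw N th _ hN hth G col hc fun c => (hs c).trans (hm m _ h3)
      rw [hb] at hS'
      have h5 := ih _ _ (A \ G) (by omega) (Set.sdiff_subset.trans hA)
        (Nat.mul_pos (by omega) (by unfold nu; omega)) (le_trans ?_ h2) (le_of_eq_of_le ?_ h3) hS'
      · have h6 := Set.ncard_sdiff_add_ncard_of_subset hG (hX0.subset hA)
        rw [← h6, add_mul, add_mul, one_mul]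
        omega
      · calc (n + D) * nu n k * (C1 * (n + D)) ^ (d + 1)
            ≤ (n + D) * (C1 * k) * (C1 * (n + D)) ^ (d + 1) :=
              Nat.mul_le_mul_right _ (Nat.mul_le_mul_left _ (hnu k h1))
          _ = _ := by ring
      · rw [pow_succ' 2 d, pow_mul]
        congr 1
        ring
  obtain ⟨d, rfl⟩ : ∃ d, n = d + 1 := ⟨n - 1, by omega⟩
  have h7 : k0 ≤ K := (Nat.le_mul_of_pos_right _ (Nat.pow_pos hM1)).trans hK
  refine (key d k0 1 X0 le_rfl subset_rfl hk hK ?_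
    (main_start hσ _ _ ((hH _ h7).trans_lt hk0))).trans ?_
  · rw [one_mul]
    exact Nat.pow_le_pow_right hb1 (Nat.pow_le_pow_right two_pos (Nat.le_succ d))
  · exact Nat.add_le_add_right (Nat.mul_le_mul_right _ (Nat.le_succ d)) _

end M4.Z
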