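import Pool.Agent.Lib.MP_33b3f9_ag.M4.ZDm

/-! A non zero Jacobian minor bounds the dimension. -/

namespace M4.Z
open MvPolynomial

lemma ns_deriv_aeval {σ F K M : Type*} [Fintype σ] [DecidableEq σ] [CommRing F] [CommRing K]
    [Algebra F K] [Algebra ℂ K] [AddCommGroup M] [Module F M] [Module K M]
    (D : Derivation F K M) (hD : ∀ c : ℂ, D (algebraMap ℂ K c) = 0) (x : σ → K)
    (p : MvPolynomial σ ℂ) : D (aeval x p) = ∑ i, aeval x (pderiv i p) • D (x i) := by
  induction p using MvPolynomial.induction_on with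
  | C c => simp [hD]
  | add p q hp hq => simp [hp, hq, add_smul, Finset.sum_add_distrib]
  | mul_X p k hp =>
    have h1 : ∀ i, aeval x (pderiv i (p * X k)) • D (x i)
        = (if i = k then aeval x p • D (x k) else 0) + x k • (aeval x (pderiv i p) • D (x i)) := by
      intro i
      by_cases hi : i = k
      · subst hi
        simp [add_smul, mul_smul]
      · simp [hi, pderiv_X_of_ne (Ne.symm hi), mul_smul]
    rw [Finset.sum_congr rfl fun i _ => h1 i, Finset.sum_add_distrib, ← Finset.smul_sum, ← hp]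
    simp

lemma ns_inj_of_det {σ τ R S : Type*} [Fintype τ] [DecidableEq τ] [CommRing S] (j : τ → σ)
    (f : σ → R → S) (ψ : τ → R) (h : (Matrix.of fun a b => f (j b) (ψ a)).det ≠ 0) :
    Function.Injective j := by
  intro b b' hb
  by_contra hne
  exact h (Matrix.det_zero_of_column_eq hne fun a => by simp [hb])

/-- a sum over all variables whose terms vanish off the range of `j` -/
lemma ns_sum_range_inj {σ τ M : Type*} [Fintype σ] [Fintype τ] [AddCommMonoid M] {j : τ → σ}
    (hj : Function.Injective j) (f : σ → M) (hf : ∀ i, i ∉ Set.range j → f i = 0) :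
    ∑ i, f i = ∑ b, f (j b) :=
  (Fintype.sum_of_injective j hj (fun b => f (j b)) f hf fun _ => rfl).symm

/-- NS -/
theorem ns_trdeg {σ τ : Type} [Fintype σ] [DecidableEq σ] [Fintype τ] [DecidableEq τ]
    (P : Ideal (MvPolynomial σ ℂ)) [P.IsPrime] (ψ : τ → MvPolynomial σ ℂ) (hψ : ∀ a, ψ a ∈ P)
    (j : τ → σ) (hJ : (Matrix.of fun a b => pderiv (j b) (ψ a)).det ∉ P) :
    Algebra.trdeg ℂ (MvPolynomial σ ℂ ⧸ P) ≤ (Fintype.card σ - Fintype.card τ : ℕ) := by
  classical
  have hj : Function.Injective j :=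
    ns_inj_of_det j (fun i p => pderiv i p) ψ fun h => hJ (h ▸ P.zero_mem)
  let K := FractionRing (MvPolynomial σ ℂ ⧸ P)
  let ι : (MvPolynomial σ ℂ ⧸ P) →ₐ[ℂ] K := IsScalarTower.toAlgHom ℂ _ K
  have hι : Function.Injective ι := IsFractionRing.injective _ K
  let x : σ → K := fun i => ι (Ideal.Quotient.mk P (X i))
  have hx : ∀ p, aeval x p = ι (Ideal.Quotient.mk P p) := fun p =>
    DFunLike.congr_fun (MvPolynomial.algHom_ext (f := aeval x)
      (g := ι.comp (Ideal.Quotient.mkₐ ℂ P)) fun i => by simp [x]) p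
  have hker : ∀ p, aeval x p = 0 ↔ p ∈ P := fun p => by
    rw [hx, map_eq_zero_iff _ hι, Ideal.Quotient.eq_zero_iff_mem]
  let s : Set K := x '' (Set.range j)ᶜ
  let F := IntermediateField.adjoin ℂ s
  let D := KaehlerDifferential.D F K
  have hD : ∀ c : ℂ, D (algebraMap ℂ K c) = 0 := fun c => by
    rw [IsScalarTower.algebraMap_apply ℂ F K]
    exact D.map_algebraMap _
  have hs : ∀ i, i ∉ Set.range j → D (x i) = 0 := fun i hi =>
    D.map_algebraMap ⟨x i, IntermediateField.subset_adjoin ℂ s ⟨i, hi, rfl⟩⟩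
  let M : Matrix τ τ K := Matrix.of fun a b => aeval x (pderiv (j b) (ψ a))
  have hM : M.det ≠ 0 := by
    intro h
    refine hJ ((hker _).1 ?_)
    rw [AlgHom.map_det]
    exact h
  have hrel : ∀ a, ∑ b, M a b • D (x (j b)) = 0 := fun a => by
    have h1 := ns_deriv_aeval D hD x (ψ a)
    rw [(hker _).2 (hψ a), map_zero, ns_sum_range_inj hj _ fun i hi => by rw [hs i hi, smul_zero]]
      at h1
    exact h1.symm
  have hjz : ∀ b, D (x (j b)) = 0 := fun b => by
    have h1 : ∑ a, M⁻¹ b a • ∑ b', M a b' • D (x (j b')) = 0 := by simp [hrel]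
    simp only [Finset.smul_sum, smul_smul] at h1
    rw [Finset.sum_comm] at h1
    simp only [← Finset.sum_smul, ← Matrix.mul_apply,
      Matrix.nonsing_inv_mul M (isUnit_iff_ne_zero.2 hM), Matrix.one_apply] at h1
    simpa using h1
  have hall : ∀ p, D (aeval x p) = 0 := fun p => by
    rw [ns_deriv_aeval D hD x p]
    refine Finset.sum_eq_zero fun i _ => ?_
    by_cases hi : i ∈ Set.range j
    · obtain ⟨b, rfl⟩ := hi
      rw [hjz, smul_zero]
    · rw [hs i hi, smul_zero]
  have hK : ∀ k : K, D k = 0 := fun k => by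
    obtain ⟨p, q, -, rfl⟩ := IsFractionRing.div_surjective (A := MvPolynomial σ ℂ ⧸ P) k
    obtain ⟨p, rfl⟩ := Ideal.Quotient.mk_surjective p
    obtain ⟨q, rfl⟩ := Ideal.Quotient.mk_surjective q
    have hp := hall p
    have hq := hall q
    rw [hx] at hp hq
    change D (ι _ / ι _) = 0
    rw [Derivation.leibniz_div, hp, hq]
    simp
  have hsub : Subsingleton (KaehlerDifferential F K) := by
    refine subsingleton_of_forall_eq 0 fun w => ?_
    have hw : w ∈ Submodule.span K (Set.range (KaehlerDifferential.D F K)) := by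
      rw [KaehlerDifferential.span_range_derivation]
      trivial
    refine (Submodule.span_le (p := ⊥)).2 ?_ hw
    rintro _ ⟨k, rfl⟩
    exact hK k
  have hun : Algebra.FormallyUnramified F K := ⟨hsub⟩
  have hess : Algebra.EssFiniteType ℂ K :=
    have := Algebra.EssFiniteType.of_isLocalization K (nonZeroDivisors (MvPolynomial σ ℂ ⧸ P))
    Algebra.EssFiniteType.comp ℂ (MvPolynomial σ ℂ ⧸ P) K
  have hess' : Algebra.EssFiniteType F K := Algebra.EssFiniteType.of_comp ℂ F K
  have hsep := Algebra.FormallyUnramified.isSeparable F K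
  have halg : Algebra.IsAlgebraic (Algebra.adjoin ℂ s) K :=
    ⟨fun k => IntermediateField.isAlgebraic_adjoin_iff.1 (Algebra.IsAlgebraic.isAlgebraic k)⟩
  refine (trdeg_le_of_injective ι hι).trans
    ((Algebra.IsAlgebraic.trdeg_le_cardinalMk ℂ s).trans (Cardinal.mk_image_le.trans ?_))
  rw [Cardinal.mk_fintype, Fintype.card_compl_set, Set.card_range_of_injective hj]

/-- `j` is injective (else two equal columns). `L` = fraction field of `S ⧸ P`, `K0` = subfield
generated by the coordinates outside the range of `j`; every `K0`-derivation of `L` kills the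
`X (j b)` (invert the matrix), so `Ω[L⁄K0] = 0`, `Algebra.FormallyUnramified.isSeparable`;
`dm_le_of_alg`. -/
theorem ns {σ : Type} [Fintype σ] (e d : ℕ) (hσ : Fintype.card σ = e + d + 1)
    (P : Ideal (MvPolynomial σ ℂ)) (hP : P.IsPrime) (ψ : Fin e → MvPolynomial σ ℂ)
    (j : Fin e → σ) (hψ : ∀ a, ψ a ∈ P)
    (hj : (Matrix.of fun a b => pderiv (j b) (ψ a)).det ∉ P) : dm ℂ P ≤ d + 1 := by
  classical
  have h := ns_trdeg P ψ hψ j hj
  have h1 : Fintype.card σ - Fintype.card (Fin e) = d + 1 := by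
    rw [Fintype.card_fin, hσ]
    omega
  rw [h1] at h
  exact (Cardinal.toNat_le_toNat h (Cardinal.natCast_lt_aleph0)).trans (Cardinal.toNat_natCast _).le

end M4.Z
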