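import Pool.Agent.Lib.MP_33b3f9_ag.M4.ZDefs

/-! Wiebe's lemma: the determinant of the coefficient matrix of a system with an isolated zero at
the origin is not in the ideal of the system plus high powers of the variables. -/

namespace M4.Z

open MvPolynomial Matrix

variable {K σ : Type} [Field K]

theorem wie_mem_iff (S : Set σ) (N : ℕ) (P : MvPolynomial σ K) :
    P ∈ Ideal.span ((fun j => (X j ^ N : MvPolynomial σ K)) '' S) ↔
      ∀ m ∈ P.support, ∃ j ∈ S, N ≤ m j := by
  classical
  have : ((fun j => (X j ^ N : MvPolynomial σ K)) '' S) =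
      (fun s => monomial s (1 : K)) '' ((fun j => Finsupp.single j N) '' S) := by
    rw [Set.image_image]
    simp only [X_pow_eq_monomial]
  rw [this, mem_ideal_span_monomial_image]
  refine forall₂_congr fun m _ => ?_
  constructor
  · rintro ⟨_, ⟨j, hj, rfl⟩, h⟩
    exact ⟨j, hj, Finsupp.single_le_iff.1 h⟩
  · rintro ⟨j, hj, h⟩
    exact ⟨_, ⟨j, hj, rfl⟩, Finsupp.single_le_iff.2 h⟩

theorem wie_mono (N : ℕ) (r : σ) (P : MvPolynomial σ K)
    (h : P * X r ∈ Ideal.span ((fun j => (X j ^ N : MvPolynomial σ K)) '' {j | j ≠ r})) :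
    P ∈ Ideal.span ((fun j => (X j ^ N : MvPolynomial σ K)) '' Set.univ) := by
  classical
  rw [wie_mem_iff] at h ⊢
  intro m hm
  have : m + Finsupp.single r 1 ∈ (P * X r).support := by
    rw [mem_support_iff, coeff_mul_X]
    exact mem_support_iff.1 hm
  obtain ⟨j, hj, h2⟩ := h _ this
  refine ⟨j, trivial, ?_⟩
  have hj' : j ≠ r := hj
  simpa [Finsupp.single_eq_of_ne hj'] using h2

variable [Fintype σ] [DecidableEq σ]

theorem wie_det (N : ℕ) (h : MvPolynomial σ K) (M M' : Matrix σ σ (MvPolynomial σ K))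
    (hM : ∀ i, ∑ j, M i j * X j = h * X i ^ N) (hM' : ∀ i, ∑ j, M' i j * X j = h * X i ^ N) :
    M.det - M'.det ∈ Ideal.span ((fun j => (X j ^ N : MvPolynomial σ K)) '' Set.univ) := by
  let A : Finset σ → Matrix σ σ (MvPolynomial σ K) := fun s =>
    Matrix.of fun i => if i ∈ s then M i else M' i
  have hA : ∀ s i, ∑ j, A s i j * X j = h * X i ^ N := by
    intro s i
    by_cases hi : i ∈ s
    · simpa [A, hi] using hM i
    · simpa [A, hi] using hM' i
  have key : ∀ s : Finset σ, (A s).det - M'.det ∈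
      Ideal.span ((fun j => (X j ^ N : MvPolynomial σ K)) '' Set.univ) := by
    intro s
    induction s using Finset.induction_on with
    | empty =>
      have : A ∅ = M' := by ext i j; simp [A]
      simp [this]
    | insert r s hr ih =>
      have e1 : A (insert r s) = (A s).updateRow r ((M r - M' r) + M' r) := by
        ext i j
        by_cases hi : i = r
        · subst hi; simp [A]
        · simp [A, hi]
      have e2 : (A s).updateRow r (M' r) = A s := by
        ext i j
        by_cases hi : i = r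
        · subst hi; simp [A, hr]
        · simp [A, hi]
      rw [e1, det_updateRow_add, e2, add_sub_assoc]
      refine Ideal.add_mem _ ?_ ih
      set Q := (A s).updateRow r (M r - M' r) with hQ
      refine wie_mono N r _ ?_
      have e3 : (Q.adjugate *ᵥ (Q *ᵥ fun j => (X j : MvPolynomial σ K))) r = Q.det * X r := by
        rw [mulVec_mulVec, adjugate_mul]
        simp [smul_mulVec]
      rw [← e3, mulVec, dotProduct]
      refine Ideal.sum_mem _ fun j _ => Ideal.mul_mem_left _ _ ?_
      by_cases hj : j = r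
      · subst hj
        have : (Q *ᵥ fun j => (X j : MvPolynomial σ K)) j = 0 := by
          simp only [hQ, mulVec, dotProduct, updateRow_self, Pi.sub_apply, sub_mul,
            Finset.sum_sub_distrib, hM, hM', sub_self]
        rw [this]; exact Ideal.zero_mem _
      · have : (Q *ᵥ fun j => (X j : MvPolynomial σ K)) j = h * X j ^ N := by
          simp only [hQ, mulVec, dotProduct, updateRow_ne hj, hA]
        rw [this]
        exact Ideal.mul_mem_left _ _ (Ideal.subset_span ⟨j, hj, rfl⟩)
  have : A Finset.univ = M := by ext i j; simp [A]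
  simpa [this] using key Finset.univ

/-- Wiebe's lemma. -/
theorem wiebe (B : Matrix σ σ (MvPolynomial σ K)) (f : σ → MvPolynomial σ K)
    (hf : ∀ i, f i = ∑ j, B i j * X j) (h : MvPolynomial σ K) (h0 : constantCoeff h ≠ 0)
    (N : ℕ) (hN1 : 1 ≤ N) (hN : ∀ i, h * X i ^ N ∈ Ideal.span (Set.range f)) :
    B.det ∉ Ideal.span (Set.range f) ⊔
      Ideal.span (Set.range fun j => (X j ^ N : MvPolynomial σ K)) := by
  obtain ⟨N, rfl⟩ : ∃ n, N = n + 1 := ⟨N - 1, by omega⟩
  rw [← Set.image_univ (f := fun j => (X j ^ (N + 1) : MvPolynomial σ K))]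
  set b := Ideal.span ((fun j => (X j ^ (N + 1) : MvPolynomial σ K)) '' Set.univ) with hb
  intro hB
  have hC : ∀ i, ∃ c : σ → MvPolynomial σ K, ∑ j, c j * f j = h * X i ^ (N + 1) := fun i =>
    Ideal.mem_span_range_iff_exists_fun.1 (hN i)
  choose C hC using hC
  let Cm : Matrix σ σ (MvPolynomial σ K) := Matrix.of C
  have h1 : ∀ i, ∑ j, (Cm * B) i j * X j = h * X i ^ (N + 1) := by
    intro i
    rw [← hC i]
    simp only [Matrix.mul_apply, Finset.sum_mul, hf, Finset.mul_sum, Cm, of_apply, mul_assoc]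
    exact Finset.sum_comm
  have h2 : ∀ i, ∑ j, (diagonal fun i => h * X i ^ N) i j * X j = h * X i ^ (N + 1) := by
    intro i
    rw [Finset.sum_eq_single i]
    · simp [pow_succ, mul_assoc]
    · intro j _ hj; simp [diagonal_apply_ne _ hj.symm]
    · simp
  have h3 := wie_det (N + 1) h _ _ h1 h2
  have h4 : ∀ i, Cm.det * f i ∈ b := by
    intro i
    have e3 : (Cm.adjugate *ᵥ (Cm *ᵥ f)) i = Cm.det * f i := by
      rw [mulVec_mulVec, adjugate_mul]
      simp [smul_mulVec]
    rw [← e3, mulVec, dotProduct]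
    refine Ideal.sum_mem _ fun j _ => Ideal.mul_mem_left _ _ ?_
    have : (Cm *ᵥ f) j = h * X j ^ (N + 1) := by
      rw [← hC j]; simp [Cm, mulVec, dotProduct]
    rw [this]
    exact Ideal.mul_mem_left _ _ (Ideal.subset_span ⟨j, trivial, rfl⟩)
  have h5 : Cm.det * B.det ∈ b := by
    obtain ⟨u, hu, v, hv, e⟩ := Submodule.mem_sup.1 hB
    rw [← e, mul_add]
    refine Ideal.add_mem _ ?_ (Ideal.mul_mem_left _ _ hv)
    obtain ⟨c, rfl⟩ := Ideal.mem_span_range_iff_exists_fun.1 hu
    rw [Finset.mul_sum]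
    refine Ideal.sum_mem _ fun j _ => ?_
    rw [mul_left_comm]
    exact Ideal.mul_mem_left _ _ (h4 j)
  rw [det_mul, det_diagonal] at h3
  have h6 : (∏ i, h * X i ^ N) ∈ b := by
    have := Ideal.sub_mem _ h5 h3
    simpa using this
  let s : σ →₀ ℕ := Finsupp.equivFunOnFinite.symm fun _ => N
  have h7 : (∏ i, h * X i ^ N) = h ^ Fintype.card σ * monomial s (1 : K) := by
    rw [Finset.prod_mul_distrib, Finset.prod_const, Finset.card_univ, monomial_eq,
      Finsupp.prod_fintype _ _ (by simp)]
    simp [s]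
  rw [h7, hb, wie_mem_iff] at h6
  have h8 : s ∈ (h ^ Fintype.card σ * monomial s (1 : K)).support := by
    rw [mem_support_iff]
    have := coeff_mul_monomial 0 s (1 : K) (h ^ Fintype.card σ)
    rw [zero_add] at this
    rw [this, mul_one, ← constantCoeff_eq, map_pow]
    exact pow_ne_zero _ h0
  obtain ⟨j, -, hj⟩ := h6 s h8
  simp [s] at hj

theorem wie (N : ℕ) (hN : 1 ≤ N) (s : MvPolynomial σ K) (hs : constantCoeff s ≠ 0)
    (f : σ → MvPolynomial σ K) (B : Matrix σ σ (MvPolynomial σ K))
    (hB : ∀ i, f i = ∑ j, B i j * X j)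
    (h : ∀ i, s * X i ^ N ∈ Ideal.span (Set.range f)) :
    B.det ∉ Ideal.span (Set.range f) ⊔
      Ideal.span (Set.range fun i => (X i : MvPolynomial σ K) ^ N) :=
  wiebe B f hB s hs N hN h

end M4.Z
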