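import Pool.Agent.Lib.MP_33b3f9_ag.M4.ZGen
import Pool.Agent.Lib.MP_33b3f9_ag.M4.ZWie

/-! An isolated zero of a square system of degree at most `k` is separated from all other zeros
by a polynomial of degree at most `m k` (Bezoutian). -/

namespace M4.Z

open MvPolynomial Matrix

section Bez

variable {R σ : Type} [CommRing R] [Fintype σ]

/-- `F` has degree at most `n` and a first order expansion at `a` with coefficients of degree at
most `n`. -/
def SepGood (a : σ → R) (n : ℕ) (F : MvPolynomial σ R) : Prop :=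
  F.totalDegree ≤ n ∧ ∃ B : σ → MvPolynomial σ R, (∀ j, (B j).totalDegree ≤ n) ∧
    F - C (eval a F) = ∑ j, B j * (X j - C (a j))

theorem SepGood.mono {a : σ → R} {n m : ℕ} {F : MvPolynomial σ R} (h : SepGood a n F) (hn : n ≤ m) :
    SepGood a m F := by
  obtain ⟨h1, B, h2, h3⟩ := h
  exact ⟨h1.trans hn, B, fun j => (h2 j).trans hn, h3⟩

theorem sep_good_C (a : σ → R) (r : R) : SepGood a 0 (C r) :=
  ⟨by simp, 0, by simp, by simp⟩

theorem sep_good_X (a : σ → R) (i : σ) : SepGood a 1 (X i) := by
  classical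
  refine ⟨?_, Pi.single i 1, fun j => ?_, ?_⟩
  · rw [X]
    exact (totalDegree_monomial_le _ _).trans (by simp)
  · by_cases h : j = i
    · subst h; simp
    · simp [h]
  · rw [Finset.sum_eq_single i]
    · simp
    · intro j _ hj; simp [hj]
    · simp

theorem SepGood.add {a : σ → R} {n : ℕ} {F G : MvPolynomial σ R} (h : SepGood a n F) (h' : SepGood a n G) :
    SepGood a n (F + G) := by
  obtain ⟨h1, B, h2, h3⟩ := h
  obtain ⟨h1', B', h2', h3'⟩ := h'
  refine ⟨(totalDegree_add _ _).trans (max_le h1 h1'), B + B', fun j =>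
    (totalDegree_add _ _).trans (max_le (h2 j) (h2' j)), ?_⟩
  simp only [Pi.add_apply, add_mul, Finset.sum_add_distrib, ← h3, ← h3', map_add]
  ring

theorem SepGood.mul {a : σ → R} {n m : ℕ} {F G : MvPolynomial σ R} (h : SepGood a n F)
    (h' : SepGood a m G) : SepGood a (n + m) (F * G) := by
  obtain ⟨h1, B, h2, h3⟩ := h
  obtain ⟨h1', B', h2', h3'⟩ := h'
  refine ⟨(totalDegree_mul _ _).trans (add_le_add h1 h1'),
    fun j => B j * G + C (eval a F) * B' j, fun j => (totalDegree_add _ _).trans (max_le ?_ ?_), ?_⟩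
  · exact (totalDegree_mul _ _).trans (add_le_add (h2 j) h1')
  · refine (totalDegree_mul _ _).trans ?_
    rw [totalDegree_C]
    exact add_le_add (Nat.zero_le _) (h2' j)
  · have : ∑ j, (B j * G + C (eval a F) * B' j) * (X j - C (a j)) =
        (∑ j, B j * (X j - C (a j))) * G + C (eval a F) * ∑ j, B' j * (X j - C (a j)) := by
      rw [Finset.sum_mul, Finset.mul_sum, ← Finset.sum_add_distrib]
      exact Finset.sum_congr rfl fun j _ => by ring
    rw [this, ← h3, ← h3', map_mul, map_mul]
    ring

theorem sep_good_monomial (a : σ → R) (m : σ →₀ ℕ) (r : R) :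
    SepGood a (m.sum fun _ e => e) (monomial m r) := by
  classical
  induction m using Finsupp.induction_linear generalizing r with
  | zero => simpa using sep_good_C a r
  | add m m' h h' =>
    rw [Finsupp.sum_add_index' (by simp) (by simp)]
    have := (h r).mul (h' 1)
    rwa [monomial_mul, mul_one] at this
  | single i e =>
    rw [Finsupp.sum_single_index rfl]
    induction e with
    | zero => simpa using sep_good_C a r
    | succ e ih =>
      have := ih.mul (sep_good_X a i)
      rwa [X, monomial_mul, mul_one, ← Finsupp.single_add] at this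

theorem sep_good_self (a : σ → R) (F : MvPolynomial σ R) : SepGood a F.totalDegree F := by
  have key : ∀ s : Finset (σ →₀ ℕ), s ⊆ F.support →
      SepGood a F.totalDegree (∑ m ∈ s, monomial m (coeff m F)) := by
    classical
    intro s
    induction s using Finset.induction_on with
    | empty => intro _; simpa using (sep_good_C a (0 : R)).mono (Nat.zero_le _)
    | insert m s hm ih =>
      intro hs
      rw [Finset.sum_insert hm]
      exact ((sep_good_monomial a m _).mono (le_totalDegree (hs (Finset.mem_insert_self _ _)))).add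
        (ih fun x hx => hs (Finset.mem_insert_of_mem hx))
  have := key _ subset_rfl
  rwa [← as_sum] at this

theorem sep_deg_det [DecidableEq σ] {τ : Type} (B : Matrix σ σ (MvPolynomial τ R)) (k : ℕ)
    (hB : ∀ i j, (B i j).totalDegree ≤ k) : B.det.totalDegree ≤ Fintype.card σ * k := by
  rw [det_apply]
  refine (totalDegree_finsetSum _ _).trans (Finset.sup_le fun s _ => ?_)
  have : (∏ i, B (s i) i).totalDegree ≤ Fintype.card σ * k := by
    refine (totalDegree_finsetProd _ _).trans ?_
    calc ∑ i, (B (s i) i).totalDegree ≤ ∑ _i : σ, k := Finset.sum_le_sum fun i _ => hB _ _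
      _ = Fintype.card σ * k := by simp
  rcases Int.units_eq_one_or (Equiv.Perm.sign s) with h | h
  · simpa [h] using this
  · simpa [h] using this

/-- First order Taylor formula with degree bounds, over any commutative ring. -/
theorem bez (w : σ → R) (f : MvPolynomial σ R) :
    ∃ B : σ → MvPolynomial σ R, (∀ j, (B j).totalDegree ≤ f.totalDegree) ∧
      f - C (eval w f) = ∑ j, B j * (X j - C (w j)) :=
  (sep_good_self w f).2

end Bez

theorem sep_deg_map {R R' τ : Type} [CommSemiring R] [CommSemiring R'] (φ : R →+* R')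
    (F : MvPolynomial τ R) : (map φ F).totalDegree ≤ F.totalDegree := by
  classical
  exact Finset.sup_mono (support_map_subset φ F)

variable {K σ : Type} [Field K]

theorem sep_coeffwise {R : Type} [CommRing R] [Algebra K R] (l : R →ₗ[K] K)
    (F : MvPolynomial σ R) : ∃ g : MvPolynomial σ K, g.totalDegree ≤ F.totalDegree ∧
      ∀ q : σ → K, eval q g = l (eval (fun j => algebraMap K R (q j)) F) := by
  refine ⟨∑ m ∈ F.support, monomial m (l (coeff m F)), ?_, fun q => ?_⟩
  · refine (totalDegree_finsetSum _ _).trans (Finset.sup_le fun m hm => ?_)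
    exact (totalDegree_monomial_le _ _).trans (le_totalDegree hm)
  · conv_rhs => rw [F.as_sum]
    simp only [map_sum, eval_monomial]
    refine Finset.sum_congr rfl fun m _ => ?_
    have : (m.prod fun n e => algebraMap K R (q n) ^ e) =
        algebraMap K R (m.prod fun n e => q n ^ e) := by
      simp [Finsupp.prod]
    rw [this, mul_comm (coeff m F), ← Algebra.smul_def, map_smul, smul_eq_mul, mul_comm]

/-- Separation of an isolated zero of a square system. -/
theorem sep_square [Fintype σ] (f : σ → MvPolynomial σ K) (k : ℕ) (hdeg : ∀ i, (f i).totalDegree ≤ k)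
    (p : σ → K) (hp : ∀ i, eval p (f i) = 0) (h : MvPolynomial σ K) (hh : eval p h ≠ 0) (N : ℕ)
    (hN : ∀ i, h * (X i - C (p i)) ^ N ∈ Ideal.span (Set.range f)) :
    ∃ g : MvPolynomial σ K, g.totalDegree ≤ Fintype.card σ * k ∧ eval p g ≠ 0 ∧
      ∀ q : σ → K, (∀ i, eval q (f i) = 0) → q ≠ p → eval q g = 0 := by
  classical
  let a : σ → MvPolynomial σ K := fun j => C (p j) + X j
  let T : MvPolynomial σ K →ₐ[K] MvPolynomial σ K := aeval a
  have hB := fun i => (sep_good_self a (map (C : K →+* MvPolynomial σ K) (f i))).2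
  choose B hB1 hB2 using hB
  let Bm : Matrix σ σ (MvPolynomial σ (MvPolynomial σ K)) := Matrix.of B
  let E : (σ → K) → MvPolynomial σ (MvPolynomial σ K) →+* MvPolynomial σ K := fun q =>
    eval fun j => C (q j)
  have hE : ∀ q : σ → K, (∀ i, eval q (f i) = 0) → ∀ i,
      T (f i) = ∑ j, (E q).mapMatrix Bm i j * (X j - C (q j - p j)) := by
    intro q hq i
    have h1 := congrArg (E q) (hB2 i)
    have h2 : E q (map (C : K →+* MvPolynomial σ K) (f i)) = 0 := by
      have : E q (map (C : K →+* MvPolynomial σ K) (f i)) = C (eval q (f i)) := by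
        simp only [E, eval_map]
        rw [eval, coe_eval₂Hom, eval₂_comp_left]
        rfl
      rw [this, hq, map_zero]
    have h3 : eval a (map (C : K →+* MvPolynomial σ K) (f i)) = T (f i) := by
      simp only [T, eval_map, aeval_def, algebraMap_eq]
    rw [map_sub, h2, h3, map_sum] at h1
    simp only [E, eval_C, map_mul, map_sub, eval_X, zero_sub] at h1
    rw [neg_eq_iff_eq_neg.1 h1, ← Finset.sum_neg_distrib]
    refine Finset.sum_congr rfl fun j _ => ?_
    simp only [RingHom.mapMatrix_apply, Matrix.map_apply, Bm, of_apply, E, a, map_sub]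
    ring
  set I : Ideal (MvPolynomial σ K) := Ideal.span (Set.range fun i => T (f i)) ⊔
    Ideal.span (Set.range fun j => (X j ^ (N + 1) : MvPolynomial σ K)) with hI
  have hW : ((E p).mapMatrix Bm).det ∉ I := by
    refine wiebe _ _ (fun i => by simpa using hE p hp i) (T h) ?_ (N + 1) (by omega) fun i => ?_
    · have : (constantCoeff : MvPolynomial σ K →+* K).comp (T : _ →+* _) = eval p := by
        ext j <;> simp [T, a]
      exact fun h0 => hh (by rw [← this]; exact h0)
    · have h1 := Ideal.mem_map_of_mem T (hN i)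
      rw [Ideal.map_span, ← Set.range_comp] at h1
      have h2 : T (h * (X i - C (p i)) ^ N) = T h * X i ^ N := by simp [T, a]
      rw [h2] at h1
      rw [pow_succ, ← mul_assoc]
      exact Ideal.mul_mem_right _ _ h1
  obtain ⟨l, hl1, hl2⟩ := Submodule.exists_le_ker_of_notMem
    (p := I.restrictScalars K) (v := ((E p).mapMatrix Bm).det) hW
  obtain ⟨g, hg1, hg2⟩ := sep_coeffwise l Bm.det
  have hg3 : ∀ q, eval q g = l ((E q).mapMatrix Bm).det := by
    intro q
    rw [hg2, ← RingHom.map_det]
    rfl
  refine ⟨g, hg1.trans (sep_deg_det _ _ fun i j => (hB1 i j).trans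
    ((sep_deg_map _ _).trans (hdeg i))), by rw [hg3]; exact hl1, fun q hq hqp => ?_⟩
  rw [hg3]
  refine hl2 (show _ ∈ I from ?_)
  obtain ⟨j, hj⟩ := Function.ne_iff.1 hqp
  set M := (E q).mapMatrix Bm with hM
  have e3 : (M.adjugate *ᵥ (M *ᵥ fun j => X j - C (q j - p j))) j =
      M.det * (X j - C (q j - p j)) := by
    rw [mulVec_mulVec, adjugate_mul]
    simp [smul_mulVec]
  have e4 : M.det * (X j - C (q j - p j)) ∈ I := by
    rw [← e3, mulVec, dotProduct]
    refine Ideal.sum_mem _ fun i _ => Ideal.mul_mem_left _ _ (Ideal.mem_sup_left ?_)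
    have : (M *ᵥ fun j => X j - C (q j - p j)) i = T (f i) := (hE q hq i).symm
    rw [this]
    exact Ideal.subset_span ⟨i, rfl⟩
  obtain ⟨w, hw⟩ := sub_dvd_pow_sub_pow (X j : MvPolynomial σ K) (C (q j - p j)) (N + 1)
  have e5 : M.det * C (q j - p j) ^ (N + 1) ∈ I := by
    have : M.det * C (q j - p j) ^ (N + 1) =
        M.det * X j ^ (N + 1) - M.det * (X j - C (q j - p j)) * w := by
      rw [mul_assoc, ← hw]; ring
    rw [this]
    exact Ideal.sub_mem _ (Ideal.mul_mem_left _ _ (Ideal.mem_sup_right
      (Ideal.subset_span ⟨j, rfl⟩))) (Ideal.mul_mem_right _ _ e4)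
  have e6 : IsUnit (C (q j - p j) ^ (N + 1) : MvPolynomial σ K) :=
    ((IsUnit.mk0 _ (sub_ne_zero.2 hj)).map C).pow _
  exact (Ideal.mul_unit_mem_iff_mem _ e6).1 e5

/-- An isolated zero is separated from all other zeros in small degree. -/
theorem sep_point {K σ : Type} [Field K] [Infinite K] [Fintype σ] (k : ℕ)
    (G : Set (MvPolynomial σ K)) (hG : ∀ g ∈ G, g.totalDegree ≤ k) (p : σ → K)
    (hp : ∀ g ∈ G, eval p g = 0)
    (hiso : ∀ q : Ideal (MvPolynomial σ K), q.IsPrime → G ⊆ q → q ≤ mx p → q = mx p) :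
    ∃ g : MvPolynomial σ K, g.totalDegree ≤ Fintype.card σ * k ∧ eval p g ≠ 0 ∧
      ∀ q : σ → K, (∀ f ∈ G, eval q f = 0) → q ≠ p → eval q g = 0 := by
  have hm : (mx p).IsPrime := RingHom.ker_isPrime _
  have hspan : ∀ q : σ → K, (∀ f ∈ G, eval q f = 0) → ∀ f ∈ Submodule.span K G, eval q f = 0 := by
    intro q hq f hf
    have : Submodule.span K G ≤ (mx q).restrictScalars K := Submodule.span_le.2 fun g hg => hq g hg
    exact this hf
  have hdeg : ∀ f ∈ Submodule.span K G, f.totalDegree ≤ k := by
    intro f hf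
    have : Submodule.span K G ≤ restrictTotalDegree σ K k :=
      Submodule.span_le.2 fun g hg => (mem_restrictTotalDegree _ _ _).2 (hG g hg)
    exact (mem_restrictTotalDegree _ _ _).1 (this hf)
  obtain ⟨f, hf1, hf2⟩ := gen (k := K) (mx p) hm (Submodule.span K G) (Fintype.card σ) {⊥}
    (Set.finite_singleton _)
    (by rintro Q rfl; exact ⟨Ideal.isPrime_bot, bot_le, dm_bot.le⟩)
    (fun Q _ q hq _ h1 h2 => hiso q hq (fun g hg => h1 g (Submodule.subset_span hg)) h2)
  let f' : σ → MvPolynomial σ K := fun i => f (Fintype.equivFin σ i)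
  have hf' : ∀ i, f' i ∈ Submodule.span K G := fun i => hf1 _
  obtain ⟨N, s, -, hs, hN⟩ := loc_nil (Ideal.span (Set.range f')) (mx p) hm
    (Ideal.span_le.2 (by rintro _ ⟨i, rfl⟩; exact hspan p hp _ (hf' i)))
    (fun q hq h1 h2 => hf2 ⊥ rfl q hq bot_le (fun i => h1 (Ideal.subset_span
      ⟨(Fintype.equivFin σ).symm i, by simp [f']⟩)) h2)
    (fun i => (X i - C (p i) : MvPolynomial σ K)) (fun i => by simp [mx])
  obtain ⟨g, h1, h2, h3⟩ := sep_square f' k (fun i => hdeg _ (hf' i)) p
    (fun i => hspan p hp _ (hf' i)) s hs N hN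
  exact ⟨g, h1, h2, fun q hq hqp => h3 q (fun i => hspan q hq _ (hf' i)) hqp⟩

end M4.Z
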