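import Pool.Agent.Lib.MP_33b3f9_ag.M4.ZAlg
import Pool.Agent.Lib.MP_33b3f9_ag.M4.ZIft
import Pool.Agent.Lib.MP_33b3f9_ag.M4.ZCut

/-! The induction step. -/

namespace M4.Z
open MvPolynomial

open Filter Topology

variable {σ T Ξ : Type} [Fintype σ] [NormedAddCommGroup T] [NormedSpace ℂ T]
  [FiniteDimensional ℂ T]

omit [Fintype σ] in
theorem stp_fm_mono {I J : Ideal (MvPolynomial σ ℂ)} (h : I ≤ J) {k l : ℕ} (hk : k ≤ l) :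
    fm I k ⊆ fm J l := fun _ ⟨h1, μ, h2, h3⟩ => ⟨h h1, μ, h2.trans hk, h3⟩

omit [Fintype σ] in
theorem stp_van_anti (x : Ξ → σ → ℂ) {A B : Set Ξ} (h : A ⊆ B) : van x B ≤ van x A :=
  fun g hg => (mem_van x A g).2 fun ξ hξ => (mem_van x B g).1 hg ξ (h hξ)

theorem stp_le_nu (n k : ℕ) : k ≤ nu n k := by
  unfold nu; nlinarith [Nat.zero_le (n * k), Nat.zero_le (3 * n * (3 * ((n + 1) * k) + 1))]

/-- The components of dimension `r` of the forms of degree `k` that survive in degree `ν`. -/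
def stpW (I : Ideal (MvPolynomial σ ℂ)) (k ν r : ℕ) : Set (Ideal (MvPolynomial σ ℂ)) :=
  {P | P ∈ (Ideal.span (fm I k)).minimalPrimes ∧ dm ℂ P = r ∧ fm I ν ⊆ P}

theorem stpW_finite (I : Ideal (MvPolynomial σ ℂ)) (k ν r : ℕ) : (stpW I k ν r).Finite :=
  (Ideal.finite_minimalPrimes_of_isNoetherianRing _ _).subset fun _ h => h.1

theorem stp_key (I : Ideal (MvPolynomial σ ℂ)) {k ν r : ℕ} (hk : k ≤ ν) (x : σ → ℂ)
    (h : ∀ q : Ideal (MvPolynomial σ ℂ), q.IsPrime → fm I k ⊆ q → q ≤ mx x → dm ℂ q ≤ r)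
    {q : Ideal (MvPolynomial σ ℂ)} (hq : q.IsPrime) (h1 : fm I ν ⊆ q) (h2 : q ≤ mx x)
    (h3 : r ≤ dm ℂ q) : q ∈ stpW I k ν r := by
  have h4 : fm I k ⊆ q := (stp_fm_mono le_rfl hk).trans h1
  obtain ⟨p, hp, hpq⟩ := Ideal.exists_minimalPrimes_le (Ideal.span_le.2 h4)
  have h5 := h p hp.1.1 (Ideal.span_le.1 hp.1.2) (hpq.trans h2)
  rcases hpq.eq_or_lt with rfl | hlt
  · exact ⟨hp, le_antisymm h5 h3, h1⟩
  · have := dm_lt (k := ℂ) hp.1.1 hq hlt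
    omega

omit [Fintype σ] in
theorem stp_sq_sub (e ν : ℕ) (W : Set (Ideal (MvPolynomial σ ℂ))) : ∀ i, sq e ν W i ⊆ W
  | 0 => subset_rfl
  | _ + 1 => fun _ h => h.1

theorem stp_index (p : ℕ → Prop) (L : ℕ) (hL : ¬ p L) :
    ∃ i : Fin (L + 1), ((i : ℕ) = L ∧ ¬ p 0) ∨ ((i : ℕ) < L ∧ p i ∧ ¬ p (i + 1)) := by
  classical
  by_cases h0 : p 0
  · have hex : ∃ i, ¬ p i := ⟨L, hL⟩
    have h1 := Nat.find_spec hex
    have h2 : Nat.find hex ≤ L := Nat.find_min' hex hL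
    obtain ⟨i, hi⟩ : ∃ i, Nat.find hex = i + 1 := Nat.exists_eq_succ_of_ne_zero fun h =>
      h1 (h ▸ h0)
    refine ⟨⟨i, by omega⟩, Or.inr ⟨by simp; omega, ?_, hi ▸ h1⟩⟩
    exact not_not.1 (Nat.find_min hex (m := i) (by omega))
  · exact ⟨Fin.last L, Or.inl ⟨rfl, h0⟩⟩

omit [Fintype σ] [NormedSpace ℂ T] [FiniteDimensional ℂ T] in
theorem stp_cont {a : T} {Θ : T → σ → ℂ} (h : ContinuousAt Θ a) (g : MvPolynomial σ ℂ) :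
    ContinuousAt (fun z => eval (Θ z) g) a :=
  (MvPolynomial.continuous_eval g).continuousAt.comp h

omit [FiniteDimensional ℂ T] in
theorem stp_ne {a : T} {Θ : T → σ → ℂ} (h : Et a Θ) : Θ a ≠ 0 := fun h0 =>
  one_ne_zero (h.2 1 0 (by simp [h0])).1

theorem stp_count {Λ κ : Type} [Finite Λ] (W : Λ → Set κ) (hW : ∀ l, (W l).Finite)
    (δ : Λ → κ → ℕ) (C0 H0 : ℕ) (hδ : ∀ l, ∑ P ∈ (hW l).toFinset, δ l P ≤ H0)
    (Z : κ → Set Ξ) (hZf : ∀ P, (Z P).Finite) (hZ : ∀ l, ∀ P ∈ W l, (Z P).ncard ≤ C0 * δ l P)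
    (B : Set Ξ) (hB : ∀ ξ ∈ B, ∃ l, ∃ P ∈ W l, ξ ∈ Z P) :
    B.ncard ≤ Nat.card Λ * C0 * H0 := by
  classical
  have := Fintype.ofFinite Λ
  have h1 : B ⊆ ⋃ l, ⋃ P ∈ (hW l).toFinset, Z P := fun ξ hξ => by
    obtain ⟨l, P, hP, h⟩ := hB ξ hξ
    simp only [Set.mem_iUnion]
    exact ⟨l, P, by simpa using hP, h⟩
  refine (Set.ncard_le_ncard h1 (Set.finite_iUnion fun l =>
    Set.Finite.biUnion (Finset.finite_toSet _) fun P _ => hZf P)).trans ?_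
  refine (Set.ncard_iUnion_le_of_fintype _).trans ?_
  rw [Nat.card_eq_fintype_card, mul_assoc, ← smul_eq_mul, ← Finset.card_univ]
  refine Finset.sum_le_card_nsmul _ _ _ fun l _ => ?_
  refine (Finset.set_ncard_biUnion_le _ _).trans ?_
  refine le_trans ?_ (Nat.mul_le_mul_left C0 (hδ l))
  rw [Finset.mul_sum]
  exact Finset.sum_le_sum fun P hP => hZ l P (by simpa using hP)

theorem stp_card (c m L D : ℕ) (h : c ≤ m) :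
    c * ((L + 1) * (c * ((L + 1) * (D + 1)) + 1)) ≤ 2 * (L + 1) ^ 2 * (D + 1) * m ^ 2 := by
  rcases Nat.eq_zero_or_pos c with rfl | hc
  · simp
  have h1 : 1 ≤ c * ((L + 1) * (D + 1)) := Nat.mul_pos hc (by positivity)
  calc c * ((L + 1) * (c * ((L + 1) * (D + 1)) + 1))
      ≤ c * ((L + 1) * (2 * (c * ((L + 1) * (D + 1))))) := by gcongr; omega
    _ = 2 * (L + 1) ^ 2 * (D + 1) * c ^ 2 := by ring
    _ ≤ _ := by gcongr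

theorem step (n e d k m H0 L D C0 : ℕ) (hσ : Fintype.card σ = n + 1) (hed : e + (d + 1) = n)
    (he : 1 ≤ e) (hT : Module.finrank ℂ T = n) (hk : 1 ≤ k) (a : T) (Θ : Ξ → T → σ → ℂ)
    (X0 : Set Ξ) (hX0 : X0.Finite) (Nb : Ξ → Ξ → Prop) (hNb : ∀ ξ η, Nb ξ η → Nb η ξ)
    (hE : ∀ ξ ∈ X0, Et a (Θ ξ)) (hH : HP (fun ξ => Θ ξ a) X0 (nu n k) ≤ H0) (hL : H0 < 2 ^ L)
    (hN : HN a Θ X0 Nb D) (hC : CL n a Θ X0 C0) (A : Set Ξ) (hA : A ⊆ X0)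
    (hS : St (fun ξ => Θ ξ a) (d + 1) k m A) :
    ∃ G ⊆ A, St (fun ξ => Θ ξ a) d ((n + D) * nu n k) (2 * (L + 1) ^ 2 * (D + 1) * m ^ 2)
        (A \ G) ∧
      ∃ col : Ξ → Filter T, (∀ ξ ∈ G, ∀ η ∈ G, Nb ξ η → col ξ = col η) ∧
        ∀ c, {ξ | ξ ∈ G ∧ col ξ = c}.ncard ≤ m * C0 * H0 := by
  classical
  obtain ⟨Λ, hΛ, lab, hm, hS⟩ := hS
  set x : Ξ → σ → ℂ := fun ξ => Θ ξ a with hx
  set ν := nu n k with hν
  have hσ' : Fintype.card σ = e + (d + 1) + 1 := by omega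
  have hT' : Module.finrank ℂ T = e + (d + 1) := by omega
  let I : Λ → Ideal (MvPolynomial σ ℂ) := fun l => van x {η | η ∈ A ∧ lab η = l}
  let W : Λ → Set (Ideal (MvPolynomial σ ℂ)) := fun l => stpW (I l) k ν (d + 1 + 1)
  have hWf : ∀ l, (W l).Finite := fun l => stpW_finite _ _ _ _
  have halg := fun l => alg n e (d + 1) k H0 L hσ hed hk (I l) (W l) (hWf l) (fun P hP => hP)
    ((hf_van x (fun η (h : η ∈ {η | η ∈ A ∧ lab η = l}) => hA h.1) _).trans hH) hL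
  have hWL : ∀ l, sq e ν (W l) L = ∅ := fun l => (halg l).1
  choose δ hδ hδs using fun l => (halg l).2
  have hK : ∀ ξ ∈ A, ∀ q : Ideal (MvPolynomial σ ℂ), q.IsPrime → fm (I (lab ξ)) ν ⊆ q →
      q ≤ mx (x ξ) → d + 1 + 1 ≤ dm ℂ q → q ∈ W (lab ξ) := fun ξ hξ q hq h1 h2 h3 =>
    stp_key _ (stp_le_nu n k) (x ξ) (hS ξ hξ) hq h1 h2 h3
  let J : Λ → ℕ → Ideal (MvPolynomial σ ℂ) := fun l i => sInf (sq e ν (W l) i)
  choose ix hix using fun ξ : Ξ => stp_index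
    (fun i => ∃ P ∈ sq e ν (W (lab ξ)) i, P ≤ mx (x ξ)) L (by simp [hWL])
  have hJ : ∀ ξ, (ix ξ : ℕ) < L → ∃ P ∈ W (lab ξ), J (lab ξ) (ix ξ) ≤ P ∧ P ≤ mx (x ξ) := by
    intro ξ h
    rcases hix ξ with h1 | ⟨_, ⟨P, hP, h2⟩, _⟩
    · omega
    · exact ⟨P, stp_sq_sub _ _ _ _ hP, sInf_le hP, h2⟩
  let T2 : Ξ → Prop := fun ξ => ξ ∈ A ∧ (ix ξ : ℕ) < L ∧
    ¬ jac e (fm (J (lab ξ) (ix ξ)) ν) ⊆ mx (x ξ)
  have hψ : ∀ ξ, ∃ (ψ : Fin e → MvPolynomial σ ℂ) (j : Fin e → σ), T2 ξ →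
      (∀ i, ψ i ∈ fm (J (lab ξ) (ix ξ)) ν) ∧
      eval (x ξ) (Matrix.of fun a b => pderiv (j b) (ψ a)).det ≠ 0 := by
    intro ξ
    by_cases h : T2 ξ
    · obtain ⟨g, ⟨ψ, j, h1, rfl⟩, h2⟩ := Set.not_subset.1 h.2.2
      exact ⟨ψ, j, fun _ => ⟨h1, h2⟩⟩
    · have : Nonempty σ := Fintype.card_pos_iff.1 (by omega)
      exact ⟨0, fun _ => Classical.arbitrary σ, fun h' => absurd h' h⟩
  choose ψ j hψ using hψ
  let Fl : Ξ → Filter T := fun ξ => 𝓝[{z | ∀ i, eval (Θ ξ z) (ψ ξ i) = 0}] a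
  have hFl : ∀ ξ, Fl ξ ≤ 𝓝 a := fun ξ => nhdsWithin_le_nhds
  have hψh : ∀ ξ, T2 ξ → ∀ i, ∃ μ, (ψ ξ i).IsHomogeneous μ := fun ξ h i =>
    ((hψ ξ h).1 i).2.imp fun _ h => h.2
  have hψ0 : ∀ ξ, T2 ξ → ∀ i, eval (Θ ξ a) (ψ ξ i) = 0 := fun ξ h i => by
    obtain ⟨P, _, h1, h2⟩ := hJ ξ h.2.1
    exact h2 (h1 ((hψ ξ h).1 i).1)
  have hφ : ∀ (l : Λ) (i : Fin (L + 1)), ∃ φ ∈ J l i, φ.IsHomogeneous ν ∧
      ∀ t ∈ {t : Ξ × Ξ | T2 t.1 ∧ T2 t.2 ∧ lab t.2 = l ∧ ix t.2 = i ∧ ¬ Fl t.1 ≤ Fl t.2},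
        ¬ ∀ᶠ z in Fl t.1, eval (Θ t.2 z) φ = 0 := by
    intro l i
    refine generic_form a (J l i) ν _ ((hX0.prod hX0).subset fun t ht =>
      ⟨hA ht.1.1, hA ht.2.1.1⟩) (fun t => Fl t.1) (fun t => Θ t.2) (fun t _ => hFl _)
      (fun t ht => (hE _ (hA ht.2.1.1)).1.continuousAt) (fun t ht => stp_ne (hE _ (hA ht.2.1.1)))
      ?_
    rintro t ⟨_, h2, rfl, rfl, h3⟩
    by_contra hc
    push Not at hc
    refine h3 (le_inf (hFl _) (le_principal_iff.2 ?_))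
    exact eventually_all.2 fun i => hc _ ((hψ _ h2).1 i)
  choose φ hφJ hφh hφ using hφ
  choose c hch hc0 hc using fun l i => hN ν (φ l i) (hφh l i)
  let G : Set Ξ := {ξ | T2 ξ ∧ ∀ η, T2 η → Nb ξ η → Fl ξ ≤ Fl η}
  have ho : ∀ ξ, ∃ o : Option (Λ × Fin (L + 1) × Fin (D + 1)), ξ ∈ A \ G →
      (o = none ∧ ¬ T2 ξ) ∨ (T2 ξ ∧ ∃ l i e0, o = some (l, i, e0) ∧
        eval (x ξ) (c l i e0) = 0 ∧ ¬ ∀ᶠ z in Fl ξ, eval (Θ ξ z) (c l i e0) = 0) := by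
    intro ξ
    by_cases h : ξ ∈ A \ G ∧ T2 ξ
    · have h1 : ¬ ∀ η, T2 η → Nb ξ η → Fl ξ ≤ Fl η := fun h' => h.1.2 ⟨h.2, h'⟩
      push Not at h1
      obtain ⟨η, hη, hnb, hle⟩ := h1
      obtain ⟨ρ, hρ, hs⟩ := hc (lab η) (ix η) ξ (hA h.1.1) η (hA hη.1)
        (by rintro rfl; exact hle le_rfl) hnb
      obtain ⟨P, _, h1, h2⟩ := hJ η hη.2.1
      obtain ⟨e0, h3, h4⟩ := cut a (Fl ξ) (hFl ξ) D
        (fun e z => eval (Θ ξ z) (c (lab η) (ix η) e))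
        (fun e => stp_cont (hE ξ (hA h.1.1)).1.continuousAt _) (hc0 _ _ ξ (hA h.1.1)) ρ hρ
        (hs.self_of_nhds.1.2 (h2 (h1 (hφJ _ _))))
        (fun h' => hφ (lab η) (ix η) (ξ, η) ⟨h.2, hη, rfl, rfl, hle⟩
          ((h'.and (hs.filter_mono (hFl ξ))).mono fun z hz => hz.2.1.1 hz.1))
        ((hs.filter_mono (hFl ξ)).mono fun z hz => hz.2)
      exact ⟨some (lab η, ix η, e0), fun _ => Or.inr ⟨h.2, _, _, _, rfl, h3, h4⟩⟩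
    · exact ⟨none, fun h' => Or.inl ⟨rfl, fun h2 => h ⟨h', h2⟩⟩⟩
  choose o ho using ho
  have hνκ : ∀ r, r ≤ n + D → r * ν ≤ (n + D) * ν := fun r h => Nat.mul_le_mul_right _ h
  have hν1 : ν ≤ (n + D) * ν := by simpa using hνκ 1 (by omega)
  refine ⟨G, fun ξ h => h.1.1, ⟨Λ × Fin (L + 1) × Option (Λ × Fin (L + 1) × Fin (D + 1)),
    inferInstance, fun ξ => (lab ξ, ix ξ, o ξ), ?_, ?_⟩, Fl,
    fun ξ h η h' hn => le_antisymm (h.2 η h'.1 hn) (h'.2 ξ h.1 (hNb _ _ hn)), fun F => ?_⟩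
  · simp only [Nat.card_prod, Finite.card_option, Nat.card_eq_fintype_card, Fintype.card_prod,
      Fintype.card_fin]
    exact stp_card _ _ _ _ hm
  · intro ξ hξ q hq h1 h2
    by_contra h3
    have h3' : d + 1 + 1 ≤ dm ℂ q := by omega
    set B := {η | η ∈ A \ G ∧ (lab η, ix η, o η) = (lab ξ, ix ξ, o ξ)} with hB
    have hB1 : ∀ η ∈ B, η ∈ A \ G ∧ lab η = lab ξ ∧ ix η = ix ξ ∧ o η = o ξ := fun η h => by
      simpa only [hB, Set.mem_ofPred_eq, Prod.mk.injEq] using h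
    have hB2 : B ⊆ {η | η ∈ A ∧ lab η = lab ξ} := fun η h => ⟨(hB1 η h).1.1, (hB1 η h).2.1⟩
    have hqW : q ∈ W (lab ξ) :=
      hK ξ hξ.1 q hq ((stp_fm_mono (stp_van_anti x hB2) hν1).trans h1) h2 h3'
    rcases hix ξ with ⟨_, h4⟩ | ⟨h4, _, h5⟩
    · exact h4 ⟨q, hqW, h2⟩
    have h6 : fm (J (lab ξ) (ix ξ)) ν ⊆ q := (stp_fm_mono (fun g hg => (mem_van _ _ _).2
      fun η h => by
        obtain ⟨_, e1, e2, _⟩ := hB1 η h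
        obtain ⟨P, _, h7, h8⟩ := hJ η (e2 ▸ h4)
        exact h8 (h7 (e1 ▸ e2 ▸ hg))) hν1).trans h1
    rcases ho ξ hξ with ⟨h7, _⟩ | ⟨h7, l, i, e0, h8, _, h9⟩
    · refine h5 ⟨q, ⟨hqW, h6, fun g hg => h1 ⟨(mem_van _ _ _).2 fun η h => ?_, ?_⟩⟩, h2⟩
      · obtain ⟨h8, e1, e2, e3⟩ := hB1 η h
        rcases ho η h8 with ⟨_, h9⟩ | ⟨_, l, i, e0, h9, _⟩
        · by_contra h10
          exact h9 ⟨h8.1, e2 ▸ h4, fun h11 => h10 (h11 (e1 ▸ e2 ▸ hg))⟩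
        · rw [e3, h7] at h9; exact absurd h9 (by simp)
      · obtain ⟨μ, h8, h9⟩ := jac_form e ν _ hg
        exact ⟨μ, h8.trans (hνκ e (by omega)), h9⟩
    · obtain ⟨μ, h10, h11⟩ := hch l i e0
      refine h9 ((germ e (d + 1) hσ' hT' a (Θ ξ) (hE ξ (hA hξ.1)) (ψ ξ) (hψh ξ h7) (j ξ)
        (hψ0 ξ h7) (hψ ξ h7).2 q hq (fun i => h6 ((hψ ξ h7).1 i)) h2 h3' μ _ h11).1
        (h1 ⟨(mem_van _ _ _).2 fun η h => ?_, μ, h10.trans (hνκ D (by omega)), h11⟩))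
      obtain ⟨h12, _, _, e3⟩ := hB1 η h
      rcases ho η h12 with ⟨h13, _⟩ | ⟨_, l', i', e', h13, h14, _⟩
      · rw [e3, h8] at h13; exact absurd h13 (by simp)
      · rw [e3, h8] at h13
        obtain ⟨rfl, rfl, rfl⟩ : l = l' ∧ i = i' ∧ e0 = e' := by simpa using h13
        exact h14
  · rcases Set.eq_empty_or_nonempty {ξ | ξ ∈ G ∧ Fl ξ = F} with h | ⟨ξ0, h0, rfl⟩
    · simp [h]
    have hsm := sm_of_minor e (d + 1) hσ' hT' a (Θ ξ0) (hE ξ0 (hA h0.1.1)) (ψ ξ0) (hψh ξ0 h0.1)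
      (j ξ0) (hψ0 ξ0 h0.1) (hψ ξ0 h0.1).2
    refine (stp_count W hWf δ C0 H0 hδs (fun P => {ξ | ξ ∈ X0 ∧ Cuts a (Θ ξ) (Fl ξ0) P})
      (fun P => hX0.subset fun _ h => h.1) (fun l P hP => hC (d + 1) _ P _ ((n + 1) * k)
        (by omega) (by omega) hsm hP.1.1.1 (hδ l P hP).2.1 hP.2.1 (hδ l P hP).2.2) _ ?_).trans
      (by gcongr)
    rintro ξ ⟨h, hF⟩
    obtain ⟨P, hP, h1, h2⟩ := hJ ξ h.1.2.1
    refine ⟨lab ξ, P, hP, hA h.1.1, hF ▸ ?_⟩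
    exact cuts e (d + 1) hσ' hT' a (Θ ξ) (hE ξ (hA h.1.1)) (ψ ξ) (hψh ξ h.1) (j ξ)
      (hψ0 ξ h.1) (hψ ξ h.1).2 P hP.1.1.1 (fun i => h1 ((hψ ξ h.1).1 i).1) h2 hP.2.1.ge
      (hδ _ P hP).2.1

theorem last_fib {α β : Type} {A : Set α} (hA : A.Finite) (f : α → β) {W : Set β} (hW : W.Finite)
    (h1 : ∀ a ∈ A, f a ∈ W) (c : ℕ) (h2 : ∀ b ∈ W, {a | a ∈ A ∧ f a = b}.ncard ≤ c) :
    A.ncard ≤ W.ncard * c := by
  classical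
  rw [Set.ncard_eq_toFinset_card A hA, Set.ncard_eq_toFinset_card W hW, mul_comm]
  refine Finset.card_le_mul_card_image_of_maps_to (f := f) (fun a ha => ?_) c fun b hb => ?_
  · exact hW.mem_toFinset.2 (h1 a (hA.mem_toFinset.1 ha))
  · refine le_trans (le_of_eq ?_) (h2 b (hW.mem_toFinset.1 hb))
    rw [← Set.ncard_coe_finset]
    congr 1
    ext a
    simp

theorem last_one (n k H0 C0 : ℕ) (hσ : Fintype.card σ = n + 1) (hk : 1 ≤ k) (x : Ξ → σ → ℂ)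
    (X0 : Set Ξ) (hX0 : X0.Finite) (hx : ∀ ξ ∈ X0, x ξ ≠ 0) (hH : HP x X0 (nu n k) ≤ H0)
    (hM : ∀ ξ ∈ X0, {η | η ∈ X0 ∧ ∃ c : ℂ, x η = c • x ξ}.ncard ≤ C0) (B : Set Ξ) (hB : B ⊆ X0)
    (hS : ∀ ξ ∈ B, ∀ q : Ideal (MvPolynomial σ ℂ), q.IsPrime → fm (van x B) k ⊆ q →
      q ≤ mx (x ξ) → dm ℂ q ≤ 0 + 1) : B.ncard ≤ C0 * H0 := by
  let W : Set (Ideal (MvPolynomial σ ℂ)) :=
    {P | P ∈ (Ideal.span (fm (van x B) k)).minimalPrimes ∧ dm ℂ P = 0 + 1 ∧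
      fm (van x B) (nu n k) ⊆ P}
  have hf : W.Finite :=
    (Ideal.finite_minimalPrimes_of_isNoetherianRing _ _).subset fun P hP => hP.1
  obtain ⟨-, δ, h1, h2⟩ := alg n n 0 k H0 H0 hσ rfl hk (van x B) W hf (fun P hP => hP)
    ((hf_van x hB _).trans hH) Nat.lt_two_pow_self
  have hW : W.ncard ≤ H0 := by
    rw [Set.ncard_eq_toFinset_card W hf, Finset.card_eq_sum_ones]
    exact (Finset.sum_le_sum fun P hP => (h1 P (hf.mem_toFinset.1 hP)).1).trans h2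
  choose! P k1 k2 k3 k4 k5 using fun ξ (h : ξ ∈ X0) => line_prime (x ξ) (hx ξ h)
  have hP : ∀ ξ ∈ B, P ξ ∈ W := by
    intro ξ hξ
    have h3 : ∀ μ, fm (van x B) μ ⊆ P ξ := by
      rintro μ g ⟨h4, ν, -, h5⟩
      exact k4 ξ (hB hξ) ν g h5 ((mem_van x B g).1 h4 ξ hξ)
    have h4 := hS ξ hξ _ (k1 ξ (hB hξ)) (h3 k) (k2 ξ (hB hξ))
    have h5 := dm_lt (k := ℂ) (k1 ξ (hB hξ)) (mx_prime _) (k3 ξ (hB hξ))
    refine ⟨?_, by omega, h3 _⟩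
    have := k1 ξ (hB hξ)
    obtain ⟨q, hq, h6⟩ := Ideal.exists_minimalPrimes_le (J := P ξ) (Ideal.span_le.2 (h3 k))
    rcases h6.eq_or_lt with e | e
    · exact e ▸ hq
    · have h7 := hS ξ hξ q hq.1.1 (Ideal.span_le.1 hq.1.2) (h6.trans (k2 ξ (hB hξ)))
      have h8 := dm_lt (k := ℂ) hq.1.1 (k1 ξ (hB hξ)) e
      omega
  refine (last_fib (hX0.subset hB) P hf hP C0 fun Q _ => ?_).trans ?_
  · rcases Set.eq_empty_or_nonempty {a | a ∈ B ∧ P a = Q} with e | ⟨ξ, hξ, e⟩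
    · rw [e, Set.ncard_empty]
      exact Nat.zero_le _
    · refine le_trans (Set.ncard_le_ncard ?_ (hX0.subset fun η h => h.1)) (hM ξ (hB hξ))
      rintro η ⟨hη, e'⟩
      refine ⟨hB hη, k5 ξ (hB hξ) _ ?_⟩
      rw [e, ← e']
      exact k2 η (hB hη)
  · rw [mul_comm]
    exact Nat.mul_le_mul_left _ hW

theorem last (n k m H0 C0 : ℕ) (hσ : Fintype.card σ = n + 1) (hk : 1 ≤ k) (x : Ξ → σ → ℂ)
    (X0 : Set Ξ) (hX0 : X0.Finite) (hx : ∀ ξ ∈ X0, x ξ ≠ 0) (hH : HP x X0 (nu n k) ≤ H0)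
    (hM : ∀ ξ ∈ X0, {η | η ∈ X0 ∧ ∃ c : ℂ, x η = c • x ξ}.ncard ≤ C0) (A : Set Ξ) (hA : A ⊆ X0)
    (hS : St x 0 k m A) : A.ncard ≤ m * C0 * H0 := by
  obtain ⟨Λ, _, lab, h1, h2⟩ := hS
  refine (last_fib (hX0.subset hA) lab Set.finite_univ (fun _ _ => trivial) (C0 * H0)
    fun l _ => ?_).trans ?_
  · refine last_one n k H0 C0 hσ hk x X0 hX0 hx hH hM _ (fun η h => hA h.1) ?_
    rintro ξ ⟨hξ, rfl⟩
    exact h2 ξ hξ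
  · rw [Set.ncard_univ, mul_assoc]
    exact Nat.mul_le_mul_right _ h1

end M4.Z
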